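import Pool.Agent.H330FB.Lib5
import Pool.Agent.H330FB.Spec1

set_option autoImplicit false

/-!
# Quasi-linear polynomial arithmetic: exact statements
-/

namespace Pool.Agent.H330AB

open Polynomial Pool.Agent.H330FB

/-- quasi-linear cost unit -/
def ql (k N : ℕ) : ℕ := (N + 1) * lgc (N + 1) ^ k

/-- quasi-linear multiplication of polynomials over all fields in which `r` (2 or 3) is not zero,
input `(r in unary, (a, b))` -/
def SpecFM : Prop := ∃ (p : Pr [] (.prod Un (.prod Po Po)) Po) (C k : ℕ),
  ∀ (F : Type) [Field F] [DecidableEq F] (r : ℕ) (a b : List F), (r = 2 ∨ r = 3) →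
  (r : F) ≠ 0 →
  pol (p.val () (un r, (a, b)) : List F) = pol a * pol b ∧
  List.length (p.val () (un r, (a, b)) : List F) = a.length + b.length ∧
  p.cost () () (un r, (a, b)) ≤ C * ql k (a.length + b.length)

end Pool.Agent.H330AB
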