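/- JOB 3978 for project AB (MP_2adc98_lc, owner helper330), by helper341: SpecFM -/
import Pool.Agent.H330AB.SpecA1
set_option autoImplicit false
noncomputable section
namespace Pool.Agent.H330AB.JFM
open Polynomial Pool.Agent.H330FB

/-! ### Evaluation of lists -/

/-- evaluation of a list of coefficients -/
def evg {α R : Type} [CommRing R] (g : α → R) (y : R) (l : List α) : R :=
  l.foldr (fun c acc => g c + y * acc) 0

section evg
variable {α R : Type} [CommRing R] (g : α → R) (y : R)

@[simp] theorem evg_nil : evg g y [] = 0 := rfl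
@[simp] theorem evg_cons (a : α) (l : List α) : evg g y (a :: l) = g a + y * evg g y l := rfl

theorem evg_append (l l' : List α) :
    evg g y (l ++ l') = evg g y l + y ^ l.length * evg g y l' := by
  induction l with
  | nil => simp
  | cons a l ih => simp only [List.cons_append, evg_cons, ih, List.length_cons]; ring

theorem evg_split (n : ℕ) (l : List α) :
    evg g y l = evg g y (l.take n) + y ^ n * evg g y (l.drop n) := by
  by_cases h : n ≤ l.length
  · conv_lhs => rw [← List.take_append_drop n l]
    rw [evg_append, List.length_take, min_eq_left h]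
  · rw [List.take_of_length_le (by omega), List.drop_of_length_le (by omega)]
    simp

theorem evg_zp (f : α → α → α) (hf : ∀ a b, g (f a b) = g a + g b) (l m : List α) :
    evg g y (zp f l m) = evg g y l + evg g y m := by
  induction l generalizing m with
  | nil => simp [zp]
  | cons a l ih =>
    cases m with
    | nil => simp [zp]
    | cons b m => simp only [zp, evg_cons, hf, ih]; ring

theorem evg_map_mul {β : Type} (g' : β → R) (f : β → α) (z : R) (l : List β)
    (h : ∀ a ∈ l, g (f a) = z * g' a) :
    evg g y (l.map f) = z * evg g' y l := by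
  induction l with
  | nil => simp
  | cons a l ih =>
    simp only [List.map_cons, evg_cons, h a (by simp), ih (fun a ha => h a (by simp [ha]))]
    ring

theorem evg_replicate (z : α) (hz : g z = 0) (n : ℕ) : evg g y (List.replicate n z) = 0 := by
  induction n with
  | zero => simp
  | succ n ih => simp [List.replicate_succ, hz, ih]

theorem evg_fit (z : α) (hz : g z = 0) (n : ℕ) (l : List α) (hl : l.length ≤ n) :
    evg g y (fit n z l) = evg g y l := by
  induction n generalizing l with
  | zero =>
    have : l = [] := List.length_eq_zero_iff.1 (by omega)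
    subst this
    rfl
  | succ n ih =>
    cases l with
    | nil => simp only [fit, evg_cons, hz, ih [] (by simp)]; simp
    | cons a l => simp only [fit, evg_cons, ih l (by simpa using hl)]

theorem evg_chunks (n k : ℕ) (l : List α) (h : l.length ≤ k * n) :
    evg (evg g y) (y ^ n) (chunks n k l) = evg g y l := by
  induction k generalizing l with
  | zero =>
    have : l = [] := List.length_eq_zero_iff.1 (by omega)
    subst this
    rfl
  | succ k ih =>
    simp only [chunks, evg_cons]
    rw [ih _ (by rw [List.length_drop]; have : (k + 1) * n = k * n + n := by ring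
                 omega), ← evg_split]

theorem evg_flatten (n : ℕ) (Ls : List (List α)) (h : ∀ L ∈ Ls, L.length = n) :
    evg g y Ls.flatten = evg (evg g y) (y ^ n) Ls := by
  induction Ls with
  | nil => rfl
  | cons L Ls ih =>
    rw [List.flatten_cons, evg_append, evg_cons, ih (fun L hL => h L (by simp [hL])),
      h L (by simp)]

theorem evg_sub_dvd (x : R) (l : List α) : (y - x) ∣ evg g y l - evg g x l := by
  induction l with
  | nil => simp
  | cons a l ih =>
    obtain ⟨d, hd⟩ := ih
    refine ⟨evg g y l + x * d, ?_⟩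
    simp only [evg_cons]
    linear_combination x * hd

end evg

/-- rotation -/
def rot {α : Type} (e : ℕ) (l : List α) : List α := l.drop e ++ l.take e

@[simp] theorem length_rot {α : Type} (e : ℕ) (l : List α) : (rot e l).length = l.length := by
  simp only [rot, List.length_append, List.length_drop, List.length_take]
  omega

theorem evg_rot {α R : Type} [CommRing R] (g : α → R) (x : R) (e : ℕ) (l : List α)
    (he : e ≤ l.length) (hx : x ^ l.length = 1) :
    evg g x (rot e l) = x ^ (l.length - e) * evg g x l := by
  rw [rot, evg_append, evg_split g x e l, List.length_drop]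
  have : x ^ (l.length - e) * x ^ e = 1 := by rw [← pow_add, Nat.sub_add_cancel he, hx]
  linear_combination (-(evg g x (l.drop e))) * this

/-! ### The algebra of one step -/

theorem geo_pow {R : Type} [CommRing R] (r : ℕ) (hr : r = 2 ∨ r = 3) (w : R)
    (hw : ∑ k ∈ Finset.range r, w ^ k = 0) (i : ℕ) (h0 : 0 < i) (hi : i < r) :
    ∑ k ∈ Finset.range r, (w ^ i) ^ k = 0 := by
  rcases hr with rfl | rfl
  · have : i = 1 := by omega
    subst this
    simpa using hw
  · have : i = 1 ∨ i = 2 := by omega
    simp only [Finset.sum_range_succ, Finset.sum_range_zero] at hw ⊢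
    rcases this with rfl | rfl
    · linear_combination hw
    · linear_combination (1 + w ^ 2 - w) * hw

theorem geo_one {R : Type} [CommRing R] (r : ℕ) (w : R)
    (hw : ∑ k ∈ Finset.range r, w ^ k = 0) : w ^ r = 1 := by
  have := geom_sum_mul w r
  rw [hw, zero_mul] at this
  exact (sub_eq_zero.1 this.symm)

theorem fm_key {R : Type} [CommRing R] (r m M u E : ℕ) (x y N ab c : R) (ck : ℕ → R)
    (hr : r = 2 ∨ r = 3) (hM : M = r * m) (hx : ∑ k ∈ Finset.range r, (x ^ m) ^ k = 0)
    (hE : ∀ k < r, E + k * m ≤ M)
    (h : ∀ k < r, (y ^ u - x ^ (E + k * m)) ∣ ck k - N * ab)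
    (hc : c = ∑ k ∈ Finset.range r,
      (∑ i ∈ Finset.range r, (y ^ u * x ^ (M - (E + k * m))) ^ i) * ck k) :
    (y ^ (r * u) - x ^ (r * E)) ∣ c - (r * N) * ab := by
  have hxM : x ^ M = 1 := by
    rw [hM, mul_comm, pow_mul]
    exact geo_one r _ hx
  set z : ℕ → R := fun k => x ^ (M - (E + k * m)) with hz
  have hzx : ∀ k < r, z k * x ^ (E + k * m) = 1 := by
    intro k hk
    rw [hz]
    simp only
    rw [← pow_add, Nat.sub_add_cancel (hE k hk), hxM]
  -- inverse of the root of unity
  have h0 : 0 < r := by omega
  set w : R := (x ^ m) ^ (r - 1) with hw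
  have hws : ∑ k ∈ Finset.range r, w ^ k = 0 := by
    rw [hw]
    exact geo_pow r hr _ hx (r - 1) (by omega) (by omega)
  have hwx : w * x ^ m = 1 := by
    rw [hw, ← pow_succ, Nat.sub_add_cancel h0]
    exact geo_one r _ hx
  have hzk : ∀ k < r, z k = z 0 * w ^ k := by
    intro k hk
    have h1 := hzx k hk
    have h2 := hzx 0 h0
    rw [zero_mul, add_zero] at h2
    have h3 : z 0 * w ^ k * x ^ (E + k * m) = 1 := by
      rw [pow_add, mul_comm k m, pow_mul]
      calc z 0 * w ^ k * (x ^ E * (x ^ m) ^ k) = (z 0 * x ^ E) * (w * x ^ m) ^ k := by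
            rw [mul_pow]; ring
        _ = 1 := by rw [h2, hwx, one_pow, one_mul]
    calc z k = z k * (z 0 * w ^ k * x ^ (E + k * m)) := by rw [h3, mul_one]
      _ = (z k * x ^ (E + k * m)) * (z 0 * w ^ k) := by ring
      _ = z 0 * w ^ k := by rw [h1, one_mul]
  -- the sum of the idempotents
  have hG : ∑ k ∈ Finset.range r, (∑ i ∈ Finset.range r, (y ^ u * z k) ^ i) = r := by
    rw [Finset.sum_comm]
    have : ∀ i ∈ Finset.range r, (∑ k ∈ Finset.range r, (y ^ u * z k) ^ i) =
        if i = 0 then (r : R) else 0 := by
      intro i hi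
      rw [Finset.mem_range] at hi
      split_ifs with h0
      · subst h0
        simp
      · have e1 : ∀ k ∈ Finset.range r, (y ^ u * z k) ^ i = (y ^ u * z 0) ^ i * (w ^ i) ^ k := by
          intro k hk
          rw [hzk k (Finset.mem_range.1 hk), ← mul_assoc, mul_pow, pow_right_comm w k i]
        rw [Finset.sum_congr rfl e1, ← Finset.mul_sum, geo_pow r hr w hws i (by omega) hi,
          mul_zero]
    rw [Finset.sum_congr rfl this, Finset.sum_ite_eq' (Finset.range r) 0 (fun _ => (r : R))]
    simp [h0]
  have hsplit : c - (r * N) * ab =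
      ∑ k ∈ Finset.range r, (∑ i ∈ Finset.range r, (y ^ u * z k) ^ i) * (ck k - N * ab) := by
    rw [hc]
    simp only [mul_sub, Finset.sum_sub_distrib]
    rw [← Finset.sum_mul, hG]
    ring
  rw [hsplit]
  refine Finset.dvd_sum fun k hk => ?_
  rw [Finset.mem_range] at hk
  obtain ⟨d, hd⟩ := h k hk
  rw [hd, ← mul_assoc]
  refine Dvd.dvd.mul_right ?_ d
  have e1 := geom_sum_mul (y ^ u * z k) r
  have e2 := hzx k hk
  have e3 : x ^ (r * (E + k * m)) = x ^ (r * E) := by
    have : r * (E + k * m) = r * E + M * k := by rw [hM]; ring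
    rw [this, pow_add, pow_mul x M k, hxM, one_pow, mul_one]
  refine ⟨x ^ (E + k * m) * z k ^ r, ?_⟩
  have e4 : (∑ i ∈ Finset.range r, (y ^ u * z k) ^ i) * (y ^ u - x ^ (E + k * m)) =
      x ^ (E + k * m) * ((y ^ u * z k) ^ r - 1) := by
    rw [← e1]
    linear_combination (-(∑ i ∈ Finset.range r, (y ^ u * z k) ^ i) * y ^ u) * e2
  have e5 : z k ^ r * x ^ (r * E) = 1 := by
    rw [← e3, mul_comm r, pow_mul, ← mul_pow, e2, one_pow]
  rw [e4, mul_pow, ← pow_mul, mul_comm u r]
  linear_combination (x ^ (E + k * m)) * e5

/-! ### Polynomials of bounded degree -/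

/-- all coefficients from `n` on are zero -/
def dl {R : Type} [CommRing R] (n : ℕ) (p : R[X]) : Prop := ∀ i, n ≤ i → p.coeff i = 0

section dl
variable {R : Type} [CommRing R]

theorem dl_mono {n k : ℕ} {p : R[X]} (h : dl n p) (hk : n ≤ k) : dl k p :=
  fun i hi => h i (hk.trans hi)
theorem dl_add {n : ℕ} {p q : R[X]} (hp : dl n p) (hq : dl n q) : dl n (p + q) :=
  fun i hi => by rw [coeff_add, hp i hi, hq i hi, add_zero]
theorem dl_sub {n : ℕ} {p q : R[X]} (hp : dl n p) (hq : dl n q) : dl n (p - q) :=
  fun i hi => by rw [coeff_sub, hp i hi, hq i hi, sub_zero]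
theorem dl_xmul {n k : ℕ} {p : R[X]} (hp : dl n p) : dl (k + n) (X ^ k * p) := by
  intro i hi
  rw [coeff_X_pow_mul', if_pos (by omega), hp _ (by omega)]
theorem dl_mul {n k : ℕ} {p q : R[X]} (hp : dl n p) (hq : dl k q) : dl (n + k) (p * q) := by
  intro i hi
  rw [coeff_mul]
  refine Finset.sum_eq_zero fun x hx => ?_
  replace hx := Finset.HasAntidiagonal.mem_antidiagonal.1 hx
  by_cases h : n ≤ x.1
  · rw [hp _ h, zero_mul]
  · rw [hq _ (by omega), mul_zero]

theorem dl_pol (l : List R) : dl l.length (pol l) := by
  induction l with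
  | nil => intro i _; simp [pol]
  | cons a l ih =>
    intro i hi
    obtain ⟨i, rfl⟩ : ∃ j, i = j + 1 := ⟨i - 1, by simp at hi; omega⟩
    rw [pol, coeff_add, coeff_X_mul, ih i (by simpa using hi), add_zero, coeff_C_succ]

theorem dl_zero_of_dvd {M : ℕ} (hM : 0 < M) {q : R[X]} (hq : dl M q) (h : X ^ M - 1 ∣ q) :
    q = 0 := by
  nontriviality R
  by_contra h0
  have hm : (X ^ M - 1 : R[X]).Monic := by
    have := monic_X_pow_sub_C (1 : R) hM.ne'
    simpa using this
  refine hm.not_dvd_of_degree_lt h0 ?_ h
  have hd : (X ^ M - 1 : R[X]).degree = M := by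
    have := degree_X_pow_sub_C hM (1 : R)
    simpa using this
  rw [hd, degree_lt_iff_coeff_zero]
  intro i hi
  exact hq i (by exact_mod_cast hi)

theorem dl_zero_of_xdvd {M : ℕ} {q : R[X]} (hq : dl M q) (h : X ^ M ∣ q) : q = 0 := by
  ext i
  rw [coeff_zero]
  by_cases hi : M ≤ i
  · exact hq i hi
  · obtain ⟨d, rfl⟩ := h
    rw [coeff_X_pow_mul', if_neg hi]

end dl

theorem evg_pol {R : Type} [CommRing R] (l : List R) : evg (C : R →+* R[X]) X l = pol l := by
  induction l with
  | nil => rfl
  | cons a l ih => rw [evg_cons, ih, pol]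

theorem pol_split {R : Type} [CommRing R] (n : ℕ) (l : List R) :
    pol l = pol (l.take n) + X ^ n * pol (l.drop n) := by
  rw [← evg_pol, ← evg_pol, ← evg_pol]
  exact evg_split _ _ _ _

/-- extraction of the result from a representative modulo the cyclotomic polynomial -/
theorem fm_extract {F : Type} [Field F] (r m M : ℕ) (hr : 2 ≤ r) (hm : 0 < m) (hM : M = r * m)
    (l : List F) (hl : l.length = M) (P : F[X]) (hP : dl m P)
    (h : (∑ k ∈ Finset.range r, (X ^ m) ^ k : F[X]) ∣ pol l - P) :
    pol (l.take m) - pol (l.drop (M - m)) = P := by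
  have hMm : 2 * m ≤ M := by rw [hM]; exact Nat.mul_le_mul_right _ hr
  have h1 : (X ^ M - 1 : F[X]) ∣ (X ^ m - 1) * (pol l - P) := by
    have e := geom_sum_mul (X ^ m : F[X]) r
    rw [← pow_mul, mul_comm m r, ← hM] at e
    rw [← e, mul_comm (X ^ m - 1 : F[X])]
    exact mul_dvd_mul_right h _
  have s1 := pol_split (M - m) l
  have s2 := pol_split m l
  have hX : (X ^ m * X ^ (M - m) : F[X]) = X ^ M := by rw [← pow_add]; congr 1; omega
  have h2 : (X ^ m - 1 : F[X]) * (pol l - P) =
      ((pol (l.drop (M - m)) - pol (l.take m) + P) +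
        X ^ m * (pol (l.take (M - m)) - pol (l.drop m) - P)) +
        (X ^ M - 1) * pol (l.drop (M - m)) := by
    rw [← hX]
    linear_combination (X ^ m : F[X]) * s1 - s2
  rw [h2] at h1
  have h3 : (X ^ M - 1 : F[X]) ∣ ((pol (l.drop (M - m)) - pol (l.take m) + P) +
        X ^ m * (pol (l.take (M - m)) - pol (l.drop m) - P)) :=
    (dvd_add_left (dvd_mul_right _ _)).1 h1
  have d1 : dl m (pol (l.drop (M - m)) - pol (l.take m) + P) := by
    refine dl_add (dl_sub (dl_mono (dl_pol _) ?_) (dl_mono (dl_pol _) ?_)) hP
    · rw [List.length_drop]; omega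
    · rw [List.length_take]; omega
  have d2 : dl (M - m) (pol (l.take (M - m)) - pol (l.drop m) - P) := by
    refine dl_sub (dl_sub (dl_mono (dl_pol _) ?_) (dl_mono (dl_pol _) ?_)) (dl_mono hP (by omega))
    · rw [List.length_take]; omega
    · rw [List.length_drop]; omega
  have h4 := dl_zero_of_dvd (by omega : 0 < M) (dl_add (dl_mono d1 (by omega))
    (by have := dl_xmul (k := m) d2
        rwa [show m + (M - m) = M by omega] at this)) h3
  have h5 : pol (l.drop (M - m)) - pol (l.take m) + P = 0 := by
    refine dl_zero_of_xdvd d1 ⟨-(pol (l.take (M - m)) - pol (l.drop m) - P), ?_⟩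
    linear_combination h4
  linear_combination -h5

/-! ### The end of the correctness proof -/

section final
variable {F : Type} [Field F]

/-- polynomial in two variables given by rows -/
noncomputable def pp (A : List (List F)) : F[X][X] :=
  evg (fun a => (C (pol a) : F[X][X])) X A

theorem coeff_pp (A : List (List F)) (i : ℕ) :
    (pp A).coeff i = pol (A.getD i []) := by
  unfold pp
  induction A generalizing i with
  | nil => simp [pol]
  | cons a A ih =>
    cases i with
    | zero => simp
    | succ i => simp [ih, coeff_X_mul]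

theorem pp_map_fit (M : ℕ) (L : List (List F)) (hL : L.length ≤ M) (h : ∀ c ∈ L, c.length ≤ M) :
    pp (fit M (List.replicate M 0) (L.map (fit M 0))) = pp L := by
  have z1 : pol (List.replicate M (0 : F)) = 0 := by
    rw [← evg_pol]
    exact evg_replicate _ _ _ (by simp) _
  unfold pp
  rw [evg_fit _ _ _ (by rw [z1, C_0]) _ _ (by simpa using hL)]
  clear hL
  induction L with
  | nil => rfl
  | cons c L ih =>
    rw [List.map_cons, evg_cons, evg_cons, ih (fun c hc => h c (by simp [hc]))]
    have : pol (fit M 0 c) = pol c := by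
      rw [← evg_pol, ← evg_pol]
      exact evg_fit _ _ _ (by simp) _ _ (h c (by simp))
    rw [this]

theorem eval_pp (z : F[X]) (L : List (List F)) : (pp L).eval z = evg pol z L := by
  unfold pp
  induction L with
  | nil => simp
  | cons c L ih => simp [ih]

theorem length_chunks {α : Type} (n k : ℕ) (l : List α) : (chunks n k l).length = k := by
  induction k generalizing l with
  | zero => rfl
  | succ k ih => simp [chunks, ih]

theorem length_le_of_mem_chunks {α : Type} (n k : ℕ) (l c : List α) (h : c ∈ chunks n k l) :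
    c.length ≤ n := by
  induction k generalizing l with
  | zero => simp [chunks] at h
  | succ k ih =>
    simp only [chunks, List.mem_cons] at h
    rcases h with rfl | h
    · simp
    · exact ih _ h

theorem dl_pp (L : List (List F)) : dl L.length (pp L) := by
  intro i hi
  rw [coeff_pp, List.getD_eq_default _ _ hi, pol]

theorem dl_coeff_pp (h : ℕ) (L : List (List F)) (hL : ∀ c ∈ L, c.length ≤ h) (i : ℕ) :
    dl h ((pp L).coeff i) := by
  rw [coeff_pp]
  by_cases hi : i < L.length
  · rw [List.getD_eq_getElem _ _ hi]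
    exact dl_mono (dl_pol _) (hL _ (List.getElem_mem hi))
  · rw [List.getD_eq_default _ _ (by omega)]
    intro j _
    simp [pol]

theorem dl_nat {R : Type} [CommRing R] {n : ℕ} (N : ℕ) {p : R[X]} (hp : dl n p) :
    dl n ((N : R[X]) * p) := by
  intro i hi
  rw [coeff_natCast_mul, hp i hi, mul_zero]

theorem fm_final (r h m M : ℕ) (hr : r = 2 ∨ r = 3) (hh : 0 < h) (hm : m = r * h)
    (hM : M = r * m) (hF : (M : F) ≠ 0) (a b : List F) (ha : a.length ≤ m * h)
    (hb : b.length ≤ m * h) (Cc : List (List F)) (hC : Cc.length = M)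
    (hCr : ∀ c ∈ Cc, c.length = M)
    (hdvd : ∀ (R : Type) [CommRing R] [Algebra F R] (x y : R),
      ∑ k ∈ Finset.range r, (x ^ m) ^ k = 0 →
      (y ^ M - 1) ∣ evg (evg (algebraMap F R) x) y Cc - (M : R) *
        (evg (evg (algebraMap F R) x) y (fit M (List.replicate M 0) ((chunks h m a).map (fit M 0))) *
        evg (evg (algebraMap F R) x) y (fit M (List.replicate M 0) ((chunks h m b).map (fit M 0)))))
    (nrm : List F → List F)
    (hN : ∀ c, pol (nrm c) = C ((M : F)⁻¹) * (pol (c.take m) - pol (c.drop (M - m)))) :
    evg pol (X ^ h) (Cc.map nrm) = pol a * pol b := by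
  have h2r : 2 ≤ r := by omega
  have hm0 : 0 < m := by rw [hm]; exact Nat.mul_pos (by omega) hh
  have h2h : 2 * h ≤ m := by rw [hm]; exact Nat.mul_le_mul_right _ h2r
  have h2m : 2 * m ≤ M := by rw [hM]; exact Nat.mul_le_mul_right _ h2r
  set Φ : F[X] := ∑ k ∈ Finset.range r, (X ^ m) ^ k with hΦ
  -- the chunks
  have hch : ∀ a : List F, pp (fit M (List.replicate M 0) ((chunks h m a).map (fit M 0))) =
      pp (chunks h m a) := by
    intro a
    refine pp_map_fit M _ (by rw [length_chunks]; omega) fun c hc => ?_
    have := length_le_of_mem_chunks _ _ _ _ hc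
    omega
  have hev : ∀ a : List F, a.length ≤ m * h → (pp (chunks h m a)).eval (X ^ h) = pol a := by
    intro a ha
    rw [eval_pp]
    have e : (pol : List F → F[X]) = evg (C : F →+* F[X]) X := by
      funext l
      exact (evg_pol l).symm
    rw [e]
    exact evg_chunks _ _ _ _ _ ha
  -- the ring
  let D := AdjoinRoot Φ
  let ψ : F[X][X] →+* D[X] := mapRingHom (AdjoinRoot.mk Φ)
  have e1 : ∀ c : List F, evg (algebraMap F D[X]) (C (AdjoinRoot.root Φ)) c =
      C (AdjoinRoot.mk Φ (pol c)) := by
    intro c
    induction c with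
    | nil => simp [pol]
    | cons x c ih =>
      rw [evg_cons, ih, pol, map_add, map_mul, AdjoinRoot.mk_X, AdjoinRoot.mk_C, C_add, C_mul]
      rfl
  have e2 : ∀ L : List (List F), evg (evg (algebraMap F D[X]) (C (AdjoinRoot.root Φ))) X L =
      ψ (pp L) := by
    intro L
    unfold pp
    induction L with
    | nil => simp
    | cons c L ih =>
      rw [evg_cons, evg_cons, ih, map_add, map_mul, e1]
      simp [ψ]
  have hroot : ∑ k ∈ Finset.range r, ((C (AdjoinRoot.root Φ) : D[X]) ^ m) ^ k = 0 := by
    have h1 : AdjoinRoot.mk Φ (∑ k ∈ Finset.range r, ((X : F[X]) ^ m) ^ k) = 0 :=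
      AdjoinRoot.mk_self
    have h2 : ∑ k ∈ Finset.range r, ((AdjoinRoot.root Φ : D) ^ m) ^ k = 0 := by
      rw [← h1, map_sum]
      refine Finset.sum_congr rfl fun k _ => ?_
      rw [map_pow, map_pow, AdjoinRoot.mk_X]
    have h3 := congrArg (C : D →+* D[X]) h2
    rw [map_sum, map_zero] at h3
    rw [← h3]
    refine Finset.sum_congr rfl fun k _ => ?_
    rw [map_pow, map_pow]
  have h3 := hdvd D[X] (C (AdjoinRoot.root Φ)) X hroot
  rw [e2, e2, e2, hch, hch] at h3
  set Δ : F[X][X] := pp Cc - (M : F[X][X]) * (pp (chunks h m a) * pp (chunks h m b)) with hΔ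
  have h4 : (X ^ M - 1 : D[X]) ∣ ψ Δ := by
    rw [hΔ, map_sub, map_mul, map_mul, map_natCast]
    exact h3
  have hdab : dl M (pp (chunks h m a) * pp (chunks h m b)) := by
    refine dl_mono (dl_mul (dl_pp _) (dl_pp _)) ?_
    rw [length_chunks, length_chunks]
    omega
  have hdΔ : dl M Δ := by
    refine dl_sub ?_ (dl_nat _ hdab)
    have := dl_pp Cc
    rwa [hC] at this
  have h5 : ψ Δ = 0 := by
    refine dl_zero_of_dvd (by omega : 0 < M) ?_ h4
    intro i hi
    simp only [ψ, coe_mapRingHom, coeff_map, hdΔ i hi, map_zero]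
  have h6 : ∀ i, Φ ∣ Δ.coeff i := by
    intro i
    rw [← AdjoinRoot.mk_eq_zero]
    have := congrArg (fun q : D[X] => q.coeff i) h5
    simpa only [ψ, coe_mapRingHom, coeff_map, coeff_zero] using this
  have h7 : pp (Cc.map nrm) = pp (chunks h m a) * pp (chunks h m b) := by
    ext1 i
    by_cases hi : M ≤ i
    · rw [hdab i hi]
      have := dl_pp (Cc.map nrm)
      rw [List.length_map, hC] at this
      exact this i hi
    · have hi' : i < Cc.length := by omega
      have g1 := h6 i
      rw [hΔ, coeff_sub, coeff_natCast_mul, coeff_pp, List.getD_eq_getElem _ _ hi'] at g1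
      have hP : dl m (((M : ℕ) : F[X]) * (pp (chunks h m a) * pp (chunks h m b)).coeff i) := by
        refine dl_nat _ ?_
        intro j hj
        rw [coeff_mul, finsetSum_coeff]
        refine Finset.sum_eq_zero fun x _ => ?_
        refine dl_mul (dl_coeff_pp h _ ?_ _) (dl_coeff_pp h _ ?_ _) j (by omega)
        · exact fun c hc => length_le_of_mem_chunks _ _ _ _ hc
        · exact fun c hc => length_le_of_mem_chunks _ _ _ _ hc
      have g2 := fm_extract r m M h2r hm0 hM _ (hCr _ (List.getElem_mem hi')) _ hP g1
      rw [coeff_pp, List.getD_eq_getElem _ _ (by simpa using hi'), List.getElem_map, hN, g2,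
        ← mul_assoc]
      have : (C ((M : F)⁻¹) * ((M : ℕ) : F[X])) = 1 := by
        rw [← C_eq_natCast, ← C_mul, inv_mul_cancel₀ hF, C_1]
      rw [this, one_mul]
  rw [← eval_pp, h7, eval_mul, hev a ha, hev b hb]

end final


section progs
variable {F : Type} [Field F] [DecidableEq F]
variable {s : List (Ty × Ty)} {a b c d e g σ τ : Ty}

/-! ### Unary numbers -/

@[simp] theorem length_un (n : ℕ) : List.length (un n) = n := List.length_replicate

theorem un_eq (l : List Unit) : l = un l.length := by
  induction l with
  | nil => rfl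
  | cons x l ih => rw [List.length_cons]; conv_lhs => rw [ih]
                   rfl

theorem un_app (m n : ℕ) : un m ++ un n = un (m + n) := by
  rw [un_eq (un m ++ un n)]; simp

theorem un_inj_len {l : List Unit} {n : ℕ} (h : l.length = n) : l = un n := by
  rw [un_eq l, h]

theorem drop_un (k n : ℕ) : List.drop k (un n) = un (n - k) := by
  apply un_inj_len; simp

/-! ### rotation -/

/-- input `(e, l)` -/
def rotP : Pr s (.prod (.list b) (.list a)) (.list a) :=
  .comp splitP (.comp (.pair .snd .fst) appP)

@[simp] theorem val_rotP (v : SV F s) (x : Ty.D F (.prod (.list b) (.list a))) :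
    (rotP : Pr s (.prod (.list b) (.list a)) _).val v x = rot (List.length x.1) x.2 := by
  simp [rotP, rot]

theorem cost_rotP (v : SV F s) (k : SC F s) (x : Ty.D F (.prod (.list b) (.list a))) :
    (rotP : Pr s (.prod (.list b) (.list a)) _).cost v k x ≤
      24 * List.length x.1 + 20 * List.length x.2 + 16 := by
  have h1 := cost_splitP (s := s) v k x
  have h2 := cost_appP (s := s) v k (List.drop (List.length x.1) x.2, List.take (List.length x.1) x.2)
  simp only [List.length_drop] at h2
  simp only [rotP, cost_comp, cost_pair, cost_snd, cost_fst, val_splitP, val_pair, val_snd,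
    val_fst]
  omega

/-! ### division of a length -/

/-- body of the division -/
def divB : Pr ((.prod (.list b) (.list a), .list .unit) :: s) (.prod (.list b) (.list a))
    (.list .unit) :=
  onL .snd .nil (.comp (.pair .star (.comp (.pair (.comp .fst .fst)
    (.comp (.comp .fst splitP) .snd)) .self)) .cons)

/-- input `(r, l)`, output the length of `l` divided by `r`, rounded up -/
def divP : Pr s (.prod (.list b) (.list a)) (.list .unit) :=
  .comp (.pair .snd .id) (.recD divB .nil)

theorem val_divB (S : Ty.D F (.prod (.list b) (.list a)) → List Unit) (v : SV F s)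
    (rl : List (Ty.D F b)) (l : List (Ty.D F a)) :
    (divB : Pr ((.prod (.list b) (.list a), .list .unit) :: s) _ _).val (S, v) (rl, l) =
      lcase l [] (fun _ _ => () :: S (rl, List.drop rl.length l)) := by
  cases l <;> simp [divB]

theorem cost_divB (S : Ty.D F (.prod (.list b) (.list a)) → List Unit)
    (K : Ty.D F (.prod (.list b) (.list a)) → ℕ) (v : SV F s) (k : SC F s)
    (rl : List (Ty.D F b)) (l : List (Ty.D F a)) :
    (divB : Pr ((.prod (.list b) (.list a), .list .unit) :: s) _ _).cost (S, v) (K, k) (rl, l) ≤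
      lcase l 5 (fun _ _ => K (rl, List.drop rl.length l) + 24 * rl.length + 40) := by
  cases l with
  | nil => simp [divB]
  | cons x l =>
    have e2 := cost_splitP (s := (.prod (.list b) (.list a), .list .unit) :: s) (F := F)
      (S, v) (K, k) (rl, x :: l)
    simp [divB] at e2 ⊢
    omega

theorem goV_div (v : SV F s) (n : ℕ) (rl : List (Ty.D F b)) (l : List (Ty.D F a))
    (hr : 0 < rl.length) (hn : l.length ≤ n) :
    goV (s := s) divB .nil v n (rl, l) = un ((l.length + rl.length - 1) / rl.length) := by
  induction n generalizing l with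
  | zero =>
    have : l = [] := List.length_eq_zero_iff.1 (by omega)
    subst this
    simp only [goV, val_nil, List.length_nil, zero_add]
    rw [Nat.div_eq_of_lt (by omega)]
    rfl
  | succ n ih =>
    rw [goV, val_divB]
    cases l with
    | nil =>
      simp only [lcase_nil, List.length_nil, zero_add]
      rw [Nat.div_eq_of_lt (by omega)]
      rfl
    | cons x l =>
      rw [lcase_cons, ih (List.drop rl.length (x :: l)) (by
        rw [List.length_drop]; simp only [List.length_cons] at hn ⊢; omega)]
      apply un_inj_len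
      rw [List.length_cons, length_un, List.length_drop]
      simp only [List.length_cons]
      generalize rl.length = r at hr ⊢
      generalize l.length = k
      by_cases h : r ≤ k + 1
      · have : k + 1 + r - 1 = (k + 1 - r + r - 1) + r := by omega
        rw [this, Nat.add_div_right _ hr]
      · rw [Nat.sub_eq_zero_of_le (show k + 1 ≤ r by omega), zero_add,
          Nat.div_eq_of_lt (by omega : r - 1 < r)]
        have : (k + 1 + r - 1) = k + r := by omega
        rw [this, Nat.add_div_right _ hr, Nat.div_eq_of_lt (by omega)]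

theorem val_divP (v : SV F s) (rl : List (Ty.D F b)) (l : List (Ty.D F a))
    (hr : 0 < rl.length) :
    (divP : Pr s (.prod (.list b) (.list a)) _).val v (rl, l) =
      un ((l.length + rl.length - 1) / rl.length) := by
  simp only [divP, val_comp, val_pair, val_snd, val_id, val_recD]
  exact goV_div v _ rl l hr le_rfl

theorem cost_divP (v : SV F s) (k : SC F s) (rl : List (Ty.D F b)) (l : List (Ty.D F a))
    (hr : 0 < rl.length) :
    (divP : Pr s (.prod (.list b) (.list a)) _).cost v k (rl, l) ≤
      (24 * rl.length + 40) * l.length + 20 := by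
  simp only [divP, cost_comp, cost_pair, val_pair, val_snd, val_id, cost_snd, cost_id, cost_recD]
  have : ∀ (n : ℕ) (l : List (Ty.D F a)), l.length ≤ n →
      goC (s := s) divB .nil v k n (rl, l) ≤ (24 * rl.length + 40) * l.length + 5 := by
    intro n
    induction n with
    | zero =>
      intro l hl
      simp [goC]
    | succ n ih =>
      intro l hl
      rw [goC]
      refine (cost_divB _ _ _ _ _ _).trans ?_
      cases l with
      | nil => simp
      | cons x l =>
        have e := ih (List.drop rl.length (x :: l)) (by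
          rw [List.length_drop]; simp only [List.length_cons] at hl ⊢; omega)
        rw [lcase_cons]
        have h3 : (24 * rl.length + 40) * (List.drop rl.length (x :: l)).length ≤
            (24 * rl.length + 40) * l.length := by
          apply Nat.mul_le_mul_left
          rw [List.length_drop, List.length_cons]
          omega
        have h4 : (24 * rl.length + 40) * (x :: l).length =
            (24 * rl.length + 40) * l.length + (24 * rl.length + 40) := by
          rw [List.length_cons]; ring
        omega
  have := this l.length l le_rfl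
  omega

/-! ### logarithm of a length -/

/-- body of the logarithm -/
def lgrB : Pr ((.prod (.list b) (.list .unit), .list .unit) :: s)
    (.prod (.list b) (.list .unit)) (.list .unit) :=
  onL .snd .nil (onL (.comp .snd .snd) .nil
    (.comp (.pair .star (.comp (.pair (.comp (.comp .fst .fst) .fst)
      (.comp (.comp .fst .fst) divP)) .self)) .cons))

/-- input `(r, l)`, output the logarithm of the length of `l` in base `r`, rounded up -/
def lgrP : Pr s (.prod (.list b) (.list .unit)) (.list .unit) :=
  .comp (.pair .snd .id) (.recD lgrB .nil)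

theorem val_lgrB (S : Ty.D F (.prod (.list b) (.list .unit)) → List Unit) (v : SV F s)
    (rl : List (Ty.D F b)) (l : ℕ) (hr : 0 < rl.length) :
    (lgrB : Pr ((.prod (.list b) (.list .unit), .list .unit) :: s) _ _).val (S, v) (rl, un l) =
      if l ≤ 1 then [] else () :: S (rl, un ((l + rl.length - 1) / rl.length)) := by
  rcases l with _ | _ | l
  · simp [lgrB, un]
  · simp [lgrB, un]
  · have hd : un (l + 1 + 1) = () :: () :: un l := rfl
    have h2 := val_divP (F := F) (s := (.prod (.list b) (.list .unit), .list .unit) :: s)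
      (a := .unit) (S, v) rl (un (l + 1 + 1)) hr
    rw [if_neg (by omega)]
    simp only [lgrB, val_onL, val_snd, hd, lcase_cons, val_comp, val_pair, val_star,
        val_fst, val_self, val_cons] at h2 ⊢
    rw [h2]
    simp

theorem cost_lgrB (S : Ty.D F (.prod (.list b) (.list .unit)) → List Unit)
    (K : Ty.D F (.prod (.list b) (.list .unit)) → ℕ) (v : SV F s) (k : SC F s)
    (rl : List (Ty.D F b)) (l : ℕ) (hr : 0 < rl.length) :
    (lgrB : Pr ((.prod (.list b) (.list .unit), .list .unit) :: s) _ _).cost (S, v) (K, k)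
      (rl, un l) ≤
      if l ≤ 1 then 15 else K (rl, un ((l + rl.length - 1) / rl.length)) +
        (24 * rl.length + 40) * l + 60 := by
  rcases l with _ | _ | l
  · simp [lgrB, un]
  · simp [lgrB, un]
  · have hd : un (l + 1 + 1) = () :: () :: un l := rfl
    have h2 := val_divP (F := F) (s := (.prod (.list b) (.list .unit), .list .unit) :: s)
      (a := .unit) (S, v) rl (un (l + 1 + 1)) hr
    have h3 := cost_divP (F := F) (s := (.prod (.list b) (.list .unit), .list .unit) :: s)
      (a := .unit) (S, v) (K, k) rl (un (l + 1 + 1)) hr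
    rw [length_un] at h2 h3
    rw [if_neg (by omega)]
    simp only [lgrB, cost_onL, cost_snd, val_snd, hd, lcase_cons, cost_comp,
          cost_pair, cost_star, cost_fst, val_comp, val_pair, val_star, val_fst, cost_self,
          cost_cons] at h2 h3 ⊢
    rw [h2]
    omega

theorem goV_lgr (v : SV F s) (n : ℕ) (rl : List (Ty.D F b)) (l : ℕ)
    (hr : 1 < rl.length) (hn : l ≤ n) :
    goV (s := s) lgrB .nil v n (rl, un l) = un (Nat.clog rl.length l) := by
  induction n generalizing l with
  | zero =>
    have : l = 0 := by omega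
    subst this
    simp only [goV, val_nil, Nat.clog_zero_right]
    rfl
  | succ n ih =>
    rw [goV, val_lgrB _ _ _ _ (by omega)]
    split_ifs with h1
    · rw [Nat.clog_of_right_le_one h1]
      rfl
    · rw [ih ((l + rl.length - 1) / rl.length) (by
        have h1 : (l + rl.length - 1) / rl.length < l := by
          rw [Nat.div_lt_iff_lt_mul (by omega)]
          obtain ⟨d, hd⟩ : ∃ d, rl.length = d + 2 := ⟨rl.length - 2, by omega⟩
          rw [hd]
          obtain ⟨e, rfl⟩ : ∃ e, l = e + 2 := ⟨l - 2, by omega⟩
          have : (e + 2) * (d + 2) = e * d + 2 * e + 2 * d + 4 := by ring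
          rw [this]
          have : 0 ≤ e * d := Nat.zero_le _
          omega
        omega)]
      apply un_inj_len
      rw [List.length_cons, length_un, Nat.clog_of_one_lt (n := l) hr (by omega)]

theorem val_lgrP (v : SV F s) (rl : List (Ty.D F b)) (l : ℕ) (hr : 1 < rl.length) :
    (lgrP : Pr s (.prod (.list b) (.list .unit)) _).val v (rl, un l) =
      un (Nat.clog rl.length l) := by
  simp only [lgrP, val_comp, val_pair, val_snd, val_id, val_recD]
  exact goV_lgr v _ rl l hr (by simp)

theorem cost_lgrP (v : SV F s) (k : SC F s) (rl : List (Ty.D F b)) (l : ℕ)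
    (hr : rl.length = 2 ∨ rl.length = 3) :
    (lgrP : Pr s (.prod (.list b) (.list .unit)) _).cost v k (rl, un l) ≤
      1000 * l + 100 := by
  simp only [lgrP, cost_comp, cost_pair, val_pair, val_snd, val_id, cost_snd, cost_id, cost_recD]
  have : ∀ (n : ℕ) (l : ℕ), l ≤ n →
      goC (s := s) lgrB .nil v k n (rl, un l) ≤ 1000 * l + 20 := by
    intro n
    induction n with
    | zero =>
      intro l hl
      simp [goC]
    | succ n ih =>
      intro l hl
      rw [goC]
      refine (cost_lgrB _ _ _ _ _ _ (by omega)).trans ?_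
      split_ifs with h1
      · omega
      · have e := ih ((l + rl.length - 1) / rl.length) (by
          rcases hr with h | h <;> rw [h] <;> omega)
        rcases hr with h | h
        · rw [h] at e ⊢
          omega
        · rw [h] at e ⊢
          omega
  have := this l l le_rfl
  rw [length_un]
  omega

end progs


section progs
variable {F : Type} [Field F] [DecidableEq F]
variable {s : List (Ty × Ty)} {a b c d e g σ τ : Ty}

/-! ### iteration -/

/-- body of the iteration -/
def iterB (f : Pr s (.prod c a) a) : Pr ((.prod c a, .list a) :: s) (.prod c a) (.list a) :=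
  .comp (.pair .snd (.comp (.pair .fst (.up f)) .self)) .cons

/-- input `(u, (context, start))`: the list of the first `u.length` iterates -/
def iterP (f : Pr s (.prod c a) a) : Pr s (.prod (.list b) (.prod c a)) (.list a) :=
  .recD (iterB f) .nil

@[simp] theorem val_iterP (f : Pr s (.prod c a) a) (v : SV F s)
    (x : Ty.D F (.prod (.list b) (.prod c a))) :
    (iterP f : Pr s (.prod (.list b) (.prod c a)) _).val v x =
      List.iterate (fun y => f.val v (x.2.1, y)) x.2.2 (List.length x.1) := by
  obtain ⟨u, x, y⟩ := x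
  simp only [iterP, val_recD]
  generalize List.length u = n
  induction n generalizing y with
  | zero => rfl
  | succ n ih =>
    rw [goV]
    simp only [iterB, val_comp, val_pair, val_snd, val_fst, val_up, val_self, val_cons,
      List.iterate] at ih ⊢
    rw [ih]

theorem cost_iterP_le (f : Pr s (.prod c a) a) (v : SV F s) (k : SC F s)
    (x : Ty.D F (.prod (.list b) (.prod c a))) (B : ℕ) (I : Ty.D F a → Prop)
    (h0 : I x.2.2) (hI : ∀ y, I y → I (f.val v (x.2.1, y)))
    (hB : ∀ y, I y → f.cost v k (x.2.1, y) ≤ B) :
    (iterP f : Pr s (.prod (.list b) (.prod c a)) _).cost v k x ≤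
      (B + 10) * List.length x.1 + 5 := by
  obtain ⟨u, x, y⟩ := x
  simp only [iterP, cost_recD] at h0 hI hB ⊢
  generalize List.length u = n
  have : goC (iterB f) .nil v k n (x, y) ≤ (B + 10) * n + 2 := by
    induction n generalizing y with
    | zero => simp [goC]
    | succ n ih =>
      have e1 := ih (f.val v (x, y)) (hI y h0)
      have e2 := hB y h0
      rw [goC]
      simp only [iterB, cost_comp, cost_pair, cost_snd, cost_fst, cost_up, cost_self, cost_cons,
        val_comp, val_pair, val_snd, val_fst, val_up] at e1 ⊢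
      have e3 : (B + 10) * (n + 1) = (B + 10) * n + (B + 10) := by ring
      omega
  omega

/-! ### products and powers of unary numbers -/

/-- input `(x, r)` -/
def mulUP : Pr s (.prod (.list a) (.list b)) (.list a) := .comp (mapP .fst) flatP

theorem val_mulUP (v : SV F s) (m n : ℕ) :
    (mulUP : Pr s (.prod (.list .unit) (.list .unit)) _).val v (un m, un n) = un (n * m) := by
  simp only [mulUP, val_comp, val_mapP, val_flatP, val_fst]
  apply un_inj_len
  rw [List.length_flatten, List.map_map]
  have : ((List.length ∘ fun (_ : Ty.D F .unit) => un m)) = fun _ => m := by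
    funext _; simp
  rw [this, un, List.map_replicate, List.sum_replicate, smul_eq_mul]

theorem cost_mulUP (v : SV F s) (k : SC F s) (m n : ℕ) :
    (mulUP : Pr s (.prod (.list .unit) (.list .unit)) _).cost v k (un m, un n) ≤
      (20 * m + 90) * n + 50 := by
  have h1 := cost_mapP_le (s := s) (F := F) (c := .list .unit) (a := .unit) (b := .list .unit)
    .fst v k (un m, un n) 1 (fun _ _ => by simp)
  have h2 := cost_flatP (s := s) (F := F) (a := .unit) v k
    (List.map (fun _ => un m) (un n)) m (by simp)
  simp only [List.length_map, length_un] at h1 h2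
  simp only [mulUP, cost_comp, val_mapP, val_fst]
  nlinarith

/-- body of the power -/
def powB : Pr ((.list .unit, .list .unit) :: s) (.list .unit) (.list .unit) :=
  .comp (.pair .self .id) mulUP

/-- base of the power -/
def powQ : Pr s (.list .unit) (.list .unit) := .comp (.pair .star .nil) .cons

/-- input `(n, r)` -/
def powP : Pr s (.prod (.list .unit) (.list .unit)) (.list .unit) := .recD powB powQ

theorem goV_pow (v : SV F s) (n r : ℕ) : goV powB powQ v n (un r) = un (r ^ n) := by
  induction n with
  | zero => rw [goV, pow_zero]; rfl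
  | succ n ih =>
    rw [goV]
    simp only [powB, val_comp, val_pair, val_self, val_id] at ih ⊢
    rw [ih, val_mulUP, pow_succ, mul_comm]

theorem val_powP (v : SV F s) (n r : ℕ) :
    (powP : Pr s (.prod (.list .unit) (.list .unit)) _).val v (un n, un r) = un (r ^ n) := by
  simp only [powP, val_recD, length_un]
  exact goV_pow v n r

theorem cost_powP (v : SV F s) (k : SC F s) (n r M : ℕ) (hr : 1 ≤ r) (hM : r ^ n ≤ M) :
    (powP : Pr s (.prod (.list .unit) (.list .unit)) _).cost v k (un n, un r) ≤
      ((20 * M + 90) * r + 60) * n + 5 := by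
  simp only [powP, cost_recD, length_un]
  have : goC powB powQ v k n (un r) ≤ ((20 * M + 90) * r + 60) * n + 4 := by
    induction n with
    | zero => simp [goC, powQ]
    | succ n ih =>
      have h1 : r ^ n ≤ M := (Nat.pow_le_pow_right hr (by omega)).trans hM
      have e1 := ih h1
      have e2 := cost_mulUP (F := F) (s := (.list .unit, .list .unit) :: s)
        (goV powB powQ v n, v) (goC powB powQ v k n, k) (r ^ n) r
      have e3 := goV_pow (F := F) v n r
      rw [goC, powB, cost_comp, cost_pair, cost_self, cost_id, val_pair, val_self, val_id,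
        ← powB]
      simp only at e3 ⊢
      rw [e3]
      have e4 : (20 * r ^ n + 90) * r ≤ (20 * M + 90) * r := Nat.mul_le_mul_right _ (by omega)
      have e5 : ((20 * M + 90) * r + 60) * (n + 1) =
        ((20 * M + 90) * r + 60) * n + ((20 * M + 90) * r + 60) := by ring
      omega
  omega

/-! ### operations on elements of the ring -/

/-- input `(e, A)` -/
def rotDP : Pr s (.prod (.list b) (.list (.list a))) (.list (.list a)) := mapP rotP

@[simp] theorem val_rotDP (v : SV F s) (x : Ty.D F (.prod (.list b) (.list (.list a)))) :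
    (rotDP : Pr s (.prod (.list b) (.list (.list a))) _).val v x =
      List.map (rot (List.length x.1)) x.2 := by
  simp only [rotDP, val_mapP, val_rotP]

theorem cost_rotDP (v : SV F s) (k : SC F s) (x : Ty.D F (.prod (.list b) (.list (.list a))))
    (M u : ℕ) (he : List.length x.1 ≤ M) (hM : ∀ y ∈ x.2, List.length y = M)
    (hu : List.length x.2 ≤ u) :
    (rotDP : Pr s (.prod (.list b) (.list (.list a))) _).cost v k x ≤
      44 * (M * u) + 29 * u + 5 := by
  have h1 := cost_mapP_le (s := s) (F := F) rotP v k x (44 * M + 16) (fun y hy => by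
    have h2 := cost_rotP (s := s) (F := F) v k (x.1, y)
    have h3 := hM y hy
    simp only at h2
    rw [h3] at h2
    omega)
  have h4 : (44 * M + 16 + 13) * List.length x.2 ≤ (44 * M + 16 + 13) * u :=
    Nat.mul_le_mul_left _ hu
  have h5 : (44 * M + 16 + 13) * u = 44 * (M * u) + 29 * u := by ring
  unfold rotDP
  omega

/-- sum of two lists of elements -/
def addD (A B : List (List F)) : List (List F) := zp (zp (fun x y : F => x + y)) A B

/-- sum of two lists of elements -/
def addDP : Pr s (.prod (.list (.list .fld)) (.list (.list .fld))) (.list (.list .fld)) :=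
  zpP (zpP .add)

@[simp] theorem val_addDP (v : SV F s)
    (x : Ty.D F (.prod (.list (.list .fld)) (.list (.list .fld)))) :
    (addDP : Pr s (.prod (.list (.list .fld)) (.list (.list .fld))) _).val v x =
      addD x.1 x.2 := by
  simp only [addDP, val_zpP, val_add]
  rfl

theorem cost_addDP (v : SV F s) (k : SC F s)
    (x : Ty.D F (.prod (.list (.list .fld)) (.list (.list .fld))))
    (M u : ℕ) (hM : ∀ y ∈ x.1, List.length y = M) (hu : List.length x.1 ≤ u) :
    (addDP : Pr s (.prod (.list (.list .fld)) (.list (.list .fld))) _).cost v k x ≤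
      41 * (M * u) + 55 * u + 15 := by
  have h1 := cost_zpP_le (s := s) (F := F) (zpP .add) v k x (41 * M + 15) (fun y hy z _ => by
    have h2 := cost_zpP_le (s := s) (F := F) .add v k (y, z) 1 (fun _ _ _ _ => by simp)
    have h3 := hM y hy
    simp only at h2
    rw [h3] at h2
    omega)
  have h4 : (41 * M + 15 + 40) * List.length x.1 ≤ (41 * M + 15 + 40) * u :=
    Nat.mul_le_mul_left _ hu
  have h5 : (41 * M + 15 + 40) * u = 41 * (M * u) + 55 * u := by ring
  unfold addDP
  omega

theorem length_zp {α : Type} (f : α → α → α) (l m : List α) :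
    (zp f l m).length = max l.length m.length := by
  induction l generalizing m with
  | nil => simp [zp]
  | cons a l ih =>
    cases m with
    | nil => simp [zp]
    | cons b m => simp only [zp, List.length_cons, ih]; omega

theorem Sh_zp {M : ℕ} (f : List F → List F → List F)
    (hf : ∀ a b, a.length = M → b.length = M → (f a b).length = M)
    (A B : List (List F)) (hA : Sh M A) (hB : Sh M B) : Sh M (zp f A B) := by
  induction A generalizing B with
  | nil => simpa [zp] using hB
  | cons a A ih =>
    cases B with
    | nil => simpa [zp] using hA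
    | cons b B =>
      intro x hx
      simp only [zp, List.mem_cons] at hx
      rcases hx with rfl | hx
      · exact hf _ _ (hA a (by simp)) (hB b (by simp))
      · exact ih B (fun x hx => hA x (by simp [hx])) (fun x hx => hB x (by simp [hx])) x hx

theorem Sh_addD {M : ℕ} (A B : List (List F)) (hA : Sh M A) (hB : Sh M B) : Sh M (addD A B) :=
  Sh_zp _ (fun a b ha hb => by rw [length_zp, ha, hb, max_self]) A B hA hB

theorem length_addD (A B : List (List F)) : (addD A B).length = max A.length B.length :=
  length_zp _ _ _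

theorem Sh_map_rot {M e : ℕ} (A : List (List F)) (hA : Sh M A) : Sh M (A.map (rot e)) := by
  intro x hx
  rw [List.mem_map] at hx
  obtain ⟨y, hy, rfl⟩ := hx
  rw [length_rot, hA y hy]

/-! ### Horner scheme on chunks -/

/-- `A₀ + x^e (A₁ + x^e (A₂ + ...))`, where `f = M - e` -/
def horD (f : ℕ) (As : List (List (List F))) : List (List F) :=
  As.foldr (fun A acc => addD A (acc.map (rot f))) []

/-- input `(f, As)` -/
def horDP : Pr s (.prod (.list b) (.list (.list (.list .fld)))) (.list (.list .fld)) :=
  .comp (.pair .fst (.pair .nil (.comp .snd revP)))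
    (foldP (.comp (.pair (.comp .snd .snd) (.comp (.pair .fst (.comp .snd .fst)) rotDP)) addDP))

@[simp] theorem val_horDP (v : SV F s) (x : Ty.D F (.prod (.list b) (.list (.list (.list .fld))))) :
    (horDP : Pr s (.prod (.list b) (.list (.list (.list .fld)))) _).val v x =
      horD (List.length x.1) x.2 := by
  simp only [horDP, val_comp, val_foldP, val_pair, val_fst, val_snd, val_nil, val_revP, val_addDP,
    val_rotDP, List.foldl_reverse]
  rfl

theorem Sh_horD {M f : ℕ} (As : List (List (List F))) (h : ∀ A ∈ As, Sh M A) :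
    Sh M (horD f As) := by
  induction As with
  | nil => intro x hx; simp [horD] at hx
  | cons A As ih =>
    rw [horD, List.foldr_cons]
    exact Sh_addD _ _ (h A (by simp)) (Sh_map_rot _ (ih (fun A hA => h A (by simp [hA]))))

theorem length_horD {u f : ℕ} (As : List (List (List F))) (h : ∀ A ∈ As, A.length = u)
    (h0 : As ≠ []) : (horD f As).length = u := by
  induction As with
  | nil => exact absurd rfl h0
  | cons A As ih =>
    rw [horD, List.foldr_cons, ← horD, length_addD, List.length_map, h A (by simp)]
    by_cases h1 : As = []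
    · subst h1
      simp [horD]
    · rw [ih (fun A hA => h A (by simp [hA])) h1, max_self]

theorem cost_horDP (v : SV F s) (k : SC F s)
    (x : Ty.D F (.prod (.list b) (.list (.list (.list .fld))))) (M u r : ℕ)
    (he : List.length x.1 ≤ M) (hM : ∀ A ∈ x.2, Sh M A) (hu : ∀ A ∈ x.2, List.length A = u)
    (hr : List.length x.2 ≤ r) :
    (horDP : Pr s (.prod (.list b) (.list (.list (.list .fld)))) _).cost v k x ≤
      (85 * (M * u) + 84 * u + 90) * r + 60 := by
  have h1 := cost_foldP_le (s := s) (F := F) (c := .list b) (b := .list (.list .fld))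
    (a := .list (.list .fld))
    (.comp (.pair (.comp .snd .snd) (.comp (.pair .fst (.comp .snd .fst)) rotDP)) addDP)
    v k (x.1, (([] : List (List F)), List.reverse x.2)) (85 * (M * u) + 84 * u + 30)
    (fun y => Sh M y ∧ List.length y ≤ u) ⟨fun _ h => by simp at h, by simp⟩
    (by
      rintro y z ⟨h1, h2⟩ hz
      have hz' : z ∈ x.2 := by simpa using hz
      simp only [val_comp, val_pair, val_fst, val_snd, val_addDP, val_rotDP]
      refine ⟨Sh_addD _ _ (hM z hz') (Sh_map_rot _ h1), ?_⟩
      rw [length_addD, List.length_map, hu z hz']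
      omega)
    (by
      rintro y z ⟨h1, h2⟩ hz
      have hz' : z ∈ x.2 := by simpa using hz
      have c1 := cost_rotDP (s := s) (F := F) v k (x.1, y) M u he h1 h2
      have c2 := cost_addDP (s := s) (F := F) v k (z, List.map (rot (List.length x.1)) y) M u
        (hM z hz') (hu z hz').le
      simp only [cost_comp, cost_pair, cost_fst, cost_snd, val_comp, val_pair, val_fst, val_snd,
        val_rotDP]
      omega)
  have h2 := cost_revP (s := s) (F := F) v k x.2
  simp only [List.length_reverse] at h1
  simp only [horDP, cost_comp, cost_pair, cost_fst, cost_snd, cost_nil, val_comp, val_pair,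
    val_fst, val_snd, val_nil, val_revP]
  have h4 : (85 * (M * u) + 84 * u + 30 + 27) * List.length x.2 ≤
    (85 * (M * u) + 84 * u + 30 + 27) * r := Nat.mul_le_mul_left _ hr
  have h5 : (85 * (M * u) + 84 * u + 90) * r = (85 * (M * u) + 84 * u + 30 + 27) * r + 33 * r := by
    ring
  omega

/-! ### recombination -/

/-- sum of the second components -/
def sumD (st : List (List Unit × List (List F))) : List (List F) :=
  st.foldl (fun acc p => addD p.2 acc) []

/-- sum of the second components -/
def sumDP : Pr s (.list (.prod (.list .unit) (.list (.list .fld)))) (.list (.list .fld)) :=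
  .comp (.pair .star (.pair .nil .id))
    (foldP (c := .unit) (.comp (.pair (.comp (.comp .snd .snd) .snd) (.comp .snd .fst)) addDP))

@[simp] theorem val_sumDP (v : SV F s)
    (x : Ty.D F (.list (.prod (.list .unit) (.list (.list .fld))))) :
    (sumDP : Pr s (.list (.prod (.list .unit) (.list (.list .fld)))) _).val v x = sumD x := by
  simp only [sumDP, val_comp, val_foldP, val_pair, val_fst, val_snd, val_nil, val_star, val_id,
    val_addDP]
  rfl

/-- one step -/
def stepD (st : List (List Unit × List (List F))) : List (List Unit × List (List F)) :=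
  st.map (fun p => (p.1, p.2.map (rot p.1.length)))

/-- one step -/
def stepP : Pr s (.prod .unit (.list (.prod (.list .unit) (.list (.list .fld)))))
    (.list (.prod (.list .unit) (.list (.list .fld)))) :=
  mapP (c := .unit) (.pair (.comp .snd .fst) (.comp .snd rotDP))

@[simp] theorem val_stepP (v : SV F s)
    (x : Ty.D F (.prod .unit (.list (.prod (.list .unit) (.list (.list .fld)))))) :
    (stepP : Pr s (.prod .unit (.list (.prod (.list .unit) (.list (.list .fld))))) _).val v x =
      stepD x.2 := by
  simp only [stepP, val_mapP, val_pair, val_comp, val_snd, val_fst, val_rotDP]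
  rfl

/-- recombination -/
def cmbD (r : ℕ) (st : List (List Unit × List (List F))) : List (List F) :=
  ((List.iterate stepD st r).map sumD).flatten

/-- iterates of the step; input `(r, st)` -/
def itsP : Pr s (.prod (.list b) (.list (.prod (.list .unit) (.list (.list .fld)))))
    (.list (.list (.prod (.list .unit) (.list (.list .fld))))) :=
  .comp (.pair .fst (.pair .star .snd)) (iterP (c := .unit) stepP)

theorem val_itsP (v : SV F s)
    (x : Ty.D F (.prod (.list b) (.list (.prod (.list .unit) (.list (.list .fld)))))) :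
    (itsP : Pr s (.prod (.list b) (.list (.prod (.list .unit) (.list (.list .fld))))) _).val v x =
      List.iterate stepD x.2 (List.length x.1) := by
  simp only [itsP, val_comp, val_pair, val_fst, val_snd, val_star, val_iterP, val_stepP]

/-- all sums -/
def sumsP : Pr s (.list (.list (.prod (.list .unit) (.list (.list .fld)))))
    (.list (.list (.list .fld))) :=
  .comp (.pair .star .id) (mapP (c := .unit) (.comp .snd sumDP))

theorem val_sumsP (v : SV F s)
    (x : Ty.D F (.list (.list (.prod (.list .unit) (.list (.list .fld)))))) :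
    (sumsP : Pr s (.list (.list (.prod (.list .unit) (.list (.list .fld))))) _).val v x =
      List.map sumD x := by
  simp only [sumsP, val_comp, val_pair, val_id, val_snd, val_star, val_mapP, val_sumDP]

/-- input `(r, st)` -/
def cmbP : Pr s (.prod (.list b) (.list (.prod (.list .unit) (.list (.list .fld)))))
    (.list (.list .fld)) := .comp (.comp itsP sumsP) flatP

@[simp] theorem val_cmbP (v : SV F s)
    (x : Ty.D F (.prod (.list b) (.list (.prod (.list .unit) (.list (.list .fld)))))) :
    (cmbP : Pr s (.prod (.list b) (.list (.prod (.list .unit) (.list (.list .fld))))) _).val v x =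
      cmbD (List.length x.1) x.2 := by
  simp only [cmbP, val_comp, val_itsP, val_sumsP, val_flatP]
  rfl

/-- sizes of the data of the recombination -/
def StOk (M u r : ℕ) (st : List (List Unit × List (List F))) : Prop :=
  st.length = r ∧ ∀ p ∈ st, p.1.length ≤ M ∧ Sh M p.2 ∧ p.2.length = u

theorem StOk_step {M u r : ℕ} {st : List (List Unit × List (List F))} (h : StOk M u r st) :
    StOk M u r (stepD st) := by
  refine ⟨by rw [stepD, List.length_map, h.1], ?_⟩
  intro p hp
  rw [stepD, List.mem_map] at hp
  obtain ⟨q, hq, rfl⟩ := hp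
  obtain ⟨h1, h2, h3⟩ := h.2 q hq
  exact ⟨h1, Sh_map_rot _ h2, by rw [List.length_map, h3]⟩

theorem foldl_addD (st : List (List Unit × List (List F))) (M u : ℕ) (acc : List (List F))
    (hacc : Sh M acc) (h : ∀ p ∈ st, Sh M p.2 ∧ p.2.length = u) (hl : acc.length = u ∨ acc = []) :
    Sh M (st.foldl (fun acc p => addD p.2 acc) acc) ∧
    ((st ≠ [] ∨ acc.length = u) → (st.foldl (fun acc p => addD p.2 acc) acc).length = u) := by
  induction st generalizing acc with
  | nil => exact ⟨hacc, fun h => by simpa using h⟩
  | cons p st ih =>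
    obtain ⟨h1, h2⟩ := h p (by simp)
    have hlen : (addD p.2 acc).length = u := by
      rw [length_addD, h2]
      rcases hl with hl | hl
      · rw [hl, max_self]
      · rw [hl]; simp
    have := ih (addD p.2 acc) (Sh_addD _ _ h1 hacc) (fun q hq => h q (by simp [hq])) (Or.inl hlen)
    exact ⟨this.1, fun _ => this.2 (Or.inr hlen)⟩

theorem sumD_ok {M u r : ℕ} {st : List (List Unit × List (List F))} (h : StOk M u r st)
    (hr : 0 < r) : Sh M (sumD st) ∧ (sumD st).length = u := by
  have h1 := foldl_addD st M u [] (fun _ h => by simp at h) (fun p hp => (h.2 p hp).2)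
    (Or.inr rfl)
  refine ⟨h1.1, h1.2 (Or.inl ?_)⟩
  rintro rfl
  have := h.1
  simp at this
  omega

theorem mem_iterate_ok {M u r : ℕ} (n : ℕ) {st : List (List Unit × List (List F))}
    (h : StOk M u r st) : ∀ t ∈ List.iterate stepD st n, StOk M u r t := by
  induction n generalizing st with
  | zero => intro t ht; simp at ht
  | succ n ih =>
    intro t ht
    rw [List.iterate, List.mem_cons] at ht
    rcases ht with rfl | ht
    · exact h
    · exact ih (StOk_step h) t ht

theorem cmbD_ok {M u r : ℕ} {st : List (List Unit × List (List F))} (h : StOk M u r st)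
    (hr : 0 < r) : Sh M (cmbD r st) ∧ (cmbD r st).length = r * u := by
  constructor
  · intro x hx
    rw [cmbD, List.mem_flatten] at hx
    obtain ⟨L, hL, hx⟩ := hx
    rw [List.mem_map] at hL
    obtain ⟨t, ht, rfl⟩ := hL
    exact (sumD_ok (mem_iterate_ok r h t ht) hr).1 x hx
  · rw [cmbD, List.length_flatten, List.map_map]
    have : ∀ t ∈ List.iterate stepD st r, (List.length ∘ sumD) t = u := fun t ht =>
      (sumD_ok (mem_iterate_ok r h t ht) hr).2
    rw [List.map_congr_left this, List.map_const', List.sum_replicate, List.length_iterate,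
      smul_eq_mul]

theorem cost_sumDP (v : SV F s) (k : SC F s)
    (x : Ty.D F (.list (.prod (.list .unit) (.list (.list .fld)))))
    (M u r : ℕ) (h : StOk M u r x) :
    (sumDP : Pr s (.list (.prod (.list .unit) (.list (.list .fld)))) _).cost v k x ≤
      (41 * (M * u) + 55 * u + 60) * r + 20 := by
  have h1 := cost_foldP_le (s := s) (F := F) (c := .unit) (b := .list (.list .fld))
    (a := .prod (.list .unit) (.list (.list .fld)))
    (.comp (.pair (.comp (.comp .snd .snd) .snd) (.comp .snd .fst)) addDP)
    v k ((), (([] : List (List F)), x)) (41 * (M * u) + 55 * u + 25)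
    (fun _ => True) trivial (fun _ _ _ _ => trivial)
    (by
      rintro y z - hz
      have hz' := h.2 z hz
      have c2 := cost_addDP (s := s) (F := F) v k (z.2, y) M u hz'.2.1 hz'.2.2.le
      simp only [cost_comp, cost_pair, cost_fst, cost_snd, val_comp, val_pair, val_fst, val_snd]
      omega)
  simp only [h.1] at h1
  simp only [sumDP, cost_comp, cost_pair, cost_star, cost_nil, cost_id, val_pair, val_star,
    val_nil, val_id]
  have h5 : (41 * (M * u) + 55 * u + 60) * r = (41 * (M * u) + 55 * u + 25 + 27) * r + 8 * r := by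
    ring
  omega

theorem cost_stepP (v : SV F s) (k : SC F s)
    (x : Ty.D F (.prod .unit (.list (.prod (.list .unit) (.list (.list .fld))))))
    (M u r : ℕ) (h : StOk M u r x.2) :
    (stepP : Pr s (.prod .unit (.list (.prod (.list .unit) (.list (.list .fld))))) _).cost v k x ≤
      (44 * (M * u) + 29 * u + 25) * r + 5 := by
  have h1 := cost_mapP_le (s := s) (F := F) (c := .unit)
    (a := .prod (.list .unit) (.list (.list .fld))) (b := .prod (.list .unit) (.list (.list .fld)))
    (.pair (.comp .snd .fst) (.comp .snd rotDP)) v k x (44 * (M * u) + 29 * u + 12)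
    (by
      intro y hy
      have hz' := h.2 y hy
      have c2 := cost_rotDP (s := s) (F := F) v k y M u hz'.1 hz'.2.1 hz'.2.2.le
      simp only [cost_comp, cost_pair, cost_fst, cost_snd, val_snd]
      omega)
  rw [h.1] at h1
  exact h1

theorem cost_itsP (v : SV F s) (k : SC F s)
    (x : Ty.D F (.prod (.list b) (.list (.prod (.list .unit) (.list (.list .fld))))))
    (M u r : ℕ) (hx : List.length x.1 = r) (h : StOk M u r x.2) :
    (itsP : Pr s (.prod (.list b) (.list (.prod (.list .unit) (.list (.list .fld))))) _).cost v k x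
      ≤ ((44 * (M * u) + 29 * u + 25) * r + 15) * r + 15 := by
  have h1 := cost_iterP_le (s := s) (F := F) (b := b) (c := .unit) stepP v k (x.1, ((), x.2))
    ((44 * (M * u) + 29 * u + 25) * r + 5) (StOk M u r) h
    (fun y hy => by rw [val_stepP]; exact StOk_step hy)
    (fun y hy => cost_stepP v k ((), y) M u r hy)
  simp only [hx] at h1
  simp only [itsP, cost_comp, cost_pair, cost_star, cost_fst, cost_snd, val_pair, val_star,
    val_fst, val_snd]
  have e : ((44 * (M * u) + 29 * u + 25) * r + 15) * r =
    ((44 * (M * u) + 29 * u + 25) * r + 5 + 10) * r := by ring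
  omega

theorem cost_sumsP (v : SV F s) (k : SC F s)
    (x : Ty.D F (.list (.list (.prod (.list .unit) (.list (.list .fld))))))
    (M u r : ℕ) (hx : List.length x = r) (h : ∀ y ∈ x, StOk M u r y) :
    (sumsP : Pr s (.list (.list (.prod (.list .unit) (.list (.list .fld))))) _).cost v k x
      ≤ ((41 * (M * u) + 55 * u + 60) * r + 40) * r + 10 := by
  have h2 := cost_mapP_le (s := s) (F := F) (c := .unit)
    (a := .list (.prod (.list .unit) (.list (.list .fld)))) (b := .list (.list .fld))
    (.comp .snd sumDP) v k ((), x) ((41 * (M * u) + 55 * u + 60) * r + 21)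
    (by
      intro y hy
      have c2 := cost_sumDP (s := s) (F := F) v k y M u r (h y hy)
      simp only [cost_comp, cost_snd, val_snd]
      omega)
  simp only [hx] at h2
  simp only [sumsP, cost_comp, cost_pair, cost_star, cost_id, val_pair, val_star, val_id]
  have e2 : ((41 * (M * u) + 55 * u + 60) * r + 40) * r =
    ((41 * (M * u) + 55 * u + 60) * r + 21 + 13) * r + 6 * r := by ring
  omega

theorem cost_cmbP (v : SV F s) (k : SC F s)
    (x : Ty.D F (.prod (.list b) (.list (.prod (.list .unit) (.list (.list .fld))))))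
    (M u r : ℕ) (hx : List.length x.1 = r) (h : StOk M u r x.2) (hr : 0 < r) :
    (cmbP : Pr s (.prod (.list b) (.list (.prod (.list .unit) (.list (.list .fld))))) _).cost v k x
      ≤ ((44 * (M * u) + 29 * u + 25) * r + 15) * r +
        ((41 * (M * u) + 55 * u + 60) * r + 40) * r + (20 * u + 71) * r + 70 := by
  have h1 := cost_itsP (s := s) (F := F) v k x M u r hx h
  have h2 := cost_sumsP (s := s) (F := F) v k (List.iterate stepD x.2 r) M u r
    (List.length_iterate _ _ _) (mem_iterate_ok r h)
  have h3 := cost_flatP (s := s) (F := F) (a := .list .fld) v k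
    ((List.iterate stepD x.2 r).map sumD) u (by
      intro y hy
      rw [List.mem_map] at hy
      obtain ⟨t, ht, rfl⟩ := hy
      exact (sumD_ok (mem_iterate_ok r h t ht) hr).2.le)
  simp only [List.length_map, List.length_iterate] at h3
  simp only [cmbP, cost_comp, val_comp, val_itsP, val_sumsP, hx]
  omega

end progs


section ev
variable {F : Type} [Field F] [DecidableEq F] {R : Type} [CommRing R] [Algebra F R]

/-- evaluation of a list of coefficients -/
def ev1 (x : R) (l : List F) : R := evg (algebraMap F R) x l

/-- evaluation of a list of lists -/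
def ev2 (x y : R) (A : List (List F)) : R := evg (ev1 x) y A

theorem ev1_pol (x : R) (l : List F) : ev1 x l = aeval x (pol l) := by
  unfold ev1
  induction l with
  | nil => simp [pol]
  | cons a l ih => rw [evg_cons, ih, pol, map_add, map_mul, aeval_C, aeval_X]

theorem ev1_zp (x : R) (a b : List F) :
    ev1 x (zp (fun x y : F => x + y) a b) = ev1 x a + ev1 x b :=
  evg_zp _ _ _ (fun _ _ => map_add _ _ _) _ _

theorem ev2_addD (x y : R) (A B : List (List F)) : ev2 x y (addD A B) = ev2 x y A + ev2 x y B :=
  evg_zp _ _ _ (ev1_zp x) _ _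

theorem ev2_rot (x y : R) (M e : ℕ) (A : List (List F)) (hA : Sh M A) (he : e ≤ M)
    (hx : x ^ M = 1) : ev2 x y (A.map (rot e)) = x ^ (M - e) * ev2 x y A := by
  refine evg_map_mul _ _ _ _ _ _ fun a ha => ?_
  have h := hA a ha
  unfold ev1
  rw [evg_rot _ _ _ _ (by omega) (by rw [h, hx]), h]

theorem ev2_horD (x y : R) (M f : ℕ) (As : List (List (List F))) (hA : ∀ A ∈ As, Sh M A)
    (hf : f ≤ M) (hx : x ^ M = 1) :
    ev2 x y (horD f As) = evg (ev2 x y) (x ^ (M - f)) As := by
  induction As with
  | nil => rfl
  | cons A As ih =>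
    have hAs : ∀ A ∈ As, Sh M A := fun A hA' => hA A (by simp [hA'])
    rw [horD, List.foldr_cons, ← horD, ev2_addD, ev2_rot x y M f _ (Sh_horD As hAs) hf hx,
      ih hAs, evg_cons]

theorem ev2_foldl (x y : R) (st : List (List Unit × List (List F))) (acc : List (List F)) :
    ev2 x y (st.foldl (fun acc p => addD p.2 acc) acc) =
      ev2 x y acc + (st.map (fun p => ev2 x y p.2)).sum := by
  induction st generalizing acc with
  | nil => simp
  | cons p st ih =>
    rw [List.foldl_cons, ih, ev2_addD, List.map_cons, List.sum_cons]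
    ring

theorem ev2_sumD (x y : R) (st : List (List Unit × List (List F))) :
    ev2 x y (sumD st) = (st.map (fun p => ev2 x y p.2)).sum := by
  rw [sumD, ev2_foldl]
  simp [ev2]

theorem evg_iterate (x y Y : R) (M u r n : ℕ) (st : List (List Unit × List (List F)))
    (h : StOk M u r st) (hx : x ^ M = 1) :
    evg (ev2 x y) Y ((List.iterate stepD st n).map sumD) =
      (st.map (fun p => (∑ i ∈ Finset.range n, (Y * x ^ (M - p.1.length)) ^ i) *
        ev2 x y p.2)).sum := by
  induction n generalizing st with
  | zero => simp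
  | succ n ih =>
    rw [List.iterate, List.map_cons, evg_cons, ih _ (StOk_step h), ev2_sumD, stepD, List.map_map,
      ← List.sum_map_mul_left, ← List.sum_map_add]
    refine congrArg List.sum (List.map_congr_left fun p hp => ?_)
    obtain ⟨h1, h2, h3⟩ := h.2 p hp
    simp only [Function.comp_apply]
    rw [ev2_rot x y M _ _ h2 h1 hx, Finset.sum_range_succ', pow_zero]
    have : ∑ k ∈ Finset.range n, (Y * x ^ (M - p.1.length)) ^ (k + 1) =
        (Y * x ^ (M - p.1.length)) * ∑ k ∈ Finset.range n, (Y * x ^ (M - p.1.length)) ^ k := by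
      rw [Finset.mul_sum]
      exact Finset.sum_congr rfl fun k _ => pow_succ' _ _
    rw [this]
    ring

theorem ev2_cmbD (x y : R) (M u r : ℕ) (st : List (List Unit × List (List F)))
    (h : StOk M u r st) (hx : x ^ M = 1) (hr : 0 < r) :
    ev2 x y (cmbD r st) =
      (st.map (fun p => (∑ i ∈ Finset.range r, (y ^ u * x ^ (M - p.1.length)) ^ i) *
        ev2 x y p.2)).sum := by
  rw [← evg_iterate x y (y ^ u) M u r r st h hx, cmbD, ev2,
    evg_flatten (ev1 x) y u _ (by
      intro L hL
      rw [List.mem_map] at hL
      obtain ⟨t, ht, rfl⟩ := hL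
      exact (sumD_ok (mem_iterate_ok r h t ht) hr).2)]
  rfl

theorem sum_map_range {A : Type} [AddCommMonoid A] (f : ℕ → A) (n : ℕ) :
    ((List.range n).map f).sum = ∑ k ∈ Finset.range n, f k := by
  induction n with
  | zero => simp
  | succ n ih => rw [List.range_succ, List.map_append, List.sum_append, ih,
      Finset.sum_range_succ]; simp

end ev

theorem iterate_app (E m n : ℕ) :
    List.iterate (fun y : List Unit => un m ++ y) (un E) n =
      (List.range n).map (fun k => un (E + k * m)) := by
  induction n generalizing E with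
  | zero => rfl
  | succ n ih =>
    rw [List.iterate, un_app, ih, List.range_succ_eq_map, List.map_cons, List.map_map]
    congr 1
    · simp
    · refine List.map_congr_left fun k _ => ?_
      simp only [Function.comp_apply, Nat.succ_eq_add_one]
      congr 1
      ring

section progs
variable {F : Type} [Field F] [DecidableEq F]
variable {s : List (Ty × Ty)} {a b c d e g σ τ : Ty}

/-- context: `(r, (m, (M, t)))` -/
abbrev Cx : Ty := .prod Un (.prod Un (.prod Un Un))
/-- input of the outer recursion: `(r, (t, (a, b)))` -/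
abbrev So : Ty := .prod Un (.prod Un (.prod Po Po))
/-- input of the inner recursion: `(context, (E, (A, B)))` -/
abbrev Si : Ty := .prod Cx (.prod Un (.prod Ma Ma))

/-- first element, or the empty list -/
def hdP : Pr s (.list (.list a)) (.list a) := onL .id .nil (.comp .snd .fst)

theorem val_hdP (v : SV F s) (x : Ty.D F (.list (.list a))) :
    (hdP : Pr s (.list (.list a)) _).val v x = List.headD x [] := by
  cases x <;> simp [hdP]

theorem cost_hdP (v : SV F s) (k : SC F s) (x : Ty.D F (.list (.list a))) :
    (hdP : Pr s (.list (.list a)) _).cost v k x ≤ 10 := by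
  cases x <;> simp [hdP]

/-- reduction of the length from `2 M` to `M`; input `(M, l)` -/
def foldMP : Pr s (.prod (.list b) (.list .fld)) (.list .fld) := .comp splitP (zpP .add)

theorem val_foldMP (v : SV F s) (x : Ty.D F (.prod (.list b) (.list .fld))) :
    (foldMP : Pr s (.prod (.list b) (.list .fld)) _).val v x =
      zp (fun x y : F => x + y) (List.take (List.length x.1) x.2)
        (List.drop (List.length x.1) x.2) := by
  simp only [foldMP, val_comp, val_splitP, val_zpP, val_add]

theorem cost_foldMP (v : SV F s) (k : SC F s) (x : Ty.D F (.prod (.list b) (.list .fld))) :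
    (foldMP : Pr s (.prod (.list b) (.list .fld)) _).cost v k x ≤ 65 * List.length x.1 + 30 := by
  have h1 := cost_splitP (s := s) (F := F) v k x
  have h2 := cost_zpP_le (s := s) (F := F) .add v k
    (List.take (List.length x.1) x.2, List.drop (List.length x.1) x.2) 1 (fun _ _ _ _ => by simp)
  simp only [List.length_take] at h2
  simp only [foldMP, cost_comp, val_splitP]
  have h3 : (1 + 40) * min (List.length x.1) (List.length x.2) ≤ 41 * List.length x.1 := by
    apply Nat.mul_le_mul_left
    omega
  omega

/-- base of the inner recursion, first part: the call -/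
def innQ1 : Pr ((So, Po) :: s) Si Po :=
  .comp (.pair (.comp .fst .fst) (.pair (.comp .fst (.comp (.comp .snd .snd) .snd))
    (.pair (.comp (.comp (.comp .snd .snd) .fst) hdP)
      (.comp (.comp (.comp .snd .snd) .snd) hdP)))) .self

/-- base of the inner recursion -/
def innQ : Pr ((So, Po) :: s) Si Ma :=
  .comp (.pair (.comp (.pair (.comp .fst (.comp (.comp .snd .snd) .fst)) innQ1) foldMP) .nil) .cons

theorem val_innQ (S : Ty.D F So → List F) (v : SV F s) (r m M t E : List Unit)
    (A B : List (List F)) :
    (innQ : Pr ((So, Po) :: s) Si Ma).val (S, v) ((r, (m, (M, t))), (E, (A, B))) =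
      [zp (fun x y : F => x + y)
        (List.take M.length (S (r, (t, (List.headD A [], List.headD B [])))))
        (List.drop M.length (S (r, (t, (List.headD A [], List.headD B [])))))] := by
  simp only [innQ, innQ1, val_comp, val_pair, val_fst, val_snd, val_hdP, val_self, val_foldMP,
    val_nil, val_cons]

theorem cost_innQ (S : Ty.D F So → List F) (K : Ty.D F So → ℕ) (v : SV F s) (k : SC F s)
    (r m M t E : List Unit) (A B : List (List F)) :
    (innQ : Pr ((So, Po) :: s) Si Ma).cost (S, v) (K, k) ((r, (m, (M, t))), (E, (A, B))) ≤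
      K (r, (t, (List.headD A [], List.headD B []))) + 65 * M.length + 100 := by
  have h1 := cost_hdP (s := (So, Po) :: s) (F := F) (a := .fld) (S, v) (K, k) A
  have h2 := cost_hdP (s := (So, Po) :: s) (F := F) (a := .fld) (S, v) (K, k) B
  have h3 := cost_foldMP (s := (So, Po) :: s) (F := F) (b := .unit) (S, v) (K, k)
    (M, S (r, (t, (List.headD A [], List.headD B []))))
  simp only [innQ, innQ1, cost_comp, cost_pair, cost_fst, cost_snd, cost_self, cost_nil,
    cost_cons, val_comp, val_pair, val_fst, val_snd, val_hdP, val_self] at h3 ⊢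
  omega

/-- preparation: input of the inner recursion, output `(exponents, (chunks, chunks))` -/
def splP : Pr s Si (.prod (.list Un) (.prod (.list Ma) (.list Ma))) :=
  lt (.comp (.pair (.comp .fst .fst) (.comp (.comp .snd .snd) .fst)) divP)
    (.pair (.comp (.pair (.comp .fst (.comp .fst .fst)) (.pair
        (.comp .fst (.comp (.comp .fst .snd) .fst))
        (.comp (.pair (.comp .fst (.comp .fst .fst)) (.comp .fst (.comp .snd .fst))) divP)))
        (iterP appP))
      (.pair (.comp (.pair (.comp .fst (.comp .fst .fst))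
          (.pair .snd (.comp .fst (.comp (.comp .snd .snd) .fst)))) chunksP)
        (.comp (.pair (.comp .fst (.comp .fst .fst))
          (.pair .snd (.comp .fst (.comp (.comp .snd .snd) .snd)))) chunksP)))

theorem val_splP (v : SV F s) (r m q q' : ℕ) (M t : List Unit) (A B : List (List F))
    (hr : 0 < r) (hA : A.length = r * q) :
    (splP : Pr s Si _).val v ((un r, (un m, (M, t))), (un (r * q'), (A, B))) =
      ((List.range r).map (fun k => un (q' + k * m)), (chunks q r A, chunks q r B)) := by
  have hcd : ∀ q, (r * q + r - 1) / r = q := by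
    intro q
    have : r * q + r - 1 = (r - 1) + r * q := by omega
    rw [this, Nat.add_mul_div_left _ _ hr, Nat.div_eq_of_lt (by omega), zero_add]
  have h1 := val_divP (F := F) (a := Po) (b := .unit) v (un r) A (by simpa using hr)
  have h2 := val_divP (F := F) (a := .unit) (b := .unit) v (un r) (un (r * q')) (by simpa using hr)
  rw [length_un, hA, hcd] at h1
  rw [length_un, length_un, hcd] at h2
  simp only [splP, val_lt, val_comp, val_pair, val_fst, val_snd, val_iterP, val_appP, val_chunksP,
    length_un]
  rw [h1, h2, length_un]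
  simp only [iterate_app]

theorem cost_splP (v : SV F s) (k : SC F s) (r m q q' : ℕ) (M t : List Unit)
    (A B : List (List F)) (hr : 0 < r) (hA : A.length = r * q) :
    (splP : Pr s Si _).cost v k ((un r, (un m, (M, t))), (un (r * q'), (A, B))) ≤
      (24 * r + 40) * (r * q) + (24 * r + 40) * (r * q') + (20 * m + 15) * r +
        2 * ((24 * q + 30) * r) + 130 := by
  have hcd : ∀ q, (r * q + r - 1) / r = q := by
    intro q
    have : r * q + r - 1 = (r - 1) + r * q := by omega
    rw [this, Nat.add_mul_div_left _ _ hr, Nat.div_eq_of_lt (by omega), zero_add]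
  have h1 := val_divP (F := F) (a := Po) (b := .unit) v (un r) A (by simpa using hr)
  have h2 := val_divP (F := F) (a := .unit) (b := .unit) v (un r) (un (r * q')) (by simpa using hr)
  rw [length_un, hA, hcd] at h1
  rw [length_un, length_un, hcd] at h2
  have c1 := cost_divP (F := F) (a := Po) (b := .unit) v k (un r) A (by simpa using hr)
  have c2 := cost_divP (F := F) (a := .unit) (b := .unit) v k (un r) (un (r * q'))
    (by simpa using hr)
  have c3 := cost_iterP_le (F := F) (s := s) (b := .unit) (c := Un) (a := Un) appP v k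
    (un r, (un m, un q')) (20 * m + 5) (fun _ => True) trivial (fun _ _ => trivial)
    (fun y _ => by
      have := cost_appP (F := F) (s := s) (a := .unit) v k (un m, y)
      simpa using this)
  have c4 := cost_chunksP (F := F) (s := s) (b := .unit) (c := .unit) (a := Po) v k
    (un r, (un q, A))
  have c5 := cost_chunksP (F := F) (s := s) (b := .unit) (c := .unit) (a := Po) v k
    (un r, (un q, B))
  simp only [length_un, hA] at c1 c2 c3 c4 c5
  simp only [splP, cost_lt, cost_comp, cost_pair, cost_fst, cost_snd, val_comp, val_pair, val_fst,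
    val_snd, h1, h2]
  have e3 : (20 * m + 15) * r = (20 * m + 5 + 10) * r := by ring
  omega

/-- one recursive call; input `((context, (chunks, chunks)), e)` -/
def callF : Pr ((Si, Ma) :: s) (.prod (.prod Cx (.prod (.list Ma) (.list Ma))) Un)
    (.prod Un Ma) :=
  .pair .snd (lt (.comp (.comp (.pair .snd (.comp (.comp .fst .fst) (.comp (.comp .snd .snd) .fst)))
      splitP) .snd)
    (.comp (.pair (.comp (.comp .fst .fst) .fst) (.pair (.comp .fst .snd)
      (.pair (.comp (.pair .snd (.comp (.comp .fst .fst) (.comp .snd .fst))) horDP)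
        (.comp (.pair .snd (.comp (.comp .fst .fst) (.comp .snd .snd))) horDP)))) .self))

theorem val_callF (S : Ty.D F Si → List (List F)) (v : SV F s) (r m t : List Unit) (M e : ℕ)
    (As Bs : List (List (List F))) :
    (callF : Pr ((Si, Ma) :: s) _ _).val (S, v) (((r, (m, (un M, t))), (As, Bs)), un e) =
      (un e, S ((r, (m, (un M, t))), (un e, (horD (M - e) As, horD (M - e) Bs)))) := by
  simp only [callF, val_lt, val_comp, val_pair, val_fst, val_snd, val_splitP, val_horDP, val_self,
    List.length_drop, length_un]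

theorem cost_callF (S : Ty.D F Si → List (List F)) (K : Ty.D F Si → ℕ) (v : SV F s)
    (k : SC F s) (r m t : List Unit) (M e u rr : ℕ) (As Bs : List (List (List F)))
    (hAs : ∀ A ∈ As, Sh M A) (hBs : ∀ A ∈ Bs, Sh M A) (hAu : ∀ A ∈ As, List.length A = u)
    (hBu : ∀ A ∈ Bs, List.length A = u) (hAr : As.length ≤ rr) (hBr : Bs.length ≤ rr)
    (he : e ≤ M) :
    (callF : Pr ((Si, Ma) :: s) _ _).cost (S, v) (K, k)
      (((r, (m, (un M, t))), (As, Bs)), un e) ≤
      K ((r, (m, (un M, t))), (un e, (horD (M - e) As, horD (M - e) Bs))) +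
        2 * ((85 * (M * u) + 84 * u + 90) * rr) + 24 * M + 200 := by
  have h1 := cost_splitP (F := F) (s := (Si, Ma) :: s) (b := .unit) (a := .unit) (S, v) (K, k)
    (un e, un M)
  have h2 := cost_horDP (F := F) (s := (Si, Ma) :: s) (b := .unit) (S, v) (K, k)
    (List.drop e (un M), As) M u rr (by simp) hAs hAu hAr
  have h3 := cost_horDP (F := F) (s := (Si, Ma) :: s) (b := .unit) (S, v) (K, k)
    (List.drop e (un M), Bs) M u rr (by simp) hBs hBu hBr
  simp only [length_un] at h1
  simp only [callF, cost_lt, cost_comp, cost_pair, cost_fst, cost_snd, cost_self, val_comp,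
    val_pair, val_fst, val_snd, val_splitP, val_horDP, List.length_drop, length_un]
  omega

/-- all recursive calls -/
def callP : Pr ((Si, Ma) :: s) (.prod (.prod Cx (.prod (.list Ma) (.list Ma))) (.list Un))
    (.list (.prod Un Ma)) := mapP callF

/-- one step of the inner recursion -/
def innB : Pr ((Si, Ma) :: s) Si Ma :=
  lt splP (.comp (.pair (.comp (.comp .fst .fst) .fst)
    (.comp (.pair (.pair (.comp .fst .fst) (.comp .snd .snd)) (.comp .snd .fst)) callP)) cmbP)

theorem val_innB (S : Ty.D F Si → List (List F)) (v : SV F s) (r m M q q' : ℕ) (t : List Unit)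
    (A B : List (List F)) (hr : 0 < r) (hA : A.length = r * q) :
    (innB : Pr ((Si, Ma) :: s) Si Ma).val (S, v) ((un r, (un m, (un M, t))), (un (r * q'), (A, B)))
      = cmbD r ((List.range r).map fun k => (un (q' + k * m),
          S ((un r, (un m, (un M, t))), (un (q' + k * m),
            (horD (M - (q' + k * m)) (chunks q r A), horD (M - (q' + k * m)) (chunks q r B)))))) := by
  simp only [innB, val_lt, val_comp, val_pair, val_fst, val_snd, val_splP _ r m q q' _ t A B hr hA,
    callP, val_mapP, val_cmbP, length_un, List.map_map]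
  congr 1
  refine List.map_congr_left fun k _ => ?_
  exact val_callF S v _ _ _ _ _ _ _

theorem Sh_chunks {M : ℕ} (n k : ℕ) (A : List (List F)) (hA : Sh M A) :
    ∀ c ∈ chunks n k A, Sh M c := by
  induction k generalizing A with
  | zero => intro c hc; simp [chunks] at hc
  | succ k ih =>
    intro c hc
    rw [chunks, List.mem_cons] at hc
    rcases hc with rfl | hc
    · exact fun x hx => hA x (List.mem_of_mem_take hx)
    · exact ih (A.drop n) (fun x hx => hA x (List.mem_of_mem_drop hx)) c hc

theorem length_of_mem_chunks {α : Type} (n k : ℕ) (A : List α) (hA : A.length = k * n) :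
    ∀ c ∈ chunks n k A, c.length = n := by
  induction k generalizing A with
  | zero => intro c hc; simp [chunks] at hc
  | succ k ih =>
    intro c hc
    have e : (k + 1) * n = k * n + n := by ring
    rw [chunks, List.mem_cons] at hc
    rcases hc with rfl | hc
    · rw [List.length_take]; omega
    · exact ih (A.drop n) (by rw [List.length_drop]; omega) c hc

theorem cost_innB (S : Ty.D F Si → List (List F)) (K : Ty.D F Si → ℕ) (v : SV F s) (k : SC F s)
    (r m M q q' T : ℕ) (t : List Unit)
    (A B : List (List F)) (hr : r = 2 ∨ r = 3) (hA : A.length = r * q) (hB : B.length = r * q)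
    (hAM : Sh M A) (hBM : Sh M B) (he : ∀ k < r, q' + k * m ≤ M) (hq : 0 < q) (hM : 0 < M)
    (hS : ∀ k < r, Sh M (S ((un r, (un m, (un M, t))), (un (q' + k * m),
            (horD (M - (q' + k * m)) (chunks q r A), horD (M - (q' + k * m)) (chunks q r B))))) ∧
          (S ((un r, (un m, (un M, t))), (un (q' + k * m),
            (horD (M - (q' + k * m)) (chunks q r A),
              horD (M - (q' + k * m)) (chunks q r B))))).length = q ∧
          K ((un r, (un m, (un M, t))), (un (q' + k * m),
            (horD (M - (q' + k * m)) (chunks q r A),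
              horD (M - (q' + k * m)) (chunks q r B)))) ≤ T) :
    (innB : Pr ((Si, Ma) :: s) Si Ma).cost (S, v) (K, k)
      ((un r, (un m, (un M, t))), (un (r * q'), (A, B))) ≤ r * T + 20000 * (M * q) := by
  have hr0 : 0 < r := by omega
  have c1 := cost_splP (F := F) (s := (Si, Ma) :: s) (S, v) (K, k) r m q q' (un M) t A B hr0 hA
  have c2 := cost_mapP_le (F := F) (s := (Si, Ma) :: s) (c := .prod Cx (.prod (.list Ma) (.list Ma)))
    (a := Un) (b := .prod Un Ma) callF (S, v) (K, k)
    (((un r, (un m, (un M, t))), (chunks q r A, chunks q r B)),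
      (List.range r).map (fun k => un (q' + k * m)))
    (T + 2 * ((85 * (M * q) + 84 * q + 90) * r) + 24 * M + 200) (by
      intro y hy
      rw [List.mem_map] at hy
      obtain ⟨j, hj, rfl⟩ := hy
      rw [List.mem_range] at hj
      have h1 := cost_callF (F := F) (s := s) S K v k (un r) (un m) t M (q' + j * m) q r
        (chunks q r A) (chunks q r B) (Sh_chunks _ _ _ hAM) (Sh_chunks _ _ _ hBM)
        (length_of_mem_chunks _ _ _ hA) (length_of_mem_chunks _ _ _ hB)
        (length_chunks _ _ _).le (length_chunks _ _ _).le (he j hj)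
      have h2 := (hS j hj).2.2
      refine h1.trans ?_
      omega)
  have hst : StOk M q r ((List.range r).map fun k => (un (q' + k * m),
          S ((un r, (un m, (un M, t))), (un (q' + k * m),
            (horD (M - (q' + k * m)) (chunks q r A),
              horD (M - (q' + k * m)) (chunks q r B)))))) := by
    refine ⟨by simp, ?_⟩
    intro p hp
    rw [List.mem_map] at hp
    obtain ⟨j, hj, rfl⟩ := hp
    rw [List.mem_range] at hj
    have h2 := hS j hj
    exact ⟨by simpa using he j hj, h2.1, h2.2.1⟩
  have c3 := cost_cmbP (F := F) (s := (Si, Ma) :: s) (b := .unit) (S, v) (K, k)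
    (un r, (List.range r).map fun k => (un (q' + k * m),
          S ((un r, (un m, (un M, t))), (un (q' + k * m),
            (horD (M - (q' + k * m)) (chunks q r A),
              horD (M - (q' + k * m)) (chunks q r B)))))) M q r (by simp) hst hr0
  have hcall : (callP : Pr ((Si, Ma) :: s) _ _).val (S, v)
      (((un r, (un m, (un M, t))), (chunks q r A, chunks q r B)),
        (List.range r).map (fun k => un (q' + k * m))) =
      (List.range r).map fun k => (un (q' + k * m),
          S ((un r, (un m, (un M, t))), (un (q' + k * m),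
            (horD (M - (q' + k * m)) (chunks q r A),
              horD (M - (q' + k * m)) (chunks q r B))))) := by
    simp only [callP, val_mapP, List.map_map]
    refine List.map_congr_left fun k _ => ?_
    exact val_callF S v _ _ _ _ _ _ _
  simp only [List.length_map, List.length_range] at c2
  have hP1 : q ≤ M * q := Nat.le_mul_of_pos_left _ hM
  have hP2 : M ≤ M * q := Nat.le_mul_of_pos_right _ hq
  have hq' : q' + 1 * m ≤ M := he 1 (by omega)
  simp only [innB, cost_lt, cost_comp, cost_pair, cost_fst, cost_snd, val_comp, val_pair, val_fst,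
    val_snd, val_splP _ r m q q' _ t A B hr0 hA]
  rw [hcall]
  change (mapP callF).cost _ _ _ ≤ _ at c2
  rw [← callP] at c2
  rcases hr with rfl | rfl
  · omega
  · omega

/-- the inner recursion -/
theorem goV_inn (So' : Ty.D F So → List F) (Ko : Ty.D F So → ℕ) (v : SV F s) (k : SC F s)
    (r j m M T : ℕ) (t : List Unit) (hr : r = 2 ∨ r = 3) (hm : m = r ^ j) (hM : M = r * m)
    (hS : ∀ a b : List F, a.length = M → b.length = M →
      pol (So' (un r, (t, (a, b)))) = pol a * pol b ∧
      (So' (un r, (t, (a, b)))).length = 2 * M ∧ Ko (un r, (t, (a, b))) ≤ T)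
    (n q' : ℕ) (hn : n ≤ j + 1) (A B : List (List F)) (hA : A.length = r ^ n)
    (hB : B.length = r ^ n) (hAM : Sh M A) (hBM : Sh M B) (hq' : r ^ n * q' < M) :
    let x : Ty.D F Si := ((un r, (un m, (un M, t))), (un (r ^ n * q'), (A, B)))
    let Cc : List (List F) :=
      goV (F := F) (s := (So, Po) :: s) innB innQ (So', v) n x
    Sh M Cc ∧ Cc.length = r ^ n ∧
    (∀ (R : Type) [CommRing R] [Algebra F R] (x y : R),
      ∑ k ∈ Finset.range r, (x ^ m) ^ k = 0 →
      (y ^ (r ^ n) - x ^ (r ^ n * q')) ∣ ev2 x y Cc - ((r ^ n : ℕ) : R) * (ev2 x y A * ev2 x y B)) ∧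
    goC (F := F) (s := (So, Po) :: s) innB innQ (So', v) (Ko, k) n x ≤
      r ^ n * (T + 20000 * M + 20000 * M * n) := by
  have hr0 : 0 < r := by omega
  have hm0 : 0 < m := by rw [hm]; exact Nat.pow_pos hr0
  have hM0 : 0 < M := by rw [hM]; exact Nat.mul_pos hr0 hm0
  induction n generalizing A B q' with
  | zero =>
    intro X Cc
    obtain ⟨a, rfl⟩ : ∃ a, A = [a] := List.length_eq_one_iff.1 (by simpa using hA)
    obtain ⟨b, rfl⟩ : ∃ a, B = [a] := List.length_eq_one_iff.1 (by simpa using hB)
    obtain ⟨h1, h2, h3⟩ := hS a b (hAM a (by simp)) (hBM b (by simp))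
    have hCc : Cc = [zp (fun x y : F => x + y) (List.take M (So' (un r, (t, (a, b)))))
        (List.drop M (So' (un r, (t, (a, b)))))] := by
      have := val_innQ (s := s) So' v (un r) (un m) (un M) t (un (r ^ 0 * q')) [a] [b]
      rw [length_un] at this
      exact this
    refine ⟨?_, by rw [hCc]; simp, ?_, ?_⟩
    · rw [hCc]
      intro c hc
      rw [List.mem_singleton] at hc
      rw [hc, length_zp, List.length_take, List.length_drop, h2]
      omega
    · intro R _ _ x y hx
      have hxM : x ^ M = 1 := by
        rw [hM, mul_comm, pow_mul]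
        exact geo_one r _ hx
      have e0 : ∀ c : List F, ev2 x y [c] = ev1 x c := by
        intro c; simp [ev2]
      have e1 : ev1 x (So' (un r, (t, (a, b)))) =
          ev1 x (List.take M (So' (un r, (t, (a, b))))) +
          x ^ M * ev1 x (List.drop M (So' (un r, (t, (a, b))))) := evg_split _ _ _ _
      have e2 : ev1 x (So' (un r, (t, (a, b)))) = ev1 x a * ev1 x b := by
        rw [ev1_pol, h1, map_mul, ← ev1_pol, ← ev1_pol]
      rw [hCc, e0, e0, e0, ev1_zp]
      rw [hxM, one_mul] at e1
      rw [← e1, e2]
      simp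
    · have := cost_innQ (s := s) So' Ko v k (un r) (un m) (un M) t (un (r ^ 0 * q')) [a] [b]
      simp only [List.headD_cons, length_un] at this
      refine le_trans this ?_
      rw [pow_zero, one_mul, mul_zero, add_zero]
      omega
  | succ n ih =>
    intro X Cc
    have hrn : 0 < r ^ n := Nat.pow_pos hr0
    have hmn : m = r ^ n * r ^ (j - n) := by rw [hm, ← pow_add]; congr 1; omega
    have hA' : A.length = r * r ^ n := by rw [hA, pow_succ, mul_comm]
    have hB' : B.length = r * r ^ n := by rw [hB, pow_succ, mul_comm]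
    have hE : r ^ (n + 1) * q' = r * (r ^ n * q') := by rw [pow_succ]; ring
    have hEm : r ^ n * q' < m := by
      rw [hE, hM] at hq'
      exact Nat.lt_of_mul_lt_mul_left hq'
    have hek : ∀ i < r, r ^ n * q' + i * m < M := by
      intro i hi
      have : i * m + m ≤ r * m := by
        have : (i + 1) * m ≤ r * m := Nat.mul_le_mul_right _ hi
        rwa [add_mul, one_mul] at this
      rw [hM]
      omega
    have hek' : ∀ i, r ^ n * q' + i * m = r ^ n * (q' + i * r ^ (j - n)) := by
      intro i
      rw [hmn]; ring
    set S : Ty.D F Si → List (List F) := goV (F := F) (s := (So, Po) :: s) innB innQ (So', v) n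
      with hSdef
    have hch : chunks (r ^ n) r A ≠ [] ∧ chunks (r ^ n) r B ≠ [] := by
      constructor
      · intro h0
        have := length_chunks (r ^ n) r A
        rw [h0] at this
        simp at this
        omega
      · intro h0
        have := length_chunks (r ^ n) r B
        rw [h0] at this
        simp at this
        omega
    have hi := fun i (hi : i < r) => ih (q' + i * r ^ (j - n)) (by omega)
      (horD (M - (r ^ n * q' + i * m)) (chunks (r ^ n) r A))
      (horD (M - (r ^ n * q' + i * m)) (chunks (r ^ n) r B))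
      (length_horD _ (length_of_mem_chunks _ _ _ hA') hch.1)
      (length_horD _ (length_of_mem_chunks _ _ _ hB') hch.2)
      (Sh_horD _ (Sh_chunks _ _ _ hAM)) (Sh_horD _ (Sh_chunks _ _ _ hBM))
      (by rw [← hek']; exact hek i hi)
    simp only [← hek'] at hi
    have hCc : Cc = cmbD r ((List.range r).map fun i => (un (r ^ n * q' + i * m),
          S ((un r, (un m, (un M, t))), (un (r ^ n * q' + i * m),
            (horD (M - (r ^ n * q' + i * m)) (chunks (r ^ n) r A),
              horD (M - (r ^ n * q' + i * m)) (chunks (r ^ n) r B)))))) := by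
      have := val_innB (s := (So, Po) :: s) S (So', v) r m M (r ^ n) (r ^ n * q') t A B hr0 hA'
      rw [← hE] at this
      exact this
    have hst : StOk M (r ^ n) r ((List.range r).map fun i => (un (r ^ n * q' + i * m),
          S ((un r, (un m, (un M, t))), (un (r ^ n * q' + i * m),
            (horD (M - (r ^ n * q' + i * m)) (chunks (r ^ n) r A),
              horD (M - (r ^ n * q' + i * m)) (chunks (r ^ n) r B)))))) := by
      refine ⟨by simp, ?_⟩
      intro p hp
      rw [List.mem_map] at hp
      obtain ⟨i, hi', rfl⟩ := hp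
      rw [List.mem_range] at hi'
      obtain ⟨g1, g2, -⟩ := hi i hi'
      exact ⟨by simpa using (hek i hi').le, g1, g2⟩
    have hok := cmbD_ok hst hr0
    refine ⟨by rw [hCc]; exact hok.1, by rw [hCc, hok.2, pow_succ, mul_comm], ?_, ?_⟩
    · intro R _ _ x y hx
      have hxM : x ^ M = 1 := by
        rw [hM, mul_comm, pow_mul]
        exact geo_one r _ hx
      have key := fm_key r m M (r ^ n) (r ^ n * q') x y ((r ^ n : ℕ) : R) (ev2 x y A * ev2 x y B)
        (ev2 x y Cc) (fun i => ev2 x y (S ((un r, (un m, (un M, t))), (un (r ^ n * q' + i * m),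
            (horD (M - (r ^ n * q' + i * m)) (chunks (r ^ n) r A),
              horD (M - (r ^ n * q' + i * m)) (chunks (r ^ n) r B)))))) hr hM hx
        (fun i hi' => (hek i hi').le) ?_ ?_
      · rw [hE, pow_succ, mul_comm (r ^ n) r, Nat.cast_mul]
        exact key
      · intro i hi'
        obtain ⟨-, -, g3, -⟩ := hi i hi'
        have g4 := g3 R x y hx
        have a1 : ev2 x y (horD (M - (r ^ n * q' + i * m)) (chunks (r ^ n) r A)) =
            evg (ev2 x y) (x ^ (r ^ n * q' + i * m)) (chunks (r ^ n) r A) := by
          rw [ev2_horD x y M _ _ (Sh_chunks _ _ _ hAM) (by omega) hxM]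
          congr 2
          have := hek i hi'
          omega
        have b1 : ev2 x y (horD (M - (r ^ n * q' + i * m)) (chunks (r ^ n) r B)) =
            evg (ev2 x y) (x ^ (r ^ n * q' + i * m)) (chunks (r ^ n) r B) := by
          rw [ev2_horD x y M _ _ (Sh_chunks _ _ _ hBM) (by omega) hxM]
          congr 2
          have := hek i hi'
          omega
        have a2 : ev2 x y A = evg (ev2 x y) (y ^ (r ^ n)) (chunks (r ^ n) r A) :=
          (evg_chunks _ _ _ _ _ hA'.le).symm
        have b2 : ev2 x y B = evg (ev2 x y) (y ^ (r ^ n)) (chunks (r ^ n) r B) :=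
          (evg_chunks _ _ _ _ _ hB'.le).symm
        have a3 := evg_sub_dvd (ev2 x y) (y ^ (r ^ n)) (x ^ (r ^ n * q' + i * m))
          (chunks (r ^ n) r A)
        have b3 := evg_sub_dvd (ev2 x y) (y ^ (r ^ n)) (x ^ (r ^ n * q' + i * m))
          (chunks (r ^ n) r B)
        rw [← a1, ← a2] at a3
        rw [← b1, ← b2] at b3
        obtain ⟨d1, hd1⟩ := a3
        obtain ⟨d2, hd2⟩ := b3
        obtain ⟨d3, hd3⟩ := g4
        refine ⟨d3 - ((r ^ n : ℕ) : R) * (d1 * ev2 x y B +
          ev2 x y (horD (M - (r ^ n * q' + i * m)) (chunks (r ^ n) r A)) * d2), ?_⟩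
        linear_combination hd3 - ((r ^ n : ℕ) : R) * (ev2 x y B * hd1 +
          ev2 x y (horD (M - (r ^ n * q' + i * m)) (chunks (r ^ n) r A)) * hd2)
      · rw [hCc, ev2_cmbD x y M (r ^ n) r _ hst hxM hr0, List.map_map, sum_map_range]
        refine Finset.sum_congr rfl fun i _ => ?_
        simp only [Function.comp_apply, length_un]
    · have := cost_innB (s := (So, Po) :: s) S
        (goC (F := F) (s := (So, Po) :: s) innB innQ (So', v) (Ko, k) n) (So', v) (Ko, k)
        r m M (r ^ n) (r ^ n * q') (r ^ n * (T + 20000 * M + 20000 * M * n)) t A B hr hA' hB'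
        hAM hBM (fun i hi' => (hek i hi').le) hrn hM0 (fun i hi' => by
          obtain ⟨g1, g2, -, g3⟩ := hi i hi'
          exact ⟨g1, g2, g3⟩)
      rw [← hE] at this
      refine le_trans this ?_
      have e1 : r ^ (n + 1) * (T + 20000 * M + 20000 * M * ((n + 1 : ℕ))) =
        r * (r ^ n * (T + 20000 * M + 20000 * M * n)) + r * (20000 * (M * r ^ n)) := by
        push_cast
        ring
      rw [e1]
      have e2 : 1 * (20000 * (M * r ^ n)) ≤ r * (20000 * (M * r ^ n)) :=
        Nat.mul_le_mul_right _ hr0
      omega

end progs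


section progs
variable {F : Type} [Field F] [DecidableEq F]
variable {s : List (Ty × Ty)} {a b c d e g σ τ : Ty}

/-! ### schoolbook multiplication -/

/-- schoolbook multiplication -/
def sch (a b : List F) : List F :=
  a.foldr (fun x acc => zp (fun x y : F => x + y) (b.map (fun y => x * y)) (0 :: acc)) []

theorem pol_zp (a b : List F) : pol (zp (fun x y : F => x + y) a b) = pol a + pol b := by
  rw [← evg_pol, ← evg_pol, ← evg_pol]
  exact evg_zp _ _ _ (fun _ _ => C_add) _ _

theorem pol_map_mul (x : F) (b : List F) : pol (b.map (fun y => x * y)) = C x * pol b := by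
  rw [← evg_pol, ← evg_pol]
  exact evg_map_mul _ _ _ _ _ _ (fun _ _ => C_mul)

theorem pol_sch (a b : List F) : pol (sch a b) = pol a * pol b := by
  unfold sch
  induction a with
  | nil => simp [pol]
  | cons x a ih =>
    rw [List.foldr_cons, pol_zp, pol_map_mul, pol, pol, ih, C_0]
    ring

/-- body of the schoolbook multiplication -/
def schF : Pr s (.prod Po (.prod Po .fld)) Po :=
  .comp (.pair (.comp (.pair (.comp .snd .snd) .fst) (mapP .mul))
    (.comp (.pair .zero (.comp .snd .fst)) .cons)) (zpP .add)

/-- schoolbook multiplication -/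
def schP : Pr s (.prod Po Po) Po :=
  .comp (.pair .snd (.pair .nil (.comp .fst revP))) (foldP schF)

theorem val_schF (v : SV F s) (x : Ty.D F (.prod Po (.prod Po .fld))) :
    (schF : Pr s _ _).val v x =
      zp (fun x y : F => x + y) (List.map (fun y => x.2.2 * y) x.1) (0 :: x.2.1) := by
  simp only [schF, val_comp, val_pair, val_fst, val_snd, val_mapP, val_mul, val_zero, val_cons,
    val_zpP, val_add]

theorem val_schP (v : SV F s) (x : Ty.D F (.prod Po Po)) :
    (schP : Pr s (.prod Po Po) Po).val v x = sch x.1 x.2 := by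
  simp only [schP, val_comp, val_pair, val_fst, val_snd, val_nil, val_foldP, val_revP, val_schF,
    List.foldl_reverse]
  rfl

theorem cost_schF (v : SV F s) (k : SC F s) (b acc : List F) (x : F) :
    (schF : Pr s _ _).cost v k (b, (acc, x)) ≤ 55 * b.length + 40 := by
  have h1 := cost_mapP_le (s := s) (F := F) (c := .fld) (a := .fld) (b := .fld) .mul v k (x, b) 1
    (fun _ _ => by simp)
  have h2 := cost_zpP_le (s := s) (F := F) .add v k
    (b.map (fun y => x * y), 0 :: acc) 1 (fun _ _ _ _ => by simp)
  simp only [List.length_map] at h1 h2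
  simp only [schF, cost_comp, cost_pair, cost_fst, cost_snd, cost_zero, cost_cons, val_comp,
    val_pair, val_fst, val_snd, val_mapP, val_mul, val_zero, val_cons]
  omega

theorem cost_schP (v : SV F s) (k : SC F s) (a b : List F) :
    (schP : Pr s (.prod Po Po) Po).cost v k (a, b) ≤ (55 * b.length + 100) * a.length + 50 := by
  have h1 := cost_foldP_le (s := s) (F := F) (c := Po) (b := Po) (a := .fld) schF v k
    (b, (([] : List F), a.reverse)) (55 * b.length + 40) (fun _ => True) trivial
    (fun _ _ _ _ => trivial) (fun y z _ _ => cost_schF v k b y z)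
  have h2 := cost_revP (s := s) (F := F) (a := .fld) v k a
  simp only [List.length_reverse] at h1
  simp only [schP, cost_comp, cost_pair, cost_fst, cost_snd, cost_nil, val_comp, val_pair,
    val_fst, val_snd, val_nil, val_revP]
  have h3 : (55 * b.length + 100) * a.length = (55 * b.length + 40 + 27) * a.length
    + 33 * a.length := by ring
  omega

/-! ### cutting -/

/-- list of zeros; input: unary number -/
def zerosP : Pr s (.list b) (.list .fld) :=
  .comp (.pair .star .id) (mapP (c := .unit) .zero)

theorem val_zerosP (v : SV F s) (x : Ty.D F (.list b)) :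
    (zerosP : Pr s (.list b) _).val v x = List.replicate (List.length x) (0 : F) := by
  simp only [zerosP, val_comp, val_pair, val_star, val_id, val_mapP, val_zero]
  exact List.map_const'

theorem cost_zerosP (v : SV F s) (k : SC F s) (x : Ty.D F (.list b)) :
    (zerosP : Pr s (.list b) _).cost v k x ≤ 14 * List.length x + 10 := by
  have h1 := cost_mapP_le (s := s) (F := F) (c := .unit) (a := b) (b := .fld) .zero v k ((), x) 1
    (fun _ _ => by simp)
  simp only at h1
  simp only [zerosP, cost_comp, cost_pair, cost_star, cost_id, val_pair, val_star, val_id]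
  omega

/-- blocks of length `h`, padded -/
def cut (h m M : ℕ) (a : List F) : List (List F) :=
  fit M (List.replicate M 0) ((chunks h m a).map (fit M 0))

/-- input `(M, l)` -/
def fitF : Pr s (.prod Un Po) Po := .comp (.pair .fst (.pair .zero .snd)) fitP

theorem val_fitF (v : SV F s) (x : Ty.D F (.prod Un Po)) :
    (fitF : Pr s (.prod Un Po) Po).val v x = fit (List.length x.1) (0 : F) x.2 := by
  simp only [fitF, val_comp, val_pair, val_fst, val_snd, val_zero, val_fitP]

/-- chunks, padded; input `(h, (m, (M, a)))` -/
def cut1P : Pr s (.prod Un (.prod Un (.prod Un Po))) Ma :=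
  .comp (.pair (.comp (.comp .snd .snd) .fst) (.comp (.pair (.comp .snd .fst) (.pair .fst
      (.comp (.comp .snd .snd) .snd))) chunksP)) (mapP fitF)

theorem val_cut1P (v : SV F s) (x : Ty.D F (.prod Un (.prod Un (.prod Un Po)))) :
    (cut1P : Pr s _ _).val v x =
      (chunks (List.length x.1) (List.length x.2.1) x.2.2.2).map
        (fit (List.length x.2.2.1) (0 : F)) := by
  simp only [cut1P, val_comp, val_pair, val_fst, val_snd, val_mapP, val_fitF, val_chunksP]

theorem cost_cut1P (v : SV F s) (k : SC F s) (x : Ty.D F (.prod Un (.prod Un (.prod Un Po)))) :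
    (cut1P : Pr s _ _).cost v k x ≤
      (24 * List.length x.1 + 30) * List.length x.2.1 +
        (20 * List.length x.2.2.1 + 23) * List.length x.2.1 + 30 := by
  obtain ⟨h, m, M, a⟩ := x
  have h1 := cost_chunksP (s := s) (F := F) (b := .unit) (c := .unit) (a := .fld) v k (m, (h, a))
  have h2 := cost_mapP_le (s := s) (F := F) (c := Un) (a := Po) (b := Po) fitF v k
    (M, chunks (List.length h) (List.length m) a) (20 * List.length M + 10) (fun y _ => by
      have := cost_fitP (s := s) (F := F) (b := .unit) (a := .fld) v k (M, ((0 : F), y))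
      simp only [fitF, cost_comp, cost_pair, cost_fst, cost_snd, cost_zero, val_pair, val_fst,
        val_snd, val_zero] at this ⊢
      omega)
  simp only [length_chunks] at h1 h2
  simp only [cut1P, cost_comp, cost_pair, cost_fst, cost_snd, val_comp, val_pair, val_fst,
    val_snd, val_chunksP]
  have e : (20 * List.length M + 23) * List.length m =
    (20 * List.length M + 10 + 13) * List.length m := by ring
  omega

/-- input `(h, (m, (M, a)))` -/
def cutP : Pr s (.prod Un (.prod Un (.prod Un Po))) Ma :=
  .comp (.pair (.comp (.comp .snd .snd) .fst) (.pair (.comp (.comp (.comp .snd .snd) .fst) zerosP)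
    cut1P)) fitP

theorem val_cutP (v : SV F s) (x : Ty.D F (.prod Un (.prod Un (.prod Un Po)))) :
    (cutP : Pr s _ _).val v x =
      cut (List.length x.1) (List.length x.2.1) (List.length x.2.2.1) x.2.2.2 := by
  simp only [cutP, val_comp, val_pair, val_fst, val_snd, val_fitP, val_zerosP, val_cut1P]
  rfl

theorem cost_cutP (v : SV F s) (k : SC F s) (x : Ty.D F (.prod Un (.prod Un (.prod Un Po)))) :
    (cutP : Pr s _ _).cost v k x ≤
      (24 * List.length x.1 + 30) * List.length x.2.1 +
        (20 * List.length x.2.2.1 + 23) * List.length x.2.1 + 34 * List.length x.2.2.1 + 60 := by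
  have h2 := cost_cut1P (s := s) (F := F) v k x
  have h3 := cost_zerosP (s := s) (F := F) (b := .unit) v k x.2.2.1
  have h4 := cost_fitP (s := s) (F := F) (b := .unit) (a := Po) v k
    (x.2.2.1, (List.replicate (List.length x.2.2.1) (0 : F), (cut1P : Pr s _ _).val v x))
  simp only at h4
  simp only [cutP, cost_comp, cost_pair, cost_fst, cost_snd, val_comp, val_pair, val_fst, val_snd,
    val_zerosP]
  omega

/-! ### the final steps -/

/-- extraction -/
def nrm1 (m f : ℕ) (c : List F) : List F :=
  zp (fun x y : F => x + y) (c.take m) ((c.drop f).map (fun y => -y))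

/-- extraction and scaling -/
def nrm (m f : ℕ) (z : F) (c : List F) : List F := (nrm1 m f c).map (fun y => z * y)

theorem length_nrm1_le (m f : ℕ) (c : List F) : (nrm1 m f c).length ≤ c.length := by
  rw [nrm1, length_zp, List.length_map, List.length_take, List.length_drop]
  omega

theorem length_nrm_le (m f : ℕ) (z : F) (c : List F) : (nrm m f z c).length ≤ c.length := by
  rw [nrm, List.length_map]
  exact length_nrm1_le m f c

/-- input `((m, f), c)` -/
def nrm1P : Pr s (.prod (.prod Un Un) Po) Po :=
  .comp (.pair
    (.comp (.comp (.pair (.comp .fst .fst) .snd) splitP) .fst)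
    (.comp (.pair .star (.comp (.comp (.pair (.comp .fst .snd) .snd) splitP) .snd))
      (mapP (c := .unit) (.comp .snd .neg)))) (zpP .add)

theorem val_nrm1P (v : SV F s) (x : Ty.D F (.prod (.prod Un Un) Po)) :
    (nrm1P : Pr s _ _).val v x = nrm1 (List.length x.1.1) (List.length x.1.2) x.2 := by
  simp only [nrm1P, val_comp, val_pair, val_fst, val_snd, val_star, val_splitP, val_mapP, val_neg,
    val_zpP, val_add]
  rfl

theorem cost_nrm1P (v : SV F s) (k : SC F s) (x : Ty.D F (.prod (.prod Un Un) Po)) :
    (nrm1P : Pr s _ _).cost v k x ≤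
      24 * List.length x.1.1 + 24 * List.length x.1.2 + 56 * List.length x.2 + 60 := by
  obtain ⟨⟨m, f⟩, c⟩ := x
  have h1 := cost_splitP (s := s) (F := F) (b := .unit) (a := .fld) v k (m, c)
  have h2 := cost_splitP (s := s) (F := F) (b := .unit) (a := .fld) v k (f, c)
  have h3 := cost_mapP_le (s := s) (F := F) (c := .unit) (a := .fld) (b := .fld)
    (.comp .snd .neg) v k ((), List.drop (List.length f) c) 2 (fun _ _ => by simp)
  have h4 := cost_zpP_le (s := s) (F := F) .add v k
    (List.take (List.length m) c, (List.map (fun y => -y) (List.drop (List.length f) c))) 1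
      (fun _ _ _ _ => by simp)
  simp only [List.length_take, List.length_drop] at h1 h2 h3 h4
  simp only [nrm1P, cost_comp, cost_pair, cost_fst, cost_snd, cost_star, val_comp, val_pair,
    val_fst, val_snd, val_star, val_splitP, val_mapP, val_neg]
  have e1 : (2 + 13) * (List.length c - List.length f) ≤ 15 * List.length c :=
    Nat.mul_le_mul_left _ (by omega)
  have e2 : (1 + 40) * min (List.length m) (List.length c) ≤ 41 * List.length c :=
    Nat.mul_le_mul_left _ (by omega)
  omega

/-- input `(((m, f), z), c)` -/
def nrmP : Pr s (.prod (.prod (.prod Un Un) .fld) Po) Po :=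
  .comp (.pair (.comp .fst .snd) (.comp (.pair (.comp .fst .fst) .snd) nrm1P)) (mapP .mul)

theorem val_nrmP (v : SV F s) (x : Ty.D F (.prod (.prod (.prod Un Un) .fld) Po)) :
    (nrmP : Pr s _ _).val v x =
      nrm (List.length x.1.1.1) (List.length x.1.1.2) x.1.2 x.2 := by
  simp only [nrmP, val_comp, val_pair, val_fst, val_snd, val_mapP, val_mul, val_nrm1P]
  rfl

theorem cost_nrmP (v : SV F s) (k : SC F s) (x : Ty.D F (.prod (.prod (.prod Un Un) .fld) Po)) :
    (nrmP : Pr s _ _).cost v k x ≤
      24 * List.length x.1.1.1 + 24 * List.length x.1.1.2 + 70 * List.length x.2 + 80 := by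
  obtain ⟨⟨⟨m, f⟩, z⟩, c⟩ := x
  have h1 := cost_nrm1P (s := s) (F := F) v k ((m, f), c)
  have h5 := cost_mapP_le (s := s) (F := F) (c := .fld) (a := .fld) (b := .fld)
    .mul v k (z, nrm1 (List.length m) (List.length f) c) 1 (fun _ _ => by simp)
  have h6 := length_nrm1_le (List.length m) (List.length f) c
  simp only at h1 h5
  simp only [nrmP, cost_comp, cost_pair, cost_fst, cost_snd, val_comp, val_pair,
    val_fst, val_snd, val_nrm1P]
  have e3 : (1 + 13) * (nrm1 (List.length m) (List.length f) c).length ≤ 14 * List.length c :=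
    Nat.mul_le_mul_left _ h6
  omega

/-- Horner scheme -/
def fin (h : ℕ) (N : List (List F)) : List F :=
  N.foldr (fun n acc => zp (fun x y : F => x + y) n (List.replicate h 0 ++ acc)) []

theorem pol_fin (h : ℕ) (N : List (List F)) : pol (fin h N) = evg pol (X ^ h) N := by
  unfold fin
  induction N with
  | nil => rfl
  | cons n N ih =>
    rw [List.foldr_cons, pol_zp, evg_cons, ← ih, ← evg_pol (List.replicate h 0 ++ _), evg_append,
      evg_replicate _ _ _ (by simp), zero_add, List.length_replicate, evg_pol]

/-- body of the Horner scheme -/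
def finF : Pr s (.prod Po (.prod Po Po)) Po :=
  .comp (.pair (.comp .snd .snd) (.comp (.pair .fst (.comp .snd .fst)) appP)) (zpP .add)

/-- input `(h, N)` -/
def finP : Pr s (.prod Un Ma) Po :=
  .comp (.pair (.comp .fst zerosP) (.pair .nil (.comp .snd revP))) (foldP finF)

theorem val_finF (v : SV F s) (x : Ty.D F (.prod Po (.prod Po Po))) :
    (finF : Pr s _ _).val v x =
      zp (fun x y : F => x + y) x.2.2 ((x.1 : List F) ++ (x.2.1 : List F)) := by
  simp only [finF, val_comp, val_pair, val_fst, val_snd, val_appP, val_zpP, val_add]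

theorem val_finP (v : SV F s) (x : Ty.D F (.prod Un Ma)) :
    (finP : Pr s _ _).val v x = fin (List.length x.1) x.2 := by
  simp only [finP, val_comp, val_pair, val_fst, val_snd, val_nil, val_zerosP, val_revP,
    val_foldP, val_finF, List.foldl_reverse]
  rfl

theorem cost_finP (v : SV F s) (k : SC F s) (h : List Unit) (N : List (List F)) (M : ℕ)
    (hN : ∀ n ∈ N, List.length n ≤ M) :
    (finP : Pr s _ _).cost v k (h, N) ≤
      (20 * h.length + 41 * M + 100) * N.length + 14 * h.length + 60 := by
  have h1 := cost_foldP_le (s := s) (F := F) (c := Po) (b := Po) (a := Po) finF v k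
    (List.replicate h.length (0 : F), (([] : List F), N.reverse)) (20 * h.length + 41 * M + 30)
    (fun _ => True) trivial (fun _ _ _ _ => trivial) (fun y z _ hz => by
      have hz' := hN z (by simpa using hz)
      have e1 := cost_appP (s := s) (F := F) (a := .fld) v k (List.replicate h.length (0 : F), y)
      have e2 := cost_zpP_le (s := s) (F := F) .add v k
        (z, List.replicate h.length (0 : F) ++ y) 1 (fun _ _ _ _ => by simp)
      simp only [List.length_replicate] at e1 e2
      simp only [finF, cost_comp, cost_pair, cost_fst, cost_snd, val_comp, val_pair, val_fst,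
        val_snd, val_appP]
      have e3 : (1 + 40) * List.length z ≤ 41 * M := Nat.mul_le_mul_left _ hz'
      omega)
  have h2 := cost_revP (s := s) (F := F) (a := Po) v k N
  have h3 := cost_zerosP (s := s) (F := F) (b := .unit) v k h
  simp only [List.length_reverse] at h1
  simp only [finP, cost_comp, cost_pair, cost_fst, cost_snd, cost_nil, val_comp, val_pair,
    val_fst, val_snd, val_nil, val_revP, val_zerosP]
  have e : (20 * h.length + 41 * M + 100) * N.length =
    (20 * h.length + 41 * M + 30 + 27) * N.length + 43 * N.length := by ring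
  omega

/-- inverse of a number given in unary -/
def cntP : Pr s (.list .unit) .fld :=
  .comp (.comp (.pair .star (.pair .zero .id))
    (foldP (c := .unit) (b := .fld) (a := .unit) (.comp (.pair (.comp .snd .fst) .one) .add))) .inv

theorem val_cntP (v : SV F s) (M : List Unit) :
    (cntP : Pr s (.list .unit) .fld).val v M = ((M.length : F))⁻¹ := by
  simp only [cntP, val_comp, val_pair, val_star, val_zero, val_id, val_foldP, val_fst, val_snd,
    val_one, val_add, val_inv]
  congr 1
  have : ∀ (l : List Unit) (z : F), List.foldl (fun (y : F) (_ : Unit) => y + 1) z l =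
      z + l.length := by
    intro l
    induction l with
    | nil => intro z; simp
    | cons a l ih => intro z; rw [List.foldl_cons, ih, List.length_cons]; push_cast; ring
  have h := this M 0
  rw [zero_add] at h
  exact h

theorem cost_cntP (v : SV F s) (k : SC F s) (M : List Unit) :
    (cntP : Pr s (.list .unit) .fld).cost v k M ≤ 33 * M.length + 30 := by
  have h1 := cost_foldP_le (s := s) (F := F) (c := .unit) (b := .fld) (a := .unit)
    (.comp (.pair (.comp .snd .fst) .one) .add) v k ((), ((0 : F), M)) 6
    (fun _ => True) trivial (fun _ _ _ _ => trivial) (fun y z _ _ => by simp)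
  simp only at h1
  simp only [cntP, cost_comp, cost_pair, cost_star, cost_zero, cost_id, cost_inv, val_pair,
    val_star, val_zero, val_id]
  omega

end progs


section progs
variable {F : Type} [Field F] [DecidableEq F]
variable {s : List (Ty × Ty)} {a b c d e g σ τ : Ty}

/-! ### the outer recursion -/

/-- successor of a unary number -/
def sucP : Pr s Un Un := .comp (.pair .star .id) .cons

theorem val_sucP (v : SV F s) (n : ℕ) : (sucP : Pr s Un Un).val v (un n) = un (n + 1) := by
  simp only [sucP, val_comp, val_pair, val_star, val_id, val_cons]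
  rfl

theorem cost_sucP (v : SV F s) (k : SC F s) (x : Ty.D F Un) :
    (sucP : Pr s Un Un).cost v k x = 4 := by
  simp [sucP]

/-- half of a unary number -/
def halfP : Pr s Un Un := .comp eoP .snd

theorem val_halfP (v : SV F s) (n : ℕ) : (halfP : Pr s Un Un).val v (un n) = un (n / 2) := by
  simp only [halfP, val_comp, val_eoP, val_snd]
  apply un_inj_len
  rw [(length_eo _).2, length_un]

theorem cost_halfP (v : SV F s) (k : SC F s) (n : ℕ) :
    (halfP : Pr s Un Un).cost v k (un n) ≤ 24 * n + 11 := by
  have := cost_eoP (s := s) (F := F) (a := .unit) v k (un n)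
  rw [length_un] at this
  simp only [halfP, cost_comp, cost_snd]
  omega

/-- context of the inner recursion and block length; input `(r, (t, (a, b)))` -/
def ctxP : Pr s So (.prod Cx Un) :=
  lt (.comp (.comp .snd .fst) halfP)
  (lt (.comp (.pair (.comp (.comp .snd sucP) sucP) (.comp .fst .fst)) powP)
  (lt (.comp (.pair .snd (.comp (.comp .fst .fst) .fst)) mulUP)
  (lt (.comp (.pair .snd (.comp (.comp .fst (.comp .fst .fst)) .fst)) mulUP)
    (.pair (.pair (.comp (.comp (.comp .fst .fst) (.comp .fst .fst)) .fst)
      (.pair (.comp .fst .snd) (.pair .snd (.comp (.comp .fst (.comp .fst .fst)) .snd))))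
      (.comp (.comp .fst .fst) .snd)))))

theorem val_ctxP (v : SV F s) (r t : ℕ) (ab : Ty.D F (.prod Po Po)) :
    (ctxP : Pr s So (.prod Cx Un)).val v (un r, (un t, ab)) =
      ((un r, (un (r * r ^ (t / 2 + 2)), (un (r * (r * r ^ (t / 2 + 2))), un (t / 2)))),
        un (r ^ (t / 2 + 2))) := by
  simp only [ctxP, val_lt, val_comp, val_pair, val_fst, val_snd]
  rw [val_halfP, val_sucP, val_sucP, val_powP, val_mulUP, val_mulUP]

theorem cost_ctxP (v : SV F s) (k : SC F s) (r t : ℕ) (ab : Ty.D F (.prod Po Po)) (hr : 1 ≤ r) :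
    (ctxP : Pr s So (.prod Cx Un)).cost v k (un r, (un t, ab)) ≤
      24 * t + ((20 * r ^ (t / 2 + 2) + 90) * r + 60) * (t / 2 + 2) +
        (20 * r ^ (t / 2 + 2) + 90) * r + (20 * (r * r ^ (t / 2 + 2)) + 90) * r + 250 := by
  have h1 := cost_halfP (s := s) (F := F) v k t
  have h2 := cost_powP (s := s) (F := F) v k (t / 2 + 2) r _ hr le_rfl
  have h3 := cost_mulUP (s := s) (F := F) v k (r ^ (t / 2 + 2)) r
  have h4 := cost_mulUP (s := s) (F := F) v k (r * r ^ (t / 2 + 2)) r
  simp only [ctxP, cost_lt, cost_comp, cost_pair, cost_fst, cost_snd, cost_sucP, val_comp,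
    val_pair, val_fst, val_snd]
  rw [val_halfP, val_sucP, val_sucP, val_powP, val_mulUP,
    show t / 2 + 1 + 1 = t / 2 + 2 by omega]
  omega

/-- start of the inner recursion; input `(X, (cx, h))` -/
def fast1P : Pr s (.prod So (.prod Cx Un)) (.prod Un Si) :=
  .pair (.comp (.comp (.comp .snd .fst) (.comp (.comp .snd .snd) .snd))
      (.comp (.comp sucP sucP) (.comp sucP sucP)))
    (.pair (.comp .snd .fst) (.pair .nil (.pair
      (.comp (.pair (.comp .snd .snd) (.pair (.comp (.comp .snd .fst) (.comp .snd .fst))
        (.pair (.comp (.comp .snd .fst) (.comp (.comp .snd .snd) .fst))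
          (.comp (.comp .fst (.comp .snd .snd)) .fst)))) cutP)
      (.comp (.pair (.comp .snd .snd) (.pair (.comp (.comp .snd .fst) (.comp .snd .fst))
        (.pair (.comp (.comp .snd .fst) (.comp (.comp .snd .snd) .fst))
          (.comp (.comp .fst (.comp .snd .snd)) .snd)))) cutP))))

theorem val_fast1P (v : SV F s) (r m M h t' : ℕ) (r' t : List Unit) (a b : List F) :
    (fast1P : Pr s _ _).val v ((r', (t, (a, b))), ((un r, (un m, (un M, un t'))), un h)) =
      (un (t' + 4), ((un r, (un m, (un M, un t'))), (un 0, (cut h m M a, cut h m M b)))) := by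
  simp only [fast1P, val_comp, val_pair, val_fst, val_snd, val_nil, val_cutP, length_un]
  rw [val_sucP, val_sucP, val_sucP, val_sucP]
  rfl

theorem cost_fast1P (v : SV F s) (k : SC F s) (r m M h t' : ℕ) (r' t : List Unit)
    (a b : List F) (hm : m ≤ M) (hh : h ≤ M) (hM : 1 ≤ M) :
    (fast1P : Pr s _ _).cost v k ((r', (t, (a, b))), ((un r, (un m, (un M, un t'))), un h)) ≤
      500 * (M * M) + 200 := by
  have h1 := cost_cutP (s := s) (F := F) v k (un h, (un m, (un M, a)))
  have h2 := cost_cutP (s := s) (F := F) v k (un h, (un m, (un M, b)))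
  simp only [length_un] at h1 h2
  have e1 : (24 * h + 30) * m ≤ (24 * M + 30) * M := Nat.mul_le_mul (by omega) hm
  have e2 : (20 * M + 23) * m ≤ (20 * M + 23) * M := Nat.mul_le_mul_left _ hm
  have e3 : (24 * M + 30) * M = 24 * (M * M) + 30 * M := by ring
  have e4 : (20 * M + 23) * M = 20 * (M * M) + 23 * M := by ring
  have e5 : M ≤ M * M := Nat.le_mul_of_pos_left _ hM
  simp only [fast1P, cost_comp, cost_pair, cost_fst, cost_snd, cost_nil, cost_sucP, val_comp,
    val_pair, val_fst, val_snd]
  omega

/-- end of the computation; input `((cx, h), C)` -/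
def fast2P : Pr s (.prod (.prod Cx Un) Ma) Po :=
  .comp (.pair (.comp .fst .snd) (.comp (.pair (.pair (.pair
    (.comp (.comp .fst .fst) (.comp .snd .fst))
    (.comp (.comp (.pair (.comp (.comp .fst .fst) (.comp .snd .fst))
      (.comp (.comp .fst .fst) (.comp (.comp .snd .snd) .fst))) splitP) .snd))
    (.comp (.comp (.comp .fst .fst) (.comp (.comp .snd .snd) .fst)) cntP)) .snd)
      (mapP nrmP))) finP

theorem val_fast2P (v : SV F s) (r m M h t' : ℕ) (Cc : List (List F)) :
    (fast2P : Pr s _ _).val v (((un r, (un m, (un M, un t'))), un h), Cc) =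
      fin h (Cc.map (nrm m (M - m) ((M : F))⁻¹)) := by
  simp only [fast2P, val_comp, val_pair, val_fst, val_snd, val_splitP, val_cntP, val_mapP,
    val_nrmP, val_finP, length_un, List.length_drop]

theorem cost_fast2P (v : SV F s) (k : SC F s) (r m M h t' : ℕ) (Cc : List (List F))
    (hm : m ≤ M) (hh : h ≤ M) (hM : 1 ≤ M) (hC : Cc.length = M) (hCr : Sh M Cc) :
    (fast2P : Pr s _ _).cost v k (((un r, (un m, (un M, un t'))), un h), Cc) ≤
      600 * (M * M) + 200 := by
  have h1 := cost_splitP (s := s) (F := F) (b := .unit) (a := .unit) v k (un m, un M)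
  have h2 := cost_cntP (s := s) (F := F) v k (un M)
  have h3 := cost_mapP_le (s := s) (F := F) (c := .prod (.prod Un Un) .fld) (a := Po) (b := Po)
    nrmP v k (((un m, List.drop m (un M)), ((M : F))⁻¹), Cc) (118 * M + 80) (fun y hy => by
      have e := cost_nrmP (s := s) (F := F) v k (((un m, List.drop m (un M)), ((M : F))⁻¹), y)
      have e2 := hCr y hy
      simp only [length_un, List.length_drop, e2] at e
      refine e.trans ?_
      omega)
  have h4 := cost_finP (s := s) (F := F) v k (un h) (Cc.map (nrm m (M - m) ((M : F))⁻¹)) M (by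
    intro n hn
    rw [List.mem_map] at hn
    obtain ⟨c, hc, rfl⟩ := hn
    exact (length_nrm_le _ _ _ _).trans (hCr c hc).le)
  simp only [length_un, List.length_map, hC] at h1 h2 h3 h4
  have hv : (mapP nrmP : Pr s _ _).val v (((un m, List.drop m (un M)), ((M : F))⁻¹), Cc) =
      Cc.map (nrm m (M - m) ((M : F))⁻¹) := by
    simp only [val_mapP, val_nrmP, length_un, List.length_drop]
  simp only [fast2P, cost_comp, cost_pair, cost_fst, cost_snd, val_comp, val_pair, val_fst,
    val_snd, val_splitP, val_cntP, length_un]
  rw [hv]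
  have e1 : (118 * M + 80 + 13) * M = 118 * (M * M) + 93 * M := by ring
  have e2 : (20 * h + 41 * M + 100) * M ≤ (61 * M + 100) * M := Nat.mul_le_mul_right _ (by omega)
  have e3 : (61 * M + 100) * M = 61 * (M * M) + 100 * M := by ring
  have e5 : M ≤ M * M := Nat.le_mul_of_pos_left _ hM
  omega

/-- the inner recursion as a program -/
def recI : Pr ((So, Po) :: s) (.prod Un Si) Ma := .recD innB innQ

/-- fast multiplication, one level -/
def fastP : Pr ((So, Po) :: s) So Po :=
  lt ctxP (.comp (.pair .snd (.comp fast1P recI)) fast2P)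

/-- base of the outer recursion -/
def outQ : Pr s So Po :=
  .comp (.pair (.comp (.comp .snd .snd) appP) (.pair .zero (.comp (.comp .snd .snd) schP))) fitP

/-- one step of the outer recursion -/
def outB : Pr ((So, Po) :: s) So Po :=
  .comp (.pair (.comp (.comp .snd .snd) appP) (.pair .zero
    (onL (.comp .snd .fst) (.comp (.comp .snd .snd) schP) (.comp .fst fastP)))) fitP

theorem pol_fit (n : ℕ) (l : List F) (p : F[X]) (hl : pol l = p) (hp : dl n p) :
    pol (fit n 0 l) = p := by
  subst hl
  ext i
  have h1 : ∀ (n : ℕ) (l : List F) (i : ℕ), (pol (fit n 0 l)).coeff i =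
      if i < n then (pol l).coeff i else 0 := by
    intro n
    induction n with
    | zero => intro l i; simp [fit, pol]
    | succ n ih =>
      intro l i
      cases l with
      | nil =>
        cases i with
        | zero => simp [fit, pol]
        | succ i => simp [fit, pol, coeff_X_mul, ih]
      | cons a l =>
        cases i with
        | zero => simp [fit, pol]
        | succ i => simp [fit, pol, coeff_X_mul, ih, coeff_C_succ]
  rw [h1]
  split_ifs with h
  · rfl
  · exact (hp i (by omega)).symm

theorem dl_mul_pol (a b : List F) : dl (a.length + b.length) (pol a * pol b) :=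
  dl_mul (dl_pol a) (dl_pol b)

/-- base case -/
theorem outQ_ok (v : SV F s) (k : SC F s) (r : ℕ) (t : List Unit) (a b : List F) (hr : r ≤ 3)
    (ha : a.length ≤ r ^ 4) (hb : b.length ≤ r ^ 4) :
    let x : Ty.D F So := (un r, (t, (a, b)))
    pol ((outQ : Pr s So Po).val v x : List F) = pol a * pol b ∧
    List.length ((outQ : Pr s So Po).val v x : List F) = a.length + b.length ∧
    (outQ : Pr s So Po).cost v k x ≤ 500000 := by
  intro x
  have h1 := val_appP (s := s) (F := F) (a := .fld) v (a, b)
  have h2 := val_schP (s := s) (F := F) v (a, b)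
  have hv : (outQ : Pr s So Po).val v x = fit (a.length + b.length) (0 : F) (sch a b) := by
    simp only [x, outQ, val_comp, val_pair, val_snd, val_zero, val_fitP, h1, h2]
    rw [List.length_append]
  have hr4 : r ^ 4 ≤ 81 := by
    calc r ^ 4 ≤ 3 ^ 4 := Nat.pow_le_pow_left hr 4
      _ = 81 := by norm_num
  refine ⟨?_, ?_, ?_⟩
  · rw [hv]
    exact pol_fit _ _ _ (pol_sch a b) (dl_mul_pol a b)
  · rw [hv, length_fit]
  · have c1 := cost_appP (s := s) (F := F) (a := .fld) v k (a, b)
    have c2 := cost_schP (s := s) (F := F) v k a b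
    have c3 := cost_fitP (s := s) (F := F) (b := .fld) (a := .fld) v k
      ((appP : Pr s (.prod Po Po) Po).val v (a, b), ((0 : F), (schP : Pr s (.prod Po Po) Po).val v (a, b)))
    simp only [val_appP, List.length_append] at c1 c3
    simp only [x, outQ, cost_comp, cost_pair, cost_snd, cost_zero, val_comp, val_pair, val_snd,
      val_zero, val_appP]
    have e1 : (55 * b.length + 100) * a.length ≤ (55 * 81 + 100) * 81 :=
      Nat.mul_le_mul (by omega) (by omega)
    omega

theorem outB_zero (S : Ty.D F So → List F) (K : Ty.D F So → ℕ) (v : SV F s) (k : SC F s)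
    (r : List Unit) (a b : List F) :
    (outB : Pr ((So, Po) :: s) So Po).val (S, v) (r, (un 0, (a, b))) =
      (outQ : Pr ((So, Po) :: s) So Po).val (S, v) (r, (un 0, (a, b))) ∧
    (outB : Pr ((So, Po) :: s) So Po).cost (S, v) (K, k) (r, (un 0, (a, b))) =
      (outQ : Pr ((So, Po) :: s) So Po).cost (S, v) (K, k) (r, (un 0, (a, b))) + 5 := by
  have : un 0 = [] := rfl
  rw [this]
  simp only [outB, outQ, val_comp, val_pair, val_onL, val_snd, val_fst, lcase_nil, cost_comp,
    cost_pair, cost_onL, cost_snd, cost_fst, true_and]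
  omega

theorem val_outB_succ (S : Ty.D F So → List F) (v : SV F s) (r : List Unit) (t : ℕ) (ht : 0 < t)
    (a b : List F) :
    (outB : Pr ((So, Po) :: s) So Po).val (S, v) (r, (un t, (a, b))) =
      fit (a.length + b.length) (0 : F)
        ((fastP : Pr ((So, Po) :: s) So Po).val (S, v) (r, (un t, (a, b)))) := by
  obtain ⟨t, rfl⟩ : ∃ t', t = t' + 1 := ⟨t - 1, by omega⟩
  have : un (t + 1) = () :: un t := rfl
  simp only [outB, val_comp, val_pair, val_onL, val_snd, val_fst, val_zero, val_fitP, val_appP]
  rw [this, lcase_cons, List.length_append]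

theorem cost_outB_succ (S : Ty.D F So → List F) (K : Ty.D F So → ℕ) (v : SV F s) (k : SC F s)
    (r : List Unit) (t : ℕ) (ht : 0 < t) (a b : List F) :
    (outB : Pr ((So, Po) :: s) So Po).cost (S, v) (K, k) (r, (un t, (a, b))) ≤
      (fastP : Pr ((So, Po) :: s) So Po).cost (S, v) (K, k) (r, (un t, (a, b))) +
        40 * (a.length + b.length) + 50 := by
  obtain ⟨t, rfl⟩ : ∃ t', t = t' + 1 := ⟨t - 1, by omega⟩
  have : un (t + 1) = () :: un t := rfl
  have c1 := cost_appP (s := (So, Po) :: s) (F := F) (a := .fld) (S, v) (K, k) (a, b)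
  have c3 := fun l => cost_fitP (s := (So, Po) :: s) (F := F) (b := .fld) (a := .fld) (S, v) (K, k)
      ((appP : Pr ((So, Po) :: s) (.prod Po Po) Po).val (S, v) (a, b), ((0 : F), l))
  have c4 := c3 ((fastP : Pr ((So, Po) :: s) So Po).val (S, v) (r, (un (t + 1), (a, b))))
  simp only [val_appP, List.length_append] at c1 c4
  simp only [outB, cost_comp, cost_pair, cost_onL, cost_snd, cost_fst, cost_zero, val_comp,
    val_pair, val_onL, val_snd, val_fst, val_zero, val_appP]
  rw [this] at c4 ⊢
  simp only [lcase_cons]
  omega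

theorem Sh_fit (M n : ℕ) (z : List F) (L : List (List F)) (hz : z.length = M) (hL : Sh M L) :
    Sh M (fit n z L) := by
  induction n generalizing L with
  | zero => intro x hx; simp [fit] at hx
  | succ n ih =>
    cases L with
    | nil =>
      intro x hx
      simp only [fit, List.mem_cons] at hx
      rcases hx with rfl | hx
      · exact hz
      · exact ih [] hL x hx
    | cons c L =>
      intro x hx
      simp only [fit, List.mem_cons] at hx
      rcases hx with rfl | hx
      · exact hL _ (by simp)
      · exact ih L (fun y hy => hL y (by simp [hy])) x hx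

theorem Sh_cut (h m M : ℕ) (a : List F) : Sh M (cut h m M a) := by
  refine Sh_fit M M _ _ (by simp) ?_
  intro x hx
  rw [List.mem_map] at hx
  obtain ⟨y, _, rfl⟩ := hx
  rw [length_fit]

theorem pol_neg (l : List F) : pol (l.map (fun y => -y)) = -pol l := by
  rw [← evg_pol, ← evg_pol, evg_map_mul _ _ C _ (-1) _ (fun a _ => by rw [C_neg]; ring)]
  ring

theorem pol_nrm (m f : ℕ) (z : F) (c : List F) :
    pol (nrm m f z c) = C z * (pol (c.take m) - pol (c.drop f)) := by
  rw [nrm, pol_map_mul, nrm1, pol_zp, pol_neg]
  ring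

/-- one level of the outer recursion -/
theorem fast_ok (S : Ty.D F So → List F) (K : Ty.D F So → ℕ) (v : SV F s) (k : SC F s)
    (r t T : ℕ) (hr : r = 2 ∨ r = 3) (hrF : (r : F) ≠ 0) (ht : 0 < t) (a b : List F)
    (ha : a.length ≤ r ^ (t + 4)) (hb : b.length ≤ r ^ (t + 4))
    (hS : ∀ a b : List F, a.length ≤ r ^ (t / 2 + 4) → b.length ≤ r ^ (t / 2 + 4) →
      pol (S (un r, (un (t / 2), (a, b)))) = pol a * pol b ∧
      (S (un r, (un (t / 2), (a, b)))).length = a.length + b.length ∧
      K (un r, (un (t / 2), (a, b))) ≤ T) :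
    pol ((fastP : Pr ((So, Po) :: s) So Po).val (S, v) (un r, (un t, (a, b))) : List F) =
      pol a * pol b ∧
    (fastP : Pr ((So, Po) :: s) So Po).cost (S, v) (K, k) (un r, (un t, (a, b))) ≤
      r ^ (t / 2 + 4) * T + 30000 * (r ^ (t / 2 + 4) * r ^ (t / 2 + 4)) * (t / 2 + 5) := by
  have hr0 : 0 < r := by omega
  have ht2 : t ≤ 2 * (t / 2) + 1 := by omega
  generalize ht' : t / 2 = t' at hS ht2 ⊢
  set h := r ^ (t' + 2) with hh
  set m := r * h with hm
  set M := r * m with hM
  have hm' : m = r ^ (t' + 3) := by rw [hm, hh, ← pow_succ']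
  have hM' : M = r ^ (t' + 4) := by rw [hM, hm', ← pow_succ']
  have hh0 : 0 < h := Nat.pow_pos hr0
  have hhm : h ≤ m := Nat.le_mul_of_pos_left _ hr0
  have hmM : m ≤ M := Nat.le_mul_of_pos_left _ hr0
  have hM1 : 1 ≤ M := by omega
  have hmh : r ^ (t + 4) ≤ m * h := by
    rw [hm', hh, ← pow_add]
    exact Nat.pow_le_pow_right hr0 (by omega)
  have hlA : ∀ a : List F, (cut h m M a).length = r ^ (t' + 4) := by
    intro a
    rw [cut, length_fit, hM']
  obtain ⟨g1, g2, g3, g4⟩ := goV_inn (s := s) S K v k r (t' + 3) m M T (un t') hr hm' hM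
    (fun a b ha hb => by
      obtain ⟨p1, p2, p3⟩ := hS a b (by rw [ha, hM']) (by rw [hb, hM'])
      exact ⟨p1, by rw [p2, ha, hb]; ring, p3⟩)
    (t' + 4) 0 le_rfl (cut h m M a) (cut h m M b) (hlA a) (hlA b) (Sh_cut h m M a)
    (Sh_cut h m M b) (by rw [mul_zero]; exact hM1)
  rw [mul_zero] at g1 g2 g3 g4
  set Cc : List (List F) := goV (F := F) (s := (So, Po) :: s) innB innQ (S, v) (t' + 4)
    ((un r, (un m, (un M, un t'))), (un 0, (cut h m M a, cut h m M b))) with hCc
  have hctx := val_ctxP (s := (So, Po) :: s) (F := F) (S, v) r t (a, b)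
  rw [ht', ← hh, ← hm, ← hM] at hctx
  have hrec : (recI : Pr ((So, Po) :: s) (.prod Un Si) Ma).val (S, v)
      (un (t' + 4), ((un r, (un m, (un M, un t'))), (un 0, (cut h m M a, cut h m M b)))) = Cc := by
    simp only [recI, val_recD, length_un]
    rfl
  have hval : (fastP : Pr ((So, Po) :: s) So Po).val (S, v) (un r, (un t, (a, b))) =
      fin h (Cc.map (nrm m (M - m) ((M : F))⁻¹)) := by
    simp only [fastP, val_lt, val_comp, val_pair, val_snd]
    rw [hctx, val_fast1P, hrec, val_fast2P]
  constructor
  · rw [hval, pol_fin]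
    refine fm_final r h m M hr hh0 hm hM ?_ a b (ha.trans hmh) (hb.trans hmh) Cc
      (by rw [g2, hM']) g1 ?_ _ (fun c => pol_nrm _ _ _ _)
    · rw [hM', Nat.cast_pow]
      exact pow_ne_zero _ hrF
    · intro R _ _ x y hx
      have := g3 R x y hx
      rw [pow_zero, ← hM'] at this
      exact this
  · have c1 := cost_ctxP (s := (So, Po) :: s) (F := F) (S, v) (K, k) r t (a, b) hr0
    rw [ht', ← hh, ← hm] at c1
    have c2 := cost_fast1P (s := (So, Po) :: s) (F := F) (S, v) (K, k) r m M h t' (un r) (un t)
      a b hmM (hhm.trans hmM) hM1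
    have c3 := cost_fast2P (s := (So, Po) :: s) (F := F) (S, v) (K, k) r m M h t' Cc hmM
      (hhm.trans hmM) hM1 (by rw [g2, hM']) g1
    have c4 : (recI : Pr ((So, Po) :: s) (.prod Un Si) Ma).cost (S, v) (K, k)
      (un (t' + 4), ((un r, (un m, (un M, un t'))), (un 0, (cut h m M a, cut h m M b)))) ≤
        M * (T + 20000 * M + 20000 * M * (t' + 4)) + 1 := by
      simp only [recI, cost_recD, length_un]
      rw [← hM'] at g4
      exact Nat.add_le_add_right g4 1
    simp only [fastP, cost_lt, cost_comp, cost_pair, cost_snd, val_comp, val_pair, val_snd]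
    rw [hctx, val_fast1P, hrec, ← hM']
    have q1 : M ≤ M * M := Nat.le_mul_of_pos_left _ hM1
    have q2 : M * M ≤ M * M * (t' + 5) := Nat.le_mul_of_pos_right _ (by omega)
    have q3 : M * (t' + 2) ≤ M * M * (t' + 5) := Nat.mul_le_mul q1 (by omega)
    have q4 : t' + 1 ≤ M * M * (t' + 5) := by
      calc t' + 1 ≤ 1 * (t' + 5) := by omega
        _ ≤ M * M * (t' + 5) := Nat.mul_le_mul_right _ (by omega)
    have q5 : M * (T + 20000 * M + 20000 * M * (t' + 4)) = M * T + 20000 * (M * M * (t' + 5)) := by
      ring
    have q6 : ((20 * h + 90) * r + 60) * (t' + 2) ≤ ((20 * M + 90) * 3 + 60) * (t' + 2) := by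
      apply Nat.mul_le_mul_right
      have : (20 * h + 90) * r ≤ (20 * M + 90) * 3 := Nat.mul_le_mul (by omega) (by omega)
      omega
    have q7 : ((20 * M + 90) * 3 + 60) * (t' + 2) = 60 * (M * (t' + 2)) + 330 * (t' + 2) := by ring
    have q8 : (20 * h + 90) * r ≤ (20 * M + 90) * 3 := Nat.mul_le_mul (by omega) (by omega)
    have q9 : (20 * m + 90) * r ≤ (20 * M + 90) * 3 := Nat.mul_le_mul (by omega) (by omega)
    have q10 : 30000 * (M * M) * (t' + 5) = 30000 * (M * M * (t' + 5)) := by ring
    rw [q10]
    rw [q5] at c4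
    omega

/-- the cost function of the outer recursion -/
def Tc (r t : ℕ) : ℕ := 1000000000 * 256 ^ Nat.size t * r ^ t

theorem size_half (t : ℕ) (ht : 0 < t) : Nat.size t = Nat.size (t / 2) + 1 := by
  have h1 : t = Nat.bit (t.bodd) (t / 2) := by
    rw [← Nat.div2_val]
    exact (Nat.bit_bodd_div2 t).symm
  conv_lhs => rw [h1]
  exact Nat.size_bit (by rw [← h1]; omega)

theorem Tc_step (r t : ℕ) (hr : r = 2 ∨ r = 3) (ht : 0 < t) :
    r ^ (t / 2 + 4) * Tc r (t / 2) + 30000 * (r ^ (t / 2 + 4) * r ^ (t / 2 + 4)) * (t / 2 + 5) +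
      80 * r ^ (t + 4) + 100 ≤ Tc r t := by
  have hr0 : 0 < r := by omega
  have hs := size_half t ht
  have hlt : t / 2 < 2 ^ Nat.size (t / 2) := Nat.lt_size_self _
  have ht2 : 2 * (t / 2) ≤ t := by omega
  generalize ht' : t / 2 = t' at hs hlt ht2 ⊢
  have hr4 : r ^ 4 ≤ 81 := by
    calc r ^ 4 ≤ 3 ^ 4 := Nat.pow_le_pow_left (by omega) 4
      _ = 81 := by norm_num
  have hrt : r ^ t' * r ^ t' ≤ r ^ t := by
    rw [← pow_add]
    exact Nat.pow_le_pow_right hr0 (by omega)
  have hM : r ^ (t' + 4) ≤ 81 * r ^ t' := by
    rw [pow_add, mul_comm]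
    exact Nat.mul_le_mul_right _ hr4
  have hMM : r ^ (t' + 4) * r ^ (t' + 4) ≤ 6561 * r ^ t := by
    calc r ^ (t' + 4) * r ^ (t' + 4) ≤ (81 * r ^ t') * (81 * r ^ t') := Nat.mul_le_mul hM hM
      _ = 6561 * (r ^ t' * r ^ t') := by ring
      _ ≤ 6561 * r ^ t := Nat.mul_le_mul_left _ hrt
  have hP : 2 ^ Nat.size t' ≤ 256 ^ Nat.size t' := Nat.pow_le_pow_left (by norm_num) _
  have hP1 : 1 ≤ 2 ^ Nat.size t' := Nat.one_le_two_pow
  have h5 : t' + 5 ≤ 5 * 256 ^ Nat.size t' := by omega
  have e1 : r ^ (t' + 4) * Tc r t' ≤ 81 * (1000000000 * 256 ^ Nat.size t') * r ^ t := by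
    unfold Tc
    calc r ^ (t' + 4) * (1000000000 * 256 ^ Nat.size t' * r ^ t') ≤
        (81 * r ^ t') * (1000000000 * 256 ^ Nat.size t' * r ^ t') := Nat.mul_le_mul_right _ hM
      _ = 81 * (1000000000 * 256 ^ Nat.size t') * (r ^ t' * r ^ t') := by ring
      _ ≤ _ := Nat.mul_le_mul_left _ hrt
  have e2 : 30000 * (r ^ (t' + 4) * r ^ (t' + 4)) * (t' + 5) ≤
      30000 * (6561 * r ^ t) * (5 * 256 ^ Nat.size t') :=
    Nat.mul_le_mul (Nat.mul_le_mul_left _ hMM) h5
  have e3 : r ^ (t + 4) ≤ 81 * r ^ t := by
    rw [pow_add, mul_comm]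
    exact Nat.mul_le_mul_right _ hr4
  have e4 : Tc r t = 256000000000 * (256 ^ Nat.size t' * r ^ t) := by
    rw [Tc, hs, pow_succ]; ring
  have e5 : 1 ≤ r ^ t := Nat.pow_pos hr0
  have e6 : r ^ t ≤ 256 ^ Nat.size t' * r ^ t := Nat.le_mul_of_pos_left _ (by omega)
  have e7 : 81 * (1000000000 * 256 ^ Nat.size t') * r ^ t =
    81000000000 * (256 ^ Nat.size t' * r ^ t) := by ring
  have e8 : 30000 * (6561 * r ^ t) * (5 * 256 ^ Nat.size t') =
    984150000 * (256 ^ Nat.size t' * r ^ t) := by ring
  rw [e4]
  rw [e7] at e1
  rw [e8] at e2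
  omega

/-- the outer recursion -/
theorem goV_out (v : SV F s) (k : SC F s) (r : ℕ) (hr : r = 2 ∨ r = 3) (hrF : (r : F) ≠ 0)
    (n : ℕ) : ∀ (t : ℕ), t ≤ n → ∀ a b : List F, a.length ≤ r ^ (t + 4) →
      b.length ≤ r ^ (t + 4) →
      pol (goV (F := F) (s := s) outB outQ v n (un r, (un t, (a, b))) : List F) = pol a * pol b ∧
      List.length (goV (F := F) (s := s) outB outQ v n (un r, (un t, (a, b))) : List F) =
        a.length + b.length ∧
      goC (F := F) (s := s) outB outQ v k n (un r, (un t, (a, b))) ≤ Tc r t := by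
  have hr0 : 0 < r := by omega
  induction n with
  | zero =>
    intro t ht a b ha hb
    obtain rfl : t = 0 := by omega
    obtain ⟨h1, h2, h3⟩ := outQ_ok (s := s) v k r (un 0) a b (by omega) ha hb
    refine ⟨h1, h2, h3.trans ?_⟩
    simp [Tc]
  | succ n ih =>
    intro t ht a b ha hb
    rcases Nat.eq_zero_or_pos t with rfl | ht0
    · obtain ⟨h1, h2, h3⟩ := outQ_ok (s := (So, Po) :: s) (F := F) (goV outB outQ v n, v)
        (goC outB outQ v k n, k) r (un 0) a b (by omega) ha hb
      obtain ⟨h4, h5⟩ := outB_zero (s := s) (F := F) (goV outB outQ v n) (goC outB outQ v k n) v k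
        (un r) a b
      rw [goV, goC, h4, h5]
      refine ⟨h1, h2, ?_⟩
      refine (Nat.add_le_add_right h3 5).trans ?_
      simp [Tc]
    · have hS := fun (a b : List F) (ha : a.length ≤ r ^ (t / 2 + 4))
        (hb : b.length ≤ r ^ (t / 2 + 4)) => ih (t / 2) (by omega) a b ha hb
      obtain ⟨h1, h2⟩ := fast_ok (s := s) (F := F) (goV outB outQ v n) (goC outB outQ v k n) v k
        r t (Tc r (t / 2)) hr hrF ht0 a b ha hb hS
      have h3 := val_outB_succ (s := s) (F := F) (goV outB outQ v n) v (un r) t ht0 a b
      have h4 := cost_outB_succ (s := s) (F := F) (goV outB outQ v n) (goC outB outQ v k n) v k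
        (un r) t ht0 a b
      rw [goV, goC, h3]
      refine ⟨pol_fit _ _ _ h1 (dl_mul_pol a b), length_fit _ _ _, h4.trans ?_⟩
      have h5 := Tc_step r t hr ht0
      omega

/-- conversion of a list to a unary number -/
def lenP : Pr s (.list a) Un := .comp (.pair .star .id) (mapP (c := .unit) .star)

theorem val_lenP (v : SV F s) (x : Ty.D F (.list a)) :
    (lenP : Pr s (.list a) Un).val v x = un (List.length x) := by
  simp only [lenP, val_comp, val_pair, val_star, val_id, val_mapP]
  apply un_inj_len
  exact List.length_map _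

theorem cost_lenP (v : SV F s) (k : SC F s) (x : Ty.D F (.list a)) :
    (lenP : Pr s (.list a) Un).cost v k x ≤ 14 * List.length x + 10 := by
  have h1 := cost_mapP_le (s := s) (F := F) (c := .unit) (a := a) (b := .unit) .star v k ((), x) 1
    (fun _ _ => by simp)
  simp only at h1
  simp only [lenP, cost_comp, cost_pair, cost_star, cost_id, val_pair, val_star, val_id]
  omega

/-- the program -/
def topP : Pr [] (.prod Un (.prod Po Po)) Po :=
  lt (.comp (.pair .fst (.comp (.comp .snd appP) lenP)) lgrP)
    (.comp (.pair .snd (.pair (.comp .fst .fst) (.pair .snd (.comp .fst .snd)))) (.recD outB outQ))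

end progs

/-- TARGET -/
theorem specFM : SpecFM := by
  refine ⟨topP, 1000000000000, 8, ?_⟩
  intro F _ _ r a b hr hrF
  have hr0 : 1 < r := by omega
  set N := a.length + b.length with hN
  set t := Nat.clog r N with ht
  have h1 : N ≤ r ^ t := Nat.le_pow_clog hr0 N
  have h2 : r ^ t ≤ r ^ (t + 4) := Nat.pow_le_pow_right (by omega) (by omega)
  obtain ⟨g1, g2, g3⟩ := goV_out (s := []) (F := F) () () r hr hrF t t le_rfl a b (by omega)
    (by omega)
  have hl : (lgrP : Pr [] (.prod Un Un) Un).val (F := F) () (un r, un N) = un t := by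
    have := val_lgrP (F := F) (s := []) (b := .unit) () (un r) N (by rw [length_un]; exact hr0)
    rw [length_un] at this
    exact this
  have happ : (lenP : Pr [] Po Un).val (F := F) ()
      ((appP : Pr [] (.prod Po Po) Po).val (F := F) () (a, b)) = un N := by
    rw [val_lenP, val_appP, List.length_append]
  have hv : (topP.val () (un r, (a, b)) : List F) =
      goV (F := F) (s := []) outB outQ () t (un r, (un t, (a, b))) := by
    simp only [topP, val_lt, val_comp, val_pair, val_fst, val_snd]
    rw [happ, hl, val_recD]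
    simp only [length_un]
  refine ⟨by rw [hv]; exact g1, by rw [hv]; exact g2, ?_⟩
  have c1 := cost_appP (F := F) (s := []) (a := .fld) () () (a, b)
  have c2 := cost_lenP (F := F) (s := []) (a := .fld) () ()
    ((appP : Pr [] (.prod Po Po) Po).val (F := F) () (a, b))
  have c3 := cost_lgrP (F := F) (s := []) (b := .unit) () () (un r) N (by rw [length_un]; exact hr)
  have c4 : (Pr.recD outB outQ : Pr [] (.prod Un So) Po).cost (F := F) () ()
      (un t, (un r, (un t, (a, b)))) ≤ Tc r t + 1 := by
    rw [cost_recD]
    simp only [length_un]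
    exact Nat.add_le_add_right g3 1
  have hla : List.length ((appP : Pr [] (.prod Po Po) Po).val (F := F) () (a, b)) = N := by
    rw [val_appP, List.length_append]
  rw [hla] at c2
  simp only at c1
  have hT : Tc r t ≤ 900000000000 * ((N + 1) * lgc (N + 1) ^ 8) := by
    have e1 : r ^ t ≤ 3 * (N + 1) := by
      rcases Nat.lt_or_ge 1 N with h | h
      · have h3 : r ^ (t - 1) < N := by
          have := Nat.pow_pred_clog_lt_self hr0 h
          exact this
        have h4 : 0 < t := Nat.clog_pos hr0 h
        have h5 : r ^ t = r * r ^ (t - 1) := by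
          rw [← pow_succ']; congr 1; omega
        rw [h5]
        exact Nat.mul_le_mul (by omega) (by omega)
      · have h3 : t = 0 := Nat.clog_of_right_le_one h r
        rw [h3, pow_zero]
        omega
    have e2 : 2 ^ Nat.size t ≤ 2 * lgc (N + 1) := by
      have e3 : t ≤ Nat.clog 2 (N + 1) := by
        calc t ≤ Nat.clog 2 N := Nat.clog_anti_left (by norm_num) (by omega)
          _ ≤ Nat.clog 2 (N + 1) := Nat.clog_mono_right _ (by omega)
      have e4 : 2 ^ Nat.size t ≤ 2 * (t + 1) := by
        rcases Nat.eq_zero_or_pos t with h | h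
        · rw [h]; simp
        · have h6 : 0 < Nat.size t := Nat.size_pos.2 h
          have h7 : 2 ^ (Nat.size t - 1) ≤ t := Nat.lt_size.1 (by omega)
          have h8 : 2 ^ Nat.size t = 2 * 2 ^ (Nat.size t - 1) := by
            rw [← pow_succ']; congr 1; omega
          omega
      unfold lgc
      omega
    have e5 : 256 ^ Nat.size t ≤ 256 * lgc (N + 1) ^ 8 := by
      calc 256 ^ Nat.size t = (2 ^ Nat.size t) ^ 8 := by
            rw [← pow_mul, mul_comm, pow_mul]; norm_num
        _ ≤ (2 * lgc (N + 1)) ^ 8 := Nat.pow_le_pow_left e2 8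
        _ = 256 * lgc (N + 1) ^ 8 := by rw [mul_pow]; norm_num
    calc Tc r t = 1000000000 * 256 ^ Nat.size t * r ^ t := rfl
      _ ≤ 1000000000 * (256 * lgc (N + 1) ^ 8) * (3 * (N + 1)) :=
        Nat.mul_le_mul (Nat.mul_le_mul_left _ e5) e1
      _ = 768000000000 * ((N + 1) * lgc (N + 1) ^ 8) := by ring
      _ ≤ _ := Nat.mul_le_mul_right _ (by norm_num)
  have hlg : N + 1 ≤ (N + 1) * lgc (N + 1) ^ 8 := by
    refine Nat.le_mul_of_pos_right _ (Nat.pow_pos ?_)
    unfold lgc
    omega
  have hcost : topP.cost (F := F) () () (un r, (a, b)) ≤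
      Tc r t + 2000 * (N + 1) + 1000 := by
    simp only [topP, cost_lt, cost_comp, cost_pair, cost_fst, cost_snd, val_comp, val_pair,
      val_fst, val_snd]
    rw [happ, hl]
    omega
  refine hcost.trans ?_
  unfold ql
  omega


end Pool.Agent.H330AB.JFM
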