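import Pool.Agent.H330FB.StmtsR

set_option autoImplicit false

/-!
# Recombination over algebraically closed fields of positive characteristic

`S` is a polynomial in `k[t][x]` (outer variable `x`, inner variable `t`), monic in `x`, of total
degree `n = deg_x S`, with the `n` power series roots `φ i`, which have distinct constant terms.
-/

namespace Pool.Agent.H330AB

open Polynomial Pool.Agent.H330FB

section defs
variable {k : Type} [Field k]

/-- the value `G(φ, t)` of a bivariate polynomial at a power series -/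
noncomputable def ev (φ : PowerSeries k) (G : k[X][X]) : PowerSeries k :=
  G.eval₂ Polynomial.coeToPowerSeries.ringHom φ

/-- the power series roots of `S` -/
structure Rts {n : ℕ} (S : k[X][X]) (φ : Fin n → PowerSeries k) : Prop where
  monic : S.Monic
  deg : S.natDegree = n
  pos : 1 ≤ n
  td : TD S n
  prod : S.map Polynomial.coeToPowerSeries.ringHom = ∏ i, (X - C (φ i))
  inj : Function.Injective (fun i => PowerSeries.constantCoeff (φ i))

/-- the roots `φ i` and `φ j` belong to the same irreducible factor -/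
def Blk {n : ℕ} (S : k[X][X]) (φ : Fin n → PowerSeries k) (i j : Fin n) : Prop :=
  ∃ g : k[X][X], Irreducible g ∧ g ∣ S ∧ ev (φ i) g = 0 ∧ ev (φ j) g = 0

/-- constant on the blocks -/
def Cst {n : ℕ} (S : k[X][X]) (φ : Fin n → PowerSeries k) (l : Fin n → k) : Prop :=
  ∀ i j, Blk S φ i j → l i = l j

/-- the fibre `S(x, a)` -/
noncomputable def fb (S : k[X][X]) (a : k) : k[X] := S.map (evalRingHom a)

/-- the series of `1 / (t - a)` -/
noncomputable def ser (a : k) : PowerSeries k := PowerSeries.mk (fun m => -(a⁻¹) ^ (m + 1))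

/-- the value at `φ` of the polynomial with coefficients `g` -/
noncomputable def evg {n : ℕ} (φ : PowerSeries k) (g : Fin n → k) : PowerSeries k :=
  ∑ i, PowerSeries.C (g i) * φ ^ (i : ℕ)

/-- the value at `φ` of the test function with poles at the places `a j` -/
noncomputable def yv {n N : ℕ} (φ : PowerSeries k) (a : Fin N → k) (g : Fin N → Fin n → k) :
    PowerSeries k := ∑ j, evg φ (g j) * ser (a j)

/-- coefficients of `g ^ Q` modulo the fibre -/
noncomputable def gq (S : k[X][X]) {n : ℕ} (Q : ℕ) (a : k) (g : Fin n → k) : Fin n → k :=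
  fun i => ((gp g) ^ Q %ₘ fb S a).coeff i

/-- first equations -/
def E0 {n : ℕ} (s : ℕ) (φ : Fin n → PowerSeries k) (G : Fin n → Fin n → k) (l : Fin n → k) :
    Prop :=
  ∀ m, 2 * n - 1 ≤ m → m < s →
    PowerSeries.coeff m (∑ i, PowerSeries.C (l i) * ev (φ i) (bpol G)) = 0

/-- second equations -/
def E1 {n N : ℕ} (s : ℕ) (φ : Fin n → PowerSeries k) (a : Fin N → k) (g : Fin N → Fin n → k)
    (l : Fin n → k) (τ : Fin N → k) : Prop :=
  ∀ m, n - 1 ≤ m → m < s →
    PowerSeries.coeff m (∑ i, PowerSeries.C (l i) * yv (φ i) a g) =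
      PowerSeries.coeff m (∑ j, PowerSeries.C (τ j) * ser (a j))

/-- the system of equations for `(l, τ)` -/
def SysP {n N : ℕ} (s Q : ℕ) (S : k[X][X]) (φ : Fin n → PowerSeries k) (G : Fin n → Fin n → k)
    (a : Fin N → k) (g : Fin N → Fin n → k) (l : Fin n → k) (τ : Fin N → k) : Prop :=
  E0 s φ G l ∧ E0 s φ G (fun i => l i ^ Q) ∧ E1 s φ a g l τ ∧
    E1 s φ a (fun j => gq S Q (a j) (g j)) (fun i => l i ^ Q) (fun j => τ j ^ Q)

/-- good random choices -/
def GoodP {n N : ℕ} (s Q : ℕ) (S : k[X][X]) (φ : Fin n → PowerSeries k) (G : Fin n → Fin n → k)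
    (a : Fin N → k) (g : Fin N → Fin n → k) : Prop :=
  (∀ j, a j ≠ 0) ∧
  (∀ l τ, SysP s Q S φ G a g l τ → Cst S φ l) ∧
  (∀ l, Cst S φ l → ∃ τ, SysP s Q S φ G a g l τ) ∧
  (∀ τ, SysP s Q S φ G a g 0 τ → τ = 0)

/-- `G` gives the smallest space of solutions of the first equations -/
def MaxG {n : ℕ} (s : ℕ) (φ : Fin n → PowerSeries k) (G : Fin n → Fin n → k) : Prop :=
  ∀ G' : Fin n → Fin n → k, Module.finrank k (Submodule.span k {l | E0 s φ G l}) ≤
    Module.finrank k (Submodule.span k {l | E0 s φ G' l})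

/-- `U / (δ S')` takes the values `l i` at the roots, up to the precision `s` -/
def Rat {n : ℕ} (s : ℕ) (S : k[X][X]) (φ : Fin n → PowerSeries k) (l : Fin n → k) (δ : k[X])
    (U : k[X][X]) : Prop :=
  δ ≠ 0 ∧ δ.natDegree < n ∧ U.degree < n ∧ TD U (4 * n - 2) ∧
    ∀ i, (PowerSeries.X : PowerSeries k) ^ s ∣
      ev (φ i) U - PowerSeries.C (l i) * (δ : PowerSeries k) * ev (φ i) (derivative S)

/-- the condition at the place `a` -/
def Van {n : ℕ} (S : k[X][X]) (Q : ℕ) (a : k) (g : Fin n → k) (δ : k[X]) (U : k[X][X])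
    (δ' : k[X]) (U' : k[X][X]) : Prop :=
  ∀ ν : k[X], fb S a ∣ ν * derivative (fb S a) - U.map (evalRingHom a) →
    lam (fb S a) (gp g ^ Q * (C (δ.eval a ^ Q) * U'.map (evalRingHom a) -
      C (δ'.eval a) * ν ^ Q * derivative (fb S a))) = 0

/-- the polynomial whose divisibility by `S` characterizes constant vectors -/
noncomputable def Psi (S : k[X][X]) (Q : ℕ) (δ : k[X]) (U : k[X][X]) (δ' : k[X]) (U' : k[X][X]) :
    k[X][X] :=
  U ^ Q * C δ' * derivative S - U' * C (δ ^ Q) * derivative S ^ Q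

/-- admissible places -/
def AdmP {N : ℕ} (S : k[X][X]) (a : Fin N → k) : Prop :=
  (∀ j, a j ≠ 0) ∧ Function.Injective a ∧ ∀ j, IsCoprime (fb S (a j)) (derivative (fb S (a j)))

end defs

/-! ### linear algebra -/

/-- tangent lemma -/
def StmtTan : Prop := ∀ (k : Type) [Field k] [Infinite k] (V W Z : Type) [AddCommGroup V]
  [Module k V] [AddCommGroup W] [Module k W] [FiniteDimensional k W] [AddCommGroup Z] [Module k Z]
  (β : V →ₗ[k] W →ₗ[k] Z) (v0 : V),
  (∀ v, Module.finrank k (LinearMap.ker (β v0)) ≤ Module.finrank k (LinearMap.ker (β v))) →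
  ∀ w0, β v0 w0 = 0 → ∀ v, β v w0 ∈ LinearMap.range (β v0)

/-- a random member of a linear family of maps has the smallest kernel -/
def StmtMaxGen : Prop := ∀ (k : Type) [Field k] (ι : Type) [Fintype ι] (m m' : ℕ)
  (β : (ι → k) →ₗ[k] (Fin m → k) →ₗ[k] (Fin m' → k)) (T : Finset k),
  Nat.card {v : ι → T // ¬ ∀ v' : ι → k,
      Module.finrank k (LinearMap.ker (β (fun i => (v i : k)))) ≤
        Module.finrank k (LinearMap.ker (β v'))} * T.card ≤ m * T.card ^ Fintype.card ι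

/-- a sequence of random subspaces -/
def StmtComb : Prop := ∀ (k : Type) [Field k] (V : Type) [AddCommGroup V] [Module k V]
  [FiniteDimensional k V] (Ω : Type) [Fintype Ω] (H : Ω → Submodule k V) (V0 : Submodule k V)
  (N B : ℕ), Module.finrank k V ≤ N →
  (∀ x, x ∉ V0 → Nat.card {w : Ω // x ∈ H w} ≤ B) →
  Nat.card {w : Fin N → Ω // ¬ (⨅ j, H (w j)) ≤ V0} * Fintype.card Ω ≤
    N * B * Fintype.card Ω ^ N

/-! ### the first equations -/

/-- most `G` are maximal -/
def StmtMaxCount : Prop := ∀ (k : Type) [Field k] (n s : ℕ) (φ : Fin n → PowerSeries k)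
  (T : Finset k),
  Nat.card {G : Fin n → Fin n → T // ¬ MaxG s φ (fun i j => (G i j : k))} * T.card ≤
    n * T.card ^ (n * n)

/-- solutions of the first equations are rational -/
def StmtRat : Prop := ∀ (k : Type) [Field k] [IsAlgClosed k] (n s : ℕ) (S : k[X][X])
  (φ : Fin n → PowerSeries k) (G : Fin n → Fin n → k), Rts S φ → 12 * n + 20 ≤ s →
  MaxG s φ G → ∀ l, E0 s φ G l → ∃ δ U, Rat s S φ l δ U

/-- a common denominator -/
def StmtUc : Prop := ∀ (k : Type) [Field k] (n s : ℕ) (S : k[X][X])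
  (φ : Fin n → PowerSeries k) (M : Submodule k (Fin n → k)), Rts S φ → 12 * n + 20 ≤ s →
  (∀ l ∈ M, ∃ δ U, Rat s S φ l δ U) →
  ∃ (δc : k[X]) (Uc : M →ₗ[k] k[X][X]), δc ≠ 0 ∧ δc.natDegree ≤ n * n ∧
    (∀ l : M, (Uc l).degree < n ∧
      (∀ δ U, Rat s S φ l δ U → C δ * Uc l = C δc * U) ∧
      (∀ a : k, a ≠ 0 → δc.eval a ≠ 0 → ∃ δ U, Rat s S φ l δ U ∧ δ.eval a ≠ 0))

/-! ### places -/

/-- the condition at a place of the system -/
def StmtLoc : Prop := ∀ (k : Type) [Field k] (p : ℕ) [Fact p.Prime] [CharP k p] (e n s : ℕ)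
  (S : k[X][X]) (φ : Fin n → PowerSeries k) (a : Fin n → k) (g : Fin n → Fin n → k)
  (l τ : Fin n → k) (δ δ' : k[X]) (U U' : k[X][X]), Rts S φ → 12 * n + 20 ≤ s → AdmP S a →
  E1 s φ a g l τ →
  E1 s φ a (fun j => gq S (p ^ e) (a j) (g j)) (fun i => l i ^ (p ^ e)) (fun j => τ j ^ (p ^ e)) →
  Rat s S φ l δ U → Rat s S φ (fun i => l i ^ (p ^ e)) δ' U' →
  ∀ j, Van S (p ^ e) (a j) (g j) δ U δ' U'

/-- the criterion for constant vectors -/
def StmtConst : Prop := ∀ (k : Type) [Field k] (p : ℕ) [Fact p.Prime] [CharP k p] (e n s : ℕ)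
  (S : k[X][X]) (φ : Fin n → PowerSeries k) (l : Fin n → k) (δ δ' : k[X]) (U U' : k[X][X]),
  Rts S φ → 12 * n + 20 ≤ s → n ≤ p ^ e → Rat s S φ l δ U →
  Rat s S φ (fun i => l i ^ (p ^ e)) δ' U' → S ∣ Psi S (p ^ e) δ U δ' U' → Cst S φ l

/-- few coincidences at a place -/
def StmtVanCount : Prop := ∀ (k : Type) [Field k] [IsAlgClosed k] (p : ℕ) [Fact p.Prime]
  [CharP k p] (e n : ℕ) (S : k[X][X]) (δ δ' : k[X]) (U U' : k[X][X]) (T : Finset k),
  S.Monic → S.natDegree = n → 1 ≤ n → TD S n → δ.natDegree < n → δ'.natDegree < n →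
  TD U (4 * n - 2) → TD U' (4 * n - 2) → ¬ S ∣ Psi S (p ^ e) δ U δ' U' →
  Nat.card {x : T × (Fin n → T) // IsCoprime (fb S x.1) (derivative (fb S x.1)) ∧
      Van S (p ^ e) x.1 (fun i => (x.2 i : k)) δ U δ' U'} * T.card ≤
    (4 * n * p ^ e + 4 * n + 1) * T.card ^ (n + 1)

/-- places with bad fibres -/
def StmtBadFib : Prop := ∀ (k : Type) [Field k] (n : ℕ) (S : k[X][X])
  (φ : Fin n → PowerSeries k), Rts S φ →
  ∃ D : k[X], D ≠ 0 ∧ D.natDegree ≤ 2 * n ^ 2 + n ∧
    ∀ a : k, D.eval a ≠ 0 → IsCoprime (fb S a) (derivative (fb S a))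

/-- constant vectors solve the system; uniqueness -/
def StmtGoodP : Prop := ∀ (k : Type) [Field k] (p : ℕ) [Fact p.Prime] [CharP k p] (e n s : ℕ)
  (S : k[X][X]) (φ : Fin n → PowerSeries k) (G : Fin n → Fin n → k) (a : Fin n → k)
  (g : Fin n → Fin n → k), Rts S φ → 12 * n + 20 ≤ s → AdmP S a →
  (∀ l, Cst S φ l → ∃ τ, SysP s (p ^ e) S φ G a g l τ) ∧
  (∀ τ, SysP s (p ^ e) S φ G a g 0 τ → τ = 0)

/-- for good `G`, most places and test functions are good -/
def StmtSeq : Prop := ∀ (k : Type) [Field k] [IsAlgClosed k] (p : ℕ) [Fact p.Prime] [CharP k p]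
  (e n s : ℕ) (S : k[X][X]) (φ : Fin n → PowerSeries k) (T : Finset k) (G : Fin n → Fin n → k),
  Rts S φ → 12 * n + 20 ≤ s → n ≤ p ^ e → MaxG s φ G →
  Nat.card {x : (Fin n → T) × (Fin n → Fin n → T) //
      ¬ (AdmP S (fun j => (x.1 j : k)) ∧ ∀ l τ : Fin n → k,
        SysP s (p ^ e) S φ G (fun j => (x.1 j : k)) (fun j i => (x.2 j i : k)) l τ →
          Cst S φ l)} * T.card ≤ 39 * n ^ 2 * p ^ e * T.card ^ (n + n * n)

/-- the recombination theorem -/
def StmtRp : Prop := ∀ (k : Type) [Field k] [IsAlgClosed k] (p : ℕ) [Fact p.Prime] [CharP k p]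
  (e n s : ℕ) (S : k[X][X]) (φ : Fin n → PowerSeries k) (T : Finset k),
  Rts S φ → 12 * n + 20 ≤ s → n ≤ p ^ e →
  Nat.card {x : (Fin n → Fin n → T) × (Fin n → T) × (Fin n → Fin n → T) //
      ¬ GoodP s (p ^ e) S φ (fun i j => (x.1 i j : k)) (fun j => (x.2.1 j : k))
        (fun j i => (x.2.2 j i : k))} * T.card ≤
    40 * n ^ 2 * p ^ e * T.card ^ (n * n + n + n * n)

end Pool.Agent.H330AB
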