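import Pool.Agent.H330AB.SpecA1
import Pool.Agent.H330AB.StmtsA
import Pool.Agent.H330FB.Spec4

set_option autoImplicit false

/-!
# Exact statements on programs for the absolute irreducibility test
-/

namespace Pool.Agent.H330AB

open Polynomial Pool.Agent.H330FB

/-! ### Arithmetic over truncated power series, quasi-linear -/

/-- multiplication over truncated power series, input `(r, (s, (a, b)))` -/
def SpecMulRF : Prop := ∃ (p : Pr [] (.prod Un (.prod Un (.prod Ma Ma))) Ma) (C k : ℕ),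
  ∀ (F : Type) [Field F] [DecidableEq F] (r s : ℕ) (a b : List (List F)), (r = 2 ∨ r = 3) →
  (r : F) ≠ 0 → 1 ≤ s → Sh s a → Sh s b →
  let c : List (List F) := p.val () (un r, (un s, (a, b)))
  Sh s c ∧ c.length = a.length + b.length ∧
  (∀ (R : Type) [CommRing R] [Algebra F R] (τ : R), τ ^ s = 0 → rp τ c = rp τ a * rp τ b) ∧
  p.cost () () (un r, (un s, (a, b))) ≤ C * ql k (s * (a.length + b.length))

/-- division with remainder by a monic polynomial over truncated power series,
input `(r, (s, (P, G)))` -/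
def SpecDivRF : Prop := ∃ (p : Pr [] (.prod Un (.prod Un (.prod Ma Ma))) (.prod Ma Ma))
    (C k : ℕ),
  ∀ (F : Type) [Field F] [DecidableEq F] (r s : ℕ) (P G : List (List F)), (r = 2 ∨ r = 3) →
  (r : F) ≠ 0 → 1 ≤ s → Sh s P → Sh s G →
  let c : List (List F) × List (List F) := p.val () (un r, (un s, (P, G)))
  Sh s c.1 ∧ c.1.length = P.length - G.length ∧ Sh s c.2 ∧ c.2.length = G.length ∧
  (∀ (R : Type) [CommRing R] [Algebra F R] (τ : R), τ ^ s = 0 →
    rp τ P = rp τ c.1 * mrp τ G + rp τ c.2) ∧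
  p.cost () () (un r, (un s, (P, G))) ≤ C * ql k (s * (P.length + G.length))

/-! ### The algebra `(F[z]/h)[t]/t^s`

An element is a list of rows; row `j` holds the coefficients (powers of `t`) of `z ^ j`. -/

/-- value of a double list at `(τ, ζ)` -/
noncomputable def av {F R : Type} [Field F] [CommRing R] [Algebra F R] (τ ζ : R)
    (l : List (List F)) : R := (rp τ l).eval ζ

/-- multiplication, input `(r, (s, (h, (a, b))))` -/
def SpecMMA : Prop := ∃ (p : Pr [] (.prod Un (.prod Un (.prod Po (.prod Ma Ma)))) Ma) (C k : ℕ),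
  ∀ (F : Type) [Field F] [DecidableEq F] (r s : ℕ) (h : List F) (a b : List (List F)),
  (r = 2 ∨ r = 3) → (r : F) ≠ 0 → 1 ≤ s → 1 ≤ h.length → Sh s a → Sh s b →
  a.length = h.length → b.length = h.length →
  let c : List (List F) := p.val () (un r, (un s, (h, (a, b))))
  Sh s c ∧ c.length = h.length ∧
  (∀ (R : Type) [CommRing R] [Algebra F R] (τ ζ : R), τ ^ s = 0 → aeval ζ (mpol h) = 0 →
    av τ ζ c = av τ ζ a * av τ ζ b) ∧
  p.cost () () (un r, (un s, (h, (a, b)))) ≤ C * ql k (s * h.length)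

/-- value `G(φ)` (Horner's rule), input `(r, (s, (h, (φ, G))))`; row `i` of `G` holds the
coefficients (powers of `t`) of `x ^ i` -/
def SpecHorn : Prop := ∃ (p : Pr [] (.prod Un (.prod Un (.prod Po (.prod Ma Ma)))) Ma)
    (C k : ℕ),
  ∀ (F : Type) [Field F] [DecidableEq F] (r s : ℕ) (h : List F) (φ G : List (List F)),
  (r = 2 ∨ r = 3) → (r : F) ≠ 0 → 1 ≤ s → 1 ≤ h.length → Sh s φ → Sh s G →
  φ.length = h.length →
  let c : List (List F) := p.val () (un r, (un s, (h, (φ, G))))
  Sh s c ∧ c.length = h.length ∧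
  (∀ (R : Type) [CommRing R] [Algebra F R] (τ ζ : R), τ ^ s = 0 → aeval ζ (mpol h) = 0 →
    av τ ζ c = (rp τ G).eval (av τ ζ φ)) ∧
  p.cost () () (un r, (un s, (h, (φ, G)))) ≤ C * ((G.length + 1) * ql k (s * h.length))

/-- power series root of `S` (monic in `x`, lower coefficients `S`), where `h = S(x, 0)`;
input `(r, (s, S))` -/
def SpecNewt : Prop := ∃ (p : Pr [] (.prod Un (.prod Un Ma)) Ma) (C k : ℕ),
  ∀ (F : Type) [Field F] [DecidableEq F] (r s : ℕ) (S : List (List F)),
  (r = 2 ∨ r = 3) → (r : F) ≠ 0 → 1 ≤ s → 1 ≤ S.length → Sh s S →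
  let φ : List (List F) := p.val () (un r, (un s, S))
  Sh s φ ∧ φ.length = S.length ∧
  (IsCoprime (mpol (hd0 S)) (derivative (mpol (hd0 S))) →
    ∀ (R : Type) [CommRing R] [Algebra F R] (τ ζ : R), τ ^ s = 0 →
      aeval ζ (mpol (hd0 S)) = 0 →
      (mrp τ S).eval (av τ ζ φ) = 0 ∧ ∃ ρ : R, av τ ζ φ = ζ + τ * ρ) ∧
  p.cost () () (un r, (un s, S)) ≤ C * ((S.length + 1) * ql k (s * S.length) + ww (S.length + 1))

/-! ### Traces and powers, schoolbook methods -/

/-- traces from `F[z]/h` to `F`; input `(h, (E, (s, W)))`: entry `(j, κ)` of the result is the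
trace of the product of the element `E_j` and of the `κ`-th column of `W` -/
def SpecTr : Prop := ∃ (p : Pr [] (.prod Po (.prod Ma (.prod Un Ma))) Ma) (C : ℕ),
  ∀ (F : Type) [Field F] [DecidableEq F] (n s : ℕ) (h : List F) (E W : List (List F)),
  h.length = n → 1 ≤ n → Sh n E → W.length = n → Sh s W →
  let M : List (List F) := p.val () (h, (E, (un s, W)))
  M.length = E.length ∧ Sh s M ∧
  (∀ (k : Type) [Field k] [Algebra F k] (α : Fin n → k),
    (mpol h).map (algebraMap F k) = ∏ i, (X - Polynomial.C (α i)) → ∀ j < E.length, ∀ κ < s,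
    algebraMap F k ((M.getD j []).getD κ 0) =
      ∑ i, aeval (α i) (pol (E.getD j [])) * aeval (α i) (pol (W.map (fun r => r.getD κ 0)))) ∧
  p.cost () () (h, (E, (un s, W))) ≤ C * (n + s + E.length + 1) ^ 3

/-- `a ^ (q ^ e)` modulo a monic polynomial, `q` given by its bits;
input `((a, (bits q, e)), G)` -/
def SpecPN : Prop := ∃ (p : Pr [] (.prod (.prod Po (.prod Po Un)) Po) Po) (C : ℕ),
  ∀ (F : Type) [Field F] [DecidableEq F] (a G : List F) (q e : ℕ), a.length = G.length →
  1 ≤ G.length →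
  let r : List F := p.val () ((a, (bits F q, un e)), G)
  r.length = G.length ∧ mpol G ∣ pol a ^ (q ^ e) - pol r ∧
  p.cost () () ((a, (bits F q, un e)), G) ≤ C * ((e + 1) * lgc q * (G.length + 1) ^ 2)

/-- the powers `1, w, ..., w ^ (n - 1)` modulo a monic polynomial of degree `n`;
input `(w, G)` -/
def SpecPT : Prop := ∃ (p : Pr [] (.prod Po Po) Ma) (C : ℕ),
  ∀ (F : Type) [Field F] [DecidableEq F] (w G : List F) (n : ℕ), w.length = n →
  G.length = n → 1 ≤ n →
  let r : List (List F) := p.val () (w, G)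
  r.length = n ∧ Sh n r ∧ (∀ j < n, mpol G ∣ pol w ^ j - pol (r.getD j [])) ∧
  p.cost () () (w, G) ≤ C * (n + 1) ^ 3

/-- series with poles; input `(s, (n, (places, rows)))` -/
def SpecYs : Prop := ∃ (p : Pr [] (.prod Un (.prod Un (.prod Po Ma))) Ma) (C : ℕ),
  ∀ (F : Type) [Field F] [DecidableEq F] (s n : ℕ) (as : List F) (gs : List (List F)),
  Sh n gs → gs.length = as.length →
  (p.val () (un s, (un n, (as, gs))) : List (List F)) =
    (List.range n).map (fun i => (List.range s).map (fun κ =>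
      -(List.zipWith (fun a g => g.getD i 0 * a⁻¹ ^ (κ + 1)) as gs).sum)) ∧
  p.cost () () (un s, (un n, (as, gs))) ≤ C * (n + s + as.length + 1) ^ 3

/-! ### The linear system -/

/-- unit vector -/
def uvec (F : Type) [Field F] (n j : ℕ) : List F :=
  (List.range n).map (fun i => if i = j then (1 : F) else 0)

/-- number of equations of the first kind -/
def n0 (n s : ℕ) : ℕ := s - (2 * n - 1)
/-- number of equations of the second kind -/
def n1 (n s : ℕ) : ℕ := s - (n - 1)

/-- number of rows -/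
def nrow (n s : ℕ) : ℕ := 2 * n0 n s + 2 * n1 n s

/-- the base change of a bivariate polynomial -/
noncomputable def bcp {F : Type} (k : Type) [Field F] [Field k] [Algebra F k] (S : F[X][X]) :
    k[X][X] := S.map (mapRingHom (algebraMap F k))

/-- the four parts of the column attached to `z ^ j` before taking roots -/
def IsRaw {F k : Type} [Field F] [Field k] [Algebra F k] {n : ℕ} (s Q : ℕ) (S : k[X][X])
    (φ : Fin n → PowerSeries k) (G : Fin n → Fin n → k) (a : Fin n → k) (g : Fin n → Fin n → k)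
    (j : ℕ) (c : (List F × List F) × (List F × List F)) : Prop :=
  c.1.1.length = n0 n s ∧ c.1.2.length = n0 n s ∧ c.2.1.length = n1 n s ∧
  c.2.2.length = n1 n s ∧
  (∀ m < n0 n s, algebraMap F k (c.1.1.getD m 0) =
    ∑ i, PowerSeries.constantCoeff (φ i) ^ j *
      PowerSeries.coeff (2 * n - 1 + m) (ev (φ i) (bpol G))) ∧
  (∀ m < n0 n s, algebraMap F k (c.1.2.getD m 0) =
    ∑ i, PowerSeries.constantCoeff (φ i) ^ (j * Q) *
      PowerSeries.coeff (2 * n - 1 + m) (ev (φ i) (bpol G))) ∧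
  (∀ m < n1 n s, algebraMap F k (c.2.1.getD m 0) =
    ∑ i, PowerSeries.constantCoeff (φ i) ^ j *
      PowerSeries.coeff (n - 1 + m) (yv (φ i) a g)) ∧
  (∀ m < n1 n s, algebraMap F k (c.2.2.getD m 0) =
    ∑ i, PowerSeries.constantCoeff (φ i) ^ (j * Q) *
      PowerSeries.coeff (n - 1 + m) (yv (φ i) a (fun j => gq S Q (a j) (g j))))

/-- the columns attached to the powers of `z`, before taking roots; input
`(r, ((bits q, e), (s, (S, (G, (places, rows of the g_j))))))` -/
def SpecRaw : Prop := ∃ (p : Pr [] (.prod Un (.prod (.prod Po Un) (.prod Un (.prod Ma (.prod Ma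
    (.prod Po Ma)))))) (.list (.prod (.prod Po Po) (.prod Po Po)))) (C k : ℕ),
  ∀ (F : Type) [Field F] [DecidableEq F] (r q e s n : ℕ) (S : List (List F))
  (G : Fin n → Fin n → F) (a : Fin n → F) (g : Fin n → Fin n → F),
  (r = 2 ∨ r = 3) → (r : F) ≠ 0 → 1 ≤ n → S.length = n → 2 * n ≤ s → Sh s S →
  let c : List ((List F × List F) × (List F × List F)) :=
    p.val () (un r, ((bits F q, un e), (un s, (S, (rows G, (List.ofFn a, rows g))))))
  c.length = n ∧
  (∀ (k : Type) [Field k] [Algebra F k] (φ : Fin n → PowerSeries k),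
    Rts (bcp k (mbiv S)) φ → ∀ j < n,
    IsRaw s (q ^ e) (bcp k (mbiv S)) φ (fun i j => algebraMap F k (G i j))
      (fun j => algebraMap F k (a j)) (fun j i => algebraMap F k (g j i)) j
      (c.getD j (([], []), ([], [])))) ∧
  (∀ x ∈ c, x.1.1.length = n0 n s ∧ x.1.2.length = n0 n s ∧ x.2.1.length = n1 n s ∧
    x.2.2.length = n1 n s) ∧
  p.cost () () (un r, ((bits F q, un e), (un s, (S, (rows G, (List.ofFn a, rows g)))))) ≤
    C * ((e + 1) * lgc q * lgc (s + 1) ^ k * (s + 1) ^ 3)

/-- the type of the `p`-th root function, a basic operation of the programs below -/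
abbrev RT : List (Ty × Ty) := [(.fld, .fld)]

/-- the columns of the system; same input; the `p`-th root function `rt` is available as a basic
operation of unit cost -/
def SpecSys : Prop := ∃ (w : Pr RT (.prod Un (.prod (.prod Po Un) (.prod Un (.prod Ma (.prod Ma
    (.prod Po Ma)))))) (.list (.prod Po Po))) (C k : ℕ),
  ∀ (F : Type) [Field F] [DecidableEq F] (p e r s n : ℕ) (rt : F → F) (S : List (List F))
  (G : Fin n → Fin n → F) (a : Fin n → F) (g : Fin n → Fin n → F), p.Prime → CharP F p →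
  (∀ x, rt x ^ p = x) → (r = 2 ∨ r = 3) → (r : F) ≠ 0 → 1 ≤ n → S.length = n → 2 * n ≤ s →
  Sh s S →
  ∃ (tc lc : Fin n → List F), (∀ j, (tc j).length = nrow n s) ∧
  (∀ j, (lc j).length = nrow n s) ∧
  (w.val (rt, ()) (un r, ((bits F p, un e), (un s, (S, (rows G, (List.ofFn a, rows g)))))) :
    List (List F × List F)) =
    List.ofFn (fun j => (([] : List F), tc j)) ++ List.ofFn (fun j => (uvec F n j, lc j)) ∧
  (∀ (k : Type) [Field k] [Algebra F k] (φ : Fin n → PowerSeries k),
    Rts (bcp k (mbiv S)) φ → ∀ l τ : Fin n → k,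
    (∀ m < nrow n s, ∑ j, τ j * algebraMap F k ((tc j).getD m 0) +
      ∑ j, l j * algebraMap F k ((lc j).getD m 0) = 0) ↔
    SysP s (p ^ e) (bcp k (mbiv S)) φ (fun i j => algebraMap F k (G i j))
      (fun j => algebraMap F k (a j)) (fun j i => algebraMap F k (g j i))
      (fun i => ∑ j : Fin n, l j * PowerSeries.constantCoeff (φ i) ^ (j : ℕ)) τ) ∧
  w.cost (rt, ()) ((fun _ => 1), ())
    (un r, ((bits F p, un e), (un s, (S, (rows G, (List.ofFn a, rows g)))))) ≤
    C * ((e + 1) * lgc p * lgc (s + 1) ^ k * (s + 1) ^ 3)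

/-! ### Preparations -/

/-- existence of power series roots -/
def StmtRoots : Prop := ∀ (k : Type) [Field k] [IsAlgClosed k] (n : ℕ) (S : k[X][X]), S.Monic →
  S.natDegree = n → 1 ≤ n → TD S n → Squarefree (S.map (evalRingHom (0 : k))) →
  ∃ φ : Fin n → PowerSeries k, Rts S φ

/-- parameters from the characteristic: the input is a list of length `D` with
`p ≤ D` and a list of length `n`; output `(r, (bits p, e))` with `n ≤ p ^ e` -/
def SpecPar : Prop := ∃ (w : Pr [] (.prod Un Un) (.prod Un (.prod Po Un))) (C : ℕ),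
  ∀ (F : Type) [Field F] [DecidableEq F] (p D n : ℕ), p.Prime → CharP F p → 1 ≤ n →
  (p ≤ D → ∃ r e : ℕ, (r = 2 ∨ r = 3) ∧ (r : F) ≠ 0 ∧ n ≤ p ^ e ∧ p ^ e ≤ n * p ∧ e ≤ lgc n ∧
    (Pr.val (F := F) w () (un D, un n) : List Unit × (List F × List Unit)) =
      (un r, (bits F p, un e))) ∧
  Pr.cost (F := F) w () () (un D, un n) ≤ C * (n + 1) * (D + 1)

/-- change of coordinates and normalization; input `(s, (a, (b, H)))`, output
`(leading coefficient, monic polynomial)` -/
def SpecPrep : Prop := ∃ (w : Pr [] (.prod Un (.prod .fld (.prod .fld Ma))) (.prod .fld Ma))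
    (C : ℕ),
  ∀ (F : Type) [Field F] [DecidableEq F] (a b : F) (d s : ℕ) (H : List (List F)), IsHom d H →
  1 ≤ d → d + 1 ≤ s →
  let r : F × List (List F) := w.val () (un s, (a, (b, H)))
  r.1 = ((sub a b (hom H)).coeff d).coeff 0 ∧ r.2.length = d ∧ Sh s r.2 ∧
  (r.1 ≠ 0 → sub a b (hom H) = Polynomial.C (Polynomial.C r.1) * mbiv r.2 ∧ TD (mbiv r.2) d) ∧
  w.cost () () (un s, (a, (b, H))) ≤ C * (ww (d + 1) + (s + 1) ^ 2)

/-- test for being squarefree (separable); the output is empty or `[()]` -/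
def SpecSqt : Prop := ∃ (w : Pr [] Po Un) (C : ℕ),
  ∀ (F : Type) [Field F] [DecidableEq F] (h : List F), 1 ≤ h.length →
  (IsCoprime (mpol h) (derivative (mpol h)) → w.val () h = un 1) ∧
  (¬ IsCoprime (mpol h) (derivative (mpol h)) → w.val () h = un 0) ∧
  w.cost () () h ≤ C * ww (h.length + 1)

/-- most coordinates are good -/
def StmtCoT : Prop := ∀ (k : Type) [Field k] [IsAlgClosed k] (d : ℕ) (H : List (List k))
  (T : Finset k), IsHom d H → 1 ≤ d → TopNe d H →
  Nat.card {x : T × T // ¬ CoGood (x.1 : k) (x.2 : k) (hom H) d} * T.card ≤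
    (2 * d ^ 2 + 3 * d) * T.card ^ 2

/-- irreducibility can be read off the constant vectors -/
def StmtIrrCst : Prop := ∀ (k : Type) [Field k] [IsAlgClosed k] (n : ℕ) (S : k[X][X])
  (φ : Fin n → PowerSeries k), Rts S φ →
  (Irreducible S ↔ Module.finrank k (Submodule.span k {l | Cst S φ l}) = 1)

/-- the number of free columns -/
def StmtFree : Prop := ∀ (F k : Type) [Field F] [Field k] [Algebra F k] (p e s n : ℕ)
  (S : k[X][X]) (φ : Fin n → PowerSeries k) (G : Fin n → Fin n → k) (a : Fin n → k)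
  (g : Fin n → Fin n → k) (tc lc : Fin n → List F) (P : List (List F))
  (Fr : List (List F × List F)), Rts S φ → GoodP s (p ^ e) S φ G a g →
  (∀ j, (tc j).length = nrow n s) → (∀ j, (lc j).length = nrow n s) →
  (∀ l τ : Fin n → k,
    (∀ m < nrow n s, ∑ j, τ j * algebraMap F k ((tc j).getD m 0) +
      ∑ j, l j * algebraMap F k ((lc j).getD m 0) = 0) ↔
    SysP s (p ^ e) S φ G a g
      (fun i => ∑ j : Fin n, l j * PowerSeries.constantCoeff (φ i) ^ (j : ℕ)) τ) →
  KerSpec (List.ofFn (fun j => (([] : List F), tc j)) ++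
    List.ofFn (fun j => (uvec F n j, lc j))) P Fr →
  Fr.length = Module.finrank k (Submodule.span k {l | Cst S φ l})

end Pool.Agent.H330AB
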