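/- JOB J1 of project AB (MP_2adc98_lc): quasi-linear multiplication over truncated power series. -/
import Pool.Agent.H330AB.SpecA2
import Pool.Agent.H330FB.JA5
set_option autoImplicit false
noncomputable section
noncomputable section
namespace Pool.Agent.H330AB.JJ1
open Polynomial Pool.Agent.H330FB
open Pool.Agent.H330FB.JA5.MulRAux

/-- the program -/
def j1P (p : Pr [] (.prod Un (.prod Po Po)) Po) :
    Pr [] (.prod Un (.prod Un (.prod Ma Ma))) Ma :=
  lt (.comp (.comp .snd .snd) appP)
    (onL .snd .nil
      (.comp .fst
        (lt (.comp (.comp (.comp .fst .snd) .fst) (.comp (.pair .id .id) appP))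
          (.comp (.pair (.comp (.comp (.comp .fst .fst) .snd) .fst)
            (ap3 chunksP (.comp .fst .snd) .snd
              (ap3 p (.comp (.comp .fst .fst) .fst)
                (.comp (.pair .snd (.comp (.comp (.comp (.comp .fst .fst) .snd) .snd) .fst)) pfP)
                (.comp (.pair .snd (.comp (.comp (.comp (.comp .fst .fst) .snd) .snd) .snd))
                  pfP))))
            padP))))

theorem j1_val {F : Type} [Field F] [DecidableEq F] (p : Pr [] (.prod Un (.prod Po Po)) Po)
    (tb : List Unit) (s : ℕ) (a b : List (List F)) :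
    ((j1P p).val () (tb, (un s, (a, b))) : List (List F)) =
      if a ++ b = [] then [] else
      (chunks (s + s) (a.length + b.length)
        (p.val () (tb, ((a.map (fit (s + s) 0)).flatten,
          (b.map (fit (s + s) 0)).flatten)) : List F)).map (fit s 0) := by
  simp only [j1P, val_lt, val_onL, val_comp, val_snd, val_fst, val_appP, val_pair, val_id,
    val_nil, val_chunksP, val_pfP, val_padP]
  cases h : a ++ b with
  | nil => simp
  | cons x y =>
    have h2 : y.length + 1 = a.length + b.length := by
      rw [← List.length_append, h]; rfl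
    simp [un, h2]

theorem j1_cost {F : Type} [Field F] [DecidableEq F] (p : Pr [] (.prod Un (.prod Po Po)) Po)
    (tb : List Unit) (s : ℕ) (hs : 1 ≤ s) (a b : List (List F)) (K : ℕ)
    (hK : p.cost () () (tb, ((a.map (fit (s + s) 0)).flatten,
          (b.map (fit (s + s) 0)).flatten)) ≤ K) :
    (j1P p).cost () () (tb, (un s, (a, b))) ≤ K + 1000 * (s * (a.length + b.length) + 1) := by
  simp only [j1P, val_comp, val_snd, val_fst, val_appP, val_pair, val_id,
    val_chunksP, val_pfP, cost_lt, cost_onL, cost_comp, cost_snd, cost_fst,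
    cost_pair, cost_id, cost_nil]
  have e1 := cost_appP (s := []) (F := F) (a := Po) () () (a, b)
  have hl : (un s ++ un s).length = s + s := by simp [un]
  have hl' : (un s).length = s := by simp [un]
  cases h : a ++ b with
  | nil =>
    have h1 : a = [] := (List.append_eq_nil_iff.mp h).1
    subst h1
    simp only [lcase_nil]
    simp only [List.length_nil] at e1
    omega
  | cons x y =>
    have h2 : (x :: y).length = a.length + b.length := by
      rw [← List.length_append, h]
    have h3 : 1 ≤ a.length + b.length := by rw [← h2]; simp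
    simp only [lcase_cons, hl]
    have e2 := cost_appP (s := []) (F := F) (a := .unit) () () (un s, un s)
    have e3 := cost_pfP (s := []) (F := F) (b := .unit) () () (un s ++ un s, a)
    have e4 := cost_pfP (s := []) (F := F) (b := .unit) () () (un s ++ un s, b)
    have e5 := cost_chunksP (s := []) (F := F) (a := .fld) (b := Po) (c := .unit) () () (x :: y, (un s ++ un s,
      (p.val () (tb, ((a.map (fit (s + s) 0)).flatten,
        (b.map (fit (s + s) 0)).flatten)) : List F)))
    have e6 := cost_padP (s := []) (F := F) (b := .unit) () () (un s,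
      chunks (s + s) (x :: y).length (p.val () (tb, ((a.map (fit (s + s) 0)).flatten,
        (b.map (fit (s + s) 0)).flatten)) : List F))
    simp only [hl, hl', length_chunks, h2] at e1 e2 e3 e4 e5 e6 ⊢
    nlinarith

theorem j1_lgc_pos (N : ℕ) : 1 ≤ lgc N := Nat.succ_le_succ (Nat.zero_le _)

theorem j1_ql_double (k N : ℕ) : ql k (2 * N) ≤ 2 ^ (k + 1) * ql k N := by
  unfold ql
  have h1 : lgc (2 * N + 1) ≤ 2 * lgc (N + 1) := by
    have h2 : Nat.clog 2 (2 * N + 1) ≤ Nat.clog 2 (N + 1) + 1 := by
      calc Nat.clog 2 (2 * N + 1) ≤ Nat.clog 2 (2 ^ (Nat.clog 2 (N + 1) + 1)) := by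
            apply Nat.clog_mono_right
            have := Nat.le_pow_clog (b := 2) one_lt_two (N + 1)
            rw [pow_succ]
            omega
        _ = Nat.clog 2 (N + 1) + 1 := Nat.clog_pow 2 _ one_lt_two
    unfold lgc
    omega
  calc (2 * N + 1) * lgc (2 * N + 1) ^ k ≤ (2 * (N + 1)) * (2 * lgc (N + 1)) ^ k :=
        Nat.mul_le_mul (by omega) (Nat.pow_le_pow_left h1 k)
    _ = 2 ^ (k + 1) * ((N + 1) * lgc (N + 1) ^ k) := by rw [mul_pow, pow_succ]; ring

theorem j1_le_ql (k N : ℕ) : N + 1 ≤ ql k N := by
  unfold ql
  exact Nat.le_mul_of_pos_right _ (Nat.pow_pos (j1_lgc_pos _))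

/-- TARGET -/
theorem specMulRF (h : SpecFM) : SpecMulRF := by
  obtain ⟨p, C, k, hp⟩ := h
  refine ⟨j1P p, C * 2 ^ (k + 1) + 1000, k, ?_⟩
  intro F _ _ ρ s a b hr2 hr0 hs ha hb
  obtain ⟨q1, q2, q3⟩ := hp F ρ (a.map (fit (s + s) 0)).flatten
    (b.map (fit (s + s) 0)).flatten hr2 hr0
  have q2' : List.length (p.val () (un ρ, ((a.map (fit (s + s) 0)).flatten,
        (b.map (fit (s + s) 0)).flatten)) : List F) = (s + s) * (a.length + b.length) := by
    rw [q2, length_flatten_fit, length_flatten_fit]; ring
  have hv := j1_val p (un ρ) s a b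
  rw [length_flatten_fit, length_flatten_fit] at q3
  have hc := j1_cost p (un ρ) s hs a b _ q3
  intro r
  have hr : r = _ := hv
  have hlen : r.length = a.length + b.length := by
    rw [hr]
    split_ifs with h
    · rw [← List.length_append, h]
    · simp [length_chunks]
  refine ⟨?_, hlen, ?_, ?_⟩
  · rw [hr]
    split_ifs with h
    · intro x hx; simp at hx
    · intro x hx
      simp only [List.mem_map] at hx
      obtain ⟨y, -, rfl⟩ := hx
      simp
  · intro R _ _ τ hτ
    rw [hr]
    split_ifs with h
    · obtain ⟨rfl, rfl⟩ := List.append_eq_nil_iff.mp h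
      simp [rp, pol]
    · rw [rp_fit τ s hτ, rp_eq, rp_eq, rp_eq, kron s a b ha hb _ q2' q1, Polynomial.map_mul]
  · refine hc.trans ?_
    have e0 : (s + s) * a.length + (s + s) * b.length = 2 * (s * (a.length + b.length)) := by ring
    rw [e0]
    have e1 := j1_ql_double k (s * (a.length + b.length))
    have e2 := j1_le_ql k (s * (a.length + b.length))
    have e3 := Nat.mul_le_mul_left C e1
    calc C * ql k (2 * (s * (a.length + b.length))) + 1000 * (s * (a.length + b.length) + 1)
        ≤ C * (2 ^ (k + 1) * ql k (s * (a.length + b.length))) +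
          1000 * ql k (s * (a.length + b.length)) :=
          Nat.add_le_add e3 (Nat.mul_le_mul_left _ e2)
      _ = (C * 2 ^ (k + 1) + 1000) * ql k (s * (a.length + b.length)) := by ring
end Pool.Agent.H330AB.JJ1
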