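import Pool.Agent.H330AB.SpecA2
set_option autoImplicit false
set_option linter.unusedSimpArgs false
set_option linter.unusedSectionVars false
noncomputable section
namespace Pool.Agent.H330AB.JJ10
open Polynomial Pool.Agent.H330FB

namespace Raw

section alg

theorem pol_map' {R R' : Type} [CommRing R] [CommRing R'] (f : R →+* R') (l : List R) :
    (pol l).map f = pol (l.map f) := by
  induction l with
  | nil => simp [pol]
  | cons x l ih => simp [pol, ih]

theorem mpol_map' {R R' : Type} [CommRing R] [CommRing R'] (f : R →+* R') (l : List R) :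
    (mpol l).map f = mpol (l.map f) := by
  simp [mpol, pol_map']

theorem pol_coeff {R : Type} [CommRing R] (l : List R) (i : ℕ) :
    (pol l).coeff i = l.getD i 0 := by
  induction l generalizing i with
  | nil => simp [pol]
  | cons x l ih =>
    cases i with
    | zero => simp [pol]
    | succ i => simp [pol, ih, coeff_C_succ]

theorem pol_degree_lt {R : Type} [CommRing R] (l : List R) : (pol l).degree < l.length := by
  rw [degree_lt_iff_coeff_zero]
  intro m hm
  rw [pol_coeff, List.getD_eq_default _ _ hm]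

theorem mpol_monic {R : Type} [CommRing R] (l : List R) : (mpol l).Monic :=
  monic_X_pow_add (pol_degree_lt l)

theorem mpol_degree {R : Type} [CommRing R] [Nontrivial R] (l : List R) :
    (mpol l).degree = l.length := by
  rw [mpol, degree_add_eq_left_of_degree_lt]
  · simp
  · rw [degree_X_pow]; exact pol_degree_lt l

theorem pol_ofFn {R : Type} [CommRing R] {n : ℕ} (f : Fin n → R) :
    pol (List.ofFn f) = ∑ i : Fin n, C (f i) * X ^ (i : ℕ) := by
  induction n with
  | zero => simp [pol]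
  | succ n ih =>
    rw [List.ofFn_succ, pol, ih, Fin.sum_univ_succ, Finset.mul_sum]
    simp only [Fin.val_zero, pow_zero, mul_one, Fin.val_succ]
    congr 1
    refine Finset.sum_congr rfl fun i _ => ?_
    ring

theorem pol_eq_sum {R : Type} [CommRing R] (l : List R) (N : ℕ) (h : l.length ≤ N) :
    pol l = ∑ i ∈ Finset.range N, C (l.getD i 0) * X ^ i := by
  ext m
  rw [pol_coeff, finsetSum_coeff]
  simp only [coeff_C_mul, coeff_X_pow, mul_ite, mul_one, mul_zero]
  rw [Finset.sum_ite_eq]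
  split_ifs with hm
  · rfl
  · rw [List.getD_eq_default _ _ (by simp at hm; omega)]

variable {F k : Type} [Field F] [Field k] [Algebra F k]

theorem rp_map {R R' : Type} [CommRing R] [CommRing R'] [Algebra F R] [Algebra F R']
    (f : R →ₐ[F] R') (τ : R) (W : List (List F)) :
    rp (f τ) W = (rp τ W).map (f : R →+* R') := by
  simp only [rp, pol_map', List.map_map]
  congr 1
  refine List.map_congr_left fun r _ => ?_
  simp [aeval_algHom_apply]

theorem mrp_map {R R' : Type} [CommRing R] [CommRing R'] [Algebra F R] [Algebra F R']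
    (f : R →ₐ[F] R') (τ : R) (W : List (List F)) :
    mrp (f τ) W = (mrp τ W).map (f : R →+* R') := by
  simp [mrp, rp_map]

theorem av_map {R R' : Type} [CommRing R] [CommRing R'] [Algebra F R] [Algebra F R']
    (f : R →ₐ[F] R') (τ ζ : R) (W : List (List F)) :
    av (f τ) (f ζ) W = f (av τ ζ W) := by
  rw [av, rp_map, av]
  exact (eval_map_apply (f : R →+* R') ζ)

theorem aeval_X_ps (p : F[X]) :
    aeval (PowerSeries.X : PowerSeries k) p =
      ((p.map (algebraMap F k) : k[X]) : PowerSeries k) := by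
  induction p using Polynomial.induction_on' with
  | add p q hp hq => simp [hp, hq]
  | monomial n a =>
    simp only [aeval_monomial, map_monomial, coe_monomial]
    ext m
    rw [PowerSeries.algebraMap_apply, PowerSeries.coeff_C_mul, PowerSeries.coeff_X_pow,
      PowerSeries.coeff_monomial]
    split_ifs <;> simp

theorem coeff_aeval_X (p : F[X]) (m : ℕ) :
    PowerSeries.coeff m (aeval (PowerSeries.X : PowerSeries k) p) =
      algebraMap F k (p.coeff m) := by
  rw [aeval_X_ps]; simp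

theorem coeff_av (W : List (List F)) (α : k) (κ : ℕ) :
    PowerSeries.coeff κ (av (R := PowerSeries k) PowerSeries.X (PowerSeries.C α) W) =
      aeval α (pol (W.map (fun r => r.getD κ 0))) := by
  induction W with
  | nil => simp [av, rp, pol]
  | cons r W ih =>
    have h1 : av (R := PowerSeries k) PowerSeries.X (PowerSeries.C α) (r :: W) =
      aeval (PowerSeries.X : PowerSeries k) (pol r) +
        PowerSeries.C α * av (R := PowerSeries k) PowerSeries.X (PowerSeries.C α) W := by
      simp [av, rp, pol]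
    rw [h1, map_add, PowerSeries.coeff_C_mul, ih, coeff_aeval_X, pol_coeff]
    simp [pol]

/-- truncated power series -/
abbrev QR (k : Type) [Field k] (s : ℕ) : Type :=
  PowerSeries k ⧸ (Ideal.span {(PowerSeries.X : PowerSeries k) ^ s})

/-- reduction modulo `X ^ s` -/
noncomputable def qm (F k : Type) [Field F] [Field k] [Algebra F k] (s : ℕ) :
    PowerSeries k →ₐ[F] QR k s :=
  Ideal.Quotient.mkₐ F _

theorem qm_eq_zero (s : ℕ) (u : PowerSeries k) :
    qm F k s u = 0 ↔ (PowerSeries.X : PowerSeries k) ^ s ∣ u := by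
  unfold qm
  rw [Ideal.Quotient.mkₐ_eq_mk, Ideal.Quotient.eq_zero_iff_mem, Ideal.mem_span_singleton]

theorem qm_eq_iff (s : ℕ) (u v : PowerSeries k) :
    qm F k s u = qm F k s v ↔ ∀ κ < s, PowerSeries.coeff κ u = PowerSeries.coeff κ v := by
  rw [← sub_eq_zero, ← map_sub, qm_eq_zero, PowerSeries.X_pow_dvd_iff]
  simp [sub_eq_zero]

theorem qm_surj (s : ℕ) : Function.Surjective (qm F k s) :=
  Ideal.Quotient.mkₐ_surjective _ _

theorem mrp_X (S : List (List F)) :
    (bcp k (mbiv S)).map Polynomial.coeToPowerSeries.ringHom =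
      mrp (PowerSeries.X : PowerSeries k) S := by
  have h : ∀ r : List F, Polynomial.coeToPowerSeries.ringHom
      (mapRingHom (algebraMap F k) (pol r)) = aeval (PowerSeries.X : PowerSeries k) (pol r) := by
    intro r
    rw [aeval_X_ps]; rfl
  simp only [bcp, mbiv, biv, mrp, rp, Polynomial.map_add, Polynomial.map_pow, map_X, pol_map',
    List.map_map]
  congr 2
  exact List.map_congr_left fun r _ => h r

theorem mrp_prod {n : ℕ} (S : List (List F)) (φ : Fin n → PowerSeries k)
    (hR : Rts (bcp k (mbiv S)) φ) :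
    mrp (PowerSeries.X : PowerSeries k) S = ∏ i, (X - C (φ i)) := by
  rw [← mrp_X, hR.prod]

theorem hd0_map (S : List (List F)) :
    (mrp (PowerSeries.X : PowerSeries k) S).map PowerSeries.constantCoeff =
      (mpol (hd0 S)).map (algebraMap F k) := by
  simp only [mrp, rp, hd0, mpol, Polynomial.map_add, Polynomial.map_pow, map_X, pol_map',
    List.map_map, List.length_map]
  congr 2
  refine List.map_congr_left fun r _ => ?_
  have := coeff_aeval_X (k := k) (pol r) 0
  rw [PowerSeries.coeff_zero_eq_constantCoeff_apply, pol_coeff] at this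
  simpa using this

theorem mpol_h_prod {n : ℕ} (S : List (List F)) (φ : Fin n → PowerSeries k)
    (hR : Rts (bcp k (mbiv S)) φ) :
    (mpol (hd0 S)).map (algebraMap F k) =
      ∏ i, (X - C (PowerSeries.constantCoeff (φ i))) := by
  rw [← hd0_map, mrp_prod S φ hR, Polynomial.map_prod]
  simp

theorem aeval_h_eq_zero {n : ℕ} (S : List (List F)) (φ : Fin n → PowerSeries k)
    (hR : Rts (bcp k (mbiv S)) φ) (i : Fin n) :
    aeval (PowerSeries.constantCoeff (φ i)) (mpol (hd0 S)) = 0 := by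
  rw [aeval_def, ← eval_map, mpol_h_prod S φ hR, eval_prod]
  exact Finset.prod_eq_zero (Finset.mem_univ i) (by simp)

theorem coprime_h {n : ℕ} (S : List (List F)) (φ : Fin n → PowerSeries k)
    (hR : Rts (bcp k (mbiv S)) φ) :
    IsCoprime (mpol (hd0 S)) (derivative (mpol (hd0 S))) := by
  have h1 : ((mpol (hd0 S)).map (algebraMap F k)).Separable := by
    rw [mpol_h_prod S φ hR]
    exact separable_prod_X_sub_C_iff.mpr hR.inj
  exact (separable_map (algebraMap F k)).mp h1

/-- the algebra `F → k → k[[X]] → k[[X]]/X^s`, value at the constant `α` -/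
theorem aeval_zeta (s : ℕ) (α : k) (p : F[X]) (h : aeval α p = 0) :
    aeval (qm F k s (PowerSeries.C α)) p = 0 := by
  rw [aeval_algHom_apply]
  have : aeval (PowerSeries.C α : PowerSeries k) p = PowerSeries.C (aeval α p) := by
    have h2 : (PowerSeries.C α : PowerSeries k) = (Algebra.ofId k (PowerSeries k)).restrictScalars F α := rfl
    rw [h2, aeval_algHom_apply]; rfl
  rw [this, h]; simp

theorem tau_pow (s : ℕ) : (qm F k s PowerSeries.X) ^ s = 0 := by
  rw [← map_pow, qm_eq_zero]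

/-- the computed root is the class of the power series root -/
theorem root_eq {n s : ℕ} (hs : 1 ≤ s) (S φc : List (List F)) (φ : Fin n → PowerSeries k)
    (hR : Rts (bcp k (mbiv S)) φ)
    (hN : IsCoprime (mpol (hd0 S)) (derivative (mpol (hd0 S))) →
      ∀ (R : Type) [CommRing R] [Algebra F R] (τ ζ : R), τ ^ s = 0 →
      aeval ζ (mpol (hd0 S)) = 0 →
      (mrp τ S).eval (av τ ζ φc) = 0 ∧ ∃ ρ : R, av τ ζ φc = ζ + τ * ρ) (i : Fin n) :
    av (qm F k s PowerSeries.X) (qm F k s (PowerSeries.C (PowerSeries.constantCoeff (φ i)))) φc =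
      qm F k s (φ i) := by
  obtain ⟨h1, ρ, h2⟩ := hN (coprime_h S φ hR) (QR k s) (qm F k s PowerSeries.X)
    (qm F k s (PowerSeries.C (PowerSeries.constantCoeff (φ i)))) (tau_pow s)
    (aeval_zeta s _ _ (aeval_h_eq_zero S φ hR i))
  set v := av (qm F k s PowerSeries.X)
    (qm F k s (PowerSeries.C (PowerSeries.constantCoeff (φ i)))) φc with hv
  obtain ⟨u, hu⟩ := qm_surj (F := F) (k := k) s v
  obtain ⟨ρ', hρ⟩ := qm_surj (F := F) (k := k) s ρ
  rw [mrp_map, mrp_prod S φ hR, ← hu] at h1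
  have h3 : qm F k s (∏ j, (u - φ j)) = 0 := by
    rw [← h1]
    erw [eval_map_apply]
    simp [eval_prod]
  rw [qm_eq_zero] at h3
  have hc : PowerSeries.constantCoeff u = PowerSeries.constantCoeff (φ i) := by
    have h4 : qm F k s u = qm F k s (PowerSeries.C (PowerSeries.constantCoeff (φ i)) +
        PowerSeries.X * ρ') := by
      rw [hu, h2, map_add, map_mul, hρ]
    have h5 := (qm_eq_iff (F := F) s _ _).mp h4 0 (by omega)
    simpa using h5
  have h6 : (PowerSeries.X : PowerSeries k) ^ s ∣ u - φ i := by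
    rw [← Finset.mul_prod_erase _ _ (Finset.mem_univ i)] at h3
    have h7 : IsUnit (∏ x ∈ Finset.univ.erase i, (u - φ x)) := by
      rw [PowerSeries.isUnit_iff_constantCoeff, isUnit_iff_ne_zero, map_prod,
        Finset.prod_ne_zero_iff]
      intro j hj
      rw [map_sub, hc, sub_ne_zero]
      intro h8
      exact (Finset.ne_of_mem_erase hj) (hR.inj h8).symm
    exact (h7.dvd_mul_right).mp h3
  rw [← hu, ← sub_eq_zero, ← map_sub, qm_eq_zero]
  exact h6

/-- coefficients of values at the roots -/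
theorem coeff_value {n s : ℕ} (hs : 1 ≤ s) (S φc : List (List F)) (φ : Fin n → PowerSeries k)
    (hR : Rts (bcp k (mbiv S)) φ)
    (hN : IsCoprime (mpol (hd0 S)) (derivative (mpol (hd0 S))) →
      ∀ (R : Type) [CommRing R] [Algebra F R] (τ ζ : R), τ ^ s = 0 →
      aeval ζ (mpol (hd0 S)) = 0 →
      (mrp τ S).eval (av τ ζ φc) = 0 ∧ ∃ ρ : R, av τ ζ φc = ζ + τ * ρ)
    (W Y : List (List F))
    (hW : ∀ (R : Type) [CommRing R] [Algebra F R] (τ ζ : R), τ ^ s = 0 →
      aeval ζ (mpol (hd0 S)) = 0 → av τ ζ W = (rp τ Y).eval (av τ ζ φc))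
    (V : PowerSeries k) (i : Fin n)
    (hV : ∀ κ < s, PowerSeries.coeff κ V =
      PowerSeries.coeff κ ((rp (PowerSeries.X : PowerSeries k) Y).eval (φ i)))
    (κ : ℕ) (hκ : κ < s) :
    PowerSeries.coeff κ V =
      aeval (PowerSeries.constantCoeff (φ i)) (pol (W.map (fun r => r.getD κ 0))) := by
  rw [hV κ hκ, ← coeff_av]
  have h1 := hW (QR k s) (qm F k s PowerSeries.X)
    (qm F k s (PowerSeries.C (PowerSeries.constantCoeff (φ i)))) (tau_pow s)
    (aeval_zeta s _ _ (aeval_h_eq_zero S φ hR i))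
  rw [root_eq hs S φc φ hR hN i, av_map, rp_map] at h1
  erw [eval_map_apply] at h1
  exact ((qm_eq_iff (F := F) s _ _).mp h1 κ hκ).symm

end alg

end Raw

namespace Raw

section alg
variable {F k : Type} [Field F] [Field k] [Algebra F k]

theorem fit_getD {α : Type} (s : ℕ) (z : α) (l : List α) (i : ℕ) (hi : i < s) :
    (fit s z l).getD i z = l.getD i z := by
  induction s generalizing l i with
  | zero => omega
  | succ s ih =>
    cases l with
    | nil =>
      cases i with
      | zero => simp [fit]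
      | succ i =>
        have := ih [] i (by omega)
        simpa [fit] using this
    | cons x l =>
      cases i with
      | zero => simp [fit]
      | succ i =>
        have := ih l i (by omega)
        simpa [fit] using this

theorem pol_fit {R : Type} [CommRing R] (s : ℕ) (l : List R) (h : l.length ≤ s) :
    pol (fit s 0 l) = pol l := by
  ext i
  rw [pol_coeff, pol_coeff]
  by_cases hi : i < s
  · exact fit_getD s 0 l i hi
  · rw [List.getD_eq_default _ _ (by simp; omega), List.getD_eq_default _ _ (by omega)]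

/-- value of a polynomial over the power series given by rows -/
theorem rp_ofFn {n : ℕ} (f : Fin n → List F) (u : PowerSeries k) :
    (rp (PowerSeries.X : PowerSeries k) (List.ofFn f)).eval u =
      ∑ i : Fin n, aeval (PowerSeries.X : PowerSeries k) (pol (f i)) * u ^ (i : ℕ) := by
  rw [rp, List.map_ofFn, pol_ofFn, eval_finsetSum]
  simp

theorem ev_bpol {n M : ℕ} (G : Fin n → Fin M → F) (u : PowerSeries k) :
    ev u (bpol (fun i j => algebraMap F k (G i j))) =
      ∑ i : Fin n, aeval (PowerSeries.X : PowerSeries k) (pol (List.ofFn (G i))) * u ^ (i : ℕ) := by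
  rw [ev, bpol, eval₂_finsetSum]
  refine Finset.sum_congr rfl fun i _ => ?_
  rw [eval₂_mul, eval₂_C, eval₂_X_pow, aeval_X_ps, pol_ofFn]
  congr 1
  rw [Polynomial.map_sum]
  simp only [Polynomial.map_mul, map_C, Polynomial.map_pow, map_X]
  rfl

theorem val_G {n s : ℕ} (hs : n ≤ s) (G : Fin n → Fin n → F) (u : PowerSeries k) :
    (rp (PowerSeries.X : PowerSeries k) ((rows G).map (fit s 0))).eval u =
      ev u (bpol (fun i j => algebraMap F k (G i j))) := by
  rw [rows, List.map_ofFn, rp_ofFn, ev_bpol]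
  refine Finset.sum_congr rfl fun i _ => ?_
  rw [Function.comp_apply, pol_fit s _ (by simp; omega)]

/-- rows of the truncated series with poles -/
def ysL (s n : ℕ) (as : List F) (gs : List (List F)) : List (List F) :=
  (List.range n).map (fun i => (List.range s).map (fun κ =>
      -(List.zipWith (fun a g => g.getD i 0 * a⁻¹ ^ (κ + 1)) as gs).sum))

theorem zip_sum {n : ℕ} (a : Fin n → F) (g : Fin n → Fin n → F) (i : Fin n) (κ : ℕ) :
    (List.zipWith (fun a g => g.getD (i : ℕ) 0 * a⁻¹ ^ (κ + 1)) (List.ofFn a) (rows g)).sum =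
      ∑ j, g j i * (a j)⁻¹ ^ (κ + 1) := by
  have : List.zipWith (fun a (g : List F) => g.getD (i : ℕ) 0 * a⁻¹ ^ (κ + 1)) (List.ofFn a)
      (rows g) = List.ofFn (fun j => g j i * (a j)⁻¹ ^ (κ + 1)) := by
    refine List.ext_getElem (by simp [rows]) fun m h1 h2 => ?_
    simp [rows]
  rw [this, List.sum_ofFn]

theorem ysL_eq {n : ℕ} (s : ℕ) (a : Fin n → F) (g : Fin n → Fin n → F) :
    ysL s n (List.ofFn a) (rows g) = List.ofFn (fun i : Fin n =>
      (List.range s).map (fun κ => -∑ j, g j i * (a j)⁻¹ ^ (κ + 1))) := by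
  refine List.ext_getElem (by simp [ysL]) fun m h1 h2 => ?_
  simp only [ysL, List.getElem_map, List.getElem_range, List.getElem_ofFn]
  refine List.map_congr_left fun κ _ => ?_
  have hm : m < n := by simpa [ysL] using h1
  rw [← zip_sum a g ⟨m, hm⟩ κ]

theorem range_getD (s : ℕ) (f : ℕ → F) (κ : ℕ) (h : κ < s) :
    ((List.range s).map f).getD κ 0 = f κ := by
  rw [List.getD_eq_getElem _ _ (by simpa using h)]
  simp

theorem val_Y {n s : ℕ} (a : Fin n → F) (g : Fin n → Fin n → F) (u : PowerSeries k) (κ : ℕ)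
    (hκ : κ < s) :
    PowerSeries.coeff κ (yv u (fun j => algebraMap F k (a j))
      (fun j i => algebraMap F k (g j i))) =
    PowerSeries.coeff κ ((rp (PowerSeries.X : PowerSeries k)
      (ysL s n (List.ofFn a) (rows g))).eval u) := by
  rw [ysL_eq, rp_ofFn]
  have h1 : yv u (fun j => algebraMap F k (a j)) (fun j i => algebraMap F k (g j i)) =
      ∑ i : Fin n, (∑ j, PowerSeries.C (algebraMap F k (g j i)) * ser (algebraMap F k (a j))) *
        u ^ (i : ℕ) := by
    simp only [yv, evg, Finset.sum_mul]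
    rw [Finset.sum_comm]
    refine Finset.sum_congr rfl fun i _ => ?_
    refine Finset.sum_congr rfl fun j _ => ?_
    ring
  rw [h1]
  have h2 : (PowerSeries.X : PowerSeries k) ^ s ∣
      (∑ i : Fin n, (∑ j, PowerSeries.C (algebraMap F k (g j i)) * ser (algebraMap F k (a j))) *
        u ^ (i : ℕ)) -
      ∑ i : Fin n, aeval (PowerSeries.X : PowerSeries k) (pol ((List.range s).map
        (fun κ => -∑ j, g j i * (a j)⁻¹ ^ (κ + 1)))) * u ^ (i : ℕ) := by
    rw [← Finset.sum_sub_distrib]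
    refine Finset.dvd_sum fun i _ => ?_
    rw [← sub_mul]
    refine Dvd.dvd.mul_right ?_ _
    rw [PowerSeries.X_pow_dvd_iff]
    intro m hm
    rw [map_sub, coeff_aeval_X, pol_coeff, range_getD _ _ _ hm, map_sum]
    simp only [PowerSeries.coeff_C_mul, ser, PowerSeries.coeff_mk]
    rw [map_neg, map_sum, sub_neg_eq_add, ← Finset.sum_add_distrib]
    refine Finset.sum_eq_zero fun j _ => ?_
    simp only [map_mul, map_pow, map_inv₀]
    ring
  rw [PowerSeries.X_pow_dvd_iff] at h2
  have h3 := h2 κ hκ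
  rwa [map_sub, sub_eq_zero] at h3

/-- powers at the places commute with the base change -/
theorem gq_map {n : ℕ} (Q : ℕ) (S : F[X][X]) (hS : S.Monic) (a : F) (g : Fin n → F) :
    gq (bcp k S) Q (algebraMap F k a) (fun i => algebraMap F k (g i)) =
      fun i => algebraMap F k (gq S Q a g i) := by
  have h1 : gp (fun i => algebraMap F k (g i)) = (gp g).map (algebraMap F k) := by
    simp [gp, Polynomial.map_sum]
  have h2 : fb (bcp k S) (algebraMap F k a) = (fb S a).map (algebraMap F k) := by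
    simp only [fb, bcp, Polynomial.map_map]
    congr 1
    ext x <;> simp
  have h3 : (fb S a).Monic := hS.map _
  funext i
  rw [gq, gq, h1, h2, ← Polynomial.map_pow, ← map_modByMonic _ h3, coeff_map]

theorem gp_eq {n : ℕ} (g : Fin n → F) : gp g = pol (List.ofFn g) := by
  rw [pol_ofFn, gp]

theorem fib_eq (S : List (List F)) (a : F) :
    mpol (S.map (fun r => (pol r).eval a)) = fb (mbiv S) a := by
  simp only [mpol, fb, mbiv, biv, Polynomial.map_add, Polynomial.map_pow, map_X, pol_map',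
    List.map_map, List.length_map]
  rfl

theorem mbiv_monic (S : List (List F)) : (mbiv S).Monic := by
  have : mbiv S = mpol (S.map pol) := by simp [mbiv, mpol, biv]
  rw [this]; exact mpol_monic _

/-- remainders as lists -/
theorem rem_list {n : ℕ} (S : List (List F)) (hn : S.length = n) (Q : ℕ) (a : F)
    (g : Fin n → F) (r : List F) (hr : r.length = n)
    (hd : mpol (S.map (fun r => (pol r).eval a)) ∣ pol (List.ofFn g) ^ Q - pol r) :
    r = List.ofFn (gq (mbiv S) Q a g) := by
  rw [fib_eq] at hd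
  have hm : (fb (mbiv S) a).Monic := (mbiv_monic S).map _
  have hdeg : (pol r).degree < (fb (mbiv S) a).degree := by
    rw [← fib_eq, mpol_degree]
    simpa [hn, hr] using pol_degree_lt r
  have h1 : pol (List.ofFn g) ^ Q %ₘ fb (mbiv S) a = pol r := by
    have h2 := (modByMonic_eq_zero_iff_dvd hm).mpr hd
    rw [sub_modByMonic, sub_eq_zero] at h2
    rw [h2, (modByMonic_eq_self_iff hm).mpr hdeg]
  refine List.ext_getElem (by simp [hr]) fun m h3 h4 => ?_
  simp only [List.getElem_ofFn, gq]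
  rw [gp_eq, h1, pol_coeff, List.getD_eq_getElem _ _ h3]

/-- powers of a root -/
theorem pow_root {h z w : List F} {R : Type} [CommRing R] [Algebra F R] (α : R) (β : R)
    (m : ℕ) (hα : aeval α (mpol h) = 0) (hz : aeval α (pol z) = β)
    (hd : mpol h ∣ pol z ^ m - pol w) : aeval α (pol w) = β ^ m := by
  obtain ⟨q, hq⟩ := hd
  have := congrArg (aeval α) hq
  rw [map_sub, map_mul, hα, zero_mul, sub_eq_zero, map_pow, hz] at this
  exact this.symm

end alg

end Raw

namespace Raw

/-! ### Small programs -/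

/-- constant terms of the rows -/
def hP : Pr [] Ma Po :=
  .comp (.pair .star .id) (mapP (c := .unit) (onL .snd .zero (.comp .snd .fst)))

/-- length in unary -/
def nP : Pr [] Ma Un := .comp (.pair .star .id) (mapP (c := .unit) .star)

/-- padding of all rows -/
def padP : Pr [] (.prod Un Ma) Ma := mapP (.comp (.pair .fst (.pair .zero .snd)) fitP)

/-- dropping in all rows -/
def drP : Pr [] (.prod Un Ma) Ma := mapP (.comp splitP .snd)

/-- pairs -/
def mkP {a b : Ty} : Pr [] (.prod (.list a) (.list b)) (.list (.prod a b)) :=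
  .comp (.pair .star .id) (zipP (c := .unit) .snd)

/-- tail -/
def tlP : Pr [] Un Un := onL .id .nil (.comp .snd .snd)

/-- `X` modulo `mpol h` -/
def zP : Pr [] Po Po :=
  onL .id .nil (onL (.comp .snd .snd) (.comp (.pair (.comp (.comp .snd .fst) .neg) .nil) .cons)
    (.comp (.pair (.comp .fst .fst) (.pair .zero
      (.comp (.pair .zero (.comp (.pair .one .nil) .cons)) .cons))) fitP))

section
variable {F : Type} [Field F] [DecidableEq F]

theorem val_hP (S : List (List F)) : (hP.val (F := F) () S : List F) = hd0 S := by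
  simp only [hP, val_comp, val_pair, val_mapP, val_id, val_star, hd0]
  refine List.map_congr_left fun r _ => ?_
  cases r <;> simp

theorem cost_hP (S : List (List F)) : hP.cost (F := F) () () S ≤ 30 * (S.length + 1) := by
  have h := cost_mapP_le (F := F) (s := []) (c := .unit) (a := Po) (b := .fld)
    (onL .snd .zero (.comp .snd .fst)) () () ((), S) 6 (by
      intro y _
      cases y <;> simp)
  simp [hP] at h ⊢
  omega

theorem val_nP (S : List (List F)) : (nP.val (F := F) () S : List Unit) = un S.length := by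
  simp [nP, un]

theorem cost_nP (S : List (List F)) : nP.cost (F := F) () () S ≤ 20 * (S.length + 1) := by
  have h := cost_mapP_le (F := F) (s := []) (c := .unit) (a := Po) (b := .unit)
    .star () () ((), S) 1 (by intro y _; simp)
  simp [nP] at h ⊢
  omega

theorem val_padP (s : ℕ) (G : List (List F)) :
    (padP.val (F := F) () (un s, G) : List (List F)) = G.map (fit s 0) := by
  simp [padP, un]

theorem cost_padP (s : ℕ) (G : List (List F)) :
    padP.cost (F := F) () () (un s, G) ≤ (20 * s + 30) * (G.length + 1) := by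
  have h := cost_mapP_le (F := F) (s := []) (c := Un) (a := Po) (b := Po)
    (.comp (.pair .fst (.pair .zero .snd)) fitP) () () (un s, G) (20 * s + 7) (by
      intro y _
      have := cost_fitP (F := F) (s := []) (a := .fld) (b := .unit) () () (un s, ((0 : F), y))
      simp [un] at this ⊢
      omega)
  simp [padP] at h ⊢
  nlinarith

theorem val_drP (m : ℕ) (G : List (List F)) :
    (drP.val (F := F) () (un m, G) : List (List F)) = G.map (List.drop m) := by
  simp [drP, un]

theorem cost_drP (m : ℕ) (G : List (List F)) :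
    drP.cost (F := F) () () (un m, G) ≤ (24 * m + 30) * (G.length + 1) := by
  have h := cost_mapP_le (F := F) (s := []) (c := Un) (a := Po) (b := Po)
    (.comp splitP .snd) () () (un m, G) (24 * m + 9) (by
      intro y _
      have := cost_splitP (F := F) (s := []) (a := .fld) (b := .unit) () () (un m, y)
      simp [un] at this ⊢
      omega)
  simp [drP] at h ⊢
  nlinarith

theorem val_mkP {a b : Ty} (l : List (Ty.D F a)) (m : List (Ty.D F b)) :
    ((mkP : Pr [] (.prod (.list a) (.list b)) _).val (F := F) () (l, m) :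
      List (Ty.D F a × Ty.D F b)) = List.zipWith Prod.mk l m := by
  simp [mkP]

theorem cost_mkP {a b : Ty} (l : List (Ty.D F a)) (m : List (Ty.D F b)) :
    (mkP : Pr [] (.prod (.list a) (.list b)) _).cost (F := F) () () (l, m) ≤
      60 * (l.length + 1) := by
  have h := cost_zipP_le (F := F) (s := []) (c := .unit) (a := a) (b := b) (d := .prod a b)
    .snd () () ((), (l, m)) 1 (by intro y _ z _; simp)
  simp [mkP] at h ⊢
  omega

theorem val_tlP (m : ℕ) : (tlP.val (F := F) () (un m) : List Unit) = un (m - 1) := by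
  cases m <;> simp [tlP, un, List.replicate_succ]

theorem cost_tlP (m : ℕ) : tlP.cost (F := F) () () (un m) ≤ 7 := by
  cases m <;> simp [tlP, un, List.replicate_succ]

theorem app_un (m n : ℕ) : un m ++ un n = un (m + n) := by
  simp [un]

theorem val_zP (h : List F) (hh : 1 ≤ h.length) :
    List.length (zP.val (F := F) () h : List F) = h.length ∧
    mpol h ∣ X - pol (zP.val (F := F) () h : List F) := by
  rcases h with _ | ⟨a, _ | ⟨b, l⟩⟩
  · simp at hh
  · simp [zP, mpol, pol]
  · have h0 : ∀ m : ℕ, pol (fit m (0 : F) []) = 0 := by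
      intro m
      rw [pol_fit m [] (by simp)]; rfl
    simp [zP, mpol, pol, fit, h0]

theorem cost_zP (h : List F) : zP.cost (F := F) () () h ≤ 40 * (h.length + 1) := by
  rcases h with _ | ⟨a, _ | ⟨b, l⟩⟩
  · simp [zP]
  · simp [zP]
  · have := cost_fitP (F := F) (s := []) (a := .fld) (b := .fld) () ()
      (a :: b :: l, ((0 : F), [0, 1]))
    simp [zP] at this ⊢
    omega

end

end Raw

namespace Raw

/-! ### Stages -/

/-- input -/
abbrev In : Ty := .prod Un (.prod (.prod Po Un) (.prod Un (.prod Ma (.prod Ma (.prod Po Ma)))))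
/-- input with `h`, the root and the degree in unary -/
abbrev Ix : Ty := .prod In (.prod Po (.prod Ma Un))

/-- first stage -/
def stA (pN : Pr [] (.prod Un (.prod Un Ma)) Ma) : Pr [] In Ix :=
  .pair .id (.pair (.comp (.comp (.comp (.comp .snd .snd) .snd) .fst) hP)
    (.pair (.comp (.pair .fst (.pair (.comp (.comp .snd .snd) .fst)
        (.comp (.comp (.comp .snd .snd) .snd) .fst))) pN)
      (.comp (.comp (.comp (.comp .snd .snd) .snd) .fst) nP)))

/-- second stage: powers -/
def stB (pQ : Pr [] (.prod (.prod Po (.prod Po Un)) Po) Po) (pT : Pr [] (.prod Po Po) Ma) :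
    Pr [] Ix (.prod Ma Ma) :=
  lt (.comp (.comp .snd .fst) zP)
    (.pair (.comp (.pair .snd (.comp (.comp .fst .snd) .fst)) pT)
      (.comp (.pair (.comp (.pair (.pair .snd (.comp (.comp (.comp .fst .fst) .snd) .fst))
        (.comp (.comp .fst .snd) .fst)) pQ) (.comp (.comp .fst .snd) .fst)) pT))

/-- Horner's rule applied to the result of `q` -/
def stH (pH : Pr [] (.prod Un (.prod Un (.prod Po (.prod Ma Ma)))) Ma) (q : Pr [] Ix Ma) :
    Pr [] Ix Ma :=
  .comp (.pair (.comp .fst .fst) (.pair (.comp (.comp (.comp .fst .snd) .snd) .fst)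
    (.pair (.comp .snd .fst) (.pair (.comp (.comp .snd .snd) .fst) q)))) pH

/-- padded rows of `G` -/
def q0 : Pr [] Ix Ma :=
  .comp (.pair (.comp (.comp (.comp .fst .snd) .snd) .fst)
    (.comp (.comp (.comp (.comp (.comp .fst .snd) .snd) .snd) .snd) .fst)) padP

/-- series with poles -/
def qy (pY : Pr [] (.prod Un (.prod Un (.prod Po Ma))) Ma) (q : Pr [] Ix Ma) : Pr [] Ix Ma :=
  .comp (.pair (.comp (.comp (.comp .fst .snd) .snd) .fst) (.pair (.comp (.comp .snd .snd) .snd)
    (.pair (.comp (.comp (.comp (.comp (.comp (.comp .fst .snd) .snd) .snd) .snd) .snd) .fst)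
      q))) pY

/-- rows of the `g_j` -/
def q1 : Pr [] Ix Ma :=
  .comp (.comp (.comp (.comp (.comp (.comp .fst .snd) .snd) .snd) .snd) .snd) .snd

/-- powers of the `g_j` -/
def q2 (pQ : Pr [] (.prod (.prod Po (.prod Po Un)) Po) Po) (pF : Pr [] (.prod Ma Po) Ma) :
    Pr [] Ix Ma :=
  .comp (.pair (.comp (.comp .fst .snd) .fst) (.pair q1
    (.comp (.pair (.comp (.comp (.comp (.comp .fst .snd) .snd) .snd) .fst)
      (.comp (.comp (.comp (.comp (.comp (.comp .fst .snd) .snd) .snd) .snd) .snd) .fst)) pF)))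
    (zipP (.comp (.pair (.pair (.comp .snd .fst) .fst) (.comp .snd .snd)) pQ))

/-- traces with some entries dropped -/
def stR (pR : Pr [] (.prod Po (.prod Ma (.prod Un Ma))) Ma) {a : Ty} (u : Pr [] (.prod Ix a) Un)
    (E W : Pr [] (.prod Ix a) Ma) : Pr [] (.prod Ix a) Ma :=
  .comp (.pair u (.comp (.pair (.comp (.comp .fst .snd) .fst) (.pair E
    (.pair (.comp (.comp (.comp (.comp .fst .fst) .snd) .snd) .fst) W))) pR)) drP

/-- `n - 1` in unary -/
def un1 {a : Ty} : Pr [] (.prod Ix a) Un := .comp (.comp (.comp (.comp .fst .snd) .snd) .snd) tlP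
/-- `2 n - 1` in unary -/
def un2 {a : Ty} : Pr [] (.prod Ix a) Un :=
  .comp (.comp (.pair (.comp (.comp (.comp .fst .snd) .snd) .snd)
    (.comp (.comp (.comp .fst .snd) .snd) .snd)) appP) tlP

/-- the results -/
abbrev Mid : Ty := .prod (.prod Ma Ma) (.prod Ma (.prod Ma Ma))

/-- last stage -/
def stD (pR : Pr [] (.prod Po (.prod Ma (.prod Un Ma))) Ma) :
    Pr [] (.prod Ix Mid) (.list (.prod (.prod Po Po) (.prod Po Po))) :=
  .comp (.pair
    (.comp (.pair (stR pR un2 (.comp (.comp .snd .fst) .fst) (.comp (.comp .snd .snd) .fst))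
      (stR pR un2 (.comp (.comp .snd .fst) .snd) (.comp (.comp .snd .snd) .fst))) mkP)
    (.comp (.pair (stR pR un1 (.comp (.comp .snd .fst) .fst)
        (.comp (.comp (.comp .snd .snd) .snd) .fst))
      (stR pR un1 (.comp (.comp .snd .fst) .snd) (.comp (.comp (.comp .snd .snd) .snd) .snd)))
      mkP)) mkP

section
variable {F : Type} [Field F] [DecidableEq F]
variable (pN : Pr [] (.prod Un (.prod Un Ma)) Ma)
  (pQ : Pr [] (.prod (.prod Po (.prod Po Un)) Po) Po) (pT : Pr [] (.prod Po Po) Ma)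
  (pH : Pr [] (.prod Un (.prod Un (.prod Po (.prod Ma Ma)))) Ma)
  (pY : Pr [] (.prod Un (.prod Un (.prod Po Ma))) Ma) (pF : Pr [] (.prod Ma Po) Ma)
  (pR : Pr [] (.prod Po (.prod Ma (.prod Un Ma))) Ma)

theorem val_stA (r s : List Unit) (be : List F × List Unit) (S G gs : List (List F))
    (as : List F) :
    (stA pN).val (F := F) () (r, (be, (s, (S, (G, (as, gs)))))) =
      ((r, (be, (s, (S, (G, (as, gs)))))), (hd0 S, (pN.val (F := F) () (r, (s, S)),
        un S.length))) := by
  simp only [stA, val_pair, val_comp, val_id, val_fst, val_snd, val_hP, val_nP]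

theorem cost_stA (r s : List Unit) (be : List F × List Unit) (S G gs : List (List F))
    (as : List F) :
    (stA pN).cost (F := F) () () (r, (be, (s, (S, (G, (as, gs)))))) ≤
      pN.cost (F := F) () () (r, (s, S)) + 100 * (S.length + 1) := by
  have h1 := cost_hP S
  have h2 := cost_nP S
  simp only [stA, cost_pair, cost_comp, cost_id, cost_fst, cost_snd, val_pair, val_comp, val_id,
    val_fst, val_snd]
  omega

theorem val_stB (x : Ty.D F In) (h : List F) (φ : List (List F)) (nn : List Unit) :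
    (stB pQ pT).val (F := F) () (x, (h, (φ, nn))) =
      (pT.val (F := F) () (zP.val (F := F) () h, h),
        pT.val (F := F) () (pQ.val (F := F) () ((zP.val (F := F) () h, x.2.1), h), h)) := by
  simp only [stB, val_lt, val_pair, val_comp, val_id, val_fst, val_snd]

theorem cost_stB (x : Ty.D F In) (h : List F) (φ : List (List F)) (nn : List Unit) :
    (stB pQ pT).cost (F := F) () () (x, (h, (φ, nn))) ≤
      pT.cost (F := F) () () (zP.val (F := F) () h, h) +
      pQ.cost (F := F) () () ((zP.val (F := F) () h, x.2.1), h) +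
      pT.cost (F := F) () ()
        (pQ.val (F := F) () ((zP.val (F := F) () h, x.2.1), h), h) + 80 * (h.length + 1) := by
  have h1 := cost_zP h
  simp only [stB, cost_lt, cost_pair, cost_comp, cost_id, cost_fst, cost_snd, val_pair, val_comp,
    val_id, val_fst, val_snd]
  omega

theorem val_stH (q : Pr [] Ix Ma) (r s : List Unit) (be : List F × List Unit)
    (t : Ty.D F (.prod Ma (.prod Ma (.prod Po Ma))))
    (h : List F) (φ : List (List F)) (nn : List Unit) :
    (stH pH q).val (F := F) () ((r, (be, (s, t))), (h, (φ, nn))) =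
      pH.val (F := F) () (r, (s, (h, (φ, q.val (F := F) () ((r, (be, (s, t))), (h, (φ, nn))))))) := by
  simp only [stH, val_pair, val_comp, val_id, val_fst, val_snd]

theorem cost_stH (q : Pr [] Ix Ma) (r s : List Unit) (be : List F × List Unit)
    (t : Ty.D F (.prod Ma (.prod Ma (.prod Po Ma))))
    (h : List F) (φ : List (List F)) (nn : List Unit) :
    (stH pH q).cost (F := F) () () ((r, (be, (s, t))), (h, (φ, nn))) ≤
      pH.cost (F := F) () ()
        (r, (s, (h, (φ, q.val (F := F) () ((r, (be, (s, t))), (h, (φ, nn))))))) +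
      q.cost (F := F) () () ((r, (be, (s, t))), (h, (φ, nn))) + 30 := by
  simp only [stH, cost_pair, cost_comp, cost_id, cost_fst, cost_snd, val_pair, val_comp,
    val_id, val_fst, val_snd]
  omega

theorem val_q0 (r : List Unit) (s n : ℕ) (be : List F × List Unit) (S G gs : List (List F))
    (as h : List F) (φ : List (List F)) :
    (q0.val (F := F) () ((r, (be, (un s, (S, (G, (as, gs)))))), (h, (φ, un n))) :
      List (List F)) = G.map (fit s 0) := by
  simp only [q0, val_pair, val_comp, val_fst, val_snd]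
  exact val_padP s G

theorem cost_q0 (r : List Unit) (s n : ℕ) (be : List F × List Unit) (S G gs : List (List F))
    (as h : List F) (φ : List (List F)) :
    q0.cost (F := F) () () ((r, (be, (un s, (S, (G, (as, gs)))))), (h, (φ, un n))) ≤
      (20 * s + 30) * (G.length + 1) + 30 := by
  have h1 := cost_padP s G
  simp only [q0, cost_pair, cost_comp, cost_fst, cost_snd, val_pair, val_comp, val_fst, val_snd]
  omega

theorem val_qy (q : Pr [] Ix Ma) (r : List Unit) (s n : ℕ) (be : List F × List Unit)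
    (S G gs : List (List F)) (as h : List F) (φ : List (List F)) :
    (qy pY q).val (F := F) () ((r, (be, (un s, (S, (G, (as, gs)))))), (h, (φ, un n))) =
      pY.val (F := F) () (un s, (un n, (as, q.val (F := F) ()
        ((r, (be, (un s, (S, (G, (as, gs)))))), (h, (φ, un n)))))) := by
  simp only [qy, val_pair, val_comp, val_fst, val_snd]

theorem cost_qy (q : Pr [] Ix Ma) (r : List Unit) (s n : ℕ) (be : List F × List Unit)
    (S G gs : List (List F)) (as h : List F) (φ : List (List F)) :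
    (qy pY q).cost (F := F) () () ((r, (be, (un s, (S, (G, (as, gs)))))), (h, (φ, un n))) ≤
      pY.cost (F := F) () () (un s, (un n, (as, q.val (F := F) ()
        ((r, (be, (un s, (S, (G, (as, gs)))))), (h, (φ, un n)))))) +
      q.cost (F := F) () () ((r, (be, (un s, (S, (G, (as, gs)))))), (h, (φ, un n))) + 30 := by
  simp only [qy, cost_pair, cost_comp, cost_fst, cost_snd, val_pair, val_comp, val_fst, val_snd]
  omega

theorem val_q1 (r : List Unit) (s n : ℕ) (be : List F × List Unit) (S G gs : List (List F))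
    (as h : List F) (φ : List (List F)) :
    (q1.val (F := F) () ((r, (be, (un s, (S, (G, (as, gs)))))), (h, (φ, un n))) :
      List (List F)) = gs := by
  simp only [q1, val_pair, val_comp, val_fst, val_snd]

theorem cost_q1 (x : Ty.D F Ix) : q1.cost (F := F) () () x ≤ 7 := by
  simp only [q1, cost_pair, cost_comp, cost_fst, cost_snd, val_pair, val_comp, val_fst, val_snd]
  omega

theorem val_q2 (r : List Unit) (s n : ℕ) (be : List F × List Unit) (S G gs : List (List F))
    (as h : List F) (φ : List (List F)) :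
    ((q2 pQ pF).val (F := F) () ((r, (be, (un s, (S, (G, (as, gs)))))), (h, (φ, un n))) :
      List (List F)) = List.zipWith (fun g f => pQ.val (F := F) () ((g, be), f)) gs
        (pF.val (F := F) () (S, as) : List (List F)) := by
  simp only [q2, q1, val_pair, val_comp, val_fst, val_snd, val_zipP]

theorem cost_q2 (r : List Unit) (s n : ℕ) (be : List F × List Unit) (S G gs : List (List F))
    (as h : List F) (φ : List (List F)) (B : ℕ)
    (hB : ∀ g ∈ gs, ∀ f ∈ (pF.val (F := F) () (S, as) : List (List F)),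
      pQ.cost (F := F) () () ((g, be), f) ≤ B) :
    (q2 pQ pF).cost (F := F) () () ((r, (be, (un s, (S, (G, (as, gs)))))), (h, (φ, un n))) ≤
      pF.cost (F := F) () () (S, as) + (B + 80) * (gs.length + 1) := by
  have h1 := cost_zipP_le (F := F) (s := []) (c := .prod Po Un) (a := Po) (b := Po) (d := Po)
    (.comp (.pair (.pair (.comp .snd .fst) .fst) (.comp .snd .snd)) pQ) () ()
    (be, (gs, pF.val (F := F) () (S, as))) (B + 10) (by
      intro y hy z hz
      have := hB y hy z hz
      simp only [cost_pair, cost_comp, cost_fst, cost_snd, val_pair, val_comp, val_fst, val_snd]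
      omega)
  simp only [q2, q1, cost_pair, cost_comp, cost_fst, cost_snd, val_pair, val_comp, val_fst,
    val_snd] at h1 ⊢
  nlinarith

theorem val_un1 {a : Ty} (x : Ty.D F In) (h : List F) (φ : List (List F)) (n : ℕ)
    (y : Ty.D F a) : ((un1 : Pr [] (.prod Ix a) Un).val (F := F) () ((x, (h, (φ, un n))), y) :
      List Unit) = un (n - 1) := by
  simp only [un1, val_comp, val_fst, val_snd, val_tlP]

theorem val_un2 {a : Ty} (x : Ty.D F In) (h : List F) (φ : List (List F)) (n : ℕ)
    (y : Ty.D F a) : ((un2 : Pr [] (.prod Ix a) Un).val (F := F) () ((x, (h, (φ, un n))), y) :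
      List Unit) = un (2 * n - 1) := by
  simp only [un2, val_comp, val_pair, val_fst, val_snd, val_appP, app_un, val_tlP, two_mul]

theorem cost_un1 {a : Ty} (x : Ty.D F In) (h : List F) (φ : List (List F)) (n : ℕ)
    (y : Ty.D F a) : (un1 : Pr [] (.prod Ix a) Un).cost (F := F) () ()
      ((x, (h, (φ, un n))), y) ≤ 11 := by
  have := cost_tlP (F := F) n
  simp only [un1, cost_comp, cost_fst, cost_snd, val_comp, val_fst, val_snd]
  omega

theorem cost_un2 {a : Ty} (x : Ty.D F In) (h : List F) (φ : List (List F)) (n : ℕ)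
    (y : Ty.D F a) : (un2 : Pr [] (.prod Ix a) Un).cost (F := F) () ()
      ((x, (h, (φ, un n))), y) ≤ 20 * n + 30 := by
  have h1 := cost_tlP (F := F) (n + n)
  have h2 := cost_appP (F := F) (s := []) (a := .unit) () () (un n, un n)
  simp only [un2, cost_comp, cost_pair, cost_fst, cost_snd, val_pair, val_comp, val_fst, val_snd,
    val_appP, app_un]
  simp only [un, List.length_replicate] at h2
  simp only [un] at h1 ⊢
  omega

theorem val_stR {a : Ty} (u : Pr [] (.prod Ix a) Un) (E W : Pr [] (.prod Ix a) Ma)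
    (r : List Unit) (s : ℕ) (be : List F × List Unit)
    (t : Ty.D F (.prod Ma (.prod Ma (.prod Po Ma))))
    (h : List F) (φ : List (List F)) (nn : List Unit) (y : Ty.D F a) (m : ℕ)
    (hu : u.val (F := F) () (((r, (be, (un s, t))), (h, (φ, nn))), y) = un m) :
    ((stR pR u E W).val (F := F) () (((r, (be, (un s, t))), (h, (φ, nn))), y) :
      List (List F)) = List.map (List.drop m) (pR.val (F := F) () (h,
        (E.val (F := F) () (((r, (be, (un s, t))), (h, (φ, nn))), y), (un s,
          W.val (F := F) () (((r, (be, (un s, t))), (h, (φ, nn))), y)))) : List (List F)) := by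
  simp only [stR, val_pair, val_comp, val_fst, val_snd, hu]
  exact val_drP _ _

theorem cost_stR {a : Ty} (u : Pr [] (.prod Ix a) Un) (E W : Pr [] (.prod Ix a) Ma)
    (r : List Unit) (s : ℕ) (be : List F × List Unit)
    (t : Ty.D F (.prod Ma (.prod Ma (.prod Po Ma))))
    (h : List F) (φ : List (List F)) (nn : List Unit) (y : Ty.D F a) (m : ℕ)
    (hu : u.val (F := F) () (((r, (be, (un s, t))), (h, (φ, nn))), y) = un m) :
    (stR pR u E W).cost (F := F) () () (((r, (be, (un s, t))), (h, (φ, nn))), y) ≤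
      u.cost (F := F) () () (((r, (be, (un s, t))), (h, (φ, nn))), y) +
      E.cost (F := F) () () (((r, (be, (un s, t))), (h, (φ, nn))), y) +
      W.cost (F := F) () () (((r, (be, (un s, t))), (h, (φ, nn))), y) +
      pR.cost (F := F) () () (h,
        (E.val (F := F) () (((r, (be, (un s, t))), (h, (φ, nn))), y), (un s,
          W.val (F := F) () (((r, (be, (un s, t))), (h, (φ, nn))), y)))) +
      (24 * m + 30) * (List.length (pR.val (F := F) () (h,
        (E.val (F := F) () (((r, (be, (un s, t))), (h, (φ, nn))), y), (un s,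
          W.val (F := F) () (((r, (be, (un s, t))), (h, (φ, nn))), y)))) : List (List F)) + 1) +
      40 := by
  have h1 := cost_drP m (pR.val (F := F) () (h,
        (E.val (F := F) () (((r, (be, (un s, t))), (h, (φ, nn))), y), (un s,
          W.val (F := F) () (((r, (be, (un s, t))), (h, (φ, nn))), y)))) : List (List F))
  simp only [stR, cost_pair, cost_comp, cost_fst, cost_snd, val_pair, val_comp, val_fst, val_snd,
    hu]
  omega

/-- traces with the first entries dropped -/
noncomputable def trv (m s : ℕ) (h : List F) (E W : List (List F)) : List (List F) :=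
  List.map (List.drop m) (pR.val (F := F) () (h, (E, (un s, W))) : List (List F))

/-- the result of the last stage -/
noncomputable def outv (n s : ℕ) (h : List F) (E E' W0 W1 W2 : List (List F)) :
    List ((List F × List F) × (List F × List F)) :=
  List.zipWith Prod.mk
    (List.zipWith Prod.mk (trv pR (2 * n - 1) s h E W0) (trv pR (2 * n - 1) s h E' W0))
    (List.zipWith Prod.mk (trv pR (n - 1) s h E W1) (trv pR (n - 1) s h E' W2))

theorem val_stD (r : List Unit) (s n : ℕ) (be : List F × List Unit)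
    (t : Ty.D F (.prod Ma (.prod Ma (.prod Po Ma))))
    (h : List F) (φ : List (List F)) (E E' W0 W1 W2 : List (List F)) :
    ((stD pR).val (F := F) () (((r, (be, (un s, t))), (h, (φ, un n))),
      ((E, E'), (W0, (W1, W2)))) : List ((List F × List F) × (List F × List F))) =
      outv pR n s h E E' W0 W1 W2 := by
  simp only [stD, val_comp, val_pair]
  rw [val_stR pR un2 _ _ r s be t h φ (un n) _ (2 * n - 1) (val_un2 _ _ _ _ _),
    val_stR pR un2 _ _ r s be t h φ (un n) _ (2 * n - 1) (val_un2 _ _ _ _ _),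
    val_stR pR un1 _ _ r s be t h φ (un n) _ (n - 1) (val_un1 _ _ _ _ _),
    val_stR pR un1 _ _ r s be t h φ (un n) _ (n - 1) (val_un1 _ _ _ _ _)]
  simp only [val_comp, val_fst, val_snd, outv, trv]
  refine (val_mkP (a := .prod Po Po) (b := .prod Po Po) _ _).trans ?_
  exact congrArg₂ _ (val_mkP _ _) (val_mkP _ _)

theorem cost_stD (r : List Unit) (s n : ℕ) (be : List F × List Unit)
    (t : Ty.D F (.prod Ma (.prod Ma (.prod Po Ma))))
    (h : List F) (φ : List (List F)) (E E' W0 W1 W2 : List (List F)) (B : ℕ)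
    (h1 : pR.cost (F := F) () () (h, (E, (un s, W0))) ≤ B)
    (h2 : pR.cost (F := F) () () (h, (E', (un s, W0))) ≤ B)
    (h3 : pR.cost (F := F) () () (h, (E, (un s, W1))) ≤ B)
    (h4 : pR.cost (F := F) () () (h, (E', (un s, W2))) ≤ B)
    (l1 : List.length (pR.val (F := F) () (h, (E, (un s, W0))) : List (List F)) = n)
    (l2 : List.length (pR.val (F := F) () (h, (E', (un s, W0))) : List (List F)) = n)
    (l3 : List.length (pR.val (F := F) () (h, (E, (un s, W1))) : List (List F)) = n)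
    (l4 : List.length (pR.val (F := F) () (h, (E', (un s, W2))) : List (List F)) = n) :
    (stD pR).cost (F := F) () () (((r, (be, (un s, t))), (h, (φ, un n))),
      ((E, E'), (W0, (W1, W2)))) ≤ 4 * B + 1000 * (n + 1) ^ 2 := by
  have c1 := cost_stR (a := Mid) pR un2 (.comp (.comp .snd .fst) .fst) (.comp (.comp .snd .snd) .fst) r s be t
    h φ (un n) ((E, E'), (W0, (W1, W2))) (2 * n - 1) (val_un2 _ _ _ _ _)
  have c2 := cost_stR (a := Mid) pR un2 (.comp (.comp .snd .fst) .snd) (.comp (.comp .snd .snd) .fst) r s be t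
    h φ (un n) ((E, E'), (W0, (W1, W2))) (2 * n - 1) (val_un2 _ _ _ _ _)
  have c3 := cost_stR (a := Mid) pR un1 (.comp (.comp .snd .fst) .fst)
    (.comp (.comp (.comp .snd .snd) .snd) .fst) r s be t
    h φ (un n) ((E, E'), (W0, (W1, W2))) (n - 1) (val_un1 _ _ _ _ _)
  have c4 := cost_stR (a := Mid) pR un1 (.comp (.comp .snd .fst) .snd)
    (.comp (.comp (.comp .snd .snd) .snd) .snd) r s be t
    h φ (un n) ((E, E'), (W0, (W1, W2))) (n - 1) (val_un1 _ _ _ _ _)
  have u1 := cost_un1 (F := F) (a := Mid) (r, (be, (un s, t))) h φ n ((E, E'), (W0, (W1, W2)))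
  have u2 := cost_un2 (F := F) (a := Mid) (r, (be, (un s, t))) h φ n ((E, E'), (W0, (W1, W2)))
  simp only [cost_comp, cost_fst, cost_snd, val_comp, val_fst, val_snd] at c1 c2 c3 c4
  rw [l1] at c1
  rw [l2] at c2
  rw [l3] at c3
  rw [l4] at c4
  simp only [stD, cost_comp, cost_pair, val_comp, val_pair, val_mkP]
  rw [val_stR pR un2 _ _ r s be t h φ (un n) _ (2 * n - 1) (val_un2 _ _ _ _ _),
    val_stR pR un2 _ _ r s be t h φ (un n) _ (2 * n - 1) (val_un2 _ _ _ _ _),
    val_stR pR un1 _ _ r s be t h φ (un n) _ (n - 1) (val_un1 _ _ _ _ _),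
    val_stR pR un1 _ _ r s be t h φ (un n) _ (n - 1) (val_un1 _ _ _ _ _)]
  simp only [val_comp, val_fst, val_snd]
  have m1 := cost_mkP (F := F) (a := Po) (b := Po)
    (List.map (List.drop (2 * n - 1)) (pR.val (F := F) () (h, (E, (un s, W0))) : List (List F)))
    (List.map (List.drop (2 * n - 1)) (pR.val (F := F) () (h, (E', (un s, W0))) : List (List F)))
  have m2 := cost_mkP (F := F) (a := Po) (b := Po)
    (List.map (List.drop (n - 1)) (pR.val (F := F) () (h, (E, (un s, W1))) : List (List F)))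
    (List.map (List.drop (n - 1)) (pR.val (F := F) () (h, (E', (un s, W2))) : List (List F)))
  have l5 := congrArg List.length (val_mkP (F := F) (a := Po) (b := Po)
    (List.map (List.drop (2 * n - 1)) (pR.val (F := F) () (h, (E, (un s, W0))) : List (List F)))
    (List.map (List.drop (2 * n - 1)) (pR.val (F := F) () (h, (E', (un s, W0))) : List (List F))))
  have m3 := cost_mkP (F := F) (a := .prod Po Po) (b := .prod Po Po)
    (mkP.val (F := F) ()
      (List.map (List.drop (2 * n - 1)) (pR.val (F := F) () (h, (E, (un s, W0))) : List (List F)),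
      List.map (List.drop (2 * n - 1)) (pR.val (F := F) () (h, (E', (un s, W0))) :
        List (List F))))
    (mkP.val (F := F) ()
      (List.map (List.drop (n - 1)) (pR.val (F := F) () (h, (E, (un s, W1))) : List (List F)),
      List.map (List.drop (n - 1)) (pR.val (F := F) () (h, (E', (un s, W2))) : List (List F))))
  rw [l5] at m3
  simp only [List.length_map, List.length_zipWith, l1, l2, l3, l4, min_self] at m1 m2 m3
  have e1 : (24 * (2 * n - 1) + 30) * (n + 1) ≤ 48 * (n + 1) ^ 2 := by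
    have : 24 * (2 * n - 1) + 30 ≤ 48 * (n + 1) := by omega
    nlinarith
  have e2 : (24 * (n - 1) + 30) * (n + 1) ≤ 48 * (n + 1) ^ 2 := by
    have : 24 * (n - 1) + 30 ≤ 48 * (n + 1) := by omega
    nlinarith
  have e3 : n + 1 ≤ (n + 1) ^ 2 := by nlinarith
  omega

end

end Raw

namespace Raw

/-! ### Arithmetic of the bounds -/

theorem lgc_prod (s n : ℕ) (h : 2 * n ≤ s) : lgc (s * n + 1) ≤ 2 * lgc (s + 1) := by
  unfold lgc
  have h1 : Nat.clog 2 (s * n + 1) ≤ 2 * Nat.clog 2 (s + 1) := by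
    refine Nat.clog_le_of_le_pow ?_
    have h2 : s + 1 ≤ 2 ^ Nat.clog 2 (s + 1) := Nat.le_pow_clog (by norm_num) _
    have h3 : s * n + 1 ≤ (s + 1) * (s + 1) := by nlinarith
    calc s * n + 1 ≤ (s + 1) * (s + 1) := h3
      _ ≤ 2 ^ Nat.clog 2 (s + 1) * 2 ^ Nat.clog 2 (s + 1) := Nat.mul_le_mul h2 h2
      _ = 2 ^ (2 * Nat.clog 2 (s + 1)) := by rw [← pow_add, two_mul]
  omega

theorem ql_le (k s n : ℕ) (h : 2 * n ≤ s) :
    (n + 1) * ql k (s * n) ≤ 2 ^ k * (lgc (s + 1) ^ k * (s + 1) ^ 3) := by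
  unfold ql
  have h1 : lgc (s * n + 1) ^ k ≤ 2 ^ k * lgc (s + 1) ^ k := by
    rw [← mul_pow]; exact Nat.pow_le_pow_left (lgc_prod s n h) k
  have h2 : (n + 1) * (s * n + 1) ≤ (s + 1) ^ 3 := by
    have h3 : s * n + 1 ≤ (s + 1) ^ 2 := by nlinarith
    have h4 : n + 1 ≤ s + 1 := by omega
    calc (n + 1) * (s * n + 1) ≤ (s + 1) * (s + 1) ^ 2 := Nat.mul_le_mul h4 h3
      _ = (s + 1) ^ 3 := by ring
  calc (n + 1) * ((s * n + 1) * lgc (s * n + 1) ^ k)
      = ((n + 1) * (s * n + 1)) * lgc (s * n + 1) ^ k := by ring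
    _ ≤ (s + 1) ^ 3 * (2 ^ k * lgc (s + 1) ^ k) := Nat.mul_le_mul h2 h1
    _ = _ := by ring

theorem ww_le (N : ℕ) : ww N ≤ 5 * N ^ 3 := by
  unfold ww vv
  rcases Nat.eq_zero_or_pos N with rfl | hN
  · simp
  have h1 : 2 ^ Nat.clog 2 N ≤ 2 * N := by
    rcases Nat.lt_or_ge 1 N with h | h
    · have h2 := Nat.pow_pred_clog_lt_self (b := 2) (by norm_num) h
      have h3 : 1 ≤ Nat.clog 2 N := Nat.clog_pos (by norm_num) h
      obtain ⟨m, hm⟩ : ∃ m, Nat.clog 2 N = m + 1 := ⟨Nat.clog 2 N - 1, by omega⟩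
      rw [hm] at h2 ⊢
      simp only [Nat.pred_succ] at h2
      rw [pow_succ]
      have h4 : 2 ^ m < N := by simpa using h2
      omega
    · have : N = 1 := by omega
      subst this; simp
  have h2 : 7 ^ Nat.clog 2 N / 2 ^ Nat.clog 2 N ≤ (2 ^ Nat.clog 2 N) ^ 2 := by
    refine Nat.div_le_of_le_mul ?_
    calc 7 ^ Nat.clog 2 N ≤ 8 ^ Nat.clog 2 N := Nat.pow_le_pow_left (by norm_num) _
      _ = 2 ^ Nat.clog 2 N * (2 ^ Nat.clog 2 N) ^ 2 := by
        rw [← pow_mul, ← pow_add, show (8 : ℕ) = 2 ^ 3 by norm_num, ← pow_mul]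
        congr 1; ring
  have h3 : (2 ^ Nat.clog 2 N) ^ 2 ≤ (2 * N) ^ 2 := Nat.pow_le_pow_left h1 2
  have h4 : 7 ^ Nat.clog 2 N / 2 ^ Nat.clog 2 N + 1 ≤ 5 * N ^ 2 := by
    have : 1 ≤ N ^ 2 := Nat.one_le_pow _ _ hN
    nlinarith
  calc N * (7 ^ Nat.clog 2 N / 2 ^ Nat.clog 2 N + 1) ≤ N * (5 * N ^ 2) :=
        Nat.mul_le_mul le_rfl h4
    _ = 5 * N ^ 3 := by ring

theorem lgc_pos (N : ℕ) : 1 ≤ lgc N := by unfold lgc; omega

/-- the program -/
def prog (pN : Pr [] (.prod Un (.prod Un Ma)) Ma)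
    (pQ : Pr [] (.prod (.prod Po (.prod Po Un)) Po) Po) (pT : Pr [] (.prod Po Po) Ma)
    (pH : Pr [] (.prod Un (.prod Un (.prod Po (.prod Ma Ma)))) Ma)
    (pY : Pr [] (.prod Un (.prod Un (.prod Po Ma))) Ma) (pF : Pr [] (.prod Ma Po) Ma)
    (pR : Pr [] (.prod Po (.prod Ma (.prod Un Ma))) Ma) :
    Pr [] In (.list (.prod (.prod Po Po) (.prod Po Po))) :=
  .comp (stA pN) (.comp (.pair .id (.pair (stB pQ pT) (.pair (stH pH q0)
    (.pair (stH pH (qy pY q1)) (stH pH (qy pY (q2 pQ pF))))))) (stD pR))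

section
variable {F : Type} [Field F] [DecidableEq F]
variable (pN : Pr [] (.prod Un (.prod Un Ma)) Ma)
  (pQ : Pr [] (.prod (.prod Po (.prod Po Un)) Po) Po) (pT : Pr [] (.prod Po Po) Ma)
  (pH : Pr [] (.prod Un (.prod Un (.prod Po (.prod Ma Ma)))) Ma)
  (pY : Pr [] (.prod Un (.prod Un (.prod Po Ma))) Ma) (pF : Pr [] (.prod Ma Po) Ma)
  (pR : Pr [] (.prod Po (.prod Ma (.prod Un Ma))) Ma)

/-- intermediate values -/
structure Vals (r s n : ℕ) (be : List F × List Unit) (S G gs : List (List F)) (as : List F)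
    (h z w : List F) (φ E E' G0 Y1 g2 Y2 W0 W1 W2 : List (List F)) : Prop where
  e_n : S.length = n
  e_h : h = hd0 S
  e_φ : pN.val (F := F) () (un r, (un s, S)) = φ
  e_z : zP.val (F := F) () h = z
  e_w : pQ.val (F := F) () ((z, be), h) = w
  e_E : pT.val (F := F) () (z, h) = E
  e_E' : pT.val (F := F) () (w, h) = E'
  e_G0 : G.map (fit s 0) = G0
  e_Y1 : pY.val (F := F) () (un s, (un n, (as, gs))) = Y1
  e_g2 : List.zipWith (fun g f => pQ.val (F := F) () ((g, be), f)) gs
        (pF.val (F := F) () (S, as) : List (List F)) = g2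
  e_Y2 : pY.val (F := F) () (un s, (un n, (as, g2))) = Y2
  e_W0 : pH.val (F := F) () (un r, (un s, (h, (φ, G0)))) = W0
  e_W1 : pH.val (F := F) () (un r, (un s, (h, (φ, Y1)))) = W1
  e_W2 : pH.val (F := F) () (un r, (un s, (h, (φ, Y2)))) = W2

theorem val_prog (r s n : ℕ) (be : List F × List Unit) (S G gs : List (List F)) (as : List F)
    (h z w : List F) (φ E E' G0 Y1 g2 Y2 W0 W1 W2 : List (List F))
    (H : Vals pN pQ pT pH pY pF r s n be S G gs as h z w φ E E' G0 Y1 g2 Y2 W0 W1 W2) :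
    ((prog pN pQ pT pH pY pF pR).val (F := F) ()
      (un r, (be, (un s, (S, (G, (as, gs)))))) :
        List ((List F × List F) × (List F × List F))) = outv pR n s h E E' W0 W1 W2 := by
  obtain ⟨e_n, e_h, e_φ, e_z, e_w, e_E, e_E', e_G0, e_Y1, e_g2, e_Y2, e_W0, e_W1, e_W2⟩ := H
  simp only [prog, val_comp, val_pair, val_id]
  rw [val_stA, e_n, ← e_h, e_φ, val_stB, e_z, e_E, val_stH, val_stH, val_stH, val_q0, val_qy,
    val_qy, val_q1, val_q2, e_g2, e_Y2, e_W2, e_Y1, e_W1, e_G0, e_W0]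
  have e1 : pQ.val (F := F) () ((z, ((un r, (be, (un s, (S, (G, (as, gs)))))) : Ty.D F In).2.1), h)
      = w := e_w
  rw [e1, e_E']
  exact val_stD pR (un r) s n be (S, (G, (as, gs))) h φ E E' W0 W1 W2

theorem cost_prog (r s n : ℕ) (be : List F × List Unit) (S G gs : List (List F)) (as : List F)
    (h z w : List F) (φ E E' G0 Y1 g2 Y2 W0 W1 W2 : List (List F))
    (H : Vals pN pQ pT pH pY pF r s n be S G gs as h z w φ E E' G0 Y1 g2 Y2 W0 W1 W2)
    (lh : h.length = n) (lG : G.length = n) (lg : gs.length = n)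
    (bN bT bQ bQ' bH bY bF bR : ℕ)
    (h1 : pN.cost (F := F) () () (un r, (un s, S)) ≤ bN)
    (h2 : pT.cost (F := F) () () (z, h) ≤ bT)
    (h3 : pT.cost (F := F) () () (w, h) ≤ bT)
    (h4 : pQ.cost (F := F) () () ((z, be), h) ≤ bQ)
    (h5 : ∀ g ∈ gs, ∀ f ∈ (pF.val (F := F) () (S, as) : List (List F)),
      pQ.cost (F := F) () () ((g, be), f) ≤ bQ')
    (h6 : pH.cost (F := F) () () (un r, (un s, (h, (φ, G0)))) ≤ bH)
    (h7 : pH.cost (F := F) () () (un r, (un s, (h, (φ, Y1)))) ≤ bH)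
    (h8 : pH.cost (F := F) () () (un r, (un s, (h, (φ, Y2)))) ≤ bH)
    (h9 : pY.cost (F := F) () () (un s, (un n, (as, gs))) ≤ bY)
    (h10 : pY.cost (F := F) () () (un s, (un n, (as, g2))) ≤ bY)
    (h11 : pF.cost (F := F) () () (S, as) ≤ bF)
    (h12 : pR.cost (F := F) () () (h, (E, (un s, W0))) ≤ bR)
    (h13 : pR.cost (F := F) () () (h, (E', (un s, W0))) ≤ bR)
    (h14 : pR.cost (F := F) () () (h, (E, (un s, W1))) ≤ bR)
    (h15 : pR.cost (F := F) () () (h, (E', (un s, W2))) ≤ bR)
    (l1 : List.length (pR.val (F := F) () (h, (E, (un s, W0))) : List (List F)) = n)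
    (l2 : List.length (pR.val (F := F) () (h, (E', (un s, W0))) : List (List F)) = n)
    (l3 : List.length (pR.val (F := F) () (h, (E, (un s, W1))) : List (List F)) = n)
    (l4 : List.length (pR.val (F := F) () (h, (E', (un s, W2))) : List (List F)) = n) :
    (prog pN pQ pT pH pY pF pR).cost (F := F) () ()
      (un r, (be, (un s, (S, (G, (as, gs)))))) ≤
      bN + 2 * bT + bQ + (n + 1) * bQ' + 3 * bH + 2 * bY + bF + 4 * bR +
      2000 * ((s + 1) * (n + 1) + (n + 1) ^ 2) := by
  obtain ⟨e_n, e_h, e_φ, e_z, e_w, e_E, e_E', e_G0, e_Y1, e_g2, e_Y2, e_W0, e_W1, e_W2⟩ := H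
  have cA := cost_stA pN (un r) (un s) be S G gs as
  have cB := cost_stB pQ pT (un r, (be, (un s, (S, (G, (as, gs)))))) h φ (un n)
  have c0 := cost_stH pH q0 (un r) (un s) be (S, (G, (as, gs))) h φ (un n)
  have c1 := cost_stH pH (qy pY q1) (un r) (un s) be (S, (G, (as, gs))) h φ (un n)
  have c2 := cost_stH pH (qy pY (q2 pQ pF)) (un r) (un s) be (S, (G, (as, gs))) h φ (un n)
  have d0 := cost_q0 (un r) s n be S G gs as h φ
  have d1 := cost_qy pY q1 (un r) s n be S G gs as h φ
  have d1' := cost_q1 (F := F) ((un r, (be, (un s, (S, (G, (as, gs)))))), (h, (φ, un n)))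
  have d2 := cost_qy pY (q2 pQ pF) (un r) s n be S G gs as h φ
  have d2' := cost_q2 pQ pF (un r) s n be S G gs as h φ bQ' h5
  have cD := cost_stD pR (un r) s n be (S, (G, (as, gs))) h φ E E' W0 W1 W2 bR h12 h13 h14 h15
    l1 l2 l3 l4
  have e1 : pQ.val (F := F) () ((z, ((un r, (be, (un s, (S, (G, (as, gs)))))) : Ty.D F In).2.1), h)
      = w := e_w
  rw [e_z] at cB
  rw [e1] at cB
  rw [val_q0, e_G0] at c0
  rw [val_qy, val_q1, e_Y1] at c1
  rw [val_qy, val_q2, e_g2, e_Y2] at c2
  rw [val_q1] at d1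
  rw [val_q2, e_g2] at d2
  simp only [prog, cost_comp, cost_pair, cost_id, val_pair, val_comp, val_id]
  rw [val_stA, e_n, ← e_h, e_φ, val_stB, e_z, e_E, val_stH, val_stH, val_stH, val_q0, val_qy,
    val_qy, val_q1, val_q2, e_g2, e_Y2, e_W2, e_Y1, e_W1, e_G0, e_W0]
  rw [e1, e_E']
  simp only at cB c0 c1 c2 cD d0 d1 d1' d2 d2'
  have f1 : (20 * s + 30) * (G.length + 1) ≤ 30 * ((s + 1) * (n + 1)) := by
    rw [lG]
    have : 20 * s + 30 ≤ 30 * (s + 1) := by omega
    calc (20 * s + 30) * (n + 1) ≤ (30 * (s + 1)) * (n + 1) := Nat.mul_le_mul this le_rfl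
      _ = _ := by ring
  have f2 : (bQ' + 80) * (gs.length + 1) = (n + 1) * bQ' + 80 * (n + 1) := by
    rw [lg]; ring
  have f3 : n + 1 ≤ (n + 1) ^ 2 := by nlinarith
  rw [f2] at d2'
  rw [e_n] at cA
  rw [lh] at cB
  omega

end

end Raw

namespace Raw

section
variable {F : Type} [Field F] [DecidableEq F]

theorem Sh_rows {m n : ℕ} (g : Fin m → Fin n → F) : Sh n (rows g) := by
  intro r hr
  simp only [rows, List.mem_ofFn] at hr
  obtain ⟨i, rfl⟩ := hr
  simp

theorem length_rows {m n : ℕ} (g : Fin m → Fin n → F) : (rows g).length = m := by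
  simp [rows]

theorem Sh_fit (s : ℕ) (G : List (List F)) : Sh s (G.map (fit s 0)) := by
  intro r hr
  simp only [List.mem_map] at hr
  obtain ⟨x, -, rfl⟩ := hr
  simp

theorem Sh_ysL (s n : ℕ) (as : List F) (gs : List (List F)) : Sh s (ysL s n as gs) := by
  intro r hr
  simp only [ysL, List.mem_map] at hr
  obtain ⟨x, -, rfl⟩ := hr
  simp

theorem length_ysL (s n : ℕ) (as : List F) (gs : List (List F)) :
    (ysL s n as gs).length = n := by
  simp [ysL]

theorem hd0_length (S : List (List F)) : (hd0 S).length = S.length := by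
  simp [hd0]

variable (pR : Pr [] (.prod Po (.prod Ma (.prod Un Ma))) Ma)

theorem outv_length (n s : ℕ) (h : List F) (E E' W0 W1 W2 : List (List F))
    (l1 : List.length (pR.val (F := F) () (h, (E, (un s, W0))) : List (List F)) = n)
    (l2 : List.length (pR.val (F := F) () (h, (E', (un s, W0))) : List (List F)) = n)
    (l3 : List.length (pR.val (F := F) () (h, (E, (un s, W1))) : List (List F)) = n)
    (l4 : List.length (pR.val (F := F) () (h, (E', (un s, W2))) : List (List F)) = n) :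
    (outv pR n s h E E' W0 W1 W2).length = n := by
  simp [outv, trv, l1, l2, l3, l4]

theorem outv_getElem (n s : ℕ) (h : List F) (E E' W0 W1 W2 : List (List F))
    (l1 : List.length (pR.val (F := F) () (h, (E, (un s, W0))) : List (List F)) = n)
    (l2 : List.length (pR.val (F := F) () (h, (E', (un s, W0))) : List (List F)) = n)
    (l3 : List.length (pR.val (F := F) () (h, (E, (un s, W1))) : List (List F)) = n)
    (l4 : List.length (pR.val (F := F) () (h, (E', (un s, W2))) : List (List F)) = n)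
    (j : ℕ) (hj : j < n) (hj' : j < (outv pR n s h E E' W0 W1 W2).length) :
    (outv pR n s h E E' W0 W1 W2)[j] =
      ((((pR.val (F := F) () (h, (E, (un s, W0))) : List (List F)).getD j []).drop (2 * n - 1),
        ((pR.val (F := F) () (h, (E', (un s, W0))) : List (List F)).getD j []).drop (2 * n - 1)),
      (((pR.val (F := F) () (h, (E, (un s, W1))) : List (List F)).getD j []).drop (n - 1),
        ((pR.val (F := F) () (h, (E', (un s, W2))) : List (List F)).getD j []).drop (n - 1))) := by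
  simp only [outv, trv, List.getElem_zipWith, List.getElem_map]
  rw [List.getD_eq_getElem _ _ (by omega), List.getD_eq_getElem _ _ (by omega),
    List.getD_eq_getElem _ _ (by omega), List.getD_eq_getElem _ _ (by omega)]

omit [DecidableEq F] in
theorem drop_getD (l : List F) (a m : ℕ) : (l.drop a).getD m 0 = l.getD (a + m) 0 := by
  simp [List.getD_eq_getElem?_getD]

end

theorem isRaw_of {F k : Type} [Field F] [Field k] [Algebra F k] {n s Q : ℕ}
    (S φ : List (List F)) (ψ : Fin n → PowerSeries k) (G : Fin n → Fin n → F) (a : Fin n → F)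
    (g : Fin n → Fin n → F) (z w : List F) (E E' W0 W1 W2 M0 M1 M2 M3 : List (List F))
    (hn : 1 ≤ n) (hs : 2 * n ≤ s)
    (hRts : Rts (bcp k (mbiv S)) ψ)
    (φ3 : IsCoprime (mpol (hd0 S)) (derivative (mpol (hd0 S))) →
      ∀ (R : Type) [CommRing R] [Algebra F R] (τ ζ : R), τ ^ s = 0 →
      aeval ζ (mpol (hd0 S)) = 0 →
      (mrp τ S).eval (av τ ζ φ) = 0 ∧ ∃ ρ : R, av τ ζ φ = ζ + τ * ρ)
    (z2 : mpol (hd0 S) ∣ X - pol z) (w2 : mpol (hd0 S) ∣ pol z ^ Q - pol w)
    (E3 : ∀ j < n, mpol (hd0 S) ∣ pol z ^ j - pol (E.getD j []))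
    (E3' : ∀ j < n, mpol (hd0 S) ∣ pol w ^ j - pol (E'.getD j []))
    (A3 : ∀ (R : Type) [CommRing R] [Algebra F R] (τ ζ : R), τ ^ s = 0 →
      aeval ζ (mpol (hd0 S)) = 0 →
      av τ ζ W0 = (rp τ ((rows G).map (fit s 0))).eval (av τ ζ φ))
    (B3 : ∀ (R : Type) [CommRing R] [Algebra F R] (τ ζ : R), τ ^ s = 0 →
      aeval ζ (mpol (hd0 S)) = 0 →
      av τ ζ W1 = (rp τ (ysL s n (List.ofFn a) (rows g))).eval (av τ ζ φ))
    (D3 : ∀ (R : Type) [CommRing R] [Algebra F R] (τ ζ : R), τ ^ s = 0 →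
      aeval ζ (mpol (hd0 S)) = 0 →
      av τ ζ W2 = (rp τ (ysL s n (List.ofFn a)
        (rows (fun j => gq (mbiv S) Q (a j) (g j))))).eval (av τ ζ φ))
    (j : ℕ) (hj : j < n)
    (r0 : (M0.getD j []).length = s) (r1 : (M1.getD j []).length = s)
    (r2 : (M2.getD j []).length = s) (r3 : (M3.getD j []).length = s)
    (P1 : ∀ κ < s, algebraMap F k ((M0.getD j []).getD κ 0) =
      ∑ i, aeval (PowerSeries.constantCoeff (ψ i)) (pol (E.getD j [])) *
        aeval (PowerSeries.constantCoeff (ψ i)) (pol (W0.map (fun r => r.getD κ 0))))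
    (P2 : ∀ κ < s, algebraMap F k ((M1.getD j []).getD κ 0) =
      ∑ i, aeval (PowerSeries.constantCoeff (ψ i)) (pol (E'.getD j [])) *
        aeval (PowerSeries.constantCoeff (ψ i)) (pol (W0.map (fun r => r.getD κ 0))))
    (P3 : ∀ κ < s, algebraMap F k ((M2.getD j []).getD κ 0) =
      ∑ i, aeval (PowerSeries.constantCoeff (ψ i)) (pol (E.getD j [])) *
        aeval (PowerSeries.constantCoeff (ψ i)) (pol (W1.map (fun r => r.getD κ 0))))
    (P4 : ∀ κ < s, algebraMap F k ((M3.getD j []).getD κ 0) =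
      ∑ i, aeval (PowerSeries.constantCoeff (ψ i)) (pol (E'.getD j [])) *
        aeval (PowerSeries.constantCoeff (ψ i)) (pol (W2.map (fun r => r.getD κ 0)))) :
    IsRaw s Q (bcp k (mbiv S)) ψ (fun i j => algebraMap F k (G i j))
      (fun j => algebraMap F k (a j)) (fun j i => algebraMap F k (g j i)) j
      (((M0.getD j []).drop (2 * n - 1), (M1.getD j []).drop (2 * n - 1)),
        ((M2.getD j []).drop (n - 1), (M3.getD j []).drop (n - 1))) := by
  have hs1 : 1 ≤ s := by omega
  have hns : n ≤ s := by omega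
  have hz : ∀ i, aeval (PowerSeries.constantCoeff (ψ i)) (pol z) =
      PowerSeries.constantCoeff (ψ i) := by
    intro i
    obtain ⟨t, ht⟩ := z2
    have := congrArg (aeval (PowerSeries.constantCoeff (ψ i))) ht
    rw [map_sub, map_mul, aeval_h_eq_zero S ψ hRts i, zero_mul, sub_eq_zero, aeval_X] at this
    exact this.symm
  have hw : ∀ i, aeval (PowerSeries.constantCoeff (ψ i)) (pol w) =
      PowerSeries.constantCoeff (ψ i) ^ Q := fun i =>
    pow_root _ _ _ (aeval_h_eq_zero S ψ hRts i) (hz i) w2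
  have hE : ∀ i, aeval (PowerSeries.constantCoeff (ψ i)) (pol (E.getD j [])) =
      PowerSeries.constantCoeff (ψ i) ^ j := fun i =>
    pow_root _ _ _ (aeval_h_eq_zero S ψ hRts i) (hz i) (E3 j hj)
  have hE' : ∀ i, aeval (PowerSeries.constantCoeff (ψ i)) (pol (E'.getD j [])) =
      PowerSeries.constantCoeff (ψ i) ^ (j * Q) := fun i => by
    rw [pow_root _ _ _ (aeval_h_eq_zero S ψ hRts i) (hw i) (E3' j hj), ← pow_mul, mul_comm]
  have vG : ∀ κ < s, ∀ i, PowerSeries.coeff κ (ev (ψ i)
      (bpol (fun i j => algebraMap F k (G i j)))) = aeval (PowerSeries.constantCoeff (ψ i))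
        (pol (W0.map (fun r => r.getD κ 0))) := fun κ hκ i =>
    coeff_value hs1 S φ ψ hRts φ3 W0 _ A3 _ i
      (fun κ _ => by rw [val_G hns G (ψ i)]) κ hκ
  have vY : ∀ κ < s, ∀ i, PowerSeries.coeff κ (yv (ψ i) (fun j => algebraMap F k (a j))
      (fun j i => algebraMap F k (g j i))) = aeval (PowerSeries.constantCoeff (ψ i))
        (pol (W1.map (fun r => r.getD κ 0))) := fun κ hκ i =>
    coeff_value hs1 S φ ψ hRts φ3 W1 _ B3 _ i (fun κ hκ => val_Y a g (ψ i) κ hκ) κ hκ
  have vZ : ∀ κ < s, ∀ i, PowerSeries.coeff κ (yv (ψ i) (fun j => algebraMap F k (a j))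
      (fun j => gq (bcp k (mbiv S)) Q (algebraMap F k (a j))
        (fun i => algebraMap F k (g j i)))) = aeval (PowerSeries.constantCoeff (ψ i))
        (pol (W2.map (fun r => r.getD κ 0))) := fun κ hκ i => by
    simp only [gq_map Q (mbiv S) (mbiv_monic S)]
    exact coeff_value hs1 S φ ψ hRts φ3 W2 _ D3 _ i
      (fun κ hκ => val_Y a (fun j => gq (mbiv S) Q (a j) (g j)) (ψ i) κ hκ) κ hκ
  refine ⟨?_, ?_, ?_, ?_, ?_, ?_, ?_, ?_⟩
  · simp only [List.length_drop]
    rw [r0]; rfl
  · simp only [List.length_drop]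
    rw [r1]; rfl
  · simp only [List.length_drop]
    rw [r2]; rfl
  · simp only [List.length_drop]
    rw [r3]; rfl
  · intro m hm
    have hκ : 2 * n - 1 + m < s := by unfold n0 at hm; omega
    simp only [drop_getD]
    rw [P1 _ hκ]
    refine Finset.sum_congr rfl fun i _ => ?_
    rw [hE, vG _ hκ]
  · intro m hm
    have hκ : 2 * n - 1 + m < s := by unfold n0 at hm; omega
    simp only [drop_getD]
    rw [P2 _ hκ]
    refine Finset.sum_congr rfl fun i _ => ?_
    rw [hE', vG _ hκ]
  · intro m hm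
    have hκ : n - 1 + m < s := by unfold n1 at hm; omega
    simp only [drop_getD]
    rw [P3 _ hκ]
    refine Finset.sum_congr rfl fun i _ => ?_
    rw [hE, vY _ hκ]
  · intro m hm
    have hκ : n - 1 + m < s := by unfold n1 at hm; omega
    simp only [drop_getD]
    rw [P4 _ hκ]
    refine Finset.sum_congr rfl fun i _ => ?_
    rw [hE', vZ _ hκ]

theorem final_num (CN CT CQ CH CY CF CR kN kH n s A : ℕ) (hs : 2 * n ≤ s) (A1 : 1 ≤ A) :
    CN * ((n + 1) * ql kN (s * n) + ww (n + 1)) + 2 * (CT * (n + 1) ^ 3) +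
      CQ * (A * (n + 1) ^ 2) + (n + 1) * (CQ * (A * (n + 1) ^ 2)) +
      3 * (CH * ((n + 1) * ql kH (s * n))) + 2 * (CY * (n + s + n + 1) ^ 3) +
      CF * ww (n + s + n + 1) + 4 * (CR * (n + s + n + 1) ^ 3) +
      2000 * ((s + 1) * (n + 1) + (n + 1) ^ 2) ≤
    (CN * (2 ^ kN + 5) + 2 * CT + CQ + CQ + 3 * (CH * 2 ^ kH) +
      2 * (CY * 27) + CF * 135 + 4 * (CR * 27) + 4000) *
      (A * lgc (s + 1) ^ (kH + kN) * (s + 1) ^ 3) := by
  set L := lgc (s + 1) with hL
  have L1 : 1 ≤ L := lgc_pos _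
  obtain ⟨P, hP⟩ : ∃ P, P = (s + 1) ^ 3 := ⟨_, rfl⟩
  obtain ⟨T, hT'⟩ : ∃ T, T = A * L ^ (kH + kN) * P := ⟨_, rfl⟩
  have LH : L ^ kH ≤ L ^ (kH + kN) := Nat.pow_le_pow_right L1 (by omega)
  have LN : L ^ kN ≤ L ^ (kH + kN) := Nat.pow_le_pow_right L1 (by omega)
  have LL : 1 ≤ L ^ (kH + kN) := Nat.one_le_pow _ _ L1
  have tP : P ≤ T := by
    rw [hT']
    calc P = 1 * 1 * P := by ring
      _ ≤ A * L ^ (kH + kN) * P := Nat.mul_le_mul (Nat.mul_le_mul A1 LL) le_rfl
  have tA : A * P ≤ T := by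
    rw [hT']
    calc A * P = A * 1 * P := by ring
      _ ≤ A * L ^ (kH + kN) * P := Nat.mul_le_mul (Nat.mul_le_mul le_rfl LL) le_rfl
  have tH : L ^ kH * P ≤ T := by
    rw [hT']
    calc L ^ kH * P = 1 * L ^ kH * P := by ring
      _ ≤ A * L ^ (kH + kN) * P := Nat.mul_le_mul (Nat.mul_le_mul A1 LH) le_rfl
  have tN : L ^ kN * P ≤ T := by
    rw [hT']
    calc L ^ kN * P = 1 * L ^ kN * P := by ring
      _ ≤ A * L ^ (kH + kN) * P := Nat.mul_le_mul (Nat.mul_le_mul A1 LN) le_rfl
  rw [← hP, ← hT']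
  have nP : (n + 1) ^ 3 ≤ P := by rw [hP]; exact Nat.pow_le_pow_left (by omega) 3
  have u1 : CN * ((n + 1) * ql kN (s * n) + ww (n + 1)) ≤ CN * (2 ^ kN + 5) * T := by
    have v1 := ql_le kN s n hs
    rw [← hP] at v1
    have v2 := ww_le (n + 1)
    have v3 : (n + 1) * ql kN (s * n) ≤ 2 ^ kN * T :=
      v1.trans (Nat.mul_le_mul le_rfl tN)
    have v4 : ww (n + 1) ≤ 5 * T :=
      v2.trans (Nat.mul_le_mul le_rfl (nP.trans tP))
    calc CN * ((n + 1) * ql kN (s * n) + ww (n + 1)) ≤ CN * (2 ^ kN * T + 5 * T) :=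
          Nat.mul_le_mul le_rfl (Nat.add_le_add v3 v4)
      _ = _ := by ring
  have u2 : CT * (n + 1) ^ 3 ≤ CT * T := Nat.mul_le_mul le_rfl (nP.trans tP)
  have u3 : CQ * (A * (n + 1) ^ 2) ≤ CQ * T := by
    refine Nat.mul_le_mul le_rfl (le_trans ?_ tA)
    refine Nat.mul_le_mul le_rfl (le_trans ?_ nP)
    exact Nat.pow_le_pow_right (by omega) (by norm_num)
  have u4 : (n + 1) * (CQ * (A * (n + 1) ^ 2)) ≤ CQ * T := by
    calc (n + 1) * (CQ * (A * (n + 1) ^ 2)) = CQ * (A * (n + 1) ^ 3) := by ring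
      _ ≤ CQ * T := Nat.mul_le_mul le_rfl ((Nat.mul_le_mul le_rfl nP).trans tA)
  have u5 : CH * ((n + 1) * ql kH (s * n)) ≤ CH * 2 ^ kH * T := by
    have v1 := ql_le kH s n hs
    rw [← hP] at v1
    calc CH * ((n + 1) * ql kH (s * n)) ≤ CH * (2 ^ kH * T) :=
          Nat.mul_le_mul le_rfl (v1.trans (Nat.mul_le_mul le_rfl tH))
      _ = _ := by ring
  have s3 : (n + s + n + 1) ^ 3 ≤ 27 * T := by
    have v1 : (n + s + n + 1) ^ 3 ≤ (3 * (s + 1)) ^ 3 := Nat.pow_le_pow_left (by omega) 3
    have v2 : (3 * (s + 1)) ^ 3 = 27 * P := by rw [hP]; ring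
    rw [v2] at v1
    exact v1.trans (Nat.mul_le_mul le_rfl tP)
  have u6 : CY * (n + s + n + 1) ^ 3 ≤ CY * 27 * T := by
    calc CY * (n + s + n + 1) ^ 3 ≤ CY * (27 * T) := Nat.mul_le_mul le_rfl s3
      _ = _ := by ring
  have u7 : CF * ww (n + s + n + 1) ≤ CF * 135 * T := by
    have v2 := ww_le (n + s + n + 1)
    have v3 : ww (n + s + n + 1) ≤ 5 * (27 * T) := v2.trans (Nat.mul_le_mul le_rfl s3)
    calc CF * ww (n + s + n + 1) ≤ CF * (5 * (27 * T)) := Nat.mul_le_mul le_rfl v3
      _ = _ := by ring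
  have u8 : CR * (n + s + n + 1) ^ 3 ≤ CR * 27 * T := by
    calc CR * (n + s + n + 1) ^ 3 ≤ CR * (27 * T) := Nat.mul_le_mul le_rfl s3
      _ = _ := by ring
  have u9 : 2000 * ((s + 1) * (n + 1) + (n + 1) ^ 2) ≤ 4000 * T := by
    have v1 : (s + 1) * (n + 1) ≤ P := by
      calc (s + 1) * (n + 1) ≤ (s + 1) * (s + 1) ^ 2 := by
            refine Nat.mul_le_mul le_rfl ?_
            nlinarith
        _ = P := by rw [hP]; ring
    have v2 : (n + 1) ^ 2 ≤ P := le_trans (Nat.pow_le_pow_right (by omega) (by norm_num)) nP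
    have v3 := v1.trans tP
    have v4 := v2.trans tP
    omega
  have fin : (CN * (2 ^ kN + 5) + 2 * CT + CQ + CQ + 3 * (CH * 2 ^ kH) +
    2 * (CY * 27) + CF * 135 + 4 * (CR * 27) + 4000) * T = CN * (2 ^ kN + 5) * T +
      2 * (CT * T) + CQ * T + CQ * T + 3 * (CH * 2 ^ kH * T) + 2 * (CY * 27 * T) +
      CF * 135 * T + 4 * (CR * 27 * T) + 4000 * T := by ring
  rw [fin]
  exact Nat.add_le_add (Nat.add_le_add (Nat.add_le_add (Nat.add_le_add (Nat.add_le_add
    (Nat.add_le_add (Nat.add_le_add (Nat.add_le_add u1 (Nat.mul_le_mul le_rfl u2)) u3) u4)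
    (Nat.mul_le_mul le_rfl u5)) (Nat.mul_le_mul le_rfl u6)) u7)
    (Nat.mul_le_mul le_rfl u8)) u9

end Raw

open Raw

/-- TARGET -/
theorem specRaw (h1 : SpecHorn) (h2 : SpecNewt) (h3 : SpecTr) (h4 : SpecPN) (h5 : SpecPT) (h6 : SpecYs) (h7 : SpecFib)
    (h0 : SpecUnits) : SpecRaw := by
  obtain ⟨pH, CH, kH, hH⟩ := h1
  obtain ⟨pN, CN, kN, hN⟩ := h2
  obtain ⟨pR, CR, hR⟩ := h3
  obtain ⟨pQ, CQ, hQ⟩ := h4
  obtain ⟨pT, CT, hT⟩ := h5
  obtain ⟨pY, CY, hY⟩ := h6
  obtain ⟨pF, CF, hF⟩ := h7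
  refine ⟨prog pN pQ pT pH pY pF pR, CN * (2 ^ kN + 5) + 2 * CT + CQ + CQ + 3 * (CH * 2 ^ kH) +
    2 * (CY * 27) + CF * 135 + 4 * (CR * 27) + 4000, kH + kN, ?_⟩
  intro F _ _ r q e s n S G a g hr hr0 hn hS hs hSh
  have hs1 : 1 ≤ s := by omega
  have lh : (hd0 S).length = n := by rw [hd0_length, hS]
  have lh1 : 1 ≤ (hd0 S).length := by rw [lh]; exact hn
  have lS1 : 1 ≤ S.length := by rw [hS]; exact hn
  -- the root
  obtain ⟨φ1, φ2, φ3, φ4⟩ := hN F r s S hr hr0 hs1 lS1 hSh
  obtain ⟨φ, e_φ⟩ : ∃ φ : List (List F), pN.val (F := F) () (un r, (un s, S)) = φ := ⟨_, rfl⟩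
  rw [e_φ] at φ1 φ2 φ3
  rw [hS] at φ2
  -- the element z
  obtain ⟨z1, z2⟩ := val_zP (F := F) (hd0 S) lh1
  obtain ⟨z, e_z⟩ : ∃ z : List F, zP.val (F := F) () (hd0 S) = z := ⟨_, rfl⟩
  rw [e_z] at z1 z2
  rw [lh] at z1
  -- its power
  obtain ⟨w1, w2, w3⟩ := hQ F z (hd0 S) q e (z1.trans lh.symm) lh1
  obtain ⟨w, e_w⟩ : ∃ w : List F, pQ.val (F := F) () ((z, (bits F q, un e)), hd0 S) = w :=
    ⟨_, rfl⟩
  rw [e_w] at w1 w2
  rw [lh] at w1
  -- the tables of powers
  obtain ⟨E1, E2, E3, E4⟩ := hT F z (hd0 S) n z1 lh hn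
  obtain ⟨E, e_E⟩ : ∃ E : List (List F), pT.val (F := F) () (z, hd0 S) = E := ⟨_, rfl⟩
  rw [e_E] at E1 E2 E3
  obtain ⟨E1', E2', E3', E4'⟩ := hT F w (hd0 S) n w1 lh hn
  obtain ⟨E', e_E'⟩ : ∃ E : List (List F), pT.val (F := F) () (w, hd0 S) = E := ⟨_, rfl⟩
  rw [e_E'] at E1' E2' E3'
  -- the test series
  obtain ⟨Y1, Y2⟩ := hY F s n (List.ofFn a) (rows g) (Sh_rows g) (by simp [length_rows])
  change (pY.val (F := F) () (un s, (un n, (List.ofFn a, rows g))) : List (List F)) =
    ysL s n (List.ofFn a) (rows g) at Y1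
  -- fibres
  obtain ⟨F1, F2⟩ := hF F s S (List.ofFn a) hSh
  have hfib : ∀ f ∈ (pF.val (F := F) () (S, List.ofFn a) : List (List F)), f.length = n := by
    intro f hf
    rw [F1] at hf
    simp only [List.mem_map] at hf
    obtain ⟨x, -, rfl⟩ := hf
    simp [hS]
  have e_g2 : List.zipWith (fun g f => pQ.val (F := F) () ((g, (bits F q, un e)), f)) (rows g)
        (pF.val (F := F) () (S, List.ofFn a) : List (List F)) =
      rows (fun j => gq (mbiv S) (q ^ e) (a j) (g j)) := by
    rw [F1]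
    refine List.ext_getElem (by simp [rows]) fun m m1 m2 => ?_
    simp only [rows, List.getElem_zipWith, List.getElem_map, List.getElem_ofFn]
    obtain ⟨r1, r2, -⟩ := hQ F (List.ofFn (g ⟨m, by simpa [rows] using m2⟩))
      (List.map (fun r => (pol r).eval (a ⟨m, by simpa [rows] using m2⟩)) S) q e
      (by simp [hS]) (by rw [List.length_map, hS]; exact hn)
    exact rem_list S hS (q ^ e) _ _ _ (by rw [r1]; simp [hS]) r2
  obtain ⟨Z1, Z2⟩ := hY F s n (List.ofFn a) (rows (fun j => gq (mbiv S) (q ^ e) (a j) (g j)))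
    (Sh_rows _) (by simp [length_rows])
  change (pY.val (F := F) () (un s, (un n, (List.ofFn a,
    rows (fun j => gq (mbiv S) (q ^ e) (a j) (g j))))) : List (List F)) =
    ysL s n (List.ofFn a) (rows (fun j => gq (mbiv S) (q ^ e) (a j) (g j))) at Z1
  -- values
  obtain ⟨A1, A2, A3, A4⟩ := hH F r s (hd0 S) φ ((rows G).map (fit s 0)) hr hr0 hs1 lh1 φ1
    (Sh_fit s _) (φ2.trans lh.symm)
  obtain ⟨W0, e_W0⟩ : ∃ W : List (List F), pH.val (F := F) ()
    (un r, (un s, (hd0 S, (φ, (rows G).map (fit s 0))))) = W := ⟨_, rfl⟩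
  rw [e_W0] at A1 A2 A3
  obtain ⟨B1, B2, B3, B4⟩ := hH F r s (hd0 S) φ (ysL s n (List.ofFn a) (rows g)) hr hr0 hs1
    lh1 φ1 (Sh_ysL s n _ _) (φ2.trans lh.symm)
  obtain ⟨W1, e_W1⟩ : ∃ W : List (List F), pH.val (F := F) ()
    (un r, (un s, (hd0 S, (φ, ysL s n (List.ofFn a) (rows g))))) = W := ⟨_, rfl⟩
  rw [e_W1] at B1 B2 B3
  obtain ⟨D1, D2, D3, D4⟩ := hH F r s (hd0 S) φ (ysL s n (List.ofFn a)
    (rows (fun j => gq (mbiv S) (q ^ e) (a j) (g j)))) hr hr0 hs1
    lh1 φ1 (Sh_ysL s n _ _) (φ2.trans lh.symm)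
  obtain ⟨W2, e_W2⟩ : ∃ W : List (List F), pH.val (F := F) ()
    (un r, (un s, (hd0 S, (φ, ysL s n (List.ofFn a)
      (rows (fun j => gq (mbiv S) (q ^ e) (a j) (g j))))))) = W := ⟨_, rfl⟩
  rw [e_W2] at D1 D2 D3
  rw [lh] at A2 B2 D2
  -- traces
  obtain ⟨M1, N1, P1, Q1⟩ := hR F n s (hd0 S) E W0 lh hn E2 A2 A1
  obtain ⟨M2, N2, P2, Q2⟩ := hR F n s (hd0 S) E' W0 lh hn E2' A2 A1
  obtain ⟨M3, N3, P3, Q3⟩ := hR F n s (hd0 S) E W1 lh hn E2 B2 B1
  obtain ⟨M4, N4, P4, Q4⟩ := hR F n s (hd0 S) E' W2 lh hn E2' D2 D1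
  rw [E1] at M1 M3 P1 P3 Q1 Q3
  rw [E1'] at M2 M4 P2 P4 Q2 Q4
  have HV : Vals pN pQ pT pH pY pF r s n (bits F q, un e) S (rows G) (rows g) (List.ofFn a)
      (hd0 S) z w φ E E' ((rows G).map (fit s 0)) (ysL s n (List.ofFn a) (rows g))
      (rows (fun j => gq (mbiv S) (q ^ e) (a j) (g j)))
      (ysL s n (List.ofFn a) (rows (fun j => gq (mbiv S) (q ^ e) (a j) (g j)))) W0 W1 W2 :=
    ⟨hS, rfl, e_φ, e_z, e_w, e_E, e_E', rfl, Y1, e_g2, Z1, e_W0, e_W1, e_W2⟩
  have hval := val_prog pN pQ pT pH pY pF pR r s n (bits F q, un e) S (rows G) (rows g)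
    (List.ofFn a) _ _ _ _ _ _ _ _ _ _ _ _ _ HV
  have hlen := outv_length pR n s (hd0 S) E E' W0 W1 W2 M1 M2 M3 M4
  have hget := outv_getElem pR n s (hd0 S) E E' W0 W1 W2 M1 M2 M3 M4
  -- lengths of the rows
  have row : ∀ (M : List (List F)), M.length = n → Sh s M → ∀ j < n, (M.getD j []).length = s := by
    intro M hM hS' j hj
    rw [List.getD_eq_getElem _ _ (hM.symm ▸ hj)]
    exact hS' _ (List.getElem_mem _)
  intro c
  have hc : c = outv pR n s (hd0 S) E E' W0 W1 W2 := hval
  clear_value c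
  subst hc
  refine ⟨hlen, ?_, ?_, ?_⟩
  · intro k _ _ ψ hRts j hj
    rw [List.getD_eq_getElem _ _ (hlen.symm ▸ hj), hget j hj (hlen.symm ▸ hj)]
    exact isRaw_of S φ ψ G a g z w E E' W0 W1 W2 _ _ _ _ hn hs hRts φ3 z2 w2 E3 E3' A3 B3 D3 j hj
      (row _ M1 N1 j hj) (row _ M2 N2 j hj) (row _ M3 N3 j hj) (row _ M4 N4 j hj)
      (P1 k _ (mpol_h_prod S ψ hRts) j hj) (P2 k _ (mpol_h_prod S ψ hRts) j hj)
      (P3 k _ (mpol_h_prod S ψ hRts) j hj) (P4 k _ (mpol_h_prod S ψ hRts) j hj)
  · intro x hx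
    obtain ⟨j, hj, rfl⟩ := List.getElem_of_mem hx
    have hjn : j < n := hlen ▸ hj
    rw [hget j hjn hj]
    simp only [List.length_drop]
    rw [row _ M1 N1 j hjn, row _ M2 N2 j hjn, row _ M3 N3 j hjn, row _ M4 N4 j hjn]
    exact ⟨rfl, rfl, rfl, rfl⟩
  · -- cost
    rw [hS] at φ4
    rw [lh] at w3 A4 B4 D4
    simp only [List.length_map, length_rows, length_ysL] at A4 B4 D4
    have cQ' : ∀ g' ∈ rows g, ∀ f ∈ (pF.val (F := F) () (S, List.ofFn a) : List (List F)),
        pQ.cost (F := F) () () ((g', (bits F q, un e)), f) ≤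
          CQ * ((e + 1) * lgc q * (n + 1) ^ 2) := by
      intro g' hg' f hf
      have lf := hfib f hf
      have := (hQ F g' f q e (by rw [lf]; exact Sh_rows g g' hg') (by rw [lf]; exact hn)).2.2
      rwa [lf] at this
    simp only [List.length_ofFn] at Y2 Z2 F2
    rw [hS] at F2
    have key := cost_prog pN pQ pT pH pY pF pR r s n (bits F q, un e) S (rows G) (rows g)
      (List.ofFn a) _ _ _ _ _ _ _ _ _ _ _ _ _ HV lh (length_rows G) (length_rows g)
      (CN * ((n + 1) * ql kN (s * n) + ww (n + 1))) (CT * (n + 1) ^ 3)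
      (CQ * ((e + 1) * lgc q * (n + 1) ^ 2)) (CQ * ((e + 1) * lgc q * (n + 1) ^ 2))
      (CH * ((n + 1) * ql kH (s * n))) (CY * (n + s + n + 1) ^ 3)
      (CF * ww (n + s + n + 1)) (CR * (n + s + n + 1) ^ 3)
      φ4 E4 E4' w3 cQ' A4 B4 D4 Y2 Z2 F2 Q1 Q2 Q3 Q4 M1 M2 M3 M4
    refine key.trans ?_
    exact final_num CN CT CQ CH CY CF CR kN kH n s ((e + 1) * lgc q) hs
      (Nat.mul_pos (Nat.succ_pos e) (lgc_pos q))

end Pool.Agent.H330AB.JJ10
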