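import Pool.Agent.H330AB.SpecA2
set_option autoImplicit false
noncomputable section
namespace Pool.Agent.H330AB.JJ11
open Polynomial Pool.Agent.H330FB

namespace J11

section lists
variable {F : Type} [Field F]

omit [Field F] in
theorem map_const_replicate {α : Type} (l : List α) (z : F) :
    List.map (fun _ => z) l = List.replicate l.length z := by
  induction l with
  | nil => rfl
  | cons h t ih => simp [List.replicate_succ]

/-- roots of all entries -/
def rootL (rt : F → F) (e : ℕ) (l : List F) : List F := l.map (rt^[e])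

omit [Field F] in
@[simp] theorem length_rootL (rt : F → F) (e : ℕ) (l : List F) :
    (rootL rt e l).length = l.length := by simp [rootL]

/-- the column attached to a raw column -/
def colF (rt : F → F) (e : ℕ) (c : (List F × List F) × (List F × List F)) : List F :=
  c.1.1 ++ (rootL rt e c.1.2 ++ (c.2.1 ++ rootL rt e c.2.2))

/-- the list of `x b^i` -/
def powL (b x : F) (n : ℕ) : List F := (List.range n).map (fun i => x * b ^ i)

@[simp] theorem length_powL (b x : F) (n : ℕ) : (powL b x n).length = n := by simp [powL]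

/-- identity matrix -/
def eyeL (F : Type) [Field F] : ℕ → List (List F)
  | 0 => []
  | n + 1 => (1 :: List.replicate n 0) :: (eyeL F n).map (fun l => 0 :: l)

@[simp] theorem length_eyeL (n : ℕ) : (eyeL F n).length = n := by
  induction n with
  | zero => rfl
  | succ n ih => simp [eyeL, ih]

theorem eyeL_eq (n : ℕ) : eyeL F n = List.ofFn (fun j : Fin n => uvec F n j) := by
  induction n with
  | zero => rfl
  | succ n ih =>
    rw [List.ofFn_succ, eyeL, ih]
    congr 1
    · simp only [uvec, List.range_succ_eq_map, List.map_cons, List.map_map]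
      congr 1
      symm
      rw [List.eq_replicate_iff]
      simp
    · rw [List.map_ofFn]
      congr 1
      funext j
      simp only [uvec, List.range_succ_eq_map, List.map_cons, List.map_map, Function.comp]
      simp

/-- the part of the column of a place -/
def plL (n s : ℕ) (a : F) : List F := (powL a⁻¹ a⁻¹ s).drop (n - 1)

/-- column of a place -/
def tcF (rt : F → F) (e n s : ℕ) (a : F) : List F :=
  List.replicate (n0 n s) 0 ++ (List.replicate (n0 n s) 0 ++ (plL n s a ++ rootL rt e (plL n s a)))

theorem length_plL (n s : ℕ) (a : F) : (plL n s a).length = n1 n s := by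
  simp [plL, n1]

theorem getD_plL (n s : ℕ) (a : F) (m : ℕ) (hm : m < n1 n s) (hn : n - 1 ≤ s) :
    (plL n s a).getD m 0 = (a⁻¹) ^ (n - 1 + m + 1) := by
  have h1 : n - 1 + m < s := by unfold n1 at hm; omega
  unfold plL powL
  rw [List.getD_eq_getElem?_getD, List.getElem?_drop]
  rw [List.getElem?_eq_getElem (by simpa using h1)]
  simp
  ring

end lists

section progs
variable {F : Type} [Field F] [DecidableEq F]
variable {s : List (Ty × Ty)} {b c : Ty}

/-- iterated root, input `(e, x)` -/
def rtP : Pr RT (.prod Un .fld) .fld :=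
  .comp (.pair .star (.pair .snd .fst)) (foldP (c := .unit) (.comp (.comp .snd .fst) .self))

@[simp] theorem val_rtP (v : SV F RT) (x : Ty.D F (.prod Un .fld)) :
    rtP.val v x = (v.1)^[List.length x.1] x.2 := by
  obtain ⟨u, x⟩ := x
  have : ∀ (l : List Unit) (y : F), List.foldl (fun y (_ : Unit) => v.1 y) y l =
      (v.1)^[l.length] y := by
    intro l
    induction l with
    | nil => simp
    | cons h t ih => intro y; simp [ih]
  simpa [rtP] using this u x

theorem cost_rtP (v : SV F RT) (k : SC F RT) (hk : ∀ y, k.1 y = 1)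
    (x : Ty.D F (.prod Un .fld)) :
    rtP.cost v k x ≤ 31 * List.length x.1 + 19 := by
  obtain ⟨u, x⟩ := x
  have h := cost_foldP_le (F := F) (s := RT) (c := .unit) (b := .fld) (a := .unit)
    (.comp (.comp .snd .fst) .self)
    v k ((), (x, u)) 4 (fun _ => True) trivial (fun _ _ _ _ => trivial)
    (fun _ _ _ _ => by simp [hk])
  simp [rtP] at h ⊢
  omega

/-- roots of all entries, input `(e, l)` -/
def rtsP : Pr RT (.prod Un Po) Po := mapP rtP

@[simp] theorem val_rtsP (v : SV F RT) (x : Ty.D F (.prod Un Po)) :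
    rtsP.val v x = rootL v.1 (List.length x.1) x.2 := by
  simp [rtsP, rootL]

theorem cost_rtsP (v : SV F RT) (k : SC F RT) (hk : ∀ y, k.1 y = 1) (x : Ty.D F (.prod Un Po)) :
    rtsP.cost v k x ≤ (31 * List.length x.1 + 32) * List.length x.2 + 5 := by
  have := cost_mapP_le (F := F) (s := RT) rtP v k x
    (31 * List.length x.1 + 19) (fun y _ => cost_rtP v k hk (x.1, y))
  simpa [rtsP] using this

/-- a raw column -/
abbrev RC : Ty := .prod (.prod Po Po) (.prod Po Po)

/-- the column attached to a raw column; input `(e, raw column)` -/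
def colP : Pr RT (.prod Un RC) Po :=
  ap2 appP (.comp .snd (.comp .fst .fst))
    (ap2 appP (ap2 rtsP .fst (.comp .snd (.comp .fst .snd)))
      (ap2 appP (.comp .snd (.comp .snd .fst))
        (ap2 rtsP .fst (.comp .snd (.comp .snd .snd)))))

@[simp] theorem val_colP (v : SV F RT) (x : Ty.D F (.prod Un RC)) :
    colP.val v x = colF v.1 (List.length x.1) x.2 := by
  simp [colP, colF]

theorem cost_colP (v : SV F RT) (k : SC F RT) (hk : ∀ y, k.1 y = 1) (x : Ty.D F (.prod Un RC))
    (B : ℕ) (h1 : List.length x.2.1.1 ≤ B) (h2 : List.length x.2.1.2 ≤ B)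
    (h3 : List.length x.2.2.1 ≤ B) (h4 : List.length x.2.2.2 ≤ B) :
    colP.cost v k x ≤ 200 * (List.length x.1 + 1) * (B + 1) := by
  obtain ⟨u, ⟨c1, c2⟩, ⟨c3, c4⟩⟩ := x
  have e2 := cost_rtsP v k hk (u, c2)
  have e4 := cost_rtsP v k hk (u, c4)
  have e5 := cost_appP (F := F) (s := RT) (a := .fld) v k
    (c3, rootL v.1 (List.length u) c4)
  have e6 := cost_appP (F := F) (s := RT) (a := .fld) v k
    (rootL v.1 (List.length u) c2, c3 ++ rootL v.1 (List.length u) c4)
  have e7 := cost_appP (F := F) (s := RT) (a := .fld) v k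
    (c1, rootL v.1 (List.length u) c2 ++ (c3 ++ rootL v.1 (List.length u) c4))
  simp only at h1 h2 h3 h4 e2 e4 e5 e6 e7
  simp [colP] at e2 e4 e5 e6 e7 ⊢
  have f2 : (31 * List.length u + 32) * List.length c2 ≤ (31 * List.length u + 32) * B :=
    Nat.mul_le_mul_left _ h2
  have f4 : (31 * List.length u + 32) * List.length c4 ≤ (31 * List.length u + 32) * B :=
    Nat.mul_le_mul_left _ h4
  nlinarith

/-- the list of `x b^i`; input `(u, (b, x))` -/
def powP : Pr s (.prod (.list b) (.prod .fld .fld)) Po :=
  .recD (.comp (.pair .snd (.comp (.pair .fst (.comp (.pair .snd .fst) .mul)) .self)) .cons) .nil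

@[simp] theorem val_powP (v : SV F s) (x : Ty.D F (.prod (.list b) (.prod .fld .fld))) :
    (powP : Pr s (.prod (.list b) (.prod .fld .fld)) Po).val v x =
      powL x.2.1 x.2.2 (List.length x.1) := by
  obtain ⟨u, b, x⟩ := x
  simp only [powP, val_recD]
  generalize List.length u = n
  induction n generalizing x with
  | zero => simp [goV, powL]
  | succ n ih =>
    simp only [powL] at ih
    simp [goV, powL, ih, List.range_succ_eq_map, pow_succ']
    intro i _
    ring

theorem cost_powP (v : SV F s) (k : SC F s) (x : Ty.D F (.prod (.list b) (.prod .fld .fld))) :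
    (powP : Pr s (.prod (.list b) (.prod .fld .fld)) Po).cost v k x ≤
      20 * List.length x.1 + 2 := by
  obtain ⟨u, b, x⟩ := x
  simp only [powP, cost_recD]
  generalize List.length u = n
  induction n generalizing x with
  | zero => simp [goC]
  | succ n ih =>
    have := ih (x * b)
    simp [goC] at this ⊢
    omega

/-- identity matrix, the input is a list of length `n` -/
def eyeP : Pr s (.list b) Ma :=
  .comp (.pair .id .id) (.recD (onL .id .nil
    (.comp (.pair (.comp (.pair .one (.comp (.pair .star (.comp .snd .snd))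
        (mapP (c := .unit) .zero))) .cons)
      (.comp (.pair .star (.comp (.comp .snd .snd) .self))
        (mapP (c := .unit) (.comp (.pair .zero .snd) .cons)))) .cons)) .nil)

@[simp] theorem val_eyeP (v : SV F s) (x : Ty.D F (.list b)) :
    (eyeP : Pr s (.list b) Ma).val v x = eyeL F (List.length x) := by
  simp only [eyeP, val_comp, val_pair, val_id, val_recD]
  induction x with
  | nil => simp [goV, eyeL]
  | cons h t ih => simp [goV, eyeL] at ih ⊢; rw [ih]

theorem cost_eyeP (v : SV F s) (k : SC F s) (x : Ty.D F (.list b)) :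
    (eyeP : Pr s (.list b) Ma).cost v k x ≤ 60 * (List.length x + 1) ^ 2 := by
  simp only [eyeP, cost_comp, cost_pair, cost_id, val_pair, val_id, cost_recD]
  have key : ∀ l : List (Ty.D F b), goC (s := s) (F := F) (onL .id .nil
    (.comp (.pair (.comp (.pair .one (.comp (.pair .star (.comp .snd .snd))
        (mapP (c := .unit) .zero))) .cons)
      (.comp (.pair .star (.comp (.comp .snd .snd) .self))
        (mapP (c := .unit) (.comp (.pair .zero .snd) .cons)))) .cons)) .nil v k l.length l ≤
      36 * l.length ^ 2 + 50 * l.length + 4 := by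
    intro l
    induction l with
    | nil => simp [goC]
    | cons h t ih =>
      simp only [List.length_cons, goC]
      generalize hV : goV (s := s) (F := F) (onL .id .nil
        (.comp (.pair (.comp (.pair .one (.comp (.pair .star (.comp .snd .snd))
            (mapP (c := .unit) .zero))) .cons)
          (.comp (.pair .star (.comp (.comp .snd .snd) .self))
            (mapP (c := .unit) (.comp (.pair .zero .snd) .cons)))) .cons)) .nil v t.length = V
        at ih ⊢
      generalize goC (s := s) (F := F) (onL .id .nil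
        (.comp (.pair (.comp (.pair .one (.comp (.pair .star (.comp .snd .snd))
            (mapP (c := .unit) .zero))) .cons)
          (.comp (.pair .star (.comp (.comp .snd .snd) .self))
            (mapP (c := .unit) (.comp (.pair .zero .snd) .cons)))) .cons)) .nil v k t.length = Kc
        at ih ⊢
      have hl : List.length (V t) = t.length := by
        have := val_eyeP (F := F) v t
        simp only [eyeP, val_comp, val_pair, val_id, val_recD] at this
        rw [← hV]
        exact (congrArg List.length this).trans (length_eyeL _)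
      have e1 := cost_mapP_le (F := F) (s := (.list b, Ma) :: s) (c := .unit) (a := b) (b := .fld)
        .zero (V, v) (Kc, k) ((), t) 1 (fun _ _ => by simp)
      have e2 := cost_mapP_le (F := F) (s := (.list b, Ma) :: s) (c := .unit) (a := Po) (b := Po)
        (.comp (.pair .zero .snd) .cons) (V, v) (Kc, k) ((), V t) 4 (fun _ _ => by simp)
      simp only [hl] at e1 e2
      simp at e1 e2 ⊢
      nlinarith
  have := key x
  nlinarith

/-- context for the columns of the places -/
abbrev CX (b : Ty) : Ty := .prod Un (.prod (.list b) (.prod Un Po))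

/-- column of a place, input `((e, (T, (u, Z))), a)` with `T` of length `n - 1`, `u` of length `s`,
`Z` a list of zeros -/
def tcP : Pr RT (.prod (CX b) .fld) Po :=
  lt (.comp (ap2 splitP (.comp .fst (.comp .snd .fst))
      (ap3 powP (.comp .fst (.comp .snd (.comp .snd .fst))) (.comp .snd .inv) (.comp .snd .inv)))
        .snd)
    (ap2 appP (.comp .fst (.comp .fst (.comp .snd (.comp .snd .snd))))
      (ap2 appP (.comp .fst (.comp .fst (.comp .snd (.comp .snd .snd))))
        (ap2 appP .snd (ap2 rtsP (.comp .fst (.comp .fst .fst)) .snd))))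

theorem val_tcP (v : SV F RT) (u : List Unit) (T : List (Ty.D F b)) (us : List Unit) (Z : List F)
    (a : F) (n : ℕ) (hT : T.length = n - 1) (hZ : Z = List.replicate (n0 n us.length) 0) :
    (tcP : Pr RT (.prod (CX b) .fld) Po).val v ((u, (T, (us, Z))), a) =
      tcF v.1 u.length n us.length a := by
  simp [tcP, tcF, plL, hT, hZ]

theorem cost_tcP (v : SV F RT) (k : SC F RT) (hk : ∀ y, k.1 y = 1)
    (u : List Unit) (T : List (Ty.D F b)) (us : List Unit) (Z : List F)
    (a : F) (hT : T.length ≤ us.length) (hZ : Z.length ≤ us.length) :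
    (tcP : Pr RT (.prod (CX b) .fld) Po).cost v k ((u, (T, (us, Z))), a) ≤
      200 * (u.length + 1) * (us.length + 1) := by
  have e1 := cost_powP (F := F) (s := RT) (b := .unit) v k (us, (a⁻¹, a⁻¹))
  have e2 := cost_splitP (F := F) (s := RT) (b := b) (a := .fld) v k
    (T, powL a⁻¹ a⁻¹ us.length)
  set L : List F := (powL a⁻¹ a⁻¹ us.length).drop T.length with hL
  have hLl : L.length ≤ us.length := by rw [hL]; simp
  have e3 := cost_rtsP v k hk (u, L)
  have e4 := cost_appP (F := F) (s := RT) (a := .fld) v k
    (L, rootL v.1 u.length L)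
  have e5 := cost_appP (F := F) (s := RT) (a := .fld) v k
    (Z, L ++ rootL v.1 u.length L)
  have e6 := cost_appP (F := F) (s := RT) (a := .fld) v k
    (Z, Z ++ (L ++ rootL v.1 u.length L))
  simp only at e1 e2 e3 e4 e5 e6
  simp [tcP, ← hL] at e1 e2 e3 e4 e5 e6 ⊢
  have f : (31 * u.length + 32) * L.length ≤ (31 * u.length + 32) * us.length :=
    Nat.mul_le_mul_left _ hLl
  nlinarith

end progs

section main
variable {F : Type} [Field F] [DecidableEq F]
variable {s : List (Ty × Ty)} {a b c : Ty}

theorem len_un (n : ℕ) : List.length (un n) = n := by simp [un]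

/-- tail -/
def tailP : Pr s (.list b) (.list b) := onL .id .nil (.comp .snd .snd)

@[simp] theorem val_tailP (v : SV F s) (x : Ty.D F (.list b)) :
    (tailP : Pr s (.list b) (.list b)).val v x = List.tail (x : List (Ty.D F b)) := by
  cases x <;> simp [tailP]

theorem cost_tailP (v : SV F s) (k : SC F s) (x : Ty.D F (.list b)) :
    (tailP : Pr s (.list b) (.list b)).cost v k x ≤ 6 := by
  cases x <;> simp [tailP]

/-- drop -/
def dropP : Pr s (.prod (.list b) (.list a)) (.list a) := .comp splitP .snd

@[simp] theorem val_dropP (v : SV F s) (x : Ty.D F (.prod (.list b) (.list a))) :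
    (dropP : Pr s (.prod (.list b) (.list a)) (.list a)).val v x =
      List.drop (List.length x.1) (x.2 : List (Ty.D F a)) := by
  simp [dropP]

theorem cost_dropP (v : SV F s) (k : SC F s) (x : Ty.D F (.prod (.list b) (.list a))) :
    (dropP : Pr s (.prod (.list b) (.list a)) (.list a)).cost v k x ≤
      24 * List.length x.1 + 9 := by
  have := cost_splitP (F := F) v k x
  simp [dropP]
  omega

/-- zeros -/
def zerosP : Pr s (.list b) Po := .comp (.pair .star .id) (mapP (c := .unit) .zero)

@[simp] theorem val_zerosP (v : SV F s) (x : Ty.D F (.list b)) :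
    (zerosP : Pr s (.list b) Po).val v x = List.replicate (List.length x) (0 : F) := by
  simp [zerosP]

theorem cost_zerosP (v : SV F s) (k : SC F s) (x : Ty.D F (.list b)) :
    (zerosP : Pr s (.list b) Po).cost v k x ≤ 14 * List.length x + 8 := by
  have := cost_mapP_le (F := F) (s := s) (c := .unit) (a := b) (b := .fld)
        .zero v k ((), x) 1 (fun _ _ => by simp)
  simp [zerosP] at this ⊢
  omega

/-- the input type -/
abbrev IN : Ty := .prod Un (.prod (.prod Po Un) (.prod Un (.prod Ma (.prod Ma (.prod Po Ma)))))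

/-- the exponent -/
def seE : Pr RT IN Un := .comp .snd (.comp .fst .snd)
/-- the precision -/
def seU : Pr RT IN Un := .comp .snd (.comp .snd .fst)
/-- the polynomial -/
def seS : Pr RT IN Ma := .comp .snd (.comp .snd (.comp .snd .fst))
/-- the places -/
def seA : Pr RT IN Po := .comp .snd (.comp .snd (.comp .snd (.comp .snd (.comp .snd .fst))))

/-- the context -/
def ctxP : Pr RT IN (CX Po) :=
  .pair seE (.pair (.comp seS tailP) (.pair seU
    (.comp (ap2 dropP seS (ap2 dropP (.comp seS tailP) seU)) zerosP)))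

/-- columns of the places -/
def plP : Pr RT IN (.list (.prod Po Po)) :=
  ap2 (mapP (.pair .nil tcP)) ctxP seA

/-- the other columns -/
def roP (raw : Pr [] IN (.list RC)) : Pr RT IN (.list (.prod Po Po)) :=
  ap2 (zipP (c := .unit) .snd) .star
    (.pair (.comp seS eyeP) (ap2 (mapP colP) seE (liftP RT raw)))

/-- all columns -/
def allP (raw : Pr [] IN (.list RC)) : Pr RT IN (.list (.prod Po Po)) :=
  ap2 appP plP (roP raw)

variable (v : SV F RT) (k : SC F RT) (hk : ∀ y, k.1 y = 1)
variable (r e s n : ℕ) (bt : List F) (S G : List (List F)) (as : List F) (g : List (List F))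

theorem val_ctxP (hS : S.length = n) (hn : 1 ≤ n) :
    ctxP.val v (un r, ((bt, un e), (un s, (S, (G, (as, g)))))) =
      (un e, (S.tail, (un s, List.replicate (n0 n s) (0 : F)))) := by
  have : s - (n - 1 + n) = n0 n s := by unfold n0; omega
  simp [ctxP, seE, seU, seS, len_un, hS, this]

theorem val_plP (hS : S.length = n) (hn : 1 ≤ n) :
    plP.val v (un r, ((bt, un e), (un s, (S, (G, (as, g)))))) =
      as.map (fun a => (([] : List F), tcF v.1 e n s a)) := by
  simp only [plP, val_comp, val_pair, val_mapP, val_ctxP v r e s n bt S G as g hS hn]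
  simp only [seA, val_comp, val_snd, val_fst, val_nil]
  refine List.map_congr_left (fun a _ => ?_)
  have := val_tcP (b := Po) v (un e) S.tail (un s) (List.replicate (n0 n s) (0 : F)) a n
    (by simp [hS]) (by rw [len_un])
  rw [len_un, len_un] at this
  exact congrArg _ this

theorem val_roP (raw : Pr [] IN (.list RC)) (hS : S.length = n) :
    (roP raw).val v (un r, ((bt, un e), (un s, (S, (G, (as, g)))))) =
      List.zipWith (fun l c => (l, colF v.1 e c)) (eyeL F n)
        (raw.val () (un r, ((bt, un e), (un s, (S, (G, (as, g))))))) := by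
  simp [roP, seE, seS, hS, len_un, List.zipWith_map_right]

include hk in
theorem cost_allP (raw : Pr [] IN (.list RC)) (hS : S.length = n) (hn : 1 ≤ n) (hs : 2 * n ≤ s)
    (has : as.length = n)
    (hr : List.length (raw.val () (un r, ((bt, un e), (un s, (S, (G, (as, g)))))) :
      List ((List F × List F) × (List F × List F))) = n)
    (hrl : ∀ x ∈ (raw.val () (un r, ((bt, un e), (un s, (S, (G, (as, g)))))) :
      List ((List F × List F) × (List F × List F))), x.1.1.length ≤ s ∧ x.1.2.length ≤ s ∧
        x.2.1.length ≤ s ∧ x.2.2.length ≤ s) :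
    (allP raw).cost v k (un r, ((bt, un e), (un s, (S, (G, (as, g)))))) ≤
      raw.cost () () (un r, ((bt, un e), (un s, (S, (G, (as, g)))))) +
        5000 * ((e + 1) * (s + 1) ^ 2) := by
  set x : Ty.D F IN := (un r, ((bt, un e), (un s, (S, (G, (as, g)))))) with hx
  -- context
  have hctx : ctxP.cost v k x ≤ 100 * (s + 1) := by
    have e1 := cost_tailP (F := F) (b := Po) v k S
    have e2 := cost_dropP (F := F) (a := .unit) (b := Po) v k (S.tail, un s)
    have e3 := cost_dropP (F := F) (a := .unit) (b := Po) v k (S, (un s).drop (n - 1))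
    have e4 := cost_zerosP (F := F) (b := .unit) v k (((un s).drop (n - 1)).drop n)
    simp only at e1 e2 e3 e4
    simp [ctxP, seE, seU, seS, hS, hx, len_un] at e1 e2 e3 e4 ⊢
    omega
  have hvctx := val_ctxP v r e s n bt S G as g hS hn
  rw [← hx] at hvctx
  have hvA : seA.val v x = as := by simp [seA, hx]
  have h1 : plP.cost v k x ≤ (200 * (e + 1) * (s + 1) + 15) * n + 100 * (s + 1) + 12 := by
    have e1 := cost_mapP_le (F := F) (s := RT) (c := CX Po) (a := .fld) (b := .prod Po Po)
      (.pair .nil tcP) v k ((un e, (S.tail, (un s, List.replicate (n0 n s) (0 : F)))), as)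
      (200 * (e + 1) * (s + 1) + 2) (fun a _ => by
        have := cost_tcP (b := Po) v k hk (un e) S.tail (un s) (List.replicate (n0 n s) (0 : F)) a
          (by simp [len_un, hS]; omega) (by simp [len_un, n0])
        simp only [len_un] at this
        simp only [cost_pair, cost_nil]
        omega)
    have e2 : seA.cost v k x = 6 := by simp [seA]
    simp only [plP, cost_comp, cost_pair, val_pair, hvctx, hvA, e2] at e1 ⊢
    have e3 : (200 * (e + 1) * (s + 1) + 2 + 13) * List.length as =
        (200 * (e + 1) * (s + 1) + 15) * n := by rw [has]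
    omega
  have h2 : (roP raw).cost v k x ≤ raw.cost () () x + 60 * (n + 1) ^ 2 +
      (200 * (e + 1) * (s + 1) + 100) * n + 100 := by
    have e1 := cost_eyeP (F := F) (b := Po) v k S
    have e2 := cost_mapP_le (F := F) (s := RT) (c := Un) (a := RC) (b := Po)
      colP v k (un e, raw.val () x) (200 * (e + 1) * (s + 1)) (fun y hy => by
        have h := hrl y hy
        have := cost_colP v k hk (un e, y) s h.1 h.2.1 h.2.2.1 h.2.2.2
        simpa only [len_un] using this)
    have e3 := cost_zipP_le (F := F) (s := RT) (c := .unit) (a := Po) (b := Po)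
      (d := .prod Po Po) .snd v k ((), (eyeL F n, List.map (fun c => colF v.1 e c)
        (raw.val () x))) 1 (fun _ _ _ _ => by simp)
    have hvE : seE.val v x = un e := by simp [seE, hx]
    have hcE : seE.cost v k x = 3 := by simp [seE]
    have hvS : seS.val v x = S := by simp [seS, hx]
    have hcS : seS.cost v k x = 4 := by simp [seS]
    simp only [hr, hS, length_eyeL] at e1 e2 e3
    simp only [roP, cost_comp, cost_pair, val_pair, cost_star, val_star, val_comp, val_eyeP,
      val_mapP, val_colP, hvE, hcE, hvS, hcS, val_liftP, cost_liftP, hS, len_un]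
    nlinarith
  have h3 := cost_appP (F := F) (s := RT) (a := .prod Po Po) v k (plP.val v x, (roP raw).val v x)
  have h4 : List.length (plP.val v x : List (List F × List F)) = n := by
    have := val_plP v r e s n bt S G as g hS hn
    rw [← hx] at this
    rw [this]
    simp [has]
  simp only [h4] at h3
  simp only [allP, cost_comp, cost_pair, val_pair]
  have h5 : (200 * (e + 1) * (s + 1) + 15) * n ≤ (200 * (e + 1) * (s + 1) + 15) * (s + 1) :=
    Nat.mul_le_mul_left _ (by omega)
  have h6 : (200 * (e + 1) * (s + 1) + 100) * n ≤ (200 * (e + 1) * (s + 1) + 100) * (s + 1) :=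
    Nat.mul_le_mul_left _ (by omega)
  have h7 : (n + 1) ^ 2 ≤ (s + 1) ^ 2 := Nat.pow_le_pow_left (by omega) 2
  have h8 : (s + 1) ^ 2 ≤ (e + 1) * (s + 1) ^ 2 := Nat.le_mul_of_pos_left _ (by omega)
  have h9 : s + 1 ≤ (s + 1) ^ 2 := Nat.le_self_pow (by norm_num) _
  nlinarith

end main

section alg
variable {k : Type} [Field k]

theorem rows_split (n s : ℕ) (P : ℕ → Prop) :
    (∀ m < nrow n s, P m) ↔ (∀ m < n0 n s, P m) ∧ (∀ m < n0 n s, P (n0 n s + m)) ∧
      (∀ m < n1 n s, P (2 * n0 n s + m)) ∧ (∀ m < n1 n s, P (2 * n0 n s + n1 n s + m)) := by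
  unfold nrow
  constructor
  · intro h
    exact ⟨fun m hm => h _ (by omega), fun m hm => h _ (by omega), fun m hm => h _ (by omega),
      fun m hm => h _ (by omega)⟩
  · rintro ⟨h1, h2, h3, h4⟩ m hm
    by_cases c1 : m < n0 n s
    · exact h1 m c1
    by_cases c2 : m < 2 * n0 n s
    · have := h2 (m - n0 n s) (by omega)
      rwa [show n0 n s + (m - n0 n s) = m by omega] at this
    by_cases c3 : m < 2 * n0 n s + n1 n s
    · have := h3 (m - 2 * n0 n s) (by omega)
      rwa [show 2 * n0 n s + (m - 2 * n0 n s) = m by omega] at this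
    · have := h4 (m - (2 * n0 n s + n1 n s)) (by omega)
      rwa [show 2 * n0 n s + n1 n s + (m - (2 * n0 n s + n1 n s)) = m by omega] at this

theorem getD_four {α : Type} (A B C D : List α) (d : α) (x y : ℕ) (hA : A.length = x)
    (hB : B.length = x) (hC : C.length = y) :
    (∀ m < x, (A ++ (B ++ (C ++ D))).getD m d = A.getD m d) ∧
    (∀ m < x, (A ++ (B ++ (C ++ D))).getD (x + m) d = B.getD m d) ∧
    (∀ m < y, (A ++ (B ++ (C ++ D))).getD (2 * x + m) d = C.getD m d) ∧
    (∀ m, (A ++ (B ++ (C ++ D))).getD (2 * x + y + m) d = D.getD m d) := by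
  refine ⟨fun m hm => ?_, fun m hm => ?_, fun m hm => ?_, fun m => ?_⟩
  · rw [List.getD_append _ _ _ _ (by omega)]
  · rw [List.getD_append_right _ _ _ _ (by omega), List.getD_append _ _ _ _ (by omega)]
    congr 1; omega
  · rw [List.getD_append_right _ _ _ _ (by omega), List.getD_append_right _ _ _ _ (by omega),
      List.getD_append _ _ _ _ (by omega)]
    congr 1; omega
  · rw [List.getD_append_right _ _ _ _ (by omega), List.getD_append_right _ _ _ _ (by omega),
      List.getD_append_right _ _ _ _ (by omega)]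
    congr 1; omega

theorem iter_pow (rt : k → k) (p : ℕ) (hrt : ∀ x, rt x ^ p = x) (e : ℕ) (x : k) :
    (rt^[e] x) ^ (p ^ e) = x := by
  induction e generalizing x with
  | zero => simp
  | succ e ih =>
    rw [Function.iterate_succ_apply', pow_succ', pow_mul, hrt, ih]

theorem getD_rootL (rt : k → k) (e : ℕ) (l : List k) (m : ℕ) (hm : m < l.length) :
    (rootL rt e l).getD m 0 = rt^[e] (l.getD m 0) := by
  simp [rootL, List.getD_eq_getElem?_getD, hm]

end alg

section alg2
variable {F k : Type} [Field F] [Field k] [Algebra F k]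

theorem lin_pow (p e : ℕ) [Fact p.Prime] [CharP k p] {n : ℕ} (τ l : Fin n → k)
    (x y x' y' : Fin n → k) (hx : ∀ j, x j ^ (p ^ e) = x' j) (hy : ∀ j, y j ^ (p ^ e) = y' j) :
    (∑ j, τ j * y j + ∑ j, l j * x j) ^ (p ^ e) =
      ∑ j, τ j ^ (p ^ e) * y' j + ∑ j, l j ^ (p ^ e) * x' j := by
  have : ExpChar k p := ExpChar.prime Fact.out
  rw [add_pow_expChar_pow, sum_pow_char_pow, sum_pow_char_pow]
  simp only [mul_pow, hx, hy]

theorem ell_pow (p e : ℕ) [Fact p.Prime] [CharP k p] {n : ℕ} (l : Fin n → k) (α : k) :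
    (∑ j : Fin n, l j * α ^ (j : ℕ)) ^ (p ^ e) =
      ∑ j : Fin n, l j ^ (p ^ e) * α ^ ((j : ℕ) * p ^ e) := by
  have : ExpChar k p := ExpChar.prime Fact.out
  rw [sum_pow_char_pow]
  simp only [mul_pow, ← pow_mul]

/-- exchange of sums -/
theorem swp {n : ℕ} (c : Fin n → k) (β : Fin n → Fin n → k) (w : Fin n → PowerSeries k)
    (m : ℕ) (x : Fin n → k) (hx : ∀ j, x j = ∑ i, β i j * PowerSeries.coeff m (w i)) :
    ∑ j, c j * x j =
      PowerSeries.coeff m (∑ i, PowerSeries.C (∑ j, c j * β i j) * w i) := by
  simp only [map_sum, PowerSeries.coeff_C_mul, hx, Finset.mul_sum, Finset.sum_mul, mul_assoc]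
  rw [Finset.sum_comm]

theorem core (p e s n : ℕ) [Fact p.Prime] [CharP k p] (rt : F → F)
    (hrt : ∀ x, rt x ^ p = x) (hn : 1 ≤ n) (hs : 2 * n ≤ s) (S : k[X][X])
    (φ : Fin n → PowerSeries k) (G : Fin n → Fin n → k) (a : Fin n → F)
    (g : Fin n → Fin n → k) (c : Fin n → (List F × List F) × (List F × List F))
    (hc : ∀ j : Fin n, IsRaw s (p ^ e) S φ G (fun j => algebraMap F k (a j)) g (j : ℕ) (c j))
    (l τ : Fin n → k) :
    (∀ m < nrow n s, ∑ j, τ j * algebraMap F k ((tcF rt e n s (a j)).getD m 0) +
      ∑ j, l j * algebraMap F k ((colF rt e (c j)).getD m 0) = 0) ↔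
    SysP s (p ^ e) S φ G (fun j => algebraMap F k (a j)) g
      (fun i => ∑ j : Fin n, l j * PowerSeries.constantCoeff (φ i) ^ (j : ℕ)) τ := by
  rw [rows_split, SysP]
  -- the entries of the columns of the places
  have ht : ∀ a : F,
    (∀ m < n0 n s, (tcF rt e n s a).getD m 0 = 0) ∧
    (∀ m < n0 n s, (tcF rt e n s a).getD (n0 n s + m) 0 = 0) ∧
    (∀ m < n1 n s, (tcF rt e n s a).getD (2 * n0 n s + m) 0 = (a⁻¹) ^ (n - 1 + m + 1)) ∧
    (∀ m < n1 n s, ((tcF rt e n s a).getD (2 * n0 n s + n1 n s + m) 0) ^ (p ^ e) =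
      (a⁻¹) ^ (n - 1 + m + 1)) := by
    intro a
    obtain ⟨f1, f2, f3, f4⟩ := getD_four (List.replicate (n0 n s) (0 : F))
      (List.replicate (n0 n s) 0) (plL n s a) (rootL rt e (plL n s a)) 0 (n0 n s) (n1 n s)
      (by simp) (by simp) (length_plL n s a)
    unfold tcF
    refine ⟨fun m hm => ?_, fun m hm => ?_, fun m hm => ?_, fun m hm => ?_⟩
    · rw [f1 m hm]; simp [List.getD_eq_getElem?_getD, hm]
    · rw [f2 m hm]; simp [List.getD_eq_getElem?_getD, hm]
    · rw [f3 m hm, getD_plL n s a m hm (by omega)]
    · rw [f4 m, getD_rootL _ _ _ _ (by rwa [length_plL]), iter_pow rt p hrt,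
        getD_plL n s a m hm (by omega)]
  have hl : ∀ j : Fin n,
    (∀ m < n0 n s, (colF rt e (c j)).getD m 0 = (c j).1.1.getD m 0) ∧
    (∀ m < n0 n s, ((colF rt e (c j)).getD (n0 n s + m) 0) ^ (p ^ e) = (c j).1.2.getD m 0) ∧
    (∀ m < n1 n s, (colF rt e (c j)).getD (2 * n0 n s + m) 0 = (c j).2.1.getD m 0) ∧
    (∀ m < n1 n s, ((colF rt e (c j)).getD (2 * n0 n s + n1 n s + m) 0) ^ (p ^ e) =
      (c j).2.2.getD m 0) := by
    intro j
    obtain ⟨l1, l2, l3, l4, -⟩ := hc j
    obtain ⟨f1, f2, f3, f4⟩ := getD_four (c j).1.1 (rootL rt e (c j).1.2) (c j).2.1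
      (rootL rt e (c j).2.2) 0 (n0 n s) (n1 n s) l1 (by simp [l2]) l3
    unfold colF
    refine ⟨fun m hm => ?_, fun m hm => ?_, fun m hm => ?_, fun m hm => ?_⟩
    · rw [f1 m hm]
    · rw [f2 m hm, getD_rootL _ _ _ _ (by rwa [l2]), iter_pow rt p hrt]
    · rw [f3 m hm]
    · rw [f4 m, getD_rootL _ _ _ _ (by rwa [l4]), iter_pow rt p hrt]
  have hQ : p ^ e ≠ 0 := pow_ne_zero _ (Fact.out : p.Prime).ne_zero
  have hser : ∀ (τ : Fin n → k) (m : ℕ), PowerSeries.coeff m
      (∑ j, PowerSeries.C (τ j) * ser (algebraMap F k (a j))) =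
      -∑ j, τ j * ((algebraMap F k (a j))⁻¹) ^ (m + 1) := by
    intro τ m
    simp [ser, Finset.sum_neg_distrib]
  refine and_congr ?_ (and_congr ?_ (and_congr ?_ ?_))
  · -- first part
    unfold E0
    have key : ∀ m < n0 n s, (∑ j, τ j * algebraMap F k ((tcF rt e n s (a j)).getD m 0) +
      ∑ j, l j * algebraMap F k ((colF rt e (c j)).getD m 0)) =
      PowerSeries.coeff (2 * n - 1 + m) (∑ i, PowerSeries.C
        (∑ j : Fin n, l j * PowerSeries.constantCoeff (φ i) ^ (j : ℕ)) * ev (φ i) (bpol G)) := by
      intro m hm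
      rw [← swp l (fun i j => PowerSeries.constantCoeff (φ i) ^ (j : ℕ)) (fun i => ev (φ i) (bpol G))
        (2 * n - 1 + m) (fun j => algebraMap F k ((colF rt e (c j)).getD m 0))]
      · simp only [(ht _).1 m hm, map_zero, mul_zero, Finset.sum_const_zero, zero_add]
      · intro j
        rw [(hl j).1 m hm]
        exact (hc j).2.2.2.2.1 m hm
    constructor
    · intro h m h1 h2
      have h3 : m - (2 * n - 1) < n0 n s := by unfold n0; omega
      have := h _ h3
      rw [key _ h3] at this
      rwa [show 2 * n - 1 + (m - (2 * n - 1)) = m by omega] at this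
    · intro h m hm
      rw [key m hm]
      exact h _ (by omega) (by unfold n0 at hm; omega)
  · -- second part
    unfold E0
    have key : ∀ m < n0 n s, (∑ j, τ j * algebraMap F k ((tcF rt e n s (a j)).getD (n0 n s + m) 0) +
      ∑ j, l j * algebraMap F k ((colF rt e (c j)).getD (n0 n s + m) 0)) ^ (p ^ e) =
      PowerSeries.coeff (2 * n - 1 + m) (∑ i, PowerSeries.C
        ((∑ j : Fin n, l j * PowerSeries.constantCoeff (φ i) ^ (j : ℕ)) ^ (p ^ e)) *
          ev (φ i) (bpol G)) := by
      intro m hm
      rw [lin_pow p e τ l _ _ (fun j => algebraMap F k ((c j).1.2.getD m 0)) (fun _ => 0)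
        (fun j => by rw [← map_pow, (hl j).2.1 m hm])
        (fun j => by rw [(ht _).2.1 m hm, map_zero, zero_pow hQ])]
      simp only [mul_zero, Finset.sum_const_zero, zero_add, ell_pow p e]
      exact swp _ _ _ _ _ (fun j => (hc j).2.2.2.2.2.1 m hm)
    constructor
    · intro h m h1 h2
      have h3 : m - (2 * n - 1) < n0 n s := by unfold n0; omega
      have := key _ h3
      rw [h _ h3, zero_pow hQ] at this
      rw [show 2 * n - 1 + (m - (2 * n - 1)) = m by omega] at this
      exact this.symm
    · intro h m hm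
      refine (pow_eq_zero_iff hQ).mp ?_
      rw [key m hm]
      exact h _ (by omega) (by unfold n0 at hm; omega)
  · -- third part
    unfold E1
    have key : ∀ m < n1 n s, (∑ j, τ j * algebraMap F k
      ((tcF rt e n s (a j)).getD (2 * n0 n s + m) 0) +
      ∑ j, l j * algebraMap F k ((colF rt e (c j)).getD (2 * n0 n s + m) 0)) =
      PowerSeries.coeff (n - 1 + m) (∑ i, PowerSeries.C
        (∑ j : Fin n, l j * PowerSeries.constantCoeff (φ i) ^ (j : ℕ)) *
          yv (φ i) (fun j => algebraMap F k (a j)) g) -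
      PowerSeries.coeff (n - 1 + m)
        (∑ j, PowerSeries.C (τ j) * ser (algebraMap F k (a j))) := by
      intro m hm
      rw [hser, ← swp l (fun i j => PowerSeries.constantCoeff (φ i) ^ (j : ℕ))
        (fun i => yv (φ i) (fun j => algebraMap F k (a j)) g)
        (n - 1 + m) (fun j => algebraMap F k ((colF rt e (c j)).getD (2 * n0 n s + m) 0))]
      · simp only [(ht _).2.2.1 m hm, map_pow, map_inv₀]
        ring
      · intro j
        rw [(hl j).2.2.1 m hm]
        exact (hc j).2.2.2.2.2.2.1 m hm
    constructor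
    · intro h m h1 h2
      have h3 : m - (n - 1) < n1 n s := by unfold n1; omega
      have := h _ h3
      rw [key _ h3] at this
      rw [show n - 1 + (m - (n - 1)) = m by omega] at this
      exact sub_eq_zero.mp this
    · intro h m hm
      rw [key m hm]
      exact sub_eq_zero.mpr (h _ (by omega) (by unfold n1 at hm; omega))
  · -- fourth part
    unfold E1
    have key : ∀ m < n1 n s, (∑ j, τ j * algebraMap F k
      ((tcF rt e n s (a j)).getD (2 * n0 n s + n1 n s + m) 0) +
      ∑ j, l j * algebraMap F k ((colF rt e (c j)).getD (2 * n0 n s + n1 n s + m) 0)) ^ (p ^ e) =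
      PowerSeries.coeff (n - 1 + m) (∑ i, PowerSeries.C
        ((∑ j : Fin n, l j * PowerSeries.constantCoeff (φ i) ^ (j : ℕ)) ^ (p ^ e)) *
          yv (φ i) (fun j => algebraMap F k (a j))
            (fun j => gq S (p ^ e) (algebraMap F k (a j)) (g j))) -
      PowerSeries.coeff (n - 1 + m)
        (∑ j, PowerSeries.C (τ j ^ (p ^ e)) * ser (algebraMap F k (a j))) := by
      intro m hm
      rw [lin_pow p e τ l _ _ (fun j => algebraMap F k ((c j).2.2.getD m 0))
        (fun j => ((algebraMap F k (a j))⁻¹) ^ (n - 1 + m + 1))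
        (fun j => by rw [← map_pow, (hl j).2.2.2 m hm])
        (fun j => by rw [← map_pow, (ht _).2.2.2 m hm, map_pow, map_inv₀])]
      rw [hser (fun j => τ j ^ (p ^ e))]
      simp only [ell_pow p e]
      rw [← swp (fun j => l j ^ (p ^ e))
        (fun i j => PowerSeries.constantCoeff (φ i) ^ ((j : ℕ) * p ^ e))
        (fun i => yv (φ i) (fun j => algebraMap F k (a j))
            (fun j => gq S (p ^ e) (algebraMap F k (a j)) (g j)))
        (n - 1 + m) (fun j => algebraMap F k ((c j).2.2.getD m 0))
        (fun j => (hc j).2.2.2.2.2.2.2 m hm)]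
      ring
    constructor
    · intro h m h1 h2
      have h3 : m - (n - 1) < n1 n s := by unfold n1; omega
      have := key _ h3
      rw [h _ h3, zero_pow hQ] at this
      rw [show n - 1 + (m - (n - 1)) = m by omega] at this
      exact sub_eq_zero.mp this.symm
    · intro h m hm
      refine (pow_eq_zero_iff hQ).mp ?_
      rw [key m hm]
      exact sub_eq_zero.mpr (h _ (by omega) (by unfold n1 at hm; omega))

end alg2

end J11

open J11 in
/-- TARGET -/
theorem specSys (h : SpecRaw) : SpecSys := by
  obtain ⟨raw, C0, k0, hraw⟩ := h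
  refine ⟨allP raw, C0 + 5000, k0, ?_⟩
  intro F _ _ p e r s n rt S G a g hp hF hrt hr hr0 hn hSn hs hSh
  have : Fact p.Prime := ⟨hp⟩
  obtain ⟨c1, c2, c3, c4⟩ := hraw F r p e s n S G a g hr hr0 hn hSn hs hSh
  set x : Ty.D F IN := (un r, ((bits F p, un e), (un s, (S, (rows G, (List.ofFn a, rows g))))))
    with hx
  set R : List ((List F × List F) × (List F × List F)) := raw.val () x with hR
  have hasl : (List.ofFn a).length = n := by simp
  refine ⟨fun j => tcF rt e n s (a j), fun j => colF rt e (R.getD j (([], []), ([], []))),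
    ?_, ?_, ?_, ?_, ?_⟩
  · intro j
    simp only [tcF, List.length_append, List.length_replicate, length_plL, length_rootL, nrow]
    ring
  · intro j
    have hj : (j : ℕ) < R.length := by rw [c1]; exact j.2
    have hm : R.getD j (([], []), ([], [])) ∈ R := by
      rw [List.getD_eq_getElem _ _ hj]; exact List.getElem_mem _
    obtain ⟨l1, l2, l3, l4⟩ := c3 _ hm
    simp only [colF, List.length_append, length_rootL, l1, l2, l3, l4, nrow]
    ring
  · have e1 := val_plP (F := F) (rt, ()) r e s n (bits F p) S (rows G) (List.ofFn a) (rows g)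
      hSn hn
    have e2 := val_roP (F := F) (rt, ()) r e s n (bits F p) S (rows G) (List.ofFn a) (rows g)
      raw hSn
    simp only [allP, val_comp, val_pair, val_appP]
    rw [e1, e2]
    congr 1
    · rw [List.map_ofFn]; rfl
    · rw [eyeL_eq]
      apply List.ext_getElem
      · have this : n ≤ List.length R := le_of_eq c1.symm
        simp
        exact this
      · intro i h1 h2
        have hi : i < n := by simpa using h2
        have hi' : i < R.length := by rw [c1]; exact hi
        simp only [List.getElem_zipWith, List.getElem_ofFn]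
        rw [List.getD_eq_getElem _ _ hi']
  · intro k _ _ φ hφ l τ
    have : CharP k p := charP_of_injective_algebraMap (algebraMap F k).injective p
    exact core p e s n rt hrt hn hs (bcp k (mbiv S)) φ _ a _
      (fun j => R.getD j (([], []), ([], []))) (fun j => c2 k φ hφ j j.2) l τ
  · have e1 := cost_allP (F := F) (rt, ()) ((fun _ => 1), ()) (fun _ => rfl) r e s n (bits F p) S
      (rows G) (List.ofFn a) (rows g) raw hSn hn hs hasl c1 (fun y hy => by
        obtain ⟨l1, l2, l3, l4⟩ := c3 y hy
        rw [l1, l2, l3, l4]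
        unfold n0 n1
        omega)
    refine e1.trans ?_
    have e2 : (e + 1) * (s + 1) ^ 2 ≤ (e + 1) * lgc p * lgc (s + 1) ^ k0 * (s + 1) ^ 3 := by
      have h1 : 1 ≤ lgc p := by unfold lgc; omega
      have h2 : 1 ≤ lgc (s + 1) ^ k0 := Nat.one_le_pow _ _ (by unfold lgc; omega)
      have h3 : (s + 1) ^ 2 ≤ (s + 1) ^ 3 := Nat.pow_le_pow_right (by omega) (by norm_num)
      calc (e + 1) * (s + 1) ^ 2 = (e + 1) * 1 * 1 * (s + 1) ^ 2 := by ring
        _ ≤ _ := by gcongr
    calc _ ≤ C0 * ((e + 1) * lgc p * lgc (s + 1) ^ k0 * (s + 1) ^ 3) +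
          5000 * ((e + 1) * lgc p * lgc (s + 1) ^ k0 * (s + 1) ^ 3) :=
        Nat.add_le_add c4 (Nat.mul_le_mul_left _ e2)
      _ = _ := by ring

end Pool.Agent.H330AB.JJ11
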