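import Pool.Agent.H330AB.SpecA2
set_option autoImplicit false
noncomputable section
namespace Pool.Agent.H330AB.JJ12
open Polynomial Pool.Agent.H330FB

section par
variable {F : Type} [Field F] [DecidableEq F]
variable {s : List (Ty × Ty)} {b : Ty}

theorem un_zero : un 0 = [] := rfl
theorem un_succ (n : ℕ) : un (n + 1) = () :: un n := rfl
theorem un_len (n : ℕ) : List.length (un n) = n := by simp [un]

/-- body of the program for the characteristic -/
def chB : Pr ((.fld, Un) :: s) .fld Un :=
  lt (.comp (.pair .id .one) .add)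
    (onZ .snd (.comp (.pair .star .nil) .cons) (.comp (.pair .star (.comp .snd .self)) .cons))

/-- the minimum of the characteristic and of the length of the input, in unary -/
def chP : Pr s (.list b) Un := .comp (.pair .id .zero) (.recD chB .nil)

theorem goV_ch (v : SV F s) (p : ℕ) [CharP F p] (n : ℕ) :
    ∀ j : ℕ, j < p → (goV (F := F) chB .nil v n (j : F) : List Unit) = un (min n (p - j)) := by
  induction n with
  | zero =>
    intro j hj
    simp [goV, un]
  | succ n ih =>
    intro j hj
    have hz : ((j : F) + 1 = 0) ↔ j + 1 = p := by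
      have h1 : ((j + 1 : ℕ) : F) = 0 ↔ p ∣ j + 1 := CharP.cast_eq_zero_iff F p (j + 1)
      push_cast at h1
      rw [h1]
      constructor
      · intro h
        have := Nat.le_of_dvd (by omega) h
        omega
      · intro h
        rw [h]
    by_cases h : j + 1 = p
    · have h0 : (j : F) + 1 = 0 := hz.2 h
      have e : min (n + 1) (p - j) = 1 := by omega
      rw [e]
      simp [goV, chB, h0, un]
    · have h0 : ¬ ((j : F) + 1 = 0) := fun h' => h (hz.1 h')
      have e : min (n + 1) (p - j) = min n (p - (j + 1)) + 1 := by omega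
      have := ih (j + 1) (by omega)
      push_cast at this
      rw [e, un_succ, ← this]
      simp [goV, chB, h0]

theorem val_chP (v : SV F s) (p : ℕ) (hp : p.Prime) [CharP F p] (x : Ty.D F (.list b)) :
    ((chP : Pr s (.list b) Un).val v x : List Unit) = un (min (List.length x) p) := by
  simp only [chP, val_comp, val_pair, val_id, val_zero, val_recD]
  have := goV_ch v p (List.length x) 0 hp.pos
  simpa using this

theorem cost_chB (w : SV F ((.fld, Un) :: s)) (K : SC F ((.fld, Un) :: s)) (x : F) :
    (chB : Pr ((.fld, Un) :: s) .fld Un).cost w K x ≤ K.1 (x + 1) + 17 := by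
  by_cases h : x + 1 = 0
  · simp [chB, h]
  · simp [chB, h]
    omega

theorem goC_ch (v : SV F s) (k : SC F s) (n : ℕ) :
    ∀ x : F, goC (F := F) chB .nil v k n x ≤ 20 * n + 1 := by
  induction n with
  | zero =>
    intro x
    simp [goC]
  | succ n ih =>
    intro x
    have := ih (x + 1)
    have h := cost_chB (F := F) (s := s) (goV chB .nil v n, v) (goC chB .nil v k n, k) x
    simp only [goC]
    simp only at h
    omega

theorem cost_chP (v : SV F s) (k : SC F s) (x : Ty.D F (.list b)) :
    (chP : Pr s (.list b) Un).cost v k x ≤ 20 * List.length x + 5 := by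
  simp only [chP, cost_comp, cost_pair, cost_id, cost_zero, cost_recD, val_pair, val_id, val_zero]
  have := goC_ch v k (List.length x) 0
  omega

/-- body of the halving -/
def hfB : Pr ((Un, .prod .fld Un) :: s) Un (.prod .fld Un) :=
  onL .id (.pair .zero .nil)
    (lt (.comp (.comp .snd .snd) .self)
      (onZ (.comp .snd .fst) (.pair .one (.comp .snd .snd))
        (.pair .zero (.comp (.pair .star (.comp .snd .snd)) .cons))))

/-- parity and half -/
def hfP : Pr s Un (.prod .fld Un) :=
  .comp (.pair .id .id) (.recD hfB (.pair .zero .nil))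

theorem val_hfB (w : SV F ((Un, .prod .fld Un) :: s)) (t : List Unit) :
    ((hfB : Pr ((Un, .prod .fld Un) :: s) Un (.prod .fld Un)).val w (() :: t) : F × List Unit) =
      if (w.1 t).1 = (0 : F) then ((1 : F), (w.1 t).2) else ((0 : F), () :: (w.1 t).2) := by
  by_cases h : (w.1 t).1 = (0 : F)
  · simp [hfB, h]
  · simp [hfB, h]

theorem cost_hfB (w : SV F ((Un, .prod .fld Un) :: s)) (K : SC F ((Un, .prod .fld Un) :: s))
    (t : List Unit) :
    (hfB : Pr ((Un, .prod .fld Un) :: s) Un (.prod .fld Un)).cost w K (() :: t) ≤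
      K.1 t + 30 := by
  by_cases h : (w.1 t).1 = (0 : F)
  · simp [hfB, h]
    omega
  · simp [hfB, h]
    omega

theorem goV_hf (v : SV F s) (m : ℕ) :
    (goV (F := F) hfB (.pair .zero .nil) v m (un m) : F × List Unit) =
      (if m % 2 = 1 then (1 : F) else 0, un (m / 2)) := by
  induction m with
  | zero => simp [goV, un]
  | succ m ih =>
    simp only [goV]
    rw [un_succ, val_hfB]
    simp only
    rw [ih]
    rcases Nat.mod_two_eq_zero_or_one m with h | h
    · have h1 : (m + 1) % 2 = 1 := by omega
      have h2 : (m + 1) / 2 = m / 2 := by omega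
      simp [h, h1, h2]
    · have h1 : ¬ ((m + 1) % 2 = 1) := by omega
      have h2 : (m + 1) / 2 = m / 2 + 1 := by omega
      simp [h, h1, h2, un_succ]

theorem val_hfP (v : SV F s) (m : ℕ) :
    ((hfP : Pr s Un (.prod .fld Un)).val v (un m) : F × List Unit) =
      (if m % 2 = 1 then (1 : F) else 0, un (m / 2)) := by
  simp only [hfP, val_comp, val_pair, val_id, val_recD, un_len]
  exact goV_hf v m

theorem goC_hf (v : SV F s) (k : SC F s) (n : ℕ) :
    ∀ x : List Unit, goC (F := F) hfB (.pair .zero .nil) v k n x ≤ 30 * n + 3 := by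
  induction n with
  | zero =>
    intro x
    simp [goC]
  | succ n ih =>
    intro x
    cases x with
    | nil =>
      simp [goC, hfB]
      omega
    | cons h t =>
      have := ih t
      have h1 := cost_hfB (F := F) (s := s) (goV hfB (.pair .zero .nil) v n, v)
        (goC hfB (.pair .zero .nil) v k n, k) t
      simp only [goC]
      simp only at h1
      obtain rfl : h = () := rfl
      omega

theorem cost_hfP (v : SV F s) (k : SC F s) (m : ℕ) :
    (hfP : Pr s Un (.prod .fld Un)).cost v k (un m) ≤ 30 * m + 7 := by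
  simp only [hfP, cost_comp, cost_pair, cost_id, cost_recD, val_pair, val_id, un_len]
  have := goC_hf v k m (un m)
  omega

/-- body of the program for the bits -/
def btB : Pr ((Un, Po) :: s) Un Po :=
  onL .id .nil
    (lt (.comp .fst hfP) (.comp (.pair (.comp .snd .fst) (.comp (.comp .snd .snd) .self)) .cons))

/-- bits -/
def btP : Pr s Un Po := .comp (.pair .id .id) (.recD btB .nil)

omit [DecidableEq F] in
theorem bits_step (m : ℕ) (hm : m ≠ 0) :
    bits F m = (if m % 2 = 1 then (1 : F) else 0) :: bits F (m / 2) := by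
  have h1 : Nat.bits m = m.bodd :: Nat.bits (m / 2) := by
    have h2 := Nat.bits_append_bit (m / 2) m.bodd (by
      intro h
      have : m = 1 := by omega
      subst this
      rfl)
    have h3 : Nat.bit m.bodd (m / 2) = m := by
      rw [← Nat.div2_val]
      exact Nat.bit_bodd_div2 m
    rw [h3] at h2
    exact h2
  unfold bits
  rw [h1, List.map_cons]
  congr 1
  rw [Nat.mod_two_of_bodd]
  cases m.bodd <;> simp

theorem val_btB (w : SV F ((Un, Po) :: s)) (t : List Unit) :
    ((btB : Pr ((Un, Po) :: s) Un Po).val w (() :: t) : List F) =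
      (hfP.val (F := F) w (() :: t)).1 :: w.1 (hfP.val (F := F) w (() :: t)).2 := by
  simp [btB]

theorem cost_btB (w : SV F ((Un, Po) :: s)) (K : SC F ((Un, Po) :: s)) (t : List Unit) :
    (btB : Pr ((Un, Po) :: s) Un Po).cost w K (() :: t) ≤
      hfP.cost (F := F) w K (() :: t) + K.1 (hfP.val (F := F) w (() :: t)).2 + 20 := by
  simp [btB]
  omega

theorem goV_bt (v : SV F s) (n : ℕ) : ∀ m, m ≤ n →
    (goV (F := F) btB .nil v n (un m) : List F) = bits F m := by
  induction n with
  | zero =>
    intro m hm
    have : m = 0 := by omega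
    subst this
    simp [goV, bits]
  | succ n ih =>
    intro m hm
    rcases Nat.eq_zero_or_pos m with h | h
    · subst h
      simp [goV, btB, un, bits]
    · rw [bits_step m h.ne', ← ih (m / 2) (by omega)]
      obtain ⟨m', rfl⟩ : ∃ m', m = m' + 1 := ⟨m - 1, by omega⟩
      have h3 := val_hfP (F := F) (s := (Un, Po) :: s) (goV btB .nil v n, v) (m' + 1)
      simp only [goV]
      rw [un_succ] at h3 ⊢
      rw [val_btB, h3]

theorem val_btP (v : SV F s) (m : ℕ) :
    ((btP : Pr s Un Po).val v (un m) : List F) = bits F m := by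
  simp only [btP, val_comp, val_pair, val_id, val_recD, un_len]
  exact goV_bt v m m le_rfl

theorem goC_bt (v : SV F s) (k : SC F s) (n : ℕ) : ∀ m,
    goC (F := F) btB .nil v k n (un m) ≤ 200 * m + 20 := by
  induction n with
  | zero =>
    intro m
    simp [goC]
  | succ n ih =>
    intro m
    rcases Nat.eq_zero_or_pos m with h | h
    · subst h
      simp [goC, btB, un]
    · have h1 := ih (m / 2)
      have h2 := cost_hfP (F := F) (s := (Un, Po) :: s) (goV btB .nil v n, v)
        (goC btB .nil v k n, k) m
      have h3 := val_hfP (F := F) (s := (Un, Po) :: s) (goV btB .nil v n, v) m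
      obtain ⟨m', rfl⟩ : ∃ m', m = m' + 1 := ⟨m - 1, by omega⟩
      simp only [goC]
      rw [un_succ] at h2 h3 ⊢
      have h4 := cost_btB (F := F) (s := s) (goV btB .nil v n, v) (goC btB .nil v k n, k) (un m')
      rw [h3] at h4
      simp only at h4
      omega

theorem cost_btP (v : SV F s) (k : SC F s) (m : ℕ) :
    (btP : Pr s Un Po).cost v k (un m) ≤ 200 * m + 24 := by
  simp only [btP, cost_comp, cost_pair, cost_id, cost_recD, val_pair, val_id, un_len]
  have := goC_bt v k m m
  omega

/-- body of the division -/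
def cdB : Pr ((.prod Un Un, Un) :: s) (.prod Un Un) Un :=
  onL .snd .nil
    (.comp (.pair .star (.comp (.pair (.comp .fst .fst) (.comp (.comp .fst splitP) .snd)) .self))
      .cons)

/-- division, rounded up -/
def cdP : Pr s (.prod Un Un) Un := .comp (.pair .snd .id) (.recD cdB .nil)

theorem drop_un (m n : ℕ) : List.drop m (un n) = un (n - m) := by
  simp [un, List.drop_replicate]

theorem val_cdB (w : SV F ((.prod Un Un, Un) :: s)) (m N : ℕ) :
    ((cdB : Pr ((.prod Un Un, Un) :: s) (.prod Un Un) Un).val w (un m, un (N + 1)) : List Unit) =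
      () :: w.1 (un m, un (N + 1 - m)) := by
  have : ((cdB : Pr ((.prod Un Un, Un) :: s) (.prod Un Un) Un).val w (un m, un (N + 1)) :
      List Unit) = () :: w.1 (un m, List.drop (List.length (un m)) (un (N + 1))) := by
    simp [cdB, un_succ]
  rw [this, un_len, drop_un]

theorem cost_cdB (w : SV F ((.prod Un Un, Un) :: s)) (K : SC F ((.prod Un Un, Un) :: s))
    (m N : ℕ) :
    (cdB : Pr ((.prod Un Un, Un) :: s) (.prod Un Un) Un).cost w K (un m, un (N + 1)) ≤
      K.1 (un m, un (N + 1 - m)) + 24 * m + 30 := by
  have h2 := cost_splitP (F := F) (s := (.prod Un Un, Un) :: s) (a := .unit) (b := .unit)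
    w K (un m, un (N + 1))
  have : (cdB : Pr ((.prod Un Un, Un) :: s) (.prod Un Un) Un).cost w K (un m, un (N + 1)) ≤
      K.1 (un m, List.drop (List.length (un m)) (un (N + 1))) +
        (splitP : Pr _ (.prod (.list .unit) (.list .unit)) _).cost w K (un m, un (N + 1)) + 16 := by
    simp [cdB, un_succ]
    omega
  rw [un_len, drop_un] at this
  simp only [un_len] at h2
  omega

theorem goV_cd (v : SV F s) (m : ℕ) (hm : 1 ≤ m) (n : ℕ) : ∀ N, N ≤ n →
    (goV (F := F) cdB .nil v n (un m, un N) : List Unit) = un ((N + m - 1) / m) := by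
  induction n with
  | zero =>
    intro N hN
    have : N = 0 := by omega
    subst this
    have e : (0 + m - 1) / m = 0 := Nat.div_eq_of_lt (by omega)
    rw [e]
    simp [goV, un]
  | succ n ih =>
    intro N hN
    rcases Nat.eq_zero_or_pos N with h | h
    · subst h
      have e : (0 + m - 1) / m = 0 := Nat.div_eq_of_lt (by omega)
      rw [e]
      simp [goV, cdB, un]
    · have e : (N + m - 1) / m = (N - m + m - 1) / m + 1 := by
        rcases Nat.lt_or_ge N m with h' | h'
        · have e1 : N - m = 0 := by omega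
          rw [e1]
          have e2 : (0 + m - 1) / m = 0 := Nat.div_eq_of_lt (by omega)
          rw [e2]
          have e3 : N + m - 1 = (N - 1) + m := by omega
          rw [e3, Nat.add_div_right _ (by omega), Nat.div_eq_of_lt (by omega)]
        · have e3 : N + m - 1 = (N - m + m - 1) + m := by omega
          rw [e3, Nat.add_div_right _ (by omega)]
      rw [e, un_succ, ← ih (N - m) (by omega)]
      obtain ⟨N', rfl⟩ : ∃ N', N = N' + 1 := ⟨N - 1, by omega⟩
      simp only [goV]
      rw [val_cdB]

theorem val_cdP (v : SV F s) (m N : ℕ) (hm : 1 ≤ m) :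
    ((cdP : Pr s (.prod Un Un) Un).val v (un m, un N) : List Unit) = un ((N + m - 1) / m) := by
  simp only [cdP, val_comp, val_pair, val_id, val_snd, val_recD, un_len]
  exact goV_cd v m hm N N le_rfl

theorem goC_cd (v : SV F s) (k : SC F s) (m n : ℕ) : ∀ N,
    goC (F := F) cdB .nil v k n (un m, un N) ≤ (24 * m + 40) * n + 5 := by
  induction n with
  | zero =>
    intro N
    simp [goC]
  | succ n ih =>
    intro N
    rcases Nat.eq_zero_or_pos N with h | h
    · subst h
      simp [goC, cdB, un]
    · have h1 := ih (N - m)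
      obtain ⟨N', rfl⟩ : ∃ N', N = N' + 1 := ⟨N - 1, by omega⟩
      simp only [goC]
      have h2 := cost_cdB (F := F) (s := s) (goV cdB .nil v n, v) (goC cdB .nil v k n, k) m N'
      simp only at h2
      nlinarith

theorem cost_cdP (v : SV F s) (k : SC F s) (m N : ℕ) :
    (cdP : Pr s (.prod Un Un) Un).cost v k (un m, un N) ≤ (24 * m + 40) * N + 9 := by
  simp only [cdP, cost_comp, cost_pair, cost_id, cost_snd, cost_recD, val_pair, val_id, val_snd,
    un_len]
  have := goC_cd v k m N N
  omega

/-- body of the logarithm -/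
def clB : Pr ((.prod Un Un, Un) :: s) (.prod Un Un) Un :=
  onL .snd .nil (onL (.comp .snd .snd) .nil
    (.comp (.pair .star (.comp (.pair (.comp (.comp .fst .fst) .fst)
      (.comp (.comp .fst .fst) cdP)) .self)) .cons))

/-- logarithm, rounded up -/
def clP : Pr s (.prod Un Un) Un := .comp (.pair .snd .id) (.recD clB .nil)

theorem cdiv_lt (m N : ℕ) (hm : 2 ≤ m) (hN : 2 ≤ N) : (N + m - 1) / m ≤ (N + 1) / 2 := by
  rw [Nat.div_le_iff_le_mul_add_pred (by omega)]
  have h1 : N ≤ 2 * ((N + 1) / 2) := by omega
  have h2 : 2 * ((N + 1) / 2) ≤ m * ((N + 1) / 2) := Nat.mul_le_mul_right _ hm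
  omega

theorem val_clB (w : SV F ((.prod Un Un, Un) :: s)) (m N : ℕ) :
    ((clB : Pr ((.prod Un Un, Un) :: s) (.prod Un Un) Un).val w (un m, un (N + 1 + 1)) :
      List Unit) = () :: w.1 (un m, cdP.val (F := F) w (un m, un (N + 1 + 1))) := by
  simp [clB, un_succ]

theorem cost_clB (w : SV F ((.prod Un Un, Un) :: s)) (K : SC F ((.prod Un Un, Un) :: s))
    (m N : ℕ) :
    (clB : Pr ((.prod Un Un, Un) :: s) (.prod Un Un) Un).cost w K (un m, un (N + 1 + 1)) ≤
      K.1 (un m, cdP.val (F := F) w (un m, un (N + 1 + 1))) +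
        cdP.cost (F := F) w K (un m, un (N + 1 + 1)) + 30 := by
  simp [clB, un_succ]
  omega

theorem goV_cl (v : SV F s) (m : ℕ) (hm : 2 ≤ m) (n : ℕ) : ∀ N : ℕ, N ≤ n →
    (goV (F := F) clB .nil v n (un m, un N) : List Unit) = un (Nat.clog m N) := by
  induction n with
  | zero =>
    intro N hN
    have : N = 0 := by omega
    subst this
    simp [goV, un]
  | succ n ih =>
    intro N hN
    rcases Nat.lt_or_ge N 2 with h | h
    · have : N = 0 ∨ N = 1 := by omega
      rcases this with rfl | rfl
      · simp [goV, clB, un]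
      · simp [goV, clB, un]
    · have h0 := cdiv_lt m N hm h
      rw [Nat.clog_of_one_lt (by omega) (by omega), un_succ, ← ih _ (by omega)]
      obtain ⟨N', rfl⟩ : ∃ N', N = N' + 1 + 1 := ⟨N - 2, by omega⟩
      have h3 := val_cdP (F := F) (s := (.prod Un Un, Un) :: s) (goV clB .nil v n, v) m
        (N' + 1 + 1) (by omega)
      simp only [goV]
      rw [val_clB, h3]

theorem val_clP (v : SV F s) (m N : ℕ) (hm : 2 ≤ m) :
    ((clP : Pr s (.prod Un Un) Un).val v (un m, un N) : List Unit) = un (Nat.clog m N) := by
  simp only [clP, val_comp, val_pair, val_id, val_snd, val_recD, un_len]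
  exact goV_cl v m hm N N le_rfl

theorem goC_cl (v : SV F s) (k : SC F s) (m : ℕ) (hm : 2 ≤ m) (n : ℕ) : ∀ N,
    goC (F := F) clB .nil v k n (un m, un N) ≤ 200 * N * (m + 1) + 20 := by
  induction n with
  | zero =>
    intro N
    simp [goC]
  | succ n ih =>
    intro N
    rcases Nat.lt_or_ge N 2 with h | h
    · have : N = 0 ∨ N = 1 := by omega
      rcases this with rfl | rfl
      · simp [goC, clB, un]
      · simp [goC, clB, un]
    · have h0 := cdiv_lt m N hm h
      have h1 := ih ((N + m - 1) / m)
      have h2 := cost_cdP (F := F) (s := (.prod Un Un, Un) :: s) (goV clB .nil v n, v)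
        (goC clB .nil v k n, k) m N
      have h3 := val_cdP (F := F) (s := (.prod Un Un, Un) :: s) (goV clB .nil v n, v) m N
        (by omega)
      have h4 : 200 * ((N + m - 1) / m) * (m + 1) ≤ 200 * ((N + 1) / 2) * (m + 1) := by gcongr
      obtain ⟨N', rfl⟩ : ∃ N', N = N' + 1 + 1 := ⟨N - 2, by omega⟩
      simp only [goC]
      have h12 := cost_clB (F := F) (s := s) (goV clB .nil v n, v) (goC clB .nil v k n, k) m N'
      rw [h3] at h12
      simp only at h12
      refine h12.trans ?_
      obtain ⟨q, hq⟩ : ∃ q, q = (N' + 1 + 1) / 2 := ⟨_, rfl⟩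
      have h5 : (N' + 1 + 1 + 1) / 2 = N' + 1 + 1 - q := by omega
      have h6 : N' + 1 + 1 ≤ 3 * q := by omega
      have h7 : 1 ≤ q := by omega
      have h8 : q ≤ N' + 1 + 1 := by omega
      obtain ⟨t, ht⟩ : ∃ t, N' + 1 + 1 = q + t := ⟨N' + 1 + 1 - q, by omega⟩
      rw [h5] at h4
      rw [ht] at h1 h2 h4 h6 ⊢
      have h9 : q + t - q = t := by omega
      rw [h9] at h4
      have h10 : (24 * m + 40) * (q + t) ≤ (24 * m + 40) * (3 * q) := Nat.mul_le_mul_left _ h6
      nlinarith

theorem cost_clP (v : SV F s) (k : SC F s) (m N : ℕ) (hm : 2 ≤ m) :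
    (clP : Pr s (.prod Un Un) Un).cost v k (un m, un N) ≤ 200 * N * (m + 1) + 24 := by
  simp only [clP, cost_comp, cost_pair, cost_id, cost_snd, cost_recD, val_pair, val_id, val_snd,
    un_len]
  have := goC_cl v k m hm N N
  omega

/-- the number 2 or 3 -/
def rrP {a : Ty} : Pr s a Un :=
  onZ (.comp (.pair (.comp (.pair .one .one) .add) .one) .add)
    (.comp (.pair .star (.comp (.pair .star .nil) .cons)) .cons)
    (.comp (.pair .star (.comp (.pair .star (.comp (.pair .star .nil) .cons)) .cons)) .cons)

/-- the exponent -/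
def eeP : Pr s (.prod (.prod Un Un) Un) Un :=
  onL .snd .nil (onL (.comp .snd .snd) .nil
    (.comp (.pair (.comp (.comp .fst .fst) .snd) (.comp (.comp (.comp .fst .fst) .fst) .snd)) clP))

theorem val_eeP (v : SV F s) (D n m : ℕ) (hm : 2 ≤ m) :
    ((eeP : Pr s (.prod (.prod Un Un) Un) Un).val v ((un D, un n), un m) : List Unit) =
      un (Nat.clog m n) := by
  rw [← val_clP v m n hm]
  obtain ⟨m', rfl⟩ : ∃ m', m = m' + 1 + 1 := ⟨m - 2, by omega⟩
  conv_lhs => rw [eeP]
  simp only [val_onL, val_snd]
  conv_lhs => arg 1; rw [un_succ]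
  simp only [lcase_cons, val_comp, val_snd]
  conv_lhs => arg 1; rw [un_succ]
  simp only [lcase_cons, val_comp, val_fst, val_pair, val_snd]

theorem cost_eeP (v : SV F s) (k : SC F s) (D n m : ℕ) :
    (eeP : Pr s (.prod (.prod Un Un) Un) Un).cost v k ((un D, un n), un m) ≤
      200 * n * (m + 1) + 60 := by
  rcases Nat.lt_or_ge m 2 with h | h
  · have : m = 0 ∨ m = 1 := by omega
    rcases this with rfl | rfl
    · simp [eeP, un]
    · simp [eeP, un]
  · have h1 := cost_clP (F := F) v k m n h
    obtain ⟨m', rfl⟩ : ∃ m', m = m' + 1 + 1 := ⟨m - 2, by omega⟩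
    conv_lhs => rw [eeP]
    simp only [cost_onL, cost_snd, val_snd]
    conv_lhs => arg 2; arg 1; rw [un_succ]
    simp only [lcase_cons, cost_comp, cost_snd, val_comp, val_snd]
    conv_lhs => arg 2; arg 2; arg 1; rw [un_succ]
    simp only [lcase_cons, cost_comp, cost_fst, cost_pair, cost_snd, val_comp, val_fst, val_pair,
      val_snd]
    omega

end par

/-- TARGET -/
theorem specPar : SpecPar := by
  refine ⟨lt (.comp .fst chP) (.pair rrP (.pair (.comp .snd btP) eeP)), 1000, ?_⟩
  intro F _ _ p D n hp hF hn
  constructor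
  · intro hpD
    have h1 : ((chP : Pr [] Un Un).val (F := F) () (un D) : List Unit) = un p := by
      rw [val_chP (s := []) () p hp, un_len, min_eq_right hpD]
    have h2 := hp.two_le
    refine ⟨if (1 + 1 + 1 : F) = 0 then 2 else 3, Nat.clog p n, ?_, ?_, ?_, ?_, ?_, ?_⟩
    · split_ifs <;> simp
    · split_ifs with h
      · push_cast
        intro h'
        have e : (1 + 1 + 1 : F) = 2 + 1 := by norm_num
        rw [e, h', zero_add] at h
        exact one_ne_zero h
      · push_cast
        intro h'
        apply h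
        rw [← h']
        norm_num
    · exact Nat.le_pow_clog (by omega) n
    · rcases Nat.lt_or_ge n 2 with h | h
      · have : n = 1 := by omega
        subst this
        simp
        omega
      · have h3 := Nat.pow_pred_clog_lt_self (b := p) (x := n) (by omega) (by omega)
        have h4 : 0 < Nat.clog p n := Nat.clog_pos (by omega) (by omega)
        obtain ⟨e, he⟩ : ∃ e, Nat.clog p n = e + 1 := ⟨Nat.clog p n - 1, by omega⟩
        rw [he] at h3 ⊢
        simp only [Nat.pred_succ] at h3
        rw [pow_succ]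
        exact Nat.mul_le_mul_right p h3.le
    · unfold lgc
      have : Nat.clog p n ≤ Nat.clog 2 n := Nat.clog_anti_left (by norm_num) (by omega)
      omega
    · simp only [val_lt, val_comp, val_fst, val_pair, val_snd]
      rw [h1, val_btP, val_eeP (s := []) () D n p h2]
      congr 1
      by_cases h : (1 + 1 + 1 : F) = 0
      · rw [if_pos h]
        simp [rrP, h, un]
      · rw [if_neg h]
        simp [rrP, h, un]
  · have h1 : ((chP : Pr [] Un Un).val (F := F) () (un D) : List Unit) = un (min D p) := by
      rw [val_chP (s := []) () p hp, un_len]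
    have h2 := cost_chP (F := F) (s := []) (b := .unit) () () (un D)
    rw [un_len] at h2
    have h3 := cost_btP (F := F) (s := []) () () (min D p)
    have h4 := cost_eeP (F := F) (s := []) () () D n (min D p)
    have h5 : (rrP : Pr [] (.prod (.prod Un Un) Un) Un).cost (F := F) () ()
        ((un D, un n), un (min D p)) ≤ 30 := by
      by_cases h : (1 + 1 + 1 : F) = 0
      · simp [rrP, h]
      · simp [rrP, h]
    simp only [cost_lt, cost_comp, cost_fst, cost_pair, cost_snd, val_comp, val_fst, val_snd]
    rw [h1]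
    have h6 : min D p ≤ D := min_le_left _ _
    have h7 : 200 * n * (min D p + 1) ≤ 200 * n * (D + 1) := by gcongr
    nlinarith
end Pool.Agent.H330AB.JJ12
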