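import Pool.Agent.H330AB.SpecA2
set_option autoImplicit false
noncomputable section
namespace Pool.Agent.H330AB.JJ13
open Polynomial Pool.Agent.H330FB

/-! ### polynomials given by lists -/

theorem pr_coeff {R : Type} [CommRing R] (l : List R) (i : ℕ) : (pol l).coeff i = l.getD i 0 := by
  induction l generalizing i with
  | nil => simp [pol]
  | cons x l ih =>
    cases i with
    | zero => simp [pol]
    | succ i => simp [pol, coeff_C_succ, ih]

theorem pr_fit {R : Type} [CommRing R] (n : ℕ) (l : List R) (h : l.length ≤ n) :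
    pol (fit n 0 l) = pol l := by
  induction n generalizing l with
  | zero =>
    have : l = [] := List.length_eq_zero_iff.mp (by omega)
    subst this; simp [fit]
  | succ n ih =>
    cases l with
    | nil =>
      have := ih [] (by simp)
      simp only [pol] at this
      simp [fit, pol, this]
    | cons x l => simp [fit, pol, ih l (by simpa using h)]

theorem pr_smul {R : Type} [CommRing R] (a : R) (l : List R) :
    pol (l.map (fun x => a * x)) = C a * pol l := by
  induction l with
  | nil => simp [pol]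
  | cons x l ih => simp [pol, ih]; ring

theorem pr_app {R : Type} [CommRing R] (l : List R) (x : R) :
    pol (l ++ [x]) = pol l + C x * X ^ l.length := by
  induction l with
  | nil => simp [pol]
  | cons y l ih => simp [pol, ih, pow_succ]; ring

/-! ### total degree -/

theorem pr_TD_mul {A : Type} [CommRing A] (f g : A[X][X]) (m n : ℕ) (hf : TD f m) (hg : TD g n) :
    TD (f * g) (m + n) := by
  intro i j hij
  rw [coeff_mul, finsetSum_coeff]
  refine Finset.sum_eq_zero fun x hx => ?_
  rw [coeff_mul]
  refine Finset.sum_eq_zero fun y hy => ?_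
  have hx' := Finset.HasAntidiagonal.mem_antidiagonal.mp hx
  have hy' := Finset.HasAntidiagonal.mem_antidiagonal.mp hy
  by_cases h : m < x.1 + y.1
  · rw [hf _ _ h, zero_mul]
  · rw [hg x.2 y.2 (by omega), mul_zero]

theorem pr_TD_add {A : Type} [CommRing A] (f g : A[X][X]) (m : ℕ) (hf : TD f m) (hg : TD g m) :
    TD (f + g) m := by
  intro i j hij
  rw [coeff_add, coeff_add, hf _ _ hij, hg _ _ hij, add_zero]

theorem pr_TD_mono {A : Type} [CommRing A] (f : A[X][X]) (m n : ℕ) (h : m ≤ n) (hf : TD f m) :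
    TD f n := fun i j hij => hf i j (by omega)

theorem pr_TD_sum {A : Type} [CommRing A] {ι : Type} (s : Finset ι) (f : ι → A[X][X]) (m : ℕ)
    (hf : ∀ i ∈ s, TD (f i) m) : TD (∑ i ∈ s, f i) m := by
  intro i j hij
  rw [finsetSum_coeff, finsetSum_coeff]
  exact Finset.sum_eq_zero fun x hx => hf x hx i j hij

theorem pr_TD_C {A : Type} [CommRing A] (c : A) : TD (C (C c) : A[X][X]) 0 := by
  intro i j hij
  rw [coeff_C]
  split_ifs with h
  · rw [coeff_C, if_neg (by omega)]
  · rw [coeff_zero]

theorem pr_TD_X {A : Type} [CommRing A] : TD (X : A[X][X]) 1 := by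
  intro i j hij
  rw [coeff_X]
  split_ifs with h
  · rw [coeff_one, if_neg (by omega)]
  · rw [coeff_zero]

theorem pr_TD_CX {A : Type} [CommRing A] : TD (C X : A[X][X]) 1 := by
  intro i j hij
  rw [coeff_C]
  split_ifs with h
  · rw [coeff_X, if_neg (by omega)]
  · rw [coeff_zero]

theorem pr_TD_pow {A : Type} [CommRing A] (f : A[X][X]) (m k : ℕ) (hf : TD f m) :
    TD (f ^ k) (m * k) := by
  induction k with
  | zero =>
    rw [pow_zero, mul_zero]
    have := pr_TD_C (1 : A)
    simpa using this
  | succ k ih => rw [pow_succ, mul_add, mul_one]; exact pr_TD_mul _ _ _ _ ih hf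

theorem pr_TD_sub {K : Type} [Field K] (a b : K) (d : ℕ) (H : List (List K)) (hH : IsHom d H) :
    TD (sub a b (hom H)) d := by
  rw [hom, map_sum]
  refine pr_TD_sum _ _ _ fun k hk => ?_
  rw [map_sum]
  refine pr_TD_sum _ _ _ fun j hj => ?_
  rw [Finset.mem_range] at hk hj
  rw [hH.1] at hk
  have e : sub a b (C (C ((H.getD k []).getD j 0) * X ^ j) * X ^ (k - j)) =
      C (C ((H.getD k []).getD j 0)) * (C (X + C b) + C (C a) * X) ^ j * X ^ (k - j) := by
    simp only [sub, coe_eval₂RingHom, eval₂_C, eval₂_X, map_mul, map_pow, RingHom.comp_apply]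
  rw [e]
  have h1 : TD (C (X + C b) + C (C a) * X : K[X][X]) 1 := by
    refine pr_TD_add _ _ _ ?_ ?_
    · rw [C_add]
      exact pr_TD_add _ _ _ pr_TD_CX (pr_TD_mono _ 0 1 (by omega) (pr_TD_C _))
    · have := pr_TD_mul _ _ _ _ (pr_TD_C a) (pr_TD_X (A := K))
      simpa using this
  have h2 := pr_TD_mul _ _ _ _ (pr_TD_mul _ _ _ _ (pr_TD_C ((H.getD k []).getD j 0))
    (pr_TD_pow _ _ j h1)) (pr_TD_pow _ _ (k - j) (pr_TD_X (A := K)))
  exact pr_TD_mono _ _ _ (by omega) h2

/-! ### the program -/

/-- first entry, or zero -/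
def prHd {s : List (Ty × Ty)} : Pr s Po .fld := onL .id .zero (.comp .snd .fst)

/-- multiplication of a row by a constant, and padding; input `((s, c), row)` -/
def prRow {s : List (Ty × Ty)} : Pr s (.prod (.prod Un .fld) Po) Po :=
  .comp (.pair (.comp .fst .fst) (.pair .zero
    (.comp (.pair (.comp .fst .snd) .snd) (mapP .mul)))) fitP

/-- the program -/
def prW (q : Pr [] (.prod .fld (.prod .fld Ma)) Ma) :
    Pr [] (.prod Un (.prod .fld (.prod .fld Ma))) (.prod .fld Ma) :=
  onL (.comp (.comp .snd q) revP) (.pair .zero .nil)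
    (lt (.comp (.comp .snd .fst) prHd)
      (.pair .snd (.comp (.pair (.pair (.comp (.comp .fst .fst) .fst) (.comp .snd .inv))
        (.comp (.comp (.comp .fst .snd) .snd) revP)) (mapP prRow))))

section
variable {F : Type} [Field F] [DecidableEq F]

@[simp] theorem val_prHd {s : List (Ty × Ty)} (v : SV F s) (x : List F) :
    (prHd : Pr s Po .fld).val v x = (x.getD 0 0 : F) := by
  cases x <;> simp [prHd]

theorem cost_prHd {s : List (Ty × Ty)} (v : SV F s) (k : SC F s) (x : List F) :
    (prHd : Pr s Po .fld).cost v k x ≤ 6 := by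
  cases x <;> simp [prHd]

@[simp] theorem val_prRow {s : List (Ty × Ty)} (v : SV F s)
    (x : Ty.D F (.prod (.prod Un .fld) Po)) :
    (prRow : Pr s (.prod (.prod Un .fld) Po) Po).val v x =
      fit (List.length x.1.1) (0 : F) (List.map (fun y : F => (x.1.2 : F) * y) x.2) := by
  simp [prRow]

theorem cost_prRow {s : List (Ty × Ty)} (v : SV F s) (k : SC F s)
    (x : Ty.D F (.prod (.prod Un .fld) Po)) :
    (prRow : Pr s (.prod (.prod Un .fld) Po) Po).cost v k x ≤
      14 * List.length x.2 + 20 * List.length x.1.1 + 20 := by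
  obtain ⟨⟨u, c⟩, r⟩ := x
  have h1 := cost_mapP_le (s := s) (c := .fld) (a := .fld) (b := .fld) .mul v k (c, r) 1
    (fun _ _ => by simp)
  have h2 := cost_fitP (s := s) (a := .fld) (b := .unit) v k
    (u, ((0 : F), (mapP (c := .fld) .mul : Pr s (.prod .fld Po) Po).val v (c, r)))
  have e : (prRow : Pr s (.prod (.prod Un .fld) Po) Po).cost v k ((u, c), r) =
      (mapP (c := .fld) .mul : Pr s (.prod .fld Po) Po).cost v k (c, r) +
      (fitP (a := .fld) (b := .unit) : Pr s _ _).cost v k
    (u, ((0 : F), (mapP (c := .fld) .mul : Pr s (.prod .fld Po) Po).val v (c, r))) + 9 := by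
    simp only [prRow, cost_comp, cost_pair, cost_fst, cost_snd, cost_zero, val_comp, val_pair,
      val_fst, val_snd, val_zero]
    omega
  rw [e]
  dsimp only at h1 h2 ⊢
  omega

/-- value of the program -/
theorem val_prW (q : Pr [] (.prod .fld (.prod .fld Ma)) Ma)
    (x : Ty.D F (.prod Un (.prod .fld (.prod .fld Ma)))) (L : List (List F)) (t : List F)
    (h : (q.val () x.2 : List (List F)) = L ++ [t]) :
    (prW q).val () x = (t.getD 0 0, L.map (fun r =>
      fit (List.length x.1) (0 : F) (r.map (fun y => (t.getD 0 0)⁻¹ * y)))) := by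
  have h2 : List.reverse (q.val () x.2 : List (List F)) = t :: L.reverse := by
    rw [h, List.reverse_append]; rfl
  simp only [prW, val_onL, val_comp, val_revP, val_snd]
  rw [h2]
  simp only [lcase_cons, val_lt, val_pair, val_comp, val_snd, val_fst, val_inv, val_mapP,
    val_revP, val_prHd, val_prRow, List.reverse_reverse]

theorem cost_prW (q : Pr [] (.prod .fld (.prod .fld Ma)) Ma)
    (x : Ty.D F (.prod Un (.prod .fld (.prod .fld Ma)))) (L : List (List F)) (t : List F) (n : ℕ)
    (h : (q.val () x.2 : List (List F)) = L ++ [t]) (hL : ∀ r ∈ L, r.length = n) :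
    (prW q).cost () () x ≤ q.cost () () x.2 + 66 * L.length + 120 +
      (14 * n + 20 * List.length x.1 + 33) * L.length := by
  have h2 : List.reverse (q.val () x.2 : List (List F)) = t :: L.reverse := by
    rw [h, List.reverse_append]; rfl
  have c1 := cost_revP (s := []) () () (q.val () x.2)
  have c2 := cost_revP (s := []) (a := Po) () () L.reverse
  have c3 := cost_prHd (s := []) () () t
  have c4 := cost_mapP_le (s := []) (c := .prod Un .fld) (a := Po) (b := Po) prRow () ()
    ((x.1, ((t.getD 0 0)⁻¹ : F)), L) (14 * n + 20 * List.length x.1 + 20) (fun y hy => by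
      have := cost_prRow (s := []) () () ((x.1, ((t.getD 0 0)⁻¹ : F)), y)
      have e := hL y hy
      dsimp only at this
      rw [e] at this
      exact this)
  have hl : List.length (q.val () x.2) = L.length + 1 := by
    have := congrArg List.length h
    rw [List.length_append] at this
    exact this
  have e : (prW q).cost () () x = q.cost () () x.2 +
      (revP : Pr [] Ma Ma).cost () () (q.val () x.2) +
      (prHd : Pr [] Po .fld).cost () () t + (revP : Pr [] Ma Ma).cost () () L.reverse +
      (mapP prRow : Pr [] (.prod (.prod Un .fld) Ma) Ma).cost () ()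
        ((x.1, ((t.getD 0 0)⁻¹ : F)), L) + 20 := by
    simp only [prW, cost_onL, cost_comp, cost_snd, val_comp, val_revP, val_snd]
    rw [h2]
    simp only [lcase_cons, cost_lt, cost_pair, cost_comp, cost_snd, cost_fst, cost_inv, val_pair,
      val_comp, val_snd, val_fst, val_inv, val_revP, val_prHd, List.reverse_reverse]
    omega
  rw [e]
  rw [hl] at c1
  rw [List.length_reverse] at c2
  have c4' : (mapP prRow : Pr [] (.prod (.prod Un .fld) Ma) Ma).cost () ()
        ((x.1, ((t.getD 0 0)⁻¹ : F)), L) ≤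
      (14 * n + 20 * List.length x.1 + 33) * L.length + 5 := c4
  omega

end

/-! ### the result -/

theorem pr_correct {F : Type} [Field F] (a b : F) (d s : ℕ) (H : List (List F)) (hH : IsHom d H)
    (hs : d + 1 ≤ s) (L : List (List F)) (t : List F) (hl : (L ++ [t]).length = d + 1)
    (hsh : Sh (d + 1) (L ++ [t])) (hb : biv (L ++ [t]) = sub a b (hom H)) :
    t.getD 0 0 = ((sub a b (hom H)).coeff d).coeff 0 ∧
    (t.getD 0 0 ≠ 0 → sub a b (hom H) = Polynomial.C (Polynomial.C (t.getD 0 0)) *
      mbiv (L.map (fun r => fit s (0 : F) (r.map (fun y => (t.getD 0 0)⁻¹ * y)))) ∧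
      TD (mbiv (L.map (fun r => fit s (0 : F) (r.map (fun y => (t.getD 0 0)⁻¹ * y))))) d) := by
  have hd : L.length = d := by simpa using hl
  have htd := pr_TD_sub a b d H hH
  have hb1 : sub a b (hom H) = biv L + C (pol t) * X ^ d := by
    rw [← hb, biv, List.map_append, List.map_cons, List.map_nil, pr_app, List.length_map, hd]
    rfl
  have hc : (sub a b (hom H)).coeff d = pol t := by
    rw [hb1, coeff_add, biv, pr_coeff, coeff_C_mul, coeff_X_pow, if_pos rfl, mul_one,
      List.getD_eq_getElem?_getD, List.getElem?_eq_none (by simp [hd])]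
    simp
  have ht : pol t = C (t.getD 0 0) := by
    refine Polynomial.ext fun j => ?_
    rw [coeff_C]
    split_ifs with h
    · rw [h, pr_coeff]
    · rw [← hc]; exact htd d j (by omega)
  refine ⟨by rw [hc, pr_coeff], fun h0 => ?_⟩
  set c := t.getD 0 0 with hcd
  have hm : biv (L.map (fun r => fit s (0 : F) (r.map (fun y => c⁻¹ * y)))) =
      C (C c⁻¹) * biv L := by
    rw [biv, biv, ← pr_smul, List.map_map, List.map_map]
    congr 1
    refine List.map_congr_left fun r hr => ?_
    simp only [Function.comp_apply]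
    rw [pr_fit _ _ (by rw [List.length_map, hsh r (by simp [hr])]; exact hs), pr_smul]
  have hcc : (C (C c) : F[X][X]) * C (C c⁻¹) = 1 := by
    rw [← C_mul, ← C_mul, mul_inv_cancel₀ h0, C_1, C_1]
  have e1 : sub a b (hom H) = C (C c) *
      mbiv (L.map (fun r => fit s (0 : F) (r.map (fun y => c⁻¹ * y)))) := by
    rw [hb1, ht, mbiv, hm, List.length_map, hd, mul_add, ← mul_assoc, hcc]
    ring
  refine ⟨e1, ?_⟩
  have e2 : mbiv (L.map (fun r => fit s (0 : F) (r.map (fun y => c⁻¹ * y)))) =
      C (C c⁻¹) * sub a b (hom H) := by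
    rw [e1, ← mul_assoc, mul_comm (C (C c⁻¹)), hcc, one_mul]
  rw [e2]
  have := pr_TD_mul _ _ _ _ (pr_TD_C c⁻¹) htd
  simpa using this

/- SpecCoF (H330FB/Spec3) gives the rows (length d+1) of sub a b (hom H), powers of x. The total degree of sub a b (hom H) is at most d, so the top row (x^d) is constant, c = its first entry. The output is (c, the lower d rows multiplied by c⁻¹ and padded by fit to
length s). -/
/-- TARGET -/
theorem specPrep (h : SpecCoF) : SpecPrep := by
  obtain ⟨q, C0, hq⟩ := h
  refine ⟨prW q, C0 + 300, ?_⟩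
  intro F _ _ a b d s H hH hd hs
  obtain ⟨h1, h2, h3, h4⟩ := hq F a b d H hH
  obtain ⟨L, t, hLt⟩ : ∃ (L : List (List F)) (t : List F),
      (q.val () (a, (b, H)) : List (List F)) = L ++ [t] := by
    have hne : (q.val () (a, (b, H)) : List (List F)) ≠ [] := by
      intro h0
      rw [h0] at h1
      simp at h1
    exact ⟨_, _, (List.dropLast_append_getLast hne).symm⟩
  have hv := val_prW q (un s, (a, (b, H))) L t hLt
  have hlen : (L ++ [t]).length = d + 1 := by rw [← hLt]; exact h1
  have hsh : Sh (d + 1) (L ++ [t]) := by rw [← hLt]; exact h2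
  have hL : L.length = d := by simpa using hlen
  have hus : List.length (un s) = s := List.length_replicate
  have hco := cost_prW q (un s, (a, (b, H))) L t (d + 1) hLt (fun r hr => hsh r (by simp [hr]))
  obtain ⟨g1, g2⟩ := pr_correct a b d s H hH hs L t hlen hsh (by rw [← hLt]; exact h3)
  intro r
  have hr : r = (t.getD 0 0, L.map (fun r =>
      fit s (0 : F) (r.map (fun y => (t.getD 0 0)⁻¹ * y)))) := by
    have : r = _ := hv
    rw [this]
    dsimp only
    rw [hus]
  have hr1 : r.1 = t.getD 0 0 := by rw [hr]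
  have hr2 : r.2 = L.map (fun r =>
      fit s (0 : F) (r.map (fun y => (t.getD 0 0)⁻¹ * y))) := by rw [hr]
  refine ⟨by rw [hr1]; exact g1, by rw [hr2, List.length_map, hL], ?_, ?_, ?_⟩
  · intro x hx
    rw [hr2] at hx
    obtain ⟨y, _, rfl⟩ := List.mem_map.mp hx
    exact length_fit _ _ _
  · rw [hr1, hr2]; exact g2
  · have hco2 : (prW q).cost () () (un s, (a, (b, H))) ≤ q.cost () () (a, (b, H)) +
        66 * L.length + 120 + (14 * (d + 1) + 20 * (un s).length + 33) * L.length := hco
    have hus2 : (un s).length = s := hus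
    rw [hL, hus2] at hco2
    obtain ⟨u, rfl⟩ : ∃ u, s = d + 1 + u := ⟨s - (d + 1), by omega⟩
    have e1 : (14 * (d + 1) + 20 * (d + 1 + u) + 33) * d ≤ 67 * (d + 1 + u + 1) ^ 2 := by
      have h5 : (14 * (d + 1) + 20 * (d + 1 + u) + 33) ≤ 67 * (d + 1 + u + 1) := by omega
      have h6 : d ≤ d + 1 + u + 1 := by omega
      calc _ ≤ 67 * (d + 1 + u + 1) * (d + 1 + u + 1) := Nat.mul_le_mul h5 h6
        _ = _ := by ring
    have e2 : 66 * d + 120 ≤ 186 * (d + 1 + u + 1) ^ 2 := by
      have h5 : 66 * d + 120 ≤ 186 * (d + 1 + u + 1) := by omega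
      have h6 : (d + 1 + u + 1) ≤ (d + 1 + u + 1) ^ 2 := Nat.le_self_pow (by norm_num) _
      omega
    have e3 : C0 * ww (d + 1) ≤ (C0 + 300) * ww (d + 1) := Nat.mul_le_mul_right _ (by omega)
    have e4 : 253 * (d + 1 + u + 1) ^ 2 ≤ (C0 + 300) * (d + 1 + u + 1) ^ 2 :=
      Nat.mul_le_mul_right _ (by omega)
    have e5 : (C0 + 300) * (ww (d + 1) + (d + 1 + u + 1) ^ 2) =
      (C0 + 300) * ww (d + 1) + (C0 + 300) * (d + 1 + u + 1) ^ 2 := mul_add _ _ _
    rw [e5]
    refine hco2.trans ?_
    have h7 : q.cost () () (a, (b, H)) ≤ C0 * ww (d + 1) := h4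
    linarith

end Pool.Agent.H330AB.JJ13
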