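import Pool.Agent.H330AB.SpecA2
set_option autoImplicit false
noncomputable section
namespace Pool.Agent.H330AB.JJ14
open Polynomial Pool.Agent.H330FB
/- Compute the derivative h' of mpol h (length n = h.length, including the term n X^(n-1)), v = SpecInv (h', h), and test whether v h' = 1 modulo h (SpecNaive, compare with the list [1, 0, ..., 0]; for n ≥ 1). If they are coprime then v is the inverse; conversely
v h' = 1 mod h implies coprime. -/

section sqt
variable {F : Type} [Field F] [DecidableEq F] {s : List (Ty × Ty)}

/-- the entries are multiplied by c, c + 1, c + 2 and so on -/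
def sqtD {F : Type} [Field F] : F → List F → List F
  | _, [] => []
  | c, x :: l => (c * x) :: sqtD (c + 1) l

theorem sqtD_length {F : Type} [Field F] (c : F) (l : List F) : (sqtD c l).length = l.length := by
  induction l generalizing c with
  | nil => rfl
  | cons x l ih => simp [sqtD, ih]

theorem sqtD_pol {F : Type} [Field F] (c : F) (l : List F) :
    pol (sqtD c l) = C c * pol l + X * derivative (pol l) := by
  induction l generalizing c with
  | nil => simp [sqtD, pol]
  | cons x l ih =>
    simp only [sqtD, pol, ih, C_mul, C_add, derivative_add, derivative_C, derivative_mul,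
      derivative_X, map_one]
    ring

theorem sqt_pol_append {F : Type} [Field F] (a b : List F) : pol (a ++ b) = pol a + X ^ a.length * pol b := by
  induction a with
  | nil => simp [pol]
  | cons x a ih =>
    simp only [List.cons_append, pol, ih, List.length_cons]
    ring

theorem sqt_mpol {F : Type} [Field F] (h : List F) : mpol h = pol (h ++ [1]) := by
  rw [sqt_pol_append]
  simp [mpol, pol]
  ring

/-- the list of the coefficients of the derivative of `mpol h` -/
def sqtDer {F : Type} [Field F] : List F → List F
  | [] => []
  | _ :: t => sqtD 1 (t ++ [1])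

theorem sqtDer_length {F : Type} [Field F] (h : List F) : (sqtDer h).length = h.length := by
  cases h with
  | nil => rfl
  | cons x t => simp [sqtDer, sqtD_length]

theorem sqtDer_pol {F : Type} [Field F] (h : List F) (hh : 1 ≤ h.length) : pol (sqtDer h) = derivative (mpol h) := by
  cases h with
  | nil => simp at hh
  | cons x t =>
    rw [sqt_mpol, List.cons_append]
    simp only [sqtDer, sqtD_pol, pol, derivative_add, derivative_C, derivative_mul,
      derivative_X, map_one]
    ring

/-- body of the recursion -/
def sqtB : Pr ((.prod .fld Po, Po) :: s) (.prod .fld Po) Po :=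
  .caseL .nil (.comp (.pair (.comp (.pair .fst (.comp .snd .fst)) .mul)
    (.comp (.pair (.comp (.pair .fst .one) .add) (.comp .snd .snd)) .self)) .cons)

/-- input `(c, l)` -/
def sqtDP : Pr s (.prod .fld Po) Po := .comp (.pair .snd .id) (.recD sqtB .nil)

theorem val_sqtDP (v : SV F s) (x : Ty.D F (.prod .fld Po)) :
    (sqtDP : Pr s (.prod .fld Po) Po).val v x = sqtD (x.1 : F) (x.2 : List F) := by
  obtain ⟨c, l⟩ := x
  simp only [sqtDP, val_comp, val_pair, val_snd, val_id, val_recD]
  induction l generalizing c with
  | nil => simp [goV, sqtB, sqtD]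
  | cons h t ih =>
    have := ih (c + 1)
    simp [goV, sqtB, sqtD] at this ⊢
    exact this

theorem cost_sqtDP (v : SV F s) (k : SC F s) (x : Ty.D F (.prod .fld Po)) :
    (sqtDP : Pr s (.prod .fld Po) Po).cost v k x ≤ 30 * List.length (x.2 : List F) + 10 := by
  obtain ⟨c, l⟩ := x
  simp only [sqtDP, cost_comp, cost_pair, cost_snd, cost_id, cost_recD, val_pair, val_snd, val_id]
  induction l generalizing c with
  | nil => simp [goC, sqtB]
  | cons h t ih =>
    have := ih (c + 1)
    simp [goC, sqtB] at this ⊢
    omega

/-- the derivative -/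
def sqtDerP : Pr s Po Po :=
  onL .id .nil (.comp (.pair .one (.comp (.pair (.comp .snd .snd) (.comp (.pair .one .nil) .cons))
    appP)) sqtDP)

theorem val_sqtDerP (v : SV F s) (h : List F) :
    (sqtDerP : Pr s Po Po).val v h = sqtDer h := by
  cases h with
  | nil => simp [sqtDerP, sqtDer]
  | cons x t => simp [sqtDerP, sqtDer, val_sqtDP]

theorem cost_sqtDerP (v : SV F s) (k : SC F s) (h : List F) :
    (sqtDerP : Pr s Po Po).cost v k h ≤ 60 * h.length + 60 := by
  cases h with
  | nil => simp [sqtDerP]
  | cons x t =>
    have h1 := cost_sqtDP (s := s) (F := F) v k ((1 : F), (t ++ [1] : List F))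
    have h2 := cost_appP (s := s) (F := F) (a := .fld) v k (t, ([1] : List F))
    simp [sqtDerP] at h1 h2 ⊢
    omega

/-- the test -/
def sqtTP : Pr s Po Un :=
  onL .id .nil (.comp (.pair .star (.pair (.comp (.pair .star .nil) .cons)
    (.comp (.pair (.comp (.pair (.comp .snd .fst) (.comp .one .neg)) .add) (.comp .snd .snd))
      .cons))) (foldP (c := .unit) (b := Un) (a := .fld)
        (onZ (.comp .snd .snd) (.comp .snd .fst) .nil)))

theorem sqt_foldl_nil (l : List F) :
    List.foldl (fun (y : List Unit) (z : F) => if z = 0 then y else []) [] l = [] := by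
  induction l with
  | nil => simp
  | cons x l ih =>
    simp only [List.foldl_cons]
    by_cases hx : x = 0
    · simp only [hx, if_true, ih]
    · simp only [hx, if_false, ih]

theorem sqt_foldl (l : List F) (u : List Unit) :
    ((∀ z ∈ l, z = 0) →
      List.foldl (fun (y : List Unit) (z : F) => if z = 0 then y else []) u l = u) ∧
    ((¬ ∀ z ∈ l, z = 0) →
      List.foldl (fun (y : List Unit) (z : F) => if z = 0 then y else []) u l = []) := by
  induction l generalizing u with
  | nil => simp
  | cons x l ih =>
    constructor
    · intro h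
      have hx : x = 0 := h x (by simp)
      simp only [List.foldl_cons, hx, if_true]
      exact (ih u).1 (fun z hz => h z (by simp [hz]))
    · intro h
      by_cases hx : x = 0
      · simp only [List.foldl_cons, hx, if_true]
        refine (ih u).2 (fun h' => h ?_)
        intro z hz
        rcases List.mem_cons.1 hz with h2 | h2
        · rw [h2, hx]
        · exact h' z h2
      · simp only [List.foldl_cons, hx, if_false]
        exact sqt_foldl_nil l

theorem val_sqtTP_eq (v : SV F s) (x : F) (t : List F) :
    ((sqtTP : Pr s Po Un).val v (x :: t : List F) : List Unit) =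
      List.foldl (fun (y : List Unit) (z : F) => if z = 0 then y else []) [()] ((x - 1) :: t) := by
  simp only [sqtTP, val_onL, val_id, lcase_cons, val_comp, val_pair, val_star, val_nil, val_cons,
    val_snd, val_fst, val_one, val_neg, val_add, val_foldP, val_onZ, ← sub_eq_add_neg]

theorem val_sqtTP (v : SV F s) (x : F) (t : List F) :
    ((∀ z ∈ ((x - 1) :: t : List F), z = 0) →
      ((sqtTP : Pr s Po Un).val v (x :: t : List F) : List Unit) = un 1) ∧
    ((¬ ∀ z ∈ ((x - 1) :: t : List F), z = 0) →
      ((sqtTP : Pr s Po Un).val v (x :: t : List F) : List Unit) = un 0) := by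
  rw [val_sqtTP_eq]
  exact sqt_foldl ((x - 1) :: t : List F) [()]

theorem cost_sqtTP (v : SV F s) (k : SC F s) (h : List F) :
    (sqtTP : Pr s Po Un).cost v k h ≤ 60 * h.length + 60 := by
  cases h with
  | nil => simp [sqtTP]
  | cons x t =>
    have h1 := cost_foldP_le (s := s) (F := F) (c := .unit) (b := Un) (a := .fld)
      (onZ (.comp .snd .snd) (.comp .snd .fst) .nil) v k
      ((), (([()] : List Unit), ((x + -1) :: t : List F))) 10 (fun _ => True) trivial
      (fun _ _ _ _ => trivial) (fun y z _ _ => by
        simp only [cost_onZ, cost_comp, cost_snd, cost_fst, cost_nil]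
        split_ifs <;> omega)
    simp [sqtTP] at h1 ⊢
    omega

theorem sqt_test {F : Type} [Field F] (r : List F) (hr : 1 ≤ r.length) :
    ((pol r = 1) ↔ ∃ x t, r = x :: t ∧ ∀ z ∈ ((x - 1) :: t : List F), z = 0) := by
  cases r with
  | nil => simp at hr
  | cons x t =>
    have key : ∀ l : List F, pol l = 0 ↔ ∀ z ∈ l, z = 0 := by
      intro l
      induction l with
      | nil => simp [pol]
      | cons y l ih =>
        constructor
        · intro h
          have h0 : y = 0 := by
            have := congrArg (fun p => coeff p 0) h
            simpa [pol] using this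
          have h1 : pol l = 0 := by
            rw [pol, h0, map_zero, zero_add] at h
            exact (mul_eq_zero.1 h).resolve_left X_ne_zero
          intro z hz
          rcases List.mem_cons.1 hz with h2 | h2
          · rw [h2, h0]
          · exact ih.1 h1 z h2
        · intro h
          have h0 : y = 0 := h y (by simp)
          have h1 : pol l = 0 := ih.2 (fun z hz => h z (by simp [hz]))
          rw [pol, h0, h1]
          simp
    have e : pol (x :: t) - 1 = pol ((x - 1) :: t) := by
      simp only [pol, map_sub, map_one]
      ring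
    rw [← sub_eq_zero, e, key]
    constructor
    · intro h
      exact ⟨x, t, rfl, h⟩
    · rintro ⟨x', t', h1, h2⟩
      obtain ⟨rfl, rfl⟩ := List.cons.inj h1
      exact h2

theorem sqt_degree {F : Type} [Field F] (r : List F) : (pol r).degree < (r.length : WithBot ℕ) ∨ r = [] := by
  induction r with
  | nil => right; rfl
  | cons x l ih =>
    left
    have h1 : (X * pol l).degree < ((x :: l).length : WithBot ℕ) := by
      rcases ih with h | h
      · rw [X_mul, degree_mul, degree_X]
        rcases eq_or_ne (pol l) 0 with h0 | h0
        · rw [h0, degree_zero]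
          exact WithBot.bot_lt_coe _
        · rw [degree_eq_natDegree h0] at h ⊢
          have h2 : (pol l).natDegree < l.length := by exact_mod_cast h
          have h3 : (pol l).natDegree + 1 < (x :: l).length := by simp; omega
          exact_mod_cast h3
      · subst h
        simp only [pol, mul_zero, degree_zero]
        exact WithBot.bot_lt_coe _
    rw [pol]
    refine (degree_add_le _ _).trans_lt (max_lt ?_ h1)
    refine degree_C_le.trans_lt ?_
    have : 0 < (x :: l).length := by simp
    exact_mod_cast this

theorem sqt_degree_lt {F : Type} [Field F] (r h : List F) (hl : r.length = h.length) (hh : 1 ≤ h.length) :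
    (pol r).degree < (mpol h).degree ∧ (mpol h).degree = (h.length : WithBot ℕ) := by
  have hd : ∀ r : List F, 1 ≤ r.length → (pol r).degree < (r.length : WithBot ℕ) := by
    intro r hr
    rcases sqt_degree r with h | h
    · exact h
    · subst h
      simp at hr
  have e : (mpol h).degree = (h.length : WithBot ℕ) := by
    rw [mpol, degree_add_eq_left_of_degree_lt, degree_X_pow]
    rw [degree_X_pow]
    exact hd h hh
  refine ⟨?_, e⟩
  rw [e, ← hl]
  exact hd r (by omega)

end sqt

/-- TARGET -/
theorem specSqt (h1 : SpecInv) (h2 : SpecNaive) (h0 : SpecUnits) : SpecSqt := by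
  obtain ⟨pi, Ci, hi⟩ := h1
  obtain ⟨pn, Cn, hn⟩ := h2
  obtain ⟨-, -, -, -, -, -, hNN, -⟩ := h0
  refine ⟨lt sqtDerP (lt (.comp (.pair .snd .fst) pi) (.comp (.comp (.pair (.pair .snd
    (.comp .fst .snd)) (.comp .fst .fst)) pn) sqtTP)), Ci + Cn + 200, ?_⟩
  intro F _ _ h hh
  set d : List F := sqtDer h with hd
  have hdl : d.length = h.length := sqtDer_length h
  have hdp : pol d = derivative (mpol h) := sqtDer_pol h hh
  obtain ⟨hi1, hi2, hi3⟩ := hi F d h hdl
  set v : List F := pi.val () (d, h) with hv
  obtain ⟨hn1, hn2, hn3⟩ := hn F v d h hi2 hdl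
  set r : List F := pn.val () ((v, d), h) with hr
  have hval : Pr.val (F := F) (lt sqtDerP (lt (.comp (.pair .snd .fst) pi) (.comp (.comp (.pair (.pair .snd
    (.comp .fst .snd)) (.comp .fst .fst)) pn) sqtTP))) () h = (sqtTP : Pr [] Po Un).val () r := by
    simp only [val_lt, val_comp, val_pair, val_snd, val_fst, val_sqtDerP]
    rfl
  have hcost : Pr.cost (F := F) (lt sqtDerP (lt (.comp (.pair .snd .fst) pi) (.comp (.comp (.pair (.pair .snd
    (.comp .fst .snd)) (.comp .fst .fst)) pn) sqtTP))) () () h =
      (sqtDerP : Pr [] Po Po).cost () () h + ((2 + 1) + pi.cost () () (d, h) +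
        ((((1 + 2 + 1) + 2 + 1) + pn.cost () () ((v, d), h)) + (sqtTP : Pr [] Po Un).cost () () r)
          + 2) + 2 := by
    simp only [cost_lt, cost_comp, cost_pair, cost_snd, cost_fst, val_comp, val_pair, val_snd,
      val_fst, val_sqtDerP]
    rfl
  have hrl : r.length = h.length := hn1
  obtain ⟨x, t, hxt⟩ : ∃ x t, r = x :: t := by
    cases hr' : r with
    | nil => rw [hr'] at hrl; simp at hrl; omega
    | cons x t => exact ⟨x, t, rfl⟩
  have htest : pol r = 1 ↔ ∀ z ∈ ((x - 1) :: t : List F), z = 0 := by
    rw [sqt_test r (by omega)]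
    constructor
    · rintro ⟨x', t', e, he⟩
      rw [hxt] at e
      obtain ⟨rfl, rfl⟩ := List.cons.inj e
      exact he
    · intro h
      exact ⟨x, t, hxt, h⟩
  have hres : (pol r = 1 → ((sqtTP : Pr [] Po Un).val () r : List Unit) = un 1) ∧
      (¬ pol r = 1 → ((sqtTP : Pr [] Po Un).val () r : List Unit) = un 0) := by
    rw [htest, hxt]
    exact val_sqtTP (s := []) () x t
  have hcop : pol r = 1 ↔ IsCoprime (mpol h) (derivative (mpol h)) := by
    rw [← hdp]
    constructor
    · intro e
      rw [e] at hn2
      obtain ⟨w, hw⟩ := hn2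
      exact ⟨-w, pol v, by linear_combination hw⟩
    · intro hc
      have h3 := hi1 hc.symm
      have h4 : mpol h ∣ pol r - 1 := by
        have := dvd_sub h3 hn2
        have e : pol v * pol d - 1 - (pol v * pol d - pol r) = pol r - 1 := by ring
        rwa [e] at this
      have h5 := sqt_degree_lt r h hrl hh
      have h6 : (pol r - 1).degree < (mpol h).degree := by
        refine (degree_sub_le _ _).trans_lt (max_lt h5.1 ?_)
        rw [degree_one, h5.2]
        exact_mod_cast hh
      exact sub_eq_zero.1 (eq_zero_of_dvd_of_degree_lt h4 h6)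
  refine ⟨?_, ?_, ?_⟩
  · intro hc
    rw [hval, hres.1 (hcop.2 hc)]
  · intro hc
    rw [hval, hres.2 (fun e => hc (hcop.1 e))]
  · rw [hcost]
    have c1 := cost_sqtDerP (s := []) (F := F) () () h
    have c2 := cost_sqtTP (s := []) (F := F) () () r
    have c3 : (h.length + 1) ^ 2 ≤ ww (h.length + 1) := by
      rw [pow_two]
      exact hNN _
    have c4 : h.length + 1 ≤ ww (h.length + 1) := by nlinarith
    have c5 : Cn * (h.length + 1) ^ 2 ≤ Cn * ww (h.length + 1) := Nat.mul_le_mul_left _ c3
    rw [hrl] at c2
    have c6 : (Ci + Cn + 200) * ww (h.length + 1) = Ci * ww (h.length + 1) +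
      Cn * ww (h.length + 1) + 200 * ww (h.length + 1) := by ring
    rw [c6]
    omega

end Pool.Agent.H330AB.JJ14
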