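import Pool.Agent.H330AB.SpecA2
import Pool.Agent.H330FB.JS7
import Pool.Agent.H330FB.JR6
set_option autoImplicit false
noncomputable section
namespace Pool.Agent.H330AB.JJ15
open Polynomial Pool.Agent.H330FB Pool.Agent.H330FB.JS7

theorem coT_const {K : Type} [Field K] [CharZero K] (p : K[X]) (h : derivative p = 0) :
    ∃ c, p = C c := ⟨p.coeff 0, eq_C_of_derivative_eq_zero h⟩

theorem coT_pth {K : Type} [Field K] [IsAlgClosed K] (g : K[X][X]) (h1 : derivative g = 0)
    (h2 : S7dy g = 0) : ¬ Irreducible g := by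
  obtain ⟨p, hp⟩ := CharP.exists K
  have := hp
  rcases CharP.char_is_prime_or_zero K p with hp1 | hp0
  · have : Fact p.Prime := ⟨hp1⟩
    have hK : ∀ c : K, ∃ r : K, c = r ^ p := by
      intro c
      obtain ⟨r, hr⟩ := IsAlgClosed.exists_pow_nat_eq c hp1.pos
      exact ⟨r, hr.symm⟩
    have h3 : ∀ i, ∃ r : K[X], g.coeff i = r ^ p := by
      intro i
      refine S7frob p (g.coeff i) ?_ (fun j => hK _)
      have h4 := congrArg (fun q : K[X][X] => q.coeff i) h2
      simpa [S7dy_coeff] using h4
    obtain ⟨w, rfl⟩ := S7frob p g h1 h3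
    exact not_irreducible_pow hp1.ne_one
  · subst hp0
    have : CharZero K := CharP.charP_to_charZero K
    have h3 : g = C (g.coeff 0) := eq_C_of_derivative_eq_zero h1
    have h4 : derivative (g.coeff 0) = 0 := by
      have h5 := congrArg (fun q : K[X][X] => q.coeff 0) h2
      simpa [S7dy_coeff] using h5
    have h6 : g.coeff 0 = C ((g.coeff 0).coeff 0) := eq_C_of_derivative_eq_zero h4
    intro hg
    by_cases hc : (g.coeff 0).coeff 0 = 0
    · rw [hc, C_0] at h6
      rw [h6, C_0] at h3
      exact hg.ne_zero h3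
    · apply hg.not_isUnit
      rw [h3, h6]
      exact isUnit_C.2 (isUnit_C.2 (isUnit_iff_ne_zero.2 hc))

theorem coT_slope {K : Type} [Field K] [IsAlgClosed K] (g : K[X][X]) (hg : Irreducible g)
    (a a' : K) (h1 : derivative (sub a 0 g) = 0) (h2 : derivative (sub a' 0 g) = 0) : a = a' := by
  by_contra hne
  rw [S7deriv_sub, ← S7e_apply, EmbeddingLike.map_eq_zero_iff] at h1 h2
  have h3 : C (C (a - a')) * S7dy g = 0 := by
    have : C (C (a - a')) * S7dy g = (derivative g + C (C a) * S7dy g) -
      (derivative g + C (C a') * S7dy g) := by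
      rw [C_sub, C_sub]; ring
    rw [this, h1, h2, sub_zero]
  have h4 : S7dy g = 0 := by
    rcases mul_eq_zero.1 h3 with h | h
    · exact absurd (sub_eq_zero.1 (C_eq_zero.1 (C_eq_zero.1 h))) hne
    · exact h
  rw [h4, mul_zero, add_zero] at h1
  exact coT_pth g h1 h4 hg

theorem coT_bad {K : Type} [Field K] [IsAlgClosed K] (T : Finset K) (f : K[X][X]) (hf : f ≠ 0)
    (d : ℕ) (hTD : TD f d) : ∃ B : Finset K, B.card ≤ d ∧ ∀ a ∈ T, a ∉ B → ∀ g, Irreducible g →
      g ∣ f → derivative (sub a 0 g) ≠ 0 := by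
  classical
  refine ⟨(UniqueFactorizationMonoid.factors f).toFinset.biUnion
    (fun q => T.filter (fun a => derivative (sub a 0 q) = 0)), ?_, ?_⟩
  · refine (Finset.card_biUnion_le_card_mul _ _ 1 ?_).trans ?_
    · intro q hq
      rw [Finset.card_le_one]
      intro a ha a' ha'
      rw [Finset.mem_filter] at ha ha'
      exact coT_slope q (UniqueFactorizationMonoid.irreducible_of_factor q
        (Multiset.mem_toFinset.1 hq)) a a' ha.2 ha'.2
    · rw [mul_one]
      exact (Multiset.toFinset_card_le _).trans (S7card_factors f hf d hTD)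
  · intro a haT ha g hg hgf h0
    apply ha
    obtain ⟨q, hq, hgq⟩ := UniqueFactorizationMonoid.exists_mem_factors_of_dvd hf hg hgf
    rw [Finset.mem_biUnion]
    refine ⟨q, Multiset.mem_toFinset.2 hq, ?_⟩
    rw [Finset.mem_filter]
    exact ⟨haT, S7assoc a g q hgq h0⟩

theorem coT_res {K : Type} [DecidableEq K] (T B : Finset K) :
    (Finset.filter (fun a : {x // x ∈ T} => (a : K) ∈ B) Finset.univ).card ≤ B.card := by
  refine Finset.card_le_card_of_injOn Subtype.val ?_ ?_
  · intro x hx
    have := Finset.mem_coe.1 hx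
    exact (Finset.mem_filter.1 this).2
  · exact Subtype.val_injective.injOn

/-- TARGET -/
theorem coT : StmtCoT := by
  classical
  intro K _ _ d H T hH hd hTop
  have hTD := S7_TD_hom d H hH
  have hcoef := fun a b : K => S7sub_hom_coeff a b d H hH
  have htne := S7top_ne d H hH hTop
  have htdeg := S7top_deg d H
  have hf := S7hom_ne d H hH hTop
  obtain ⟨B2, hB2, hgood⟩ := coT_bad T (hom H) hf d hTD
  have hB : (Finset.filter (fun a : {x // x ∈ T} =>
      (a : K) ∈ (S7top d H).roots.toFinset ∪ B2) Finset.univ).card ≤ d + d := by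
    refine (coT_res T _).trans ?_
    refine (Finset.card_union_le _ _).trans (Nat.add_le_add ?_ hB2)
    exact (Multiset.toFinset_card_le _).trans ((card_roots' _).trans htdeg)
  have hc := S7count (K := {x // x ∈ T}) (fun a b => CoGood (a : K) (b : K) (hom H) d) _ (2 * d ^ 2 + d)
    (d + d) hB ?_
  · have h1 := Nat.mul_le_mul_right T.card hc
    refine h1.trans ?_
    rw [Fintype.card_coe, mul_assoc, ← pow_two]
    refine Nat.mul_le_mul_right _ ?_
    omega
  · intro a ha
    have ha' : (a : K) ∉ (S7top d H).roots.toFinset ∪ B2 := fun h =>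
      ha (Finset.mem_filter.2 ⟨Finset.mem_univ _, h⟩)
    rw [Finset.mem_union, not_or] at ha'
    have hu : (S7top d H).eval (a : K) ≠ 0 := by
      intro h0
      apply ha'.1
      rw [Multiset.mem_toFinset, mem_roots htne]
      exact h0
    obtain ⟨δ, hδ0, hδd, hδ⟩ := S7good_slope JR6.fewBad (a : K) (hom H) d _ hd hTD hu
      (hcoef (a : K)) (hgood (a : K) a.2 ha'.2)
    refine ⟨Finset.filter (fun b : {x // x ∈ T} => (b : K) ∈ δ.roots.toFinset) Finset.univ,
      (coT_res T _).trans ((Multiset.toFinset_card_le _).trans ((card_roots' _).trans hδd)), ?_⟩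
    intro b hb
    rw [Finset.mem_filter]
    refine ⟨Finset.mem_univ _, ?_⟩
    rw [Multiset.mem_toFinset, mem_roots hδ0]
    by_contra hcon
    exact hb (hδ b hcon)

end Pool.Agent.H330AB.JJ15
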