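import Pool.Agent.H330AB.SpecA2
set_option autoImplicit false
noncomputable section
namespace Pool.Agent.H330AB.JJ16
open Polynomial Pool.Agent.H330FB

section irrCst
variable {k : Type} [Field k] {n : ℕ} {S : k[X][X]} {φ : Fin n → PowerSeries k}

theorem ic_ev_eq (ψ : PowerSeries k) (G : k[X][X]) :
    ev ψ G = (G.map Polynomial.coeToPowerSeries.ringHom).eval ψ := by
  rw [ev, eval₂_eq_eval_map]

theorem ic_ev_mul (ψ : PowerSeries k) (G H : k[X][X]) : ev ψ (G * H) = ev ψ G * ev ψ H := by
  simp only [ev, eval₂_mul]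

theorem ic_ev_S (h : Rts S φ) (i : Fin n) : ev (φ i) S = 0 := by
  rw [ic_ev_eq, h.prod, eval_prod]
  exact Finset.prod_eq_zero (Finset.mem_univ i) (by simp)

theorem ic_inj (h : Rts S φ) : Function.Injective φ := fun i j hij => h.inj (by simp only [hij])

theorem ic_deriv (h : Rts S φ) (i : Fin n) :
    (derivative (S.map Polynomial.coeToPowerSeries.ringHom)).eval (φ i) ≠ 0 := by
  rw [h.prod, derivative_prod_finset, eval_finsetSum, Finset.sum_eq_single i]
  · rw [eval_mul, eval_prod]
    simp only [derivative_sub, derivative_X, derivative_C, sub_zero, eval_one, mul_one, eval_sub,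
      eval_X, eval_C]
    refine Finset.prod_ne_zero_iff.2 fun j hj => ?_
    rw [Finset.mem_erase] at hj
    exact sub_ne_zero.2 fun e => hj.1 (ic_inj h e.symm)
  · intro j _ hji
    rw [eval_mul, eval_prod]
    have : ∏ x ∈ Finset.univ.erase j, eval (φ i) (X - C (φ x)) = 0 :=
      Finset.prod_eq_zero (Finset.mem_erase.2 ⟨hji.symm, Finset.mem_univ i⟩) (by simp)
    rw [this, zero_mul]
  · intro hi
    exact absurd (Finset.mem_univ i) hi

/-- simple roots -/
theorem ic_simple (h : Rts S φ) (i : Fin n) {g q : k[X][X]} (hS : S = g * q)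
    (h1 : ev (φ i) g = 0) (h2 : ev (φ i) q = 0) : False := by
  apply ic_deriv h i
  rw [hS, Polynomial.map_mul, derivative_mul, eval_add, eval_mul, eval_mul, ← ic_ev_eq,
    ← ic_ev_eq, h1, h2, mul_zero, zero_mul, add_zero]

theorem ic_dvd (h : Rts S φ) (i : Fin n) {g g' : k[X][X]} (hg : g ∣ S) (hg' : g' ∣ S)
    (hi' : Irreducible g) (hi : Irreducible g') (h1 : ev (φ i) g = 0) (h2 : ev (φ i) g' = 0)
    (j : Fin n) (hj : ev (φ j) g' = 0) : ev (φ j) g = 0 := by
  obtain ⟨q, hq⟩ := hg
  have hp : Prime g' := hi.prime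
  rcases hp.dvd_or_dvd (hq ▸ hg') with hd | hd
  · obtain ⟨u, hu⟩ := hd
    rw [hu, ic_ev_mul, hj, zero_mul]
  · obtain ⟨u, hu⟩ := hd
    exact (ic_simple h i hq h1 (by rw [hu, ic_ev_mul, h2, zero_mul])).elim

theorem ic_roots (h : Rts S φ) {g : k[X][X]} (hd : g.natDegree < n)
    (hr : ∀ i, ev (φ i) g = 0) : g = 0 := by
  have h0 : g.map (Polynomial.coeToPowerSeries.ringHom (R := k)) = 0 := by
    refine Polynomial.eq_zero_of_natDegree_lt_card_of_eval_eq_zero _ (ic_inj h) ?_ ?_
    · intro i
      rw [← ic_ev_eq]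
      exact hr i
    · rw [Fintype.card_fin]
      exact lt_of_le_of_lt natDegree_map_le hd
  have hinj : Function.Injective (Polynomial.coeToPowerSeries.ringHom (R := k)) := by
    intro a b hab
    exact Polynomial.coe_injective k hab
  exact (Polynomial.map_eq_zero_iff hinj).1 h0

end irrCst

/-- TARGET -/
theorem irrCst : StmtIrrCst := by
  intro k _ _ n S φ h
  classical
  have : Nonempty (Fin n) := ⟨⟨0, h.pos⟩⟩
  have hone : Cst S φ (fun _ => (1 : k)) := fun i j _ => rfl
  constructor
  · intro hirr
    have hspan : Submodule.span k {l | Cst S φ l} = Submodule.span k {(fun _ => (1 : k) : Fin n → k)} := by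
      apply le_antisymm
      · rw [Submodule.span_le]
        intro l hl
        have hc : ∀ i j, l i = l j := fun i j =>
          hl i j ⟨S, hirr, dvd_refl _, ic_ev_S h i, ic_ev_S h j⟩
        refine Submodule.mem_span_singleton.2 ⟨l ⟨0, h.pos⟩, ?_⟩
        funext i
        simp [hc ⟨0, h.pos⟩ i]
      · rw [Submodule.span_le]
        intro l hl
        rw [Set.mem_singleton_iff] at hl
        exact Submodule.subset_span (hl ▸ hone)
    rw [hspan]
    exact finrank_span_singleton (by
      intro hz
      have := congrFun hz ⟨0, h.pos⟩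
      simp at this)
  · intro hfin
    by_contra hirr
    have hS0 : S ≠ 0 := h.monic.ne_zero
    have hSu : ¬ IsUnit S := by
      intro hu
      have := natDegree_eq_zero_of_isUnit hu
      have h1 := h.deg
      have h2 := h.pos
      omega
    obtain ⟨g, hg, q, hq⟩ := WfDvdMonoid.exists_irreducible_factor hSu hS0
    have hg0 : g ≠ 0 := hg.ne_zero
    have hq0 : q ≠ 0 := by
      rintro rfl
      exact hS0 (by rw [hq, mul_zero])
    have hlc : g.leadingCoeff * q.leadingCoeff = 1 := by
      rw [← leadingCoeff_mul, ← hq]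
      exact h.monic
    have hdeg : g.natDegree + q.natDegree = n := by
      rw [← natDegree_mul hg0 hq0, ← hq, h.deg]
    have hgd : 1 ≤ g.natDegree := by
      by_contra hc
      have h0 : g.natDegree = 0 := by omega
      apply hg.not_isUnit
      rw [eq_C_of_natDegree_eq_zero h0]
      have : g.coeff 0 = g.leadingCoeff := by rw [leadingCoeff, h0]
      rw [this, isUnit_C]
      exact IsUnit.of_mul_eq_one _ hlc
    have hqd : 1 ≤ q.natDegree := by
      by_contra hc
      have h0 : q.natDegree = 0 := by omega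
      apply hirr
      have hqu : IsUnit q := by
        rw [eq_C_of_natDegree_eq_zero h0]
        have : q.coeff 0 = q.leadingCoeff := by rw [leadingCoeff, h0]
        rw [this, isUnit_C]
        exact IsUnit.of_mul_eq_one _ (by rw [mul_comm]; exact hlc)
      rw [hq]
      exact (irreducible_mul_isUnit hqu).2 hg
    have hgS : g ∣ S := ⟨q, hq⟩
    let l : Fin n → k := fun i => if ev (φ i) g = 0 then 1 else 0
    have hl : Cst S φ l := by
      rintro i j ⟨g', hg', hd', h1, h2⟩
      by_cases hi : ev (φ i) g = 0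
      · have hj : ev (φ j) g = 0 := ic_dvd h i hgS hd' hg hg' hi h1 j h2
        simp [l, hi, hj]
      · by_cases hj : ev (φ j) g = 0
        · exact absurd (ic_dvd h j hgS hd' hg hg' hj h2 i h1) hi
        · simp [l, hi, hj]
    obtain ⟨i, hi⟩ : ∃ i, ev (φ i) g = 0 := by
      by_contra hc
      push Not at hc
      refine hq0 (ic_roots h (by omega) fun i => ?_)
      have := ic_ev_S h i
      rw [hq, ic_ev_mul] at this
      exact (mul_eq_zero.1 this).resolve_left (hc i)
    obtain ⟨j, hj⟩ : ∃ j, ev (φ j) g ≠ 0 := by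
      by_contra hc
      push Not at hc
      exact hg0 (ic_roots h (by omega) hc)
    have hm1 : (fun _ => (1 : k) : Fin n → k) ∈ Submodule.span k {l | Cst S φ l} :=
      Submodule.subset_span hone
    have hm2 : l ∈ Submodule.span k {l | Cst S φ l} := Submodule.subset_span hl
    obtain ⟨v, hv⟩ := (finrank_eq_one_iff_of_nonzero' (⟨_, hm1⟩ : Submodule.span k {l | Cst S φ l})
      (by
        intro hz
        have := congrFun (congrArg Subtype.val hz) i
        simp at this)).1 hfin ⟨l, hm2⟩
    have e1 := congrFun (congrArg Subtype.val hv) i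
    have e2 := congrFun (congrArg Subtype.val hv) j
    simp [l, hi, hj] at e1 e2
    exact one_ne_zero (e1.symm.trans e2)
end Pool.Agent.H330AB.JJ16
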