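import Pool.Agent.H330AB.SpecA2
set_option autoImplicit false
noncomputable section
namespace Pool.Agent.H330AB.JJ17
open Polynomial Pool.Agent.H330FB
/- Linear algebra. The solutions (l, τ) in k^n × k^n of the linear system with the given columns (entries in F) form a k-subspace; its dimension is 2n - rank, and the rank over k of a matrix with entries in F equals its rank over F (Matrix.rank_map or a basis argument: KerSpec gives
linearly independent columns P', independent over F hence over k, and the other columns are combinations of them), so the dimension is Fr.length. By the equivalence and GoodP the map (l, τ) ↦ ℓ (ℓ_i = ∑_j l_j α_i^j; the Vandermonde matrix of the distinct α_i is invertible) is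
injective (fourth clause of GoodP; the system SysP at ℓ = 0) with image {ℓ | Cst S φ ℓ}, a subspace. -/

section aux
variable {F k : Type} [Field F] [Field k] [Algebra F k]

/-- the column as a vector over `k` -/
def free_kv (k : Type) [Field k] [Algebra F k] (R : ℕ) (c : List F) : Fin R → k :=
  fun m => algebraMap F k (c.getD (m : ℕ) 0)

/-- the column as a vector over `F` -/
def free_fv (R : ℕ) (c : List F) : Fin R → F := fun m => c.getD (m : ℕ) 0

/-- extension by zero -/
def free_ext (F : Type) [Field F] (R : ℕ) : (Fin R → F) →ₗ[F] (ℕ → F) where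
  toFun f := fun m => if h : m < R then f ⟨m, h⟩ else 0
  map_add' f g := by
    funext m
    by_cases h : m < R <;> simp [h]
  map_smul' c f := by
    funext m
    by_cases h : m < R <;> simp [h]

theorem free_cvec (R : ℕ) (c : List F) (h : c.length = R) : cvec c = free_ext F R (free_fv R c) := by
  funext m
  by_cases hm : m < R
  · simp [cvec, free_ext, free_fv, hm]
  · have : c.getD m 0 = 0 := by
      rw [List.getD_eq_default]
      omega
    simp only [cvec, free_ext, LinearMap.coe_mk, AddHom.coe_mk, hm, dif_neg, not_false_eq_true]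
    exact this

theorem free_rank {α : Type} (R : ℕ) (cs P' : List (α × List F)) (Fr' : List ((α × List F) × List F))
    (hlen : ∀ x ∈ cs, x.2.length = R)
    (hperm : (P' ++ Fr'.map Prod.fst).Perm cs)
    (hli : LinearIndependent F (fun k : Fin P'.length => cvec (P'.get k).2))
    (hco : ∀ x ∈ Fr', x.2.length = P'.length ∧
      cvec x.1.2 = ∑ k : Fin P'.length, x.2.getD k 0 • cvec (P'.get k).2) :
    Module.finrank k (Submodule.span k {w : Fin R → k | ∃ x ∈ cs, w = free_kv k R x.2}) =
      P'.length := by
  have hPcs : ∀ i : Fin P'.length, P'.get i ∈ cs := fun i =>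
    hperm.mem_iff.1 (List.mem_append_left _ (List.get_mem _ _))
  have hF : LinearIndependent F (fun i : Fin P'.length => free_fv R (P'.get i).2) := by
    apply LinearIndependent.of_comp (free_ext F R)
    have e : (free_ext F R) ∘ (fun i : Fin P'.length => free_fv R (P'.get i).2) =
        fun k : Fin P'.length => cvec (P'.get k).2 := by
      funext i
      rw [Function.comp_apply, free_cvec R _ (hlen _ (hPcs i))]
    rw [e]
    exact hli
  have hk : LinearIndependent k (fun i : Fin P'.length => free_kv k R (P'.get i).2) :=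
    linearIndependent_algebraMap_comp_iff.2 hF
  have hspan : Submodule.span k {w : Fin R → k | ∃ x ∈ cs, w = free_kv k R x.2} =
      Submodule.span k (Set.range (fun i : Fin P'.length => free_kv k R (P'.get i).2)) := by
    apply le_antisymm
    · rw [Submodule.span_le]
      rintro w ⟨x, hx, rfl⟩
      rcases List.mem_append.1 (hperm.mem_iff.2 hx) with hx | hx
      · obtain ⟨i, rfl⟩ := List.get_of_mem hx
        exact Submodule.subset_span ⟨i, rfl⟩
      · obtain ⟨y, hy, rfl⟩ := List.mem_map.1 hx
        have h1 := (hco y hy).2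
        have h2 : free_kv k R y.1.2 = ∑ i : Fin P'.length,
            algebraMap F k (y.2.getD (i : ℕ) 0) • free_kv k R (P'.get i).2 := by
          funext m
          have h3 := congrFun h1 (m : ℕ)
          have h4 : cvec y.1.2 (m : ℕ) = y.1.2.getD (m : ℕ) 0 := rfl
          rw [h4, Finset.sum_apply] at h3
          rw [Finset.sum_apply]
          show algebraMap F k (y.1.2.getD (m : ℕ) 0) = _
          rw [h3, map_sum]
          refine Finset.sum_congr rfl fun i _ => ?_
          rw [Pi.smul_apply, Pi.smul_apply, smul_eq_mul, smul_eq_mul, map_mul]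
          rfl
        show free_kv k R y.1.2 ∈ _
        rw [h2]
        refine Submodule.sum_mem _ fun i _ => Submodule.smul_mem _ _ ?_
        exact Submodule.subset_span ⟨i, rfl⟩
    · rw [Submodule.span_le]
      rintro w ⟨i, rfl⟩
      exact Submodule.subset_span ⟨P'.get i, hPcs i, rfl⟩
  rw [hspan, finrank_span_eq_card hk, Fintype.card_fin]

end aux

/-- TARGET -/
theorem free : StmtFree := by
  intro F k _ _ _ p e s n S φ G a g tc lc P Fr hR hG htc hlc hsys hKer
  obtain ⟨P', Fr', -, hFr, hperm, -, hli, hco, -⟩ := hKer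
  obtain ⟨R, hRd⟩ : ∃ R, R = nrow n s := ⟨_, rfl⟩
  rw [← hRd] at htc hlc hsys
  obtain ⟨cs, hcs⟩ : ∃ cs : List (List F × List F), cs = List.ofFn (fun j => (([] : List F), tc j)) ++
    List.ofFn (fun j => (uvec F n j, lc j)) := ⟨_, rfl⟩
  rw [← hcs] at hperm
  have hmem : ∀ x, x ∈ cs ↔ (∃ j, x = (([] : List F), tc j)) ∨ ∃ j : Fin n, x = (uvec F n j, lc j) := by
    intro x
    rw [hcs, List.mem_append, List.mem_ofFn, List.mem_ofFn]
    simp only [eq_comm]
  have hlen : ∀ x ∈ cs, x.2.length = R := by
    intro x hx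
    rcases (hmem x).1 hx with ⟨j, rfl⟩ | ⟨j, rfl⟩
    · exact htc j
    · exact hlc j
  have hrank := free_rank (k := k) R cs P' Fr' hlen hperm hli hco
  have hcard : P'.length + Fr'.length = n + n := by
    have h1 := hperm.length_eq
    rw [hcs] at h1
    simpa using h1
  -- the linear map
  obtain ⟨col, hcol⟩ : ∃ col : Fin n ⊕ Fin n → (Fin R → k), col = Sum.elim
    (fun j => free_kv k R (tc j)) (fun j => free_kv k R (lc j)) := ⟨_, rfl⟩
  obtain ⟨Φ, hΦ⟩ : ∃ Φ : (Fin n ⊕ Fin n → k) →ₗ[k] (Fin R → k),
    Φ = Fintype.linearCombination k col := ⟨_, rfl⟩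
  have hrange : LinearMap.range Φ =
      Submodule.span k {w : Fin R → k | ∃ x ∈ cs, w = free_kv k R x.2} := by
    rw [hΦ, Fintype.range_linearCombination]
    congr 1
    ext w
    constructor
    · rintro ⟨i, rfl⟩
      rcases i with j | j
      · exact ⟨_, (hmem _).2 (Or.inl ⟨j, rfl⟩), by rw [hcol]; rfl⟩
      · exact ⟨_, (hmem _).2 (Or.inr ⟨j, rfl⟩), by rw [hcol]; rfl⟩
    · rintro ⟨x, hx, rfl⟩
      rcases (hmem x).1 hx with ⟨j, rfl⟩ | ⟨j, rfl⟩
      · exact ⟨Sum.inl j, by rw [hcol]; rfl⟩
      · exact ⟨Sum.inr j, by rw [hcol]; rfl⟩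
  have hkerd : Module.finrank k (LinearMap.ker Φ) = Fr'.length := by
    have h1 := LinearMap.finrank_range_add_finrank_ker Φ
    rw [hrange, hrank, Module.finrank_fintype_fun_eq_card, Fintype.card_sum, Fintype.card_fin] at h1
    omega
  have hΦa : ∀ u m, Φ u m = ∑ j, u (Sum.inl j) * algebraMap F k ((tc j).getD (m : ℕ) 0) +
      ∑ j, u (Sum.inr j) * algebraMap F k ((lc j).getD (m : ℕ) 0) := by
    intro u m
    rw [hΦ, Fintype.linearCombination_apply, Fintype.sum_sum_type, Pi.add_apply,
      Finset.sum_apply, Finset.sum_apply, hcol]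
    rfl
  -- the Vandermonde matrix
  obtain ⟨α, hα⟩ : ∃ α : Fin n → k, α = fun i => PowerSeries.constantCoeff (φ i) := ⟨_, rfl⟩
  have hαi : Function.Injective α := by rw [hα]; exact hR.inj
  have hdet : IsUnit (Matrix.vandermonde α).det :=
    isUnit_iff_ne_zero.2 (Matrix.det_vandermonde_ne_zero_iff.2 hαi)
  have hV : ∀ l : Fin n → k, (Matrix.vandermonde α).mulVec l =
      fun i => ∑ j : Fin n, l j * PowerSeries.constantCoeff (φ i) ^ (j : ℕ) := by
    intro l
    funext i
    simp only [Matrix.mulVec, dotProduct, Matrix.vandermonde_apply, hα]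
    exact Finset.sum_congr rfl fun j _ => mul_comm _ _
  have hsys2 : ∀ u, u ∈ LinearMap.ker Φ ↔ SysP s (p ^ e) S φ G a g
      ((Matrix.vandermonde α).mulVec (fun j => u (Sum.inr j))) (fun j => u (Sum.inl j)) := by
    intro u
    rw [hV, ← hsys, LinearMap.mem_ker]
    constructor
    · intro h m hm
      have := congrFun h ⟨m, hm⟩
      rw [hΦa] at this
      exact this
    · intro h
      funext m
      rw [hΦa]
      exact h m m.2
  obtain ⟨-, hG2, hG3, hG4⟩ := hG
  -- the map to constant vectors
  obtain ⟨Ψ, hΨ⟩ : ∃ Ψ : (LinearMap.ker Φ) →ₗ[k] (Fin n → k), ∀ u, Ψ u =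
      (Matrix.vandermonde α).mulVec (fun j => u.1 (Sum.inr j)) :=
    ⟨(Matrix.mulVecLin (Matrix.vandermonde α)) ∘ₗ (LinearMap.funLeft k k Sum.inr) ∘ₗ
      (LinearMap.ker Φ).subtype, fun u => rfl⟩
  have hVinj : ∀ l, (Matrix.vandermonde α).mulVec l = 0 → l = 0 := by
    intro l hl
    have h1 : (Matrix.vandermonde α)⁻¹.mulVec ((Matrix.vandermonde α).mulVec l) = l := by
      rw [Matrix.mulVec_mulVec, Matrix.nonsing_inv_mul _ hdet, Matrix.one_mulVec]
    rw [← h1, hl, Matrix.mulVec_zero]
  have hinj : Function.Injective Ψ := by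
    rw [← LinearMap.ker_eq_bot, Submodule.eq_bot_iff]
    intro u hu
    rw [LinearMap.mem_ker, hΨ] at hu
    have h1 := hVinj _ hu
    have h2 := (hsys2 u.1).1 u.2
    rw [hu] at h2
    have h3 := hG4 _ h2
    apply Subtype.ext
    funext i
    rcases i with j | j
    · exact congrFun h3 j
    · exact congrFun h1 j
  have hrg : {l | Cst S φ l} = (LinearMap.range Ψ : Set (Fin n → k)) := by
    ext l
    constructor
    · intro hl
      obtain ⟨τ, hτ⟩ := hG3 l hl
      obtain ⟨l', hl'⟩ : ∃ l', l' = (Matrix.vandermonde α)⁻¹.mulVec l := ⟨_, rfl⟩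
      have h1 : (Matrix.vandermonde α).mulVec l' = l := by
        rw [hl', Matrix.mulVec_mulVec, Matrix.mul_nonsing_inv _ hdet, Matrix.one_mulVec]
      have h2 : Sum.elim τ l' ∈ LinearMap.ker Φ := by
        rw [hsys2]
        simp only [Sum.elim_inr, Sum.elim_inl]
        rw [show (fun j => l' j) = l' from rfl, h1]
        exact hτ
      exact ⟨⟨_, h2⟩, by rw [hΨ]; exact h1⟩
    · rintro ⟨u, rfl⟩
      show Cst S φ (Ψ u)
      rw [hΨ]
      exact hG2 _ _ ((hsys2 u.1).1 u.2)
  rw [hrg, Submodule.span_eq, LinearMap.finrank_range_of_inj hinj, hkerd, hFr, List.length_map]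

end Pool.Agent.H330AB.JJ17
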