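import Pool.Agent.H330AB.SpecA2
set_option autoImplicit false
noncomputable section
namespace Pool.Agent.H330AB.JJ18
open Polynomial Pool.Agent.H330FB
/- Hensel: the roots α_i (i < n) of S(x,0) are distinct; PowerSeries k is complete with respect to (X) (Mathlib/RingTheory/AdicCompletion/Completeness.lean, instance IsAdicComplete (span {X}) (PowerSeries R); Mathlib/RingTheory/Henselian.lean), so each α_i lifts to a root
of S in k[[X]]; distinct roots of the monic S of degree n give the product formula. -/

lemma rts_cc {k : Type} [Field k] (S : k[X][X]) (a : k) :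
    PowerSeries.constantCoeff ((S.map Polynomial.coeToPowerSeries.ringHom).eval
      (PowerSeries.C a)) = (S.map (evalRingHom (0 : k))).eval a := by
  rw [Polynomial.eval_map, Polynomial.hom_eval₂, Polynomial.eval_map]
  have h1 : (PowerSeries.constantCoeff (R := k)).comp Polynomial.coeToPowerSeries.ringHom =
      evalRingHom (0 : k) := by
    ext x
    · simp
    · simp
  rw [h1]
  simp

lemma rts_lift {k : Type} [Field k] (S : k[X][X]) (hS : S.Monic) (a : k)
    (h0 : (S.map (evalRingHom (0 : k))).eval a = 0)
    (h1 : (derivative (S.map (evalRingHom (0 : k)))).eval a ≠ 0) :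
    ∃ φ : PowerSeries k, (S.map Polynomial.coeToPowerSeries.ringHom).IsRoot φ ∧
      PowerSeries.constantCoeff φ = a := by
  have hen : HenselianRing (PowerSeries k) (Ideal.span {(PowerSeries.X : PowerSeries k)}) :=
    inferInstance
  obtain ⟨φ, hr, hd⟩ := hen.is_henselian (S.map Polynomial.coeToPowerSeries.ringHom)
    (hS.map _) (PowerSeries.C a) (by
      rw [Ideal.mem_span_singleton, PowerSeries.X_dvd_iff, rts_cc, h0]) (by
      refine IsUnit.map _ ?_
      rw [PowerSeries.isUnit_iff_constantCoeff, Polynomial.derivative_map, rts_cc,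
        ← Polynomial.derivative_map]
      exact isUnit_iff_ne_zero.2 h1)
  refine ⟨φ, hr, ?_⟩
  rw [Ideal.mem_span_singleton, PowerSeries.X_dvd_iff, map_sub, PowerSeries.constantCoeff_C,
    sub_eq_zero] at hd
  exact hd

/-- TARGET -/
theorem roots : StmtRoots := by
  intro k _ _ n S hS hn h1 htd hsq
  classical
  set h : k[X] := S.map (evalRingHom (0 : k)) with hh
  have hm : h.Monic := hS.map _
  have hnd : h.natDegree = n := by rw [hh, hS.natDegree_map, hn]
  have hsep : h.Separable := PerfectField.separable_iff_squarefree.2 hsq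
  have hnod : h.roots.Nodup := Polynomial.nodup_roots hsep
  have hcard : h.roots.toFinset.card = n := by
    rw [Multiset.toFinset_card_of_nodup hnod, ← hnd]
    exact (splits_iff_card_roots.1 (IsAlgClosed.splits h))
  let e : Fin n ≃ h.roots.toFinset := (h.roots.toFinset.equivFinOfCardEq hcard).symm
  have hroot : ∀ i : Fin n, h.eval (e i : k) = 0 := by
    intro i
    have := (e i).2
    rw [Multiset.mem_toFinset, Polynomial.mem_roots hm.ne_zero] at this
    exact this
  have hder : ∀ i : Fin n, (derivative h).eval (e i : k) ≠ 0 := by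
    intro i
    have := hsep.eval₂_derivative_ne_zero (RingHom.id k) (x := (e i : k)) (by
      rw [Polynomial.eval₂_id]; exact hroot i)
    rwa [Polynomial.eval₂_id] at this
  choose φ hφ hc using fun i => rts_lift S hS (e i : k) (hroot i) (hder i)
  refine ⟨φ, hS, hn, h1, htd, ?_, ?_⟩
  · have hP : (S.map Polynomial.coeToPowerSeries.ringHom).Monic := hS.map _
    have hQ : (∏ i, (X - Polynomial.C (φ i))).Monic :=
      Polynomial.monic_prod_of_monic _ _ fun i _ => Polynomial.monic_X_sub_C _
    have hdvd : (∏ i, (X - Polynomial.C (φ i))) ∣ S.map Polynomial.coeToPowerSeries.ringHom := by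
      refine Finset.prod_dvd_of_coprime ?_ ?_
      · intro i _ j _ hij
        refine Polynomial.isCoprime_X_sub_C_of_isUnit_sub ?_
        rw [PowerSeries.isUnit_iff_constantCoeff, map_sub, hc, hc, isUnit_iff_ne_zero, sub_ne_zero]
        intro h'
        exact hij (e.injective (Subtype.ext h'))
      · intro i _
        exact Polynomial.dvd_iff_isRoot.2 (hφ i)
    refine Polynomial.eq_of_monic_of_dvd_of_natDegree_le hQ hP hdvd ?_
    rw [hS.natDegree_map, hn, Polynomial.natDegree_prod_of_monic _ _
      fun i _ => Polynomial.monic_X_sub_C _]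
    simp
  · intro i j hij
    simp only [hc] at hij
    exact e.injective (Subtype.ext hij)
end Pool.Agent.H330AB.JJ18
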