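/- Project AB, job specDivRF: Newton division over truncated power series, quasi-linear; adapted from H330FB/JA6. -/
import Pool.Agent.H330AB.SpecA2
import Pool.Agent.H330FB.JA6
set_option autoImplicit false
set_option linter.unusedSimpArgs false
noncomputable section
namespace Pool.Agent.H330AB.JJ2
noncomputable section
open Polynomial Pool.Agent.H330FB
namespace DivRF
open Pool.Agent.H330FB.JA6.DivR

section prog
variable {F : Type} [Field F] [DecidableEq F]

/-- input type -/
abbrev IT : Ty := .prod Un (.prod Un (.prod Ma Ma))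
/-- context type: parameter, precision, zero row, the matrix with one row `2`, list of length `k`, reversed divisor -/
abbrev CT : Ty := .prod Un (.prod Un (.prod Po (.prod Ma (.prod Ma Ma))))

/-- zero row -/
def zrP : Pr [] Un Po := .comp (.pair .id (.pair .zero .nil)) fitP
/-- row of one -/
def orP : Pr [] Un Po := .comp (.pair .id (.pair .zero (.comp (.pair .one .nil) .cons))) fitP
/-- row of two -/
def twP : Pr [] Un Po :=
  .comp (.pair .id (.pair .zero (.comp (.pair (.comp (.pair .one .one) .add) .nil) .cons))) fitP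

theorem length_un (s : ℕ) : (un s).length = s := by simp [un]

theorem val_zrP (v : SV F []) (x : Ty.D F Un) : (zrP.val v x : List F) = zrow F (List.length x) := by
  simp [zrP, zrow]
theorem val_orP (v : SV F []) (x : Ty.D F Un) : (orP.val v x : List F) = crow (List.length x) 1 := by
  simp [orP, crow]
theorem val_twP (v : SV F []) (x : Ty.D F Un) :
    (twP.val v x : List F) = crow (List.length x) (1 + 1) := by
  simp [twP, crow]

theorem cost_zrP (v : SV F []) (k : SC F []) (x : Ty.D F Un) :
    zrP.cost v k x ≤ 20 * List.length x + 10 := by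
  have h := cost_fitP (F := F) (s := []) (a := .fld) (b := .unit) v k (x, ((0 : F), ([] : List F)))
  simp only [zrP, cost_comp, cost_pair, cost_id, cost_zero, cost_nil, val_pair, val_id, val_zero,
    val_nil] at h ⊢
  omega
theorem cost_orP (v : SV F []) (k : SC F []) (x : Ty.D F Un) :
    orP.cost v k x ≤ 20 * List.length x + 20 := by
  have h := cost_fitP (F := F) (s := []) (a := .fld) (b := .unit) v k (x, ((0 : F), ([1] : List F)))
  simp only [orP, cost_comp, cost_pair, cost_id, cost_zero, cost_nil, val_pair, val_id, val_zero,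
    val_nil, cost_one, cost_cons, val_comp, val_one, val_cons] at h ⊢
  omega
theorem cost_twP (v : SV F []) (k : SC F []) (x : Ty.D F Un) :
    twP.cost v k x ≤ 20 * List.length x + 30 := by
  have h := cost_fitP (F := F) (s := []) (a := .fld) (b := .unit) v k
    (x, ((0 : F), ([1 + 1] : List F)))
  simp only [twP, cost_comp, cost_pair, cost_id, cost_zero, cost_nil, val_pair, val_id, val_zero,
    val_nil, cost_one, cost_cons, cost_add, val_comp, val_one, val_cons, val_add] at h ⊢
  omega

/-- negation -/
def ngP : Pr [] Ma Ma := .comp (.pair .star .id) (mapP (c := .unit)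
  (.comp .snd (.comp (.pair .star .id) (mapP (c := .unit) (.comp .snd .neg)))))

theorem val_ngP (v : SV F []) (x : Ty.D F Ma) : (ngP.val v x : List (List F)) = ngM x := by
  simp [ngP, ngM]

theorem cost_ngP (s : ℕ) (v : SV F []) (k : SC F []) (x : Ty.D F Ma) (hA : Sh s x) :
    ngP.cost v k x ≤ (15 * s + 22) * List.length x + 8 := by
  have h := cost_mapP_le (F := F) (s := []) (c := .unit) (a := Po) (b := Po)
    (.comp .snd (.comp (.pair .star .id) (mapP (c := .unit) (.comp .snd .neg)))) v k
    ((), x) (15 * s + 9) (fun r hr => by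
      have h2 := cost_mapP_le (F := F) (s := []) (c := .unit) (a := .fld) (b := .fld)
        (.comp .snd .neg) v k ((), r) 2 (fun _ _ => by simp)
      simp only [cost_comp, cost_snd, cost_pair, cost_star, cost_id, val_snd, val_pair, val_star,
        val_id] at h2 ⊢
      rw [hA r hr] at h2
      omega)
  rw [show 15 * s + 9 + 13 = 15 * s + 22 by omega] at h
  simp only [ngP]
  rw [cost_comp]
  simp only [cost_pair, cost_star, cost_id, val_pair, val_star, val_id] at h ⊢
  omega

/-- sum -/
def adP : Pr [] (.prod Ma Ma) Ma := zpP (zpP .add)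

theorem val_adP (v : SV F []) (x : Ty.D F (.prod Ma Ma)) :
    (adP.val v x : List (List F)) = adM x.1 x.2 := by
  simp [adP, adM]

theorem cost_adP (s : ℕ) (v : SV F []) (k : SC F []) (x : Ty.D F (.prod Ma Ma))
    (hA : Sh s x.1) :
    adP.cost v k x ≤ (41 * s + 55) * List.length x.1 + 15 := by
  have h := cost_zpP_le (F := F) (s := []) (a := Po) (zpP .add) v k x (41 * s + 15)
    (fun y hy z hz => by
      have h2 := cost_zpP_le (F := F) (s := []) (a := .fld) .add v k (y, z) 1
        (fun _ _ _ _ => by simp)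
      simp only at h2 ⊢
      rw [hA y hy] at h2
      omega)
  rw [show 41 * s + 15 + 40 = 41 * s + 55 by omega] at h
  exact h

/-- projections of the context -/
abbrev c1 : Pr [] CT Un := .fst
abbrev c2 : Pr [] CT Un := .comp .snd .fst
abbrev c3 : Pr [] CT Po := .comp .snd (.comp .snd .fst)
abbrev c4 : Pr [] CT Ma := .comp .snd (.comp .snd (.comp .snd .fst))
abbrev c5 : Pr [] CT Ma := .comp .snd (.comp .snd (.comp .snd (.comp .snd .fst)))
abbrev c6 : Pr [] CT Ma := .comp .snd (.comp .snd (.comp .snd (.comp .snd .snd)))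

/-- the first product, cut -/
def st1P (pm : Pr [] IT Ma) : Pr [] (.prod CT (.prod Ma .unit)) Ma :=
  ap3 fitP (.comp .fst c5) (.comp .fst c3)
    (.comp (.pair (.comp .fst c1) (.pair (.comp .fst c2) (.pair (.comp .fst c6)
      (.comp .snd .fst)))) pm)

/-- one Newton step -/
def nstP (pm : Pr [] IT Ma) : Pr [] (.prod CT (.prod Ma .unit)) Ma :=
  lt (st1P pm)
    (ap3 fitP (.comp (.comp .fst .fst) c5) (.comp (.comp .fst .fst) c3)
    (.comp (.pair (.comp (.comp .fst .fst) c1) (.pair (.comp (.comp .fst .fst) c2)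
      (.pair (.comp (.comp .fst .snd) .fst)
        (ap2 adP (.comp (.comp .fst .fst) c4) (.comp .snd ngP))))) pm))

/-- multiplication as a function -/
def mulF (pm : Pr [] IT Ma) (tb : List Unit) (s : ℕ) (a b : List (List F)) :
    List (List F) := pm.val () (tb, (un s, (a, b)))

theorem val_st1P (pm : Pr [] IT Ma) (v : SV F []) (x : Ty.D F (.prod CT (.prod Ma .unit))) :
    ((st1P pm).val v x : List (List F)) =
      fit (List.length x.1.2.2.2.2.1) x.1.2.2.1
        (pm.val v (x.1.1, (x.1.2.1, (x.1.2.2.2.2.2, x.2.1))) : List (List F)) := by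
  simp [st1P]

theorem val_nstP' (pm : Pr [] IT Ma) (v : SV F []) (x : Ty.D F (.prod CT (.prod Ma .unit))) :
    ((nstP pm).val v x : List (List F)) =
      fit (List.length x.1.2.2.2.2.1) x.1.2.2.1
        (pm.val v (x.1.1, (x.1.2.1, (x.2.1, adM x.1.2.2.2.1 (ngM 
          (fit (List.length x.1.2.2.2.2.1) x.1.2.2.1
        (pm.val v (x.1.1, (x.1.2.1, (x.1.2.2.2.2.2, x.2.1))) : List (List F))))))) : List (List F)) := by
  simp [nstP, val_st1P, val_ngP, val_adP]

/-- the value of one step -/
theorem val_nstP (pm : Pr [] IT Ma) (tb : List Unit) (s : ℕ)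
    (uk rg g : List (List F)) (u : Unit) :
    ((nstP pm).val (F := F) ()
      ((tb, (un s, (zrow F s, ([crow s (1 + 1)], (uk, rg))))), (g, u)) : List (List F)) =
      nst (mulF pm tb s) s uk.length rg g := by
  rw [val_nstP']
  rfl

/-- the iteration -/
def nitP (pm : Pr [] IT Ma) : Pr [] CT Ma :=
  .comp (.pair .id (.pair (ap3 fitP c5 c3 (.comp (.pair (.comp c2 orP) .nil) .cons))
    (.comp c5 lgP))) (foldP (nstP pm))

omit [DecidableEq F] in
theorem foldl_nst (M : List (List F) → List (List F) → List (List F)) (s k : ℕ)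
    (rg : List (List F)) (l : List Unit) :
    List.foldl (fun g _ => nst M s k rg g) (fit k (zrow F s) [crow s 1]) l
      = nit M s k rg l.length := by
  induction l using List.reverseRecOn with
  | nil => rfl
  | append_singleton l a ih => simp [ih, nit]

theorem val_nitP (pm : Pr [] IT Ma) (tb : List Unit) (s : ℕ)
    (uk rg : List (List F)) :
    ((nitP pm).val (F := F) ()
      (tb, (un s, (zrow F s, ([crow s (1 + 1)], (uk, rg))))) : List (List F)) =
      nit (mulF pm tb s) s uk.length rg (Nat.clog 2 uk.length) := by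
  have h := val_lgP (F := F) (s := []) (a := Po) () uk
  simp only [nitP, val_comp, val_pair, val_id, val_foldP]
  have h2 := foldl_nst (F := F) (mulF pm tb s) s uk.length rg
    ((lgP : Pr [] Ma _).val () uk)
  rw [h] at h2
  rw [← h2]
  have h3 : ∀ (l : List Unit) (g g' : List (List F)), g = g' →
      List.foldl (fun (y : List (List F)) (z : Unit) => ((nstP pm).val (F := F) ()
        ((tb, (un s, (zrow F s, ([crow s (1 + 1)], (uk, rg))))), (y, z)) : List (List F))) g l =
      List.foldl (fun g _ => nst (mulF pm tb s) s uk.length rg g) g' l := by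
    intro l
    induction l with
    | nil => intro g g' hg; exact hg
    | cons u l ih =>
      intro g g' hg
      simp only [List.foldl_cons]
      apply ih
      rw [hg, val_nstP]
  refine h3 _ _ _ ?_
  simp [val_orP, length_un]


/-- projections of the input -/
abbrev i1 : Pr [] IT Un := .fst
abbrev i2 : Pr [] IT Un := .comp .snd .fst
abbrev i3 : Pr [] IT Ma := .comp .snd (.comp .snd .fst)
abbrev i4 : Pr [] IT Ma := .comp .snd (.comp .snd .snd)

/-- the context of the Newton iteration, input `(x, (uk, z))` -/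
def ctxP : Pr [] (.prod IT (.prod Ma Po)) CT :=
  .pair (.comp .fst i1) (.pair (.comp .fst i2) (.pair (.comp .snd .snd)
    (.pair (.comp (.pair (.comp .fst (.comp i2 twP)) .nil) .cons)
      (.pair (.comp .snd .fst)
        (ap3 fitP (.comp .snd .fst) (.comp .snd .snd)
          (.comp (.pair (.comp .fst (.comp i2 orP)) (.comp .fst (.comp i4 revP))) .cons))))))

/-- the quotient, input `(x, (uk, z))` -/
def quoP (pm : Pr [] IT Ma) : Pr [] (.prod IT (.prod Ma Po)) Ma :=
  .comp (ap3 fitP (.comp .snd .fst) (.comp .snd .snd)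
    (.comp (.pair (.comp .fst i1) (.pair (.comp .fst i2) (.pair
      (ap3 fitP (.comp .snd .fst) (.comp .snd .snd) (.comp .fst (.comp i3 revP)))
      (.comp ctxP (nitP pm))))) pm)) revP

/-- the remainder, input `(x, (z, q))` -/
def remP (pm : Pr [] IT Ma) : Pr [] (.prod IT (.prod Po Ma)) Ma :=
  ap3 fitP (.comp .fst i4) (.comp .snd .fst)
    (ap2 adP (.comp .fst i3)
      (.comp (.comp (.pair (.comp .fst i1) (.pair (.comp .fst i2) (.pair (.comp .snd .snd)
        (ap2 appP (.comp .fst i4) (.comp (.pair (.comp .fst (.comp i2 orP)) .nil) .cons))))) pm)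
        ngP))

/-- the case of a nonempty quotient, input `(x, (uk, z))` -/
def mnP (pm : Pr [] IT Ma) : Pr [] (.prod IT (.prod Ma Po)) (.prod Ma Ma) :=
  lt (quoP pm) (.pair .snd (.comp (.pair (.comp .fst .fst)
    (.pair (.comp .fst (.comp .snd .snd)) .snd)) (remP pm)))

/-- division -/
def divP (pm : Pr [] IT Ma) : Pr [] IT (.prod Ma Ma) :=
  lt (.comp (ap2 splitP i4 i3) .snd)
    (onL .snd
      (onL (.comp .fst i4) (.pair .nil .nil)
        (.comp (.comp .fst .fst) (.pair .nil (ap3 fitP i4 (.comp i2 zrP) i3))))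
      (.comp (.comp .fst (.pair .fst (.pair .snd (.comp .fst (.comp i2 zrP))))) (mnP pm)))

theorem val_ctxP (v : SV F []) (x : Ty.D F (.prod IT (.prod Ma Po))) :
    (ctxP.val v x : Ty.D F CT) = (x.1.1, (x.1.2.1, (x.2.2,
      (([crow (List.length x.1.2.1) (1 + 1)] : List (List F)), (x.2.1,
      (fit (List.length x.2.1) x.2.2 ((crow (List.length x.1.2.1) 1 : List F) :: List.reverse x.1.2.2.2)
        : List (List F))))))) := by
  simp [ctxP, val_twP, val_orP]

theorem val_quoP (pm : Pr [] IT Ma) (tb : List Unit) (s : ℕ)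
    (P G uk : List (List F)) :
    ((quoP pm).val (F := F) () ((tb, (un s, (P, G))), (uk, zrow F s)) : List (List F)) =
      quo (mulF pm tb s) s uk.length P G := by
  have h1 := val_nitP pm tb s uk (fit uk.length (zrow F s) (crow s 1 :: G.reverse))
  simp only [quoP, val_comp, val_pair, val_fst, val_snd, val_ctxP, length_un, val_revP, val_fitP]
  rw [h1]
  rfl

theorem val_remP (pm : Pr [] IT Ma) (tb : List Unit) (s : ℕ)
    (P G q : List (List F)) :
    ((remP pm).val (F := F) () ((tb, (un s, (P, G))), (zrow F s, q)) : List (List F)) =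
      rem (mulF pm tb s) s P G q := by
  simp only [remP, val_comp, val_pair, val_fst, val_snd, length_un, val_revP, val_fitP, val_adP,
    val_ngP, val_orP, val_appP, val_nil, val_cons]
  rfl

theorem val_mnP (pm : Pr [] IT Ma) (tb : List Unit) (s : ℕ)
    (P G uk : List (List F)) :
    ((mnP pm).val (F := F) () ((tb, (un s, (P, G))), (uk, zrow F s)) :
      List (List F) × List (List F)) =
      (quo (mulF pm tb s) s uk.length P G,
        rem (mulF pm tb s) s P G (quo (mulF pm tb s) s uk.length P G)) := by
  simp only [mnP, val_lt, val_comp, val_pair, val_fst, val_snd]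
  rw [val_quoP, val_remP]

theorem val_divP (pm : Pr [] IT Ma) (tb : List Unit) (s : ℕ)
    (P G : List (List F)) :
    ((divP pm).val (F := F) () (tb, (un s, (P, G))) : List (List F) × List (List F)) =
      if P.length ≤ G.length then ([], fit G.length (zrow F s) P) else
      (quo (mulF pm tb s) s (P.length - G.length) P G,
        rem (mulF pm tb s) s P G (quo (mulF pm tb s) s (P.length - G.length) P G)) := by
  simp only [divP, val_lt, val_comp, val_pair, val_fst, val_snd, val_onL, val_splitP, val_nil,
    val_fitP, val_zrP, length_un]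
  split
  · rename_i h
    rw [List.drop_eq_nil_of_le h]
    cases G with
    | nil => 
      have : P = [] := by simpa using h
      subst this
      rfl
    | cons a G => rfl
  · rename_i h
    have h1 : (List.drop G.length P).length = P.length - G.length := List.length_drop
    obtain ⟨a, l, hl⟩ : ∃ a l, List.drop G.length P = a :: l := by
      cases hh : List.drop G.length P with
      | nil => rw [hh] at h1; simp at h1; omega
      | cons a l => exact ⟨a, l, rfl⟩
    have h2 := val_mnP pm tb s P G (List.drop G.length P)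
    rw [h1] at h2
    rw [hl] at h2 ⊢
    rw [lcase_cons]
    exact h2

end prog



section cost
variable {F : Type} [Field F] [DecidableEq F]

/-- bound of the costs of the multiplications of total length at most `L` -/
def CostM (pm : Pr [] IT Ma) (tb : List Unit) (s L W : ℕ) : Prop :=
  ∀ a b : List (List F), Sh s a → Sh s b → a.length + b.length ≤ L →
    pm.cost (F := F) () () (tb, (un s, (a, b))) ≤ W

theorem cost_st1P (pm : Pr [] IT Ma) (tb : List Unit) (s L W : ℕ)
    (hW : CostM (F := F) pm tb s L W) (z : List F) (tw uk rg g : List (List F)) (u : Unit)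
    (h1 : Sh s rg) (h2 : Sh s g) (hL : rg.length + g.length ≤ L) :
    (st1P pm).cost (F := F) () () ((tb, (un s, (z, (tw, (uk, rg))))), (g, u)) ≤
      W + 20 * uk.length + 50 := by
  have e1 := hW rg g h1 h2 hL
  have e2 := cost_fitP (F := F) (s := []) (a := Po) (b := Po) () ()
    (uk, (z, (pm.val (F := F) () (tb, (un s, (rg, g))) : List (List F))))
  simp only [st1P, cost_comp, cost_pair, cost_fst, cost_snd, val_comp, val_pair, val_fst,
    val_snd] at e1 e2 ⊢
  omega

theorem cost_nstP (pm : Pr [] IT Ma) (tb : List Unit) (s L W : ℕ)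
    (hM : GoodM (F := F) s (mulF pm tb s))
    (hW : CostM (F := F) pm tb s L W) (uk rg g : List (List F)) (u : Unit)
    (h1 : Sh s rg) (h2 : Sh s g) (hk : 1 ≤ uk.length) (hrg : rg.length = uk.length)
    (hg : g.length = uk.length) (hL : 2 * uk.length ≤ L) :
    (nstP pm).cost (F := F) () ()
      ((tb, (un s, (zrow F s, ([crow s (1 + 1)], (uk, rg))))), (g, u)) ≤
      2 * W + (15 * s + 62) * uk.length + 41 * s + 250 := by
  have e1 := cost_st1P pm tb s L W hW (zrow F s) [crow s (1 + 1)] uk rg g u h1 h2 (by omega)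
  have hv := val_st1P (F := F) pm () ((tb, (un s, (zrow F s, ([crow s (1 + 1)], (uk, rg))))), (g, u))
  set e : List (List F) := fit uk.length (zrow F s) (mulF pm tb s rg g) with he
  have hv' : ((st1P pm).val (F := F) ()
    ((tb, (un s, (zrow F s, ([crow s (1 + 1)], (uk, rg))))), (g, u)) : List (List F)) = e := hv
  have heS : Sh s e := Sh_fit _ _ _ _ (length_zrow _) (hM _ _ h1 h2).1
  have hel : e.length = uk.length := by simp [he]
  have e2 := cost_ngP (F := F) s () () e heS
  rw [hel] at e2
  have e3 := cost_adP (F := F) s () () (([crow s (1 + 1)] : List (List F)), (ngM e : List (List F)))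
    (Sh_single _ _ (length_crow _ _))
  have e4 := hW g (adM [crow s (1 + 1)] (ngM e)) h2 (Sh_adng hM _ _ _ h1 h2) (by
    rw [adM, length_zp, ngM, List.length_map, hel]
    simp; omega)
  have e5 := cost_fitP (F := F) (s := []) (a := Po) (b := Po) () ()
    (uk, (zrow F s, (pm.val (F := F) () (tb, (un s, (g, adM [crow s (1 + 1)] (ngM e)))) :
      List (List F))))
  simp only [nstP, cost_lt, cost_comp, cost_pair, cost_fst, cost_snd, val_comp, val_pair, val_fst,
    val_snd, hv', val_ngP, val_adP] at e1 e2 e3 e4 e5 ⊢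
  simp only [List.length_singleton, mul_one] at e3
  nlinarith


theorem cost_nitP (pm : Pr [] IT Ma) (tb : List Unit) (s L W : ℕ)
    (hM : GoodM (F := F) s (mulF pm tb s))
    (hW : CostM (F := F) pm tb s L W) (uk rg : List (List F))
    (h1 : Sh s rg) (hk : 1 ≤ uk.length) (hrg : rg.length = uk.length)
    (hL : 2 * uk.length ≤ L) :
    (nitP pm).cost (F := F) () ()
      (tb, (un s, (zrow F s, ([crow s (1 + 1)], (uk, rg))))) ≤
      (2 * W + (15 * s + 62) * uk.length + 41 * s + 280) * Nat.clog 2 uk.length +
        150 * uk.length + 20 * s + 200 := by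
  have h := val_lgP (F := F) (s := []) (a := Po) () uk
  have hc := cost_lgP (F := F) (s := []) (a := Po) () () uk
  have ho := cost_orP (F := F) () () (un s)
  have hov := val_orP (F := F) () (un s)
  rw [length_un] at ho hov
  have hf := cost_fitP (F := F) (s := []) (a := Po) (b := Po) () ()
    (uk, (zrow F s, ([crow s 1] : List (List F))))
  have hfold := cost_foldP_le (F := F) (s := []) (nstP pm) () ()
    ((tb, (un s, (zrow F s, (([crow s (1 + 1)] : List (List F)), (uk, rg))))),
      ((fit uk.length (zrow F s) [crow s 1] : List (List F)), (lgP : Pr [] Ma _).val () uk))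
    (2 * W + (15 * s + 62) * uk.length + 41 * s + 250)
    (fun g => Sh s g ∧ List.length g = uk.length)
    ⟨Sh_fit _ _ _ _ (length_zrow _) (Sh_single _ _ (length_crow _ _)), by simp⟩
    (fun g u hg _ => by
      rw [val_nstP]
      exact ⟨Sh_nst hM _ _ _ h1 hg.1, by simp [nst]⟩)
    (fun g u hg _ => cost_nstP pm tb s L W hM hW uk rg g u h1 hg.1 hk hrg hg.2 hL)
  simp only [h] at hfold
  simp only [nitP, cost_comp, cost_pair, cost_fst, cost_snd, cost_id, val_comp, val_pair, val_fst,
    val_snd, val_id, val_fitP, val_cons, val_nil, cost_cons, cost_nil, hov] at hc hf hfold ⊢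
  nlinarith

theorem cost_ctxP (tb : List Unit) (s : ℕ) (P G uk : List (List F)) :
    ctxP.cost (F := F) () () ((tb, (un s, (P, G))), (uk, zrow F s)) ≤
      40 * s + 33 * G.length + 20 * uk.length + 200 := by
  have ho := cost_orP (F := F) () () (un s)
  have hov := val_orP (F := F) () (un s)
  have ht := cost_twP (F := F) () () (un s)
  rw [length_un] at ho hov ht
  have hr := cost_revP (F := F) (s := []) (a := Po) () () G
  have hf := cost_fitP (F := F) (s := []) (a := Po) (b := Po) () ()
    (uk, (zrow F s, ((crow s 1 : List F) :: List.reverse G : List (List F))))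
  simp only [ctxP, cost_comp, cost_pair, cost_fst, cost_snd, val_comp, val_pair, val_fst,
    val_snd, val_cons, cost_cons, cost_nil, hov, val_revP] at ho ht hr hf ⊢
  omega

theorem cost_quoP (pm : Pr [] IT Ma) (tb : List Unit) (s L W : ℕ)
    (hM : GoodM (F := F) s (mulF pm tb s))
    (hW : CostM (F := F) pm tb s L W) (P G uk : List (List F)) (hP : Sh s P)
    (hG : Sh s G) (hk : 1 ≤ uk.length) (hL : 2 * uk.length ≤ L) :
    (quoP pm).cost (F := F) () () ((tb, (un s, (P, G))), (uk, zrow F s)) ≤
      (2 * W + (15 * s + 62) * uk.length + 41 * s + 280) * Nat.clog 2 uk.length + W +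
        250 * uk.length + 60 * s + 33 * G.length + 33 * P.length + 600 := by
  have h1 := val_nitP pm tb s uk (fit uk.length (zrow F s) (crow s 1 :: G.reverse))
  have hrgS := Sh_rg (F := F) uk.length G hG
  have h2 := cost_nitP pm tb s L W hM hW uk (fit uk.length (zrow F s) (crow s 1 :: G.reverse))
    hrgS hk (by simp) hL
  have hc := cost_ctxP tb s P G uk
  have hr := cost_revP (F := F) (s := []) (a := Po) () () P
  have hf := cost_fitP (F := F) (s := []) (a := Po) (b := Po) () ()
    (uk, (zrow F s, (List.reverse P : List (List F))))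
  set g := nit (mulF pm tb s) s uk.length (fit uk.length (zrow F s) (crow s 1 :: G.reverse))
    (Nat.clog 2 uk.length) with hg
  have hgS : Sh s g := Sh_nit hM _ _ hrgS _
  have hPS : Sh s (fit uk.length (zrow F s) P.reverse) :=
    Sh_fit _ _ _ _ (length_zrow _) (Sh_reverse _ _ hP)
  have hp := hW _ _ hPS hgS (by simp [hg, length_nit]; omega)
  have hf2 := cost_fitP (F := F) (s := []) (a := Po) (b := Po) () ()
    (uk, (zrow F s, (pm.val (F := F) () (tb, (un s, (fit uk.length (zrow F s) P.reverse, g))) :
      List (List F))))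
  have hr2 := cost_revP (F := F) (s := []) (a := Po) () ()
    (fit uk.length (zrow F s) (pm.val (F := F) ()
      (tb, (un s, (fit uk.length (zrow F s) P.reverse, g))) : List (List F)))
  simp only [length_fit] at hr2
  simp only [quoP, cost_comp, cost_pair, cost_fst, cost_snd, val_comp, val_pair, val_fst,
    val_snd, val_ctxP, length_un, val_revP, val_fitP] at h1 h2 hc hr hf hp hf2 hr2 ⊢
  rw [h1]
  omega

theorem cost_remP (pm : Pr [] IT Ma) (tb : List Unit) (s L W : ℕ)
    (hM : GoodM (F := F) s (mulF pm tb s))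
    (hW : CostM (F := F) pm tb s L W) (P G q : List (List F)) (hP : Sh s P)
    (hG : Sh s G) (hq : Sh s q) (hL : q.length + G.length + 1 ≤ L) :
    (remP pm).cost (F := F) () () ((tb, (un s, (P, G))), (zrow F s, q)) ≤
      W + (41 * s + 55) * P.length + 40 * G.length + 20 * s +
        (15 * s + 22) * (q.length + G.length + 1) + 300 := by
  have ho := cost_orP (F := F) () () (un s)
  have hov := val_orP (F := F) () (un s)
  rw [length_un] at ho hov
  have ha := cost_appP (F := F) (s := []) (a := Po) () () (G, ([crow s 1] : List (List F)))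
  have hp := hW q (G ++ [crow s 1]) hq (Sh_G1 G hG) (by simp; omega)
  have hR := hM q (G ++ [crow s 1]) hq (Sh_G1 G hG)
  have hn := cost_ngP (F := F) s () () (mulF pm tb s q (G ++ [crow s 1])) hR.1
  have hRl : (mulF pm tb s q (G ++ [crow s 1])).length = q.length + G.length + 1 := by
    rw [hR.2.1]; simp; omega
  rw [hRl] at hn
  have hd := cost_adP (F := F) s () () ((P : List (List F)),
    (ngM (mulF pm tb s q (G ++ [crow s 1])) : List (List F))) hP
  have hf := cost_fitP (F := F) (s := []) (a := Po) (b := Po) () ()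
    (G, (zrow F s, (adM P (ngM (mulF pm tb s q (G ++ [crow s 1]))) : List (List F))))
  simp only [mulF] at hn hd hf
  simp only [remP, cost_comp, cost_pair, cost_fst, cost_snd, val_comp, val_pair, val_fst, cost_nil,
    cost_cons, val_cons, val_nil,
    val_snd, length_un, val_revP, val_fitP, val_appP, val_ngP, val_adP, hov] at ho ha hp hn hd hf ⊢
  omega

theorem cost_mnP (pm : Pr [] IT Ma) (tb : List Unit) (s L W : ℕ)
    (hM : GoodM (F := F) s (mulF pm tb s))
    (hW : CostM (F := F) pm tb s L W) (P G uk : List (List F)) (hP : Sh s P)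
    (hG : Sh s G) (hk : 1 ≤ uk.length) (hL : 2 * uk.length ≤ L)
    (hL2 : uk.length + G.length + 1 ≤ L) :
    (mnP pm).cost (F := F) () () ((tb, (un s, (P, G))), (uk, zrow F s)) ≤
      (2 * W + (15 * s + 62) * uk.length + 41 * s + 280) * Nat.clog 2 uk.length + 2 * W +
        250 * uk.length + 80 * s + 73 * G.length + (41 * s + 88) * P.length +
        (15 * s + 22) * (uk.length + G.length + 1) + 950 := by
  have h1 := cost_quoP pm tb s L W hM hW P G uk hP hG hk hL
  have hv := val_quoP pm tb s P G uk
  have h2 := cost_remP pm tb s L W hM hW P G (quo (mulF pm tb s) s uk.length P G) hP hG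
    (Sh_quo hM _ _ _ hP hG) (by rw [length_quo]; exact hL2)
  rw [length_quo] at h2
  simp only [mnP, cost_lt, cost_comp, cost_pair, cost_fst, cost_snd, val_comp, val_pair, val_fst,
    val_snd, hv] at h1 h2 ⊢
  nlinarith

theorem cost_divP (pm : Pr [] IT Ma) (tb : List Unit) (s W : ℕ) (hs : 1 ≤ s)
    (hM : GoodM (F := F) s (mulF pm tb s)) (P G : List (List F)) (hP : Sh s P)
    (hG : Sh s G) (hW : CostM (F := F) pm tb s (2 * P.length) W) :
    (divP pm).cost (F := F) () () (tb, (un s, (P, G))) ≤
      (2 * W + 2000 * (s * (P.length + G.length) + 1)) * (Nat.clog 2 P.length + 1) := by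
  have hz := cost_zrP (F := F) () () (un s)
  have hzv := val_zrP (F := F) () (un s)
  rw [length_un] at hz hzv
  have hsp := cost_splitP (F := F) (s := []) (a := Po) (b := Po) () () (G, P)
  have hspv := val_splitP (F := F) (s := []) (a := Po) (b := Po) () (G, P)
  simp only [divP, cost_lt, cost_comp, cost_pair, cost_fst, cost_snd, val_comp, val_pair, val_fst,
    val_snd, cost_onL, cost_nil, hspv, hzv] at hz hsp ⊢
  by_cases h : P.length ≤ G.length
  · rw [List.drop_eq_nil_of_le h]
    cases G with
    | nil =>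
      simp only [lcase_nil] at hsp ⊢
      simp only [List.length_nil] at hsp h ⊢
      have : (2 * W + 2000 * (s * (P.length + 0) + 1)) * 1 ≤
        (2 * W + 2000 * (s * (P.length + 0) + 1)) * (Nat.clog 2 P.length + 1) :=
        Nat.mul_le_mul_left _ (by omega)
      omega
    | cons a G =>
      simp only [lcase_nil, lcase_cons] at hsp ⊢
      set G' := a :: G with hG'
      have hG1 : 1 ≤ G'.length := by simp [hG']
      have hf := cost_fitP (F := F) (s := []) (a := Po) (b := Po) () ()
        (G', (zrow F s, P))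
      simp only at hf hsp
      have h1 : (2 * W + 2000 * (s * (P.length + G'.length) + 1)) * 1 ≤
        (2 * W + 2000 * (s * (P.length + G'.length) + 1)) * (Nat.clog 2 P.length + 1) :=
        Nat.mul_le_mul_left _ (by omega)
      have h2 : s ≤ s * (P.length + G'.length) := Nat.le_mul_of_pos_right _ (by omega)
      have h3 : G'.length ≤ s * (P.length + G'.length) := by nlinarith
      omega
  · have h1 : (List.drop G.length P).length = P.length - G.length := List.length_drop
    obtain ⟨a, l, hl⟩ : ∃ a l, List.drop G.length P = a :: l := by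
      cases hh : List.drop G.length P with
      | nil => rw [hh] at h1; simp at h1; omega
      | cons a l => exact ⟨a, l, rfl⟩
    have h2 := cost_mnP pm tb s (2 * P.length) W hM hW P G (List.drop G.length P) hP hG
      (by omega) (by omega) (by omega)
    rw [h1] at h2
    rw [hl] at h2 ⊢
    rw [lcase_cons]
    set n := P.length with hn
    set m := G.length with hm
    set D := s * (n + m) with hD
    set k := n - m with hk
    have g1 : s ≤ D := Nat.le_mul_of_pos_right _ (by omega)
    have g2 : n + m ≤ D := Nat.le_mul_of_pos_left _ (by omega)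
    have g3 : s * k ≤ D := Nat.mul_le_mul_left _ (by omega)
    have g4 : s * n ≤ D := Nat.mul_le_mul_left _ (by omega)
    have g5 : s * (k + m + 1) ≤ 2 * D := by
      rw [hD]
      calc s * (k + m + 1) ≤ s * (2 * (n + m)) := Nat.mul_le_mul_left _ (by omega)
        _ = 2 * (s * (n + m)) := by ring
    have g6 : Nat.clog 2 k ≤ Nat.clog 2 n := Nat.clog_mono_right 2 (by omega)
    have g7 : (2 * W + (15 * s + 62) * k + 41 * s + 280) * Nat.clog 2 k ≤
        (2 * W + 400 * (D + 1)) * Nat.clog 2 n := by
      apply Nat.mul_le_mul _ g6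
      have : (15 * s + 62) * k = 15 * (s * k) + 62 * k := by ring
      rw [this]
      omega
    have g8 : (41 * s + 88) * n = 41 * (s * n) + 88 * n := by ring
    have g9 : (15 * s + 22) * (k + m + 1) = 15 * (s * (k + m + 1)) + 22 * (k + m + 1) := by ring
    rw [g8, g9] at h2
    have g10 : (2 * W + 400 * (D + 1)) * Nat.clog 2 n ≤ (2 * W + 2000 * (D + 1)) * Nat.clog 2 n :=
      Nat.mul_le_mul_right _ (by omega)
    have g11 : (2 * W + 2000 * (D + 1)) * (Nat.clog 2 n + 1) =
      (2 * W + 2000 * (D + 1)) * Nat.clog 2 n + (2 * W + 2000 * (D + 1)) := by ring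
    rw [g11]
    omega

end cost


end DivRF

theorem specDivRF_lgc_le (D : ℕ) : lgc (2 * D + 1) ≤ 2 * lgc (D + 1) := by
  have h1 : Nat.clog 2 (2 * D + 1) ≤ Nat.clog 2 (D + 1) + 1 := by
    rw [Nat.clog_le_iff_le_pow (by norm_num)]
    have h2 := Nat.le_pow_clog (b := 2) (by norm_num) (D + 1)
    rw [pow_succ]
    omega
  unfold lgc
  omega

theorem specDivRF_ql_mono (k : ℕ) {a b : ℕ} (h : a ≤ b) : ql k a ≤ ql k b := by
  unfold ql lgc
  refine Nat.mul_le_mul (by omega) (Nat.pow_le_pow_left ?_ k)
  have := Nat.clog_mono_right 2 (show a + 1 ≤ b + 1 by omega)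
  omega

theorem specDivRF_ql_two (k D : ℕ) : ql k (2 * D) ≤ 2 ^ (k + 1) * ql k D := by
  unfold ql
  calc (2 * D + 1) * lgc (2 * D + 1) ^ k ≤ (2 * (D + 1)) * (2 * lgc (D + 1)) ^ k :=
        Nat.mul_le_mul (by omega) (Nat.pow_le_pow_left (specDivRF_lgc_le D) k)
    _ = 2 ^ (k + 1) * ((D + 1) * lgc (D + 1) ^ k) := by rw [mul_pow]; ring

/-- TARGET -/
theorem specDivRF (h : SpecMulRF) : SpecDivRF := by
  obtain ⟨pm, C, k, hp⟩ := h
  refine ⟨DivRF.divP pm, 2 * C * 2 ^ (k + 1) + 2000, k + 1, ?_⟩
  intro F _ _ r s P G hr2 hr0 hs hP hG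
  have hM : Pool.Agent.H330FB.JA6.DivR.GoodM (F := F) s (DivRF.mulF pm (un r) s) := by
    intro a b ha hb
    have := hp F r s a b hr2 hr0 hs ha hb
    exact ⟨this.1, this.2.1, this.2.2.1⟩
  have hv := DivRF.val_divP (F := F) pm (un r) s P G
  obtain ⟨D, hD⟩ : ∃ D, D = s * (P.length + G.length) := ⟨_, rfl⟩
  obtain ⟨W, hWdef⟩ : ∃ W, W = C * (2 ^ (k + 1) * ql k D) := ⟨_, rfl⟩
  have hW : DivRF.CostM (F := F) pm (un r) s (2 * P.length) W := by
    intro a b ha hb hab
    have h1 := (hp F r s a b hr2 hr0 hs ha hb).2.2.2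
    rw [hWdef]
    refine h1.trans (Nat.mul_le_mul_left _ ?_)
    refine le_trans (specDivRF_ql_mono k ?_) (specDivRF_ql_two k D)
    have h2 : s * (a.length + b.length) ≤ s * (2 * (P.length + G.length)) :=
      Nat.mul_le_mul_left _ (by omega)
    have e : s * (2 * (P.length + G.length)) = 2 * D := by rw [hD]; ring
    omega
  have hcost := DivRF.cost_divP (F := F) pm (un r) s W hs hM P G hP hG hW
  rw [← hD] at hcost
  intro c
  have hc : c = if P.length ≤ G.length then
      ([], fit G.length (Pool.Agent.H330FB.JA6.DivR.zrow F s) P) else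
      (Pool.Agent.H330FB.JA6.DivR.quo (DivRF.mulF pm (un r) s) s (P.length - G.length) P G,
        Pool.Agent.H330FB.JA6.DivR.rem (DivRF.mulF pm (un r) s) s P G
          (Pool.Agent.H330FB.JA6.DivR.quo (DivRF.mulF pm (un r) s) s (P.length - G.length) P G)) := hv
  have hfin : (DivRF.divP pm).cost (F := F) () () (un r, (un s, (P, G))) ≤
      (2 * C * 2 ^ (k + 1) + 2000) * ql (k + 1) (s * (P.length + G.length)) := by
    rw [← hD]
    refine hcost.trans ?_
    have h1 : D + 1 ≤ ql k D := by
      unfold ql
      exact Nat.le_mul_of_pos_right _ (Nat.pow_pos (by unfold lgc; omega))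
    have hPD : P.length ≤ D := by
      rw [hD]
      calc P.length ≤ 1 * (P.length + G.length) := by omega
        _ ≤ s * (P.length + G.length) := Nat.mul_le_mul_right _ hs
    have h2 : Nat.clog 2 P.length + 1 ≤ lgc (D + 1) := by
      have := Nat.clog_mono_right 2 (show P.length ≤ D + 1 by omega)
      simp only [lgc]
      omega
    have h3 : 2 * W + 2000 * (D + 1) ≤ (2 * C * 2 ^ (k + 1) + 2000) * ql k D := by
      rw [hWdef]
      have h4 : 2000 * (D + 1) ≤ 2000 * ql k D := Nat.mul_le_mul_left _ h1
      calc 2 * (C * (2 ^ (k + 1) * ql k D)) + 2000 * (D + 1)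
          ≤ 2 * (C * (2 ^ (k + 1) * ql k D)) + 2000 * ql k D := Nat.add_le_add_left h4 _
        _ = (2 * C * 2 ^ (k + 1) + 2000) * ql k D := by ring
    calc (2 * W + 2000 * (D + 1)) * (Nat.clog 2 P.length + 1)
        ≤ (2 * C * 2 ^ (k + 1) + 2000) * ql k D * lgc (D + 1) := Nat.mul_le_mul h3 h2
      _ = (2 * C * 2 ^ (k + 1) + 2000) * ql (k + 1) D := by unfold ql; ring
  by_cases hn : P.length ≤ G.length
  · rw [if_pos hn] at hc
    rw [hc]
    refine ⟨?_, ?_, ?_, ?_, ?_, hfin⟩
    · intro r hr; simp at hr
    · simp; omega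
    · exact Pool.Agent.H330FB.JA6.DivR.Sh_fit _ _ _ _
        (Pool.Agent.H330FB.JA6.DivR.length_zrow _) hP
    · simp
    · intro R _ _ τ hτ
      rw [Pool.Agent.H330FB.JA6.DivR.rp_fit_eq τ (Pool.Agent.H330FB.JA6.DivR.zrow F s)
        (Pool.Agent.H330FB.JA6.DivR.pol_zrow s) _ _ hn, Pool.Agent.H330FB.JA6.DivR.rp_nil]
      ring
  · rw [if_neg hn] at hc
    rw [hc]
    refine ⟨Pool.Agent.H330FB.JA6.DivR.Sh_quo hM _ _ _ hP hG,
      Pool.Agent.H330FB.JA6.DivR.length_quo _ _ _ _ _, ?_,
      Pool.Agent.H330FB.JA6.DivR.length_rem _ _ _ _ _, ?_, hfin⟩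
    · exact Pool.Agent.H330FB.JA6.DivR.Sh_rem hM _ _ _ hP hG
        (Pool.Agent.H330FB.JA6.DivR.Sh_quo hM _ _ _ hP hG)
    · intro R _ _ τ hτ
      exact Pool.Agent.H330FB.JA6.DivR.div_spec hM hs _ (by omega) P G (by omega) hP hG R τ hτ

end

end Pool.Agent.H330AB.JJ2
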