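import Pool.Agent.H330AB.SpecA2
set_option autoImplicit false
noncomputable section
namespace Pool.Agent.H330AB.JJ4
open Polynomial Pool.Agent.H330FB

section specHorn_aux

/-- the input type -/
abbrev hornI : Ty := .prod Un (.prod Un (.prod Po (.prod Ma Ma)))

/-- one step of Horner's rule -/
def hornStep (q : Pr [] hornI Ma) : Pr [] (.prod hornI (.prod Ma Po)) Ma :=
  onL (.comp (.pair (.comp .fst .fst) (.pair (.comp .fst (.comp .snd .fst))
      (.pair (.comp .fst (.comp .snd (.comp .snd .fst)))
        (.pair (.comp .snd .fst) (.comp .fst (.comp .snd (.comp .snd (.comp .snd .fst)))))))) q)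
    .nil
    (.comp (.pair (.comp (.pair .star (.pair (.comp .snd .fst) (.comp .fst (.comp .snd .snd))))
      (zipP (c := .unit) (.comp .snd .add))) (.comp .snd .snd)) .cons)

/-- the zero element -/
def hornZero : Pr [] hornI Ma :=
  .comp (.pair (.comp .snd .fst) (.comp .snd (.comp .snd .fst)))
    (mapP (c := Un) (a := .fld) (b := Po)
      (.comp (.pair .star .fst) (mapP (c := .unit) (a := .unit) (b := .fld) .zero)))

/-- Horner's rule -/
def hornP (q : Pr [] hornI Ma) : Pr [] hornI Ma :=
  .comp (.pair .id (.pair hornZero (.comp (.comp .snd (.comp .snd (.comp .snd .snd))) revP)))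
    (foldP (hornStep q))

variable {F : Type} [Field F] [DecidableEq F]

set_option linter.unusedSectionVars false

/-- the step as a function -/
noncomputable def hornF (q : Pr [] hornI Ma) (x : Ty.D F hornI) (y : List (List F)) (z : List F) :
    List (List F) :=
  lcase (q.val () (x.1, (x.2.1, (x.2.2.1, (y, x.2.2.2.1)))) : List (List F)) []
    (fun h t => List.zipWith (fun a b => a + b) h z :: t)

theorem hornStep_val (q : Pr [] hornI Ma) (x : Ty.D F hornI) (y : List (List F)) (z : List F) :
    ((hornStep q).val () (x, (y, z)) : List (List F)) = hornF q x y z := by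
  simp [hornStep, hornF]

theorem hornZero_val (x : Ty.D F hornI) : (hornZero.val () x : List (List F)) =
    List.replicate (List.length x.2.2.1) (List.replicate (List.length x.2.1) (0 : F)) := by
  simp [hornZero, List.map_const']

theorem hornP_val (q : Pr [] hornI Ma) (x : Ty.D F hornI) : ((hornP q).val () x : List (List F)) =
    List.foldr (fun z y => hornF q x y z)
      (List.replicate (List.length x.2.2.1) (List.replicate (List.length x.2.1) (0 : F)))
      x.2.2.2.2 := by
  have h1 : ((hornP q).val () x : List (List F)) =
      List.foldl (fun y z => ((hornStep q).val () (x, (y, z)) : List (List F)))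
        (hornZero.val () x) (List.reverse x.2.2.2.2) := by
    simp [hornP]
  have h2 : (fun (y : List (List F)) (z : List F) =>
      ((hornStep q).val () (x, (y, z)) : List (List F))) = fun y z => hornF q x y z := by
    funext y z
    exact hornStep_val q x y z
  rw [h1, h2, List.foldl_reverse, hornZero_val]

theorem horn_pol_replicate_zero {R : Type} [CommRing R] (n : ℕ) : pol (List.replicate n (0 : R)) = 0 := by
  induction n with
  | zero => rfl
  | succ n ih => rw [List.replicate_succ, pol, ih]; simp

theorem horn_pol_zipWith_add {R : Type} [CommRing R] (a b : List R) (h : a.length = b.length) :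
    pol (List.zipWith (fun x y => x + y) a b) = pol a + pol b := by
  induction a generalizing b with
  | nil =>
    cases b with
    | nil => simp [pol]
    | cons y b => simp at h
  | cons x a ih =>
    cases b with
    | nil => simp at h
    | cons y b =>
      simp only [List.length_cons, Nat.add_right_cancel_iff] at h
      rw [List.zipWith_cons_cons, pol, pol, pol, ih b h, map_add]
      ring

theorem horn_av_zero {R : Type} [CommRing R] [Algebra F R] (τ ζ : R) (n s : ℕ) :
    av τ ζ (List.replicate n (List.replicate s (0 : F))) = 0 := by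
  rw [av, rp, List.map_replicate, horn_pol_replicate_zero, map_zero, horn_pol_replicate_zero,
    eval_zero]

theorem horn_av_cons {R : Type} [CommRing R] [Algebra F R] (τ ζ : R) (h : List F)
    (t : List (List F)) : av τ ζ (h :: t) = aeval τ (pol h) + ζ * av τ ζ t := by
  rw [av, rp, List.map_cons, pol, eval_add, eval_C, eval_mul, eval_X]
  rfl

theorem horn_rp_cons {R : Type} [CommRing R] [Algebra F R] (τ : R) (h : List F)
    (t : List (List F)) : rp τ (h :: t) = C (aeval τ (pol h)) + X * rp τ t := by
  rw [rp, List.map_cons, pol]
  rfl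

end specHorn_aux

/-- TARGET -/
theorem specHorn (h : SpecMMA) : SpecHorn := by
  obtain ⟨q, C, k, hq⟩ := h
  refine ⟨hornP q, 200 * (C + 1), k, ?_⟩
  intro F _ _ r s h φ G hr hr0 hs hh hφ hG hφl
  set x : Ty.D F hornI := (un r, (un s, (h, (φ, G)))) with hx
  have hs1 : List.length (un s) = s := by simp [un]
  -- one step
  have hstep : ∀ (y : List (List F)) (z : List F), Sh s y → y.length = h.length →
      z.length = s → Sh s (hornF q x y z) ∧ (hornF q x y z).length = h.length ∧
      (∀ (R : Type) [CommRing R] [Algebra F R] (τ ζ : R), τ ^ s = 0 → aeval ζ (mpol h) = 0 →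
        av τ ζ (hornF q x y z) = av τ ζ y * av τ ζ φ + aeval τ (pol z)) ∧
      (hornStep q).cost () () (x, (y, z)) ≤ C * ql k (s * h.length) + (51 * s + 60) := by
    intro y z hy hyl hz
    obtain ⟨h1, h2, h3, h4⟩ := hq F r s h y φ hr hr0 hs hh hy hφ hyl hφl
    have hval : (q.val () (x.1, (x.2.1, (x.2.2.1, (y, x.2.2.2.1)))) : List (List F)) =
      (q.val () (un r, (un s, (h, (y, φ)))) : List (List F)) := rfl
    obtain ⟨c0, ct, hc⟩ : ∃ (c0 : List F) (ct : List (List F)),
        (q.val () (un r, (un s, (h, (y, φ)))) : List (List F)) = c0 :: ct := by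
      cases hcc : (q.val () (un r, (un s, (h, (y, φ)))) : List (List F)) with
      | nil =>
        simp only [hcc, List.length_nil] at h2
        omega
      | cons c0 ct => exact ⟨c0, ct, rfl⟩
    simp only [hc] at h1 h2 h3
    have hF : hornF q x y z = List.zipWith (fun a b => a + b) c0 z :: ct := by
      rw [hornF, hval, hc]
      rfl
    have hc0 : c0.length = s := h1 c0 (by simp)
    rw [hF]
    refine ⟨?_, ?_, ?_, ?_⟩
    · intro w hw
      rcases List.mem_cons.mp hw with rfl | hw
      · rw [List.length_zipWith, hc0, hz, min_self]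
      · exact h1 w (by simp [hw])
    · simpa using h2
    · intro R _ _ τ ζ hτ hζ
      have h5 := h3 R τ ζ hτ hζ
      rw [horn_av_cons] at h5
      rw [horn_av_cons, horn_pol_zipWith_add c0 z (by rw [hc0, hz]), map_add, ← h5]
      ring
    · have hzip := cost_zipP_le (s := []) (F := F) (c := .unit) (a := .fld) (b := .fld) (d := .fld)
        (.comp .snd .add) () () ((), (c0, z)) 2 (fun _ _ _ _ => by simp)
      have hcost : (hornStep q).cost () () (x, (y, z)) ≤
          q.cost () () (un r, (un s, (h, (y, φ)))) + (51 * s + 60) := by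
        simp only [hornStep, cost_onL, cost_comp, cost_pair, cost_fst, cost_snd, val_comp, val_pair,
          val_fst, val_snd, hx, hc, lcase_cons, cost_star, val_star, cost_cons]
        simp only at hzip
        rw [hc0] at hzip
        omega
      omega
  -- the whole result
  have hres : ∀ G : List (List F), Sh s G →
      let c : List (List F) := List.foldr (fun z y => hornF q x y z)
        (List.replicate h.length (List.replicate s (0 : F))) G
      Sh s c ∧ c.length = h.length ∧
      (∀ (R : Type) [CommRing R] [Algebra F R] (τ ζ : R), τ ^ s = 0 → aeval ζ (mpol h) = 0 →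
        av τ ζ c = (rp τ G).eval (av τ ζ φ)) := by
    intro G hG
    induction G with
    | nil =>
      refine ⟨?_, ?_, ?_⟩
      · intro w hw
        rw [List.foldr_nil] at hw
        rw [List.eq_of_mem_replicate hw]
        simp
      · simp
      · intro R _ _ τ ζ _ _
        rw [List.foldr_nil, horn_av_zero, rp, List.map_nil, pol, eval_zero]
    | cons z G ih =>
      obtain ⟨i1, i2, i3⟩ := ih (fun r hr => hG r (by simp [hr]))
      obtain ⟨j1, j2, j3, -⟩ := hstep _ z i1 i2 (hG z (by simp))
      refine ⟨j1, j2, ?_⟩
      intro R _ _ τ ζ hτ hζ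
      rw [List.foldr_cons, j3 R τ ζ hτ hζ, i3 R τ ζ hτ hζ, horn_rp_cons, eval_add, eval_C, eval_mul,
        eval_X]
      ring
  have hval : (hornP q).val () x = List.foldr (fun z y => hornF q x y z)
      (List.replicate h.length (List.replicate s (0 : F))) G := by
    rw [hornP_val]
    have e1 : List.length x.2.1 = s := hs1
    rw [e1]
  obtain ⟨r1, r2, r3⟩ := hres G hG
  show Sh s ((hornP q).val () x : List (List F)) ∧
    List.length ((hornP q).val () x : List (List F)) = h.length ∧ _ ∧ _
  rw [hval]
  refine ⟨r1, r2, r3, ?_⟩
  set n : ℕ := h.length with hn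
  set g : ℕ := G.length with hg
  set Q : ℕ := ql k (s * n) with hQ
  have hZ : (hornZero.val () x : List (List F)) = List.replicate n (List.replicate s (0 : F)) := by
    rw [hornZero_val]
    have e1 : List.length x.2.1 = s := hs1
    rw [e1]
  have hfold := cost_foldP_le (hornStep q) () () (x, (hornZero.val () x, List.reverse G))
    (C * Q + (51 * s + 60)) (fun y : List (List F) => Sh s y ∧ y.length = n) (by
      show Sh s (hornZero.val () x : List (List F)) ∧
        List.length (hornZero.val () x : List (List F)) = n
      rw [hZ]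
      refine ⟨fun w hw => ?_, by simp⟩
      rw [List.eq_of_mem_replicate hw]
      simp) (by
      intro y z hy hz
      have hz' : z.length = s := hG z (by simpa using hz)
      have h1 := hstep y z hy.1 hy.2 hz'
      show Sh s ((hornStep q).val () (x, (y, z)) : List (List F)) ∧
        List.length ((hornStep q).val () (x, (y, z)) : List (List F)) = n
      rw [hornStep_val]
      exact ⟨h1.1, h1.2.1⟩) (by
      intro y z hy hz
      have hz' : z.length = s := hG z (by simpa using hz)
      exact (hstep y z hy.1 hy.2 hz').2.2.2)
  have hrev := cost_revP (s := []) (F := F) (a := Po) () () G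
  have hin : ∀ y : F, (Pr.comp (.pair .star .fst) (mapP (c := .unit) (a := .unit) (b := .fld) .zero) :
      Pr [] (.prod Un .fld) Po).cost (F := F) () () (un s, y) ≤ 14 * s + 10 := by
    intro y
    have e := cost_mapP_le (s := []) (F := F) (c := .unit) (a := .unit) (b := .fld) .zero () ()
      ((), un s) 1 (fun _ _ => by simp)
    simp only [hs1] at e
    simp only [cost_comp, cost_pair, cost_star, cost_fst, val_pair, val_star, val_fst]
    omega
  have hzero := cost_mapP_le (s := []) (F := F) (c := Un) (a := .fld) (b := Po)
    (.comp (.pair .star .fst) (mapP (c := .unit) (a := .unit) (b := .fld) .zero)) () ()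
    (un s, h) (14 * s + 10) (fun y _ => hin y)
  have hzc : hornZero.cost () () x ≤ (14 * s + 10 + 13) * n + 15 := by
    simp only [hornZero, cost_comp, cost_pair, cost_fst, cost_snd, val_comp, val_pair, val_fst,
      val_snd, hx]
    simp only [← hn] at hzero
    omega
  have htot : (hornP q).cost () () x ≤ hornZero.cost () () x + (33 * g + 19) +
      ((C * Q + (51 * s + 60) + 27) * g + 14) + 20 := by
    simp only [List.length_reverse, ← hg] at hfold hrev
    simp only [hornP, cost_comp, cost_pair, cost_id, cost_snd, val_comp, val_pair, val_id, val_snd,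
      val_revP]
    have e1 : x.2.2.2.2 = G := rfl
    rw [e1]
    omega
  have hlg : 1 ≤ lgc (s * n + 1) ^ k := Nat.one_le_pow _ _ (by simp [lgc])
  have hQ1 : s * n + 1 ≤ Q := by
    rw [hQ, ql]
    calc s * n + 1 = (s * n + 1) * 1 := (mul_one _).symm
      _ ≤ (s * n + 1) * lgc (s * n + 1) ^ k := Nat.mul_le_mul_left _ hlg
  have hnA : n ≤ s * n := Nat.le_mul_of_pos_left n hs
  have hsA : s ≤ s * n := Nat.le_mul_of_pos_right s hh
  have hsQ : s ≤ Q := by omega
  have h1Q : 1 ≤ Q := by omega
  have hsg : s * g ≤ Q * g := Nat.mul_le_mul_right g hsQ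
  have h1g : 1 * g ≤ Q * g := Nat.mul_le_mul_right g h1Q
  refine (htot.trans (Nat.add_le_add_right (Nat.add_le_add_right (Nat.add_le_add_right hzc _) _) _)).trans ?_
  nlinarith [hsg, h1g, hQ1, hnA, Nat.zero_le (C * Q), Nat.zero_le (C * Q * g)]
end Pool.Agent.H330AB.JJ4
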