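import Pool.Agent.H330AB.SpecA2
set_option autoImplicit false
noncomputable section
namespace Pool.Agent.H330AB.JJ5
open Polynomial Pool.Agent.H330FB

namespace J5

/-! ### algebra -/

section alg
variable {F : Type} [Field F]

theorem pol_append {R : Type} [CommRing R] (a b : List R) :
    pol (a ++ b) = pol a + X ^ a.length * pol b := by
  induction a with
  | nil => simp [pol]
  | cons x a ih =>
    simp only [List.cons_append, pol, ih, List.length_cons, pow_succ]
    ring

theorem pol_fit_nil (s : ℕ) : pol (fit s (0 : F) []) = 0 := by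
  induction s with
  | zero => rfl
  | succ s ih => simp [fit, pol, ih]

theorem pol_fit_one (s : ℕ) (hs : 1 ≤ s) (x : F) : pol (fit s 0 [x]) = C x := by
  obtain ⟨t, rfl⟩ : ∃ t, s = t + 1 := ⟨s - 1, by omega⟩
  simp [fit, pol, pol_fit_nil]

theorem pol_fit_two (s : ℕ) (hs : 2 ≤ s) (x y : F) : pol (fit s 0 [x, y]) = C x + X * C y := by
  obtain ⟨t, rfl⟩ : ∃ t, s = t + 2 := ⟨s - 2, by omega⟩
  simp [fit, pol, pol_fit_nil]

/-- rows times consecutive field elements -/
def dl (c : F) : List (List F) → List (List F)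
  | [] => []
  | r :: l => r.map (fun x => c * x) :: dl (c + 1) l

theorem length_dl (c : F) (l : List (List F)) : (dl c l).length = l.length := by
  induction l generalizing c with
  | nil => rfl
  | cons r l ih => simp [dl, ih]

theorem sh_dl (s : ℕ) (c : F) (l : List (List F)) (h : Sh s l) : Sh s (dl c l) := by
  induction l generalizing c with
  | nil => intro r hr; simp [dl] at hr
  | cons r l ih =>
    intro x hx
    simp only [dl, List.mem_cons] at hx
    rcases hx with rfl | hx
    · rw [List.length_map]; exact h r (by simp)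
    · exact ih (c + 1) (fun y hy => h y (by simp [hy])) x hx

theorem pol_smul (c : F) (r : List F) : pol (r.map (fun x => c * x)) = C c * pol r := by
  induction r with
  | nil => simp [pol]
  | cons x r ih => simp [pol, ih]; ring

theorem rp_nil {R : Type} [CommRing R] [Algebra F R] (τ : R) :
    rp τ ([] : List (List F)) = 0 := rfl

theorem rp_cons {R : Type} [CommRing R] [Algebra F R] (τ : R) (r : List F) (l : List (List F)) :
    rp τ (r :: l) = C (aeval τ (pol r)) + X * rp τ l := rfl

theorem rp_append {R : Type} [CommRing R] [Algebra F R] (τ : R) (a b : List (List F)) :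
    rp τ (a ++ b) = rp τ a + X ^ a.length * rp τ b := by
  unfold rp
  rw [List.map_append, pol_append, List.length_map]

theorem rp_dl {R : Type} [CommRing R] [Algebra F R] (τ : R) (c : F) (l : List (List F)) :
    rp τ (dl c l) = C (algebraMap F R c) * rp τ l + X * derivative (rp τ l) := by
  induction l generalizing c with
  | nil => simp [dl, rp_nil]
  | cons r l ih =>
    simp only [dl, rp_cons, ih, pol_smul, map_mul, aeval_C, map_add, map_one,
      derivative_mul, derivative_C, derivative_X]
    ring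

theorem rp_dtail {R : Type} [CommRing R] [Algebra F R] (τ : R) (l : List (List F)) :
    rp τ (dl 1 l.tail) = derivative (rp τ l) := by
  cases l with
  | nil => simp [dl, rp_nil]
  | cons r l =>
    rw [List.tail_cons, rp_dl, rp_cons]
    simp

theorem pol_hd0 (l : List (List F)) : pol (hd0 l) = rp (0 : F) l := by
  unfold hd0 rp
  congr 1
  apply List.map_congr_left
  intro r _
  cases r with
  | nil => simp [pol]
  | cons x r => simp [pol]

theorem length_hd0 (l : List (List F)) : (hd0 l).length = l.length := by simp [hd0]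

theorem mpol_hd0 (l : List (List F)) : mpol (hd0 l) = mrp (0 : F) l := by
  unfold mpol mrp
  rw [pol_hd0, length_hd0]

theorem rp_top {R : Type} [CommRing R] [Algebra F R] (τ : R) (s : ℕ) (hs : 1 ≤ s)
    (S : List (List F)) : rp τ (S ++ [fit s 0 [1]]) = mrp τ S := by
  rw [rp_append, rp_cons, rp_nil, pol_fit_one s hs]
  unfold mrp
  simp [add_comm]

theorem pol_hd0_dtail (s : ℕ) (hs : 1 ≤ s) (S : List (List F)) :
    pol (hd0 (dl 1 (S ++ [fit s 0 [1]]).tail)) = derivative (mpol (hd0 S)) := by
  rw [pol_hd0, rp_dtail, rp_top _ s hs, mpol_hd0]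

/-- the value modulo `τ` -/
theorem rp_mod {R : Type} [CommRing R] [Algebra F R] (τ : R) (l : List (List F)) :
    ∃ Q : R[X], rp τ l = (pol (hd0 l)).map (algebraMap F R) + C τ * Q := by
  induction l with
  | nil => exact ⟨0, by simp [rp_nil, hd0, pol]⟩
  | cons r l ih =>
    obtain ⟨Q, hQ⟩ := ih
    have h1 : ∃ y : R, aeval τ (pol r) = algebraMap F R (r.getD 0 0) + τ * y := by
      cases r with
      | nil => exact ⟨0, by simp [pol]⟩
      | cons x r => exact ⟨aeval τ (pol r), by simp [pol]⟩
    obtain ⟨y, hy⟩ := h1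
    refine ⟨C y + X * Q, ?_⟩
    have h2 : hd0 (r :: l) = r.getD 0 0 :: hd0 l := rfl
    rw [rp_cons, hy, hQ, h2, pol]
    simp only [map_add, map_mul, Polynomial.map_add, Polynomial.map_mul, Polynomial.map_C,
      Polynomial.map_X]
    ring

theorem mrp_mod {R : Type} [CommRing R] [Algebra F R] (τ : R) (l : List (List F)) :
    ∃ Q : R[X], mrp τ l = (mpol (hd0 l)).map (algebraMap F R) + C τ * Q := by
  obtain ⟨Q, hQ⟩ := rp_mod τ l
  refine ⟨Q, ?_⟩
  unfold mrp mpol
  rw [hQ, length_hd0]
  simp only [Polynomial.map_add, Polynomial.map_pow, Polynomial.map_X]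
  ring

/-- rows from field elements -/
def li (s : ℕ) (l : List F) : List (List F) := l.map (fun x => fit s 0 [x])

theorem length_li (s : ℕ) (l : List F) : (li s l).length = l.length := by simp [li]

theorem sh_li (s : ℕ) (l : List F) : Sh s (li s l) := by
  intro r hr
  obtain ⟨x, _, rfl⟩ := List.mem_map.1 hr
  simp

theorem rp_li {R : Type} [CommRing R] [Algebra F R] (τ : R) (s : ℕ) (hs : 1 ≤ s) (l : List F) :
    rp τ (li s l) = (pol l).map (algebraMap F R) := by
  induction l with
  | nil => simp [li, rp_nil, pol]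
  | cons x l ih =>
    have : li s (x :: l) = fit s 0 [x] :: li s l := rfl
    rw [this, rp_cons, ih, pol_fit_one s hs, pol]
    simp

theorem av_li {R : Type} [CommRing R] [Algebra F R] (τ ζ : R) (s : ℕ) (hs : 1 ≤ s) (l : List F) :
    av τ ζ (li s l) = aeval ζ (pol l) := by
  unfold av
  rw [rp_li τ s hs, eval_map_algebraMap]

/-- difference -/
def msub (a b : List (List F)) : List (List F) :=
  List.zipWith (List.zipWith (fun x y => x + -y)) a b

theorem pol_zsub {R : Type} [CommRing R] (a b : List R) (h : a.length = b.length) :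
    pol (List.zipWith (fun x y => x + -y) a b) = pol a - pol b := by
  induction a generalizing b with
  | nil =>
    cases b with
    | nil => simp [pol]
    | cons y b => simp at h
  | cons x a ih =>
    cases b with
    | nil => simp at h
    | cons y b =>
      have := ih b (by simpa using h)
      simp only [List.zipWith_cons_cons, pol, this, map_add, map_neg]
      ring

theorem length_msub (a b : List (List F)) (h : a.length = b.length) :
    (msub a b).length = a.length := by simp [msub, h]

theorem sh_msub (s : ℕ) (a b : List (List F)) (ha : Sh s a) (hb : Sh s b) : Sh s (msub a b) := by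
  induction a generalizing b with
  | nil => intro r hr; simp [msub] at hr
  | cons x a ih =>
    cases b with
    | nil => intro r hr; simp [msub] at hr
    | cons y b =>
      intro r hr
      simp only [msub, List.zipWith_cons_cons, List.mem_cons] at hr
      rcases hr with rfl | hr
      · simp [ha x (by simp), hb y (by simp)]
      · exact ih b (fun y hy => ha y (by simp [hy])) (fun y hy => hb y (by simp [hy])) r hr

theorem rp_msub {R : Type} [CommRing R] [Algebra F R] (τ : R) (s : ℕ) (a b : List (List F))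
    (h : a.length = b.length) (ha : Sh s a) (hb : Sh s b) :
    rp τ (msub a b) = rp τ a - rp τ b := by
  induction a generalizing b with
  | nil =>
    cases b with
    | nil => simp [msub, rp_nil]
    | cons y b => simp at h
  | cons x a ih =>
    cases b with
    | nil => simp at h
    | cons y b =>
      have h1 := ih b (by simpa using h) (fun y hy => ha y (by simp [hy]))
        (fun y hy => hb y (by simp [hy]))
      have h2 : msub (x :: a) (y :: b) = List.zipWith (fun x y => x + -y) x y :: msub a b := rfl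
      rw [h2, rp_cons, rp_cons, rp_cons, h1, pol_zsub x y (by rw [ha x (by simp), hb y (by simp)])]
      simp only [map_sub]
      ring

theorem av_msub {R : Type} [CommRing R] [Algebra F R] (τ ζ : R) (s : ℕ) (a b : List (List F))
    (h : a.length = b.length) (ha : Sh s a) (hb : Sh s b) :
    av τ ζ (msub a b) = av τ ζ a - av τ ζ b := by
  unfold av
  rw [rp_msub τ s a b h ha hb, eval_sub]

/-- start value -/
def x0 (h : List F) : List F :=
  fit h.length 0 (lcase h.tail [-(h.getD 0 0)] (fun _ _ => [0, 1]))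

theorem aeval_x0 {R : Type} [CommRing R] [Algebra F R] (h : List F) (hn : 1 ≤ h.length) (ζ : R)
    (hz : aeval ζ (mpol h) = 0) : aeval ζ (pol (x0 h)) = ζ := by
  rcases h with _ | ⟨a, _ | ⟨b, t⟩⟩
  · simp at hn
  · have h1 : x0 [a] = fit 1 0 [-a] := rfl
    rw [h1, pol_fit_one 1 le_rfl]
    have h2 : mpol [a] = X + C a := by simp [mpol, pol]
    rw [h2] at hz
    simp only [map_add, aeval_X, aeval_C] at hz
    rw [aeval_C, map_neg]
    exact (eq_neg_of_add_eq_zero_left hz).symm
  · have h1 : x0 (a :: b :: t) = fit (a :: b :: t).length 0 [0, 1] := rfl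
    rw [h1, pol_fit_two _ (by simp)]
    simp

/-! ### Newton step -/

/-- invariant of the Newton iteration -/
def NI {R : Type} [CommRing R] (P : R[X]) (τ ζ : R) (m : ℕ) (x w : R) : Prop :=
  (∃ ρ, P.eval x = τ ^ m * ρ) ∧ (∃ ρ, w * (derivative P).eval x - 1 = τ ^ m * ρ) ∧
    ∃ ρ, x = ζ + τ * ρ

theorem newton_step {R : Type} [CommRing R] (P : R[X]) (τ ζ : R) (m : ℕ) (hm : 1 ≤ m) (x w : R)
    (h : NI P τ ζ m x w) :
    NI P τ ζ (2 * m) (x - w * P.eval x)
      (w - (w * (w * (derivative P).eval (x - w * P.eval x)) - w)) := by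
  obtain ⟨⟨a, ha⟩, ⟨b, hb⟩, ⟨c, hc⟩⟩ := h
  obtain ⟨q, hq⟩ := binomExpansion P x (-(w * P.eval x))
  obtain ⟨z, hz⟩ := evalSubFactor (derivative P) (x - w * P.eval x) x
  rw [← sub_eq_add_neg] at hq
  have hz' : (derivative P).eval (x - w * P.eval x) =
      (derivative P).eval x - z * (w * P.eval x) := by
    have : (derivative P).eval (x - w * P.eval x) = (derivative P).eval x +
      z * (x - w * P.eval x - x) := by rw [← hz]; ring
    rw [this]; ring
  have e2 : τ ^ (2 * m) = τ ^ m * τ ^ m := by rw [two_mul, pow_add]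
  refine ⟨⟨-(a * b) + q * w ^ 2 * a ^ 2, ?_⟩, ⟨-(b - w ^ 2 * a * z) ^ 2, ?_⟩, ?_⟩
  · rw [hq, e2]
    calc P.eval x + (derivative P).eval x * -(w * P.eval x) + q * (-(w * P.eval x)) ^ 2
        = -(P.eval x * (w * (derivative P).eval x - 1)) + q * w ^ 2 * (P.eval x) ^ 2 := by ring
      _ = -((τ ^ m * a) * (τ ^ m * b)) + q * w ^ 2 * (τ ^ m * a) ^ 2 := by rw [hb, ha]
      _ = _ := by ring
  · rw [e2]
    have e3 : w * (derivative P).eval (x - w * P.eval x) - 1 = τ ^ m * (b - w ^ 2 * a * z) := by
      rw [hz']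
      calc w * ((derivative P).eval x - z * (w * P.eval x)) - 1
          = (w * (derivative P).eval x - 1) - w ^ 2 * z * P.eval x := by ring
        _ = τ ^ m * b - w ^ 2 * z * (τ ^ m * a) := by rw [hb, ha]
        _ = _ := by ring
    generalize (derivative P).eval (x - w * P.eval x) = D at e3 ⊢
    have e4 : w * D = 1 + τ ^ m * (b - w ^ 2 * a * z) := by rw [← e3]; ring
    calc (w - (w * (w * D) - w)) * D - 1 = -((w * D - 1) ^ 2) := by ring
      _ = -((τ ^ m * (b - w ^ 2 * a * z)) ^ 2) := by rw [e3]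
      _ = _ := by ring
  · obtain ⟨m', rfl⟩ : ∃ m', m = m' + 1 := ⟨m - 1, by omega⟩
    refine ⟨c - w * τ ^ m' * a, ?_⟩
    rw [ha, hc, pow_succ]
    ring

end alg


/-! ### programs -/

section prog
variable {F : Type} [Field F] [DecidableEq F]
variable {σ : List (Ty × Ty)}

/-- difference -/
def subP : Pr σ (.prod Ma Ma) Ma :=
  .comp (.pair .star .id) (zipP (c := .unit) (.comp (.pair .star .snd) (zipP (c := .unit)
    (.comp (.pair (.comp .snd .fst) (.comp (.comp .snd .snd) .neg)) .add))))

@[simp] theorem val_subP (v : SV F σ) (x : Ty.D F (.prod Ma Ma)) :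
    (subP : Pr σ (.prod Ma Ma) Ma).val v x = msub x.1 x.2 := by
  simp [subP, msub]

theorem cost_subP (v : SV F σ) (k : SC F σ) (x : Ty.D F (.prod Ma Ma)) (s : ℕ)
    (h : Sh s (x.1 : List (List F))) :
    (subP : Pr σ (.prod Ma Ma) Ma).cost v k x ≤ (56 * s + 67) * List.length x.1 + 18 := by
  have h1 : ∀ y z : List F, y.length = s → (zipP (c := .unit)
      (.comp (.pair (.comp .snd .fst) (.comp (.comp .snd .snd) .neg)) .add) :
        Pr σ (.prod .unit (.prod Po Po)) Po).cost v k ((), (y, z)) ≤ 56 * s + 15 := by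
    intro y z hy
    have := cost_zipP_le (s := σ) (c := .unit) (a := .fld) (b := .fld) (d := .fld)
      (.comp (.pair (.comp .snd .fst) (.comp (.comp .snd .snd) .neg)) .add) v k ((), (y, z)) 7
      (fun _ _ _ _ => by simp)
    simp only [hy] at this
    exact this
  have h2 := cost_zipP_le (s := σ) (c := .unit) (a := Po) (b := Po) (d := Po)
    (.comp (.pair .star .snd) (zipP (c := .unit)
    (.comp (.pair (.comp .snd .fst) (.comp (.comp .snd .snd) .neg)) .add))) v k ((), x)
    (56 * s + 18) (fun y hy z _ => by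
      have := h1 y z (h y hy)
      simp only [cost_comp, cost_pair, cost_star, cost_snd, val_pair, val_star, val_snd] at this ⊢
      omega)
  rw [show 56 * s + 18 + 49 = 56 * s + 67 by ring] at h2
  simp only [subP, cost_comp, cost_pair, cost_star, cost_id, val_pair, val_star, val_id] at h2 ⊢
  omega

/-- rows times consecutive field elements -/
def dlP : Pr σ (.prod .fld Ma) Ma :=
  .comp (.pair .snd .id) (.recD (onL .snd .nil
    (.comp (.pair (.comp (.pair (.comp .fst .fst) (.comp .snd .fst)) (mapP (c := .fld) .mul))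
      (.comp (.pair (.comp (.pair (.comp .fst .fst) .one) .add) (.comp .snd .snd)) .self)) .cons))
    .nil)

@[simp] theorem val_dlP (v : SV F σ) (x : Ty.D F (.prod .fld Ma)) :
    (dlP : Pr σ (.prod .fld Ma) Ma).val v x = dl (x.1 : F) x.2 := by
  obtain ⟨c, l⟩ := x
  simp only [dlP, val_comp, val_pair, val_snd, val_id, val_recD]
  induction l generalizing c with
  | nil => simp [goV, dl]
  | cons h t ih =>
    have := ih (c + 1 : F)
    simp [goV, dl] at this ⊢
    exact this

theorem cost_dlP (v : SV F σ) (k : SC F σ) (x : Ty.D F (.prod .fld Ma)) (s : ℕ)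
    (h : Sh s (x.2 : List (List F))) :
    (dlP : Pr σ (.prod .fld Ma) Ma).cost v k x ≤ (14 * s + 40) * List.length x.2 + 10 := by
  obtain ⟨c, l⟩ := x
  simp only [dlP, cost_comp, cost_pair, cost_snd, cost_id, val_pair, val_snd, val_id,
    cost_recD] at h ⊢
  have : goC (s := σ) (onL .snd .nil
    (.comp (.pair (.comp (.pair (.comp .fst .fst) (.comp .snd .fst)) (mapP (c := .fld) .mul))
      (.comp (.pair (.comp (.pair (.comp .fst .fst) .one) .add) (.comp .snd .snd)) .self)) .cons))
    .nil v k l.length (c, l) ≤ (14 * s + 40) * List.length l + 5 := by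
    induction l generalizing c with
    | nil => simp [goC]
    | cons r t ih =>
      have e1 := ih (c + 1 : F) (fun y hy => h y (by simp [hy]))
      have e2 := cost_mapP_le (s := (.prod .fld Ma, Ma) :: σ) (F := F) (c := .fld) (a := .fld)
        (b := .fld) .mul
        (goV (s := σ) (onL .snd .nil
    (.comp (.pair (.comp (.pair (.comp .fst .fst) (.comp .snd .fst)) (mapP (c := .fld) .mul))
      (.comp (.pair (.comp (.pair (.comp .fst .fst) .one) .add) (.comp .snd .snd)) .self)) .cons))
    .nil v t.length, v) (goC (s := σ) (onL .snd .nil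
    (.comp (.pair (.comp (.pair (.comp .fst .fst) (.comp .snd .fst)) (mapP (c := .fld) .mul))
      (.comp (.pair (.comp (.pair (.comp .fst .fst) .one) .add) (.comp .snd .snd)) .self)) .cons))
    .nil v k t.length, k) (c, r) 1 (fun _ _ => by simp)
      have e3 : List.length r = s := h r (by simp)
      simp only [e3] at e2
      simp [goC] at e1 e2 ⊢
      nlinarith
  omega

omit [DecidableEq F] in
theorem hd_eq (r : List F) : r.getD 0 0 = lcase r (0 : F) (fun h _ => h) := by
  cases r <;> rfl

/-- first elements of the rows -/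
def hdP : Pr σ Ma Po := .comp (.pair .star .id) (mapP (c := .unit) (onL .snd .zero (.comp .snd .fst)))

@[simp] theorem val_hdP (v : SV F σ) (x : Ty.D F Ma) :
    (hdP : Pr σ Ma Po).val v x = hd0 (x : List (List F)) := by
  simp only [hdP, val_comp, val_pair, val_star, val_id, val_mapP, val_onL, val_snd, val_zero,
    val_fst, hd0]
  apply List.map_congr_left
  intro r _
  exact (hd_eq r).symm

theorem cost_hdP (v : SV F σ) (k : SC F σ) (x : Ty.D F Ma) :
    (hdP : Pr σ Ma Po).cost v k x ≤ 19 * List.length x + 8 := by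
  have h := cost_mapP_le (s := σ) (F := F) (c := .unit) (a := Po) (b := .fld)
    (onL .snd .zero (.comp .snd .fst)) v k ((), x) 6 (fun y _ => by
      rcases y with _ | ⟨y, l⟩ <;> simp)
  simp only [hdP, cost_comp, cost_pair, cost_star, cost_id, val_pair, val_star, val_id] at h ⊢
  omega

/-- rows from field elements, input `(s, l)` -/
def liP : Pr σ (.prod Un Po) Ma :=
  mapP (c := Un) (.comp (.pair .fst (.pair .zero (.comp (.pair .snd .nil) .cons))) fitP)

theorem val_liP (v : SV F σ) (s : ℕ) (l : List F) :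
    (liP : Pr σ (.prod Un Po) Ma).val v ((un s, l) : List Unit × List F) = li s l := by
  simp only [liP, val_mapP, val_comp, val_pair, val_fst, val_zero, val_snd, val_nil, val_cons,
    val_fitP, li]
  rw [un, List.length_replicate]

theorem cost_liP (v : SV F σ) (k : SC F σ) (s : ℕ) (l : List F) :
    (liP : Pr σ (.prod Un Po) Ma).cost v k ((un s, l) : List Unit × List F) ≤
      (20 * s + 30) * l.length + 5 := by
  have h := cost_mapP_le (s := σ) (F := F) (c := Un) (a := .fld) (b := Po)
    (.comp (.pair .fst (.pair .zero (.comp (.pair .snd .nil) .cons))) fitP) v k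
    ((un s, l) : List Unit × List F) (20 * s + 11) (fun y _ => by
      have := cost_fitP (F := F) (s := σ) (b := .unit) (a := .fld) v k
        ((un s, ((0 : F), [y])) : List Unit × (F × List F))
      simp only [un, List.length_replicate] at this
      simp only [cost_comp, cost_pair, cost_fst, cost_zero, cost_snd, cost_nil, cost_cons,
        val_pair, val_fst, val_zero, val_comp, val_snd, val_nil, val_cons]
      unfold un
      omega)
  simp only [liP]
  refine h.trans ?_
  simp only
  have : (20 * s + 11 + 13) * l.length ≤ (20 * s + 30) * l.length :=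
    Nat.mul_le_mul_right _ (by omega)
  omega

/-- start value -/
def x0P : Pr σ Po Po :=
  .comp (.pair .id (.pair .zero (onL .id .nil
    (onL (.comp .snd .snd)
      (.comp (.pair (.comp (.comp .snd .fst) .neg) .nil) .cons)
      (.comp (.pair .zero (.comp (.pair .one .nil) .cons)) .cons))))) fitP

theorem val_x0P (v : SV F σ) (h : List F) (hn : 1 ≤ h.length) :
    (x0P : Pr σ Po Po).val v h = x0 h := by
  rcases h with _ | ⟨a, _ | ⟨b, t⟩⟩
  · simp at hn
  · simp [x0P, x0]
  · simp [x0P, x0]

theorem cost_x0P (v : SV F σ) (k : SC F σ) (h : List F) :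
    (x0P : Pr σ Po Po).cost v k h ≤ 20 * h.length + 40 := by
  have h0 : ∀ m : List F, (fitP : Pr σ (.prod Po (.prod .fld Po)) Po).cost v k
      ((h, ((0 : F), m)) : List F × (F × List F)) ≤ 20 * h.length + 2 := fun m =>
    cost_fitP (F := F) (s := σ) (b := .fld) (a := .fld) v k (h, ((0 : F), m))
  rcases h with _ | ⟨a, _ | ⟨b, t⟩⟩
  · have := h0 []
    simp [x0P] at this ⊢
    omega
  · have := h0 [-a]
    simp [x0P] at this ⊢
    omega
  · have := h0 [0, 1]
    simp [x0P] at this ⊢
    omega


/-- context `(r, (s, (h, (G, G'))))` -/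
abbrev Ctx : Ty := .prod Un (.prod Un (.prod Po (.prod Ma Ma)))

/-- type of the multiplication -/
abbrev PM : Type := Pr [] (.prod Un (.prod Un (.prod Po (.prod Ma Ma)))) Ma

/-- multiplication with the context -/
def muP (pM : PM) : Pr [] (.prod Ctx (.prod Ma Ma)) Ma :=
  .comp (.pair (.comp .fst .fst) (.pair (.comp (.comp .fst .snd) .fst)
    (.pair (.comp (.comp (.comp .fst .snd) .snd) .fst) .snd))) pM

/-- value at `φ` of `G` -/
def hGP (pH : PM) : Pr [] (.prod Ctx Ma) Ma :=
  .comp (.pair (.comp .fst .fst) (.pair (.comp (.comp .fst .snd) .fst)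
    (.pair (.comp (.comp (.comp .fst .snd) .snd) .fst)
      (.pair .snd (.comp (.comp (.comp (.comp .fst .snd) .snd) .snd) .fst))))) pH

/-- value at `φ` of `G'` -/
def hDP (pH : PM) : Pr [] (.prod Ctx Ma) Ma :=
  .comp (.pair (.comp .fst .fst) (.pair (.comp (.comp .fst .snd) .fst)
    (.pair (.comp (.comp (.comp .fst .snd) .snd) .fst)
      (.pair .snd (.comp (.comp (.comp (.comp .fst .snd) .snd) .snd) .snd))))) pH

/-- first half of the Newton step -/
def st1 (pM pH : PM) : Pr [] (.prod Ctx (.prod Ma Ma)) (.prod Ma Ma) :=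
  .pair (.comp (.pair (.comp .snd .fst)
    (.comp (.pair .fst (.pair (.comp .snd .snd) (.comp (.pair .fst (.comp .snd .fst)) (hGP pH))))
      (muP pM))) subP) (.comp .snd .snd)

/-- second half of the Newton step -/
def st2 (pM pH : PM) : Pr [] (.prod Ctx (.prod Ma Ma)) (.prod Ma Ma) :=
  .pair (.comp .snd .fst) (.comp (.pair (.comp .snd .snd)
    (.comp (.pair (.comp (.pair .fst (.pair (.comp .snd .snd)
      (.comp (.pair .fst (.pair (.comp .snd .snd)
        (.comp (.pair .fst (.comp .snd .fst)) (hDP pH)))) (muP pM)))) (muP pM))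
      (.comp .snd .snd)) subP)) subP)

/-- Newton step -/
def stP (pM pH : PM) : Pr [] (.prod Ctx (.prod (.prod Ma Ma) .unit)) (.prod Ma Ma) :=
  .comp (.pair .fst (.comp (.pair .fst (.comp .snd .fst)) (st1 pM pH))) (st2 pM pH)

/-- value of the multiplication -/
noncomputable def mV (pM : PM) (c : List Unit × (List Unit × (List F × (List (List F) × List (List F)))))
    (a b : List (List F)) : List (List F) := pM.val () (c.1, (c.2.1, (c.2.2.1, (a, b))))

/-- cost of the multiplication -/
noncomputable def mC (pM : PM) (c : List Unit × (List Unit × (List F × (List (List F) × List (List F)))))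
    (a b : List (List F)) : ℕ := pM.cost () () (c.1, (c.2.1, (c.2.2.1, (a, b))))

theorem val_st1 (pM pH : PM) (c : List Unit × (List Unit × (List F × (List (List F) × List (List F)))))
    (φ u : List (List F)) : (st1 pM pH).val () (c, (φ, u)) =
      (msub φ (mV pM c u (mV pH c φ c.2.2.2.1)), u) := by
  simp [st1, muP, hGP, mV]

theorem val_st2 (pM pH : PM) (c : List Unit × (List Unit × (List F × (List (List F) × List (List F)))))
    (φ u : List (List F)) : (st2 pM pH).val () (c, (φ, u)) =
      (φ, msub u (msub (mV pM c u (mV pM c u (mV pH c φ c.2.2.2.2))) u)) := by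
  simp [st2, muP, hDP, mV]

theorem cost_st1 (pM pH : PM) (c : List Unit × (List Unit × (List F × (List (List F) × List (List F)))))
    (φ u : List (List F)) (s : ℕ) (hs : Sh s φ) : (st1 pM pH).cost () () (c, (φ, u)) ≤
      mC pH c φ c.2.2.2.1 + mC pM c u (mV pH c φ c.2.2.2.1) + (56 * s + 67) * φ.length + 80 := by
  have h := cost_subP (F := F) (σ := []) () () (φ, mV pM c u (mV pH c φ c.2.2.2.1)) s hs
  simp [st1, muP, hGP, mC, mV] at h ⊢
  omega

theorem cost_st2 (pM pH : PM) (c : List Unit × (List Unit × (List F × (List (List F) × List (List F)))))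
    (φ u : List (List F)) (s : ℕ) (hu : Sh s u)
    (hv : Sh s (mV pM c u (mV pM c u (mV pH c φ c.2.2.2.2)))) :
    (st2 pM pH).cost () () (c, (φ, u)) ≤
      mC pH c φ c.2.2.2.2 + mC pM c u (mV pH c φ c.2.2.2.2) +
      mC pM c u (mV pM c u (mV pH c φ c.2.2.2.2)) +
      (56 * s + 67) * (u.length + (mV pM c u (mV pM c u (mV pH c φ c.2.2.2.2))).length) + 160 := by
  have h := cost_subP (F := F) (σ := []) () ()
    (mV pM c u (mV pM c u (mV pH c φ c.2.2.2.2)), u) s hv
  have h' := cost_subP (F := F) (σ := []) () ()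
    (u, msub (mV pM c u (mV pM c u (mV pH c φ c.2.2.2.2))) u) s hu
  simp only at h h'
  rw [mul_add]
  generalize (56 * s + 67) * u.length = A at *
  generalize (56 * s + 67) * (mV pM c u (mV pM c u (mV pH c φ c.2.2.2.2))).length = B at *
  simp [st2, muP, hDP, mC, mV] at h h' ⊢
  omega


/-- the coefficients with the leading one -/
def topP : Pr [] (.prod Un Ma) Ma :=
  .comp (.pair .snd (.comp (.pair (.comp (.pair .fst (.pair .zero (.comp (.pair .one .nil) .cons)))
    fitP) .nil) .cons)) appP

theorem val_topP (s : ℕ) (S : List (List F)) :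
    (topP : Pr [] (.prod Un Ma) Ma).val () ((un s, S) : List Unit × List (List F)) =
      S ++ [fit s 0 [1]] := by
  simp [topP, un]

theorem cost_topP (s : ℕ) (S : List (List F)) :
    (topP : Pr [] (.prod Un Ma) Ma).cost () () ((un s, S) : List Unit × List (List F)) ≤
      20 * s + 20 * S.length + 30 := by
  have h1 := cost_fitP (F := F) (s := []) (b := .unit) (a := .fld) () ()
        ((un s, ((0 : F), [1])) : List Unit × (F × List F))
  have h2 := cost_appP (F := F) (s := []) (a := Po) () () (S, [fit (un s).length 0 [1]])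
  simp only [un, List.length_replicate] at h1 h2
  simp [topP, un]
  omega

/-- derivative -/
def derP : Pr [] Ma Ma := onL .id .nil (.comp (.pair .one (.comp .snd .snd)) dlP)

theorem val_derP (G : List (List F)) :
    (derP : Pr [] Ma Ma).val () G = dl (1 : F) G.tail := by
  cases G <;> simp [derP, dl]

theorem cost_derP (G : List (List F)) (s : ℕ) (h : Sh s G) :
    (derP : Pr [] Ma Ma).cost () () G ≤ (14 * s + 40) * G.length + 30 := by
  cases G with
  | nil => simp [derP]
  | cons r t =>
    have h1 := cost_dlP (F := F) (σ := []) () () ((1 : F), t) s (fun y hy => h y (by simp [hy]))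
    simp [derP] at h1 ⊢
    nlinarith

/-- context -/
def ctxP : Pr [] (.prod Un (.prod Un Ma)) Ctx :=
  lt (.comp .snd topP) (.pair (.comp .fst .fst) (.pair (.comp (.comp .fst .snd) .fst)
    (.pair (.comp (.comp (.comp .fst .snd) .snd) hdP) (.pair .snd (.comp .snd derP)))))

theorem val_ctxP (r s : ℕ) (S : List (List F)) :
    (ctxP : Pr [] (.prod Un (.prod Un Ma)) Ctx).val ()
      ((un r, (un s, S)) : List Unit × (List Unit × List (List F))) =
      (un r, (un s, (hd0 S, (S ++ [fit s 0 [1]], dl 1 (S ++ [fit s 0 [1]]).tail)))) := by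
  have h1 := val_topP s S
  have h2 := val_derP (S ++ [fit s 0 [1]])
  simp only [ctxP, val_lt, val_comp, val_snd, val_pair, val_fst, h1, h2, val_hdP]

theorem cost_ctxP (r s : ℕ) (S : List (List F)) (hS : Sh s S) :
    (ctxP : Pr [] (.prod Un (.prod Un Ma)) Ctx).cost () ()
      ((un r, (un s, S)) : List Unit × (List Unit × List (List F))) ≤
      20 * s + 39 * S.length + (14 * s + 40) * (S.length + 1) + 100 := by
  have h1 := val_topP s S
  have h3 := cost_topP s S
  have hG : Sh s (S ++ [fit s 0 [1]]) := by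
    intro x hx
    rcases List.mem_append.1 hx with hx | hx
    · exact hS x hx
    · simp only [List.mem_singleton] at hx
      rw [hx, length_fit]
  have h4 := cost_derP (S ++ [fit s 0 [1]]) s hG
  have h5 := cost_hdP (F := F) (σ := []) () () S
  simp only [List.length_append, List.length_cons, List.length_nil, zero_add] at h4
  generalize (14 * s + 40) * (S.length + 1) = A at *
  simp only [ctxP, cost_lt, cost_comp, cost_pair, cost_fst, cost_snd, val_fst, val_snd, val_comp,
    h1]
  omega

/-- start of the iteration -/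
def initP (pI : Pr [] (.prod Po Po) Po) : Pr [] Ctx (.prod Ma Ma) :=
  .pair (.comp (.pair (.comp .snd .fst) (.comp (.comp (.comp .snd .snd) .fst) x0P)) liP)
    (.comp (.pair (.comp .snd .fst) (.comp (.pair (.comp (.comp (.comp (.comp .snd .snd) .snd)
      .snd) hdP) (.comp (.comp .snd .snd) .fst)) pI)) liP)

theorem val_initP (pI : Pr [] (.prod Po Po) Po) (r s : ℕ) (h : List F) (G D : List (List F))
    (hn : 1 ≤ h.length) :
    (initP pI).val () ((un r, (un s, (h, (G, D)))) :
      List Unit × (List Unit × (List F × (List (List F) × List (List F))))) =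
      (li s (x0 h), li s (pI.val () (hd0 D, h))) := by
  have h1 := val_x0P (F := F) (σ := []) () h hn
  simp only [initP, val_pair, val_comp, val_snd, val_fst, h1, val_hdP, val_liP]

theorem cost_initP (pI : Pr [] (.prod Po Po) Po) (r s : ℕ) (h : List F) (G D : List (List F))
    (hn : 1 ≤ h.length) :
    (initP pI).cost () () ((un r, (un s, (h, (G, D)))) :
      List Unit × (List Unit × (List F × (List (List F) × List (List F))))) ≤
      pI.cost () () (hd0 D, h) + 20 * h.length + 19 * D.length + (20 * s + 30) * h.length +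
        (20 * s + 30) * List.length (pI.val () (hd0 D, h) : List F) + 100 := by
  have h1 := val_x0P (F := F) (σ := []) () h hn
  have h2 := cost_x0P (F := F) (σ := []) () () h
  have h3 := cost_liP (F := F) (σ := []) () () s (x0 h)
  have h4 := cost_liP (F := F) (σ := []) () () s (pI.val () (hd0 D, h))
  have h5 := cost_hdP (F := F) (σ := []) () () D
  have h6 : (x0 h).length = h.length := by simp [x0]
  rw [h6] at h3
  generalize (20 * s + 30) * h.length = A at *
  generalize (20 * s + 30) * List.length (pI.val () (hd0 D, h) : List F) = B at *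
  simp only [initP, cost_comp, cost_pair, cost_fst, cost_snd, val_fst, val_snd, val_comp,
    val_pair, val_hdP, h1]
  omega

/-- the program -/
def newtP (pM pH : PM) (pI : Pr [] (.prod Po Po) Po) : Pr [] (.prod Un (.prod Un Ma)) Ma :=
  .comp ctxP (.comp (.pair .id (.pair (initP pI) (.comp (.comp .snd .fst) lgP)))
    (.comp (foldP (stP pM pH)) .fst))

end prog

/-! ### the iteration -/

section main
variable {F : Type} [Field F] [DecidableEq F]

/-- shape of an element of the algebra -/
def Ok (s n : ℕ) (a : List (List F)) : Prop := Sh s a ∧ a.length = n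

omit [DecidableEq F] in
theorem ok_msub {s n : ℕ} {a b : List (List F)} (ha : Ok s n a) (hb : Ok s n b) :
    Ok s n (msub a b) :=
  ⟨sh_msub s a b ha.1 hb.1, by rw [length_msub a b (by rw [ha.2, hb.2]), ha.2]⟩

/-- what is needed of the multiplication -/
def MulOk (F : Type) [Field F] [DecidableEq F] (pM : PM) (CM kM : ℕ) : Prop :=
  ∀ (r s : ℕ) (h : List F) (a b : List (List F)),
  (r = 2 ∨ r = 3) → (r : F) ≠ 0 → 1 ≤ s → 1 ≤ h.length → Sh s a → Sh s b →
  a.length = h.length → b.length = h.length →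
  let c : List (List F) := pM.val () (un r, (un s, (h, (a, b))))
  Sh s c ∧ c.length = h.length ∧
  (∀ (R : Type) [CommRing R] [Algebra F R] (τ ζ : R), τ ^ s = 0 → aeval ζ (mpol h) = 0 →
    av τ ζ c = av τ ζ a * av τ ζ b) ∧
  pM.cost () () (un r, (un s, (h, (a, b)))) ≤ CM * ql kM (s * h.length)

/-- what is needed of Horner's rule -/
def HorOk (F : Type) [Field F] [DecidableEq F] (pH : PM) (CH kH : ℕ) : Prop :=
  ∀ (r s : ℕ) (h : List F) (φ G : List (List F)),
  (r = 2 ∨ r = 3) → (r : F) ≠ 0 → 1 ≤ s → 1 ≤ h.length → Sh s φ → Sh s G →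
  φ.length = h.length →
  let c : List (List F) := pH.val () (un r, (un s, (h, (φ, G))))
  Sh s c ∧ c.length = h.length ∧
  (∀ (R : Type) [CommRing R] [Algebra F R] (τ ζ : R), τ ^ s = 0 → aeval ζ (mpol h) = 0 →
    av τ ζ c = (rp τ G).eval (av τ ζ φ)) ∧
  pH.cost () () (un r, (un s, (h, (φ, G)))) ≤ CH * ((G.length + 1) * ql kH (s * h.length))

theorem le_ql (k N : ℕ) : N + 1 ≤ ql k N := by
  unfold ql
  exact Nat.le_mul_of_pos_right _ (by unfold lgc; positivity)

theorem ql_mono {k k' : ℕ} (h : k ≤ k') (N : ℕ) : ql k N ≤ ql k' N := by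
  unfold ql
  exact Nat.mul_le_mul_left _ (Nat.pow_le_pow_right (by unfold lgc; omega) h)

theorem ql_succ (k N : ℕ) : ql k N * lgc (N + 1) = ql (k + 1) N := by
  unfold ql
  rw [pow_succ, mul_assoc]

/-- the invariant of the iteration -/
def J (s : ℕ) (S : List (List F)) (cop : Prop) (m : ℕ) (y : List (List F) × List (List F)) :
    Prop :=
  Ok s S.length y.1 ∧ Ok s S.length y.2 ∧
    (cop → 1 ≤ m ∧ ∀ (R : Type) [CommRing R] [Algebra F R] (τ ζ : R), τ ^ s = 0 →
      aeval ζ (mpol (hd0 S)) = 0 → NI (mrp τ S) τ ζ m (av τ ζ y.1) (av τ ζ y.2))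

/-- the context -/
def cx (r s : ℕ) (S : List (List F)) :
    List Unit × (List Unit × (List F × (List (List F) × List (List F)))) :=
  (un r, (un s, (hd0 S, (S ++ [fit s 0 [1]], dl 1 (S ++ [fit s 0 [1]]).tail))))

theorem step_ok (pM pH : PM) (CM kM CH kH : ℕ) (hM : MulOk F pM CM kM) (hH : HorOk F pH CH kH)
    (r s : ℕ) (S : List (List F)) (cop : Prop) (hr : r = 2 ∨ r = 3) (hr0 : (r : F) ≠ 0)
    (hs : 1 ≤ s) (hn : 1 ≤ S.length) (hS : Sh s S) (m : ℕ)
    (y : List (List F) × List (List F)) (hy : J s S cop m y) :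
    J s S cop (2 * m) ((stP pM pH).val () (cx r s S, (y, ()))) ∧
    (stP pM pH).cost () () (cx r s S, (y, ())) ≤
      (3 * CM + 3 * CH + 500) * ((S.length + 1) * ql (kM + kH) (s * S.length)) := by
  obtain ⟨φ, u⟩ := y
  obtain ⟨hφ, hu, hJ⟩ := hy
  simp only at hφ hu hJ
  have hh : (hd0 S).length = S.length := length_hd0 S
  have hn' : 1 ≤ (hd0 S).length := by rw [hh]; exact hn
  set G := S ++ [fit s 0 [1]] with hGdef
  set D := dl 1 G.tail with hDdef
  have hG : Sh s G := by
    intro x hx
    rcases List.mem_append.1 hx with hx | hx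
    · exact hS x hx
    · simp only [List.mem_singleton] at hx
      rw [hx, length_fit]
  have hD : Sh s D := sh_dl s 1 _ (fun x hx => hG x (List.mem_of_mem_tail hx))
  have lG : G.length = S.length + 1 := by simp [hGdef]
  have lD : D.length = S.length := by rw [hDdef, length_dl, List.length_tail, lG]; rfl
  -- first half
  have a1 := hH r s (hd0 S) φ G hr hr0 hs hn' hφ.1 hG (by rw [hφ.2, hh])
  set v1 := mV pH (cx r s S) φ G with hv1
  change Sh s v1 ∧ v1.length = _ ∧ (∀ (R : Type) [CommRing R] [Algebra F R] (τ ζ : R), τ ^ s = 0 →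
    aeval ζ (mpol (hd0 S)) = 0 → av τ ζ v1 = _) ∧ mC pH (cx r s S) φ G ≤ _ at a1
  obtain ⟨a11, a12, a13, a14⟩ := a1
  have a2 := hM r s (hd0 S) u v1 hr hr0 hs hn' hu.1 a11 (by rw [hu.2, hh]) a12
  set v2 := mV pM (cx r s S) u v1 with hv2
  change Sh s v2 ∧ v2.length = _ ∧ (∀ (R : Type) [CommRing R] [Algebra F R] (τ ζ : R), τ ^ s = 0 →
    aeval ζ (mpol (hd0 S)) = 0 → av τ ζ v2 = _) ∧ mC pM (cx r s S) u v1 ≤ _ at a2
  obtain ⟨a21, a22, a23, a24⟩ := a2
  have ok2 : Ok s S.length v2 := ⟨a21, by rw [a22, hh]⟩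
  set φ' := msub φ v2 with hφ'def
  have hφ' : Ok s S.length φ' := ok_msub hφ ok2
  -- second half
  have a3 := hH r s (hd0 S) φ' D hr hr0 hs hn' hφ'.1 hD (by rw [hφ'.2, hh])
  set v3 := mV pH (cx r s S) φ' D with hv3
  change Sh s v3 ∧ v3.length = _ ∧ (∀ (R : Type) [CommRing R] [Algebra F R] (τ ζ : R), τ ^ s = 0 →
    aeval ζ (mpol (hd0 S)) = 0 → av τ ζ v3 = _) ∧ mC pH (cx r s S) φ' D ≤ _ at a3
  obtain ⟨a31, a32, a33, a34⟩ := a3
  have a4 := hM r s (hd0 S) u v3 hr hr0 hs hn' hu.1 a31 (by rw [hu.2, hh]) a32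
  set v4 := mV pM (cx r s S) u v3 with hv4
  change Sh s v4 ∧ v4.length = _ ∧ (∀ (R : Type) [CommRing R] [Algebra F R] (τ ζ : R), τ ^ s = 0 →
    aeval ζ (mpol (hd0 S)) = 0 → av τ ζ v4 = _) ∧ mC pM (cx r s S) u v3 ≤ _ at a4
  obtain ⟨a41, a42, a43, a44⟩ := a4
  have a5 := hM r s (hd0 S) u v4 hr hr0 hs hn' hu.1 a41 (by rw [hu.2, hh]) a42
  set v5 := mV pM (cx r s S) u v4 with hv5
  change Sh s v5 ∧ v5.length = _ ∧ (∀ (R : Type) [CommRing R] [Algebra F R] (τ ζ : R), τ ^ s = 0 →
    aeval ζ (mpol (hd0 S)) = 0 → av τ ζ v5 = _) ∧ mC pM (cx r s S) u v4 ≤ _ at a5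
  obtain ⟨a51, a52, a53, a54⟩ := a5
  have ok5 : Ok s S.length v5 := ⟨a51, by rw [a52, hh]⟩
  have ok6 : Ok s S.length (msub v5 u) := ok_msub ok5 hu
  have ok7 : Ok s S.length (msub u (msub v5 u)) := ok_msub hu ok6
  have e1 : (st1 pM pH).val () (cx r s S, (φ, u)) = (φ', u) := val_st1 pM pH (cx r s S) φ u
  have e2 : (st2 pM pH).val () (cx r s S, (φ', u)) = (φ', msub u (msub v5 u)) :=
    val_st2 pM pH (cx r s S) φ' u
  have e3 : (stP pM pH).val () (cx r s S, ((φ, u), ())) = (φ', msub u (msub v5 u)) := by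
    simp only [stP, val_comp, val_pair, val_fst, val_snd, e1, e2]
  constructor
  · rw [e3]
    refine ⟨hφ', ok7, fun hc => ?_⟩
    obtain ⟨hm, hN⟩ := hJ hc
    refine ⟨by omega, ?_⟩
    intro R _ _ τ ζ hτ hζ
    have b := newton_step (mrp τ S) τ ζ m hm _ _ (hN R τ ζ hτ hζ)
    have c1 : av τ ζ φ' = av τ ζ φ - av τ ζ u * (mrp τ S).eval (av τ ζ φ) := by
      rw [hφ'def, av_msub τ ζ s φ v2 (by rw [hφ.2, ok2.2]) hφ.1 ok2.1, a23 R τ ζ hτ hζ,
        a13 R τ ζ hτ hζ, hGdef, rp_top τ s hs S]
    have c2 : av τ ζ v3 = (derivative (mrp τ S)).eval (av τ ζ φ') := by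
      rw [a33 R τ ζ hτ hζ, hDdef, rp_dtail, hGdef, rp_top τ s hs S]
    have c3 : av τ ζ (msub u (msub v5 u)) = av τ ζ u - (av τ ζ u * (av τ ζ u *
        (derivative (mrp τ S)).eval (av τ ζ φ')) - av τ ζ u) := by
      rw [av_msub τ ζ s u _ (by rw [hu.2, ok6.2]) hu.1 ok6.1,
        av_msub τ ζ s v5 u (by rw [ok5.2, hu.2]) ok5.1 hu.1, a53 R τ ζ hτ hζ, a43 R τ ζ hτ hζ, c2]
    rw [← c1] at b
    change NI (mrp τ S) τ ζ (2 * m) (av τ ζ φ') (av τ ζ (msub u (msub v5 u)))
    rw [c3]
    exact b
  · have d1 := cost_st1 pM pH (cx r s S) φ u s hφ.1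
    have d2 := cost_st2 pM pH (cx r s S) φ' u s hu.1 a51
    change _ ≤ mC pH (cx r s S) φ G + mC pM (cx r s S) u v1 + (56 * s + 67) * φ.length + 80 at d1
    change _ ≤ mC pH (cx r s S) φ' D + mC pM (cx r s S) u v3 + mC pM (cx r s S) u v4 +
      (56 * s + 67) * (u.length + v5.length) + 160 at d2
    have e4 : (stP pM pH).cost () () (cx r s S, ((φ, u), ())) ≤
        (st1 pM pH).cost () () (cx r s S, (φ, u)) + (st2 pM pH).cost () () (cx r s S, (φ', u)) +
          8 := by
      simp only [stP, cost_comp, cost_pair, cost_fst, cost_snd, val_comp, val_pair, val_fst,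
        val_snd, e1]
      omega
    refine e4.trans ?_
    rw [hφ.2] at d1
    rw [hu.2, ok5.2] at d2
    rw [hh] at a14 a24 a34 a44 a54
    rw [lG] at a14
    rw [lD] at a34
    have q1 := ql_mono (Nat.le_add_right kM kH) (s * S.length)
    have q2 := ql_mono (Nat.le_add_left kH kM) (s * S.length)
    have q3 := le_ql (kM + kH) (s * S.length)
    set Q := ql (kM + kH) (s * S.length) with hQ
    set n := S.length with hndef
    have p1 : CM * ql kM (s * n) ≤ CM * ((n + 1) * Q) := by
      apply Nat.mul_le_mul_left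
      exact q1.trans (Nat.le_mul_of_pos_left _ (by omega))
    have p2 : CH * ((n + 1 + 1) * ql kH (s * n)) ≤ 2 * (CH * ((n + 1) * Q)) := by
      calc CH * ((n + 1 + 1) * ql kH (s * n)) ≤ CH * ((2 * (n + 1)) * Q) := by
            apply Nat.mul_le_mul_left
            exact Nat.mul_le_mul (by omega) q2
        _ = _ := by ring
    have p3 : CH * ((n + 1) * ql kH (s * n)) ≤ CH * ((n + 1) * Q) := by
      apply Nat.mul_le_mul_left
      exact Nat.mul_le_mul_left _ q2
    have p4 : s * n + 1 ≤ (n + 1) * Q := q3.trans (Nat.le_mul_of_pos_left _ (by omega))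
    have p5 : (56 * s + 67) * n ≤ 123 * (s * n) := by nlinarith
    have p6 : (56 * s + 67) * (n + n) ≤ 246 * (s * n) := by nlinarith
    have p7 : (3 * CM + 3 * CH + 500) * ((n + 1) * Q) = 3 * (CM * ((n + 1) * Q)) +
      3 * (CH * ((n + 1) * Q)) + 500 * ((n + 1) * Q) := by ring
    rw [p7]
    generalize CM * ((n + 1) * Q) = A at *
    generalize CH * ((n + 1) * Q) = B at *
    generalize (n + 1) * Q = Z at *
    generalize s * n = Y at *
    omega


theorem foldl_J {α β : Type} (f : β → α → β) (P : ℕ → β → Prop)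
    (h : ∀ m y z, P m y → P (2 * m) (f y z)) : ∀ (l : List α) (m : ℕ) (y : β), P m y →
    P (2 ^ l.length * m) (l.foldl f y) := by
  intro l
  induction l with
  | nil => intro m y hy; simpa using hy
  | cons a l ih =>
    intro m y hy
    have := ih (2 * m) (f y a) (h m y a hy)
    rw [List.foldl_cons, List.length_cons, pow_succ, mul_assoc]
    exact this

/-- the start satisfies the invariant -/
theorem start_ok (pI : Pr [] (.prod Po Po) Po)
    (hI : ∀ h G : List F, h.length = G.length → (IsCoprime (pol h) (mpol G) →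
      mpol G ∣ pol (pI.val () (h, G) : List F) * pol h - 1) ∧
      List.length (pI.val () (h, G) : List F) = G.length)
    (s : ℕ) (S : List (List F)) (hs : 1 ≤ s) (hn : 1 ≤ S.length) :
    J s S (IsCoprime (mpol (hd0 S)) (derivative (mpol (hd0 S)))) 1
      (li s (x0 (hd0 S)), li s (pI.val () (hd0 (dl 1 (S ++ [fit s 0 [1]]).tail), hd0 S))) := by
  have hh : (hd0 S).length = S.length := length_hd0 S
  have lD : (hd0 (dl 1 (S ++ [fit s (0 : F) [1]]).tail)).length = (hd0 S).length := by
    rw [length_hd0, length_dl, List.length_tail, length_hd0]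
    simp
  obtain ⟨i1, i2⟩ := hI (hd0 (dl 1 (S ++ [fit s 0 [1]]).tail)) (hd0 S) lD
  have hpd := pol_hd0_dtail s hs S
  set u0 : List F := pI.val () (hd0 (dl 1 (S ++ [fit s 0 [1]]).tail), hd0 S) with hu0
  refine ⟨⟨sh_li s _, ?_⟩, ⟨sh_li s _, ?_⟩, fun hc => ⟨le_rfl, ?_⟩⟩
  · rw [length_li]; simp [x0, hh]
  · rw [length_li, i2, hh]
  · intro R _ _ τ ζ hτ hζ
    have c1 : av τ ζ (li s (x0 (hd0 S))) = ζ := by
      rw [av_li τ ζ s hs, aeval_x0 (hd0 S) (by rw [hh]; exact hn) ζ hζ]
    have c2 : av τ ζ (li s u0) = aeval ζ (pol u0) := av_li τ ζ s hs u0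
    obtain ⟨q, hq⟩ := i1 (by rw [hpd]; exact hc.symm)
    have c3 : aeval ζ (pol u0) * aeval ζ (derivative (mpol (hd0 S))) = 1 := by
      have := congrArg (aeval ζ) hq
      rw [map_sub, map_mul, map_mul, hζ, zero_mul, map_one, hpd] at this
      exact sub_eq_zero.1 this
    obtain ⟨Q, hQ⟩ := mrp_mod τ S
    change NI (mrp τ S) τ ζ 1 (av τ ζ (li s (x0 (hd0 S)))) (av τ ζ (li s u0))
    rw [c1, c2]
    refine ⟨⟨Q.eval ζ, ?_⟩, ⟨aeval ζ (pol u0) * (derivative Q).eval ζ, ?_⟩, ⟨0, by simp⟩⟩
    · rw [hQ, eval_add, eval_map_algebraMap, hζ, eval_mul, eval_C]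
      ring
    · rw [hQ, derivative_add, derivative_map, eval_add, eval_map_algebraMap, derivative_C_mul,
        eval_mul, eval_C, mul_add, c3]
      ring

end main

end J5

open J5 in
/-- TARGET -/
theorem specNewt (h1 : SpecMMA) (h2 : SpecHorn) (h3 : SpecInv) (h0 : SpecUnits) : SpecNewt := by
  obtain ⟨pM, CM, kM, hM⟩ := h1
  obtain ⟨pH, CH, kH, hH⟩ := h2
  obtain ⟨pI, CI, hI⟩ := h3
  refine ⟨newtP pM pH pI, 3 * CM + 3 * CH + 500 + CI + 3000, kM + kH + 1, ?_⟩
  intro F _ _ r s S hr hr0 hs hn hS
  have hM' : MulOk F pM CM kM := hM F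
  have hH' : HorOk F pH CH kH := hH F
  have hh : (hd0 S).length = S.length := length_hd0 S
  set cop : Prop := IsCoprime (mpol (hd0 S)) (derivative (mpol (hd0 S))) with hcop
  set D := dl (1 : F) (S ++ [fit s 0 [1]]).tail with hD
  set y0 : List (List F) × List (List F) := (li s (x0 (hd0 S)), li s (pI.val () (hd0 D, hd0 S)))
    with hy0
  set l : List Unit := (lgP : Pr [] Un Un).val (F := F) () (un s) with hl
  have ll : l.length = Nat.clog 2 s := by
    have := val_lgP (F := F) (s := []) (a := .unit) () (un s)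
    simp only [un, List.length_replicate] at this
    exact this
  have v1 : (ctxP : Pr [] (.prod Un (.prod Un Ma)) Ctx).val ()
      ((un r, (un s, S)) : List Unit × (List Unit × List (List F))) = cx r s S :=
    val_ctxP r s S
  have v2 : (initP pI).val () (cx r s S) = y0 :=
    val_initP pI r s (hd0 S) _ _ (by rw [hh]; exact hn)
  have v3 : (newtP pM pH pI).val () (un r, (un s, S)) =
      (List.foldl (fun y z => (stP pM pH).val () (cx r s S, (y, z))) y0 l).1 := by
    simp only [newtP, val_comp, v1, val_pair, val_id, v2, val_foldP, val_fst]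
    rfl
  have lD : (hd0 D).length = (hd0 S).length := by
    rw [length_hd0, hD, length_dl, List.length_tail, length_hd0]
    simp
  have hJ0 : J s S cop 1 y0 := start_ok pI (fun h G e => ⟨(hI F h G e).1, (hI F h G e).2.1⟩) s S
    hs hn
  have hstep : ∀ (m : ℕ) (y : List (List F) × List (List F)) (z : Unit), J s S cop m y →
      J s S cop (2 * m) ((stP pM pH).val () (cx r s S, (y, z))) := fun m y z hy =>
    (step_ok pM pH CM kM CH kH hM' hH' r s S cop hr hr0 hs hn hS m y hy).1
  have hJ := foldl_J (fun y z => (stP pM pH).val () (cx r s S, (y, z))) (J s S cop) hstep l 1 y0 hJ0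
  intro φ
  have hφ : φ = (List.foldl (fun y z => (stP pM pH).val () (cx r s S, (y, z))) y0 l).1 := v3
  obtain ⟨j1, -, j3⟩ := hJ
  rw [← hφ] at j1
  refine ⟨j1.1, j1.2, ?_, ?_⟩
  · intro hc R _ _ τ ζ hτ hζ
    obtain ⟨-, k2⟩ := j3 hc
    obtain ⟨⟨ρ, hρ⟩, -, e3⟩ := k2 R τ ζ hτ hζ
    rw [← hφ] at hρ e3
    refine ⟨?_, e3⟩
    rw [hρ, mul_one, ll]
    have : s ≤ 2 ^ Nat.clog 2 s := Nat.le_pow_clog (by norm_num) s
    obtain ⟨d, hd⟩ := Nat.exists_eq_add_of_le this
    rw [hd, pow_add, hτ, zero_mul, zero_mul]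
  · -- cost
    set n := S.length with hndef
    set B := (3 * CM + 3 * CH + 500) * ((n + 1) * ql (kM + kH) (s * n)) with hB
    have f1 := cost_foldP_le (s := []) (F := F) (stP pM pH) () () (cx r s S, (y0, l)) B
      (fun y => ∃ m, J s S cop m y) ⟨1, hJ0⟩
      (fun y z ⟨m, hm⟩ _ => ⟨2 * m, hstep m y z hm⟩)
      (fun y z ⟨m, hm⟩ _ =>
        (step_ok pM pH CM kM CH kH hM' hH' r s S cop hr hr0 hs hn hS m y hm).2)
    simp only [ll] at f1
    have f2 := cost_ctxP r s S hS
    rw [← hndef] at f2
    have f3 := cost_initP pI r s (hd0 S) (S ++ [fit s 0 [1]]) D (by rw [hh]; exact hn)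
    obtain ⟨-, i2, i3⟩ := hI F (hd0 D) (hd0 S) lD
    have f4 : (lgP : Pr [] Un Un).cost (F := F) () () (un s) ≤ 120 * s + 20 := by
      have := cost_lgP (F := F) (s := []) (a := .unit) () () (un s)
      rw [show List.length (un s) = s from List.length_replicate] at this
      exact this
    have lD' : D.length = n := by
      have := lD
      rw [length_hd0, length_hd0] at this
      exact this
    have e4 : (newtP pM pH pI).cost () () (un r, (un s, S)) ≤
        (ctxP : Pr [] (.prod Un (.prod Un Ma)) Ctx).cost () ()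
          ((un r, (un s, S)) : List Unit × (List Unit × List (List F))) +
        (initP pI).cost () () (cx r s S) + (lgP : Pr [] Un Un).cost (F := F) () () (un s) +
        (foldP (stP pM pH)).cost () () (cx r s S, (y0, l)) + 10 := by
      simp only [newtP, cost_comp, cost_pair, cost_id, cost_fst, cost_snd, val_comp, val_pair,
        val_id, val_snd, val_fst, v1, v2]
      change _ + ((1 + (_ + (1 + 1 + _) + 1) + 1) + ((foldP (stP pM pH)).cost () ()
        (cx r s S, (y0, l)) + 1)) ≤ _
      change _ + ((1 + (_ + (1 + 1 + (lgP : Pr [] Un Un).cost (F := F) () () (un s)) + 1) + 1) +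
        _) ≤ _
      omega
    refine e4.trans ?_
    change (initP pI).cost () () (cx r s S) ≤ _ at f3
    rw [i2, hh, lD'] at f3
    rw [hh] at i3
    have g1 : Nat.clog 2 s ≤ lgc (s * n + 1) := by
      unfold lgc
      have : Nat.clog 2 s ≤ Nat.clog 2 (s * n + 1) :=
        Nat.clog_mono_right 2 (by nlinarith)
      omega
    have g2 : (B + 27) * Nat.clog 2 s ≤ (3 * CM + 3 * CH + 527) *
        ((n + 1) * ql (kM + kH + 1) (s * n)) := by
      have t1 : B + 27 ≤ (3 * CM + 3 * CH + 527) * ((n + 1) * ql (kM + kH) (s * n)) := by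
        have : 1 ≤ (n + 1) * ql (kM + kH) (s * n) := by
          have := le_ql (kM + kH) (s * n)
          exact Nat.mul_pos (by omega) (by omega)
        rw [hB]
        nlinarith
      calc (B + 27) * Nat.clog 2 s ≤ (3 * CM + 3 * CH + 527) * ((n + 1) *
            ql (kM + kH) (s * n)) * lgc (s * n + 1) := Nat.mul_le_mul t1 g1
        _ = (3 * CM + 3 * CH + 527) * ((n + 1) * (ql (kM + kH) (s * n) * lgc (s * n + 1))) := by
          ring
        _ = _ := by rw [ql_succ]
    have g3 : s * n + 1 ≤ (n + 1) * ql (kM + kH + 1) (s * n) :=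
      (le_ql _ _).trans (Nat.le_mul_of_pos_left _ (by omega))
    have g4 : (14 * s + 40) * (n + 1) ≤ 108 * (s * n) := by nlinarith
    have g5 : (20 * s + 30) * n ≤ 50 * (s * n) := by nlinarith
    have g6 : s ≤ s * n := Nat.le_mul_of_pos_right _ (by omega)
    have g7 : n ≤ s * n := Nat.le_mul_of_pos_left _ (by omega)
    have g8 : (3 * CM + 3 * CH + 500 + CI + 3000) *
        ((n + 1) * ql (kM + kH + 1) (s * n) + ww (n + 1)) =
        (3 * CM + 3 * CH + 527) * ((n + 1) * ql (kM + kH + 1) (s * n)) +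
        (CI + 2973) * ((n + 1) * ql (kM + kH + 1) (s * n)) +
        (3 * CM + 3 * CH + 3500) * ww (n + 1) + CI * ww (n + 1) := by ring
    rw [g8]
    have g9 : 2973 * (s * n + 1) ≤ (CI + 2973) * ((n + 1) * ql (kM + kH + 1) (s * n)) :=
      Nat.mul_le_mul (by omega) g3
    generalize (3 * CM + 3 * CH + 527) * ((n + 1) * ql (kM + kH + 1) (s * n)) = A1 at *
    generalize (CI + 2973) * ((n + 1) * ql (kM + kH + 1) (s * n)) = A2 at *
    generalize CI * ww (n + 1) = A3 at *
    generalize (3 * CM + 3 * CH + 3500) * ww (n + 1) = A4 at *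
    generalize (B + 27) * Nat.clog 2 s = A5 at *
    generalize s * n = Y at *
    omega

end Pool.Agent.H330AB.JJ5
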