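import Pool.Agent.H330AB.SpecA2
set_option autoImplicit false
noncomputable section
namespace Pool.Agent.H330AB.JJ6
open Polynomial Pool.Agent.H330FB

namespace Tr

section prog
variable {F : Type} [Field F] [DecidableEq F]
variable {s : List (Ty × Ty)} {a b c d : Ty}

/-- last element -/
def lastD {F : Type} [Field F] (l : List F) : F := l.foldl (fun _ z => z) 0

/-- last element -/
def lastP : Pr s Po .fld :=
  .comp (.pair .star (.pair .zero .id)) (foldP (c := .unit) (.comp .snd .snd))

@[simp] theorem val_lastP (v : SV F s) (x : Ty.D F Po) :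
    (lastP : Pr s Po .fld).val v x = lastD (x : List F) := by
  simp [lastP, lastD]

theorem cost_lastP (v : SV F s) (k : SC F s) (x : Ty.D F Po) :
    (lastP : Pr s Po .fld).cost v k x ≤ 29 * List.length x + 19 := by
  have h := cost_foldP_le (s := s) (c := .unit) (b := .fld) (a := .fld) (.comp .snd .snd) v k
    ((), ((0 : F), x)) 2 (fun _ => True) trivial (fun _ _ _ _ => trivial) (fun _ _ _ _ => by simp)
  simp [lastP] at h ⊢
  omega

/-- multiplication by the variable -/
def step {F : Type} [Field F] (h c : List F) : List F :=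
  List.zipWith (fun x y => x + -(lastD c * y)) (0 :: c) h

/-- multiplication by the variable, input `(h, c)` -/
def stepP : Pr s (.prod Po Po) Po :=
  .comp (.pair (.comp .snd lastP) (.pair (.comp (.pair .zero .snd) .cons) .fst))
    (zipP (c := .fld) (ap2 .add (.comp .snd .fst) (.comp (ap2 .mul .fst (.comp .snd .snd)) .neg)))

@[simp] theorem val_stepP (v : SV F s) (x : Ty.D F (.prod Po Po)) :
    (stepP : Pr s (.prod Po Po) Po).val v x = step (x.1 : List F) (x.2 : List F) := by
  simp [stepP, step]

theorem cost_stepP (v : SV F s) (k : SC F s) (x : Ty.D F (.prod Po Po)) :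
    (stepP : Pr s (.prod Po Po) Po).cost v k x ≤ 100 * List.length x.2 + 150 := by
  have h1 := cost_lastP (s := s) v k x.2
  have h2 := cost_zipP_le (s := s) (c := .fld) (a := .fld) (b := .fld) (d := .fld)
    (ap2 .add (.comp .snd .fst) (.comp (ap2 .mul .fst (.comp .snd .snd)) .neg)) v k
    ((lastD (x.2 : List F), ((0 : F) :: x.2, x.1))) 10 (fun _ _ _ _ => by simp)
  simp [stepP] at h1 h2 ⊢
  omega

/-- sequence of last coefficients -/
def seqL {F : Type} [Field F] (h : List F) : ℕ → List F → List F
  | 0, _ => []
  | n + 1, c => lastD c :: seqL h n (step h c)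

/-- body -/
def seqB : Pr ((.prod Po Po, Po) :: s) (.prod Po Po) Po :=
  .comp (.pair (.comp .snd lastP) (.comp (.pair .fst stepP) .self)) .cons

/-- input `(fuel, (h, c))` -/
def seqP : Pr s (.prod (.list d) (.prod Po Po)) Po := .recD seqB .nil

@[simp] theorem val_seqP (v : SV F s) (x : Ty.D F (.prod (.list d) (.prod Po Po))) :
    (seqP : Pr s (.prod (.list d) (.prod Po Po)) Po).val v x =
      seqL (x.2.1 : List F) (List.length x.1) (x.2.2 : List F) := by
  obtain ⟨u, h, c⟩ := x
  simp only [seqP, val_recD]
  generalize List.length u = n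
  induction n generalizing c with
  | zero => simp [goV, seqL]
  | succ n ih => simp [goV, seqL, seqB] at ih ⊢; exact ih _

theorem length_step {F : Type} [Field F] (h c : List F) (hc : c.length = h.length) :
    (step h c).length = h.length := by
  simp [step, hc]

theorem cost_seqP (v : SV F s) (k : SC F s) (x : Ty.D F (.prod (.list d) (.prod Po Po)))
    (hx : List.length x.2.2 = List.length x.2.1) :
    (seqP : Pr s (.prod (.list d) (.prod Po Po)) Po).cost v k x ≤
      (130 * List.length x.2.1 + 200) * List.length x.1 + 2 := by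
  obtain ⟨u, h, c⟩ := x
  simp only [seqP, cost_recD]
  generalize List.length u = n
  simp only at hx ⊢
  have : goC (seqB (s := s)) .nil v k n (h, c) ≤ (130 * List.length h + 200) * n + 1 := by
    induction n generalizing c with
    | zero => simp [goC]
    | succ n ih =>
      have h1 := ih (step h c) (length_step h c hx)
      have h2 := cost_lastP (s := (.prod Po Po, Po) :: s) (F := F) (goV seqB .nil v n, v)
        (goC seqB .nil v k n, k) c
      have h3 := cost_stepP (s := (.prod Po Po, Po) :: s) (F := F) (goV seqB .nil v n, v)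
        (goC seqB .nil v k n, k) (h, c)
      simp [goC, seqB] at h1 h2 h3 ⊢
      rw [hx] at h2 h3
      nlinarith
  omega

/-- the tails -/
def tls {α : Type} : ℕ → List α → List (List α)
  | 0, _ => []
  | n + 1, P => P :: tls n P.tail

/-- tail -/
def tlP : Pr s (.list a) (.list a) := onL .id .nil (.comp .snd .snd)

@[simp] theorem val_tlP (v : SV F s) (x : Ty.D F (.list a)) :
    (tlP : Pr s (.list a) (.list a)).val v x = List.tail x := by
  simp [tlP]
  cases x <;> rfl

theorem cost_tlP (v : SV F s) (k : SC F s) (x : Ty.D F (.list a)) :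
    (tlP : Pr s (.list a) (.list a)).cost v k x ≤ 6 := by
  simp [tlP]
  cases x <;> simp

/-- body -/
def tlsB : Pr ((Po, Ma) :: s) Po Ma := .comp (.pair .id (.comp tlP .self)) .cons

/-- input `(fuel, list)` -/
def tlsP : Pr s (.prod (.list d) Po) Ma := .recD tlsB .nil

@[simp] theorem val_tlsP (v : SV F s) (x : Ty.D F (.prod (.list d) Po)) :
    (tlsP : Pr s (.prod (.list d) Po) Ma).val v x = tls (List.length x.1) (x.2 : List F) := by
  obtain ⟨u, l⟩ := x
  simp only [tlsP, val_recD]
  generalize List.length u = n
  induction n generalizing l with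
  | zero => simp [goV, tls]
  | succ n ih => simp [goV, tls, tlsB] at ih ⊢; exact ih _

theorem cost_tlsP (v : SV F s) (k : SC F s) (x : Ty.D F (.prod (.list d) Po)) :
    (tlsP : Pr s (.prod (.list d) Po) Ma).cost v k x ≤ 12 * List.length x.1 + 2 := by
  obtain ⟨u, l⟩ := x
  simp only [tlsP, cost_recD]
  generalize List.length u = n
  have : goC (tlsB (s := s)) .nil v k n l ≤ 12 * n + 1 := by
    induction n generalizing l with
    | zero => simp [goC]
    | succ n ih =>
      have h1 := ih (List.tail l)
      have h2 := cost_tlP (s := (Po, Ma) :: s) (F := F) (goV tlsB .nil v n, v)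
        (goC tlsB .nil v k n, k) l
      simp [goC, tlsB] at h1 h2 ⊢
      omega
  omega

/-- multiplication by `c, c + 1, ...` -/
def dl {F : Type} [Field F] : F → List F → List F
  | _, [] => []
  | c, x :: l => c * x :: dl (c + 1) l

/-- body -/
def dlB : Pr ((.prod .fld Po, Po) :: s) (.prod .fld Po) Po :=
  onL .snd .nil (.comp (.pair (ap2 .mul (.comp .fst .fst) (.comp .snd .fst))
    (.comp (.pair (ap2 .add (.comp .fst .fst) .one) (.comp .snd .snd)) .self)) .cons)

/-- input `(fuel, (c, l))` -/
def dlP : Pr s (.prod (.list d) (.prod .fld Po)) Po := .recD dlB .nil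

theorem val_dlP (v : SV F s) (x : Ty.D F (.prod (.list d) (.prod .fld Po)))
    (hx : List.length x.2.2 ≤ List.length x.1) :
    (dlP : Pr s (.prod (.list d) (.prod .fld Po)) Po).val v x =
      dl (x.2.1 : F) (x.2.2 : List F) := by
  obtain ⟨u, c, l⟩ := x
  simp only [dlP, val_recD] at hx ⊢
  revert hx
  generalize List.length u = n
  intro hx
  induction n generalizing c l with
  | zero =>
    have h1 : l = [] := List.length_eq_zero_iff.mp (by simpa using hx)
    subst h1
    simp [goV, dl]
  | succ n ih =>
    cases l with
    | nil => simp [goV, dl, dlB]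
    | cons y l =>
      have := ih (c + 1) l (by simpa using hx)
      simp [goV, dl, dlB] at this ⊢
      exact this

theorem cost_dlP (v : SV F s) (k : SC F s) (x : Ty.D F (.prod (.list d) (.prod .fld Po))) :
    (dlP : Pr s (.prod (.list d) (.prod .fld Po)) Po).cost v k x ≤ 40 * List.length x.1 + 2 := by
  obtain ⟨u, c, l⟩ := x
  simp only [dlP, cost_recD]
  generalize List.length u = n
  have : goC (dlB (s := s)) .nil v k n (c, l) ≤ 40 * n + 1 := by
    induction n generalizing c l with
    | zero => simp [goC]
    | succ n ih =>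
      cases l with
      | nil => simp [goC, dlB]; omega
      | cons y l =>
        have h1 := ih (c + 1) l
        simp [goC, dlB] at h1 ⊢
        omega
  omega

/-- linear combination of rows -/
def comb {F : Type} [Field F] (s : ℕ) (r : List F) (W : List (List F)) : List F :=
  List.foldl (fun acc row => List.zipWith (fun x y => x + y) acc row) (List.replicate s 0)
    (List.zipWith (fun x row => List.map (fun y => x * y) row) r W)

/-- row times scalar -/
def rmP : Pr s (.prod .unit (.prod .fld Po)) Po := .comp .snd (mapP (c := .fld) .mul)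

/-- sum of rows -/
def raP : Pr s (.prod .unit (.prod Po Po)) Po :=
  .comp (.pair .star .snd) (zipP (c := .unit) (.comp .snd .add))

/-- input `(u, (r, W))` -/
def combP : Pr s (.prod Un (.prod Po Ma)) Po :=
  .comp (.pair .star (.pair (.comp (.pair .star .fst) (mapP (c := .unit) .zero))
    (.comp (.pair .star .snd) (zipP (c := .unit) rmP)))) (foldP (c := .unit) raP)

@[simp] theorem val_combP (v : SV F s) (x : Ty.D F (.prod Un (.prod Po Ma))) :
    (combP : Pr s (.prod Un (.prod Po Ma)) Po).val v x =
      comb (List.length x.1) (x.2.1 : List F) (x.2.2 : List (List F)) := by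
  obtain ⟨u, r, W⟩ := x
  have : List.map (fun _ : Unit => (0 : F)) u = List.replicate u.length 0 := by
    induction u with
    | nil => rfl
    | cons h t ih => simp [List.replicate_succ, ih]
  simp [combP, comb, raP, rmP, this]

theorem cost_combP (v : SV F s) (k : SC F s) (x : Ty.D F (.prod Un (.prod Po Ma))) (t : ℕ)
    (h0 : List.length x.1 = t) (hW : ∀ r ∈ x.2.2, List.length r = t) :
    (combP : Pr s (.prod Un (.prod Po Ma)) Po).cost v k x ≤
      200 * (t + 1) * (List.length x.2.1 + 1) := by
  obtain ⟨u, r, W⟩ := x
  simp only at h0 hW ⊢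
  have h1 := cost_mapP_le (s := s) (c := .unit) (a := .unit) (b := .fld) .zero v k ((), u) 1
    (fun _ _ => by simp)
  have h2 := cost_zipP_le (s := s) (c := .unit) (a := .fld) (b := Po) (d := Po) rmP v k
    ((), (r, W)) (14 * t + 6) (fun y _ z hz => by
      have e := cost_mapP_le (s := s) (c := .fld) (a := .fld) (b := .fld) .mul v k (y, z) 1
        (fun _ _ => by simp)
      have e2 := hW z hz
      simp [rmP] at e ⊢
      rw [e2] at e
      omega)
  have h3 := cost_foldP_le (s := s) (c := .unit) (b := Po) (a := Po) raP v k
    ((), (List.replicate t (0 : F), List.zipWith (fun x row => List.map (fun y => x * y) row) r W))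
    (52 * t + 18) (fun y => List.length y ≤ t) (by simp) (fun y z hy hz => by
      simp [raP]
      left
      exact hy)
    (fun y z hy _ => by
      have e := cost_zipP_le (s := s) (c := .unit) (a := .fld) (b := .fld) (d := .fld)
        (.comp .snd .add) v k ((), (y, z)) 2 (fun _ _ _ _ => by simp)
      simp [raP] at e hy ⊢
      nlinarith)
  have h4 : List.map (fun _ : Unit => (0 : F)) u = List.replicate t 0 := by
    rw [← h0]
    clear h0 h1 h2 h3
    induction u with
    | nil => rfl
    | cons h t ih => simp [List.replicate_succ, ih]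
  simp [combP, rmP, h4] at h1 h2 h3 ⊢
  have h5 : min (List.length r) (List.length W) ≤ List.length r := min_le_left _ _
  rw [h0] at h1
  nlinarith

/-- lower coefficients of the derivative of the monic polynomial -/
def der {F : Type} [Field F] (h : List F) : List F := dl 1 (h.tail ++ [1])

/-- derivative -/
def derP : Pr s Po Po :=
  lt (.comp (.pair tlP (.comp (.pair .one .nil) .cons)) appP)
    (.comp (.pair .snd (.pair .one .snd)) dlP)

@[simp] theorem val_derP (v : SV F s) (x : Ty.D F Po) :
    (derP : Pr s Po Po).val v x = der (x : List F) := by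
  simp only [derP, val_lt, val_comp, val_pair, val_tlP, val_one, val_nil, val_cons, val_appP,
    val_snd]
  rw [val_dlP _ _ le_rfl]
  rfl

theorem cost_derP (v : SV F s) (k : SC F s) (x : Ty.D F Po) :
    (derP : Pr s Po Po).cost v k x ≤ 60 * List.length x + 100 := by
  have h1 := cost_tlP (s := s) v k x
  have h2 := cost_appP (s := s) (a := .fld) v k ((List.tail x : List F), ([(1 : F)] : List F))
  have h3 := cost_dlP (s := s) (d := .fld) v k ((List.tail x ++ [1] : List F), ((1 : F),
    (List.tail x ++ [1] : List F)))
  simp [derP] at h1 h2 h3 ⊢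
  omega

/-- the power sums -/
def psum {F : Type} [Field F] (h : List F) : List F := seqL h (2 * h.length) (der h)

/-- the product of the Hankel matrix and `W` -/
def Gm {F : Type} [Field F] (s : ℕ) (h : List F) (W : List (List F)) : List (List F) :=
  (tls h.length (psum h)).map (fun t => comb s t W)

/-- the result -/
def Mm {F : Type} [Field F] (s : ℕ) (h : List F) (E W : List (List F)) : List (List F) :=
  E.map (fun e => comb s e (Gm s h W))

/-- input `(h, (u, W))` -/
def GmP : Pr s (.prod Po (.prod Un Ma)) Ma :=
  .comp (.pair .snd (.comp (.pair .fst (.comp (.pair (ap2 appP .fst .fst)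
    (.pair .fst (.comp .fst derP))) seqP)) tlsP))
    (mapP (c := .prod Un Ma) (.comp (.pair (.comp .fst .fst) (.pair .snd (.comp .fst .snd))) combP))

@[simp] theorem val_GmP (v : SV F s) (x : Ty.D F (.prod Po (.prod Un Ma))) :
    (GmP : Pr s (.prod Po (.prod Un Ma)) Ma).val v x =
      Gm (List.length x.2.1) (x.1 : List F) (x.2.2 : List (List F)) := by
  simp [GmP, Gm, psum, two_mul]

theorem length_tls {α : Type} (n : ℕ) (P : List α) : (tls n P).length = n := by
  induction n generalizing P with
  | zero => rfl
  | succ n ih => simp [tls, ih]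

theorem tls_le {α : Type} (n : ℕ) (P : List α) : ∀ t ∈ tls n P, t.length ≤ P.length := by
  induction n generalizing P with
  | zero => simp [tls]
  | succ n ih =>
    intro t ht
    rcases List.mem_cons.1 ht with rfl | h
    · exact le_rfl
    · refine (ih P.tail t h).trans ?_
      simp

theorem length_seqL {F : Type} [Field F] (h : List F) (n : ℕ) (c : List F) :
    (seqL h n c).length = n := by
  induction n generalizing c with
  | zero => rfl
  | succ n ih => simp [seqL, ih]

theorem length_dl {F : Type} [Field F] (c : F) (l : List F) : (dl c l).length = l.length := by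
  induction l generalizing c with
  | nil => rfl
  | cons x l ih => simp [dl, ih]

theorem length_der {F : Type} [Field F] (h : List F) (hn : 1 ≤ h.length) :
    (der h).length = h.length := by
  simp [der, length_dl]
  omega

theorem cost_GmP (v : SV F s) (k : SC F s) (x : Ty.D F (.prod Po (.prod Un Ma))) (t : ℕ)
    (hn : 1 ≤ List.length x.1) (h0 : List.length x.2.1 = t)
    (hW : ∀ r ∈ x.2.2, List.length r = t) :
    (GmP : Pr s (.prod Po (.prod Un Ma)) Ma).cost v k x ≤
      2000 * (t + 1) * (List.length x.1 + 1) ^ 2 := by
  obtain ⟨h, u, W⟩ := x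
  simp only at h0 hn hW ⊢
  have h1 := cost_appP (s := s) v k ((h : List F), (h : List F))
  have h2 := cost_derP (s := s) v k (h : List F)
  have h3 := cost_seqP (s := s) (d := .fld) v k ((h ++ h : List F), ((h : List F), der h))
    (length_der h hn)
  have h4 := cost_tlsP (s := s) (d := .fld) v k ((h : List F), psum h)
  have h5 := cost_mapP_le (s := s) (c := .prod Un Ma) (a := Po) (b := Po)
    (.comp (.pair (.comp .fst .fst) (.pair .snd (.comp .fst .snd))) combP) v k
    ((u, W), tls (List.length h) (psum h)) (200 * (t + 1) * (2 * List.length h + 1) + 8)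
    (fun y hy => by
      have e := cost_combP (s := s) v k (u, ((y : List F), (W : List (List F)))) t h0 hW
      have e2 : List.length y ≤ 2 * List.length h := by
        have := tls_le _ _ y hy
        simpa [psum, length_seqL] using this
      have e3 : 200 * (t + 1) * (List.length y + 1) ≤ 200 * (t + 1) * (2 * List.length h + 1) := by
        apply Nat.mul_le_mul_left; omega
      simp at e ⊢
      omega)
  simp [GmP, psum, length_tls] at h1 h2 h3 h4 h5 ⊢
  simp only [← two_mul] at h1 h2 h3 h4 h5 ⊢
  nlinarith

/-- input `(h, (E, (u, W)))` -/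
def trP : Pr s (.prod Po (.prod Ma (.prod Un Ma))) Ma :=
  .comp (.pair (.pair (.comp .snd (.comp .snd .fst))
      (.comp (.pair .fst (.comp .snd .snd)) GmP)) (.comp .snd .fst))
    (mapP (c := .prod Un Ma) (.comp (.pair (.comp .fst .fst) (.pair .snd (.comp .fst .snd))) combP))

@[simp] theorem val_trP (v : SV F s) (x : Ty.D F (.prod Po (.prod Ma (.prod Un Ma)))) :
    (trP : Pr s (.prod Po (.prod Ma (.prod Un Ma))) Ma).val v x =
      Mm (List.length x.2.2.1) (x.1 : List F) (x.2.1 : List (List F))
        (x.2.2.2 : List (List F)) := by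
  simp [trP, Mm]

theorem length_comb {F : Type} [Field F] (s : ℕ) (r : List F) (W : List (List F)) (hW : Sh s W) :
    (comb s r W).length = s := by
  unfold comb
  have : ∀ (L : List (List F)) (acc : List F), (∀ x ∈ L, x.length = s) → acc.length = s →
      (List.foldl (fun acc row => List.zipWith (fun x y => x + y) acc row) acc L).length = s := by
    intro L
    induction L with
    | nil => intro acc _ h; exact h
    | cons x L ih =>
      intro acc h1 h2
      refine ih _ (fun y hy => h1 y (by simp [hy])) ?_
      have := h1 x (by simp)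
      simp [h2, this]
  refine this _ _ ?_ (by simp)
  intro x hx
  obtain ⟨i, hi, rfl⟩ := List.mem_iff_getElem.1 hx
  simp only [List.getElem_zipWith, List.length_map]
  exact hW _ (List.getElem_mem _)

theorem cost_trP (v : SV F s) (k : SC F s) (x : Ty.D F (.prod Po (.prod Ma (.prod Un Ma))))
    (n t : ℕ) (hn : 1 ≤ n) (hh : List.length x.1 = n) (hE : ∀ r ∈ x.2.1, List.length r = n)
    (h0 : List.length x.2.2.1 = t) (hW : ∀ r ∈ x.2.2.2, List.length r = t) :
    (trP : Pr s (.prod Po (.prod Ma (.prod Un Ma))) Ma).cost v k x ≤
      4000 * (n + t + List.length x.2.1 + 1) ^ 3 := by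
  obtain ⟨h, E, u, W⟩ := x
  simp only at h0 hh hE hW ⊢
  have h1 := cost_GmP (s := s) v k ((h : List F), (u, (W : List (List F)))) t (by simp [hh, hn]) h0 hW
  have h5 := cost_mapP_le (s := s) (c := .prod Un Ma) (a := Po) (b := Po)
    (.comp (.pair (.comp .fst .fst) (.pair .snd (.comp .fst .snd))) combP) v k
    ((u, Gm t h W), E) (200 * (t + 1) * (n + 1) + 8)
    (fun y hy => by
      have e := cost_combP (s := s) v k (u, ((y : List F), (Gm t h W : List (List F)))) t h0 (by
        intro r hr
        obtain ⟨q, _, rfl⟩ := List.mem_map.1 hr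
        exact length_comb t q W hW)
      have e2 := hE y hy
      simp at e ⊢
      rw [e2] at e
      omega)
  simp [trP, h0, hh] at h1 h5 ⊢
  have e1 : (t + 1) * (n + 1) ^ 2 ≤ (n + t + List.length E + 1) ^ 3 := by
    have a1 : t + 1 ≤ n + t + List.length E + 1 := by omega
    have a2 : n + 1 ≤ n + t + List.length E + 1 := by omega
    calc (t + 1) * (n + 1) ^ 2 ≤ (n + t + List.length E + 1) * (n + t + List.length E + 1) ^ 2 :=
          Nat.mul_le_mul a1 (Nat.pow_le_pow_left a2 2)
      _ = _ := by ring
  have e2 : (t + 1) * (n + 1) * List.length E ≤ (n + t + List.length E + 1) ^ 3 := by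
    have a1 : t + 1 ≤ n + t + List.length E + 1 := by omega
    have a2 : n + 1 ≤ n + t + List.length E + 1 := by omega
    have a3 : List.length E ≤ n + t + List.length E + 1 := by omega
    calc (t + 1) * (n + 1) * List.length E ≤ (n + t + List.length E + 1) *
          (n + t + List.length E + 1) * (n + t + List.length E + 1) :=
          Nat.mul_le_mul (Nat.mul_le_mul a1 a2) a3
      _ = _ := by ring
  have e3 : 1 ≤ (n + t + List.length E + 1) ^ 3 := Nat.one_le_pow _ _ (by omega)
  have e4 : List.length E ≤ (n + t + List.length E + 1) ^ 3 := by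
    calc List.length E ≤ (n + t + List.length E + 1) ^ 1 := by rw [pow_one]; omega
      _ ≤ _ := Nat.pow_le_pow_right (by omega) (by norm_num)
  nlinarith

end prog

/-! ### mathematics -/

section math
variable {F : Type} [Field F]

theorem coeff_pol {R : Type} [CommRing R] (l : List R) (i : ℕ) : (pol l).coeff i = l.getD i 0 := by
  induction l generalizing i with
  | nil => simp [pol]
  | cons x l ih =>
    cases i with
    | zero => simp [pol]
    | succ i => simp [pol, ih]

theorem degree_pol (l : List F) : (pol l).degree < l.length := by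
  rw [degree_lt_iff_coeff_zero]
  intro m hm
  rw [coeff_pol, List.getD_eq_default _ _ (by simpa using hm)]

theorem aeval_pol {k : Type} [Field k] [Algebra F k] (x : k) (l : List F) :
    aeval x (pol l) = ∑ i ∈ Finset.range l.length, algebraMap F k (l.getD i 0) * x ^ i := by
  induction l with
  | nil => simp [pol]
  | cons y l ih =>
    rw [List.length_cons, Finset.sum_range_succ']
    simp only [pol, map_add, map_mul, aeval_C, aeval_X, ih, List.getD_cons_succ,
      List.getD_cons_zero, pow_zero, mul_one]
    rw [Finset.mul_sum, add_comm]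
    congr 1
    refine Finset.sum_congr rfl fun i _ => ?_
    ring

theorem lastD_eq (c : List F) : lastD c = c.getD (c.length - 1) 0 := by
  rcases List.eq_nil_or_concat c with rfl | ⟨l, x, rfl⟩
  · simp [lastD]
  · simp [lastD]

theorem getD_zipWith {α β γ : Type} (f : α → β → γ) (a : List α) (b : List β) (x : α) (y : β)
    (z : γ) (i : ℕ) (ha : i < a.length) (hb : i < b.length) :
    (List.zipWith f a b).getD i z = f (a.getD i x) (b.getD i y) := by
  rw [List.getD_eq_getElem _ _ (by simp [ha, hb]), List.getD_eq_getElem _ _ ha,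
    List.getD_eq_getElem _ _ hb, List.getElem_zipWith]

theorem pol_step (h c : List F) (hc : c.length = h.length) (hn : 1 ≤ h.length) :
    pol (step h c) = X * pol c - Polynomial.C (lastD c) * mpol h := by
  ext i
  rw [coeff_pol, coeff_sub, coeff_C_mul, mpol, coeff_add, coeff_X_pow, coeff_pol]
  rcases lt_trichotomy i h.length with hi | hi | hi
  · rw [step, getD_zipWith _ _ _ 0 0 0 i (by simp [hc]; omega) hi, if_neg (by omega), zero_add,
      ← sub_eq_add_neg]
    congr 1
    cases i with
    | zero => simp
    | succ i => simp [coeff_pol]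
  · rw [List.getD_eq_default _ _ (by rw [length_step h c hc]; omega), if_pos hi,
      List.getD_eq_default h _ (by omega), add_zero, mul_one, lastD_eq]
    obtain ⟨j, rfl⟩ : ∃ j, i = j + 1 := ⟨i - 1, by omega⟩
    rw [coeff_X_mul, coeff_pol]
    have : c.length - 1 = j := by omega
    rw [this, sub_self]
  · rw [List.getD_eq_default _ _ (by rw [length_step h c hc]; omega), if_neg (by omega),
      List.getD_eq_default h _ (by omega), add_zero, mul_zero, sub_zero]
    obtain ⟨j, rfl⟩ : ∃ j, i = j + 1 := ⟨i - 1, by omega⟩
    rw [coeff_X_mul, coeff_pol, List.getD_eq_default _ _ (by omega)]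

theorem getD_dl (c : F) (l : List F) (i : ℕ) : (dl c l).getD i 0 = (c + i) * l.getD i 0 := by
  induction l generalizing c i with
  | nil => simp [dl]
  | cons x l ih =>
    cases i with
    | zero => simp [dl]
    | succ i =>
      simp only [dl, List.getD_cons_succ]
      rw [ih]
      push_cast
      ring

theorem pol_der (h : List F) (hn : 1 ≤ h.length) : pol (der h) = derivative (mpol h) := by
  ext i
  rw [coeff_pol, der, getD_dl, coeff_derivative, mpol, coeff_add, coeff_X_pow, coeff_pol]
  have h1 : (h.tail ++ [1]).getD i 0 = (if i + 1 = h.length then (1 : F) else 0) + h.getD (i + 1) 0 := by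
    rcases lt_trichotomy (i + 1) h.length with hi | hi | hi
    · rw [if_neg (by omega), zero_add, List.getD_append _ _ _ _ (by simp; omega)]
      cases h with
      | nil => simp at hn
      | cons x l => simp
    · rw [if_pos hi, List.getD_eq_default h _ (by omega), add_zero,
        List.getD_append_right _ _ _ _ (by simp; omega)]
      have : i - h.tail.length = 0 := by simp; omega
      rw [this]; simp
    · rw [if_neg (by omega), List.getD_eq_default h _ (by omega), add_zero,
        List.getD_eq_default _ _ (by simp; omega)]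
  rw [h1]
  ring

theorem iter_step (h c : List F) (hc : c.length = h.length) (hn : 1 ≤ h.length) (m : ℕ) :
    ((step h)^[m] c).length = h.length ∧
      mpol h ∣ pol ((step h)^[m] c) - X ^ m * pol c := by
  induction m with
  | zero => simp [hc]
  | succ m ih =>
    rw [Function.iterate_succ_apply']
    refine ⟨length_step h _ ih.1, ?_⟩
    rw [pol_step h _ ih.1 hn]
    obtain ⟨q, hq⟩ := ih.2
    refine ⟨X * q - Polynomial.C (lastD ((step h)^[m] c)), ?_⟩
    have : pol ((step h)^[m] c) = mpol h * q + X ^ m * pol c := by rw [← hq]; ring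
    rw [this]
    ring

theorem getD_seqL (h : List F) (N : ℕ) (c : List F) (m : ℕ) (hm : m < N) :
    (seqL h N c).getD m 0 = lastD ((step h)^[m] c) := by
  induction N generalizing c m with
  | zero => omega
  | succ N ih =>
    cases m with
    | zero => simp [seqL]
    | succ m =>
      simp only [seqL, List.getD_cons_succ]
      rw [ih _ _ (by omega), Function.iterate_succ_apply]

/-- the trace is the last coefficient -/
theorem tr_key {k : Type} [Field k] [Algebra F k] (n : ℕ) (h : List F) (_hh : h.length = n)
    (hn : 1 ≤ n) (α : Fin n → k)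
    (hα : (mpol h).map (algebraMap F k) = ∏ i, (X - Polynomial.C (α i))) (b : F[X]) (c : List F)
    (hc : c.length = n) (hd : mpol h ∣ pol c - b * derivative (mpol h)) :
    algebraMap F k (lastD c) = ∑ i, aeval (α i) b := by
  classical
  set H : k[X] := ∏ i, (X - Polynomial.C (α i)) with hH
  set B : k[X] := b.map (algebraMap F k) with hB
  set P : k[X] := (pol c).map (algebraMap F k) with hP
  set R : k[X] := ∑ i, Polynomial.C (B.eval (α i)) *
    ∏ j ∈ Finset.univ.erase i, (X - Polynomial.C (α j)) with hR
  have hHm : H.Monic := monic_prod_of_monic _ _ fun i _ => monic_X_sub_C _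
  have hHd : H.natDegree = n := by
    rw [hH, natDegree_prod_of_monic _ _ fun i _ => monic_X_sub_C _]
    simp
  have h1 : H ∣ P - B * derivative H := by
    have h2 := Polynomial.map_dvd (algebraMap F k) hd
    rw [Polynomial.map_sub, Polynomial.map_mul, ← derivative_map, hα] at h2
    exact h2
  have hder : derivative H = ∑ i, ∏ j ∈ Finset.univ.erase i, (X - Polynomial.C (α j)) := by
    rw [hH, derivative_prod_finset]
    refine Finset.sum_congr rfl fun i _ => ?_
    simp
  have h3 : H ∣ B * derivative H - R := by
    rw [hder, hR, Finset.mul_sum, ← Finset.sum_sub_distrib]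
    refine Finset.dvd_sum fun i _ => ?_
    rw [← sub_mul]
    have h4 : H = (X - Polynomial.C (α i)) * ∏ j ∈ Finset.univ.erase i, (X - Polynomial.C (α j)) :=
      (Finset.mul_prod_erase _ _ (Finset.mem_univ i)).symm
    rw [h4]
    exact mul_dvd_mul_right (X_sub_C_dvd_sub_C_eval) _
  have h5 : H ∣ P - R := by
    have := dvd_add h1 h3
    rwa [sub_add_sub_cancel] at this
  have hPd : P.degree < (n : ℕ) := by
    refine lt_of_le_of_lt (degree_map_le) ?_
    rw [← hc]
    exact degree_pol c
  have hprodm : ∀ i : Fin n, (∏ j ∈ Finset.univ.erase i, (X - Polynomial.C (α j))).Monic := fun i =>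
    monic_prod_of_monic _ _ fun j _ => monic_X_sub_C _
  have hprodd : ∀ i : Fin n,
      (∏ j ∈ Finset.univ.erase i, (X - Polynomial.C (α j))).natDegree = n - 1 := by
    intro i
    rw [natDegree_prod_of_monic _ _ fun i _ => monic_X_sub_C _]
    simp
  have hRd : R.degree < (n : ℕ) := by
    refine lt_of_le_of_lt (degree_sum_le _ _) ?_
    rw [Finset.sup_lt_iff (by exact_mod_cast WithBot.bot_lt_coe n)]
    intro i _
    refine lt_of_le_of_lt (degree_mul_le _ _) ?_
    refine lt_of_le_of_lt (add_le_add (degree_C_le) (degree_le_natDegree)) ?_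
    rw [hprodd, zero_add]
    exact_mod_cast (by omega : n - 1 < n)
  have h6 : P - R = 0 := by
    refine eq_zero_of_dvd_of_degree_lt h5 ?_
    rw [degree_eq_natDegree hHm.ne_zero, hHd]
    exact lt_of_le_of_lt (degree_sub_le _ _) (max_lt hPd hRd)
  have h7 : P.coeff (n - 1) = R.coeff (n - 1) := by rw [sub_eq_zero.1 h6]
  rw [hP, coeff_map, coeff_pol, hR, finsetSum_coeff] at h7
  rw [lastD_eq, hc, h7]
  refine Finset.sum_congr rfl fun i _ => ?_
  rw [coeff_C_mul]
  have h8 := (hprodm i).coeff_natDegree
  rw [hprodd i] at h8
  rw [h8, mul_one, hB, eval_map_algebraMap]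

theorem psum_eq {k : Type} [Field k] [Algebra F k] (n : ℕ) (h : List F) (hh : h.length = n)
    (hn : 1 ≤ n) (α : Fin n → k)
    (hα : (mpol h).map (algebraMap F k) = ∏ i, (X - Polynomial.C (α i))) (m : ℕ) (hm : m < 2 * n) :
    algebraMap F k ((psum h).getD m 0) = ∑ i, α i ^ m := by
  rw [psum, getD_seqL _ _ _ _ (by rw [hh]; exact hm)]
  obtain ⟨h1, h2⟩ := iter_step h (der h) (length_der h (by omega)) (by omega) m
  rw [pol_der h (by omega)] at h2
  rw [tr_key n h hh hn α hα (X ^ m) _ (by rw [h1, hh]) h2]
  simp

theorem getD_tls {β : Type} (n : ℕ) (P : List β) (i : ℕ) (hi : i < n) (z : List β) :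
    (tls n P).getD i z = P.drop i := by
  induction n generalizing P i with
  | zero => omega
  | succ n ih =>
    cases i with
    | zero => simp [tls]
    | succ i =>
      simp only [tls, List.getD_cons_succ]
      rw [ih _ _ (by omega), List.drop_tail]

theorem getD_drop' (P : List F) (i a : ℕ) : (P.drop i).getD a 0 = P.getD (i + a) 0 := by
  simp [List.getD_eq_getElem?_getD, List.getElem?_drop]

theorem getD_map_mul (x : F) (row : List F) (κ : ℕ) :
    (row.map (fun y => x * y)).getD κ 0 = x * row.getD κ 0 := by
  by_cases h : κ < row.length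
  · rw [List.getD_eq_getElem _ _ (by simpa using h), List.getD_eq_getElem _ _ h, List.getElem_map]
  · rw [List.getD_eq_default _ _ (by simpa using h), List.getD_eq_default _ _ (by simpa using h),
      mul_zero]

theorem fold_getD (s κ : ℕ) (hκ : κ < s) : ∀ (L : List (List F)) (acc : List F),
    (∀ x ∈ L, x.length = s) → acc.length = s →
    (List.foldl (fun acc row => List.zipWith (fun x y => x + y) acc row) acc L).getD κ 0 =
      acc.getD κ 0 + (L.map (fun row => row.getD κ 0)).sum := by
  intro L
  induction L with
  | nil => intro acc _ _; simp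
  | cons x L ih =>
    intro acc h1 h2
    have h3 := h1 x (by simp)
    rw [List.foldl_cons, ih _ (fun y hy => h1 y (by simp [hy])) (by simp [h2, h3]),
      getD_zipWith _ _ _ 0 0 0 κ (by omega) (by omega)]
    simp only [List.map_cons, List.sum_cons]
    ring

theorem zipsum (f : F → List F → F) : ∀ (r : List F) (W : List (List F)),
    W.length ≤ r.length →
    (List.zipWith f r W).sum = ∑ i ∈ Finset.range W.length, f (r.getD i 0) (W.getD i []) := by
  intro r W
  induction W generalizing r with
  | nil => intro _; simp
  | cons w W ih =>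
    intro hl
    cases r with
    | nil => simp at hl
    | cons x r =>
      rw [List.length_cons, Finset.sum_range_succ']
      simp only [List.zipWith_cons_cons, List.sum_cons, List.getD_cons_succ, List.getD_cons_zero]
      rw [ih r (by simpa using hl), add_comm]

theorem getD_comb (s : ℕ) (r : List F) (W : List (List F)) (hW : Sh s W) (κ : ℕ) (hκ : κ < s)
    (hl : W.length ≤ r.length) :
    (comb s r W).getD κ 0 =
      ∑ i ∈ Finset.range W.length, r.getD i 0 * (W.getD i []).getD κ 0 := by
  unfold comb
  rw [fold_getD s κ hκ _ _ ?_ (by simp)]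
  · rw [List.getD_eq_getElem _ _ (by simpa using hκ), List.getElem_replicate, zero_add,
      List.map_zipWith]
    simp only [getD_map_mul]
    exact zipsum (fun x row => x * row.getD κ 0) r W hl
  · intro x hx
    obtain ⟨i, hi, rfl⟩ := List.mem_iff_getElem.1 hx
    simp only [List.getElem_zipWith, List.length_map]
    exact hW _ (List.getElem_mem _)

theorem length_Gm (s : ℕ) (h : List F) (W : List (List F)) : (Gm s h W).length = h.length := by
  simp [Gm, length_tls]

theorem sh_Gm (s : ℕ) (h : List F) (W : List (List F)) (hW : Sh s W) : Sh s (Gm s h W) := by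
  intro r hr
  obtain ⟨q, _, rfl⟩ := List.mem_map.1 hr
  exact length_comb s q W hW

theorem getD_Gm (s : ℕ) (h : List F) (W : List (List F)) (hW : Sh s W) (hl : W.length = h.length)
    (i κ : ℕ) (hi : i < h.length) (hκ : κ < s) :
    ((Gm s h W).getD i []).getD κ 0 =
      ∑ a ∈ Finset.range h.length, (psum h).getD (i + a) 0 * (W.getD a []).getD κ 0 := by
  have h1 : (Gm s h W).getD i [] = comb s ((psum h).drop i) W := by
    rw [Gm, List.getD_eq_getElem _ _ (by simpa [length_tls] using hi), List.getElem_map]
    have h2 := getD_tls h.length (psum h) i hi []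
    rw [List.getD_eq_getElem _ _ (by simpa [length_tls] using hi)] at h2
    rw [h2]
  have h3 : (psum h).length = 2 * h.length := length_seqL _ _ _
  rw [h1, getD_comb s _ W hW κ hκ (by rw [List.length_drop, h3]; omega), hl]
  refine Finset.sum_congr rfl fun a _ => ?_
  rw [getD_drop']

theorem getD_map_getD (W : List (List F)) (κ a : ℕ) :
    (W.map (fun r => r.getD κ 0)).getD a 0 = (W.getD a []).getD κ 0 := by
  by_cases h : a < W.length
  · rw [List.getD_eq_getElem _ _ (by simpa using h), List.getD_eq_getElem _ _ h, List.getElem_map]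
  · rw [List.getD_eq_default _ _ (by simpa using h), List.getD_eq_default W _ (by simpa using h)]
    simp

theorem main_eq {k : Type} [Field k] [Algebra F k] (n s : ℕ) (h : List F) (E W : List (List F))
    (hh : h.length = n) (hn : 1 ≤ n) (hE : Sh n E) (hWl : W.length = n) (hW : Sh s W)
    (α : Fin n → k)
    (hα : (mpol h).map (algebraMap F k) = ∏ i, (X - Polynomial.C (α i))) (j : ℕ)
    (hj : j < E.length) (κ : ℕ) (hκ : κ < s) :
    algebraMap F k (((Mm s h E W).getD j []).getD κ 0) =
      ∑ i, aeval (α i) (pol (E.getD j [])) * aeval (α i) (pol (W.map (fun r => r.getD κ 0))) := by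
  have h1 : (Mm s h E W).getD j [] = comb s (E.getD j []) (Gm s h W) := by
    rw [Mm, List.getD_eq_getElem _ _ (by simpa using hj), List.getElem_map,
      List.getD_eq_getElem _ _ hj]
  have h2 : (E.getD j []).length = n := by
    rw [List.getD_eq_getElem _ _ hj]
    exact hE _ (List.getElem_mem _)
  rw [h1, getD_comb s _ _ (sh_Gm s h W hW) κ hκ (by rw [length_Gm, hh, h2]), length_Gm, hh,
    map_sum]
  have h3 : ∀ i ∈ Finset.range n, algebraMap F k ((E.getD j []).getD i 0 *
      ((Gm s h W).getD i []).getD κ 0) = ∑ a ∈ Finset.range n, ∑ t,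
        (algebraMap F k ((E.getD j []).getD i 0) * α t ^ i) *
          (algebraMap F k ((W.getD a []).getD κ 0) * α t ^ a) := by
    intro i hi
    have hi' := Finset.mem_range.1 hi
    rw [getD_Gm s h W hW (by rw [hWl, hh]) i κ (by omega) hκ, map_mul, map_sum, hh, Finset.mul_sum]
    refine Finset.sum_congr rfl fun a ha => ?_
    have ha' := Finset.mem_range.1 ha
    rw [map_mul, psum_eq n h hh hn α hα (i + a) (by omega), Finset.sum_mul, Finset.mul_sum]
    refine Finset.sum_congr rfl fun t _ => ?_
    rw [pow_add]
    ring
  rw [Finset.sum_congr rfl h3]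
  have h4 : ∀ i ∈ Finset.range n, (∑ a ∈ Finset.range n, ∑ t,
        (algebraMap F k ((E.getD j []).getD i 0) * α t ^ i) *
          (algebraMap F k ((W.getD a []).getD κ 0) * α t ^ a)) =
      ∑ t, ∑ a ∈ Finset.range n, (algebraMap F k ((E.getD j []).getD i 0) * α t ^ i) *
          (algebraMap F k ((W.getD a []).getD κ 0) * α t ^ a) := fun i _ => Finset.sum_comm
  rw [Finset.sum_congr rfl h4, Finset.sum_comm]
  refine Finset.sum_congr rfl fun t _ => ?_
  rw [aeval_pol, aeval_pol, h2, List.length_map, hWl, Finset.sum_mul_sum]
  simp only [getD_map_getD]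

end math

end Tr

/-- TARGET -/
theorem specTr (h : SpecMM) : SpecTr := by
  refine ⟨Tr.trP, 4000, ?_⟩
  intro F _ _ n s h E W hh hn hE hWl hW
  have hu : (un s).length = s := by simp [un]
  have hval : (Pr.val (F := F) (Tr.trP (s := [])) () (h, (E, (un s, W))) : List (List F)) = Tr.Mm s h E W := by
    rw [Tr.val_trP]
    simp only [hu]
  simp only [hval]
  refine ⟨by simp [Tr.Mm], ?_, ?_, ?_⟩
  · intro r hr
    obtain ⟨q, _, rfl⟩ := List.mem_map.1 hr
    exact Tr.length_comb s q _ (Tr.sh_Gm s h W hW)
  · intro k _ _ α hα j hj κ hκ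
    exact Tr.main_eq n s h E W hh hn hE hWl hW α hα j hj κ hκ
  · exact Tr.cost_trP (F := F) (s := []) () () (h, (E, (un s, W))) n s hn hh hE hu hW

end Pool.Agent.H330AB.JJ6
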