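import Pool.Agent.H330AB.SpecA2
set_option autoImplicit false
noncomputable section
namespace Pool.Agent.H330AB.JJ7
open Polynomial Pool.Agent.H330FB

noncomputable section

namespace J7PN

/-- value of a list of bits, least significant first -/
def vbits : List Bool → ℕ
  | [] => 0
  | b :: l => Nat.bit b (vbits l)

theorem vbits_bits (n : ℕ) : vbits (Nat.bits n) = n := by
  induction n using Nat.binaryRec' with
  | zero => simp [vbits]
  | bit b n hn ih =>
    rw [Nat.bits_append_bit n b hn]
    simp only [vbits, ih]

theorem length_bits_le (n : ℕ) : (Nat.bits n).length ≤ lgc n := by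
  rw [Nat.size_eq_bits_len, Nat.size_le]
  unfold lgc
  have h1 : n ≤ 2 ^ (Nat.clog 2 n) := Nat.le_pow_clog (by norm_num) n
  have h2 : 2 ^ (Nat.clog 2 n) < 2 ^ (Nat.clog 2 n + 1) :=
    Nat.pow_lt_pow_right (by norm_num) (by omega)
  omega

section pow
variable {F : Type} [Field F] [DecidableEq F]

/-- one step of the power routine, on lists -/
def powSt (q : Pr [] (.prod (.prod Po Po) Po) Po) (G : List F) (y : List F × List F) (z : F) :
    List F × List F :=
  ((q.val () ((y.1, y.1), G) : List F),
    if z = 0 then y.2 else (q.val () ((y.2, y.1), G) : List F))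

theorem powSt_spec (q : Pr [] (.prod (.prod Po Po) Po) Po) (G : List F)
    (hq : ∀ a b : List F, a.length = G.length → b.length = G.length →
      List.length (q.val () ((a, b), G) : List F) = G.length ∧
      mpol G ∣ pol a * pol b - pol (q.val () ((a, b), G) : List F))
    (bs : List Bool) (sq acc : List F) (A B : F[X]) (h1 : sq.length = G.length)
    (h2 : acc.length = G.length) (hA : mpol G ∣ A - pol sq) (hB : mpol G ∣ B - pol acc) :
    (List.foldl (powSt q G) (sq, acc)
      (bs.map (fun b => if b then (1 : F) else 0))).2.length = G.length ∧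
    mpol G ∣ B * A ^ (vbits bs) - pol (List.foldl (powSt q G) (sq, acc)
      (bs.map (fun b => if b then (1 : F) else 0))).2 := by
  induction bs generalizing sq acc A B with
  | nil =>
    refine ⟨h2, ?_⟩
    simpa [vbits] using hB
  | cons b bs ih =>
    rw [List.map_cons, List.foldl_cons]
    obtain ⟨q1, q2⟩ := hq sq sq h1 h1
    obtain ⟨q3, q4⟩ := hq acc sq h2 h1
    have hA2 : mpol G ∣ A * A - pol (q.val () ((sq, sq), G) : List F) := by
      have e : A * A - pol (q.val () ((sq, sq), G) : List F) =
          (A - pol sq) * (A + pol sq) +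
            (pol sq * pol sq - pol (q.val () ((sq, sq), G) : List F)) := by ring
      rw [e]
      exact dvd_add (Dvd.dvd.mul_right hA _) q2
    cases b with
    | false =>
      have e := ih (q.val () ((sq, sq), G) : List F) acc (A * A) B q1 h2 hA2 hB
      have e2 : powSt q G (sq, acc) (if false = true then (1 : F) else 0) =
          ((q.val () ((sq, sq), G) : List F), acc) := by
        simp [powSt]
      rw [e2]
      refine ⟨e.1, ?_⟩
      have e3 : A ^ (vbits (false :: bs)) = (A * A) ^ (vbits bs) := by
        simp only [vbits, Nat.bit_false]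
        rw [pow_mul, pow_two]
      rw [e3]
      exact e.2
    | true =>
      have hB2 : mpol G ∣ B * A - pol (q.val () ((acc, sq), G) : List F) := by
        have e : B * A - pol (q.val () ((acc, sq), G) : List F) =
            (B - pol acc) * A + pol acc * (A - pol sq) +
              (pol acc * pol sq - pol (q.val () ((acc, sq), G) : List F)) := by ring
        rw [e]
        exact dvd_add (dvd_add (Dvd.dvd.mul_right hB _) (Dvd.dvd.mul_left hA _)) q4
      have e := ih (q.val () ((sq, sq), G) : List F)
        (q.val () ((acc, sq), G) : List F) (A * A) (B * A) q1 q3 hA2 hB2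
      have e2 : powSt q G (sq, acc) (if true = true then (1 : F) else 0) =
          ((q.val () ((sq, sq), G) : List F),
            (q.val () ((acc, sq), G) : List F)) := by
        simp [powSt]
      rw [e2]
      refine ⟨e.1, ?_⟩
      have e3 : B * A ^ (vbits (true :: bs)) = B * A * (A * A) ^ (vbits bs) := by
        simp only [vbits, Nat.bit_true]
        rw [pow_succ, pow_mul, pow_two]
        ring
      rw [e3]
      exact e.2

end pow

/-- one step of the power routine -/
def powStP (q : Pr [] (.prod (.prod Po Po) Po) Po) :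
    Pr [] (.prod Po (.prod (.prod Po Po) .fld)) (.prod Po Po) :=
  .pair
    (.comp (.pair (.pair (.comp (.comp .snd .fst) .fst)
      (.comp (.comp .snd .fst) .fst)) .fst) q)
    (onZ (.comp .snd .snd) (.comp (.comp .snd .fst) .snd)
      (.comp (.pair (.pair (.comp (.comp .snd .fst) .snd)
        (.comp (.comp .snd .fst) .fst)) .fst) q))

/-- the power routine -/
def powP (q : Pr [] (.prod (.prod Po Po) Po) Po) : Pr [] (.prod (.prod Po Po) Po) Po :=
  .comp (.comp (.pair .snd
    (.pair (.pair (.comp .fst .fst)
      (.comp (.pair .snd (.pair .zero (.comp (.pair .one .nil) .cons))) fitP))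
      (.comp .fst .snd))) (foldP (powStP q))) .snd

section pow2
variable {F : Type} [Field F] [DecidableEq F]

theorem val_powStP (q : Pr [] (.prod (.prod Po Po) Po) Po) (G : List F) (y : List F × List F)
    (z : F) : (powStP q).val () (G, (y, z)) = powSt q G y z := by
  by_cases hz : z = 0
  · simp only [powStP, powSt, val_pair, val_comp, val_fst, val_snd, val_onZ, hz, if_true]
  · simp only [powStP, powSt, val_pair, val_comp, val_fst, val_snd, val_onZ, hz, if_false]

theorem cost_powStP (q : Pr [] (.prod (.prod Po Po) Po) Po) (G : List F) (y : List F × List F)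
    (z : F) (B : ℕ)
    (hB : ∀ a b : List F, a.length = G.length → b.length = G.length →
      q.cost () () ((a, b), G) ≤ B) (h1 : y.1.length = G.length)
    (h2 : y.2.length = G.length) :
    (powStP q).cost () () (G, (y, z)) ≤ 2 * B + 50 := by
  have e1 := hB y.1 y.1 h1 h1
  have e2 := hB y.2 y.1 h2 h1
  by_cases hz : z = 0
  · simp [powStP, hz] at e1 e2 ⊢
    omega
  · simp [powStP, hz] at e1 e2 ⊢
    omega

theorem val_powP (q : Pr [] (.prod (.prod Po Po) Po) Po) (a l G : List F) :
    (powP q).val () ((a, l), G) =
      (List.foldl (powSt q G) (a, fit G.length 0 [1]) l).2 := by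
  have e : (fun (y : List F × List F) (z : F) => (powStP q).val () (G, (y, z))) =
      powSt q G := by
    funext y z
    exact val_powStP q G y z
  rw [← e]
  simp [powP]

theorem cost_powP (q : Pr [] (.prod (.prod Po Po) Po) Po) (a l G : List F) (B : ℕ)
    (hl : ∀ a b : List F, a.length = G.length → b.length = G.length →
      List.length (q.val () ((a, b), G) : List F) = G.length)
    (hB : ∀ a b : List F, a.length = G.length → b.length = G.length →
      q.cost () () ((a, b), G) ≤ B) (ha : a.length = G.length) :
    (powP q).cost () () ((a, l), G) ≤ (2 * B + 77) * l.length + 20 * G.length + 60 := by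
  have h1 := cost_fitP (s := []) (F := F) (a := .fld) (b := .fld) () () (G, ((0 : F), [(1 : F)]))
  have h2 := cost_foldP_le (s := []) (F := F) (powStP q) () ()
    (G, ((a, fit G.length 0 [1]), l)) (2 * B + 50)
    (fun y => y.1.length = G.length ∧ y.2.length = G.length)
    ⟨ha, by simp⟩
    (fun y z hy _ => by
      rw [val_powStP]
      unfold powSt
      refine ⟨hl _ _ hy.1 hy.1, ?_⟩
      split_ifs
      · exact hy.2
      · exact hl _ _ hy.2 hy.1)
    (fun y z hy _ => cost_powStP q G y z B hB hy.1 hy.2)
  simp only [powP, cost_comp, cost_pair, cost_fst, cost_snd, cost_zero, cost_one, cost_nil,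
    cost_cons, val_comp, val_pair, val_fst, val_snd, val_zero, val_one, val_nil, val_cons,
    val_fitP] at h1 h2 ⊢
  have e3 : 2 * B + 50 + 27 = 2 * B + 77 := by omega
  rw [e3] at h2
  omega

end pow2

theorem pol_fit_one {F : Type} [Field F] (n : ℕ) :
    pol (fit (n + 1) (0 : F) [1]) = 1 := by
  have h : ∀ m : ℕ, pol (fit m (0 : F) []) = 0 := by
    intro m
    induction m with
    | zero => simp [fit, pol]
    | succ m ih => simp [fit, pol, ih]
  simp [fit, pol, h]

/-- the power routine has the right values and costs -/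
theorem specPowN (h : SpecNaive) : ∃ (p : Pr [] (.prod (.prod Po Po) Po) Po) (C : ℕ),
    ∀ (F : Type) [Field F] [DecidableEq F] (a G : List F) (n : ℕ), a.length = G.length →
    let r : List F := p.val () ((a, bits F n), G)
    r.length = G.length ∧ mpol G ∣ pol a ^ n - pol r ∧
    p.cost () () ((a, bits F n), G) ≤ C * (lgc n * (G.length + 1) ^ 2) := by
  obtain ⟨q, Cq, hq⟩ := h
  refine ⟨powP q, 2 * Cq + 200, ?_⟩
  intro F _ _ a G n ha
  have hv := val_powP q a (bits F n) G
  have hl : ∀ a b : List F, a.length = G.length → b.length = G.length →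
      List.length (q.val () ((a, b), G) : List F) = G.length :=
    fun a b ha hb => (hq F a b G ha hb).1
  have hd : ∀ a b : List F, a.length = G.length → b.length = G.length →
      mpol G ∣ pol a * pol b - pol (q.val () ((a, b), G) : List F) :=
    fun a b ha hb => (hq F a b G ha hb).2.1
  have hone : mpol G ∣ 1 - pol (fit G.length (0 : F) [1]) := by
    rcases G with _ | ⟨g, G⟩
    · have : mpol ([] : List F) = 1 := by simp [mpol, pol]
      rw [this]
      exact one_dvd _
    · rw [List.length_cons, pol_fit_one]
      simp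
  obtain ⟨s1, s2⟩ := powSt_spec q G (fun a b ha hb => ⟨hl a b ha hb, hd a b ha hb⟩) (Nat.bits n) a
    (fit G.length 0 [1]) (pol a) 1 ha (by simp) (by simp) hone
  rw [vbits_bits, one_mul] at s2
  simp only
  rw [hv]
  refine ⟨s1, s2, ?_⟩
  obtain ⟨L, hL⟩ : ∃ L, L = G.length := ⟨_, rfl⟩
  have hB : ∀ a b : List F, a.length = G.length → b.length = G.length →
      q.cost () () ((a, b), G) ≤ Cq * (L + 1) ^ 2 := by
    intro a b ha hb
    rw [hL]
    exact (hq F a b G ha hb).2.2
  have hc := cost_powP q a (bits F n) G _ hl hB ha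
  have hbl : (bits F n).length ≤ lgc n := by
    unfold bits
    rw [List.length_map]
    exact length_bits_le n
  obtain ⟨N, hNN⟩ : ∃ N, N = lgc n := ⟨_, rfl⟩
  rw [← hNN] at hbl ⊢
  rw [← hL] at hc ⊢
  obtain ⟨M, hM⟩ : ∃ M, M = (L + 1) ^ 2 := ⟨_, rfl⟩
  rw [← hM] at hc ⊢
  have hM1 : L + 1 ≤ M := by rw [hM]; nlinarith
  have hN1 : 1 ≤ N := by rw [hNN]; unfold lgc; omega
  have hNM : L + 1 ≤ N * M := by nlinarith
  have hNM2 : N ≤ N * M := by nlinarith
  calc (powP q).cost () () ((a, bits F n), G)
      ≤ (2 * (Cq * M) + 77) * (bits F n).length + 20 * L + 60 := hc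
    _ ≤ (2 * (Cq * M) + 77) * N + 20 * L + 60 := by gcongr
    _ = 2 * Cq * (N * M) + 77 * N + 20 * L + 60 := by ring
    _ ≤ 2 * Cq * (N * M) + 200 * (N * M) := by omega
    _ = (2 * Cq + 200) * (N * M) := by ring

/-- iteration of the power routine -/
def frobP (p : Pr [] (.prod (.prod Po Po) Po) Po) :
    Pr [] (.prod (.prod Po (.prod Po Un)) Po) Po :=
  .comp (.pair (.pair (.comp (.comp .fst .snd) .fst) .snd)
    (.pair (.comp .fst .fst) (.comp (.comp .fst .snd) .snd)))
    (foldP (a := .unit) (b := Po) (c := .prod Po Po)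
      (.comp (.pair (.pair (.comp .snd .fst) (.comp .fst .fst)) (.comp .fst .snd)) p))

end J7PN

/- q-th powers by binary powering with the schoolbook product modulo G (SpecNaive, in H330FB/Spec4: input ((a, b), P)), repeated e times. Compare Pool/Agent/H330FB/JA8.lean (specPow, specFrob). -/
/-- TARGET -/
theorem specPN (h : SpecNaive) : SpecPN := by
  obtain ⟨p, Cp, hp⟩ := J7PN.specPowN h
  refine ⟨J7PN.frobP p, Cp + 100, ?_⟩
  intro F _ _ a G q e ha _
  have hv : (J7PN.frobP p).val () ((a, (bits F q, un e)), G) =
      List.foldl (fun (y : List F) (_ : Unit) =>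
        (p.val () ((y, bits F q), G) : List F)) a (un e) := by
    simp [J7PN.frobP]
  have hs : ∀ e : ℕ, (List.foldl (fun (y : List F) (_ : Unit) =>
        (p.val () ((y, bits F q), G) : List F)) a (un e)).length = G.length ∧
      mpol G ∣ pol a ^ (q ^ e) - pol (List.foldl (fun (y : List F) (_ : Unit) =>
        (p.val () ((y, bits F q), G) : List F)) a (un e)) := by
    intro e
    induction e with
    | zero =>
      simp only [un, List.replicate_zero, List.foldl_nil, pow_zero, pow_one, sub_self, dvd_zero,
        and_true]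
      exact ha
    | succ e ih =>
      have e1 : un (e + 1) = un e ++ [()] := by
        simp only [un, List.replicate_succ']
      rw [e1, List.foldl_append, List.foldl_cons, List.foldl_nil]
      obtain ⟨r, hr⟩ : ∃ r, r = List.foldl (fun (y : List F) (_ : Unit) =>
        (p.val () ((y, bits F q), G) : List F)) a (un e) := ⟨_, rfl⟩
      rw [← hr] at ih ⊢
      obtain ⟨p1, p2, -⟩ := hp F r G q ih.1
      refine ⟨p1, ?_⟩
      have e2 : pol a ^ (q ^ (e + 1)) - pol (p.val () ((r, bits F q), G) : List F) =
          ((pol a ^ (q ^ e)) ^ q - pol r ^ q) +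
            (pol r ^ q - pol (p.val () ((r, bits F q), G) : List F)) := by
        rw [pow_succ, pow_mul]
        ring
      rw [e2]
      exact dvd_add (ih.2.trans (sub_dvd_pow_sub_pow _ _ _)) p2
  simp only
  rw [hv]
  refine ⟨(hs e).1, (hs e).2, ?_⟩
  obtain ⟨M, hM⟩ : ∃ M, M = (G.length + 1) ^ 2 := ⟨_, rfl⟩
  obtain ⟨N, hNN⟩ : ∃ N, N = lgc q := ⟨_, rfl⟩
  have hM1 : 1 ≤ M := by rw [hM]; nlinarith
  have hN1 : 1 ≤ N := by rw [hNN]; unfold lgc; omega
  have hNM : 1 ≤ N * M := by nlinarith
  have h2 := cost_foldP_le (s := []) (F := F) (a := .unit) (b := Po) (c := .prod Po Po)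
      (.comp (.pair (.pair (.comp .snd .fst) (.comp .fst .fst)) (.comp .fst .snd)) p) () ()
    ((bits F q, G), (a, un e)) (Cp * (N * M) + 20)
    (fun y => List.length y = G.length)
    ha
    (fun y z hy _ => (hp F y G q hy).1)
    (fun y z hy _ => by
      have e1 := (hp F y G q hy).2.2
      rw [← hM, ← hNN] at e1
      simp at e1 ⊢
      omega)
  have hle : List.length (un e) = e := by simp [un]
  simp only [hle] at h2
  rw [← hM, ← hNN]
  have h3 : (J7PN.frobP p).cost () () ((a, (bits F q, un e)), G) ≤
      (Cp * (N * M) + 20 + 27) * e + 14 + 30 := by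
    simp only [J7PN.frobP, cost_comp, cost_pair, cost_fst, cost_snd, val_comp, val_pair, val_fst,
      val_snd] at h2 ⊢
    omega
  refine h3.trans ?_
  have e5 : 47 * e + 44 ≤ 100 * ((e + 1) * (N * M)) := by nlinarith
  calc (Cp * (N * M) + 20 + 27) * e + 14 + 30
      = Cp * (e * (N * M)) + (47 * e + 44) := by ring
    _ ≤ Cp * ((e + 1) * (N * M)) + 100 * ((e + 1) * (N * M)) := by
        gcongr
        omega
    _ = (Cp + 100) * ((e + 1) * N * M) := by ring

end
end Pool.Agent.H330AB.JJ7
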