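import Pool.Agent.H330AB.SpecA2
set_option autoImplicit false
noncomputable section
namespace Pool.Agent.H330AB.JJ8
open Polynomial Pool.Agent.H330FB
/- Powers of w modulo mpol G by repeated schoolbook multiplication (SpecNaive, input ((a, b), P)). -/

/-- body of the recursion: state `(current power, (w, G))` -/
def ptBody (q : Pr [] (.prod (.prod Po Po) Po) Po) :
    Pr ((.prod Po (.prod Po Po), Ma) :: []) (.prod Po (.prod Po Po)) Ma :=
  .comp (.pair .fst (.comp (.pair (.comp (.pair (.pair .fst (.comp .snd .fst))
    (.comp .snd .snd)) (liftP _ q)) .snd) .self)) .cons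

/-- the program -/
def ptP (q : Pr [] (.prod (.prod Po Po) Po) Po) : Pr [] (.prod Po Po) Ma :=
  .comp (.pair .snd (.pair (.comp (.pair .snd (.pair .zero (.comp (.pair .one .nil) .cons)))
    fitP) .id)) (.recD (ptBody q) .nil)

/-- the powers as a function -/
noncomputable def ptF {F : Type} [Field F] [DecidableEq F] (q : Pr [] (.prod (.prod Po Po) Po) Po)
    (w G : List F) : ℕ → List F → List (List F)
  | 0, _ => []
  | k + 1, c => c :: ptF q w G k (q.val () ((c, w), G))

theorem pt_val {F : Type} [Field F] [DecidableEq F] (q : Pr [] (.prod (.prod Po Po) Po) Po)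
    (w G : List F) (k : ℕ) (c : List F) :
    goV (F := F) (ptBody q) .nil () k (c, (w, G)) = ptF q w G k c := by
  induction k generalizing c with
  | zero => simp [goV, ptF]
  | succ k ih => simp [goV, ptF, ptBody] at ih ⊢; exact ih _

theorem pt_cost {F : Type} [Field F] [DecidableEq F] (q : Pr [] (.prod (.prod Po Po) Po) Po)
    (w G : List F) (B : ℕ) (hq : ∀ c : List F, c.length = G.length →
      List.length (q.val () ((c, w), G) : List F) = G.length ∧ q.cost () () ((c, w), G) ≤ B)
    (k : ℕ) (c : List F) (hc : c.length = G.length) :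
    goC (F := F) (ptBody q) .nil () () k (c, (w, G)) ≤ (B + 20) * k + 1 := by
  induction k generalizing c with
  | zero => simp [goC]
  | succ k ih =>
    obtain ⟨h1, h2⟩ := hq c hc
    have e := ih _ h1
    simp [goC, ptBody] at e ⊢
    nlinarith

theorem pt_spec {F : Type} [Field F] [DecidableEq F] (q : Pr [] (.prod (.prod Po Po) Po) Po)
    (w G : List F) (hq : ∀ c : List F, c.length = G.length →
      List.length (q.val () ((c, w), G) : List F) = G.length ∧
      mpol G ∣ pol c * pol w - pol (q.val () ((c, w), G) : List F))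
    (k : ℕ) (c : List F) (hc : c.length = G.length) (i : ℕ)
    (hi : mpol G ∣ pol w ^ i - pol c) :
    (ptF q w G k c).length = k ∧ Sh G.length (ptF q w G k c) ∧
    ∀ j < k, mpol G ∣ pol w ^ (i + j) - pol ((ptF q w G k c).getD j []) := by
  induction k generalizing c i with
  | zero => simp [ptF, Sh]
  | succ k ih =>
    obtain ⟨h1, h2⟩ := hq c hc
    have h3 : mpol G ∣ pol w ^ (i + 1) - pol (q.val () ((c, w), G) : List F) := by
      have : pol w ^ (i + 1) - pol (q.val () ((c, w), G) : List F) =
        pol w * (pol w ^ i - pol c) + (pol c * pol w - pol (q.val () ((c, w), G) : List F)) := by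
        ring
      rw [this]
      exact dvd_add (Dvd.dvd.mul_left hi _) h2
    obtain ⟨e1, e2, e3⟩ := ih _ h1 (i + 1) h3
    refine ⟨by simp [ptF, e1], ?_, ?_⟩
    · intro r hr
      simp only [ptF, List.mem_cons] at hr
      rcases hr with hr | hr
      · rw [hr]; exact hc
      · exact e2 r hr
    · intro j hj
      cases j with
      | zero => simpa [ptF] using hi
      | succ j =>
        have := e3 j (by omega)
        simp only [ptF, List.getD_cons_succ]
        rw [show i + (j + 1) = i + 1 + j by ring]
        exact this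

theorem pol_fit_nil {F : Type} [Field F] (n : ℕ) : pol (fit n (0 : F) []) = 0 := by
  induction n with
  | zero => simp [fit, pol]
  | succ n ih => simp [fit, pol, ih]

/-- TARGET -/
theorem specPT (h : SpecNaive) : SpecPT := by
  obtain ⟨q, C, hq⟩ := h
  refine ⟨ptP q, C + 200, ?_⟩
  intro F _ _ w G n hw hG hn
  have hone : pol (fit G.length (0 : F) [1]) = 1 := by
    obtain ⟨m, hm⟩ : ∃ m, G.length = m + 1 := ⟨G.length - 1, by omega⟩
    rw [hm]; simp [fit, pol, pol_fit_nil]
  have hval : (ptP q).val () (w, G) = ptF q w G G.length (fit G.length (0 : F) [1]) := by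
    rw [← pt_val]
    simp [ptP, val_recD]
  have hs := pt_spec q w G (fun c hc => by
    have := hq F c w G hc (by omega)
    exact ⟨this.1, this.2.1⟩) G.length (fit G.length (0 : F) [1]) (by simp) 0 (by simp [hone])
  have hcst := pt_cost q w G (C * (G.length + 1) ^ 2) (fun c hc => by
    have := hq F c w G hc (by omega)
    exact ⟨this.1, this.2.2⟩) G.length (fit G.length (0 : F) [1]) (by simp)
  have hfit := cost_fitP (F := F) (s := []) (a := .fld) (b := .fld) () () (G, ((0 : F), [(1 : F)]))
  intro r
  have hr : r = ptF q w G G.length (fit G.length (0 : F) [1]) := hval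
  rw [hr]
  subst hG
  refine ⟨hs.1, hs.2.1, ?_, ?_⟩
  · intro j hj
    have := hs.2.2 j hj
    rwa [zero_add] at this
  · have : (ptP q).cost () () (w, G) ≤
        20 * G.length + 50 + ((C * (G.length + 1) ^ 2 + 20) * G.length + 1) := by
      simp [ptP, cost_recD] at hfit hcst ⊢
      omega
    refine this.trans ?_
    generalize G.length = m at hn
    have h1 : (m + 1) ^ 3 = (m + 1) ^ 2 * m + (m + 1) ^ 2 := by ring
    have h2 : (C + 200) * (m + 1) ^ 3 = C * (m + 1) ^ 2 * m + C * (m + 1) ^ 2 + 200 * (m + 1) ^ 3 := by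
      rw [add_mul, h1]; ring
    rw [h2]
    have h3 : m + 1 ≤ (m + 1) ^ 3 := Nat.le_self_pow (by norm_num) _
    have h4 : (C * (m + 1) ^ 2 + 20) * m = C * (m + 1) ^ 2 * m + 20 * m := by ring
    rw [h4]
    generalize C * (m + 1) ^ 2 * m = A
    generalize C * (m + 1) ^ 2 = B
    generalize (m + 1) ^ 3 = T at h3
    omega
end Pool.Agent.H330AB.JJ8
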