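import Pool.Agent.H330AB.SpecA2
set_option autoImplicit false
set_option linter.unusedSectionVars false
noncomputable section
noncomputable section
namespace Pool.Agent.H330AB.JJ9
open Polynomial Pool.Agent.H330FB

namespace J9
section P2
variable {F : Type} [Field F] [DecidableEq F]
variable {s : List (Ty × Ty)} {a b c d : Ty}

/-- running products -/
def pws (x : F) : ℕ → F → List F
  | 0, _ => []
  | n + 1, y => y :: pws x n (y * x)

theorem length_pws (x : F) (n : ℕ) (y : F) : (pws x n y).length = n := by
  induction n generalizing y with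
  | zero => rfl
  | succ n ih => simp [pws, ih]

theorem getD_pws (x : F) (n : ℕ) (y : F) (k : ℕ) (hk : k < n) :
    (pws x n y).getD k 0 = y * x ^ k := by
  induction n generalizing y k with
  | zero => omega
  | succ n ih =>
    cases k with
    | zero => simp [pws]
    | succ k =>
      have := ih (y * x) k (by omega)
      simp only [pws, List.getD_cons_succ, this]
      ring

/-- running products, input `(u, (x, y))` -/
def pwsP : Pr s (.prod (.list d) (.prod .fld .fld)) Po :=
  .recD (.comp (.pair .snd (.comp (.pair .fst (.comp (.pair .snd .fst) .mul)) .self)) .cons) .nil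

@[simp] theorem val_pwsP (v : SV F s) (x : Ty.D F (.prod (.list d) (.prod .fld .fld))) :
    (pwsP : Pr s (.prod (.list d) (.prod .fld .fld)) Po).val v x =
      pws x.2.1 (List.length x.1) x.2.2 := by
  obtain ⟨u, x, y⟩ := x
  simp only [pwsP, val_recD]
  generalize List.length u = n
  induction n generalizing y with
  | zero => simp [goV, pws]
  | succ n ih => simp [goV, pws] at ih ⊢; exact ih _

theorem cost_pwsP (v : SV F s) (k : SC F s) (x : Ty.D F (.prod (.list d) (.prod .fld .fld))) :
    (pwsP : Pr s (.prod (.list d) (.prod .fld .fld)) Po).cost v k x ≤ 20 * List.length x.1 + 2 := by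
  obtain ⟨u, x, y⟩ := x
  simp only [pwsP, cost_recD]
  generalize List.length u = n
  induction n generalizing y with
  | zero => simp [goC]
  | succ n ih => have := ih (y * x); simp [goC] at this ⊢; omega

/-- one row -/
def prowP : Pr s (.prod Un .fld) Po :=
  .comp (.pair .fst (.comp (.comp .snd .inv) (.pair .id .id))) pwsP

@[simp] theorem val_prowP (v : SV F s) (x : Ty.D F (.prod Un .fld)) :
    (prowP : Pr s (.prod Un .fld) Po).val v x =
      pws ((x.2 : F)⁻¹) (List.length x.1) ((x.2 : F)⁻¹) := by
  simp [prowP]

theorem cost_prowP (v : SV F s) (k : SC F s) (x : Ty.D F (.prod Un .fld)) :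
    (prowP : Pr s (.prod Un .fld) Po).cost v k x ≤ 20 * List.length x.1 + 9 := by
  have h := cost_pwsP (s := s) (F := F) (d := .unit) v k (x.1, (((x.2 : F)⁻¹, (x.2 : F)⁻¹)))
  simp [prowP] at h ⊢
  omega

/-- negation of all entries of a row -/
def nrowP : Pr s (.prod .unit Po) Po := mapP (c := .unit) (.comp .snd .neg)

theorem val_nrowP (v : SV F s) (x : Ty.D F (.prod .unit Po)) :
    (nrowP : Pr s (.prod .unit Po) Po).val v x = List.map (fun y : F => -y) x.2 := by
  simp [nrowP]

theorem cost_nrowP (v : SV F s) (k : SC F s) (x : Ty.D F (.prod .unit Po)) :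
    (nrowP : Pr s (.prod .unit Po) Po).cost v k x ≤ 15 * List.length x.2 + 5 := by
  have h := cost_mapP_le (s := s) (F := F) (c := .unit) (a := .fld) (b := .fld)
    (.comp .snd .neg) v k x 2 (fun y _ => by simp)
  simp only [nrowP] at h ⊢
  omega

theorem transp_eq (n : ℕ) (gs : List (List F)) (h : Sh n gs) :
    transp n gs = (List.range n).map (fun i => gs.map (fun g => g.getD i 0)) := by
  induction gs with
  | nil =>
    simp only [transp, List.foldr_nil, List.map_nil]
    apply List.ext_getElem <;> simp
  | cons g gs ih =>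
    have h1 := ih (fun r hr => h r (List.mem_cons_of_mem _ hr))
    have h2 : g.length = n := h g List.mem_cons_self
    have h3 : transp n (g :: gs) = List.zipWith (fun x l => x :: l) g (transp n gs) := rfl
    rw [h3, h1]
    apply List.ext_getElem
    · simp [h2]
    · intro i hi1 hi2
      have hi : i < g.length := by simp at hi1; omega
      simp only [List.getElem_zipWith, List.getElem_map, List.getElem_range, List.map_cons]
      rw [List.getD_eq_getElem _ _ hi]

end P2

theorem vv_le (N : ℕ) (hN : 1 ≤ N) : vv (Nat.clog 2 N) ≤ 5 * N ^ 2 := by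
  unfold vv
  have h1 : 2 ^ Nat.clog 2 N ≤ 2 * N := by
    rcases Nat.lt_or_ge 1 N with h | h
    · have h2 := Nat.pow_pred_clog_lt_self (b := 2) (by norm_num) h
      have h3 : 0 < Nat.clog 2 N := Nat.clog_pos (by norm_num) h
      obtain ⟨m, hm⟩ : ∃ m, Nat.clog 2 N = m + 1 := ⟨Nat.clog 2 N - 1, by omega⟩
      rw [hm] at h2 ⊢
      rw [Nat.pred_succ] at h2
      rw [pow_succ]
      omega
    · have : N = 1 := by omega
      subst this
      simp
  have h2 : 7 ^ Nat.clog 2 N / 2 ^ Nat.clog 2 N ≤ (2 ^ Nat.clog 2 N) ^ 2 := by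
    apply Nat.div_le_of_le_mul
    calc 7 ^ Nat.clog 2 N ≤ 8 ^ Nat.clog 2 N := Nat.pow_le_pow_left (by norm_num) _
      _ = 2 ^ Nat.clog 2 N * (2 ^ Nat.clog 2 N) ^ 2 := by
          rw [show (8 : ℕ) = 2 * 2 ^ 2 by norm_num, mul_pow, ← pow_mul, ← pow_mul, mul_comm 2 _]
  have h3 : (2 ^ Nat.clog 2 N) ^ 2 ≤ (2 * N) ^ 2 := Nat.pow_le_pow_left h1 2
  nlinarith

theorem d1 (s n S : ℕ) (h1 : s + 1 ≤ S) (h2 : n + 1 ≤ S) :
    (20 * s + 9 + 13) * n + 5 ≤ 27 * (S * S) := by
  have h3 : (s + 1) * (n + 1) ≤ S * S := Nat.mul_le_mul h1 h2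
  nlinarith [Nat.zero_le (s * n)]

theorem d2 (n g S : ℕ) (h1 : n + 1 ≤ S) (h2 : g + 1 ≤ S) :
    (51 * n + 90) * (g + 1) ≤ 141 * (S * S) := by
  have h3 : (n + 1) * (g + 1) ≤ S * S := Nat.mul_le_mul h1 h2
  nlinarith [Nat.zero_le (n * g)]

theorem d3 (s n S : ℕ) (h1 : s + 1 ≤ S) (h2 : n + 1 ≤ S) :
    (15 * s + 5 + 13) * n + 5 ≤ 23 * (S * S) := by
  have h3 : (s + 1) * (n + 1) ≤ S * S := Nat.mul_le_mul h1 h2
  nlinarith [Nat.zero_le (s * n)]

end J9

open J9 in
/-- series with poles -/
theorem specYs (h : SpecMM) : SpecYs := by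
  obtain ⟨q0, C0, hq0⟩ := h
  refine ⟨.comp (.pair .star
    (.comp (.pair .fst
      (.pair
        (.comp (.pair (.comp .snd .fst) (.comp .snd (.comp .snd .snd))) transpP)
        (.comp (.pair .fst (.comp .snd (.comp .snd .fst)))
          (mapP (c := Un) prowP)))) q0))
    (mapP (c := .unit) nrowP), 5 * C0 + 1000, ?_⟩
  intro F _ _ s n as gs hS hl
  have hls : (un s).length = s := by simp [un]
  have hln : (un n).length = n := by simp [un]
  set B : List (List F) := as.map (fun a => pws (a⁻¹) s (a⁻¹)) with hBdef
  have hBl : B.length = as.length := by simp [hBdef]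
  have hBS : Sh s B := by
    intro r hr
    obtain ⟨x, _, rfl⟩ := List.mem_map.1 hr
    exact length_pws _ _ _
  have hT := transp_eq n gs hS
  have hTl : (transp n gs).length = n := by rw [hT]; simp
  have hTS : Sh B.length (transp n gs) := by
    intro r hr
    rw [hT] at hr
    obtain ⟨i, _, rfl⟩ := List.mem_map.1 hr
    rw [hBl, List.length_map, hl]
  obtain ⟨hval, hcost⟩ := hq0 F s (transp n gs) B hTS hBS
  have hBv : (mapP (s := []) (c := Un) (a := .fld) (b := Po) prowP).val (F := F) () (un s, as) = B := by
    rw [val_mapP, hBdef]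
    apply List.map_congr_left
    intro x _
    simp only [val_prowP]
    change pws x⁻¹ (un s).length x⁻¹ = _
    rw [hls]
  have hTv : (transpP (s := []) (a := .fld) (b := .unit)).val (F := F) () (un n, gs) = transp n gs := by
    rw [val_transpP]
    change transp (un n).length gs = _
    rw [hln]
  constructor
  · simp only [val_comp, val_pair, val_fst, val_snd, val_star, hBv, hTv, val_mapP, hval, val_nrowP]
    unfold mmul
    rw [hT, List.map_map, List.map_map]
    apply List.map_congr_left
    intro i _
    simp only [Function.comp_apply, List.map_map]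
    apply List.map_congr_left
    intro k hk
    have hk' : k < s := List.mem_range.1 hk
    simp only [Function.comp_apply]
    have e1 : List.zipWith (fun x y => x * y.getD k 0) (List.map (fun g => g.getD i 0) gs) B =
        List.zipWith (fun a g => g.getD i 0 * a⁻¹ ^ (k + 1)) as gs := by
      rw [hBdef, List.zipWith_map, List.zipWith_comm]
      congr 1
      funext x y
      rw [getD_pws _ _ _ _ hk', pow_succ']
    rw [e1]
  · have hrow : ∀ a ∈ as, (prowP (s := [])).cost (F := F) () () (un s, a) ≤ 20 * s + 9 := by
      intro a _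
      have := cost_prowP (F := F) (s := []) () () (un s, a)
      simp only [hls] at this
      exact this
    have c1 := cost_mapP_le (s := []) (F := F) (c := Un) (a := .fld) (b := Po) prowP () ()
      (un s, as) (20 * s + 9) hrow
    have c2 := cost_transpP (s := []) (F := F) (a := .fld) (b := .unit) () () (un n, gs)
      (by intro r hr; change r.length = (un n).length; rw [hln]; exact hS r hr)
    simp only [hln] at c2
    have hlm : (mmul s (transp n gs) B).length = n := by simp [mmul, hTl]
    have hlr : ∀ r ∈ mmul s (transp n gs) B, r.length = s := by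
      intro r hr
      obtain ⟨x, _, rfl⟩ := List.mem_map.1 hr
      simp
    have c3 := cost_mapP_le (s := []) (F := F) (c := .unit) (a := Po) (b := Po)
      nrowP () () ((), mmul s (transp n gs) B)
      (15 * s + 5) (by
        intro r hr
        have c4 := cost_nrowP (F := F) (s := []) () () ((), r)
        have : List.length r = s := hlr r hr
        simp only [this] at c4
        exact c4)
    simp only [hlm] at c3
    simp only [cost_comp, cost_pair, cost_fst, cost_snd, cost_star, val_comp, val_pair, val_fst,
      val_snd, val_star, hBv, hTv, hval]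
    -- units
    generalize hS' : n + s + as.length + 1 = S
    have c5 : q0.cost () () (un s, (transp n gs, B)) ≤ C0 * (5 * S ^ 3) := by
      refine hcost.trans ?_
      rw [hTl, hBl]
      have e1 : n + as.length + s + 1 = S := by omega
      rw [e1, mul_assoc]
      apply Nat.mul_le_mul_left
      have e2 := vv_le (as.length + s + 1) (by omega)
      have e3 : (as.length + s + 1) ^ 2 ≤ S ^ 2 := Nat.pow_le_pow_left (by omega) 2
      calc S * vv (Nat.clog 2 (as.length + s + 1)) ≤ S * (5 * S ^ 2) := by
            apply Nat.mul_le_mul_left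
            omega
        _ = 5 * S ^ 3 := by ring
    have d1' := J9.d1 s as.length S (by omega) (by omega)
    have d2' := J9.d2 n gs.length S (by omega) (by omega)
    have d3' := J9.d3 s n S (by omega) (by omega)
    have hSpos : 1 ≤ S := by omega
    have hSS : S * S ≤ S ^ 3 := by
      calc S * S = S * S * 1 := by ring
        _ ≤ S * S * S := Nat.mul_le_mul_left _ hSpos
        _ = S ^ 3 := by ring
    have hS3 : 1 ≤ S ^ 3 := Nat.one_le_pow _ _ hSpos
    have e7 : (5 * C0 + 1000) * S ^ 3 = C0 * (5 * S ^ 3) + 1000 * S ^ 3 := by ring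
    rw [e7]
    change (mapP (s := []) (c := Un) prowP).cost () () (un s, as) ≤ (20 * s + 9 + 13) * List.length as + 5 at c1
    omega

end Pool.Agent.H330AB.JJ9
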