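import Pool.Agent.H330AB.StmtsA
set_option autoImplicit false
noncomputable section
namespace Pool.Agent.H330AB.JR1
open Polynomial Pool.Agent.H330FB

/-- a perturbation of the identity matrix is invertible for some nonzero parameter -/
theorem r1_det {k : Type} [Field k] [Infinite k] {m : ℕ} (M : Matrix (Fin m) (Fin m) k) :
    ∃ ε : k, ε ≠ 0 ∧ (1 + ε • M).det ≠ 0 := by
  let P : Matrix (Fin m) (Fin m) k[X] := 1 + (X : k[X]) • M.map (C : k →+* k[X])
  have hev : ∀ ε : k, (P.det).eval ε = (1 + ε • M).det := by
    intro ε
    have h1 : (evalRingHom ε) P.det = (P.map (evalRingHom ε)).det := RingHom.map_det _ _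
    rw [coe_evalRingHom] at h1
    rw [h1]
    congr 1
    ext i j
    simp [P, Matrix.one_apply, apply_ite (eval ε)]
    exact mul_comm _ _
  have hne : P.det ≠ 0 := by
    intro h0
    have h1 := hev 0
    rw [h0, zero_smul, add_zero, Matrix.det_one, eval_zero] at h1
    exact zero_ne_one h1
  by_contra hcon
  push Not at hcon
  have h2 : (X : k[X]) * P.det = 0 := by
    refine Polynomial.funext fun ε => ?_
    rw [eval_mul, eval_X, eval_zero, hev]
    by_cases hε : ε = 0
    · rw [hε, zero_mul]
    · rw [hcon ε hε, mul_zero]
  exact (mul_ne_zero X_ne_zero hne) h2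

/-- TARGET -/
theorem tan : StmtTan := by
  intro k _ _ V W Z _ _ _ _ _ _ _ β v0 hmax w0 hw0 v
  by_contra hz
  set A := β v0 with hA
  set B := β v with hB
  set r := Module.finrank k (LinearMap.range A) with hr
  let b := Module.finBasis k (LinearMap.range A)
  have hb : ∀ i, ∃ w, A w = (b i : Z) := fun i => (b i).2
  choose w hw using hb
  -- the independent family at zero
  let u : Fin (r + 1) → Z := Fin.cons (B w0) (fun i => (b i : Z))
  have hspan : Submodule.span k (Set.range (fun i => (b i : Z))) = LinearMap.range A := by
    have h1 : Set.range (fun i => (b i : Z)) = (LinearMap.range A).subtype '' Set.range b := by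
      rw [← Set.range_comp]
      rfl
    rw [h1, ← Submodule.map_span, b.span_eq, Submodule.map_top, Submodule.range_subtype]
  have hu : LinearIndependent k u := by
    rw [linearIndependent_finCons]
    refine ⟨?_, ?_⟩
    · exact b.linearIndependent.map' (LinearMap.range A).subtype (Submodule.ker_subtype _)
    · rw [hspan]
      exact hz
  -- coordinates
  have hinj : LinearMap.ker (Fintype.linearCombination k u) = ⊥ :=
    LinearMap.ker_eq_bot.2 hu.fintypeLinearCombination_injective
  obtain ⟨g, hg⟩ := LinearMap.exists_leftInverse_of_injective (Fintype.linearCombination k u) hinj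
  have hgu : ∀ i, g (u i) = Pi.single i 1 := by
    intro i
    have h1 := LinearMap.congr_fun hg (Pi.single i 1)
    rw [LinearMap.comp_apply, Fintype.linearCombination_apply_single, one_smul, LinearMap.id_apply] at h1
    exact h1
  let q : Fin (r + 1) → Z := Fin.cons 0 (fun i => B (w i))
  let M : Matrix (Fin (r + 1)) (Fin (r + 1)) k := Matrix.of fun i => g (q i)
  obtain ⟨ε, hε, hdet⟩ := r1_det M
  have hli : LinearIndependent k (fun i => u i + ε • q i) := by
    have h1 : LinearIndependent k (fun i => (1 + ε • M) i) := Matrix.linearIndependent_rows_of_det_ne_zero hdet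
    refine LinearIndependent.of_comp g ?_
    have h2 : (⇑g ∘ fun i => u i + ε • q i) = fun i => (1 + ε • M) i := by
      funext i
      show g (u i + ε • q i) = (1 + ε • M) i
      rw [map_add, map_smul, hgu]
      funext j
      show (Pi.single i (1 : k) : Fin (r + 1) → k) j + ε • g (q i) j = (1 + ε • M) i j
      rw [Matrix.add_apply, Matrix.smul_apply, Matrix.one_apply, Pi.single_apply]
      by_cases hij : i = j
      · rw [if_pos hij.symm, if_pos hij]
        rfl
      · rw [if_neg (fun h => hij h.symm), if_neg hij]
        rfl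
    rw [h2]
    exact h1
  have hD : β (v0 + ε • v) = A + ε • B := by rw [map_add, map_smul]
  have hmem : ∀ i, u i + ε • q i ∈ LinearMap.range (β (v0 + ε • v)) := by
    rw [hD]
    intro i
    refine Fin.cases ?_ (fun i => ?_) i
    · refine ⟨ε⁻¹ • w0, ?_⟩
      show (A + ε • B) (ε⁻¹ • w0) = B w0 + ε • (0 : Z)
      rw [LinearMap.add_apply, LinearMap.smul_apply, map_smul, map_smul, hw0, smul_zero, smul_zero, zero_add,
        add_zero, smul_smul, mul_inv_cancel₀ hε, one_smul]
    · refine ⟨w i, ?_⟩
      show (A + ε • B) (w i) = (b i : Z) + ε • B (w i)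
      rw [LinearMap.add_apply, LinearMap.smul_apply, hw]
  have hrank : r + 1 ≤ Module.finrank k (LinearMap.range (β (v0 + ε • v))) := by
    have h1 : Submodule.span k (Set.range fun i => u i + ε • q i) ≤ LinearMap.range (β (v0 + ε • v)) := by
      rw [Submodule.span_le]
      rintro x ⟨i, rfl⟩
      exact hmem i
    have h2 := Submodule.finrank_mono h1
    rw [finrank_span_eq_card hli, Fintype.card_fin] at h2
    exact h2
  have h3 := LinearMap.finrank_range_add_finrank_ker (β (v0 + ε • v))
  have h4 := LinearMap.finrank_range_add_finrank_ker A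
  have h5 := hmax (v0 + ε • v)
  omega
end Pool.Agent.H330AB.JR1
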