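import Pool.Agent.H330AB.StmtsA
set_option autoImplicit false
noncomputable section
namespace Pool.Agent.H330AB.JR10
open Polynomial Pool.Agent.H330FB
/- Apply StmtFewBad. The separability of S over RatFunc k: S = ∏ (x - φ_i) over k[[t]] with distinct φ_i, so S and S' are coprime over the field of
fractions of k[[t]] (LaurentSeries or FractionRing), hence over RatFunc k (coprimality descends along field extensions; or: the resultant /discriminant is nonzero;
or: if P ∣ S and P ∣ S' over RatFunc k, clear denominators). C D = A S + B S' can be evaluated at t = a. -/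

theorem sep_rat (k : Type) [Field k] (n : ℕ) (S : k[X][X]) (φ : Fin n → PowerSeries k)
    (hR : Rts S φ) : (S.map (algebraMap k[X] (RatFunc k))).Separable := by
  have hinj : Function.Injective (algebraMap (PowerSeries k) (FractionRing (PowerSeries k))) :=
    IsFractionRing.injective _ _
  have hg : Function.Injective ((algebraMap (PowerSeries k) (FractionRing (PowerSeries k))).comp
      (Polynomial.coeToPowerSeries.ringHom (R := k))) := by
    intro x y hxy
    apply Polynomial.coe_injective
    exact hinj hxy
  have hcomp : (IsFractionRing.lift (K := RatFunc k) hg).comp (algebraMap k[X] (RatFunc k)) =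
      (algebraMap (PowerSeries k) (FractionRing (PowerSeries k))).comp
      (Polynomial.coeToPowerSeries.ringHom (R := k)) := by
    refine RingHom.ext fun x => ?_
    rw [RingHom.comp_apply, IsFractionRing.lift_algebraMap]
  rw [← Polynomial.separable_map (IsFractionRing.lift (K := RatFunc k) hg), Polynomial.map_map,
    hcomp, ← Polynomial.map_map, hR.prod, Polynomial.map_prod]
  simp only [Polynomial.map_sub, Polynomial.map_X, Polynomial.map_C]
  rw [Polynomial.separable_prod_X_sub_C_iff]
  intro i j hij
  apply hR.inj
  have := hinj hij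
  simp only [this]

/-- TARGET -/
theorem badFib (h : StmtFewBad) : StmtBadFib := by
  intro k _ n S φ hR
  obtain ⟨δ, A, B, hδ, hdeg, hAB⟩ := h k S n hR.monic hR.deg hR.pos hR.td (sep_rat k n S φ hR)
  refine ⟨δ, hδ, hdeg, fun a ha => ?_⟩
  have h1 := congrArg (Polynomial.map (evalRingHom a)) hAB
  simp only [Polynomial.map_add, Polynomial.map_mul, Polynomial.map_C, coe_evalRingHom,
    ← Polynomial.derivative_map] at h1
  refine ⟨C (δ.eval a)⁻¹ * A.map (evalRingHom a), C (δ.eval a)⁻¹ * B.map (evalRingHom a), ?_⟩
  unfold fb
  have h2 : C (δ.eval a)⁻¹ * C (δ.eval a) = (1 : k[X]) := by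
    rw [← C_mul, inv_mul_cancel₀ ha, C_1]
  rw [← h2, h1]
  ring
end Pool.Agent.H330AB.JR10
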