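import Pool.Agent.H330AB.StmtsA
set_option autoImplicit false
noncomputable section
namespace Pool.Agent.H330AB.JR11
open Polynomial Pool.Agent.H330FB

section total
variable (k : Type) [Field k]

/-- homogenization: `t ↦ t z` -/
noncomputable def gpPsi0 : k[X] →+* k[X][X][X] :=
  eval₂RingHom ((C : k[X][X] →+* k[X][X][X]).comp ((C : k[X] →+* k[X][X]).comp (C : k →+* k[X])))
    ((C (C X) : k[X][X][X]) * X)

/-- homogenization: `x ↦ x z`, `t ↦ t z` -/
noncomputable def gpPsi : k[X][X] →+* k[X][X][X] := eval₂RingHom (gpPsi0 k) ((C X : k[X][X][X]) * X)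

theorem gpPsi_monomial (i0 j0 : ℕ) (c : k) :
    gpPsi k (monomial i0 (monomial j0 c)) = C (C (C c * X ^ j0) * X ^ i0) * X ^ (i0 + j0) := by
  simp only [gpPsi, gpPsi0, coe_eval₂RingHom, eval₂_monomial, RingHom.comp_apply, map_mul, map_pow, pow_add]
  ring

theorem gpPsi_coeff (f : k[X][X]) (m i j : ℕ) :
    (((gpPsi k f).coeff m).coeff i).coeff j = if i + j = m then (f.coeff i).coeff j else 0 := by
  induction f using Polynomial.induction_on' with
  | add p q hp hq =>
    rw [map_add, coeff_add, coeff_add, coeff_add, hp, hq, coeff_add, coeff_add]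
    split_ifs <;> simp
  | monomial i0 q =>
    induction q using Polynomial.induction_on' with
    | add p q hp hq =>
      rw [map_add (monomial i0), map_add, coeff_add, coeff_add, coeff_add, hp, hq, coeff_add, coeff_add]
      split_ifs <;> simp
    | monomial j0 c =>
      rw [gpPsi_monomial, coeff_C_mul_X_pow]
      by_cases h1 : m = i0 + j0
      · rw [if_pos h1, coeff_C_mul_X_pow]
        by_cases h2 : i = i0
        · rw [if_pos h2, coeff_C_mul_X_pow, h2, coeff_monomial, if_pos rfl, coeff_monomial]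
          by_cases h3 : j = j0
          · rw [if_pos h3, if_pos (by omega), if_pos h3.symm]
          · rw [if_neg h3, if_neg (by omega)]
        · rw [if_neg h2, coeff_zero, coeff_monomial, if_neg (Ne.symm h2), coeff_zero, ite_self]
      · rw [if_neg h1, coeff_zero, coeff_zero]
        split_ifs with h2
        · rw [coeff_monomial]
          split_ifs with h3
          · rw [coeff_monomial, if_neg (by omega)]
          · rw [coeff_zero]
        · rfl

theorem gpPsi_inj {f : k[X][X]} (h : gpPsi k f = 0) : f = 0 := by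
  ext i j
  have := gpPsi_coeff k f (i + j) i j
  rw [h, if_pos rfl] at this
  simpa using this.symm

theorem gpPsi_degree_le {f : k[X][X]} {n : ℕ} (h : TD f n) : (gpPsi k f).degree ≤ n := by
  rw [degree_le_iff_coeff_zero]
  intro N hN
  have hN' : n < N := by exact_mod_cast hN
  ext i j
  rw [gpPsi_coeff]
  split_ifs with h1
  · rw [h i j (by omega)]
    simp
  · simp

theorem gpPsi_td {f : k[X][X]} {n : ℕ} (h : (gpPsi k f).degree ≤ n) : TD f n := by
  intro i j hij
  have h1 : (gpPsi k f).coeff (i + j) = 0 :=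
    coeff_eq_zero_of_degree_lt (lt_of_le_of_lt h (by exact_mod_cast hij))
  have := gpPsi_coeff k f (i + j) i j
  rw [h1, if_pos rfl] at this
  simpa using this.symm

theorem gp_td_mul {f g : k[X][X]} {a b : ℕ} (hf : TD f a) (hg : TD g b) : TD (f * g) (a + b) := by
  refine gpPsi_td k ?_
  rw [map_mul]
  refine (degree_mul_le _ _).trans ?_
  push_cast
  exact add_le_add (gpPsi_degree_le k hf) (gpPsi_degree_le k hg)

theorem gpPsi_derivative {f : k[X][X]} (hf : f ≠ 0) :
    (gpPsi k (derivative f)).degree < (gpPsi k f).degree := by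
  have h0 : gpPsi k f ≠ 0 := fun h => hf (gpPsi_inj k h)
  rw [degree_eq_natDegree h0, degree_lt_iff_coeff_zero]
  intro N hN
  ext i j
  rw [gpPsi_coeff]
  split_ifs with h1
  · have h2 : (gpPsi k f).coeff (i + 1 + j) = 0 := coeff_eq_zero_of_natDegree_lt (by omega)
    have h3 := gpPsi_coeff k f (i + 1 + j) (i + 1) j
    rw [h2, if_pos rfl] at h3
    have h4 : (f.coeff (i + 1)).coeff j = 0 := by simpa using h3.symm
    rw [coeff_derivative]
    have h5 : ((i : k[X]) + 1) = ((i + 1 : ℕ) : k[X]) := by push_cast; ring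
    rw [h5, coeff_mul_natCast, h4]
    simp
  · simp

theorem gpPsi_smul (c : k) (f : k[X][X]) : (gpPsi k (C (C c) * f)).degree ≤ (gpPsi k f).degree := by
  have h : gpPsi k (C (C c)) = C (C (C c)) := by
    simp [gpPsi, gpPsi0]
  rw [map_mul, h]
  refine (degree_mul_le _ _).trans ?_
  calc (C (C (C c)) : k[X][X][X]).degree + (gpPsi k f).degree ≤ 0 + (gpPsi k f).degree := by
        gcongr
        exact degree_C_le
    _ = _ := zero_add _

end total

section lagrange
variable {k : Type} [Field k]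

theorem gp_ev_mul (φ : PowerSeries k) (f g : k[X][X]) : ev φ (f * g) = ev φ f * ev φ g := eval₂_mul _ _

theorem gp_ev_add (φ : PowerSeries k) (f g : k[X][X]) : ev φ (f + g) = ev φ f + ev φ g := eval₂_add _ _

theorem gp_ev_map (φ : PowerSeries k) (f : k[X][X]) :
    ev φ f = (f.map Polynomial.coeToPowerSeries.ringHom).eval φ := by
  rw [ev, eval_map]

theorem gp_ev_C (φ : PowerSeries k) (q : k[X]) : ev φ (C q) = (q : PowerSeries k) := eval₂_C _ _

variable {n : ℕ} {S : k[X][X]} {φ : Fin n → PowerSeries k}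

theorem gp_phi_inj (h : Rts S φ) : Function.Injective φ := by
  intro i j hij
  apply h.inj
  show PowerSeries.constantCoeff (φ i) = PowerSeries.constantCoeff (φ j)
  rw [hij]

theorem gp_ev_S (h : Rts S φ) (i : Fin n) : ev (φ i) S = 0 := by
  rw [gp_ev_map, h.prod, eval_prod]
  exact Finset.prod_eq_zero (Finset.mem_univ i) (by simp)

theorem gp_ev_dS (h : Rts S φ) (i : Fin n) :
    ev (φ i) (derivative S) = ∏ j ∈ Finset.univ.erase i, (φ i - φ j) := by
  rw [gp_ev_map, ← derivative_map, h.prod, derivative_prod_finset, eval_finsetSum,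
    Finset.sum_eq_single i]
  · simp [eval_prod]
  · intro j _ hj
    rw [eval_mul, eval_prod, Finset.prod_eq_zero (i := i), zero_mul]
    · exact Finset.mem_erase.2 ⟨Ne.symm hj, Finset.mem_univ i⟩
    · simp
  · intro h
    exact absurd (Finset.mem_univ i) h

theorem gp_ev_mod (h : Rts S φ) (i : Fin n) (f : k[X][X]) : ev (φ i) (f %ₘ S) = ev (φ i) f := by
  conv_rhs => rw [← modByMonic_add_div f S]
  rw [gp_ev_add, gp_ev_mul, gp_ev_S h, zero_mul, add_zero]

theorem gp_trace (h : Rts S φ) (l : Fin n → k) (U c : k[X][X])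
    (hU : ∀ i, ev (φ i) U = PowerSeries.C (l i) * ev (φ i) (derivative S)) :
    ∑ i, PowerSeries.C (l i) * ev (φ i) c = ((lam S (c * U) : k[X]) : PowerSeries k) := by
  classical
  have hcard : ∀ i : Fin n, (Finset.univ.erase i).card = n - 1 := by
    intro i
    rw [Finset.card_erase_of_mem (Finset.mem_univ i), Finset.card_univ, Fintype.card_fin]
  have hmon : ∀ i : Fin n, (∏ j ∈ Finset.univ.erase i, (X - C (φ j))).Monic := fun i =>
    monic_prod_of_monic _ _ fun j _ => monic_X_sub_C _
  have hnat : ∀ i : Fin n, (∏ j ∈ Finset.univ.erase i, (X - C (φ j))).natDegree = n - 1 := by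
    intro i
    rw [natDegree_prod_of_monic _ _ fun j _ => monic_X_sub_C _]
    simp [hcard]
  set r : (PowerSeries k)[X] := ((c * U) %ₘ S).map Polynomial.coeToPowerSeries.ringHom with hr
  set r2 : (PowerSeries k)[X] := ∑ i, C (PowerSeries.C (l i) * ev (φ i) c) *
    ∏ j ∈ Finset.univ.erase i, (X - C (φ j)) with hr2
  have hn := h.pos
  have heq : r = r2 := by
    refine eq_of_degrees_lt_of_eval_index_eq Finset.univ (v := φ) (gp_phi_inj h).injOn ?_ ?_ ?_
    · rw [Finset.card_univ, Fintype.card_fin]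
      refine (degree_map_le).trans_lt ?_
      have := degree_modByMonic_lt (c * U) h.monic
      rwa [degree_eq_natDegree h.monic.ne_zero, h.deg] at this
    · rw [Finset.card_univ, Fintype.card_fin, hr2, ← mem_degreeLT]
      refine Submodule.sum_mem _ fun i _ => ?_
      rw [mem_degreeLT]
      refine (degree_mul_le _ _).trans_lt ?_
      have h1 : (∏ j ∈ Finset.univ.erase i, (X - C (φ j))).degree = ((n - 1 : ℕ) : WithBot ℕ) := by
        rw [degree_eq_natDegree (hmon i).ne_zero, hnat]
      rw [h1]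
      calc (C (PowerSeries.C (l i) * ev (φ i) c)).degree + ((n - 1 : ℕ) : WithBot ℕ)
          ≤ 0 + ((n - 1 : ℕ) : WithBot ℕ) := by
            gcongr
            exact degree_C_le
        _ < (n : WithBot ℕ) := by
            rw [zero_add]
            exact_mod_cast (by omega : n - 1 < n)
    · intro m _
      rw [hr, ← gp_ev_map, gp_ev_mod h, gp_ev_mul, hU m, gp_ev_dS h, hr2, eval_finsetSum,
        Finset.sum_eq_single m]
      · rw [eval_mul, eval_C, eval_prod]
        simp only [eval_sub, eval_X, eval_C]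
        ring
      · intro j _ hj
        rw [eval_mul, eval_prod, Finset.prod_eq_zero (i := m), mul_zero]
        · exact Finset.mem_erase.2 ⟨Ne.symm hj, Finset.mem_univ m⟩
        · simp
      · intro h
        exact absurd (Finset.mem_univ m) h
  have h1 : r.coeff (n - 1) = ((lam S (c * U) : k[X]) : PowerSeries k) := by
    rw [hr, coeff_map, lam, h.deg]
    rfl
  rw [← h1, heq, hr2, finsetSum_coeff]
  refine Finset.sum_congr rfl fun i _ => ?_
  rw [coeff_C_mul]
  have h2 := (hmon i).coeff_natDegree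
  rw [hnat] at h2
  rw [h2, mul_one]

end lagrange

section eqs
variable {k : Type} [Field k]

theorem gp_gp_coeff {n : ℕ} (g : Fin n → k) (i : ℕ) :
    (gp g).coeff i = if h : i < n then g ⟨i, h⟩ else 0 := by
  unfold gp
  rw [finsetSum_coeff]
  simp only [coeff_C_mul_X_pow]
  split_ifs with h
  · rw [Finset.sum_eq_single (⟨i, h⟩ : Fin n)]
    · simp
    · intro j _ hj
      rw [if_neg]
      intro h2
      exact hj (Fin.ext h2.symm)
    · simp
  · refine Finset.sum_eq_zero fun j _ => ?_
    rw [if_neg]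
    have := j.2
    omega

theorem gp_td_bpol {n : ℕ} (G : Fin n → Fin n → k) : TD (bpol G) (2 * n - 2) := by
  intro i' j' hij
  unfold bpol
  rw [finsetSum_coeff, finsetSum_coeff]
  refine Finset.sum_eq_zero fun i _ => ?_
  rw [coeff_C_mul_X_pow]
  split_ifs with h
  · rw [finsetSum_coeff]
    refine Finset.sum_eq_zero fun j _ => ?_
    rw [coeff_C_mul_X_pow, if_neg]
    have h1 := i.2
    have h2 := j.2
    omega
  · rw [coeff_zero]

theorem gp_td_gp {n : ℕ} (g : Fin n → k) : TD ((gp g).map (C : k →+* k[X])) (n - 1) := by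
  intro i j hij
  rw [coeff_map, coeff_C]
  split_ifs with h
  · rw [gp_gp_coeff, dif_neg (by omega)]
  · rfl

theorem gp_ser {a : k} (ha : a ≠ 0) (L : k[X]) (m : ℕ) (hL : L.natDegree ≤ m) :
    PowerSeries.coeff m ((L : PowerSeries k) * ser a) = L.eval a * PowerSeries.coeff m (ser a) := by
  rw [PowerSeries.coeff_mul, Finset.Nat.sum_antidiagonal_eq_sum_range_succ
    (fun i j => PowerSeries.coeff i (L : PowerSeries k) * PowerSeries.coeff j (ser a)) m,
    eval_eq_sum_range' (Nat.lt_succ_of_le hL), Finset.sum_mul]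
  refine Finset.sum_congr rfl fun i hi => ?_
  have hi' : i ≤ m := Nat.lt_succ_iff.1 (Finset.mem_range.1 hi)
  rw [Polynomial.coeff_coe, ser, PowerSeries.coeff_mk, PowerSeries.coeff_mk]
  have e : m + 1 = (m - i + 1) + i := by omega
  rw [e, pow_add, mul_assoc]
  have h1 : a ^ i * (a⁻¹) ^ i = 1 := by
    rw [← mul_pow, mul_inv_cancel₀ ha, one_pow]
  linear_combination (L.coeff i * (a⁻¹) ^ (m - i + 1)) * h1

theorem gp_evg {n : ℕ} (φ : PowerSeries k) (g : Fin n → k) :
    evg φ g = ev φ ((gp g).map (C : k →+* k[X])) := by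
  rw [ev, eval₂_map, gp, eval₂_finsetSum, evg]
  refine Finset.sum_congr rfl fun i _ => ?_
  rw [eval₂_mul, eval₂_C, eval₂_pow, eval₂_X]
  congr 1
  exact (Polynomial.coe_C (g i)).symm

variable {n : ℕ} {S : k[X][X]} {φ : Fin n → PowerSeries k}

theorem gp_td_lam (hM : StmtTDMod) (h : Rts S φ) (c : k[X][X]) (K m : ℕ) (hc : TD c K) (hm : K < n - 1 + m) :
    (lam S c).coeff m = 0 := by
  have h1 := (hM k S c K h.monic (by rw [h.deg]; exact h.td) hc).1
  rw [lam, h.deg]
  exact h1 (n - 1) m hm

theorem gp_E0 (hM : StmtTDMod) (h : Rts S φ) (G : Fin n → Fin n → k) (l : Fin n → k) (U : k[X][X])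
    (hU : ∀ i, ev (φ i) U = PowerSeries.C (l i) * ev (φ i) (derivative S)) (hT : TD U (n - 1)) (s : ℕ) :
    E0 s φ G l := by
  intro m hm _
  rw [gp_trace h l U _ hU, Polynomial.coeff_coe]
  have := h.pos
  exact gp_td_lam hM h _ _ m (gp_td_mul k (gp_td_bpol G) hT) (by omega)

theorem gp_lam_eval (h : Rts S φ) (c : k[X][X]) (a : k) :
    (lam S c).eval a = lam (fb S a) (fb c a) := by
  have h1 : (lam S c).eval a = (evalRingHom a) ((c %ₘ S).coeff (S.natDegree - 1)) := rfl
  rw [h1, ← coeff_map, map_modByMonic _ h.monic, lam]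
  unfold fb
  rw [h.monic.natDegree_map]

theorem gp_fb_mul (f g : k[X][X]) (a : k) : fb (f * g) a = fb f a * fb g a := Polynomial.map_mul _

theorem gp_fb_add (f g : k[X][X]) (a : k) : fb (f + g) a = fb f a + fb g a := Polynomial.map_add _

theorem gp_fb_der (f : k[X][X]) (a : k) : fb (derivative f) a = derivative (fb f a) :=
  (derivative_map _ _).symm

theorem gp_fb_map (q : k[X]) (a : k) : fb (q.map (C : k →+* k[X])) a = q := by
  unfold fb
  rw [Polynomial.map_map]
  have : (evalRingHom a).comp (C : k →+* k[X]) = RingHom.id k := by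
    ext x
    simp
  rw [this, Polynomial.map_id]

theorem gp_E1 (hM : StmtTDMod) (h : Rts S φ) (a : Fin n → k) (ha : ∀ j, a j ≠ 0) (g : Fin n → Fin n → k)
    (l : Fin n → k) (U : k[X][X])
    (hU : ∀ i, ev (φ i) U = PowerSeries.C (l i) * ev (φ i) (derivative S)) (hT : TD U (n - 1)) (s : ℕ) :
    E1 s φ a g l (fun j => lam (fb S (a j)) (gp (g j) * fb U (a j))) := by
  intro m hm _
  have key : ∑ i, PowerSeries.C (l i) * yv (φ i) a g =
      ∑ j, ((lam S ((gp (g j)).map (C : k →+* k[X]) * U) : k[X]) : PowerSeries k) * ser (a j) := by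
    unfold yv
    simp only [Finset.mul_sum]
    rw [Finset.sum_comm]
    refine Finset.sum_congr rfl fun j _ => ?_
    rw [← gp_trace h l U _ hU, Finset.sum_mul]
    refine Finset.sum_congr rfl fun i _ => ?_
    rw [gp_evg, mul_assoc]
  rw [key, map_sum, map_sum]
  refine Finset.sum_congr rfl fun j _ => ?_
  have hp := h.pos
  have hdeg : (lam S ((gp (g j)).map (C : k →+* k[X]) * U)).natDegree ≤ m := by
    rw [natDegree_le_iff_coeff_eq_zero]
    intro N hN
    exact gp_td_lam hM h _ _ N (gp_td_mul k (gp_td_gp (g j)) hT) (by omega)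
  rw [gp_ser (ha j) _ m hdeg, gp_lam_eval h, gp_fb_mul, gp_fb_map, PowerSeries.coeff_C_mul]

theorem gp_tau_zero (s : ℕ) (hs : 12 * n + 20 ≤ s) (a : Fin n → k) (ha0 : ∀ j, a j ≠ 0)
    (ha : Function.Injective a) (g : Fin n → Fin n → k) (τ : Fin n → k) (h : E1 s φ a g 0 τ) : τ = 0 := by
  have hinj : Function.Injective fun j => (a j)⁻¹ := fun i j hij => ha (inv_injective hij)
  have h1 : (fun j => τ j * (a j)⁻¹ ^ n) = 0 := by
    refine Matrix.eq_zero_of_forall_pow_sum_mul_pow_eq_zero hinj fun i => ?_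
    have h2 := h (n - 1 + i) (by omega) (by have := i.2; omega)
    simp only [Pi.zero_apply, map_zero, zero_mul, Finset.sum_const_zero] at h2
    rw [map_sum] at h2
    have hn : n - 1 + (i : ℕ) + 1 = n + i := by have := i.2; omega
    have h3 : ∑ j, PowerSeries.coeff (n - 1 + (i : ℕ)) (PowerSeries.C (τ j) * ser (a j)) =
        -∑ j, τ j * (a j)⁻¹ ^ n * (a j)⁻¹ ^ (i : ℕ) := by
      rw [← Finset.sum_neg_distrib]
      refine Finset.sum_congr rfl fun j _ => ?_
      rw [PowerSeries.coeff_C_mul, ser, PowerSeries.coeff_mk, hn, pow_add]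
      ring
    rw [h3] at h2
    exact neg_eq_zero.1 h2.symm
  funext j
  have h2 := congrFun h1 j
  have h3 : (a j)⁻¹ ^ n ≠ 0 := pow_ne_zero _ (inv_ne_zero (ha0 j))
  exact (mul_eq_zero.1 h2).resolve_right h3

end eqs

section blocks
variable {k : Type} [Field k] {n : ℕ} {S : k[X][X]} {φ : Fin n → PowerSeries k}

/-- combination of residues -/
theorem gp_glue (f1 f2 u1 u2 μ μ1 μ2 : k[X]) (hc : IsCoprime f1 f2) (h1 : f1 ∣ μ - μ1) (h2 : f2 ∣ μ - μ2)
    (h3 : f1 ∣ μ1 * derivative f1 - u1) (h4 : f2 ∣ μ2 * derivative f2 - u2) :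
    f1 * f2 ∣ μ * derivative (f1 * f2) - (u1 * f2 + f1 * u2) := by
  refine hc.mul_dvd ?_ ?_
  · have e : μ * derivative (f1 * f2) - (u1 * f2 + f1 * u2) =
        (μ - μ1) * (derivative f1 * f2) + (μ1 * derivative f1 - u1) * f2 + f1 * (μ * derivative f2 - u2) := by
      rw [derivative_mul]; ring
    rw [e]
    exact dvd_add (dvd_add (h1.mul_right _) (h3.mul_right _)) (dvd_mul_right _ _)
  · have e : μ * derivative (f1 * f2) - (u1 * f2 + f1 * u2) =
        (μ - μ2) * (derivative f2 * f1) + (μ2 * derivative f2 - u2) * f1 + f2 * (μ * derivative f1 - u1) := by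
      rw [derivative_mul]; ring
    rw [e]
    exact dvd_add (dvd_add (h2.mul_right _) (h4.mul_right _)) (dvd_mul_right _ _)

/-- the polynomials with given values on the blocks -/
theorem gp_blocks (_h : Rts S φ) (l : Fin n → k) (hl : Cst S φ l) (Q : ℕ) (T : k[X][X]) :
    T ∣ S → T ≠ 0 → ∃ U U' : k[X][X], (gpPsi k U).degree < (gpPsi k T).degree ∧
      (gpPsi k U').degree < (gpPsi k T).degree ∧
      (∀ i, ev (φ i) T = 0 → ev (φ i) U = PowerSeries.C (l i) * ev (φ i) (derivative T) ∧
        ev (φ i) U' = PowerSeries.C (l i ^ Q) * ev (φ i) (derivative T)) ∧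
      ∀ a : k, IsCoprime (fb T a) (derivative (fb T a)) → ∃ ν : k[X],
        fb T a ∣ ν * derivative (fb T a) - fb U a ∧ fb T a ∣ ν ^ Q * derivative (fb T a) - fb U' a := by
  induction T using WfDvdMonoid.induction_on_irreducible with
  | zero => exact fun _ h0 => absurd rfl h0
  | unit u hu =>
    intro _ hu0
    refine ⟨0, 0, ?_, ?_, ?_, ?_⟩
    · rw [map_zero, degree_zero, bot_lt_iff_ne_bot, Ne, degree_eq_bot]
      exact fun h' => hu0 (gpPsi_inj k h')
    · rw [map_zero, degree_zero, bot_lt_iff_ne_bot, Ne, degree_eq_bot]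
      exact fun h' => hu0 (gpPsi_inj k h')
    · intro i hi
      exfalso
      obtain ⟨v, hv⟩ := hu.exists_right_inv
      have : ev (φ i) (u * v) = 0 := by rw [gp_ev_mul, hi, zero_mul]
      rw [hv, ev, eval₂_one] at this
      exact one_ne_zero this
    · intro a _
      have hua : IsUnit (fb u a) := hu.map (mapRingHom (evalRingHom a))
      exact ⟨0, hua.dvd, hua.dvd⟩
  | mul T1 P hT1 hP ih =>
    intro hdvd _
    obtain ⟨U1, U1', hd1, hd1', hv1, hr1⟩ := ih ((Dvd.intro_left P rfl).trans hdvd) hT1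
    have hPS : P ∣ S := (Dvd.intro T1 rfl).trans hdvd
    have hcst : ∃ c : k, ∀ i, ev (φ i) P = 0 → l i = c := by
      by_cases hex : ∃ i, ev (φ i) P = 0
      · obtain ⟨i0, hi0⟩ := hex
        exact ⟨l i0, fun i hi => hl i i0 ⟨P, hP, hPS, hi, hi0⟩⟩
      · exact ⟨0, fun i hi => absurd ⟨i, hi⟩ hex⟩
    obtain ⟨c, hc⟩ := hcst
    have hP0 : P ≠ 0 := hP.ne_zero
    have hΨP : gpPsi k P ≠ 0 := fun h' => hP0 (gpPsi_inj k h')
    have hΨT : gpPsi k T1 ≠ 0 := fun h' => hT1 (gpPsi_inj k h')
    have hdeg : ∀ (c : k) (V : k[X][X]), (gpPsi k V).degree < (gpPsi k T1).degree →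
        (gpPsi k (C (C c) * derivative P * T1 + P * V)).degree < (gpPsi k (P * T1)).degree := by
      intro c V hV
      rw [map_add, map_mul _ (C (C c) * derivative P), map_mul _ P V, map_mul _ P T1]
      refine (degree_add_le _ _).trans_lt (max_lt ?_ ?_)
      · rw [degree_mul, degree_mul]
        refine WithBot.add_lt_add_right (degree_ne_bot.2 hΨT) ?_
        exact (gpPsi_smul k c _).trans_lt (gpPsi_derivative k hP0)
      · rw [degree_mul, degree_mul]
        exact WithBot.add_lt_add_left (degree_ne_bot.2 hΨP) hV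
    refine ⟨C (C c) * derivative P * T1 + P * U1, C (C (c ^ Q)) * derivative P * T1 + P * U1',
      hdeg c U1 hd1, hdeg (c ^ Q) U1' hd1', ?_, ?_⟩
    · intro i hi
      rw [gp_ev_mul] at hi
      have hder : ev (φ i) (derivative (P * T1)) =
          ev (φ i) (derivative P) * ev (φ i) T1 + ev (φ i) P * ev (φ i) (derivative T1) := by
        rw [derivative_mul, gp_ev_add, gp_ev_mul, gp_ev_mul]
      have hCC : ∀ c : k, ev (φ i) (C (C c)) = PowerSeries.C c := fun c => by
        rw [gp_ev_C, Polynomial.coe_C]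
      rw [hder]
      simp only [gp_ev_add, gp_ev_mul, hCC]
      rcases mul_eq_zero.1 hi with h1 | h1
      · rw [h1, hc i h1]
        constructor <;> ring
      · obtain ⟨h2, h3⟩ := hv1 i h1
        rw [h1, h2, h3]
        constructor <;> ring
    · intro a ha
      rw [gp_fb_mul] at ha ⊢
      set f1 := fb P a with hf1
      set f2 := fb T1 a with hf2
      obtain ⟨u, v, huv⟩ := ha
      rw [derivative_mul] at huv
      have hc12 : IsCoprime f1 f2 := ⟨v * derivative f2, u * f1 + v * derivative f1, by linear_combination huv⟩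
      have hc2 : IsCoprime f2 (derivative f2) :=
        ⟨u * f1 + v * derivative f1, v * f1, by linear_combination huv⟩
      obtain ⟨ν1, hν1, hν1'⟩ := hr1 a hc2
      obtain ⟨α, β, hαβ⟩ := hc12
      have e1 : f1 ∣ (C c * (β * f2) + ν1 * (α * f1)) - C c := by
        refine ⟨ν1 * α - C c * α, ?_⟩
        linear_combination (C c) * hαβ
      have e2 : f2 ∣ (C c * (β * f2) + ν1 * (α * f1)) - ν1 := by
        refine ⟨C c * β - ν1 * β, ?_⟩
        linear_combination ν1 * hαβ
      refine ⟨C c * (β * f2) + ν1 * (α * f1), ?_, ?_⟩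
      · rw [gp_fb_add, gp_fb_mul _ T1, gp_fb_mul _ (derivative P), gp_fb_mul P U1, gp_fb_der]
        refine gp_glue f1 f2 _ _ _ (C c) ν1 ⟨α, β, hαβ⟩ e1 e2 ?_ hν1
        have : fb (C (C c)) a = C c := by simp [fb]
        rw [this, sub_self]
        exact dvd_zero _
      · rw [gp_fb_add, gp_fb_mul _ T1, gp_fb_mul _ (derivative P), gp_fb_mul P U1', gp_fb_der]
        refine gp_glue f1 f2 _ _ _ (C c ^ Q) (ν1 ^ Q) ⟨α, β, hαβ⟩ (e1.trans (sub_dvd_pow_sub_pow _ _ _))
          (e2.trans (sub_dvd_pow_sub_pow _ _ _)) ?_ hν1'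
        have : fb (C (C (c ^ Q))) a = C c ^ Q := by simp [fb]
        rw [this, sub_self]
        exact dvd_zero _

theorem gp_lam_congr {f c d : k[X]} (hf : f.Monic) (h : f ∣ c - d) : lam f c = lam f d := by
  rw [lam, lam, modByMonic_eq_of_dvd_sub hf h]

theorem gp_gq {n : ℕ} (hn : 1 ≤ n) (S : k[X][X]) (hS : S.Monic) (hd : S.natDegree = n) (Q : ℕ) (a : k)
    (g : Fin n → k) : gp (gq S Q a g) = gp g ^ Q %ₘ fb S a := by
  ext i
  rw [gp_gp_coeff]
  split_ifs with h
  · rfl
  · rw [coeff_eq_zero_of_natDegree_lt]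
    have hm : (fb S a).Monic := hS.map _
    have h1 : (fb S a).natDegree = n := by
      unfold fb
      rw [hS.natDegree_map, hd]
    have h2 := natDegree_modByMonic_lt (gp g ^ Q) hm (by
      intro h3
      rw [h3, natDegree_one] at h1
      omega)
    omega

end blocks

/-- TARGET -/
theorem goodP (hM : StmtTDMod) (hF : StmtLamFrob) : StmtGoodP := by
  intro k _ p _ _ e n s S φ G a g h hs ha
  obtain ⟨ha0, hainj, hac⟩ := ha
  refine ⟨?_, ?_⟩
  · intro l hl
    obtain ⟨U, U', hd, hd', hv, hr⟩ := gp_blocks h l hl (p ^ e) S dvd_rfl h.monic.ne_zero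
    have hU : ∀ i, ev (φ i) U = PowerSeries.C (l i) * ev (φ i) (derivative S) := fun i =>
      (hv i (gp_ev_S h i)).1
    have hU' : ∀ i, ev (φ i) U' = PowerSeries.C (l i ^ p ^ e) * ev (φ i) (derivative S) := fun i =>
      (hv i (gp_ev_S h i)).2
    have hn := h.pos
    have htd : ∀ V : k[X][X], (gpPsi k V).degree < (gpPsi k S).degree → TD V (n - 1) := by
      intro V hV
      refine gpPsi_td k ?_
      have h1 : (gpPsi k V).degree < (n : WithBot ℕ) := hV.trans_le (gpPsi_degree_le k h.td)
      rw [degree_lt_iff_coeff_zero] at h1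
      rw [degree_le_iff_coeff_zero]
      intro m hm
      have hm' : n - 1 < m := by exact_mod_cast hm
      exact h1 m (by omega)
    refine ⟨fun j => lam (fb S (a j)) (gp (g j) * fb U (a j)), ?_, ?_, ?_, ?_⟩
    · exact gp_E0 hM h G l U hU (htd U hd) s
    · exact gp_E0 hM h G _ U' hU' (htd U' hd') s
    · exact gp_E1 hM h a ha0 g l U hU (htd U hd) s
    · have h1 := gp_E1 hM h a ha0 (fun j => gq S (p ^ e) (a j) (g j)) (fun i => l i ^ p ^ e) U' hU'
        (htd U' hd') s
      have h2 : (fun j => lam (fb S (a j)) (gp (gq S (p ^ e) (a j) (g j)) * fb U' (a j))) =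
          fun j => lam (fb S (a j)) (gp (g j) * fb U (a j)) ^ p ^ e := by
        funext j
        have hm : (fb S (a j)).Monic := h.monic.map _
        obtain ⟨ν, hν, hν'⟩ := hr (a j) (hac j)
        have h3 : lam (fb S (a j)) (gp (g j) * fb U (a j)) =
            lam (fb S (a j)) ((gp (g j) * ν) * derivative (fb S (a j))) := by
          refine gp_lam_congr hm ?_
          obtain ⟨w, hw⟩ := hν
          exact ⟨-(gp (g j)) * w, by linear_combination (-(gp (g j))) * hw⟩
        rw [h3, ← hF k p e _ _ hm, gp_gq hn S h.monic h.deg]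
        refine gp_lam_congr hm ?_
        obtain ⟨w, hw⟩ := hν'
        have h4 := modByMonic_add_div (gp (g j) ^ p ^ e) (fb S (a j))
        refine ⟨-((gp (g j)) ^ p ^ e * w) - (gp (g j) ^ p ^ e /ₘ fb S (a j)) * fb U' (a j), ?_⟩
        rw [mul_pow]
        linear_combination (-((gp (g j)) ^ p ^ e)) * hw + fb U' (a j) * h4
      rw [h2] at h1
      exact h1
  · intro τ hτ
    exact gp_tau_zero s hs a ha0 hainj g τ hτ.2.2.1

end Pool.Agent.H330AB.JR11
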