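import Pool.Agent.H330AB.StmtsA
set_option autoImplicit false
noncomputable section
namespace Pool.Agent.H330AB.JR12
open Polynomial Pool.Agent.H330FB

namespace SeqAux

/-! ### counting -/

theorem card_or {α : Type} [Finite α] (p q r : α → Prop) (h : ∀ x, p x → q x ∨ r x) :
    Nat.card {x // p x} ≤ Nat.card {x // q x} + Nat.card {x // r x} := by
  classical
  have := Fintype.ofFinite α
  rw [Nat.card_eq_fintype_card, Nat.card_eq_fintype_card, Nat.card_eq_fintype_card,
    Fintype.card_subtype, Fintype.card_subtype, Fintype.card_subtype]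
  refine le_trans (Finset.card_le_card ?_) (Finset.card_union_le _ _)
  intro x hx
  simp only [Finset.mem_filter, Finset.mem_univ, true_and, Finset.mem_union] at hx ⊢
  exact h x hx

theorem card_mono {α : Type} [Finite α] (p q : α → Prop) (h : ∀ x, p x → q x) :
    Nat.card {x // p x} ≤ Nat.card {x // q x} := by
  refine Nat.card_le_card_of_injective (fun x => ⟨x.1, h x.1 x.2⟩) ?_
  intro a b hab
  have := congrArg Subtype.val hab
  exact Subtype.ext this

theorem card_poly {k : Type} [Field k] (T : Finset k) (D : k[X]) (hD : D ≠ 0) :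
    Nat.card {a : T // D.eval (a : k) = 0} ≤ D.natDegree := by
  classical
  have h : Nat.card {a : T // D.eval (a : k) = 0} ≤ Nat.card D.roots.toFinset := by
    refine Nat.card_le_card_of_injective
      (fun a => ⟨(a.1 : k), by
        rw [Multiset.mem_toFinset, Polynomial.mem_roots hD]; exact a.2⟩) ?_
    intro a b hab
    have := congrArg Subtype.val hab
    exact Subtype.ext (Subtype.ext this)
  refine h.trans ?_
  rw [Nat.card_eq_fintype_card, Fintype.card_coe]
  exact (Multiset.toFinset_card_le _).trans (Polynomial.card_roots' D)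

theorem card_fst {α β : Type} (p : α → Prop) :
    Nat.card {x : α × β // p x.1} = Nat.card {a // p a} * Nat.card β := by
  rw [← Nat.card_prod]
  exact Nat.card_congr ⟨fun x => (⟨x.1.1, x.2⟩, x.1.2), fun y => ⟨(y.1.1, y.2), y.1.2⟩,
    fun x => rfl, fun y => rfl⟩

theorem count_upd {α : Type} [Fintype α] {n : ℕ} (i : Fin n) (P : (Fin n → α) → Prop) (m : ℕ)
    (h : ∀ b : Fin n → α, Nat.card {u : α // P (Function.update b i u)} ≤ m) :
    Nat.card {a : Fin n → α // P a} * Fintype.card α ≤ m * Fintype.card α ^ n := by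
  classical
  have h1 : Nat.card ({a : Fin n → α // P a} × α) ≤
      Nat.card (Σ b : Fin n → α, {u : α // P (Function.update b i u)}) := by
    refine Nat.card_le_card_of_injective
      (fun x => ⟨Function.update x.1.1 i x.2, ⟨x.1.1 i, by
        rw [Function.update_idem, Function.update_eq_self]; exact x.1.2⟩⟩) ?_
    rintro ⟨⟨a, ha⟩, t⟩ ⟨⟨b, hb⟩, u⟩ hab
    have e1 : Function.update a i t = Function.update b i u := congrArg Sigma.fst hab
    have e2 : a i = b i := by
      have : ∀ (x y : Σ b : Fin n → α, {u : α // P (Function.update b i u)}), x = y →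
          (x.2 : α) = (y.2 : α) := by
        rintro x y rfl
        rfl
      exact this _ _ hab
    have e3 : t = u := by
      have := congrFun e1 i
      simpa using this
    have e4 : a = b := by
      funext j
      by_cases hj : j = i
      · rw [hj]; exact e2
      · have := congrFun e1 j
        rwa [Function.update_of_ne hj, Function.update_of_ne hj] at this
    subst e3
    subst e4
    rfl
  rw [Nat.card_prod, Nat.card_eq_fintype_card (α := α)] at h1
  refine h1.trans ?_
  rw [Nat.card_sigma]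
  refine (Finset.sum_le_sum fun b _ => h b).trans ?_
  rw [Finset.sum_const, Finset.card_univ, Fintype.card_fun, Fintype.card_fin, smul_eq_mul, mul_comm]

/-! ### the functional `lam` -/

section
variable {k : Type} [Field k]

theorem lam_add (F c d : k[X]) : lam F (c + d) = lam F c + lam F d := by
  unfold lam
  rw [Polynomial.add_modByMonic, Polynomial.coeff_add]

theorem lam_C_mul (F c : k[X]) (r : k) : lam F (C r * c) = r * lam F c := by
  unfold lam
  rw [← Polynomial.smul_eq_C_mul, Polynomial.smul_modByMonic, Polynomial.coeff_smul, smul_eq_mul]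

theorem lam_dvd {F c : k[X]} (hF : F.Monic) (h : F ∣ c) : lam F c = 0 := by
  unfold lam
  rw [(Polynomial.modByMonic_eq_zero_iff_dvd hF).2 h, Polynomial.coeff_zero]

theorem lam_congr {F c d : k[X]} (hF : F.Monic) (h : F ∣ c - d) : lam F c = lam F d := by
  have : c = d + (c - d) := by ring
  rw [this, lam_add, lam_dvd hF h, add_zero]

/-- an inverse of the derivative of the fibre -/
noncomputable def vv (S : k[X][X]) (a : k) : k[X] :=
  open Classical in
  if h : ∃ v : k[X], fb S a ∣ v * derivative (fb S a) - 1 then h.choose else 0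

theorem vv_spec {S : k[X][X]} {a : k} (h : IsCoprime (fb S a) (derivative (fb S a))) :
    fb S a ∣ vv S a * derivative (fb S a) - 1 := by
  have hex : ∃ v : k[X], fb S a ∣ v * derivative (fb S a) - 1 := by
    obtain ⟨u, v, huv⟩ := h
    refine ⟨v, ⟨-u, ?_⟩⟩
    linear_combination huv
  unfold vv
  rw [dif_pos hex]
  exact hex.choose_spec

/-- the condition at a place in terms of a common denominator -/
noncomputable def Th {n : ℕ} (S : k[X][X]) (Q : ℕ) (δc : k[X]) (Uf : (Fin n → k) → k[X][X])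
    (a : k) (g : k[X]) (l : Fin n → k) : k :=
  lam (fb S a) (g ^ Q * (C (δc.eval a ^ Q) * (Uf (fun i => l i ^ Q)).map (evalRingHom a) -
    C (δc.eval a) * ((Uf l).map (evalRingHom a) * vv S a) ^ Q * derivative (fb S a)))

theorem map_smul_ev (c a : k) (f : k[X][X]) :
    (c • f).map (evalRingHom a) = C c * f.map (evalRingHom a) := by
  ext i
  rw [Polynomial.coeff_map, Polynomial.coeff_smul, Polynomial.coeff_C_mul, Polynomial.coeff_map]
  simp

variable (p : ℕ) [Fact p.Prime] [CharP k p] (e : ℕ) {n : ℕ} (S : k[X][X]) (δc : k[X])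
  (M : Submodule k (Fin n → k)) (Uf : (Fin n → k) → k[X][X])

theorem Th_add (hadd : ∀ l1 ∈ M, ∀ l2 ∈ M, Uf (l1 + l2) = Uf l1 + Uf l2) (a : k) (g : k[X])
    (l1 l2 : Fin n → k) (h1 : l1 ∈ M) (h2 : l2 ∈ M) (h1' : (fun i => l1 i ^ p ^ e) ∈ M)
    (h2' : (fun i => l2 i ^ p ^ e) ∈ M) :
    Th S (p ^ e) δc Uf a g (l1 + l2) = Th S (p ^ e) δc Uf a g l1 + Th S (p ^ e) δc Uf a g l2 := by
  have e1 : (fun i => (l1 + l2) i ^ p ^ e) = (fun i => l1 i ^ p ^ e) + fun i => l2 i ^ p ^ e := by
    funext i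
    simp only [Pi.add_apply]
    exact add_pow_char_pow (l1 i) (l2 i) p e
  unfold Th
  rw [← lam_add, e1, hadd _ h1 _ h2, hadd _ h1' _ h2', Polynomial.map_add, Polynomial.map_add,
    add_mul, add_pow_char_pow]
  congr 1
  ring

omit [Fact p.Prime] [CharP k p] in
theorem Th_smul (hsm : ∀ (c : k), ∀ l ∈ M, Uf (c • l) = c • Uf l) (a : k) (g : k[X])
    (c : k) (l : Fin n → k) (h1 : l ∈ M) (h1' : (fun i => l i ^ p ^ e) ∈ M) :
    Th S (p ^ e) δc Uf a g (c • l) = c ^ p ^ e * Th S (p ^ e) δc Uf a g l := by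
  have e1 : (fun i => (c • l) i ^ p ^ e) = c ^ p ^ e • fun i => l i ^ p ^ e := by
    funext i
    simp only [Pi.smul_apply, smul_eq_mul, mul_pow]
  unfold Th
  rw [← lam_C_mul, e1, hsm _ _ h1, hsm _ _ h1', map_smul_ev, map_smul_ev, mul_assoc (C c),
    mul_pow (C c), ← C_pow]
  congr 1
  ring

/-- the random subspaces -/
noncomputable def Hs (hadd : ∀ l1 ∈ M, ∀ l2 ∈ M, Uf (l1 + l2) = Uf l1 + Uf l2)
    (hsm : ∀ (c : k), ∀ l ∈ M, Uf (c • l) = c • Uf l) (B : k[X]) (a : k) (g : k[X]) :
    Submodule k (Fin n → k) where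
  carrier := {l | l ∈ M ∧ (fun i => l i ^ p ^ e) ∈ M ∧
    (B.eval a ≠ 0 → Th S (p ^ e) δc Uf a g l = 0)}
  add_mem' := by
    rintro l1 l2 ⟨h1, h1', h1''⟩ ⟨h2, h2', h2''⟩
    refine ⟨M.add_mem h1 h2, ?_, fun hB => ?_⟩
    · have e1 : (fun i => (l1 + l2) i ^ p ^ e) =
          (fun i => l1 i ^ p ^ e) + fun i => l2 i ^ p ^ e := by
        funext i
        simp only [Pi.add_apply]
        exact add_pow_char_pow (l1 i) (l2 i) p e
      show (fun i => (l1 + l2) i ^ p ^ e) ∈ M
      rw [e1]
      exact M.add_mem h1' h2'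
    · rw [Th_add p e S δc M Uf hadd a g l1 l2 h1 h2 h1' h2', h1'' hB, h2'' hB, add_zero]
  zero_mem' := by
    have e1 : (fun i => (0 : Fin n → k) i ^ p ^ e) = 0 := by
      funext i
      simp only [Pi.zero_apply]
      exact zero_pow (pow_ne_zero _ (Fact.out : p.Prime).ne_zero)
    refine ⟨M.zero_mem, ?_, fun hB => ?_⟩
    · show (fun i => (0 : Fin n → k) i ^ p ^ e) ∈ M
      rw [e1]
      exact M.zero_mem
    · have h0 : (0 : k) ^ p ^ e = 0 := zero_pow (pow_ne_zero _ (Fact.out : p.Prime).ne_zero)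
      have := Th_smul p e S δc M Uf hsm a g 0 0 M.zero_mem (by rw [e1]; exact M.zero_mem)
      rw [zero_smul, h0, zero_mul] at this
      exact this
  smul_mem' := by
    rintro c l ⟨h1, h1', h1''⟩
    refine ⟨M.smul_mem c h1, ?_, fun hB => ?_⟩
    · have e1 : (fun i => (c • l) i ^ p ^ e) = c ^ p ^ e • fun i => l i ^ p ^ e := by
        funext i
        simp only [Pi.smul_apply, smul_eq_mul, mul_pow]
      show (fun i => (c • l) i ^ p ^ e) ∈ M
      rw [e1]
      exact M.smul_mem _ h1'
    · rw [Th_smul p e S δc M Uf hsm a g c l h1 h1', h1'' hB, mul_zero]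

omit [Fact p.Prime] [CharP k p] in
/-- comparison of the two forms of the condition -/
theorem Van_iff {a : k} (hS : S.Monic) (hcop : IsCoprime (fb S a) (derivative (fb S a)))
    (l : Fin n → k) (g : Fin n → k) (δ δ' : k[X]) (U U' : k[X][X])
    (h1 : C δ * Uf l = C δc * U) (h2 : C δ' * Uf (fun i => l i ^ p ^ e) = C δc * U')
    (hδ : δ.eval a ≠ 0) (hδ' : δ'.eval a ≠ 0) (hc : δc.eval a ≠ 0) :
    Van S (p ^ e) a g δ U δ' U' ↔ Th S (p ^ e) δc Uf a (gp g) l = 0 := by
  have hf : (fb S a).Monic := hS.map _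
  set Q := p ^ e with hQ
  have hv := vv_spec hcop
  set f := fb S a with hfdef
  set v := vv S a with hvdef
  set A := (Uf l).map (evalRingHom a) with hA
  set A' := (Uf (fun i => l i ^ Q)).map (evalRingHom a) with hA'
  set u := U.map (evalRingHom a) with hu
  set u' := U'.map (evalRingHom a) with hu'
  set d := δ.eval a with hd
  set d' := δ'.eval a with hd'
  set c := δc.eval a with hcdef
  have h1a : C d * A = C c * u := by
    have := congrArg (Polynomial.map (evalRingHom a)) h1
    rwa [Polynomial.map_mul, Polynomial.map_mul, Polynomial.map_C, Polynomial.map_C] at this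
  have h2a : C d' * A' = C c * u' := by
    have := congrArg (Polynomial.map (evalRingHom a)) h2
    rwa [Polynomial.map_mul, Polynomial.map_mul, Polynomial.map_C, Polynomial.map_C] at this
  set ν0 : k[X] := C (c⁻¹ * d) * (A * v) with hν0
  have hcc : C c * C c⁻¹ = (1 : k[X]) := by rw [← C_mul, mul_inv_cancel₀ hc, C_1]
  have hdd : C d * C d⁻¹ = (1 : k[X]) := by rw [← C_mul, mul_inv_cancel₀ hδ, C_1]
  have hdd' : C d' * C d'⁻¹ = (1 : k[X]) := by rw [← C_mul, mul_inv_cancel₀ hδ', C_1]
  have hu0 : u = C (c⁻¹ * d) * A := by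
    rw [C_mul]
    linear_combination (-(C c⁻¹)) * h1a - u * hcc
  have hν0d : f ∣ ν0 * derivative f - u := by
    have : ν0 * derivative f - u = (C (c⁻¹ * d) * A) * (v * derivative f - 1) := by
      rw [hν0, hu0]; ring
    rw [this]
    exact Dvd.dvd.mul_left hv _
  -- the main identity
  have hmain : lam f (gp g ^ Q * (C (c ^ Q) * A' - C c * (A * v) ^ Q * derivative f)) =
      (c ^ (Q + 1) * (d'⁻¹ * d⁻¹ ^ Q)) *
        lam f (gp g ^ Q * (C (d ^ Q) * u' - C d' * ν0 ^ Q * derivative f)) := by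
    rw [← lam_C_mul]
    congr 1
    have hA'' : A' = C d'⁻¹ * (C c * u') := by
      linear_combination (C d'⁻¹) * h2a - A' * hdd'
    have hddQ : C d ^ Q * C d⁻¹ ^ Q = (1 : k[X]) := by rw [← mul_pow, hdd, one_pow]
    have hccQ : C c ^ Q * C c⁻¹ ^ Q = (1 : k[X]) := by rw [← mul_pow, hcc, one_pow]
    rw [hν0, hA'']
    simp only [C_mul, C_pow, mul_pow, pow_succ]
    linear_combination (-(gp g ^ Q * C c ^ Q * C c * C d'⁻¹ * u')) * hddQ +
      (gp g ^ Q * C c * A ^ Q * v ^ Q * derivative f) * (C d' * C d'⁻¹) *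
        (C d ^ Q * C d⁻¹ ^ Q) * hccQ +
      (gp g ^ Q * C c * A ^ Q * v ^ Q * derivative f) * (C d ^ Q * C d⁻¹ ^ Q) * hdd' +
      (gp g ^ Q * C c * A ^ Q * v ^ Q * derivative f) * hddQ
  have hκ : c ^ (Q + 1) * (d'⁻¹ * d⁻¹ ^ Q) ≠ 0 :=
    mul_ne_zero (pow_ne_zero _ hc) (mul_ne_zero (inv_ne_zero hδ') (pow_ne_zero _ (inv_ne_zero hδ)))
  unfold Van Th
  rw [← hfdef, ← hvdef, ← hA, ← hA', ← hd, ← hd', ← hcdef, ← hu, ← hu', hmain]
  constructor
  · intro h
    rw [h ν0 hν0d, mul_zero]
  · intro h ν hν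
    have h0 := (mul_eq_zero.1 h).resolve_left hκ
    rw [← h0]
    apply lam_congr hf
    have hdν : f ∣ ν - ν0 := by
      have h3 : f ∣ (ν - ν0) * derivative f := by
        have := dvd_sub hν hν0d
        have e : ν * derivative f - u - (ν0 * derivative f - u) = (ν - ν0) * derivative f := by
          ring
        rwa [e] at this
      exact hcop.dvd_of_dvd_mul_right h3
    have h4 : f ∣ ν ^ Q - ν0 ^ Q := hdν.trans (sub_dvd_pow_sub_pow _ _ _)
    have e : gp g ^ Q * (C (d ^ Q) * u' - C d' * ν ^ Q * derivative f) -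
        gp g ^ Q * (C (d ^ Q) * u' - C d' * ν0 ^ Q * derivative f) =
        -(gp g ^ Q * C d' * derivative f) * (ν ^ Q - ν0 ^ Q) := by ring
    rw [e]
    exact Dvd.dvd.mul_left h4 _

end

theorem card_ex {α : Type} [Finite α] {n : ℕ} (q : Fin n → α → Prop) :
    Nat.card {x // ∃ i, q i x} ≤ ∑ i, Nat.card {x // q i x} := by
  have h : Nat.card {x // ∃ i, q i x} ≤ Nat.card (Σ i : Fin n, {x // q i x}) := by
    refine Nat.card_le_card_of_injective (fun x => ⟨x.2.choose, ⟨x.1, x.2.choose_spec⟩⟩) ?_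
    intro a b hab
    have : ∀ (x y : Σ i : Fin n, {x // q i x}), x = y → (x.2 : α) = (y.2 : α) := by
      rintro x y rfl
      rfl
    exact Subtype.ext (this _ _ hab)
  rwa [Nat.card_sigma] at h

theorem card_adm {k : Type} [Field k] {n : ℕ} (S : k[X][X]) (T : Finset k) (D : k[X])
    (hD0 : D ≠ 0) (hDn : D.natDegree ≤ 2 * n ^ 2 + n)
    (hD : ∀ a : k, D.eval a ≠ 0 → IsCoprime (fb S a) (derivative (fb S a))) :
    Nat.card {a : Fin n → T // ¬ AdmP S (fun j => (a j : k))} * T.card ≤
      n * (2 * n ^ 2 + 2 * n + 1) * T.card ^ n := by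
  classical
  have hXD : X * D ≠ 0 := mul_ne_zero X_ne_zero hD0
  have hXDn : (X * D).natDegree ≤ 2 * n ^ 2 + n + 1 := by
    rw [Polynomial.natDegree_mul X_ne_zero hD0, Polynomial.natDegree_X]
    omega
  let q : Fin n → (Fin n → T) → Prop := fun i a =>
    (X * D).eval ((a i : k)) = 0 ∨ ∃ j, j ≠ i ∧ a j = a i
  have h1 : Nat.card {a : Fin n → T // ¬ AdmP S (fun j => (a j : k))} ≤
      Nat.card {a : Fin n → T // ∃ i, q i a} := by
    apply card_mono
    intro a ha
    by_contra hcon
    apply ha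
    push Not at hcon
    have hq : ∀ i, (X * D).eval ((a i : k)) ≠ 0 ∧ ∀ j, j ≠ i → a j ≠ a i := by
      intro i
      have := hcon i
      simp only [q, not_or, not_exists, not_and] at this
      exact this
    refine ⟨fun j hj => (hq j).1 ?_, fun i j hij => ?_, fun j => hD _ fun h => (hq j).1 ?_⟩
    · simp [hj]
    · by_contra hne
      exact (hq j).2 i hne (Subtype.ext hij)
    · simp [h]
  have h2 : ∀ i, Nat.card {a : Fin n → T // q i a} * T.card ≤
      (2 * n ^ 2 + 2 * n + 1) * T.card ^ n := by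
    intro i
    have := count_upd (α := T) i (q i) (2 * n ^ 2 + 2 * n + 1) ?_
    · rwa [Fintype.card_coe] at this
    intro b
    have h3 := card_or (fun u : T => q i (Function.update b i u))
      (fun u => (X * D).eval ((u : k)) = 0) (fun u => ∃ j, b j = u) ?_
    · refine h3.trans ?_
      have h4 := (card_poly T (X * D) hXD).trans hXDn
      have h5 : Nat.card {u : T // ∃ j, b j = u} ≤ n := by
        have : Nat.card {u : T // ∃ j, b j = u} ≤ Nat.card (Fin n) := by
          refine Nat.card_le_card_of_injective (fun u => u.2.choose) ?_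
          intro u v huv
          have e1 := u.2.choose_spec
          have e2 := v.2.choose_spec
          apply Subtype.ext
          rw [← e1, ← e2]
          exact congrArg b huv
        rwa [Nat.card_eq_fintype_card (α := Fin n), Fintype.card_fin] at this
      omega
    · intro u hu
      rcases hu with hu | ⟨j, hj, hu⟩
      · left
        simpa using hu
      · right
        refine ⟨j, ?_⟩
        rwa [Function.update_of_ne hj, Function.update_self] at hu
  calc Nat.card {a : Fin n → T // ¬ AdmP S (fun j => (a j : k))} * T.card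
      ≤ (∑ i, Nat.card {a : Fin n → T // q i a}) * T.card :=
        Nat.mul_le_mul_right _ (h1.trans (card_ex q))
    _ = ∑ i, Nat.card {a : Fin n → T // q i a} * T.card := Finset.sum_mul _ _ _
    _ ≤ ∑ _i : Fin n, (2 * n ^ 2 + 2 * n + 1) * T.card ^ n := Finset.sum_le_sum fun i _ => h2 i
    _ = n * (2 * n ^ 2 + 2 * n + 1) * T.card ^ n := by
        rw [Finset.sum_const, Finset.card_univ, Fintype.card_fin, smul_eq_mul, mul_assoc]

/-- solutions of the first equations -/
noncomputable def Msub {k : Type} [Field k] {n : ℕ} (s : ℕ) (φ : Fin n → PowerSeries k)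
    (G : Fin n → Fin n → k) : Submodule k (Fin n → k) where
  carrier := {l | E0 s φ G l}
  add_mem' := by
    intro l1 l2 h1 h2 m hm hm'
    have e1 := h1 m hm hm'
    have e2 := h2 m hm hm'
    have : (∑ i, PowerSeries.C ((l1 + l2) i) * ev (φ i) (bpol G)) =
        (∑ i, PowerSeries.C (l1 i) * ev (φ i) (bpol G)) +
          ∑ i, PowerSeries.C (l2 i) * ev (φ i) (bpol G) := by
      rw [← Finset.sum_add_distrib]
      refine Finset.sum_congr rfl fun i _ => ?_
      rw [Pi.add_apply, map_add, add_mul]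
    rw [this, map_add, e1, e2, add_zero]
  zero_mem' := by
    intro m hm hm'
    simp
  smul_mem' := by
    intro c l h1 m hm hm'
    have e1 := h1 m hm hm'
    have : (∑ i, PowerSeries.C ((c • l) i) * ev (φ i) (bpol G)) =
        PowerSeries.C c * ∑ i, PowerSeries.C (l i) * ev (φ i) (bpol G) := by
      rw [Finset.mul_sum]
      refine Finset.sum_congr rfl fun i _ => ?_
      rw [Pi.smul_apply, smul_eq_mul, map_mul, mul_assoc]
    rw [this, PowerSeries.coeff_C_mul, e1, mul_zero]

/-- vectors which are constant on the blocks -/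
def Csub {k : Type} [Field k] {n : ℕ} (S : k[X][X]) (φ : Fin n → PowerSeries k) :
    Submodule k (Fin n → k) where
  carrier := {l | Cst S φ l}
  add_mem' := by
    intro l1 l2 h1 h2 i j hij
    show l1 i + l2 i = l1 j + l2 j
    rw [h1 i j hij, h2 i j hij]
  zero_mem' := by
    intro i j hij
    rfl
  smul_mem' := by
    intro c l h1 i j hij
    show c * l i = c * l j
    rw [h1 i j hij]

end SeqAux

open SeqAux in
/-- TARGET -/
theorem seq (hC : StmtComb) (hU : StmtUc) (hR : StmtRat) (hL : StmtLoc) (hK : StmtConst) (hV : StmtVanCount)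
    (hB : StmtBadFib) : StmtSeq := by
  intro k _ _ p _ _ e n s S φ T G hRts hs hne hG
  classical
  obtain ⟨D, hD0, hDn, hD⟩ := hB k n S φ hRts
  have hn1 : 1 ≤ n := hRts.pos
  set M := Msub s φ G with hMdef
  have hMmem : ∀ l, l ∈ M ↔ E0 s φ G l := fun l => Iff.rfl
  obtain ⟨δc, Uc, hδc0, hδcn, hUc⟩ := hU k n s S φ M hRts hs
    (fun l hl => hR k n s S φ G hRts hs hG l hl)
  let Uf : (Fin n → k) → k[X][X] := fun l => if h : l ∈ M then Uc ⟨l, h⟩ else 0
  have hUf : ∀ l (h : l ∈ M), Uf l = Uc ⟨l, h⟩ := fun l h => dif_pos h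
  have hadd : ∀ l1 ∈ M, ∀ l2 ∈ M, Uf (l1 + l2) = Uf l1 + Uf l2 := by
    intro l1 h1 l2 h2
    rw [hUf _ h1, hUf _ h2, hUf _ (M.add_mem h1 h2), ← map_add]
    rfl
  have hsm : ∀ (c : k), ∀ l ∈ M, Uf (c • l) = c • Uf l := by
    intro c l h
    rw [hUf _ h, hUf _ (M.smul_mem c h), ← map_smul]
    rfl
  have hrel : ∀ l ∈ M, ∀ δ U, Rat s S φ l δ U → C δ * Uf l = C δc * U := by
    intro l h δ U hr
    rw [hUf _ h]
    exact (hUc ⟨l, h⟩).2.1 δ U hr
  rcases Nat.eq_zero_or_pos T.card with hT | hT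
  · rw [hT, mul_zero]
    exact Nat.zero_le _
  set B : k[X] := X * D * δc with hBdef
  have hB0 : B ≠ 0 := mul_ne_zero (mul_ne_zero X_ne_zero hD0) hδc0
  have hBn : B.natDegree ≤ 3 * n ^ 2 + n + 1 := by
    have h1 : B.natDegree ≤ (X * D).natDegree + δc.natDegree := natDegree_mul_le
    have h2 : (X * D).natDegree ≤ 1 + D.natDegree := by
      refine natDegree_mul_le.trans ?_
      rw [natDegree_X]
    have h3 : n * n = n ^ 2 := by ring
    omega
  let H : T × (Fin n → T) → Submodule k (Fin n → k) := fun w =>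
    Hs p e S δc M Uf hadd hsm B (w.1 : k) (gp (fun i => (w.2 i : k)))
  have hHmem : ∀ (w : T × (Fin n → T)) (l : Fin n → k), l ∈ H w ↔
      (l ∈ M ∧ (fun i => l i ^ p ^ e) ∈ M ∧
        (B.eval (w.1 : k) ≠ 0 → Th S (p ^ e) δc Uf (w.1 : k) (gp (fun i => (w.2 i : k))) l = 0)) :=
    fun w l => Iff.rfl
  have hpe : 1 ≤ p ^ e := hn1.trans hne
  have hΩ : Fintype.card (T × (Fin n → T)) = T.card ^ (n + 1) := by
    rw [Fintype.card_prod, Fintype.card_fun, Fintype.card_coe, Fintype.card_fin, pow_succ, mul_comm]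
  have hcount : ∀ x, x ∉ Csub S φ → Nat.card {w // x ∈ H w} ≤ 17 * n * p ^ e * T.card ^ n := by
    intro x hx
    by_cases hxM : x ∈ M ∧ (fun i => x i ^ p ^ e) ∈ M
    · obtain ⟨δ, U, hr⟩ := hR k n s S φ G hRts hs hG x hxM.1
      obtain ⟨δ', U', hr'⟩ := hR k n s S φ G hRts hs hG _ hxM.2
      have hPsi : ¬ S ∣ Psi S (p ^ e) δ U δ' U' := fun h =>
        hx (hK k p e n s S φ x δ δ' U U' hRts hs hne hr hr' h)
      have hvc := hV k p e n S δ δ' U U' T hRts.monic hRts.deg hRts.pos hRts.td hr.2.1 hr'.2.1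
        hr.2.2.2.1 hr'.2.2.2.1 hPsi
      set B' : k[X] := B * (δ * δ') with hB'
      have hB'0 : B' ≠ 0 := mul_ne_zero hB0 (mul_ne_zero hr.1 hr'.1)
      have hB'n : B'.natDegree ≤ 3 * n ^ 2 + 3 * n + 1 := by
        have h1 : B'.natDegree ≤ B.natDegree + (δ * δ').natDegree := natDegree_mul_le
        have h2 : (δ * δ').natDegree ≤ δ.natDegree + δ'.natDegree := natDegree_mul_le
        have h3 := hr.2.1
        have h4 := hr'.2.1
        omega
      have hor := card_or (fun w : T × (Fin n → T) => x ∈ H w) (fun w => B'.eval (w.1 : k) = 0)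
        (fun w => IsCoprime (fb S w.1) (derivative (fb S w.1)) ∧
          Van S (p ^ e) w.1 (fun i => (w.2 i : k)) δ U δ' U') ?_
      · have h1 : Nat.card {w : T × (Fin n → T) // B'.eval (w.1 : k) = 0} ≤
            (3 * n ^ 2 + 3 * n + 1) * T.card ^ n := by
          rw [card_fst (α := T) (β := Fin n → T) (fun a => B'.eval (a : k) = 0)]
          have h2 := (card_poly T B' hB'0).trans hB'n
          have h3 : Nat.card (Fin n → T) = T.card ^ n := by
            rw [Nat.card_eq_fintype_card, Fintype.card_fun, Fintype.card_coe, Fintype.card_fin]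
          rw [h3]
          exact Nat.mul_le_mul_right _ h2
        have h4 : Nat.card {w // x ∈ H w} * T.card ≤ (17 * n * p ^ e * T.card ^ n) * T.card := by
          refine (Nat.mul_le_mul_right _ hor).trans ?_
          rw [add_mul]
          refine (Nat.add_le_add (Nat.mul_le_mul_right _ h1) hvc).trans ?_
          have h5 : (3 * n ^ 2 + 3 * n + 1) * T.card ^ n * T.card +
              (4 * n * p ^ e + 4 * n + 1) * T.card ^ (n + 1) =
              ((3 * n ^ 2 + 3 * n + 1) + (4 * n * p ^ e + 4 * n + 1)) * T.card ^ (n + 1) := by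
            ring
          have h6 : 17 * n * p ^ e * T.card ^ n * T.card =
              (17 * n * p ^ e) * T.card ^ (n + 1) := by ring
          rw [h5, h6]
          apply Nat.mul_le_mul_right
          nlinarith [Nat.mul_le_mul hn1 hpe, Nat.mul_le_mul (le_refl n) hne,
            Nat.mul_le_mul (le_refl n) hpe]
        exact Nat.le_of_mul_le_mul_right h4 hT
      · intro w hw
        by_cases hw0 : B'.eval (w.1 : k) = 0
        · exact Or.inl hw0
        right
        have hw1 : B.eval (w.1 : k) ≠ 0 ∧ δ.eval (w.1 : k) ≠ 0 ∧ δ'.eval (w.1 : k) ≠ 0 := by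
          have e0 : B'.eval (w.1 : k) = B.eval (w.1 : k) * (δ.eval (w.1 : k) * δ'.eval (w.1 : k)) := by
            rw [hB', eval_mul (p := B), eval_mul (p := δ)]
          rw [e0] at hw0
          exact ⟨left_ne_zero_of_mul hw0, left_ne_zero_of_mul (right_ne_zero_of_mul hw0),
            right_ne_zero_of_mul (right_ne_zero_of_mul hw0)⟩
        have hw2 : D.eval (w.1 : k) ≠ 0 ∧ δc.eval (w.1 : k) ≠ 0 := by
          have := hw1.1
          rw [hBdef, eval_mul, eval_mul] at this
          exact ⟨right_ne_zero_of_mul (left_ne_zero_of_mul this), right_ne_zero_of_mul this⟩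
        have hcop := hD _ hw2.1
        refine ⟨hcop, ?_⟩
        exact (Van_iff p e S δc Uf hRts.monic hcop x _ δ δ' U U' (hrel x hxM.1 δ U hr)
          (hrel _ hxM.2 δ' U' hr') hw1.2.1 hw1.2.2 hw2.2).2 (((hHmem w x).1 hw).2.2 hw1.1)
    · have : IsEmpty {w // x ∈ H w} := ⟨fun w => hxM ⟨((hHmem _ _).1 w.2).1, ((hHmem _ _).1 w.2).2.1⟩⟩
      rw [Nat.card_of_isEmpty]
      exact Nat.zero_le _
  have hcomb := hC k (Fin n → k) (T × (Fin n → T)) H (Csub S φ) n (17 * n * p ^ e * T.card ^ n)
    (by rw [Module.finrank_fintype_fun_eq_card, Fintype.card_fin]) hcount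
  rw [hΩ] at hcomb
  -- reindexing
  have hre : Nat.card {x : (Fin n → T) × (Fin n → Fin n → T) //
      ¬ (⨅ j, H (x.1 j, x.2 j)) ≤ Csub S φ} =
      Nat.card {w : Fin n → T × (Fin n → T) // ¬ (⨅ j, H (w j)) ≤ Csub S φ} := by
    refine Nat.card_congr ⟨fun x => ⟨fun j => (x.1.1 j, x.1.2 j), x.2⟩,
      fun w => ⟨(fun j => (w.1 j).1, fun j => (w.1 j).2), w.2⟩, fun x => rfl, fun w => rfl⟩
  have hfin : Nat.card {x : (Fin n → T) × (Fin n → Fin n → T) //
      ¬ (⨅ j, H (x.1 j, x.2 j)) ≤ Csub S φ} * T.card ≤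
        17 * n ^ 2 * p ^ e * T.card ^ (n + n * n) := by
    rw [hre]
    set c := Nat.card {w : Fin n → T × (Fin n → T) // ¬ (⨅ j, H (w j)) ≤ Csub S φ} with hc
    have h1 : (c * T.card) * T.card ^ n ≤ (17 * n ^ 2 * p ^ e * T.card ^ (n + n * n)) * T.card ^ n := by
      have e1 : (c * T.card) * T.card ^ n = c * T.card ^ (n + 1) := by ring
      have e2 : (17 * n ^ 2 * p ^ e * T.card ^ (n + n * n)) * T.card ^ n =
          n * (17 * n * p ^ e * T.card ^ n) * (T.card ^ (n + 1)) ^ n := by
        rw [← pow_mul]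
        have : (n + 1) * n = n + n * n := by ring
        rw [this]
        ring
      rw [e1, e2]
      exact hcomb
    exact Nat.le_of_mul_le_mul_right h1 (pow_pos hT n)
  have hadm : Nat.card {x : (Fin n → T) × (Fin n → Fin n → T) //
      ¬ AdmP S (fun j => (x.1 j : k))} * T.card ≤
        n * (2 * n ^ 2 + 2 * n + 1) * T.card ^ (n + n * n) := by
    rw [card_fst (α := Fin n → T) (β := Fin n → Fin n → T)
      (fun a => ¬ AdmP S (fun j => (a j : k)))]
    have h1 := card_adm S T D hD0 hDn hD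
    have h3 : Nat.card (Fin n → Fin n → T) = T.card ^ (n * n) := by
      rw [Nat.card_eq_fintype_card, Fintype.card_fun, Fintype.card_fun, Fintype.card_coe,
        Fintype.card_fin, pow_mul]
    rw [h3]
    calc Nat.card {a : Fin n → T // ¬ AdmP S (fun j => (a j : k))} * T.card ^ (n * n) * T.card
        = (Nat.card {a : Fin n → T // ¬ AdmP S (fun j => (a j : k))} * T.card) *
          T.card ^ (n * n) := by ring
      _ ≤ (n * (2 * n ^ 2 + 2 * n + 1) * T.card ^ n) * T.card ^ (n * n) :=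
          Nat.mul_le_mul_right _ h1
      _ = n * (2 * n ^ 2 + 2 * n + 1) * T.card ^ (n + n * n) := by ring
  have hor := card_or (fun x : (Fin n → T) × (Fin n → Fin n → T) =>
      ¬ (AdmP S (fun j => (x.1 j : k)) ∧ ∀ l τ : Fin n → k,
        SysP s (p ^ e) S φ G (fun j => (x.1 j : k)) (fun j i => (x.2 j i : k)) l τ →
          Cst S φ l)) (fun x => ¬ AdmP S (fun j => (x.1 j : k)))
      (fun x => ¬ (⨅ j, H (x.1 j, x.2 j)) ≤ Csub S φ) ?_
  · refine (Nat.mul_le_mul_right _ hor).trans ?_
    rw [add_mul]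
    refine (Nat.add_le_add hadm hfin).trans ?_
    rw [← add_mul]
    apply Nat.mul_le_mul_right
    have h1 : n * n ≤ n * p ^ e := Nat.mul_le_mul_left _ hne
    have h2 : n * (n * n) ≤ n * (n * p ^ e) := Nat.mul_le_mul_left _ h1
    have h3 : n * n ≤ n * (n * n) := Nat.mul_le_mul_left _ (Nat.le_mul_of_pos_left n hn1)
    have h4 : n ≤ n * n := Nat.le_mul_of_pos_left n hn1
    have e1 : n * (2 * n ^ 2 + 2 * n + 1) = 2 * (n * (n * n)) + 2 * (n * n) + n := by ring
    have e2 : 17 * n ^ 2 * p ^ e = 17 * (n * (n * p ^ e)) := by ring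
    have e3 : 39 * n ^ 2 * p ^ e = 39 * (n * (n * p ^ e)) := by ring
    rw [e1, e2, e3]
    omega
  · intro x hx
    by_cases hA : AdmP S (fun j => (x.1 j : k))
    swap
    · exact Or.inl hA
    right
    intro hle
    apply hx
    refine ⟨hA, fun l τ hsys => ?_⟩
    obtain ⟨s1, s2, s3, s4⟩ := hsys
    apply hle
    rw [Submodule.mem_iInf]
    intro j
    rw [hHmem]
    refine ⟨s1, s2, fun hBj => ?_⟩
    have hb : (x.1 j : k) ≠ 0 ∧ D.eval (x.1 j : k) ≠ 0 ∧ δc.eval (x.1 j : k) ≠ 0 := by
      have := hBj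
      rw [hBdef, eval_mul, eval_mul, eval_X] at this
      exact ⟨left_ne_zero_of_mul (left_ne_zero_of_mul this),
        right_ne_zero_of_mul (left_ne_zero_of_mul this), right_ne_zero_of_mul this⟩
    obtain ⟨δ, U, hr, hδ⟩ := (hUc ⟨l, s1⟩).2.2 _ hb.1 hb.2.2
    obtain ⟨δ', U', hr', hδ'⟩ := (hUc ⟨_, s2⟩).2.2 _ hb.1 hb.2.2
    have hvan := hL k p e n s S φ (fun j => (x.1 j : k)) (fun j i => (x.2 j i : k)) l τ δ δ' U U'
      hRts hs hA s3 s4 hr hr' j
    exact (Van_iff p e S δc Uf hRts.monic (hD _ hb.2.1) l _ δ δ' U U' (hrel l s1 δ U hr)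
      (hrel _ s2 δ' U' hr') hδ hδ' hb.2.2).1 hvan

end Pool.Agent.H330AB.JR12
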