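import Pool.Agent.H330AB.StmtsA
set_option autoImplicit false
noncomputable section
namespace Pool.Agent.H330AB.JR13
open Polynomial Pool.Agent.H330FB
theorem rp_count {A B : Type} [Fintype A] [Fintype B] (P : A → Prop) (Q : A → B → Prop)
    (bad : A × B → Prop) (hbad : ∀ x, bad x → P x.1 ∨ (¬ P x.1 ∧ Q x.1 x.2)) (t c1 c2 : ℕ)
    (h1 : Nat.card {a // P a} * t ≤ c1) (h2 : ∀ a, ¬ P a → Nat.card {b // Q a b} * t ≤ c2) :
    Nat.card {x : A × B // bad x} * t ≤ c1 * Fintype.card B + Fintype.card A * c2 := by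
  classical
  have e0 : Nat.card {x : A × B // bad x} = ∑ a, Nat.card {b // bad (a, b)} := by
    rw [← Nat.card_sigma]
    exact Nat.card_congr (Equiv.subtypeProdEquivSigmaSubtype (fun a b => bad (a, b)))
  rw [e0, Finset.sum_mul]
  have e1 : ∀ a ∈ (Finset.univ : Finset A), Nat.card {b // bad (a, b)} * t ≤
      (if P a then Fintype.card B * t else 0) + c2 := by
    intro a _
    by_cases ha : P a
    · rw [if_pos ha]
      have : Nat.card {b // bad (a, b)} ≤ Fintype.card B := by
        rw [Nat.card_eq_fintype_card]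
        exact Fintype.card_subtype_le _
      exact (Nat.mul_le_mul_right t this).trans (Nat.le_add_right _ _)
    · rw [if_neg ha, zero_add]
      refine le_trans (Nat.mul_le_mul_right t ?_) (h2 a ha)
      rw [Nat.card_eq_fintype_card, Nat.card_eq_fintype_card]
      apply Fintype.card_subtype_mono
      intro b hb
      rcases hbad (a, b) hb with h | h
      · exact absurd h ha
      · exact h.2
  refine (Finset.sum_le_sum e1).trans ?_
  rw [Finset.sum_add_distrib, ← Finset.sum_filter, Finset.sum_const, Finset.sum_const,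
    smul_eq_mul, smul_eq_mul, Finset.card_univ]
  apply Nat.add_le_add_right
  have e2 : Nat.card {a // P a} = (Finset.univ.filter P).card := by
    rw [Nat.card_eq_fintype_card, Fintype.card_subtype]
  rw [e2] at h1
  calc (Finset.univ.filter P).card * (Fintype.card B * t)
      = ((Finset.univ.filter P).card * t) * Fintype.card B := by ring
    _ ≤ c1 * Fintype.card B := Nat.mul_le_mul_right _ h1

/- The bad (G,a,g) are contained in: G not MaxG (StmtMaxCount), or G is MaxG and (a,g) is bad in the sense of StmtSeq; if neither, GoodP holds by StmtGoodP. Count. -/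
/-- TARGET -/
theorem rp (hM : StmtMaxCount) (hS : StmtSeq) (hG : StmtGoodP) : StmtRp := by
  intro k _ _ p _ _ e n s S φ T hR hs hn
  classical
  have key := rp_count (A := Fin n → Fin n → T) (B := (Fin n → T) × (Fin n → Fin n → T))
    (fun G => ¬ MaxG s φ (fun i j => (G i j : k)))
    (fun G x => ¬ (AdmP S (fun j => (x.1 j : k)) ∧ ∀ l τ : Fin n → k,
        SysP s (p ^ e) S φ (fun i j => (G i j : k)) (fun j => (x.1 j : k))
          (fun j i => (x.2 j i : k)) l τ → Cst S φ l))
    (fun x => ¬ GoodP s (p ^ e) S φ (fun i j => (x.1 i j : k)) (fun j => (x.2.1 j : k))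
        (fun j i => (x.2.2 j i : k)))
    (by
      intro x hx
      by_cases hmax : MaxG s φ (fun i j => (x.1 i j : k))
      · right
        refine ⟨fun h => h hmax, ?_⟩
        rintro ⟨hadm, hcst⟩
        apply hx
        obtain ⟨g1, g2⟩ := hG k p e n s S φ (fun i j => (x.1 i j : k)) (fun j => (x.2.1 j : k))
          (fun j i => (x.2.2 j i : k)) hR hs hadm
        exact ⟨hadm.1, hcst, g1, g2⟩
      · left
        exact hmax)
    T.card (n * T.card ^ (n * n)) (39 * n ^ 2 * p ^ e * T.card ^ (n + n * n))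
    (hM k n s φ T)
    (by
      intro G hG'
      exact hS k p e n s S φ T (fun i j => (G i j : k)) hR hs hn (not_not.mp hG'))
  refine key.trans ?_
  have hA : Fintype.card (Fin n → Fin n → T) = T.card ^ (n * n) := by
    simp [← pow_mul]
  have hB : Fintype.card ((Fin n → T) × (Fin n → Fin n → T)) = T.card ^ (n + n * n) := by
    simp [← pow_mul, pow_add]
  rw [hA, hB]
  have hpe : 1 ≤ p ^ e := Nat.one_le_pow _ _ (Nat.Prime.pos Fact.out)
  have hn1 : 1 ≤ n := hR.pos
  have h3 : n ≤ n ^ 2 * p ^ e := by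
    calc n = n * 1 * 1 := by ring
      _ ≤ n * n * p ^ e := Nat.mul_le_mul (Nat.mul_le_mul le_rfl hn1) hpe
      _ = n ^ 2 * p ^ e := by ring
  calc n * T.card ^ (n * n) * T.card ^ (n + n * n) +
        T.card ^ (n * n) * (39 * n ^ 2 * p ^ e * T.card ^ (n + n * n))
      = (n + 39 * (n ^ 2 * p ^ e)) * T.card ^ (n * n + n + n * n) := by ring
    _ ≤ (n ^ 2 * p ^ e + 39 * (n ^ 2 * p ^ e)) * T.card ^ (n * n + n + n * n) :=
        Nat.mul_le_mul_right _ (Nat.add_le_add_right h3 _)
    _ = 40 * n ^ 2 * p ^ e * T.card ^ (n * n + n + n * n) := by ring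

end Pool.Agent.H330AB.JR13
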