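import Pool.Agent.H330AB.StmtsA
set_option autoImplicit false
noncomputable section
namespace Pool.Agent.H330AB.JR2
open Polynomial Pool.Agent.H330FB
theorem maxGen_sz {k : Type} [Field k] {ι : Type} [Fintype ι] (P : MvPolynomial ι k) (hP : P ≠ 0) (T : Finset k) :
    Nat.card {v : ι → T // MvPolynomial.eval (fun i => (v i : k)) P = 0} * T.card ≤
      P.totalDegree * T.card ^ Fintype.card ι := by
  classical
  rcases T.eq_empty_or_nonempty with rfl | hT
  · simp
  let e : ι ≃ Fin (Fintype.card ι) := Fintype.equivFin ι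
  have hp : MvPolynomial.rename e P ≠ 0 := by
    intro h
    apply hP
    apply MvPolynomial.rename_injective e e.injective
    rw [h, map_zero]
  have h1 := MvPolynomial.schwartz_zippel_totalDegree hp T
  have hT0 : (0 : ℚ≥0) < (T.card : ℚ≥0) := by
    exact_mod_cast hT.card_pos
  have h2 : Nat.card {v : ι → T // MvPolynomial.eval (fun i => (v i : k)) P = 0} ≤
      (Finset.filter (fun f => MvPolynomial.eval f (MvPolynomial.rename e P) = 0)
        (Fintype.piFinset fun _ : Fin (Fintype.card ι) => T)).card := by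
    rw [Nat.card_eq_fintype_card, ← Fintype.card_coe]
    apply Fintype.card_le_of_injective (fun v => (⟨fun i => (v.1 (e.symm i) : k), by
      rw [Finset.mem_filter]
      refine ⟨?_, ?_⟩
      · rw [Fintype.mem_piFinset]
        intro i
        exact (v.1 (e.symm i)).2
      · rw [MvPolynomial.eval_rename]
        have : (fun i => ((v.1 (e.symm i) : T) : k)) ∘ e = fun i => (v.1 i : k) := by
          ext i
          simp
        rw [this]
        exact v.2⟩ : {f // f ∈ Finset.filter (fun f => MvPolynomial.eval f (MvPolynomial.rename e P) = 0)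
        (Fintype.piFinset fun _ : Fin (Fintype.card ι) => T)}))
    intro v v' hv
    apply Subtype.ext
    funext i
    have h := congrFun (congrArg Subtype.val hv) (e i)
    simp only [Equiv.symm_apply_apply] at h
    exact Subtype.ext h
  have h3 : ((Finset.filter (fun f => MvPolynomial.eval f (MvPolynomial.rename e P) = 0)
        (Fintype.piFinset fun _ : Fin (Fintype.card ι) => T)).card : ℚ≥0) * T.card ≤
      (MvPolynomial.rename e P).totalDegree * T.card ^ Fintype.card ι := by
    rwa [div_le_div_iff₀ (by positivity) hT0] at h1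
  have h4 : (MvPolynomial.rename e P).totalDegree ≤ P.totalDegree := MvPolynomial.totalDegree_rename_le e P
  have h5 : (Finset.filter (fun f => MvPolynomial.eval f (MvPolynomial.rename e P) = 0)
        (Fintype.piFinset fun _ : Fin (Fintype.card ι) => T)).card * T.card ≤
      (MvPolynomial.rename e P).totalDegree * T.card ^ Fintype.card ι := by
    exact_mod_cast h3
  calc _ ≤ _ := Nat.mul_le_mul_right _ h2
    _ ≤ _ := h5
    _ ≤ _ := Nat.mul_le_mul_right _ h4

/-- the linear form with given values, as a polynomial -/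
noncomputable def maxGen_lin {k : Type} [Field k] {ι : Type} [Fintype ι] [DecidableEq ι] (ψ : (ι → k) →ₗ[k] k) :
    MvPolynomial ι k := ∑ x, MvPolynomial.C (ψ (Pi.single x 1)) * MvPolynomial.X x

theorem maxGen_lin_eval {k : Type} [Field k] {ι : Type} [Fintype ι] [DecidableEq ι] (ψ : (ι → k) →ₗ[k] k) (v : ι → k) :
    MvPolynomial.eval v (maxGen_lin ψ) = ψ v := by
  unfold maxGen_lin
  rw [map_sum]
  simp only [map_mul, MvPolynomial.eval_C, MvPolynomial.eval_X]
  conv_rhs => rw [← Finset.univ_sum_single v, map_sum]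
  apply Finset.sum_congr rfl
  intro x _
  have : (Pi.single x (v x) : ι → k) = v x • Pi.single x 1 := by
    rw [← Pi.single_smul, smul_eq_mul, mul_one]
  rw [this, map_smul, smul_eq_mul, mul_comm]

theorem maxGen_lin_deg {k : Type} [Field k] {ι : Type} [Fintype ι] [DecidableEq ι] (ψ : (ι → k) →ₗ[k] k) :
    (maxGen_lin ψ).totalDegree ≤ 1 := by
  unfold maxGen_lin
  refine (MvPolynomial.totalDegree_finsetSum _ _).trans ?_
  apply Finset.sup_le
  intro x _
  refine (MvPolynomial.totalDegree_mul _ _).trans ?_
  rw [MvPolynomial.totalDegree_C, MvPolynomial.totalDegree_X]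

theorem maxGen_det_deg {k : Type} [Field k] {ι : Type} {r : ℕ} (M : Matrix (Fin r) (Fin r) (MvPolynomial ι k))
    (hM : ∀ i j, (M i j).totalDegree ≤ 1) : M.det.totalDegree ≤ r := by
  rw [Matrix.det_apply]
  refine (MvPolynomial.totalDegree_finsetSum _ _).trans ?_
  apply Finset.sup_le
  intro σ _
  have h1 : (∏ i, M (σ i) i).totalDegree ≤ r := by
    refine (MvPolynomial.totalDegree_finsetProd _ _).trans ?_
    calc ∑ i : Fin r, (M (σ i) i).totalDegree ≤ ∑ _i : Fin r, 1 := Finset.sum_le_sum fun i _ => hM _ _
      _ = r := by simp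
  rcases Int.units_eq_one_or (Equiv.Perm.sign σ) with h | h
  · rw [h, one_smul]
    exact h1
  · rw [h, Units.neg_smul, one_smul, MvPolynomial.totalDegree_neg]
    exact h1

theorem maxGen_poly {k : Type} [Field k] {ι : Type} [Fintype ι] {m m' r : ℕ}
    (β : (ι → k) →ₗ[k] (Fin m → k) →ₗ[k] (Fin m' → k)) (A : (Fin r → k) →ₗ[k] (Fin m → k))
    (B : (Fin m' → k) →ₗ[k] (Fin r → k)) :
    ∃ P : MvPolynomial ι k, P.totalDegree ≤ r ∧
      ∀ v, MvPolynomial.eval v P = LinearMap.det (B ∘ₗ β v ∘ₗ A) := by
  classical
  let ψ : Fin r → Fin r → (ι → k) →ₗ[k] k := fun i j => (LinearMap.proj i) ∘ₗ B ∘ₗ (β.flip (A (Pi.single j 1)))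
  let M : Matrix (Fin r) (Fin r) (MvPolynomial ι k) := Matrix.of fun i j => maxGen_lin (ψ i j)
  refine ⟨M.det, maxGen_det_deg M (fun i j => maxGen_lin_deg _), ?_⟩
  intro v
  rw [RingHom.map_det, ← LinearMap.det_toMatrix']
  congr 1
  ext i j
  rw [RingHom.mapMatrix_apply, Matrix.map_apply, LinearMap.toMatrix'_apply]
  simp only [M, Matrix.of_apply, maxGen_lin_eval]
  rfl

/- Choose v1 with the smallest kernel, i.e. the largest rank r of β v1 : k^m -> k^m'. Some r x r minor of the matrix of β v1 is not
zero; this minor, as a function of v, is a nonzero polynomial of total degree at most r ≤ m in the coordinates of v. Where it does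
not vanish, the rank of β v is r. Schwartz-Zippel (Mathlib: MvPolynomial.schwartz_zippel_totalDegree or
schwartz_zippel_sup_sum; look in Mathlib/Algebra/MvPolynomial/SchwartzZippel.lean) bounds the number of v in T^ι with value 0.
(LinearMap.toMatrix', Matrix.det; a nonzero minor from the rank: choose independent columns, then independent rows.) -/
/-- TARGET -/
theorem maxGen : StmtMaxGen := by
  intro k _ ι _ m m' β T
  classical
  let f : (ι → k) → ℕ := fun v => Module.finrank k (LinearMap.ker (β v))
  obtain ⟨v1, hv1⟩ : ∃ v1, ∀ v', Module.finrank k (LinearMap.ker (β v1)) ≤ Module.finrank k (LinearMap.ker (β v')) :=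
    ⟨Function.argmin f, fun v => Function.argmin_le f v⟩
  obtain ⟨r, hr⟩ : ∃ r, r = Module.finrank k (LinearMap.range (β v1)) := ⟨_, rfl⟩
  have hrn : ∀ v, Module.finrank k (LinearMap.range (β v)) + Module.finrank k (LinearMap.ker (β v)) = m := by
    intro v
    rw [LinearMap.finrank_range_add_finrank_ker, Module.finrank_fin_fun]
  let E : LinearMap.range (β v1) ≃ₗ[k] (Fin r → k) := LinearEquiv.ofFinrankEq _ _ (by rw [Module.finrank_fin_fun, hr])
  let F : (Fin m → k) →ₗ[k] (Fin r → k) := E.toLinearMap ∘ₗ (β v1).rangeRestrict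
  have hF : LinearMap.range F = ⊤ := by
    rw [LinearMap.range_eq_top]
    exact E.surjective.comp (LinearMap.surjective_rangeRestrict _)
  obtain ⟨A, hA⟩ := LinearMap.exists_rightInverse_of_surjective F hF
  have hinj : LinearMap.ker (β v1 ∘ₗ A) = ⊥ := by
    rw [LinearMap.ker_eq_bot']
    intro x hx
    have h1 : F (A x) = x := by
      have := LinearMap.congr_fun hA x
      simpa using this
    have h2 : (β v1).rangeRestrict (A x) = 0 := by
      apply Subtype.ext
      exact hx
    rw [← h1]
    show E ((β v1).rangeRestrict (A x)) = 0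
    rw [h2, map_zero]
  obtain ⟨B, hB⟩ := LinearMap.exists_leftInverse_of_injective (β v1 ∘ₗ A) hinj
  obtain ⟨P, hPdeg, hPev⟩ := maxGen_poly β A B
  have hP1 : MvPolynomial.eval v1 P = 1 := by
    rw [hPev, hB, LinearMap.det_id]
  have hP0 : P ≠ 0 := by
    intro h
    rw [h, map_zero] at hP1
    exact zero_ne_one hP1
  have hgood : ∀ v, MvPolynomial.eval v P ≠ 0 → ∀ v', Module.finrank k (LinearMap.ker (β v)) ≤
      Module.finrank k (LinearMap.ker (β v')) := by
    intro v hv v'
    rw [hPev] at hv
    have h1 : Function.Injective (B ∘ₗ β v ∘ₗ A) := by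
      have h2 : IsUnit (LinearMap.det (B ∘ₗ β v ∘ₗ A)) := isUnit_iff_ne_zero.2 hv
      exact (LinearEquiv.ofIsUnitDet (f := B ∘ₗ β v ∘ₗ A) (v := Pi.basisFun k (Fin r)) (v' := Pi.basisFun k (Fin r))
        (by
          rw [LinearMap.det_toMatrix]
          exact h2)).injective
    have h2 : Function.Injective (β v ∘ₗ A) := by
      intro x y hxy
      apply h1
      show B ((β v ∘ₗ A) x) = B ((β v ∘ₗ A) y)
      rw [hxy]
    have h3 : r ≤ Module.finrank k (LinearMap.range (β v)) := by
      have h4 : Module.finrank k (LinearMap.range (β v ∘ₗ A)) = r := by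
        rw [LinearMap.finrank_range_of_inj h2, Module.finrank_fin_fun]
      rw [← h4]
      exact Submodule.finrank_mono (LinearMap.range_comp_le_range A (β v))
    have h5 := hrn v
    have h6 := hrn v1
    have h7 := hv1 v'
    omega
  have hcard : Nat.card {v : ι → T // ¬ ∀ v' : ι → k,
      Module.finrank k (LinearMap.ker (β (fun i => (v i : k)))) ≤
        Module.finrank k (LinearMap.ker (β v'))} ≤
      Nat.card {v : ι → T // MvPolynomial.eval (fun i => (v i : k)) P = 0} := by
    apply Nat.card_le_card_of_injective (fun v => (⟨v.1, by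
      by_contra h
      exact v.2 (hgood _ h)⟩ : {v : ι → T // MvPolynomial.eval (fun i => (v i : k)) P = 0}))
    intro v v' hv
    apply Subtype.ext
    exact (Subtype.mk.injEq _ _ _ _).mp hv
  have hrm : r ≤ m := by
    have := hrn v1
    omega
  calc _ ≤ _ := Nat.mul_le_mul_right _ hcard
    _ ≤ _ := maxGen_sz P hP0 T
    _ ≤ m * T.card ^ Fintype.card ι := Nat.mul_le_mul_right _ (hPdeg.trans hrm)
end Pool.Agent.H330AB.JR2
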