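import Pool.Agent.H330AB.StmtsA
set_option autoImplicit false
noncomputable section
namespace Pool.Agent.H330AB.JR3
open Polynomial Pool.Agent.H330FB

section comb_aux
variable {k V Ω : Type} [Field k] [AddCommGroup V] [Module k V] {N : ℕ}

/-- intersection of the first `m` subspaces -/
def combA (H : Ω → Submodule k V) (w : Fin N → Ω) (m : ℕ) : Submodule k V :=
  ⨅ (i : Fin N) (_ : (i : ℕ) < m), H (w i)

theorem combA_anti (H : Ω → Submodule k V) (w : Fin N → Ω) (m : ℕ) :
    combA H w (m + 1) ≤ combA H w m := by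
  unfold combA
  exact le_iInf₂ fun i hi => iInf₂_le i (hi.trans (Nat.lt_succ_self m))

theorem combA_le (H : Ω → Submodule k V) (w : Fin N → Ω) (j : Fin N) :
    combA H w ((j : ℕ) + 1) ≤ H (w j) := by
  unfold combA
  exact iInf₂_le j (Nat.lt_succ_self _)

theorem combA_ge (H : Ω → Submodule k V) (w : Fin N → Ω) (m : ℕ) :
    (⨅ j, H (w j)) ≤ combA H w m := by
  unfold combA
  exact le_iInf₂ fun i _ => iInf_le (fun j => H (w j)) i

theorem combA_congr (H : Ω → Submodule k V) {w w' : Fin N → Ω} (j : Fin N)
    (h : ∀ i, i ≠ j → w i = w' i) : combA H w (j : ℕ) = combA H w' (j : ℕ) := by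
  unfold combA
  refine iInf_congr fun i => iInf_congr fun hi => ?_
  rw [h i (fun e => by rw [e] at hi; exact lt_irrefl _ hi)]

theorem combA_drop [FiniteDimensional k V] (H : Ω → Submodule k V) (w : Fin N → Ω)
    (h : ∀ j : Fin N, ¬ combA H w (j : ℕ) ≤ H (w j)) :
    ∀ m, m ≤ N → Module.finrank k (combA H w m) + m ≤ Module.finrank k V := by
  intro m
  induction m with
  | zero => intro _; exact Submodule.finrank_le _
  | succ m ih =>
    intro hm
    have h1 := ih (by omega)
    have h2 : combA H w (m + 1) < combA H w m := by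
      refine lt_of_le_of_ne (combA_anti H w m) fun e => ?_
      apply h ⟨m, hm⟩
      change combA H w m ≤ _
      rw [← e]
      exact combA_le H w ⟨m, hm⟩
    have h3 := Submodule.finrank_lt_finrank_of_lt h2
    omega

theorem comb_exists [FiniteDimensional k V] (H : Ω → Submodule k V) (V0 : Submodule k V)
    (hN : Module.finrank k V ≤ N) (w : Fin N → Ω) (hw : ¬ (⨅ j, H (w j)) ≤ V0) :
    ∃ j : Fin N, combA H w (j : ℕ) ≤ H (w j) := by
  by_contra hcon
  push Not at hcon
  have h1 := combA_drop H w hcon N le_rfl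
  have h2 : Module.finrank k (combA H w N) = 0 := by omega
  have h3 : combA H w N = ⊥ := Submodule.finrank_eq_zero.1 h2
  apply hw
  refine (combA_ge H w N).trans ?_
  rw [h3]
  exact bot_le

open Classical in
/-- an element of `A` outside `V0` -/
noncomputable def combX (V0 A : Submodule k V) : V :=
  if h : ∃ x, x ∈ A ∧ x ∉ V0 then h.choose else 0

theorem combX_spec {V0 A : Submodule k V} (h : ¬ A ≤ V0) : combX V0 A ∈ A ∧ combX V0 A ∉ V0 := by
  have h' : ∃ x, x ∈ A ∧ x ∉ V0 := by
    rw [SetLike.le_def] at h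
    push Not at h
    exact h
  unfold combX
  rw [dif_pos h']
  exact h'.choose_spec

open Classical in
theorem comb_card [Fintype Ω] (H : Ω → Submodule k V) (V0 : Submodule k V) (B : ℕ)
    (hB : ∀ x, x ∉ V0 → Nat.card {w : Ω // x ∈ H w} ≤ B) (j : Fin N) :
    (Finset.univ.filter fun w : Fin N → Ω => ¬ combA H w (j : ℕ) ≤ V0 ∧
      combX V0 (combA H w (j : ℕ)) ∈ H (w j)).card ≤ B * Fintype.card Ω ^ (N - 1) := by
  have h1 := Finset.card_le_mul_card_image (s := Finset.univ.filter fun w : Fin N → Ω =>
      ¬ combA H w (j : ℕ) ≤ V0 ∧ combX V0 (combA H w (j : ℕ)) ∈ H (w j))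
    (f := fun (w : Fin N → Ω) (i : {i : Fin N // i ≠ j}) => w i) B ?_
  · refine h1.trans (Nat.mul_le_mul_left _ ?_)
    refine (Finset.card_le_univ _).trans ?_
    rw [Fintype.card_fun, Fintype.card_subtype_compl, Fintype.card_fin]
    simp
  · intro a _
    by_cases hne : ∃ w0 : Fin N → Ω, (¬ combA H w0 (j : ℕ) ≤ V0 ∧
        combX V0 (combA H w0 (j : ℕ)) ∈ H (w0 j)) ∧ (fun (i : {i : Fin N // i ≠ j}) => w0 i) = a
    · obtain ⟨w0, ⟨h2, h3⟩, h4⟩ := hne
      have h5 := hB _ (combX_spec h2).2
      refine le_trans ?_ h5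
      rw [Nat.card_eq_fintype_card, Fintype.card_subtype]
      have hcong : ∀ w : Fin N → Ω, (fun (i : {i : Fin N // i ≠ j}) => w i) = a →
          combA H w (j : ℕ) = combA H w0 (j : ℕ) := by
        intro w hw
        refine combA_congr H j fun i hi => ?_
        have := congrFun (hw.trans h4.symm) ⟨i, hi⟩
        exact this
      refine Finset.card_le_card_of_injOn (fun w => w j) ?_ ?_
      · intro w hw
        rw [Finset.mem_coe, Finset.mem_filter, Finset.mem_filter] at hw
        rw [Finset.mem_coe, Finset.mem_filter]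
        refine ⟨Finset.mem_univ _, ?_⟩
        rw [← hcong w hw.2]
        exact hw.1.2.2
      · intro w hw w' hw' he
        rw [Finset.mem_coe, Finset.mem_filter] at hw hw'
        funext i
        by_cases hi : i = j
        · rw [hi]; exact he
        · exact congrFun (hw.2.trans hw'.2.symm) ⟨i, hi⟩
    · rw [Finset.card_eq_zero.2]
      · exact Nat.zero_le _
      · rw [Finset.filter_eq_empty_iff]
        intro w hw he
        rw [Finset.mem_filter] at hw
        exact hne ⟨w, hw.2, he⟩

end comb_aux

/- Let V_j = inf of H (w i), i < j. If V_N is not contained in V0, no V_j is. As dim V_0 ≤ N, there is j < N with V_{j+1} = V_j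
(otherwise the dimension drops N times and V_N = 0 ≤ V0). For a subspace A not contained in V0 fix an element x(A) in A, not in V0.
With A = V_j (which depends only on w i, i < j) we get x(A) in H (w j): at most B choices of w j for given other coordinates. So the
number of bad w is at most N * B * |Ω|^(N-1). -/
/-- TARGET -/
theorem comb : StmtComb := by
  classical
  intro k _ V _ _ _ Ω _ H V0 N B hN hB
  rw [Nat.card_eq_fintype_card, Fintype.card_subtype]
  have hsub : (Finset.univ.filter fun w : Fin N → Ω => ¬ (⨅ j, H (w j)) ≤ V0) ⊆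
      Finset.univ.biUnion fun j : Fin N => Finset.univ.filter fun w : Fin N → Ω =>
        ¬ combA H w (j : ℕ) ≤ V0 ∧ combX V0 (combA H w (j : ℕ)) ∈ H (w j) := by
    intro w hw
    rw [Finset.mem_filter] at hw
    obtain ⟨j, hj⟩ := comb_exists H V0 hN w hw.2
    have h1 : ¬ combA H w (j : ℕ) ≤ V0 := fun h => hw.2 ((combA_ge H w _).trans h)
    rw [Finset.mem_biUnion]
    refine ⟨j, Finset.mem_univ _, ?_⟩
    rw [Finset.mem_filter]
    exact ⟨Finset.mem_univ _, h1, hj (combX_spec h1).1⟩
  have h2 := (Finset.card_le_card hsub).trans Finset.card_biUnion_le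
  have h3 := h2.trans (Finset.sum_le_card_nsmul _ _ _ fun j _ => comb_card H V0 B hB j)
  rw [Finset.card_univ, Fintype.card_fin, smul_eq_mul] at h3
  rcases Nat.eq_zero_or_pos N with h0 | h0
  · subst h0
    rw [zero_mul] at h3
    rw [Nat.le_zero.1 h3]
    simp
  · refine (Nat.mul_le_mul_right _ h3).trans ?_
    have h4 : Fintype.card Ω ^ N = Fintype.card Ω ^ (N - 1) * Fintype.card Ω := by
      rw [← pow_succ]; congr 1; omega
    rw [h4]
    apply le_of_eq
    ring
end Pool.Agent.H330AB.JR3
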