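import Pool.Agent.H330AB.StmtsA
set_option autoImplicit false
noncomputable section
namespace Pool.Agent.H330AB.JR4
open Polynomial Pool.Agent.H330FB
/- Special case of StmtMaxGen: ι = Fin n × Fin n, m = n, m' = s, β G l = the coefficients with index m, 2n-1 ≤ m < s, of
∑ l_i ev (φ i) (bpol G) (and 0 at the other indices); E0 s φ G l says β G l = 0, so the span is the kernel. -/
theorem maxCount_ev {k : Type} [Field k] {n : ℕ} (φ : PowerSeries k) (G : Fin n → Fin n → k) :
    ev φ (bpol G) = ∑ p : Fin n × Fin n,
      PowerSeries.C (G p.1 p.2) * ((PowerSeries.X : PowerSeries k) ^ (p.2 : ℕ) * φ ^ (p.1 : ℕ)) := by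
  unfold ev bpol
  rw [Polynomial.eval₂_finsetSum, Fintype.sum_prod_type]
  refine Finset.sum_congr rfl fun i _ => ?_
  rw [Polynomial.eval₂_mul, Polynomial.eval₂_C, Polynomial.eval₂_pow, Polynomial.eval₂_X, map_sum,
    Finset.sum_mul]
  refine Finset.sum_congr rfl fun j _ => ?_
  rw [map_mul, map_pow, mul_assoc]
  congr 1
  · simp
  · simp

/-- the bilinear map -/
noncomputable def maxCount_beta {k : Type} [Field k] {n : ℕ} (s : ℕ) (φ : Fin n → PowerSeries k) :
    (Fin n × Fin n → k) →ₗ[k] (Fin n → k) →ₗ[k] (Fin s → k) :=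
  LinearMap.mk₂ k (fun v l => fun m : Fin s => if 2 * n - 1 ≤ (m : ℕ) then
      ∑ i, ∑ p : Fin n × Fin n, l i * (v p * PowerSeries.coeff (m : ℕ)
        ((PowerSeries.X : PowerSeries k) ^ (p.2 : ℕ) * φ i ^ (p.1 : ℕ))) else 0)
    (by
      intro v v' l
      ext m
      simp only [Pi.add_apply]
      split_ifs
      · rw [← Finset.sum_add_distrib]
        refine Finset.sum_congr rfl fun i _ => ?_
        rw [← Finset.sum_add_distrib]
        refine Finset.sum_congr rfl fun p _ => ?_
        ring
      · simp)
    (by
      intro c v l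
      ext m
      simp only [Pi.smul_apply, smul_eq_mul]
      split_ifs
      · rw [Finset.mul_sum]
        refine Finset.sum_congr rfl fun i _ => ?_
        rw [Finset.mul_sum]
        refine Finset.sum_congr rfl fun p _ => ?_
        ring
      · simp)
    (by
      intro v l l'
      ext m
      simp only [Pi.add_apply]
      split_ifs
      · rw [← Finset.sum_add_distrib]
        refine Finset.sum_congr rfl fun i _ => ?_
        rw [← Finset.sum_add_distrib]
        refine Finset.sum_congr rfl fun p _ => ?_
        ring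
      · simp)
    (by
      intro c v l
      ext m
      simp only [Pi.smul_apply, smul_eq_mul]
      split_ifs
      · rw [Finset.mul_sum]
        refine Finset.sum_congr rfl fun i _ => ?_
        rw [Finset.mul_sum]
        refine Finset.sum_congr rfl fun p _ => ?_
        ring
      · simp)

theorem maxCount_E0 {k : Type} [Field k] {n : ℕ} (s : ℕ) (φ : Fin n → PowerSeries k)
    (G : Fin n → Fin n → k) (l : Fin n → k) :
    E0 s φ G l ↔ l ∈ LinearMap.ker (maxCount_beta s φ (fun p => G p.1 p.2)) := by
  have key : ∀ m : ℕ, PowerSeries.coeff m (∑ i, PowerSeries.C (l i) * ev (φ i) (bpol G)) =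
      ∑ i, ∑ p : Fin n × Fin n, l i * (G p.1 p.2 * PowerSeries.coeff m
        ((PowerSeries.X : PowerSeries k) ^ (p.2 : ℕ) * φ i ^ (p.1 : ℕ))) := by
    intro m
    rw [map_sum]
    refine Finset.sum_congr rfl fun i _ => ?_
    rw [PowerSeries.coeff_C_mul, maxCount_ev, map_sum, Finset.mul_sum]
    refine Finset.sum_congr rfl fun p _ => ?_
    rw [PowerSeries.coeff_C_mul]
  rw [LinearMap.mem_ker]
  constructor
  · intro h
    ext m
    simp only [maxCount_beta, LinearMap.mk₂_apply, Pi.zero_apply]
    split_ifs with hm
    · rw [← key]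
      exact h m hm m.isLt
    · rfl
  · intro h m hm hms
    have h1 := congrFun h ⟨m, hms⟩
    simp only [maxCount_beta, LinearMap.mk₂_apply, Pi.zero_apply] at h1
    rw [if_pos hm] at h1
    rw [key]
    exact h1

/-- TARGET -/
theorem maxCount (h : StmtMaxGen) : StmtMaxCount := by
  intro k _ n s φ T
  have h1 := h k (Fin n × Fin n) n s (maxCount_beta s φ) T
  rw [Fintype.card_prod, Fintype.card_fin] at h1
  have hset : ∀ G : Fin n → Fin n → k, Submodule.span k {l | E0 s φ G l} =
      LinearMap.ker (maxCount_beta s φ (fun p => G p.1 p.2)) := by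
    intro G
    have e : {l | E0 s φ G l} =
        (LinearMap.ker (maxCount_beta s φ (fun p => G p.1 p.2)) : Set (Fin n → k)) := by
      ext l
      exact maxCount_E0 s φ G l
    rw [e, Submodule.span_eq]
  have hmax : ∀ G : Fin n → Fin n → k, MaxG s φ G ↔ ∀ v' : Fin n × Fin n → k,
      Module.finrank k (LinearMap.ker (maxCount_beta s φ (fun p => G p.1 p.2))) ≤
        Module.finrank k (LinearMap.ker (maxCount_beta s φ v')) := by
    intro G
    unfold MaxG
    constructor
    · intro hG v'
      have := hG (fun i j => v' (i, j))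
      rw [hset, hset] at this
      exact this
    · intro hG G'
      have := hG (fun p => G' p.1 p.2)
      rw [hset, hset]
      exact this
  have hcard : Nat.card {G : Fin n → Fin n → T // ¬ MaxG s φ (fun i j => (G i j : k))} =
      Nat.card {v : Fin n × Fin n → T // ¬ ∀ v' : Fin n × Fin n → k,
      Module.finrank k (LinearMap.ker (maxCount_beta s φ (fun i => (v i : k)))) ≤
        Module.finrank k (LinearMap.ker (maxCount_beta s φ v'))} := by
    refine Nat.card_congr ((Equiv.curry (Fin n) (Fin n) T).symm.subtypeEquiv fun G => ?_)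
    rw [hmax]
    rfl
  rw [hcard]
  exact h1

end Pool.Agent.H330AB.JR4
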