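import Pool.Agent.H330AB.StmtsA
set_option autoImplicit false
noncomputable section
namespace Pool.Agent.H330AB.JR5
open Polynomial Pool.Agent.H330FB

/-! ### the values of `lam` for a product of linear factors -/

private theorem rat_lam_add {A : Type} [CommRing A] (F c d : A[X]) :
    lam F (c + d) = lam F c + lam F d := by
  unfold lam
  rw [add_modByMonic, coeff_add]

private theorem rat_lam_zero {A : Type} [CommRing A] (F : A[X]) : lam F 0 = 0 := by
  unfold lam
  rw [zero_modByMonic, coeff_zero]

private theorem rat_lam_sum {A : Type} [CommRing A] (F : A[X]) {ι : Type} (t : Finset ι)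
    (c : ι → A[X]) : lam F (∑ i ∈ t, c i) = ∑ i ∈ t, lam F (c i) := by
  classical
  induction t using Finset.induction_on with
  | empty => simp [rat_lam_zero]
  | insert a t ha ih => rw [Finset.sum_insert ha, Finset.sum_insert ha, rat_lam_add, ih]

private theorem rat_lam_map {A B : Type} [CommRing A] [CommRing B] [Nontrivial B] (f : A →+* B)
    (F c : A[X]) (hF : F.Monic) : lam (F.map f) (c.map f) = f (lam F c) := by
  unfold lam
  rw [← map_modByMonic f hF, coeff_map, hF.natDegree_map]

private theorem rat_deg_C_mul {A : Type} [CommRing A] (c : A) (p : A[X]) :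
    (C c * p).degree ≤ p.degree := by
  refine (degree_mul_le _ _).trans ?_
  calc (C c).degree + p.degree ≤ 0 + p.degree := by gcongr; exact degree_C_le
    _ = p.degree := zero_add _

private theorem rat_lam_one {A : Type} [CommRing A] [Nontrivial A] {n : ℕ} (ψ : Fin n → A)
    (H : A[X]) (i : Fin n) (c : A) :
    lam (∏ i, (X - C (ψ i))) (H * (C c * ∏ j ∈ Finset.univ.erase i, (X - C (ψ j)))) =
      c * H.eval (ψ i) := by
  classical
  set F : A[X] := ∏ i, (X - C (ψ i)) with hF
  set V : A[X] := ∏ j ∈ Finset.univ.erase i, (X - C (ψ j)) with hV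
  have hFV : F = (X - C (ψ i)) * V := by
    rw [hF, hV]
    exact (Finset.mul_prod_erase Finset.univ (fun j => X - C (ψ j)) (Finset.mem_univ i)).symm
  have hFm : F.Monic := monic_prod_of_monic _ _ fun j _ => monic_X_sub_C (ψ j)
  have hVm : V.Monic := monic_prod_of_monic _ _ fun j _ => monic_X_sub_C (ψ j)
  have hn : 0 < n := Fin.pos i
  have hFd : F.natDegree = n := by
    rw [hF, natDegree_prod_of_monic _ _ fun j _ => monic_X_sub_C (ψ j)]
    simp
  have hVd : V.natDegree = n - 1 := by
    rw [hV, natDegree_prod_of_monic _ _ fun j _ => monic_X_sub_C (ψ j)]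
    simp
  obtain ⟨D, hD⟩ : (X - C (ψ i)) ∣ H - C (H.eval (ψ i)) := by
    rw [dvd_iff_isRoot]
    simp
  have h1 : H * (C c * V) = F * (C c * D) + C (c * H.eval (ψ i)) * V := by
    have h2 : H = (X - C (ψ i)) * D + C (H.eval (ψ i)) := by rw [← hD]; ring
    calc H * (C c * V) = ((X - C (ψ i)) * D + C (H.eval (ψ i))) * (C c * V) := by rw [← h2]
      _ = F * (C c * D) + C (c * H.eval (ψ i)) * V := by rw [hFV, C_mul]; ring
  have hdeg : (C (c * H.eval (ψ i)) * V).degree < F.degree := by
    refine lt_of_le_of_lt (rat_deg_C_mul _ _) ?_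
    rw [degree_eq_natDegree hVm.ne_zero, degree_eq_natDegree hFm.ne_zero, hFd, hVd]
    exact_mod_cast (by omega : n - 1 < n)
  have h3 : (H * (C c * V)) %ₘ F = C (c * H.eval (ψ i)) * V := by
    rw [h1, add_modByMonic, (modByMonic_eq_zero_iff_dvd hFm).mpr (dvd_mul_right _ _), zero_add,
      (modByMonic_eq_self_iff hFm).mpr hdeg]
  unfold lam
  rw [h3, coeff_C_mul, hFd, ← hVd, hVm.coeff_natDegree, mul_one]

/-- the polynomial with the values `l i S'(ψ i)` -/
private noncomputable def rat_V {A : Type} [CommRing A] {n : ℕ} (ψ l : Fin n → A) : A[X] :=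
  ∑ i, C (l i) * ∏ j ∈ Finset.univ.erase i, (X - C (ψ j))

private theorem rat_lam_V {A : Type} [CommRing A] [Nontrivial A] {n : ℕ} (ψ l : Fin n → A)
    (H : A[X]) : lam (∏ i, (X - C (ψ i))) (H * rat_V ψ l) = ∑ i, l i * H.eval (ψ i) := by
  rw [rat_V, Finset.mul_sum, rat_lam_sum]
  exact Finset.sum_congr rfl fun i _ => rat_lam_one ψ H i (l i)

private theorem rat_deriv {A : Type} [CommRing A] {n : ℕ} (ψ : Fin n → A) :
    derivative (∏ i, (X - C (ψ i))) = rat_V ψ (fun _ => 1) := by
  classical
  rw [derivative_prod_finset, rat_V]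
  apply Finset.sum_congr rfl
  intro i _
  simp

private theorem rat_V_eval {A : Type} [CommRing A] {n : ℕ} (ψ l : Fin n → A) (i : Fin n) :
    (rat_V ψ l).eval (ψ i) = l i * (rat_V ψ (fun _ => 1)).eval (ψ i) := by
  classical
  have h : ∀ l : Fin n → A, (rat_V ψ l).eval (ψ i) =
      l i * ∏ j ∈ Finset.univ.erase i, (ψ i - ψ j) := by
    intro l
    rw [rat_V, eval_finsetSum, Finset.sum_eq_single i]
    · rw [eval_mul, eval_C, eval_prod]
      simp
    · intro b _ hb
      rw [eval_mul, eval_prod]
      have h1 : ∏ j ∈ Finset.univ.erase b, (X - C (ψ j)).eval (ψ i) = 0 := by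
        apply Finset.prod_eq_zero (Finset.mem_erase.mpr ⟨hb.symm, Finset.mem_univ i⟩)
        simp
      rw [h1, mul_zero]
    · intro h
      exact absurd (Finset.mem_univ i) h
  rw [h l, h fun _ => 1, one_mul]

private theorem rat_V_degree {A : Type} [CommRing A] [Nontrivial A] {n : ℕ} (hn : 1 ≤ n)
    (ψ l : Fin n → A) : (rat_V ψ l).degree < n := by
  classical
  rw [rat_V]
  refine lt_of_le_of_lt (degree_sum_le _ _) ?_
  rw [Finset.sup_lt_iff (by exact_mod_cast WithBot.bot_lt_coe n)]
  intro i _
  refine lt_of_le_of_lt (rat_deg_C_mul _ _) ?_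
  have hVm : (∏ j ∈ Finset.univ.erase i, (X - C (ψ j))).Monic :=
    monic_prod_of_monic _ _ fun j _ => monic_X_sub_C (ψ j)
  have hVd : (∏ j ∈ Finset.univ.erase i, (X - C (ψ j))).natDegree = n - 1 := by
    rw [natDegree_prod_of_monic _ _ fun j _ => monic_X_sub_C (ψ j)]
    simp
  rw [degree_eq_natDegree hVm.ne_zero, hVd]
  exact_mod_cast (by omega : n - 1 < n)

/-! ### total degree -/

private theorem rat_TD_mul {A : Type} [CommRing A] {f g : A[X][X]} {a b : ℕ} (hf : TD f a)
    (hg : TD g b) : TD (f * g) (a + b) := by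
  intro i j hij
  rw [coeff_mul, finsetSum_coeff]
  apply Finset.sum_eq_zero
  rintro ⟨i1, i2⟩ hi
  rw [Finset.HasAntidiagonal.mem_antidiagonal] at hi
  rw [coeff_mul]
  apply Finset.sum_eq_zero
  rintro ⟨j1, j2⟩ hj
  rw [Finset.HasAntidiagonal.mem_antidiagonal] at hj
  simp only at hi hj ⊢
  by_cases h : a < i1 + j1
  · rw [hf i1 j1 h, zero_mul]
  · rw [hg i2 j2 (by omega), mul_zero]

private theorem rat_TD_deriv {A : Type} [CommRing A] {f : A[X][X]} {a : ℕ} (hf : TD f a)
    (ha : 1 ≤ a) : TD (derivative f) (a - 1) := by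
  intro i j hij
  rw [coeff_derivative]
  have h1 : ((i : A[X]) + 1) = C ((i : A) + 1) := by simp
  rw [h1, coeff_mul_C, hf (i + 1) j (by omega), zero_mul]

private theorem rat_TD_bpol {K : Type} [Field K] {n : ℕ} (hn : 1 ≤ n) (G : Fin n → Fin n → K) :
    TD (bpol G) (2 * n - 2) := by
  intro i j hij
  rw [bpol, finsetSum_coeff, finsetSum_coeff]
  apply Finset.sum_eq_zero
  intro a _
  rw [coeff_C_mul, coeff_X_pow]
  split_ifs with h
  · rw [mul_one, finsetSum_coeff]
    apply Finset.sum_eq_zero
    intro b _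
    rw [coeff_C_mul, coeff_X_pow, if_neg, mul_zero]
    have ha := a.2
    have hb := b.2
    omega
  · rw [mul_zero, coeff_zero]

section

variable {k : Type} [Field k]

private theorem rat_bpol_add {n : ℕ} (G G' : Fin n → Fin n → k) :
    bpol (G + G') = bpol G + bpol G' := by
  simp only [bpol, Pi.add_apply, C_add, add_mul, Finset.sum_add_distrib, map_sum]

private theorem rat_bpol_smul {n : ℕ} (c : k) (G : Fin n → Fin n → k) :
    bpol (c • G) = C (C c) * bpol G := by
  simp only [bpol, Pi.smul_apply, smul_eq_mul, C_mul, map_sum, Finset.mul_sum, Finset.sum_mul]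
  apply Finset.sum_congr rfl
  intro i _
  apply Finset.sum_congr rfl
  intro j _
  ring

private theorem rat_ev_add (φ : PowerSeries k) (G H : k[X][X]) :
    ev φ (G + H) = ev φ G + ev φ H := by
  rw [ev, ev, ev, eval₂_add]

private theorem rat_ev_mul (φ : PowerSeries k) (G H : k[X][X]) :
    ev φ (G * H) = ev φ G * ev φ H := by
  rw [ev, ev, ev, eval₂_mul]

private theorem rat_ev_CC (φ : PowerSeries k) (c : k) :
    ev φ (C (C c)) = PowerSeries.C c := by
  rw [ev, eval₂_C]
  simp

/-- the bilinear map -/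
private noncomputable def rat_β {n : ℕ} (s : ℕ) (φ : Fin n → PowerSeries k) :
    (Fin n → Fin n → k) →ₗ[k] (Fin n → k) →ₗ[k] (ℕ → k) :=
  LinearMap.mk₂ k (fun G l m => if 2 * n - 1 ≤ m ∧ m < s then
      PowerSeries.coeff m (∑ i, PowerSeries.C (l i) * ev (φ i) (bpol G)) else 0)
    (by
      intro G G' l
      funext m
      simp only [Pi.add_apply]
      split_ifs
      · rw [← map_add, ← Finset.sum_add_distrib]
        congr 1
        apply Finset.sum_congr rfl
        intro i _
        rw [rat_bpol_add, rat_ev_add]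
        ring
      · simp)
    (by
      intro c G l
      funext m
      simp only [Pi.smul_apply, smul_eq_mul]
      split_ifs
      · rw [← PowerSeries.coeff_C_mul, Finset.mul_sum]
        congr 1
        apply Finset.sum_congr rfl
        intro i _
        rw [rat_bpol_smul, rat_ev_mul, rat_ev_CC]
        ring
      · simp)
    (by
      intro G l l'
      funext m
      simp only [Pi.add_apply]
      split_ifs
      · rw [← map_add, ← Finset.sum_add_distrib]
        congr 1
        apply Finset.sum_congr rfl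
        intro i _
        rw [map_add]
        ring
      · simp)
    (by
      intro c G l
      funext m
      simp only [Pi.smul_apply, smul_eq_mul]
      split_ifs
      · rw [← PowerSeries.coeff_C_mul, Finset.mul_sum]
        congr 1
        apply Finset.sum_congr rfl
        intro i _
        rw [map_mul]
        ring
      · simp)

private theorem rat_β_eq {n : ℕ} (s : ℕ) (φ : Fin n → PowerSeries k) (G : Fin n → Fin n → k)
    (l : Fin n → k) : rat_β s φ G l = 0 ↔ E0 s φ G l := by
  constructor
  · intro h m h1 h2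
    have h3 := congrFun h m
    have h4 : (if 2 * n - 1 ≤ m ∧ m < s then
      PowerSeries.coeff m (∑ i, PowerSeries.C (l i) * ev (φ i) (bpol G)) else 0) = 0 := h3
    rwa [if_pos ⟨h1, h2⟩] at h4
  · intro h
    funext m
    show (if 2 * n - 1 ≤ m ∧ m < s then
      PowerSeries.coeff m (∑ i, PowerSeries.C (l i) * ev (φ i) (bpol G)) else 0) = 0
    split_ifs with h1
    · exact h m h1.1 h1.2
    · rfl

private theorem rat_span {n : ℕ} (s : ℕ) (φ : Fin n → PowerSeries k) (G : Fin n → Fin n → k) :
    Submodule.span k {l | E0 s φ G l} = LinearMap.ker (rat_β s φ G) := by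
  have h : {l | E0 s φ G l} = (LinearMap.ker (rat_β s φ G) : Set (Fin n → k)) := by
    ext l
    rw [SetLike.mem_coe, LinearMap.mem_ker, rat_β_eq]
    rfl
  rw [h, Submodule.span_eq]

/-- the constant vector solves the first equations -/
private theorem rat_one (hM : StmtTDMod) {n s : ℕ} {S : k[X][X]} {φ : Fin n → PowerSeries k}
    (hR : Rts S φ) (G : Fin n → Fin n → k) : E0 s φ G (fun _ => 1) := by
  intro m h1 _
  have hn := hR.pos
  have e1 : ∑ i, PowerSeries.C ((fun _ => 1 : Fin n → k) i) * ev (φ i) (bpol G) =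
      Polynomial.coeToPowerSeries.ringHom (lam S (bpol G * derivative S)) := by
    rw [← rat_lam_map _ S _ hR.monic, Polynomial.map_mul, ← derivative_map, hR.prod, rat_deriv,
      rat_lam_V]
    apply Finset.sum_congr rfl
    intro i _
    rw [map_one, one_mul, one_mul, ev, eval_map]
  rw [e1]
  have hTD : TD (bpol G * derivative S) (2 * n - 2 + (n - 1)) :=
    rat_TD_mul (rat_TD_bpol hn G) (rat_TD_deriv hR.td hn)
  have htd := hR.td
  rw [← hR.deg] at htd
  have h2 := (hM k S (bpol G * derivative S) _ hR.monic htd hTD).1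
  show PowerSeries.coeff m ((lam S (bpol G * derivative S) : k[X]) : PowerSeries k) = 0
  rw [Polynomial.coeff_coe, lam, hR.deg]
  exact h2 _ _ (by omega)

end

/-- TARGET -/
theorem rat (hT : StmtTan) (hE : StmtLemmaE) (hM : StmtTDMod) : StmtRat := by
  intro k _ _ n s S φ G hR hs hG l hl
  have hn := hR.pos
  have hinf : Infinite k := IsAlgClosed.instInfinite
  -- the quotient ring
  set I : Ideal (PowerSeries k) := Ideal.span {(PowerSeries.X : PowerSeries k) ^ s} with hI
  have hItop : I ≠ ⊤ := by
    rw [hI, Ne, Ideal.span_singleton_eq_top, isUnit_pow_iff (by omega)]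
    exact PowerSeries.X_prime.not_isUnit
  have hnt : Nontrivial (PowerSeries k ⧸ I) := Ideal.Quotient.nontrivial_iff.mpr hItop
  set q : PowerSeries k →+* PowerSeries k ⧸ I := Ideal.Quotient.mk I with hq
  have hq0 : ∀ f : PowerSeries k, q f = 0 ↔ (PowerSeries.X : PowerSeries k) ^ s ∣ f := by
    intro f
    rw [hq, Ideal.Quotient.eq_zero_iff_mem, hI, Ideal.mem_span_singleton]
  set π : k[X] →+* PowerSeries k ⧸ I := q.comp Polynomial.coeToPowerSeries.ringHom with hπ
  have hker : ∀ f : k[X], π f = 0 ↔ X ^ s ∣ f := by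
    intro f
    rw [hπ, RingHom.comp_apply, hq0, PowerSeries.X_pow_dvd_iff, Polynomial.X_pow_dvd_iff]
    apply forall_congr'
    intro m
    apply imp_congr_right
    intro _
    show PowerSeries.coeff m ((f : k[X]) : PowerSeries k) = 0 ↔ _
    rw [Polynomial.coeff_coe]
  set ψ : Fin n → PowerSeries k ⧸ I := fun i => q (φ i) with hψ
  set lq : Fin n → PowerSeries k ⧸ I := fun i => q (PowerSeries.C (l i)) with hlq
  have hSπ : S.map π = ∏ i, (X - C (ψ i)) := by
    rw [hπ, ← Polynomial.map_map, hR.prod, Polynomial.map_prod]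
    apply Finset.prod_congr rfl
    intro i _
    simp [hψ]
  have hevq : ∀ (i : Fin n) (H : k[X][X]), (H.map π).eval (ψ i) = q (ev (φ i) H) := by
    intro i H
    rw [eval_map, ev, hom_eval₂]
  have hV := rat_V_degree hn ψ lq
  -- the space of the solutions for `l`
  set W : Submodule k (Fin n → Fin n → k) := LinearMap.ker ((rat_β s φ).flip l) with hW
  have hWmem : ∀ G' ∈ W, ∃ T : k[X], T.natDegree ≤ 2 * n - 2 ∧
      lam (S.map π) ((bpol G').map π * rat_V ψ lq) = π T := by
    intro G' hG'
    have h1 : E0 s φ G' l := by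
      rw [hW, LinearMap.mem_ker, LinearMap.flip_apply, rat_β_eq] at hG'
      exact hG'
    set P : PowerSeries k := ∑ i, PowerSeries.C (l i) * ev (φ i) (bpol G') with hP
    refine ⟨PowerSeries.trunc (2 * n - 1) P, ?_, ?_⟩
    · have h2 : 2 * n - 1 = (2 * n - 2) + 1 := by omega
      rw [h2]
      exact Nat.le_of_lt_succ (PowerSeries.natDegree_trunc_lt P (2 * n - 2))
    · rw [hSπ, rat_lam_V]
      have h3 : ∑ i, lq i * ((bpol G').map π).eval (ψ i) = q P := by
        rw [hP, map_sum]
        apply Finset.sum_congr rfl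
        intro i _
        rw [hevq, map_mul]
      rw [h3, hπ, RingHom.comp_apply, ← sub_eq_zero, ← map_sub, hq0, PowerSeries.X_pow_dvd_iff]
      intro m hm
      rw [map_sub]
      show PowerSeries.coeff m P -
        PowerSeries.coeff m ((PowerSeries.trunc (2 * n - 1) P : k[X]) : PowerSeries k) = 0
      rw [Polynomial.coeff_coe, PowerSeries.coeff_trunc]
      split_ifs with h4
      · rw [sub_self]
      · rw [sub_zero]
        exact h1 m (by omega) hm
  have hdim : n * n < Module.finrank k W + n := by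
    have h1 : LinearMap.range ((rat_β s φ).flip l) ≤ LinearMap.range (rat_β s φ G) := by
      rintro _ ⟨G', rfl⟩
      rw [LinearMap.flip_apply]
      refine hT k (Fin n → Fin n → k) (Fin n → k) (ℕ → k) (rat_β s φ) G ?_ l
        ((rat_β_eq s φ G l).mpr hl) G'
      intro G''
      have h2 := hG G''
      rwa [rat_span, rat_span] at h2
    have h2 := LinearMap.finrank_range_add_finrank_ker ((rat_β s φ).flip l)
    have h3 := LinearMap.finrank_range_add_finrank_ker (rat_β s φ G)
    have h4 := Submodule.finrank_mono h1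
    have h5 : 0 < Module.finrank k (LinearMap.ker (rat_β s φ G)) := by
      rw [Module.finrank_pos_iff]
      refine ⟨⟨⟨fun _ => 1, LinearMap.mem_ker.mpr ((rat_β_eq s φ G _).mpr (rat_one hM hR G))⟩,
        0, ?_⟩⟩
      intro h
      have h6 := congrFun (congrArg Subtype.val h) ⟨0, hn⟩
      exact one_ne_zero h6
    have h6 : Module.finrank k (Fin n → Fin n → k) = n * n := by
      rw [Module.finrank_pi_fintype]
      simp
    have h7 : Module.finrank k (Fin n → k) = n := by simp
    rw [h6] at h2
    rw [h7] at h3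
    rw [hW]
    omega
  obtain ⟨δ, U, hδ0, hδ, hU, hUTD, hUV⟩ := hE k (PowerSeries k ⧸ I) π s hker S n hR.monic hR.deg hn
    hR.td (rat_V ψ lq) hV n (2 * n - 2) n hn le_rfl (by omega) W hWmem hdim
  refine ⟨δ, U, hδ0, hδ, hU, ?_, ?_⟩
  · have h1 : 2 * n - 2 + n + n = 4 * n - 2 := by omega
    rwa [h1] at hUTD
  · intro i
    have h1 := congrArg (fun f => f.eval (ψ i)) hUV
    simp only [eval_mul, eval_C] at h1
    rw [hevq, rat_V_eval, ← rat_deriv, ← hSπ, derivative_map, hevq] at h1
    rw [← hq0, map_sub, map_mul, map_mul, ← h1]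
    show π δ * (q (PowerSeries.C (l i)) * q (ev (φ i) (derivative S))) -
      q (PowerSeries.C (l i)) * π δ * q (ev (φ i) (derivative S)) = 0
    ring

end Pool.Agent.H330AB.JR5
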