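/- Common denominator (MP_2adc98_lc, owner helper330, project AB), R6 -/
import Pool.Agent.H330AB.StmtsA
set_option autoImplicit false
noncomputable section
namespace Pool.Agent.H330AB.JR6
open Polynomial Pool.Agent.H330FB

theorem uc_ev_mul {k : Type} [Field k] (φ : PowerSeries k) (A B : k[X][X]) : ev φ (A * B) = ev φ A * ev φ B := by
  unfold ev; exact eval₂_mul _ _

theorem uc_ev_add {k : Type} [Field k] (φ : PowerSeries k) (A B : k[X][X]) : ev φ (A + B) = ev φ A + ev φ B := by
  unfold ev; exact eval₂_add _ _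

theorem uc_ev_sub {k : Type} [Field k] (φ : PowerSeries k) (A B : k[X][X]) : ev φ (A - B) = ev φ A - ev φ B := by
  unfold ev; exact eval₂_sub _

theorem uc_ev_C {k : Type} [Field k] (φ : PowerSeries k) (c : k[X]) : ev φ (C c) = (c : PowerSeries k) := by
  unfold ev; rw [eval₂_C, Polynomial.coeToPowerSeries.ringHom_apply]

/-- uniqueness -/
theorem uc_key {k : Type} [Field k] {n s : ℕ} {φ : Fin n → PowerSeries k}
    (hinj : Function.Injective (fun i => PowerSeries.constantCoeff (φ i))) (hn : 1 ≤ n) (P : k[X][X]) (hP : P.degree < n)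
    (ht : ∀ i, (P.coeff i).natDegree < s) (hdvd : ∀ i, (PowerSeries.X : PowerSeries k) ^ s ∣ ev (φ i) P) : P = 0 := by
  classical
  have hnd : P.natDegree < n := by
    by_cases h0 : P = 0
    · rw [h0, natDegree_zero]; omega
    · exact (natDegree_lt_iff_degree_lt h0).2 hP
  set V : Matrix (Fin n) (Fin n) (PowerSeries k) := Matrix.vandermonde φ with hV
  set p : Fin n → PowerSeries k := fun j => ((P.coeff j : k[X]) : PowerSeries k) with hp
  have hmul : ∀ i, V.mulVec p i = ev (φ i) P := by
    intro i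
    unfold ev
    rw [eval₂_eq_sum_range' _ hnd, Finset.sum_range]
    simp only [Matrix.mulVec, dotProduct, hV, Matrix.vandermonde_apply, hp, Polynomial.coeToPowerSeries.ringHom_apply]
    exact Finset.sum_congr rfl fun j _ => mul_comm _ _
  have hdet : IsUnit V.det := by
    rw [PowerSeries.isUnit_iff_constantCoeff, isUnit_iff_ne_zero]
    have h1 : PowerSeries.constantCoeff V.det = (Matrix.vandermonde (fun i => PowerSeries.constantCoeff (φ i))).det := by
      rw [hV, Matrix.det_vandermonde, Matrix.det_vandermonde, map_prod]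
      refine Finset.prod_congr rfl fun i _ => ?_
      rw [map_prod]
      refine Finset.prod_congr rfl fun j _ => ?_
      rw [map_sub]
    rw [h1, Matrix.det_vandermonde_ne_zero_iff]
    exact hinj
  have hadj : V.adjugate.mulVec (V.mulVec p) = V.det • p := by
    rw [Matrix.mulVec_mulVec, Matrix.adjugate_mul, Matrix.smul_mulVec, Matrix.one_mulVec]
  have hpd : ∀ j, (PowerSeries.X : PowerSeries k) ^ s ∣ p j := by
    intro j
    have h1 : (PowerSeries.X : PowerSeries k) ^ s ∣ (V.det • p) j := by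
      rw [← hadj]
      show (PowerSeries.X : PowerSeries k) ^ s ∣ ∑ i, V.adjugate j i * V.mulVec p i
      refine Finset.dvd_sum fun i _ => ?_
      rw [hmul i]
      exact Dvd.dvd.mul_left (hdvd i) _
    rw [Pi.smul_apply, smul_eq_mul] at h1
    exact (IsUnit.dvd_mul_left hdet).1 h1
  ext i m
  rw [coeff_zero, coeff_zero]
  by_cases hi : i < n
  · by_cases hm : m < s
    · have h2 := (PowerSeries.X_pow_dvd_iff.1 (hpd ⟨i, hi⟩)) m hm
      rw [hp] at h2
      simpa using h2
    · exact coeff_eq_zero_of_natDegree_lt (lt_of_lt_of_le (ht i) (not_lt.1 hm))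
  · rw [coeff_eq_zero_of_natDegree_lt (by omega : P.natDegree < i), coeff_zero]

theorem uc_td {k : Type} [Field k] {U : k[X][X]} {N : ℕ} (h : TD U N) (i : ℕ) : (U.coeff i).natDegree ≤ N := by
  rw [natDegree_le_iff_coeff_eq_zero]
  intro j hj
  exact h i j (by omega)

/-- linear relations between data -/
theorem uc_lin {k : Type} [Field k] {n s : ℕ} {S : k[X][X]} {φ : Fin n → PowerSeries k} (hS : Rts S φ) (hs : 12 * n + 20 ≤ s)
    {l1 l2 l : Fin n → k} {δ1 δ2 δ : k[X]} {U1 U2 U : k[X][X]} (c : k) (hl : l = c • l1 + l2)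
    (h1 : Rat s S φ l1 δ1 U1) (h2 : Rat s S φ l2 δ2 U2) (h : Rat s S φ l δ U) :
    C (δ1 * δ2) * U = C δ * (C (δ2 * C c) * U1 + C δ1 * U2) := by
  have hn := hS.pos
  obtain ⟨a1, a2, a3, a4, a5⟩ := h1
  obtain ⟨b1, b2, b3, b4, b5⟩ := h2
  obtain ⟨c1, c2, c3, c4, c5⟩ := h
  have hb : (⊥ : WithBot ℕ) < n := WithBot.bot_lt_coe n
  have hCm : ∀ (x : k[X]) (W : k[X][X]), W.degree < n → (C x * W).degree < n := by
    intro x W hW
    refine lt_of_le_of_lt ?_ hW
    by_cases hx : x = 0
    · rw [hx, C_0, zero_mul, degree_zero]; exact bot_le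
    · rw [degree_C_mul hx]
  have hkey : C (δ1 * δ2) * U - C δ * (C (δ2 * C c) * U1 + C δ1 * U2) = 0 := by
    refine uc_key (s := s) hS.inj hn _ ?_ ?_ ?_
    · refine lt_of_le_of_lt (degree_sub_le _ _) (max_lt (hCm _ _ c3) (hCm _ _ ?_))
      exact lt_of_le_of_lt (degree_add_le _ _) (max_lt (hCm _ _ a3) (hCm _ _ b3))
    · intro i
      rw [coeff_sub, coeff_C_mul, coeff_C_mul, coeff_add, coeff_C_mul, coeff_C_mul]
      have d1 := uc_td a4 i
      have d2 := uc_td b4 i
      have d3 := uc_td c4 i
      have e1 : (δ1 * δ2 * U.coeff i).natDegree ≤ 6 * n := by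
        have := natDegree_mul_le (p := δ1 * δ2) (q := U.coeff i)
        have := natDegree_mul_le (p := δ1) (q := δ2)
        omega
      have e2 : (δ2 * C c * U1.coeff i).natDegree ≤ 5 * n := by
        have := natDegree_mul_le (p := δ2 * C c) (q := U1.coeff i)
        have := natDegree_mul_C_le δ2 c
        omega
      have e3 : (δ1 * U2.coeff i).natDegree ≤ 5 * n := by
        have := natDegree_mul_le (p := δ1) (q := U2.coeff i)
        omega
      have e4 : (δ2 * C c * U1.coeff i + δ1 * U2.coeff i).natDegree ≤ 5 * n :=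
        (natDegree_add_le _ _).trans (max_le e2 e3)
      have e5 : (δ * (δ2 * C c * U1.coeff i + δ1 * U2.coeff i)).natDegree ≤ 6 * n := by
        have := natDegree_mul_le (p := δ) (q := δ2 * C c * U1.coeff i + δ1 * U2.coeff i)
        omega
      have e6 := (natDegree_sub_le (δ1 * δ2 * U.coeff i) (δ * (δ2 * C c * U1.coeff i + δ1 * U2.coeff i))).trans (max_le e1 e5)
      omega
    · intro i
      obtain ⟨x, hx⟩ := a5 i
      obtain ⟨y, hy⟩ := b5 i
      obtain ⟨z, hz⟩ := c5 i
      rw [uc_ev_sub, uc_ev_mul, uc_ev_mul, uc_ev_add, uc_ev_mul, uc_ev_mul, uc_ev_C, uc_ev_C, uc_ev_C, uc_ev_C,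
        Polynomial.coe_mul, Polynomial.coe_mul, Polynomial.coe_C]
      refine ⟨(δ1 : PowerSeries k) * δ2 * z - δ * (δ2 * PowerSeries.C c * x + δ1 * y), ?_⟩
      have hli : PowerSeries.C (l i) = PowerSeries.C c * PowerSeries.C (l1 i) + PowerSeries.C (l2 i) := by
        rw [hl, ← map_mul, ← map_add]; rfl
      rw [hli] at hz
      have hx' : ev (φ i) U1 = PowerSeries.C (l1 i) * (δ1 : PowerSeries k) * ev (φ i) (derivative S) + PowerSeries.X ^ s * x := by
        rw [← hx]; ring
      have hy' : ev (φ i) U2 = PowerSeries.C (l2 i) * (δ2 : PowerSeries k) * ev (φ i) (derivative S) + PowerSeries.X ^ s * y := by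
        rw [← hy]; ring
      have hz' : ev (φ i) U = (PowerSeries.C c * PowerSeries.C (l1 i) + PowerSeries.C (l2 i)) * (δ : PowerSeries k) *
          ev (φ i) (derivative S) + PowerSeries.X ^ s * z := by
        rw [← hz]; ring
      rw [hx', hy', hz']
      ring
  exact sub_eq_zero.1 hkey

/-- the zero vector -/
theorem uc_zero {k : Type} [Field k] {n s : ℕ} {S : k[X][X]} {φ : Fin n → PowerSeries k} (hS : Rts S φ) :
    Rat s S φ 0 1 0 := by
  refine ⟨one_ne_zero, by rw [natDegree_one]; exact hS.pos, by rw [degree_zero]; exact WithBot.bot_lt_coe n, fun i j _ => by simp, fun i => ?_⟩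
  have : ev (φ i) (0 : k[X][X]) = 0 := by unfold ev; exact eval₂_zero _ _
  rw [this]
  simp

/-- division by `t - a` -/
theorem uc_div {k : Type} [Field k] {n s : ℕ} {S : k[X][X]} {φ : Fin n → PowerSeries k} {l : Fin n → k} {δ : k[X]} {U : k[X][X]}
    (h : Rat s S φ l δ U) {a : k} (ha : a ≠ 0) (hδ : δ.eval a = 0) (hU : U.map (evalRingHom a) = 0) :
    ∃ δ' U', Rat s S φ l δ' U' ∧ δ'.natDegree < δ.natDegree := by
  obtain ⟨c1, c2, c3, c4, c5⟩ := h
  obtain ⟨δ', hδ'⟩ := dvd_iff_isRoot.2 hδ
  have hdvd : C (X - C a) ∣ U := by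
    rw [C_dvd_iff_dvd_coeff]
    intro i
    rw [dvd_iff_isRoot, IsRoot.def]
    have := congrArg (fun W => W.coeff i) hU
    simpa [coeff_map] using this
  obtain ⟨U', hU'⟩ := hdvd
  have hXa : (X - C a : k[X]) ≠ 0 := X_sub_C_ne_zero a
  have hδ'0 : δ' ≠ 0 := by
    rintro rfl
    rw [mul_zero] at hδ'
    exact c1 hδ'
  have hnd : δ.natDegree = δ'.natDegree + 1 := by
    rw [hδ', natDegree_mul hXa hδ'0, natDegree_X_sub_C]; omega
  refine ⟨δ', U', ⟨hδ'0, by omega, ?_, ?_, ?_⟩, by omega⟩
  · rw [hU', degree_C_mul hXa] at c3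
    exact c3
  · intro i j hij
    have hcoe : U.coeff i = (X - C a) * U'.coeff i := by rw [hU', coeff_C_mul]
    by_cases h0 : U'.coeff i = 0
    · rw [h0, coeff_zero]
    · apply coeff_eq_zero_of_natDegree_lt
      have h1 : (U.coeff i).natDegree = (U'.coeff i).natDegree + 1 := by
        rw [hcoe, natDegree_mul hXa h0, natDegree_X_sub_C]; omega
      have h2 : i + (U.coeff i).natDegree ≤ 4 * n - 2 := by
        by_contra hcon
        have h3 := c4 i (U.coeff i).natDegree (by omega)
        rw [coeff_natDegree, leadingCoeff_eq_zero] at h3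
        rw [hcoe] at h3
        exact (mul_ne_zero hXa h0) h3
      omega
  · intro i
    have h1 := c5 i
    rw [hU', hδ', uc_ev_mul, uc_ev_C, Polynomial.coe_mul] at h1
    have hunit : IsUnit (((X - C a : k[X]) : PowerSeries k)) := by
      rw [PowerSeries.isUnit_iff_constantCoeff, isUnit_iff_ne_zero]
      simpa using ha
    have h2 : (PowerSeries.X : PowerSeries k) ^ s ∣ ((X - C a : k[X]) : PowerSeries k) *
        (ev (φ i) U' - PowerSeries.C (l i) * (δ' : PowerSeries k) * ev (φ i) (derivative S)) := by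
      convert h1 using 1
      ring
    exact (IsUnit.dvd_mul_left hunit).1 h2

theorem uc_smul {k : Type} [Field k] (c : k) (W : k[X][X]) : c • W = C (C c) * W := by
  ext i j
  rw [coeff_smul, coeff_C_mul, coeff_smul, coeff_C_mul, smul_eq_mul]

/-- TARGET -/
theorem uc : StmtUc := by
  classical
  intro k _ n s S φ M hS hs hM
  have hn := hS.pos
  choose δf Uf hf using fun l : M => hM l l.2
  set b := Module.finBasis k M with hb
  have hcard : Module.finrank k M ≤ n := by
    have := Submodule.finrank_le M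
    rwa [Module.finrank_fin_fun] at this
  set δc : k[X] := ∏ i, δf (b i) with hδc
  have hδc0 : δc ≠ 0 := Finset.prod_ne_zero_iff.2 fun i _ => (hf (b i)).1
  set Uc : M →ₗ[k] k[X][X] := b.constr k (fun i => C (∏ j ∈ Finset.univ.erase i, δf (b j)) * Uf (b i)) with hUc
  have hUcb : ∀ i, Uc (b i) = C (∏ j ∈ Finset.univ.erase i, δf (b j)) * Uf (b i) := fun i => by
    rw [hUc, Module.Basis.constr_basis]
  -- the defining relation
  have hrel : ∀ l : M, ∀ δ U, Rat s S φ l δ U → C δ * Uc l = C δc * U := by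
    intro l
    have hspan : l ∈ Submodule.span k (Set.range b) := by rw [b.span_eq]; exact Submodule.mem_top
    induction hspan using Submodule.span_induction with
    | mem x hx =>
      obtain ⟨i, rfl⟩ := hx
      intro δ U h
      have h1 := uc_lin hS hs (1 : k) (l := ((b i : M) : Fin n → k)) (l1 := ((b i : M) : Fin n → k)) (l2 := 0) (by simp)
        (hf (b i)) (uc_zero hS) h
      rw [mul_one, one_mul, C_1, C_1, one_mul, mul_zero, add_zero] at h1
      rw [hUcb i, hδc, ← Finset.mul_prod_erase _ _ (Finset.mem_univ i), C_mul]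
      calc C δ * (C (∏ j ∈ Finset.univ.erase i, δf (b j)) * Uf (b i))
          = C (∏ j ∈ Finset.univ.erase i, δf (b j)) * (C δ * Uf (b i)) := by ring
        _ = C (∏ j ∈ Finset.univ.erase i, δf (b j)) * (C (δf (b i)) * U) := by rw [h1]
        _ = _ := by ring
    | zero =>
      intro δ U h
      have h1 := uc_lin hS hs (0 : k) (l := ((0 : M) : Fin n → k)) (l1 := 0) (l2 := 0) (by simp)
        (uc_zero hS) (uc_zero hS) h
      simp only [mul_one, C_1, one_mul, mul_zero, add_zero] at h1
      rw [h1, map_zero, mul_zero, mul_zero]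
    | add x y _ _ hx hy =>
      intro δ U h
      have h1 := uc_lin hS hs (1 : k) (l := ((x + y : M) : Fin n → k)) (l1 := (x : Fin n → k)) (l2 := (y : Fin n → k))
        (by simp) (hf x) (hf y) h
      have h2 := hx _ _ (hf x)
      have h3 := hy _ _ (hf y)
      rw [C_1, mul_one, C_mul] at h1
      have h4 : (C (δf x) * C (δf y) : k[X][X]) ≠ 0 := mul_ne_zero (C_ne_zero.2 (hf x).1) (C_ne_zero.2 (hf y).1)
      apply mul_left_cancel₀ h4
      rw [map_add]
      calc C (δf x) * C (δf y) * (C δ * (Uc x + Uc y))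
          = C δ * (C (δf y) * (C (δf x) * Uc x) + C (δf x) * (C (δf y) * Uc y)) := by ring
        _ = C δ * (C (δf y) * (C δc * Uf x) + C (δf x) * (C δc * Uf y)) := by rw [h2, h3]
        _ = C δc * (C δ * (C (δf y) * Uf x + C (δf x) * Uf y)) := by ring
        _ = C δc * (C (δf x) * C (δf y) * U) := by rw [h1]
        _ = _ := by ring
    | smul c x _ hx =>
      intro δ U h
      have h1 := uc_lin hS hs c (l := ((c • x : M) : Fin n → k)) (l1 := (x : Fin n → k)) (l2 := 0)
        (by simp) (hf x) (uc_zero hS) h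
      have h2 := hx _ _ (hf x)
      rw [mul_one, one_mul, mul_zero, add_zero] at h1
      have h4 : (C (δf x) : k[X][X]) ≠ 0 := C_ne_zero.2 (hf x).1
      apply mul_left_cancel₀ h4
      rw [map_smul, uc_smul]
      calc C (δf x) * (C δ * (C (C c) * Uc x))
          = C δ * (C (C c) * (C (δf x) * Uc x)) := by ring
        _ = C δ * (C (C c) * (C δc * Uf x)) := by rw [h2]
        _ = C δc * (C δ * (C (C c) * Uf x)) := by ring
        _ = C δc * (C (δf x) * U) := by rw [h1]
        _ = _ := by ring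
  refine ⟨δc, Uc, hδc0, ?_, fun l => ⟨?_, hrel l, ?_⟩⟩
  · refine (natDegree_prod_le _ _).trans ?_
    calc ∑ i, (δf (b i)).natDegree ≤ ∑ _i : Fin (Module.finrank k M), n :=
          Finset.sum_le_sum fun i _ => (hf (b i)).2.1.le
      _ = Module.finrank k M * n := by simp
      _ ≤ n * n := Nat.mul_le_mul_right _ hcard
  · have h1 := hrel l _ _ (hf l)
    have h2 := congrArg degree h1
    rw [degree_C_mul (hf l).1, degree_C_mul hδc0] at h2
    rw [h2]
    exact (hf l).2.2.1
  · intro a ha hδa
    have main : ∀ m : ℕ, ∀ δ U, Rat s S φ l δ U → δ.natDegree ≤ m → ∃ δ U, Rat s S φ l δ U ∧ δ.eval a ≠ 0 := by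
      intro m
      induction m with
      | zero =>
        intro δ U h hm
        by_cases h0 : δ.eval a = 0
        · exfalso
          have h1 := congrArg (Polynomial.map (evalRingHom a)) (hrel l _ _ h)
          rw [Polynomial.map_mul, Polynomial.map_mul, map_C, map_C, coe_evalRingHom, h0, C_0, zero_mul] at h1
          have h2 := (mul_eq_zero.1 h1.symm).resolve_left (C_ne_zero.2 hδa)
          obtain ⟨_, _, _, h3⟩ := uc_div h ha h0 h2
          omega
        · exact ⟨δ, U, h, h0⟩
      | succ m ih =>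
        intro δ U h hm
        by_cases h0 : δ.eval a = 0
        · have h1 := congrArg (Polynomial.map (evalRingHom a)) (hrel l _ _ h)
          rw [Polynomial.map_mul, Polynomial.map_mul, map_C, map_C, coe_evalRingHom, h0, C_0, zero_mul] at h1
          have h2 := (mul_eq_zero.1 h1.symm).resolve_left (C_ne_zero.2 hδa)
          obtain ⟨δ', U', h3, h4⟩ := uc_div h ha h0 h2
          exact ih δ' U' h3 (by omega)
        · exact ⟨δ, U, h, h0⟩
    exact main _ _ _ (hf l) le_rfl
end Pool.Agent.H330AB.JR6
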