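import Pool.Agent.H330AB.StmtsA
set_option autoImplicit false
noncomputable section
namespace Pool.Agent.H330AB.JR7
open Polynomial Pool.Agent.H330FB

/-! ### general lemmas on `lam` -/

section lamfacts
variable {R : Type} [CommRing R]

lemma loc_lam_map {R' : Type} [CommRing R'] [Nontrivial R'] (f : R →+* R') (F c : R[X])
    (hF : F.Monic) : lam (F.map f) (c.map f) = f (lam F c) := by
  unfold lam
  rw [← Polynomial.map_modByMonic _ hF, hF.natDegree_map, coeff_map]

lemma loc_lam_add (F c d : R[X]) : lam F (c + d) = lam F c + lam F d := by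
  unfold lam
  rw [Polynomial.add_modByMonic, coeff_add]

lemma loc_lam_sub (F c d : R[X]) : lam F (c - d) = lam F c - lam F d := by
  unfold lam
  rw [Polynomial.sub_modByMonic, coeff_sub]

lemma loc_lam_C_mul (F c : R[X]) (r : R) : lam F (C r * c) = r * lam F c := by
  unfold lam
  rw [← smul_eq_C_mul, Polynomial.smul_modByMonic, coeff_smul, smul_eq_mul]

lemma loc_lam_dvd {F c : R[X]} (hF : F.Monic) (h : F ∣ c) : lam F c = 0 := by
  unfold lam
  rw [(Polynomial.modByMonic_eq_zero_iff_dvd hF).2 h, coeff_zero]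

lemma loc_lam_congr {F c d : R[X]} (hF : F.Monic) (h : F ∣ c - d) : lam F c = lam F d := by
  have := loc_lam_dvd hF h
  rw [loc_lam_sub, sub_eq_zero] at this
  exact this

lemma loc_lagrange [IsDomain R] {n : ℕ} (hn : 1 ≤ n) (φ w : Fin n → R)
    (hφ : Function.Injective φ)
    (hw : ∀ i, w i * ∏ j ∈ Finset.univ.erase i, (φ i - φ j) = 1) (c : R[X]) :
    lam (∏ i, (X - C (φ i))) c = ∑ i, w i * c.eval (φ i) := by
  classical
  have hmon : (∏ i, (X - C (φ i)) : R[X]).Monic := monic_prod_of_monic _ _ fun i _ => monic_X_sub_C _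
  have hdeg : (∏ i, (X - C (φ i)) : R[X]).natDegree = n := by
    rw [natDegree_prod_of_monic _ _ fun i _ => monic_X_sub_C _]
    simp
  set SS : R[X] := ∏ i, (X - C (φ i)) with hSS
  set r := c %ₘ SS with hr
  have hre : ∀ i, r.eval (φ i) = c.eval (φ i) := by
    intro i
    have h1 := Polynomial.modByMonic_add_div c SS
    have h2 : SS.eval (φ i) = 0 := by
      rw [hSS, eval_prod]
      exact Finset.prod_eq_zero (Finset.mem_univ i) (by simp)
    conv_rhs => rw [← h1]
    rw [eval_add, eval_mul, h2, zero_mul, add_zero]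
  have hEmon : ∀ i, (∏ j ∈ Finset.univ.erase i, (X - C (φ j)) : R[X]).Monic :=
    fun i => monic_prod_of_monic _ _ fun i _ => monic_X_sub_C _
  have hEdeg : ∀ i, (∏ j ∈ Finset.univ.erase i, (X - C (φ j)) : R[X]).natDegree = n - 1 := by
    intro i
    rw [natDegree_prod_of_monic _ _ fun i _ => monic_X_sub_C _]
    simp
  have hrL : r = ∑ i, C (w i * c.eval (φ i)) * ∏ j ∈ Finset.univ.erase i, (X - C (φ j)) := by
    refine Polynomial.eq_of_degrees_lt_of_eval_index_eq (s := Finset.univ) (v := φ)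
      hφ.injOn ?_ ?_ ?_
    · have := degree_modByMonic_lt c hmon
      rw [degree_eq_natDegree hmon.ne_zero, hdeg] at this
      simpa using this
    · refine lt_of_le_of_lt (degree_sum_le _ _) ?_
      rw [Finset.sup_lt_iff (by simp)]
      intro i _
      rw [← smul_eq_C_mul]
      refine lt_of_le_of_lt (degree_smul_le _ _) ?_
      rw [degree_eq_natDegree (hEmon i).ne_zero, hEdeg]
      simp only [Finset.card_univ, Fintype.card_fin]
      exact_mod_cast (by omega : n - 1 < n)
    · intro i _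
      rw [hre, eval_finsetSum, Finset.sum_eq_single i]
      · rw [eval_mul, eval_C, eval_prod]
        simp only [eval_sub, eval_X, eval_C]
        rw [mul_assoc, mul_comm (c.eval (φ i)), ← mul_assoc, hw, one_mul]
      · intro j _ hj
        rw [eval_mul, eval_prod, Finset.prod_eq_zero (i := i)]
        · rw [mul_zero]
        · simp [hj.symm]
        · simp
      · simp
  unfold lam
  rw [hdeg, ← hr, hrL, finsetSum_coeff]
  refine Finset.sum_congr rfl fun i _ => ?_
  rw [coeff_C_mul]
  have : (∏ j ∈ Finset.univ.erase i, (X - C (φ j)) : R[X]).coeff (n - 1) = 1 := by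
    rw [← hEdeg i]
    exact (hEmon i).coeff_natDegree
  rw [this, mul_one]

lemma loc_TD_mul {f g : R[X][X]} {m m' : ℕ} (hf : TD f m) (hg : TD g m') :
    TD (f * g) (m + m') := by
  intro i j hij
  rw [coeff_mul, finsetSum_coeff]
  apply Finset.sum_eq_zero
  rintro ⟨i1, i2⟩ hi
  rw [coeff_mul]
  apply Finset.sum_eq_zero
  rintro ⟨j1, j2⟩ hj
  rw [Finset.HasAntidiagonal.mem_antidiagonal] at hi hj
  dsimp only at hi hj ⊢
  by_cases h : m < i1 + j1
  · rw [hf i1 j1 h, zero_mul]
  · rw [hg i2 j2 (by omega), mul_zero]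

end lamfacts

section
variable {k : Type} [Field k]

/-- the inclusion of the polynomials in the power series -/
noncomputable abbrev io (k : Type) [Field k] : k[X] →+* PowerSeries k :=
  Polynomial.coeToPowerSeries.ringHom

lemma io_coeff (f : k[X]) (m : ℕ) : PowerSeries.coeff m (io k f) = f.coeff m := by
  simp [io]

lemma io_C (c : k) : io k (C c) = PowerSeries.C c := by
  simp [io]

lemma loc_ser (a : k) (ha : a ≠ 0) : io k (X - C a) * ser a = 1 := by
  ext m
  rw [map_sub, io_C, sub_mul, map_sub]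
  have hX : io k X = PowerSeries.X := by simp [io]
  rw [hX, PowerSeries.coeff_C_mul]
  cases m with
  | zero =>
    simp [ser, ha]
  | succ m =>
    rw [PowerSeries.coeff_succ_X_mul]
    simp only [ser, PowerSeries.coeff_mk, PowerSeries.coeff_one]
    simp only [Nat.add_eq_zero_iff, one_ne_zero, and_false, if_false]
    have h1 : a * a⁻¹ ^ (m + 1 + 1) = a⁻¹ ^ (m + 1) := by
      rw [pow_succ' _ (m + 1), ← mul_assoc, mul_inv_cancel₀ ha, one_mul]
    rw [mul_neg, h1]
    ring

/-- the product of the `t - a j` -/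
noncomputable def pd {N : ℕ} (a : Fin N → k) : k[X] := ∏ j, (X - C (a j))

/-- the product of the `t - a i` with `i ≠ j` -/
noncomputable def pdj {N : ℕ} (a : Fin N → k) (j : Fin N) : k[X] :=
  ∏ i ∈ Finset.univ.erase j, (X - C (a i))

lemma pd_mul_ser {N : ℕ} (a : Fin N → k) (ha : ∀ j, a j ≠ 0) (j : Fin N) :
    io k (pd a) * ser (a j) = io k (pdj a j) := by
  unfold pd pdj
  rw [← Finset.mul_prod_erase Finset.univ _ (Finset.mem_univ j), map_mul, mul_right_comm,
    loc_ser _ (ha j), one_mul]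

lemma pdj_eval_ne {N : ℕ} (a : Fin N → k) (ha : Function.Injective a) (j : Fin N) :
    (pdj a j).eval (a j) ≠ 0 := by
  unfold pdj
  rw [eval_prod, Finset.prod_ne_zero_iff]
  intro i hi
  simp only [eval_sub, eval_X, eval_C]
  rw [sub_ne_zero]
  intro h
  exact (Finset.ne_of_mem_erase hi) (ha h).symm

lemma pdj_eval_eq {N : ℕ} (a : Fin N → k) {i j : Fin N} (h : i ≠ j) :
    (pdj a i).eval (a j) = 0 := by
  unfold pdj
  rw [eval_prod, Finset.prod_eq_zero (i := j)]
  · simp [h.symm]
  · simp

lemma pd_eval_eq {N : ℕ} (a : Fin N → k) (j : Fin N) : (pd a).eval (a j) = 0 := by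
  unfold pd
  rw [eval_prod, Finset.prod_eq_zero (i := j)]
  · simp
  · simp

lemma pd_natDegree {N : ℕ} (a : Fin N → k) : (pd a).natDegree = N := by
  unfold pd
  rw [natDegree_prod_of_monic _ _ fun i _ => monic_X_sub_C _]
  simp

lemma pdj_natDegree {N : ℕ} (a : Fin N → k) (j : Fin N) : (pdj a j).natDegree = N - 1 := by
  unfold pdj
  rw [natDegree_prod_of_monic _ _ fun i _ => monic_X_sub_C _]
  simp

/-- the polynomial `P` with `pd * yv = P(φ)` -/
noncomputable def PP {n N : ℕ} (a : Fin N → k) (g : Fin N → Fin n → k) : k[X][X] :=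
  ∑ j, C (pdj a j) * (gp (g j)).map C

lemma ev_mul (φ : PowerSeries k) (F G : k[X][X]) : ev φ (F * G) = ev φ F * ev φ G := by
  unfold ev
  rw [eval₂_mul]

lemma ev_PP {n N : ℕ} (φ : PowerSeries k) (a : Fin N → k) (ha : ∀ j, a j ≠ 0)
    (g : Fin N → Fin n → k) : io k (pd a) * yv φ a g = ev φ (PP a g) := by
  unfold yv ev PP
  rw [eval₂_finsetSum, Finset.mul_sum]
  refine Finset.sum_congr rfl fun j _ => ?_
  rw [eval₂_mul, eval₂_C, eval₂_map]
  have h1 : (gp (g j)).eval₂ ((io k).comp C) φ = evg φ (g j) := by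
    unfold gp evg
    rw [eval₂_finsetSum]
    refine Finset.sum_congr rfl fun i _ => ?_
    rw [eval₂_mul, eval₂_C, eval₂_pow, eval₂_X, RingHom.comp_apply, io_C]
  change _ = io k (pdj a j) * (gp (g j)).eval₂ ((io k).comp C) φ
  rw [h1, ← pd_mul_ser a ha j]
  ring

lemma gp_coeff {n : ℕ} (g : Fin n → k) (i : ℕ) (hi : n ≤ i) : (gp g).coeff i = 0 := by
  unfold gp
  rw [finsetSum_coeff]
  refine Finset.sum_eq_zero fun j _ => ?_
  rw [coeff_C_mul, coeff_X_pow, if_neg (by omega), mul_zero]

lemma TD_PP {n : ℕ} (hn : 1 ≤ n) (a : Fin n → k) (g : Fin n → Fin n → k) :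
    TD (PP a g) (2 * n - 2) := by
  intro i j hij
  unfold PP
  rw [finsetSum_coeff, finsetSum_coeff]
  refine Finset.sum_eq_zero fun l _ => ?_
  rw [coeff_C_mul, coeff_map, coeff_mul_C]
  by_cases h : n ≤ i
  · rw [gp_coeff _ _ h, mul_zero]
  · rw [coeff_eq_zero_of_natDegree_lt, zero_mul]
    rw [pdj_natDegree]
    omega

lemma PP_map {n N : ℕ} (a : Fin N → k) (g : Fin N → Fin n → k) (j : Fin N) :
    (PP a g).map (evalRingHom (a j)) = C ((pdj a j).eval (a j)) * gp (g j) := by
  unfold PP
  rw [Polynomial.map_sum, Finset.sum_eq_single j]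
  · rw [Polynomial.map_mul, map_C, coe_evalRingHom, Polynomial.map_map]
    have : (evalRingHom (a j)).comp C = RingHom.id k := by
      ext x
      simp
    rw [this, Polynomial.map_id]
  · intro i _ hi
    rw [Polynomial.map_mul, map_C, coe_evalRingHom, pdj_eval_eq a hi, C_0, zero_mul]
  · simp

lemma loc_natDegree_sum_le {N : ℕ} (f : Fin N → k[X]) (d : ℕ) (h : ∀ j, (f j).natDegree ≤ d) :
    (∑ j, f j).natDegree ≤ d :=
  natDegree_sum_le_of_forall_le _ _ fun j _ => h j

/-- the equation at a place coming from one of the two equations `E1` -/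
lemma key (hM : StmtTDMod) {n s : ℕ} {S : k[X][X]} {φ : Fin n → PowerSeries k}
    {a : Fin n → k} {g : Fin n → Fin n → k} {l τ : Fin n → k} {δ : k[X]} {U : k[X][X]}
    (hS : Rts S φ) (hs : 12 * n + 20 ≤ s) (ha0 : ∀ j, a j ≠ 0) (hinj : Function.Injective a)
    (hE : E1 s φ a g l τ) (hR : Rat s S φ l δ U) (j : Fin n) :
    lam (fb S (a j)) (gp (g j) * U.map (evalRingHom (a j))) = δ.eval (a j) * τ j := by
  classical
  have hn := hS.pos
  obtain ⟨-, hδ, -, hTU, hU⟩ := hR
  -- the truncated polynomial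
  set D : PowerSeries k := (∑ i, PowerSeries.C (l i) * yv (φ i) a g) -
    ∑ j, PowerSeries.C (τ j) * ser (a j) with hD
  set T : k[X] := PowerSeries.trunc (n - 1) D with hT
  have hTd : T.natDegree ≤ n := by
    rw [natDegree_le_iff_coeff_eq_zero]
    intro m hm
    rw [hT, PowerSeries.coeff_trunc, if_neg (by omega)]
  have h1 : (PowerSeries.X : PowerSeries k) ^ s ∣ D - io k T := by
    rw [PowerSeries.X_pow_dvd_iff]
    intro m hm
    rw [map_sub, io_coeff, hT, PowerSeries.coeff_trunc]
    split_ifs with h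
    · rw [sub_self]
    · rw [sub_zero, hD, map_sub, hE m (by omega) hm, sub_self]
  -- multiply by `δ * pd`
  have h2 : (PowerSeries.X : PowerSeries k) ^ s ∣
      (∑ i, PowerSeries.C (l i) * io k δ * ev (φ i) (PP a g)) -
        io k (δ * ((∑ j, C (τ j) * pdj a j) + T * pd a)) := by
    have h3 := Dvd.dvd.mul_left h1 (io k δ * io k (pd a))
    have h4 : io k δ * io k (pd a) * (D - io k T) =
        (∑ i, PowerSeries.C (l i) * io k δ * ev (φ i) (PP a g)) -
          io k (δ * ((∑ j, C (τ j) * pdj a j) + T * pd a)) := by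
      rw [hD, map_mul, map_add, map_sum, map_mul]
      have e1 : io k δ * io k (pd a) * ∑ i, PowerSeries.C (l i) * yv (φ i) a g =
          ∑ i, PowerSeries.C (l i) * io k δ * ev (φ i) (PP a g) := by
        rw [Finset.mul_sum]
        refine Finset.sum_congr rfl fun i _ => ?_
        rw [← ev_PP _ _ ha0]
        ring
      have e2 : io k δ * io k (pd a) * ∑ j, PowerSeries.C (τ j) * ser (a j) =
          io k δ * ∑ j, io k (C (τ j) * pdj a j) := by
        rw [mul_assoc, Finset.mul_sum]
        congr 1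
        refine Finset.sum_congr rfl fun i _ => ?_
        rw [map_mul, io_C, ← pd_mul_ser a ha0 i]
        ring
      rw [mul_sub, mul_sub, e1, e2]
      ring
    rwa [h4] at h3
  -- Lagrange interpolation
  set Δ : Fin n → PowerSeries k := fun i => ∏ j ∈ Finset.univ.erase i, (φ i - φ j) with hΔ
  have hφ : Function.Injective φ := by
    intro i j h
    apply hS.inj
    change PowerSeries.constantCoeff (φ i) = PowerSeries.constantCoeff (φ j)
    rw [h]
  have hΔ0 : ∀ i, PowerSeries.constantCoeff (Δ i) ≠ 0 := by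
    intro i
    rw [hΔ]
    simp only [map_prod, map_sub]
    rw [Finset.prod_ne_zero_iff]
    intro j hj
    rw [sub_ne_zero]
    intro h
    exact (Finset.ne_of_mem_erase hj) (hS.inj h).symm
  have hw : ∀ i, (Δ i)⁻¹ * ∏ j ∈ Finset.univ.erase i, (φ i - φ j) = 1 := fun i =>
    PowerSeries.inv_mul_cancel (Δ i) (hΔ0 i)
  have hΔev : ∀ i, ev (φ i) (derivative S) = Δ i := by
    intro i
    unfold ev
    rw [← eval_map, ← derivative_map]
    rw [hS.prod, ← Lagrange.nodal_eq, Lagrange.eval_nodal_derivative_eval_node_eq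
      (Finset.mem_univ i), Lagrange.eval_nodal]
  have hlam : lam (S.map (io k)) ((PP a g * U).map (io k)) =
      ∑ i, (Δ i)⁻¹ * (ev (φ i) (PP a g) * ev (φ i) U) := by
    change lam (S.map (Polynomial.coeToPowerSeries.ringHom)) _ = _
    rw [hS.prod, loc_lagrange hn φ (fun i => (Δ i)⁻¹) hφ hw]
    refine Finset.sum_congr rfl fun i _ => ?_
    rw [eval_map, ← ev_mul]
    rfl
  have h5 : (PowerSeries.X : PowerSeries k) ^ s ∣
      io k (lam S (PP a g * U)) - ∑ i, PowerSeries.C (l i) * io k δ * ev (φ i) (PP a g) := by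
    rw [← loc_lam_map (io k) S _ hS.monic, hlam, ← Finset.sum_sub_distrib]
    refine Finset.dvd_sum fun i _ => ?_
    have h6 := Dvd.dvd.mul_left (hU i) ((Δ i)⁻¹ * ev (φ i) (PP a g))
    have h7 : (Δ i)⁻¹ * ev (φ i) (PP a g) *
        (ev (φ i) U - PowerSeries.C (l i) * (δ : PowerSeries k) * ev (φ i) (derivative S)) =
        (Δ i)⁻¹ * (ev (φ i) (PP a g) * ev (φ i) U) -
          PowerSeries.C (l i) * io k δ * ev (φ i) (PP a g) := by
      have h8 : (Δ i)⁻¹ * Δ i = 1 := hw i
      rw [hΔev]
      have h9 : (δ : PowerSeries k) = io k δ := rfl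
      rw [h9]
      linear_combination (-(PowerSeries.C (l i) * io k δ * ev (φ i) (PP a g))) * h8
    rwa [h7] at h6
  -- equality of polynomials
  have h6 : (PowerSeries.X : PowerSeries k) ^ s ∣
      io k (lam S (PP a g * U) - δ * ((∑ j, C (τ j) * pdj a j) + T * pd a)) := by
    have := dvd_add h5 h2
    rw [sub_add_sub_cancel, ← map_sub] at this
    exact this
  have hdeg1 : (lam S (PP a g * U)).natDegree < s := by
    have h7 := loc_TD_mul (TD_PP hn a g) hTU
    have h8 := (hM k S (PP a g * U) _ hS.monic (by rw [hS.deg]; exact hS.td) h7).1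
    refine lt_of_le_of_lt (b := 6 * n) ?_ (by omega)
    rw [natDegree_le_iff_coeff_eq_zero]
    intro m hm
    unfold lam
    rw [hS.deg]
    exact h8 (n - 1) m (by omega)
  have h7 : lam S (PP a g * U) = δ * ((∑ j, C (τ j) * pdj a j) + T * pd a) := by
    rw [← sub_eq_zero]
    ext m
    rw [coeff_zero]
    by_cases hm : m < s
    · have := (PowerSeries.X_pow_dvd_iff.1 h6) m hm
      rwa [io_coeff] at this
    · apply coeff_eq_zero_of_natDegree_lt
      refine lt_of_lt_of_le ?_ (not_lt.1 hm)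
      refine lt_of_le_of_lt (natDegree_sub_le _ _) (max_lt hdeg1 ?_)
      refine lt_of_le_of_lt natDegree_mul_le ?_
      have h8 : ((∑ j, C (τ j) * pdj a j) + T * pd a).natDegree ≤ 2 * n := by
        refine (natDegree_add_le _ _).trans (max_le ?_ ?_)
        · refine loc_natDegree_sum_le _ _ fun j => ?_
          refine (natDegree_C_mul_le _ _).trans ?_
          rw [pdj_natDegree]
          omega
        · refine natDegree_mul_le.trans ?_
          rw [pd_natDegree]
          omega
      omega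
  -- evaluation at the place
  have h8 := congrArg (evalRingHom (a j)) h7
  rw [← loc_lam_map (evalRingHom (a j)) S _ hS.monic, Polynomial.map_mul, PP_map, mul_assoc,
    loc_lam_C_mul] at h8
  have h9 : (evalRingHom (a j)) (δ * ((∑ j, C (τ j) * pdj a j) + T * pd a)) =
      (pdj a j).eval (a j) * (δ.eval (a j) * τ j) := by
    rw [map_mul, map_add, map_mul, map_sum]
    simp only [coe_evalRingHom, eval_mul, eval_C, pd_eval_eq, mul_zero, add_zero]
    rw [Finset.sum_eq_single j]
    · ring
    · intro i _ hi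
      rw [pdj_eval_eq a hi, mul_zero]
    · simp
  rw [h9] at h8
  exact mul_left_cancel₀ (pdj_eval_ne a hinj j) h8

end

/-- TARGET -/
theorem loc (hM : StmtTDMod) (hF : StmtLamFrob) : StmtLoc := by
  intro k _ p _ _ e n s S φ a g l τ δ δ' U U' hS hs hA hE hE' hR hR' j ν hν
  obtain ⟨ha0, hinj, -⟩ := hA
  have k1 := key hM hS hs ha0 hinj hE hR j
  have k2 := key hM hS hs ha0 hinj hE' hR' j
  have hf : (fb S (a j)).Monic := hS.monic.map _
  have hfd : (fb S (a j)).natDegree = n := by
    unfold fb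
    rw [hS.monic.natDegree_map, hS.deg]
  have hgq : gp (gq S (p ^ e) (a j) (g j)) = gp (g j) ^ p ^ e %ₘ fb S (a j) := by
    ext i
    by_cases hi : i < n
    · unfold gp
      rw [finsetSum_coeff, Finset.sum_eq_single (⟨i, hi⟩ : Fin n)]
      · rw [coeff_C_mul, coeff_X_pow, if_pos rfl, mul_one]
        rfl
      · intro j' _ hj'
        rw [coeff_C_mul, coeff_X_pow, if_neg, mul_zero]
        intro h
        exact hj' (Fin.ext h.symm)
      · simp
    · rw [gp_coeff _ _ (not_lt.1 hi), coeff_eq_zero_of_degree_lt]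
      refine lt_of_lt_of_le (degree_modByMonic_lt _ hf) ?_
      rw [degree_eq_natDegree hf.ne_zero, hfd]
      exact_mod_cast not_lt.1 hi
  have k2' : lam (fb S (a j)) (gp (g j) ^ p ^ e * U'.map (evalRingHom (a j))) =
      δ'.eval (a j) * τ j ^ p ^ e := by
    rw [← k2, hgq]
    apply loc_lam_congr hf
    rw [← sub_mul]
    refine Dvd.dvd.mul_right ?_ _
    refine ⟨gp (g j) ^ p ^ e /ₘ fb S (a j), ?_⟩
    have := Polynomial.modByMonic_add_div (gp (g j) ^ p ^ e) (fb S (a j))
    linear_combination -this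
  have k1' : lam (fb S (a j)) (gp (g j) * ν * derivative (fb S (a j))) =
      δ.eval (a j) * τ j := by
    rw [← k1]
    apply loc_lam_congr hf
    rw [mul_assoc, ← mul_sub]
    exact Dvd.dvd.mul_left hν _
  have k3 := hF k p e (fb S (a j)) (gp (g j) * ν) hf
  rw [k1', mul_pow] at k3
  rw [mul_sub, loc_lam_sub]
  have e1 : gp (g j) ^ p ^ e * (C (δ.eval (a j) ^ p ^ e) * U'.map (evalRingHom (a j))) =
      C (δ.eval (a j) ^ p ^ e) * (gp (g j) ^ p ^ e * U'.map (evalRingHom (a j))) := by ring
  have e2 : gp (g j) ^ p ^ e * (C (δ'.eval (a j)) * ν ^ p ^ e * derivative (fb S (a j))) =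
      C (δ'.eval (a j)) * (gp (g j) ^ p ^ e * ν ^ p ^ e * derivative (fb S (a j))) := by ring
  rw [e1, e2, loc_lam_C_mul, loc_lam_C_mul, k2', k3]
  ring

end Pool.Agent.H330AB.JR7
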