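import Pool.Agent.H330AB.StmtsA
set_option autoImplicit false
noncomputable section
namespace Pool.Agent.H330AB.JR8
open Polynomial Pool.Agent.H330FB
/- Q = p^e. Let g irreducible, g ∣ S, ev (φ i) g = 0, ev (φ j) g = 0. Write U(φ_i) = l_i δ S'(φ_i) + X^s w. Since S ∣ Psi and ev (φ i) S = 0:
U(φ_i)^Q δ' S'(φ_i) = U'(φ_i) δ^Q S'(φ_i)^Q; so δ^Q S'(φ_i)^Q (U'(φ_i) - l_i^Q δ' S'(φ_i)) = X^(sQ) w^Q δ' S'(φ_i). As S'(φ_i) is a unit
(constant term ∏ (α_i - α_j) ≠ 0) and X^n does not divide δ (natDegree < n): X^(Q(s-n+1)) divides H(φ_i), where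
H = U' - C(C(l_i^Q) δ') S' in k[t][x], of x-degree < n, all coefficients of t-degree ≤ 4n-2. If g does not divide H, then g and H are coprime
over k(t) (g is irreducible and not constant in x, being a divisor of the monic S; Gauss lemma), so there are A, B in k[t][x] and 0 ≠ ρ in k[t] with
A g + B H = ρ, degree of ρ ≤ n*n + n*(4n-2) ≤ 5n^2 (resultant: Mathlib Polynomial.resultant, or solve the linear system by Cramer's rule on the
Sylvester matrix; the t-degrees of the coefficients of g are ≤ n: g divides the monic S with TD S n, so g is, up to a constant, monic with TD g (deg g)).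
Evaluate at φ_i: X^(Q(s-n+1)) divides ρ, but Q(s-n+1) ≥ n(11n+21) > 5n^2: contradiction. So g ∣ H, H(φ_j) = 0, i.e. U'(φ_j) = l_i^Q δ' S'(φ_j), and by Rat
it is l_j^Q δ' S'(φ_j) modulo X^s; so X^s divides (l_i^Q - l_j^Q) δ' · unit, hence l_i^Q = l_j^Q (natDegree δ' < n ≤ s, δ' ≠ 0) and l_i = l_j.
An alternative to resultants: a counting argument (dimension count) for the existence of a small ρ. -/
section aux
variable {k : Type} [Field k]

/-- the evaluation as a ring homomorphism -/
noncomputable def cE (φ : PowerSeries k) : k[X][X] →+* PowerSeries k :=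
  eval₂RingHom Polynomial.coeToPowerSeries.ringHom φ

theorem ev_cE (φ : PowerSeries k) (G : k[X][X]) : ev φ G = cE φ G := rfl

theorem cE_C (φ : PowerSeries k) (c : k[X]) : cE φ (C c) = (c : PowerSeries k) := by
  show eval₂ _ _ (C c) = _
  rw [eval₂_C]
  rfl

/-- order of a polynomial as a power series -/
theorem const_split (δ : k[X]) (h0 : δ ≠ 0) : ∃ (a : ℕ) (u : PowerSeries k), a ≤ δ.natDegree ∧
    (δ : PowerSeries k) = PowerSeries.X ^ a * u ∧ ¬ (PowerSeries.X : PowerSeries k) ∣ u := by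
  have h1 : (PowerSeries.X : PowerSeries k) ^ δ.natTrailingDegree ∣ (δ : PowerSeries k) := by
    rw [PowerSeries.X_pow_dvd_iff]
    intro m hm
    rw [Polynomial.coeff_coe]
    exact Polynomial.coeff_eq_zero_of_lt_natTrailingDegree hm
  obtain ⟨u, hu⟩ := h1
  refine ⟨δ.natTrailingDegree, u, Polynomial.natTrailingDegree_le_natDegree δ, hu, ?_⟩
  rw [PowerSeries.X_dvd_iff]
  intro h2
  have h3 := PowerSeries.coeff_X_pow_mul u δ.natTrailingDegree 0
  rw [← hu, Polynomial.coeff_coe, zero_add, PowerSeries.coeff_zero_eq_constantCoeff_apply, h2] at h3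
  have h4 : δ.trailingCoeff = 0 := h3
  exact h0 (Polynomial.trailingCoeff_eq_zero.1 h4)

theorem const_cancel (δ : k[X]) (h0 : δ ≠ 0) (n s Q : ℕ) (hn : δ.natDegree < n) (hs : n ≤ s)
    (f : PowerSeries k) (h : (PowerSeries.X : PowerSeries k) ^ (s * Q) ∣ (δ : PowerSeries k) ^ Q * f) :
    (PowerSeries.X : PowerSeries k) ^ (Q * (s - n + 1)) ∣ f := by
  obtain ⟨a, u, ha, hu, hX⟩ := const_split δ h0
  have e1 : s * Q = a * Q + Q * (s - a) := by
    obtain ⟨b, rfl⟩ : ∃ b, s = a + b := ⟨s - a, by omega⟩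
    rw [Nat.add_sub_cancel_left]
    ring
  rw [e1, hu, mul_pow, ← pow_mul, pow_add, mul_assoc] at h
  have h2 := (mul_dvd_mul_iff_left (pow_ne_zero (a * Q) (PowerSeries.X_ne_zero (R := k)))).1 h
  have h3 : ¬ (PowerSeries.X : PowerSeries k) ∣ u ^ Q := fun h4 =>
    hX (PowerSeries.X_prime.dvd_of_dvd_pow h4)
  have h4 := PowerSeries.X_prime.pow_dvd_of_dvd_mul_left _ h3 h2
  exact (pow_dvd_pow _ (Nat.mul_le_mul_left Q (by omega))).trans h4

theorem const_small (ρ : k[X]) (N : ℕ)
    (h : (PowerSeries.X : PowerSeries k) ^ N ∣ (ρ : PowerSeries k)) (hN : ρ.natDegree < N) :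
    ρ = 0 := by
  rw [PowerSeries.X_pow_dvd_iff] at h
  have h1 := h _ hN
  rw [Polynomial.coeff_coe] at h1
  exact Polynomial.leadingCoeff_eq_zero.1 h1

theorem const_det {m : ℕ} (M : Matrix (Fin m) (Fin m) k[X]) (d : Fin m → ℕ)
    (h : ∀ i j, (M i j).natDegree ≤ d j) : M.det.natDegree ≤ ∑ j, d j := by
  rw [Matrix.det_apply]
  refine Polynomial.natDegree_sum_le_of_forall_le _ _ fun σ _ => ?_
  have h1 : (∏ i, M (σ i) i).natDegree ≤ ∑ j, d j :=
    (Polynomial.natDegree_prod_le _ _).trans (Finset.sum_le_sum fun j _ => h _ _)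
  rcases Int.units_eq_one_or (Equiv.Perm.sign σ) with h2 | h2
  · rw [h2, one_smul]; exact h1
  · rw [h2, Units.neg_smul, one_smul, Polynomial.natDegree_neg]; exact h1

theorem const_res (f g : k[X][X]) (a b : ℕ) (hf : ∀ i, (f.coeff i).natDegree ≤ a)
    (hg : ∀ i, (g.coeff i).natDegree ≤ b) :
    (resultant f g).natDegree ≤ f.natDegree * b + g.natDegree * a := by
  have h1 := const_det (sylvester f g f.natDegree g.natDegree)
    (fun j => Fin.addCases (fun _ => b) (fun _ => a) j) (by
      intro i j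
      unfold sylvester
      rw [Matrix.of_apply]
      refine Fin.addCases (fun j₁ => ?_) (fun j₁ => ?_) j
      · simp only [Fin.addCases_left]
        split_ifs
        · exact hg _
        · simp
      · simp only [Fin.addCases_right]
        split_ifs
        · exact hf _
        · simp)
  refine h1.trans (le_of_eq ?_)
  rw [Fin.sum_univ_add]
  simp

theorem const_swap (p : k[X][X]) (i j : ℕ) :
    ((Polynomial.Bivariate.swap p).coeff i).coeff j = (p.coeff j).coeff i := by
  induction p using Polynomial.induction_on' with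
  | add p q hp hq => rw [map_add, coeff_add, coeff_add, hp, hq, coeff_add, coeff_add]
  | monomial n f =>
    rw [Polynomial.Bivariate.swap_monomial, coeff_mul_C, coeff_map, coeff_C_mul, coeff_X_pow,
      coeff_monomial]
    by_cases h : j = n
    · rw [if_pos h, if_pos h.symm, mul_one]
    · rw [if_neg h, if_neg (fun h' => h h'.symm), mul_zero, coeff_zero]

theorem const_tdeg (p : k[X][X]) (n : ℕ) : (Polynomial.Bivariate.swap p).natDegree ≤ n ↔
    ∀ i, (p.coeff i).natDegree ≤ n := by
  constructor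
  · intro h i
    rw [Polynomial.natDegree_le_iff_coeff_eq_zero]
    intro j hj
    rw [← const_swap, Polynomial.coeff_eq_zero_of_natDegree_lt (lt_of_le_of_lt h hj), coeff_zero]
  · intro h
    rw [Polynomial.natDegree_le_iff_coeff_eq_zero]
    intro j hj
    ext i
    rw [const_swap, coeff_zero]
    exact Polynomial.coeff_eq_zero_of_natDegree_lt (lt_of_le_of_lt (h i) hj)

theorem const_fac (f g : k[X][X]) (n : ℕ) (h0 : f * g ≠ 0)
    (h : ∀ i, ((f * g).coeff i).natDegree ≤ n) : ∀ i, (f.coeff i).natDegree ≤ n := by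
  rw [← const_tdeg] at h ⊢
  rw [map_mul] at h
  have h1 : Polynomial.Bivariate.swap f ≠ 0 := by
    intro h2
    have := (map_eq_zero_iff _ (Polynomial.Bivariate.swap (R := k)).injective).1 h2
    exact h0 (by rw [this, zero_mul])
  have h2 : Polynomial.Bivariate.swap g ≠ 0 := by
    intro h2
    have := (map_eq_zero_iff _ (Polynomial.Bivariate.swap (R := k)).injective).1 h2
    exact h0 (by rw [this, mul_zero])
  rw [Polynomial.natDegree_mul h1 h2] at h
  omega

theorem const_TD {f : k[X][X]} {n : ℕ} (h : TD f n) (i : ℕ) : (f.coeff i).natDegree ≤ n := by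
  rw [Polynomial.natDegree_le_iff_coeff_eq_zero]
  intro j hj
  exact h i j (by omega)

/-- the derivative is invertible at the roots -/
theorem const_unit {n : ℕ} {S : k[X][X]} {φ : Fin n → PowerSeries k} (h : Rts S φ) (i : Fin n) :
    IsUnit (ev (φ i) (derivative S)) := by
  rw [PowerSeries.isUnit_iff_constantCoeff, isUnit_iff_ne_zero]
  have h1 : ev (φ i) (derivative S) =
      ((∏ j, (X - C (φ j)) : (PowerSeries k)[X])).derivative.eval (φ i) := by
    rw [← h.prod, derivative_map]
    unfold ev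
    rw [eval₂_eq_eval_map]
  rw [h1, ← Finset.mul_prod_erase _ _ (Finset.mem_univ i), derivative_mul, eval_add, eval_mul,
    eval_mul, derivative_sub, derivative_X, derivative_C, sub_zero, eval_one, one_mul, eval_sub,
    eval_X, eval_C, sub_self, zero_mul, add_zero, eval_prod, map_prod, Finset.prod_ne_zero_iff]
  intro j hj
  rw [eval_sub, eval_X, eval_C, map_sub, sub_ne_zero]
  intro h2
  exact (Finset.ne_of_mem_erase hj) (h.inj h2).symm

theorem const_root {n : ℕ} {S : k[X][X]} {φ : Fin n → PowerSeries k} (h : Rts S φ) (i : Fin n) :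
    ev (φ i) S = 0 := by
  have h1 : ev (φ i) S = ((∏ j, (X - C (φ j)) : (PowerSeries k)[X])).eval (φ i) := by
    rw [← h.prod]
    unfold ev
    rw [eval₂_eq_eval_map]
  rw [h1, eval_prod]
  exact Finset.prod_eq_zero (Finset.mem_univ i) (by simp)

/-- the main step: the small polynomial -/
theorem const_dvd (n N : ℕ) (S H g : k[X][X]) (φ : PowerSeries k) (hS : S.Monic)
    (hSn : S.natDegree = n) (hSt : TD S n) (hg : g.Monic) (hgi : Irreducible g) (hgS : g ∣ S)
    (hg0 : ev φ g = 0) (hH : H.natDegree < n ∨ H = 0) (hn : 1 ≤ n)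
    (hHt : ∀ i, (H.coeff i).natDegree ≤ 4 * n - 2) (hN : 5 * n ^ 2 < N)
    (hX : (PowerSeries.X : PowerSeries k) ^ N ∣ ev φ H) : g ∣ H := by
  by_contra hnd
  let K := FractionRing k[X]
  have hinj : Function.Injective (algebraMap k[X] K) := IsFractionRing.injective k[X] K
  have hHn : H.natDegree < n := by
    rcases hH with h | h
    · exact h
    · rw [h, natDegree_zero]; omega
  have hgn : g.natDegree ≤ n := by
    rw [← hSn]
    exact natDegree_le_of_dvd hgS hS.ne_zero
  have hg1 : g.natDegree ≠ 0 := by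
    intro h0
    have := eq_one_of_monic_natDegree_zero hg h0
    exact hgi.not_isUnit (by rw [this]; exact isUnit_one)
  -- degrees of the coefficients of `g`
  have hgt : ∀ i, (g.coeff i).natDegree ≤ n := by
    obtain ⟨h, hh⟩ := hgS
    refine const_fac g h n (by rw [← hh]; exact hS.ne_zero) ?_
    rw [← hh]
    exact const_TD hSt
  have hirr : Irreducible (g.map (algebraMap k[X] K)) :=
    (hg.irreducible_iff_irreducible_map_fraction_map (K := K)).1 hgi
  have hnd2 : ¬ g.map (algebraMap k[X] K) ∣ H.map (algebraMap k[X] K) := by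
    rw [Polynomial.map_dvd_map _ hinj hg]
    exact hnd
  have hcop : IsCoprime (g.map (algebraMap k[X] K)) (H.map (algebraMap k[X] K)) :=
    hirr.coprime_iff_not_dvd.2 hnd2
  have hr0 : resultant g H ≠ 0 := by
    intro h0
    have h1 := resultant_ne_zero _ _ hcop
    rw [natDegree_map_eq_of_injective hinj, natDegree_map_eq_of_injective hinj,
      resultant_map_map, h0, map_zero] at h1
    exact h1 rfl
  obtain ⟨A, B, -, -, hAB⟩ := exists_mul_add_mul_eq_C_resultant g H le_rfl le_rfl (Or.inl hg1)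
  have h2 := congrArg (cE φ) hAB
  rw [map_add, map_mul, map_mul, cE_C, ← ev_cE φ g, hg0, zero_mul, zero_add] at h2
  have h3 : (PowerSeries.X : PowerSeries k) ^ N ∣ ((resultant g H : k[X]) : PowerSeries k) := by
    rw [← h2]
    exact Dvd.dvd.mul_right hX _
  refine hr0 (const_small _ _ h3 (lt_of_le_of_lt (const_res g H n (4 * n - 2) hgt hHt) ?_))
  have h4 : g.natDegree * (4 * n - 2) ≤ n * (4 * n) := Nat.mul_le_mul hgn (by omega)
  have h5 : H.natDegree * n ≤ n * n := Nat.mul_le_mul hHn.le le_rfl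
  nlinarith

end aux

/-- TARGET -/
theorem const : StmtConst := by
  intro k _ p _ _ e n s S φ l δ δ' U U' hR hs hQ hU hU' hPsi i j hij
  obtain ⟨g0, hg0i, hg0S, hgi0, hgj0⟩ := hij
  obtain ⟨hδ0, hδn, hUd, hUt, hUv⟩ := hU
  obtain ⟨hδ0', hδn', hUd', hUt', hUv'⟩ := hU'
  set Q := p ^ e with hQdef
  have hn1 := hR.pos
  -- the monic factor
  obtain ⟨g, hg, hgi, hgS, hgφi, hgφj⟩ : ∃ g : k[X][X], g.Monic ∧ Irreducible g ∧ g ∣ S ∧
      ev (φ i) g = 0 ∧ ev (φ j) g = 0 := by
    obtain ⟨h, hh⟩ := hg0S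
    have hlc : g0.leadingCoeff * h.leadingCoeff = 1 := by
      rw [← leadingCoeff_mul, ← hh]
      exact hR.monic
    have hu : IsUnit g0.leadingCoeff := IsUnit.of_mul_eq_one _ hlc
    obtain ⟨u, hu⟩ := hu
    have hCu : IsUnit (C ((u⁻¹ : k[X]ˣ) : k[X]) : k[X][X]) := (Units.isUnit u⁻¹).map C
    refine ⟨C ((u⁻¹ : k[X]ˣ) : k[X]) * g0, ?_, ?_, ?_, ?_, ?_⟩
    · rw [Monic, leadingCoeff_mul, leadingCoeff_C, ← hu, Units.inv_mul]
    · exact (irreducible_isUnit_mul hCu).2 hg0i
    · obtain ⟨v, hv⟩ := hCu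
      rw [← hv]
      exact (Units.mul_left_dvd).2 ⟨h, hh⟩
    · rw [ev_cE, map_mul, ← ev_cE _ g0, hgi0, mul_zero]
    · rw [ev_cE, map_mul, ← ev_cE _ g0, hgj0, mul_zero]
  -- the polynomial `H`
  set H : k[X][X] := U' - C (C (l i ^ Q) * δ') * derivative S with hH
  have hevH : ∀ a, ev (φ a) H = ev (φ a) U' -
      PowerSeries.C (l i ^ Q) * (δ' : PowerSeries k) * ev (φ a) (derivative S) := by
    intro a
    rw [hH, ev_cE, map_sub, map_mul, cE_C, ← ev_cE, ← ev_cE, Polynomial.coe_mul,
      Polynomial.coe_C]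
  have hSd : (derivative S).natDegree < n := by
    have := natDegree_derivative_lt (p := S) (by rw [hR.deg]; omega)
    rw [hR.deg] at this
    exact this
  have hHd : H.natDegree < n := by
    rw [hH]
    refine lt_of_le_of_lt (natDegree_sub_le _ _) (max_lt ?_ ?_)
    · by_cases h0 : U' = 0
      · rw [h0, natDegree_zero]; omega
      · exact (natDegree_lt_iff_degree_lt h0).2 hUd'
    · exact lt_of_le_of_lt (natDegree_C_mul_le _ _) hSd
  have hHt : ∀ a, (H.coeff a).natDegree ≤ 4 * n - 2 := by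
    intro a
    rw [hH, coeff_sub, coeff_C_mul]
    refine (natDegree_sub_le _ _).trans (max_le (const_TD hUt' a) ?_)
    have h1 : ((derivative S).coeff a).natDegree ≤ n - 1 := by
      rw [Polynomial.natDegree_le_iff_coeff_eq_zero]
      intro b hb
      rw [coeff_derivative, ← Nat.cast_succ, mul_comm, ← nsmul_eq_mul, coeff_smul,
        hR.td (a + 1) b (by omega), smul_zero]
    have h2 : (C (l i ^ Q) * δ').natDegree ≤ n - 1 := by
      have := natDegree_C_mul_le (l i ^ Q) δ'
      omega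
    have h3 := natDegree_mul_le (p := C (l i ^ Q) * δ') (q := (derivative S).coeff a)
    omega
  have hcp : CharP (PowerSeries k) p :=
    charP_of_injective_ringHom (PowerSeries.C_injective (R := k)) p
  have hep : ExpChar (PowerSeries k) p := inferInstance
  -- divisibility at `φ i`
  have hXH : (PowerSeries.X : PowerSeries k) ^ (Q * (s - n + 1)) ∣ ev (φ i) H := by
    refine const_cancel δ hδ0 n s Q hδn (by omega) _ ?_
    obtain ⟨w, hw⟩ := hUv i
    have hPs : ev (φ i) (Psi S Q δ U δ' U') = 0 := by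
      obtain ⟨T, hT⟩ := hPsi
      rw [hT, ev_cE, map_mul, ← ev_cE _ S, const_root hR i, zero_mul]
    unfold Psi at hPs
    rw [ev_cE] at hPs
    simp only [map_sub, map_mul, map_pow, cE_C] at hPs
    simp only [← ev_cE] at hPs
    have hσ := const_unit hR i
    rw [hevH i]
    set σ := ev (φ i) (derivative S) with hσd
    set x := ev (φ i) U with hx
    set x' := ev (φ i) U' with hx'
    have h1 : x = PowerSeries.C (l i) * (δ : PowerSeries k) * σ + PowerSeries.X ^ s * w := by
      rw [← hw]; ring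
    have h2 : x ^ Q = PowerSeries.C (l i ^ Q) * (δ : PowerSeries k) ^ Q * σ ^ Q +
        PowerSeries.X ^ (s * Q) * w ^ Q := by
      rw [h1, hQdef, add_pow_expChar_pow, mul_pow, mul_pow, mul_pow, ← map_pow, pow_mul]
    rw [h2] at hPs
    have h3 : (δ : PowerSeries k) ^ Q * (x' - PowerSeries.C (l i ^ Q) * (δ' : PowerSeries k) * σ) *
        σ ^ Q = PowerSeries.X ^ (s * Q) * (w ^ Q * (δ' : PowerSeries k) * σ) := by
      linear_combination -hPs
    have h4 : (PowerSeries.X : PowerSeries k) ^ (s * Q) ∣ (δ : PowerSeries k) ^ Q *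
        (x' - PowerSeries.C (l i ^ Q) * (δ' : PowerSeries k) * σ) * σ ^ Q := ⟨_, h3⟩
    exact (hσ.pow Q).dvd_mul_right.1 h4
  have hgH : g ∣ H := by
    refine const_dvd n (Q * (s - n + 1)) S H g (φ i) hR.monic hR.deg hR.td hg hgi hgS hgφi
      (Or.inl hHd) hn1 hHt ?_ hXH
    have h1 : 11 * n + 21 ≤ s - n + 1 := by omega
    have h2 : n * (11 * n + 21) ≤ Q * (s - n + 1) := Nat.mul_le_mul hQ h1
    nlinarith
  have hHj : ev (φ j) H = 0 := by
    obtain ⟨T, hT⟩ := hgH
    rw [hT, ev_cE, map_mul, ← ev_cE _ g, hgφj, zero_mul]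
  rw [hevH j] at hHj
  have h5 := hUv' j
  have h6 : ev (φ j) U' - PowerSeries.C (l j ^ Q) * (δ' : PowerSeries k) * ev (φ j) (derivative S) =
      (PowerSeries.C (l i ^ Q - l j ^ Q) * (δ' : PowerSeries k)) * ev (φ j) (derivative S) := by
    rw [map_sub]
    linear_combination hHj
  simp only at h5
  rw [h6] at h5
  have h7 := (const_unit hR j).dvd_mul_right.1 h5
  have h8 : PowerSeries.C (l i ^ Q - l j ^ Q) * (δ' : PowerSeries k) =
      ((C (l i ^ Q - l j ^ Q) * δ' : k[X]) : PowerSeries k) := by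
    rw [Polynomial.coe_mul, Polynomial.coe_C]
  rw [h8] at h7
  have h9 := const_small _ _ h7 (by
    have := natDegree_C_mul_le (l i ^ Q - l j ^ Q) δ'
    omega)
  rcases mul_eq_zero.1 h9 with h10 | h10
  · rw [C_eq_zero, sub_eq_zero] at h10
    have : ExpChar k p := inferInstance
    rw [hQdef] at h10
    exact iterateFrobenius_inj k p e h10
  · exact absurd h10 hδ0'

end Pool.Agent.H330AB.JR8
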