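import Pool.Agent.H330AB.StmtsA
set_option autoImplicit false
noncomputable section
namespace Pool.Agent.H330AB.JR9
open Polynomial Pool.Agent.H330FB

namespace VC

theorem tmono {A : Type} [CommRing A] {f : A[X][X]} {a b : ℕ} (h : TD f a) (hab : a ≤ b) :
    TD f b := fun i j hij => h i j (lt_of_le_of_lt hab hij)

theorem tmul {A : Type} [CommRing A] {f g : A[X][X]} {a b : ℕ} (hf : TD f a) (hg : TD g b) :
    TD (f * g) (a + b) := by
  intro i j hij
  rw [coeff_mul, finsetSum_coeff]
  refine Finset.sum_eq_zero (fun x hx => ?_)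
  rw [coeff_mul]
  refine Finset.sum_eq_zero (fun y hy => ?_)
  rw [Finset.HasAntidiagonal.mem_antidiagonal] at hx hy
  by_cases h1 : a < x.1 + y.1
  · rw [hf _ _ h1, zero_mul]
  · rw [hg x.2 y.2 (by omega), mul_zero]

theorem tC {A : Type} [CommRing A] {f : A[X]} {a : ℕ} (hf : f.natDegree ≤ a) : TD (C f) a := by
  intro i j hij
  rw [coeff_C]
  split_ifs with h
  · exact coeff_eq_zero_of_natDegree_lt (by omega)
  · simp

theorem tpow {A : Type} [CommRing A] {f : A[X][X]} {a : ℕ} (hf : TD f a) (q : ℕ) :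
    TD (f ^ q) (q * a) := by
  induction q with
  | zero =>
    rw [pow_zero, zero_mul, ← C_1]
    exact tC (by simp)
  | succ q ih =>
    rw [pow_succ, Nat.succ_mul]
    exact tmul ih hf

theorem tsub {A : Type} [CommRing A] {f g : A[X][X]} {a : ℕ} (hf : TD f a) (hg : TD g a) :
    TD (f - g) a := by
  intro i j hij
  rw [coeff_sub, coeff_sub, hf i j hij, hg i j hij, sub_zero]

theorem tder {A : Type} [CommRing A] {f : A[X][X]} {a : ℕ} (hf : TD f a) :
    TD (derivative f) (a - 1) := by
  intro i j hij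
  rw [coeff_derivative]
  have h1 : (f.coeff (i + 1)).coeff j = 0 := hf _ _ (by omega)
  have h2 : ((i : A[X]) + 1) = C ((i : A) + 1) := by simp
  rw [h2, coeff_mul_C, h1, zero_mul]

theorem root_dvd {k : Type} [Field k] [IsAlgClosed k] {f h : k[X]} (hf : f.Monic)
    (hc : IsCoprime f (derivative f)) (hr : ∀ x, f.IsRoot x → h.IsRoot x) : f ∣ h := by
  by_cases hh : h = 0
  · rw [hh]
    exact dvd_zero _
  · rw [IsAlgClosed.dvd_iff_roots_le_roots hf.ne_zero hh]
    rw [Multiset.le_iff_subset (nodup_roots (by exact hc))]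
    intro x hx
    rw [mem_roots hf.ne_zero] at hx
    rw [mem_roots hh]
    exact hr x hx

theorem frob_root {k : Type} [Field k] [IsAlgClosed k] {f : k[X]} (hf : f.Monic)
    (hc : IsCoprime f (derivative f)) (Q : ℕ) (hQ : 0 < Q) (h : k[X]) :
    ∃ μ : k[X], f ∣ μ ^ Q - h := by
  classical
  have hex : ∀ x : k, ∃ y : k, y ^ Q = h.eval x := fun x => IsAlgClosed.exists_pow_nat_eq _ hQ
  choose y hy using hex
  refine ⟨Lagrange.interpolate f.roots.toFinset id y, root_dvd hf hc (fun x hx => ?_)⟩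
  have hx' : x ∈ f.roots.toFinset := by
    rw [Multiset.mem_toFinset, mem_roots hf.ne_zero]
    exact hx
  have := Lagrange.eval_interpolate_at_node (s := f.roots.toFinset) (v := id) y
    (Function.injective_id.injOn) hx'
  rw [IsRoot.def, eval_sub, eval_pow]
  simp only [id] at this
  rw [this, hy, sub_self]

/-- the functional `lam` as a linear map -/
noncomputable def lamL {R : Type} [CommRing R] (F : R[X]) : R[X] →ₗ[R] R :=
  (lcoeff R (F.natDegree - 1)).comp (modByMonicHom F)

theorem lam_eq {R : Type} [CommRing R] (F c : R[X]) : lam F c = lamL F c := rfl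

theorem lam_congr {R : Type} [CommRing R] {F a b : R[X]} (hF : F.Monic) (h : F ∣ a - b) :
    lam F a = lam F b := by
  unfold lam
  rw [modByMonic_eq_of_dvd_sub hF h]

theorem lam_gp {R : Type} [Field R] {n : ℕ} (F d : R[X]) (g : Fin n → R) :
    lam F (gp g * d) = ∑ i, g i * lam F (X ^ (i : ℕ) * d) := by
  unfold gp
  rw [lam_eq, Finset.sum_mul, map_sum]
  refine Finset.sum_congr rfl (fun i _ => ?_)
  rw [lam_eq, mul_assoc, ← smul_eq_C_mul, map_smul, smul_eq_mul]

theorem gp_coeff {R : Type} [Field R] {n : ℕ} (c : R[X]) (hc : c.degree < n) (hn : 1 ≤ n) :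
    gp (fun i : Fin n => c.coeff i) = c := by
  unfold gp
  have h1 : c.natDegree < n := by
    by_cases h0 : c = 0
    · rw [h0, natDegree_zero]
      omega
    · exact (natDegree_lt_iff_degree_lt h0).2 hc
  conv_rhs => rw [as_sum_range_C_mul_X_pow' c h1]
  rw [Finset.sum_range]

theorem lin_count {k : Type} [Field k] {n : ℕ} (T : Finset k) (w : Fin n → k) (hw : w ≠ 0)
    (P : (Fin n → T) → Prop) (hP : ∀ g, P g → ∑ i, (g i : k) * w i = 0) :
    Nat.card {g : Fin n → T // P g} * T.card ≤ T.card ^ n := by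
  classical
  obtain ⟨i0, hi0⟩ := Function.ne_iff.1 hw
  simp only [Pi.zero_apply] at hi0
  have h1 : Nat.card ({g : Fin n → T // P g} × T) ≤ Nat.card (Fin n → T) := by
    refine Nat.card_le_card_of_injective
      (fun p : {g : Fin n → T // P g} × T => Function.update p.1.1 i0 p.2) ?_
    rintro ⟨⟨g, hg⟩, t⟩ ⟨⟨g', hg'⟩, t'⟩ h
    simp only at h
    have ht : t = t' := by
      have := congrFun h i0
      simpa using this
    have hj : ∀ j, j ≠ i0 → g j = g' j := by
      intro j hj
      have := congrFun h j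
      simpa [Function.update_of_ne hj] using this
    have e1 := hP g hg
    have e2 := hP g' hg'
    rw [← Finset.add_sum_erase _ _ (Finset.mem_univ i0)] at e1 e2
    have e3 : ∑ x ∈ Finset.univ.erase i0, (g x : k) * w x =
        ∑ x ∈ Finset.univ.erase i0, (g' x : k) * w x := by
      refine Finset.sum_congr rfl (fun x hx => ?_)
      rw [hj x (Finset.ne_of_mem_erase hx)]
    have e4 : ((g i0 : k) - (g' i0 : k)) * w i0 = 0 := by
      rw [e3] at e1
      linear_combination e1 - e2
    have e5 : (g i0 : k) = (g' i0 : k) := by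
      rcases mul_eq_zero.1 e4 with h | h
      · exact sub_eq_zero.1 h
      · exact absurd h hi0
    have e6 : g = g' := by
      funext j
      by_cases hji : j = i0
      · rw [hji]
        exact Subtype.ext e5
      · exact hj j hji
    subst e6 ht
    rfl
  rw [Nat.card_prod, Nat.card_fun] at h1
  simpa using h1

theorem count_split {k : Type} [Field k] {n : ℕ} (T : Finset k) (c : k[X]) (hc : c ≠ 0) (B : ℕ)
    (hB : c.natDegree ≤ B) (P : T → (Fin n → T) → Prop)
    (hP : ∀ a : T, c.eval (a : k) ≠ 0 →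
      Nat.card {g : Fin n → T // P a g} * T.card ≤ T.card ^ n) :
    Nat.card {x : T × (Fin n → T) // P x.1 x.2} * T.card ≤ (B + 1) * T.card ^ (n + 1) := by
  classical
  have h1 : Nat.card {x : T × (Fin n → T) // P x.1 x.2} =
      ∑ a : T, Nat.card {g : Fin n → T // P a g} := by
    rw [Nat.card_congr (Equiv.subtypeProdEquivSigmaSubtype P), Nat.card_sigma]
  have h2 : ∀ a : T, Nat.card {g : Fin n → T // P a g} * T.card ≤
      (if c.eval (a : k) = 0 then T.card ^ (n + 1) else 0) + T.card ^ n := by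
    intro a
    split_ifs with h
    · have h3 : Nat.card {g : Fin n → T // P a g} ≤ Nat.card (Fin n → T) :=
        Nat.card_le_card_of_injective _ Subtype.val_injective
      rw [Nat.card_fun] at h3
      simp only [Nat.card_eq_fintype_card, Fintype.card_coe, Fintype.card_fin] at h3
      have h4 := Nat.mul_le_mul_right T.card h3
      rw [← pow_succ] at h4
      rw [Nat.card_eq_fintype_card]
      omega
    · have := hP a h
      omega
  have h5 : ∑ a : T, (if c.eval (a : k) = 0 then T.card ^ (n + 1) else 0) ≤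
      B * T.card ^ (n + 1) := by
    rw [← Finset.sum_filter, Finset.sum_const, smul_eq_mul]
    refine Nat.mul_le_mul_right _ (le_trans ?_ hB)
    refine le_trans ?_ (card_roots' c)
    refine le_trans ?_ (Multiset.toFinset_card_le _)
    refine Finset.card_le_card_of_injOn (fun a : T => (a : k)) ?_ (Subtype.val_injective.injOn)
    intro a ha
    rw [Finset.mem_coe, Finset.mem_filter] at ha
    rw [Finset.mem_coe, Multiset.mem_toFinset, mem_roots hc]
    exact ha.2
  rw [h1, Finset.sum_mul]
  refine (Finset.sum_le_sum (fun a _ => h2 a)).trans ?_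
  rw [Finset.sum_add_distrib, Finset.sum_const, Finset.card_univ, Fintype.card_coe, smul_eq_mul]
  have h6 : T.card * T.card ^ n = T.card ^ (n + 1) := by rw [pow_succ, mul_comm]
  rw [h6, add_mul, one_mul]
  exact Nat.add_le_add_right h5 _

theorem fiber (hF : StmtLamFrob) (hN : StmtLamNondeg) {k : Type} [Field k] [IsAlgClosed k]
    (p : ℕ) [Fact p.Prime] [CharP k p] (e n : ℕ) (S : k[X][X]) (δ δ' : k[X]) (U U' : k[X][X])
    (hS : S.Monic) (hn : S.natDegree = n) (h1 : 1 ≤ n) (a : k)
    (hco : IsCoprime (fb S a) (derivative (fb S a)))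
    (hnd : ¬ fb S a ∣ (Psi S (p ^ e) δ U δ' U').map (evalRingHom a)) :
    ∃ w : Fin n → k, w ≠ 0 ∧ ∀ g : Fin n → k, Van S (p ^ e) a g δ U δ' U' →
      ∑ i, g i * w i = 0 := by
  have hp : p.Prime := Fact.out
  have hQ : 0 < p ^ e := pow_pos hp.pos e
  have hfm : (fb S a).Monic := hS.map _
  have hfd : (fb S a).natDegree = n := by
    unfold fb
    rw [hS.natDegree_map, hn]
  have hPsi : (Psi S (p ^ e) δ U δ' U').map (evalRingHom a) =
      U.map (evalRingHom a) ^ p ^ e * C (δ'.eval a) * derivative (fb S a) -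
      U'.map (evalRingHom a) * C (δ.eval a ^ p ^ e) * derivative (fb S a) ^ p ^ e := by
    unfold Psi fb
    simp only [Polynomial.map_sub, Polynomial.map_mul, Polynomial.map_pow, map_C, derivative_map,
      coe_evalRingHom, eval_pow]
  rw [hPsi] at hnd
  have hdeg : (fb S a).degree = n := by
    rw [degree_eq_natDegree hfm.ne_zero, hfd]
  obtain ⟨u, v, huv⟩ := hco
  set f := fb S a with hf
  set Ua := U.map (evalRingHom a) with hUa
  set Ua' := U'.map (evalRingHom a) with hUa'
  have hco : IsCoprime f (derivative f) := ⟨u, v, huv⟩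
  have hν : f ∣ v * Ua * derivative f - Ua := ⟨-(u * Ua), by linear_combination Ua * huv⟩
  set Θ : k[X] := C (δ.eval a ^ p ^ e) * Ua' - C (δ'.eval a) * (v * Ua) ^ p ^ e * derivative f
    with hΘ
  have hΘnd : ¬ f ∣ Θ := by
    intro h
    apply hnd
    have e1 : f ∣ (v * Ua * derivative f) ^ p ^ e - Ua ^ p ^ e :=
      hν.trans (sub_dvd_pow_sub_pow _ _ _)
    have e2 : Ua ^ p ^ e * C (δ'.eval a) * derivative f -
      Ua' * C (δ.eval a ^ p ^ e) * derivative f ^ p ^ e = -(Θ * derivative f ^ p ^ e) -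
        C (δ'.eval a) * derivative f * ((v * Ua * derivative f) ^ p ^ e - Ua ^ p ^ e) := by
      rw [hΘ]
      ring
    rw [e2]
    exact dvd_sub (dvd_neg.2 (h.mul_right _)) (e1.mul_left _)
  obtain ⟨μ, hμ⟩ := frob_root hfm hco (p ^ e) hQ (Θ * v)
  have hd : (μ * derivative f) %ₘ f ≠ 0 := by
    intro h
    rw [modByMonic_eq_zero_iff_dvd hfm] at h
    have e1 : f ∣ μ := hco.dvd_of_dvd_mul_right h
    have e2 : f ∣ μ ^ p ^ e := e1.trans (dvd_pow_self _ hQ.ne')
    have e3 : f ∣ Θ * v := (dvd_sub_right e2).1 hμ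
    apply hΘnd
    have e4 : Θ = Θ * v * derivative f + Θ * u * f := by linear_combination (-Θ) * huv
    rw [e4]
    exact dvd_add (e3.mul_right _) (dvd_mul_left _ _)
  obtain ⟨c, hc1, hc2⟩ := hN k f (μ * derivative f) hfm hd
  refine ⟨fun i => lam f (X ^ (i : ℕ) * (μ * derivative f)), ?_, ?_⟩
  · intro hw
    apply hc2
    rw [hdeg] at hc1
    rw [← gp_coeff c hc1 h1, lam_gp]
    refine Finset.sum_eq_zero (fun i _ => ?_)
    have := congrFun hw i
    simp only [Pi.zero_apply] at this
    rw [this, mul_zero]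
  · intro g hg
    have hV := hg (v * Ua) hν
    rw [← lam_gp]
    have e1 : lam f (gp g ^ p ^ e * Θ) = lam f ((gp g * μ) ^ p ^ e * derivative f) := by
      refine lam_congr hfm ?_
      have e2 : gp g ^ p ^ e * Θ - (gp g * μ) ^ p ^ e * derivative f =
          gp g ^ p ^ e * (Θ * u * f - (μ ^ p ^ e - Θ * v) * derivative f) := by
        rw [mul_pow]
        linear_combination (- gp g ^ p ^ e * Θ) * huv
      rw [e2]
      exact (dvd_sub (dvd_mul_left _ _) (hμ.mul_right _)).mul_left _
    have e3 : lam f (gp g ^ p ^ e * Θ) = 0 := hV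
    rw [e1, hF k p e f (gp g * μ) hfm] at e3
    have e4 := pow_eq_zero_iff hQ.ne' |>.1 e3
    rw [← mul_assoc]
    exact e4

end VC

/-- TARGET -/
theorem vanCount (hM : StmtTDMod) (hF : StmtLamFrob) (hN : StmtLamNondeg) : StmtVanCount := by
  intro k _ _ p _ _ e n S δ δ' U U' T hS hn h1 hTD hδ hδ' hU hU' hndvd
  have hr : Psi S (p ^ e) δ U δ' U' %ₘ S ≠ 0 := by
    intro h
    exact hndvd ((modByMonic_eq_zero_iff_dvd hS).1 h)
  have hT1 : TD (Psi S (p ^ e) δ U δ' U') (4 * n * p ^ e + 4 * n) := by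
    unfold Psi
    refine VC.tsub ?_ ?_
    · refine VC.tmono (VC.tmul (VC.tmul (VC.tpow hU (p ^ e)) (VC.tC (a := n - 1) (by omega)))
        (VC.tder hTD)) ?_
      have : p ^ e * (4 * n - 2) ≤ 4 * n * p ^ e := by
        rw [mul_comm (4 * n) (p ^ e)]
        exact Nat.mul_le_mul_left _ (by omega)
      omega
    · have hd : (δ ^ p ^ e).natDegree ≤ p ^ e * (n - 1) :=
        natDegree_pow_le.trans (Nat.mul_le_mul_left _ (by omega))
      refine VC.tmono (VC.tmul (VC.tmul hU' (VC.tC hd)) (VC.tpow (VC.tder hTD) (p ^ e))) ?_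
      have : p ^ e * (n - 1) + p ^ e * (n - 1) ≤ 4 * n * p ^ e := by
        rw [mul_comm (4 * n) (p ^ e), ← mul_add]
        exact Nat.mul_le_mul_left _ (by omega)
      omega
  have hT2 := (hM k S _ _ hS (by rw [hn]; exact hTD) hT1).1
  obtain ⟨i, hi⟩ : ∃ i, (Psi S (p ^ e) δ U δ' U' %ₘ S).coeff i ≠ 0 := by
    by_contra hcon
    push Not at hcon
    exact hr (Polynomial.ext (fun i => by rw [hcon i, coeff_zero]))
  have hdeg : ((Psi S (p ^ e) δ U δ' U' %ₘ S).coeff i).natDegree ≤ 4 * n * p ^ e + 4 * n := by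
    rw [natDegree_le_iff_coeff_eq_zero]
    intro N hN'
    exact hT2 i N (by omega)
  refine VC.count_split T _ hi _ hdeg (fun a g => IsCoprime (fb S (a : k))
    (derivative (fb S (a : k))) ∧ Van S (p ^ e) (a : k) (fun i => (g i : k)) δ U δ' U') ?_
  intro a ha
  by_cases hco : IsCoprime (fb S (a : k)) (derivative (fb S (a : k)))
  · have hnd : ¬ fb S (a : k) ∣ (Psi S (p ^ e) δ U δ' U').map (evalRingHom (a : k)) := by
      intro h
      apply ha
      have hm : (fb S (a : k)).Monic := hS.map _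
      rw [← modByMonic_eq_zero_iff_dvd hm] at h
      unfold fb at h
      rw [← map_modByMonic _ hS] at h
      have := congrArg (fun q => q.coeff i) h
      simpa using this
    obtain ⟨w, hw, hw'⟩ := VC.fiber hF hN p e n S δ δ' U U' hS hn h1 (a : k) hco hnd
    exact VC.lin_count T w hw _ (fun g hg => hw' _ hg.2)
  · have : IsEmpty {g : Fin n → T // IsCoprime (fb S (a : k))
        (derivative (fb S (a : k))) ∧ Van S (p ^ e) (a : k) (fun i => (g i : k)) δ U δ' U'} :=
      ⟨fun g => hco g.2.1⟩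
    rw [Nat.card_of_isEmpty, zero_mul]
    exact Nat.zero_le _

end Pool.Agent.H330AB.JR9
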