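import Pool.Agent.H330AB.SpecA3
set_option autoImplicit false
noncomputable section
namespace Pool.Agent.H330AB.JT1
open Polynomial Pool.Agent.H330FB

namespace TA

section prog
variable {F : Type} [Field F] [DecidableEq F]
variable {s : List (Ty × Ty)} {a b c d e g σ τ : Ty}

/-- head of a row, zero if there is none -/
def hdP : Pr s (.list .fld) .fld := onL .id .zero (.comp .snd .fst)

@[simp] theorem val_hdP (v : SV F s) (x : Ty.D F (.list .fld)) :
    (hdP : Pr s (.list .fld) .fld).val v x = List.getD x 0 0 := by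
  cases x <;> simp [hdP]

theorem cost_hdP (v : SV F s) (k : SC F s) (x : Ty.D F (.list .fld)) :
    (hdP : Pr s (.list .fld) .fld).cost v k x ≤ 8 := by
  cases x <;> simp [hdP]

/-- tail -/
def tlP : Pr s (.list a) (.list a) := onL .id .nil (.comp .snd .snd)

@[simp] theorem val_tlP (v : SV F s) (x : Ty.D F (.list a)) :
    (tlP : Pr s (.list a) (.list a)).val v x = List.tail x := by
  cases x <;> simp [tlP]

theorem cost_tlP (v : SV F s) (k : SC F s) (x : Ty.D F (.list a)) :
    (tlP : Pr s (.list a) (.list a)).cost v k x ≤ 8 := by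
  cases x <;> simp [tlP]

theorem unit_list (l : List Unit) : l = un l.length := by
  unfold un
  exact List.eq_replicate_of_mem (fun _ _ => rfl)

@[simp] theorem length_un (n : ℕ) : (un n).length = n := by simp [un]

/-- the number `n` in unary -/
def cn : ℕ → Pr s a (.list .unit)
  | 0 => .nil
  | n + 1 => ap2 .cons .star (cn n)

@[simp] theorem val_cn (n : ℕ) (v : SV F s) (x : Ty.D F a) :
    (cn n : Pr s a (.list .unit)).val v x = un n := by
  induction n with
  | zero => rfl
  | succ n ih => simp only [cn, val_comp, val_pair, ih, val_star, val_cons]; rfl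

@[simp] theorem cost_cn (n : ℕ) (v : SV F s) (k : SC F s) (x : Ty.D F a) :
    (cn n : Pr s a (.list .unit)).cost v k x = 3 * n + 1 := by
  induction n with
  | zero => rfl
  | succ n ih => simp only [cn, cost_comp, cost_pair, ih, cost_star, cost_cons]; omega

/-- length minus one in unary -/
def unD : Pr s (.list a) (.list .unit) :=
  ap2 (mapP (c := .unit) .star) .star tlP

@[simp] theorem val_unD (v : SV F s) (x : Ty.D F (.list a)) :
    (unD : Pr s (.list a) (.list .unit)).val v x = un (List.length x - 1) := by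
  simp only [unD, val_comp, val_pair, val_mapP, val_star, val_tlP]
  rw [unit_list (List.map _ _)]
  simp

theorem cost_unD (v : SV F s) (k : SC F s) (x : Ty.D F (.list a)) :
    (unD : Pr s (.list a) (.list .unit)).cost v k x ≤ 14 * List.length x + 30 := by
  have h := cost_mapP_le (s := s) (c := .unit) (a := a) (b := .unit) .star v k ((), List.tail x) 1
    (fun _ _ => by simp)
  have h2 := cost_tlP (s := s) v k x
  simp [unD] at h h2 ⊢
  omega

/-- first column -/
def hd0P : Pr s Ma Po := ap2 (mapP (c := .unit) (.comp .snd hdP)) .star .id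

@[simp] theorem val_hd0P (v : SV F s) (x : Ty.D F Ma) :
    (hd0P : Pr s Ma Po).val v x = hd0 (x : List (List F)) := by
  simp only [hd0P, val_comp, val_pair, val_mapP, val_star, val_id, val_snd, val_hdP, hd0]

theorem cost_hd0P (v : SV F s) (k : SC F s) (x : Ty.D F Ma) :
    (hd0P : Pr s Ma Po).cost v k x ≤ 22 * List.length x + 8 := by
  have h := cost_mapP_le (s := s) (c := .unit) (a := .list .fld) (b := .fld) (.comp .snd hdP)
    v k ((), x) 9 (fun y _ => by
      have := cost_hdP (s := s) v k y
      simp only [cost_comp, cost_snd, val_snd]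
      omega)
  simp only [hd0P, cost_comp, cost_pair, cost_star, cost_id, val_pair, val_star, val_id] at h ⊢
  omega

/-- product of two unary numbers -/
def mlP : Pr s (.prod (.list .unit) (.list .unit)) (.list .unit) :=
  .comp (mapP (c := .list .unit) (a := .unit) .fst) flatP

@[simp] theorem val_mlP (v : SV F s) (x : Ty.D F (.prod (.list .unit) (.list .unit))) :
    (mlP : Pr s (.prod (.list .unit) (.list .unit)) (.list .unit)).val v x =
      un (List.length x.1 * List.length x.2) := by
  rw [unit_list ((mlP : Pr s (.prod (.list .unit) (.list .unit)) (.list .unit)).val v x)]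
  congr 1
  obtain ⟨x, y⟩ := x
  simp only [mlP, val_comp, val_mapP, val_fst, val_flatP]
  induction y with
  | nil => simp
  | cons h t ih => simp only [List.map_cons, List.flatten_cons, List.length_append, ih,
      List.length_cons]; ring

theorem cost_mlP (v : SV F s) (k : SC F s) (x : Ty.D F (.prod (.list .unit) (.list .unit))) :
    (mlP : Pr s (.prod (.list .unit) (.list .unit)) (.list .unit)).cost v k x ≤
      (20 * List.length x.1 + 85) * List.length x.2 + 45 := by
  have h := cost_mapP_le (s := s) (c := .list .unit) (a := .unit) .fst v k x 1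
    (fun _ _ => by simp)
  have h2 := cost_flatP (s := s) (a := .unit) v k (List.map (fun _ : Unit => x.1) x.2)
    (List.length x.1) (fun y hy => by
      rw [List.mem_map] at hy
      obtain ⟨_, _, rfl⟩ := hy
      exact le_rfl)
  simp only [List.length_map] at h2
  simp only [mlP, cost_comp, val_mapP, val_fst]
  nlinarith

/-- square -/
def dP : Pr s (.list .unit) (.list .unit) := ap2 mlP .id .id

@[simp] theorem val_dP (v : SV F s) (x : Ty.D F (.list .unit)) :
    (dP : Pr s (.list .unit) (.list .unit)).val v x = un (List.length x * List.length x) := by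
  simp only [dP, val_comp, val_pair, val_id, val_mlP]

theorem cost_dP (v : SV F s) (k : SC F s) (x : Ty.D F (.list .unit)) :
    (dP : Pr s (.list .unit) (.list .unit)).cost v k x ≤
      (20 * List.length x + 85) * List.length x + 48 := by
  have h := cost_mlP (s := s) v k (x, x)
  simp only [dP, cost_comp, cost_pair, cost_id, val_pair, val_id] at h ⊢
  omega

/-- precision -/
def sP : Pr s (.list .unit) (.list .unit) := ap2 appP (ap2 mlP .id (cn 12)) (cn 20)

@[simp] theorem val_sP (v : SV F s) (x : Ty.D F (.list .unit)) :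
    (sP : Pr s (.list .unit) (.list .unit)).val v x = un (12 * List.length x + 20) := by
  rw [unit_list ((sP : Pr s (.list .unit) (.list .unit)).val v x)]
  congr 1
  simp only [sP, val_comp, val_pair, val_id, val_mlP, val_cn, val_appP, List.length_append,
    length_un]
  ring

theorem cost_sP (v : SV F s) (k : SC F s) (x : Ty.D F (.list .unit)) :
    (sP : Pr s (.list .unit) (.list .unit)).cost v k x ≤ 500 * List.length x + 1300 := by
  have h := cost_mlP (s := s) v k (x, un 12)
  have h2 := cost_appP (s := s) (a := .unit) v k (un (List.length x * 12), un 20)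
  simp only [length_un] at h h2
  simp only [sP, cost_comp, cost_pair, cost_id, val_comp, val_pair, val_id, val_mlP, val_cn,
    cost_cn, length_un]
  omega

/-- length of the random list -/
def rP : Pr s (.list .unit) (.list .unit) := ap2 appP (cn 2) (ap2 appP dP (ap2 appP .id dP))

@[simp] theorem val_rP (v : SV F s) (x : Ty.D F (.list .unit)) :
    (rP : Pr s (.list .unit) (.list .unit)).val v x = un (Rt (List.length x)) := by
  rw [unit_list ((rP : Pr s (.list .unit) (.list .unit)).val v x)]
  congr 1
  simp only [rP, val_comp, val_pair, val_id, val_dP, val_cn, val_appP, List.length_append,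
    length_un, Rt]

theorem cost_rP (v : SV F s) (k : SC F s) (x : Ty.D F (.list .unit)) :
    (rP : Pr s (.list .unit) (.list .unit)).cost v k x ≤
      (60 * List.length x + 200) * List.length x + 300 := by
  have h := cost_dP (s := s) v k x
  have h2 := cost_appP (s := s) (a := .unit) v k (x, un (List.length x * List.length x))
  have h3 := cost_appP (s := s) (a := .unit) v k (un (List.length x * List.length x),
    (x ++ un (List.length x * List.length x) : List Unit))
  have h4 := cost_appP (s := s) (a := .unit) v k (un 2,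
    (un (List.length x * List.length x) ++ (x ++ un (List.length x * List.length x)) : List Unit))
  simp only [length_un] at h2 h3 h4
  simp only [rP, cost_comp, cost_pair, cost_id, val_comp, val_pair, val_id, val_dP, val_cn,
    cost_cn, val_appP]
  nlinarith

/-- factorial, one step -/
def facB : Pr s (.prod .unit (.prod (.prod .fld .fld) .unit)) (.prod .fld .fld) :=
  lt (ap2 .add (.comp (.comp .snd .fst) .fst) .one)
    (.pair .snd (ap2 .mul (.comp (.comp (.comp .fst .snd) .fst) .snd) .snd))

/-- factorial of the length -/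
def facP : Pr s (.list .unit) .fld :=
  .comp (ap3 (foldP (c := .unit) (b := .prod .fld .fld) (a := .unit) facB) .star
    (.pair .zero .one) .id) .snd

omit [DecidableEq F] in
theorem fac_fold (l : List Unit) (m : ℕ) :
    List.foldl (fun (y : F × F) (_ : Unit) => (y.1 + 1, y.2 * (y.1 + 1)))
      ((m : F), (Nat.factorial m : F)) l =
      (((m + l.length : ℕ) : F), (Nat.factorial (m + l.length) : F)) := by
  induction l generalizing m with
  | nil => simp
  | cons h t ih =>
    have e := ih (m + 1)
    have e2 : m + (h :: t).length = m + 1 + t.length := by simp only [List.length_cons]; omega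
    rw [e2, ← e, List.foldl_cons]
    congr 1
    rw [Nat.factorial_succ]
    push_cast
    rw [mul_comm]

@[simp] theorem val_facP (v : SV F s) (x : Ty.D F (.list .unit)) :
    (facP : Pr s (.list .unit) .fld).val v x = (Nat.factorial (List.length x) : F) := by
  have h := fac_fold (F := F) x 0
  simp only [Nat.cast_zero, Nat.factorial_zero, Nat.cast_one, Nat.zero_add] at h
  simp only [facP, facB, val_comp, val_pair, val_foldP, val_star, val_zero, val_one, val_id,
    val_snd, val_lt, val_add, val_fst, val_mul]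
  exact congrArg Prod.snd h

theorem cost_facP (v : SV F s) (k : SC F s) (x : Ty.D F (.list .unit)) :
    (facP : Pr s (.list .unit) .fld).cost v k x ≤ 50 * List.length x + 30 := by
  have h := cost_foldP_le (s := s) (c := .unit) (b := .prod .fld .fld) (a := .unit) facB v k
    ((), (((0 : F), (1 : F)), x)) 20 (fun _ => True) trivial (fun _ _ _ _ => trivial)
    (fun y z _ _ => by simp [facB])
  simp only at h
  simp only [facP, cost_comp, cost_pair, cost_star, cost_zero, cost_one, cost_id, cost_snd,
    val_pair, val_star, val_zero, val_one, val_id]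
  omega

/-- tests whether the length is one -/
def oneP : Pr s (.list a) (.list .unit) := onL .id .nil (onL (.comp .snd .snd) (cn 1) .nil)

theorem val_oneP (v : SV F s) (x : Ty.D F (.list a)) :
    (oneP : Pr s (.list a) (.list .unit)).val v x = if List.length x = 1 then un 1 else un 0 := by
  rcases x with _ | ⟨x, _ | ⟨y, l⟩⟩ <;> simp [oneP, un]

theorem cost_oneP (v : SV F s) (k : SC F s) (x : Ty.D F (.list a)) :
    (oneP : Pr s (.list a) (.list .unit)).cost v k x ≤ 14 := by
  rcases x with _ | ⟨x, _ | ⟨y, l⟩⟩ <;> simp [oneP]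


/-- the parts of the random list; input `(n, list)` -/
def cutP : Pr s (.prod Un Po) (.prod .fld (.prod .fld (.prod Ma (.prod Po Ma)))) :=
  lt (.comp .snd tlP)
  (lt (.comp .snd tlP)
  (lt (ap2 splitP (.comp (.comp (.comp .fst .fst) .fst) dP) .snd)
  (lt (ap2 splitP (.comp (.comp (.comp .fst .fst) .fst) .fst) (.comp .snd .snd))
  (.pair (.comp (.comp (.comp (.comp (.comp .fst .fst) .fst) .fst) .snd) hdP)
  (.pair (.comp (.comp (.comp (.comp .fst .fst) .fst) .snd) hdP)
  (.pair (ap3 chunksP (.comp (.comp (.comp (.comp .fst .fst) .fst) .fst) .fst)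
    (.comp (.comp (.comp (.comp .fst .fst) .fst) .fst) .fst) (.comp (.comp .fst .snd) .fst))
  (.pair (.comp .snd .fst)
    (ap3 chunksP (.comp (.comp (.comp (.comp .fst .fst) .fst) .fst) .fst)
    (.comp (.comp (.comp (.comp .fst .fst) .fst) .fst) .fst) (.comp .snd .snd)))))))))

theorem val_cutP (v : SV F s) (u : List Unit) (w : List F) :
    (cutP : Pr s (.prod Un Po) _).val v (u, w) =
      (w.getD 0 0, (w.tail.getD 0 0,
        (chunks u.length u.length (w.tail.tail.take (u.length * u.length)),
        ((w.tail.tail.drop (u.length * u.length)).take u.length,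
        chunks u.length u.length ((w.tail.tail.drop (u.length * u.length)).drop u.length))))) := by
  simp only [cutP, val_lt, val_comp, val_pair, val_tlP, val_hdP, val_splitP, val_dP, val_fst,
    val_snd, val_chunksP, length_un]

theorem cost_cutP (v : SV F s) (k : SC F s) (u : List Unit) (w : List F) :
    (cutP : Pr s (.prod Un Po) _).cost v k (u, w) ≤
      300 * ((u.length + 1) * (u.length + 1)) := by
  have c1 := cost_tlP (s := s) (a := .fld) v k w
  have c2 := cost_tlP (s := s) (a := .fld) v k w.tail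
  have c3 := cost_dP (s := s) v k u
  have c4 := cost_splitP (s := s) (b := .unit) (a := .fld) v k
    (un (u.length * u.length), w.tail.tail)
  have c5 := cost_splitP (s := s) (b := .unit) (a := .fld) v k
    (u, w.tail.tail.drop (u.length * u.length))
  have c6 := cost_hdP (s := s) v k w
  have c7 := cost_hdP (s := s) v k w.tail
  have c8 := cost_chunksP (s := s) (b := .unit) (c := .unit) (a := .fld) v k
    (u, (u, w.tail.tail.take (u.length * u.length)))
  have c9 := cost_chunksP (s := s) (b := .unit) (c := .unit) (a := .fld) v k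
    (u, (u, (w.tail.tail.drop (u.length * u.length)).drop u.length))
  simp only [length_un] at c4 c5 c8 c9
  simp only [cutP, cost_lt, cost_comp, cost_pair, cost_fst, cost_snd, val_comp, val_pair,
    val_tlP, val_splitP, val_dP, val_fst, val_snd, length_un]
  nlinarith

end prog


section lists
variable {K : Type}

theorem fit_self (z : K) (l : List K) : fit l.length z l = l := by
  induction l with
  | nil => rfl
  | cons x l ih => simp [fit, ih]

theorem chunks_flatten (n : ℕ) (L : List (List K)) (h : ∀ r ∈ L, r.length = n) :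
    chunks n L.length L.flatten = L := by
  induction L with
  | nil => rfl
  | cons r L ih =>
    have h1 := h r (by simp)
    have h2 := ih (fun r hr => h r (by simp [hr]))
    rw [List.length_cons, chunks, List.flatten_cons, List.take_left' h1, List.drop_left' h1, h2]

theorem rows_length {m n : ℕ} (G : Fin m → Fin n → K) : (rows G).length = m := by
  simp [rows]

theorem rows_mem {m n : ℕ} (G : Fin m → Fin n → K) : ∀ r ∈ rows G, r.length = n := by
  intro r hr
  simp only [rows, List.mem_ofFn] at hr
  obtain ⟨i, rfl⟩ := hr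
  simp

theorem flatten_length {m n : ℕ} (G : Fin m → Fin n → K) : (rows G).flatten.length = m * n := by
  rw [List.length_flatten]
  simp [rows, List.map_ofFn, Function.comp_def, List.ofFn_const]

theorem exists_rows (d : ℕ) (l : List K) (h : l.length = d * d) :
    ∃ G : Fin d → Fin d → K, l = (rows G).flatten := by
  have e : l = List.ofFn (fun i : Fin (d * d) => l.get (Fin.cast h.symm i)) := by
    apply List.ext_getElem
    · simp [h]
    · intro i h1 h2
      simp
  refine ⟨fun i j => l.get (Fin.cast h.symm ⟨i * d + j, ?_⟩), ?_⟩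
  · calc (i : ℕ) * d + j < (i : ℕ) * d + d := by omega
      _ = ((i : ℕ) + 1) * d := by ring
      _ ≤ d * d := Nat.mul_le_mul_right d i.2
  · conv_lhs => rw [e]
    rw [List.ofFn_mul]
    rfl

theorem exists_ofFn (d : ℕ) (l : List K) (h : l.length = d) :
    ∃ G : Fin d → K, l = List.ofFn G := by
  subst h
  exact ⟨fun i => l.get i, by simp⟩

end lists

section rl
variable {K : Type} [Field K]

omit [Field K] in
theorem rlist_length {d : ℕ} (a b : K) (G : Fin d → Fin d → K) (as : Fin d → K)
    (g : Fin d → Fin d → K) : (rlist a b G as g).length = Rt d := by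
  simp only [rlist, Rt, List.length_append, List.length_cons, List.length_nil, flatten_length,
    List.length_ofFn]

omit [Field K] in
theorem exists_rlist (d : ℕ) (l : List K) (h : l.length = Rt d) :
    ∃ (a b : K) (G : Fin d → Fin d → K) (as : Fin d → K) (g : Fin d → Fin d → K),
      l = rlist a b G as g := by
  rcases l with _ | ⟨a, _ | ⟨b, l⟩⟩
  · simp only [Rt, List.length_nil] at h
    omega
  · simp only [Rt, List.length_cons, List.length_nil] at h
    omega
  · have h' : l.length = d * d + (d + d * d) := by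
      simp only [Rt, List.length_cons] at h
      omega
    obtain ⟨G, hG⟩ := exists_rows d (l.take (d * d)) (by rw [List.length_take]; omega)
    obtain ⟨as, has⟩ := exists_ofFn d ((l.drop (d * d)).take d)
      (by rw [List.length_take, List.length_drop]; omega)
    obtain ⟨g, hg⟩ := exists_rows d ((l.drop (d * d)).drop d)
      (by rw [List.length_drop, List.length_drop]; omega)
    refine ⟨a, b, G, as, g, ?_⟩
    rw [rlist, ← hG, ← has, ← hg, List.take_append_drop, List.take_append_drop]
    rfl

end rl

section alg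
variable {K : Type} [Field K]

theorem sub_cc (a b c : K) : sub a b (C (C c)) = C (C c) := by simp [sub]
theorem sub_cx (a b : K) : sub a b (C X) = C (X + C b) + C (C a) * X := by simp [sub]
theorem sub_x (a b : K) : sub a b (X : K[X][X]) = X := by simp [sub]

theorem sub_sub (a b : K) (f : K[X][X]) : sub (-a) (-b) (sub a b f) = f := by
  have : (sub (-a) (-b)).comp (sub a b) = RingHom.id K[X][X] := by
    refine Polynomial.ringHom_ext' (Polynomial.ringHom_ext' ?_ ?_) ?_
    · ext c
      simp [sub_cc]
    · simp only [RingHom.comp_apply, RingHom.id_apply, sub_cx, map_add, map_mul, sub_cc, sub_x]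
      simp only [map_neg]
      ring
    · simp only [RingHom.comp_apply, RingHom.id_apply, sub_x]
  exact congrArg (fun φ : K[X][X] →+* K[X][X] => φ f) this

theorem sub_sub' (a b : K) (f : K[X][X]) : sub a b (sub (-a) (-b) f) = f := by
  have := sub_sub (-a) (-b) f
  rwa [neg_neg, neg_neg] at this

/-- coordinate change as an automorphism -/
noncomputable def subE (a b : K) : K[X][X] ≃+* K[X][X] :=
  RingEquiv.ofRingHom (sub a b) (sub (-a) (-b)) (RingHom.ext (sub_sub' a b))
    (RingHom.ext (sub_sub a b))

theorem irr_sub (a b : K) (f : K[X][X]) : Irreducible (sub a b f) ↔ Irreducible f :=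
  MulEquiv.irreducible_iff (subE a b)

theorem degree_pol {R : Type} [CommRing R] (l : List R) : (pol l).degree < l.length := by
  rw [degree_lt_iff_coeff_zero]
  intro m hm
  have : ∀ (l : List R) (i : ℕ), (pol l).coeff i = l.getD i 0 := by
    intro l
    induction l with
    | nil => intro i; simp [pol]
    | cons x l ih =>
      intro i
      cases i with
      | zero => simp [pol]
      | succ i => simp [pol, ih]
  rw [this]
  exact List.getD_eq_default _ _ hm

theorem mbiv_monic (l : List (List K)) : (mbiv l).Monic := by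
  unfold mbiv biv
  refine monic_X_pow_add ?_
  have := degree_pol (l.map pol)
  rwa [List.length_map] at this

theorem map_pol {R S : Type} [CommRing R] [CommRing S] (φ : R →+* S) (l : List R) :
    (pol l).map φ = pol (l.map φ) := by
  induction l with
  | nil => simp [pol]
  | cons x l ih => simp [pol, ih]

theorem eval_pol (l : List K) : (pol l).eval 0 = l.getD 0 0 := by
  cases l <;> simp [pol]

theorem mbiv_hd0 (l : List (List K)) : (mbiv l).map (evalRingHom (0 : K)) = mpol (hd0 l) := by
  unfold mbiv biv mpol hd0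
  rw [Polynomial.map_add, Polynomial.map_pow, map_X, map_pol, List.length_map, List.map_map]
  congr 3
  funext r
  simp only [Function.comp_apply, coe_evalRingHom, eval_pol]

end alg

section bc
variable {K k : Type} [Field K] [Field k] [Algebra K k]

theorem bcp_eq (f : K[X][X]) : bcp k f = mapRingHom (mapRingHom (algebraMap K k)) f := rfl

theorem bcp_sub (a b : K) (f : K[X][X]) :
    bcp k (sub a b f) = sub (algebraMap K k a) (algebraMap K k b) (bcp k f) := by
  have : (mapRingHom (mapRingHom (algebraMap K k))).comp (sub a b) =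
      (sub (algebraMap K k a) (algebraMap K k b)).comp
        (mapRingHom (mapRingHom (algebraMap K k))) := by
    refine Polynomial.ringHom_ext' (Polynomial.ringHom_ext' ?_ ?_) ?_
    · ext c
      simp [sub_cc]
    · simp [sub_cx]
    · simp [sub_x]
  exact congrArg (fun φ : K[X][X] →+* k[X][X] => φ f) this

theorem coeff_bcp (f : K[X][X]) (i j : ℕ) :
    ((bcp k f).coeff i).coeff j = algebraMap K k ((f.coeff i).coeff j) := by
  simp [bcp, coeff_map]

theorem bcp_ev0 (f : K[X][X]) :
    (bcp k f).map (evalRingHom (0 : k)) =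
      (f.map (evalRingHom (0 : K))).map (algebraMap K k) := by
  unfold bcp
  rw [Polynomial.map_map, Polynomial.map_map]
  congr 1
  refine Polynomial.ringHom_ext' ?_ ?_
  · ext c
    simp
  · simp

theorem mathM [IsAlgClosed k] (Q d : ℕ) (H : List (List K)) (a b c : K) (S : List (List K))
    (G : Fin d → Fin d → K) (as : Fin d → K) (g : Fin d → Fin d → K)
    (hc : c = ((sub a b (hom H)).coeff d).coeff 0)
    (hS : c ≠ 0 → sub a b (hom H) = C (C c) * mbiv S)
    (hG : GoodT Q d (bcp k (hom H)) (algebraMap K k a) (algebraMap K k b)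
      (fun i j => algebraMap K k (G i j)) (fun j => algebraMap K k (as j))
      (fun j i => algebraMap K k (g j i))) :
    c ≠ 0 ∧
    (¬ IsCoprime (mpol (hd0 S)) (derivative (mpol (hd0 S))) → ¬ Irreducible (bcp k (hom H))) ∧
    (IsCoprime (mpol (hd0 S)) (derivative (mpol (hd0 S))) →
      (∃ φ : Fin d → PowerSeries k, Rts (bcp k (mbiv S)) φ ∧
        GoodP (12 * d + 20) Q (bcp k (mbiv S)) φ (fun i j => algebraMap K k (G i j))
          (fun j => algebraMap K k (as j)) (fun j i => algebraMap K k (g j i))) ∧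
      (Irreducible (bcp k (hom H)) ↔ Irreducible (bcp k (mbiv S)))) := by
  obtain ⟨⟨h1, T, N, hT1, hT2, hT3, hT4⟩, h2⟩ := hG
  rw [← bcp_sub, coeff_bcp, ← hc] at h1 h2
  rw [← bcp_sub] at hT2 hT3
  have hc0 : c ≠ 0 := by
    intro h
    rw [h, map_zero] at h1
    exact h1 rfl
  have hf := hS hc0
  have hf' : bcp k (sub a b (hom H)) = C (C (algebraMap K k c)) * bcp k (mbiv S) := by
    rw [hf, bcp_eq, bcp_eq, map_mul]
    simp
  have hu : IsUnit (C (C (algebraMap K k c)) : k[X][X]) :=
    isUnit_C.2 (isUnit_C.2 (IsUnit.mk0 _ h1))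
  have hirr : Irreducible (bcp k (hom H)) ↔ Irreducible (bcp k (mbiv S)) := by
    rw [← irr_sub (algebraMap K k a) (algebraMap K k b), ← bcp_sub, hf']
    exact irreducible_isUnit_mul hu
  have hsf : Squarefree ((bcp k (mbiv S)).map (evalRingHom (0 : k))) ↔
      IsCoprime (mpol (hd0 S)) (derivative (mpol (hd0 S))) := by
    rw [bcp_ev0, mbiv_hd0, ← PerfectField.separable_iff_squarefree, Polynomial.separable_map]
    rfl
  refine ⟨hc0, ?_, ?_⟩
  · intro h hi
    rw [hirr] at hi
    apply h
    rw [← hsf]
    -- T is associated to S'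
    have hTS : T ∣ bcp k (mbiv S) := by
      rw [hf'] at hT2
      exact (hu.dvd_mul_left).1 hT2
    have hST : bcp k (mbiv S) ∣ T ^ N := by
      rw [hf'] at hT3
      exact dvd_trans (Dvd.intro_left _ rfl) hT3
    have hnu : ¬ IsUnit T := by
      intro hu'
      exact hi.not_isUnit (isUnit_of_dvd_unit hST (hu'.pow N))
    obtain ⟨U, hU⟩ := hTS
    have hUu : IsUnit U := (hi.isUnit_or_isUnit hU).resolve_left hnu
    have hdvd : bcp k (mbiv S) ∣ T := by
      obtain ⟨W, hW⟩ := hUu.exists_right_inv
      exact ⟨W, by rw [hU, mul_assoc, hW, mul_one]⟩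
    exact Squarefree.squarefree_of_dvd (Polynomial.map_dvd _ hdvd) hT4
  · intro h
    rw [← hsf] at h
    exact ⟨h2 (bcp k (mbiv S)) hf'.symm h, hirr⟩

end bc

section units

theorem vv_le (N : ℕ) (hN : 1 ≤ N) : vv (Nat.clog 2 N) ≤ 5 * N ^ 2 := by
  have h1 : 2 ^ (Nat.clog 2 N) ≤ 2 * N := by
    rcases Nat.lt_or_ge 1 N with h | h
    · have h2 := Nat.pow_pred_clog_lt_self (b := 2) (by norm_num) h
      have h3 : 1 ≤ Nat.clog 2 N := Nat.clog_pos (by norm_num) h
      have h4 : 2 ^ (Nat.clog 2 N) = 2 * 2 ^ (Nat.clog 2 N).pred := by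
        rw [← pow_succ']
        congr 1
        rw [Nat.pred_eq_sub_one]
        omega
      rw [h4]
      omega
    · have : N = 1 := by omega
      subst this
      simp
  have h2 : 7 ^ (Nat.clog 2 N) / 2 ^ (Nat.clog 2 N) ≤ (2 ^ (Nat.clog 2 N)) ^ 2 := by
    apply Nat.div_le_of_le_mul
    calc 7 ^ (Nat.clog 2 N) ≤ 8 ^ (Nat.clog 2 N) := Nat.pow_le_pow_left (by norm_num) _
      _ = 2 ^ (Nat.clog 2 N) * (2 ^ (Nat.clog 2 N)) ^ 2 := by
        rw [← pow_succ', ← pow_mul, mul_comm, pow_mul]
        norm_num
  have h3 : (2 ^ (Nat.clog 2 N)) ^ 2 ≤ (2 * N) ^ 2 := Nat.pow_le_pow_left h1 2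
  have h4 : 1 ≤ N ^ 2 := Nat.one_le_pow _ _ hN
  unfold vv
  have h5 : (2 * N) ^ 2 = 4 * N ^ 2 := by ring
  omega

theorem ww_le (N : ℕ) : ww N ≤ 5 * N ^ 3 := by
  rcases Nat.eq_zero_or_pos N with h | h
  · subst h
    simp [ww]
  · unfold ww
    calc N * vv (Nat.clog 2 N) ≤ N * (5 * N ^ 2) := Nat.mul_le_mul_left _ (vv_le N h)
      _ = 5 * N ^ 3 := by ring

theorem one_le_lgc (n : ℕ) : 1 ≤ lgc n := by unfold lgc; omega

theorem lgc_mono {m n : ℕ} (h : m ≤ n) : lgc m ≤ lgc n := by
  unfold lgc
  exact Nat.add_le_add_right (Nat.clog_mono_right 2 h) 1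

theorem lgc_sq (p d : ℕ) (h : p ≤ d * d) : lgc p ≤ 2 * lgc (d + 1) := by
  refine (lgc_mono h).trans ?_
  unfold lgc
  have h1 : d + 1 ≤ 2 ^ (Nat.clog 2 (d + 1)) := Nat.le_pow_clog (by norm_num) _
  have h2 : Nat.clog 2 (d * d) ≤ Nat.clog 2 (d + 1) + Nat.clog 2 (d + 1) := by
    apply Nat.clog_le_of_le_pow
    rw [pow_add]
    exact Nat.mul_le_mul (by omega) (by omega)
  omega

theorem lgc_s (d : ℕ) : lgc (12 * d + 20 + 1) ≤ 6 * lgc (d + 1) := by
  unfold lgc
  have h1 : d + 1 ≤ 2 ^ (Nat.clog 2 (d + 1)) := Nat.le_pow_clog (by norm_num) _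
  have h2 : Nat.clog 2 (12 * d + 20 + 1) ≤ 5 + Nat.clog 2 (d + 1) := by
    apply Nat.clog_le_of_le_pow
    rw [pow_add]
    omega
  omega

end units

section main
variable {F : Type} [Field F] [DecidableEq F]

/-- parameters -/
abbrev PAR : Ty := .prod Un (.prod Po Un)
/-- parts of the random list -/
abbrev CUT : Ty := .prod .fld (.prod .fld (.prod Ma (.prod Po Ma)))
/-- input of the program for the columns -/
abbrev TSys : Ty := .prod Un (.prod (.prod Po Un) (.prod Un (.prod Ma (.prod Ma (.prod Po Ma)))))
/-- input of the second part -/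
abbrev T2 : Ty := .prod PAR (.prod Un (.prod CUT Ma))

/-- number of free columns is one -/
def P3 (wS : Pr RT TSys (.list (.prod Po Po)))
    (wK : Pr [] (.list (.prod Po Po)) (.prod (.list Po) (.list (.prod Po Po)))) :
    Pr RT TSys Un :=
  .comp wS (.comp (.comp (liftP RT wK) .snd) oneP)

theorem val_P3 (wS : Pr RT TSys (.list (.prod Po Po)))
    (wK : Pr [] (.list (.prod Po Po)) (.prod (.list Po) (.list (.prod Po Po))))
    (v : SV F RT) (x : Ty.D F TSys) :
    (P3 wS wK).val v x =
      if List.length (wK.val () (wS.val v x)).2 = 1 then un 1 else un 0 := by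
  simp only [P3, val_comp, val_liftP, val_snd, val_oneP]

theorem cost_P3 (wS : Pr RT TSys (.list (.prod Po Po)))
    (wK : Pr [] (.list (.prod Po Po)) (.prod (.list Po) (.list (.prod Po Po))))
    (v : SV F RT) (k : SC F RT) (x : Ty.D F TSys) :
    (P3 wS wK).cost v k x ≤ wS.cost v k x + wK.cost () () (wS.val v x) + 15 := by
  have h := cost_oneP (s := RT) (a := .prod Po Po) v k (wK.val () (wS.val v x)).2
  simp only [P3, cost_comp, cost_liftP, val_comp, val_liftP, cost_snd, val_snd]
  omega

/-- second part -/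
def P2 (wP : Pr [] (.prod Un (.prod .fld (.prod .fld Ma))) (.prod .fld Ma)) (wQ : Pr [] Po Un)
    (w3 : Pr RT TSys Un) : Pr RT T2 Un :=
  lt (.comp (.pair (.comp .snd .fst)
      (.pair (.comp (.comp (.comp .snd .snd) .fst) .fst)
      (.pair (.comp (.comp (.comp (.comp .snd .snd) .fst) .snd) .fst)
        (.comp (.comp .snd .snd) .snd)))) (liftP RT wP))
  (onZ (.comp .snd .fst) .nil
  (onL (.comp (.comp .snd .snd) (.comp hd0P (liftP RT wQ))) .nil
  (.comp (.comp .fst (.pair (.comp .fst (.comp .fst .fst))
    (.pair (.comp .fst (.comp .fst .snd))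
    (.pair (.comp .fst (.comp .snd .fst))
    (.pair (.comp .snd .snd)
      (.comp (.comp .fst (.comp (.comp .snd .snd) .fst)) (.comp .snd .snd))))))) w3)))

theorem val_P2 (wP : Pr [] (.prod Un (.prod .fld (.prod .fld Ma))) (.prod .fld Ma))
    (wQ : Pr [] Po Un) (w3 : Pr RT TSys Un) (v : SV F RT) (r : List Unit)
    (be : List F × List Unit) (s : List Unit) (a b : F)
    (R : List (List F) × (List F × List (List F))) (H : List (List F)) :
    (P2 wP wQ w3).val v ((r, be), (s, ((a, (b, R)), H))) =
      if (wP.val () (s, (a, (b, H)))).1 = 0 then ([] : List Unit) else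
        lcase (wQ.val () (hd0 (wP.val () (s, (a, (b, H)))).2)) ([] : List Unit)
          (fun _ _ => w3.val v (r, (be, (s, ((wP.val () (s, (a, (b, H)))).2, R))))) := by
  simp only [P2, val_lt, val_comp, val_pair, val_fst, val_snd, val_liftP, val_onZ, val_onL,
    val_nil, val_hd0P]

theorem cost_P2 (wP : Pr [] (.prod Un (.prod .fld (.prod .fld Ma))) (.prod .fld Ma))
    (wQ : Pr [] Po Un) (w3 : Pr RT TSys Un) (v : SV F RT) (k : SC F RT) (r : List Unit)
    (be : List F × List Unit) (s : List Unit) (a b : F)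
    (R : List (List F) × (List F × List (List F))) (H : List (List F)) :
    (P2 wP wQ w3).cost v k ((r, be), (s, ((a, (b, R)), H))) ≤
      wP.cost () () (s, (a, (b, H))) +
      (22 * List.length (wP.val () (s, (a, (b, H)))).2 +
        wQ.cost () () (hd0 (wP.val () (s, (a, (b, H)))).2)) +
      w3.cost v k (r, (be, (s, ((wP.val () (s, (a, (b, H)))).2, R)))) + 100 := by
  have h := cost_hd0P (s := RT) v k (wP.val () (s, (a, (b, H)))).2
  simp only [P2, cost_lt, cost_comp, cost_pair, cost_fst, cost_snd, cost_liftP, cost_onZ,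
    cost_onL, cost_nil, val_comp, val_pair, val_fst, val_snd, val_liftP, val_hd0P]
  split_ifs
  · omega
  · generalize wQ.val () (hd0 (wP.val () (s, (a, (b, H)))).2) = y
    cases y with
    | nil => simp only [lcase_nil]; omega
    | cons u t => simp only [lcase_cons]; omega

/-- first part -/
def P1 (wR : Pr [] (.prod Un Un) PAR) (w2 : Pr RT T2 Un) : Pr RT (.prod Ma Po) Un :=
  lt (.comp .fst unD)
  (lt (.comp .snd dP)
  (onZ (.comp .snd facP)
    (.comp (.pair (ap2 (liftP RT wR) .snd (.comp .fst .snd))
      (.pair (.comp (.comp .fst .snd) sP)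
      (.pair (ap2 cutP (.comp .fst .snd) (ap3 fitP (.comp (.comp .fst .snd) rP) .zero
          (.comp (.comp .fst .fst) .snd)))
        (.comp (.comp .fst .fst) .fst)))) w2)
    .nil))

theorem val_P1 (wR : Pr [] (.prod Un Un) PAR) (w2 : Pr RT T2 Un) (v : SV F RT)
    (H : List (List F)) (ω : List F) (d : ℕ) (hd : H.length = d + 1) :
    (P1 wR w2).val v (H, ω) =
      if (Nat.factorial (d * d) : F) = 0 then
        w2.val v (wR.val () (un (d * d), un d), (un (12 * d + 20),
          ((cutP : Pr RT (.prod Un Po) CUT).val v (un d, fit (Rt d) 0 ω), H)))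
      else ([] : List Unit) := by
  have e : List.length H - 1 = d := by omega
  simp only [P1, val_lt, val_comp, val_pair, val_fst, val_snd, val_liftP, val_onZ, val_unD,
    val_dP, val_facP, val_sP, val_fitP, val_rP, val_zero, val_nil, length_un, e]

theorem cost_P1 (wR : Pr [] (.prod Un Un) PAR) (w2 : Pr RT T2 Un) (v : SV F RT) (k : SC F RT)
    (H : List (List F)) (ω : List F) (d : ℕ) (hd : H.length = d + 1) (B : ℕ)
    (hB : (Nat.factorial (d * d) : F) = 0 →
      w2.cost v k (wR.val () (un (d * d), un d), (un (12 * d + 20),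
          ((cutP : Pr RT (.prod Un Po) CUT).val v (un d, fit (Rt d) 0 ω), H))) ≤ B) :
    (P1 wR w2).cost v k (H, ω) ≤ Pr.cost (F := F) wR () () (un (d * d), un d) +
      4000 * ((d + 1) * (d + 1)) + B := by
  have e : List.length H - 1 = d := by omega
  have c1 := cost_unD (s := RT) (a := .list .fld) v k H
  have c2 := cost_dP (s := RT) v k (un d)
  have c3 := cost_facP (s := RT) v k (un (d * d))
  have c4 := cost_sP (s := RT) v k (un d)
  have c5 := cost_rP (s := RT) v k (un d)
  have c6 := cost_fitP (s := RT) (b := .unit) (a := .fld) v k (un (Rt d), ((0 : F), ω))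
  have c7 := cost_cutP (s := RT) v k (un d) (fit (Rt d) 0 ω)
  rw [hd] at c1
  simp only [length_un] at c1 c2 c3 c4 c5 c6 c7
  simp only [P1, cost_lt, cost_comp, cost_pair, cost_fst, cost_snd, cost_liftP, cost_onZ,
    cost_nil, cost_zero, val_comp, val_pair, val_fst, val_snd, val_liftP, val_unD, val_dP,
    val_facP, val_sP, val_fitP, val_rP, val_zero, length_un, e]
  have e2 : Rt d = 2 * (d * d) + d + 2 := by unfold Rt; ring
  have e3 : (20 * d + 85) * d = 20 * (d * d) + 85 * d := by ring
  have e4 : (60 * d + 200) * d = 60 * (d * d) + 200 * d := by ring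
  have e5 : (d + 1) * (d + 1) = d * d + 2 * d + 1 := by ring
  rw [e3] at c2
  rw [e4] at c5
  rw [e5] at c7
  rw [e5]
  generalize d * d = D at *
  split_ifs with h
  · have hB' := hB h
    omega
  · omega

end main


section fin
variable {F : Type} [Field F] [DecidableEq F]

theorem cut_rlist {s : List (Ty × Ty)} (v : SV F s) {d : ℕ} (a b : F) (G : Fin d → Fin d → F)
    (as : Fin d → F) (g : Fin d → Fin d → F) :
    (cutP : Pr s (.prod Un Po) CUT).val v (un d, rlist a b G as g) =
      (a, (b, (rows G, (List.ofFn as, rows g)))) := by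
  rw [val_cutP, length_un]
  have e1 : (rlist a b G as g).tail.tail =
      (rows G).flatten ++ (List.ofFn as ++ (rows g).flatten) := rfl
  have e2 : (rlist a b G as g).getD 0 0 = a := rfl
  have e3 : (rlist a b G as g).tail.getD 0 0 = b := rfl
  have e4 := chunks_flatten d (rows G) (rows_mem G)
  have e5 := chunks_flatten d (rows g) (rows_mem g)
  rw [rows_length] at e4 e5
  rw [e1, e2, e3, List.take_left' (flatten_length G), List.drop_left' (flatten_length G),
    List.take_left' (List.length_ofFn), List.drop_left' (List.length_ofFn), e4, e5]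

theorem nrow_le (d : ℕ) : nrow d (12 * d + 20) ≤ 48 * d + 80 := by
  unfold nrow n0 n1
  omega

omit [DecidableEq F] in
theorem guard_iff (p d : ℕ) (hp : p.Prime) (hc : CharP F p) :
    (Nat.factorial (d * d) : F) = 0 ↔ p ≤ d * d := by
  rw [CharP.cast_eq_zero_iff F p, hp.dvd_factorial]

/-- the final sum -/
theorem final_sum (CP CQ CS CK kS d e p : ℕ) (cP cQ cS cK l m : ℕ)
    (hp : p ≤ d * d) (he : e ≤ lgc d)
    (h1 : cP ≤ CP * (ww (d + 1) + (12 * d + 20 + 1) ^ 2))
    (h2 : cQ ≤ CQ * ww (d + 1))
    (h3 : cS ≤ CS * ((e + 1) * lgc p * lgc (12 * d + 20 + 1) ^ kS * (12 * d + 20 + 1) ^ 3))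
    (h4 : cK ≤ CK * (l + m + 1) * vv (Nat.clog 2 (m + 1))) (hl : l = d + d)
    (hm : m ≤ 48 * d + 80) :
    cP + (22 * d + cQ) + (cS + cK + 15) + 100 ≤
      (CP * 446 + CQ * 5 + CS * (4 * 6 ^ kS * 9261) + CK * 2657205 + 137) *
        (lgc (d + 1) ^ (kS + 2) * (d + 1) ^ 3) := by
  have hL : 1 ≤ lgc (d + 1) := one_le_lgc _
  have hN : 1 ≤ d + 1 := by omega
  have hN3 : 1 ≤ (d + 1) ^ 3 := Nat.one_le_pow _ _ hN
  have hLk : 1 ≤ lgc (d + 1) ^ (kS + 2) := Nat.one_le_pow _ _ hL
  set T := lgc (d + 1) ^ (kS + 2) * (d + 1) ^ 3 with hT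
  have hNT : (d + 1) ^ 3 ≤ T := Nat.le_mul_of_pos_left _ (by omega)
  have hNN : (d + 1) ^ 2 ≤ (d + 1) ^ 3 := Nat.pow_le_pow_right (by omega) (by norm_num)
  have hdN : d + 1 ≤ (d + 1) ^ 3 := Nat.le_self_pow (by norm_num) _
  have hw := ww_le (d + 1)
  have a1 : cP ≤ CP * 446 * T := by
    calc cP ≤ CP * (ww (d + 1) + (12 * d + 20 + 1) ^ 2) := h1
      _ ≤ CP * (5 * (d + 1) ^ 3 + 441 * (d + 1) ^ 3) := by
        apply Nat.mul_le_mul_left
        have : (12 * d + 20 + 1) ^ 2 ≤ 441 * (d + 1) ^ 2 := by nlinarith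
        omega
      _ = CP * 446 * (d + 1) ^ 3 := by ring
      _ ≤ CP * 446 * T := Nat.mul_le_mul_left _ hNT
  have a2 : cQ ≤ CQ * 5 * T := by
    calc cQ ≤ CQ * ww (d + 1) := h2
      _ ≤ CQ * (5 * (d + 1) ^ 3) := Nat.mul_le_mul_left _ hw
      _ = CQ * 5 * (d + 1) ^ 3 := by ring
      _ ≤ CQ * 5 * T := Nat.mul_le_mul_left _ hNT
  have a3 : cS ≤ CS * (4 * 6 ^ kS * 9261) * T := by
    have b1 : e + 1 ≤ 2 * lgc (d + 1) := by
      have := lgc_mono (show d ≤ d + 1 by omega)
      omega
    have b2 := lgc_sq p d hp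
    have b3 := lgc_s d
    have b4 : 12 * d + 20 + 1 ≤ 21 * (d + 1) := by omega
    calc cS ≤ CS * ((e + 1) * lgc p * lgc (12 * d + 20 + 1) ^ kS * (12 * d + 20 + 1) ^ 3) := h3
      _ ≤ CS * ((2 * lgc (d + 1)) * (2 * lgc (d + 1)) * (6 * lgc (d + 1)) ^ kS *
          (21 * (d + 1)) ^ 3) := by
        gcongr
      _ = CS * (4 * 6 ^ kS * 9261) * T := by
        rw [hT, mul_pow, mul_pow]
        ring
  have a4 : cK ≤ CK * 2657205 * T := by
    calc cK ≤ CK * (l + m + 1) * vv (Nat.clog 2 (m + 1)) := h4
      _ ≤ CK * (81 * (d + 1)) * (5 * (81 * (d + 1)) ^ 2) := by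
        have b1 : l + m + 1 ≤ 81 * (d + 1) := by omega
        have b2 : m + 1 ≤ 81 * (d + 1) := by omega
        have b3 := vv_le (m + 1) (by omega)
        gcongr
        exact b3.trans (by gcongr)
      _ = CK * 2657205 * (d + 1) ^ 3 := by ring
      _ ≤ CK * 2657205 * T := Nat.mul_le_mul_left _ hNT
  have a5 : 22 * d + 115 ≤ 137 * T := by omega
  have e : (CP * 446 + CQ * 5 + CS * (4 * 6 ^ kS * 9261) + CK * 2657205 + 137) * T =
      CP * 446 * T + CQ * 5 * T + CS * (4 * 6 ^ kS * 9261) * T + CK * 2657205 * T + 137 * T := by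
    ring
  rw [e]
  omega

end fin

end TA

/-- TARGET -/
theorem specTestA (h1 : SpecPar) (h2 : SpecPrep) (h3 : SpecSqt) (h4 : SpecSys) (h5 : SpecKer)
    (h6 : StmtFree) (h7 : StmtIrrCst) (h0 : SpecUnits) : SpecTestA := by
  clear h0
  obtain ⟨wR, CR, hR⟩ := h1
  obtain ⟨wP, CP, hP⟩ := h2
  obtain ⟨wQ, CQ, hQ⟩ := h3
  obtain ⟨wS, CS, kS, hS⟩ := h4
  obtain ⟨wK, CK, hK⟩ := h5 Po
  refine ⟨TA.P1 wR (TA.P2 wP wQ (TA.P3 wS wK)), (CP * 446 + CQ * 5 + CS * (4 * 6 ^ kS * 9261) +
    CK * 2657205 + 137) + CR + 4000, kS + 2, ?_⟩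
  intro K _ _ p d rt H hp hchar hrt hH hd _
  have hHl : H.length = d + 1 := hH.1
  constructor
  · intro ω
    obtain ⟨a, b, G, as, g, hω⟩ := TA.exists_rlist d (fit (Rt d) 0 ω) (length_fit _ _ _)
    have c1 := (hR K p (d * d) d hp hchar hd).2
    have c2 := TA.cost_P1 wR (TA.P2 wP wQ (TA.P3 wS wK)) (rt, ()) ((fun _ => 1), ()) H ω d hHl
      ((CP * 446 + CQ * 5 + CS * (4 * 6 ^ kS * 9261) + CK * 2657205 + 137) *
        (lgc (d + 1) ^ (kS + 2) * (d + 1) ^ 3)) ?_
    · have hL : 1 ≤ lgc (d + 1) ^ (kS + 2) := Nat.one_le_pow _ _ (TA.one_le_lgc _)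
      have hNT : (d + 1) ^ 3 ≤ lgc (d + 1) ^ (kS + 2) * (d + 1) ^ 3 :=
        Nat.le_mul_of_pos_left _ (by omega)
      have e1 : CR * (d + 1) * (d * d + 1) ≤ CR * (lgc (d + 1) ^ (kS + 2) * (d + 1) ^ 3) := by
        calc CR * (d + 1) * (d * d + 1) ≤ CR * (d + 1) * ((d + 1) * (d + 1)) := by
              apply Nat.mul_le_mul_left
              nlinarith
          _ = CR * (d + 1) ^ 3 := by ring
          _ ≤ _ := Nat.mul_le_mul_left _ hNT
      have e2 : 4000 * ((d + 1) * (d + 1)) ≤
          4000 * (lgc (d + 1) ^ (kS + 2) * (d + 1) ^ 3) := by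
        apply Nat.mul_le_mul_left
        refine le_trans ?_ hNT
        calc (d + 1) * (d + 1) = (d + 1) ^ 2 := by ring
          _ ≤ (d + 1) ^ 3 := Nat.pow_le_pow_right (by omega) (by norm_num)
      calc _ ≤ _ := c2
        _ ≤ CR * (lgc (d + 1) ^ (kS + 2) * (d + 1) ^ 3) +
            4000 * (lgc (d + 1) ^ (kS + 2) * (d + 1) ^ 3) +
            (CP * 446 + CQ * 5 + CS * (4 * 6 ^ kS * 9261) + CK * 2657205 + 137) *
              (lgc (d + 1) ^ (kS + 2) * (d + 1) ^ 3) := by omega
        _ = _ := by ring
    · intro hfac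
      rw [TA.guard_iff p d hp hchar] at hfac
      obtain ⟨r, e, hr, hr0, hn1, hn2, he, hval⟩ := (hR K p (d * d) d hp hchar hd).1 hfac
      rw [hval, hω, TA.cut_rlist]
      obtain ⟨q1, q2, q3, q4, q5⟩ := hP K a b d (12 * d + 20) H hH hd (by omega)
      have c3 := TA.cost_P2 wP wQ (TA.P3 wS wK) (rt, ()) ((fun _ => 1), ()) (un r)
        (bits K p, un e) (un (12 * d + 20)) a b (rows G, (List.ofFn as, rows g)) H
      set S : List (List K) := (wP.val () (un (12 * d + 20), (a, (b, H)))).2 with hSdef
      have c4 := (hQ K (hd0 S) (by rw [hd0, List.length_map, q2]; exact hd)).2.2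
      obtain ⟨tc, lc, s1, s2, s3, s4, s5⟩ := hS K p e r (12 * d + 20) d rt S G as g hp hchar hrt hr
        hr0 hd q2 (by omega) q3
      have c6 := TA.cost_P3 wS wK (rt, ()) ((fun _ => 1), ())
        (un r, ((bits K p, un e), (un (12 * d + 20), (S, (rows G, (List.ofFn as, rows g))))))
      rw [s3] at c6
      have c7 := (hK K (nrow d (12 * d + 20))
        (List.ofFn (fun j => (([] : List K), tc j)) ++ List.ofFn (fun j => (uvec K d j, lc j)))
        (by
          intro x hx
          rw [List.mem_append, List.mem_ofFn, List.mem_ofFn] at hx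
          rcases hx with ⟨j, rfl⟩ | ⟨j, rfl⟩
          · exact s1 j
          · exact s2 j)).2
      have e2 : (hd0 S).length = d := by rw [hd0, List.length_map, q2]
      rw [e2] at c4
      have e3 : (List.ofFn (fun j => (([] : List K), tc j)) ++
          List.ofFn (fun j => (uvec K d j, lc j))).length = d + d := by
        simp
      have fs := TA.final_sum CP CQ CS CK kS d e p _ _ _ _ _ _ hfac he q5 c4 s5 c7 e3
        (TA.nrow_le d)
      rw [q2] at c3
      omega
  · intro hpd
    have hle : p ≤ d * d := by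
      have : d ^ 2 = d * d := by ring
      omega
    obtain ⟨r, e, hr, hr0, hn1, hn2, he, hval⟩ := (hR K p (d * d) d hp hchar hd).1 hle
    refine ⟨e, hn1, hn2, ?_⟩
    intro a b G as g k _ _ _ hG
    have e1 : fit (Rt d) 0 (rlist a b G as g) = rlist a b G as g := by
      have := TA.fit_self 0 (rlist a b G as g)
      rwa [TA.rlist_length] at this
    have hv : (TA.P1 wR (TA.P2 wP wQ (TA.P3 wS wK))).val (rt, ()) (H, rlist a b G as g) =
        (TA.P2 wP wQ (TA.P3 wS wK)).val (rt, ()) ((un r, (bits K p, un e)),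
          (un (12 * d + 20), ((a, (b, (rows G, (List.ofFn as, rows g)))), H))) := by
      rw [TA.val_P1 _ _ _ _ _ d hHl, e1, TA.cut_rlist, hval,
        if_pos ((TA.guard_iff p d hp hchar).2 hle)]
    rw [hv, TA.val_P2]
    obtain ⟨q1, q2, q3, q4, q5⟩ := hP K a b d (12 * d + 20) H hH hd (by omega)
    set S : List (List K) := (wP.val () (un (12 * d + 20), (a, (b, H)))).2 with hSdef
    obtain ⟨m1, m2, m3⟩ := TA.mathM (p ^ e) d H a b _ S G as g q1 (fun h => (q4 h).1) hG
    rw [if_neg m1]
    by_cases hcop : IsCoprime (mpol (hd0 S)) (derivative (mpol (hd0 S)))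
    · have hq := (hQ K (hd0 S) (by rw [hd0, List.length_map, q2]; exact hd)).1 hcop
      obtain ⟨⟨φ, hφ, hgood⟩, hirr⟩ := m3 hcop
      obtain ⟨tc, lc, s1, s2, s3, s4, s5⟩ := hS K p e r (12 * d + 20) d rt S G as g hp hchar hrt hr
        hr0 hd q2 (by omega) q3
      have hker := (hK K (nrow d (12 * d + 20))
        (List.ofFn (fun j => (([] : List K), tc j)) ++ List.ofFn (fun j => (uvec K d j, lc j)))
        (by
          intro x hx
          rw [List.mem_append, List.mem_ofFn, List.mem_ofFn] at hx
          rcases hx with ⟨j, rfl⟩ | ⟨j, rfl⟩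
          · exact s1 j
          · exact s2 j)).1
      have hfree := h6 K k p e (12 * d + 20) d (bcp k (mbiv S)) φ _ _ _ tc lc _ _ hφ hgood s1 s2
        (fun l τ => s4 k φ hφ l τ) hker
      have hic := h7 k d (bcp k (mbiv S)) φ hφ
      rw [hq]
      have e5 : un 1 = () :: [] := rfl
      rw [e5, lcase_cons, TA.val_P3, s3, hfree, hirr, hic]
      constructor
      · intro h
        rw [if_pos h]
        rfl
      · intro h
        rw [if_neg h]
    · have hq := (hQ K (hd0 S) (by rw [hd0, List.length_map, q2]; exact hd)).2.1 hcop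
      rw [hq]
      have e5 : un 0 = [] := rfl
      rw [e5, lcase_nil]
      exact ⟨fun h => absurd h (m2 hcop), fun _ => rfl⟩

end Pool.Agent.H330AB.JT1
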