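import Pool.Agent.H330AB.SpecA3
set_option autoImplicit false
noncomputable section
namespace Pool.Agent.H330AB.JT2
open Polynomial Pool.Agent.H330FB

namespace T2

/-- counting in a product -/
theorem count {α β : Type} [Fintype α] [Fintype β] (P : α → β → Prop) (A : α → Prop)
    (t B B1 : ℕ) (h1 : ∀ a, ¬ A a → Nat.card {b : β // P a b} * t ≤ B)
    (h2 : Nat.card {a : α // A a} * t ≤ B1) :
    Nat.card {x : α × β // P x.1 x.2} * t ≤ B1 * Nat.card β + Nat.card α * B := by
  classical
  rw [Nat.card_congr (Equiv.subtypeProdEquivSigmaSubtype P), Nat.card_sigma, Finset.sum_mul]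
  have h3 : ∀ a : α, Nat.card {b : β // P a b} * t ≤
      (if A a then Nat.card β * t else 0) + B := by
    intro a
    by_cases ha : A a
    · rw [if_pos ha]
      have : Nat.card {b : β // P a b} ≤ Nat.card β := Finite.card_subtype_le _
      exact (Nat.mul_le_mul_right _ this).trans (Nat.le_add_right _ _)
    · rw [if_neg ha]
      have := h1 a ha
      omega
  refine (Finset.sum_le_sum (fun a _ => h3 a)).trans ?_
  rw [Finset.sum_add_distrib, Finset.sum_const, ← Finset.sum_filter, Finset.sum_const]
  have h4 : Nat.card {a : α // A a} = (Finset.univ.filter A).card := by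
    rw [Nat.card_eq_fintype_card, Fintype.card_subtype]
  rw [h4] at h2
  have h5 : (Finset.univ : Finset α).card = Nat.card α := by
    rw [Nat.card_eq_fintype_card]; rfl
  rw [h5]
  simp only [smul_eq_mul]
  have h6 : (Finset.univ.filter A).card * (Nat.card β * t) ≤ B1 * Nat.card β := by
    calc (Finset.univ.filter A).card * (Nat.card β * t)
        = ((Finset.univ.filter A).card * t) * Nat.card β := by ring
      _ ≤ B1 * Nat.card β := Nat.mul_le_mul_right _ h2
  exact Nat.add_le_add_right h6 _

section td
variable {A : Type} [CommRing A]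

theorem TD_mono {f : A[X][X]} {k m : ℕ} (h : TD f k) (hkm : k ≤ m) : TD f m :=
  fun i j hij => h i j (by omega)

theorem TD_add {f g : A[X][X]} {k : ℕ} (hf : TD f k) (hg : TD g k) : TD (f + g) k := by
  intro i j hij
  simp [hf i j hij, hg i j hij]

theorem TD_mul {f g : A[X][X]} {k m : ℕ} (hf : TD f k) (hg : TD g m) : TD (f * g) (k + m) := by
  intro i j hij
  rw [coeff_mul, finsetSum_coeff]
  apply Finset.sum_eq_zero
  rintro ⟨a, b⟩ hab
  have hab' : a + b = i := by simpa using hab
  rw [coeff_mul]
  apply Finset.sum_eq_zero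
  rintro ⟨c, d⟩ hcd
  have hcd' : c + d = j := by simpa using hcd
  simp only
  by_cases h : k < a + c
  · rw [hf a c h, zero_mul]
  · rw [hg b d (by omega), mul_zero]

theorem TD_CC (c : A) : TD (C (C c) : A[X][X]) 0 := by
  intro i j hij
  rw [coeff_C]
  split_ifs with h
  · rw [coeff_C, if_neg (by omega)]
  · simp

theorem TD_zero (k : ℕ) : TD (0 : A[X][X]) k := fun i j _ => by simp

theorem TD_one : TD (1 : A[X][X]) 0 := by
  have := TD_CC (1 : A)
  simpa using this

theorem TD_pow {f : A[X][X]} {m : ℕ} (hf : TD f m) (k : ℕ) : TD (f ^ k) (k * m) := by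
  induction k with
  | zero => simpa using TD_one
  | succ k ih =>
    rw [pow_succ]
    exact TD_mono (TD_mul ih hf) (by rw [Nat.succ_mul])

theorem TD_X : TD (X : A[X][X]) 1 := by
  intro i j hij
  rw [coeff_X]
  split_ifs with h
  · rw [coeff_one, if_neg (by omega)]
  · simp

theorem TD_CX : TD (C (X : A[X]) : A[X][X]) 1 := by
  intro i j hij
  rw [coeff_C]
  split_ifs with h
  · rw [coeff_X, if_neg (by omega)]
  · simp

theorem TD_sum {ι : Type} (s : Finset ι) (f : ι → A[X][X]) (k : ℕ) (h : ∀ i ∈ s, TD (f i) k) :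
    TD (∑ i ∈ s, f i) k := by
  classical
  induction s using Finset.induction_on with
  | empty => simpa using TD_zero k
  | insert a s ha ih =>
    rw [Finset.sum_insert ha]
    exact TD_add (h a (Finset.mem_insert_self _ _))
      (ih (fun i hi => h i (Finset.mem_insert_of_mem hi)))

end td

theorem TD_sub_hom {k : Type} [Field k] (a b : k) (d : ℕ) (H : List (List k)) (hH : IsHom d H) :
    TD (sub a b (hom H)) d := by
  unfold hom
  rw [map_sum]
  apply TD_sum
  intro m hm
  rw [map_sum]
  apply TD_sum
  intro j hj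
  rw [Finset.mem_range] at hm hj
  have hl := hH.1
  have hsub : sub a b (C (C ((H.getD m []).getD j 0) * X ^ j) * X ^ (m - j)) =
      C (C ((H.getD m []).getD j 0)) * (C (X + C b) + C (C a) * X) ^ j * X ^ (m - j) := by
    rw [map_mul, map_pow, C_mul, C_pow, map_mul, map_pow]
    simp only [sub, coe_eval₂RingHom, eval₂_C, eval₂_X, RingHom.comp_apply]
  rw [hsub]
  have h1 : TD (C (X + C b) + C (C a) * X : k[X][X]) 1 := by
    apply TD_add
    · rw [C_add]
      exact TD_add TD_CX (TD_mono (TD_CC b) (by omega))
    · exact TD_mono (TD_mul (TD_CC a) TD_X) (by omega)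
  exact TD_mono (TD_mul (TD_mul (TD_CC _) (TD_pow h1 j)) (TD_pow TD_X (m - j))) (by omega)

end T2

open T2 in
/-- most random choices are good -/
theorem testCount (h1 : StmtCoT) (h2 : StmtRoots) (h3 : StmtRp) : StmtTestCount := by
  intro k _ _ p _ _ e d H T hH hd hT hde
  classical
  have hA := h1 k d H T hH hd hT
  have hB : ∀ a : T × T, ¬ (¬ CoGood (a.1 : k) (a.2 : k) (hom H) d) →
      Nat.card {b : (Fin d → Fin d → T) × (Fin d → T) × (Fin d → Fin d → T) //
        ¬ GoodT (p ^ e) d (hom H) (a.1 : k) (a.2 : k) (fun i j => (b.1 i j : k))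
        (fun j => (b.2.1 j : k)) (fun j i => (b.2.2 j i : k))} * T.card ≤
      40 * d ^ 2 * p ^ e * T.card ^ (d * d + d + d * d) := by
    intro a ha
    rw [not_not] at ha
    have hc := ha.1
    set F := sub (a.1 : k) (a.2 : k) (hom H) with hF
    set c := (F.coeff d).coeff 0 with hcdef
    have hTD : TD F d := TD_sub_hom _ _ d H hH
    set S0 : k[X][X] := C (C c⁻¹) * F with hS0
    have hS0eq : ∀ S : k[X][X], C (C c) * S = F → S = S0 := by
      intro S hS
      rw [hS0, ← hS, ← mul_assoc, ← C_mul, ← C_mul, inv_mul_cancel₀ hc]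
      simp
    by_cases hsq : Squarefree (S0.map (evalRingHom (0 : k)))
    · have hTD0 : TD S0 d := TD_mono (TD_mul (TD_CC _) hTD) (by omega)
      have hnd : S0.natDegree ≤ d := by
        rw [natDegree_le_iff_coeff_eq_zero]
        intro i hi
        ext j
        rw [hTD0 i j (by omega)]
        simp
      have hco : S0.coeff d = 1 := by
        ext j
        by_cases hj : j = 0
        · subst hj
          rw [hS0, coeff_C_mul, coeff_C_mul, ← hcdef, inv_mul_cancel₀ hc]
          simp
        · rw [hTD0 d j (by omega), coeff_one, if_neg hj]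
      have hmon : S0.Monic := monic_of_natDegree_le_of_coeff_eq_one d hnd hco
      have hdeg : S0.natDegree = d := by
        apply le_antisymm hnd
        apply le_natDegree_of_ne_zero
        rw [hco]
        exact one_ne_zero
      obtain ⟨φ, hφ⟩ := h2 k d S0 hmon hdeg hd hTD0 hsq
      have h4 := h3 k p e d (12 * d + 20) S0 φ T hφ le_rfl hde
      refine le_trans (Nat.mul_le_mul_right _ ?_) h4
      apply Nat.card_mono (Set.toFinite _)
      intro x hx hgood
      apply hx
      refine ⟨ha, fun S hS hsqS => ?_⟩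
      have := hS0eq S hS
      subst this
      exact ⟨φ, hφ, hgood⟩
    · have : IsEmpty {b : (Fin d → Fin d → T) × (Fin d → T) × (Fin d → Fin d → T) //
          ¬ GoodT (p ^ e) d (hom H) (a.1 : k) (a.2 : k) (fun i j => (b.1 i j : k))
          (fun j => (b.2.1 j : k)) (fun j i => (b.2.2 j i : k))} := by
        constructor
        rintro ⟨b, hb⟩
        apply hb
        refine ⟨ha, fun S hS hsqS => ?_⟩
        have := hS0eq S hS
        subst this
        exact absurd hsqS hsq
      rw [Nat.card_of_isEmpty]
      omega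
  have h5 := count (α := T × T)
    (β := (Fin d → Fin d → T) × (Fin d → T) × (Fin d → Fin d → T))
    (fun a b => ¬ GoodT (p ^ e) d (hom H) (a.1 : k) (a.2 : k) (fun i j => (b.1 i j : k))
        (fun j => (b.2.1 j : k)) (fun j i => (b.2.2 j i : k)))
    (fun a => ¬ CoGood (a.1 : k) (a.2 : k) (hom H) d) T.card _ _ hB hA
  refine h5.trans (le_of_eq ?_)
  have h6 : Nat.card ((Fin d → Fin d → T) × (Fin d → T) × (Fin d → Fin d → T)) =
      T.card ^ (d * d + (d + d * d)) := by
    simp only [Nat.card_eq_fintype_card, Fintype.card_prod, Fintype.card_fun, Fintype.card_fin,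
      Fintype.card_coe]
    rw [← pow_mul, ← pow_add, ← pow_add]
  have h7 : Nat.card (T × T) = T.card ^ 2 := by
    simp only [Nat.card_eq_fintype_card, Fintype.card_prod, Fintype.card_coe]
    rw [pow_two]
  rw [h6, h7]
  unfold Rt
  rw [show d * d + d + d * d = d * d + (d + d * d) by ring]
  rw [pow_add _ 2]
  ring

end Pool.Agent.H330AB.JT2
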