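import Pool.Agent.H330AB.SpecA2
import Pool.Agent.H330FB.FinalDefs

set_option autoImplicit false

/-!
# The absolute irreducibility test: exact statements
-/

namespace Pool.Agent.H330AB

open Polynomial Pool.Agent.H330FB

/-- number of random elements: coordinates, first test function, places, test functions -/
def Rt (d : ℕ) : ℕ := 2 + (d * d + (d + d * d))

/-- good random choices -/
def GoodT {k : Type} [Field k] (Q d : ℕ) (f : k[X][X]) (a b : k) (G : Fin d → Fin d → k)
    (as : Fin d → k) (g : Fin d → Fin d → k) : Prop :=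
  CoGood a b f d ∧
  ∀ S : k[X][X], C (C (((sub a b f).coeff d).coeff 0)) * S = sub a b f →
    Squarefree (S.map (evalRingHom (0 : k))) →
    ∃ φ : Fin d → PowerSeries k, Rts S φ ∧ GoodP (12 * d + 20) Q S φ G as g

/-- the random list -/
def rlist {K : Type} {d : ℕ} (a b : K) (G : Fin d → Fin d → K) (as : Fin d → K)
    (g : Fin d → Fin d → K) : List K :=
  [a, b] ++ ((rows G).flatten ++ (List.ofFn as ++ (rows g).flatten))

/-- the test for good random choices; input `(H, random list)` -/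
def SpecTestA : Prop := ∃ (w : Pr RT (.prod Ma Po) Un) (C k : ℕ),
  ∀ (K : Type) [Field K] [DecidableEq K] (p d : ℕ) (rt : K → K) (H : List (List K)), p.Prime →
  CharP K p → (∀ x, rt x ^ p = x) → IsHom d H → 1 ≤ d → TopNe d H →
  (∀ ω : List K, w.cost (rt, ()) ((fun _ => 1), ()) (H, ω) ≤
    C * lgc (d + 1) ^ k * (d + 1) ^ 3) ∧
  (p < d ^ 2 → ∃ e : ℕ, d ≤ p ^ e ∧ p ^ e ≤ d * p ∧
    ∀ (a b : K) (G : Fin d → Fin d → K) (as : Fin d → K) (g : Fin d → Fin d → K)
      (k : Type) [Field k] [Algebra K k] [IsAlgClosed k],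
    GoodT (p ^ e) d (bcp k (hom H)) (algebraMap K k a) (algebraMap K k b)
      (fun i j => algebraMap K k (G i j)) (fun j => algebraMap K k (as j))
      (fun j i => algebraMap K k (g j i)) →
    (Irreducible (bcp k (hom H)) → w.val (rt, ()) (H, rlist a b G as g) = un 1) ∧
    (¬ Irreducible (bcp k (hom H)) → w.val (rt, ()) (H, rlist a b G as g) = un 0))

/-- most random choices are good -/
def StmtTestCount : Prop := ∀ (k : Type) [Field k] [IsAlgClosed k] (p : ℕ) [Fact p.Prime]
  [CharP k p] (e d : ℕ) (H : List (List k)) (T : Finset k), IsHom d H → 1 ≤ d → TopNe d H →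
  d ≤ p ^ e →
  Nat.card {x : (T × T) × ((Fin d → Fin d → T) × (Fin d → T) × (Fin d → Fin d → T)) //
      ¬ GoodT (p ^ e) d (hom H) (x.1.1 : k) (x.1.2 : k) (fun i j => (x.2.1 i j : k))
        (fun j => (x.2.2.1 j : k)) (fun j i => (x.2.2.2 j i : k))} * T.card ≤
    (2 * d ^ 2 + 3 * d + 40 * d ^ 2 * p ^ e) * T.card ^ Rt d

/-- the test, in terms of lists -/
def SpecTest : Prop := ∃ (w : Pr RT (.prod Ma Po) Un) (C k : ℕ),
  ∀ (K : Type) [Field K] [DecidableEq K] (p d : ℕ) (rt : K → K) (H : List (List K)), p.Prime →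
  CharP K p → (∀ x, rt x ^ p = x) → IsHom d H → 1 ≤ d → TopNe d H →
  (∀ ω : List K, w.cost (rt, ()) ((fun _ => 1), ()) (H, ω) ≤
    C * lgc (d + 1) ^ k * (d + 1) ^ 3) ∧
  (p < d ^ 2 → ∀ T : Finset K, 135 * d ^ 5 ≤ T.card →
    2 * T.card ^ Rt d ≤ 3 * Nat.card {ω : Fin (Rt d) → T //
      w.val (rt, ()) (H, List.ofFn (fun i => (ω i : K))) ≠ [] ↔
        Irreducible (bcp (AlgebraicClosure K) (hom H))})

/-- absolute irreducibility test: final statement -/
def FinalTest : Prop :=
  ∃ (main : Pr [(.fld, .fld)] (.prod (.list (.list .fld)) (.list .fld)) (.list .unit))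
    (C c : ℕ),
  ∀ (K : Type) [Field K] [DecidableEq K] (p d : ℕ) (root : K → K)
    (f : MvPolynomial (Fin 2) K), p.Prime → CharP K p → (∀ x, root x ^ p = x) →
    1 ≤ d → f.totalDegree = d → p < d ^ 2 →
    (∀ ω : List K, main.cost (root, ()) ((fun _ => 1), ()) (coeffRows d f, ω) ≤
      C * d ^ 3 * (Nat.log 2 d + 1) ^ c) ∧
    (∀ T : Finset K, 135 * d ^ 5 ≤ T.card →
      2 * T.card ^ (2 * d ^ 2 + d + 2) ≤ 3 * Nat.card {ω : Fin (2 * d ^ 2 + d + 2) → T //
        main.val (root, ()) (coeffRows d f, List.ofFn (fun i => (ω i : K))) ≠ [] ↔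
          Irreducible (MvPolynomial.map (algebraMap K (AlgebraicClosure K)) f)})

end Pool.Agent.H330AB
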