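/- Project AB, job finalTest: the absolute irreducibility test in terms of bivariate polynomials. -/
import Pool.Agent.H330AB.SpecA3
import Pool.Agent.H330FB.JE9
set_option autoImplicit false
noncomputable section
namespace Pool.Agent.H330AB.JT4
open Polynomial Pool.Agent.H330FB

theorem finalTest_comm {F k : Type} [Field F] [Field k] [Algebra F k] (P : F[X][X]) :
    Pool.Agent.H330FB.JE9.finE (bcp k P) =
      MvPolynomial.map (algebraMap F k) (Pool.Agent.H330FB.JE9.finE P) := by
  have h : (Pool.Agent.H330FB.JE9.finPhi (F := k)).comp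
      (Polynomial.mapRingHom (Polynomial.mapRingHom (algebraMap F k))) =
      (MvPolynomial.map (algebraMap F k)).comp (Pool.Agent.H330FB.JE9.finPhi (F := F)) := by
    apply Polynomial.ringHom_ext'
    · apply Polynomial.ringHom_ext
      · intro a; simp [Pool.Agent.H330FB.JE9.finPhi]
      · simp [Pool.Agent.H330FB.JE9.finPhi]
    · simp [Pool.Agent.H330FB.JE9.finPhi]
  have h2 := congrArg (fun φ : F[X][X] →+* MvPolynomial (Fin 2) k => φ P) h
  exact h2

theorem finalTest_irr {F k : Type} [Field F] [Field k] [Algebra F k] (d : ℕ)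
    (f : MvPolynomial (Fin 2) F) (hf : f.totalDegree = d) :
    Irreducible (bcp k (hom (coeffRows d f))) ↔
      Irreducible (MvPolynomial.map (algebraMap F k) f) := by
  have h := finalTest_comm (k := k) (hom (coeffRows d f))
  rw [Pool.Agent.H330FB.JE9.finE_hom, Pool.Agent.H330FB.JE9.ofRows_coeffRows d f hf] at h
  rw [← h]
  exact (MulEquiv.irreducible_iff Pool.Agent.H330FB.JE9.finE).symm

theorem finalTest_lgc (d : ℕ) : lgc (d + 1) ≤ 2 * (Nat.log 2 d + 1) := by
  have h1 : Nat.clog 2 (d + 1) ≤ Nat.log 2 d + 1 := by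
    rw [Nat.clog_le_iff_le_pow (by norm_num)]
    exact Nat.lt_pow_succ_log_self (by norm_num) d
  unfold lgc
  omega

/-- TARGET -/
theorem finalTest (h : SpecTest) : FinalTest := by
  obtain ⟨w, C, k, hw⟩ := h
  refine ⟨w, C * 2 ^ k * 8, k, ?_⟩
  intro K _ _ p d root f hp hc hr hd hf hpd
  have hH := Pool.Agent.H330FB.JE9.isHom_coeffRows d f
  have hT := Pool.Agent.H330FB.JE9.topNe_coeffRows d f hd hf
  obtain ⟨h1, h2⟩ := hw K p d root (coeffRows d f) hp hc hr hH hd hT
  refine ⟨fun ω => (h1 ω).trans ?_, fun T hTc => ?_⟩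
  · have e1 : lgc (d + 1) ^ k ≤ 2 ^ k * (Nat.log 2 d + 1) ^ k := by
      rw [← mul_pow]
      exact Nat.pow_le_pow_left (finalTest_lgc d) k
    have e2 : (d + 1) ^ 3 ≤ 8 * d ^ 3 := by
      calc (d + 1) ^ 3 ≤ (2 * d) ^ 3 := Nat.pow_le_pow_left (by omega) 3
        _ = 8 * d ^ 3 := by ring
    calc C * lgc (d + 1) ^ k * (d + 1) ^ 3
        ≤ C * (2 ^ k * (Nat.log 2 d + 1) ^ k) * (8 * d ^ 3) :=
          Nat.mul_le_mul (Nat.mul_le_mul_left _ e1) e2
      _ = C * 2 ^ k * 8 * d ^ 3 * (Nat.log 2 d + 1) ^ k := by ring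
  · have h3 := h2 hpd T hTc
    have hR : 2 * d ^ 2 + d + 2 = Rt d := by unfold Rt; ring
    rw [hR]
    rw [propext (finalTest_irr (k := AlgebraicClosure K) d f hf)] at h3
    exact h3

end Pool.Agent.H330AB.JT4
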