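import Pool.Agent.H330FB.Assembly
import Pool.Agent.H330AB.JFM
import Pool.Agent.H330AB.JR1
import Pool.Agent.H330AB.JR2
import Pool.Agent.H330AB.JR3
import Pool.Agent.H330AB.JR4
import Pool.Agent.H330AB.JR5
import Pool.Agent.H330AB.JR6
import Pool.Agent.H330AB.JR7
import Pool.Agent.H330AB.JR8
import Pool.Agent.H330AB.JR9
import Pool.Agent.H330AB.JR10
import Pool.Agent.H330AB.JR11
import Pool.Agent.H330AB.JR12
import Pool.Agent.H330AB.JR13
import Pool.Agent.H330AB.JJ1
import Pool.Agent.H330AB.JJ2
import Pool.Agent.H330AB.JJ3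
import Pool.Agent.H330AB.JJ4
import Pool.Agent.H330AB.JJ5
import Pool.Agent.H330AB.JJ6
import Pool.Agent.H330AB.JJ7
import Pool.Agent.H330AB.JJ8
import Pool.Agent.H330AB.JJ9
import Pool.Agent.H330AB.JJ10
import Pool.Agent.H330AB.JJ11
import Pool.Agent.H330AB.JJ12
import Pool.Agent.H330AB.JJ13
import Pool.Agent.H330AB.JJ14
import Pool.Agent.H330AB.JJ15
import Pool.Agent.H330AB.JJ16
import Pool.Agent.H330AB.JJ17
import Pool.Agent.H330AB.JJ18
import Pool.Agent.H330AB.JT1
import Pool.Agent.H330AB.JT2
import Pool.Agent.H330AB.JT3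
import Pool.Agent.H330AB.JT4

set_option autoImplicit false

/-!
# Assembly of the absolute irreducibility test
-/

namespace Pool.Agent.H330AB.AssemblyA

open Pool.Agent.H330FB Pool.Agent.H330AB

theorem units : SpecUnits := Pool.Agent.H330FB.Assembly.units
theorem naive : SpecNaive := Pool.Agent.H330FB.JE1.specNaive
theorem mm : SpecMM := Pool.Agent.H330FB.Assembly.mm
theorem ker : SpecKer := Pool.Agent.H330FB.Assembly.ker
theorem inv : SpecInv := Pool.Agent.H330FB.Assembly.inv
theorem fibre : SpecFib := Pool.Agent.H330FB.Assembly.fibre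
theorem coF : SpecCoF := Pool.Agent.H330FB.Assembly.coF
theorem coB : SpecCoB := Pool.Agent.H330FB.Assembly.coB
theorem tdMod : StmtTDMod := Pool.Agent.H330FB.Assembly.tdMod
theorem lamFrob : StmtLamFrob := Pool.Agent.H330FB.Assembly.lamFrob
theorem lamNondeg : StmtLamNondeg := Pool.Agent.H330FB.Assembly.lamNondeg
theorem lemmaE : StmtLemmaE := Pool.Agent.H330FB.Assembly.lemmaE
theorem fewBad : StmtFewBad := Pool.Agent.H330FB.Assembly.fewBad

theorem tan : StmtTan := JR1.tan
theorem maxGen : StmtMaxGen := JR2.maxGen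
theorem comb : StmtComb := JR3.comb
theorem maxCount : StmtMaxCount := JR4.maxCount maxGen
theorem rat : StmtRat := JR5.rat tan lemmaE tdMod
theorem uc : StmtUc := JR6.uc
theorem loc : StmtLoc := JR7.loc tdMod lamFrob
theorem const : StmtConst := JR8.const
theorem vanCount : StmtVanCount := JR9.vanCount tdMod lamFrob lamNondeg
theorem badFib : StmtBadFib := JR10.badFib fewBad
theorem goodP : StmtGoodP := JR11.goodP tdMod lamFrob
theorem seq : StmtSeq := JR12.seq comb uc rat loc const vanCount badFib
theorem rp : StmtRp := JR13.rp maxCount seq goodP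

theorem fm : SpecFM := JFM.specFM
theorem mulRF : SpecMulRF := JJ1.specMulRF fm
theorem divRF : SpecDivRF := JJ2.specDivRF mulRF
theorem mma : SpecMMA := JJ3.specMMA mulRF divRF
theorem horn : SpecHorn := JJ4.specHorn mma
theorem newt : SpecNewt := JJ5.specNewt mma horn inv units
theorem tr : SpecTr := JJ6.specTr mm
theorem pn : SpecPN := JJ7.specPN naive
theorem pt : SpecPT := JJ8.specPT naive
theorem ys : SpecYs := JJ9.specYs mm
theorem raw : SpecRaw := JJ10.specRaw horn newt tr pn pt ys fibre units
theorem sys : SpecSys := JJ11.specSys raw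
theorem par : SpecPar := JJ12.specPar
theorem prep : SpecPrep := JJ13.specPrep coF
theorem sqt : SpecSqt := JJ14.specSqt inv naive units
theorem coT : StmtCoT := JJ15.coT
theorem irrCst : StmtIrrCst := JJ16.irrCst
theorem free : StmtFree := JJ17.free
theorem roots : StmtRoots := JJ18.roots
theorem testA : SpecTestA := JT1.specTestA par prep sqt sys ker free irrCst units
theorem testCount : StmtTestCount := JT2.testCount coT roots rp
theorem test : SpecTest := JT3.specTest testA testCount
theorem finalTest : FinalTest := JT4.finalTest test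

end Pool.Agent.H330AB.AssemblyA
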