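import Pool.Agent.H330AB.SpecB3
set_option autoImplicit false
noncomputable section
namespace Pool.Agent.H330AB.JF2
open Polynomial Pool.Agent.H330FB

namespace F2

/-- counting in a product -/
theorem count {α β : Type} [Fintype α] [Fintype β] (P : α → β → Prop) (A : α → Prop)
    (t B B1 : ℕ) (h1 : ∀ a, ¬ A a → Nat.card {b : β // P a b} * t ≤ B)
    (h2 : Nat.card {a : α // A a} * t ≤ B1) :
    Nat.card {x : α × β // P x.1 x.2} * t ≤ B1 * Nat.card β + Nat.card α * B := by
  classical
  rw [Nat.card_congr (Equiv.subtypeProdEquivSigmaSubtype P), Nat.card_sigma, Finset.sum_mul]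
  have h3 : ∀ a : α, Nat.card {b : β // P a b} * t ≤
      (if A a then Nat.card β * t else 0) + B := by
    intro a
    by_cases ha : A a
    · rw [if_pos ha]
      have : Nat.card {b : β // P a b} ≤ Nat.card β := Finite.card_subtype_le _
      exact (Nat.mul_le_mul_right _ this).trans (Nat.le_add_right _ _)
    · rw [if_neg ha]
      have := h1 a ha
      omega
  refine (Finset.sum_le_sum (fun a _ => h3 a)).trans ?_
  rw [Finset.sum_add_distrib, Finset.sum_const, ← Finset.sum_filter, Finset.sum_const]
  have h4 : Nat.card {a : α // A a} = (Finset.univ.filter A).card := by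
    rw [Nat.card_eq_fintype_card, Fintype.card_subtype]
  rw [h4] at h2
  have h5 : (Finset.univ : Finset α).card = Nat.card α := by
    rw [Nat.card_eq_fintype_card]; rfl
  rw [h5]
  simp only [smul_eq_mul]
  have h6 : (Finset.univ.filter A).card * (Nat.card β * t) ≤ B1 * Nat.card β := by
    calc (Finset.univ.filter A).card * (Nat.card β * t)
        = ((Finset.univ.filter A).card * t) * Nat.card β := by ring
      _ ≤ B1 * Nat.card β := Nat.mul_le_mul_right _ h2
  exact Nat.add_le_add_right h6 _

/-- counting by a change of one coordinate -/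
theorem upd_count {ι T : Type} [Fintype ι] [DecidableEq ι] [Fintype T] [DecidableEq T] (j : ι)
    (m : ℕ) (B : (ι → T) → Finset T) (hB : ∀ cs t, B (Function.update cs j t) = B cs)
    (hm : ∀ cs, (B cs).card ≤ m) :
    Nat.card {cs : ι → T // cs j ∈ B cs} * Nat.card T ≤ m * Nat.card (ι → T) := by
  classical
  have h1 : Nat.card {cs : ι → T // cs j ∈ B cs} =
      (Finset.univ.filter fun cs : ι → T => cs j ∈ B cs).card := by
    rw [Nat.card_eq_fintype_card, Fintype.card_subtype]
  rw [h1, Nat.card_eq_fintype_card, Nat.card_eq_fintype_card, ← Finset.card_univ,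
    ← Finset.card_univ, ← Finset.card_product]
  have h2 := Finset.card_le_mul_card_image
    (f := fun x : (ι → T) × T => Function.update x.1 j x.2)
    ((Finset.univ.filter fun cs : ι → T => cs j ∈ B cs) ×ˢ (Finset.univ : Finset T)) m ?_
  · exact h2.trans (Nat.mul_le_mul_left _ (Finset.card_le_card (Finset.subset_univ _)))
  · intro u _
    refine le_trans ?_ (hm u)
    refine Finset.card_le_card_of_injOn (fun x => x.1 j) ?_ ?_
    · rintro ⟨cs, t⟩ hx
      simp only [Finset.coe_filter, Finset.mem_product, Finset.mem_filter, Finset.mem_univ,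
        true_and, and_true, Set.mem_ofPred_eq] at hx
      obtain ⟨h3, h4⟩ := hx
      rw [← h4, hB]
      exact h3
    · rintro ⟨cs, t⟩ hx ⟨cs', t'⟩ hx' he
      simp only [Finset.coe_filter, Finset.mem_product, Finset.mem_filter, Finset.mem_univ,
        true_and, and_true, Set.mem_ofPred_eq] at hx hx' he
      have h5 : Function.update cs j t = Function.update cs' j t' := hx.2.trans hx'.2.symm
      have h6 : t = t' := by
        have := congrFun h5 j
        simpa using this
      subst h6
      have h7 : cs = cs' := by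
        funext i
        by_cases hi : i = j
        · rw [hi]
          exact he
        · have := congrFun h5 i
          simpa [Function.update_of_ne hi] using this
      rw [h7]

/-- counting by a change of a part -/
theorem cut_count {X Y : Type} [Finite X] [Finite Y] (c : X → Y) (r : X → Y → X)
    (h1 : ∀ x y, c (r x y) = y) (h2 : ∀ x y, r (r x y) (c x) = x) (P : Y → Prop) :
    Nat.card {x // P (c x)} * Nat.card Y ≤ Nat.card {y // P y} * Nat.card X := by
  rw [← Nat.card_prod, ← Nat.card_prod]
  refine Nat.card_le_card_of_injective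
    (fun z : {x // P (c x)} × Y => ((⟨c z.1.1, z.1.2⟩ : {y // P y}), r z.1.1 z.2)) ?_
  rintro ⟨⟨x, hx⟩, y⟩ ⟨⟨x', hx'⟩, y'⟩ h
  simp only [Prod.mk.injEq, Subtype.mk.injEq] at h
  obtain ⟨h3, h4⟩ := h
  have h5 : y = y' := by rw [← h1 x y, h4, h1]
  have h6 : x = x' := by rw [← h2 x y, h4, h3, h2]
  subst h5 h6
  rfl

/-- replace the first entries -/
def rep1 {α : Type} {d n : ℕ} (a : Fin d → α) (b : Fin n → α) : Fin d → α :=
  fun i => if h : (i : ℕ) < n then b ⟨i, h⟩ else a i

/-- replace the corner -/
def rep2 {α : Type} {d n : ℕ} (a : Fin d → Fin d → α) (b : Fin n → Fin n → α) :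
    Fin d → Fin d → α :=
  fun i j => if h : (i : ℕ) < n ∧ (j : ℕ) < n then b ⟨i, h.1⟩ ⟨j, h.2⟩ else a i j

theorem cut1_rep1 {α : Type} {d n : ℕ} (h : n ≤ d) (a : Fin d → α) (b : Fin n → α) :
    cut1 h (rep1 a b) = b := by
  funext i
  simp [cut1, rep1]

theorem rep1_cut1 {α : Type} {d n : ℕ} (h : n ≤ d) (a : Fin d → α) (b : Fin n → α) :
    rep1 (rep1 a b) (cut1 h a) = a := by
  funext i
  by_cases hi : (i : ℕ) < n
  · simp [cut1, rep1, hi]
  · simp [rep1, hi]

theorem cut2_rep2 {α : Type} {d n : ℕ} (h : n ≤ d) (a : Fin d → Fin d → α)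
    (b : Fin n → Fin n → α) : cut2 h (rep2 a b) = b := by
  funext i j
  simp [cut2, rep2]

theorem rep2_cut2 {α : Type} {d n : ℕ} (h : n ≤ d) (a : Fin d → Fin d → α)
    (b : Fin n → Fin n → α) : rep2 (rep2 a b) (cut2 h a) = a := by
  funext i j
  by_cases hi : (i : ℕ) < n ∧ (j : ℕ) < n
  · simp [cut2, rep2, hi]
  · simp [rep2, hi]

section uniq
variable {k : Type} [Field k]

theorem sqf {S : k[X][X]} (hS : S.Monic) (h : Squarefree (S.map (evalRingHom (0 : k)))) :
    Squarefree S := by
  intro g hg
  obtain ⟨q, hq⟩ := hg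
  have h1 : IsUnit g.leadingCoeff := by
    have h2 : g.leadingCoeff * (g.leadingCoeff * q.leadingCoeff) = 1 := by
      have h3 := hS.leadingCoeff
      rw [hq, leadingCoeff_mul, leadingCoeff_mul, mul_assoc] at h3
      exact h3
    exact IsUnit.of_mul_eq_one _ h2
  have h2 : IsUnit (g.map (evalRingHom (0 : k))) := by
    apply h
    rw [hq, Polynomial.map_mul, Polynomial.map_mul]
    exact dvd_mul_right _ _
  have h3 : (g.map (evalRingHom (0 : k))).natDegree = g.natDegree := by
    apply natDegree_map_of_leadingCoeff_ne_zero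
    exact (h1.map (evalRingHom (0 : k))).ne_zero
  have h4 : g.natDegree = 0 := by
    rw [← h3]
    exact natDegree_eq_zero_of_isUnit h2
  rw [eq_C_of_natDegree_eq_zero h4] at h1 ⊢
  rw [leadingCoeff_C] at h1
  exact h1.map C

theorem uniq {F S S' : k[X][X]} {d : ℕ} (hd : 1 ≤ d) (hS : S.Monic) (hS' : S'.Monic)
    (h1 : S ∣ F) (h1' : F ∣ S ^ d) (h2 : S' ∣ F) (h2' : F ∣ S' ^ d)
    (h3 : Squarefree (S.map (evalRingHom (0 : k))))
    (h3' : Squarefree (S'.map (evalRingHom (0 : k)))) : S = S' := by
  have hd' : d ≠ 0 := by omega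
  have h4 : S ∣ S' :=
    ((sqf hS h3).dvd_pow_iff_dvd hd').1 (h1.trans h2')
  have h5 : S' ∣ S :=
    ((sqf hS' h3').dvd_pow_iff_dvd hd').1 (h2.trans h1')
  exact eq_of_monic_of_associated hS hS' (associated_of_dvd_dvd h4 h5)

theorem pos {F S : k[X][X]} {d : ℕ} (hd : 1 ≤ d) (hF : (F.coeff d).coeff 0 ≠ 0) (hS : S.Monic)
    (h : F ∣ S ^ d) : 1 ≤ S.natDegree := by
  by_contra h0
  have h1 : S = 1 := hS.natDegree_eq_zero.1 (by omega)
  rw [h1, one_pow] at h
  have h2 : IsUnit F := isUnit_of_dvd_one h
  have h3 : F.natDegree = 0 := natDegree_eq_zero_of_isUnit h2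
  apply hF
  have h4 : F.coeff d = 0 := coeff_eq_zero_of_natDegree_lt (by omega)
  rw [h4, coeff_zero]

end uniq

/-- the points with bad fibres -/
theorem fib (h4 : StmtBadFib) {k : Type} [Field k] (T : Finset k) {n : ℕ} {S : k[X][X]}
    {φ : Fin n → PowerSeries k} (hφ : Rts S φ) :
    ∃ B : Finset T, B.card ≤ 2 * n ^ 2 + n ∧
      ∀ t : T, t ∉ B → Squarefree (S.map (evalRingHom (t : k))) := by
  classical
  obtain ⟨D, hD0, hD, hD1⟩ := h4 k n S φ hφ
  refine ⟨Finset.univ.filter fun t : T => D.eval (t : k) = 0, ?_, ?_⟩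
  · refine le_trans ?_ hD
    have h1 : ((Finset.univ.filter fun t : T => D.eval (t : k) = 0).image
        (fun t : T => (t : k))).card =
        (Finset.univ.filter fun t : T => D.eval (t : k) = 0).card :=
      Finset.card_image_of_injective _ Subtype.val_injective
    rw [← h1]
    refine le_trans (Finset.card_le_card ?_) ((Multiset.toFinset_card_le _).trans
      (card_roots' D))
    intro x hx
    rw [Finset.mem_image] at hx
    obtain ⟨t, ht, rfl⟩ := hx
    rw [Finset.mem_filter] at ht
    rw [Multiset.mem_toFinset, mem_roots hD0]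
    exact ht.2
  · intro t ht
    have h1 : D.eval (t : k) ≠ 0 := by
      intro h0
      exact ht (Finset.mem_filter.2 ⟨Finset.mem_univ _, h0⟩)
    have h2 : (fb S (t : k)).Separable := hD1 _ h1
    exact h2.squarefree

/-- the bad lists of points -/
theorem cs_count {T : Type} [Fintype T] [DecidableEq T] (d m : ℕ) (B : Finset T)
    (hB : B.card ≤ m) :
    Nat.card {cs : Fin (d + 1) → T // ¬ (Function.Injective cs ∧ ∀ j, cs j ∉ B)} * Nat.card T ≤
      ((d + 1) ^ 2 + (d + 1) * m) * Nat.card T ^ (d + 1) := by
  classical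
  set Bj : Fin (d + 1) → (Fin (d + 1) → T) → Finset T := fun j cs =>
    (Finset.univ.erase j).image cs ∪ B with hBj
  have h1 : ∀ j, Nat.card {cs : Fin (d + 1) → T // cs j ∈ Bj j cs} * Nat.card T ≤
      (d + m) * Nat.card (Fin (d + 1) → T) := by
    intro j
    apply upd_count j (d + m) (Bj j)
    · intro cs t
      simp only [hBj]
      congr 1
      apply Finset.image_congr
      intro i hi
      have : i ≠ j := by
        simpa using hi
      exact Function.update_of_ne this _ _
    · intro cs
      refine (Finset.card_union_le _ _).trans (Nat.add_le_add ?_ hB)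
      refine Finset.card_image_le.trans ?_
      rw [Finset.card_erase_of_mem (Finset.mem_univ _), Finset.card_univ, Fintype.card_fin]
      omega
  have h2 : Nat.card {cs : Fin (d + 1) → T // ¬ (Function.Injective cs ∧ ∀ j, cs j ∉ B)} ≤
      ∑ j, Nat.card {cs : Fin (d + 1) → T // cs j ∈ Bj j cs} := by
    simp only [Nat.card_eq_fintype_card, Fintype.card_subtype]
    refine le_trans (Finset.card_le_card ?_) Finset.card_biUnion_le
    intro cs hcs
    rw [Finset.mem_filter] at hcs
    rw [Finset.mem_biUnion]
    by_contra hno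
    apply hcs.2
    have h3 : ∀ j, cs j ∉ Bj j cs := by
      intro j hj
      exact hno ⟨j, Finset.mem_univ _, Finset.mem_filter.2 ⟨Finset.mem_univ _, hj⟩⟩
    refine ⟨?_, ?_⟩
    · intro i j hij
      by_contra hne
      apply h3 j
      refine Finset.mem_union_left _ (Finset.mem_image.2 ⟨i, ?_, hij⟩)
      exact Finset.mem_erase.2 ⟨hne, Finset.mem_univ _⟩
    · intro j hj
      exact h3 j (Finset.mem_union_right _ hj)
  refine (Nat.mul_le_mul_right _ h2).trans ?_
  rw [Finset.sum_mul]
  refine (Finset.sum_le_sum fun j _ => h1 j).trans ?_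
  rw [Finset.sum_const, Finset.card_univ, Fintype.card_fin, smul_eq_mul]
  have h5 : Nat.card (Fin (d + 1) → T) = Nat.card T ^ (d + 1) := by
    simp [Nat.card_eq_fintype_card]
  rw [h5, ← mul_assoc]
  apply Nat.mul_le_mul_right
  nlinarith

end F2

open F2 in
/-- TARGET -/
theorem facCount (h1 : StmtCoT) (h2 : StmtRoots) (h3 : StmtRp) (h4 : StmtBadFib) :
    StmtFacCount := by
  intro k _ _ p _ _ e d H T hH hd hT hde
  classical
  have hA := h1 k d H T hH hd hT
  have hcT : Nat.card T = T.card := by simp
  have hB : ∀ a : T × T, ¬ (¬ CoGood (a.1 : k) (a.2 : k) (hom H) d) →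
      Nat.card {b : (Fin (d + 1) → T) × ((Fin d → Fin d → T) × ((Fin d → T) ×
        (Fin d → Fin d → T))) //
        ¬ GoodF (p ^ e) d (hom H) (a.1 : k) (a.2 : k) (fun j => (b.1 j : k))
        (fun i j => (b.2.1 i j : k)) (fun j => (b.2.2.1 j : k))
        (fun j i => (b.2.2.2 j i : k))} * T.card ≤
      ((d + 1) ^ 2 + (d + 1) * (2 * d ^ 2 + d) + 40 * d ^ 2 * p ^ e) *
        T.card ^ ((d + 1) + (d * d + (d + d * d))) := by
    intro a ha
    rw [not_not] at ha
    have hc := ha.1
    set F := sub (a.1 : k) (a.2 : k) (hom H) with hF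
    -- the bad points and the bad choices
    have hkey : ∃ (B : Finset T) (Bad : (Fin d → Fin d → T) × ((Fin d → T) ×
        (Fin d → Fin d → T)) → Prop), B.card ≤ 2 * d ^ 2 + d ∧
        Nat.card {b // Bad b} * T.card ≤ 40 * d ^ 2 * p ^ e * T.card ^ (d * d + (d + d * d)) ∧
        ∀ cs : Fin (d + 1) → T, Function.Injective cs → (∀ j, cs j ∉ B) → ∀ b, ¬ Bad b →
          GoodF (p ^ e) d (hom H) (a.1 : k) (a.2 : k) (fun j => (cs j : k))
            (fun i j => (b.1 i j : k)) (fun j => (b.2.1 j : k)) (fun j i => (b.2.2 j i : k)) := by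
      by_cases hex : ∃ S : k[X][X], S.natDegree ≤ d ∧ S.Monic ∧ TD S S.natDegree ∧ S ∣ F ∧
          F ∣ S ^ d ∧ Squarefree (S.map (evalRingHom (0 : k)))
      · obtain ⟨S, hn, hS, hTD, hSF, hFS, hsq⟩ := hex
        obtain ⟨n, hnn⟩ : ∃ n, S.natDegree = n := ⟨_, rfl⟩
        have hn1 : 1 ≤ n := by
          rw [← hnn]
          exact pos hd hc hS hFS
        rw [hnn] at hn hTD
        obtain ⟨φ, hφ⟩ := h2 k n S hS hnn hn1 hTD hsq
        obtain ⟨B, hBc, hB⟩ := fib h4 T hφ
        refine ⟨B, fun b => ¬ GoodP (12 * d + 20) (p ^ e) S φ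
          (fun i j => ((cut2 hn b.1) i j : k)) (fun j => ((cut1 hn b.2.1) j : k))
          (fun j i => ((cut2 hn b.2.2) j i : k)), ?_, ?_, ?_⟩
        · refine hBc.trans ?_
          have : n ^ 2 ≤ d ^ 2 := Nat.pow_le_pow_left hn 2
          omega
        · have h5 := h3 k p e n (12 * d + 20) S φ T hφ (by omega) (hn.trans hde)
          have h6 := cut_count
            (X := (Fin d → Fin d → T) × ((Fin d → T) × (Fin d → Fin d → T)))
            (Y := (Fin n → Fin n → T) × ((Fin n → T) × (Fin n → Fin n → T)))
            (fun x => (cut2 hn x.1, (cut1 hn x.2.1, cut2 hn x.2.2)))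
            (fun x y => (rep2 x.1 y.1, (rep1 x.2.1 y.2.1, rep2 x.2.2 y.2.2)))
            (fun x y => by simp only [cut2_rep2, cut1_rep1])
            (fun x y => by simp only [rep2_cut2, rep1_cut1])
            (fun y => ¬ GoodP (12 * d + 20) (p ^ e) S φ (fun i j => (y.1 i j : k))
              (fun j => (y.2.1 j : k)) (fun j i => (y.2.2 j i : k)))
          have h7 : Nat.card ((Fin n → Fin n → T) × ((Fin n → T) × (Fin n → Fin n → T))) =
              T.card ^ (n * n + n + n * n) := by
            simp only [Nat.card_eq_fintype_card, Fintype.card_prod, Fintype.card_fun,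
              Fintype.card_fin, Fintype.card_coe]
            rw [← pow_mul, ← pow_add, ← pow_add]
            ring_nf
          have h8 : Nat.card ((Fin d → Fin d → T) × ((Fin d → T) × (Fin d → Fin d → T))) =
              T.card ^ (d * d + (d + d * d)) := by
            simp only [Nat.card_eq_fintype_card, Fintype.card_prod, Fintype.card_fun,
              Fintype.card_fin, Fintype.card_coe]
            rw [← pow_mul, ← pow_add, ← pow_add]
          rw [h7, h8] at h6
          rcases Nat.eq_zero_or_pos T.card with h0 | h0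
          · rw [h0, mul_zero]
            exact Nat.zero_le _
          · have h9 : 0 < T.card ^ (n * n + n + n * n) := pow_pos h0 _
            refine Nat.le_of_mul_le_mul_right ?_ h9
            calc Nat.card {b : (Fin d → Fin d → T) × ((Fin d → T) × (Fin d → Fin d → T)) //
                  ¬ GoodP (12 * d + 20) (p ^ e) S φ
                  (fun i j => ((cut2 hn b.1) i j : k)) (fun j => ((cut1 hn b.2.1) j : k))
                  (fun j i => ((cut2 hn b.2.2) j i : k))} * T.card *
                  T.card ^ (n * n + n + n * n)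
                = (Nat.card {b : (Fin d → Fin d → T) × ((Fin d → T) × (Fin d → Fin d → T)) //
                  ¬ GoodP (12 * d + 20) (p ^ e) S φ
                  (fun i j => ((cut2 hn b.1) i j : k)) (fun j => ((cut1 hn b.2.1) j : k))
                  (fun j i => ((cut2 hn b.2.2) j i : k))} *
                  T.card ^ (n * n + n + n * n)) * T.card := by ring
              _ ≤ (Nat.card {y : (Fin n → Fin n → T) × (Fin n → T) × (Fin n → Fin n → T) //
                  ¬ GoodP (12 * d + 20) (p ^ e) S φ (fun i j => (y.1 i j : k))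
                    (fun j => (y.2.1 j : k)) (fun j i => (y.2.2 j i : k))} *
                  T.card ^ (d * d + (d + d * d))) * T.card := Nat.mul_le_mul_right _ h6
              _ = (Nat.card {y : (Fin n → Fin n → T) × (Fin n → T) × (Fin n → Fin n → T) //
                  ¬ GoodP (12 * d + 20) (p ^ e) S φ (fun i j => (y.1 i j : k))
                    (fun j => (y.2.1 j : k)) (fun j i => (y.2.2 j i : k))} * T.card) *
                  T.card ^ (d * d + (d + d * d)) := by ring
              _ ≤ (40 * n ^ 2 * p ^ e * T.card ^ (n * n + n + n * n)) *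
                  T.card ^ (d * d + (d + d * d)) := Nat.mul_le_mul_right _ h5
              _ = (40 * n ^ 2 * p ^ e) * (T.card ^ (d * d + (d + d * d)) *
                  T.card ^ (n * n + n + n * n)) := by ring
              _ ≤ (40 * d ^ 2 * p ^ e) * (T.card ^ (d * d + (d + d * d)) *
                  T.card ^ (n * n + n + n * n)) := by
                    apply Nat.mul_le_mul_right
                    apply Nat.mul_le_mul_right
                    apply Nat.mul_le_mul_left
                    exact Nat.pow_le_pow_left hn 2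
              _ = 40 * d ^ 2 * p ^ e * T.card ^ (d * d + (d + d * d)) *
                  T.card ^ (n * n + n + n * n) := by ring
        · intro cs hinj hcs b hb
          refine ⟨ha, fun i j hij => hinj (Subtype.ext hij), ?_⟩
          intro S' n' h' hS' hn' hTD' hS'F hFS' hsq'
          have he : S' = S := uniq hd hS' hS hS'F hFS' hSF hFS hsq' hsq
          subst he
          have hnn' : n' = n := hn'.symm.trans hnn
          subst hnn'
          refine ⟨fun j => hB _ (hcs j), φ, hφ, ?_⟩
          rw [not_not] at hb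
          exact hb
      · refine ⟨∅, fun _ => False, by simp, by simp, ?_⟩
        intro cs hinj _ b _
        refine ⟨ha, fun i j hij => hinj (Subtype.ext hij), ?_⟩
        intro S' n' h' hS' hn' hTD' hS'F hFS' hsq'
        exfalso
        subst hn'
        exact hex ⟨S', h', hS', hTD', hS'F, hFS', hsq'⟩
    obtain ⟨B, Bad, hBc, hBad, hgood⟩ := hkey
    have h5 := count (α := Fin (d + 1) → T)
      (β := (Fin d → Fin d → T) × ((Fin d → T) × (Fin d → Fin d → T)))
      (fun cs b => ¬ GoodF (p ^ e) d (hom H) (a.1 : k) (a.2 : k) (fun j => (cs j : k))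
        (fun i j => (b.1 i j : k)) (fun j => (b.2.1 j : k)) (fun j i => (b.2.2 j i : k)))
      (fun cs => ¬ (Function.Injective cs ∧ ∀ j, cs j ∉ B)) T.card
      (40 * d ^ 2 * p ^ e * T.card ^ (d * d + (d + d * d)))
      (((d + 1) ^ 2 + (d + 1) * (2 * d ^ 2 + d)) * T.card ^ (d + 1)) ?_ ?_
    · refine h5.trans (le_of_eq ?_)
      have h6 : Nat.card ((Fin d → Fin d → T) × ((Fin d → T) × (Fin d → Fin d → T))) =
          T.card ^ (d * d + (d + d * d)) := by
        simp only [Nat.card_eq_fintype_card, Fintype.card_prod, Fintype.card_fun,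
          Fintype.card_fin, Fintype.card_coe]
        rw [← pow_mul, ← pow_add, ← pow_add]
      have h7 : Nat.card (Fin (d + 1) → T) = T.card ^ (d + 1) := by
        simp only [Nat.card_eq_fintype_card, Fintype.card_fun, Fintype.card_fin,
          Fintype.card_coe]
      rw [h6, h7, pow_add _ (d + 1)]
      ring
    · intro cs hcs
      rw [not_not] at hcs
      refine le_trans (Nat.mul_le_mul_right _ ?_) hBad
      apply Nat.card_mono (Set.toFinite _)
      intro b hb
      by_contra hnb
      exact hb (hgood cs hcs.1 hcs.2 b hnb)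
    · have h6 := cs_count (T := T) d (2 * d ^ 2 + d) B hBc
      rw [hcT] at h6
      exact h6
  have h5 := count (α := T × T)
    (β := (Fin (d + 1) → T) × ((Fin d → Fin d → T) × ((Fin d → T) × (Fin d → Fin d → T))))
    (fun a b => ¬ GoodF (p ^ e) d (hom H) (a.1 : k) (a.2 : k) (fun j => (b.1 j : k))
        (fun i j => (b.2.1 i j : k)) (fun j => (b.2.2.1 j : k))
        (fun j i => (b.2.2.2 j i : k)))
    (fun a => ¬ CoGood (a.1 : k) (a.2 : k) (hom H) d) T.card _ _ hB hA
  refine h5.trans (le_of_eq ?_)
  have h6 : Nat.card ((Fin (d + 1) → T) × ((Fin d → Fin d → T) × ((Fin d → T) ×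
      (Fin d → Fin d → T)))) = T.card ^ ((d + 1) + (d * d + (d + d * d))) := by
    simp only [Nat.card_eq_fintype_card, Fintype.card_prod, Fintype.card_fun, Fintype.card_fin,
      Fintype.card_coe]
    rw [← pow_mul, ← pow_add, ← pow_add, ← pow_add]
  have h7 : Nat.card (T × T) = T.card ^ 2 := by
    simp only [Nat.card_eq_fintype_card, Fintype.card_prod, Fintype.card_coe]
    rw [pow_two]
  rw [h6, h7, pow_add _ 2]
  ring

end Pool.Agent.H330AB.JF2
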