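import Pool.Agent.H330AB.SpecB3
set_option autoImplicit false
noncomputable section
noncomputable section
namespace Pool.Agent.H330AB.JF3
open Polynomial Pool.Agent.H330FB
namespace JF2

lemma t4_getD_map {A B : Type} (f : A → B) (l : List A) (n : ℕ) (a : A) :
    (l.map f).getD n (f a) = f (l.getD n a) := by
  simp [List.getD_eq_getElem?_getD, List.getElem?_map]

lemma t4_getD_getD {K k : Type} [Field K] [Field k] (φ : K →+* k) (H : List (List K)) (i j : ℕ) :
    (((H.map (List.map φ)).getD i []).getD j 0) = φ ((H.getD i []).getD j 0) := by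
  have h1 := t4_getD_map (List.map φ) H i []
  rw [List.map_nil] at h1
  rw [h1]
  have h2 := t4_getD_map φ (H.getD i []) j 0
  rw [map_zero] at h2
  exact h2

lemma t4_hom {K k : Type} [Field K] [Field k] [Algebra K k] (H : List (List K)) :
    hom (H.map (List.map (algebraMap K k))) = bcp k (hom H) := by
  unfold hom bcp
  rw [Polynomial.map_sum, List.length_map]
  refine Finset.sum_congr rfl fun i _ => ?_
  rw [Polynomial.map_sum]
  refine Finset.sum_congr rfl fun j _ => ?_
  rw [t4_getD_getD]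
  simp [Polynomial.map_mul, Polynomial.map_pow]

lemma t4_isHom {K k : Type} [Field K] [Field k] (φ : K →+* k) (d : ℕ) (H : List (List K))
    (h : IsHom d H) : IsHom d (H.map (List.map φ)) := by
  refine ⟨by rw [List.length_map]; exact h.1, fun i hi => ?_⟩
  have h1 := t4_getD_map (List.map φ) H i []
  rw [List.map_nil] at h1
  rw [h1, List.length_map]
  exact h.2 i hi

lemma t4_topNe {K k : Type} [Field K] [Field k] (φ : K →+* k) (d : ℕ) (H : List (List K))
    (h : TopNe d H) : TopNe d (H.map (List.map φ)) := by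
  obtain ⟨j, hj⟩ := h
  refine ⟨j, ?_⟩
  rw [t4_getD_getD]
  intro h0
  exact hj ((map_eq_zero φ).1 h0)

lemma t4_rows {A : Type} {d : ℕ} (G : Fin d → Fin d → A) :
    (rows G).flatten = List.ofFn (fun i : Fin (d * d) => G i.divNat i.modNat) := by
  rw [List.ofFn_mul]
  unfold rows
  congr 1
  congr 1
  funext i
  congr 1
  funext j
  congr 1
  · ext
    simp only [Fin.divNat]
    rw [Nat.mul_comm, Nat.mul_add_div (by have := j.2; omega), Nat.div_eq_of_lt j.2]
    simp
  · ext
    simp only [Fin.modNat]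
    rw [Nat.mul_comm, Nat.mul_add_mod, Nat.mod_eq_of_lt j.2]

lemma t4_rows_inj {A : Type} {d : ℕ} {G G' : Fin d → Fin d → A}
    (h : (rows G).flatten = (rows G').flatten) : G = G' := by
  rw [t4_rows, t4_rows] at h
  have h2 := List.ofFn_injective h
  funext i j
  have h3 := congrFun h2 ⟨i * d + j, by have := i.2; have := j.2; nlinarith⟩
  have h4 : (Fin.divNat (⟨i * d + j, by have := i.2; have := j.2; nlinarith⟩ : Fin (d * d))) = i := by
    ext
    simp only [Fin.divNat]
    rw [Nat.mul_comm, Nat.mul_add_div (by have := j.2; omega), Nat.div_eq_of_lt j.2]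
    simp
  have h5 : (Fin.modNat (⟨i * d + j, by have := i.2; have := j.2; nlinarith⟩ : Fin (d * d))) = j := by
    ext
    simp only [Fin.modNat]
    rw [Nat.mul_comm, Nat.mul_add_mod, Nat.mod_eq_of_lt j.2]
  rw [h4, h5] at h3
  exact h3

lemma t4_rows_len {A : Type} {d : ℕ} (G : Fin d → Fin d → A) :
    (rows G).flatten.length = d * d := by
  rw [t4_rows, List.length_ofFn]

lemma t4_len {A : Type} {d : ℕ} (a b : A) (cs : Fin (d + 1) → A) (G : Fin d → Fin d → A)
    (as : Fin d → A) (g : Fin d → Fin d → A) (cb : Fin d → A) :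
    (rlist2 a b cs G as g cb).length = R2 d := by
  unfold rlist2 R2
  simp only [List.length_append, t4_rows_len, List.length_ofFn]
  simp

lemma t4_inj {A : Type} {d : ℕ} {a b a' b' : A} {cs cs' : Fin (d + 1) → A}
    {G G' : Fin d → Fin d → A} {as as' : Fin d → A}
    {g g' : Fin d → Fin d → A} {cb cb' : Fin d → A}
    (h : rlist2 a b cs G as g cb = rlist2 a' b' cs' G' as' g' cb') :
    a = a' ∧ b = b' ∧ cs = cs' ∧ G = G' ∧ as = as' ∧ g = g' ∧ cb = cb' := by
  unfold rlist2 at h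
  obtain ⟨h1, h2⟩ := List.append_inj h (by simp)
  obtain ⟨h3, h4⟩ := List.append_inj h2 (by rw [List.length_ofFn, List.length_ofFn])
  obtain ⟨h5, h6⟩ := List.append_inj h4 (by rw [t4_rows_len, t4_rows_len])
  obtain ⟨h7, h8⟩ := List.append_inj h6 (by rw [List.length_ofFn, List.length_ofFn])
  obtain ⟨h9, h10⟩ := List.append_inj h8 (by rw [t4_rows_len, t4_rows_len])
  simp only [List.cons.injEq, and_true] at h1
  exact ⟨h1.1, h1.2, List.ofFn_injective h3, t4_rows_inj h5, List.ofFn_injective h7,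
    t4_rows_inj h9, List.ofFn_injective h10⟩

lemma t4_map {A B : Type} (f : A → B) {d : ℕ} (a b : A) (cs : Fin (d + 1) → A)
    (G : Fin d → Fin d → A) (as : Fin d → A)
    (g : Fin d → Fin d → A) (cb : Fin d → A) : (rlist2 a b cs G as g cb).map f =
      rlist2 (f a) (f b) (fun j => f (cs j)) (fun i j => f (G i j)) (fun j => f (as j))
        (fun i j => f (g i j)) (fun j => f (cb j)) := by
  unfold rlist2
  rw [List.map_append, List.map_append, List.map_append, List.map_append, List.map_append,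
    t4_rows, t4_rows, t4_rows, t4_rows,
    List.map_ofFn, List.map_ofFn, List.map_ofFn, List.map_ofFn, List.map_ofFn]
  rfl

/-- the space of choices (all but the last ones) -/
abbrev XF (A : Type) (d : ℕ) : Type :=
  (A × A) × ((Fin (d + 1) → A) × ((Fin d → Fin d → A) × ((Fin d → A) × (Fin d → Fin d → A))))

lemma t4_card (A : Type) [Fintype A] (d : ℕ) : Nat.card (XF A d) =
    Fintype.card A ^ (2 + ((d + 1) + (d * d + (d + d * d)))) := by
  unfold XF
  simp only [Nat.card_eq_fintype_card, Fintype.card_prod, Fintype.card_fun, Fintype.card_fin]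
  ring

/-- the vector of random elements -/
def t4e {A : Type} {d : ℕ} (x : XF A d × (Fin d → A)) : Fin (R2 d) → A :=
  fun i => (rlist2 x.1.1.1 x.1.1.2 x.1.2.1 x.1.2.2.1 x.1.2.2.2.1 x.1.2.2.2.2 x.2).get
    (Fin.cast (t4_len _ _ _ _ _ _ _).symm i)

lemma t4e_ofFn {A : Type} {d : ℕ} (x : XF A d × (Fin d → A)) :
    List.ofFn (t4e x) =
      rlist2 x.1.1.1 x.1.1.2 x.1.2.1 x.1.2.2.1 x.1.2.2.2.1 x.1.2.2.2.2 x.2 := by
  apply List.ext_get
  · rw [List.length_ofFn, t4_len]
  · intro n h1 h2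
    rw [List.get_ofFn]
    rfl

lemma t4e_inj {A : Type} {d : ℕ} :
    Function.Injective (t4e : XF A d × (Fin d → A) → Fin (R2 d) → A) := by
  intro x y h
  have h1 := t4e_ofFn x
  have h2 := t4e_ofFn y
  rw [h] at h1
  obtain ⟨h3, h4, h5, h6, h7, h8, h9⟩ := t4_inj (h1.symm.trans h2)
  obtain ⟨⟨⟨a, b⟩, cs, G, as, g⟩, cb⟩ := x
  obtain ⟨⟨⟨a', b'⟩, cs', G', as', g'⟩, cb'⟩ := y
  simp only at h3 h4 h5 h6 h7 h8 h9
  subst h3 h4 h5 h6 h7 h8 h9
  rfl

end JF2
open JF2

/-- TARGET -/
theorem specFac2 (h1 : SpecFacA) (h2 : StmtFacCount) : SpecFac2 := by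
  obtain ⟨w, C, k, hw⟩ := h1
  refine ⟨w, C, k, ?_⟩
  intro K _ _ p d rt H hp hchar hrt hH hd hT hpd
  obtain ⟨hA, e, he1, he2, he3⟩ := hw K p d rt H hp hchar hrt hH hd hT hpd
  refine ⟨hA, ?_⟩
  intro T hTc
  classical
  have : Fact p.Prime := ⟨hp⟩
  set L := AlgebraicClosure K with hL
  have : CharP L p := charP_of_injective_algebraMap (algebraMap K L).injective p
  set T' : Finset L := T.map ⟨algebraMap K L, (algebraMap K L).injective⟩ with hT'
  have hcard : T'.card = T.card := by rw [hT', Finset.card_map]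
  have hcnt := h2 L p e d (H.map (List.map (algebraMap K L))) T' (t4_isHom _ d H hH) hd
    (t4_topNe _ d H hT) he1
  rw [hcard, t4_hom] at hcnt
  choose Sep hS1 hS2 using he3
  -- the choices over `T`
  let ι : T → T' := fun t => ⟨algebraMap K L t, by
    rw [hT', Finset.mem_map]
    exact ⟨t, t.2, rfl⟩⟩
  have hι : Function.Injective ι := by
    intro s t hst
    have h3 := congrArg Subtype.val hst
    exact Subtype.ext ((algebraMap K L).injective h3)
  let P : XF T d → Prop := fun x => GoodF (p ^ e) d (bcp L (hom H)) (algebraMap K L x.1.1)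
    (algebraMap K L x.1.2) (fun j => algebraMap K L (x.2.1 j))
    (fun i j => algebraMap K L (x.2.2.1 i j))
    (fun j => algebraMap K L (x.2.2.2.1 j)) (fun j i => algebraMap K L (x.2.2.2.2 j i))
  let S : XF T d → (Fin d → T) → Prop := fun x c =>
    Sep (x.1.1 : K) (x.1.2 : K) (fun j => ((x.2.1 j : T) : K))
      (fun i j => ((x.2.2.1 i j : T) : K)) (fun j => ((x.2.2.2.1 j : T) : K))
      (fun i j => ((x.2.2.2.2 i j : T) : K)) (fun i => (c i : K))
  have hbad : Nat.card {x : XF T d // ¬ P x} * T.card ≤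
      (2 * d ^ 2 + 3 * d + (d + 1) ^ 2 + (d + 1) * (2 * d ^ 2 + d) + 40 * d ^ 2 * p ^ e) *
      T.card ^ (2 + ((d + 1) + (d * d + (d + d * d)))) := by
    refine le_trans (Nat.mul_le_mul_right _ ?_) hcnt
    refine Nat.card_le_card_of_injective
      (fun x => ⟨((ι x.1.1.1, ι x.1.1.2), (fun j => ι (x.1.2.1 j)), (fun i j => ι (x.1.2.2.1 i j)),
        (fun j => ι (x.1.2.2.2.1 j)),
        (fun j i => ι (x.1.2.2.2.2 j i))), x.2⟩) ?_
    intro x y hxy
    obtain ⟨⟨⟨a, b⟩, cs, G, as, g⟩, hx⟩ := x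
    obtain ⟨⟨⟨a', b'⟩, cs', G', as', g'⟩, hy⟩ := y
    simp only [Subtype.mk.injEq, Prod.mk.injEq] at hxy
    obtain ⟨⟨h3, h4⟩, h8, h5, h6, h7⟩ := hxy
    have h3' := hι h3
    have h4' := hι h4
    have h5' : G = G' := by
      funext i j
      exact hι (congrFun (congrFun h5 i) j)
    have h6' : as = as' := by
      funext j
      exact hι (congrFun h6 j)
    have h8' : cs = cs' := by
      funext j
      exact hι (congrFun h8 j)
    have h7' : g = g' := by
      funext i j
      exact hι (congrFun (congrFun h7 i) j)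
    subst h3' h4' h5' h6' h7' h8'
    rfl
  have hgood : Nat.card {x : XF T d × (Fin d → T) // P x.1 ∧ S x.1 x.2} ≤
      Nat.card {ω : Fin (R2 d) → T //
        FacAbs L H (w.val (rt, ()) (H, List.ofFn (fun i => (ω i : K))))} := by
    refine Nat.card_le_card_of_injective (fun x => ⟨t4e x.1, ?_⟩) ?_
    · have h4 : List.ofFn (fun i => ((t4e x.1 i : T) : K)) =
          rlist2 (x.1.1.1.1 : K) (x.1.1.1.2 : K) (fun j => ((x.1.1.2.1 j : T) : K))
          (fun i j => ((x.1.1.2.2.1 i j : T) : K)) (fun j => ((x.1.1.2.2.2.1 j : T) : K))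
          (fun i j => ((x.1.1.2.2.2.2 i j : T) : K)) (fun j => ((x.1.2 j : T) : K)) := by
        have h5 := t4_map (Subtype.val : T → K) x.1.1.1.1 x.1.1.1.2 x.1.1.2.1 x.1.1.2.2.1
          x.1.1.2.2.2.1 x.1.1.2.2.2.2 x.1.2
        rw [← t4e_ofFn, List.map_ofFn] at h5
        exact h5
      rw [h4]
      exact hS2 _ _ _ _ _ _ _ x.2.2 x.2.1
    · intro x y hxy
      simp only [Subtype.mk.injEq] at hxy
      exact Subtype.ext (t4e_inj hxy)
  have hR : 2 + ((d + 1) + (d * d + (d + d * d))) + d = R2 d := by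
    unfold R2
    omega
  -- total number of choices
  have htot0 : Nat.card (XF T d × (Fin d → T)) = T.card ^ R2 d := by
    rw [Nat.card_prod, t4_card, Fintype.card_coe, Nat.card_eq_fintype_card, Fintype.card_fun,
      Fintype.card_fin, Fintype.card_coe, ← pow_add, hR]
  have hb1 : Nat.card {x : XF T d × (Fin d → T) // ¬ P x.1} =
      Nat.card {x : XF T d // ¬ P x} * T.card ^ d := by
    have h3 : Nat.card ({x : XF T d // ¬ P x} × (Fin d → T)) =
        Nat.card {x : XF T d // ¬ P x} * T.card ^ d := by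
      rw [Nat.card_prod, Nat.card_eq_fintype_card (α := Fin d → T), Fintype.card_fun,
        Fintype.card_fin, Fintype.card_coe]
    rw [← h3]
    refine Nat.card_congr ⟨fun x => (⟨x.1.1, x.2⟩, x.1.2), fun x => ⟨(x.1.1, x.2), x.1.2⟩, ?_, ?_⟩
    · intro x; rfl
    · intro x; rfl
  have hb2 : Nat.card {x : XF T d × (Fin d → T) // ¬ S x.1 x.2} * T.card ≤
      T.card ^ (2 + ((d + 1) + (d * d + (d + d * d)))) * (d ^ 2 * T.card ^ d) := by
    have h3 : Nat.card {x : XF T d × (Fin d → T) // ¬ S x.1 x.2} =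
        ∑ x : XF T d, Nat.card {c : Fin d → T // ¬ S x c} := by
      rw [← Nat.card_sigma]
      exact Nat.card_congr ⟨fun x => ⟨x.1.1, x.1.2, x.2⟩, fun x => ⟨(x.1, x.2.1), x.2.2⟩,
        fun x => rfl, fun x => rfl⟩
    rw [h3, Finset.sum_mul]
    refine le_trans (Finset.sum_le_card_nsmul _ _ (d ^ 2 * T.card ^ d) ?_) ?_
    · intro x _
      exact hS1 _ _ _ _ _ _ T
    · rw [Finset.card_univ, ← Nat.card_eq_fintype_card, t4_card, Fintype.card_coe, smul_eq_mul]
  have htot : T.card ^ R2 d ≤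
      Nat.card {x : XF T d × (Fin d → T) // P x.1 ∧ S x.1 x.2} +
      (Nat.card {x : XF T d × (Fin d → T) // ¬ P x.1} +
        Nat.card {x : XF T d × (Fin d → T) // ¬ S x.1 x.2}) := by
    have hfx : Finite (XF T d × (Fin d → T)) := inferInstance
    have hf1 : Finite {x : XF T d × (Fin d → T) // P x.1 ∧ S x.1 x.2} := Subtype.finite
    have hf2 : Finite {x : XF T d × (Fin d → T) // ¬ P x.1} := Subtype.finite
    have hf3 : Finite {x : XF T d × (Fin d → T) // ¬ S x.1 x.2} := Subtype.finite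
    rw [← htot0, ← Nat.card_sum, ← Nat.card_sum]
    refine Nat.card_le_card_of_surjective
      (Sum.elim (fun x => x.1) (Sum.elim (fun x => x.1) (fun x => x.1))) ?_
    intro x
    by_cases hP : P x.1
    · by_cases hS : S x.1 x.2
      · exact ⟨Sum.inl ⟨x, hP, hS⟩, rfl⟩
      · exact ⟨Sum.inr (Sum.inr ⟨x, hS⟩), rfl⟩
    · exact ⟨Sum.inr (Sum.inl ⟨x, hP⟩), rfl⟩
  have hN : 0 < T.card := by
    have : 0 < 200 * d ^ 5 := by positivity
    omega
  have hpe : p ^ e ≤ d ^ 3 := by
    calc p ^ e ≤ d * p := he2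
      _ ≤ d * d ^ 2 := Nat.mul_le_mul_left _ hpd.le
      _ = d ^ 3 := by ring
  have hd2 : d ^ 2 ≤ d ^ 5 := Nat.pow_le_pow_right hd (by norm_num)
  have hd3 : d ^ 3 ≤ d ^ 5 := Nat.pow_le_pow_right hd (by norm_num)
  have hd1 : d ≤ d ^ 5 := by
    calc d = d ^ 1 := (pow_one d).symm
      _ ≤ d ^ 5 := Nat.pow_le_pow_right hd (by norm_num)
  have hd0 : 1 ≤ d ^ 5 := Nat.one_le_pow _ _ hd
  have hco : 2 * d ^ 2 + 3 * d + (d + 1) ^ 2 + (d + 1) * (2 * d ^ 2 + d) + 40 * d ^ 2 * p ^ e
      + d ^ 2 ≤ 56 * d ^ 5 := by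
    have h5 : d ^ 2 * p ^ e ≤ d ^ 5 := by
      calc d ^ 2 * p ^ e ≤ d ^ 2 * d ^ 3 := Nat.mul_le_mul_left _ hpe
        _ = d ^ 5 := by ring
    have h6 : 2 * d ^ 2 + 3 * d + (d + 1) ^ 2 + (d + 1) * (2 * d ^ 2 + d) + 40 * d ^ 2 * p ^ e
        + d ^ 2 = 2 * d ^ 3 + 7 * d ^ 2 + 6 * d + 1 + 40 * (d ^ 2 * p ^ e) := by ring
    rw [h6]
    omega
  have hfin : 3 * (Nat.card {x : XF T d × (Fin d → T) // ¬ P x.1} +
        Nat.card {x : XF T d × (Fin d → T) // ¬ S x.1 x.2}) ≤ T.card ^ R2 d := by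
    have h5 : (3 * (Nat.card {x : XF T d × (Fin d → T) // ¬ P x.1} +
        Nat.card {x : XF T d × (Fin d → T) // ¬ S x.1 x.2})) * T.card ≤
        T.card ^ R2 d * T.card := by
      have h6 : Nat.card {x : XF T d × (Fin d → T) // ¬ P x.1} * T.card ≤
          (2 * d ^ 2 + 3 * d + (d + 1) ^ 2 + (d + 1) * (2 * d ^ 2 + d) + 40 * d ^ 2 * p ^ e) *
            T.card ^ R2 d := by
        rw [hb1, ← hR, pow_add T.card _ d]
        calc Nat.card {x : XF T d // ¬ P x} * T.card ^ d * T.card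
            = Nat.card {x : XF T d // ¬ P x} * T.card * T.card ^ d := by ring
          _ ≤ (2 * d ^ 2 + 3 * d + (d + 1) ^ 2 + (d + 1) * (2 * d ^ 2 + d) +
                40 * d ^ 2 * p ^ e) *
              T.card ^ (2 + ((d + 1) + (d * d + (d + d * d)))) * T.card ^ d :=
              Nat.mul_le_mul_right _ hbad
          _ = _ := by ring
      have h7 : Nat.card {x : XF T d × (Fin d → T) // ¬ S x.1 x.2} * T.card ≤
          d ^ 2 * T.card ^ R2 d := by
        rw [← hR, pow_add T.card _ d]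
        refine hb2.trans (le_of_eq ?_)
        ring
      calc (3 * (Nat.card {x : XF T d × (Fin d → T) // ¬ P x.1} +
              Nat.card {x : XF T d × (Fin d → T) // ¬ S x.1 x.2})) * T.card
          = 3 * (Nat.card {x : XF T d × (Fin d → T) // ¬ P x.1} * T.card +
              Nat.card {x : XF T d × (Fin d → T) // ¬ S x.1 x.2} * T.card) := by ring
        _ ≤ 3 * ((2 * d ^ 2 + 3 * d + (d + 1) ^ 2 + (d + 1) * (2 * d ^ 2 + d) +
              40 * d ^ 2 * p ^ e) * T.card ^ R2 d + d ^ 2 * T.card ^ R2 d) :=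
            Nat.mul_le_mul_left _ (Nat.add_le_add h6 h7)
        _ = 3 * ((2 * d ^ 2 + 3 * d + (d + 1) ^ 2 + (d + 1) * (2 * d ^ 2 + d) +
              40 * d ^ 2 * p ^ e + d ^ 2) * T.card ^ R2 d) := by ring
        _ ≤ 3 * (56 * d ^ 5 * T.card ^ R2 d) :=
            Nat.mul_le_mul_left _ (Nat.mul_le_mul_right _ hco)
        _ = (168 * d ^ 5) * T.card ^ R2 d := by ring
        _ ≤ T.card * T.card ^ R2 d := Nat.mul_le_mul_right _ (by omega)
        _ = T.card ^ R2 d * T.card := by ring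
    exact Nat.le_of_mul_le_mul_right h5 hN
  have hlast : ∀ N g b z : ℕ, N ≤ g + b → 3 * b ≤ N → g ≤ z → 2 * N ≤ 3 * z := by
    intro N g b z h3 h4 h5
    omega
  exact hlast _ _ _ _ htot hfin hgood

end Pool.Agent.H330AB.JF3
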