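import Pool.Agent.H330AB.SpecB3
import Pool.Agent.H330AB.JT4
set_option autoImplicit false
noncomputable section
namespace Pool.Agent.H330AB.JF4
open Polynomial Pool.Agent.H330FB
/- Rewriting, see Pool/Agent/H330AB/JT4.lean (finalTest) and Pool/Agent/H330FB/JE9.lean: the isomorphism finE : F[X][X] ≃+* MvPolynomial (Fin 2) F with finE (hom l) = ofRows l; it is compatible with base change and maps hz ζ l to absFactor ζ l; monicOf l = mpol l; associated / irreducible are transported; R2 d = 2d²+3d+3. Squarefree over the algebraic closure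
implies squarefree over K. -/

theorem finalFac_pol {K : Type} [Field K] (l : List K) :
    ∑ i ∈ Finset.range l.length, Polynomial.C (l.getD i 0) * Polynomial.X ^ i = pol l := by
  induction l with
  | nil => rfl
  | cons x l ih =>
    have e : pol (x :: l) = Polynomial.C x + Polynomial.X * pol l := rfl
    rw [e, ← ih, List.length_cons, Finset.sum_range_succ', Finset.mul_sum, add_comm]
    congr 1
    · rw [List.getD_cons_zero, pow_zero, mul_one]
    · refine Finset.sum_congr rfl fun i _ => ?_
      rw [List.getD_cons_succ, pow_succ]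
      ring

theorem finalFac_monic {K : Type} [Field K] (l : List K) : monicOf l = mpol l := by
  unfold monicOf mpol
  rw [finalFac_pol]

theorem finalFac_hz {F k : Type} [Field F] [Field k] [Algebra F k] (ζ : k)
    (l : List (List (List F))) : Pool.Agent.H330FB.JE9.finE (hz ζ l) = absFactor ζ l := by
  unfold hz absFactor
  rw [map_sum]
  refine Finset.sum_congr rfl fun b _ => ?_
  rw [map_mul, Pool.Agent.H330FB.JE9.finE_CC, Pool.Agent.H330AB.JT4.finalTest_comm,
    Pool.Agent.H330FB.JE9.finE_hom]

theorem finalFac_sqf {F k : Type} [Field F] [Field k] (φ : F →+* k) {q : F[X]}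
    (h : Squarefree (q.map φ)) : Squarefree q := by
  intro x hx
  have h1 : x.map φ * x.map φ ∣ q.map φ := by
    rw [← Polynomial.map_mul]
    exact Polynomial.map_dvd φ hx
  have h2 := h _ h1
  rw [Polynomial.isUnit_iff_degree_eq_zero] at h2 ⊢
  rwa [Polynomial.degree_map] at h2

theorem finalFac_conv {K : Type} [Field K] (d : ℕ) (f : MvPolynomial (Fin 2) K)
    (hf : f.totalDegree = d) (out : List (List K × (List (List (List K)) × List Unit)))
    (h : FacAbs (AlgebraicClosure K) (coeffRows d f) out) : IsAbsFactorization f out := by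
  obtain ⟨h1, ⟨h2, h3⟩, u, hu, h4⟩ := h
  refine ⟨fun o ho => ?_, ⟨h2, fun o ho o' ho' α α' hα hα' hass => ?_⟩, u, hu, ?_⟩
  · obtain ⟨a1, a2, a3, a4, -, a6⟩ := h1 o ho
    refine ⟨a1, ?_, a3.le, a4, fun α hα => ?_⟩
    · rw [finalFac_monic]
      exact finalFac_sqf _ a2
    · rw [finalFac_monic] at hα
      rw [← finalFac_hz]
      exact (MulEquiv.irreducible_iff Pool.Agent.H330FB.JE9.finE).2 (a6 α hα)
  · rw [finalFac_monic] at hα hα'
    refine h3 o ho o' ho' α α' hα hα' ?_
    rw [← finalFac_hz, ← finalFac_hz] at hass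
    have := hass.map Pool.Agent.H330FB.JE9.finE.symm
    rwa [RingEquiv.symm_apply_apply, RingEquiv.symm_apply_apply] at this
  · have h5 := congrArg Pool.Agent.H330FB.JE9.finE h4
    rw [Pool.Agent.H330AB.JT4.finalTest_comm, Pool.Agent.H330FB.JE9.finE_hom,
      Pool.Agent.H330FB.JE9.ofRows_coeffRows d f hf, map_mul,
      Pool.Agent.H330FB.JE9.finE_CC, map_list_prod, List.map_map] at h5
    rw [h5]
    congr 3
    funext o
    simp only [Function.comp_apply]
    rw [map_multiset_prod, Multiset.map_map, finalFac_monic]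
    congr 2
    funext ζ
    simp only [Function.comp_apply]
    rw [map_pow, finalFac_hz]

/-- TARGET -/
theorem finalFac (h : SpecFac2) : FinalFac := by
  obtain ⟨w, C, k, hw⟩ := h
  refine ⟨w, C * 2 ^ k * 8, k, ?_⟩
  intro K _ _ p d root f hp hc hr hd hf hpd
  obtain ⟨h1, h2⟩ := hw K p d root (coeffRows d f) hp hc hr
    (Pool.Agent.H330FB.JE9.isHom_coeffRows d f) hd
    (Pool.Agent.H330FB.JE9.topNe_coeffRows d f hd hf) hpd
  refine ⟨fun ω => (h1 ω).trans ?_, fun T hTc => ?_⟩
  · have e1 : lgc (d + 1) ^ k ≤ 2 ^ k * (Nat.log 2 d + 1) ^ k := by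
      rw [← mul_pow]
      exact Nat.pow_le_pow_left (Pool.Agent.H330AB.JT4.finalTest_lgc d) k
    have e2 : (d + 1) ^ 3 ≤ 8 * d ^ 3 := by
      calc (d + 1) ^ 3 ≤ (2 * d) ^ 3 := Nat.pow_le_pow_left (by omega) 3
        _ = 8 * d ^ 3 := by ring
    calc C * lgc (d + 1) ^ k * (d + 1) ^ 3
        ≤ C * (2 ^ k * (Nat.log 2 d + 1) ^ k) * (8 * d ^ 3) :=
          Nat.mul_le_mul (Nat.mul_le_mul_left _ e1) e2
      _ = C * 2 ^ k * 8 * d ^ 3 * (Nat.log 2 d + 1) ^ k := by ring
  · have h3 := h2 T hTc
    have hR : 2 * d ^ 2 + 3 * d + 3 = R2 d := by unfold R2; ring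
    rw [hR]
    refine h3.trans (Nat.mul_le_mul_left 3 ?_)
    have himp : ∀ ω : Fin (R2 d) → T,
        FacAbs (AlgebraicClosure K) (coeffRows d f)
          (w.val (root, ()) (coeffRows d f, List.ofFn (fun i => (ω i : K)))) →
        IsAbsFactorization f
          (w.val (root, ()) (coeffRows d f, List.ofFn (fun i => (ω i : K)))) :=
      fun ω h => finalFac_conv d f hf _ h
    exact Nat.card_le_card_of_injective
      (fun ω : {ω : Fin (R2 d) → T // FacAbs (AlgebraicClosure K) (coeffRows d f)
          (w.val (root, ()) (coeffRows d f, List.ofFn (fun i => (ω i : K))))} =>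
        (⟨ω.1, himp ω.1 ω.2⟩ : {ω : Fin (R2 d) → T // IsAbsFactorization f
          (w.val (root, ()) (coeffRows d f, List.ofFn (fun i => (ω i : K))))}))
      (fun a b hab => by
        have h9 := congrArg (fun z => z.1) hab
        exact Subtype.ext h9)
end Pool.Agent.H330AB.JF4
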