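import Pool.Agent.H330AB.SpecB2
set_option autoImplicit false
noncomputable section
namespace Pool.Agent.H330AB.JK1
open Polynomial Pool.Agent.H330FB

namespace G613

/-- drop `G'.length` elements of `H`; context `((H, G), (x, G'))` -/
def dropP : Pr [(.prod Po Po, Po)] (.prod (.prod Po Po) (.prod .fld Po)) Po :=
  .comp (.comp (.pair (.comp .snd .snd) (.comp .fst .fst)) splitP) .snd

/-- one subtraction -/
def redP : Pr [(.prod Po Po, Po)] (.prod (.prod Po Po) (.prod .fld Po)) Po :=
  .comp (.pair (.comp .snd .snd)
    (.comp (.pair (.comp (.comp .snd .fst) .neg) (.comp .fst .fst)) (mapP .mul))) (zpP .add)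

/-- the monic multiple -/
def monP : Pr [(.prod Po Po, Po)] (.prod (.prod (.prod Po Po) (.prod .fld Po)) (.prod .fld Po)) Po :=
  .comp (.pair (.comp (.comp (.comp .fst .snd) .fst) .inv) (.comp (.comp .fst .snd) .snd))
    (mapP .mul)

/-- body of Euclid's algorithm, state `(H, G)`, both with the top coefficient first, `H` monic -/
def bodyP : Pr [(.prod Po Po, Po)] (.prod Po Po) Po :=
  onL .snd .fst
    (onZ (.comp .snd .fst)
      (.comp (.pair (.comp .fst .fst) (.comp .snd .snd)) .self)
      (onL dropP
        (.comp (.pair (.comp .fst .fst) redP) .self)
        (.comp (.pair monP (.comp (.pair .one (.comp (.comp .fst .fst) .fst)) .cons)) .self)))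

/-- the fuel -/
def fuelP : Pr [] (.prod Po Po) Po :=
  .comp (.pair .zero (.comp (.pair .zero (.comp (.pair appP appP) appP)) .cons)) .cons

/-- the program -/
def mainP : Pr [] (.prod Po Po) Po :=
  .comp (.comp (.pair fuelP (.pair (.comp .fst revP) (.comp .snd revP))) (.recD bodyP .fst)) revP

section
variable {F : Type} [Field F] [DecidableEq F]

/-- one subtraction -/
def red (x : F) (G H : List F) : List F := zp (fun y z => y + z) G (H.map (fun y => -x * y))

/-- Euclid's algorithm -/
noncomputable def run : ℕ → List F → List F → List F
  | 0, H, _ => H
  | _ + 1, H, [] => H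
  | n + 1, H, x :: G => if x = 0 then run n H G else
      lcase (H.drop G.length) (run n H (red x G H))
        (fun _ _ => run n (G.map (fun y => x⁻¹ * y)) (1 :: H))

theorem val_bodyP (v : SV F [(.prod Po Po, Po)]) (H G : List F) :
    (bodyP.val v (H, G) : List F) = lcase G H (fun x G' => if x = 0 then (v.1 (H, G') : List F) else
      lcase (H.drop G'.length) (v.1 (H, red x G' H) : List F)
        (fun _ _ => (v.1 (G'.map (fun y => x⁻¹ * y), 1 :: H) : List F))) := by
  cases G with
  | nil => simp [bodyP]
  | cons x G =>
    by_cases hx : x = 0
    · simp [bodyP, hx]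
    · rcases hd : H.drop G.length with _ | ⟨y, Y⟩
      · simp [bodyP, hx, dropP, hd, redP, red]
      · simp [bodyP, hx, dropP, hd, monP]

theorem val_run (v : SV F []) (n : ℕ) (H G : List F) :
    (goV (F := F) bodyP .fst v n (H, G) : List F) = run n H G := by
  induction n generalizing H G with
  | zero => rfl
  | succ n ih =>
    have e : (goV (F := F) bodyP .fst v (n + 1) (H, G) : List F) =
        bodyP.val (goV (F := F) bodyP .fst v n, v) (H, G) := rfl
    rw [e, val_bodyP]
    cases G with
    | nil => rfl
    | cons x G =>
      by_cases hx : x = 0
      · simp only [lcase_cons, hx, if_true, run]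
        exact ih H G
      · rcases hd : H.drop G.length with _ | ⟨y, Y⟩
        · simp only [lcase_cons, lcase_nil, hx, if_false, run, hd]
          exact ih _ _
        · simp only [lcase_cons, hx, if_false, run, hd]
          exact ih _ _

theorem length_zp (f : F → F → F) (l m : List F) (h : m.length ≤ l.length) :
    (zp f l m).length = l.length := by
  induction l generalizing m with
  | nil =>
    have : m = [] := List.length_eq_zero_iff.mp (by simpa using h)
    subst this
    rfl
  | cons x l ih =>
    cases m with
    | nil => rfl
    | cons y m =>
      simp only [List.length_cons, Nat.add_le_add_iff_right] at h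
      simp [zp, ih m h]

theorem length_red (x : F) (G H : List F) (h : H.length ≤ G.length) :
    (red x G H).length = G.length := by
  rw [red, length_zp _ _ _ (by simpa using h)]

/-- the polynomial with the top coefficient first -/
noncomputable def tp : List F → F[X]
  | [] => 0
  | x :: L => C x * X ^ L.length + tp L

theorem pol_append (l : List F) (x : F) : pol (l ++ [x]) = pol l + C x * X ^ l.length := by
  induction l with
  | nil => simp [pol]
  | cons y l ih =>
    simp only [List.cons_append, pol, ih, List.length_cons, pow_succ]
    ring

theorem pol_reverse (L : List F) : pol L.reverse = tp L := by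
  induction L with
  | nil => rfl
  | cons x L ih => rw [List.reverse_cons, pol_append, ih, tp, List.length_reverse]; ring

theorem tp_reverse (l : List F) : tp l.reverse = pol l := by
  rw [← pol_reverse, List.reverse_reverse]

theorem tp_map (c : F) (L : List F) : tp (L.map (fun y => c * y)) = C c * tp L := by
  induction L with
  | nil => simp [tp]
  | cons x L ih => simp only [List.map_cons, tp, ih, List.length_map, C_mul]; ring

theorem tp_red (x : F) (G H : List F) (h : H.length ≤ G.length) :
    tp (red x G H) = tp G - C x * X ^ (G.length - H.length) * tp H := by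
  induction H generalizing G with
  | nil =>
    cases G with
    | nil => simp [red, zp, tp]
    | cons z G => simp [red, zp, tp]
  | cons y H ih =>
    cases G with
    | nil => simp at h
    | cons z G =>
      simp only [List.length_cons, Nat.add_le_add_iff_right] at h
      have e1 := ih G h
      have e2 := length_red x G H h
      have e3 : (X : F[X]) ^ G.length = X ^ (G.length - H.length) * X ^ H.length := by
        rw [← pow_add]; congr 1; omega
      have e4 : red x (z :: G) (y :: H) = (z + -x * y) :: red x G H := rfl
      rw [e4, tp, e1, e2, tp, tp]
      simp only [List.length_cons, Nat.add_sub_add_right, C_add, C_mul, C_neg]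
      rw [e3]
      ring

/-- the monic polynomial -/
noncomputable def mo (H : List F) : F[X] := X ^ H.length + tp H

theorem mo_reverse (l : List F) : mo l.reverse = mpol l := by
  rw [mo, tp_reverse, List.length_reverse, mpol]

theorem mpol_reverse (L : List F) : mpol L.reverse = mo L := by
  rw [mo, mpol, pol_reverse, List.length_reverse]

/-- the measure -/
def me (H G : List F) : ℕ := 2 * (H.length + G.length) + if G.length ≤ H.length then 1 else 0

theorem run_spec (n : ℕ) (H G : List F) (hn : me H G ≤ n) :
    (run n H G).length ≤ H.length ∧
      ∀ D : F[X], (D ∣ mo H ∧ D ∣ tp G) ↔ D ∣ mo (run n H G) := by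
  induction n generalizing H G with
  | zero =>
    exfalso
    have h1 : H.length = 0 := by simp only [me] at hn; omega
    have h2 : G.length = 0 := by simp only [me] at hn; omega
    simp [me, h1, h2] at hn
  | succ n ih =>
    cases G with
    | nil =>
      refine ⟨le_rfl, fun D => ?_⟩
      simp [run, tp]
    | cons x G =>
      by_cases hx : x = 0
      · have h1 : me H G ≤ n := by
          simp only [me, List.length_cons] at hn ⊢
          split_ifs at hn ⊢ <;> omega
        have h2 := ih H G h1
        simp only [run, hx, if_true, tp, C_0, zero_mul, zero_add]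
        exact h2
      · rcases hd : H.drop G.length with _ | ⟨y, Y⟩
        · have hle : H.length ≤ G.length := by
            have := congrArg List.length hd
            simp at this
            omega
          have hl := length_red x G H hle
          have h1 : me H (red x G H) ≤ n := by
            simp only [me, List.length_cons, hl] at hn ⊢
            split_ifs at hn ⊢ <;> omega
          have h2 := ih H (red x G H) h1
          simp only [run, hx, if_false, hd, lcase_nil]
          refine ⟨h2.1, fun D => ?_⟩
          rw [← h2.2 D]
          refine and_congr_right fun hD => ?_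
          have e : tp (x :: G) = tp (red x G H) + C x * X ^ (G.length - H.length) * mo H := by
            rw [tp_red x G H hle, mo, tp]
            have e3 : (X : F[X]) ^ G.length = X ^ (G.length - H.length) * X ^ H.length := by
              rw [← pow_add]; congr 1; omega
            rw [e3]
            ring
          rw [e]
          exact (dvd_add_left (hD.mul_left _))
        · have hlt : G.length < H.length := by
            have := congrArg List.length hd
            simp at this
            omega
          have h1 : me (G.map (fun y => x⁻¹ * y)) (1 :: H) ≤ n := by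
            simp only [me, List.length_cons, List.length_map] at hn ⊢
            split_ifs at hn ⊢ <;> omega
          have h2 := ih (G.map (fun y => x⁻¹ * y)) (1 :: H) h1
          simp only [run, hx, if_false, hd, lcase_cons]
          refine ⟨?_, fun D => ?_⟩
          · have := h2.1
            simp only [List.length_map] at this
            omega
          · rw [← h2.2 D, and_comm]
            have e1 : mo (G.map (fun y => x⁻¹ * y)) = C x⁻¹ * tp (x :: G) := by
              rw [mo, tp_map, tp, List.length_map, mul_add, ← mul_assoc, ← C_mul,
                inv_mul_cancel₀ hx, C_1, one_mul]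
            have e2 : tp (1 :: H) = mo H := by
              rw [tp, mo, C_1, one_mul]
            rw [e1, e2]
            refine and_congr ?_ Iff.rfl
            have hu : IsUnit (C x⁻¹ : F[X]) := Polynomial.isUnit_C.2 (IsUnit.mk0 _ (inv_ne_zero hx))
            exact (hu.dvd_mul_left).symm

theorem cost_dropP (v : SV F [(.prod Po Po, Po)]) (k : SC F [(.prod Po Po, Po)])
    (H G G' : List F) (x : F) :
    dropP.cost v k ((H, G), (x, G')) ≤ 24 * G'.length + 20 := by
  have h := cost_splitP (s := [(.prod Po Po, Po)]) (F := F) (a := .fld) (b := .fld) v k (G', H)
  simp [dropP] at h ⊢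
  omega

theorem cost_redP (v : SV F [(.prod Po Po, Po)]) (k : SC F [(.prod Po Po, Po)])
    (H G G' : List F) (x : F) :
    redP.cost v k ((H, G), (x, G')) ≤ 14 * H.length + 41 * G'.length + 60 := by
  have h1 := cost_mapP_le (s := [(.prod Po Po, Po)]) (F := F) (c := .fld) (a := .fld) (b := .fld)
    .mul v k (-x, H) 1 (fun _ _ => by simp)
  have h2 := cost_zpP_le (s := [(.prod Po Po, Po)]) (F := F) (a := .fld) .add v k
    (G', H.map (fun y => -x * y)) 1 (fun _ _ _ _ => by simp)
  simp [redP] at h1 h2 ⊢
  omega

theorem cost_monP (v : SV F [(.prod Po Po, Po)]) (k : SC F [(.prod Po Po, Po)])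
    (H G G' Y : List F) (x y : F) :
    monP.cost v k (((H, G), (x, G')), (y, Y)) ≤ 14 * G'.length + 30 := by
  have h1 := cost_mapP_le (s := [(.prod Po Po, Po)]) (F := F) (c := .fld) (a := .fld) (b := .fld)
    .mul v k (x⁻¹, G') 1 (fun _ _ => by simp)
  simp [monP] at h1 ⊢
  omega

theorem cost_body0 (v : SV F [(.prod Po Po, Po)]) (k : SC F [(.prod Po Po, Po)]) (H : List F) :
    bodyP.cost v k (H, []) ≤ 10 := by
  simp [bodyP]

theorem cost_body1 (v : SV F [(.prod Po Po, Po)]) (k : SC F [(.prod Po Po, Po)])
    (H G : List F) :
    bodyP.cost v k (H, 0 :: G) ≤ k.1 (H, G) + 30 := by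
  simp [bodyP]
  omega

theorem cost_body2 (v : SV F [(.prod Po Po, Po)]) (k : SC F [(.prod Po Po, Po)])
    (H G : List F) (x : F) (hx : x ≠ 0) (hd : H.drop G.length = []) :
    bodyP.cost v k (H, x :: G) ≤ k.1 (H, red x G H) + 14 * H.length + 65 * G.length + 150 := by
  have hc := cost_dropP (F := F) v k H (x :: G) G x
  have hr := cost_redP (F := F) v k H (x :: G) G x
  have ev : redP.val v ((H, x :: G), (x, G)) = red x G H := by
    simp [redP, red]
  have ed : dropP.val v ((H, x :: G), (x, G)) = [] := by
    simp [dropP, hd]
  have e : bodyP.cost v k (H, x :: G) = 1 + 3 + (1 + 1 + 3 + (dropP.cost v k ((H, x :: G), (x, G))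
      + 3 + (1 + 1 + redP.cost v k ((H, x :: G), (x, G)) + 1 + (k.1 (H, red x G H) + 1)))) := by
    rw [← ev]
    simp [bodyP, hx, ed]
  omega

theorem cost_body3 (v : SV F [(.prod Po Po, Po)]) (k : SC F [(.prod Po Po, Po)])
    (H G : List F) (x y : F) (Y : List F) (hx : x ≠ 0) (hd : H.drop G.length = y :: Y) :
    bodyP.cost v k (H, x :: G) ≤ k.1 (G.map (fun y => x⁻¹ * y), 1 :: H) + 38 * G.length + 150 := by
  have hc := cost_dropP (F := F) v k H (x :: G) G x
  have hr := cost_monP (F := F) v k H (x :: G) G Y x y
  have ev : monP.val v (((H, x :: G), (x, G)), (y, Y)) = G.map (fun y => x⁻¹ * y) := by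
    simp [monP]
  have ed : dropP.val v ((H, x :: G), (x, G)) = y :: Y := by
    simp [dropP, hd]
  have e : bodyP.cost v k (H, x :: G) = 1 + 3 + (1 + 1 + 3 + (dropP.cost v k ((H, x :: G), (x, G))
      + 3 + (monP.cost v k (((H, x :: G), (x, G)), (y, Y)) + (1 + (1 + 1 + 1) + 1 + 1) + 1
        + (k.1 (G.map (fun y => x⁻¹ * y), 1 :: H) + 1)))) := by
    rw [← ev]
    simp [bodyP, hx, ed]
  omega

theorem cost_run (v : SV F []) (k : SC F []) (S n : ℕ) (H G : List F)
    (hS : H.length + G.length ≤ S) :
    goC (F := F) bodyP .fst v k n (H, G) ≤ (100 * S + 200) * n + 1 := by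
  induction n generalizing H G with
  | zero =>
    have e : goC (F := F) bodyP .fst v k 0 (H, G) = 1 := rfl
    omega
  | succ n ih =>
    have e : goC (F := F) bodyP .fst v k (n + 1) (H, G) =
        bodyP.cost (goV (F := F) bodyP .fst v n, v) (goC (F := F) bodyP .fst v k n, k) (H, G) := rfl
    rw [e, mul_add, mul_one]
    cases G with
    | nil =>
      have := cost_body0 (F := F) (goV (F := F) bodyP .fst v n, v)
        (goC (F := F) bodyP .fst v k n, k) H
      omega
    | cons x G =>
      simp only [List.length_cons] at hS
      by_cases hx : x = 0
      · subst hx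
        have h1 := ih H G (by omega)
        have h2 := cost_body1 (F := F) (goV (F := F) bodyP .fst v n, v)
          (goC (F := F) bodyP .fst v k n, k) H G
        simp only at h2
        omega
      · rcases hd : H.drop G.length with _ | ⟨y, Y⟩
        · have hle : H.length ≤ G.length := by
            have := congrArg List.length hd
            simp at this
            omega
          have hl := length_red x G H hle
          have h1 := ih H (red x G H) (by omega)
          have h2 := cost_body2 (F := F) (goV (F := F) bodyP .fst v n, v)
            (goC (F := F) bodyP .fst v k n, k) H G x hx hd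
          simp only at h2
          omega
        · have hlt : G.length < H.length := by
            have := congrArg List.length hd
            simp at this
            omega
          have h1 := ih (G.map (fun y => x⁻¹ * y)) (1 :: H) (by
            simp only [List.length_map, List.length_cons]; omega)
          have h2 := cost_body3 (F := F) (goV (F := F) bodyP .fst v n, v)
            (goC (F := F) bodyP .fst v k n, k) H G x y Y hx hd
          have h3 := le_trans h2 (Nat.add_le_add_right (Nat.add_le_add_right h1 _) _)
          omega

theorem val_fuelP (h g : List F) :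
    List.length (fuelP.val () (h, g) : List F) = 2 * (h.length + g.length) + 2 := by
  simp [fuelP]
  omega

theorem cost_fuelP (h g : List F) :
    fuelP.cost () () (h, g) ≤ 60 * (h.length + g.length) + 40 := by
  have h1 := cost_appP (s := []) (F := F) (a := .fld) () () (h, g)
  have h2 := cost_appP (s := []) (F := F) (a := .fld) () () (h ++ g, h ++ g)
  simp [fuelP] at h1 h2 ⊢
  omega

theorem val_mainP (h g : List F) :
    (mainP.val () (h, g) : List F) =
      (run (2 * (h.length + g.length) + 2) h.reverse g.reverse).reverse := by
  have e := val_fuelP h g
  have e1 : (mainP.val () (h, g) : List F) = List.reverse (goV (F := F) bodyP .fst ()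
      (List.length (fuelP.val () (h, g) : List F)) (h.reverse, g.reverse) : List F) := by
    simp only [mainP, val_comp, val_pair, val_fst, val_snd, val_revP, val_recD]
  rw [e1, e]
  exact congrArg List.reverse (val_run () _ _ _)

theorem cost_mainP (h g : List F) :
    mainP.cost () () (h, g) ≤ 1000 * (h.length + g.length + 1) ^ 2 := by
  have e := val_fuelP h g
  have c1 := cost_fuelP h g
  have c2 := cost_revP (s := []) (F := F) (a := .fld) () () h
  have c3 := cost_revP (s := []) (F := F) (a := .fld) () () g
  have c4 := cost_run (F := F) () () (h.length + g.length) (2 * (h.length + g.length) + 2)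
    h.reverse g.reverse (by simp)
  have c5 := cost_revP (s := []) (F := F) (a := .fld) () ()
    (goV (F := F) bodyP .fst () (2 * (h.length + g.length) + 2) (h.reverse, g.reverse))
  have hm : me h.reverse g.reverse ≤ 2 * (h.length + g.length) + 2 := by
    simp only [me, List.length_reverse]
    split_ifs <;> omega
  have c6 := (run_spec _ _ _ hm).1
  simp only [List.length_reverse] at c6
  have c7 : List.length (goV (F := F) bodyP .fst () (2 * (h.length + g.length) + 2)
      (h.reverse, g.reverse) : List F) ≤ h.length := by
    have := val_run (F := F) () (2 * (h.length + g.length) + 2) h.reverse g.reverse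
    rw [this]
    exact c6
  have ec : mainP.cost () () (h, g) = fuelP.cost () () (h, g) +
      (1 + (revP : Pr [] Po Po).cost () () h + (1 + (revP : Pr [] Po Po).cost () () g) + 1) + 1 +
      (goC (F := F) bodyP .fst () () (List.length (fuelP.val () (h, g) : List F))
        (h.reverse, g.reverse) + 1) + (revP : Pr [] Po Po).cost () ()
        (goV (F := F) bodyP .fst () (List.length (fuelP.val () (h, g) : List F))
          (h.reverse, g.reverse)) := by
    simp only [mainP, cost_comp, cost_pair, cost_fst, cost_snd, val_comp, val_pair, val_fst,
      val_snd, val_revP, cost_recD, val_recD]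
  rw [ec, e]
  nlinarith

end

end G613

/- Euclid's algorithm: state (h, g) with mpol h monic, g reduced modulo mpol h; strip zeros from the top of g (work with reversed lists if convenient); if g = 0 the answer is h; otherwise make g monic (inv of the leading coefficient) and continue with (g, h mod g). A division step of
length n by a polynomial of length m costs (n-m+1)(m+1), which telescopes: the total cost is quadratic in h.length + g.length. -/
/-- TARGET -/
theorem specGcd : SpecGcd := by
  refine ⟨G613.mainP, 1000, fun F _ _ h g => ?_⟩
  intro c
  have hm : G613.me h.reverse g.reverse ≤ 2 * (h.length + g.length) + 2 := by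
    simp only [G613.me, List.length_reverse]
    split_ifs <;> omega
  obtain ⟨h1, h2⟩ := G613.run_spec _ _ _ hm
  have hc : c = (G613.run (2 * (h.length + g.length) + 2) h.reverse g.reverse).reverse :=
    G613.val_mainP h g
  have h3 : mpol c = G613.mo (G613.run (2 * (h.length + g.length) + 2) h.reverse g.reverse) := by
    rw [hc, G613.mpol_reverse]
  rw [G613.mo_reverse, G613.tp_reverse] at h2
  rw [← h3] at h2
  refine ⟨?_, ((h2 _).2 dvd_rfl).1, ((h2 _).2 dvd_rfl).2, fun D d1 d2 => (h2 D).1 ⟨d1, d2⟩,
    G613.cost_mainP h g⟩
  rw [hc]
  simpa using h1
end Pool.Agent.H330AB.JK1
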