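import Pool.Agent.H330AB.SpecB2
set_option autoImplicit false
noncomputable section
namespace Pool.Agent.H330AB.JK10
open Polynomial Pool.Agent.H330FB

namespace K10

/-! ### Programs -/

/-- the zero element, input `(s, q)` -/
def zP {c : List (Ty × Ty)} : Pr c (.prod Un Po) Ma :=
  mapP (c := Un) (a := .fld) (.comp (.pair .star .fst) (mapP (c := .unit) (a := .unit) .zero))

/-- one product; input `(((r, (s, q)), a), b)` -/
def mulOne (p : Pr [] (.prod Un (.prod Un (.prod Po (.prod Ma Ma)))) Ma) :
    Pr [] (.prod (.prod (.prod Un (.prod Un Po)) Ma) Ma) Ma :=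
  .comp (.pair (.comp (.comp .fst .fst) .fst)
    (.pair (.comp (.comp (.comp .fst .fst) .snd) .fst)
      (.pair (.comp (.comp (.comp .fst .fst) .snd) .snd)
        (.pair (.comp .fst .snd) .snd)))) p

/-- one step; input `(((r, (s, q)), (B, Z)), (acc, a))` -/
def step (p : Pr [] (.prod Un (.prod Un (.prod Po (.prod Ma Ma)))) Ma) :
    Pr [] (.prod (.prod (.prod Un (.prod Un Po)) (.prod ML Ma)) (.prod ML Ma)) ML :=
  ap2 (zpP (zpP (zpP .add)))
    (ap2 (mapP (mulOne p)) (.pair (.comp .fst .fst) (.comp .snd .snd))
      (.comp (.comp .fst .snd) .fst))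
    (ap2 .cons (.comp (.comp .fst .snd) .snd) (.comp .snd .fst))

/-- the program; input `(r, (s, (q, (A, B))))` -/
def main (p : Pr [] (.prod Un (.prod Un (.prod Po (.prod Ma Ma)))) Ma) :
    Pr [] (.prod Un (.prod Un (.prod Po (.prod ML ML)))) ML :=
  lt (ap2 zP (.comp .snd .fst) (.comp (.comp .snd .snd) .fst))
    (ap3 (foldP (step p))
      (.pair (.pair (.comp .fst .fst)
          (.pair (.comp (.comp .fst .snd) .fst) (.comp (.comp (.comp .fst .snd) .snd) .fst)))
        (.pair (.comp (.comp (.comp (.comp .fst .snd) .snd) .snd) .snd) .snd))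
      (ap2 (mapP (c := Ma) (a := Ma) .fst) .snd
        (.comp (.comp (.comp (.comp .fst .snd) .snd) .snd) .snd))
      (.comp (.comp (.comp (.comp (.comp .fst .snd) .snd) .snd) .fst) revP))

/-! ### Addition -/

section
variable {F : Type} [Field F]

/-- addition of double lists -/
def add2 (a b : List (List F)) : List (List F) := zp (zp (fun x y => x + y)) a b
/-- addition of triple lists -/
def add3 (a b : List (List (List F))) : List (List (List F)) := zp add2 a b

theorem length_zp {α : Type} (f : α → α → α) (l m : List α) :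
    (zp f l m).length = max l.length m.length := by
  induction l generalizing m with
  | nil => simp [zp]
  | cons x l ih =>
    cases m with
    | nil => simp [zp]
    | cons y m => simp [zp, ih]

theorem mem_zp {α : Type} (f : α → α → α) (P : α → Prop) (l m : List α) (hl : ∀ x ∈ l, P x)
    (hm : ∀ x ∈ m, P x) (hf : ∀ x y, P x → P y → P (f x y)) : ∀ z ∈ zp f l m, P z := by
  induction l generalizing m with
  | nil => simpa [zp] using hm
  | cons x l ih =>
    cases m with
    | nil => simpa [zp] using hl
    | cons y m =>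
      intro z hz
      simp only [zp, List.mem_cons] at hz
      rcases hz with rfl | hz
      · exact hf _ _ (hl x (by simp)) (hm y (by simp))
      · exact ih m (fun x hx => hl x (by simp [hx])) (fun x hx => hm x (by simp [hx])) z hz

theorem pol_zp {α R : Type} [CommRing R] (φ : α → R) (f : α → α → α)
    (hf : ∀ x y, φ (f x y) = φ x + φ y) (l m : List α) :
    pol ((zp f l m).map φ) = pol (l.map φ) + pol (m.map φ) := by
  induction l generalizing m with
  | nil => simp [zp, pol]
  | cons x l ih =>
    cases m with
    | nil => simp [zp, pol]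
    | cons y m => simp [zp, pol, hf, ih]; ring

theorem pol_zp' (l m : List F) :
    pol (zp (fun x y => x + y) l m) = pol l + pol m := by
  have := pol_zp (fun x : F => x) (fun x y => x + y) (fun _ _ => rfl) l m
  simpa using this

variable {R : Type} [CommRing R] [Algebra F R]

theorem rp_add2 (τ : R) (a b : List (List F)) : rp τ (add2 a b) = rp τ a + rp τ b := by
  unfold rp add2
  exact pol_zp _ _ (fun x y => by rw [pol_zp', map_add]) a b

theorem av_add2 (τ ζ : R) (a b : List (List F)) : av τ ζ (add2 a b) = av τ ζ a + av τ ζ b := by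
  unfold av
  rw [rp_add2, eval_add]

theorem pv_add3 (τ ζ : R) (a b : List (List (List F))) :
    pv τ ζ (add3 a b) = pv τ ζ a + pv τ ζ b := by
  unfold pv add3
  exact pol_zp _ _ (fun x y => av_add2 τ ζ x y) a b

/-- shape of an element -/
def ShA (s m : ℕ) (a : List (List F)) : Prop := a.length = m ∧ Sh s a

theorem shA_add2 {s m : ℕ} {a b : List (List F)} (ha : ShA s m a) (hb : ShA s m b) :
    ShA s m (add2 a b) := by
  refine ⟨?_, ?_⟩
  · unfold add2
    rw [length_zp, ha.1, hb.1, max_self]
  · unfold Sh add2
    refine mem_zp _ (fun r => r.length = s) a b (fun x hx => ha.2 x hx) (fun x hx => hb.2 x hx) ?_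
    intro x y hx hy
    rw [length_zp, show x.length = s from hx, show y.length = s from hy, max_self]

omit [Field F] in
theorem sh3_iff {s m : ℕ} (l : List (List (List F))) : Sh3 s m l ↔ ∀ a ∈ l, ShA s m a := Iff.rfl

theorem sh3_add3 {s m : ℕ} {a b : List (List (List F))} (ha : Sh3 s m a) (hb : Sh3 s m b) :
    Sh3 s m (add3 a b) := by
  rw [sh3_iff]
  exact mem_zp _ (fun r => ShA s m r) a b ha hb (fun x y hx hy => shA_add2 hx hy)

/-- the zero element -/
def zel (s : ℕ) (q : List F) : List (List F) := q.map (fun _ => (un s).map (fun _ => (0 : F)))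

theorem shA_zel (s : ℕ) (q : List F) : ShA s q.length (zel s q) := by
  refine ⟨by simp [zel], ?_⟩
  intro r hr
  simp only [zel, List.mem_map] at hr
  obtain ⟨_, _, rfl⟩ := hr
  simp [un]

theorem pol_zero_list (l : List Unit) : pol (l.map (fun _ => (0 : F))) = 0 := by
  induction l with
  | nil => rfl
  | cons h t ih => rw [List.map_cons, pol, ih]; simp

theorem av_zel (τ ζ : R) (s : ℕ) (q : List F) : av τ ζ (zel s q) = 0 := by
  unfold av zel rp
  have : pol ((q.map (fun _ => (un s).map (fun _ => (0 : F)))).map
      (fun r => aeval τ (pol r))) = (0 : R[X]) := by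
    induction q with
    | nil => rfl
    | cons h t ih =>
      simp only [List.map_cons, pol]
      rw [ih, pol_zero_list]
      simp
  rw [this, eval_zero]

theorem pv_zel (τ ζ : R) (s : ℕ) (q : List F) (B : List (List (List F))) :
    pv τ ζ (B.map (fun _ => zel s q)) = 0 := by
  unfold pv
  induction B with
  | nil => rfl
  | cons h t ih =>
    simp only [List.map_cons, pol]
    rw [ih, av_zel]
    simp

theorem pv_cons (τ ζ : R) (a : List (List F)) (A : List (List (List F))) :
    pv τ ζ (a :: A) = C (av τ ζ a) + X * pv τ ζ A := rfl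

theorem pv_map (τ ζ : R) (g : List (List F) → List (List F)) (c : R)
    (B : List (List (List F))) (h : ∀ b ∈ B, av τ ζ (g b) = c * av τ ζ b) :
    pv τ ζ (B.map g) = C c * pv τ ζ B := by
  induction B with
  | nil => simp [pv, pol]
  | cons b B ih =>
    rw [List.map_cons, pv_cons, pv_cons, ih (fun x hx => h x (by simp [hx])), h b (by simp), C_mul]
    ring

/-- the product -/
def prd (mu : List (List F) → List (List F) → List (List F)) (z : List (List F))
    (B : List (List (List F))) : List (List (List F)) → List (List (List F))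
  | [] => B.map (fun _ => z)
  | a :: A => add3 (B.map (mu a)) (z :: prd mu z B A)

theorem prd_spec {s m : ℕ} (mu : List (List F) → List (List F) → List (List F))
    (hmu : ∀ a b, ShA s m a → ShA s m b → ShA s m (mu a b)) (z : List (List F))
    (hz : ShA s m z) (B : List (List (List F))) (hB : Sh3 s m B) (A : List (List (List F)))
    (hA : Sh3 s m A) : Sh3 s m (prd mu z B A) ∧ (prd mu z B A).length = A.length + B.length := by
  induction A with
  | nil =>
    refine ⟨?_, by simp [prd]⟩
    rw [sh3_iff]
    intro a ha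
    simp only [prd, List.mem_map] at ha
    obtain ⟨_, _, rfl⟩ := ha
    exact hz
  | cons a A ih =>
    obtain ⟨h1, h2⟩ := ih (fun x hx => hA x (by simp [hx]))
    have ha : ShA s m a := hA a (by simp)
    refine ⟨?_, ?_⟩
    · rw [prd]
      refine sh3_add3 ?_ ?_
      · rw [sh3_iff]
        intro x hx
        rw [List.mem_map] at hx
        obtain ⟨b, hb, rfl⟩ := hx
        exact hmu a b ha (hB b hb)
      · rw [sh3_iff]
        intro x hx
        rw [List.mem_cons] at hx
        rcases hx with rfl | hx
        · exact hz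
        · exact h1 x hx
    · rw [prd, add3, length_zp, List.length_map, List.length_cons, h2, List.length_cons]
      omega

theorem prd_pv {s m : ℕ} (τ ζ : R) (mu : List (List F) → List (List F) → List (List F))
    (hmu : ∀ a b, ShA s m a → ShA s m b → av τ ζ (mu a b) = av τ ζ a * av τ ζ b)
    (z : List (List F)) (hz : av τ ζ z = 0) (B : List (List (List F))) (hB : Sh3 s m B)
    (A : List (List (List F))) (hA : Sh3 s m A) :
    pv τ ζ (prd mu z B A) = pv τ ζ A * pv τ ζ B := by
  induction A with
  | nil =>
    have h1 : pv τ ζ (B.map (fun _ => z)) = C 0 * pv τ ζ B :=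
      pv_map τ ζ (fun _ => z) 0 B (fun b _ => by rw [hz, zero_mul])
    rw [prd, h1]
    simp [pv, pol]
  | cons a A ih =>
    have ha : ShA s m a := hA a (by simp)
    rw [prd, pv_add3, pv_cons, pv_cons, ih (fun x hx => hA x (by simp [hx])), hz,
      pv_map τ ζ (mu a) (av τ ζ a) B (fun b hb => hmu a b ha (hB b hb)), C_0]
    ring

end

/-! ### Values -/

section
variable {F : Type} [Field F] [DecidableEq F]

theorem val_zP {c : List (Ty × Ty)} (v : SV F c) (s : ℕ) (q : List F) :
    (zP : Pr c (.prod Un Po) Ma).val v (un s, q) = zel s q := by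
  simp [zP, zel]

theorem val_step (p : Pr [] (.prod Un (.prod Un (.prod Po (.prod Ma Ma)))) Ma)
    (r s : List Unit) (q : List F) (B : List (List (List F))) (z : List (List F))
    (acc : List (List (List F))) (a : List (List F)) :
    (step p).val (F := F) () (((r, (s, q)), (B, z)), (acc, a)) =
      add3 (B.map (fun b => p.val () (r, (s, (q, (a, b)))))) (z :: acc) := by
  simp [step, mulOne, add3]
  rfl

theorem val_main (p : Pr [] (.prod Un (.prod Un (.prod Po (.prod Ma Ma)))) Ma)
    (r : List Unit) (s : ℕ) (q : List F) (A B : List (List (List F))) :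
    (main p).val (F := F) () (r, (un s, (q, (A, B)))) =
      prd (fun a b => p.val () (r, (un s, (q, (a, b))))) (zel s q) B A := by
  have h1 : (main p).val (F := F) () (r, (un s, (q, (A, B)))) =
      List.foldl (fun acc a => (step p).val (F := F) ()
        (((r, (un s, q)), (B, (zP : Pr [] (.prod Un Po) Ma).val () (un s, q))), (acc, a)))
        (B.map (fun _ => (zP : Pr [] (.prod Un Po) Ma).val () (un s, q))) A.reverse := by
    simp [main]
  have h2 : (zP : Pr [] (.prod Un Po) Ma).val (F := F) () (un s, q) = zel s q := val_zP (c := []) () s q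
  rw [h1, List.foldl_reverse, h2]
  clear h1
  induction A with
  | nil => rfl
  | cons a A ih => rw [List.foldr_cons, prd, ih, val_step]

/-! ### Costs -/

theorem cost_zP {c : List (Ty × Ty)} (v : SV F c) (k : SC F c) (s : ℕ) (q : List F) :
    (zP : Pr c (.prod Un Po) Ma).cost v k (un s, q) ≤ (14 * s + 40) * q.length + 5 := by
  have h2 : ∀ u : List Unit, (mapP (c := .unit) (a := .unit) .zero : Pr c (.prod .unit Un) Po).cost
      v k ((), u) ≤ (1 + 13) * u.length + 5 := fun u =>
    cost_mapP_le (c := .unit) (a := .unit) .zero v k ((), u) 1 (fun _ _ => by simp)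
  have h1 := cost_mapP_le (c := Un) (a := .fld)
    (.comp (.pair .star (.comp .fst .id)) (mapP (c := .unit) (a := .unit) .zero) :
      Pr c (.prod Un .fld) Po) v k (un s, q) (14 * s + 20) (fun y _ => by
        have := h2 (un s)
        simp [un] at this ⊢
        omega)
  have h1' := cost_mapP_le (c := Un) (a := .fld)
    (.comp (.pair .star .fst) (mapP (c := .unit) (a := .unit) .zero) :
      Pr c (.prod Un .fld) Po) v k (un s, q) (14 * s + 20) (fun y _ => by
        have := h2 (un s)
        simp [un] at this ⊢
        omega)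
  unfold zP
  refine h1'.trans ?_
  have : (14 * s + 20 + 13) * q.length ≤ (14 * s + 40) * q.length :=
    Nat.mul_le_mul_right _ (by omega)
  exact Nat.add_le_add_right this 5

theorem cost_add3 (v : SV F []) (k : SC F []) {s m : ℕ} (A B : List (List (List F)))
    (hA : Sh3 s m A) :
    (zpP (zpP (zpP .add)) : Pr [] (.prod ML ML) ML).cost v k (A, B) ≤
      ((41 * s + 55) * m + 55) * A.length + 15 := by
  have h1 : ∀ x y : List F, (zpP .add : Pr [] (.prod Po Po) Po).cost v k (x, y) ≤
      41 * x.length + 15 := fun x y =>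
    cost_zpP_le .add v k (x, y) 1 (fun _ _ _ _ => by simp)
  have h2 : ∀ a b : List (List F), ShA s m a → (zpP (zpP .add) : Pr [] (.prod Ma Ma) Ma).cost v k
      (a, b) ≤ (41 * s + 55) * m + 15 := fun a b ha => by
    have := cost_zpP_le (zpP .add : Pr [] (.prod Po Po) Po) v k (a, b) (41 * s + 15)
      (fun y hy z _ => by
        have h3 := h1 y z
        have h4 : y.length = s := ha.2 y hy
        rw [h4] at h3
        exact h3)
    refine this.trans ?_
    simp only [ha.1]
    exact le_rfl
  have h3 := cost_zpP_le (zpP (zpP .add) : Pr [] (.prod Ma Ma) Ma) v k (A, B)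
    ((41 * s + 55) * m + 15) (fun y hy z _ => h2 y z (hA y hy))
  exact h3

theorem cost_step (p : Pr [] (.prod Un (.prod Un (.prod Po (.prod Ma Ma)))) Ma)
    (r : List Unit) {s m : ℕ} (u : List Unit) (q : List F) (B : List (List (List F)))
    (z : List (List F)) (acc : List (List (List F))) (a : List (List F)) (K : ℕ)
    (hsh : ∀ b ∈ B, ShA s m (p.val () (r, (u, (q, (a, b))))))
    (hK : ∀ b ∈ B, p.cost () () (r, (u, (q, (a, b)))) ≤ K) :
    (step p).cost (F := F) () () (((r, (u, q)), (B, z)), (acc, a)) ≤
      (K + (41 * s + 55) * m + 200) * (B.length + 1) := by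
  have h1 := cost_mapP_le (mulOne p) () () ((((r, (u, q)), a) : Ty.D F (.prod (.prod Un (.prod Un Po)) Ma)), B)
    (K + 30) (fun b hb => by
      have := hK b hb
      simp [mulOne] at this ⊢
      omega)
  have h2 := cost_add3 () () (B.map (fun b => p.val () (r, (u, (q, (a, b)))))) (z :: acc)
    (s := s) (m := m) (by
      intro x hx
      rw [List.mem_map] at hx
      obtain ⟨b, hb, rfl⟩ := hx
      exact hsh b hb)
  rw [List.length_map] at h2
  have e1 : (step p).cost (F := F) () () (((r, (u, q)), (B, z)), (acc, a)) ≤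
      (mapP (mulOne p)).cost () () ((((r, (u, q)), a) : Ty.D F (.prod (.prod Un (.prod Un Po)) Ma)), B) +
      (zpP (zpP (zpP .add)) : Pr [] (.prod ML ML) ML).cost () ()
        (B.map (fun b => p.val () (r, (u, (q, (a, b))))), z :: acc) + 30 := by
    simp [step, mulOne]
    omega
  refine e1.trans ?_
  simp only at h1 h2
  nlinarith

theorem cost_main (p : Pr [] (.prod Un (.prod Un (.prod Po (.prod Ma Ma)))) Ma)
    (r : List Unit) {s : ℕ} (q : List F) (A B : List (List (List F))) (K : ℕ)
    (hsh : ∀ a ∈ A, ∀ b ∈ B, ShA s q.length (p.val () (r, (un s, (q, (a, b))))))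
    (hK : ∀ a ∈ A, ∀ b ∈ B, p.cost () () (r, (un s, (q, (a, b)))) ≤ K) :
    (main p).cost (F := F) () () (r, (un s, (q, (A, B)))) ≤
      ((K + (41 * s + 55) * q.length + 200) * (B.length + 1) + 27) * A.length +
        (14 * s + 40) * q.length + 14 * B.length + 33 * A.length + 200 := by
  have hz : (zP : Pr [] (.prod Un Po) Ma).val (F := F) () (un s, q) = zel s q :=
    val_zP (c := []) () s q
  have h1 := cost_zP (c := []) () () s q
  have h2 := cost_mapP_le (s := []) (c := Ma) (a := Ma) (b := Ma) .fst () () (zel s q, B) 1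
    (fun _ _ => by simp)
  have h3 := cost_revP (F := F) (s := []) (a := Ma) () () A
  have h4 := cost_foldP_le (step p) () ()
    ((((r, (un s, q)), (B, zel s q)) : Ty.D F (.prod (.prod Un (.prod Un Po)) (.prod ML Ma))),
      (B.map (fun _ => zel s q), A.reverse))
    ((K + (41 * s + 55) * q.length + 200) * (B.length + 1)) (fun _ => True) trivial
    (fun _ _ _ _ => trivial)
    (fun y a _ ha => by
      have ha' : a ∈ A := by simpa using ha
      exact cost_step p r (un s) q B (zel s q) y a K (hsh a ha') (hK a ha'))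
  simp only [List.length_reverse] at h4
  have e1 : (main p).cost (F := F) () () (r, (un s, (q, (A, B)))) ≤
      (zP : Pr [] (.prod Un Po) Ma).cost (F := F) () () (un s, q) +
      (mapP (c := Ma) (a := Ma) .fst : Pr [] (.prod Ma ML) ML).cost () () (zel s q, B) +
      (revP : Pr [] ML ML).cost () () A +
      (foldP (step p)).cost () ()
        ((((r, (un s, q)), (B, zel s q)) :
          Ty.D F (.prod (.prod Un (.prod Un Po)) (.prod ML Ma))),
        (B.map (fun _ => zel s q), A.reverse)) + 100 := by
    simp [main, hz]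
    omega
  refine e1.trans ?_
  simp only at h1 h2 h3 h4
  omega

end

end K10

/-- TARGET -/
theorem specMulP (h : SpecMMA) : SpecMulP := by
  obtain ⟨p, C0, k0, hp⟩ := h
  refine ⟨K10.main p, C0 + 600, k0, ?_⟩
  intro F _ _ r s q A B hr hr0 hs hq hA hB
  have hmu : ∀ a b, K10.ShA s q.length a → K10.ShA s q.length b →
      K10.ShA s q.length (p.val () (un r, (un s, (q, (a, b))))) := fun a b ha hb =>
    ⟨(hp F r s q a b hr hr0 hs hq ha.2 hb.2 ha.1 hb.1).2.1,
      (hp F r s q a b hr hr0 hs hq ha.2 hb.2 ha.1 hb.1).1⟩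
  have hval := K10.val_main p (un r) s q A B
  obtain ⟨h1, h2⟩ := K10.prd_spec (fun a b => p.val () (un r, (un s, (q, (a, b))))) hmu
    (K10.zel s q) (K10.shA_zel s q) B hB A hA
  intro c
  have hc : c = K10.prd (fun a b => p.val () (un r, (un s, (q, (a, b))))) (K10.zel s q) B A := hval
  refine ⟨by rw [hc]; exact h1, by rw [hc]; exact h2, ?_, ?_⟩
  · intro R _ _ τ ζ hτ hζ
    rw [hc]
    exact K10.prd_pv τ ζ _ (fun a b ha hb =>
      (hp F r s q a b hr hr0 hs hq ha.2 hb.2 ha.1 hb.1).2.2.1 R τ ζ hτ hζ) _
      (K10.av_zel τ ζ s q) B hB A hA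
  · have h3 := K10.cost_main p (un r) q A B (C0 * ql k0 (s * q.length))
      (fun a ha b hb => hmu a b (hA a ha) (hB b hb))
      (fun a ha b hb => (hp F r s q a b hr hr0 hs hq (hA a ha).2 (hB b hb).2 (hA a ha).1
        (hB b hb).1).2.2.2)
    refine h3.trans ?_
    have hQ : s * q.length + 1 ≤ ql k0 (s * q.length) := by
      unfold ql
      exact Nat.le_mul_of_pos_right _ (pow_pos (by unfold lgc; omega) _)
    generalize ql k0 (s * q.length) = Q at *
    have hsm : q.length ≤ s * q.length := Nat.le_mul_of_pos_left _ hs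
    have hB1 : (41 * s + 55) * q.length ≤ 96 * Q := by
      have : (41 * s + 55) * q.length = 41 * (s * q.length) + 55 * q.length := by ring
      omega
    have hB2 : (14 * s + 40) * q.length ≤ 54 * Q := by
      have : (14 * s + 40) * q.length = 14 * (s * q.length) + 40 * q.length := by ring
      omega
    have hQ1 : 1 ≤ Q := by omega
    generalize (41 * s + 55) * q.length = u at *
    generalize (14 * s + 40) * q.length = w at *
    generalize A.length = a at *
    generalize B.length = b at *
    have g1 : (C0 * Q + u + 200) * (b + 1) ≤ (C0 + 296) * Q * (b + 1) := by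
      apply Nat.mul_le_mul_right
      nlinarith
    have g2 : ((C0 * Q + u + 200) * (b + 1) + 27) * a ≤
        ((C0 + 296) * Q * (b + 1) + 27 * Q * (b + 1)) * a := by
      apply Nat.mul_le_mul_right
      have : 27 ≤ 27 * Q * (b + 1) := by nlinarith
      omega
    have g3 : ((C0 + 296) * Q * (b + 1) + 27 * Q * (b + 1)) * a ≤
        (C0 + 323) * (Q * ((a + 1) * (b + 1))) := by
      have : ((C0 + 296) * Q * (b + 1) + 27 * Q * (b + 1)) * a =
        (C0 + 323) * (Q * (a * (b + 1))) := by ring
      rw [this]
      gcongr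
      omega
    have g4 : (a + 1) * (b + 1) ≤ Q * ((a + 1) * (b + 1)) := Nat.le_mul_of_pos_left _ hQ1
    have g5 : Q ≤ Q * ((a + 1) * (b + 1)) := Nat.le_mul_of_pos_right _ (by positivity)
    have g6 : a + b + 1 ≤ (a + 1) * (b + 1) := by nlinarith
    have g7 : (C0 + 600) * ((a + 1) * (b + 1) * Q) = (C0 + 600) * (Q * ((a + 1) * (b + 1))) := by
      ring
    rw [g7]
    generalize Q * ((a + 1) * (b + 1)) = Y at *
    nlinarith
end Pool.Agent.H330AB.JK10
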