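import Pool.Agent.H330AB.SpecB2
set_option autoImplicit false
noncomputable section
namespace Pool.Agent.H330AB.JK11
open Polynomial Pool.Agent.H330FB
/-! ### functions on lists -/

theorem mem_zW {α β γ : Type} (f : α → β → γ) : ∀ (a : List α) (b : List β) (e : γ),
    e ∈ List.zipWith f a b → ∃ x ∈ a, ∃ y ∈ b, e = f x y
  | [], _, e, h => by simp at h
  | _ :: _, [], e, h => by simp at h
  | x :: a, y :: b, e, h => by
    simp only [List.zipWith_cons_cons, List.mem_cons] at h
    rcases h with h | h
    · exact ⟨x, by simp, y, by simp, h⟩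
    · obtain ⟨x', h1, y', h2, h3⟩ := mem_zW f a b e h
      exact ⟨x', by simp [h1], y', by simp [h2], h3⟩

/-- subtraction of rows -/
def dsR {F : Type} [Field F] (a b : List F) : List F := List.zipWith (fun y z => y + -z) a b

/-- subtraction of matrices -/
def dsE {F : Type} [Field F] (a b : List (List F)) : List (List F) := List.zipWith dsR a b

/-- the shape of an element -/
def DS {F : Type} (s m : ℕ) (a : List (List F)) : Prop := a.length = m ∧ Sh s a

theorem dsR_length {F : Type} [Field F] {s : ℕ} {a b : List F} (ha : a.length = s) (hb : b.length = s) :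
    (dsR a b).length = s := by
  unfold dsR
  simp [ha, hb]

theorem dsE_shape {F : Type} [Field F] {s m : ℕ} {a b : List (List F)} (ha : DS s m a)
    (hb : DS s m b) : DS s m (dsE a b) := by
  refine ⟨?_, ?_⟩
  · unfold dsE
    simp [ha.1, hb.1]
  · intro r hr
    unfold dsE at hr
    obtain ⟨x, hx, y, hy, rfl⟩ := mem_zW _ _ _ _ hr
    exact dsR_length (ha.2 x hx) (hb.2 y hy)

theorem pol_dsR {F : Type} [Field F] : ∀ (a b : List F), a.length = b.length →
    pol (dsR a b) = pol a - pol b
  | [], [], _ => by simp [dsR, pol]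
  | x :: a, y :: b, h => by
    have ih := pol_dsR a b (by simpa using h)
    unfold dsR at ih ⊢
    simp only [List.zipWith_cons_cons, pol, ih, map_add, map_neg]
    ring
  | [], _ :: _, h => by simp at h
  | _ :: _, [], h => by simp at h

theorem rp_dsE {F R : Type} [Field F] [CommRing R] [Algebra F R] (τ : R) {s : ℕ} :
    ∀ (a b : List (List F)), a.length = b.length → Sh s a → Sh s b →
    rp τ (dsE a b) = rp τ a - rp τ b
  | [], [], _, _, _ => by simp [dsE, rp, pol]
  | x :: a, y :: b, h, ha, hb => by
    have ih := rp_dsE τ a b (by simpa using h) (fun r hr => ha r (List.mem_cons_of_mem _ hr))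
      (fun r hr => hb r (List.mem_cons_of_mem _ hr))
    have h1 := pol_dsR x y ((ha x (by simp)).trans (hb y (by simp)).symm)
    unfold dsE rp at ih ⊢
    simp only [List.zipWith_cons_cons, List.map_cons, pol, ih, h1, map_sub]
    ring
  | [], _ :: _, h, _, _ => by simp at h
  | _ :: _, [], h, _, _ => by simp at h

theorem av_dsE {F R : Type} [Field F] [CommRing R] [Algebra F R] (τ ζ : R) {s m : ℕ}
    {a b : List (List F)} (ha : DS s m a) (hb : DS s m b) :
    av τ ζ (dsE a b) = av τ ζ a - av τ ζ b := by
  unfold av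
  rw [rp_dsE τ a b (ha.1.trans hb.1.symm) ha.2 hb.2, eval_sub]

/-- one step of the division; `g` multiplies -/
def dstep {F : Type} [Field F] (g : List (List F) → List (List F) → List (List F))
    (Gr : List (List (List F))) (st : List (List (List F)) × List (List (List F)))
    (a : List (List F)) : List (List (List F)) × List (List (List F)) :=
  lcase (st.2 ++ [a]) st (fun h t => (h :: st.1, List.zipWith (fun x y => dsE x (g h y)) t Gr))

/-- the zero element -/
def dz (F : Type) [Field F] (s m : ℕ) : List (List F) := List.replicate m (List.replicate s (0 : F))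

/-- the division -/
def dv {F : Type} [Field F] (g : List (List F) → List (List F) → List (List F)) (s m : ℕ)
    (A G : List (List (List F))) : List (List (List F)) × List (List (List F)) :=
  let st := List.foldl (dstep g G.reverse)
    ([], (fit G.length (dz F s m) (A.drop (A.length - G.length))).reverse)
    (A.take (A.length - G.length)).reverse
  (st.1, st.2.reverse)

theorem dz_shape (F : Type) [Field F] (s m : ℕ) : DS s m (dz F s m) := by
  refine ⟨by simp [dz], ?_⟩
  intro r hr
  unfold dz at hr
  rw [List.mem_replicate] at hr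
  rw [hr.2]; simp

theorem pol_rep {F : Type} [Field F] (s : ℕ) : pol (List.replicate s (0 : F)) = 0 := by
  induction s with
  | zero => rfl
  | succ s ih => rw [List.replicate_succ, pol, ih]; simp

theorem av_dz {F R : Type} [Field F] [CommRing R] [Algebra F R] (τ ζ : R) (s m : ℕ) :
    av τ ζ (dz F s m) = 0 := by
  have : rp τ (dz F s m) = 0 := by
    unfold rp dz
    induction m with
    | zero => rfl
    | succ m ih =>
      rw [List.replicate_succ, List.map_cons, pol, ih, pol_rep]; simp
  unfold av
  rw [this, eval_zero]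

theorem fit_mem {α : Type} {P : α → Prop} (z : α) (hz : P z) : ∀ (n : ℕ) (l : List α), (∀ x ∈ l, P x) →
    ∀ x ∈ fit n z l, P x
  | 0, l, _ => by simp [fit]
  | n + 1, [], hl => by
    intro x hx
    simp only [fit, List.mem_cons] at hx
    rcases hx with rfl | hx
    · exact hz
    · exact fit_mem z hz n [] hl x hx
  | n + 1, y :: l, hl => by
    intro x hx
    simp only [fit, List.mem_cons] at hx
    rcases hx with rfl | hx
    · exact hl _ (by simp)
    · exact fit_mem z hz n l (fun x hx => hl x (by simp [hx])) x hx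

theorem pol_map_fit {α R : Type} [CommRing R] (f : α → R) (z : α) (hz : f z = 0) :
    ∀ (n : ℕ) (l : List α), l.length ≤ n → pol ((fit n z l).map f) = pol (l.map f)
  | 0, l, h => by
    have : l = [] := List.length_eq_zero_iff.1 (by omega)
    subst this; simp [fit]
  | n + 1, [], _ => by
    have ih := pol_map_fit f z hz n [] (by simp)
    simp only [fit, List.map_cons, pol, ih, List.map_nil, hz]
    simp
  | n + 1, y :: l, h => by
    have ih := pol_map_fit f z hz n l (by simpa using h)
    simp only [fit, List.map_cons, pol, ih]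

theorem pol_append_one {R : Type} [CommRing R] (x : R) : ∀ l : List R,
    pol (l ++ [x]) = pol l + C x * X ^ l.length
  | [] => by simp [pol]
  | y :: l => by
    have ih := pol_append_one x l
    simp only [List.cons_append, pol, ih, List.length_cons, pow_succ]
    ring

/-- the invariant -/
theorem dstep_inv {F : Type} [Field F] {s m : ℕ} {g : List (List F) → List (List F) → List (List F)}
    (hg : ∀ a b, DS s m a → DS s m b → DS s m (g a b)) {G : List (List (List F))}
    (hG : ∀ e ∈ G, DS s m e) {st : List (List (List F)) × List (List (List F))}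
    (h1 : ∀ e ∈ st.1, DS s m e) (h2 : ∀ e ∈ st.2, DS s m e) (h3 : st.2.length = G.length)
    {a : List (List F)} (ha : DS s m a) :
    (∀ e ∈ (dstep g G.reverse st a).1, DS s m e) ∧ (∀ e ∈ (dstep g G.reverse st a).2, DS s m e) ∧
      (dstep g G.reverse st a).2.length = G.length ∧
      (dstep g G.reverse st a).1.length = st.1.length + 1 ∧
      ∀ (R : Type) [CommRing R] [Algebra F R] (τ ζ : R),
        (∀ a b, DS s m a → DS s m b → av τ ζ (g a b) = av τ ζ a * av τ ζ b) →
        pv τ ζ (dstep g G.reverse st a).1 * mpv τ ζ G + pv τ ζ (dstep g G.reverse st a).2.reverse =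
          C (av τ ζ a) + X * (pv τ ζ st.1 * mpv τ ζ G + pv τ ζ st.2.reverse) := by
  have hne : st.2 ++ [a] ≠ [] := by simp
  obtain ⟨h, t, ht⟩ := List.exists_cons_of_ne_nil hne
  have hlen : t.length = G.length := by
    have := congrArg List.length ht
    simp only [List.length_append, List.length_cons, List.length_nil] at this
    omega
  have hall : ∀ e ∈ h :: t, DS s m e := by
    intro e he
    rw [← ht] at he
    rcases List.mem_append.1 he with he | he
    · exact h2 e he
    · rw [List.mem_singleton.1 he]; exact ha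
  have hh := hall h (by simp)
  have ht' : ∀ e ∈ t, DS s m e := fun e he => hall e (by simp [he])
  have hGr : ∀ e ∈ G.reverse, DS s m e := fun e he => hG e (by simpa using he)
  have e0 : dstep g G.reverse st a = (h :: st.1, List.zipWith (fun x y => dsE x (g h y)) t G.reverse) := by
    unfold dstep
    rw [ht, lcase_cons]
  rw [e0]
  refine ⟨?_, ?_, ?_, ?_, ?_⟩
  · intro e he
    rcases List.mem_cons.1 he with rfl | he
    · exact hh
    · exact h1 e he
  · intro e he
    simp only at he
    obtain ⟨x, hx, y, hy, rfl⟩ := mem_zW _ _ _ _ he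
    exact dsE_shape (ht' x hx) (hg _ _ hh (hGr y hy))
  · simp [hlen]
  · simp
  · intro R _ _ τ ζ hm
    simp only
    have e1 : (List.zipWith (fun x y => dsE x (g h y)) t G.reverse).reverse =
        List.zipWith (fun x y => dsE x (g h y)) t.reverse G := by
      rw [List.reverse_zipWith (by simp [hlen]), List.reverse_reverse]
    have e2 : ∀ (u v : List (List (List F))), u.length = v.length → (∀ e ∈ u, DS s m e) →
        (∀ e ∈ v, DS s m e) → pv τ ζ (List.zipWith (fun x y => dsE x (g h y)) u v) =
          pv τ ζ u - C (av τ ζ h) * pv τ ζ v := by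
      intro u
      induction u with
      | nil =>
        intro v hv _ _
        have : v = [] := List.length_eq_zero_iff.1 (by simpa using hv.symm)
        subst this
        simp [pv, pol]
      | cons x u ih =>
        intro v hv hu hv'
        cases v with
        | nil => simp at hv
        | cons y v =>
          have ih' := ih v (by simpa using hv) (fun e he => hu e (by simp [he]))
            (fun e he => hv' e (by simp [he]))
          unfold pv at ih' ⊢
          simp only [List.zipWith_cons_cons, List.map_cons, pol, ih']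
          rw [av_dsE τ ζ (hu x (by simp)) (hg _ _ hh (hv' y (by simp))), hm _ _ hh (hv' y (by simp)),
            map_sub, map_mul]
          ring
    rw [e1, e2 t.reverse G (by simp [hlen]) (fun e he => ht' e (by simpa using he)) hG]
    have e3 : a :: st.2.reverse = t.reverse ++ [h] := by
      have := congrArg List.reverse ht
      simpa using this
    have e4 : C (av τ ζ a) + X * pv τ ζ st.2.reverse =
        pv τ ζ t.reverse + C (av τ ζ h) * X ^ G.length := by
      have h5 := congrArg (pv τ ζ) e3
      have h6 : pv τ ζ (a :: st.2.reverse) = C (av τ ζ a) + X * pv τ ζ st.2.reverse := rfl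
      have h7 : pv τ ζ (t.reverse ++ [h]) = pv τ ζ t.reverse + C (av τ ζ h) * X ^ G.length := by
        unfold pv
        rw [List.map_append, List.map_cons, List.map_nil, pol_append_one, List.length_map,
          List.length_reverse, hlen]
      rw [← h6, h5, h7]
    have e5 : pv τ ζ (h :: st.1) = C (av τ ζ h) + X * pv τ ζ st.1 := rfl
    rw [e5]
    unfold mpv
    linear_combination -e4


/-- the invariant for the whole fold -/
theorem dfold_inv {F : Type} [Field F] {s m : ℕ} {g : List (List F) → List (List F) → List (List F)}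
    (hg : ∀ a b, DS s m a → DS s m b → DS s m (g a b)) {G top : List (List (List F))}
    (hG : ∀ e ∈ G, DS s m e) {R0 : List (List (List F))} (h2 : ∀ e ∈ R0, DS s m e)
    (h3 : R0.length = G.length)
    (h4 : ∀ (R : Type) [CommRing R] [Algebra F R] (τ ζ : R), pv τ ζ R0.reverse = pv τ ζ top) :
    ∀ l : List (List (List F)), (∀ e ∈ l, DS s m e) →
      (∀ e ∈ (List.foldl (dstep g G.reverse) ([], R0) l.reverse).1, DS s m e) ∧
      (∀ e ∈ (List.foldl (dstep g G.reverse) ([], R0) l.reverse).2, DS s m e) ∧
      (List.foldl (dstep g G.reverse) ([], R0) l.reverse).2.length = G.length ∧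
      (List.foldl (dstep g G.reverse) ([], R0) l.reverse).1.length = l.length ∧
      ∀ (R : Type) [CommRing R] [Algebra F R] (τ ζ : R),
        (∀ a b, DS s m a → DS s m b → av τ ζ (g a b) = av τ ζ a * av τ ζ b) →
        pv τ ζ (List.foldl (dstep g G.reverse) ([], R0) l.reverse).1 * mpv τ ζ G +
          pv τ ζ (List.foldl (dstep g G.reverse) ([], R0) l.reverse).2.reverse =
          pv τ ζ (l ++ top)
  | [], _ => by
    refine ⟨by simp, by simpa using h2, by simpa using h3, by simp, ?_⟩
    intro R _ _ τ ζ _
    have := h4 R τ ζ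
    simp only [List.reverse_nil, List.foldl_nil, List.nil_append, this]
    have h5 : pv τ ζ ([] : List (List (List F))) = 0 := rfl
    rw [h5]; ring
  | a :: l, hl => by
    obtain ⟨i1, i2, i3, i4, i5⟩ := dfold_inv hg hG h2 h3 h4 l (fun e he => hl e (by simp [he]))
    obtain ⟨j1, j2, j3, j4, j5⟩ := dstep_inv hg hG i1 i2 i3 (hl a (by simp))
    have e0 : List.foldl (dstep g G.reverse) ([], R0) (a :: l).reverse =
        dstep g G.reverse (List.foldl (dstep g G.reverse) ([], R0) l.reverse) a := by
      rw [List.reverse_cons, List.foldl_append]; rfl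
    rw [e0]
    refine ⟨j1, j2, j3, by rw [j4, i4]; simp, ?_⟩
    intro R _ _ τ ζ hm
    rw [j5 R τ ζ hm, i5 R τ ζ hm]
    rfl

/-- correctness -/
theorem dv_spec {F : Type} [Field F] {s m : ℕ} {g : List (List F) → List (List F) → List (List F)}
    (hg : ∀ a b, DS s m a → DS s m b → DS s m (g a b)) {A G : List (List (List F))}
    (hA : ∀ e ∈ A, DS s m e) (hG : ∀ e ∈ G, DS s m e) :
    (∀ e ∈ (dv g s m A G).1, DS s m e) ∧ (dv g s m A G).1.length = A.length - G.length ∧
    (∀ e ∈ (dv g s m A G).2, DS s m e) ∧ (dv g s m A G).2.length = G.length ∧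
      ∀ (R : Type) [CommRing R] [Algebra F R] (τ ζ : R),
        (∀ a b, DS s m a → DS s m b → av τ ζ (g a b) = av τ ζ a * av τ ζ b) →
        pv τ ζ A = pv τ ζ (dv g s m A G).1 * mpv τ ζ G + pv τ ζ (dv g s m A G).2 := by
  have hl : (A.drop (A.length - G.length)).length ≤ G.length := by
    rw [List.length_drop]; omega
  obtain ⟨i1, i2, i3, i4, i5⟩ := dfold_inv (s := s) (m := m) hg (G := G)
    (top := A.drop (A.length - G.length)) hG
    (R0 := (fit G.length (dz F s m) (A.drop (A.length - G.length))).reverse)
    (fun e he => fit_mem (P := DS s m) _ (dz_shape F s m) _ _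
      (fun x hx => hA x (List.mem_of_mem_drop hx)) e (by simpa using he))
    (by simp) (by
      intro R _ _ τ ζ
      rw [List.reverse_reverse]
      unfold pv
      exact pol_map_fit _ _ (av_dz τ ζ s m) _ _ hl)
    (A.take (A.length - G.length)) (fun e he => hA e (List.mem_of_mem_take he))
  refine ⟨i1, ?_, fun e he => i2 e (by simpa [dv] using he), by simpa [dv] using i3, ?_⟩
  · have : (dv g s m A G).1.length = (A.take (A.length - G.length)).length := i4
    rw [this, List.length_take]
    omega
  · intro R _ _ τ ζ hm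
    have := i5 R τ ζ hm
    rw [List.take_append_drop] at this
    exact this.symm

/-! ### the programs -/

section progs
variable {s : List (Ty × Ty)}

/-- subtraction of rows -/
def dsRP : Pr s (.prod Po Po) Po :=
  .comp (.pair .star .id) (zipP (c := .unit)
    (.comp (.pair (.comp .snd .fst) (.comp (.comp .snd .snd) .neg)) .add))

/-- subtraction of elements -/
def dsEP : Pr s (.prod Ma Ma) Ma :=
  .comp (.pair .star .id) (zipP (c := .unit) (.comp .snd dsRP))

variable {F : Type} [Field F] [DecidableEq F]

@[simp] theorem val_dsRP (v : SV F s) (x : Ty.D F (.prod Po Po)) :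
    (dsRP : Pr s (.prod Po Po) Po).val v x = dsR x.1 x.2 := by
  simp [dsRP, dsR]

theorem cost_dsRP (v : SV F s) (k : SC F s) (x : Ty.D F (.prod Po Po)) :
    (dsRP : Pr s (.prod Po Po) Po).cost v k x ≤ 60 * List.length x.1 + 20 := by
  have h := cost_zipP_le (s := s) (c := .unit) (a := .fld) (b := .fld) (d := .fld)
    (.comp (.pair (.comp .snd .fst) (.comp (.comp .snd .snd) .neg)) .add) v k ((), x) 7
    (fun _ _ _ _ => by simp)
  simp [dsRP] at h ⊢
  omega

@[simp] theorem val_dsEP (v : SV F s) (x : Ty.D F (.prod Ma Ma)) :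
    (dsEP : Pr s (.prod Ma Ma) Ma).val v x = dsE x.1 x.2 := by
  simp [dsEP, dsE]

theorem cost_dsEP (v : SV F s) (k : SC F s) (x : Ty.D F (.prod Ma Ma)) (n : ℕ)
    (hn : ∀ y ∈ x.1, List.length y ≤ n) :
    (dsEP : Pr s (.prod Ma Ma) Ma).cost v k x ≤ (60 * n + 80) * List.length x.1 + 20 := by
  have h := cost_zipP_le (s := s) (c := .unit) (a := Po) (b := Po) (d := Po)
    (.comp .snd dsRP) v k ((), x) (60 * n + 21)
    (fun y hy z hz => by
      have h1 := cost_dsRP (s := s) v k (y, z)
      have h2 := hn y hy
      simp at h1 ⊢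
      omega)
  simp [dsEP] at h ⊢
  nlinarith

/-- the context: `(r, (s, q))` -/
abbrev DC : Ty := .prod Un (.prod Un Po)

/-- one entry: input `((h, context), (x, y))` -/
def dentP (p : Pr [] (.prod Un (.prod Un (.prod Po (.prod Ma Ma)))) Ma) :
    Pr s (.prod (.prod Ma DC) (.prod Ma Ma)) Ma :=
  .comp (.pair (.comp .snd .fst)
    (.comp (.pair (.comp (.comp .fst .snd) .fst) (.pair (.comp (.comp (.comp .fst .snd) .snd) .fst)
      (.pair (.comp (.comp (.comp .fst .snd) .snd) .snd) (.pair (.comp .fst .fst) (.comp .snd .snd)))))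
      (liftP _ p))) dsEP

@[simp] theorem val_dentP (p : Pr [] (.prod Un (.prod Un (.prod Po (.prod Ma Ma)))) Ma) (v : SV F s)
    (x : Ty.D F (.prod (.prod Ma DC) (.prod Ma Ma))) :
    (dentP p : Pr s (.prod (.prod Ma DC) (.prod Ma Ma)) Ma).val v x =
      dsE x.2.1 (p.val () (x.1.2.1, (x.1.2.2.1, (x.1.2.2.2, (x.1.1, x.2.2))))) := by
  simp [dentP]

theorem cost_dentP (p : Pr [] (.prod Un (.prod Un (.prod Po (.prod Ma Ma)))) Ma) (v : SV F s)
    (k : SC F s) (x : Ty.D F (.prod (.prod Ma DC) (.prod Ma Ma))) (n : ℕ)
    (hn : ∀ y ∈ x.2.1, List.length y ≤ n) :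
    (dentP p : Pr s (.prod (.prod Ma DC) (.prod Ma Ma)) Ma).cost v k x ≤
      p.cost () () (x.1.2.1, (x.1.2.2.1, (x.1.2.2.2, (x.1.1, x.2.2)))) +
        (60 * n + 80) * List.length x.2.1 + 60 := by
  have h := cost_dsEP (s := s) v k
    (x.2.1, p.val () (x.1.2.1, (x.1.2.2.1, (x.1.2.2.2, (x.1.1, x.2.2))))) n hn
  simp [dentP] at h ⊢
  omega

/-- one step: input `((context, reversed G), ((Q, R), a))` -/
def dstepP (p : Pr [] (.prod Un (.prod Un (.prod Po (.prod Ma Ma)))) Ma) :
    Pr s (.prod (.prod DC ML) (.prod (.prod ML ML) Ma)) (.prod ML ML) :=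
  onL (.comp (.pair (.comp (.comp .snd .fst) .snd) (.comp (.pair (.comp .snd .snd) .nil) .cons)) appP)
    (.comp .snd .fst)
    (.pair (.comp (.pair (.comp .snd .fst) (.comp (.comp (.comp .fst .snd) .fst) .fst)) .cons)
      (.comp (.pair (.pair (.comp .snd .fst) (.comp (.comp .fst .fst) .fst))
        (.pair (.comp .snd .snd) (.comp (.comp .fst .fst) .snd))) (zipP (dentP p))))

@[simp] theorem val_dstepP (p : Pr [] (.prod Un (.prod Un (.prod Po (.prod Ma Ma)))) Ma) (v : SV F s)
    (x : Ty.D F (.prod (.prod DC ML) (.prod (.prod ML ML) Ma))) :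
    (dstepP p : Pr s (.prod (.prod DC ML) (.prod (.prod ML ML) Ma)) (.prod ML ML)).val v x =
      dstep (fun a b => p.val () (x.1.1.1, (x.1.1.2.1, (x.1.1.2.2, (a, b))))) x.1.2 x.2.1 x.2.2 := by
  simp [dstepP, dstep]

theorem cost_dstepP (p : Pr [] (.prod Un (.prod Un (.prod Po (.prod Ma Ma)))) Ma) (v : SV F s)
    (k : SC F s) (x : Ty.D F (.prod (.prod DC ML) (.prod (.prod ML ML) Ma))) (B : ℕ)
    (hB : ∀ h t, (x.2.1.2 ++ [x.2.2] : List (List (List F))) = h :: t → ∀ y ∈ t, ∀ z ∈ x.1.2,
      (dentP p : Pr s (.prod (.prod Ma DC) (.prod Ma Ma)) Ma).cost v k ((h, x.1.1), (y, z)) ≤ B) :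
    (dstepP p : Pr s (.prod (.prod DC ML) (.prod (.prod ML ML) Ma)) (.prod ML ML)).cost v k x ≤
      (B + 70) * List.length x.2.1.2 + 80 := by
  obtain ⟨⟨ctx, Gr⟩, ⟨⟨Q, Rr⟩, a⟩⟩ := x
  have ha := cost_appP (s := s) v k (Rr, [a])
  have hne : (Rr ++ [a] : List (List (List F))) ≠ [] := by simp
  obtain ⟨h, t, ht⟩ := List.exists_cons_of_ne_nil hne
  have hlen : t.length = Rr.length := by
    have := congrArg List.length ht
    simp only [List.length_append, List.length_cons, List.length_nil] at this
    omega
  have hz := cost_zipP_le (s := s) (c := .prod Ma DC) (a := Ma) (b := Ma) (d := Ma) (dentP p) v k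
    ((h, ctx), (t, Gr)) B (fun y hy z hz => hB h t ht y hy z hz)
  unfold dstepP
  rw [cost_onL]
  simp only [cost_comp, cost_pair, cost_fst, cost_snd, cost_cons, cost_nil, val_comp, val_pair, val_fst,
    val_snd, val_cons, val_nil, val_appP]
  rw [ht, lcase_cons]
  rw [hlen] at hz
  simp only at ha hz ⊢
  nlinarith

/-- split: input `(r, (s, (q, (A, G))))` -/
def dspP : Pr s (.prod Un (.prod Un (.prod Po (.prod ML ML)))) (.prod ML ML) :=
  .comp (.pair (.comp (.comp (.pair (.comp (.comp (.comp .snd .snd) .snd) .snd)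
    (.comp (.comp (.comp .snd .snd) .snd) .fst)) splitP) .snd)
    (.comp (.comp (.comp .snd .snd) .snd) .fst)) splitP

@[simp] theorem val_dspP (v : SV F s) (x : Ty.D F (.prod Un (.prod Un (.prod Po (.prod ML ML))))) :
    (dspP : Pr s (.prod Un (.prod Un (.prod Po (.prod ML ML)))) (.prod ML ML)).val v x =
      (List.take (List.length x.2.2.2.1 - List.length x.2.2.2.2) x.2.2.2.1,
        List.drop (List.length x.2.2.2.1 - List.length x.2.2.2.2) x.2.2.2.1) := by
  simp [dspP]

theorem cost_dspP (v : SV F s) (k : SC F s)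
    (x : Ty.D F (.prod Un (.prod Un (.prod Po (.prod ML ML))))) :
    (dspP : Pr s (.prod Un (.prod Un (.prod Po (.prod ML ML)))) (.prod ML ML)).cost v k x ≤
      24 * (List.length x.2.2.2.1 + List.length x.2.2.2.2) + 60 := by
  obtain ⟨ur, us, q, A, G⟩ := x
  have h1 := cost_splitP (s := s) v k (G, A)
  have h2 := cost_splitP (s := s) v k (List.drop (List.length G) A, A)
  have h3 : (List.drop (List.length G) A).length ≤ A.length := by rw [List.length_drop]; omega
  simp [dspP] at h1 h2 h3 ⊢
  omega

/-- the zero element: input `(r, (s, (q, (A, G))))` -/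
def dzP : Pr s (.prod Un (.prod Un (.prod Po (.prod ML ML)))) Ma :=
  .comp (.pair (.comp (.pair .star (.comp .snd .fst)) (mapP (c := .unit) .zero))
    (.comp (.comp .snd .snd) .fst)) (mapP .fst)

theorem val_dzP (v : SV F s) (x : Ty.D F (.prod Un (.prod Un (.prod Po (.prod ML ML))))) :
    (dzP : Pr s (.prod Un (.prod Un (.prod Po (.prod ML ML)))) Ma).val v x =
      dz F (List.length x.2.1) (List.length x.2.2.1) := by
  simp [dzP, dz, List.map_const']

theorem cost_dzP (v : SV F s) (k : SC F s)
    (x : Ty.D F (.prod Un (.prod Un (.prod Po (.prod ML ML))))) :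
    (dzP : Pr s (.prod Un (.prod Un (.prod Po (.prod ML ML)))) Ma).cost v k x ≤
      14 * (List.length x.2.1 + List.length x.2.2.1) + 30 := by
  obtain ⟨ur, us, q, A, G⟩ := x
  have h1 := cost_mapP_le (s := s) (c := .unit) (a := .unit) (b := .fld) .zero v k ((), us) 1
    (fun _ _ => by simp)
  have h2 := cost_mapP_le (s := s) (c := Po) (a := .fld) (b := Po) .fst v k
    (List.map (fun _ => (0 : F)) us, q) 1 (fun _ _ => by simp)
  simp [dzP] at h1 h2 ⊢
  omega

/-- the core of the division: input `(r, (s, (q, (A, G))))` -/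
def dcoreP (p : Pr [] (.prod Un (.prod Un (.prod Po (.prod Ma Ma)))) Ma) :
    Pr s (.prod Un (.prod Un (.prod Po (.prod ML ML)))) (.prod ML ML) :=
  lt dspP
    (.comp
      (.pair
        (.pair (.pair (.comp .fst .fst) (.pair (.comp (.comp .fst .snd) .fst)
          (.comp (.comp (.comp .fst .snd) .snd) .fst)))
          (.comp (.comp (.comp (.comp (.comp .fst .snd) .snd) .snd) .snd) revP))
        (.pair
          (.pair .nil (.comp (.comp (.pair (.comp (.comp (.comp (.comp .fst .snd) .snd) .snd) .snd)
            (.pair (.comp .fst dzP) (.comp .snd .snd))) fitP) revP))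
          (.comp (.comp .snd .fst) revP)))
      (foldP (dstepP p)))

/-- the division: input `(r, (s, (q, (A, G))))` -/
def ddivP (p : Pr [] (.prod Un (.prod Un (.prod Po (.prod Ma Ma)))) Ma) :
    Pr s (.prod Un (.prod Un (.prod Po (.prod ML ML)))) (.prod ML ML) :=
  .comp (dcoreP p) (.pair .fst (.comp .snd revP))

theorem val_dcoreP (p : Pr [] (.prod Un (.prod Un (.prod Po (.prod Ma Ma)))) Ma) (v : SV F s)
    (x : Ty.D F (.prod Un (.prod Un (.prod Po (.prod ML ML))))) :
    (dcoreP p : Pr s (.prod Un (.prod Un (.prod Po (.prod ML ML)))) (.prod ML ML)).val v x =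
      List.foldl (dstep (fun a b => p.val () (x.1, (x.2.1, (x.2.2.1, (a, b))))) (List.reverse x.2.2.2.2))
        ([], (fit (List.length x.2.2.2.2) (dz F (List.length x.2.1) (List.length x.2.2.1))
          (List.drop (List.length x.2.2.2.1 - List.length x.2.2.2.2) x.2.2.2.1)).reverse)
        (List.take (List.length x.2.2.2.1 - List.length x.2.2.2.2) x.2.2.2.1).reverse := by
  obtain ⟨ur, us, q, A, G⟩ := x
  unfold dcoreP
  simp only [val_lt, val_comp, val_pair, val_fst, val_snd, val_nil, val_revP, val_fitP, val_dzP,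
    val_dspP, val_foldP, val_dstepP]

theorem val_ddivP (p : Pr [] (.prod Un (.prod Un (.prod Po (.prod Ma Ma)))) Ma) (v : SV F s)
    (x : Ty.D F (.prod Un (.prod Un (.prod Po (.prod ML ML))))) :
    (ddivP p : Pr s (.prod Un (.prod Un (.prod Po (.prod ML ML)))) (.prod ML ML)).val v x =
      dv (fun a b => p.val () (x.1, (x.2.1, (x.2.2.1, (a, b))))) (List.length x.2.1)
        (List.length x.2.2.1) x.2.2.2.1 x.2.2.2.2 := by
  unfold ddivP
  rw [val_comp, val_dcoreP]
  simp only [val_pair, val_fst, val_comp, val_snd, val_revP]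
  rfl

theorem cost_ddivP (p : Pr [] (.prod Un (.prod Un (.prod Po (.prod Ma Ma)))) Ma) (v : SV F s)
    (k : SC F s) (ur us : List Unit) (q : List F) (A G : List (List (List F))) (sz m : ℕ) (B : ℕ)
    (hm : q.length = m) (hus : us.length = sz)
    (hg : ∀ a b, DS sz m a → DS sz m b → DS sz m (p.val () (ur, (us, (q, (a, b))))))
    (hB : ∀ a b, DS sz m a → DS sz m b → p.cost () () (ur, (us, (q, (a, b)))) ≤ B)
    (hA : ∀ e ∈ A, DS sz m e) (hG : ∀ e ∈ G, DS sz m e) :
    (ddivP p : Pr s (.prod Un (.prod Un (.prod Po (.prod ML ML)))) (.prod ML ML)).cost v k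
      (ur, (us, (q, (A, G)))) ≤
      ((B + (60 * sz + 80) * m + 130) * G.length + 107) * A.length +
        (14 * (sz + m) + 150 * (A.length + G.length) + 450) := by
  have hR : ∀ e ∈ (fit G.length (dz F us.length q.length)
      (List.drop (A.length - G.length) A)).reverse, DS sz m e := by
    intro e he
    refine fit_mem (P := DS sz m) (dz F us.length q.length) ?_ G.length
      (List.drop (A.length - G.length) A) (fun x hx => hA x (List.mem_of_mem_drop hx)) e
      (List.mem_reverse.1 he)
    rw [hus, hm]; exact dz_shape F sz m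
  have c1 := cost_dspP (s := s) v k (ur, (us, (q, (A, G))))
  have c2 := cost_dzP (s := s) v k (ur, (us, (q, (A, G))))
  have c3 := cost_revP (s := s) (a := Ma) v k G
  have c4 := cost_fitP (s := s) (b := Ma) (a := Ma) v k
    (G, (dz F us.length q.length, List.drop (A.length - G.length) A))
  have c5 := cost_revP (s := s) (a := Ma) v k
    (fit G.length (dz F us.length q.length) (List.drop (A.length - G.length) A))
  have c6 := cost_revP (s := s) (a := Ma) v k (List.take (A.length - G.length) A)
  have c7 := cost_foldP_le (s := s) (c := .prod DC ML) (b := .prod ML ML) (a := Ma) (dstepP p) v k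
    (((ur, (us, q)), G.reverse),
      (([], (fit G.length (dz F us.length q.length) (List.drop (A.length - G.length) A)).reverse),
        (List.take (A.length - G.length) A).reverse))
    ((B + (60 * sz + 80) * m + 60 + 70) * G.length + 80)
    (fun st => (∀ e ∈ st.1, DS sz m e) ∧ (∀ e ∈ st.2, DS sz m e) ∧ st.2.length = G.length)
    ⟨by simp, hR, by simp⟩
    (by
      rintro st z ⟨i1, i2, i3⟩ hz
      have hz' : DS sz m z := hA z (List.mem_of_mem_take (by simpa using hz))
      rw [val_dstepP]
      obtain ⟨j1, j2, j3, -⟩ := dstep_inv (g := fun a b => p.val () (ur, (us, (q, (a, b))))) hg hG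
        i1 i2 i3 hz'
      exact ⟨j1, j2, j3⟩)
    (by
      rintro st z ⟨i1, i2, i3⟩ hz
      have hz' : DS sz m z := hA z (List.mem_of_mem_take (by simpa using hz))
      have h1 := cost_dstepP p v k (((ur, (us, q)), G.reverse), (st, z)) (B + (60 * sz + 80) * m + 60)
        (by
          intro h t ht y hy w hw
          have hall : ∀ e ∈ h :: t, DS sz m e := by
            intro e he
            rw [← ht] at he
            rcases List.mem_append.1 he with he | he
            · exact i2 e he
            · rw [List.mem_singleton.1 he]; exact hz'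
          have hh := hall h (by simp)
          have hy' := hall y (by simp [hy])
          have hw' : DS sz m w := hG w (by simpa using hw)
          have h2 := cost_dentP p v k ((h, (ur, (us, q))), (y, w)) sz
            (fun r hr => (hy'.2 r hr).le)
          have h3 := hB h w hh hw'
          have h4 : (dentP p : Pr s (.prod (.prod Ma DC) (.prod Ma Ma)) Ma).cost v k
              ((h, (ur, (us, q))), (y, w)) ≤ B + (60 * sz + 80) * m + 60 := by
            have h5 : (dentP p : Pr s (.prod (.prod Ma DC) (.prod Ma Ma)) Ma).cost v k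
              ((h, (ur, (us, q))), (y, w)) ≤ p.cost () () (ur, (us, (q, (h, w)))) +
                (60 * sz + 80) * y.length + 60 := h2
            rw [hy'.1] at h5
            omega
          exact h4)
      have h5 : (dstepP p : Pr s (.prod (.prod DC ML) (.prod (.prod ML ML) Ma)) (.prod ML ML)).cost v k
          (((ur, (us, q)), G.reverse), (st, z)) ≤
          (B + (60 * sz + 80) * m + 60 + 70) * List.length st.2 + 80 := h1
      rw [i3] at h5
      exact h5)
  have c8 := cost_revP (s := s) (a := Ma) v k
    ((dcoreP p).val v ((ur, (us, (q, (A, G)))) : Ty.D F (.prod Un (.prod Un (.prod Po (.prod ML ML)))))).2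
  have c9 : List.length ((dcoreP p).val v
      ((ur, (us, (q, (A, G)))) : Ty.D F (.prod Un (.prod Un (.prod Po (.prod ML ML)))))).2 =
      G.length := by
    rw [val_dcoreP]
    exact (dfold_inv (g := fun a b => p.val () (ur, (us, (q, (a, b))))) hg (G := G)
      (top := fit G.length (dz F us.length q.length) (List.drop (A.length - G.length) A)) hG
      hR (by simp)
      (fun R _ _ τ ζ => by rw [List.reverse_reverse]) _
      (fun e he => hA e (List.mem_of_mem_take he))).2.2.1
  have hlen : (List.take (A.length - G.length) A).length ≤ A.length := by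
    rw [List.length_take]; omega
  rw [c9] at c8
  unfold ddivP
  rw [cost_comp]
  simp only [cost_comp, cost_pair, cost_fst, cost_snd, val_snd]
  have c11 : (dcoreP p : Pr s (.prod Un (.prod Un (.prod Po (.prod ML ML)))) (.prod ML ML)).cost v k
      (ur, (us, (q, (A, G)))) ≤ ((B + (60 * sz + 80) * m + 130) * G.length + 107) * A.length +
        (14 * (sz + m) + 110 * (A.length + G.length) + 350) := by
    unfold dcoreP
    rw [cost_lt]
    simp only [val_comp, val_pair, val_fst, val_snd, val_nil, val_revP, val_fitP, val_dzP,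
      val_dspP, cost_comp, cost_pair, cost_fst, cost_snd, cost_nil]
    simp only [List.length_reverse, length_fit] at c5 c7
    have c10 : ((B + (60 * sz + 80) * m + 60 + 70) * G.length + 80 + 27) *
        (List.take (A.length - G.length) A).length ≤
        ((B + (60 * sz + 80) * m + 130) * G.length + 107) * A.length := by
      have : (B + (60 * sz + 80) * m + 60 + 70) * G.length + 80 + 27 =
          (B + (60 * sz + 80) * m + 130) * G.length + 107 := by ring
      rw [this]
      exact Nat.mul_le_mul_left _ hlen
    simp only at c1 c2 c4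
    generalize ((B + (60 * sz + 80) * m + 60 + 70) * G.length + 80 + 27) *
        (List.take (A.length - G.length) A).length = X1 at c7 c10
    generalize ((B + (60 * sz + 80) * m + 130) * G.length + 107) * A.length = X2 at c10 ⊢
    omega
  omega

end progs


/- Schoolbook division by the monic polynomial with lower coefficients G; coefficients in (F[z]/q)[t]/t^s (SpecMMA). If A.length < G.length: quotient nil, remainder A padded by zero elements (q.length rows of s zeros). -/
/-- TARGET -/
theorem specDivP (h : SpecMMA) : SpecDivP := by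
  obtain ⟨p, C, k, hp⟩ := h
  refine ⟨ddivP p, C + 1000, k, ?_⟩
  intro F _ _ r s q A G hr hr0 hs hq hA hG
  have hA' : ∀ e ∈ A, DS s q.length e := hA
  have hG' : ∀ e ∈ G, DS s q.length e := hG
  have hg : ∀ a b : List (List F), DS s q.length a → DS s q.length b →
      DS s q.length (p.val () (un r, (un s, (q, (a, b))))) := by
    intro a b ha hb
    obtain ⟨h1, h2, -, -⟩ := hp F r s q a b hr hr0 hs hq ha.2 hb.2 ha.1 hb.1
    exact ⟨h2, h1⟩
  have hc : ∀ a b : List (List F), DS s q.length a → DS s q.length b →
      p.cost () () (un r, (un s, (q, (a, b)))) ≤ C * ql k (s * q.length) := by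
    intro a b ha hb
    exact (hp F r s q a b hr hr0 hs hq ha.2 hb.2 ha.1 hb.1).2.2.2
  have hm : ∀ (R : Type) [CommRing R] [Algebra F R] (τ ζ : R), τ ^ s = 0 → aeval ζ (mpol q) = 0 →
      ∀ a b : List (List F), DS s q.length a → DS s q.length b →
      av τ ζ (p.val () (un r, (un s, (q, (a, b))))) = av τ ζ a * av τ ζ b := by
    intro R _ _ τ ζ h1 h2 a b ha hb
    exact (hp F r s q a b hr hr0 hs hq ha.2 hb.2 ha.1 hb.1).2.2.1 R τ ζ h1 h2
  have hus : (un s).length = s := by simp [un]
  obtain ⟨i1, i2, i3, i4, i5⟩ := dv_spec hg hA' hG'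
  rw [val_ddivP]
  simp only
  rw [hus]
  refine ⟨i1, i2, i3, i4, ?_, ?_⟩
  · intro R _ _ τ ζ h1 h2
    exact i5 R τ ζ (hm R τ ζ h1 h2)
  · have h1 := cost_ddivP (s := []) p () () (un r) (un s) q A G s q.length (C * ql k (s * q.length)) rfl hus
      hg hc hA' hG'
    refine h1.trans ?_
    have h2 : s * q.length + 1 ≤ ql k (s * q.length) := by
      unfold ql
      exact Nat.le_mul_of_pos_right _ (Nat.one_le_pow _ _ (by unfold lgc; omega))
    generalize ql k (s * q.length) = L at h2 ⊢
    have h3 : s ≤ s * q.length := Nat.le_mul_of_pos_right _ hq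
    have h4 : q.length ≤ s * q.length := Nat.le_mul_of_pos_left _ hs
    have h5 : (60 * s + 80) * q.length ≤ 140 * L := by nlinarith
    generalize q.length = m at *
    generalize A.length = a
    generalize G.length = g
    have h6 : C * L + (60 * s + 80) * m + 130 ≤ (C + 270) * L := by nlinarith
    have h7 : (C * L + (60 * s + 80) * m + 130) * g + 107 ≤ (C + 380) * L * (g + 1) := by nlinarith
    have h8 : ((C * L + (60 * s + 80) * m + 130) * g + 107) * a ≤ (C + 380) * L * (g + 1) * (a + 1) :=
      Nat.mul_le_mul h7 (Nat.le_succ a)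
    have h9 : 14 * (s + m) + 150 * (a + g) + 450 ≤ 620 * L * ((g + 1) * (a + 1)) := by
      have h10 : 14 * (s + m) + 150 * (a + g) + 450 ≤ 28 * L + 150 * (a + g) + 450 := by omega
      have h11 : a + g + 1 ≤ (g + 1) * (a + 1) := by nlinarith
      have h12 : 1 ≤ L := by omega
      have h13 : 28 * L + 150 * (a + g) + 450 ≤ (28 * L + 450) * (a + g + 1) := by nlinarith
      have h14 : 28 * L + 450 ≤ 620 * L := by omega
      calc 14 * (s + m) + 150 * (a + g) + 450 ≤ (28 * L + 450) * (a + g + 1) := h10.trans h13
        _ ≤ 620 * L * ((g + 1) * (a + 1)) := Nat.mul_le_mul h14 h11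
    calc _ ≤ (C + 380) * L * (g + 1) * (a + 1) + 620 * L * ((g + 1) * (a + 1)) := Nat.add_le_add h8 h9
      _ = (C + 1000) * ((a + 1) * (g + 1) * L) := by ring

end Pool.Agent.H330AB.JK11
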