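import Pool.Agent.H330AB.SpecB2
set_option autoImplicit false
noncomputable section
namespace Pool.Agent.H330AB.JK12
open Polynomial Pool.Agent.H330FB

namespace K12

/-! ### lists and polynomials -/

section lists
variable {R : Type} [CommRing R]

theorem coeff_pol (l : List R) (i : ℕ) : (pol l).coeff i = l.getD i 0 := by
  induction l generalizing i with
  | nil => simp [pol]
  | cons x l ih =>
    cases i with
    | zero => simp [pol]
    | succ i =>
      have := ih i
      simp only [pol, coeff_add, coeff_C_succ, coeff_X_mul, zero_add, List.getD_cons_succ]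
      exact this

theorem degree_pol_lt (l : List R) : (pol l).degree < (l.length : WithBot ℕ) :=
  (degree_lt_iff_coeff_zero _ _).2 fun m hm => by
    rw [coeff_pol, List.getD_eq_default _ _ hm]

theorem pol_append (a b : List R) : pol (a ++ b) = pol a + X ^ a.length * pol b := by
  induction a with
  | nil => simp [pol]
  | cons x a ih =>
    simp only [List.cons_append, pol, ih, List.length_cons, pow_succ]
    ring

theorem pol_replicate_zero (n : ℕ) : pol (List.replicate n (0 : R)) = 0 := by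
  induction n with
  | zero => rfl
  | succ n ih => simp [List.replicate_succ, pol, ih]

theorem pol_map {R' : Type} [CommRing R'] (φ : R →+* R') (l : List R) :
    (pol l).map φ = pol (l.map φ) := by
  induction l with
  | nil => simp [pol]
  | cons x l ih => simp [pol, ih]

theorem pol_zp (a b : List R) : pol (zp (fun x y => x + y) a b) = pol a + pol b := by
  induction a generalizing b with
  | nil => simp [zp, pol]
  | cons x a ih =>
    cases b with
    | nil => simp [zp, pol]
    | cons y b =>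
      simp only [zp, pol, ih, C_add]
      ring

theorem pol_neg (a : List R) : pol (a.map (fun x => -x)) = -pol a := by
  induction a with
  | nil => simp [pol]
  | cons x a ih =>
    simp only [List.map_cons, pol, ih, C_neg]
    ring

theorem mpol_monic [Nontrivial R] (l : List R) : (X ^ l.length + pol l).Monic :=
  monic_X_pow_add (degree_pol_lt l)

theorem mpol_natDegree [Nontrivial R] (l : List R) : (X ^ l.length + pol l).natDegree = l.length := by
  have h : (X ^ l.length + pol l).degree = (l.length : WithBot ℕ) := by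
    rw [degree_add_eq_left_of_degree_lt, degree_X_pow]
    rw [degree_X_pow]
    exact degree_pol_lt l
  exact natDegree_eq_of_degree_eq_some h

end lists

theorem map_zp {α β : Type} (φ : α → β) (f : α → α → α) (f' : β → β → β)
    (h : ∀ x y, φ (f x y) = f' (φ x) (φ y)) (a b : List α) :
    (zp f a b).map φ = zp f' (a.map φ) (b.map φ) := by
  induction a generalizing b with
  | nil => simp [zp]
  | cons x a ih =>
    cases b with
    | nil => simp [zp]
    | cons y b => simp [zp, ih, h]

theorem length_zp {α : Type} (f : α → α → α) (a b : List α) :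
    (zp f a b).length = max a.length b.length := by
  induction a generalizing b with
  | nil => simp [zp]
  | cons x a ih =>
    cases b with
    | nil => simp [zp]
    | cons y b => simp [zp, ih]

theorem mem_zp {α : Type} (f : α → α → α) (a b : List α) (z : α) (h : z ∈ zp f a b) :
    z ∈ a ∨ z ∈ b ∨ ∃ x ∈ a, ∃ y ∈ b, z = f x y := by
  induction a generalizing b with
  | nil => exact Or.inr (Or.inl (by simpa [zp] using h))
  | cons x a ih =>
    cases b with
    | nil => exact Or.inl (by simpa [zp] using h)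
    | cons y b =>
      simp only [zp, List.mem_cons] at h
      rcases h with h | h
      · exact Or.inr (Or.inr ⟨x, by simp, y, by simp, h⟩)
      · rcases ih b h with h | h | ⟨x', hx', y', hy', h⟩
        · exact Or.inl (by simp [h])
        · exact Or.inr (Or.inl (by simp [h]))
        · exact Or.inr (Or.inr ⟨x', by simp [hx'], y', by simp [hy'], h⟩)

theorem fit_eq {α : Type} (n : ℕ) (z : α) (l : List α) (h : l.length ≤ n) :
    fit n z l = l ++ List.replicate (n - l.length) z := by
  induction n generalizing l with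
  | zero =>
    have : l = [] := List.length_eq_zero_iff.mp (by omega)
    subst this
    rfl
  | succ n ih =>
    cases l with
    | nil =>
      have := ih [] (by simp)
      simp only [fit, this, List.nil_append, List.length_nil, Nat.sub_zero, List.replicate_succ]
    | cons x l =>
      have := ih l (by simpa using h)
      simp only [fit, this, List.length_cons, List.cons_append, Nat.add_sub_add_right]

/-! ### entrywise operations -/

section ops
variable {F : Type} [Field F]

/-- addition -/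
def ad1 (a b : List F) : List F := zp (fun x y => x + y) a b
/-- addition -/
def ad2 (a b : List (List F)) : List (List F) := zp ad1 a b
/-- addition -/
def ad3 (a b : List (List (List F))) : List (List (List F)) := zp ad2 a b
/-- negation -/
def ng1 (a : List F) : List F := a.map (fun x => -x)
/-- negation -/
def ng2 (a : List (List F)) : List (List F) := a.map ng1
/-- negation -/
def ng3 (a : List (List (List F))) : List (List (List F)) := a.map ng2

variable {R : Type} [CommRing R] [Algebra F R] (τ ζ : R)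

theorem aeval_ad1 (a b : List F) :
    aeval τ (pol (ad1 a b)) = aeval τ (pol a) + aeval τ (pol b) := by
  rw [ad1, pol_zp, map_add]

theorem rp_ad2 (a b : List (List F)) : rp τ (ad2 a b) = rp τ a + rp τ b := by
  unfold rp ad2
  rw [map_zp _ _ (fun x y => x + y) (aeval_ad1 τ), pol_zp]

theorem av_ad2 (a b : List (List F)) : av τ ζ (ad2 a b) = av τ ζ a + av τ ζ b := by
  unfold av
  rw [rp_ad2, eval_add]

theorem pv_ad3 (a b : List (List (List F))) : pv τ ζ (ad3 a b) = pv τ ζ a + pv τ ζ b := by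
  unfold pv ad3
  rw [map_zp _ _ (fun x y => x + y) (av_ad2 τ ζ), pol_zp]

theorem aeval_ng1 (a : List F) : aeval τ (pol (ng1 a)) = -aeval τ (pol a) := by
  rw [ng1, pol_neg, map_neg]

theorem rp_ng2 (a : List (List F)) : rp τ (ng2 a) = -rp τ a := by
  unfold rp ng2
  rw [← pol_neg, List.map_map, List.map_map]
  congr 1
  apply List.map_congr_left
  intro x _
  exact aeval_ng1 τ x

theorem av_ng2 (a : List (List F)) : av τ ζ (ng2 a) = -av τ ζ a := by
  unfold av
  rw [rp_ng2, eval_neg]

theorem pv_ng3 (a : List (List (List F))) : pv τ ζ (ng3 a) = -pv τ ζ a := by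
  unfold pv ng3
  rw [← pol_neg, List.map_map, List.map_map]
  congr 1
  apply List.map_congr_left
  intro x _
  exact av_ng2 τ ζ x

theorem Sh_ad2 {s : ℕ} {a b : List (List F)} (ha : Sh s a) (hb : Sh s b) : Sh s (ad2 a b) := by
  intro z hz
  rcases mem_zp _ _ _ _ hz with h | h | ⟨x, hx, y, hy, rfl⟩
  · exact ha z h
  · exact hb z h
  · rw [ad1, length_zp, ha x hx, hb y hy, max_self]

theorem Sh3_ad3 {s m : ℕ} {a b : List (List (List F))} (ha : Sh3 s m a) (hb : Sh3 s m b) :
    Sh3 s m (ad3 a b) := by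
  intro z hz
  rcases mem_zp _ _ _ _ hz with h | h | ⟨x, hx, y, hy, rfl⟩
  · exact ha z h
  · exact hb z h
  · exact ⟨by rw [ad2, length_zp, (ha x hx).1, (hb y hy).1, max_self],
      Sh_ad2 (ha x hx).2 (hb y hy).2⟩

theorem Sh_ng2 {s : ℕ} {a : List (List F)} (ha : Sh s a) : Sh s (ng2 a) := by
  intro z hz
  obtain ⟨x, hx, rfl⟩ := List.mem_map.1 hz
  rw [ng1, List.length_map]
  exact ha x hx

theorem Sh3_ng3 {s m : ℕ} {a : List (List (List F))} (ha : Sh3 s m a) : Sh3 s m (ng3 a) := by
  intro z hz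
  obtain ⟨x, hx, rfl⟩ := List.mem_map.1 hz
  exact ⟨by rw [ng2, List.length_map]; exact (ha x hx).1, Sh_ng2 (ha x hx).2⟩

/-- constant in `t` -/
def rowc (s : ℕ) (c : F) : List F := fit s 0 [c]
/-- constant in `z` -/
def emb (m s : ℕ) (u : List F) : List (List F) := fit m (fit s 0 []) [u]

theorem aeval_zrow (s : ℕ) : aeval τ (pol (fit s (0 : F) [])) = 0 := by
  rw [fit_eq _ _ _ (by simp)]
  simp [pol_replicate_zero]

theorem aeval_rowc {s : ℕ} (hs : 1 ≤ s) (c : F) : aeval τ (pol (rowc s c)) = algebraMap F R c := by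
  rw [rowc, fit_eq _ _ _ (by simpa using hs), pol_append, pol_replicate_zero]
  simp [pol]

theorem av_emb {m s : ℕ} (hm : 1 ≤ m) (u : List F) : av τ ζ (emb m s u) = aeval τ (pol u) := by
  unfold av rp
  rw [emb, fit_eq _ _ _ (by simpa using hm), List.map_append, List.map_replicate, aeval_zrow,
    pol_append, pol_replicate_zero]
  simp [pol]

theorem av_rowc {s : ℕ} (hs : 1 ≤ s) (v : List F) :
    av τ ζ (v.map (rowc s)) = aeval ζ (pol v) := by
  unfold av rp
  rw [List.map_map]
  have : (v.map ((fun r => aeval τ (pol r)) ∘ rowc s)) = v.map (algebraMap F R) := by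
    apply List.map_congr_left
    intro c _
    exact aeval_rowc τ hs c
  rw [this, ← pol_map, eval_map_algebraMap]

theorem length_rowc (s : ℕ) (c : F) : (rowc s c).length = s := length_fit _ _ _

theorem length_emb (m s : ℕ) (u : List F) : (emb m s u).length = m := length_fit _ _ _

theorem Sh_emb {m s : ℕ} {u : List F} (hm : 1 ≤ m) (hu : u.length = s) : Sh s (emb m s u) := by
  intro z hz
  rw [emb, fit_eq _ _ _ (by simpa using hm)] at hz
  simp only [List.cons_append, List.nil_append, List.mem_cons, List.mem_replicate] at hz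
  rcases hz with rfl | ⟨_, rfl⟩
  · exact hu
  · exact length_fit _ _ _

end ops

/-! ### the step, over a ring -/

theorem zero_of_deg {R : Type} [CommRing R] {F z w : R[X]} (hF : F.Monic)
    (h : F * z = w) (hw : w.degree < F.degree) : z = 0 := by
  have h1 : w = 0 := by
    by_contra hne
    exact hF.not_dvd_of_degree_lt hne hw ⟨z, h.symm⟩
  rw [h1] at h
  exact (hF.mul_right_eq_zero_iff).1 h

theorem step_abs {R : Type} [CommRing R] [Nontrivial R] (t : R)
    (f g F U Q Rm Q1 R1 F' Gn Rn Q2 P2 U' Q4 b h r : R[X]) (m : ℕ)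
    (hf : f.Monic) (hfm : f.natDegree = m) (hF : F.Monic) (hFm : F.natDegree = m)
    (hinv1 : F = f + C t * b) (hinv2 : U * g - 1 = f * h + C t * r)
    (h1 : f * g = Q * F + Rm)
    (h2 : U * Rm = Q1 * F + R1) (hR1 : R1.degree < (m : WithBot ℕ))
    (hF' : F' = F + R1)
    (h3 : f * g = Gn * F' + Rn) (hRn : Rn.degree < (m : WithBot ℕ))
    (h4 : U * Gn = Q2 * F' + P2)
    (h5 : U * (2 - P2) = Q4 * F' + U') :
    (∃ b', F' = f + C (t * t) * b') ∧ ∃ h' r', U' * g - 1 = f * h' + C (t * t) * r' := by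
  have hFd : F.degree = (m : WithBot ℕ) := by
    rw [degree_eq_natDegree hF.ne_zero, hFm]
  have hfd : f.degree = (m : WithBot ℕ) := by
    rw [degree_eq_natDegree hf.ne_zero, hfm]
  have hsub : (f - F).degree < (m : WithBot ℕ) := by
    have := degree_sub_lt_left (hfd.trans hFd.symm) hf.ne_zero (by rw [hf.leadingCoeff, hF.leadingCoeff])
    rwa [hfd] at this
  -- the first part
  obtain ⟨w, hw⟩ : ∃ w, w = b * b * h - r * b := ⟨_, rfl⟩
  have hmod := modByMonic_add_div w F
  have hwr : (w %ₘ F).degree < F.degree := degree_modByMonic_lt w hF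
  have a4 : U * g = 1 + f * h + C t * r := by linear_combination hinv2
  have e1 : F * (U * g - U * Q + h * (f - F) + C (t * t) * (w /ₘ F) - Q1) =
      R1 - (f - F) - C (t * t) * (w %ₘ F) := by
    have a2 : Rm = f * g - Q * F := by rw [h1]; ring
    have a3 : R1 = U * Rm - Q1 * F := by rw [h2]; ring
    have a5 : w %ₘ F = w - F * (w /ₘ F) := by linear_combination hmod
    rw [a5, a3, a2, C_mul]
    linear_combination (F - f) * a4 + (-h * (F - f + C t * b) + C t * r) * hinv1 + (C t) ^ 2 * hw
  have hCd : ∀ (c : R) (p : R[X]), p.degree < (m : WithBot ℕ) →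
      (C c * p).degree < (m : WithBot ℕ) := by
    intro c p hp
    refine lt_of_le_of_lt ?_ hp
    rw [← smul_eq_C_mul]
    exact degree_smul_le c p
  have e2 : U * g - U * Q + h * (f - F) + C (t * t) * (w /ₘ F) - Q1 = 0 := by
    refine zero_of_deg hF e1 ?_
    rw [hFd] at hwr ⊢
    refine lt_of_le_of_lt (degree_sub_le _ _) (max_lt ?_ (hCd _ _ hwr))
    exact lt_of_le_of_lt (degree_sub_le _ _) (max_lt hR1 hsub)
  rw [e2, mul_zero] at e1
  have e3 : F' = f + C (t * t) * (w %ₘ F) := by
    rw [hF']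
    linear_combination -e1
  -- the new quotient
  have hF'm : F'.Monic := by
    rw [hF']
    exact hF.add_of_left (by rw [hFd]; exact hR1)
  have hF'd : F'.degree = (m : WithBot ℕ) := by
    rw [hF', degree_add_eq_left_of_degree_lt (by rw [hFd]; exact hR1), hFd]
  generalize w %ₘ F = b' at e3
  have hmod2 := modByMonic_add_div (b' * g) F'
  have hwr2 : ((b' * g) %ₘ F').degree < F'.degree := degree_modByMonic_lt _ hF'm
  have e4 : F' * (g - Gn - C (t * t) * ((b' * g) /ₘ F')) =
      Rn + C (t * t) * ((b' * g) %ₘ F') := by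
    have a5 : (b' * g) %ₘ F' = b' * g - F' * ((b' * g) /ₘ F') := by linear_combination hmod2
    rw [a5]
    linear_combination h3 + g * e3
  have e5 : g - Gn - C (t * t) * ((b' * g) /ₘ F') = 0 := by
    refine zero_of_deg hF'm e4 ?_
    rw [hF'd] at hwr2 ⊢
    exact lt_of_le_of_lt (degree_add_le _ _) (max_lt hRn (hCd _ _ hwr2))
  refine ⟨⟨b', e3⟩, ?_⟩
  generalize (b' * g) /ₘ F' = c at e5
  refine ⟨-(f * h * h) - 2 * h * (C t * r) - (Q4 - U * Q2) * g, 
    -(r * r) + U * U * c * g - b' * (Q4 - U * Q2) * g, ?_⟩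
  have a6 : Gn = g - C (t * t) * c := by linear_combination -e5
  have a7 : P2 = U * Gn - Q2 * F' := by rw [h4]; ring
  have a8 : U' = U * (2 - P2) - Q4 * F' := by rw [h5]; ring
  rw [a8, a7, a6, e3, C_mul]
  linear_combination (-(U * g - 1) - f * h - C t * r + 0) * hinv2

/-! ### programs for the entrywise operations -/

section progs
variable {F : Type} [Field F] [DecidableEq F]
variable {s : List (Ty × Ty)}

/-- addition -/
def ad1P : Pr s (.prod Po Po) Po := zpP .add
/-- addition -/
def ad2P : Pr s (.prod Ma Ma) Ma := zpP ad1P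
/-- addition -/
def ad3P : Pr s (.prod ML ML) ML := zpP ad2P

theorem val_ad1P (v : SV F s) (x : Ty.D F (.prod Po Po)) :
    (ad1P : Pr s (.prod Po Po) Po).val v x = ad1 x.1 x.2 := by
  simp [ad1P, ad1]

theorem val_ad2P (v : SV F s) (x : Ty.D F (.prod Ma Ma)) :
    (ad2P : Pr s (.prod Ma Ma) Ma).val v x = ad2 x.1 x.2 := by
  simp only [ad2P, val_zpP, val_ad1P]
  rfl

theorem val_ad3P (v : SV F s) (x : Ty.D F (.prod ML ML)) :
    (ad3P : Pr s (.prod ML ML) ML).val v x = ad3 x.1 x.2 := by
  simp only [ad3P, val_zpP, val_ad2P]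
  rfl

theorem cost_ad1P (v : SV F s) (k : SC F s) (x : Ty.D F (.prod Po Po)) :
    (ad1P : Pr s (.prod Po Po) Po).cost v k x ≤ 41 * List.length x.1 + 15 :=
  cost_zpP_le _ v k x 1 (fun _ _ _ _ => by simp)

theorem cost_ad2P (v : SV F s) (k : SC F s) (x : Ty.D F (.prod Ma Ma)) (n : ℕ)
    (h : ∀ r ∈ x.1, List.length r = n) :
    (ad2P : Pr s (.prod Ma Ma) Ma).cost v k x ≤ (41 * n + 55) * List.length x.1 + 15 := by
  refine (cost_zpP_le _ v k x (41 * n + 15) (fun y hy z _ => ?_)).trans (by linarith)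
  have := cost_ad1P (s := s) v k (y, z)
  have h1 : List.length y = n := h y hy
  simp only [h1] at this
  exact this

theorem cost_ad3P (v : SV F s) (k : SC F s) (x : Ty.D F (.prod ML ML)) (n m : ℕ)
    (h : Sh3 n m (x.1 : List (List (List F)))) :
    (ad3P : Pr s (.prod ML ML) ML).cost v k x ≤
      ((41 * n + 55) * m + 55) * List.length x.1 + 15 := by
  refine (cost_zpP_le _ v k x ((41 * n + 55) * m + 15) (fun y hy z _ => ?_)).trans (by linarith)
  have := cost_ad2P (s := s) v k (y, z) n (fun r hr => (h y hy).2 r hr)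
  have h1 : List.length y = m := (h y hy).1
  simp only [h1] at this
  exact this

/-- negation -/
def ng1P : Pr s Po Po := .comp (.pair .star .id) (mapP (c := .unit) (.comp .snd .neg))
/-- negation -/
def ng2P : Pr s Ma Ma := .comp (.pair .star .id) (mapP (c := .unit) (.comp .snd ng1P))
/-- negation -/
def ng3P : Pr s ML ML := .comp (.pair .star .id) (mapP (c := .unit) (.comp .snd ng2P))

theorem val_ng1P (v : SV F s) (x : Ty.D F Po) : (ng1P : Pr s Po Po).val v x = ng1 x := by
  simp [ng1P, ng1]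

theorem val_ng2P (v : SV F s) (x : Ty.D F Ma) : (ng2P : Pr s Ma Ma).val v x = ng2 x := by
  simp only [ng2P, val_comp, val_pair, val_star, val_id, val_mapP, val_snd, val_ng1P]
  rfl

theorem val_ng3P (v : SV F s) (x : Ty.D F ML) : (ng3P : Pr s ML ML).val v x = ng3 x := by
  simp only [ng3P, val_comp, val_pair, val_star, val_id, val_mapP, val_snd, val_ng2P]
  rfl

theorem cost_ng1P (v : SV F s) (k : SC F s) (x : Ty.D F Po) :
    (ng1P : Pr s Po Po).cost v k x ≤ 15 * List.length x + 8 := by
  have h := cost_mapP_le (s := s) (F := F) (c := .unit) (a := .fld) (b := .fld)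
    (.comp .snd .neg) v k ((), x) 2 (fun y _ => by simp)
  simp only [ng1P, cost_comp, cost_pair, cost_star, cost_id, val_pair, val_star, val_id] at h ⊢
  omega

theorem cost_ng2P (v : SV F s) (k : SC F s) (x : Ty.D F Ma) (n : ℕ)
    (h : ∀ r ∈ x, List.length r = n) :
    (ng2P : Pr s Ma Ma).cost v k x ≤ (15 * n + 22) * List.length x + 8 := by
  have h := cost_mapP_le (s := s) (F := F) (c := .unit) (a := Po) (b := Po)
    (.comp .snd ng1P) v k ((), x) (15 * n + 9) (fun y hy => by
      have := cost_ng1P (s := s) v k y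
      have h1 : List.length y = n := h y hy
      rw [h1] at this
      simp only [cost_comp, cost_snd, val_snd]
      omega)
  rw [show 15 * n + 9 + 13 = 15 * n + 22 by ring] at h
  simp only [ng2P, cost_comp, cost_pair, cost_star, cost_id, val_pair, val_star, val_id] at h ⊢
  omega

theorem cost_ng3P (v : SV F s) (k : SC F s) (x : Ty.D F ML) (n m : ℕ)
    (h : Sh3 n m (x : List (List (List F)))) :
    (ng3P : Pr s ML ML).cost v k x ≤ ((15 * n + 22) * m + 22) * List.length x + 8 := by
  have h := cost_mapP_le (s := s) (F := F) (c := .unit) (a := Ma) (b := Ma)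
    (.comp .snd ng2P) v k ((), x) ((15 * n + 22) * m + 9) (fun y hy => by
      have := cost_ng2P (s := s) v k y n (fun r hr => (h y hy).2 r hr)
      have h1 : List.length y = m := (h y hy).1
      rw [h1] at this
      simp only [cost_comp, cost_snd, val_snd]
      omega)
  rw [show (15 * n + 22) * m + 9 + 13 = (15 * n + 22) * m + 22 by ring] at h
  simp only [ng3P, cost_comp, cost_pair, cost_star, cost_id, val_pair, val_star, val_id] at h ⊢
  omega

/-- constant in `t`, input `(s, c)` -/
def rowcP : Pr s (.prod Un .fld) Po :=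
  .comp (.pair .fst (.pair .zero (.comp (.pair .snd .nil) .cons))) fitP

theorem val_rowcP (v : SV F s) (x : Ty.D F (.prod Un .fld)) :
    (rowcP : Pr s (.prod Un .fld) Po).val v x = rowc (List.length x.1) x.2 := by
  simp only [rowcP, val_comp, val_pair, val_fst, val_zero, val_snd, val_nil, val_cons, val_fitP]
  rfl

theorem cost_rowcP (v : SV F s) (k : SC F s) (x : Ty.D F (.prod Un .fld)) :
    (rowcP : Pr s (.prod Un .fld) Po).cost v k x ≤ 20 * List.length x.1 + 12 := by
  have h := cost_fitP (s := s) (F := F) (a := .fld) (b := .unit) v k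
    (x.1, ((0 : F), ([x.2] : List F)))
  simp only [rowcP, cost_comp, cost_pair, cost_fst, cost_zero, cost_snd, cost_nil, cost_cons,
    val_comp, val_pair, val_fst, val_zero, val_snd, val_nil, val_cons] at h ⊢
  omega

/-- constant in `z`, input `((q, z), u)`, `z` the zero row -/
def embP : Pr s (.prod (.prod Po Po) Po) Ma :=
  .comp (.pair (.comp .fst .fst) (.pair (.comp .fst .snd) (.comp (.pair .snd .nil) .cons))) fitP

theorem val_embP (v : SV F s) (x : Ty.D F (.prod (.prod Po Po) Po)) :
    (embP : Pr s (.prod (.prod Po Po) Po) Ma).val v x =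
      fit (List.length x.1.1) x.1.2 [x.2] := by
  simp only [embP, val_comp, val_pair, val_fst, val_snd, val_nil, val_cons, val_fitP]

theorem cost_embP (v : SV F s) (k : SC F s) (x : Ty.D F (.prod (.prod Po Po) Po)) :
    (embP : Pr s (.prod (.prod Po Po) Po) Ma).cost v k x ≤ 20 * List.length x.1.1 + 14 := by
  have h := cost_fitP (s := s) (F := F) (a := Po) (b := .fld) v k
    (x.1.1, ((x.1.2 : List F), ([x.2] : List (List F))))
  simp only [embP, cost_comp, cost_pair, cost_fst, cost_snd, cost_nil, cost_cons,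
    val_comp, val_pair, val_fst, val_snd, val_nil, val_cons] at h ⊢
  omega

end progs

/-! ### the step -/

/-- the step of the iteration, for given multiplication and division -/
def stF {M : Type} (mu : M → M → M) (dv : M → M → M × M) (ad : M → M → M) (ng : M → M)
    (AS TW : M) (y : M × M) : M × M :=
  let F' := ad y.1 (dv (mu y.2 (dv AS y.1).2) y.1).2
  (F', (dv (mu y.2 (ad TW (ng (dv (mu y.2 (dv AS F').1) F').2))) F').2)

/-- arguments and contexts -/
abbrev AT : Ty := .prod Un (.prod Un (.prod Po (.prod ML ML)))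

section stepprog
variable {g : Ty}

/-- arguments of multiplication and division -/
def argP (cx : Pr [] g AT) (A G : Pr [] g ML) : Pr [] g AT :=
  .pair (.comp cx .fst) (.pair (.comp cx (.comp .snd .fst))
    (.pair (.comp cx (.comp .snd (.comp .snd .fst))) (.pair A G)))

/-- context of the step -/
abbrev G0 : Ty := .prod AT (.prod (.prod ML ML) .unit)

/-- the new factor -/
def fnP (pm : Pr [] AT ML) (pd : Pr [] AT (.prod ML ML)) : Pr [] G0 ML :=
  .comp (.pair (.comp .snd (.comp .fst .fst))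
    (.comp (.comp (argP .fst
      (.comp (argP .fst (.comp .snd (.comp .fst .snd))
        (.comp (.comp (argP .fst (.comp .fst (.comp .snd (.comp .snd (.comp .snd .fst))))
          (.comp .snd (.comp .fst .fst))) pd) .snd)) pm)
      (.comp .snd (.comp .fst .fst))) pd) .snd)) ad3P

/-- the new inverse -/
def unP (pm : Pr [] AT ML) (pd : Pr [] AT (.prod ML ML)) : Pr [] (.prod G0 ML) ML :=
  .comp (.comp (argP (.comp .fst .fst)
    (.comp (argP (.comp .fst .fst) (.comp .fst (.comp .snd (.comp .fst .snd)))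
      (.comp (.pair (.comp .fst (.comp .fst (.comp .snd (.comp .snd (.comp .snd .snd)))))
        (.comp (.comp (.comp (argP (.comp .fst .fst)
          (.comp (argP (.comp .fst .fst) (.comp .fst (.comp .snd (.comp .fst .snd)))
            (.comp (.comp (argP (.comp .fst .fst)
              (.comp .fst (.comp .fst (.comp .snd (.comp .snd (.comp .snd .fst))))) .snd) pd)
              .fst)) pm) .snd) pd) .snd) ng3P)) ad3P)) pm) .snd) pd) .snd

/-- the step -/
def stP (pm : Pr [] AT ML) (pd : Pr [] AT (.prod ML ML)) : Pr [] G0 (.prod ML ML) :=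
  lt (fnP pm pd) (.pair .snd (unP pm pd))

variable {F : Type} [Field F] [DecidableEq F]

/-- multiplication -/
noncomputable def muF (pm : Pr [] AT ML) (r s : List Unit) (q : List F)
    (A B : List (List (List F))) : List (List (List F)) := pm.val () (r, (s, (q, (A, B))))
/-- division -/
noncomputable def dvF (pd : Pr [] AT (.prod ML ML)) (r s : List Unit) (q : List F)
    (A B : List (List (List F))) : List (List (List F)) × List (List (List F)) :=
  pd.val () (r, (s, (q, (A, B))))

theorem val_stP (pm : Pr [] AT ML) (pd : Pr [] AT (.prod ML ML)) (r s : List Unit) (q : List F)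
    (AS TW A U : List (List (List F))) :
    (stP pm pd).val (F := F) () ((r, (s, (q, (AS, TW)))), ((A, U), ())) =
      stF (muF pm r s q) (dvF pd r s q) ad3 ng3 AS TW (A, U) := by
  simp only [stP, fnP, unP, argP, val_lt, val_comp, val_pair, val_fst, val_snd, val_ad3P,
    val_ng3P]
  rfl

theorem cost_stP (pm : Pr [] AT ML) (pd : Pr [] AT (.prod ML ML)) (r s : List Unit) (q : List F)
    (AS TW A U : List (List (List F))) (B : ℕ)
    (F' : List (List (List F))) (hF' : F' = ad3 A (dvF pd r s q (muF pm r s q U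
      (dvF pd r s q AS A).2) A).2)
    (b1 : pd.cost () () (r, (s, (q, (AS, A)))) ≤ B)
    (b2 : pm.cost () () (r, (s, (q, (U, (dvF pd r s q AS A).2)))) ≤ B)
    (b3 : pd.cost () () (r, (s, (q, (muF pm r s q U (dvF pd r s q AS A).2, A)))) ≤ B)
    (b4 : (ad3P : Pr [] (.prod ML ML) ML).cost (F := F) () () (A, (dvF pd r s q (muF pm r s q U
      (dvF pd r s q AS A).2) A).2) ≤ B)
    (b5 : pd.cost () () (r, (s, (q, (AS, F')))) ≤ B)
    (b6 : pm.cost () () (r, (s, (q, (U, (dvF pd r s q AS F').1)))) ≤ B)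
    (b7 : pd.cost () () (r, (s, (q, (muF pm r s q U (dvF pd r s q AS F').1, F')))) ≤ B)
    (b8 : (ng3P : Pr [] ML ML).cost (F := F) () ()
      (dvF pd r s q (muF pm r s q U (dvF pd r s q AS F').1) F').2 ≤ B)
    (b9 : (ad3P : Pr [] (.prod ML ML) ML).cost (F := F) () () (TW, ng3
      (dvF pd r s q (muF pm r s q U (dvF pd r s q AS F').1) F').2) ≤ B)
    (b10 : pm.cost () () (r, (s, (q, (U, ad3 TW (ng3
      (dvF pd r s q (muF pm r s q U (dvF pd r s q AS F').1) F').2))))) ≤ B)
    (b11 : pd.cost () () (r, (s, (q, (muF pm r s q U (ad3 TW (ng3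
      (dvF pd r s q (muF pm r s q U (dvF pd r s q AS F').1) F').2)), F')))) ≤ B) :
    (stP pm pd).cost (F := F) () () ((r, (s, (q, (AS, TW)))), ((A, U), ())) ≤ 11 * B + 300 := by
  subst hF'
  simp only [muF, dvF] at b1 b2 b3 b4 b5 b6 b7 b8 b9 b10 b11
  simp only [stP, fnP, unP, argP, val_comp, val_pair, val_fst, val_snd, val_ad3P,
    val_ng3P, cost_lt, cost_comp, cost_pair, cost_fst, cost_snd]
  omega

end stepprog

/-! ### shapes and costs of the step -/

section shape
variable {F : Type} [Field F]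

/-- shape of a state -/
structure Shp (s n m : ℕ) (y : List (List (List F)) × List (List (List F))) : Prop where
  a : Sh3 s n y.1
  al : y.1.length = m
  u : Sh3 s n y.2
  ul : y.2.length = m

/-- what is used about a multiplication -/
structure MuOK (s : ℕ) (q : List F)
    (mu : List (List (List F)) → List (List (List F)) → List (List (List F))) : Prop where
  sh : ∀ A B, Sh3 s q.length A → Sh3 s q.length B → Sh3 s q.length (mu A B)
  len : ∀ A B, Sh3 s q.length A → Sh3 s q.length B → (mu A B).length = A.length + B.length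
  pv : ∀ A B, Sh3 s q.length A → Sh3 s q.length B →
    ∀ (R : Type) [CommRing R] [Algebra F R] (τ ζ : R), τ ^ s = 0 → aeval ζ (mpol q) = 0 →
    pv τ ζ (mu A B) = pv τ ζ A * pv τ ζ B

/-- what is used about a division -/
structure DvOK (s : ℕ) (q : List F)
    (dv : List (List (List F)) → List (List (List F)) →
      List (List (List F)) × List (List (List F))) : Prop where
  sh1 : ∀ A G, Sh3 s q.length A → Sh3 s q.length G → Sh3 s q.length (dv A G).1
  len1 : ∀ A G, Sh3 s q.length A → Sh3 s q.length G → (dv A G).1.length = A.length - G.length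
  sh2 : ∀ A G, Sh3 s q.length A → Sh3 s q.length G → Sh3 s q.length (dv A G).2
  len2 : ∀ A G, Sh3 s q.length A → Sh3 s q.length G → (dv A G).2.length = G.length
  pv : ∀ A G, Sh3 s q.length A → Sh3 s q.length G →
    ∀ (R : Type) [CommRing R] [Algebra F R] (τ ζ : R), τ ^ s = 0 → aeval ζ (mpol q) = 0 →
    pv τ ζ A = pv τ ζ (dv A G).1 * mpv τ ζ G + pv τ ζ (dv A G).2

variable {s : ℕ} {q : List F}
  {mu : List (List (List F)) → List (List (List F)) → List (List (List F))}
  {dv : List (List (List F)) → List (List (List F)) →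
      List (List (List F)) × List (List (List F))}

theorem length_ad3 (a b : List (List (List F))) :
    (ad3 a b).length = max a.length b.length := length_zp _ _ _

theorem length_ng3 (a : List (List (List F))) : (ng3 a).length = a.length := List.length_map _

theorem degree_pv_lt {R : Type} [CommRing R] [Algebra F R] (τ ζ : R)
    (l : List (List (List F))) (m : ℕ) (h : l.length = m) :
    (pv τ ζ l).degree < (m : WithBot ℕ) := by
  have := degree_pol_lt (l.map (av τ ζ))
  rw [List.length_map, h] at this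
  exact this

theorem mpv_monic {R : Type} [CommRing R] [Nontrivial R] [Algebra F R] (τ ζ : R)
    (l : List (List (List F))) : (mpv τ ζ l).Monic := by
  have := mpol_monic (l.map (av τ ζ))
  rw [List.length_map] at this
  exact this

theorem mpv_natDegree {R : Type} [CommRing R] [Nontrivial R] [Algebra F R] (τ ζ : R)
    (l : List (List (List F))) : (mpv τ ζ l).natDegree = l.length := by
  have := mpol_natDegree (l.map (av τ ζ))
  rw [List.length_map] at this
  exact this

theorem step_shape (hM : MuOK s q mu) (hD : DvOK s q dv) (m N : ℕ)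
    (AS TW A U : List (List (List F))) (hm : 1 ≤ m) (hN : m ≤ N)
    (hAS : Sh3 s q.length AS) (hASl : AS.length = N + 1) (hTW : Sh3 s q.length TW)
    (hTWl : TW.length = 1) (h : Shp s q.length m (A, U)) :
    (Sh3 s q.length (dv AS A).2 ∧ (dv AS A).2.length = m) ∧
    (Sh3 s q.length (mu U (dv AS A).2) ∧ (mu U (dv AS A).2).length = 2 * m) ∧
    (Sh3 s q.length (dv (mu U (dv AS A).2) A).2 ∧ (dv (mu U (dv AS A).2) A).2.length = m) ∧
    ∀ F', F' = ad3 A (dv (mu U (dv AS A).2) A).2 →
    (Sh3 s q.length F' ∧ F'.length = m) ∧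
    (Sh3 s q.length (dv AS F').1 ∧ (dv AS F').1.length = N + 1 - m) ∧
    (Sh3 s q.length (mu U (dv AS F').1) ∧ (mu U (dv AS F').1).length = N + 1) ∧
    (Sh3 s q.length (dv (mu U (dv AS F').1) F').2 ∧
      (dv (mu U (dv AS F').1) F').2.length = m) ∧
    (Sh3 s q.length (ad3 TW (ng3 (dv (mu U (dv AS F').1) F').2)) ∧
      (ad3 TW (ng3 (dv (mu U (dv AS F').1) F').2)).length = m) ∧
    (Sh3 s q.length (mu U (ad3 TW (ng3 (dv (mu U (dv AS F').1) F').2))) ∧
      (mu U (ad3 TW (ng3 (dv (mu U (dv AS F').1) F').2))).length = 2 * m) ∧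
    Shp s q.length m (stF mu dv ad3 ng3 AS TW (A, U)) := by
  obtain ⟨hA, hAl, hU, hUl⟩ := h
  simp only at hA hAl hU hUl
  have s1 := hD.sh2 AS A hAS hA
  have l1 := hD.len2 AS A hAS hA
  have s2 := hM.sh U _ hU s1
  have l2 := hM.len U _ hU s1
  have s3 := hD.sh2 _ A s2 hA
  have l3 := hD.len2 _ A s2 hA
  refine ⟨⟨s1, by omega⟩, ⟨s2, by omega⟩, ⟨s3, by omega⟩, ?_⟩
  intro F' hF'
  have s4 : Sh3 s q.length F' := by rw [hF']; exact Sh3_ad3 hA s3
  have l4 : F'.length = m := by rw [hF', length_ad3]; omega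
  have s5 := hD.sh1 AS F' hAS s4
  have l5 := hD.len1 AS F' hAS s4
  have s6 := hM.sh U _ hU s5
  have l6 := hM.len U _ hU s5
  have s7 := hD.sh2 _ F' s6 s4
  have l7 := hD.len2 _ F' s6 s4
  have s8 : Sh3 s q.length (ad3 TW (ng3 (dv (mu U (dv AS F').1) F').2)) :=
    Sh3_ad3 hTW (Sh3_ng3 s7)
  have l8 : (ad3 TW (ng3 (dv (mu U (dv AS F').1) F').2)).length = m := by
    rw [length_ad3, length_ng3]; omega
  have s9 := hM.sh U _ hU s8
  have l9 := hM.len U _ hU s8
  have s10 := hD.sh2 _ F' s9 s4
  have l10 := hD.len2 _ F' s9 s4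
  refine ⟨⟨s4, l4⟩, ⟨s5, by omega⟩, ⟨s6, by omega⟩, ⟨s7, by omega⟩, ⟨s8, l8⟩,
    ⟨s9, by omega⟩, ?_⟩
  subst hF'
  exact ⟨s4, l4, s10, by simp only [stF]; omega⟩

/-- the invariant of the iteration -/
def Inv {R : Type} [CommRing R] [Algebra F R] (τ ζ : R) (f g : R[X]) (t : R)
    (y : List (List (List F)) × List (List (List F))) : Prop :=
  (∃ b, mpv τ ζ y.1 = f + C t * b) ∧ ∃ h r, pv τ ζ y.2 * g - 1 = f * h + C t * r

theorem step_inv (hM : MuOK s q mu) (hD : DvOK s q dv) (m N : ℕ)
    (AS TW A U : List (List (List F))) (hm : 1 ≤ m) (hN : m ≤ N)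
    (hAS : Sh3 s q.length AS) (hASl : AS.length = N + 1) (hTW : Sh3 s q.length TW)
    (hTWl : TW.length = 1) (h : Shp s q.length m (A, U))
    {R : Type} [CommRing R] [Nontrivial R] [Algebra F R] (τ ζ : R) (hτ : τ ^ s = 0)
    (hζ : aeval ζ (mpol q) = 0) (f g : R[X]) (t : R) (hf : f.Monic) (hfm : f.natDegree = m)
    (hfg : pv τ ζ AS = f * g) (h2 : pv τ ζ TW = 2) (hI : Inv τ ζ f g t (A, U)) :
    Inv τ ζ f g (t * t) (stF mu dv ad3 ng3 AS TW (A, U)) := by
  obtain ⟨⟨s1, l1⟩, ⟨s2, l2⟩, ⟨s3, l3⟩, hrest⟩ := step_shape hM hD m N AS TW A U hm hN hAS hASl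
    hTW hTWl h
  obtain ⟨hA, hAl, hU, hUl⟩ := h
  simp only at hA hAl hU hUl
  obtain ⟨F', hF'⟩ : ∃ F', F' = ad3 A (dv (mu U (dv AS A).2) A).2 := ⟨_, rfl⟩
  obtain ⟨⟨s4, l4⟩, ⟨s5, l5⟩, ⟨s6, l6⟩, ⟨s7, l7⟩, ⟨s8, l8⟩, ⟨s9, l9⟩, _⟩ := hrest F' hF'
  obtain ⟨⟨b, hb⟩, ⟨h', r', hr'⟩⟩ := hI
  simp only at hb hr'
  have key := step_abs t f g (mpv τ ζ A) (pv τ ζ U) (pv τ ζ (dv AS A).1) (pv τ ζ (dv AS A).2)
    (pv τ ζ (dv (mu U (dv AS A).2) A).1) (pv τ ζ (dv (mu U (dv AS A).2) A).2) (mpv τ ζ F')
    (pv τ ζ (dv AS F').1) (pv τ ζ (dv AS F').2) (pv τ ζ (dv (mu U (dv AS F').1) F').1)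
    (pv τ ζ (dv (mu U (dv AS F').1) F').2)
    (pv τ ζ (dv (mu U (ad3 TW (ng3 (dv (mu U (dv AS F').1) F').2))) F').2)
    (pv τ ζ (dv (mu U (ad3 TW (ng3 (dv (mu U (dv AS F').1) F').2))) F').1) b h' r' m hf hfm
    (mpv_monic τ ζ A) (by rw [mpv_natDegree, hAl]) hb hr'
    (by rw [← hfg]; exact hD.pv AS A hAS hA R τ ζ hτ hζ)
    (by rw [← hM.pv U _ hU s1 R τ ζ hτ hζ]; exact hD.pv _ A s2 hA R τ ζ hτ hζ)
    (degree_pv_lt τ ζ _ m l3)
    (by
      unfold mpv
      rw [l4, hAl, hF', pv_ad3]
      ring)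
    (by rw [← hfg]; exact hD.pv AS F' hAS s4 R τ ζ hτ hζ)
    (degree_pv_lt τ ζ _ m (by rw [hD.len2 AS F' hAS s4, l4]))
    (by rw [← hM.pv U _ hU s5 R τ ζ hτ hζ]; exact hD.pv _ F' s6 s4 R τ ζ hτ hζ)
    (by
      have e : (2 : R[X]) - pv τ ζ (dv (mu U (dv AS F').1) F').2 =
          pv τ ζ (ad3 TW (ng3 (dv (mu U (dv AS F').1) F').2)) := by
        rw [pv_ad3, pv_ng3, h2]
        ring
      rw [e, ← hM.pv U _ hU s8 R τ ζ hτ hζ]
      exact hD.pv _ F' s9 s4 R τ ζ hτ hζ)
  obtain ⟨⟨b2, hb2⟩, ⟨h2', r2', hr2'⟩⟩ := key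
  subst hF'
  exact ⟨⟨b2, hb2⟩, ⟨h2', r2', hr2'⟩⟩

/-- iteration -/
theorem iter_inv (hM : MuOK s q mu) (hD : DvOK s q dv) (m N : ℕ)
    (AS TW : List (List (List F))) (hm : 1 ≤ m) (hN : m ≤ N)
    (hAS : Sh3 s q.length AS) (hASl : AS.length = N + 1) (hTW : Sh3 s q.length TW)
    (hTWl : TW.length = 1) (y : List (List (List F)) × List (List (List F)))
    (h : Shp s q.length m y) (l : List Unit) :
    Shp s q.length m (l.foldl (fun z _ => stF mu dv ad3 ng3 AS TW z) y) ∧
    ∀ (R : Type) [CommRing R] [Nontrivial R] [Algebra F R] (τ ζ : R), τ ^ s = 0 →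
      aeval ζ (mpol q) = 0 → ∀ (f g : R[X]) (t : R), f.Monic → f.natDegree = m →
      pv τ ζ AS = f * g → pv τ ζ TW = 2 → Inv τ ζ f g t y →
      Inv τ ζ f g (t ^ (2 ^ l.length)) (l.foldl (fun z _ => stF mu dv ad3 ng3 AS TW z) y) := by
  induction l generalizing y with
  | nil =>
    refine ⟨h, ?_⟩
    intro R _ _ _ τ ζ _ _ f g t _ _ _ _ hI
    simpa using hI
  | cons u l ih =>
    obtain ⟨A, U⟩ := y
    have h1 := (step_shape hM hD m N AS TW A U hm hN hAS hASl hTW hTWl h).2.2.2 _ rfl
    obtain ⟨h2, h3⟩ := ih (stF mu dv ad3 ng3 AS TW (A, U)) h1.2.2.2.2.2.2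
    refine ⟨h2, ?_⟩
    intro R _ _ _ τ ζ hτ hζ f g t hf hfm hfg hTW2 hI
    have h4 := h3 R τ ζ hτ hζ f g (t * t) hf hfm hfg hTW2
      (step_inv hM hD m N AS TW A U hm hN hAS hASl hTW hTWl h τ ζ hτ hζ f g t hf hfm hfg hTW2 hI)
    have e : (t * t) ^ (2 ^ l.length) = t ^ (2 ^ (u :: l).length) := by
      rw [← pow_two, ← pow_mul, List.length_cons, pow_succ']
    rw [e] at h4
    exact h4

end shape

/-! ### the truncated polynomial ring -/

section ring
variable {F k : Type} [Field F] [Field k] [Algebra F k]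

theorem C_dvd (R : Type) [CommRing R] (t : R) (P : R[X]) (h : ∀ i, t ∣ P.coeff i) :
    ∃ b, P = C t * b := (C_dvd_iff_dvd_coeff t P).2 h

/-- the ideal of the polynomials divisible by `X ^ s` -/
noncomputable abbrev Is (k : Type) [Field k] (s : ℕ) : Ideal k[X] := Ideal.span {(X : k[X]) ^ s}

theorem mk_zero (s : ℕ) (p : k[X]) : Ideal.Quotient.mk (Is k s) p = 0 ↔
    ∀ κ < s, p.coeff κ = 0 := by
  rw [Ideal.Quotient.eq_zero_iff_mem, Ideal.mem_span_singleton, X_pow_dvd_iff]

theorem nontriv (s : ℕ) (hs : 1 ≤ s) : Nontrivial (k[X] ⧸ Is k s) := by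
  refine ⟨⟨0, 1, fun h => ?_⟩⟩
  have h1 : Ideal.Quotient.mk (Is k s) 1 = 0 := by rw [map_one]; exact h.symm
  rw [mk_zero] at h1
  have := h1 0 (by omega)
  simp at this

theorem aeval_mkX (s : ℕ) (p : F[X]) : aeval (Ideal.Quotient.mk (Is k s) X) p =
    Ideal.Quotient.mk (Is k s) (p.map (algebraMap F k)) := by
  have h := aeval_algHom_apply (Ideal.Quotient.mkₐ F (Is k s)) (X : k[X]) p
  rw [aeval_X_left_eq_map] at h
  exact h

theorem aeval_mkC (s : ℕ) (ζ : k) (p : F[X]) : aeval (Ideal.Quotient.mk (Is k s) (C ζ)) p =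
    Ideal.Quotient.mk (Is k s) (C (aeval ζ p)) := by
  have h := aeval_algHom_apply ((Ideal.Quotient.mkₐ F (Is k s)).comp
    (CAlgHom : k →ₐ[F] k[X])) ζ p
  exact h

theorem bcp_mk (s : ℕ) (S : List (List F)) :
    (bcp k (mbiv S)).map (Ideal.Quotient.mk (Is k s)) =
      X ^ S.length + pol (S.map (fun u => aeval (Ideal.Quotient.mk (Is k s) X) (pol u))) := by
  unfold bcp mbiv biv
  rw [Polynomial.map_add, Polynomial.map_pow, map_X, Polynomial.map_add, Polynomial.map_pow,
    map_X, pol_map, pol_map, List.map_map, List.map_map]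
  congr 2
  apply List.map_congr_left
  intro u _
  exact (aeval_mkX s (pol u)).symm

/-- the polynomial of an element of the algebra -/
noncomputable def vp (ζ : k) (c : List (List F)) : k[X] :=
  (pol (c.map (fun r => (pol r).map (algebraMap F k)))).eval (C ζ)

theorem mk_vp (s : ℕ) (ζ : k) (c : List (List F)) :
    Ideal.Quotient.mk (Is k s) (vp ζ c) =
      av (Ideal.Quotient.mk (Is k s) X) (Ideal.Quotient.mk (Is k s) (C ζ)) c := by
  unfold vp av rp
  rw [← eval_map_apply, pol_map, List.map_map]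
  congr 2
  apply List.map_congr_left
  intro u _
  exact (aeval_mkX s (pol u)).symm

theorem coeff_vp (ζ : k) (c : List (List F)) (κ : ℕ) :
    (vp ζ c).coeff κ = aeval ζ (pol (c.map (fun v => v.getD κ 0))) := by
  induction c with
  | nil => simp [vp, pol]
  | cons x c ih =>
    have h1 : vp ζ (x :: c) = (pol x).map (algebraMap F k) + C ζ * vp ζ c := by
      simp [vp, pol]
    rw [h1, coeff_add, coeff_C_mul, ih, coeff_map, coeff_pol]
    simp [pol]

theorem pv_AS {R : Type} [CommRing R] [Algebra F R] (τ ζ : R) (m s : ℕ) (hm : 1 ≤ m)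
    (hs : 1 ≤ s) (S : List (List F)) :
    pv τ ζ (S.map (emb m s) ++ [emb m s (rowc s 1)]) =
      X ^ S.length + pol (S.map (fun u => aeval τ (pol u))) := by
  unfold pv
  rw [List.map_append, pol_append, List.map_map]
  have h1 : List.map (av τ ζ ∘ emb m s) S = S.map (fun u => aeval τ (pol u)) := by
    apply List.map_congr_left
    intro u _
    exact av_emb τ ζ hm u
  rw [h1, List.length_map]
  simp only [List.map_cons, List.map_nil, pol, av_emb τ ζ hm, aeval_rowc τ hs, map_one]
  ring

theorem pv_TW {R : Type} [CommRing R] [Algebra F R] (τ ζ : R) (m s : ℕ) (hm : 1 ≤ m)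
    (hs : 1 ≤ s) : pv τ ζ [emb m s (rowc s ((1 : F) + 1))] = 2 := by
  unfold pv
  simp only [List.map_cons, List.map_nil, pol, av_emb τ ζ hm, aeval_rowc τ hs, map_add, map_one,
    mul_zero, add_zero]
  norm_num

theorem mpv_Fe {R : Type} [CommRing R] [Algebra F R] (τ ζ : R) (s : ℕ)
    (hs : 1 ≤ s) (F0 : List (List F)) :
    pv τ ζ (F0.map (fun v => v.map (rowc s))) = pol (F0.map (fun v => aeval ζ (pol v))) := by
  unfold pv
  rw [List.map_map]
  congr 1
  apply List.map_congr_left
  intro v _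
  exact av_rowc τ ζ hs v

theorem Sh3_Fe (s m : ℕ) (F0 : List (List F)) (h : Sh m F0) :
    Sh3 s m (F0.map (fun v => v.map (rowc s))) := by
  intro a ha
  obtain ⟨v, hv, rfl⟩ := List.mem_map.1 ha
  refine ⟨by rw [List.length_map]; exact h v hv, ?_⟩
  intro r hr
  obtain ⟨c, _, rfl⟩ := List.mem_map.1 hr
  exact length_rowc s c

theorem Sh3_AS (s m : ℕ) (hm : 1 ≤ m) (S : List (List F)) (h : Sh s S) :
    Sh3 s m (S.map (emb m s) ++ [emb m s (rowc s 1)]) := by
  intro a ha
  rcases List.mem_append.1 ha with ha | ha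
  · obtain ⟨v, hv, rfl⟩ := List.mem_map.1 ha
    exact ⟨length_emb _ _ _, Sh_emb hm (h v hv)⟩
  · rw [List.mem_singleton] at ha
    subst ha
    exact ⟨length_emb _ _ _, Sh_emb hm (length_rowc _ _)⟩

theorem Sh3_TW (s m : ℕ) (hm : 1 ≤ m) : Sh3 s m [emb m s (rowc s ((1 : F) + 1))] := by
  intro a ha
  rw [List.mem_singleton] at ha
  subst ha
  exact ⟨length_emb _ _ _, Sh_emb hm (length_rowc _ _)⟩

/-- a polynomial and its value at `0` modulo `τ` -/
theorem eval_zero_mod (s : ℕ) (p : k[X][X]) : ∃ b,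
    p.map (Ideal.Quotient.mk (Is k s)) = ((p.map (evalRingHom 0)).map
      ((Ideal.Quotient.mk (Is k s)).comp C)) + C (Ideal.Quotient.mk (Is k s) X) * b := by
  obtain ⟨b, hb⟩ := C_dvd _ (Ideal.Quotient.mk (Is k s) X)
    (p.map (Ideal.Quotient.mk (Is k s)) - ((p.map (evalRingHom 0)).map
      ((Ideal.Quotient.mk (Is k s)).comp C))) (by
    intro i
    rw [coeff_sub, coeff_map, coeff_map, coeff_map, RingHom.comp_apply, ← map_sub]
    apply _root_.map_dvd
    rw [X_dvd_iff]
    simp [coeff_zero_eq_eval_zero])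
  exact ⟨b, by rw [← hb]; ring⟩

variable {s : ℕ} {q : List F}
  {mu : List (List (List F)) → List (List (List F)) → List (List (List F))}
  {dv : List (List (List F)) → List (List (List F)) →
      List (List (List F)) × List (List (List F))}

/-- correctness of the iteration -/
theorem lift_correct (hM : MuOK s q mu) (hD : DvOK s q dv) (hs : 1 ≤ s) (hq : 1 ≤ q.length)
    (S F0 U0 : List (List F)) (hS : Sh s S) (hF0 : Sh q.length F0) (hU0 : Sh q.length U0)
    (hm : 1 ≤ F0.length) (hUl : U0.length = F0.length) (hN : F0.length ≤ S.length)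
    (l : List Unit) (hl : s ≤ 2 ^ l.length) (c : List (List (List F)))
    (hc : c = (l.foldl (fun z _ => stF mu dv ad3 ng3
      (S.map (emb q.length s) ++ [emb q.length s (rowc s 1)])
      [emb q.length s (rowc s ((1 : F) + 1))] z)
      (F0.map (fun v => v.map (rowc s)), U0.map (fun v => v.map (rowc s)))).1) :
    Sh3 s q.length c ∧ c.length = F0.length ∧
    ∀ (ζ : k) (f g : k[X][X]), aeval ζ (mpol q) = 0 →
      f.Monic → g.Monic →
      (∀ i, ∀ κ < s, ((f * g - bcp k (mbiv S)).coeff i).coeff κ = 0) →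
      f.natDegree = F0.length → g.natDegree + F0.length = S.length →
      f.map (evalRingHom 0) = X ^ F0.length + pol (F0.map (fun v => aeval ζ (pol v))) →
      f.map (evalRingHom 0) ∣
        pol (U0.map (fun v => aeval ζ (pol v))) * g.map (evalRingHom 0) - 1 →
      ∀ i < F0.length, ∀ κ < s, (f.coeff i).coeff κ =
        aeval ζ (pol ((c.getD i []).map (fun v => v.getD κ 0))) := by
  have hsh : Shp s q.length F0.length
      (F0.map (fun v => v.map (rowc s)), U0.map (fun v => v.map (rowc s))) :=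
    ⟨Sh3_Fe s _ F0 hF0, by simp, Sh3_Fe s _ U0 hU0, by simpa using hUl⟩
  have hit := iter_inv hM hD F0.length S.length
    (S.map (emb q.length s) ++ [emb q.length s (rowc s 1)])
    [emb q.length s (rowc s ((1 : F) + 1))] hm hN (Sh3_AS s _ hq S hS) (by simp)
    (Sh3_TW s _ hq) rfl _ hsh l
  obtain ⟨y, hy⟩ : ∃ y, y = l.foldl (fun z _ => stF mu dv ad3 ng3
      (S.map (emb q.length s) ++ [emb q.length s (rowc s 1)])
      [emb q.length s (rowc s ((1 : F) + 1))] z)
      (F0.map (fun v => v.map (rowc s)), U0.map (fun v => v.map (rowc s))) := ⟨_, rfl⟩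
  rw [← hy] at hit hc
  subst hc
  refine ⟨hit.1.a, hit.1.al, ?_⟩
  intro ζ f g hζ hf hg hfg hfm hgm hf0 hdvd i hi κ hκ
  have hnt := nontriv (k := k) s hs
  set R := k[X] ⧸ Is k s with hR
  set mk := Ideal.Quotient.mk (Is k s) with hmk
  have hτ : (mk X) ^ s = 0 := by
    rw [← map_pow, hmk, mk_zero]
    intro κ hκ
    rw [coeff_X_pow, if_neg (by omega)]
  have hζ' : aeval (mk (C ζ)) (mpol q) = 0 := by
    rw [hmk, aeval_mkC, hζ, C_0, map_zero]
  have hfR : (f.map mk).Monic := hf.map _
  have hfRm : (f.map mk).natDegree = F0.length := by rw [hf.natDegree_map, hfm]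
  have hprod : pv (mk X) (mk (C ζ)) (S.map (emb q.length s) ++ [emb q.length s (rowc s 1)]) =
      f.map mk * g.map mk := by
    rw [pv_AS _ _ _ _ hq hs, ← bcp_mk, ← Polynomial.map_mul]
    symm
    rw [← sub_eq_zero, ← Polynomial.map_sub]
    ext1 j
    rw [coeff_map, coeff_zero, mk_zero]
    exact hfg j
  have hI : Inv (mk X) (mk (C ζ)) (f.map mk) (g.map mk) (mk X)
      (F0.map (fun v => v.map (rowc s)), U0.map (fun v => v.map (rowc s))) := by
    obtain ⟨b1, hb1⟩ := eval_zero_mod s f
    obtain ⟨b2, hb2⟩ := eval_zero_mod s g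
    obtain ⟨h0, hh0⟩ := hdvd
    have e1 : ∀ V : List (List F), pol (V.map (fun v => aeval (mk (C ζ)) (pol v))) =
        (pol (V.map (fun v => aeval ζ (pol v)))).map (mk.comp C) := by
      intro V
      rw [pol_map, List.map_map]
      congr 1
      apply List.map_congr_left
      intro v _
      exact aeval_mkC s ζ (pol v)
    have e2 : mpv (mk X) (mk (C ζ)) (F0.map (fun v => v.map (rowc s))) =
        (f.map (evalRingHom 0)).map (mk.comp C) := by
      unfold mpv
      rw [mpv_Fe _ _ _ hs, e1, hf0, Polynomial.map_add, Polynomial.map_pow, map_X,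
        List.length_map]
    have e3 := congrArg (Polynomial.map (mk.comp C)) hh0
    rw [Polynomial.map_sub, Polynomial.map_mul, Polynomial.map_mul, Polynomial.map_one, ← e1]
      at e3
    refine ⟨⟨-b1, ?_⟩, ⟨h0.map (mk.comp C), ?_⟩⟩
    · simp only
      rw [e2, hb1]
      ring
    · refine ⟨pol (U0.map (fun v => aeval (mk (C ζ)) (pol v))) * b2 - b1 * h0.map (mk.comp C), ?_⟩
      simp only
      rw [mpv_Fe _ _ _ hs, hb1, hb2]
      linear_combination e3
  have hfin := hit.2 R (mk X) (mk (C ζ)) hτ hζ' (f.map mk) (g.map mk) (mk X) hfR hfRm hprod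
    (pv_TW _ _ _ _ hq hs) hI
  obtain ⟨⟨b, hb⟩, _⟩ := hfin
  have hz : (mk X) ^ (2 ^ l.length) = 0 := by
    obtain ⟨d, hd⟩ := Nat.exists_eq_add_of_le hl
    rw [hd, pow_add, hτ, zero_mul]
  rw [hz, C_0, zero_mul, add_zero] at hb
  have e4 := congrArg (fun P => coeff P i) hb
  have hcl : y.1.length = F0.length := hit.1.al
  unfold mpv pv at e4
  rw [coeff_add, coeff_X_pow, if_neg (by omega), zero_add, coeff_pol, coeff_map,
    List.getD_eq_getElem _ _ (by rw [List.length_map]; omega), List.getElem_map] at e4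
  rw [List.getD_eq_getElem _ _ (by omega), ← coeff_vp]
  rw [← mk_vp, ← sub_eq_zero, ← map_sub, mk_zero] at e4
  have e5 := e4 κ hκ
  rw [coeff_sub, sub_eq_zero] at e5
  exact e5.symm

end ring

/-! ### the program -/

/-- input -/
abbrev IT : Ty := .prod Un (.prod Un (.prod Po (.prod Ma (.prod Ma Ma))))

/-- the zero row -/
def zrP : Pr [] IT Po := .comp (.pair (.comp .snd .fst) (.pair .zero .nil)) fitP

/-- input with the zero row -/
abbrev I1 : Ty := .prod IT Po

/-- the pair (modulus, zero row) -/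
def qzP : Pr [] I1 (.prod Po Po) := .pair (.comp .fst (.comp .snd (.comp .snd .fst))) .snd

/-- the polynomial to be divided -/
def asP : Pr [] I1 ML :=
  .comp (.pair
    (.comp (.pair qzP (.comp .fst (.comp .snd (.comp .snd (.comp .snd .fst))))) (mapP embP))
    (.comp (.pair (.comp (.pair qzP
      (.comp (.pair (.comp .fst (.comp .snd .fst)) .one) rowcP)) embP) .nil) .cons)) appP

/-- the constant two -/
def twP : Pr [] I1 ML :=
  .comp (.pair (.comp (.pair qzP
    (.comp (.pair (.comp .fst (.comp .snd .fst)) (.comp (.pair .one .one) .add)) rowcP)) embP)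
    .nil) .cons

/-- rows of constants -/
def ceP : Pr [] (.prod Un Ma) ML := mapP (mapP rowcP)

/-- the initial state -/
def inP : Pr [] I1 (.prod ML ML) :=
  .pair (.comp (.pair (.comp .fst (.comp .snd .fst))
      (.comp .fst (.comp .snd (.comp .snd (.comp .snd (.comp .snd .fst)))))) ceP)
    (.comp (.pair (.comp .fst (.comp .snd .fst))
      (.comp .fst (.comp .snd (.comp .snd (.comp .snd (.comp .snd .snd)))))) ceP)

/-- the context of the step -/
def cxP : Pr [] I1 AT :=
  .pair (.comp .fst .fst) (.pair (.comp .fst (.comp .snd .fst))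
    (.pair (.comp .fst (.comp .snd (.comp .snd .fst))) (.pair asP twP)))

/-- the program -/
def mainP (pm : Pr [] AT ML) (pd : Pr [] AT (.prod ML ML)) : Pr [] IT ML :=
  lt zrP (.comp (.comp (.pair cxP (.pair inP (.comp (.comp .fst (.comp .snd .fst)) lgP)))
    (foldP (stP pm pd))) .fst)

section main
variable {F : Type} [Field F] [DecidableEq F]

theorem val_ceP (s : ℕ) (F0 : List (List F)) :
    ceP.val (F := F) () (un s, F0) = F0.map (fun v => v.map (rowc s)) := by
  simp only [ceP, val_mapP, val_rowcP]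
  simp [un]

theorem val_asP (r s : ℕ) (q : List F) (S F0 U0 : List (List F)) :
    asP.val (F := F) () ((un r, (un s, (q, (S, (F0, U0))))), fit s 0 []) =
      S.map (emb q.length s) ++ [emb q.length s (rowc s 1)] := by
  simp only [asP, qzP, val_comp, val_pair, val_fst, val_snd, val_mapP, val_embP, val_rowcP,
    val_one, val_nil, val_cons, val_appP]
  simp only [un, List.length_replicate]
  rfl

theorem val_twP (r s : ℕ) (q : List F) (S F0 U0 : List (List F)) :
    twP.val (F := F) () ((un r, (un s, (q, (S, (F0, U0))))), fit s 0 []) =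
      [emb q.length s (rowc s ((1 : F) + 1))] := by
  simp only [twP, qzP, val_comp, val_pair, val_fst, val_snd, val_embP, val_rowcP,
    val_one, val_nil, val_cons, val_add]
  simp only [un, List.length_replicate]
  rfl

theorem val_zrP (r s : ℕ) (q : List F) (S F0 U0 : List (List F)) :
    zrP.val (F := F) () (un r, (un s, (q, (S, (F0, U0))))) = fit s 0 [] := by
  simp only [zrP, val_comp, val_pair, val_fst, val_snd, val_zero, val_nil, val_fitP]
  simp only [un, List.length_replicate]

theorem val_inP (r s : ℕ) (q : List F) (S F0 U0 : List (List F)) (z : List F) :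
    inP.val (F := F) () ((un r, (un s, (q, (S, (F0, U0))))), z) =
      (F0.map (fun v => v.map (rowc s)), U0.map (fun v => v.map (rowc s))) := by
  simp only [inP, val_comp, val_pair, val_fst, val_snd]
  exact Prod.ext (val_ceP s F0) (val_ceP s U0)

theorem val_cxP (r s : ℕ) (q : List F) (S F0 U0 : List (List F)) :
    cxP.val (F := F) () ((un r, (un s, (q, (S, (F0, U0))))), fit s 0 []) =
      (un r, (un s, (q, (S.map (emb q.length s) ++ [emb q.length s (rowc s 1)],
        [emb q.length s (rowc s ((1 : F) + 1))])))) := by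
  simp only [cxP, val_comp, val_pair, val_fst, val_snd]
  rw [val_asP, val_twP]

/-- the list which counts the iterations -/
noncomputable def itl (F : Type) [Field F] [DecidableEq F] (s : ℕ) : List Unit :=
  (lgP : Pr [] Un (.list .unit)).val (F := F) () (un s)

theorem length_itl (s : ℕ) : (itl F s).length = Nat.clog 2 s := by
  have := val_lgP (F := F) (s := []) (a := .unit) () (un s)
  rw [show List.length (un s) = s by simp [un]] at this
  exact this

theorem val_mainP (pm : Pr [] AT ML) (pd : Pr [] AT (.prod ML ML)) (r s : ℕ) (q : List F)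
    (S F0 U0 : List (List F)) :
    (mainP pm pd).val (F := F) () (un r, (un s, (q, (S, (F0, U0))))) =
      ((itl F s).foldl (fun z _ => stF (muF pm (un r) (un s) q) (dvF pd (un r) (un s) q) ad3 ng3
        (S.map (emb q.length s) ++ [emb q.length s (rowc s 1)])
        [emb q.length s (rowc s ((1 : F) + 1))] z)
        (F0.map (fun v => v.map (rowc s)), U0.map (fun v => v.map (rowc s)))).1 := by
  have e1 : (mainP pm pd).val (F := F) () (un r, (un s, (q, (S, (F0, U0))))) =
      ((foldP (stP pm pd)).val (F := F) ()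
        (cxP.val (F := F) () ((un r, (un s, (q, (S, (F0, U0))))),
            zrP.val (F := F) () (un r, (un s, (q, (S, (F0, U0)))))),
          (inP.val (F := F) () ((un r, (un s, (q, (S, (F0, U0))))),
            zrP.val (F := F) () (un r, (un s, (q, (S, (F0, U0)))))), itl F s))).1 := rfl
  rw [e1, val_zrP, val_cxP, val_inP, val_foldP]
  congr 2
  funext z u
  obtain ⟨A, U⟩ := z
  exact val_stP pm pd (un r) (un s) q _ _ A U

theorem cost_ceP (s n : ℕ) (F0 : List (List F)) (h : Sh n F0) :
    ceP.cost (F := F) () () (un s, F0) ≤ ((20 * s + 25) * n + 18) * F0.length + 5 := by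
  have e : (un s).length = s := by simp [un]
  refine (cost_mapP_le (s := []) (F := F) (c := Un) (a := Po) (b := Ma) (mapP rowcP) () ()
    (un s, F0) ((20 * s + 25) * n + 5) ?_).trans (by simp only; linarith)
  intro y hy
  have h1 := cost_mapP_le (s := []) (F := F) (c := Un) (a := .fld) (b := Po) rowcP () ()
    (un s, y) (20 * s + 12) (fun c _ => by
      have := cost_rowcP (s := []) (F := F) () () (un s, c)
      simp only [e] at this
      exact this)
  have h2 : List.length y = n := h y hy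
  simp only [h2] at h1
  exact h1

theorem cost_asP (r s : ℕ) (q : List F) (S F0 U0 : List (List F)) :
    asP.cost (F := F) () () ((un r, (un s, (q, (S, (F0, U0))))), fit s 0 []) ≤
      (20 * q.length + 47) * S.length + 20 * q.length + 20 * s + 100 := by
  have e : (un s).length = s := by simp [un]
  have h1 := cost_mapP_le (s := []) (F := F) (c := .prod Po Po) (a := Po) (b := Ma) embP () ()
    ((q, fit s 0 []), S) (20 * q.length + 14) (fun u _ => cost_embP (s := []) () () _)
  have h2 := cost_rowcP (s := []) (F := F) () () (un s, 1)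
  have h3 := cost_embP (s := []) (F := F) () () ((q, fit s 0 []), rowc s 1)
  have h4 := cost_appP (s := []) (F := F) (a := Ma) () ()
    (S.map (emb q.length s), [emb q.length s (rowc s 1)])
  simp only [e, List.length_map] at h1 h2 h3 h4
  have h5 : (mapP (embP : Pr [] (.prod (.prod Po Po) Po) Ma)).val (F := F) ()
      ((q, fit s 0 []), S) = S.map (emb q.length s) := by
    simp only [val_mapP, val_embP]
    rfl
  have h6 : (rowcP : Pr [] (.prod Un .fld) Po).val (F := F) () (un s, 1) = rowc s 1 := by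
    simp only [val_rowcP, e]
  have h7 : (embP : Pr [] (.prod (.prod Po Po) Po) Ma).val (F := F) ()
      ((q, fit s 0 []), rowc s 1) = emb q.length s (rowc s 1) := by
    simp only [val_embP]
    rfl
  simp only [asP, qzP, cost_comp, cost_pair, cost_fst, cost_snd, cost_one, cost_nil, cost_cons,
    val_comp, val_pair, val_fst, val_snd, val_one, val_nil, val_cons, h5, h6, h7]
  nlinarith

theorem cost_twP (r s : ℕ) (q : List F) (S F0 U0 : List (List F)) :
    twP.cost (F := F) () () ((un r, (un s, (q, (S, (F0, U0))))), fit s 0 []) ≤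
      20 * q.length + 20 * s + 100 := by
  have e : (un s).length = s := by simp [un]
  have h2 := cost_rowcP (s := []) (F := F) () () (un s, (1 : F) + 1)
  have h3 := cost_embP (s := []) (F := F) () () ((q, fit s 0 []), rowc s ((1 : F) + 1))
  simp only [e] at h2 h3
  have h6 : (rowcP : Pr [] (.prod Un .fld) Po).val (F := F) () (un s, (1 : F) + 1) =
      rowc s ((1 : F) + 1) := by
    simp only [val_rowcP, e]
  simp only [twP, qzP, cost_comp, cost_pair, cost_fst, cost_snd, cost_one, cost_nil, cost_cons,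
    cost_add, val_add,
    val_comp, val_pair, val_fst, val_snd, val_one, val_nil, h6]
  omega

theorem cost_zrP (r s : ℕ) (q : List F) (S F0 U0 : List (List F)) :
    zrP.cost (F := F) () () (un r, (un s, (q, (S, (F0, U0))))) ≤ 20 * s + 20 := by
  have e : (un s).length = s := by simp [un]
  have h := cost_fitP (s := []) (F := F) (a := .fld) (b := .unit) () ()
    (un s, ((0 : F), ([] : List F)))
  simp only [e] at h
  simp only [zrP, cost_comp, cost_pair, cost_fst, cost_snd, cost_zero, cost_nil, val_comp,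
    val_pair, val_fst, val_snd, val_zero, val_nil]
  omega

theorem cost_mainP (pm : Pr [] AT ML) (pd : Pr [] AT (.prod ML ML)) (r s : ℕ) (q : List F)
    (S F0 U0 : List (List F)) (B : ℕ) (hF0 : Sh q.length F0) (hU0 : Sh q.length U0)
    (I : List (List (List F)) × List (List (List F)) → Prop)
    (h0 : I (F0.map (fun v => v.map (rowc s)), U0.map (fun v => v.map (rowc s))))
    (hI : ∀ y, I y → I (stF (muF pm (un r) (un s) q) (dvF pd (un r) (un s) q) ad3 ng3
        (S.map (emb q.length s) ++ [emb q.length s (rowc s 1)])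
        [emb q.length s (rowc s ((1 : F) + 1))] y))
    (hB : ∀ y, I y → (stP pm pd).cost (F := F) () () ((un r, (un s, (q,
      (S.map (emb q.length s) ++ [emb q.length s (rowc s 1)],
        [emb q.length s (rowc s ((1 : F) + 1))])))), (y, ())) ≤ B) :
    (mainP pm pd).cost (F := F) () () (un r, (un s, (q, (S, (F0, U0))))) ≤
      (B + 27) * Nat.clog 2 s + (20 * q.length + 47) * S.length + 40 * q.length + 180 * s +
        ((20 * s + 25) * q.length + 18) * (F0.length + U0.length) + 500 := by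
  have e : (un s).length = s := by simp [un]
  have c0 := cost_zrP (F := F) r s q S F0 U0
  have c1 := cost_asP (F := F) r s q S F0 U0
  have c2 := cost_twP (F := F) r s q S F0 U0
  have c3 := cost_ceP (F := F) s q.length F0 hF0
  have c4 := cost_ceP (F := F) s q.length U0 hU0
  have c5 := cost_lgP (F := F) (s := []) (a := .unit) () () (un s)
  have c6 := cost_foldP_le (s := []) (F := F) (stP pm pd) () ()
    ((un r, (un s, (q,
      (S.map (emb q.length s) ++ [emb q.length s (rowc s 1)],
        [emb q.length s (rowc s ((1 : F) + 1))])))),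
      ((F0.map (fun v => v.map (rowc s)), U0.map (fun v => v.map (rowc s))), itl F s)) B I h0
    (fun y z hy _ => by
      have := hI y hy
      obtain ⟨A, U⟩ := y
      rw [← val_stP] at this
      exact this)
    (fun y z hy _ => hB y hy)
  simp only [e] at c5
  simp only [length_itl] at c6
  have e2 : (mainP pm pd).cost (F := F) () () (un r, (un s, (q, (S, (F0, U0))))) ≤
      zrP.cost (F := F) () () (un r, (un s, (q, (S, (F0, U0))))) +
      asP.cost (F := F) () () ((un r, (un s, (q, (S, (F0, U0))))), fit s 0 []) +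
      twP.cost (F := F) () () ((un r, (un s, (q, (S, (F0, U0))))), fit s 0 []) +
      ceP.cost (F := F) () () (un s, F0) + ceP.cost (F := F) () () (un s, U0) +
      (lgP : Pr [] Un (.list .unit)).cost (F := F) () () (un s) +
      (foldP (stP pm pd)).cost (F := F) () () ((un r, (un s, (q,
      (S.map (emb q.length s) ++ [emb q.length s (rowc s 1)],
        [emb q.length s (rowc s ((1 : F) + 1))])))),
      ((F0.map (fun v => v.map (rowc s)), U0.map (fun v => v.map (rowc s))), itl F s)) + 100 := by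
    have e3 : (mainP pm pd).cost (F := F) () () (un r, (un s, (q, (S, (F0, U0))))) =
        zrP.cost (F := F) () () (un r, (un s, (q, (S, (F0, U0))))) +
        ((cxP.cost (F := F) () () ((un r, (un s, (q, (S, (F0, U0))))),
            zrP.val (F := F) () (un r, (un s, (q, (S, (F0, U0)))))) +
          (inP.cost (F := F) () () ((un r, (un s, (q, (S, (F0, U0))))),
            zrP.val (F := F) () (un r, (un s, (q, (S, (F0, U0)))))) +
          (1 + (1 + 1) + (lgP : Pr [] Un (.list .unit)).cost (F := F) () () (un s)) + 1) + 1 +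
          (foldP (stP pm pd)).cost (F := F) () ()
          (cxP.val (F := F) () ((un r, (un s, (q, (S, (F0, U0))))),
            zrP.val (F := F) () (un r, (un s, (q, (S, (F0, U0)))))),
          (inP.val (F := F) () ((un r, (un s, (q, (S, (F0, U0))))),
            zrP.val (F := F) () (un r, (un s, (q, (S, (F0, U0)))))), itl F s))) + 1) + 2 := by
      simp only [mainP, cost_lt, cost_comp, cost_pair, cost_fst, cost_snd, val_comp, val_pair,
        val_fst, val_snd]
      rfl
    rw [e3, val_zrP, val_cxP, val_inP]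
    simp only [cxP, inP, cost_comp, cost_pair, cost_fst, cost_snd, val_comp, val_pair, val_fst,
      val_snd]
    omega
  have e4 : ((20 * s + 25) * q.length + 18) * (F0.length + U0.length) =
    ((20 * s + 25) * q.length + 18) * F0.length + ((20 * s + 25) * q.length + 18) * U0.length := by
    ring
  omega

end main

theorem bnd (K a b Q QQ N m : ℕ) (h : (a + 1) * (b + 1) ≤ 2 * ((N + 1) * (m + 1)))
    (hQ : Q ≤ QQ) : K * ((a + 1) * (b + 1) * Q) ≤ 2 * K * ((N + 1) * (m + 1) * QQ) := by
  have h1 : (a + 1) * (b + 1) * Q ≤ 2 * ((N + 1) * (m + 1)) * QQ := Nat.mul_le_mul h hQ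
  calc K * ((a + 1) * (b + 1) * Q) ≤ K * (2 * ((N + 1) * (m + 1)) * QQ) :=
        Nat.mul_le_mul_left _ h1
    _ = 2 * K * ((N + 1) * (m + 1) * QQ) := by ring

theorem ar1 (N m : ℕ) (hm : 1 ≤ m) (hN : m ≤ N) :
    (m + 1) * (m + 1) ≤ 2 * ((N + 1) * (m + 1)) ∧
    (N + 1 + 1) * (m + 1) ≤ 2 * ((N + 1) * (m + 1)) ∧
    (2 * m + 1) * (m + 1) ≤ 2 * ((N + 1) * (m + 1)) ∧
    (m + 1) * (N + 1 - m + 1) ≤ 2 * ((N + 1) * (m + 1)) := by
  have e : 2 * ((N + 1) * (m + 1)) = (2 * (N + 1)) * (m + 1) := by ring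
  rw [e]
  refine ⟨Nat.mul_le_mul_right _ (by omega), Nat.mul_le_mul_right _ (by omega),
    Nat.mul_le_mul_right _ (by omega), ?_⟩
  rw [mul_comm (m + 1)]
  exact Nat.mul_le_mul_right _ (by omega)

theorem ar2 (T m P W : ℕ) (hT : T ≤ 151 * P) (hP : 1 ≤ P) (h : m * P + P ≤ W) (hm : 1 ≤ m) :
    T * m + 15 ≤ 200 * W ∧ T * 1 + 15 ≤ 200 * W ∧ T * m + 8 ≤ 200 * W := by
  have h1 : T * m ≤ 151 * (m * P) := by
    calc T * m ≤ (151 * P) * m := Nat.mul_le_mul_right _ hT
      _ = 151 * (m * P) := by ring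
  refine ⟨by omega, ?_, by omega⟩
  have h2 : P ≤ m * P := Nat.le_mul_of_pos_left _ hm
  omega

theorem ar3 (a b s n : ℕ) (hs : 1 ≤ s) (hn : 1 ≤ n) :
    (a * s + b) * n + b ≤ (a + 2 * b) * (s * n) := by
  have h1 : n ≤ s * n := Nat.le_mul_of_pos_left _ hs
  have h2 : 1 ≤ s * n := Nat.mul_pos hs hn
  have h3 : b * n ≤ b * (s * n) := Nat.mul_le_mul_left _ h1
  have h4 : b * 1 ≤ b * (s * n) := Nat.mul_le_mul_left _ h2
  calc (a * s + b) * n + b = a * (s * n) + b * n + b * 1 := by ring
    _ ≤ a * (s * n) + b * (s * n) + b * (s * n) := by omega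
    _ = (a + 2 * b) * (s * n) := by ring

theorem ar4 (N m W P x y : ℕ) (hN : N * P ≤ W) (hm : m * P ≤ W) (hx : x ≤ 67 * P)
    (hy : y ≤ 70 * P) : x * N ≤ 67 * W ∧ y * (m + m) ≤ 140 * W := by
  constructor
  · calc x * N ≤ (67 * P) * N := Nat.mul_le_mul_right _ hx
      _ = 67 * (N * P) := by ring
      _ ≤ 67 * W := Nat.mul_le_mul_left _ hN
  · calc y * (m + m) ≤ (70 * P) * (m + m) := Nat.mul_le_mul_right _ hy
      _ = 140 * (m * P) := by ring
      _ ≤ 140 * W := Nat.mul_le_mul_left _ hm

theorem ar5 (Q W L c a1 a2 a3 B : ℕ) (hW : 1 ≤ W) (hL : 1 ≤ L) (hc : c ≤ L)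
    (hB : B = 11 * ((2 * Q + 200) * W) + 300) (h1 : a1 ≤ 67 * W) (h2 : a2 ≤ 140 * W)
    (h3 : a3 ≤ 720 * W) : (B + 27) * c + a1 + a3 + a2 ≤ (22 * Q + 6000) * (W * L) := by
  have e1 : B + 27 ≤ (22 * Q + 2527) * W := by
    rw [hB]
    nlinarith
  have e2 : (B + 27) * c ≤ (22 * Q + 2527) * (W * L) := by
    calc (B + 27) * c ≤ ((22 * Q + 2527) * W) * L := Nat.mul_le_mul e1 hc
      _ = (22 * Q + 2527) * (W * L) := by ring
  have e3 : W ≤ W * L := Nat.le_mul_of_pos_right _ hL
  nlinarith

theorem ql_mono (k k' P : ℕ) (h : k ≤ k') : ql k P ≤ ql k' P := by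
  unfold ql
  apply Nat.mul_le_mul_left
  apply Nat.pow_le_pow_right
  · unfold lgc; omega
  · exact h

theorem ql_succ (k P : ℕ) : ql (k + 1) P = ql k P * lgc (P + 1) := by
  unfold ql
  rw [pow_succ]
  ring

end K12

open K12 in
/-- lifting of a factor -/
theorem specLift (h1 : SpecMulP) (h2 : SpecDivP) : SpecLift := by
  obtain ⟨pm, Cm, km, hm⟩ := h1
  obtain ⟨pd, Cd, kd, hd⟩ := h2
  refine ⟨mainP pm pd, 22 * (Cm + Cd) + 6000, km + kd + 1, ?_⟩
  intro F _ _ r s q S F0 U0 hr hr0 hs hq hS hF0 hU0 hm1 hUl hN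
  have hM : MuOK s q (muF pm (un r) (un s) q) :=
    ⟨fun A B hA hB => (hm F r s q A B hr hr0 hs hq hA hB).1,
      fun A B hA hB => (hm F r s q A B hr hr0 hs hq hA hB).2.1,
      fun A B hA hB => (hm F r s q A B hr hr0 hs hq hA hB).2.2.1⟩
  have hMc : ∀ A B, Sh3 s q.length A → Sh3 s q.length B →
      pm.cost () () (un r, (un s, (q, (A, B)))) ≤
        Cm * ((A.length + 1) * (B.length + 1) * ql km (s * q.length)) :=
    fun A B hA hB => (hm F r s q A B hr hr0 hs hq hA hB).2.2.2
  have hD : DvOK s q (dvF pd (un r) (un s) q) :=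
    ⟨fun A B hA hB => (hd F r s q A B hr hr0 hs hq hA hB).1,
      fun A B hA hB => (hd F r s q A B hr hr0 hs hq hA hB).2.1,
      fun A B hA hB => (hd F r s q A B hr hr0 hs hq hA hB).2.2.1,
      fun A B hA hB => (hd F r s q A B hr hr0 hs hq hA hB).2.2.2.1,
      fun A B hA hB => (hd F r s q A B hr hr0 hs hq hA hB).2.2.2.2.1⟩
  have hDc : ∀ A B, Sh3 s q.length A → Sh3 s q.length B →
      pd.cost () () (un r, (un s, (q, (A, B)))) ≤
        Cd * ((A.length + 1) * (B.length + 1) * ql kd (s * q.length)) :=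
    fun A B hA hB => (hd F r s q A B hr hr0 hs hq hA hB).2.2.2.2.2
  have hll : s ≤ 2 ^ (itl F s).length := by
    rw [length_itl]
    exact Nat.le_pow_clog (by norm_num) s
  have hval := val_mainP (F := F) pm pd r s q S F0 U0
  refine ⟨(lift_correct (k := F) hM hD hs hq S F0 U0 hS hF0 hU0 hm1 hUl hN (itl F s) hll _
      hval).1, (lift_correct (k := F) hM hD hs hq S F0 U0 hS hF0 hU0 hm1 hUl hN (itl F s) hll _
      hval).2.1, ?_, ?_⟩
  · intro k _ _ ζ f g
    exact (lift_correct (k := k) hM hD hs hq S F0 U0 hS hF0 hU0 hm1 hUl hN (itl F s) hll _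
      hval).2.2 ζ f g
  -- the running time
  have hTW := Sh3_TW (F := F) s q.length hq
  have hAS := Sh3_AS s q.length hq S hS
  have hASl : (S.map (emb q.length s) ++ [emb q.length s (rowc s 1)]).length = S.length + 1 := by
    simp
  have hTWl : [emb q.length s (rowc s ((1 : F) + 1))].length = 1 := rfl
  obtain ⟨P, hP⟩ : ∃ P, P = s * q.length := ⟨_, rfl⟩
  have hP1 : 1 ≤ P := by rw [hP]; exact Nat.mul_pos hs hq
  have hPs : s ≤ P := by rw [hP]; exact Nat.le_mul_of_pos_right _ hq
  have hPq : q.length ≤ P := by rw [hP]; exact Nat.le_mul_of_pos_left _ hs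
  obtain ⟨QQ, hQQ⟩ : ∃ QQ, QQ = ql (km + kd) P := ⟨_, rfl⟩
  have hq1 : ql km (s * q.length) ≤ QQ := by rw [hQQ, ← hP]; exact ql_mono _ _ _ (by omega)
  have hq2 : ql kd (s * q.length) ≤ QQ := by rw [hQQ, ← hP]; exact ql_mono _ _ _ (by omega)
  have hPQ : P ≤ QQ := by
    rw [hQQ]
    unfold ql
    have : 1 ≤ lgc (P + 1) ^ (km + kd) := Nat.one_le_pow _ _ (by unfold lgc; omega)
    nlinarith
  obtain ⟨N, hNd⟩ : ∃ N, N = S.length := ⟨_, rfl⟩
  obtain ⟨m, hmd⟩ : ∃ m, m = F0.length := ⟨_, rfl⟩
  rw [← hNd] at hN hASl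
  rw [← hmd] at hN hm1 hUl
  obtain ⟨W, hW⟩ : ∃ W, W = (N + 1) * (m + 1) * QQ := ⟨_, rfl⟩
  have hWP : (m + 1) * P ≤ W := by
    rw [hW]
    calc (m + 1) * P ≤ (m + 1) * QQ := Nat.mul_le_mul_left _ hPQ
      _ ≤ (N + 1) * ((m + 1) * QQ) := Nat.le_mul_of_pos_left _ (by omega)
      _ = (N + 1) * (m + 1) * QQ := by ring
  have hWN : (N + 1) * P ≤ W := by
    rw [hW]
    calc (N + 1) * P ≤ (N + 1) * QQ := Nat.mul_le_mul_left _ hPQ
      _ ≤ (m + 1) * ((N + 1) * QQ) := Nat.le_mul_of_pos_left _ (by omega)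
      _ = (N + 1) * (m + 1) * QQ := by ring
  have hWP0 : P ≤ W := (Nat.le_mul_of_pos_left _ (by omega)).trans hWP
  have hW1 : 1 ≤ W := hP1.trans hWP0
  have hlin : ∀ a b : ℕ, (a * s + b) * q.length + b ≤ (a + 2 * b) * P := by
    intro a b
    rw [hP]
    exact ar3 a b s _ hs hq
  have hmp : m * P + P ≤ W := by
    calc m * P + P = (m + 1) * P := by ring
      _ ≤ W := hWP
  -- the step
  have hstep : ∀ y, Shp s q.length m y → (stP pm pd).cost (F := F) () () ((un r, (un s, (q,
      (S.map (emb q.length s) ++ [emb q.length s (rowc s 1)],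
        [emb q.length s (rowc s ((1 : F) + 1))])))), (y, ())) ≤
        11 * ((2 * (Cm + Cd) + 200) * W) + 300 := by
    rintro ⟨A, U⟩ hy
    obtain ⟨⟨s1, l1⟩, ⟨s2, l2⟩, ⟨s3, l3⟩, hrest⟩ := step_shape hM hD m N _ _ A U hm1 hN hAS hASl
      hTW hTWl hy
    obtain ⟨hA, hAl, hU, hUl'⟩ := hy
    simp only at hA hAl hU hUl'
    obtain ⟨F', hF'⟩ : ∃ F', F' = ad3 A (dvF pd (un r) (un s) q (muF pm (un r) (un s) q U
      (dvF pd (un r) (un s) q (S.map (emb q.length s) ++ [emb q.length s (rowc s 1)]) A).2)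
      A).2 := ⟨_, rfl⟩
    obtain ⟨⟨s4, l4⟩, ⟨s5, l5⟩, ⟨s6, l6⟩, ⟨s7, l7⟩, ⟨s8, l8⟩, ⟨s9, l9⟩, _⟩ := hrest F' hF'
    have hmm : ∀ K : ℕ, K ≤ Cm + Cd → 2 * K * W ≤ (2 * (Cm + Cd) + 200) * W := fun K hK =>
      Nat.mul_le_mul_right _ (by omega)
    have hqd : ∀ A G : List (List (List F)), ∀ a b : ℕ, Sh3 s q.length A → Sh3 s q.length G →
        A.length = a → G.length = b → (a + 1) * (b + 1) ≤ 2 * ((N + 1) * (m + 1)) →
        pd.cost () () (un r, (un s, (q, (A, G)))) ≤ (2 * (Cm + Cd) + 200) * W := by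
      intro A G a b hA hG hla hlb hab
      refine (hDc A G hA hG).trans ?_
      rw [hla, hlb]
      refine (bnd Cd a b _ QQ N m hab hq2).trans ?_
      rw [← hW]
      exact hmm Cd (by omega)
    have hqm : ∀ A G : List (List (List F)), ∀ a b : ℕ, Sh3 s q.length A → Sh3 s q.length G →
        A.length = a → G.length = b → (a + 1) * (b + 1) ≤ 2 * ((N + 1) * (m + 1)) →
        pm.cost () () (un r, (un s, (q, (A, G)))) ≤ (2 * (Cm + Cd) + 200) * W := by
      intro A G a b hA hG hla hlb hab
      refine (hMc A G hA hG).trans ?_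
      rw [hla, hlb]
      refine (bnd Cm a b _ QQ N m hab hq1).trans ?_
      rw [← hW]
      exact hmm Cm (by omega)
    have h200 : 200 * W ≤ (2 * (Cm + Cd) + 200) * W := Nat.mul_le_mul_right _ (by omega)
    obtain ⟨t1, t2, t3, t4⟩ := ar1 N m hm1 hN
    have g1 := ar2 _ m P W (hlin 41 55) hP1 hmp hm1
    have g2 := ar2 _ m P W ((hlin 15 22).trans (Nat.mul_le_mul_right P (by norm_num))) hP1 hmp hm1
    refine cost_stP pm pd (un r) (un s) q _ _ A U _ F' hF' ?_ ?_ ?_ ?_ ?_ ?_ ?_ ?_ ?_ ?_ ?_
    · exact hqd _ _ (N + 1) m hAS hA hASl hAl t2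
    · exact hqm _ _ m m hU s1 hUl' l1 t1
    · exact hqd _ _ (2 * m) m s2 hA l2 hAl t3
    · refine (cost_ad3P (s := []) (F := F) () () _ s q.length hA).trans (le_trans ?_ h200)
      simp only [hAl]
      exact g1.1
    · exact hqd _ _ (N + 1) m hAS s4 hASl l4 t2
    · exact hqm _ _ m (N + 1 - m) hU s5 hUl' l5 t4
    · exact hqd _ _ (N + 1) m s6 s4 l6 l4 t2
    · refine (cost_ng3P (s := []) (F := F) () () _ s q.length s7).trans (le_trans ?_ h200)
      rw [l7]
      exact g2.2.2
    · refine (cost_ad3P (s := []) (F := F) () () _ s q.length hTW).trans (le_trans ?_ h200)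
      simp only [hTWl]
      exact g1.2.1
    · exact hqm _ _ m m hU s8 hUl' l8 t1
    · exact hqd _ _ (2 * m) m s9 s4 l9 l4 t3
  have hcost := cost_mainP (F := F) pm pd r s q S F0 U0
    (11 * ((2 * (Cm + Cd) + 200) * W) + 300) hF0 hU0 (Shp s q.length m)
    ⟨Sh3_Fe s _ F0 hF0, by simpa using hmd.symm, Sh3_Fe s _ U0 hU0, by simpa using hUl⟩
    (fun y hy => by
      obtain ⟨A, U⟩ := y
      exact ((step_shape hM hD m N _ _ A U hm1 hN hAS hASl hTW hTWl hy).2.2.2 _ rfl).2.2.2.2.2.2)
    hstep
  refine hcost.trans ?_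
  rw [← hNd, ← hmd, hUl, ql_succ, ← hP, ← hQQ]
  obtain ⟨L, hL⟩ : ∃ L, L = lgc (P + 1) := ⟨_, rfl⟩
  have hL1 : 1 ≤ L := by rw [hL]; unfold lgc; omega
  have hcl : Nat.clog 2 s ≤ L := by
    rw [hL]
    unfold lgc
    have := Nat.clog_mono_right 2 (show s ≤ P + 1 by omega)
    omega
  rw [← hL]
  have e1 : (N + 1) * (m + 1) * (QQ * L) = W * L := by rw [hW]; ring
  rw [e1]
  have g5 := hlin 20 25
  have f4 := ar4 N m W P (20 * q.length + 47) ((20 * s + 25) * q.length + 18)
    (le_trans (Nat.mul_le_mul_right _ (by omega)) hWN)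
    (le_trans (Nat.mul_le_mul_right _ (by omega)) hWP) (by omega) (by omega)
  have f5 := ar5 (Cm + Cd) W L (Nat.clog 2 s) ((20 * q.length + 47) * N)
    (((20 * s + 25) * q.length + 18) * (m + m)) (40 * q.length + 180 * s + 500) _ hW1 hL1 hcl rfl
    f4.1 f4.2 (by omega)
  omega

end Pool.Agent.H330AB.JK12
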