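import Pool.Agent.H330AB.SpecB2
set_option autoImplicit false
noncomputable section
namespace Pool.Agent.H330AB.JK13
open Polynomial Pool.Agent.H330FB

namespace K13

/-! ### values of lists -/
section vals
variable {F k : Type} [Field F] [Field k] [Algebra F k]

/-- value of a list at a point -/
noncomputable def E (x : k) (l : List F) : k := aeval x (pol l)

@[simp] theorem E_nil (x : k) : E x ([] : List F) = 0 := by simp [E, pol]
@[simp] theorem E_cons (x : k) (a : F) (l : List F) :
    E x (a :: l) = algebraMap F k a + x * E x l := by simp [E, pol]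

theorem E_add (x : k) : ∀ a b : List F, a.length = b.length →
    E x (List.zipWith (fun y z => y + z) a b) = E x a + E x b
  | [], [], _ => by simp
  | a :: l, b :: m, h => by
    simp only [List.zipWith_cons_cons, E_cons, E_add x l m (by simpa using h), map_add]
    ring

theorem E_neg (x : k) (a : List F) : E x (List.map (fun y => -y) a) = -E x a := by
  induction a with
  | nil => simp
  | cons h t ih => simp only [List.map_cons, E_cons, ih, map_neg]; ring

theorem E_fit_nil (x : k) (n : ℕ) : E x (fit n (0 : F) []) = 0 := by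
  induction n with
  | zero => simp [fit]
  | succ n ih => simp [fit, ih]

theorem E_fit (x : k) (n : ℕ) (a : F) (hn : 1 ≤ n) : E x (fit n (0 : F) [a]) = algebraMap F k a := by
  obtain ⟨n, rfl⟩ : ∃ m, n = m + 1 := ⟨n - 1, by omega⟩
  simp [fit, E_fit_nil]

theorem E_of_dvd (x : k) (G a b c : List F) (h : mpol G ∣ pol a * pol b - pol c)
    (hx : aeval x (mpol G) = 0) : E x c = E x a * E x b := by
  obtain ⟨q, hq⟩ := h
  have := congrArg (aeval x) hq
  simp only [map_sub, map_mul, hx, zero_mul] at this
  unfold E
  exact (sub_eq_zero.mp this).symm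

theorem E_sum (x : k) (l : List F) (n : ℕ) (hl : l.length ≤ n) :
    E x l = ∑ i ∈ Finset.range n, algebraMap F k (l.getD i 0) * x ^ i := by
  induction l generalizing n with
  | nil => simp
  | cons a l ih =>
    obtain ⟨n, rfl⟩ : ∃ m, n = m + 1 := ⟨n - 1, by simp at hl; omega⟩
    rw [E_cons, ih n (by simpa using hl), Finset.sum_range_succ', Finset.mul_sum, add_comm]
    simp only [List.getD_cons_zero, pow_zero, mul_one, List.getD_cons_succ]
    congr 1
    refine Finset.sum_congr rfl fun i _ => ?_
    ring

/-- dot product -/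
def dot (a b : List k) : k := (List.zipWith (fun y z => y * z) a b).sum

theorem dot_append (a b : List k) (c : List k) :
    dot c (a ++ b) = dot (c.take a.length) a + dot (c.drop a.length) b := by
  induction a generalizing c with
  | nil => simp [dot]
  | cons x a ih =>
    cases c with
    | nil => simp [dot]
    | cons y c =>
      have := ih c
      simp only [dot, List.cons_append, List.zipWith_cons_cons, List.sum_cons, List.length_cons,
        List.take_succ_cons, List.drop_succ_cons] at this ⊢
      rw [this]; ring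

theorem dot_smul (x : k) (a b : List k) : dot a (List.map (fun y => y * x) b) = x * dot a b := by
  induction a generalizing b with
  | nil => simp [dot]
  | cons y a ih =>
    cases b with
    | nil => simp [dot]
    | cons z b =>
      have := ih b
      simp only [dot, List.map_cons, List.zipWith_cons_cons, List.sum_cons] at this ⊢
      rw [this]; ring

/-- unfolding -/
def unf {α : Type} (g : α → α) : ℕ → α → List α
  | 0, _ => []
  | n + 1, y => y :: unf g n (g y)

@[simp] theorem length_unf {α : Type} (g : α → α) (n : ℕ) (y : α) : (unf g n y).length = n := by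
  induction n generalizing y with
  | zero => rfl
  | succ n ih => simp [unf, ih]

theorem map_unf {α β : Type} (g : α → α) (g' : β → β) (f : α → β) (I : α → Prop)
    (hI : ∀ y, I y → I (g y)) (h : ∀ y, I y → f (g y) = g' (f y)) (n : ℕ) (y : α) (hy : I y) :
    (unf g n y).map f = unf g' n (f y) := by
  induction n generalizing y with
  | zero => rfl
  | succ n ih => simp [unf, ih (g y) (hI y hy), h y hy]

theorem mem_unf {α : Type} (g : α → α) (I : α → Prop) (hI : ∀ y, I y → I (g y)) (n : ℕ) (y : α)
    (hy : I y) : ∀ z ∈ unf g n y, I z := by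
  induction n generalizing y with
  | zero => simp [unf]
  | succ n ih =>
    intro z hz
    simp only [unf, List.mem_cons] at hz
    rcases hz with rfl | hz
    · exact hy
    · exact ih (g y) (hI y hy) z hz

theorem dot_pow (y m : k) (v : List F) (r : ℕ) (hv : v.length ≤ r) :
    dot (v.map (algebraMap F k)) (unf (fun z => z * y) r m) = m * E y v := by
  induction v generalizing r m with
  | nil => simp [dot]
  | cons a v ih =>
    obtain ⟨r, rfl⟩ : ∃ s, r = s + 1 := ⟨r - 1, by simp at hv; omega⟩
    have := ih (m * y) r (by simpa using hv)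
    simp only [dot, unf, List.map_cons, List.zipWith_cons_cons, List.sum_cons, E_cons] at this ⊢
    rw [this]; ring

theorem pol_smul (x : k) (l : List k) : pol (l.map (fun y => x * y)) = C x * pol l := by
  induction l with
  | nil => simp [pol]
  | cons a l ih => simp only [List.map_cons, pol, ih, C_mul]; ring

theorem dot_flat (x : k) (j r : ℕ) (c W : List k) (hW : W.length = r) :
    dot c ((unf (List.map (fun y => y * x)) j W).flatten) =
      (pol ((chunks r j c).map (fun v => dot v W))).eval x := by
  induction j generalizing c W with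
  | zero => simp [unf, chunks, pol, dot]
  | succ j ih =>
    simp only [unf, chunks, List.flatten_cons, List.map_cons, pol, eval_add, eval_C, eval_mul,
      eval_X]
    rw [dot_append, ih (c.drop W.length) (W.map (fun y => y * x)) (by simpa using hW), hW]
    congr 1
    have : (fun v => dot v (List.map (fun y => y * x) W)) = (fun v => x * dot v W) := by
      funext v; exact dot_smul x v W
    rw [this]
    have h2 : List.map (fun v => x * dot v W) (chunks r j (List.drop r c)) =
        (List.map (fun v => dot v W) (chunks r j (List.drop r c))).map (fun y => x * y) := by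
      simp
    rw [h2, pol_smul]
    simp

theorem chunks_map {α β : Type} (f : α → β) (r j : ℕ) (c : List α) :
    chunks r j (c.map f) = (chunks r j c).map (List.map f) := by
  induction j generalizing c with
  | zero => rfl
  | succ j ih => simp [chunks, ← ih]

@[simp] theorem length_chunks {α : Type} (r j : ℕ) (c : List α) : (chunks r j c).length = j := by
  induction j generalizing c with
  | zero => rfl
  | succ j ih => simp [chunks, ih]

theorem mem_chunks {α : Type} (r j : ℕ) (c : List α) (h : c.length = j * r) :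
    ∀ v ∈ chunks r j c, v.length = r := by
  induction j generalizing c with
  | zero => simp [chunks]
  | succ j ih =>
    intro v hv
    simp only [chunks, List.mem_cons] at hv
    rcases hv with rfl | hv
    · rw [List.length_take, h]; apply Nat.min_eq_left; nlinarith
    · refine ih (c.drop r) ?_ v hv
      rw [List.length_drop, h]; rw [Nat.succ_mul]; omega

theorem flatten_chunks {α : Type} (r j : ℕ) (c : List α) (h : c.length = j * r) :
    (chunks r j c).flatten = c := by
  induction j generalizing c with
  | zero => simp at h; subst h; rfl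
  | succ j ih =>
    simp only [chunks, List.flatten_cons]
    rw [ih (c.drop r) (by rw [List.length_drop, h, Nat.succ_mul]; omega), List.take_append_drop]

/-- the value of a combination of the columns -/
theorem dot_cols (x y : k) (j r : ℕ) (c : List F) (h : c.length = j * r) :
    dot (c.map (algebraMap F k))
      ((unf (List.map (fun z => z * x)) j (unf (fun z => z * y) r 1)).flatten) =
      (pol ((chunks r j c).map (fun v => E y v))).eval x := by
  rw [dot_flat x j r _ _ (by simp), chunks_map, List.map_map]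
  congr 2
  apply List.map_congr_left
  intro v hv
  simp only [Function.comp]
  rw [dot_pow y 1 v r (mem_chunks r j c h v hv).le, one_mul]

theorem pol_deg {R : Type} [CommRing R] (l : List R) :
    (pol l).degree < ((l.length : ℕ) : WithBot ℕ) := by
  induction l with
  | nil => simp [pol]
  | cons a l ih =>
    rw [pol, List.length_cons]
    refine lt_of_le_of_lt (degree_add_le _ _) (max_lt ?_ ?_)
    · exact lt_of_le_of_lt degree_C_le (by exact_mod_cast Nat.succ_pos _)
    · rw [degree_lt_iff_coeff_zero] at ih ⊢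
      intro m hm
      obtain ⟨m, rfl⟩ : ∃ t, m = t + 1 := ⟨m - 1, by omega⟩
      rw [coeff_X_mul]
      exact ih m (by omega)

theorem pol_eq_zero {R : Type} [CommRing R] (l : List R) (h : pol l = 0) : ∀ x ∈ l, x = 0 := by
  induction l with
  | nil => simp
  | cons a l ih =>
    rw [pol] at h
    have h0 : a = 0 := by
      have := congrArg (fun p => coeff p 0) h
      simpa using this
    have h1 : pol l = 0 := by
      ext m
      have := congrArg (fun p => coeff p (m + 1)) h
      simpa [coeff_C] using this
    intro x hx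
    rcases List.mem_cons.mp hx with rfl | hx
    · exact h0
    · exact ih h1 x hx

theorem mpol_monic {R : Type} [CommRing R] [Nontrivial R] (l : List R) :
    (mpol l).Monic ∧ (mpol l).natDegree = l.length := by
  have h := pol_deg l
  have h1 : (mpol l).Monic := monic_X_pow_add h
  refine ⟨h1, ?_⟩
  have h2 : (mpol l).degree = ((l.length : ℕ) : WithBot ℕ) := by
    rw [mpol, degree_add_eq_left_of_degree_lt (by rw [degree_X_pow]; exact h), degree_X_pow]
  exact natDegree_eq_of_degree_eq_some h2

theorem map_pol {R S : Type} [CommRing R] [CommRing S] (f : R →+* S) (l : List R) :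
    (pol l).map f = pol (l.map f) := by
  induction l with
  | nil => simp [pol]
  | cons a l ih => simp [pol, ih]

theorem map_mpol {R S : Type} [CommRing R] [CommRing S] (f : R →+* S) (l : List R) :
    (mpol l).map f = mpol (l.map f) := by
  simp [mpol, map_pol]

theorem pol_zero_of_vanish (l : List k) (S : Finset k) (hS : l.length ≤ S.card)
    (h : ∀ x ∈ S, (pol l).eval x = 0) : pol l = 0 := by
  by_contra hne
  have h1 : (pol l).natDegree < S.card := by
    have := pol_deg l
    rw [← natDegree_lt_iff_degree_lt hne] at this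
    omega
  exact hne (Polynomial.eq_zero_of_natDegree_lt_card_of_eval_eq_zero' _ S h h1)

/-- divisibility by the polynomial of distinct points -/
theorem prod_dvd (S : Finset k) (f : k[X]) (h : ∀ a ∈ S, f.eval a = 0) :
    ∏ a ∈ S, (X - C a) ∣ f := by
  refine Finset.prod_dvd_of_coprime ?_ ?_
  · intro a _ b _ hab
    exact pairwise_coprime_X_sub_C (fun _ _ h => h) hab
  · intro a ha
    exact dvd_iff_isRoot.mpr (h a ha)

theorem eq_prod (S : Finset k) (f : k[X]) (hf : f.Monic) (hd : f.natDegree = S.card)
    (h : ∀ a ∈ S, f.eval a = 0) : f = ∏ a ∈ S, (X - C a) := by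
  have h1 : (∏ a ∈ S, (X - C a) : k[X]).Monic := monic_prod_of_monic _ _ (fun a _ => monic_X_sub_C a)
  have h2 : (∏ a ∈ S, (X - C a) : k[X]).natDegree = S.card := by
    rw [natDegree_prod_of_monic _ _ (fun a _ => monic_X_sub_C a)]; simp
  exact (eq_of_monic_of_dvd_of_natDegree_le h1 hf (prod_dvd S f h) (by omega))

/-- independence of the columns -/
theorem indep {F : Type} [Field F] {k : Type} [Field k] [Algebra F k] (j r : ℕ) (c : List F)
    (hc : c.length = j * r) (Z : Finset k) (hZ : r ≤ Z.card) (A : k → Finset k)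
    (hA : ∀ ζ ∈ Z, j ≤ (A ζ).card)
    (h : ∀ ζ ∈ Z, ∀ a ∈ A ζ, (pol ((chunks r j c).map (fun v => E ζ v))).eval a = 0) :
    ∀ x ∈ c, x = 0 := by
  have h1 : ∀ ζ ∈ Z, ∀ v ∈ chunks r j c, E ζ v = 0 := by
    intro ζ hζ v hv
    have := pol_zero_of_vanish _ (A ζ) (by simpa using hA ζ hζ) (h ζ hζ)
    exact pol_eq_zero _ this _ (List.mem_map_of_mem hv)
  have h2 : ∀ v ∈ chunks r j c, ∀ x ∈ v, x = 0 := by
    intro v hv x hx
    have h3 : pol (v.map (algebraMap F k)) = 0 := by
      refine pol_zero_of_vanish _ Z (by simpa [mem_chunks r j c hc v hv] using hZ) ?_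
      intro ζ hζ
      have := h1 ζ hζ v hv
      rwa [E, aeval_def, eval₂_eq_eval_map, map_pol] at this
    have h4 := pol_eq_zero _ h3 (algebraMap F k x) (List.mem_map_of_mem hx)
    exact (map_eq_zero _).mp h4
  intro x hx
  rw [← flatten_chunks r j c hc] at hx
  obtain ⟨v, hv, hx⟩ := List.mem_flatten.mp hx
  exact h2 v hv x hx

/-- value of a combination of columns -/
theorem E_comb (x : k) (N n : ℕ) (v : List F) (cols : List (List F)) (c : List F)
    (hv : v.length ≤ N) (hcols : ∀ w ∈ cols, w.length ≤ N) (hn : cols.length = n)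
    (hc : c.length = n)
    (h : cvec v = ∑ i : Fin n, c.getD i 0 • cvec (cols.getD i [])) :
    E x v = dot (c.map (algebraMap F k)) (cols.map (E x)) := by
  have h1 : dot (c.map (algebraMap F k)) (cols.map (E x)) =
      ∑ i : Fin n, algebraMap F k (c.getD i 0) * E x (cols.getD i []) := by
    clear h hcols hv v
    induction cols generalizing c n with
    | nil =>
      simp at hn; subst hn; simp [dot]
    | cons w cols ih =>
      cases c with
      | nil => simp at hn hc; omega
      | cons a c =>
        obtain ⟨n, rfl⟩ : ∃ m, n = m + 1 := ⟨n - 1, by simp at hn; omega⟩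
        have := ih n c (by simpa using hn) (by simpa using hc)
        rw [Fin.sum_univ_succ]
        simp only [dot, List.map_cons, List.zipWith_cons_cons, List.sum_cons] at this ⊢
        rw [this]
        simp
  rw [h1, E_sum x v N hv]
  have h2 : ∀ m, algebraMap F k (v.getD m 0) =
      ∑ i : Fin n, algebraMap F k (c.getD i 0) * algebraMap F k ((cols.getD i []).getD m 0) := by
    intro m
    have := congrArg (fun f : ℕ → F => algebraMap F k (f m)) h
    simpa [cvec, Finset.sum_apply] using this
  simp only [h2]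
  simp only [Finset.sum_mul]
  rw [Finset.sum_comm]
  refine Finset.sum_congr rfl fun i _ => ?_
  rw [E_sum x (cols.getD i []) N ?_, Finset.mul_sum]
  · refine Finset.sum_congr rfl fun m _ => ?_
    ring
  · rw [List.getD_eq_getElem _ _ (by omega)]
    exact hcols _ (List.getElem_mem _)

/-- the columns are a basis -/
theorem spans (N : ℕ) (cols : List (List F)) (v : List F) (hv : v.length = N)
    (hcols : ∀ w ∈ cols, w.length = N) (hn : cols.length = N)
    (h : ∀ c : List F, c.length = N →
      (cvec (List.replicate N (0 : F)) = ∑ i : Fin N, c.getD i 0 • cvec (cols.getD i [])) →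
      ∀ x ∈ c, x = 0) :
    LinearIndependent F (fun i : Fin N => cvec (cols.getD i [])) ∧
    cvec v ∈ Submodule.span F (Set.range (fun i : Fin N => cvec (cols.getD i []))) := by
  have h1 : LinearIndependent F (fun i : Fin N => cvec (cols.getD i [])) := by
    rw [Fintype.linearIndependent_iff]
    intro g hg i
    have h2 := h (List.ofFn g) (by simp) (by
      rw [show cvec (List.replicate N (0 : F)) = 0 from ?_, ← hg]
      · refine Finset.sum_congr rfl fun i _ => ?_
        congr 1
        rw [List.getD_eq_getElem _ _ (by simp)]; simp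
      · funext m
        simp only [cvec, Pi.zero_apply]
        by_cases hm : m < N
        · rw [List.getD_eq_getElem _ _ (by simpa using hm)]; simp
        · rw [List.getD_eq_default _ _ (by simpa using hm)])
    exact h2 (g i) (by simp)
  refine ⟨h1, ?_⟩
  let e : (Fin N → F) →ₗ[F] (ℕ → F) :=
    { toFun := fun w m => if hm : m < N then w ⟨m, hm⟩ else 0
      map_add' := by
        intro a b; funext m
        by_cases hm : m < N <;> simp [hm]
      map_smul' := by
        intro a b; funext m
        by_cases hm : m < N <;> simp [hm] }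
  have he : ∀ l : List F, l.length = N → e (fun i => l.getD i 0) = cvec l := by
    intro l hl
    funext m
    by_cases hm : m < N
    · simp [e, cvec, hm]
    · simp only [e, cvec, LinearMap.coe_mk, AddHom.coe_mk, hm, dite_false]
      rw [List.getD_eq_default _ _ (by omega)]
  have hw : ∀ i : Fin N, (cols.getD i []).length = N := by
    intro i
    rw [List.getD_eq_getElem _ _ (by omega)]
    exact hcols _ (List.getElem_mem _)
  have h3 : LinearIndependent F (fun i : Fin N => (fun m : Fin N => (cols.getD i []).getD m 0)) := by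
    apply LinearIndependent.of_comp e
    convert h1 using 1
    funext i
    exact he _ (hw i)
  have h4 := h3.span_eq_top_of_card_eq_finrank' (by simp)
  have h5 : (fun m : Fin N => v.getD m 0) ∈ Submodule.span F
      (Set.range (fun i : Fin N => (fun m : Fin N => (cols.getD i []).getD m 0))) := by
    rw [h4]; trivial
  have h6 := Submodule.mem_map_of_mem (f := e) h5
  rw [Submodule.map_span, he v hv, ← Set.range_comp] at h6
  convert h6 using 3
  funext i
  exact (he _ (hw i)).symm

end vals
end K13

namespace K13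

section prog
variable {F : Type} [Field F] [DecidableEq F]
variable {s : List (Ty × Ty)} {a b c : Ty}

/-- unfolding, input `(u, (context, start))` -/
def unfP (f : Pr s (.prod c a) a) : Pr s (.prod (.list b) (.prod c a)) (.list a) :=
  .recD (.comp (.pair .snd (.comp (.pair .fst (.up f)) .self)) .cons) .nil

@[simp] theorem val_unfP (f : Pr s (.prod c a) a) (v : SV F s)
    (x : Ty.D F (.prod (.list b) (.prod c a))) :
    (unfP f).val v x = unf (fun y => f.val v (x.2.1, y)) (List.length x.1) x.2.2 := by
  obtain ⟨u, x, y⟩ := x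
  simp only [unfP, val_recD]
  generalize List.length u = n
  induction n generalizing y with
  | zero => simp [goV, unf]
  | succ n ih => simp [goV, unf, ih]

theorem cost_unfP_le (f : Pr s (.prod c a) a) (v : SV F s) (k : SC F s)
    (x : Ty.D F (.prod (.list b) (.prod c a))) (B : ℕ) (I : Ty.D F a → Prop) (h0 : I x.2.2)
    (hI : ∀ y, I y → I (f.val v (x.2.1, y))) (hB : ∀ y, I y → f.cost v k (x.2.1, y) ≤ B) :
    (unfP f).cost v k x ≤ (B + 12) * List.length x.1 + 2 := by
  obtain ⟨u, x, y⟩ := x
  simp only [unfP, cost_recD] at h0 hI hB ⊢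
  generalize List.length u = n
  induction n generalizing y with
  | zero => simp [goC]
  | succ n ih =>
    have e1 := ih (f.val v (x, y)) (hI y h0)
    have e2 := hB y h0
    simp [goC] at e1 ⊢
    nlinarith

/-- iteration, input `(u, (context, start))` -/
def iterP (f : Pr s (.prod c a) a) : Pr s (.prod (.list b) (.prod c a)) a :=
  .comp (.pair (.comp .snd .fst) (.pair (.comp .snd .snd) .fst))
    (foldP (.comp (.pair .fst (.comp .snd .fst)) f))

@[simp] theorem val_iterP (f : Pr s (.prod c a) a) (v : SV F s)
    (x : Ty.D F (.prod (.list b) (.prod c a))) :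
    (iterP f).val v x = (fun y => f.val v (x.2.1, y))^[List.length x.1] x.2.2 := by
  obtain ⟨u, x, y⟩ := x
  simp only [iterP, val_comp, val_pair, val_fst, val_snd, val_foldP]
  induction u generalizing y with
  | nil => rfl
  | cons h t ih => simp only [List.foldl_cons, List.length_cons, Function.iterate_succ]; exact ih _

theorem cost_iterP_le (f : Pr s (.prod c a) a) (v : SV F s) (k : SC F s)
    (x : Ty.D F (.prod (.list b) (.prod c a))) (B : ℕ) (I : Ty.D F a → Prop) (h0 : I x.2.2)
    (hI : ∀ y, I y → I (f.val v (x.2.1, y))) (hB : ∀ y, I y → f.cost v k (x.2.1, y) ≤ B) :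
    (iterP f).cost v k x ≤ (B + 40) * List.length x.1 + 30 := by
  obtain ⟨u, x, y⟩ := x
  have h := cost_foldP_le (s := s) (c := c) (b := a) (a := b)
    (.comp (.pair .fst (.comp .snd .fst)) f) v k (x, (y, u)) (B + 5) I h0
    (fun y z hy _ => by simpa using hI y hy) (fun y z hy _ => by
      have := hB y hy
      simp at this ⊢; omega)
  simp [iterP] at h ⊢
  nlinarith

/-- sum of rows -/
def addP : Pr s (.prod Po Po) Po :=
  .comp (.pair .star .id) (zipP (c := .unit) (.comp .snd .add))

@[simp] theorem val_addP (v : SV F s) (x : Ty.D F (.prod Po Po)) :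
    (addP : Pr s (.prod Po Po) Po).val v x =
      List.zipWith (fun (y z : F) => y + z) (x.1 : List F) (x.2 : List F) := by
  simp [addP]

theorem cost_addP (v : SV F s) (k : SC F s) (x : Ty.D F (.prod Po Po)) :
    (addP : Pr s (.prod Po Po) Po).cost v k x ≤ 60 * List.length x.1 + 20 := by
  have h := cost_zipP_le (s := s) (c := .unit) (a := .fld) (b := .fld) (d := .fld)
    (.comp .snd .add) v k ((), x) 2 (fun _ _ _ _ => by simp)
  simp [addP] at h ⊢
  omega

/-- negative row -/
def negP : Pr s Po Po := .comp (.pair .star .id) (mapP (c := .unit) (.comp .snd .neg))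

@[simp] theorem val_negP (v : SV F s) (x : Ty.D F Po) :
    (negP : Pr s Po Po).val v x = List.map (fun (y : F) => -y) (x : List F) := by
  simp [negP]

theorem cost_negP (v : SV F s) (k : SC F s) (x : Ty.D F Po) :
    (negP : Pr s Po Po).cost v k x ≤ 20 * List.length x + 20 := by
  have h := cost_mapP_le (s := s) (c := .unit) (a := .fld) (b := .fld)
    (.comp .snd .neg) v k ((), x) 2 (fun _ _ => by simp)
  simp [negP] at h ⊢
  omega

/-- constant as an element modulo `G`, input `(G, a)` -/
def conP : Pr s (.prod Po .fld) Po :=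
  .comp (.pair .fst (.pair .zero (.comp (.pair .snd .nil) .cons))) fitP

@[simp] theorem val_conP (v : SV F s) (x : Ty.D F (.prod Po .fld)) :
    (conP : Pr s (.prod Po .fld) Po).val v x = fit (List.length x.1) (0 : F) [(x.2 : F)] := by
  simp [conP]

theorem cost_conP (v : SV F s) (k : SC F s) (x : Ty.D F (.prod Po .fld)) :
    (conP : Pr s (.prod Po .fld) Po).cost v k x ≤ 20 * List.length x.1 + 20 := by
  have h := cost_fitP (s := s) (a := .fld) (b := .fld) v k (x.1, ((0 : F), [(x.2 : F)]))
  simp [conP] at h ⊢
  omega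

/-- multiplication by a fixed element; input `((z, G), y)` -/
def mzP (m : Pr s (.prod (.prod Po Po) Po) Po) : Pr s (.prod (.prod Po Po) Po) Po :=
  .comp (.pair (.pair .snd (.comp .fst .fst)) (.comp .fst .snd)) m

@[simp] theorem val_mzP (m : Pr s (.prod (.prod Po Po) Po) Po) (v : SV F s)
    (x : Ty.D F (.prod (.prod Po Po) Po)) :
    (mzP m).val v x = m.val v ((x.2, x.1.1), x.1.2) := by simp [mzP]

@[simp] theorem cost_mzP (m : Pr s (.prod (.prod Po Po) Po) Po) (v : SV F s) (k : SC F s)
    (x : Ty.D F (.prod (.prod Po Po) Po)) :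
    (mzP m).cost v k x = m.cost v k ((x.2, x.1.1), x.1.2) + 7 := by simp [mzP]; omega

/-- a step of Horner's rule with derivative; input `((z, G), ((p, d), e))` -/
def stepP (m : Pr s (.prod (.prod Po Po) Po) Po) :
    Pr s (.prod (.prod Po Po) (.prod (.prod Po Po) Po)) (.prod Po Po) :=
  .pair (.comp (.pair (.comp (.pair .fst (.comp (.comp .snd .fst) .fst)) (mzP m))
      (.comp .snd .snd)) addP)
    (.comp (.pair (.comp (.pair .fst (.comp (.comp .snd .fst) .snd)) (mzP m))
      (.comp (.comp .snd .fst) .fst)) addP)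

/-- Horner's rule with derivative; input `((z, G), ((p, d), es))` -/
def dhP (m : Pr s (.prod (.prod Po Po) Po) Po) :
    Pr s (.prod (.prod Po Po) (.prod (.prod Po Po) (.list Po))) (.prod Po Po) :=
  .comp (.pair .fst (.pair (.comp .snd .fst) (.comp (.comp .snd .snd) revP))) (foldP (stepP m))

/-- the multiplication program -/
def IsMul (m : Pr [] (.prod (.prod Po Po) Po) Po) (C : ℕ) : Prop :=
  ∀ (F : Type) [Field F] [DecidableEq F] (a b P : List F), a.length = P.length →
  b.length = P.length →
  let r : List F := m.val () ((a, b), P)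
  r.length = P.length ∧ mpol P ∣ pol a * pol b - pol r ∧
  m.cost () () ((a, b), P) ≤ C * (P.length + 1) ^ 2

/-- product -/
noncomputable def mf (m : Pr [] (.prod (.prod Po Po) Po) Po) (G a b : List F) : List F :=
  m.val () ((a, b), G)

theorem mf_len {m : Pr [] (.prod (.prod Po Po) Po) Po} {C : ℕ} (hm : IsMul m C) (G a b : List F)
    (ha : a.length = G.length) (hb : b.length = G.length) : (mf m G a b).length = G.length :=
  (hm F a b G ha hb).1

theorem mf_val {m : Pr [] (.prod (.prod Po Po) Po) Po} {C : ℕ} (hm : IsMul m C) (G a b : List F)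
    (ha : a.length = G.length) (hb : b.length = G.length) {k : Type} [Field k] [Algebra F k]
    (x : k) (hx : aeval x (mpol G) = 0) : E x (mf m G a b) = E x a * E x b :=
  E_of_dvd x G a b _ (hm F a b G ha hb).2.1 hx

theorem mf_cost {m : Pr [] (.prod (.prod Po Po) Po) Po} {C : ℕ} (hm : IsMul m C) (G a b : List F)
    (ha : a.length = G.length) (hb : b.length = G.length) :
    m.cost () () ((a, b), G) ≤ C * (G.length + 1) ^ 2 :=
  (hm F a b G ha hb).2.2

/-- the function of a step -/
noncomputable def sf (m : Pr [] (.prod (.prod Po Po) Po) Po) (G z : List F) (e : List F)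
    (y : List F × List F) : List F × List F :=
  (List.zipWith (fun (y z : F) => y + z) (mf m G y.1 z) e,
    List.zipWith (fun (y z : F) => y + z) (mf m G y.2 z) y.1)

theorem val_dhP (m : Pr [] (.prod (.prod Po Po) Po) Po) (z G p d : List F)
    (es : List (List F)) :
    ((dhP m).val () ((z, G), ((p, d), es)) : List F × List F) =
      List.foldr (sf m G z) (p, d) es := by
  simp only [dhP, val_comp, val_pair, val_fst, val_snd, val_foldP, val_revP]
  rw [List.foldl_reverse]
  have : (fun (x : List F) (y : List F × List F) =>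
      ((stepP m).val () ((z, G), (y, x)) : List F × List F)) = sf m G z := by
    funext e y
    simp [stepP, sf, mf]
  exact congrArg (fun f => List.foldr f (p, d) es) this

/-- the lengths are right -/
def LL (N : ℕ) (y : List F × List F) : Prop := y.1.length = N ∧ y.2.length = N

theorem sf_LL {m : Pr [] (.prod (.prod Po Po) Po) Po} {C : ℕ} (hm : IsMul m C) (G z e : List F)
    (y : List F × List F) (hz : z.length = G.length) (he : e.length = G.length)
    (hy : LL G.length y) : LL G.length (sf m G z e y) := by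
  obtain ⟨h1, h2⟩ := hy
  refine ⟨?_, ?_⟩
  · simp only [sf, List.length_zipWith, mf_len hm G _ _ h1 hz, he, min_self]
  · simp only [sf, List.length_zipWith, mf_len hm G _ _ h2 hz, h1, min_self]

theorem dh_spec {m : Pr [] (.prod (.prod Po Po) Po) Po} {C : ℕ} (hm : IsMul m C)
    (z G p d : List F) (es : List (List F)) (hz : z.length = G.length)
    (hp : p.length = G.length) (hd : d.length = G.length)
    (hes : ∀ e ∈ es, e.length = G.length) :
    LL G.length (List.foldr (sf m G z) (p, d) es) ∧
    ∀ {k : Type} [Field k] [Algebra F k] (x : k), aeval x (mpol G) = 0 →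
      E x (List.foldr (sf m G z) (p, d) es).1 =
        (Polynomial.C (E x p) * X ^ es.length + pol (es.map (E x))).eval (E x z) ∧
      E x (List.foldr (sf m G z) (p, d) es).2 = E x d * (E x z) ^ es.length +
        (derivative (Polynomial.C (E x p) * X ^ es.length + pol (es.map (E x)))).eval (E x z) := by
  induction es with
  | nil =>
    refine ⟨⟨hp, hd⟩, ?_⟩
    intro k _ _ x hx
    simp [pol]
  | cons e es ih =>
    obtain ⟨ih1, ih2⟩ := ih (fun e he => hes e (by simp [he]))
    have he := hes e (by simp)
    rw [List.foldr_cons]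
    refine ⟨sf_LL hm G z e _ hz he ih1, ?_⟩
    intro k _ _ x hx
    obtain ⟨e1, e2⟩ := ih2 x hx
    obtain ⟨l1, l2⟩ := ih1
    have hR : Polynomial.C (E x p) * X ^ (e :: es).length + pol ((e :: es).map (E x)) =
        Polynomial.C (E x e) +
          X * (Polynomial.C (E x p) * X ^ es.length + pol (es.map (E x))) := by
      simp only [List.length_cons, List.map_cons, pol]; ring
    constructor
    · simp only [sf]
      rw [E_add x _ _ (by rw [mf_len hm G _ _ l1 hz, he]), mf_val hm G _ _ l1 hz x hx, e1, hR]
      simp only [eval_add, eval_mul, eval_C, eval_X]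
      ring
    · simp only [sf]
      rw [E_add x _ _ (by rw [mf_len hm G _ _ l2 hz, l1]), mf_val hm G _ _ l2 hz x hx, e1, e2, hR]
      simp only [List.length_cons, derivative_add, derivative_mul, derivative_C, derivative_X,
        eval_add, eval_mul, eval_C, eval_X, eval_zero, eval_one, one_mul, zero_mul, zero_add]
      ring

theorem cost_dhP {m : Pr [] (.prod (.prod Po Po) Po) Po} {C : ℕ} (hm : IsMul m C)
    (z G p d : List F) (es : List (List F)) (hz : z.length = G.length)
    (hp : p.length = G.length) (hd : d.length = G.length)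
    (hes : ∀ e ∈ es, e.length = G.length) :
    (dhP m).cost () () ((z, G), ((p, d), es)) ≤
      ((2 * C + 400) * (G.length + 1) ^ 2) * (es.length + 1) := by
  have h1 := cost_revP (a := Po) (s := []) (F := F) () () es
  have h := cost_foldP_le (F := F) (s := []) (c := .prod Po Po) (b := .prod Po Po) (a := Po)
    (stepP m) () () ((z, G), ((p, d), List.reverse es))
    (2 * (C * (G.length + 1) ^ 2) + 120 * G.length + 100) (LL G.length) ⟨hp, hd⟩
    (fun y e hy he => by
      have := sf_LL hm G z e y hz (hes e (by simpa using he)) hy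
      simpa [stepP, sf, mf] using this)
    (fun y e hy he => by
      have hc1 := mf_cost hm G y.1 z hy.1 hz
      have hc2 := mf_cost hm G y.2 z hy.2 hz
      have hl1 := mf_len hm G y.1 z hy.1 hz
      have hl2 := mf_len hm G y.2 z hy.2 hz
      have ha1 := cost_addP (F := F) (s := []) () () (mf m G y.1 z, e)
      have ha2 := cost_addP (F := F) (s := []) () () (mf m G y.2 z, y.1)
      simp only [hl1, hl2] at ha1 ha2
      simp only [stepP, cost_pair, cost_comp, cost_fst, cost_snd, val_pair, val_comp, val_fst,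
        val_snd, val_mzP, cost_mzP]
      unfold mf at ha1 ha2
      omega)
  simp only [dhP, cost_comp, cost_pair, cost_fst, cost_snd, val_comp, val_pair, val_fst, val_snd,
    val_revP, List.length_reverse] at h ⊢
  have h2 : (G.length + 1) ^ 2 = G.length * G.length + 2 * G.length + 1 := by ring
  rw [h2] at h ⊢
  nlinarith

end prog
end K13

namespace K13

section prog2
variable {F : Type} [Field F] [DecidableEq F]
variable {s : List (Ty × Ty)} {a b c : Ty}

/-- the zero row -/
def zeroP : Pr s Po Po := .comp (.pair .id (.pair .zero .nil)) fitP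

@[simp] theorem val_zeroP (v : SV F s) (x : Ty.D F Po) :
    (zeroP : Pr s Po Po).val v x = fit (List.length x) (0 : F) [] := by
  simp [zeroP]

theorem cost_zeroP (v : SV F s) (k : SC F s) (x : Ty.D F Po) :
    (zeroP : Pr s Po Po).cost v k x ≤ 20 * List.length x + 20 := by
  have h := cost_fitP (s := s) (a := .fld) (b := .fld) v k (x, ((0 : F), ([] : List F)))
  simp [zeroP] at h ⊢
  omega

/-- constants, input `(G, l)` -/
def consP : Pr s (.prod Po Po) (.list Po) := mapP conP

@[simp] theorem val_consP (v : SV F s) (x : Ty.D F (.prod Po Po)) :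
    (consP : Pr s (.prod Po Po) (.list Po)).val v x =
      List.map (fun (y : F) => fit (List.length x.1) (0 : F) [y]) (x.2 : List F) := by
  simp [consP]

theorem cost_consP (v : SV F s) (k : SC F s) (x : Ty.D F (.prod Po Po)) :
    (consP : Pr s (.prod Po Po) (.list Po)).cost v k x ≤
      (20 * List.length x.1 + 40) * (List.length x.2 + 1) := by
  have h := cost_mapP_le (s := s) (c := Po) (a := .fld) (b := Po) conP v k x
    (20 * List.length x.1 + 20) (fun y _ => cost_conP v k (x.1, y))
  simp only [consP]
  nlinarith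

/-- value of a row at `L`, input `((L, G), row)` -/
def rowP (m : Pr [] (.prod (.prod Po Po) Po) Po) : Pr [] (.prod (.prod Po Po) Po) Po :=
  .comp (.pair .fst (.pair (.comp (.comp .fst .snd) (.pair zeroP zeroP))
    (.comp (.pair (.comp .fst .snd) .snd) consP))) (.comp (dhP m) .fst)

/-- its function -/
noncomputable def rowf (m : Pr [] (.prod (.prod Po Po) Po) Po) (L G row : List F) : List F :=
  (List.foldr (sf m G L) (fit G.length (0 : F) [], fit G.length (0 : F) [])
    (row.map (fun y => fit G.length (0 : F) [y]))).1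

@[simp] theorem val_rowP (m : Pr [] (.prod (.prod Po Po) Po) Po) (L G row : List F) :
    ((rowP m).val () ((L, G), row) : List F) = rowf m L G row := by
  have := val_dhP m L G (fit G.length (0 : F) []) (fit G.length (0 : F) [])
    (row.map (fun y => fit G.length (0 : F) [y]))
  simp only [rowP, rowf, val_comp, val_pair, val_fst, val_snd, val_zeroP, val_consP]
  exact congrArg Prod.fst this

theorem pol_map_alg {k : Type} [Field k] [Algebra F k] (y : k) (l : List F) :
    (pol (l.map (algebraMap F k))).eval y = E y l := by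
  rw [E, aeval_def, eval₂_eq_eval_map, map_pol]

theorem rowf_spec {m : Pr [] (.prod (.prod Po Po) Po) Po} {C : ℕ} (hm : IsMul m C)
    (L G row : List F) (hL : L.length = G.length) (hG : 1 ≤ G.length) :
    (rowf m L G row).length = G.length ∧
    ∀ {k : Type} [Field k] [Algebra F k] (x : k), aeval x (mpol G) = 0 →
      E x (rowf m L G row) = E (E x L) row := by
  have h := dh_spec hm L G (fit G.length (0 : F) []) (fit G.length (0 : F) [])
    (row.map (fun y => fit G.length (0 : F) [y])) hL (by simp) (by simp) (by simp)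
  refine ⟨h.1.1, ?_⟩
  intro k _ _ x hx
  have h2 := (h.2 x hx).1
  rw [rowf, h2, E_fit_nil]
  have h3 : List.map (E x) (List.map (fun y => fit G.length (0 : F) [y]) row) =
      row.map (algebraMap F k) := by
    rw [List.map_map]
    apply List.map_congr_left
    intro y _
    simp only [Function.comp]
    exact E_fit x _ y hG
  rw [h3]
  simp only [map_zero, zero_mul, zero_add, pol_map_alg]

theorem cost_rowP {m : Pr [] (.prod (.prod Po Po) Po) Po} {C : ℕ} (hm : IsMul m C)
    (L G row : List F) (hL : L.length = G.length) :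
    (rowP m).cost () () ((L, G), row) ≤ (2 * C + 600) * (G.length + 1) ^ 2 * (row.length + 1) := by
  have h := cost_dhP hm L G (fit G.length (0 : F) []) (fit G.length (0 : F) [])
    (row.map (fun y => fit G.length (0 : F) [y])) hL (by simp) (by simp) (by simp)
  have h1 := cost_zeroP (F := F) (s := []) () () G
  have h2 := cost_consP (F := F) (s := []) () () (G, row)
  simp only [rowP, cost_comp, cost_pair, cost_fst, cost_snd, val_comp, val_pair, val_fst, val_snd,
    val_zeroP, val_consP, List.length_map] at h h1 h2 ⊢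
  have h3 : (G.length + 1) ^ 2 = G.length * G.length + 2 * G.length + 1 := by ring
  rw [h3] at h ⊢
  nlinarith

/-- derivative part; input `((z, G), (one, es))` -/
def derP (m : Pr [] (.prod (.prod Po Po) Po) Po) :
    Pr [] (.prod (.prod Po Po) (.prod Po (.list Po))) Po :=
  .comp (.pair .fst (.pair (.pair (.comp .snd .fst) (.comp (.comp .fst .snd) zeroP))
    (.comp .snd .snd))) (.comp (dhP m) .snd)

/-- its function -/
noncomputable def derf (m : Pr [] (.prod (.prod Po Po) Po) Po) (z G one : List F)
    (es : List (List F)) : List F :=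
  (List.foldr (sf m G z) (one, fit G.length (0 : F) []) es).2

@[simp] theorem val_derP (m : Pr [] (.prod (.prod Po Po) Po) Po) (z G one : List F)
    (es : List (List F)) :
    ((derP m).val () ((z, G), (one, es)) : List F) = derf m z G one es := by
  have := val_dhP m z G one (fit G.length (0 : F) []) es
  simp only [derP, derf, val_comp, val_pair, val_fst, val_snd, val_zeroP]
  exact congrArg Prod.snd this

theorem derf_spec {m : Pr [] (.prod (.prod Po Po) Po) Po} {C : ℕ} (hm : IsMul m C)
    (z G one : List F) (es : List (List F)) (hz : z.length = G.length)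
    (ho : one.length = G.length) (hes : ∀ e ∈ es, e.length = G.length) :
    (derf m z G one es).length = G.length ∧
    ∀ {k : Type} [Field k] [Algebra F k] (x : k), aeval x (mpol G) = 0 → E x one = 1 →
      E x (derf m z G one es) = (derivative (X ^ es.length + pol (es.map (E x)))).eval (E x z) := by
  have h := dh_spec hm z G one (fit G.length (0 : F) []) es hz ho (by simp) hes
  refine ⟨h.1.2, ?_⟩
  intro k _ _ x hx h1
  have h2 := (h.2 x hx).2
  rw [derf, h2, E_fit_nil, h1]
  simp

theorem cost_derP {m : Pr [] (.prod (.prod Po Po) Po) Po} {C : ℕ} (hm : IsMul m C)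
    (z G one : List F) (es : List (List F)) (hz : z.length = G.length)
    (ho : one.length = G.length) (hes : ∀ e ∈ es, e.length = G.length) :
    (derP m).cost () () ((z, G), (one, es)) ≤
      (2 * C + 500) * (G.length + 1) ^ 2 * (es.length + 1) := by
  have h := cost_dhP hm z G one (fit G.length (0 : F) []) es hz ho (by simp) hes
  have h1 := cost_zeroP (F := F) (s := []) () () G
  simp only [derP, cost_comp, cost_pair, cost_fst, cost_snd, val_comp, val_pair, val_fst, val_snd,
    val_zeroP] at h h1 ⊢
  have h3 : (G.length + 1) ^ 2 = G.length * G.length + 2 * G.length + 1 := by ring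
  rw [h3] at h ⊢
  nlinarith

/-- first stage: input `(G, (L, (q, u)))`, output `(xi, (one, (columns, power)))` -/
def st1 (m : Pr [] (.prod (.prod Po Po) Po) Po) (rm : Pr [] (.prod Po Po) Po) :
    Pr [] (.prod Po (.prod Po (.prod Po Un))) (.prod Po (.prod Po (.prod Ma Po))) :=
  lt (.comp (.pair (.comp (.pair .zero (.comp (.pair .one .nil) .cons)) .cons) .fst) rm)
    (lt (.comp (.pair (.comp .fst .fst) .one) conP)
      (lt (.comp (.pair (.comp (.comp (.comp .fst .fst) (.comp .snd .snd)) .fst)
          (.pair (.pair (.comp (.comp .fst .fst) (.comp .snd .fst)) (.comp (.comp .fst .fst) .fst))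
            .snd)) (unfP (mzP m)))
        (.pair (.comp (.comp .fst .fst) .snd) (.pair (.comp .fst .snd)
          (.pair
            (.comp (.comp (.pair (.comp (.comp (.comp .fst .fst) .fst) (.comp (.comp .snd .snd) .snd))
              (.pair (.pair (.comp (.comp .fst .fst) .snd) (.comp (.comp (.comp .fst .fst) .fst) .fst))
                .snd)) (unfP (mapP (mzP m)))) flatP)
            (.comp (.pair (.comp (.comp (.comp .fst .fst) .fst) (.comp (.comp .snd .snd) .snd))
              (.pair (.pair (.comp (.comp .fst .fst) .snd) (.comp (.comp (.comp .fst .fst) .fst) .fst))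
                (.comp .fst .snd))) (iterP (mzP m))))))))

/-- element `x` -/
noncomputable def xif (rm : Pr [] (.prod Po Po) Po) (G : List F) : List F :=
  rm.val () ([(0 : F), 1], G)

/-- element `1` -/
def onef (G : List F) : List F := fit G.length (0 : F) [1]

/-- powers of `L` -/
noncomputable def lpf (m : Pr [] (.prod (.prod Po Po) Po) Po) (G L : List F) (r : ℕ) :
    List (List F) := unf (fun y => mf m G y L) r (onef G)

/-- columns -/
noncomputable def colf (m : Pr [] (.prod (.prod Po Po) Po) Po) (rm : Pr [] (.prod Po Po) Po)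
    (G L : List F) (r j : ℕ) : List (List F) :=
  (unf (List.map (fun y => mf m G y (xif rm G))) j (lpf m G L r)).flatten

/-- power -/
noncomputable def xjf (m : Pr [] (.prod (.prod Po Po) Po) Po) (rm : Pr [] (.prod Po Po) Po)
    (G : List F) (j : ℕ) : List F := (fun y => mf m G y (xif rm G))^[j] (onef G)

theorem val_st1 (m : Pr [] (.prod (.prod Po Po) Po) Po) (rm : Pr [] (.prod Po Po) Po)
    (G L q : List F) (u : List Unit) :
    ((st1 m rm).val () (G, (L, (q, u))) : List F × List F × List (List F) × List F) =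
      (xif rm G, (onef G, (colf m rm G L q.length u.length, xjf m rm G u.length))) := by
  simp [st1, xif, onef, colf, xjf, lpf, mf]

end prog2
end K13

namespace K13

section prog3
variable {F : Type} [Field F] [DecidableEq F]

/-- the remainder program -/
def IsRem (w : Pr [] (.prod Po Po) Po) (C : ℕ) : Prop :=
  ∀ (F : Type) [Field F] [DecidableEq F] (P D : List F),
  let c : List F := w.val () (P, D)
  c.length = D.length ∧ mpol D ∣ pol P - pol c ∧
  w.cost () () (P, D) ≤ C * (P.length + D.length + 1) * (D.length + 1)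

theorem xif_len {rm : Pr [] (.prod Po Po) Po} {C : ℕ} (hr : IsRem rm C) (G : List F) :
    (xif rm G).length = G.length := (hr F [0, 1] G).1

theorem xif_val {rm : Pr [] (.prod Po Po) Po} {C : ℕ} (hr : IsRem rm C) (G : List F) {k : Type}
    [Field k] [Algebra F k] (x : k) (hx : aeval x (mpol G) = 0) : E x (xif rm G) = x := by
  obtain ⟨q, hq⟩ := (hr F [0, 1] G).2.1
  have := congrArg (aeval x) hq
  simp only [map_sub, map_mul, hx, zero_mul] at this
  have h2 := (sub_eq_zero.mp this).symm
  unfold E xif
  rw [h2]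
  simp [pol]

theorem onef_len (G : List F) : (onef G).length = G.length := by simp [onef]

theorem onef_val (G : List F) (hG : 1 ≤ G.length) {k : Type} [Field k] [Algebra F k] (x : k) :
    E x (onef G) = 1 := by
  rw [onef, E_fit x _ _ hG, map_one]

theorem lpf_mem {m : Pr [] (.prod (.prod Po Po) Po) Po} {C : ℕ} (hm : IsMul m C)
    (G L : List F) (r : ℕ) (hL : L.length = G.length) :
    ∀ y ∈ lpf m G L r, y.length = G.length :=
  mem_unf (fun y => mf m G y L) (fun y => y.length = G.length)
    (fun y hy => mf_len hm G y L hy hL) r (onef G) (onef_len G)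

theorem lpf_val {m : Pr [] (.prod (.prod Po Po) Po) Po} {C : ℕ} (hm : IsMul m C)
    (G L : List F) (r : ℕ) (hL : L.length = G.length) (hG : 1 ≤ G.length) {k : Type} [Field k]
    [Algebra F k] (x : k) (hx : aeval x (mpol G) = 0) :
    (lpf m G L r).map (E x) = unf (fun z => z * E x L) r 1 := by
  rw [lpf, map_unf (fun y => mf m G y L) (fun z => z * E x L) (E x)
    (fun y => y.length = G.length) (fun y hy => mf_len hm G y L hy hL)
    (fun y hy => mf_val hm G y L hy hL x hx) r (onef G) (onef_len G), onef_val G hG]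

theorem colf_aux {m : Pr [] (.prod (.prod Po Po) Po) Po} {C : ℕ} (hm : IsMul m C)
    {rm : Pr [] (.prod Po Po) Po} {C' : ℕ} (hr : IsRem rm C')
    (G : List F) (r : ℕ) (W : List (List F)) (hW : W.length = r ∧ ∀ y ∈ W, y.length = G.length) :
    (List.map (fun y => mf m G y (xif rm G)) W).length = r ∧
      ∀ y ∈ List.map (fun y => mf m G y (xif rm G)) W, y.length = G.length := by
  refine ⟨by simpa using hW.1, ?_⟩
  intro y hy
  obtain ⟨z, hz, rfl⟩ := List.mem_map.mp hy
  exact mf_len hm G z _ (hW.2 z hz) (xif_len hr G)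

theorem colf_mem {m : Pr [] (.prod (.prod Po Po) Po) Po} {C : ℕ} (hm : IsMul m C)
    {rm : Pr [] (.prod Po Po) Po} {C' : ℕ} (hr : IsRem rm C')
    (G L : List F) (r j : ℕ) (hL : L.length = G.length) :
    ∀ y ∈ colf m rm G L r j, y.length = G.length := by
  intro y hy
  obtain ⟨W, hW, hy⟩ := List.mem_flatten.mp hy
  exact (mem_unf _ (fun W : List (List F) => W.length = r ∧ ∀ y ∈ W, y.length = G.length)
    (fun W hW => colf_aux hm hr G r W hW) j (lpf m G L r)
    ⟨by simp [lpf], lpf_mem hm G L r hL⟩ W hW).2 y hy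

theorem length_flat {α : Type} (r : ℕ) : ∀ l : List (List α), (∀ y ∈ l, y.length = r) →
    l.flatten.length = l.length * r
  | [], _ => by simp
  | a :: l, h => by
    rw [List.flatten_cons, List.length_append, length_flat r l (fun y hy => h y (by simp [hy])),
      h a (by simp), List.length_cons]; ring

theorem colf_len {m : Pr [] (.prod (.prod Po Po) Po) Po} {C : ℕ} (hm : IsMul m C)
    {rm : Pr [] (.prod Po Po) Po} {C' : ℕ} (hr : IsRem rm C')
    (G L : List F) (r j : ℕ) (hL : L.length = G.length) :
    (colf m rm G L r j).length = j * r := by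
  rw [colf, length_flat r, length_unf]
  intro W hW
  exact (mem_unf _ (fun W : List (List F) => W.length = r ∧ ∀ y ∈ W, y.length = G.length)
    (fun W hW => colf_aux hm hr G r W hW) j (lpf m G L r)
    ⟨by simp [lpf], lpf_mem hm G L r hL⟩ W hW).1

theorem colf_val {m : Pr [] (.prod (.prod Po Po) Po) Po} {C : ℕ} (hm : IsMul m C)
    {rm : Pr [] (.prod Po Po) Po} {C' : ℕ} (hr : IsRem rm C')
    (G L : List F) (r j : ℕ) (hL : L.length = G.length) (hG : 1 ≤ G.length) {k : Type} [Field k]
    [Algebra F k] (x : k) (hx : aeval x (mpol G) = 0) :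
    (colf m rm G L r j).map (E x) =
      (unf (List.map (fun z => z * x)) j (unf (fun z => z * E x L) r 1)).flatten := by
  rw [colf, List.map_flatten]
  congr 1
  rw [map_unf (List.map (fun y => mf m G y (xif rm G))) (List.map (fun z => z * x))
    (List.map (E x)) (fun W : List (List F) => W.length = r ∧ ∀ y ∈ W, y.length = G.length)
    (fun W hW => colf_aux hm hr G r W hW) ?_ j (lpf m G L r)
    ⟨by simp [lpf], lpf_mem hm G L r hL⟩, lpf_val hm G L r hL hG x hx]
  intro W hW
  rw [List.map_map, List.map_map]
  apply List.map_congr_left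
  intro y hy
  simp only [Function.comp]
  rw [mf_val hm G y _ (hW.2 y hy) (xif_len hr G) x hx, xif_val hr G x hx]

theorem xjf_spec {m : Pr [] (.prod (.prod Po Po) Po) Po} {C : ℕ} (hm : IsMul m C)
    {rm : Pr [] (.prod Po Po) Po} {C' : ℕ} (hr : IsRem rm C')
    (G : List F) (j : ℕ) (hG : 1 ≤ G.length) :
    (xjf m rm G j).length = G.length ∧ ∀ {k : Type} [Field k] [Algebra F k] (x : k),
      aeval x (mpol G) = 0 → E x (xjf m rm G j) = x ^ j := by
  induction j with
  | zero =>
    refine ⟨onef_len G, ?_⟩
    intro k _ _ x hx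
    simp [xjf, onef_val G hG]
  | succ j ih =>
    rw [xjf, Function.iterate_succ_apply']
    refine ⟨mf_len hm G _ _ ih.1 (xif_len hr G), ?_⟩
    intro k _ _ x hx
    have h1 := mf_val hm G _ _ ih.1 (xif_len hr G) x hx
    rw [xif_val hr G x hx, ih.2 x hx, ← pow_succ] at h1
    exact h1

theorem cost_st1 {m : Pr [] (.prod (.prod Po Po) Po) Po} {C : ℕ} (hm : IsMul m C)
    {rm : Pr [] (.prod Po Po) Po} {C' : ℕ} (hr : IsRem rm C')
    (G L q : List F) (u : List Unit) (hL : L.length = G.length) (hu : 1 ≤ u.length)
    (hq : 1 ≤ q.length) (hG : G.length = u.length * q.length) :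
    (st1 m rm).cost () () (G, (L, (q, u))) ≤ (3 * C' + 3 * C + 1000) * (G.length + 1) ^ 3 := by
  obtain ⟨N, hN⟩ : ∃ N, N = G.length := ⟨_, rfl⟩
  obtain ⟨j, hj⟩ : ∃ j, j = u.length := ⟨_, rfl⟩
  obtain ⟨r, hr'⟩ : ∃ r, r = q.length := ⟨_, rfl⟩
  have c1 := (hr F [0, 1] G).2.2
  have c2 := cost_conP (F := F) (s := []) () () (G, (1 : F))
  have c3 := cost_unfP_le (F := F) (s := []) (c := .prod Po Po) (a := Po) (b := .fld) (mzP m) () ()
    (q, ((L, G), onef G)) (C * (N + 1) ^ 2 + 7) (fun y => List.length y = N)
    (by rw [hN]; exact onef_len G)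
    (fun y hy => by
      rw [hN] at hy ⊢
      exact mf_len hm G y L hy hL)
    (fun y hy => by
      rw [hN] at hy ⊢
      rw [cost_mzP]
      have := mf_cost hm G y L hy hL
      simp only
      omega)
  have c4 := cost_unfP_le (F := F) (s := []) (c := .prod Po Po) (a := Ma) (b := .unit)
    (mapP (mzP m)) () ()
    (u, ((xif rm G, G), lpf m G L r)) ((C * (N + 1) ^ 2 + 20) * r + 5)
    (fun W => List.length W = r ∧ ∀ y ∈ W, List.length y = G.length)
    ⟨by simp [lpf], lpf_mem hm G L r hL⟩
    (fun W hW => by
      have := colf_aux hm hr G r W hW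
      simpa [mf] using this)
    (fun W hW => by
      have h := cost_mapP_le (F := F) (s := []) (c := .prod Po Po) (a := Po) (b := Po) (mzP m)
        () () ((xif rm G, G), W) (C * (N + 1) ^ 2 + 7) (fun y hy => by
          rw [hN, cost_mzP]
          have := mf_cost hm G y (xif rm G) (hW.2 y hy) (xif_len hr G)
          simp only
          omega)
      simp only [hW.1] at h ⊢
      exact h)
  have c5 := cost_flatP (F := F) (s := []) (a := Po) () ()
    (unf (List.map (fun y => mf m G y (xif rm G))) j (lpf m G L r)) r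
    (fun W hW => (mem_unf _ (fun W : List (List F) => W.length = r ∧ ∀ y ∈ W, y.length = G.length)
      (fun W hW => colf_aux hm hr G r W hW) j (lpf m G L r)
      ⟨by simp [lpf], lpf_mem hm G L r hL⟩ W hW).1.le)
  have c6 := cost_iterP_le (F := F) (s := []) (c := .prod Po Po) (a := Po) (b := .unit) (mzP m)
    () () (u, ((xif rm G, G), onef G)) (C * (N + 1) ^ 2 + 7) (fun y => List.length y = N)
    (by rw [hN]; exact onef_len G)
    (fun y hy => by
      rw [hN] at hy ⊢
      exact mf_len hm G y _ hy (xif_len hr G))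
    (fun y hy => by
      rw [hN] at hy ⊢
      rw [cost_mzP]
      have := mf_cost hm G y (xif rm G) hy (xif_len hr G)
      simp only
      omega)
  rw [length_unf] at c5
  simp only [st1, cost_lt, cost_comp, cost_pair, cost_fst, cost_snd, cost_zero, cost_one,
    cost_cons, cost_nil, val_comp, val_pair, val_fst, val_snd, val_zero, val_one, val_cons,
    val_nil, val_conP, val_unfP, val_mapP, val_mzP]
  simp only [List.length_cons, List.length_nil] at c1
  simp only [lpf, mf, xif, onef] at c3 c4 c5 c6
  simp only [← hN, ← hj, ← hr'] at c1 c2 c3 c4 c5 c6 hG ⊢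
  obtain ⟨M, hM⟩ : ∃ M, M = (N + 1) ^ 3 := ⟨_, rfl⟩
  obtain ⟨A, hA⟩ : ∃ A, A = (N + 1) ^ 2 := ⟨_, rfl⟩
  have hrN : r ≤ N := by rw [hG]; nlinarith
  have hjN : j ≤ N := by rw [hG]; nlinarith
  have hM1 : N + 1 ≤ M := by rw [hM]; nlinarith [Nat.zero_le N, Nat.zero_le (N ^ 2), Nat.zero_le (N ^ 3)]
  have hM2 : A * N + A ≤ M := by rw [hM, hA]; nlinarith
  have hA1 : (N + 1) * (N + 1) = A := by rw [hA]; ring
  have b1 : C' * (0 + 1 + 1 + N + 1) * (N + 1) ≤ 3 * (C' * M) := by
    have : (0 + 1 + 1 + N + 1) * (N + 1) ≤ 3 * M := by nlinarith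
    calc C' * (0 + 1 + 1 + N + 1) * (N + 1) = C' * ((0 + 1 + 1 + N + 1) * (N + 1)) := by ring
      _ ≤ C' * (3 * M) := Nat.mul_le_mul_left _ this
      _ = 3 * (C' * M) := by ring
  have b3 : (C * A + 7 + 12) * r + 2 ≤ C * M + 21 * M := by
    have h1 : A * r ≤ M := le_trans (Nat.mul_le_mul_left _ hrN) (by omega)
    have h2 := Nat.mul_le_mul_left C h1
    have h3 : (C * A + 7 + 12) * r + 2 = C * (A * r) + 19 * r + 2 := by ring
    omega
  have b4 : ((C * A + 20) * r + 5 + 12) * j + 2 ≤ C * M + 39 * M := by
    have h1 : A * N ≤ M := by omega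
    have h2 := Nat.mul_le_mul_left C h1
    have h3 : ((C * A + 20) * r + 5 + 12) * j + 2 = C * (A * (j * r)) + 20 * (j * r) + 17 * j + 2 := by
      ring
    rw [← hG] at h3
    omega
  have b5 : (20 * r + 71) * j + 40 ≤ 131 * M := by
    have h3 : (20 * r + 71) * j + 40 = 20 * (j * r) + 71 * j + 40 := by ring
    rw [← hG] at h3
    omega
  have b6 : (C * A + 7 + 40) * j + 30 ≤ C * M + 77 * M := by
    have h1 : A * j ≤ M := le_trans (Nat.mul_le_mul_left _ hjN) (by omega)
    have h2 := Nat.mul_le_mul_left C h1
    have h3 : (C * A + 7 + 40) * j + 30 = C * (A * j) + 47 * j + 30 := by ring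
    omega
  have hfin : (3 * C' + 3 * C + 1000) * M = 3 * (C' * M) + 3 * (C * M) + 1000 * M := by ring
  rw [← hM, hfin]
  rw [← hA] at c3 c4 c6
  have d1 := c1.trans b1
  have d3 := c3.trans b3
  have d4 := c4.trans b4
  have d5 := c5.trans b5
  have d6 := c6.trans b6
  clear c1 c3 c4 c5 c6 b1 b3 b4 b5 b6
  change (flatP : Pr [] (.list (.list Po)) (.list Po)).cost (F := F) () ()
    (unf (fun y => List.map (fun y => m.val () ((y, rm.val () ([0, 1], G)), G)) y) j
    (unf (fun y => m.val () ((y, L), G)) r (fit N 0 [1]))) ≤ 131 * M at d5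
  change (unfP (mapP (mzP m)) : Pr [] (.prod Un (.prod (.prod Po Po) Ma)) (.list Ma)).cost
    (F := F) () () (u, ((rm.val () ([0, 1], G), G),
      unf (fun y => m.val () ((y, L), G)) r (fit N 0 [1]))) ≤ _ at d4
  omega

end prog3
end K13

namespace K13

section prog4
variable {F : Type} [Field F] [DecidableEq F]

/-- second stage: input `((xi, G), (one, (L, (h, F0))))` -/
def uP (m : Pr [] (.prod (.prod Po Po) Po) Po) (inv : Pr [] (.prod Po Po) Po) :
    Pr [] (.prod (.prod Po Po) (.prod Po (.prod Po (.prod Po Ma)))) Po :=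
  .comp (.pair (.pair
    (.comp (.pair .fst (.pair (.comp .snd .fst) (.comp (.pair (.pair (.comp (.comp .snd .snd) .fst)
      (.comp .fst .snd)) (.comp (.comp (.comp .snd .snd) .snd) .snd)) (mapP (rowP m))))) (derP m))
    (.comp (.pair (.comp (.pair .fst (.pair (.comp .snd .fst)
      (.comp (.pair (.comp .fst .snd) (.comp (.comp (.comp .snd .snd) .snd) .fst)) consP)))
      (derP m)) (.comp .fst .snd)) inv))
    (.comp .fst .snd)) m

@[simp] theorem val_rowP' (m : Pr [] (.prod (.prod Po Po) Po) Po) (v : SV F [])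
    (x : Ty.D F (.prod (.prod Po Po) Po)) : (rowP m).val v x = rowf m x.1.1 x.1.2 x.2 :=
  val_rowP m x.1.1 x.1.2 x.2

@[simp] theorem val_derP' (m : Pr [] (.prod (.prod Po Po) Po) Po) (v : SV F [])
    (x : Ty.D F (.prod (.prod Po Po) (.prod Po (.list Po)))) :
    (derP m).val v x = derf m x.1.1 x.1.2 x.2.1 x.2.2 :=
  val_derP m x.1.1 x.1.2 x.2.1 x.2.2

/-- inverse program -/
def IsInv (w : Pr [] (.prod Po Po) Po) (C : ℕ) : Prop :=
  ∀ (F : Type) [Field F] [DecidableEq F] (h G : List F), h.length = G.length →
  (IsCoprime (pol h) (mpol G) →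
    mpol G ∣ pol (w.val () (h, G) : List F) * pol h - 1) ∧
  List.length (w.val () (h, G) : List F) = G.length ∧
  w.cost () () (h, G) ≤ C * ww (G.length + 1)

/-- the numerator -/
noncomputable def numf (m : Pr [] (.prod (.prod Po Po) Po) Po) (xi G one L : List F)
    (F0 : List (List F)) : List F := derf m xi G one (F0.map (fun row => rowf m L G row))

/-- the denominator -/
noncomputable def denf (m : Pr [] (.prod (.prod Po Po) Po) Po) (xi G one h : List F) : List F :=
  derf m xi G one (h.map (fun y => fit G.length (0 : F) [y]))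

/-- the quotient -/
noncomputable def uf (m : Pr [] (.prod (.prod Po Po) Po) Po) (inv : Pr [] (.prod Po Po) Po)
    (xi G one L h : List F) (F0 : List (List F)) : List F :=
  mf m G (numf m xi G one L F0) (inv.val () (denf m xi G one h, G))

theorem val_uP (m : Pr [] (.prod (.prod Po Po) Po) Po) (inv : Pr [] (.prod Po Po) Po)
    (xi G one L h : List F) (F0 : List (List F)) :
    ((uP m inv).val () ((xi, G), (one, (L, (h, F0)))) : List F) = uf m inv xi G one L h F0 := by
  simp [uP, uf, numf, denf, mf]

theorem numf_spec {m : Pr [] (.prod (.prod Po Po) Po) Po} {C : ℕ} (hm : IsMul m C)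
    (xi G one L : List F) (F0 : List (List F)) (hxi : xi.length = G.length)
    (ho : one.length = G.length) (hL : L.length = G.length) (hG : 1 ≤ G.length) :
    (numf m xi G one L F0).length = G.length ∧
    ∀ {k : Type} [Field k] [Algebra F k] (x : k), aeval x (mpol G) = 0 → E x one = 1 →
      E x xi = x → E x (numf m xi G one L F0) =
        (derivative (X ^ F0.length + pol (F0.map (E (E x L))))).eval x := by
  have h := derf_spec hm xi G one (F0.map (fun row => rowf m L G row)) hxi ho (by
    intro e he
    obtain ⟨row, _, rfl⟩ := List.mem_map.mp he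
    exact (rowf_spec hm L G row hL hG).1)
  refine ⟨h.1, ?_⟩
  intro k _ _ x hx h1 hx2
  have h2 := h.2 x hx h1
  rw [numf, h2, hx2, List.length_map, List.map_map]
  congr 4
  apply List.map_congr_left
  intro row _
  exact (rowf_spec hm L G row hL hG).2 x hx

theorem denf_spec {m : Pr [] (.prod (.prod Po Po) Po) Po} {C : ℕ} (hm : IsMul m C)
    (xi G one h : List F) (hxi : xi.length = G.length)
    (ho : one.length = G.length) (hG : 1 ≤ G.length) :
    (denf m xi G one h).length = G.length ∧
    ∀ {k : Type} [Field k] [Algebra F k] (x : k), aeval x (mpol G) = 0 → E x one = 1 →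
      E x xi = x → E x (denf m xi G one h) =
        (derivative ((mpol h).map (algebraMap F k))).eval x := by
  have h' := derf_spec hm xi G one (h.map (fun y => fit G.length (0 : F) [y])) hxi ho (by simp)
  refine ⟨h'.1, ?_⟩
  intro k _ _ x hx h1 hx2
  have h2 := h'.2 x hx h1
  rw [denf, h2, hx2, List.length_map, List.map_map, map_mpol, mpol, List.length_map]
  congr 4
  apply List.map_congr_left
  intro y _
  exact E_fit x _ y hG

theorem uf_spec {m : Pr [] (.prod (.prod Po Po) Po) Po} {C : ℕ} (hm : IsMul m C)
    {inv : Pr [] (.prod Po Po) Po} {C' : ℕ} (hi : IsInv inv C')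
    (xi G one L h : List F) (F0 : List (List F)) (hxi : xi.length = G.length)
    (ho : one.length = G.length) (hL : L.length = G.length) (hG : 1 ≤ G.length) :
    (uf m inv xi G one L h F0).length = G.length ∧
    (IsCoprime (pol (denf m xi G one h)) (mpol G) →
      ∀ {k : Type} [Field k] [Algebra F k] (x : k), aeval x (mpol G) = 0 → E x one = 1 →
      E x xi = x → E x (uf m inv xi G one L h F0) *
        (derivative ((mpol h).map (algebraMap F k))).eval x =
        (derivative (X ^ F0.length + pol (F0.map (E (E x L))))).eval x) := by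
  have h1 := numf_spec hm xi G one L F0 hxi ho hL hG
  have h2 := denf_spec hm xi G one h hxi ho hG
  have h3 := hi F (denf m xi G one h) G h2.1
  refine ⟨mf_len hm G _ _ h1.1 h3.2.1, ?_⟩
  intro hc k _ _ x hx hx1 hx2
  rw [uf, mf_val hm G _ _ h1.1 h3.2.1 x hx, h1.2 x hx hx1 hx2, ← h2.2 x hx hx1 hx2]
  have h4 := h3.1 hc
  obtain ⟨q, hq⟩ := h4
  have := congrArg (aeval x) hq
  simp only [map_sub, map_mul, hx, zero_mul, map_one] at this
  have h5 : E x (inv.val () (denf m xi G one h, G) : List F) * E x (denf m xi G one h) = 1 :=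
    sub_eq_zero.mp this
  rw [mul_assoc, h5, mul_one]

theorem ww_le (n : ℕ) : ww (n + 1) ≤ 5 * (n + 1) ^ 3 := by
  unfold ww vv
  have h1 : 2 ^ Nat.clog 2 (n + 1) ≤ 2 * (n + 1) := by
    rcases Nat.eq_zero_or_pos n with rfl | hn
    · simp
    · have := Nat.pow_pred_clog_lt_self (b := 2) (by norm_num) (x := n + 1) (by omega)
      have hc : 0 < Nat.clog 2 (n + 1) := Nat.clog_pos (by norm_num) (by omega)
      obtain ⟨c, hc'⟩ : ∃ c, Nat.clog 2 (n + 1) = c + 1 := ⟨Nat.clog 2 (n + 1) - 1, by omega⟩
      rw [hc'] at this ⊢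
      simp only [Nat.pred_eq_sub_one, Nat.add_sub_cancel] at this
      rw [pow_succ]
      omega
  have h2 : 7 ^ Nat.clog 2 (n + 1) / 2 ^ Nat.clog 2 (n + 1) ≤ 4 ^ Nat.clog 2 (n + 1) := by
    apply Nat.div_le_of_le_mul
    rw [← mul_pow]
    exact Nat.pow_le_pow_left (by norm_num) _
  have h3 : 4 ^ Nat.clog 2 (n + 1) = (2 ^ Nat.clog 2 (n + 1)) ^ 2 := by
    rw [← pow_mul, mul_comm, pow_mul]; norm_num
  have h4 : (2 ^ Nat.clog 2 (n + 1)) ^ 2 ≤ (2 * (n + 1)) ^ 2 := Nat.pow_le_pow_left h1 _
  have h5 : 7 ^ Nat.clog 2 (n + 1) / 2 ^ Nat.clog 2 (n + 1) + 1 ≤ 5 * (n + 1) ^ 2 := by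
    have : (2 * (n + 1)) ^ 2 = 4 * (n + 1) ^ 2 := by ring
    have : 1 ≤ (n + 1) ^ 2 := Nat.one_le_pow _ _ (by omega)
    omega
  calc (n + 1) * (7 ^ Nat.clog 2 (n + 1) / 2 ^ Nat.clog 2 (n + 1) + 1)
      ≤ (n + 1) * (5 * (n + 1) ^ 2) := Nat.mul_le_mul_left _ h5
    _ = 5 * (n + 1) ^ 3 := by ring

theorem cost_uP {m : Pr [] (.prod (.prod Po Po) Po) Po} {C : ℕ} (hm : IsMul m C)
    {inv : Pr [] (.prod Po Po) Po} {C' : ℕ} (hi : IsInv inv C')
    (xi G one L h : List F) (F0 : List (List F)) (r : ℕ) (hxi : xi.length = G.length)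
    (ho : one.length = G.length) (hL : L.length = G.length) (hG : G.length = F0.length * r)
    (hr : 1 ≤ r) (hj : 1 ≤ F0.length) (hF : Sh r F0) (hh : G.length ≤ h.length) :
    (uP m inv).cost () () ((xi, G), (one, (L, (h, F0)))) ≤
      (9 * C + 5 * C' + 4000) * ((h.length + 1) ^ 2 * (G.length + 1)) := by
  obtain ⟨N, hN⟩ : ∃ N, N = G.length := ⟨_, rfl⟩
  obtain ⟨j, hj'⟩ : ∃ j, j = F0.length := ⟨_, rfl⟩
  obtain ⟨n, hn⟩ : ∃ n, n = h.length := ⟨_, rfl⟩
  have hG1 : 1 ≤ G.length := by rw [hG]; exact Nat.mul_pos hj hr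
  have h1 := numf_spec hm xi G one L F0 hxi ho hL hG1
  have h2 := denf_spec hm xi G one h hxi ho hG1
  have h3 := hi F (denf m xi G one h) G h2.1
  have c1 := cost_mapP_le (F := F) (s := []) (c := .prod Po Po) (a := Po) (b := Po) (rowP m)
    () () ((L, G), F0) ((2 * C + 600) * (N + 1) ^ 2 * (r + 1)) (fun row hrow => by
      have := cost_rowP hm L G row hL
      rw [hF row hrow, ← hN] at this
      exact this)
  have c2 := cost_derP hm xi G one (F0.map (fun row => rowf m L G row)) hxi ho (by
    intro e he
    obtain ⟨row, _, rfl⟩ := List.mem_map.mp he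
    exact (rowf_spec hm L G row hL hG1).1)
  have c3 := cost_consP (F := F) (s := []) () () (G, h)
  have c4 := cost_derP hm xi G one (h.map (fun y => fit G.length (0 : F) [y])) hxi ho (by simp)
  have c5 := h3.2.2
  have c6 := mf_cost hm G _ _ h1.1 h3.2.1
  have c7 := ww_le N
  simp only [uP, cost_comp, cost_pair, cost_fst, cost_snd, val_comp, val_pair, val_fst, val_snd,
    val_mapP, val_rowP', val_derP', val_consP]
  simp only [numf, denf, List.length_map] at c1 c2 c3 c4 c5 c6 c7
  simp only [← hN, ← hj', ← hn] at c1 c2 c3 c4 c5 c6 c7 hG hh hj ⊢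
  obtain ⟨M, hM⟩ : ∃ M, M = (n + 1) ^ 2 * (N + 1) := ⟨_, rfl⟩
  obtain ⟨A, hA⟩ : ∃ A, A = (N + 1) ^ 2 := ⟨_, rfl⟩
  have hjN : j ≤ N := by rw [hG]; nlinarith
  have hA2 : A * (n + 1) ≤ M := by
    rw [hM, hA]
    calc (N + 1) ^ 2 * (n + 1) = ((N + 1) * (n + 1)) * (N + 1) := by ring
      _ ≤ ((n + 1) * (n + 1)) * (N + 1) := Nat.mul_le_mul_right _ (Nat.mul_le_mul_right _ (by omega))
      _ = (n + 1) ^ 2 * (N + 1) := by ring
  have hA1 : A ≤ M := le_trans (Nat.le_mul_of_pos_right _ (by omega)) hA2
  have hN1 : (N + 1) * (n + 1) ≤ M := by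
    rw [hM]
    calc (N + 1) * (n + 1) ≤ (N + 1) * (n + 1) ^ 2 :=
          Nat.mul_le_mul_left _ (Nat.le_self_pow (by norm_num) _)
      _ = (n + 1) ^ 2 * (N + 1) := by ring
  have hn1 : N + 1 ≤ M := le_trans (Nat.le_mul_of_pos_right _ (by omega)) hN1
  have hA3 : (N + 1) ^ 3 ≤ M := by
    calc (N + 1) ^ 3 = A * (N + 1) := by rw [hA]; ring
      _ ≤ A * (n + 1) := Nat.mul_le_mul_left _ (by omega)
      _ ≤ M := hA2
  have b1 : ((2 * C + 600) * A * (r + 1) + 13) * j + 5 ≤ 4 * (C * M) + 1218 * M := by
    have h1 : A * ((r + 1) * j) ≤ 2 * M := by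
      have h0 : (r + 1) * j ≤ 2 * (n + 1) := by
        have h5 : (r + 1) * j = j * r + j := by ring
        rw [← hG] at h5
        omega
      calc A * ((r + 1) * j) ≤ A * (2 * (n + 1)) := Nat.mul_le_mul_left _ h0
        _ = 2 * (A * (n + 1)) := by ring
        _ ≤ 2 * M := Nat.mul_le_mul_left _ hA2
    have h2 := Nat.mul_le_mul_left (2 * C + 600) h1
    have h3 : ((2 * C + 600) * A * (r + 1) + 13) * j + 5 =
        (2 * C + 600) * (A * ((r + 1) * j)) + 13 * j + 5 := by ring
    have h4 : (2 * C + 600) * (2 * M) = 4 * (C * M) + 1200 * M := by ring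
    omega
  have b2 : (2 * C + 500) * A * (j + 1) ≤ 2 * (C * M) + 500 * M := by
    have h1 : A * (j + 1) ≤ M := le_trans (Nat.mul_le_mul_left _ (by omega)) hA2
    have h2 := Nat.mul_le_mul_left (2 * C + 500) h1
    have h3 : (2 * C + 500) * A * (j + 1) = (2 * C + 500) * (A * (j + 1)) := by ring
    have h4 : (2 * C + 500) * M = 2 * (C * M) + 500 * M := by ring
    omega
  have b3 : (20 * N + 40) * (n + 1) ≤ 40 * M := by nlinarith
  have b4 : (2 * C + 500) * A * (n + 1) ≤ 2 * (C * M) + 500 * M := by
    have h2 := Nat.mul_le_mul_left (2 * C + 500) hA2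
    have h3 : (2 * C + 500) * A * (n + 1) = (2 * C + 500) * (A * (n + 1)) := by ring
    have h4 : (2 * C + 500) * M = 2 * (C * M) + 500 * M := by ring
    omega
  have b5 : C' * ww (N + 1) ≤ 5 * (C' * M) := by
    have h1 : ww (N + 1) ≤ 5 * M := c7.trans (Nat.mul_le_mul_left _ hA3)
    calc C' * ww (N + 1) ≤ C' * (5 * M) := Nat.mul_le_mul_left _ h1
      _ = 5 * (C' * M) := by ring
  have b6 : C * A ≤ C * M := Nat.mul_le_mul_left _ hA1
  have hfin : (9 * C + 5 * C' + 4000) * M = 9 * (C * M) + 5 * (C' * M) + 4000 * M := by ring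
  rw [← hA] at c1 c2 c4 c6
  rw [← hM, hfin]
  have d1 := c1.trans b1
  have d2 := c2.trans b2
  have d3 := c3.trans b3
  have d4 := c4.trans b4
  have d5 := c5.trans b5
  have d6 := c6.trans b6
  clear c1 c2 c3 c4 c5 c6 b1 b2 b3 b4 b5 b6 h1 h2 h3
  change (derP m).cost (F := F) () () ((xi, G), (one,
    List.map (fun (y : Ty.D F Po) => rowf m L G y) F0)) ≤ _ at d2
  refine le_trans (Nat.add_le_add_left d6 _) ?_
  omega

end prog4
end K13

namespace K13

section prog5
variable {F : Type} [Field F] [DecidableEq F]

/-- the main program; input `(h, (G, (L, (q, u))))` -/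
def mainP (m : Pr [] (.prod (.prod Po Po) Po) Po) (rm inv : Pr [] (.prod Po Po) Po)
    (sol : Pr [] (.prod Ma Po) Po) :
    Pr [] (.prod Po (.prod Po (.prod Po (.prod Po Un)))) (.prod Ma Ma) :=
  lt (.comp .snd (st1 m rm))
    (lt (.comp (.pair (.comp (.comp (.comp (.comp .fst .snd) .snd) .snd) .snd)
        (.pair (.comp (.comp (.comp (.comp .fst .snd) .snd) .snd) .fst)
          (.comp (.pair (.comp (.comp (.comp .snd .snd) .snd) .fst)
            (.comp (.comp (.comp (.comp .snd .snd) .snd) .snd) negP)) sol))) chunksP)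
      (.pair .snd (.comp (.pair (.comp .fst (.comp (.comp (.comp (.comp .fst .snd) .snd) .snd) .snd))
        (.pair (.comp .fst (.comp (.comp (.comp (.comp .fst .snd) .snd) .snd) .fst))
          (.comp (.pair (.comp .fst (.comp (.comp (.comp .snd .snd) .snd) .fst))
            (.comp (.pair (.pair (.comp .fst (.comp .snd .fst))
                (.comp .fst (.comp (.comp .fst .snd) .fst)))
              (.pair (.comp .fst (.comp (.comp .snd .snd) .fst))
                (.pair (.comp .fst (.comp (.comp (.comp .fst .snd) .snd) .fst))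
                  (.pair (.comp .fst (.comp .fst .fst)) .snd))))
              (uP m inv))) sol))) chunksP)))

/-- the first result -/
noncomputable def f0f (m : Pr [] (.prod (.prod Po Po) Po) Po) (rm : Pr [] (.prod Po Po) Po)
    (sol : Pr [] (.prod Ma Po) Po) (G L : List F) (r j : ℕ) : List (List F) :=
  chunks r j (sol.val () (colf m rm G L r j, List.map (fun y => -y) (xjf m rm G j)))

/-- the second target -/
noncomputable def utf (m : Pr [] (.prod (.prod Po Po) Po) Po) (rm inv : Pr [] (.prod Po Po) Po)
    (sol : Pr [] (.prod Ma Po) Po) (h G L : List F) (r j : ℕ) : List F :=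
  uf m inv (xif rm G) G (onef G) L h (f0f m rm sol G L r j)

/-- the second result -/
noncomputable def u0f (m : Pr [] (.prod (.prod Po Po) Po) Po) (rm inv : Pr [] (.prod Po Po) Po)
    (sol : Pr [] (.prod Ma Po) Po) (h G L : List F) (r j : ℕ) : List (List F) :=
  chunks r j (sol.val () (colf m rm G L r j, utf m rm inv sol h G L r j))

@[simp] theorem val_st1' (m : Pr [] (.prod (.prod Po Po) Po) Po) (rm : Pr [] (.prod Po Po) Po)
    (v : SV F []) (x : Ty.D F (.prod Po (.prod Po (.prod Po Un)))) :
    (st1 m rm).val v x = (xif rm x.1, (onef x.1, (colf m rm x.1 x.2.1 (List.length x.2.2.1)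
      (List.length x.2.2.2), xjf m rm x.1 (List.length x.2.2.2)))) :=
  val_st1 m rm x.1 x.2.1 x.2.2.1 x.2.2.2

@[simp] theorem val_uP' (m : Pr [] (.prod (.prod Po Po) Po) Po) (inv : Pr [] (.prod Po Po) Po)
    (v : SV F []) (x : Ty.D F (.prod (.prod Po Po) (.prod Po (.prod Po (.prod Po Ma))))) :
    (uP m inv).val v x = uf m inv x.1.1 x.1.2 x.2.1 x.2.2.1 x.2.2.2.1 x.2.2.2.2 :=
  val_uP m inv x.1.1 x.1.2 x.2.1 x.2.2.1 x.2.2.2.1 x.2.2.2.2

theorem val_mainP (m : Pr [] (.prod (.prod Po Po) Po) Po) (rm inv : Pr [] (.prod Po Po) Po)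
    (sol : Pr [] (.prod Ma Po) Po) (h G L q : List F) (u : List Unit) :
    ((mainP m rm inv sol).val () (h, (G, (L, (q, u)))) : List (List F) × List (List F)) =
      (f0f m rm sol G L q.length u.length, u0f m rm inv sol h G L q.length u.length) := by
  simp [mainP, f0f, u0f, utf]

/-- the solver -/
def IsSol (w : Pr [] (.prod Ma Po) Po) (C : ℕ) : Prop :=
  ∀ (F : Type) [Field F] [DecidableEq F] (n m : ℕ) (cols : List (List F)) (v : List F),
  cols.length = n → Sh m cols → v.length = m →
  let c : List F := w.val () (cols, v)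
  c.length = n ∧
  (LinearIndependent F (fun i : Fin n => cvec (cols.getD i [])) →
    cvec v ∈ Submodule.span F (Set.range (fun i : Fin n => cvec (cols.getD i []))) →
    cvec v = ∑ i : Fin n, c.getD i 0 • cvec (cols.getD i [])) ∧
  w.cost () () (cols, v) ≤ C * (n + m + 1) ^ 3

theorem cost_mainP {m : Pr [] (.prod (.prod Po Po) Po) Po} {C : ℕ} (hm : IsMul m C)
    {rm : Pr [] (.prod Po Po) Po} {C1 : ℕ} (hr : IsRem rm C1)
    {inv : Pr [] (.prod Po Po) Po} {C2 : ℕ} (hi : IsInv inv C2)
    {sol : Pr [] (.prod Ma Po) Po} {C3 : ℕ} (hs : IsSol sol C3)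
    (h G L q : List F) (u : List Unit) (hL : L.length = G.length) (hu : 1 ≤ u.length)
    (hq : 1 ≤ q.length) (hG : G.length = u.length * q.length) (hh : G.length ≤ h.length) :
    (mainP m rm inv sol).cost () () (h, (G, (L, (q, u)))) ≤
      (12 * C + 3 * C1 + 5 * C2 + 16 * C3 + 6000) * ((h.length + 1) ^ 2 * (G.length + 1)) := by
  obtain ⟨N, hN⟩ : ∃ N, N = G.length := ⟨_, rfl⟩
  obtain ⟨j, hj⟩ : ∃ j, j = u.length := ⟨_, rfl⟩
  obtain ⟨r, hr'⟩ : ∃ r, r = q.length := ⟨_, rfl⟩
  obtain ⟨n, hn⟩ : ∃ n, n = h.length := ⟨_, rfl⟩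
  have hG1 : 1 ≤ G.length := by rw [hG]; exact Nat.mul_pos hu hq
  have x1 := xif_len hr G
  have x2 := onef_len G
  have x3 := colf_len hm hr G L r j hL
  have x4 := colf_mem hm hr G L r j hL
  have x5 := (xjf_spec hm hr G j hG1).1
  have x3' : (colf m rm G L r j).length = N := by rw [x3, hN, hG, hj, hr']
  have s1 := hs F N N (colf m rm G L r j) (List.map (fun y => -y) (xjf m rm G j)) x3'
    (fun w hw => by rw [hN]; exact x4 w hw) (by rw [List.length_map, x5, hN])
  have f1 : (f0f m rm sol G L r j).length = j := length_chunks r j _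
  have f2 : Sh r (f0f m rm sol G L r j) := mem_chunks r j _ (by
    rw [s1.1, hN, hG, hj, hr'])
  have u1 := (uf_spec hm hi (xif rm G) G (onef G) L h (f0f m rm sol G L r j) x1 x2 hL hG1).1
  have s2 := hs F N N (colf m rm G L r j) (utf m rm inv sol h G L r j) x3'
    (fun w hw => by rw [hN]; exact x4 w hw) (by rw [hN]; exact u1)
  have c1 := cost_st1 hm hr G L q u hL hu hq hG
  have c2 := cost_negP (F := F) (s := []) () () (xjf m rm G j)
  have c3 := s1.2.2
  have c4 := cost_chunksP (F := F) (s := []) (a := .fld) (b := .unit) (c := .fld) () ()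
    (u, (q, (sol.val () (colf m rm G L r j, List.map (fun y => -y) (xjf m rm G j)) : List F)))
  have c5 := cost_uP hm hi (xif rm G) G (onef G) L h (f0f m rm sol G L r j) r x1 x2 hL
    (by rw [f1, hG, hj, hr']) (by omega) (by omega) f2 hh
  have c6 := s2.2.2
  have c7 := cost_chunksP (F := F) (s := []) (a := .fld) (b := .unit) (c := .fld) () ()
    (u, (q, (sol.val () (colf m rm G L r j, utf m rm inv sol h G L r j) : List F)))
  simp only [mainP, cost_lt, cost_comp, cost_pair, cost_fst, cost_snd, val_comp, val_pair,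
    val_fst, val_snd, val_st1', val_negP, val_chunksP, val_uP']
  rw [x5] at c2
  simp only [utf, f0f] at c1 c2 c3 c4 c5 c6 c7
  simp only [← hN, ← hj, ← hr', ← hn] at c1 c2 c3 c4 c5 c6 c7 hG hh ⊢
  obtain ⟨M, hM⟩ : ∃ M, M = (n + 1) ^ 2 * (N + 1) := ⟨_, rfl⟩
  have hM3 : (N + 1) ^ 3 ≤ M := by
    calc (N + 1) ^ 3 = (N + 1) ^ 2 * (N + 1) := by ring
      _ ≤ (n + 1) ^ 2 * (N + 1) :=
        Nat.mul_le_mul_right _ (Nat.pow_le_pow_left (by omega) _)
      _ = M := hM.symm
  have hM1 : N + 1 ≤ M := le_trans (Nat.le_self_pow (by norm_num) _) hM3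
  have hjN : j ≤ N := by rw [hG]; nlinarith
  have b1 : (3 * C1 + 3 * C + 1000) * (N + 1) ^ 3 ≤ 3 * (C1 * M) + 3 * (C * M) + 1000 * M := by
    calc (3 * C1 + 3 * C + 1000) * (N + 1) ^ 3 ≤ (3 * C1 + 3 * C + 1000) * M :=
          Nat.mul_le_mul_left _ hM3
      _ = 3 * (C1 * M) + 3 * (C * M) + 1000 * M := by ring
  have b3 : C3 * (N + N + 1) ^ 3 ≤ 8 * (C3 * M) := by
    have : (N + N + 1) ^ 3 ≤ 8 * M := by
      calc (N + N + 1) ^ 3 ≤ (2 * (N + 1)) ^ 3 := Nat.pow_le_pow_left (by omega) _
        _ = 8 * (N + 1) ^ 3 := by ring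
        _ ≤ 8 * M := Nat.mul_le_mul_left _ hM3
    calc C3 * (N + N + 1) ^ 3 ≤ C3 * (8 * M) := Nat.mul_le_mul_left _ this
      _ = 8 * (C3 * M) := by ring
  have b4 : (24 * r + 30) * j + 2 ≤ 56 * M := by
    have h3 : (24 * r + 30) * j + 2 = 24 * (j * r) + 30 * j + 2 := by ring
    rw [← hG] at h3
    omega
  have hfin : (12 * C + 3 * C1 + 5 * C2 + 16 * C3 + 6000) * M =
      12 * (C * M) + 3 * (C1 * M) + 5 * (C2 * M) + 16 * (C3 * M) + 6000 * M := by ring
  have hfin5 : (9 * C + 5 * C2 + 4000) * M = 9 * (C * M) + 5 * (C2 * M) + 4000 * M := by ring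
  rw [← hM, hfin5] at c5
  rw [← hM, hfin]
  have d1 := c1.trans b1
  have d3 := c3.trans b3
  have d4 := c4.trans b4
  have d6 := c6.trans b3
  have d7 := c7.trans b4
  have key : ∀ t1 t2 t3 t4 t5 t6 t7 : ℕ, t1 ≤ 3 * (C1 * M) + 3 * (C * M) + 1000 * M →
      t2 ≤ 20 * N + 20 → t3 ≤ 8 * (C3 * M) → t4 ≤ 56 * M →
      t5 ≤ 9 * (C * M) + 5 * (C2 * M) + 4000 * M → t6 ≤ 8 * (C3 * M) → t7 ≤ 56 * M →
      1 + t1 +
        (1 + 1 + 1 + 1 + 1 +
                  (1 + 1 + 1 + 1 + 1 +
                      (1 + 1 + 1 + 1 + (1 + 1 + 1 + 1 + t2) + 1 +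
                        t3) +
                    1) +
                1 +
              t4 +
            (1 +
                (1 + (1 + 1 + 1 + 1 + 1) +
                      (1 + (1 + 1 + 1 + 1 + 1) +
                          (1 + (1 + 1 + 1 + 1) +
                                (1 + (1 + 1) + (1 + (1 + 1 + 1)) + 1 +
                                      (1 + (1 + 1 + 1) + (1 + (1 + 1 + 1 + 1) + (1 + (1 + 1) + 1 + 1) + 1) + 1) +
                                    1 +
                                  t5) +
                              1 +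
                            t6) +
                        1) +
                    1 +
                  t7) +
              1) +
          2) +
      2 ≤ 12 * (C * M) + 3 * (C1 * M) + 5 * (C2 * M) + 16 * (C3 * M) + 6000 * M := by
    intro t1 t2 t3 t4 t5 t6 t7 e1 e2 e3 e4 e5 e6 e7
    omega
  exact key _ _ _ _ _ _ _ d1 c2 d3 d4 c5 d6 d7

end prog5
end K13

namespace K13

section fin
variable {F : Type} [Field F] [DecidableEq F]

/-- the solver gives values at the roots -/
theorem sol_val {m : Pr [] (.prod (.prod Po Po) Po) Po} {C : ℕ} (hm : IsMul m C)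
    {rm : Pr [] (.prod Po Po) Po} {C1 : ℕ} (hr : IsRem rm C1)
    {sol : Pr [] (.prod Ma Po) Po} {C3 : ℕ} (hs : IsSol sol C3)
    (G L v : List F) (r j : ℕ) (hL : L.length = G.length) (hj : 1 ≤ j) (hr1 : 1 ≤ r)
    (hG : G.length = j * r) (hv : v.length = G.length) (k : Type) [Field k] [Algebra F k]
    (Z : Finset k) (hZ : r ≤ Z.card) (A : k → Finset k) (hA : ∀ ζ ∈ Z, j ≤ (A ζ).card)
    (hAr : ∀ ζ ∈ Z, ∀ a ∈ A ζ, aeval a (mpol G) = 0 ∧ E a L = ζ) :
    ∀ x : k, aeval x (mpol G) = 0 →
      (pol ((chunks r j (sol.val () (colf m rm G L r j, v) : List F)).map (E (E x L)))).eval x =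
        E x v := by
  have hG1 : 1 ≤ G.length := by rw [hG]; exact Nat.mul_pos hj hr1
  have x3 := colf_len hm hr G L r j hL
  have x4 := colf_mem hm hr G L r j hL
  have key : ∀ (c w : List F), c.length = G.length → w.length = G.length →
      cvec w = ∑ i : Fin G.length, c.getD i 0 • cvec ((colf m rm G L r j).getD i []) →
      ∀ x : k, aeval x (mpol G) = 0 →
      (pol ((chunks r j c).map (E (E x L)))).eval x = E x w := by
    intro c w hc hw h x hx
    rw [E_comb x G.length G.length w (colf m rm G L r j) c hw.le (fun y hy => (x4 y hy).le)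
      (by rw [x3, hG]) hc h, colf_val hm hr G L r j hL hG1 x hx,
      dot_cols x (E x L) j r c (by rw [hc, hG])]
  have hsp := spans G.length (colf m rm G L r j) v hv x4 (by rw [x3, hG]) (by
    intro c hc h
    refine indep j r c (by rw [hc, hG]) Z hZ A hA ?_
    intro ζ hζ a ha
    obtain ⟨h1, h2⟩ := hAr ζ hζ a ha
    have := key c (List.replicate G.length 0) hc (by simp) h a h1
    rw [h2] at this
    rw [show (fun v => E ζ v) = E (F := F) ζ from rfl, this]
    clear * -
    induction G.length with
    | zero => simp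
    | succ n ih => rw [List.replicate_succ, E_cons, ih]; simp)
  have s1 := hs F G.length G.length (colf m rm G L r j) v (by rw [x3, hG]) x4 hv
  exact key _ v s1.1 hv (s1.2.1 hsp.1 hsp.2)

end fin

end K13

open K13 in
theorem specBas (h1 : SpecSolve) (h2 : SpecInv) (h3 : SpecNaive) (h4 : SpecRem) (h0 : SpecUnits) :
    SpecBas := by
  obtain ⟨sol, C3, hs⟩ := h1
  obtain ⟨inv, C2, hi⟩ := h2
  obtain ⟨m, C0, hm⟩ := h3
  obtain ⟨rm, C1, hr⟩ := h4
  replace hs : IsSol sol C3 := hs
  replace hi : IsInv inv C2 := hi
  replace hm : IsMul m C0 := hm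
  replace hr : IsRem rm C1 := hr
  refine ⟨mainP m rm inv sol, 12 * C0 + 3 * C1 + 5 * C2 + 16 * C3 + 6000, ?_⟩
  intro F _ _ j h G L q hj hq hG hL hh
  have hu : (un j).length = j := by simp [un]
  have hv := val_mainP m rm inv sol h G L q (un j)
  rw [hu] at hv
  have hG1 : 1 ≤ G.length := by rw [hG]; exact Nat.mul_pos hj hq
  have x1 := xif_len hr G
  have x2 := onef_len G
  have x3 : (colf m rm G L q.length j).length = G.length := by
    rw [colf_len hm hr G L q.length j hL, hG]
  have x4 := colf_mem hm hr G L q.length j hL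
  have x5 := xjf_spec hm hr G j hG1
  have s1 := (hs F G.length G.length (colf m rm G L q.length j)
    (List.map (fun y => -y) (xjf m rm G j)) x3 x4 (by rw [List.length_map, x5.1])).1
  have f1 : (f0f m rm sol G L q.length j).length = j := length_chunks _ j _
  have f2 : Sh q.length (f0f m rm sol G L q.length j) :=
    mem_chunks _ j _ (by rw [s1, hG])
  have u1 := uf_spec hm hi (xif rm G) G (onef G) L h (f0f m rm sol G L q.length j) x1 x2 hL hG1
  have u2 : (utf m rm inv sol h G L q.length j).length = G.length := u1.1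
  have s2 := (hs F G.length G.length (colf m rm G L q.length j)
    (utf m rm inv sol h G L q.length j) x3 x4 u2).1
  have g1 : (u0f m rm inv sol h G L q.length j).length = j := length_chunks _ j _
  have g2 : Sh q.length (u0f m rm inv sol h G L q.length j) :=
    mem_chunks _ j _ (by rw [s2, hG])
  have hcost := cost_mainP hm hr hi hs h G L q (un j) hL (by rw [hu]; exact hj) hq
    (by rw [hu]; exact hG) hh
  intro c
  have hc : c = (f0f m rm sol G L q.length j, u0f m rm inv sol h G L q.length j) := hv
  rw [hc]
  refine ⟨f1, f2, g1, g2, ?_, hcost⟩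
  intro k _ _ _ α hα hinj hdvd hsqh hsqq hqL hcard ζ P hζ hP hPd hPv
  classical
  -- roots
  have hroot : ∀ i, aeval (α i) (mpol G) = 0 := by
    intro i
    rw [aeval_def, eval₂_eq_eval_map, hα, eval_prod]
    exact Finset.prod_eq_zero (Finset.mem_univ i) (by simp)
  let A : k → Finset k := fun z => (Finset.univ.filter (fun i => E (α i) L = z)).image α
  have hAcard : ∀ z : k, aeval z (mpol q) = 0 → (A z).card = j := by
    intro z hz
    have h7 := hcard z hz
    rw [Nat.card_eq_fintype_card, Fintype.card_subtype] at h7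
    rw [Finset.card_image_of_injective _ hinj]
    exact h7
  have hAr : ∀ z : k, ∀ a ∈ A z, aeval a (mpol G) = 0 ∧ E a L = z := by
    intro z a ha
    simp only [A, Finset.mem_image, Finset.mem_filter, Finset.mem_univ, true_and] at ha
    obtain ⟨i, hi, rfl⟩ := ha
    exact ⟨hroot i, hi⟩
  let Z : Finset k := ((mpol q).map (algebraMap F k)).roots.toFinset
  have hqne : (mpol q).map (algebraMap F k) ≠ 0 := ((mpol_monic q).1.map _).ne_zero
  have hZ0 : ∀ z ∈ Z, aeval z (mpol q) = 0 := by
    intro z hz
    simp only [Z, Multiset.mem_toFinset] at hz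
    rw [aeval_def, eval₂_eq_eval_map]
    exact (mem_roots hqne).mp hz
  have hZ : q.length ≤ Z.card := by
    have hsep : ((mpol q).map (algebraMap F k)).Separable :=
      PerfectField.separable_iff_squarefree.mpr hsqq
    simp only [Z]
    rw [Multiset.toFinset_card_of_nodup (nodup_roots hsep), IsAlgClosed.card_roots_eq_natDegree,
      (mpol_monic q).1.natDegree_map, (mpol_monic q).2]
  have key : ∀ v : List F, v.length = G.length → ∀ x : k, aeval x (mpol G) = 0 →
      (pol ((chunks q.length j (sol.val () (colf m rm G L q.length j, v) : List F)).map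
        (E (E x L)))).eval x = E x v := by
    intro v hvl
    exact sol_val hm hr hs G L v q.length j hL hj hq hG hvl k Z hZ A
      (fun z hz => (hAcard z (hZ0 z hz)).ge) (fun z _ a ha => hAr z a ha)
  have hPS : P = ∏ a ∈ A ζ, (X - C a) := by
    refine eq_prod (A ζ) P hP (by rw [hPd, hAcard ζ hζ]) ?_
    intro a ha
    simp only [A, Finset.mem_image, Finset.mem_filter, Finset.mem_univ, true_and] at ha
    obtain ⟨i, hi, rfl⟩ := ha
    exact hPv i hi
  have hF0 : X ^ j + pol ((f0f m rm sol G L q.length j).map (E ζ)) = P := by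
    rw [hPS]
    have hmon := mpol_monic ((f0f m rm sol G L q.length j).map (E (k := k) ζ))
    rw [List.length_map, f1] at hmon
    have he : mpol ((f0f m rm sol G L q.length j).map (E (k := k) ζ)) =
        X ^ j + pol ((f0f m rm sol G L q.length j).map (E ζ)) := by
      rw [mpol, List.length_map, f1]
    rw [← he]
    refine eq_prod (A ζ) _ hmon.1 (by rw [hmon.2, hAcard ζ hζ]) ?_
    intro a ha
    obtain ⟨ha1, ha2⟩ := hAr ζ a ha
    have := key (List.map (fun y => -y) (xjf m rm G j)) (by rw [List.length_map, x5.1]) a ha1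
    rw [ha2, E_neg, x5.2 a ha1] at this
    rw [he, eval_add, eval_pow, eval_X, f0f, this]
    ring
  refine ⟨hF0, ?_⟩
  intro g hg
  -- derivative
  have hsep : ((mpol h).map (algebraMap F k)).Separable :=
    PerfectField.separable_iff_squarefree.mpr hsqh
  have hGh : ∀ x : k, aeval x (mpol G) = 0 →
      ((mpol h).map (algebraMap F k)).eval x = 0 := by
    intro x hx
    obtain ⟨t, ht⟩ := hdvd
    rw [ht, Polynomial.map_mul, eval_mul]
    rw [aeval_def, eval₂_eq_eval_map] at hx
    rw [hx, zero_mul]
  have hder : ∀ x : k, aeval x (mpol G) = 0 →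
      (derivative ((mpol h).map (algebraMap F k))).eval x ≠ 0 := by
    intro x hx h0
    obtain ⟨a, b, hab⟩ := hsep
    have := congrArg (eval x) hab
    simp only [eval_add, eval_mul, hGh x hx, h0, mul_zero, add_zero, eval_one] at this
    exact zero_ne_one this
  have hone : ∀ x : k, E x (onef G) = 1 := fun x => onef_val G hG1 x
  have hxi : ∀ x : k, aeval x (mpol G) = 0 → E x (xif rm G) = x := fun x hx => xif_val hr G x hx
  have hden := denf_spec hm (xif rm G) G (onef G) h x1 x2 hG1
  have hcop : IsCoprime (pol (denf m (xif rm G) G (onef G) h)) (mpol G) := by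
    rw [Polynomial.isCoprime_iff_aeval_ne_zero_of_isAlgClosed F k]
    intro a
    by_cases ha : aeval a (mpol G) = 0
    · left
      have := hden.2 a ha (hone a) (hxi a ha)
      have h5 := hder a ha
      rw [← this] at h5
      exact h5
    · exact Or.inr ha
  rw [hPS]
  apply prod_dvd
  intro a ha
  obtain ⟨ha1, ha2⟩ := hAr ζ a ha
  have e1 := u1.2 hcop a ha1 (hone a) (hxi a ha1)
  rw [f1, ha2, hF0] at e1
  have e2 := key (utf m rm inv sol h G L q.length j) u2 a ha1
  rw [ha2] at e2
  have hPa : P.eval a = 0 := by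
    rw [hPS, eval_prod]
    exact Finset.prod_eq_zero ha (by simp)
  have e3 : (derivative ((mpol h).map (algebraMap F k))).eval a =
      (derivative P).eval a * g.eval a := by
    rw [hg, derivative_mul, eval_add, eval_mul, eval_mul, hPa, zero_mul, add_zero]
  have e4 : (derivative P).eval a ≠ 0 := by
    intro h5
    apply hder a ha1
    rw [e3, h5, zero_mul]
  have e5 : E a (utf m rm inv sol h G L q.length j) * g.eval a = 1 := by
    have : E a (utf m rm inv sol h G L q.length j) *
        ((derivative P).eval a * g.eval a) = (derivative P).eval a := by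
      rw [← e3]; exact e1
    apply mul_left_cancel₀ e4
    rw [mul_one]
    linear_combination this
  rw [eval_sub, eval_mul, eval_one]
  have e6 : (pol (List.map (fun v => aeval ζ (pol v))
      (u0f m rm inv sol h G L q.length j))).eval a =
      E a (utf m rm inv sol h G L q.length j) := e2
  rw [e6, e5, sub_self]

end Pool.Agent.H330AB.JK13
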