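import Pool.Agent.H330AB.SpecB2

set_option autoImplicit false
noncomputable section
namespace Pool.Agent.H330AB.JK14
open Polynomial Pool.Agent.H330FB
namespace K14

section TD
variable {A : Type} [CommRing A]

/-- the grading trick -/
noncomputable def ph (A : Type) [CommRing A] : A[X][X] →+* A[X][X][X] :=
  eval₂RingHom (eval₂RingHom ((C : A[X][X] →+* A[X][X][X]).comp ((C : A[X] →+* A[X][X]).comp C))
    (C (C X) * X : A[X][X][X])) (C X * X : A[X][X][X])

lemma ph_monomial (i j : ℕ) (c : A) :
    ph A (monomial i (monomial j c)) = monomial (i + j) (monomial i (monomial j c)) := by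
  unfold ph
  rw [coe_eval₂RingHom, eval₂_monomial, coe_eval₂RingHom, eval₂_monomial]
  simp only [← C_mul_X_pow_eq_monomial, RingHom.comp_apply, map_mul, map_pow, pow_add]
  ring

lemma ph_coeff (f : A[X][X]) (m i j : ℕ) :
    (((ph A f).coeff m).coeff i).coeff j = if i + j = m then (f.coeff i).coeff j else 0 := by
  induction f using Polynomial.induction_on' with
  | add p q hp hq =>
    rw [map_add]
    simp only [coeff_add, hp, hq]
    split_ifs <;> simp
  | monomial a p =>
    induction p using Polynomial.induction_on' with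
    | add p q hp hq =>
      rw [map_add, map_add]
      simp only [coeff_add, hp, hq]
      split_ifs <;> simp
    | monomial b c =>
      rw [ph_monomial]
      simp only [coeff_monomial]
      by_cases h1 : a + b = m
      · rw [if_pos h1]
        simp only [coeff_monomial]
        by_cases h2 : a = i
        · rw [if_pos h2]
          simp only [coeff_monomial]
          by_cases h3 : b = j
          · rw [if_pos h3, if_pos (by omega)]
          · rw [if_neg h3]; simp
        · rw [if_neg h2]; simp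
      · rw [if_neg h1]
        by_cases h2 : a = i
        · rw [if_pos h2]
          simp only [coeff_monomial]
          by_cases h3 : b = j
          · rw [if_neg (by omega)]; simp
          · rw [if_neg h3]; simp
        · rw [if_neg h2]; simp

lemma ph_natDegree_ge [Nontrivial A] {f : A[X][X]} (hf : f.Monic) :
    ph A f ≠ 0 ∧ f.natDegree ≤ (ph A f).natDegree := by
  have h1 : (((ph A f).coeff f.natDegree).coeff f.natDegree).coeff 0 = 1 := by
    rw [ph_coeff, if_pos (by omega), hf.coeff_natDegree, coeff_one_zero]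
  have h2 : (ph A f).coeff f.natDegree ≠ 0 := by
    intro h; rw [h] at h1; simp at h1
  refine ⟨?_, le_natDegree_of_ne_zero h2⟩
  intro h; rw [h] at h2; simp at h2

lemma TD_of_mul [IsDomain A] {f g : A[X][X]} (hf : f.Monic) (hg : g.Monic)
    (h : TD (f * g) (f.natDegree + g.natDegree)) : TD f f.natDegree := by
  obtain ⟨hf0, hf1⟩ := ph_natDegree_ge hf
  obtain ⟨hg0, hg1⟩ := ph_natDegree_ge hg
  have h1 : (ph A (f * g)).natDegree ≤ f.natDegree + g.natDegree := by
    rw [natDegree_le_iff_coeff_eq_zero]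
    intro m hm
    ext i j
    rw [ph_coeff]
    split_ifs with hij
    · rw [h i j (by omega)]; simp
    · simp
  rw [map_mul, natDegree_mul hf0 hg0] at h1
  have h2 : (ph A f).natDegree ≤ f.natDegree := by omega
  intro i j hij
  have h3 := ph_coeff f (i + j) i j
  have h4 : (ph A f).coeff (i + j) = 0 := coeff_eq_zero_of_natDegree_lt (by omega)
  rw [if_pos rfl, h4] at h3
  simpa using h3.symm

end TD

section pol
variable {R : Type} [CommRing R]

theorem coeff_pol (l : List R) (i : ℕ) : (pol l).coeff i = l.getD i 0 := by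
  induction l generalizing i with
  | nil => simp [pol]
  | cons x l ih =>
    cases i with
    | zero => simp [pol]
    | succ i => simp [pol, ih, coeff_X_mul]

theorem map_pol {R' : Type} [CommRing R'] (φ : R →+* R') (l : List R) :
    (pol l).map φ = pol (l.map φ) := by
  induction l with
  | nil => simp [pol]
  | cons x l ih => simp [pol, ih]

theorem map_mpol {R' : Type} [CommRing R'] (φ : R →+* R') (l : List R) :
    (mpol l).map φ = mpol (l.map φ) := by
  simp [mpol, map_pol]

theorem degree_pol (l : List R) : (pol l).degree < l.length := by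
  rw [degree_lt_iff_coeff_zero]
  intro m hm
  rw [coeff_pol, List.getD_eq_default _ _ (by simpa using hm)]

theorem monic_mpol (l : List R) : (mpol l).Monic :=
  monic_X_pow_add (degree_pol l)

theorem natDegree_mpol [Nontrivial R] (l : List R) : (mpol l).natDegree = l.length := by
  rw [mpol, natDegree_add_eq_left_of_degree_lt (by rw [degree_X_pow]; exact degree_pol l),
    natDegree_X_pow]

theorem mbiv_eq {F : Type} [Field F] (l : List (List F)) : mbiv l = mpol (l.map pol) := by
  simp [mbiv, biv, mpol]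

theorem coeff_mbiv {F : Type} [Field F] (l : List (List F)) (i κ : ℕ) (hi : i < l.length) :
    ((mbiv l).coeff i).coeff κ = (l.getD i []).getD κ 0 := by
  rw [mbiv_eq, mpol, coeff_add, coeff_X_pow, if_neg (by simp; omega), zero_add, coeff_pol,
    List.getD_eq_getElem _ _ (by simpa using hi), List.getElem_map, coeff_pol,
    List.getD_eq_getElem _ _ hi]

theorem coeff_mbiv_len {F : Type} [Field F] (l : List (List F)) (i : ℕ) (hi : l.length ≤ i) :
    (mbiv l).coeff i = if i = l.length then 1 else 0 := by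
  rw [mbiv_eq, mpol, coeff_add, coeff_X_pow, coeff_pol,
    List.getD_eq_default _ _ (by simpa using hi), List.length_map, add_zero]

theorem eval_zero_pol (l : List R) : (pol l).eval 0 = l.getD 0 0 := by
  rw [← coeff_zero_eq_eval_zero, coeff_pol]

/-- the value at `t = 0` -/
theorem mbiv_at0 {F k : Type} [Field F] [Field k] [Algebra F k] (l : List (List F)) :
    (bcp k (mbiv l)).map (evalRingHom (0 : k)) = (mpol (hd0 l)).map (algebraMap F k) := by
  rw [bcp, mbiv_eq, map_mpol, map_mpol, map_mpol]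
  congr 1
  simp only [hd0, List.map_map]
  apply List.map_congr_left
  intro r _
  cases r <;> simp [map_pol, pol]
end pol

section fac
variable {R : Type} [CommRing R] [IsDomain R]

theorem card_zeros {n : ℕ} (a : Fin n → R) (ha : Function.Injective a) (P : R[X]) (hP : P ≠ 0) :
    Nat.card {i // P.eval (a i) = 0} ≤ P.natDegree := by
  classical
  have : Nat.card {i // P.eval (a i) = 0} =
      ((Finset.univ.filter (fun i => P.eval (a i) = 0)).image a).card := by
    rw [Finset.card_image_of_injective _ ha, Nat.card_eq_fintype_card, Fintype.card_subtype]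
  rw [this]
  refine le_trans (Finset.card_le_card (t := P.roots.toFinset) ?_)
    ((Multiset.toFinset_card_le _).trans (card_roots' P))
  intro x hx
  rw [Finset.mem_image] at hx
  obtain ⟨i, hi, rfl⟩ := hx
  rw [Finset.mem_filter] at hi
  rw [Multiset.mem_toFinset, mem_roots hP]
  exact hi.2

omit [IsDomain R] in
theorem monic_lin {n : ℕ} (a : Fin n → R) : (∏ i, (X - C (a i))).Monic :=
  monic_prod_of_monic _ _ (fun _ _ => monic_X_sub_C _)

theorem natDegree_lin {n : ℕ} (a : Fin n → R) : (∏ i, (X - C (a i))).natDegree = n := by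
  rw [natDegree_prod_of_monic _ _ (fun i _ => monic_X_sub_C _)]
  simp

/-- number of zeros of a monic factor of a product of different linear factors -/
theorem card_zeros_eq {n : ℕ} (a : Fin n → R) (ha : Function.Injective a) (P Q : R[X])
    (hP : P.Monic) (h : P * Q = ∏ i, (X - C (a i))) :
    Nat.card {i // P.eval (a i) = 0} = P.natDegree := by
  classical
  have hQ : Q.Monic := hP.of_mul_monic_left (by rw [h]; exact monic_lin a)
  have h1 := card_zeros a ha P hP.ne_zero
  have h2 := card_zeros a ha Q hQ.ne_zero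
  have h3 : P.natDegree + Q.natDegree = n := by
    rw [← hP.natDegree_mul hQ, h, natDegree_lin]
  have h4 : n ≤ Nat.card {i // P.eval (a i) = 0} + Nat.card {i // Q.eval (a i) = 0} := by
    rw [Nat.card_eq_fintype_card, Nat.card_eq_fintype_card, Fintype.card_subtype,
      Fintype.card_subtype]
    refine le_trans ?_ (Finset.card_union_le _ _)
    rw [← Finset.filter_or, Finset.filter_true_of_mem, Finset.card_univ, Fintype.card_fin]
    intro i _
    have : (P * Q).eval (a i) = 0 := by
      rw [h, eval_prod]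
      exact Finset.prod_eq_zero (Finset.mem_univ i) (by simp)
    rw [eval_mul] at this
    exact mul_eq_zero.mp this
  omega

theorem eq_prod_zeros {n m : ℕ} (a : Fin n → R) (ha : Function.Injective a) (P : R[X])
    (hP : P.Monic) (e : Fin m ≃ {i // P.eval (a i) = 0}) (hm : P.natDegree = m) :
    P = ∏ i : Fin m, (X - C (a (e i))) := by
  classical
  have hinj : Function.Injective (fun i : Fin m => a (e i)) := by
    intro i i' h
    exact e.injective (Subtype.ext (ha h))
  have hdvd : ∏ i : Fin m, (X - C (a (e i))) ∣ P := by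
    have h1 := (Multiset.prod_X_sub_C_dvd_iff_le_roots hP.ne_zero
      (Finset.univ.val.map (fun i : Fin m => a (e i)))).mpr (by
        rw [Multiset.le_iff_subset]
        · intro x hx
          rw [Multiset.mem_map] at hx
          obtain ⟨i, _, rfl⟩ := hx
          rw [mem_roots hP.ne_zero]
          exact (e i).2
        · exact Multiset.Nodup.map hinj Finset.univ.nodup)
    rw [Multiset.map_map] at h1
    exact h1
  apply eq_of_monic_of_dvd_of_natDegree_le (monic_lin _) hP hdvd
  rw [natDegree_lin, hm]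

end fac

section ps
variable {F k : Type} [Field F] [Field k] [Algebra F k] {n : ℕ}

theorem cc_comp : (PowerSeries.constantCoeff (R := k)).comp Polynomial.coeToPowerSeries.ringHom =
    evalRingHom (0 : k) := by
  ext x
  · simp
  · simp

theorem hd0_prod {S : List (List F)} {φ : Fin n → PowerSeries k}
    (hR : Rts (bcp k (mbiv S)) φ) : (mpol (hd0 S)).map (algebraMap F k) =
      ∏ i, (X - C (PowerSeries.constantCoeff (φ i))) := by
  have h := congrArg (Polynomial.map (PowerSeries.constantCoeff (R := k))) hR.prod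
  rw [Polynomial.map_map, cc_comp, mbiv_at0, Polynomial.map_prod] at h
  rw [h]
  simp

theorem ev_const (φ : PowerSeries k) (f : k[X][X]) :
    (f.map (evalRingHom 0)).eval (PowerSeries.constantCoeff φ) =
      PowerSeries.constantCoeff (ev φ f) := by
  rw [ev, hom_eval₂, cc_comp, eval_map]

theorem card_ev {S : k[X][X]} {φ : Fin n → PowerSeries k} (hR : Rts S φ) (f : k[X][X])
    (hf : f.Monic) (hd : f ∣ S) : Nat.card {i // ev (φ i) f = 0} = f.natDegree := by
  obtain ⟨g, hg⟩ := hd
  have hinj : Function.Injective φ := by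
    intro i i' h
    exact hR.inj (by simp [h])
  have h := card_zeros_eq φ hinj (f.map Polynomial.coeToPowerSeries.ringHom)
    (g.map Polynomial.coeToPowerSeries.ringHom) (hf.map _) (by
      rw [← Polynomial.map_mul, ← hg, hR.prod])
  rw [hf.natDegree_map] at h
  rw [← h]
  simp only [eval_map]
  rfl

theorem gcd_root (H c H' Q L : F[X]) (h1 : H' ∣ H) (h2 : H' ∣ c)
    (h3 : ∀ D : F[X], D ∣ H → D ∣ c → D ∣ H') (h4 : H ∣ Q.comp L - c) (x : k) :
    aeval x H' = 0 ↔ aeval x H = 0 ∧ aeval (aeval x L) Q = 0 := by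
  classical
  have h5 : aeval x H = 0 → aeval (aeval x L) Q = aeval x c := by
    intro h
    obtain ⟨g, hg⟩ := h4
    have := congrArg (aeval x) hg
    rw [map_mul, h, zero_mul, map_sub, aeval_comp, sub_eq_zero] at this
    exact this
  have h0 : ∀ A B : F[X], A ∣ B → aeval x A = 0 → aeval x B = 0 := by
    rintro A _ ⟨g, rfl⟩ h
    rw [map_mul, h, zero_mul]
  constructor
  · intro h
    have h6 := h0 _ _ h1 h
    exact ⟨h6, by rw [h5 h6]; exact h0 _ _ h2 h⟩
  · rintro ⟨h6, h7⟩
    rw [h5 h6] at h7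
    refine h0 _ _ (h3 (EuclideanDomain.gcd H c) (EuclideanDomain.gcd_dvd_left _ _)
      (EuclideanDomain.gcd_dvd_right _ _)) ?_
    rw [EuclideanDomain.gcd_eq_gcd_ab, map_add, map_mul, map_mul, h6, h7]
    simp

theorem card_two [IsAlgClosed k] {α : Fin n → k} {j : ℕ} {q : List F} (H L : F[X])
    (hq : Squarefree ((mpol q).map (algebraMap F k)))
    (hc : ∀ ζ : k, aeval ζ (mpol q) = 0 →
      Nat.card {i // aeval (α i) H = 0 ∧ aeval (α i) L = ζ} = j) :
    Nat.card {i // aeval (α i) H = 0 ∧ aeval (aeval (α i) L) (mpol q) = 0} = j * q.length := by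
  classical
  have hne : (mpol q).map (algebraMap F k) ≠ 0 := ((monic_mpol q).map _).ne_zero
  have hZ : ((mpol q).map (algebraMap F k)).roots.toFinset.card = q.length := by
    rw [Multiset.toFinset_card_of_nodup (nodup_roots
      (PerfectField.separable_iff_squarefree.mpr hq))]
    rw [splits_iff_card_roots.mp (IsAlgClosed.splits _), natDegree_map, natDegree_mpol]
  rw [Nat.card_eq_fintype_card, Fintype.card_subtype]
  rw [Finset.card_eq_sum_card_fiberwise (f := fun i => aeval (α i) L)
    (t := ((mpol q).map (algebraMap F k)).roots.toFinset)]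
  · rw [Finset.sum_congr rfl (g := fun _ => j), Finset.sum_const, hZ, smul_eq_mul, mul_comm]
    intro ζ hζ
    rw [Multiset.mem_toFinset, mem_roots hne, IsRoot.def, eval_map_algebraMap] at hζ
    rw [← hc ζ hζ, Nat.card_eq_fintype_card, Fintype.card_subtype, Finset.filter_filter]
    congr 1
    apply Finset.filter_congr
    intro i _
    constructor
    · rintro ⟨⟨h1, h2⟩, h3⟩
      exact ⟨h1, h3⟩
    · rintro ⟨h1, h3⟩
      exact ⟨⟨h1, by rw [h3]; exact hζ⟩, h3⟩
  · intro i hi
    simp only [Finset.coe_filter, Finset.mem_univ, true_and, Set.mem_ofPred_eq] at hi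
    simp only [Finset.mem_coe]
    rw [Multiset.mem_toFinset, mem_roots hne, IsRoot.def, eval_map_algebraMap]
    exact hi.2

theorem fz_eq (ζ : k) (c : List (List (List F))) (f : k[X][X]) (j : ℕ) (hc : c.length = j)
    (hf : f.Monic) (hj : f.natDegree = j) (htd : TD f j)
    (h : ∀ i < j, ∀ κ < j + 1, (f.coeff i).coeff κ =
      aeval ζ (pol ((c.getD i []).map (fun v => v.getD κ 0)))) : fz ζ c = f := by
  rw [fz, hc]
  conv_rhs => rw [hf.as_sum, hj]
  congr 1
  apply Finset.sum_congr rfl
  intro i hi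
  rw [Finset.mem_range] at hi
  congr 2
  ext κ
  rw [finsetSum_coeff]
  simp only [coeff_C_mul, coeff_X_pow, mul_ite, mul_one, mul_zero]
  rw [Finset.sum_ite_eq]
  split_ifs with hκ
  · rw [Finset.mem_range] at hκ
    rw [h i hi κ hκ]
  · rw [Finset.mem_range] at hκ
    rw [htd i κ (by omega)]

theorem core [IsAlgClosed k] {j : ℕ} {S : List (List F)} {h L q h' : List F}
    {φ : Fin n → PowerSeries k}
    (hR : Rts (bcp k (mbiv S)) φ) (hh : mpol h ∣ mpol (hd0 S))
    (hq : Squarefree ((mpol q).map (algebraMap F k)))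
    (hex : ∀ ζ : k, aeval ζ (mpol q) = 0 → ∃ f : k[X][X], f.Monic ∧ f ∣ bcp k (mbiv S) ∧
      f.natDegree = j ∧ ∀ i, (ev (φ i) f = 0 ↔
        (aeval (PowerSeries.constantCoeff (φ i)) (mpol h) = 0 ∧
          aeval (PowerSeries.constantCoeff (φ i)) (pol L) = ζ)))
    (c : F[X]) (hc : mpol h ∣ (mpol q).comp (pol L) - c) (g1 : mpol h' ∣ mpol h)
    (g2 : mpol h' ∣ c) (g3 : ∀ D : F[X], D ∣ mpol h → D ∣ c → D ∣ mpol h') :
    h'.length = j * q.length ∧
    (∀ ζ : k, aeval ζ (mpol q) = 0 → Nat.card {i //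
      aeval (PowerSeries.constantCoeff (φ i)) (mpol h) = 0 ∧
          aeval (PowerSeries.constantCoeff (φ i)) (pol L) = ζ} = j) ∧
    Nat.card {i // ((mpol h').map (algebraMap F k)).eval (PowerSeries.constantCoeff (φ i)) = 0} =
      j * q.length := by
  have hcount : ∀ ζ : k, aeval ζ (mpol q) = 0 → Nat.card {i //
      aeval (PowerSeries.constantCoeff (φ i)) (mpol h) = 0 ∧
          aeval (PowerSeries.constantCoeff (φ i)) (pol L) = ζ} = j := by
    intro ζ hζ
    obtain ⟨f, hf1, hf2, hf3, hf4⟩ := hex ζ hζ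
    rw [← hf3, ← card_ev hR f hf1 hf2]
    exact Nat.card_congr (Equiv.subtypeEquivRight (fun i => (hf4 i).symm))
  have h2 := card_two (α := fun i => PowerSeries.constantCoeff (φ i)) (mpol h) (pol L) hq hcount
  have h3 : Nat.card {i //
      ((mpol h').map (algebraMap F k)).eval (PowerSeries.constantCoeff (φ i)) = 0} =
      j * q.length := by
    rw [← h2]
    apply Nat.card_congr (Equiv.subtypeEquivRight _)
    intro i
    rw [eval_map_algebraMap]
    exact gcd_root _ _ _ _ _ g1 g2 g3 hc _
  refine ⟨?_, hcount, h3⟩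
  obtain ⟨Q, hQ⟩ := g1.trans hh
  have h4 := card_zeros_eq (fun i => PowerSeries.constantCoeff (φ i)) hR.inj
    ((mpol h').map (algebraMap F k)) (Q.map (algebraMap F k)) ((monic_mpol h').map _) (by
      rw [← Polynomial.map_mul, ← hQ, hd0_prod hR])
  rw [natDegree_map, natDegree_mpol] at h4
  rw [← h4, h3]

theorem fin_eq {j : ℕ} {S : List (List F)} {h L q h' L' : List F} [IsAlgClosed k]
    {φ : Fin n → PowerSeries k} (hS : S.length = n)
    (hR : Rts (bcp k (mbiv S)) φ) (hh : mpol h ∣ mpol (hd0 S))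
    (hq : Squarefree ((mpol q).map (algebraMap F k)))
    (hcount : ∀ ζ : k, aeval ζ (mpol q) = 0 → Nat.card {i //
      aeval (PowerSeries.constantCoeff (φ i)) (mpol h) = 0 ∧
          aeval (PowerSeries.constantCoeff (φ i)) (pol L) = ζ} = j)
    (c : F[X]) (hc : mpol h ∣ (mpol q).comp (pol L) - c) (g1 : mpol h' ∣ mpol h)
    (g2 : mpol h' ∣ c) (g3 : ∀ D : F[X], D ∣ mpol h → D ∣ c → D ∣ mpol h')
    (hlen : h'.length = j * q.length)
    (hcard : Nat.card {i //
      ((mpol h').map (algebraMap F k)).eval (PowerSeries.constantCoeff (φ i)) = 0} =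
      j * q.length)
    (hL : mpol h' ∣ pol L - pol L')
    (F0 U0 : List (List F)) (hF0 : F0.length = j)
    (hB : ∀ (α : Fin (j * q.length) → k),
    (mpol h').map (algebraMap F k) = ∏ i, (X - Polynomial.C (α i)) → Function.Injective α →
    mpol h' ∣ mpol (hd0 S) → Squarefree ((mpol (hd0 S)).map (algebraMap F k)) →
    Squarefree ((mpol q).map (algebraMap F k)) →
    (∀ i, aeval (aeval (α i) (pol L')) (mpol q) = 0) →
    (∀ ζ : k, aeval ζ (mpol q) = 0 → Nat.card {i // aeval (α i) (pol L') = ζ} = j) →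
    ∀ (ζ : k) (P : k[X]), aeval ζ (mpol q) = 0 → P.Monic → P.natDegree = j →
    (∀ i, aeval (α i) (pol L') = ζ → P.eval (α i) = 0) →
    X ^ j + pol (F0.map (fun v => aeval ζ (pol v))) = P ∧
    ∀ g : k[X], (mpol (hd0 S)).map (algebraMap F k) = P * g →
      P ∣ pol (U0.map (fun v => aeval ζ (pol v))) * g - 1)
    (S' : List (List F)) (hS' : S'.length = n)
    (hSS : ∀ i < n, ∀ κ < j + 1, (S'.getD i []).getD κ 0 = (S.getD i []).getD κ 0)
    (out : List (List (List F))) (ζ : k) (f : k[X][X]) (hζ : aeval ζ (mpol q) = 0)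
    (hf : f.Monic) (hfd : f ∣ bcp k (mbiv S)) (hfj : f.natDegree = j)
    (hfi : ∀ i, (ev (φ i) f = 0 ↔
        (aeval (PowerSeries.constantCoeff (φ i)) (mpol h) = 0 ∧
          aeval (PowerSeries.constantCoeff (φ i)) (pol L) = ζ)))
    (hOut : ∀ (g : k[X][X]), g.Monic →
    (∀ i, ∀ κ < j + 1, ((f * g - bcp k (mbiv S')).coeff i).coeff κ = 0) →
    f.natDegree = F0.length → g.natDegree + F0.length = S'.length →
    f.map (evalRingHom 0) = X ^ F0.length + pol (F0.map (fun v => aeval ζ (pol v))) →
    f.map (evalRingHom 0) ∣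
      pol (U0.map (fun v => aeval ζ (pol v))) * g.map (evalRingHom 0) - 1 →
    ∀ i < F0.length, ∀ κ < j + 1, (f.coeff i).coeff κ =
      aeval ζ (pol ((out.getD i []).map (fun v => v.getD κ 0)))) (hol : out.length = j) :
    fz ζ out = f := by
  obtain ⟨g, hg⟩ := hfd
  have hgm : g.Monic := hf.of_mul_monic_left (by rw [← hg]; exact hR.monic)
  have hdeg : f.natDegree + g.natDegree = n := by
    rw [← hf.natDegree_mul hgm, ← hg, hR.deg]
  have hTD : TD f j := by
    rw [← hfj]
    apply TD_of_mul hf hgm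
    rw [← hg, hdeg]
    exact hR.td
  have hL2 : ∀ x : k, aeval x (mpol h') = 0 → aeval x (pol L') = aeval x (pol L) := by
    intro x hx
    obtain ⟨A, hA⟩ := hL
    have := congrArg (aeval x) hA
    rw [map_mul, hx, zero_mul, map_sub, sub_eq_zero] at this
    exact this.symm
  have hroot := gcd_root (k := k) _ _ _ _ _ g1 g2 g3 hc
  -- the enumeration of the roots
  obtain ⟨e⟩ : Nonempty (Fin (j * q.length) ≃ {i //
      ((mpol h').map (algebraMap F k)).eval (PowerSeries.constantCoeff (φ i)) = 0}) := by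
    rw [← hcard]
    exact ⟨(Finite.equivFin _).symm⟩
  have hprod := eq_prod_zeros (fun i => PowerSeries.constantCoeff (φ i)) hR.inj
    ((mpol h').map (algebraMap F k)) ((monic_mpol h').map _) e (by
      rw [natDegree_map, natDegree_mpol, hlen])
  have hinj : Function.Injective
      (fun i : Fin (j * q.length) => PowerSeries.constantCoeff (φ (e i))) := by
    intro i i' h
    exact e.injective (Subtype.ext (hR.inj h))
  have hz : ∀ i : Fin (j * q.length),
      aeval (PowerSeries.constantCoeff (φ (e i))) (mpol h') = 0 := by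
    intro i
    have := (e i).2
    rwa [eval_map_algebraMap] at this
  have hsq : Squarefree ((mpol (hd0 S)).map (algebraMap F k)) := by
    rw [hd0_prod hR]
    exact (separable_prod_X_sub_C_iff.mpr hR.inj).squarefree
  obtain ⟨hB1, hB2⟩ := hB (fun i => PowerSeries.constantCoeff (φ (e i))) hprod hinj
    (g1.trans hh) hsq hq (fun i => by
      rw [hL2 _ (hz i)]
      exact ((hroot _).mp (hz i)).2)
    (fun ζ hζ => by
      refine Eq.trans ?_ (hcount ζ hζ)
      refine Nat.card_congr ⟨fun x => ⟨(e x.1).1, ?_⟩, fun y => ⟨e.symm ⟨y.1, ?_⟩, ?_⟩, ?_, ?_⟩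
      · have h1 := (hroot _).mp (hz x.1)
        exact ⟨h1.1, by rw [← hL2 _ (hz x.1)]; exact x.2⟩
      · rw [eval_map_algebraMap]
        exact (hroot _).mpr ⟨y.2.1, by rw [y.2.2]; exact hζ⟩
      · have h1 : aeval (PowerSeries.constantCoeff (φ y.1)) (mpol h') = 0 :=
          (hroot _).mpr ⟨y.2.1, by rw [y.2.2]; exact hζ⟩
        simp only [Equiv.apply_symm_apply]
        rw [hL2 _ h1]
        exact y.2.2
      · intro x
        simp
      · intro y
        simp)
    ζ (f.map (evalRingHom 0)) hζ (hf.map _) (by rw [hf.natDegree_map, hfj])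
    (fun i hi => by
      rw [ev_const, (hfi _).mpr ⟨((hroot _).mp (hz i)).1, by rw [← hL2 _ (hz i)]; exact hi⟩]
      simp)
  refine fz_eq ζ out f j hol hf hfj hTD ?_
  have := hOut g hgm ?_ (by rw [hF0, hfj]) (by rw [hF0, hS', ← hdeg, hfj]; ring)
    (by rw [hF0, hB1]) (hB2 _ (by
      rw [← mbiv_at0, hg, Polynomial.map_mul]))
  · rw [hF0] at this
    exact this
  · intro i κ hκ
    rw [← hg, coeff_sub, coeff_sub, bcp, bcp, coeff_map, coeff_map, coe_mapRingHom, coeff_map,
      coeff_map]
    by_cases hi : i < n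
    · rw [coeff_mbiv S i κ (by omega), coeff_mbiv S' i κ (by omega), hSS i hi κ hκ, sub_self]
    · rw [coeff_mbiv_len S i (by omega), coeff_mbiv_len S' i (by omega), hS, hS', sub_self]

end ps

section prog

/-- type of the input -/
abbrev X0 : Ty := .prod Un (.prod Ma (.prod Po (.prod Po (.prod Un Po))))

/-- component -/
def aR : Pr [] X0 Un := .fst
/-- component -/
def aS : Pr [] X0 Ma := .comp .snd .fst
/-- component -/
def aH : Pr [] X0 Po := .comp .snd (.comp .snd .fst)
/-- component -/
def aL : Pr [] X0 Po := .comp .snd (.comp .snd (.comp .snd .fst))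
/-- component -/
def aJ : Pr [] X0 Un := .comp .snd (.comp .snd (.comp .snd (.comp .snd .fst)))
/-- component -/
def aQ : Pr [] X0 Po := .comp .snd (.comp .snd (.comp .snd (.comp .snd .snd)))
/-- a list of length `j * q.length` -/
def aU : Pr [] X0 Po := .comp (.comp (.pair aQ aJ) (mapP .fst)) flatP
/-- values at zero -/
def aZ : Pr [] X0 Po :=
  .comp (.pair .star aS) (mapP (c := .unit) (onL .snd .zero (.comp .snd .fst)))
/-- `j + 1` -/
def aJ1 : Pr [] X0 Un := .comp (.pair .star aJ) .cons
/-- cut rows -/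
def aS1 : Pr [] X0 Ma := .comp (.pair aJ1 aS) (mapP (.comp splitP .fst))

variable {F : Type} [Field F] [DecidableEq F]

theorem val_aU (x : Ty.D F X0) : List.length (aU.val () x) =
    List.length x.2.2.2.2.1 * List.length x.2.2.2.2.2 := by
  simp [aU, aQ, aJ]

theorem cost_aU (x : Ty.D F X0) : aU.cost (F := F) () () x ≤
      (20 * List.length x.2.2.2.2.2 + 85) * List.length x.2.2.2.2.1 + 100 := by
  have h1 := cost_mapP_le (F := F) (s := []) (c := Po) (a := .unit) (b := Po) .fst () ()
    (x.2.2.2.2.2, x.2.2.2.2.1) 1 (fun _ _ => by simp)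
  have h2 := cost_flatP (F := F) (s := []) (a := .fld) () ()
    (List.map (fun _ => x.2.2.2.2.2) x.2.2.2.2.1)
    (List.length x.2.2.2.2.2) (by
      intro y hy
      rw [List.mem_map] at hy
      obtain ⟨_, _, rfl⟩ := hy
      exact le_rfl)
  simp [aU, aQ, aJ] at h1 h2 ⊢
  nlinarith

theorem val_aZ (x : Ty.D F X0) : (aZ.val () x : List F) = hd0 x.2.1 := by
  simp only [aZ, aS, hd0, val_comp, val_pair, val_snd, val_fst, val_star, val_mapP]
  apply List.map_congr_left
  intro y _
  cases y <;> simp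

theorem cost_aZ (x : Ty.D F X0) :
    aZ.cost (F := F) () () x ≤ 20 * List.length x.2.1 + 20 := by
  have h1 := cost_mapP_le (F := F) (s := []) (c := .unit) (a := Po) (b := .fld)
    (onL .snd .zero (.comp .snd .fst)) () () ((), x.2.1) 6 (fun y _ => by cases y <;> simp)
  simp [aZ, aS] at h1 ⊢
  omega

theorem val_aJ1 (x : Ty.D F X0) :
    (aJ1.val (F := F) () x : List Unit) = () :: x.2.2.2.2.1 := by
  simp [aJ1, aJ]

theorem cost_aJ1 (x : Ty.D F X0) : aJ1.cost (F := F) () () x = 8 := by
  simp [aJ1, aJ]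

theorem val_aS1 (x : Ty.D F X0) : (aS1.val () x : List (List F)) =
    List.map (List.take (List.length x.2.2.2.2.1 + 1)) x.2.1 := by
  simp only [aS1, aS, val_comp, val_pair, val_snd, val_fst, val_mapP, val_aJ1, val_splitP]
  rfl

theorem cost_aS1 (x : Ty.D F X0) : aS1.cost (F := F) () () x ≤
      (24 * List.length x.2.2.2.2.1 + 60) * List.length x.2.1 + 40 := by
  have h1 := cost_mapP_le (F := F) (s := []) (c := Un) (a := Po) (b := Po)
    (.comp splitP .fst) () () (aJ1.val () x, x.2.1)
    (24 * (List.length x.2.2.2.2.1 + 1) + 9) (fun y _ => by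
      have := cost_splitP (F := F) (s := []) (a := .fld) (b := .unit) () () (aJ1.val () x, y)
      simp [val_aJ1] at this ⊢
      omega)
  have h2 := cost_aJ1 (F := F) x
  simp only [aS1, aS, cost_comp, cost_pair, cost_snd, cost_fst, val_comp, val_pair, val_snd,
    val_fst]
  simp only at h1
  nlinarith

/-- fit to the length `j * q.length` -/
def fitU : Pr [] (.prod X0 Po) Po := .comp (.pair (.comp .fst aU) (.pair .zero .snd)) fitP

theorem val_fitU (y : Ty.D F (.prod X0 Po)) : (fitU.val () y : List F) =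
    fit (List.length y.1.2.2.2.2.1 * List.length y.1.2.2.2.2.2) 0 y.2 := by
  have h := val_aU (F := F) y.1
  simp only [fitU, val_comp, val_pair, val_fst, val_snd, val_zero, val_fitP]
  exact congrArg (fun n => fit n 0 y.2) h

theorem cost_fitU (y : Ty.D F (.prod X0 Po)) : fitU.cost (F := F) () () y ≤
    40 * (List.length y.1.2.2.2.2.1 * List.length y.1.2.2.2.2.2) +
      85 * List.length y.1.2.2.2.2.1 + 120 := by
  have h := val_aU (F := F) y.1
  have h1 := cost_aU (F := F) y.1
  have h2 := cost_fitP (F := F) (s := []) (a := .fld) (b := .fld) () ()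
    (aU.val () y.1, ((0 : F), y.2))
  simp only [fitU, cost_comp, cost_pair, cost_fst, cost_snd, cost_zero, val_comp, val_pair,
    val_fst, val_snd, val_zero]
  have h3 : List.length (aU.val () y.1) = List.length y.1.2.2.2.2.1 * List.length y.1.2.2.2.2.2 :=
    h
  have h4 : (fitP (s := [])).cost () () (aU.val () y.1, ((0 : F), y.2)) ≤
    20 * (List.length y.1.2.2.2.2.1 * List.length y.1.2.2.2.2.2) + 2 := by
    rw [← h3]; exact h2
  nlinarith

/-- the program -/
def prog (w1 : Pr [] (.prod Po (.prod Po Po)) Po) (w2 : Pr [] (.prod Po Po) Po)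
    (w3 : Pr [] (.prod Po Po) Po)
    (w4 : Pr [] (.prod Po (.prod Po (.prod Po (.prod Po Un)))) (.prod Ma Ma))
    (w5 : Pr [] (.prod Un (.prod Un (.prod Po (.prod Ma (.prod Ma Ma))))) ML) : Pr [] X0 ML :=
  lt (.comp (.pair aQ (.pair aL aH)) w1)
  (lt (.comp (.pair (.comp .fst aH) .snd) w2)
  (lt (.comp (.pair (.comp .fst .fst) .snd) fitU)
  (lt (.comp (.pair (.comp (.comp (.comp .fst .fst) .fst) aL) .snd) w3)
  (lt (.comp (.pair (.comp (.comp (.comp (.comp .fst .fst) .fst) .fst) aZ)
    (.pair (.comp .fst .snd) (.pair .snd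
      (.pair (.comp (.comp (.comp (.comp .fst .fst) .fst) .fst) aQ)
        (.comp (.comp (.comp (.comp .fst .fst) .fst) .fst) aJ))))) w4)
  (.comp (.pair (.comp (.comp (.comp (.comp (.comp .fst .fst) .fst) .fst) .fst) aR)
    (.pair (.comp (.comp (.comp (.comp (.comp .fst .fst) .fst) .fst) .fst) aJ1)
      (.pair (.comp (.comp (.comp (.comp (.comp .fst .fst) .fst) .fst) .fst) aQ)
        (.pair (.comp (.comp (.comp (.comp (.comp .fst .fst) .fst) .fst) .fst) aS1)
          .snd)))) w5)))))

variable (w1 : Pr [] (.prod Po (.prod Po Po)) Po) (w2 : Pr [] (.prod Po Po) Po)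
    (w3 : Pr [] (.prod Po Po) Po)
    (w4 : Pr [] (.prod Po (.prod Po (.prod Po (.prod Po Un)))) (.prod Ma Ma))
    (w5 : Pr [] (.prod Un (.prod Un (.prod Po (.prod Ma (.prod Ma Ma))))) ML)

/-- the factor `h'` -/
noncomputable def hp (h L q : List F) : List F := w2.val () (h, w1.val () (q, (L, h)))

/-- fitted factor -/
noncomputable def hf (h L q : List F) (j : List Unit) : List F :=
  fit (j.length * q.length) 0 (hp w1 w2 h L q)

/-- reduced `L` -/
noncomputable def lf (h L q : List F) (j : List Unit) : List F :=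
  w3.val () (L, hf w1 w2 h L q j)

/-- data at `t = 0` -/
noncomputable def bf (S : List (List F)) (h L q : List F) (j : List Unit) :
    List (List F) × List (List F) :=
  w4.val () (hd0 S, (hf w1 w2 h L q j, (lf w1 w2 w3 h L q j, (q, j))))

theorem val_prog (r j : List Unit) (S : List (List F)) (h L q : List F) :
    ((prog w1 w2 w3 w4 w5).val () (r, (S, (h, (L, (j, q))))) : List (List (List F))) =
      w5.val () (r, (() :: j, (q, (S.map (List.take (j.length + 1)),
        bf w1 w2 w3 w4 S h L q j)))) := by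
  simp only [prog, val_lt, val_comp, val_pair, val_fst, val_snd, val_aZ, val_aJ1, val_aS1,
    val_fitU]
  rfl

theorem cost_prog (r j : List Unit) (S : List (List F)) (h L q : List F) :
    (prog w1 w2 w3 w4 w5).cost () () (r, (S, (h, (L, (j, q))))) ≤
      w1.cost () () (q, (L, h)) + w2.cost () () (h, w1.val () (q, (L, h))) +
      w3.cost () () (L, hf w1 w2 h L q j) +
      w4.cost () () (hd0 S, (hf w1 w2 h L q j, (lf w1 w2 w3 h L q j, (q, j)))) +
      w5.cost () () (r, (() :: j, (q, (S.map (List.take (j.length + 1)),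
        bf w1 w2 w3 w4 S h L q j)))) +
      (40 * (j.length * q.length) + 24 * (j.length * S.length) + 85 * j.length +
        80 * S.length + 400) := by
  have e1 := cost_fitU (F := F) ((r, (S, (h, (L, (j, q))))), hp w1 w2 h L q)
  have e2 := cost_aZ (F := F) (r, (S, (h, (L, (j, q)))))
  have e4 := cost_aS1 (F := F) (r, (S, (h, (L, (j, q)))))
  simp only [prog, cost_lt, cost_comp, cost_pair, cost_fst, cost_snd, val_comp,
    val_pair, val_fst, val_snd, val_aZ, val_aJ1, val_aS1, cost_aJ1, val_fitU]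
  have c1 : aQ.cost (F := F) () () (r, (S, (h, (L, (j, q))))) = 5 := rfl
  have c2 : aL.cost (F := F) () () (r, (S, (h, (L, (j, q))))) = 4 := rfl
  have c3 : aH.cost (F := F) () () (r, (S, (h, (L, (j, q))))) = 3 := rfl
  have c4 : aJ.cost (F := F) () () (r, (S, (h, (L, (j, q))))) = 5 := rfl
  have c5 : aR.cost (F := F) () () (r, (S, (h, (L, (j, q))))) = 1 := rfl
  have d1 : aQ.val (F := F) () (r, (S, (h, (L, (j, q))))) = q := rfl
  have d2 : aL.val (F := F) () (r, (S, (h, (L, (j, q))))) = L := rfl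
  have d3 : aH.val (F := F) () (r, (S, (h, (L, (j, q))))) = h := rfl
  have d4 : aJ.val (F := F) () (r, (S, (h, (L, (j, q))))) = j := rfl
  have d5 : aR.val (F := F) () (r, (S, (h, (L, (j, q))))) = r := rfl
  rw [c1, c2, c3, c4, c5, d1, d2, d3, d4, d5]
  have e5 : (24 * j.length + 60) * S.length + 40 =
    24 * (j.length * S.length) + 60 * S.length + 40 := by ring
  simp only at e1 e2 e4
  rw [e5] at e4
  simp only [bf, lf, hf, hp] at e1 ⊢
  omega

end prog

theorem lgc_le {a b : ℕ} (h : a ≤ 2 * b) (_hb : 1 ≤ b) : lgc a ≤ 2 * lgc b := by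
  unfold lgc
  have h1 : Nat.clog 2 a ≤ Nat.clog 2 b + 1 := by
    apply Nat.clog_le_of_le_pow
    have := Nat.le_pow_clog (b := 2) (by norm_num) b
    rw [pow_succ]
    omega
  omega

theorem cost_fin (C1 C2 C3 C4 C5 k s n a j b : ℕ) (hn : n + 1 ≤ s) (ha : a ≤ n) (hj : 1 ≤ j)
    (hb : 1 ≤ b) (hm : j * b ≤ a) :
    C1 * ((b + 1) * (a + 1) ^ 2) + C2 * (a + a + 1) ^ 2 + C3 * (a + j * b + 1) * (j * b + 1) +
      C4 * ((n + 1) ^ 2 * (j * b + 1)) + C5 * ((n + 1) * (j + 1) * ql k ((j + 1) * b)) +
      (40 * (j * b) + 24 * (j * n) + 85 * j + 80 * n + 400) ≤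
    (C1 + 4 * C2 + 2 * C3 + C4 + 2 * 2 ^ k * C5 + 700) *
      (lgc (s + 1) ^ k * ((s + 1) ^ 2 * (j * b + 1))) := by
  have hbm : b ≤ j * b := Nat.le_mul_of_pos_left b hj
  have hjm : j ≤ j * b := Nat.le_mul_of_pos_right j hb
  have hjb : (j + 1) * b ≤ 2 * (j * b) := by nlinarith
  have hlg : 1 ≤ lgc (s + 1) ^ k := Nat.one_le_pow _ _ (by unfold lgc; omega)
  have hl2 : lgc ((j + 1) * b + 1) ^ k ≤ 2 ^ k * lgc (s + 1) ^ k := by
    rw [← mul_pow]
    exact Nat.pow_le_pow_left (lgc_le (by omega) (by omega)) k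
  generalize hT : (s + 1) ^ 2 * (j * b + 1) = T
  generalize hG : lgc (s + 1) ^ k = G at *
  have t1 : (b + 1) * (a + 1) ^ 2 ≤ T := by
    rw [← hT, mul_comm]
    exact Nat.mul_le_mul (Nat.pow_le_pow_left (by omega) 2) (by omega)
  have t2 : (a + a + 1) ^ 2 ≤ 4 * T := by
    rw [← hT]
    calc (a + a + 1) ^ 2 ≤ (2 * (s + 1)) ^ 2 := Nat.pow_le_pow_left (by omega) 2
      _ = 4 * ((s + 1) ^ 2 * 1) := by ring
      _ ≤ 4 * ((s + 1) ^ 2 * (j * b + 1)) :=
        Nat.mul_le_mul_left _ (Nat.mul_le_mul_left _ (by omega))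
  have t3 : (a + j * b + 1) * (j * b + 1) ≤ 2 * T := by
    rw [← hT, ← mul_assoc]
    apply Nat.mul_le_mul_right
    nlinarith
  have t4 : (n + 1) ^ 2 * (j * b + 1) ≤ T := by
    rw [← hT]
    exact Nat.mul_le_mul_right _ (Nat.pow_le_pow_left (by omega) 2)
  have t5 : (n + 1) * (j + 1) * ql k ((j + 1) * b) ≤ 2 * 2 ^ k * (G * T) := by
    unfold ql
    calc (n + 1) * (j + 1) * (((j + 1) * b + 1) * lgc ((j + 1) * b + 1) ^ k)
        ≤ (s + 1) * (s + 1) * ((2 * (j * b + 1)) * (2 ^ k * G)) := by
          apply Nat.mul_le_mul (Nat.mul_le_mul (by omega) (by omega))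
          exact Nat.mul_le_mul (by omega) hl2
      _ = 2 * 2 ^ k * (G * ((s + 1) ^ 2 * (j * b + 1))) := by ring
      _ = 2 * 2 ^ k * (G * T) := by rw [hT]
  have t6 : 40 * (j * b) + 24 * (j * n) + 85 * j + 80 * n + 400 ≤ 700 * T := by
    have e1 : (s + 1) ^ 2 * 1 ≤ T := by
      rw [← hT]
      exact Nat.mul_le_mul_left _ (by omega)
    have e2 : j * n ≤ s * s := Nat.mul_le_mul (by omega) (by omega)
    nlinarith
  have hT1 : T ≤ G * T := Nat.le_mul_of_pos_left T hlg
  have u1 := Nat.mul_le_mul_left C1 (t1.trans hT1)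
  have u2 := Nat.mul_le_mul_left C2 (t2.trans (Nat.mul_le_mul_left 4 hT1))
  have u3 := Nat.mul_le_mul_left C3 (t3.trans (Nat.mul_le_mul_left 2 hT1))
  have u4 := Nat.mul_le_mul_left C4 (t4.trans hT1)
  have u5 := Nat.mul_le_mul_left C5 t5
  have u6 := t6.trans (Nat.mul_le_mul_left 700 hT1)
  rw [← mul_assoc] at u3
  calc _ ≤ C1 * (G * T) + C2 * (4 * (G * T)) + C3 * (2 * (G * T)) + C4 * (G * T) +
        C5 * (2 * 2 ^ k * (G * T)) + 700 * (G * T) := by
        refine Nat.add_le_add (Nat.add_le_add (Nat.add_le_add (Nat.add_le_add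
          (Nat.add_le_add u1 u2) u3) u4) u5) u6
    _ = _ := by ring

theorem fit_self {α : Type} (z : α) (l : List α) : fit l.length z l = l := by
  induction l with
  | nil => rfl
  | cons x l ih => simp [fit, ih]

end K14

/-- TARGET -/
theorem specClass (h1 : SpecComp) (h2 : SpecGcd) (h3 : SpecRem) (h4 : SpecBas) (h5 : SpecLift)
    (h0 : SpecUnits) : SpecClass := by
  obtain ⟨w1, C1, h1⟩ := h1
  obtain ⟨w2, C2, h2⟩ := h2
  obtain ⟨w3, C3, h3⟩ := h3
  obtain ⟨w4, C4, h4⟩ := h4
  obtain ⟨w5, C5, k5, h5⟩ := h5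
  refine ⟨K14.prog w1 w2 w3 w4 w5, C1 + 4 * C2 + 2 * C3 + C4 + 2 * 2 ^ k5 * C5 + 700, k5, ?_⟩
  intro F _ _ r s n j S h L q hr hrF hS hs hSh hh hL hj hq hjq
  have hm1 : 1 ≤ j * q.length := Nat.mul_pos hj hq
  have hbm : j ≤ j * q.length := Nat.le_mul_of_pos_right j hq
  have hun : ∀ i, (un i).length = i := fun i => by simp [un]
  have hun1 : () :: un j = un (j + 1) := by simp [un, List.replicate_succ]
  have hlen : (K14.hf w1 w2 h L q (un j)).length = j * q.length := by
    rw [K14.hf, length_fit, hun]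
  obtain ⟨a1, a2, a3⟩ := h1 F q L h hL (by omega)
  obtain ⟨b1, b2, b3, b4, b5⟩ := h2 F h (w1.val () (q, (L, h)))
  obtain ⟨c1, c2, c3⟩ := h3 F L (K14.hf w1 w2 h L q (un j))
  obtain ⟨d1, d2, d3, d4, d5, d6⟩ := h4 F j (hd0 S) (K14.hf w1 w2 h L q (un j))
    (K14.lf w1 w2 w3 h L q (un j)) q hj hq hlen c1 (by rw [hlen, hd0, List.length_map]; omega)
  have hSh' : Sh (j + 1) (S.map (List.take (j + 1))) := by
    intro x hx
    rw [List.mem_map] at hx
    obtain ⟨y, hy, rfl⟩ := hx
    rw [List.length_take, hSh y hy]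
    omega
  obtain ⟨e1, e2, e3, e4⟩ := h5 F r (j + 1) q (S.map (List.take (j + 1)))
    (K14.bf w1 w2 w3 w4 S h L q (un j)).1 (K14.bf w1 w2 w3 w4 S h L q (un j)).2 hr hrF
    (by omega) hq hSh' d2 d4 (by rw [K14.bf, d1]; exact hj) (by rw [K14.bf, d3, d1])
    (by rw [K14.bf, d1, List.length_map]; omega)
  have hv : ((K14.prog w1 w2 w3 w4 w5).val () (un r, (S, (h, (L, (un j, q))))) :
      List (List (List F))) = w5.val () (un r, (un (j + 1), (q, (S.map (List.take (j + 1)),
        ((K14.bf w1 w2 w3 w4 S h L q (un j)).1, (K14.bf w1 w2 w3 w4 S h L q (un j)).2))))) := by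
    rw [K14.val_prog, hun1, hun]
  intro c
  have hc : c = w5.val () (un r, (un (j + 1), (q, (S.map (List.take (j + 1)),
        ((K14.bf w1 w2 w3 w4 S h L q (un j)).1, (K14.bf w1 w2 w3 w4 S h L q (un j)).2))))) := hv
  refine ⟨?_, ?_, ?_, ?_⟩
  · rw [hc]; exact e1
  · rw [hc]; exact e2.trans d1
  · intro k _ _ _ φ hR hdv hsq hex ζ f hζ hf hfd hfj hfi
    obtain ⟨g1, g2, g3⟩ := K14.core hR hdv hsq hex (pol (w1.val () (q, (L, h)))) a2 b2 b3 b4
    have hfit : K14.hf w1 w2 h L q (un j) = w2.val () (h, w1.val () (q, (L, h))) := by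
      rw [K14.hf, hun, ← g1]
      exact K14.fit_self _ _
    refine K14.fin_eq (h' := K14.hf w1 w2 h L q (un j)) (L' := K14.lf w1 w2 w3 h L q (un j))
      hS hR hdv hsq g2 (pol (w1.val () (q, (L, h)))) a2 (by rw [hfit]; exact b2)
      (by rw [hfit]; exact b3) (by rw [hfit]; exact b4) hlen (by rw [hfit]; exact g3) c2
      (K14.bf w1 w2 w3 w4 S h L q (un j)).1 (K14.bf w1 w2 w3 w4 S h L q (un j)).2 d1
      (d5 k) (S.map (List.take (j + 1))) (by rw [List.length_map, hS]) ?_ c ζ f hζ hf hfd hfj hfi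
      (fun g hg u1 u2 u3 u4 u5 => ?_) ?_
    · intro i hi κ hκ
      have hi' : i < S.length := by omega
      simp [List.getD_eq_getElem?_getD, List.getElem?_eq_getElem hi', List.getElem?_take, hκ]
    · rw [hc]
      exact e3 k ζ f g hζ hf hg u1 u2 u3 u4 u5
    · rw [hc]
      exact e2.trans d1
  · refine (K14.cost_prog w1 w2 w3 w4 w5 (un r) (un j) S h L q).trans ?_
    rw [hun1, hun]
    have := K14.cost_fin C1 C2 C3 C4 C5 k5 s n h.length j q.length hs hh hj hq hjq
    refine le_trans ?_ this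
    refine Nat.add_le_add (Nat.add_le_add (Nat.add_le_add (Nat.add_le_add (Nat.add_le_add
      a3 ?_) ?_) ?_) ?_) ?_
    · rw [a1] at b5; exact b5
    · rw [hlen, hL] at c3; exact c3
    · rw [hlen, hd0, List.length_map, hS] at d6; exact d6
    · refine e4.trans ?_
      rw [List.length_map, hS]
      rw [show (K14.bf w1 w2 w3 w4 S h L q (un j)).1.length = j from d1]
    · rw [hS]

end Pool.Agent.H330AB.JK14
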