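import Pool.Agent.H330AB.SpecB2
import Pool.Agent.H330AB.JR11
set_option autoImplicit false
noncomputable section

namespace Pool.Agent.H330AB.K15
open Polynomial Pool.Agent.H330FB

/-! ### factors and power series roots -/

section fac

theorem dom_fac {R : Type} [CommRing R] [IsDomain R] {ι : Type} [Fintype ι] [DecidableEq ι]
    [DecidableEq R] (a : ι → R) (ha : Function.Injective a) (P Q : R[X]) (hP : P.Monic)
    (h : P * Q = ∏ j, (X - C (a j))) :
    P = ∏ j ∈ Finset.univ.filter (fun j => P.eval (a j) = 0), (X - C (a j)) := by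
  have hprod : (∏ j, (X - C (a j)) : R[X]).Monic := monic_prod_of_monic _ _ fun j _ => monic_X_sub_C _
  have hQ : Q.Monic := by
    have := hprod
    rw [← h] at this
    exact hP.of_mul_monic_left this
  have key : ∀ W : R[X], W.Monic →
      (∏ j ∈ Finset.univ.filter (fun j => W.eval (a j) = 0), (X - C (a j))) ∣ W := by
    intro W hW
    have h1 : (Finset.univ.filter (fun j => W.eval (a j) = 0)).val.map a ≤ W.roots := by
      rw [Multiset.le_iff_subset ((Finset.nodup _).map ha)]
      intro x hx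
      obtain ⟨j, hj, rfl⟩ := Multiset.mem_map.1 hx
      rw [mem_roots hW.ne_zero]
      exact (Finset.mem_filter.1 hj).2
    have h2 := Multiset.prod_dvd_prod_of_le (Multiset.map_le_map (f := fun b => (X - C b : R[X])) h1)
    rw [Multiset.map_map] at h2
    exact h2.trans (prod_multiset_X_sub_C_dvd W)
  have hdeg : ∀ s : Finset ι, (∏ j ∈ s, (X - C (a j)) : R[X]).natDegree = s.card := by
    intro s
    rw [natDegree_prod_of_monic _ _ fun j _ => monic_X_sub_C _]
    simp
  have hmon : ∀ s : Finset ι, (∏ j ∈ s, (X - C (a j)) : R[X]).Monic := fun s =>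
    monic_prod_of_monic _ _ fun j _ => monic_X_sub_C _
  have h1 := natDegree_le_of_dvd (key P hP) hP.ne_zero
  have h2 := natDegree_le_of_dvd (key Q hQ) hQ.ne_zero
  rw [hdeg] at h1 h2
  have h3 : P.natDegree + Q.natDegree = (Finset.univ : Finset ι).card := by
    rw [← hP.natDegree_mul hQ, h, hdeg]
  have h4 : (Finset.univ : Finset ι).card ≤ (Finset.univ.filter (fun j => P.eval (a j) = 0)).card
      + (Finset.univ.filter (fun j => Q.eval (a j) = 0)).card := by
    rw [← Finset.card_union_add_card_inter]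
    refine le_trans (Finset.card_le_card ?_) (Nat.le_add_right _ _)
    intro j _
    have h5 : (P * Q).eval (a j) = 0 := by
      rw [h, eval_prod]
      exact Finset.prod_eq_zero (Finset.mem_univ j) (by simp)
    rw [eval_mul] at h5
    rcases mul_eq_zero.1 h5 with h6 | h6
    · exact Finset.mem_union_left _ (Finset.mem_filter.2 ⟨Finset.mem_univ _, h6⟩)
    · exact Finset.mem_union_right _ (Finset.mem_filter.2 ⟨Finset.mem_univ _, h6⟩)
  refine eq_of_monic_of_dvd_of_natDegree_le (hmon _) hP (key P hP) ?_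
  rw [hdeg]
  omega

variable {k : Type} [Field k]

theorem norm_dvd {T g : k[X][X]} (hT : T.Monic) (hg : g ∣ T) :
    ∃ g' : k[X][X], g'.Monic ∧ Associated g g' := by
  obtain ⟨r, hr⟩ := hg
  have h1 : g.leadingCoeff * r.leadingCoeff = 1 := by rw [← leadingCoeff_mul, ← hr]; exact hT
  have hu : IsUnit (C r.leadingCoeff : k[X][X]) :=
    (IsUnit.of_mul_eq_one g.leadingCoeff (by rw [mul_comm]; exact h1)).map C
  obtain ⟨u, hu⟩ := hu
  refine ⟨g * C r.leadingCoeff, ?_, ⟨u, by rw [hu]⟩⟩
  rw [Monic, leadingCoeff_mul, leadingCoeff_C, h1]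

/-- evaluation as a ring homomorphism -/
def evH (φ : PowerSeries k) : k[X][X] →+* PowerSeries k :=
  eval₂RingHom Polynomial.coeToPowerSeries.ringHom φ

theorem evH_apply (φ : PowerSeries k) (g : k[X][X]) : evH φ g = ev φ g := rfl

theorem ev_unit (φ : PowerSeries k) {g g' : k[X][X]} (h : Associated g g') :
    ev φ g = 0 ↔ ev φ g' = 0 := by
  obtain ⟨u, rfl⟩ := h
  rw [← evH_apply, ← evH_apply, map_mul, mul_eq_zero]
  have : evH φ (u : k[X][X]) ≠ 0 := (u.isUnit.map (evH φ)).ne_zero
  simp [this]

variable {n : ℕ} {T : k[X][X]} {φ : Fin n → PowerSeries k}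

theorem exists_fac (h : Rts T φ) (i : Fin n) :
    ∃ g : k[X][X], g.Monic ∧ Irreducible g ∧ g ∣ T ∧ ev (φ i) g = 0 := by
  obtain ⟨s, hs, u, hu⟩ := WfDvdMonoid.exists_factors T h.monic.ne_zero
  have h1 : evH (φ i) s.prod = 0 := by
    have h2 : evH (φ i) (s.prod * u) = 0 := by rw [hu]; exact JR11.gp_ev_S h i
    rw [map_mul] at h2
    exact (mul_eq_zero.1 h2).resolve_right (u.isUnit.map (evH (φ i))).ne_zero
  rw [map_multiset_prod, Multiset.prod_eq_zero_iff] at h1
  obtain ⟨g, hg, hg0⟩ := Multiset.mem_map.1 h1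
  have hgT : g ∣ T := by rw [← hu]; exact (Multiset.dvd_prod hg).mul_right _
  obtain ⟨g', hm, ha⟩ := norm_dvd h.monic hgT
  exact ⟨g', hm, ha.irreducible (hs g hg), ha.symm.dvd.trans hgT, (ev_unit _ ha).1 hg0⟩

theorem fac_unique (h : Rts T φ) (i : Fin n) {g1 g2 : k[X][X]} (m1 : g1.Monic) (m2 : g2.Monic)
    (i1 : Irreducible g1) (i2 : Irreducible g2) (d1 : g1 ∣ T) (d2 : g2 ∣ T)
    (e1 : ev (φ i) g1 = 0) (e2 : ev (φ i) g2 = 0) : g1 = g2 := by
  by_contra hne
  have hnd : ¬ g2 ∣ g1 := fun hd =>
    hne (eq_of_monic_of_associated m1 m2 (i2.associated_of_dvd i1 hd).symm)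
  obtain ⟨r, hr⟩ := d1
  rw [hr] at d2
  obtain ⟨r', hr'⟩ := (i2.prime.dvd_or_dvd d2).resolve_left hnd
  have h1 : ev (φ i) (derivative T) = 0 := by
    rw [← evH_apply] at e1 e2 ⊢
    rw [hr, hr', derivative_mul, derivative_mul]
    simp only [map_add, map_mul, e1, e2, zero_mul, mul_zero, add_zero]
  rw [JR11.gp_ev_dS h] at h1
  obtain ⟨j, hj, hj0⟩ := Finset.prod_eq_zero_iff.1 h1
  exact (Finset.ne_of_mem_erase hj) (JR11.gp_phi_inj h (sub_eq_zero.1 hj0)).symm

theorem fac_map [DecidableEq (PowerSeries k)] (h : Rts T φ) {g : k[X][X]} (hg : g.Monic)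
    (hd : g ∣ T) : g.map Polynomial.coeToPowerSeries.ringHom =
      ∏ j ∈ Finset.univ.filter (fun j => ev (φ j) g = 0), (X - C (φ j)) := by
  obtain ⟨r, hr⟩ := hd
  have h1 : g.map Polynomial.coeToPowerSeries.ringHom * r.map Polynomial.coeToPowerSeries.ringHom
      = ∏ j, (X - C (φ j)) := by
    rw [← Polynomial.map_mul, ← hr, h.prod]
  have h2 := dom_fac φ (JR11.gp_phi_inj h) _ _ (hg.map _) h1
  rw [h2]
  refine Finset.prod_congr ?_ fun _ _ => rfl
  ext j
  simp only [Finset.mem_filter, Finset.mem_univ, true_and]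
  rw [← JR11.gp_ev_map]

theorem fac_deg [DecidableEq (PowerSeries k)] (h : Rts T φ) {g : k[X][X]} (hg : g.Monic)
    (hd : g ∣ T) : g.natDegree = (Finset.univ.filter (fun j => ev (φ j) g = 0)).card := by
  rw [← hg.natDegree_map Polynomial.coeToPowerSeries.ringHom, fac_map h hg hd,
    natDegree_prod_of_monic _ _ fun j _ => monic_X_sub_C _]
  simp

theorem fac_map0 [DecidableEq (PowerSeries k)] (h : Rts T φ) {g : k[X][X]} (hg : g.Monic)
    (hd : g ∣ T) : g.map (evalRingHom (0 : k)) =
      ∏ j ∈ Finset.univ.filter (fun j => ev (φ j) g = 0),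
        (X - C (PowerSeries.constantCoeff (φ j))) := by
  have h1 : (PowerSeries.constantCoeff (R := k)).comp Polynomial.coeToPowerSeries.ringHom
      = evalRingHom (0 : k) := by
    ext1
    · ext a; simp
    · simp
  rw [← h1, ← Polynomial.map_map, fac_map h hg hd, Polynomial.map_prod]
  refine Finset.prod_congr rfl fun j _ => ?_
  rw [Polynomial.map_sub, map_X, map_C]

theorem td_fac {T f g : k[X][X]} (hT : T.Monic) (htd : TD T T.natDegree) (hf : f.Monic)
    (h : T = f * g) : TD f f.natDegree := by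
  have hg : g.Monic := hf.of_mul_monic_left (h ▸ hT)
  have key : ∀ W : k[X][X], W.Monic → W.natDegree ≤ (JR11.gpPsi k W).natDegree := by
    intro W hW
    apply le_natDegree_of_ne_zero
    intro h0
    have h1 := JR11.gpPsi_coeff k W W.natDegree W.natDegree 0
    rw [h0, if_pos (by omega), coeff_natDegree, hW.leadingCoeff] at h1
    simp at h1
  have hne : ∀ W : k[X][X], W.Monic → JR11.gpPsi k W ≠ 0 := fun W hW h0 =>
    hW.ne_zero (JR11.gpPsi_inj k h0)
  have h1 : (JR11.gpPsi k f).natDegree + (JR11.gpPsi k g).natDegree ≤ T.natDegree := by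
    rw [← natDegree_mul (hne f hf) (hne g hg), ← map_mul, ← h]
    exact natDegree_le_of_degree_le (JR11.gpPsi_degree_le k htd)
  have h2 := key g hg
  have h3 : T.natDegree = f.natDegree + g.natDegree := by rw [h, hf.natDegree_mul hg]
  apply JR11.gpPsi_td
  rw [degree_eq_natDegree (hne f hf)]
  have : (JR11.gpPsi k f).natDegree ≤ f.natDegree := by omega
  exact_mod_cast this

theorem decomp (I : Finset k[X][X]) : ∀ (N : ℕ) (A : k[X][X]), A.natDegree ≤ N → A.Monic →
    (∀ g : k[X][X], g.Monic → Irreducible g → g ∣ A → g ∈ I) →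
    ∃ e : k[X][X] → ℕ, A = ∏ g ∈ I, g ^ e g := by
  classical
  intro N
  induction N with
  | zero =>
    intro A hN hA _
    refine ⟨fun _ => 0, ?_⟩
    rw [hA.natDegree_eq_zero.1 (by omega)]
    simp
  | succ N ih =>
    intro A hN hA hd
    by_cases h1 : IsUnit A
    · refine ⟨fun _ => 0, ?_⟩
      rw [hA.eq_one_of_isUnit h1]
      simp
    · obtain ⟨g0, hg0, hg0A⟩ := WfDvdMonoid.exists_irreducible_factor h1 hA.ne_zero
      obtain ⟨g, hm, ha⟩ := norm_dvd hA hg0A
      have hgi := ha.irreducible hg0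
      have hgA : g ∣ A := ha.symm.dvd.trans hg0A
      have hgI := hd g hm hgi hgA
      obtain ⟨r, hr⟩ := hgA
      have hrm : r.Monic := hm.of_mul_monic_left (hr ▸ hA)
      have hgd : 1 ≤ g.natDegree := by
        by_contra h0
        exact hgi.not_isUnit (by rw [hm.natDegree_eq_zero.1 (by omega)]; exact isUnit_one)
      have hdeg : A.natDegree = g.natDegree + r.natDegree := by rw [hr, hm.natDegree_mul hrm]
      obtain ⟨e, he⟩ := ih r (by omega) hrm fun g' h1 h2 h3 => hd g' h1 h2 (by
        rw [hr]; exact h3.mul_left _)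
      refine ⟨fun g' => e g' + if g' = g then 1 else 0, ?_⟩
      simp only [pow_add, Finset.prod_mul_distrib, ← he]
      rw [Finset.prod_eq_single g]
      · simp [hr, mul_comm]
      · intro b _ hb
        simp [hb]
      · intro h; exact absurd hgI h

/-- the block structure -/
structure Blocks {n : ℕ} (T : k[X][X]) (φ : Fin n → PowerSeries k) (f : Fin n → k[X][X]) :
    Prop where
  monic : ∀ i, (f i).Monic
  irr : ∀ i, Irreducible (f i)
  dvd : ∀ i, f i ∣ T
  ev : ∀ i j, ev (φ j) (f i) = 0 ↔ f j = f i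
  surj : ∀ g : k[X][X], g.Monic → Irreducible g → g ∣ T → ∃ i, g = f i
  blk : ∀ i j, Blk T φ i j ↔ f i = f j
  td : ∀ i, TD (f i) (f i).natDegree

theorem blocks (h : Rts T φ) : ∃ f : Fin n → k[X][X], Blocks T φ f := by
  classical
  choose f hm hi hd he using fun i => exists_fac h i
  have hev : ∀ i j, ev (φ j) (f i) = 0 ↔ f j = f i := by
    intro i j
    constructor
    · intro h0
      exact fac_unique h j (hm j) (hm i) (hi j) (hi i) (hd j) (hd i) (he j) h0
    · intro h0
      rw [← h0]; exact he j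
  refine ⟨f, hm, hi, hd, hev, ?_, ?_, ?_⟩
  · intro g gm gi gd
    have h1 := fac_deg h gm gd
    have h2 : 1 ≤ g.natDegree := by
      by_contra h0
      exact gi.not_isUnit (by rw [gm.natDegree_eq_zero.1 (by omega)]; exact isUnit_one)
    rw [h1] at h2
    obtain ⟨i, hi'⟩ := Finset.card_pos.1 h2
    exact ⟨i, fac_unique h i gm (hm i) gi (hi i) gd (hd i) (Finset.mem_filter.1 hi').2 (he i)⟩
  · intro i j
    constructor
    · rintro ⟨g, gi, gd, g1, g2⟩
      obtain ⟨g', gm', ga⟩ := norm_dvd h.monic gd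
      have gi' := ga.irreducible gi
      have gd' := ga.symm.dvd.trans gd
      rw [← fac_unique h i gm' (hm i) gi' (hi i) gd' (hd i) ((ev_unit _ ga).1 g1) (he i),
        ← fac_unique h j gm' (hm j) gi' (hi j) gd' (hd j) ((ev_unit _ ga).1 g2) (he j)]
    · intro h0
      exact ⟨f i, hi i, hd i, he i, by rw [h0]; exact he j⟩
  · intro i
    obtain ⟨r, hr⟩ := hd i
    exact td_fac h.monic (by rw [h.deg]; exact h.td) (hm i) hr

theorem Blocks.deg [DecidableEq k[X][X]] {f : Fin n → k[X][X]} (hf : Blocks T φ f)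
    (h : Rts T φ) (i : Fin n) :
    (f i).natDegree = (Finset.univ.filter (fun j => f j = f i)).card := by
  classical
  rw [fac_deg h (hf.monic i) (hf.dvd i)]
  congr 1
  ext j
  simp only [Finset.mem_filter, Finset.mem_univ, true_and]
  exact hf.ev i j

theorem Blocks.map0 [DecidableEq k[X][X]] {f : Fin n → k[X][X]} (hf : Blocks T φ f)
    (h : Rts T φ) (i : Fin n) :
    (f i).map (evalRingHom (0 : k)) = ∏ j ∈ Finset.univ.filter (fun j => f j = f i),
      (X - C (PowerSeries.constantCoeff (φ j))) := by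
  classical
  rw [fac_map0 h (hf.monic i) (hf.dvd i)]
  refine Finset.prod_congr ?_ fun _ _ => rfl
  ext j
  simp only [Finset.mem_filter, Finset.mem_univ, true_and]
  exact hf.ev i j

/-- the decomposition of a polynomial between `T` and a power of `T` -/
theorem Blocks.split [DecidableEq k[X][X]] {f : Fin n → k[X][X]} (hf : Blocks T φ f)
    (h : Rts T φ) {A : k[X][X]} {d : ℕ} (hA : A.Monic) (h1 : T ∣ A) (h2 : A ∣ T ^ d) :
    ∃ e : k[X][X] → ℕ, (∀ i, 1 ≤ e (f i)) ∧ A = ∏ g ∈ Finset.univ.image f, g ^ e g ∧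
      A.map (evalRingHom (0 : k)) = ∏ i, (X - C (PowerSeries.constantCoeff (φ i))) ^ e (f i) := by
  obtain ⟨e, he⟩ := decomp (Finset.univ.image f) A.natDegree A le_rfl hA (by
    intro g gm gi gd
    obtain ⟨i, hi⟩ := hf.surj g gm gi (gi.prime.dvd_of_dvd_pow (gd.trans h2))
    exact Finset.mem_image.2 ⟨i, Finset.mem_univ _, hi.symm⟩)
  refine ⟨e, ?_, he, ?_⟩
  · intro i
    have h3 : f i ∣ ∏ g ∈ Finset.univ.image f, g ^ e g := by rw [← he]; exact (hf.dvd i).trans h1
    obtain ⟨g, hg, hgd⟩ := (Prime.dvd_finsetProd_iff (hf.irr i).prime _).1 h3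
    obtain ⟨j, _, rfl⟩ := Finset.mem_image.1 hg
    have h4 : f i ∣ f j := (hf.irr i).prime.dvd_of_dvd_pow hgd
    have h5 : f i = f j :=
      eq_of_monic_of_associated (hf.monic i) (hf.monic j) ((hf.irr i).associated_of_dvd (hf.irr j) h4)
    by_contra h0
    rw [← h5] at hgd
    have : e (f i) = 0 := by omega
    rw [this, pow_zero] at hgd
    exact (hf.irr i).not_isUnit (isUnit_of_dvd_one hgd)
  · conv_lhs => rw [he]
    rw [Polynomial.map_prod]
    have h3 : ∀ g ∈ Finset.univ.image f, (g ^ e g).map (evalRingHom (0 : k)) =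
        ∏ j ∈ Finset.univ.filter (fun j => f j = g),
          (X - C (PowerSeries.constantCoeff (φ j))) ^ e (f j) := by
      intro g hg
      obtain ⟨i, _, rfl⟩ := Finset.mem_image.1 hg
      rw [Polynomial.map_pow, hf.map0 h i, ← Finset.prod_pow]
      refine Finset.prod_congr rfl fun j hj => ?_
      rw [(Finset.mem_filter.1 hj).2]
    rw [Finset.prod_congr rfl h3]
    exact Finset.prod_fiberwise_of_maps_to (fun i _ => Finset.mem_image_of_mem f (Finset.mem_univ i)) _

end fac

end Pool.Agent.H330AB.K15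

namespace Pool.Agent.H330AB.K15
open Polynomial Pool.Agent.H330FB

/-! ### squarefree decompositions -/

section sqf
variable {k : Type} [Field k] [DecidableEq k]

theorem count_le_one {p : k[X]} (hp : Squarefree p) (ζ : k) : p.roots.count ζ ≤ 1 := by
  rw [count_roots]
  by_contra h
  have h1 : (X - C ζ) ^ 2 ∣ p := (le_rootMultiplicity_iff hp.ne_zero).1 (by omega)
  rw [pow_two] at h1
  exact not_isUnit_X_sub_C ζ (hp _ h1)

theorem sqf_a (l : List (ℕ × k[X])) (hsq : Squarefree (l.map (fun o : ℕ × k[X] => o.2)).prod) :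
    ∀ o ∈ l, ∀ ζ : k, ζ ∈ o.2.roots →
      ((l.map (fun o : ℕ × k[X] => o.2 ^ o.1)).prod).roots.count ζ = o.1 := by
  induction l with
  | nil => intro o ho; simp at ho
  | cons a t ih =>
    intro o ho ζ hζ
    rw [List.map_cons, List.prod_cons] at hsq
    have h0 := hsq.ne_zero
    have ha : a.2 ≠ 0 := left_ne_zero_of_mul h0
    have ht : (t.map (fun o : ℕ × k[X] => o.2)).prod ≠ 0 := right_ne_zero_of_mul h0
    have hte : ∀ o ∈ t, o.2 ≠ 0 := by
      intro o ho h
      apply ht
      rw [List.prod_eq_zero_iff]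
      exact List.mem_map.2 ⟨o, ho, h⟩
    have htp : (t.map (fun o : ℕ × k[X] => o.2 ^ o.1)).prod ≠ 0 := by
      rw [Ne, List.prod_eq_zero_iff]
      intro h
      obtain ⟨o, ho, h⟩ := List.mem_map.1 h
      exact hte o ho ((pow_eq_zero_iff (by
        intro h1; rw [h1, pow_zero] at h; exact one_ne_zero h)).1 h)
    have hsum := count_le_one hsq ζ
    rw [roots_mul h0, Multiset.count_add] at hsum
    rw [List.map_cons, List.prod_cons, roots_mul (mul_ne_zero (pow_ne_zero _ ha) htp),
      Multiset.count_add, roots_pow, Multiset.count_nsmul]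
    rcases List.mem_cons.1 ho with rfl | ho
    · have h1 : 1 ≤ o.2.roots.count ζ := Multiset.one_le_count_iff_mem.2 hζ
      have h2 : o.2.roots.count ζ = 1 := by omega
      have h3 : ((t.map (fun o : ℕ × k[X] => o.2)).prod).roots.count ζ = 0 := by omega
      have h4 : ((t.map (fun o : ℕ × k[X] => o.2 ^ o.1)).prod).roots.count ζ = 0 := by
        rw [Multiset.count_eq_zero] at h3 ⊢
        intro h5
        apply h3
        rw [mem_roots htp, IsRoot, ← coe_evalRingHom, map_list_prod, List.prod_eq_zero_iff] at h5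
        obtain ⟨g, hg, hg0⟩ := List.mem_map.1 h5
        obtain ⟨o', ho', rfl⟩ := List.mem_map.1 hg
        rw [map_pow] at hg0
        have hg1 := (pow_eq_zero_iff (by
          intro h1; rw [h1, pow_zero] at hg0; exact one_ne_zero hg0)).1 hg0
        rw [mem_roots ht, IsRoot, ← coe_evalRingHom, map_list_prod, List.prod_eq_zero_iff]
        exact List.mem_map.2 ⟨o'.2, List.mem_map.2 ⟨o', ho', rfl⟩, hg1⟩
      rw [h2, h4]
      omega
    · have h1 : 1 ≤ ((t.map (fun o : ℕ × k[X] => o.2)).prod).roots.count ζ := by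
        rw [Multiset.one_le_count_iff_mem, mem_roots ht, IsRoot, ← coe_evalRingHom, map_list_prod,
          List.prod_eq_zero_iff]
        exact List.mem_map.2 ⟨o.2, List.mem_map.2 ⟨o, ho, rfl⟩, (mem_roots (hte o ho)).1 hζ⟩
      have h2 : a.2.roots.count ζ = 0 := by omega
      rw [h2, mul_zero, zero_add]
      exact ih (hsq.squarefree_of_dvd (dvd_mul_left _ _)) o ho ζ hζ

theorem sqf_b (l : List (ℕ × k[X])) (ζ : k)
    (h : 1 ≤ ((l.map (fun o : ℕ × k[X] => o.2 ^ o.1)).prod).roots.count ζ) (hne : ∀ o ∈ l, o.2 ≠ 0) :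
    ∃ o ∈ l, ζ ∈ o.2.roots := by
  rw [Multiset.one_le_count_iff_mem] at h
  have h0 := ne_zero_of_mem_roots h
  rw [mem_roots h0, IsRoot, ← coe_evalRingHom, map_list_prod, List.prod_eq_zero_iff] at h
  obtain ⟨g, hg, hg0⟩ := List.mem_map.1 h
  obtain ⟨o', ho', rfl⟩ := List.mem_map.1 hg
  rw [map_pow] at hg0
  have hg1 := (pow_eq_zero_iff (by
    intro h1; rw [h1, pow_zero] at hg0; exact one_ne_zero hg0)).1 hg0
  exact ⟨o', ho', (mem_roots (hne o' ho')).2 hg1⟩

theorem sqf_c (l : List (ℕ × k[X])) (hsq : Squarefree (l.map (fun o : ℕ × k[X] => o.2)).prod)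
    (hne : ∀ o ∈ l, o.2 ≠ 0) (h1 : ∀ o ∈ l, 1 ≤ o.1) (hnd : (l.map (fun o : ℕ × k[X] => o.1)).Nodup) :
    ∀ o ∈ l, ∀ ζ : k, ζ ∈ o.2.roots ↔
      ((l.map (fun o : ℕ × k[X] => o.2 ^ o.1)).prod).roots.count ζ = o.1 := by
  intro o ho ζ
  refine ⟨sqf_a l hsq o ho ζ, fun h => ?_⟩
  obtain ⟨o', ho', h'⟩ := sqf_b l ζ (by rw [h]; exact h1 o ho) hne
  have h2 := sqf_a l hsq o' ho' ζ h'
  rw [h] at h2
  rwa [List.inj_on_of_nodup_map hnd ho ho' h2]

/-- roots of products over a finite set -/
theorem count_prod {ι : Type} (s : Finset ι) (a : ι → k) (e : ι → ℕ) (ζ : k) :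
    (∏ i ∈ s, (X - C (a i)) ^ e i).roots.count ζ = ∑ i ∈ s, if a i = ζ then e i else 0 := by
  rw [roots_prod _ _ (Finset.prod_ne_zero_iff.2 fun i _ => pow_ne_zero _ (X_sub_C_ne_zero _)),
    Multiset.count_bind]
  change (Multiset.map _ s.val).sum = (Multiset.map _ s.val).sum
  congr 1
  refine Multiset.map_congr rfl fun i _ => ?_
  rw [roots_pow, roots_X_sub_C, Multiset.count_nsmul, Multiset.count_singleton]
  split_ifs with h1 h2 h2
  · rw [mul_one]
  · exact absurd h1.symm h2
  · exact absurd h2.symm h1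
  · rw [mul_zero]

end sqf

/-- what is used of the squarefree decomposition -/
structure Sqf {F : Type} [Field F] (P : List F) (out : List (List Unit × List F)) : Prop where
  prod : (out.map (fun o => mpol o.2 ^ o.1.length)).prod = mpol P
  pos : ∀ o ∈ out, 1 ≤ o.1.length ∧ 1 ≤ o.2.length
  sq : Squarefree (out.map (fun o => mpol o.2)).prod
  nd : (out.map (fun o => o.1.length)).Nodup

theorem perf_sq {F k : Type} [Field F] [Field k] [Algebra F k] {p : ℕ} (hp : p.Prime)
    (hc : CharP F p) {rt : F → F} (hrt : ∀ x, rt x ^ p = x) {g : F[X]} (hg : Squarefree g) :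
    Squarefree (g.map (algebraMap F k)) := by
  have : Fact p.Prime := ⟨hp⟩
  have : ExpChar F p := ExpChar.prime hp
  have : PerfectRing F p := PerfectRing.ofSurjective F p fun x => ⟨rt x, hrt x⟩
  have : PerfectField F := PerfectRing.toPerfectField F p
  exact ((PerfectField.separable_iff_squarefree.2 hg).map).squarefree

theorem mpol_monic {R : Type} [CommRing R] (l : List R) : (mpol l).Monic := by
  refine monic_X_pow_add ?_
  induction l with
  | nil => simp [pol]
  | cons x l ih =>
    rw [pol, degree_lt_iff_coeff_zero]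
    intro m hm
    rw [List.length_cons] at hm
    obtain ⟨m, rfl⟩ : ∃ m', m = m' + 1 := ⟨m - 1, by omega⟩
    rw [coeff_add, coeff_C_succ, coeff_X_mul, zero_add]
    exact coeff_eq_zero_of_degree_lt (lt_of_lt_of_le ih (by exact_mod_cast (by omega)))

theorem mpol_natDegree {R : Type} [CommRing R] [Nontrivial R] (l : List R) :
    (mpol l).natDegree = l.length := by
  have h : (pol l).degree < l.length := by
    induction l with
    | nil => simp [pol]
    | cons x l ih =>
      rw [pol, degree_lt_iff_coeff_zero]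
      intro m hm
      rw [List.length_cons] at hm
      obtain ⟨m, rfl⟩ : ∃ m', m = m' + 1 := ⟨m - 1, by omega⟩
      rw [coeff_add, coeff_C_succ, coeff_X_mul, zero_add]
      exact coeff_eq_zero_of_degree_lt (lt_of_lt_of_le ih (by exact_mod_cast (by omega)))
  rw [mpol, add_comm, natDegree_add_eq_right_of_degree_lt (by rwa [degree_X_pow]), natDegree_X_pow]

theorem sqf_sum {F : Type} [Field F] {P : List F} {out : List (List Unit × List F)}
    (h : (out.map (fun o => mpol o.2 ^ o.1.length)).prod = mpol P) :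
    (out.map (fun o => o.1.length * o.2.length)).sum = P.length := by
  rw [← mpol_natDegree P, ← h]
  induction out generalizing P with
  | nil => simp
  | cons a t ih =>
    rw [List.map_cons, List.map_cons, List.sum_cons, List.prod_cons]
    have hm : (t.map (fun o => mpol o.2 ^ o.1.length)).prod.Monic := by
      clear ih h
      induction t with
      | nil => simp
      | cons b t ih => simpa using ((mpol_monic b.2).pow _).mul ih
    rw [((mpol_monic a.2).pow _).natDegree_mul hm, (mpol_monic a.2).natDegree_pow, mpol_natDegree]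
    congr 1
    clear h
    have key : ∀ t : List (List Unit × List F), (t.map (fun o => o.1.length * o.2.length)).sum =
        (t.map (fun o => mpol o.2 ^ o.1.length)).prod.natDegree := by
      intro t
      induction t with
      | nil => simp
      | cons b t ih =>
        have hm : (t.map (fun o => mpol o.2 ^ o.1.length)).prod.Monic := by
          clear ih
          induction t with
          | nil => simp
          | cons b t ih => simpa using ((mpol_monic b.2).pow _).mul ih
        rw [List.map_cons, List.map_cons, List.sum_cons, List.prod_cons,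
          ((mpol_monic b.2).pow _).natDegree_mul hm, (mpol_monic b.2).natDegree_pow,
          mpol_natDegree, ih]
    exact key t

end Pool.Agent.H330AB.K15

namespace Pool.Agent.H330AB.K15
open Polynomial Pool.Agent.H330FB

section sqf2
variable {F k : Type} [Field F] [Field k] [Algebra F k] [DecidableEq k]

theorem aeval_root (p : F[X]) (hp : p ≠ 0) (ζ : k) :
    ζ ∈ (p.map (algebraMap F k)).roots ↔ aeval ζ p = 0 := by
  rw [mem_roots (Polynomial.map_ne_zero hp), IsRoot, eval_map_algebraMap]

theorem Sqf.main (hperf : ∀ g : F[X], Squarefree g → Squarefree (g.map (algebraMap F k)))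
    {P : List F} {out : List (List Unit × List F)} (h : Sqf P out) :
    (∀ o ∈ out, ∀ ζ : k, aeval ζ (mpol o.2) = 0 ↔
      ((mpol P).map (algebraMap F k)).roots.count ζ = o.1.length) ∧
    (∀ ζ : k, 1 ≤ ((mpol P).map (algebraMap F k)).roots.count ζ →
      ∃ o ∈ out, aeval ζ (mpol o.2) = 0) ∧
    ∀ o ∈ out, Squarefree ((mpol o.2).map (algebraMap F k)) := by
  set l : List (ℕ × k[X]) := out.map (fun o => (o.1.length, (mpol o.2).map (algebraMap F k)))
    with hl
  have e1 : (l.map (fun o : ℕ × k[X] => o.2)).prod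
      = (out.map (fun o => mpol o.2)).prod.map (algebraMap F k) := by
    rw [hl, List.map_map, ← coe_mapRingHom, map_list_prod, List.map_map]
    rfl
  have e2 : (l.map (fun o : ℕ × k[X] => o.2 ^ o.1)).prod = (mpol P).map (algebraMap F k) := by
    rw [hl, List.map_map, ← h.prod, ← coe_mapRingHom, map_list_prod, List.map_map]
    congr 1
    refine List.map_congr_left fun o _ => ?_
    simp
  have e3 : (l.map (fun o : ℕ × k[X] => o.1)).Nodup := by
    rw [hl, List.map_map]
    exact h.nd
  have hsq : Squarefree (l.map (fun o : ℕ × k[X] => o.2)).prod := by rw [e1]; exact hperf _ h.sq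
  have hne : ∀ o ∈ l, o.2 ≠ 0 := by
    intro o ho
    obtain ⟨o', _, rfl⟩ := List.mem_map.1 ho
    exact ((mpol_monic o'.2).map _).ne_zero
  have hpos : ∀ o ∈ l, 1 ≤ o.1 := by
    intro o ho
    obtain ⟨o', ho', rfl⟩ := List.mem_map.1 ho
    exact (h.pos o' ho').1
  refine ⟨?_, ?_, ?_⟩
  · intro o ho ζ
    have := sqf_c l hsq hne hpos e3 (o.1.length, (mpol o.2).map (algebraMap F k))
      (List.mem_map.2 ⟨o, ho, rfl⟩) ζ
    rw [e2] at this
    rw [← this, aeval_root _ (mpol_monic _).ne_zero]
  · intro ζ hζ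
    rw [← e2] at hζ
    obtain ⟨o, ho, h'⟩ := sqf_b l ζ hζ hne
    obtain ⟨o', ho', rfl⟩ := List.mem_map.1 ho
    exact ⟨o', ho', (aeval_root _ (mpol_monic _).ne_zero _).1 h'⟩
  · intro o ho
    refine hperf _ (h.sq.squarefree_of_dvd ?_)
    exact List.dvd_prod (List.mem_map.2 ⟨o, ho, rfl⟩)

end sqf2

theorem pol_map {R R' : Type} [CommRing R] [CommRing R'] (f : R →+* R') (l : List R) :
    (pol l).map f = pol (l.map f) := by
  induction l with
  | nil => simp [pol]
  | cons x l ih => simp [pol, ih]

theorem mpol_hd0 {F k : Type} [Field F] [Field k] [Algebra F k] (A : List (List F)) :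
    (mpol (hd0 A)).map (algebraMap F k) = (bcp k (mbiv A)).map (evalRingHom (0 : k)) := by
  have h1 : mpol (hd0 A) = (mbiv A).map (evalRingHom (0 : F)) := by
    rw [mpol, mbiv, biv, hd0, List.length_map, Polynomial.map_add, Polynomial.map_pow, map_X,
      pol_map, List.map_map]
    congr 2
    refine List.map_congr_left fun r _ => ?_
    cases r with
    | nil => simp [pol]
    | cons x r => simp [pol]
  have h2 : (evalRingHom (0 : k)).comp (mapRingHom (algebraMap F k))
      = (algebraMap F k).comp (evalRingHom (0 : F)) := by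
    ext x
    · simp
    · simp
  rw [h1, bcp, Polynomial.map_map, Polynomial.map_map, h2]

theorem bcp_monic {F k : Type} [Field F] [Field k] [Algebra F k] (A : List (List F)) :
    (bcp k (mbiv A)).Monic := by
  have : mbiv A = mpol (A.map pol) := by rw [mpol, mbiv, biv, List.length_map]
  rw [bcp, this]
  exact (mpol_monic _).map _

theorem final {F k : Type} [Field F] [Field k] [IsAlgClosed k] [Algebra F k] {n d : ℕ}
    {A S : List (List F)} {L : List F} {φ : Fin n → PowerSeries k}
    (hperf : ∀ g : F[X], Squarefree g → Squarefree (g.map (algebraMap F k)))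
    (hR : Rts (bcp k (mbiv S)) φ) (h1 : mbiv S ∣ mbiv A) (h2 : mbiv A ∣ mbiv S ^ d)
    (hB : ∀ i i', Blk (bcp k (mbiv S)) φ i i' ↔
      aeval (PowerSeries.constantCoeff (φ i)) (pol L) =
        aeval (PowerSeries.constantCoeff (φ i')) (pol L))
    (out1 : List (List Unit × List F)) (s1 : Sqf (hd0 A) out1) (Lm χ : List F → List F)
    (hL : ∀ o ∈ out1, mpol o.2 ∣ pol L - pol (Lm o.2))
    (hχ : ∀ o ∈ out1, ∀ α' : Fin o.2.length → k,
      (mpol o.2).map (algebraMap F k) = ∏ i, (X - C (α' i)) →
      (mpol (χ o.2)).map (algebraMap F k) = ∏ i, (X - C (aeval (α' i) (pol (Lm o.2)))))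
    (out2 : List F → List (List Unit × List F)) (s2 : ∀ o ∈ out1, Sqf (χ o.2) (out2 o.2))
    (cl : List F → List Unit → List F → List (List (List F)))
    (hc : ∀ o ∈ out1, o.2.length ≤ n → ∀ o' ∈ out2 o.2,
      Sh3 (o'.1.length + 1) o'.2.length (cl o.2 o'.1 o'.2) ∧
      (cl o.2 o'.1 o'.2).length = o'.1.length ∧
      (mpol o.2 ∣ mpol (hd0 S) → Squarefree ((mpol o'.2).map (algebraMap F k)) →
      (∀ ζ : k, aeval ζ (mpol o'.2) = 0 → ∃ f : k[X][X], f.Monic ∧ f ∣ bcp k (mbiv S) ∧
        f.natDegree = o'.1.length ∧ ∀ i, (ev (φ i) f = 0 ↔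
          (aeval (PowerSeries.constantCoeff (φ i)) (mpol o.2) = 0 ∧
            aeval (PowerSeries.constantCoeff (φ i)) (pol (Lm o.2)) = ζ))) →
      ∀ (ζ : k) (f : k[X][X]), aeval ζ (mpol o'.2) = 0 → f.Monic → f ∣ bcp k (mbiv S) →
        f.natDegree = o'.1.length → (∀ i, (ev (φ i) f = 0 ↔
          (aeval (PowerSeries.constantCoeff (φ i)) (mpol o.2) = 0 ∧
            aeval (PowerSeries.constantCoeff (φ i)) (pol (Lm o.2)) = ζ))) →
        fz ζ (cl o.2 o'.1 o'.2) = f)) :
    MonAbs k A (out1.flatMap (fun o => if o.2.length ≤ n then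
      (out2 o.2).map (fun o' => (o'.2, (cl o.2 o'.1 o'.2, o.1))) else [])) := by
  classical
  obtain ⟨f, hf⟩ := blocks hR
  set α : Fin n → k := fun i => PowerSeries.constantCoeff (φ i) with hα
  have hαi : Function.Injective α := hR.inj
  set z : Fin n → k := fun i => aeval (α i) (pol L) with hz
  have hzf : ∀ i i', f i = f i' ↔ z i = z i' := fun i i' => by rw [← hf.blk, hB]
  obtain ⟨e, he1, he2, he3⟩ := hf.split hR (d := d) (bcp_monic A)
    (by rw [bcp, bcp]; exact Polynomial.map_dvd _ h1)
    (by rw [bcp, bcp, ← Polynomial.map_pow]; exact Polynomial.map_dvd _ h2)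
  rw [← mpol_hd0] at he3
  change _ = ∏ i, (X - C (α i)) ^ e (f i) at he3
  have hcnt : ∀ i, ((mpol (hd0 A)).map (algebraMap F k)).roots.count (α i) = e (f i) := by
    intro i
    rw [he3, count_prod, Finset.sum_eq_single i]
    · simp
    · intro j _ hj
      rw [if_neg fun h => hj (hαi h)]
    · intro h; exact absurd (Finset.mem_univ i) h
  obtain ⟨r1, c1, q1⟩ := s1.main (k := k) hperf
  -- roots of the first level
  have L1 : ∀ o ∈ out1, ∀ ζ : k, aeval ζ (mpol o.2) = 0 ↔ ∃ i, α i = ζ ∧ e (f i) = o.1.length := by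
    intro o ho ζ
    rw [r1 o ho ζ]
    constructor
    · intro h
      have h3 : 1 ≤ ((mpol (hd0 A)).map (algebraMap F k)).roots.count ζ := by
        rw [h]; exact (s1.pos o ho).1
      have h4 := h3
      rw [he3, count_prod] at h4
      obtain ⟨i, _, hi⟩ := Finset.exists_ne_zero_of_sum_ne_zero (Nat.one_le_iff_ne_zero.1 h4)
      have hi' : α i = ζ := by
        by_contra h5
        exact hi (if_neg h5)
      refine ⟨i, hi', ?_⟩
      rw [← hcnt i, hi', h]
    · rintro ⟨i, rfl, h⟩
      rw [hcnt i, h]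
  have L1' : ∀ o ∈ out1, (mpol o.2).map (algebraMap F k) =
      ∏ i ∈ Finset.univ.filter (fun i => e (f i) = o.1.length), (X - C (α i)) := by
    intro o ho
    have hsp := IsAlgClosed.splits ((mpol o.2).map (algebraMap F k))
    have h3 := hsp.eq_prod_roots_of_monic ((mpol_monic _).map _)
    have h4 : ((mpol o.2).map (algebraMap F k)).roots
        = (Finset.univ.filter (fun i => e (f i) = o.1.length)).val.map α := by
      refine (Multiset.Nodup.ext ?_ ?_).2 ?_
      · rw [Multiset.nodup_iff_count_le_one]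
        exact fun ζ => count_le_one (q1 o ho) ζ
      · exact (Finset.nodup _).map hαi
      · intro ζ
        rw [aeval_root _ (mpol_monic _).ne_zero, L1 o ho ζ]
        simp only [Multiset.mem_map, Finset.mem_val, Finset.mem_filter, Finset.mem_univ, true_and]
        constructor
        · rintro ⟨i, a, b⟩; exact ⟨i, b, a⟩
        · rintro ⟨i, a, b⟩; exact ⟨i, b, a⟩
    rw [h3, h4, Multiset.map_map]
    rfl
  have hcard : ∀ o ∈ out1, (Finset.univ.filter (fun i => e (f i) = o.1.length)).card
      = o.2.length := by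
    intro o ho
    have h3 := congrArg natDegree (L1' o ho)
    rw [(mpol_monic _).natDegree_map, mpol_natDegree,
      natDegree_prod_of_monic _ _ fun j _ => monic_X_sub_C _] at h3
    simpa using h3.symm
  have hlen : ∀ o ∈ out1, o.2.length ≤ n := by
    intro o ho
    rw [← hcard o ho]
    exact (Finset.card_le_univ _).trans (by simp)
  have hLz : ∀ o ∈ out1, ∀ i, aeval (α i) (mpol o.2) = 0 →
      aeval (α i) (pol (Lm o.2)) = z i := by
    intro o ho i hi
    obtain ⟨c, hc⟩ := hL o ho
    have h3 := congrArg (aeval (α i)) hc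
    rw [map_sub, map_mul, hi, zero_mul, sub_eq_zero] at h3
    exact h3.symm
  have hdvdS : ∀ o ∈ out1, mpol o.2 ∣ mpol (hd0 S) := by
    intro o ho
    rw [← Polynomial.map_dvd_map' (algebraMap F k), L1' o ho, mpol_hd0]
    have h3 : (bcp k (mbiv S)).map (evalRingHom (0 : k)) = ∏ i, (X - C (α i)) := by
      have h4 := fac_map0 hR hR.monic dvd_rfl
      rw [h4]
      refine Finset.prod_congr ?_ fun _ _ => rfl
      rw [Finset.filter_true_of_mem]
      intro i _
      exact JR11.gp_ev_S hR i
    rw [h3]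
    exact Finset.prod_dvd_prod_of_subset _ _ _ (Finset.filter_subset _ _)
  -- second level
  have hχ' : ∀ o ∈ out1, (mpol (χ o.2)).map (algebraMap F k) =
      ∏ i ∈ Finset.univ.filter (fun i => e (f i) = o.1.length), (X - C (z i)) ^ 1 := by
    intro o ho
    let eq := Finset.equivFinOfCardEq (hcard o ho)
    have h3 := hχ o ho (fun t => α (eq.symm t)) (by
      rw [L1' o ho, ← Finset.prod_coe_sort]
      exact (Equiv.prod_comp eq.symm (fun i => (X - C (α i) : k[X]))).symm)
    rw [h3]
    refine (Equiv.prod_comp eq.symm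
      (fun i => (X - C (aeval (α i) (pol (Lm o.2))) : k[X]))).trans ?_
    rw [Finset.prod_coe_sort (Finset.univ.filter (fun i => e (f i) = o.1.length))
      (fun i => (X - C (aeval (α i) (pol (Lm o.2))) : k[X]))]
    refine Finset.prod_congr rfl fun i hi => ?_
    rw [pow_one, hLz o ho i]
    rw [L1 o ho]
    exact ⟨_, rfl, (Finset.mem_filter.1 hi).2⟩
  have hcnt2 : ∀ o ∈ out1, ∀ ζ, ((mpol (χ o.2)).map (algebraMap F k)).roots.count ζ =
      (Finset.univ.filter (fun i => e (f i) = o.1.length ∧ z i = ζ)).card := by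
    intro o ho ζ
    rw [hχ' o ho, count_prod, ← Finset.filter_filter, Finset.card_filter]
  -- the block of a root of the second level
  have K : ∀ o ∈ out1, ∀ o' ∈ out2 o.2, ∀ ζ : k, aeval ζ (mpol o'.2) = 0 →
      ∃ i, e (f i) = o.1.length ∧ z i = ζ ∧ (f i).natDegree = o'.1.length ∧
        ∀ j, (ev (φ j) (f i) = 0 ↔ (aeval (α j) (mpol o.2) = 0 ∧
          aeval (α j) (pol (Lm o.2)) = ζ)) := by
    intro o ho o' ho' ζ hζ
    obtain ⟨r2, c2, q2⟩ := (s2 o ho).main (k := k) hperf
    have h3 := (r2 o' ho' ζ).1 hζ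
    rw [hcnt2 o ho] at h3
    have h4 := ((s2 o ho).pos o' ho').1
    rw [← h3] at h4
    obtain ⟨i, hi⟩ := Finset.card_pos.1 h4
    obtain ⟨_, hi1, hi2⟩ := Finset.mem_filter.1 hi
    have h5 : ∀ j, f j = f i ↔ (e (f j) = o.1.length ∧ z j = ζ) := by
      intro j
      constructor
      · intro h
        exact ⟨by rw [h]; exact hi1, by rw [← hi2]; exact (hzf j i).1 h⟩
      · rintro ⟨_, h⟩
        exact (hzf j i).2 (by rw [h, hi2])
    refine ⟨i, hi1, hi2, ?_, ?_⟩
    · rw [hf.deg hR i, ← h3]
      congr 1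
      ext j
      simp only [Finset.mem_filter, Finset.mem_univ, true_and]
      exact h5 j
    · intro j
      rw [hf.ev i j, h5 j]
      constructor
      · rintro ⟨a, b⟩
        have h6 : aeval (α j) (mpol o.2) = 0 := (L1 o ho _).2 ⟨j, rfl, a⟩
        exact ⟨h6, by rw [hLz o ho j h6]; exact b⟩
      · rintro ⟨a, b⟩
        obtain ⟨j', h7, h8⟩ := (L1 o ho _).1 a
        rw [hαi h7] at h8
        exact ⟨h8, by rw [← hLz o ho j a]; exact b⟩
  have K2 : ∀ o ∈ out1, ∀ o' ∈ out2 o.2, ∀ ζ : k, aeval ζ (mpol o'.2) = 0 →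
      ∃ i, fz ζ (cl o.2 o'.1 o'.2) = f i ∧ e (f i) = o.1.length ∧ z i = ζ ∧
        (f i).natDegree = o'.1.length := by
    intro o ho o' ho' ζ hζ
    obtain ⟨r2, c2, q2⟩ := (s2 o ho).main (k := k) hperf
    obtain ⟨i, a1, a2, a3, a4⟩ := K o ho o' ho' ζ hζ
    refine ⟨i, ?_, a1, a2, a3⟩
    refine (hc o ho (hlen o ho) o' ho').2.2 (hdvdS o ho) (q2 o' ho') ?_ ζ (f i) hζ (hf.monic i)
      (hf.dvd i) a3 a4
    intro ζ' hζ'
    obtain ⟨i', b1, b2, b3, b4⟩ := K o ho o' ho' ζ' hζ'
    exact ⟨f i', hf.monic i', hf.dvd i', b3, b4⟩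
  have Sj : ∀ i, ∃ o ∈ out1, ∃ o' ∈ out2 o.2, aeval (z i) (mpol o'.2) = 0 := by
    intro i
    obtain ⟨o, ho, h3⟩ := c1 (α i) (by rw [hcnt]; exact he1 i)
    obtain ⟨j, hj, hj'⟩ := (L1 o ho _).1 h3
    rw [hαi hj] at hj'
    obtain ⟨r2, c2, q2⟩ := (s2 o ho).main (k := k) hperf
    obtain ⟨o', ho', h4⟩ := c2 (z i) (by
      rw [hcnt2 o ho]
      exact Finset.card_pos.2 ⟨i, Finset.mem_filter.2 ⟨Finset.mem_univ _, hj', rfl⟩⟩)
    exact ⟨o, ho, o', ho', h4⟩
  -- the output
  have hout : out1.flatMap (fun o => if o.2.length ≤ n then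
      (out2 o.2).map (fun o' => (o'.2, (cl o.2 o'.1 o'.2, o.1))) else []) =
      out1.flatMap (fun o => (out2 o.2).map (fun o' => (o'.2, (cl o.2 o'.1 o'.2, o.1)))) := by
    refine List.flatMap_congr fun o ho => ?_
    rw [if_pos (hlen o ho)]
  rw [hout]
  set out := out1.flatMap (fun o => (out2 o.2).map (fun o' => (o'.2, (cl o.2 o'.1 o'.2, o.1))))
    with hout'
  have hmem : ∀ x, x ∈ out ↔ ∃ o ∈ out1, ∃ o' ∈ out2 o.2, (o'.2, (cl o.2 o'.1 o'.2, o.1)) = x := by
    intro x
    rw [hout', List.mem_flatMap]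
    constructor
    · rintro ⟨o, ho, h⟩
      obtain ⟨o', ho', h⟩ := List.mem_map.1 h
      exact ⟨o, ho, o', ho', h⟩
    · rintro ⟨o, ho, o', ho', h⟩
      exact ⟨o, ho, List.mem_map.2 ⟨o', ho', h⟩⟩
  have K' : ∀ x ∈ out, ∀ ζ : k, aeval ζ (mpol x.1) = 0 → ∃ i, fz ζ x.2.1 = f i ∧
      e (f i) = x.2.2.length ∧ z i = ζ ∧ (f i).natDegree = x.2.1.length := by
    intro x hx ζ hζ
    obtain ⟨o, ho, o', ho', rfl⟩ := (hmem x).1 hx
    obtain ⟨i, a1, a2, a3, a4⟩ := K2 o ho o' ho' ζ hζ
    refine ⟨i, a1, a2, a3, ?_⟩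
    change _ = (cl o.2 o'.1 o'.2).length
    rw [a4, (hc o ho (hlen o ho) o' ho').2.1]
  have U' : ∀ x ∈ out, ∀ x' ∈ out, x.2.2.length = x'.2.2.length →
      x.2.1.length = x'.2.1.length → x = x' := by
    intro x hx x' hx' g1 g2
    obtain ⟨o, ho, o', ho', rfl⟩ := (hmem x).1 hx
    obtain ⟨p, hp, p', hp', rfl⟩ := (hmem x').1 hx'
    have e1 : o = p := List.inj_on_of_nodup_map s1.nd ho hp g1
    subst e1
    change (cl o.2 o'.1 o'.2).length = (cl o.2 p'.1 p'.2).length at g2
    rw [(hc o ho (hlen o ho) o' ho').2.1, (hc o ho (hlen o ho) p' hp').2.1] at g2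
    have e2 : o' = p' := List.inj_on_of_nodup_map (s2 o ho).nd ho' hp' g2
    rw [e2]
  have Q' : ∀ x ∈ out, Squarefree ((mpol x.1).map (algebraMap F k)) := by
    intro x hx
    obtain ⟨o, ho, o', ho', rfl⟩ := (hmem x).1 hx
    exact ((s2 o ho).main (k := k) hperf).2.2 o' ho'
  have N' : out.Nodup := by
    rw [hout', List.nodup_flatMap]
    constructor
    · intro o ho
      refine List.Nodup.of_map (fun x => x.2.1.length) ?_
      rw [List.map_map]
      have : (out2 o.2).map ((fun x : List F × (List (List (List F)) × List Unit) =>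
          x.2.1.length) ∘ fun o' => (o'.2, (cl o.2 o'.1 o'.2, o.1)))
          = (out2 o.2).map (fun o' => o'.1.length) :=
        List.map_congr_left fun o' ho' => (hc o ho (hlen o ho) o' ho').2.1
      rw [this]
      exact (s2 o ho).nd
    · have h3 := List.pairwise_map.1 s1.nd
      refine h3.imp ?_
      intro o p hop
      rw [Function.onFun, List.disjoint_left]
      intro x hx hx'
      obtain ⟨o', _, rfl⟩ := List.mem_map.1 hx
      obtain ⟨p', _, h⟩ := List.mem_map.1 hx'
      apply hop
      rw [← congrArg (fun x => x.2.2.length) h]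
  have U4 : ∀ o ∈ out, ∀ o' ∈ out, ∀ ζ ζ' : k, aeval ζ (mpol o.1) = 0 →
      aeval ζ' (mpol o'.1) = 0 → fz ζ o.2.1 = fz ζ' o'.2.1 → o = o' ∧ ζ = ζ' := by
    intro o ho o' ho' ζ ζ' hζ hζ' h
    obtain ⟨i, a1, a2, a3, a4⟩ := K' o ho ζ hζ
    obtain ⟨i', b1, b2, b3, b4⟩ := K' o' ho' ζ' hζ'
    have h3 : f i = f i' := by rw [← a1, ← b1, h]
    exact ⟨U' o ho o' ho' (by rw [← a2, ← b2, h3]) (by rw [← a4, ← b4, h3]),
      by rw [← a3, ← b3]; exact (hzf i i').1 h3⟩
  refine ⟨?_, ?_, N', U4⟩
  · intro x hx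
    have hx' := hx
    obtain ⟨o, ho, o', ho', rfl⟩ := (hmem x).1 hx
    have h3 := (s2 o ho).pos o' ho'
    have h4 := hc o ho (hlen o ho) o' ho'
    refine ⟨h3.2, Q' _ hx', ?_, ?_, (s1.pos o ho).1, ?_⟩
    · change 1 ≤ (cl o.2 o'.1 o'.2).length
      rw [h4.2.1]; exact h3.1
    · change Sh3 ((cl o.2 o'.1 o'.2).length + 1) o'.2.length (cl o.2 o'.1 o'.2)
      rw [h4.2.1]; exact h4.1
    · intro ζ hζ
      obtain ⟨i, a1, a2, a3, a4⟩ := K' _ hx' ζ hζ
      rw [a1, ← a4]
      exact ⟨hf.irr i, hf.td i⟩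
  · rw [he2, ← List.prod_toFinset _ N']
    have h3 : ∀ x ∈ out.toFinset, (((mpol x.1).map (algebraMap F k)).roots.map
        (fun ζ => fz ζ x.2.1 ^ x.2.2.length)).prod =
        ∏ ζ ∈ ((mpol x.1).map (algebraMap F k)).roots.toFinset, fz ζ x.2.1 ^ x.2.2.length := by
      intro x hx
      rw [Finset.prod, Multiset.toFinset_val, Multiset.dedup_eq_self.2]
      rw [Multiset.nodup_iff_count_le_one]
      exact fun ζ => count_le_one (Q' x (List.mem_toFinset.1 hx)) ζ
    rw [Finset.prod_congr rfl h3, Finset.prod_sigma']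
    have hroot : ∀ (x : (_ : List F × (List (List (List F)) × List Unit)) × k),
        x ∈ out.toFinset.sigma
          (fun x => ((mpol x.1).map (algebraMap F k)).roots.toFinset) ↔
        x.1 ∈ out ∧ aeval x.2 (mpol x.1.1) = 0 := by
      intro x
      rw [Finset.mem_sigma, List.mem_toFinset, Multiset.mem_toFinset,
        aeval_root _ (mpol_monic _).ne_zero]
    refine Finset.prod_bij (fun x _ => fz x.2 x.1.2.1) ?_ ?_ ?_ ?_
    · intro x hx
      obtain ⟨g1, g2⟩ := (hroot x).1 hx
      obtain ⟨i, a1, _⟩ := K' x.1 g1 x.2 g2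
      rw [a1]
      exact Finset.mem_image_of_mem f (Finset.mem_univ i)
    · intro x hx y hy hxy
      obtain ⟨g1, g2⟩ := (hroot x).1 hx
      obtain ⟨g3, g4⟩ := (hroot y).1 hy
      obtain ⟨g5, g6⟩ := U4 x.1 g1 y.1 g3 x.2 y.2 g2 g4 hxy
      exact Sigma.ext g5 (heq_of_eq g6)
    · intro g hg
      obtain ⟨i, _, rfl⟩ := Finset.mem_image.1 hg
      obtain ⟨o, ho, o', ho', h4⟩ := Sj i
      have hx : (o'.2, (cl o.2 o'.1 o'.2, o.1)) ∈ out := (hmem _).2 ⟨o, ho, o', ho', rfl⟩
      refine ⟨⟨(o'.2, (cl o.2 o'.1 o'.2, o.1)), z i⟩, (hroot _).2 ⟨hx, h4⟩, ?_⟩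
      obtain ⟨i', a1, _, a3, _⟩ := K' _ hx (z i) h4
      rw [a1]
      exact (hzf i' i).2 a3
    · intro x hx
      obtain ⟨g1, g2⟩ := (hroot x).1 hx
      obtain ⟨i, a1, a2, _⟩ := K' x.1 g1 x.2 g2
      rw [a1, a2]

end Pool.Agent.H330AB.K15

namespace Pool.Agent.H330AB.K15
open Polynomial Pool.Agent.H330FB

/-! ### the program -/

/-- input -/
abbrev CX : Ty := .prod Un (.prod Un (.prod Po (.prod Ma (.prod Ma Po))))

/-- values at `t = 0` -/
def hdP {s : List (Ty × Ty)} : Pr s Ma Po :=
  .comp (.pair .star .id) (mapP (c := .unit) (onL .snd .zero (.comp .snd .fst)))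

/-- one class; input `((ctx, ((m, h), L_m)), (j, q))` -/
def innP (wc : Pr [] (.prod Un (.prod Ma (.prod Po (.prod Po (.prod Un Po))))) ML) :
    Pr RT (.prod (.prod CX (.prod (.prod Un Po) Po)) (.prod Un Po)) (.prod Po (.prod ML Un)) :=
  .pair (.comp .snd .snd) (.pair
    (.comp (.pair (.comp .fst (.comp .fst .fst))
      (.pair (.comp .fst (.comp .fst (.comp .snd (.comp .snd (.comp .snd (.comp .snd .fst))))))
        (.pair (.comp .fst (.comp .snd (.comp .fst .snd)))
          (.pair (.comp .fst (.comp .snd .snd)) .snd)))) (liftP RT wc))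
    (.comp .fst (.comp .snd (.comp .fst .fst))))

/-- the classes of `(m, h)`; input `((ctx, (m, h)), L_m)` -/
def midP (wq : Pr RT (.prod Un Po) (.list (.prod Un Po))) (wx : Pr [] (.prod Po (.prod Po Po)) Po)
    (wc : Pr [] (.prod Un (.prod Ma (.prod Po (.prod Po (.prod Un Po))))) ML) :
    Pr RT (.prod (.prod CX (.prod Un Po)) Po) (.list (.prod Po (.prod ML Un))) :=
  .comp (.pair (.pair (.comp .fst .fst) (.pair (.comp .fst .snd) .snd))
    (.comp (.pair (.comp .fst (.comp .fst (.comp .snd .fst)))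
      (.comp (.pair (.comp .fst (.comp .fst (.comp .snd (.comp .snd .fst))))
        (.pair (.comp .fst (.comp .snd .snd)) .snd)) (liftP RT wx))) wq)) (mapP (innP wc))

/-- the classes of `(m, h)`; input `(ctx, (m, h))` -/
def bodP (wq : Pr RT (.prod Un Po) (.list (.prod Un Po))) (wx : Pr [] (.prod Po (.prod Po Po)) Po)
    (wr : Pr [] (.prod Po Po) Po)
    (wc : Pr [] (.prod Un (.prod Ma (.prod Po (.prod Po (.prod Un Po))))) ML) :
    Pr RT (.prod CX (.prod Un Po)) (.list (.prod Po (.prod ML Un))) :=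
  onL (.comp (.pair (.comp .fst (.comp .snd (.comp .snd (.comp .snd (.comp .snd .fst)))))
      (.comp .snd .snd)) (.comp splitP .snd))
    (lt (.comp (.pair (.comp .fst (.comp .snd (.comp .snd (.comp .snd (.comp .snd .snd)))))
      (.comp .snd .snd)) (liftP RT wr)) (midP wq wx wc)) .nil

/-- the whole program -/
def totP (wq : Pr RT (.prod Un Po) (.list (.prod Un Po))) (wx : Pr [] (.prod Po (.prod Po Po)) Po)
    (wr : Pr [] (.prod Po Po) Po)
    (wc : Pr [] (.prod Un (.prod Ma (.prod Po (.prod Po (.prod Un Po))))) ML) :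
    Pr RT CX (.list (.prod Po (.prod ML Un))) :=
  .comp (.comp (.pair .id (.comp (.pair (.comp .snd .fst)
    (.comp (.comp .snd (.comp .snd (.comp .snd .fst))) hdP)) wq)) (mapP (bodP wq wx wr wc))) flatP

section
variable {F : Type} [Field F] [DecidableEq F]

theorem val_hdP {s : List (Ty × Ty)} (v : SV F s) (A : List (List F)) :
    (hdP : Pr s Ma Po).val v A = hd0 A := by
  simp only [hdP, val_comp, val_pair, val_star, val_id, val_mapP, val_onL, val_snd, val_zero,
    val_fst, hd0]
  refine List.map_congr_left fun r _ => ?_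
  cases r <;> rfl

theorem cost_hdP {s : List (Ty × Ty)} (v : SV F s) (k : SC F s) (A : List (List F)) :
    (hdP : Pr s Ma Po).cost v k A ≤ 23 * A.length + 10 := by
  have h := cost_mapP_le (s := s) (c := .unit) (a := Po) (b := .fld)
    (onL .snd .zero (.comp .snd .fst)) v k ((), A) 10 (fun y _ => by cases y <;> simp)
  simp [hdP] at h ⊢
  omega

variable (wq : Pr RT (.prod Un Po) (.list (.prod Un Po))) (wx : Pr [] (.prod Po (.prod Po Po)) Po)
    (wr : Pr [] (.prod Po Po) Po)
    (wc : Pr [] (.prod Un (.prod Ma (.prod Po (.prod Po (.prod Un Po))))) ML)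

theorem val_innP (v : SV F RT) (r p : List Unit) (cs : List F) (A S : List (List F)) (L : List F)
    (m : List Unit) (h Lm : List F) (o : List Unit × List F) :
    (innP wc).val v (((r, (p, (cs, (A, (S, L))))), ((m, h), Lm)), o) =
      (o.2, (wc.val () (r, (S, (h, (Lm, o)))), m)) := by
  simp only [innP, val_comp, val_pair, val_fst, val_snd, val_liftP]

theorem cost_innP (v : SV F RT) (k : SC F RT) (r p : List Unit) (cs : List F)
    (A S : List (List F)) (L : List F) (m : List Unit) (h Lm : List F) (o : List Unit × List F) :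
    (innP wc).cost v k (((r, (p, (cs, (A, (S, L))))), ((m, h), Lm)), o) ≤
      wc.cost () () (r, (S, (h, (Lm, o)))) + 50 := by
  simp only [innP, cost_comp, cost_pair, cost_fst, cost_snd, cost_liftP, val_comp, val_pair,
    val_fst, val_snd]
  omega

theorem val_midP (v : SV F RT) (r p : List Unit) (cs : List F) (A S : List (List F)) (L : List F)
    (m : List Unit) (h Lm : List F) :
    (midP wq wx wc).val v (((r, (p, (cs, (A, (S, L))))), (m, h)), Lm) =
      (wq.val v (p, (wx.val () (cs, (h, Lm)))) : List (List Unit × List F)).map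
        (fun o => (o.2, (wc.val () (r, (S, (h, (Lm, o)))), m))) := by
  simp only [midP, val_comp, val_pair, val_fst, val_snd, val_liftP, val_mapP]
  exact List.map_congr_left fun o _ => val_innP wc v r p cs A S L m h Lm o

theorem cost_midP (v : SV F RT) (k : SC F RT) (r p : List Unit) (cs : List F)
    (A S : List (List F)) (L : List F) (m : List Unit) (h Lm : List F) :
    (midP wq wx wc).cost v k (((r, (p, (cs, (A, (S, L))))), (m, h)), Lm) ≤
      wx.cost () () (cs, (h, Lm)) + wq.cost v k (p, (wx.val () (cs, (h, Lm)))) +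
      ((wq.val v (p, (wx.val () (cs, (h, Lm)))) : List (List Unit × List F)).map
        (fun o => wc.cost () () (r, (S, (h, (Lm, o)))) + 63)).sum + 60 := by
  have h1 := cost_mapP (innP wc) v k ((((r, (p, (cs, (A, (S, L))))), ((m, h), Lm)),
    wq.val v (p, (wx.val () (cs, (h, Lm))))))
  have h2 : ((wq.val v (p, (wx.val () (cs, (h, Lm)))) : List (List Unit × List F)).map
      (fun o => (innP wc).cost v k (((r, (p, (cs, (A, (S, L))))), ((m, h), Lm)), o) + 13)).sum ≤
      ((wq.val v (p, (wx.val () (cs, (h, Lm)))) : List (List Unit × List F)).map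
        (fun o => wc.cost () () (r, (S, (h, (Lm, o)))) + 63)).sum := by
    refine List.sum_le_sum fun o _ => ?_
    have := cost_innP wc v k r p cs A S L m h Lm o
    omega
  simp only [midP, cost_comp, cost_pair, cost_fst, cost_snd, cost_liftP, val_comp, val_pair,
    val_fst, val_snd, val_liftP] at h1 ⊢
  omega

theorem val_bodP (v : SV F RT) (r p : List Unit) (cs : List F) (A S : List (List F)) (L : List F)
    (o : List Unit × List F) :
    (bodP wq wx wr wc).val v ((r, (p, (cs, (A, (S, L))))), o) =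
      if o.2.length ≤ S.length then
      (wq.val v (p, (wx.val () (cs, (o.2, wr.val () (L, o.2))))) : List (List Unit × List F)).map
        (fun o' => (o'.2, (wc.val () (r, (S, (o.2, (wr.val () (L, o.2), o')))), o.1))) else [] := by
  obtain ⟨m, h⟩ := o
  simp only [bodP, val_onL, val_comp, val_pair, val_fst, val_snd, val_splitP, val_lt, val_liftP,
    val_nil]
  split_ifs with hl
  · rw [List.drop_eq_nil_of_le hl]
    exact val_midP wq wx wc v r p cs A S L m h (wr.val () (L, h))
  · cases hd : List.drop S.length h with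
    | nil => exact absurd (List.drop_eq_nil_iff.1 hd) hl
    | cons a t => rfl

theorem cost_bodP (v : SV F RT) (k : SC F RT) (r p : List Unit) (cs : List F)
    (A S : List (List F)) (L : List F) (o : List Unit × List F) :
    (bodP wq wx wr wc).cost v k ((r, (p, (cs, (A, (S, L))))), o) ≤
      24 * S.length + 150 + if o.2.length ≤ S.length then
      wr.cost () () (L, o.2) + wx.cost () () (cs, (o.2, wr.val () (L, o.2))) +
      wq.cost v k (p, (wx.val () (cs, (o.2, wr.val () (L, o.2))))) +
      ((wq.val v (p, (wx.val () (cs, (o.2, wr.val () (L, o.2))))) :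
        List (List Unit × List F)).map
        (fun o' => wc.cost () () (r, (S, (o.2, (wr.val () (L, o.2), o')))) + 63)).sum else 0 := by
  obtain ⟨m, h⟩ := o
  have h1 := cost_splitP (s := RT) (a := .fld) (b := Po) v k (S, h)
  have h2 := cost_midP wq wx wc v k r p cs A S L m h (wr.val () (L, h))
  simp only [bodP, cost_onL, cost_lt, cost_comp, cost_pair, cost_fst, cost_snd, cost_liftP,
    cost_nil, val_comp, val_pair, val_fst, val_snd, val_liftP, val_splitP] at h1 h2 ⊢
  split_ifs with hl
  · rw [List.drop_eq_nil_of_le hl]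
    simp only [lcase_nil]
    omega
  · cases hd : List.drop S.length h with
    | nil => exact absurd (List.drop_eq_nil_iff.1 hd) hl
    | cons a t =>
      simp only [lcase_cons]
      omega

theorem val_totP (v : SV F RT) (r p : List Unit) (cs : List F) (A S : List (List F)) (L : List F) :
    (totP wq wx wr wc).val v (r, (p, (cs, (A, (S, L))))) =
      (wq.val v (p, hd0 A) : List (List Unit × List F)).flatMap (fun o =>
        if o.2.length ≤ S.length then
        (wq.val v (p, (wx.val () (cs, (o.2, wr.val () (L, o.2))))) :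
          List (List Unit × List F)).map
          (fun o' => (o'.2, (wc.val () (r, (S, (o.2, (wr.val () (L, o.2), o')))), o.1)))
        else []) := by
  simp only [totP, val_comp, val_pair, val_fst, val_snd, val_id, val_hdP, val_mapP, val_flatP]
  rw [List.flatMap_def]
  congr 1
  exact List.map_congr_left fun o _ => val_bodP wq wx wr wc v r p cs A S L o

theorem cost_totP (v : SV F RT) (k : SC F RT) (r p : List Unit) (cs : List F)
    (A S : List (List F)) (L : List F) (N : ℕ)
    (hN : ∀ o ∈ (wq.val v (p, hd0 A) : List (List Unit × List F)), o.2.length ≤ S.length →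
      List.length (wq.val v (p, (wx.val () (cs, (o.2, wr.val () (L, o.2))))) :
        List (List Unit × List F)) ≤ N) :
    (totP wq wx wr wc).cost v k (r, (p, (cs, (A, (S, L))))) ≤
      23 * A.length + 80 + wq.cost v k (p, hd0 A) +
      ((wq.val v (p, hd0 A) : List (List Unit × List F)).map
        (fun o => (bodP wq wx wr wc).cost v k ((r, (p, (cs, (A, (S, L))))), o) + 13)).sum +
      (20 * N + 71) * List.length (wq.val v (p, hd0 A) : List (List Unit × List F)) := by
  have h1 := cost_hdP (s := RT) v k A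
  have h2 := cost_mapP (bodP wq wx wr wc) v k ((r, (p, (cs, (A, (S, L))))), wq.val v (p, hd0 A))
  have h3 := cost_flatP (s := RT) (a := .prod Po (.prod ML Un)) v k
    ((mapP (bodP wq wx wr wc)).val v ((r, (p, (cs, (A, (S, L))))), wq.val v (p, hd0 A))) N (by
      intro y hy
      rw [val_mapP] at hy
      obtain ⟨o, ho, rfl⟩ := List.mem_map.1 hy
      rw [val_bodP]
      split_ifs with hl
      · rw [List.length_map]
        exact hN o ho hl
      · simp)
  rw [val_mapP, List.length_map] at h3
  simp only [totP, cost_comp, cost_pair, cost_fst, cost_snd, cost_id, val_comp, val_pair, val_fst,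
    val_snd, val_id, val_hdP, val_mapP] at h1 h2 h3 ⊢
  omega

end
end Pool.Agent.H330AB.K15

namespace Pool.Agent.H330AB.K15
open Polynomial Pool.Agent.H330FB

theorem un_len (l : List Unit) : un l.length = l := by
  unfold un
  exact (List.eq_replicate_iff.2 ⟨rfl, fun _ _ => rfl⟩).symm

theorem mem_le_sum {α : Type} (l : List α) (g : α → ℕ) (x : α) (hx : x ∈ l) :
    g x ≤ (l.map g).sum :=
  List.le_sum_of_mem (List.mem_map.2 ⟨x, hx, rfl⟩)

theorem sum_le_mul {α : Type} (l : List α) (g w : α → ℕ) (c : ℕ) (h : ∀ x ∈ l, g x ≤ c * w x) :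
    (l.map g).sum ≤ c * (l.map w).sum := by
  induction l with
  | nil => simp
  | cons a t ih =>
    rw [List.map_cons, List.map_cons, List.sum_cons, List.sum_cons, mul_add]
    exact add_le_add (h a (by simp)) (ih fun x hx => h x (by simp [hx]))

theorem length_le_sum {α : Type} (l : List α) (w : α → ℕ) (h : ∀ x ∈ l, 1 ≤ w x) :
    l.length ≤ (l.map w).sum := by
  induction l with
  | nil => simp
  | cons a t ih =>
    rw [List.map_cons, List.sum_cons, List.length_cons]
    have h1 := h a (by simp)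
    have h2 := ih fun x hx => h x (by simp [hx])
    omega

end Pool.Agent.H330AB.K15

noncomputable section
namespace Pool.Agent.H330AB.JK15
open Polynomial Pool.Agent.H330FB

open K15 in
/-- TARGET -/
theorem specSplit (h1 : SpecSqf) (h2 : SpecChi) (h3 : SpecRem) (h4 : SpecClass) : SpecSplit := by
  obtain ⟨wq, Cq, kq, hq⟩ := h1
  obtain ⟨wx, Cx, hx⟩ := h2
  obtain ⟨wr, Cr, hr⟩ := h3
  obtain ⟨wc, Cc, kc, hcl⟩ := h4
  refine ⟨totP wq wx wr wc, 194 + Cq + 2 * (2 * Cr + Cx + Cq + 2 * Cc + 250), kq + kc, ?_⟩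
  intro F _ _ r p s d n rt cs A S L hp hchar hrt hr23 hr0 hA hS hn1 hnd hds hSA hSS hL hcs1 hcs2
  subst hA hS
  have sq : ∀ P : List F, Sqf P (wq.val (rt, ()) (un p, P)) := fun P => by
    obtain ⟨a, b, c, d, e⟩ := hq F p rt P hp hchar hrt
    exact ⟨a, b, c, d⟩
  have sqc : ∀ P : List F, wq.cost (rt, ()) ((fun _ => 1), ()) (un p, P) ≤
      Cq * lgc (P.length + 1) ^ kq * ((P.length + 1) * ((P.length + 1) ^ 2 + p)) := fun P =>
    (hq F p rt P hp hchar hrt).2.2.2.2
  have lenA : (hd0 A).length = A.length := by rw [hd0, List.length_map]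
  have hsum1 : ((wq.val (rt, ()) (un p, hd0 A) : List (List Unit × List F)).map
      (fun o => o.1.length * o.2.length)).sum = A.length := by
    rw [sqf_sum (sq (hd0 A)).prod, lenA]
  generalize hout1 : (wq.val (rt, ()) (un p, hd0 A) : List (List Unit × List F)) = out1 at hsum1
  have s1 : Sqf (hd0 A) out1 := by rw [← hout1]; exact sq _
  have hle : ∀ o ∈ out1, o.2.length ≤ A.length := by
    intro o ho
    have h5 := mem_le_sum out1 (fun o => o.1.length * o.2.length) o ho
    rw [hsum1] at h5
    have h6 := (s1.pos o ho).1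
    have h7 : 1 * o.2.length ≤ o.1.length * o.2.length := Nat.mul_le_mul_right _ h6
    change o.1.length * o.2.length ≤ _ at h5
    omega
  have hrl : ∀ h : List F, (wr.val () (L, h) : List F).length = h.length := fun h =>
    (hr F L h).1
  have hxl : ∀ o ∈ out1, (wx.val () (cs, (o.2, wr.val () (L, o.2))) : List F).length
      = o.2.length := fun o ho =>
    (hx F o.2.length cs o.2 _ rfl (s1.pos o ho).2 (hrl _) (by have := hle o ho; omega)).1
  have hsum2 : ∀ o ∈ out1, ((wq.val (rt, ()) (un p, wx.val () (cs, (o.2, wr.val () (L, o.2)))) :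
      List (List Unit × List F)).map (fun o => o.1.length * o.2.length)).sum = o.2.length := by
    intro o ho
    rw [sqf_sum (sq _).prod, hxl o ho]
  have hcls : ∀ o ∈ out1, o.2.length ≤ S.length →
      ∀ o' ∈ (wq.val (rt, ()) (un p, wx.val () (cs, (o.2, wr.val () (L, o.2)))) :
        List (List Unit × List F)), o'.1.length * o'.2.length ≤ o.2.length := by
    intro o ho _ o' ho'
    have h5 := mem_le_sum _ (fun o => o.1.length * o.2.length) o' ho'
    rw [hsum2 o ho] at h5
    exact h5
  constructor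
  · intro k _ _ _ φ hR hdv1 hdv2 hnod hblk
    rw [val_totP, hout1]
    refine final (d := A.length) (fun g hg => perf_sq hp hchar hrt hg) hR hdv1 hdv2 hblk out1 s1
      (fun h => wr.val () (L, h)) (fun h => wx.val () (cs, (h, wr.val () (L, h))))
      (fun o _ => (hr F L o.2).2.1) ?_
      (fun h => wq.val (rt, ()) (un p, wx.val () (cs, (h, wr.val () (L, h)))))
      (fun o _ => sq _) (fun h j q => wc.val () (un r, (S, (h, (wr.val () (L, h), (j, q)))))) ?_
    · intro o ho α' hα'
      exact (hx F o.2.length cs o.2 _ rfl (s1.pos o ho).2 (hrl _)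
        (by have := hle o ho; omega)).2.1 hnod k α' hα'
    · intro o ho hon o' ho'
      have hpos := (sq (wx.val () (cs, (o.2, wr.val () (L, o.2))))).pos o' ho'
      have h5 := hcl F r s S.length o'.1.length S o.2 (wr.val () (L, o.2)) o'.2 hr23 hr0 rfl
        (by omega) hSS hon (hrl _) hpos.1 hpos.2 (hcls o ho hon o' ho')
      rw [un_len] at h5
      obtain ⟨a, b, c, _⟩ := h5
      exact ⟨a, b, fun g1 g2 g3 => c k φ hR g1 g2 g3⟩
  · have hN : ∀ o ∈ (wq.val (rt, ()) (un p, hd0 A) : List (List Unit × List F)),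
        o.2.length ≤ S.length →
        List.length (wq.val (rt, ()) (un p, (wx.val () (cs, (o.2, wr.val () (L, o.2))))) :
          List (List Unit × List F)) ≤ A.length := by
      intro o ho _
      rw [hout1] at ho
      have h5 := length_le_sum (wq.val (rt, ()) (un p, (wx.val () (cs, (o.2,
        wr.val () (L, o.2))))) : List (List Unit × List F)) (fun o => o.1.length * o.2.length) (by
          intro x hx
          have := (sq _).pos x hx
          exact Nat.mul_le_mul this.1 this.2)
      rw [hsum2 o ho] at h5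
      exact h5.trans (hle o ho)
    have hcost := cost_totP wq wx wr wc (rt, ()) ((fun _ => 1), ()) (un r) (un p) cs A S L
      A.length hN
    rw [hout1] at hcost
    set X : ℕ := lgc (s + 1) ^ (kq + kc) with hX
    set W : ℕ := (s + 1) ^ 2 + p with hW
    have hu : 1 ≤ lgc (s + 1) := by unfold lgc; omega
    have hX1 : 1 ≤ X := Nat.one_le_pow _ _ hu
    have hXq : ∀ m, m ≤ s → lgc (m + 1) ^ kq ≤ X := by
      intro m hm
      have h5 : lgc (m + 1) ≤ lgc (s + 1) := by
        unfold lgc
        exact Nat.succ_le_succ (Nat.clog_mono_right 2 (by omega))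
      exact (Nat.pow_le_pow_left h5 kq).trans (Nat.pow_le_pow_right hu (Nat.le_add_right _ _))
    have hXc : lgc (s + 1) ^ kc ≤ X := Nat.pow_le_pow_right hu (Nat.le_add_left _ _)
    have hW1 : (s + 1) ^ 2 ≤ W := Nat.le_add_right _ _
    have hWU : W ≤ X * W := Nat.le_mul_of_pos_left _ hX1
    have hsU : s + 1 ≤ X * W := by
      have : s + 1 ≤ (s + 1) ^ 2 := Nat.le_self_pow (by norm_num) _
      omega
    have hU1 : 1 ≤ X * W := by omega
    have hbod : ∀ o ∈ out1, (bodP wq wx wr wc).cost (rt, ()) ((fun _ => 1), ())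
        ((un r, (un p, (cs, (A, (S, L))))), o) + 13 ≤
        ((2 * Cr + Cx + Cq + 2 * Cc + 250) * (X * W) * 2) * (o.1.length * o.2.length) := by
      intro o ho
      have hb := cost_bodP wq wx wr wc (rt, ()) ((fun _ => 1), ()) (un r) (un p) cs A S L o
      have hod := hle o ho
      have hpos := s1.pos o ho
      have hob : o.2.length + 1 ≤ 2 * (o.1.length * o.2.length) := by nlinarith
      have hb2 : (bodP wq wx wr wc).cost (rt, ()) ((fun _ => 1), ())
          ((un r, (un p, (cs, (A, (S, L))))), o) + 13 ≤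
          (2 * Cr + Cx + Cq + 2 * Cc + 250) * (X * W) * (o.2.length + 1) := by
        have base : 24 * S.length + 150 + 13 ≤ 187 * (X * W) * (o.2.length + 1) := by
          have : 24 * S.length + 163 ≤ 187 * (X * W) := by omega
          nlinarith
        refine (Nat.add_le_add_right hb 13).trans ?_
        split_ifs with hl
        · have t1 : wr.cost () () (L, o.2) ≤ 2 * Cr * (X * W) * (o.2.length + 1) := by
            refine (hr F L o.2).2.2.trans ?_
            have : L.length + o.2.length + 1 ≤ 2 * (X * W) := by omega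
            calc Cr * (L.length + o.2.length + 1) * (o.2.length + 1)
                ≤ Cr * (2 * (X * W)) * (o.2.length + 1) := by gcongr
              _ = _ := by ring
          have t2 : wx.cost () () (cs, (o.2, wr.val () (L, o.2))) ≤
              Cx * (X * W) * (o.2.length + 1) := by
            refine (hx F o.2.length cs o.2 _ rfl hpos.2 (hrl _) (by omega)).2.2.trans ?_
            have : (cs.length + 1) ^ 2 ≤ X * W :=
              (Nat.pow_le_pow_left (by omega) 2).trans (hW1.trans hWU)
            calc Cx * ((cs.length + 1) ^ 2 * (o.2.length + 1))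
                ≤ Cx * ((X * W) * (o.2.length + 1)) := by gcongr
              _ = _ := by ring
          have t3 : wq.cost (rt, ()) ((fun _ => 1), ())
              (un p, wx.val () (cs, (o.2, wr.val () (L, o.2)))) ≤
              Cq * (X * W) * (o.2.length + 1) := by
            refine (sqc _).trans ?_
            rw [hxl o ho]
            have h5 := hXq o.2.length (by omega)
            have h6 : (o.2.length + 1) ^ 2 + p ≤ W :=
              Nat.add_le_add_right (Nat.pow_le_pow_left (by omega) 2) p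
            calc Cq * lgc (o.2.length + 1) ^ kq * ((o.2.length + 1) * ((o.2.length + 1) ^ 2 + p))
                ≤ Cq * X * ((o.2.length + 1) * W) := by gcongr
              _ = _ := by ring
          have t4 : ((wq.val (rt, ()) (un p, (wx.val () (cs, (o.2, wr.val () (L, o.2))))) :
              List (List Unit × List F)).map
              (fun o' => wc.cost () () (un r, (S, (o.2, (wr.val () (L, o.2), o')))) + 63)).sum ≤
              (2 * Cc + 63) * (X * W) * (o.2.length + 1) := by
            have h5 := sum_le_mul (wq.val (rt, ()) (un p, (wx.val () (cs, (o.2,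
              wr.val () (L, o.2))))) : List (List Unit × List F))
              (fun o' => wc.cost () () (un r, (S, (o.2, (wr.val () (L, o.2), o')))) + 63)
              (fun o => o.1.length * o.2.length) ((2 * Cc + 63) * (X * W)) (by
                intro o' ho'
                have hpos' := (sq (wx.val () (cs, (o.2, wr.val () (L, o.2))))).pos o' ho'
                have h5 := hcl F r s S.length o'.1.length S o.2 (wr.val () (L, o.2)) o'.2 hr23 hr0
                  rfl (by omega) hSS hl (hrl _) hpos'.1 hpos'.2 (hcls o ho hl o' ho')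
                rw [un_len] at h5
                have h6 := h5.2.2.2
                have h7 : 1 ≤ o'.1.length * o'.2.length := Nat.mul_le_mul hpos'.1 hpos'.2
                have h8 : wc.cost () () (un r, (S, (o.2, (wr.val () (L, o.2), o')))) ≤
                    2 * Cc * (X * W) * (o'.1.length * o'.2.length) := by
                  refine h6.trans ?_
                  calc Cc * (lgc (s + 1) ^ kc * ((s + 1) ^ 2 * (o'.1.length * o'.2.length + 1)))
                      ≤ Cc * (X * (W * (2 * (o'.1.length * o'.2.length)))) := by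
                        gcongr
                        omega
                    _ = _ := by ring
                have h9 : 63 ≤ 63 * (X * W) * (o'.1.length * o'.2.length) := by
                  have : 1 ≤ (X * W) * (o'.1.length * o'.2.length) := Nat.mul_le_mul hU1 h7
                  nlinarith
                have h10 : (2 * Cc + 63) * (X * W) * (o'.1.length * o'.2.length) =
                    2 * Cc * (X * W) * (o'.1.length * o'.2.length) +
                    63 * (X * W) * (o'.1.length * o'.2.length) := by ring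
                rw [h10]
                exact add_le_add h8 h9)
            rw [hsum2 o ho] at h5
            exact h5.trans (Nat.mul_le_mul_left _ (Nat.le_succ _))
          have t5 : (2 * Cr + Cx + Cq + 2 * Cc + 250) * (X * W) * (o.2.length + 1) =
              187 * (X * W) * (o.2.length + 1) + (2 * Cr * (X * W) * (o.2.length + 1) +
              Cx * (X * W) * (o.2.length + 1) + Cq * (X * W) * (o.2.length + 1) +
              (2 * Cc + 63) * (X * W) * (o.2.length + 1)) := by ring
          rw [t5]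
          omega
        · have t5 : (2 * Cr + Cx + Cq + 2 * Cc + 250) * (X * W) * (o.2.length + 1) =
              187 * (X * W) * (o.2.length + 1) +
              (2 * Cr + Cx + Cq + 2 * Cc + 63) * (X * W) * (o.2.length + 1) := by ring
          rw [t5]
          omega
      refine hb2.trans ?_
      calc (2 * Cr + Cx + Cq + 2 * Cc + 250) * (X * W) * (o.2.length + 1)
          ≤ (2 * Cr + Cx + Cq + 2 * Cc + 250) * (X * W) * (2 * (o.1.length * o.2.length)) := by
            gcongr
        _ = _ := by ring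
    have hsumb := sum_le_mul out1 _ _ _ hbod
    rw [hsum1] at hsumb
    have hlen1 : out1.length ≤ A.length := by
      rw [← hsum1]
      exact length_le_sum _ _ fun x hx => Nat.mul_le_mul (s1.pos x hx).1 (s1.pos x hx).2
    have c1 : wq.cost (rt, ()) ((fun _ => 1), ()) (un p, hd0 A) ≤ Cq * (X * W) * (s + 1) := by
      refine (sqc _).trans ?_
      rw [lenA]
      have h5 := hXq A.length (by omega)
      have h6 : (A.length + 1) ^ 2 + p ≤ W :=
        Nat.add_le_add_right (Nat.pow_le_pow_left (by omega) 2) p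
      calc Cq * lgc (A.length + 1) ^ kq * ((A.length + 1) * ((A.length + 1) ^ 2 + p))
          ≤ Cq * X * ((s + 1) * W) := by
            gcongr
            omega
        _ = _ := by ring
    have c2 : 23 * A.length + 80 ≤ 103 * (X * W) * (s + 1) := by
      have : 23 * A.length + 80 ≤ 103 * (s + 1) := by omega
      nlinarith
    have c3 : (20 * A.length + 71) * out1.length ≤ 91 * (X * W) * (s + 1) := by
      calc (20 * A.length + 71) * out1.length ≤ (91 * (s + 1)) * (s + 1) := by
            gcongr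
            · omega
            · omega
        _ ≤ (91 * (X * W)) * (s + 1) := by gcongr
    have c4 : (2 * Cr + Cx + Cq + 2 * Cc + 250) * (X * W) * 2 * A.length ≤
        2 * (2 * Cr + Cx + Cq + 2 * Cc + 250) * (X * W) * (s + 1) := by
      calc (2 * Cr + Cx + Cq + 2 * Cc + 250) * (X * W) * 2 * A.length
          ≤ (2 * Cr + Cx + Cq + 2 * Cc + 250) * (X * W) * 2 * (s + 1) := by
            gcongr
            omega
        _ = _ := by ring
    have c5 : (194 + Cq + 2 * (2 * Cr + Cx + Cq + 2 * Cc + 250)) *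
        (X * ((s + 1) ^ 3 + (s + 1) * p)) = 103 * (X * W) * (s + 1) + Cq * (X * W) * (s + 1) +
        2 * (2 * Cr + Cx + Cq + 2 * Cc + 250) * (X * W) * (s + 1) +
        91 * (X * W) * (s + 1) := by
      rw [hW]; ring
    rw [c5]
    refine hcost.trans ?_
    omega

end Pool.Agent.H330AB.JK15
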