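import Pool.Agent.H330AB.SpecB3
import Pool.Agent.H330AB.JK15
set_option autoImplicit false
noncomputable section
namespace Pool.Agent.H330AB.JK15b
open Polynomial Pool.Agent.H330FB

open K15 in
/-- TARGET -/
theorem specSplit2 (h1 : SpecSqf) (h2 : SpecChi) (h3 : SpecRem) (h4 : SpecClass) : SpecSplit2 := by
  obtain ⟨wq, Cq, kq, hq⟩ := h1
  obtain ⟨wx, Cx, hx⟩ := h2
  obtain ⟨wr, Cr, hr⟩ := h3
  obtain ⟨wc, Cc, kc, hcl⟩ := h4
  refine ⟨totP wq wx wr wc, 194 + Cq + 2 * (2 * Cr + Cx + Cq + 2 * Cc + 250), kq + kc, ?_⟩
  intro F _ _ r p s d n rt cs A S L hp hchar hrt hr23 hr0 hA hS hn1 hnd hds hSA hSS hL hcs1 hcs2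
  subst hA hS
  have sq : ∀ P : List F, Sqf P (wq.val (rt, ()) (un p, P)) := fun P => by
    obtain ⟨a, b, c, d, e⟩ := hq F p rt P hp hchar hrt
    exact ⟨a, b, c, d⟩
  have sqc : ∀ P : List F, wq.cost (rt, ()) ((fun _ => 1), ()) (un p, P) ≤
      Cq * lgc (P.length + 1) ^ kq * ((P.length + 1) * ((P.length + 1) ^ 2 + p)) := fun P =>
    (hq F p rt P hp hchar hrt).2.2.2.2
  have lenA : (hd0 A).length = A.length := by rw [hd0, List.length_map]
  have hsum1 : ((wq.val (rt, ()) (un p, hd0 A) : List (List Unit × List F)).map
      (fun o => o.1.length * o.2.length)).sum = A.length := by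
    rw [sqf_sum (sq (hd0 A)).prod, lenA]
  generalize hout1 : (wq.val (rt, ()) (un p, hd0 A) : List (List Unit × List F)) = out1 at hsum1
  have s1 : Sqf (hd0 A) out1 := by rw [← hout1]; exact sq _
  have hle : ∀ o ∈ out1, o.2.length ≤ A.length := by
    intro o ho
    have h5 := mem_le_sum out1 (fun o => o.1.length * o.2.length) o ho
    rw [hsum1] at h5
    have h6 := (s1.pos o ho).1
    have h7 : 1 * o.2.length ≤ o.1.length * o.2.length := Nat.mul_le_mul_right _ h6
    change o.1.length * o.2.length ≤ _ at h5
    omega
  have hrl : ∀ h : List F, (wr.val () (L, h) : List F).length = h.length := fun h =>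
    (hr F L h).1
  have hxl : ∀ o ∈ out1, (wx.val () (cs, (o.2, wr.val () (L, o.2))) : List F).length
      = o.2.length := fun o ho =>
    (hx F o.2.length cs o.2 _ rfl (s1.pos o ho).2 (hrl _) (by have := hle o ho; omega)).1
  have hsum2 : ∀ o ∈ out1, ((wq.val (rt, ()) (un p, wx.val () (cs, (o.2, wr.val () (L, o.2)))) :
      List (List Unit × List F)).map (fun o => o.1.length * o.2.length)).sum = o.2.length := by
    intro o ho
    rw [sqf_sum (sq _).prod, hxl o ho]
  have hcls : ∀ o ∈ out1, o.2.length ≤ S.length →
      ∀ o' ∈ (wq.val (rt, ()) (un p, wx.val () (cs, (o.2, wr.val () (L, o.2)))) :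
        List (List Unit × List F)), o'.1.length * o'.2.length ≤ o.2.length := by
    intro o ho _ o' ho'
    have h5 := mem_le_sum _ (fun o => o.1.length * o.2.length) o' ho'
    rw [hsum2 o ho] at h5
    exact h5
  have hshape : ∀ o ∈ out1, o.2.length ≤ S.length →
      ∀ o' ∈ (wq.val (rt, ()) (un p, wx.val () (cs, (o.2, wr.val () (L, o.2)))) :
        List (List Unit × List F)),
      Sh3 (o'.1.length + 1) o'.2.length (wc.val () (un r, (S, (o.2, (wr.val () (L, o.2), o')))) :
        List (List (List F))) ∧
      (wc.val () (un r, (S, (o.2, (wr.val () (L, o.2), o')))) : List (List (List F))).length =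
        o'.1.length := by
    intro o ho hon o' ho'
    have hpos := (sq (wx.val () (cs, (o.2, wr.val () (L, o.2))))).pos o' ho'
    have h5 := hcl F r s S.length o'.1.length S o.2 (wr.val () (L, o.2)) o'.2 hr23 hr0 rfl
      (by omega) hSS hon (hrl _) hpos.1 hpos.2 (hcls o ho hon o' ho')
    rw [un_len] at h5
    exact ⟨h5.1, h5.2.1⟩
  intro out
  have hout : out = out1.flatMap (fun o =>
        if o.2.length ≤ S.length then
        (wq.val (rt, ()) (un p, (wx.val () (cs, (o.2, wr.val () (L, o.2))))) :
          List (List Unit × List F)).map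
          (fun o' => (o'.2, (wc.val () (un r, (S, (o.2, (wr.val () (L, o.2), o')))), o.1)))
        else []) := by
    rw [← hout1]
    exact val_totP wq wx wr wc (rt, ()) (un r) (un p) cs A S L
  refine ⟨?_, ?_, ?_, ?_⟩
  · intro k _ _ _ φ hR hdv1 hdv2 hnod hblk
    rw [hout]
    refine final (d := A.length) (fun g hg => perf_sq hp hchar hrt hg) hR hdv1 hdv2 hblk out1 s1
      (fun h => wr.val () (L, h)) (fun h => wx.val () (cs, (h, wr.val () (L, h))))
      (fun o _ => (hr F L o.2).2.1) ?_
      (fun h => wq.val (rt, ()) (un p, wx.val () (cs, (h, wr.val () (L, h)))))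
      (fun o _ => sq _) (fun h j q => wc.val () (un r, (S, (h, (wr.val () (L, h), (j, q)))))) ?_
    · intro o ho α' hα'
      exact (hx F o.2.length cs o.2 _ rfl (s1.pos o ho).2 (hrl _)
        (by have := hle o ho; omega)).2.1 hnod k α' hα'
    · intro o ho hon o' ho'
      have hpos := (sq (wx.val () (cs, (o.2, wr.val () (L, o.2))))).pos o' ho'
      have h5 := hcl F r s S.length o'.1.length S o.2 (wr.val () (L, o.2)) o'.2 hr23 hr0 rfl
        (by omega) hSS hon (hrl _) hpos.1 hpos.2 (hcls o ho hon o' ho')
      rw [un_len] at h5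
      obtain ⟨a, b, c, _⟩ := h5
      exact ⟨a, b, fun g1 g2 g3 => c k φ hR g1 g2 g3⟩
  · intro x hx
    rw [hout, List.mem_flatMap] at hx
    obtain ⟨o, ho, hx⟩ := hx
    split_ifs at hx with hon
    · obtain ⟨o', ho', rfl⟩ := List.mem_map.1 hx
      have hpos := (sq (wx.val () (cs, (o.2, wr.val () (L, o.2))))).pos o' ho'
      obtain ⟨a, b⟩ := hshape o ho hon o' ho'
      refine ⟨hpos.2, ?_, ?_⟩
      · exact b ▸ hpos.1
      · change Sh3 ((wc.val () (un r, (S, (o.2, (wr.val () (L, o.2), o')))) :
          List (List (List F))).length + 1) o'.2.length _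
        rw [b]; exact a
    · simp at hx
  · rw [hout, List.map_flatMap, List.flatMap_def, List.sum_flatten, List.map_map, ← hsum1]
    refine List.sum_le_sum fun o ho => ?_
    change (List.map _ (if o.2.length ≤ S.length then _ else [])).sum ≤ _
    split_ifs with hon
    · rw [List.map_map]
      have h6 := (s1.pos o ho).1
      have h7 : 1 * o.2.length ≤ o.1.length * o.2.length := Nat.mul_le_mul_right _ h6
      refine le_trans ?_ h7
      rw [one_mul, ← hsum2 o ho]
      refine List.sum_le_sum fun o' ho' => ?_
      change o'.2.length * (wc.val () (un r, (S, (o.2, (wr.val () (L, o.2), o')))) :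
        List (List (List F))).length ≤ _
      rw [(hshape o ho hon o' ho').2, mul_comm]
    · simp
  · have hN : ∀ o ∈ (wq.val (rt, ()) (un p, hd0 A) : List (List Unit × List F)),
        o.2.length ≤ S.length →
        List.length (wq.val (rt, ()) (un p, (wx.val () (cs, (o.2, wr.val () (L, o.2))))) :
          List (List Unit × List F)) ≤ A.length := by
      intro o ho _
      rw [hout1] at ho
      have h5 := length_le_sum (wq.val (rt, ()) (un p, (wx.val () (cs, (o.2,
        wr.val () (L, o.2))))) : List (List Unit × List F)) (fun o => o.1.length * o.2.length) (by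
          intro x hx
          have := (sq _).pos x hx
          exact Nat.mul_le_mul this.1 this.2)
      rw [hsum2 o ho] at h5
      exact h5.trans (hle o ho)
    have hcost := cost_totP wq wx wr wc (rt, ()) ((fun _ => 1), ()) (un r) (un p) cs A S L
      A.length hN
    rw [hout1] at hcost
    set X : ℕ := lgc (s + 1) ^ (kq + kc) with hX
    set W : ℕ := (s + 1) ^ 2 + p with hW
    have hu : 1 ≤ lgc (s + 1) := by unfold lgc; omega
    have hX1 : 1 ≤ X := Nat.one_le_pow _ _ hu
    have hXq : ∀ m, m ≤ s → lgc (m + 1) ^ kq ≤ X := by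
      intro m hm
      have h5 : lgc (m + 1) ≤ lgc (s + 1) := by
        unfold lgc
        exact Nat.succ_le_succ (Nat.clog_mono_right 2 (by omega))
      exact (Nat.pow_le_pow_left h5 kq).trans (Nat.pow_le_pow_right hu (Nat.le_add_right _ _))
    have hXc : lgc (s + 1) ^ kc ≤ X := Nat.pow_le_pow_right hu (Nat.le_add_left _ _)
    have hW1 : (s + 1) ^ 2 ≤ W := Nat.le_add_right _ _
    have hWU : W ≤ X * W := Nat.le_mul_of_pos_left _ hX1
    have hsU : s + 1 ≤ X * W := by
      have : s + 1 ≤ (s + 1) ^ 2 := Nat.le_self_pow (by norm_num) _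
      omega
    have hU1 : 1 ≤ X * W := by omega
    have hbod : ∀ o ∈ out1, (bodP wq wx wr wc).cost (rt, ()) ((fun _ => 1), ())
        ((un r, (un p, (cs, (A, (S, L))))), o) + 13 ≤
        ((2 * Cr + Cx + Cq + 2 * Cc + 250) * (X * W) * 2) * (o.1.length * o.2.length) := by
      intro o ho
      have hb := cost_bodP wq wx wr wc (rt, ()) ((fun _ => 1), ()) (un r) (un p) cs A S L o
      have hod := hle o ho
      have hpos := s1.pos o ho
      have hob : o.2.length + 1 ≤ 2 * (o.1.length * o.2.length) := by nlinarith
      have hb2 : (bodP wq wx wr wc).cost (rt, ()) ((fun _ => 1), ())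
          ((un r, (un p, (cs, (A, (S, L))))), o) + 13 ≤
          (2 * Cr + Cx + Cq + 2 * Cc + 250) * (X * W) * (o.2.length + 1) := by
        have base : 24 * S.length + 150 + 13 ≤ 187 * (X * W) * (o.2.length + 1) := by
          have : 24 * S.length + 163 ≤ 187 * (X * W) := by omega
          nlinarith
        refine (Nat.add_le_add_right hb 13).trans ?_
        split_ifs with hl
        · have t1 : wr.cost () () (L, o.2) ≤ 2 * Cr * (X * W) * (o.2.length + 1) := by
            refine (hr F L o.2).2.2.trans ?_
            have : L.length + o.2.length + 1 ≤ 2 * (X * W) := by omega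
            calc Cr * (L.length + o.2.length + 1) * (o.2.length + 1)
                ≤ Cr * (2 * (X * W)) * (o.2.length + 1) := by gcongr
              _ = _ := by ring
          have t2 : wx.cost () () (cs, (o.2, wr.val () (L, o.2))) ≤
              Cx * (X * W) * (o.2.length + 1) := by
            refine (hx F o.2.length cs o.2 _ rfl hpos.2 (hrl _) (by omega)).2.2.trans ?_
            have : (cs.length + 1) ^ 2 ≤ X * W :=
              (Nat.pow_le_pow_left (by omega) 2).trans (hW1.trans hWU)
            calc Cx * ((cs.length + 1) ^ 2 * (o.2.length + 1))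
                ≤ Cx * ((X * W) * (o.2.length + 1)) := by gcongr
              _ = _ := by ring
          have t3 : wq.cost (rt, ()) ((fun _ => 1), ())
              (un p, wx.val () (cs, (o.2, wr.val () (L, o.2)))) ≤
              Cq * (X * W) * (o.2.length + 1) := by
            refine (sqc _).trans ?_
            rw [hxl o ho]
            have h5 := hXq o.2.length (by omega)
            have h6 : (o.2.length + 1) ^ 2 + p ≤ W :=
              Nat.add_le_add_right (Nat.pow_le_pow_left (by omega) 2) p
            calc Cq * lgc (o.2.length + 1) ^ kq * ((o.2.length + 1) * ((o.2.length + 1) ^ 2 + p))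
                ≤ Cq * X * ((o.2.length + 1) * W) := by gcongr
              _ = _ := by ring
          have t4 : ((wq.val (rt, ()) (un p, (wx.val () (cs, (o.2, wr.val () (L, o.2))))) :
              List (List Unit × List F)).map
              (fun o' => wc.cost () () (un r, (S, (o.2, (wr.val () (L, o.2), o')))) + 63)).sum ≤
              (2 * Cc + 63) * (X * W) * (o.2.length + 1) := by
            have h5 := sum_le_mul (wq.val (rt, ()) (un p, (wx.val () (cs, (o.2,
              wr.val () (L, o.2))))) : List (List Unit × List F))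
              (fun o' => wc.cost () () (un r, (S, (o.2, (wr.val () (L, o.2), o')))) + 63)
              (fun o => o.1.length * o.2.length) ((2 * Cc + 63) * (X * W)) (by
                intro o' ho'
                have hpos' := (sq (wx.val () (cs, (o.2, wr.val () (L, o.2))))).pos o' ho'
                have h5 := hcl F r s S.length o'.1.length S o.2 (wr.val () (L, o.2)) o'.2 hr23 hr0
                  rfl (by omega) hSS hl (hrl _) hpos'.1 hpos'.2 (hcls o ho hl o' ho')
                rw [un_len] at h5
                have h6 := h5.2.2.2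
                have h7 : 1 ≤ o'.1.length * o'.2.length := Nat.mul_le_mul hpos'.1 hpos'.2
                have h8 : wc.cost () () (un r, (S, (o.2, (wr.val () (L, o.2), o')))) ≤
                    2 * Cc * (X * W) * (o'.1.length * o'.2.length) := by
                  refine h6.trans ?_
                  calc Cc * (lgc (s + 1) ^ kc * ((s + 1) ^ 2 * (o'.1.length * o'.2.length + 1)))
                      ≤ Cc * (X * (W * (2 * (o'.1.length * o'.2.length)))) := by
                        gcongr
                        omega
                    _ = _ := by ring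
                have h9 : 63 ≤ 63 * (X * W) * (o'.1.length * o'.2.length) := by
                  have : 1 ≤ (X * W) * (o'.1.length * o'.2.length) := Nat.mul_le_mul hU1 h7
                  nlinarith
                have h10 : (2 * Cc + 63) * (X * W) * (o'.1.length * o'.2.length) =
                    2 * Cc * (X * W) * (o'.1.length * o'.2.length) +
                    63 * (X * W) * (o'.1.length * o'.2.length) := by ring
                rw [h10]
                exact add_le_add h8 h9)
            rw [hsum2 o ho] at h5
            exact h5.trans (Nat.mul_le_mul_left _ (Nat.le_succ _))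
          have t5 : (2 * Cr + Cx + Cq + 2 * Cc + 250) * (X * W) * (o.2.length + 1) =
              187 * (X * W) * (o.2.length + 1) + (2 * Cr * (X * W) * (o.2.length + 1) +
              Cx * (X * W) * (o.2.length + 1) + Cq * (X * W) * (o.2.length + 1) +
              (2 * Cc + 63) * (X * W) * (o.2.length + 1)) := by ring
          rw [t5]
          omega
        · have t5 : (2 * Cr + Cx + Cq + 2 * Cc + 250) * (X * W) * (o.2.length + 1) =
              187 * (X * W) * (o.2.length + 1) +
              (2 * Cr + Cx + Cq + 2 * Cc + 63) * (X * W) * (o.2.length + 1) := by ring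
          rw [t5]
          omega
      refine hb2.trans ?_
      calc (2 * Cr + Cx + Cq + 2 * Cc + 250) * (X * W) * (o.2.length + 1)
          ≤ (2 * Cr + Cx + Cq + 2 * Cc + 250) * (X * W) * (2 * (o.1.length * o.2.length)) := by
            gcongr
        _ = _ := by ring
    have hsumb := sum_le_mul out1 _ _ _ hbod
    rw [hsum1] at hsumb
    have hlen1 : out1.length ≤ A.length := by
      rw [← hsum1]
      exact length_le_sum _ _ fun x hx => Nat.mul_le_mul (s1.pos x hx).1 (s1.pos x hx).2
    have c1 : wq.cost (rt, ()) ((fun _ => 1), ()) (un p, hd0 A) ≤ Cq * (X * W) * (s + 1) := by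
      refine (sqc _).trans ?_
      rw [lenA]
      have h5 := hXq A.length (by omega)
      have h6 : (A.length + 1) ^ 2 + p ≤ W :=
        Nat.add_le_add_right (Nat.pow_le_pow_left (by omega) 2) p
      calc Cq * lgc (A.length + 1) ^ kq * ((A.length + 1) * ((A.length + 1) ^ 2 + p))
          ≤ Cq * X * ((s + 1) * W) := by
            gcongr
            omega
        _ = _ := by ring
    have c2 : 23 * A.length + 80 ≤ 103 * (X * W) * (s + 1) := by
      have : 23 * A.length + 80 ≤ 103 * (s + 1) := by omega
      nlinarith
    have c3 : (20 * A.length + 71) * out1.length ≤ 91 * (X * W) * (s + 1) := by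
      calc (20 * A.length + 71) * out1.length ≤ (91 * (s + 1)) * (s + 1) := by
            gcongr
            · omega
            · omega
        _ ≤ (91 * (X * W)) * (s + 1) := by gcongr
    have c4 : (2 * Cr + Cx + Cq + 2 * Cc + 250) * (X * W) * 2 * A.length ≤
        2 * (2 * Cr + Cx + Cq + 2 * Cc + 250) * (X * W) * (s + 1) := by
      calc (2 * Cr + Cx + Cq + 2 * Cc + 250) * (X * W) * 2 * A.length
          ≤ (2 * Cr + Cx + Cq + 2 * Cc + 250) * (X * W) * 2 * (s + 1) := by
            gcongr
            omega
        _ = _ := by ring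
    have c5 : (194 + Cq + 2 * (2 * Cr + Cx + Cq + 2 * Cc + 250)) *
        (X * ((s + 1) ^ 3 + (s + 1) * p)) = 103 * (X * W) * (s + 1) + Cq * (X * W) * (s + 1) +
        2 * (2 * Cr + Cx + Cq + 2 * Cc + 250) * (X * W) * (s + 1) +
        91 * (X * W) * (s + 1) := by
      rw [hW]; ring
    rw [c5]
    refine hcost.trans ?_
    omega

end Pool.Agent.H330AB.JK15b
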