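import Pool.Agent.H330AB.SpecB2
set_option autoImplicit false
noncomputable section
namespace Pool.Agent.H330AB.JK16
open Polynomial Pool.Agent.H330FB

/-! ### lists and polynomials -/

theorem rads_coeff_pol {R : Type} [CommRing R] (l : List R) (i : ℕ) :
    (pol l).coeff i = l.getD i 0 := by
  induction l generalizing i with
  | nil => simp [pol]
  | cons x l ih =>
    cases i with
    | zero => simp [pol]
    | succ i => simp [pol, coeff_X_mul, ih, coeff_C_succ]

theorem rads_deg_pol {R : Type} [CommRing R] (l : List R) : (pol l).degree < l.length := by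
  rw [degree_lt_iff_coeff_zero]
  intro m hm
  rw [rads_coeff_pol, List.getD_eq_default _ _ hm]

theorem rads_mpol_monic {R : Type} [CommRing R] (l : List R) : (mpol l).Monic :=
  monic_X_pow_add (rads_deg_pol l)

theorem rads_natDegree_mpol {R : Type} [CommRing R] [Nontrivial R] (l : List R) :
    (mpol l).natDegree = l.length := by
  unfold mpol
  rw [natDegree_add_eq_left_of_degree_lt (by rw [degree_X_pow]; exact rads_deg_pol l),
    natDegree_X_pow]

theorem rads_coeff_mpol {R : Type} [CommRing R] (l : List R) (i : ℕ) (hi : i < l.length) :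
    (mpol l).coeff i = l.getD i 0 := by
  unfold mpol
  rw [coeff_add, coeff_X_pow, if_neg hi.ne, zero_add, rads_coeff_pol]

theorem rads_map_pol {R S : Type} [CommRing R] [CommRing S] (f : R →+* S) (l : List R) :
    (pol l).map f = pol (l.map f) := by
  induction l with
  | nil => simp [pol]
  | cons x l ih => simp [pol, ih]

theorem rads_map_mpol {R S : Type} [CommRing R] [CommRing S] (f : R →+* S) (l : List R) :
    (mpol l).map f = mpol (l.map f) := by
  unfold mpol
  rw [Polynomial.map_add, Polynomial.map_pow, map_X, rads_map_pol, List.length_map]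

theorem rads_mbiv {F : Type} [Field F] (l : List (List F)) : mbiv l = mpol (l.map pol) := by
  unfold mbiv mpol biv
  rw [List.length_map]

theorem rads_bcp {F k : Type} [Field F] [Field k] [Algebra F k] (l : List (List F)) :
    bcp k (mbiv l) = mpol (l.map (fun r => (pol r).map (algebraMap F k))) := by
  unfold bcp
  rw [rads_mbiv, rads_map_mpol, List.map_map]
  rfl

theorem rads_fibre {F k : Type} [Field F] [Field k] [Algebra F k] (l : List (List F)) (c : F) :
    (bcp k (mbiv l)).map (evalRingHom (algebraMap F k c)) =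
      (mpol (l.map (fun r => (pol r).eval c))).map (algebraMap F k) := by
  rw [rads_bcp, rads_map_mpol, rads_map_mpol, List.map_map, List.map_map]
  congr 1
  apply List.map_congr_left
  intro r _
  simp only [Function.comp, coe_evalRingHom]
  rw [eval_map, eval₂_at_apply]

theorem rads_getD_fit {α : Type} (n : ℕ) (z : α) (l : List α) (i : ℕ) (hi : i < n) :
    (fit n z l).getD i z = l.getD i z := by
  induction n generalizing l i with
  | zero => omega
  | succ n ih =>
    cases l with
    | nil =>
      cases i with
      | zero => simp [fit]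
      | succ i =>
        have := ih [] i (by omega)
        simp only [fit, List.getD_cons_succ]
        rw [this]; simp
    | cons x l =>
      cases i with
      | zero => simp [fit]
      | succ i =>
        have := ih l i (by omega)
        simp only [fit, List.getD_cons_succ]
        exact this

theorem rads_fit_self {α : Type} (z : α) (l : List α) : fit l.length z l = l := by
  induction l with
  | nil => rfl
  | cons x l ih => simp [fit, ih]

theorem rads_pol_fit {R : Type} [CommRing R] (n : ℕ) (l : List R) (h : l.length ≤ n) :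
    pol (fit n 0 l) = pol l := by
  ext i
  rw [rads_coeff_pol, rads_coeff_pol]
  by_cases hi : i < n
  · exact rads_getD_fit n 0 l i hi
  · rw [List.getD_eq_default _ _ (by rw [length_fit]; omega),
      List.getD_eq_default _ _ (by omega)]

/-! ### the radical over the larger field -/

theorem rads_rad {F k : Type} [Field F] [Field k] [Algebra F k] (p : ℕ) (rt : F → F)
    (hp : p.Prime) (hc : CharP F p) (hrt : ∀ x, rt x ^ p = x) (P R : List F) (T : k[X]) (N d : ℕ)
    (h1 : Squarefree (mpol R)) (h2 : mpol R ∣ mpol P) (h3 : mpol P ∣ mpol R ^ d)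
    (hT : T.Monic) (hTs : Squarefree T) (hT1 : T ∣ (mpol P).map (algebraMap F k))
    (hT2 : (mpol P).map (algebraMap F k) ∣ T ^ N) : (mpol R).map (algebraMap F k) = T := by
  haveI : Fact p.Prime := ⟨hp⟩
  haveI : PerfectRing F p := PerfectRing.ofSurjective F p (fun x => ⟨rt x, hrt x⟩)
  haveI : PerfectField F := PerfectRing.toPerfectField F p
  have hs : Squarefree ((mpol R).map (algebraMap F k)) :=
    (PerfectField.separable_iff_squarefree.2 h1).map.squarefree
  have h2' : (mpol R).map (algebraMap F k) ∣ (mpol P).map (algebraMap F k) :=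
    Polynomial.map_dvd _ h2
  have h3' : (mpol P).map (algebraMap F k) ∣ (mpol R).map (algebraMap F k) ^ d := by
    rw [← Polynomial.map_pow]
    exact Polynomial.map_dvd _ h3
  have e1 : T ∣ (mpol R).map (algebraMap F k) := hTs.isRadical d _ (hT1.trans h3')
  have e2 : (mpol R).map (algebraMap F k) ∣ T := hs.isRadical N _ (h2'.trans hT2)
  exact eq_of_monic_of_associated ((rads_mpol_monic R).map _) hT (associated_of_dvd_dvd e2 e1)

/-! ### the final comparison -/

theorem rads_final {F k : Type} [Field F] [Field k] [Algebra F k] (d s : ℕ) (cs : List F)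
    (R : F → List F) (A1 : List (List F)) (T : k[X][X]) (hcs : cs.length = d + 1)
    (hnd : cs.Nodup) (hds : d + 1 ≤ s) (hT : T.Monic) (hTD : TD T T.natDegree)
    (hTd : T.natDegree ≤ d)
    (hR : ∀ c ∈ cs, (mpol (R c)).map (algebraMap F k) =
      T.map (evalRingHom (algebraMap F k c)))
    (hA1 : A1.length = T.natDegree) (hA2 : Sh (d + 1) A1)
    (hint : ∀ i < T.natDegree, ∀ c ∈ cs, (pol (A1.getD i [])).eval c = (R c).getD i 0) :
    bcp k (mbiv (A1.map (fit s 0))) = T := by
  have hinj : Function.Injective (algebraMap F k) := (algebraMap F k).injective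
  rw [rads_bcp, List.map_map]
  set m := T.natDegree with hm
  have hmon : (mpol (A1.map ((fun r => (pol r).map (algebraMap F k)) ∘ fit s 0))).Monic :=
    rads_mpol_monic _
  have hnat : (mpol (A1.map ((fun r => (pol r).map (algebraMap F k)) ∘ fit s 0))).natDegree
      = m := by
    rw [rads_natDegree_mpol, List.length_map, hA1]
  ext1 i
  rcases lt_trichotomy i m with hi | hi | hi
  · rw [rads_coeff_mpol _ _ (by rw [List.length_map, hA1]; exact hi)]
    have hi' : i < A1.length := by rw [hA1]; exact hi
    have e1 : (A1.map ((fun r => (pol r).map (algebraMap F k)) ∘ fit s 0)).getD i 0 =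
        (pol (A1.getD i [])).map (algebraMap F k) := by
      rw [List.getD_eq_getElem _ _ (by rw [List.length_map]; exact hi'),
        List.getD_eq_getElem _ _ hi', List.getElem_map]
      simp only [Function.comp]
      rw [rads_pol_fit]
      have := hA2 _ (List.getElem_mem hi')
      omega
    rw [e1]
    have hlen : (A1.getD i []).length = d + 1 := by
      rw [List.getD_eq_getElem _ _ hi']
      exact hA2 _ (List.getElem_mem hi')
    classical
    have hcard : (cs.map (algebraMap F k)).toFinset.card = d + 1 := by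
      rw [List.toFinset_card_of_nodup (hnd.map hinj), List.length_map, hcs]
    apply Polynomial.eq_of_degrees_lt_of_eval_finset_eq (cs.map (algebraMap F k)).toFinset
    · rw [hcard, degree_map, ← hlen]
      exact rads_deg_pol _
    · rw [hcard, degree_lt_iff_coeff_zero]
      intro j hj
      exact hTD i j (by omega)
    · intro x hx
      rw [List.mem_toFinset, List.mem_map] at hx
      obtain ⟨c, hc, rfl⟩ := hx
      rw [eval_map, eval₂_at_apply, hint i hi c hc]
      have e2 := congrArg (fun q => q.coeff i) (hR c hc)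
      simp only [coeff_map, coe_evalRingHom] at e2
      rw [← e2]
      have hlen2 : (R c).length = m := by
        have e3 := congrArg natDegree (hR c hc)
        rw [hT.natDegree_map, (rads_mpol_monic (R c)).natDegree_map, rads_natDegree_mpol] at e3
        exact e3
      rw [rads_coeff_mpol _ _ (by rw [hlen2]; exact hi)]
  · rw [hi]
    have e1 := hmon.coeff_natDegree
    rw [hnat] at e1
    rw [e1, hm, hT.coeff_natDegree]
  · rw [coeff_eq_zero_of_natDegree_lt (by rw [hnat]; exact hi),
      coeff_eq_zero_of_natDegree_lt hi]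

/-! ### programs -/

section prog
variable {F : Type} [Field F] [DecidableEq F]
variable {s : List (Ty × Ty)} {a b c d e g σ τ : Ty}

/-- the number one -/
def radsOne : Pr s g Un := .comp (.pair .star .nil) .cons

/-- length -/
def radsLen : Pr s (.list a) Un := .comp (.pair .star .id) (mapP (c := .unit) .star)

/-- length of the first row, at least one -/
def radsFirst : Pr s Ma Un :=
  onL .id radsOne (.comp (.comp .snd .fst) (onL .id radsOne (.comp .fst radsLen)))

/-- row of a given length -/
def radsFit : Pr s (.prod Un Po) Po := .comp (.pair .fst (.pair .zero .snd)) fitP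

theorem val_radsLen (v : SV F s) (x : Ty.D F (.list a)) :
    (radsLen : Pr s (.list a) Un).val v x = un (List.length x) := by
  simp [radsLen, un]

theorem cost_radsLen (v : SV F s) (k : SC F s) (x : Ty.D F (.list a)) :
    (radsLen : Pr s (.list a) Un).cost v k x ≤ 14 * List.length x + 8 := by
  have h := cost_mapP_le (s := s) (c := .unit) (a := a) (b := .unit) .star v k ((), x) 1
    (fun _ _ => by simp)
  simp [radsLen] at h ⊢
  omega

theorem val_radsFirst (v : SV F s) (x : List (List F)) :
    (radsFirst : Pr s Ma Un).val v x = un (max 1 (x.headD []).length) := by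
  rcases x with _ | ⟨_ | ⟨h, t⟩, x⟩
  · simp [radsFirst, radsOne, un]
  · simp [radsFirst, radsOne, un]
  · simp [radsFirst, val_radsLen]

theorem cost_radsFirst (v : SV F s) (k : SC F s) (x : List (List F)) :
    (radsFirst : Pr s Ma Un).cost v k x ≤ 14 * (x.headD []).length + 30 := by
  rcases x with _ | ⟨_ | ⟨h, t⟩, x⟩
  · simp [radsFirst, radsOne]
  · simp [radsFirst, radsOne]
  · have := cost_radsLen (F := F) (s := s) (a := .fld) v k (h :: t)
    simp [radsFirst] at this ⊢
    omega

theorem val_radsFit (v : SV F s) (n : ℕ) (x : List F) :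
    (radsFit : Pr s (.prod Un Po) Po).val v (un n, x) = fit n 0 x := by
  simp [radsFit, un]

theorem cost_radsFit (v : SV F s) (k : SC F s) (n : ℕ) (x : List F) :
    (radsFit : Pr s (.prod Un Po) Po).cost v k (un n, x) ≤ 20 * n + 8 := by
  have := cost_fitP (s := s) (a := .fld) (b := .unit) v k (un n, ((0 : F), x))
  simp [radsFit, un] at this ⊢
  omega

end prog

/-- the program -/
def radsW (wR : Pr RT (.prod Un Po) Po) (wF : Pr [] (.prod Ma Po) Ma)
    (wI : Pr [] (.prod Un (.prod Po Ma)) Ma) :
    Pr RT (.prod Un (.prod Po (.prod Un Ma))) Ma :=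
  lt (.comp (.pair (.comp .snd (.comp .snd .snd)) (.comp .snd .fst)) (liftP _ wF))
    (lt (.comp (.pair (.comp .fst .fst) .snd) (mapP wR))
      (lt (.comp .snd radsFirst)
        (.comp (.pair (.comp (.comp .fst (.comp .fst .fst)) (.comp .snd (.comp .snd .fst)))
          (.comp (.pair .snd (.pair (.comp (.comp .fst (.comp .fst .fst)) (.comp .snd .fst))
            (.comp (.pair .snd (.comp .fst .snd)) (mapP radsFit)))) (liftP _ wI)))
          (mapP radsFit))))

theorem rads_ww (N : ℕ) : ww N ≤ 5 * N ^ 3 := by
  unfold ww vv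
  rcases Nat.eq_zero_or_pos N with h | h
  · subst h; simp
  · have h1 : 7 ^ Nat.clog 2 N / 2 ^ Nat.clog 2 N ≤ 4 ^ Nat.clog 2 N := by
      apply Nat.div_le_of_le_mul
      rw [← Nat.mul_pow]
      exact Nat.pow_le_pow_left (by norm_num) _
    have h2 : 2 ^ Nat.clog 2 N ≤ 2 * N := by
      rcases Nat.lt_or_ge 1 N with h3 | h3
      · have h4 := Nat.pow_pred_clog_lt_self (b := 2) (by norm_num) h3
        have h5 : 0 < Nat.clog 2 N := Nat.clog_pos (by norm_num) (by omega)
        obtain ⟨m, hm⟩ := Nat.exists_eq_succ_of_ne_zero h5.ne'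
        rw [hm] at h4 ⊢
        simp only [Nat.pred_succ] at h4
        rw [pow_succ]
        omega
      · have : N = 1 := by omega
        subst this
        simp
    have h3 : 4 ^ Nat.clog 2 N ≤ 4 * N ^ 2 := by
      calc 4 ^ Nat.clog 2 N = (2 ^ Nat.clog 2 N) ^ 2 := by
            rw [← pow_mul, mul_comm, pow_mul]
            norm_num
        _ ≤ (2 * N) ^ 2 := Nat.pow_le_pow_left h2 2
        _ = 4 * N ^ 2 := by ring
    have h4 : 7 ^ Nat.clog 2 N / 2 ^ Nat.clog 2 N + 1 ≤ 5 * N ^ 2 := by
      have : 1 ≤ N ^ 2 := Nat.one_le_pow _ _ h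
      omega
    calc N * (7 ^ Nat.clog 2 N / 2 ^ Nat.clog 2 N + 1) ≤ N * (5 * N ^ 2) :=
          Nat.mul_le_mul_left _ h4
      _ = 5 * N ^ 3 := by ring

theorem rads_lgc {a b : ℕ} (h : a ≤ b) : lgc a ≤ lgc b := by
  unfold lgc
  have := Nat.clog_mono_right 2 h
  omega

/-- TARGET -/
theorem specRadS (h1 : SpecRad) (h2 : SpecFib) (h3 : SpecInt) (h0 : SpecUnits) : SpecRadS := by
  obtain ⟨wR, C1, K, hR⟩ := h1
  obtain ⟨wF, C2, hF⟩ := h2
  obtain ⟨wI, C3, hI⟩ := h3
  refine ⟨radsW wR wF wI, C1 + 135 * C2 + 27 * C3 + 300, K, ?_⟩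
  intro F _ _ p s d rt cs A hp hc hrt hA hd hsh hcs hds
  -- the values
  obtain ⟨hF1, hF2⟩ := hF F s A cs hsh
  have hR' := fun P => hR F p rt P hp hc hrt
  set rad : List F → List F := fun P => wR.val (rt, ()) (un p, P) with hrad
  set fb : F → List F := fun c => A.map (fun r => (pol r).eval c) with hfb
  set V1 : List (List F) := cs.map (fun c => rad (fb c)) with hV1
  set n : ℕ := max 1 (V1.headD []).length with hn
  have hlen : ∀ c, (rad (fb c)).length ≤ d := by
    intro c
    have := (hR' (fb c)).1
    simpa [hfb, hA] using this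
  have hhead : (V1.headD []).length ≤ d := by
    rcases cs with _ | ⟨c, cs⟩
    · simp at hcs
    · simpa [hV1] using hlen c
  have hn1 : 1 ≤ n := le_max_left _ _
  have hnd : n ≤ d := max_le hd hhead
  set V2 : List (List F) := V1.map (fit n 0) with hV2
  have hV2l : V2.length = cs.length := by simp [hV2, hV1]
  have hV2s : Sh n V2 := by
    intro r hr
    simp only [hV2, List.mem_map] at hr
    obtain ⟨r', _, rfl⟩ := hr
    exact length_fit _ _ _
  obtain ⟨hI1, hI2, hI3, hI4⟩ := hI F n cs V2 hV2l hV2s
  set A1 : List (List F) := wI.val () (un n, (cs, V2)) with hA1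
  have hval : ((radsW wR wF wI).val (rt, ()) (un p, (cs, (un s, A))) : List (List F)) =
      A1.map (fit s 0) := by
    simp only [radsW, val_lt, val_comp, val_pair, val_fst, val_snd, val_liftP, val_mapP]
    rw [hF1, List.map_map]
    have e1 : List.map ((fun y => wR.val (rt, ()) (un p, y)) ∘ fun a => A.map fun r => eval a (pol r)) cs
        = V1 := rfl
    rw [e1, val_radsFirst, ← hn]
    have e2 : List.map (fun y => (radsFit : Pr RT (.prod Un Po) Po).val (rt, ()) (un n, y)) V1
        = V2 := by
      rw [hV2]
      apply List.map_congr_left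
      intro r _
      exact val_radsFit _ _ _
    rw [e2, ← hA1]
    apply List.map_congr_left
    intro r _
    exact val_radsFit _ _ _
  intro S
  have hS : S = A1.map (fit s 0) := hval
  refine ⟨?_, ?_, ?_, ?_, ?_⟩
  · rw [hS, List.length_map, hI1]; exact hn1
  · rw [hS, List.length_map, hI1]; exact hnd
  · intro r hr
    rw [hS, List.mem_map] at hr
    obtain ⟨r', _, rfl⟩ := hr
    exact length_fit _ _ _
  · intro k _ _ T N hcsn hT hTD hT1 hT2 hTs
    have hRT : ∀ c ∈ cs, (mpol (rad (fb c))).map (algebraMap F k) =
        T.map (evalRingHom (algebraMap F k c)) := by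
      intro c hcm
      obtain ⟨e1, e2, e3, e4, _⟩ := hR' (fb c)
      apply rads_rad p rt hp hc hrt (fb c) (rad (fb c)) _ N (fb c).length e2 e3 e4 (hT.map _)
        (hTs c hcm)
      · rw [← rads_fibre]
        exact Polynomial.map_dvd _ hT1
      · rw [← rads_fibre, ← Polynomial.map_pow]
        exact Polynomial.map_dvd _ hT2
    have hRl : ∀ c ∈ cs, (rad (fb c)).length = T.natDegree := by
      intro c hcm
      have e3 := congrArg natDegree (hRT c hcm)
      rw [hT.natDegree_map, (rads_mpol_monic _).natDegree_map, rads_natDegree_mpol] at e3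
      exact e3
    have hTpos : 1 ≤ T.natDegree := by
      by_contra h
      have h4 : T.natDegree = 0 := by omega
      have h5 : T = 1 := hT.natDegree_eq_zero.1 h4
      rw [h5, one_pow] at hT2
      have h6 := natDegree_eq_zero_of_isUnit (isUnit_of_dvd_one hT2)
      rw [rads_bcp, rads_natDegree_mpol, List.length_map, hA] at h6
      omega
    have hnT : n = T.natDegree := by
      rcases cs with _ | ⟨c, cs⟩
      · simp at hcs
      · have e1 : (V1.headD []).length = T.natDegree := by
          simpa [hV1] using hRl c (by simp)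
        rw [hn, e1]
        exact max_eq_right hTpos
    have hVV : V2 = V1 := by
      rw [hV2, ← List.map_id V1, List.map_map]
      apply List.map_congr_left
      intro r hr
      simp only [hV1, List.mem_map] at hr
      obtain ⟨c, hcm, rfl⟩ := hr
      simp only [Function.comp, id]
      rw [hnT, ← hRl c hcm]
      exact rads_fit_self _ _
    have hTd : T.natDegree ≤ d := by rw [← hnT]; exact hnd
    rw [hS]
    refine rads_final d s cs (fun c => rad (fb c)) A1 T hcs hcsn hds hT hTD hTd hRT
      (by rw [hI1, hnT]) (by rw [← hcs]; exact hI2) ?_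
    intro i hi c hcm
    obtain ⟨j, hj, rfl⟩ := List.mem_iff_getElem.1 hcm
    have e1 := hI3 hcsn i (by rw [hnT]; exact hi) j hj
    rw [List.getD_eq_getElem _ _ hj] at e1
    rw [e1, hVV, hV1]
    have e5 : (List.map (fun c => rad (fb c)) cs).getD j [] = rad (fb cs[j]) := by
      rw [List.getD_eq_getElem _ _ (by rw [List.length_map]; exact hj), List.getElem_map]
    rw [e5]
  · -- the costs
    have c1 : wF.cost () () (A, cs) ≤ 135 * C2 * (s + 1) ^ 3 := by
      refine hF2.trans ?_
      have e1 := rads_ww (A.length + s + cs.length + 1)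
      have e2 : A.length + s + cs.length + 1 ≤ 3 * (s + 1) := by omega
      calc C2 * ww (A.length + s + cs.length + 1) ≤ C2 * (5 * (3 * (s + 1)) ^ 3) := by
            apply Nat.mul_le_mul_left
            exact e1.trans (Nat.mul_le_mul_left _ (Nat.pow_le_pow_left e2 3))
        _ = 135 * C2 * (s + 1) ^ 3 := by ring
    set L : ℕ := lgc (s + 1) ^ K with hL
    have hL1 : 1 ≤ L := Nat.one_le_pow _ _ (by unfold lgc; omega)
    have c2 : (mapP wR).cost (rt, ()) ((fun _ => 1), ()) (un p, cs.map fb) ≤
        (C1 * L * ((s + 1) ^ 2 + p) + 13) * (s + 1) + 5 := by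
      refine (cost_mapP_le wR (rt, ()) ((fun _ => 1), ()) (un p, cs.map fb)
        (C1 * L * ((s + 1) ^ 2 + p)) ?_).trans ?_
      · intro y hy
        simp only [List.mem_map] at hy
        obtain ⟨c, _, rfl⟩ := hy
        refine (hR' (fb c)).2.2.2.2.trans ?_
        have e1 : (fb c).length = d := by simp [hfb, hA]
        rw [e1]
        apply Nat.mul_le_mul
        · apply Nat.mul_le_mul_left
          exact Nat.pow_le_pow_left (rads_lgc (by omega)) K
        · apply Nat.add_le_add_right
          exact Nat.pow_le_pow_left (by omega) 2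
      · apply Nat.add_le_add_right
        apply Nat.mul_le_mul_left
        simp only [List.length_map]
        omega
    have c3 : (radsFirst : Pr RT Ma Un).cost (rt, ()) ((fun _ => 1), ()) V1 ≤ 14 * s + 30 := by
      refine (cost_radsFirst _ _ V1).trans ?_
      omega
    have c4 : (mapP (radsFit : Pr RT (.prod Un Po) Po)).cost (rt, ()) ((fun _ => 1), ())
        (un n, V1) ≤ (20 * s + 21) * s + 5 := by
      refine (cost_mapP_le (s := RT) radsFit (rt, ()) ((fun _ => 1), ()) (un n, V1) (20 * s + 8)
        ?_).trans ?_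
      · intro y _
        refine (cost_radsFit _ _ n y).trans ?_
        omega
      · apply Nat.add_le_add_right
        apply Nat.mul_le_mul_left
        simp only [hV1, List.length_map]
        omega
    have c5 : wI.cost () () (un n, (cs, V2)) ≤ 27 * C3 * (s + 1) ^ 3 := by
      refine hI4.trans ?_
      have e2 : cs.length + n + 1 ≤ 3 * (s + 1) := by omega
      calc C3 * (cs.length + n + 1) ^ 3 ≤ C3 * (3 * (s + 1)) ^ 3 := by
            apply Nat.mul_le_mul_left
            exact Nat.pow_le_pow_left e2 3
        _ = 27 * C3 * (s + 1) ^ 3 := by ring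
    have c6 : (mapP (radsFit : Pr RT (.prod Un Po) Po)).cost (rt, ()) ((fun _ => 1), ())
        (un s, A1) ≤ (20 * s + 21) * s + 5 := by
      refine (cost_mapP_le (s := RT) radsFit (rt, ()) ((fun _ => 1), ()) (un s, A1) (20 * s + 8)
        ?_).trans ?_
      · intro y _
        exact cost_radsFit _ _ s y
      · apply Nat.add_le_add_right
        apply Nat.mul_le_mul_left
        rw [hI1]
        omega
    have e1 : List.map ((fun y => wR.val (rt, ()) (un p, y)) ∘ fun a => A.map fun r => eval a (pol r)) cs
        = V1 := rfl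
    have e1' : List.map (fun y => wR.val (rt, ()) (un p, y)) (cs.map fb) = V1 := by
      rw [List.map_map]
      rfl
    have e2 : List.map (fun y => (radsFit : Pr RT (.prod Un Po) Po).val (rt, ()) (un n, y)) V1
        = V2 := by
      rw [hV2]
      apply List.map_congr_left
      intro r _
      exact val_radsFit _ _ _
    have e3 : (radsFirst : Pr RT Ma Un).val (rt, ()) V1 = un n := val_radsFirst _ _
    have hcost : (radsW wR wF wI).cost (rt, ()) ((fun _ => 1), ()) (un p, (cs, (un s, A))) ≤
        wF.cost () () (A, cs) +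
        (mapP wR).cost (rt, ()) ((fun _ => 1), ()) (un p, cs.map fb) +
        (radsFirst : Pr RT Ma Un).cost (rt, ()) ((fun _ => 1), ()) V1 +
        (mapP (radsFit : Pr RT (.prod Un Po) Po)).cost (rt, ()) ((fun _ => 1), ()) (un n, V1) +
        wI.cost () () (un n, (cs, V2)) +
        (mapP (radsFit : Pr RT (.prod Un Po) Po)).cost (rt, ()) ((fun _ => 1), ()) (un s, A1) +
        100 := by
      simp only [radsW, cost_lt, cost_comp, cost_pair, cost_fst, cost_snd, cost_liftP, val_comp,
        val_pair, val_fst, val_snd, val_liftP, val_mapP]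
      rw [hF1]
      simp only [← hfb, e1', e3, e2, ← hA1]
      omega
    refine hcost.trans ?_
    have hfin : C1 * L * ((s + 1) ^ 2 + p) * (s + 1) = C1 * (L * ((s + 1) ^ 3 + (s + 1) * p)) := by
      ring
    set Z : ℕ := (s + 1) ^ 3 + (s + 1) * p with hZ
    have hZ1 : (s + 1) ^ 3 ≤ Z := Nat.le_add_right _ _
    have hLZ : Z ≤ L * Z := Nat.le_mul_of_pos_left _ hL1
    have hs2 : (s + 1) ^ 2 ≤ (s + 1) ^ 3 := Nat.pow_le_pow_right (by omega) (by norm_num)
    have hs1 : (s + 1) ≤ (s + 1) ^ 3 := Nat.le_self_pow (by norm_num) _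
    have q1 : 135 * C2 * (s + 1) ^ 3 ≤ 135 * C2 * (L * Z) :=
      Nat.mul_le_mul_left _ (hZ1.trans hLZ)
    have q2 : 27 * C3 * (s + 1) ^ 3 ≤ 27 * C3 * (L * Z) :=
      Nat.mul_le_mul_left _ (hZ1.trans hLZ)
    have q3 : (20 * s + 21) * s ≤ 21 * (s + 1) ^ 2 := by nlinarith
    have q4 : (s + 1) ^ 3 ≤ L * Z := hZ1.trans hLZ
    have q5 : (C1 * L * ((s + 1) ^ 2 + p) + 13) * (s + 1) =
        C1 * (L * Z) + 13 * (s + 1) := by
      rw [add_mul, hfin]
    calc _ ≤ 135 * C2 * (L * Z) + (C1 * (L * Z) + 13 * (s + 1) + 5) + (14 * s + 30) +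
          (21 * (s + 1) ^ 2 + 5) + 27 * C3 * (L * Z) + (21 * (s + 1) ^ 2 + 5) + 100 := by
          rw [q5] at c2
          omega
      _ ≤ (C1 + 135 * C2 + 27 * C3) * (L * Z) + 300 * (L * Z) := by
          have q6 : (C1 + 135 * C2 + 27 * C3) * (L * Z) =
            C1 * (L * Z) + 135 * C2 * (L * Z) + 27 * C3 * (L * Z) := by ring
          rw [q6]
          omega
      _ = (C1 + 135 * C2 + 27 * C3 + 300) * (L * Z) := by ring

end Pool.Agent.H330AB.JK16
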