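import Pool.Agent.H330AB.SpecB2
set_option autoImplicit false
noncomputable section
namespace Pool.Agent.H330AB.JK17
open Polynomial Pool.Agent.H330FB

namespace KL

section prog
variable {F : Type} [Field F] [DecidableEq F]
variable {s : List (Ty × Ty)} {a b c d e g σ τ : Ty}

/-- `x + k y` -/
def ax {F : Type} [Field F] (k : F) (x y : List F) : List F :=
  List.zipWith (fun u w => u + k * w) x y

theorem ax_length {F : Type} [Field F] (k : F) (x y : List F) : (ax k x y).length ≤ x.length := by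
  unfold ax
  rw [List.length_zipWith]
  exact Nat.min_le_left _ _

/-- input `(k, (x, y))` -/
def axP : Pr s (.prod .fld (.prod Po Po)) Po :=
  zipP (c := .fld) (a := .fld) (b := .fld) (d := .fld)
    (ap2 .add (.comp .snd .fst) (ap2 .mul .fst (.comp .snd .snd)))

@[simp] theorem val_axP (v : SV F s) (x : Ty.D F (.prod .fld (.prod Po Po))) :
    (axP : Pr s (.prod .fld (.prod Po Po)) Po).val v x = ax x.1 x.2.1 x.2.2 := by
  simp only [axP, val_zipP, val_comp, val_pair, val_add, val_mul, val_fst, val_snd, ax]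

theorem cost_axP (v : SV F s) (k : SC F s) (x : Ty.D F (.prod .fld (.prod Po Po))) :
    (axP : Pr s (.prod .fld (.prod Po Po)) Po).cost v k x ≤ 60 * List.length x.2.1 + 15 := by
  have h := cost_zipP_le (s := s) (c := .fld) (a := .fld) (b := .fld) (d := .fld)
    (ap2 .add (.comp .snd .fst) (ap2 .mul .fst (.comp .snd .snd))) v k x 9
    (fun _ _ _ _ => by simp)
  unfold axP
  omega

/-- pairs -/
def prP : Pr s (.prod (.list a) (.list b)) (.list (.prod a b)) :=
  ap3 (zipP (c := .unit) (a := a) (b := b) (d := .prod a b) .snd) .star .fst .snd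

@[simp] theorem val_prP (v : SV F s) (x : Ty.D F (.prod (.list a) (.list b))) :
    (prP : Pr s (.prod (.list a) (.list b)) (.list (.prod a b))).val v x =
      List.zip (x.1 : List _) x.2 := by
  simp only [prP, val_zipP, val_comp, val_pair, val_fst, val_snd, val_star]
  rfl

theorem cost_prP (v : SV F s) (k : SC F s) (x : Ty.D F (.prod (.list a) (.list b))) :
    (prP : Pr s (.prod (.list a) (.list b)) (.list (.prod a b))).cost v k x ≤
      50 * List.length x.1 + 20 := by
  have h := cost_zipP_le (s := s) (c := .unit) (a := a) (b := b) (d := .prod a b) .snd v k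
    ((), (x.1, x.2)) 1 (fun _ _ _ _ => by simp)
  simp only [prP, cost_comp, cost_pair, cost_star, cost_fst, cost_snd, val_pair, val_star,
    val_fst, val_snd]
  simp only at h
  omega

/-- the kernel vector of a column with the label `v` and the coefficients `ks` -/
def kv {F : Type} [Field F] (n : ℕ) (P : List (List F)) (v ks : List F) : List F :=
  List.foldl (fun y z => ax (-z.2) y (fit n 0 z.1)) (fit n 0 v) (List.zip P ks)

/-- input `(N, (P, (v, ks)))` -/
def kvP : Pr s (.prod (.list b) (.prod Ma (.prod Po Po))) Po :=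
  ap3 (foldP (c := .list b) (b := Po) (a := .prod Po .fld)
      (ap3 axP (.comp (.comp (.comp .snd .snd) .snd) .neg) (.comp .snd .fst)
        (ap3 fitP .fst .zero (.comp (.comp .snd .snd) .fst))))
    .fst (ap3 fitP .fst .zero (.comp (.comp .snd .snd) .fst))
    (ap2 prP (.comp .snd .fst) (.comp (.comp .snd .snd) .snd))

@[simp] theorem val_kvP (v : SV F s) (x : Ty.D F (.prod (.list b) (.prod Ma (.prod Po Po)))) :
    (kvP : Pr s (.prod (.list b) (.prod Ma (.prod Po Po))) Po).val v x =
      kv (List.length x.1) x.2.1 x.2.2.1 x.2.2.2 := by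
  simp only [kvP, val_foldP, val_comp, val_pair, val_fst, val_snd, val_fitP, val_zero, val_prP,
    val_axP, val_neg, kv]

theorem cost_kvP (v : SV F s) (k : SC F s)
    (x : Ty.D F (.prod (.list b) (.prod Ma (.prod Po Po)))) :
    (kvP : Pr s (.prod (.list b) (.prod Ma (.prod Po Po))) Po).cost v k x ≤
      (80 * List.length x.1 + 130) * List.length x.2.1 + 20 * List.length x.1 + 60 := by
  obtain ⟨N, P, l, ks⟩ := x
  have h1 := cost_fitP (s := s) (b := b) (a := .fld) v k (N, ((0 : F), l))
  have h2 := cost_prP (s := s) (a := Po) (b := .fld) v k (P, ks)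
  have h3 := cost_foldP_le (s := s) (c := .list b) (b := Po) (a := .prod Po .fld)
      (ap3 axP (.comp (.comp (.comp .snd .snd) .snd) .neg) (.comp .snd .fst)
        (ap3 fitP .fst .zero (.comp (.comp .snd .snd) .fst))) v k
      (N, ((fit (List.length N) (0 : F) l), (List.zip P ks))) (80 * List.length N + 40)
      (fun y => List.length y ≤ List.length N) (by simp)
      (fun y z hy _ => by
        simp only [val_comp, val_pair, val_fst, val_snd, val_axP]
        exact (ax_length _ _ _).trans hy)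
      (fun y z hy _ => by
        have e1 := cost_axP (s := s) v k (-z.2, (y, fit (List.length N) (0 : F) z.1))
        have e2 := cost_fitP (s := s) (b := b) (a := .fld) v k (N, ((0 : F), z.1))
        simp only [cost_comp, cost_pair, cost_fst, cost_snd, cost_neg, cost_zero, val_comp,
          val_pair, val_fst, val_snd, val_neg, val_zero, val_fitP] at e1 e2 ⊢
        omega)
  have h4 : (List.zip P ks).length ≤ List.length P := by
    rw [List.length_zip]
    exact Nat.min_le_left _ _
  simp only [kvP, cost_comp, cost_pair, cost_fst, cost_snd, cost_zero, val_comp,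
    val_pair, val_fst, val_snd, val_zero, val_fitP, val_prP] at h1 h2 h3 ⊢
  nlinarith

/-- the combination -/
def cm {F : Type} [Field F] (n : ℕ) (P : List (List F)) (Fr : List (List F × List F))
    (c : List F) : List F :=
  List.foldl (fun y z => ax z.2 y (kv n P z.1.1 z.1.2)) (fit n 0 []) (List.zip Fr c)

/-- input `(N, (P, (Fr, c)))` -/
def cmP : Pr s (.prod (.list b) (.prod Ma (.prod (.list (.prod Po Po)) Po))) Po :=
  ap3 (foldP (c := .prod (.list b) Ma) (b := Po) (a := .prod (.prod Po Po) .fld)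
      (ap3 axP (.comp (.comp .snd .snd) .snd) (.comp .snd .fst)
        (.comp (.pair (.comp .fst .fst) (.pair (.comp .fst .snd) (.comp (.comp .snd .snd) .fst)))
          kvP)))
    (.pair .fst (.comp .snd .fst)) (ap3 fitP .fst .zero .nil)
    (ap2 prP (.comp (.comp .snd .snd) .fst) (.comp (.comp .snd .snd) .snd))

@[simp] theorem val_cmP (v : SV F s)
    (x : Ty.D F (.prod (.list b) (.prod Ma (.prod (.list (.prod Po Po)) Po)))) :
    (cmP : Pr s (.prod (.list b) (.prod Ma (.prod (.list (.prod Po Po)) Po))) Po).val v x =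
      cm (List.length x.1) x.2.1 x.2.2.1 x.2.2.2 := by
  simp only [cmP, val_foldP, val_comp, val_pair, val_fst, val_snd, val_fitP, val_zero, val_prP,
    val_axP, val_nil, val_kvP, cm]

theorem cost_cmP (v : SV F s) (k : SC F s)
    (x : Ty.D F (.prod (.list b) (.prod Ma (.prod (.list (.prod Po Po)) Po)))) :
    (cmP : Pr s (.prod (.list b) (.prod Ma (.prod (.list (.prod Po Po)) Po))) Po).cost v k x ≤
      ((80 * List.length x.1 + 130) * List.length x.2.1 + 80 * List.length x.1 + 250) *
        List.length x.2.2.1 + 20 * List.length x.1 + 60 := by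
  obtain ⟨N, P, Fr, c⟩ := x
  have h1 := cost_fitP (s := s) (b := b) (a := .fld) v k (N, ((0 : F), ([] : List F)))
  have h2 := cost_prP (s := s) (a := .prod Po Po) (b := .fld) v k (Fr, c)
  have h3 := cost_foldP_le (s := s) (c := .prod (.list b) Ma) (b := Po)
      (a := .prod (.prod Po Po) .fld)
      (ap3 axP (.comp (.comp .snd .snd) .snd) (.comp .snd .fst)
        (.comp (.pair (.comp .fst .fst) (.pair (.comp .fst .snd) (.comp (.comp .snd .snd) .fst)))
          kvP)) v k
      ((N, P), ((fit (List.length N) (0 : F) []), (List.zip Fr c)))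
      ((80 * List.length N + 130) * List.length P + 80 * List.length N + 100)
      (fun y => List.length y ≤ List.length N) (by simp)
      (fun y z hy _ => by
        simp only [val_comp, val_pair, val_fst, val_snd, val_axP]
        exact (ax_length _ _ _).trans hy)
      (fun y z hy _ => by
        have e1 := cost_axP (s := s) v k (z.2, (y, kv (List.length N) P z.1.1 z.1.2))
        have e2 := cost_kvP (s := s) (b := b) v k (N, (P, z.1))
        simp only [cost_comp, cost_pair, cost_fst, cost_snd, val_comp,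
          val_pair, val_fst, val_snd, val_kvP] at e1 e2 ⊢
        omega)
  have h4 : (List.zip Fr c).length ≤ List.length Fr := by
    rw [List.length_zip]
    exact Nat.min_le_left _ _
  simp only [cmP, cost_comp, cost_pair, cost_fst, cost_snd, cost_zero, cost_nil, val_comp,
    val_pair, val_fst, val_snd, val_zero, val_nil, val_fitP, val_prP] at h1 h2 h3 ⊢
  generalize (80 * List.length N + 130) * List.length P = A at *
  have h5 := Nat.mul_le_mul_left (A + 80 * List.length N + 100 + 27) h4
  have h6 : (A + 80 * List.length N + 250) * List.length Fr =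
    (A + 80 * List.length N + 100 + 27) * List.length Fr + 123 * List.length Fr := by ring
  omega

/-- input of the program for the columns -/
abbrev TSys : Ty := .prod Un (.prod (.prod Po Un) (.prod Un (.prod Ma (.prod Ma (.prod Po Ma)))))
/-- input -/
abbrev TIn : Ty :=
  .prod Un (.prod (.prod Po Un) (.prod Un (.prod Ma (.prod Ma (.prod Po (.prod Ma Po))))))

/-- `S` and the rest -/
def s3 : Pr s TIn (.prod Ma (.prod Ma (.prod Po (.prod Ma Po)))) := .comp (.comp .snd .snd) .snd

/-- rearrangement -/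
def reP : Pr s TIn TSys :=
  .pair .fst (.pair (.comp .snd .fst) (.pair (.comp (.comp .snd .snd) .fst)
    (.pair (.comp s3 .fst) (.pair (.comp (.comp s3 .snd) .fst)
      (.pair (.comp (.comp (.comp s3 .snd) .snd) .fst)
        (.comp (.comp (.comp (.comp s3 .snd) .snd) .snd) .fst))))))

theorem val_reP (v : SV F s) (r : List Unit) (be : List F × List Unit) (u : List Unit)
    (S G : List (List F)) (pl : List F) (g : List (List F)) (c : List F) :
    (reP : Pr s TIn TSys).val v (r, (be, (u, (S, (G, (pl, (g, c))))))) =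
      (r, (be, (u, (S, (G, (pl, g)))))) := rfl

theorem cost_reP (v : SV F s) (k : SC F s) (x : Ty.D F TIn) :
    (reP : Pr s TIn TSys).cost v k x = 34 := by
  simp only [reP, s3, cost_comp, cost_pair, cost_fst, cost_snd]

/-- the whole program -/
def mainP (wS : Pr RT TSys (.list (.prod Po Po)))
    (wK : Pr [] (.list (.prod Po Po)) (.prod (.list Po) (.list (.prod Po Po)))) :
    Pr RT TIn Po :=
  lt (.comp reP (.comp wS (liftP RT wK)))
    (.comp (.pair (.comp .fst (.comp s3 .fst)) (.pair (.comp .snd .fst) (.pair (.comp .snd .snd)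
      (.comp .fst (.comp (.comp (.comp (.comp s3 .snd) .snd) .snd) .snd))))) cmP)

theorem val_mainP (wS : Pr RT TSys (.list (.prod Po Po)))
    (wK : Pr [] (.list (.prod Po Po)) (.prod (.list Po) (.list (.prod Po Po))))
    (v : SV F RT) (r : List Unit) (be : List F × List Unit) (u : List Unit)
    (S G : List (List F)) (pl : List F) (g : List (List F)) (c : List F) :
    (mainP wS wK).val v (r, (be, (u, (S, (G, (pl, (g, c))))))) =
      cm S.length (wK.val () (wS.val v (r, (be, (u, (S, (G, (pl, g)))))))).1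
        (wK.val () (wS.val v (r, (be, (u, (S, (G, (pl, g)))))))).2 c := by
  simp only [mainP, val_lt, val_comp, val_pair, val_liftP, val_cmP, val_fst, val_snd, s3]
  rfl

theorem cost_mainP (wS : Pr RT TSys (.list (.prod Po Po)))
    (wK : Pr [] (.list (.prod Po Po)) (.prod (.list Po) (.list (.prod Po Po))))
    (v : SV F RT) (k : SC F RT) (r : List Unit) (be : List F × List Unit) (u : List Unit)
    (S G : List (List F)) (pl : List F) (g : List (List F)) (c : List F) :
    (mainP wS wK).cost v k (r, (be, (u, (S, (G, (pl, (g, c))))))) ≤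
      wS.cost v k (r, (be, (u, (S, (G, (pl, g)))))) +
      wK.cost () () (wS.val v (r, (be, (u, (S, (G, (pl, g))))))) +
      (((80 * S.length + 130) *
          List.length (wK.val () (wS.val v (r, (be, (u, (S, (G, (pl, g)))))))).1 +
          80 * S.length + 250) *
        List.length (wK.val () (wS.val v (r, (be, (u, (S, (G, (pl, g)))))))).2 +
        20 * S.length) + 200 := by
  have h := cost_cmP (s := RT) (b := .list .fld) v k
    (S, ((wK.val () (wS.val v (r, (be, (u, (S, (G, (pl, g)))))))).1,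
      ((wK.val () (wS.val v (r, (be, (u, (S, (G, (pl, g)))))))).2, c)))
  have e : (reP : Pr RT TIn TSys).val v (r, (be, (u, (S, (G, (pl, (g, c))))))) =
      (r, (be, (u, (S, (G, (pl, g)))))) := rfl
  simp only [mainP, cost_lt, cost_comp, cost_pair, cost_liftP, cost_reP, cost_fst, cost_snd,
    val_comp, val_pair, val_liftP, val_fst, val_snd, s3] at h ⊢
  rw [e]
  omega

end prog

section aux
variable {F k : Type} [Field F] [Field k] [Algebra F k]

/-- the column as a vector over `k` -/
def free_kv (k : Type) [Field k] [Algebra F k] (R : ℕ) (c : List F) : Fin R → k :=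
  fun m => algebraMap F k (c.getD (m : ℕ) 0)

/-- the column as a vector over `F` -/
def free_fv (R : ℕ) (c : List F) : Fin R → F := fun m => c.getD (m : ℕ) 0

/-- extension by zero -/
def free_ext (F : Type) [Field F] (R : ℕ) : (Fin R → F) →ₗ[F] (ℕ → F) where
  toFun f := fun m => if h : m < R then f ⟨m, h⟩ else 0
  map_add' f g := by
    funext m
    by_cases h : m < R <;> simp [h]
  map_smul' c f := by
    funext m
    by_cases h : m < R <;> simp [h]

theorem free_cvec (R : ℕ) (c : List F) (h : c.length = R) : cvec c = free_ext F R (free_fv R c) := by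
  funext m
  by_cases hm : m < R
  · simp [cvec, free_ext, free_fv, hm]
  · have : c.getD m 0 = 0 := by
      rw [List.getD_eq_default]
      omega
    simp only [cvec, free_ext, LinearMap.coe_mk, AddHom.coe_mk, hm, dif_neg, not_false_eq_true]
    exact this

theorem free_rank {α : Type} (R : ℕ) (cs P' : List (α × List F)) (Fr' : List ((α × List F) × List F))
    (hlen : ∀ x ∈ cs, x.2.length = R)
    (hperm : (P' ++ Fr'.map Prod.fst).Perm cs)
    (hli : LinearIndependent F (fun k : Fin P'.length => cvec (P'.get k).2))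
    (hco : ∀ x ∈ Fr', x.2.length = P'.length ∧
      cvec x.1.2 = ∑ k : Fin P'.length, x.2.getD k 0 • cvec (P'.get k).2) :
    Module.finrank k (Submodule.span k {w : Fin R → k | ∃ x ∈ cs, w = free_kv k R x.2}) =
      P'.length := by
  have hPcs : ∀ i : Fin P'.length, P'.get i ∈ cs := fun i =>
    hperm.mem_iff.1 (List.mem_append_left _ (List.get_mem _ _))
  have hF : LinearIndependent F (fun i : Fin P'.length => free_fv R (P'.get i).2) := by
    apply LinearIndependent.of_comp (free_ext F R)
    have e : (free_ext F R) ∘ (fun i : Fin P'.length => free_fv R (P'.get i).2) =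
        fun k : Fin P'.length => cvec (P'.get k).2 := by
      funext i
      rw [Function.comp_apply, free_cvec R _ (hlen _ (hPcs i))]
    rw [e]
    exact hli
  have hk : LinearIndependent k (fun i : Fin P'.length => free_kv k R (P'.get i).2) :=
    linearIndependent_algebraMap_comp_iff.2 hF
  have hspan : Submodule.span k {w : Fin R → k | ∃ x ∈ cs, w = free_kv k R x.2} =
      Submodule.span k (Set.range (fun i : Fin P'.length => free_kv k R (P'.get i).2)) := by
    apply le_antisymm
    · rw [Submodule.span_le]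
      rintro w ⟨x, hx, rfl⟩
      rcases List.mem_append.1 (hperm.mem_iff.2 hx) with hx | hx
      · obtain ⟨i, rfl⟩ := List.get_of_mem hx
        exact Submodule.subset_span ⟨i, rfl⟩
      · obtain ⟨y, hy, rfl⟩ := List.mem_map.1 hx
        have h1 := (hco y hy).2
        have h2 : free_kv k R y.1.2 = ∑ i : Fin P'.length,
            algebraMap F k (y.2.getD (i : ℕ) 0) • free_kv k R (P'.get i).2 := by
          funext m
          have h3 := congrFun h1 (m : ℕ)
          have h4 : cvec y.1.2 (m : ℕ) = y.1.2.getD (m : ℕ) 0 := rfl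
          rw [h4, Finset.sum_apply] at h3
          rw [Finset.sum_apply]
          show algebraMap F k (y.1.2.getD (m : ℕ) 0) = _
          rw [h3, map_sum]
          refine Finset.sum_congr rfl fun i _ => ?_
          rw [Pi.smul_apply, Pi.smul_apply, smul_eq_mul, smul_eq_mul, map_mul]
          rfl
        show free_kv k R y.1.2 ∈ _
        rw [h2]
        refine Submodule.sum_mem _ fun i _ => Submodule.smul_mem _ _ ?_
        exact Submodule.subset_span ⟨i, rfl⟩
    · rw [Submodule.span_le]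
      rintro w ⟨i, rfl⟩
      exact Submodule.subset_span ⟨P'.get i, hPcs i, rfl⟩
  rw [hspan, finrank_span_eq_card hk, Fintype.card_fin]

end aux

theorem free : StmtFree := by
  intro F k _ _ _ p e s n S φ G a g tc lc P Fr hR hG htc hlc hsys hKer
  obtain ⟨P', Fr', -, hFr, hperm, -, hli, hco, -⟩ := hKer
  obtain ⟨R, hRd⟩ : ∃ R, R = nrow n s := ⟨_, rfl⟩
  rw [← hRd] at htc hlc hsys
  obtain ⟨cs, hcs⟩ : ∃ cs : List (List F × List F), cs = List.ofFn (fun j => (([] : List F), tc j)) ++
    List.ofFn (fun j => (uvec F n j, lc j)) := ⟨_, rfl⟩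
  rw [← hcs] at hperm
  have hmem : ∀ x, x ∈ cs ↔ (∃ j, x = (([] : List F), tc j)) ∨ ∃ j : Fin n, x = (uvec F n j, lc j) := by
    intro x
    rw [hcs, List.mem_append, List.mem_ofFn, List.mem_ofFn]
    simp only [eq_comm]
  have hlen : ∀ x ∈ cs, x.2.length = R := by
    intro x hx
    rcases (hmem x).1 hx with ⟨j, rfl⟩ | ⟨j, rfl⟩
    · exact htc j
    · exact hlc j
  have hrank := free_rank (k := k) R cs P' Fr' hlen hperm hli hco
  have hcard : P'.length + Fr'.length = n + n := by
    have h1 := hperm.length_eq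
    rw [hcs] at h1
    simpa using h1
  -- the linear map
  obtain ⟨col, hcol⟩ : ∃ col : Fin n ⊕ Fin n → (Fin R → k), col = Sum.elim
    (fun j => free_kv k R (tc j)) (fun j => free_kv k R (lc j)) := ⟨_, rfl⟩
  obtain ⟨Φ, hΦ⟩ : ∃ Φ : (Fin n ⊕ Fin n → k) →ₗ[k] (Fin R → k),
    Φ = Fintype.linearCombination k col := ⟨_, rfl⟩
  have hrange : LinearMap.range Φ =
      Submodule.span k {w : Fin R → k | ∃ x ∈ cs, w = free_kv k R x.2} := by
    rw [hΦ, Fintype.range_linearCombination]
    congr 1
    ext w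
    constructor
    · rintro ⟨i, rfl⟩
      rcases i with j | j
      · exact ⟨_, (hmem _).2 (Or.inl ⟨j, rfl⟩), by rw [hcol]; rfl⟩
      · exact ⟨_, (hmem _).2 (Or.inr ⟨j, rfl⟩), by rw [hcol]; rfl⟩
    · rintro ⟨x, hx, rfl⟩
      rcases (hmem x).1 hx with ⟨j, rfl⟩ | ⟨j, rfl⟩
      · exact ⟨Sum.inl j, by rw [hcol]; rfl⟩
      · exact ⟨Sum.inr j, by rw [hcol]; rfl⟩
  have hkerd : Module.finrank k (LinearMap.ker Φ) = Fr'.length := by
    have h1 := LinearMap.finrank_range_add_finrank_ker Φ
    rw [hrange, hrank, Module.finrank_fintype_fun_eq_card, Fintype.card_sum, Fintype.card_fin] at h1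
    omega
  have hΦa : ∀ u m, Φ u m = ∑ j, u (Sum.inl j) * algebraMap F k ((tc j).getD (m : ℕ) 0) +
      ∑ j, u (Sum.inr j) * algebraMap F k ((lc j).getD (m : ℕ) 0) := by
    intro u m
    rw [hΦ, Fintype.linearCombination_apply, Fintype.sum_sum_type, Pi.add_apply,
      Finset.sum_apply, Finset.sum_apply, hcol]
    rfl
  -- the Vandermonde matrix
  obtain ⟨α, hα⟩ : ∃ α : Fin n → k, α = fun i => PowerSeries.constantCoeff (φ i) := ⟨_, rfl⟩
  have hαi : Function.Injective α := by rw [hα]; exact hR.inj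
  have hdet : IsUnit (Matrix.vandermonde α).det :=
    isUnit_iff_ne_zero.2 (Matrix.det_vandermonde_ne_zero_iff.2 hαi)
  have hV : ∀ l : Fin n → k, (Matrix.vandermonde α).mulVec l =
      fun i => ∑ j : Fin n, l j * PowerSeries.constantCoeff (φ i) ^ (j : ℕ) := by
    intro l
    funext i
    simp only [Matrix.mulVec, dotProduct, Matrix.vandermonde_apply, hα]
    exact Finset.sum_congr rfl fun j _ => mul_comm _ _
  have hsys2 : ∀ u, u ∈ LinearMap.ker Φ ↔ SysP s (p ^ e) S φ G a g
      ((Matrix.vandermonde α).mulVec (fun j => u (Sum.inr j))) (fun j => u (Sum.inl j)) := by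
    intro u
    rw [hV, ← hsys, LinearMap.mem_ker]
    constructor
    · intro h m hm
      have := congrFun h ⟨m, hm⟩
      rw [hΦa] at this
      exact this
    · intro h
      funext m
      rw [hΦa]
      exact h m m.2
  obtain ⟨-, hG2, hG3, hG4⟩ := hG
  -- the map to constant vectors
  obtain ⟨Ψ, hΨ⟩ : ∃ Ψ : (LinearMap.ker Φ) →ₗ[k] (Fin n → k), ∀ u, Ψ u =
      (Matrix.vandermonde α).mulVec (fun j => u.1 (Sum.inr j)) :=
    ⟨(Matrix.mulVecLin (Matrix.vandermonde α)) ∘ₗ (LinearMap.funLeft k k Sum.inr) ∘ₗ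
      (LinearMap.ker Φ).subtype, fun u => rfl⟩
  have hVinj : ∀ l, (Matrix.vandermonde α).mulVec l = 0 → l = 0 := by
    intro l hl
    have h1 : (Matrix.vandermonde α)⁻¹.mulVec ((Matrix.vandermonde α).mulVec l) = l := by
      rw [Matrix.mulVec_mulVec, Matrix.nonsing_inv_mul _ hdet, Matrix.one_mulVec]
    rw [← h1, hl, Matrix.mulVec_zero]
  have hinj : Function.Injective Ψ := by
    rw [← LinearMap.ker_eq_bot, Submodule.eq_bot_iff]
    intro u hu
    rw [LinearMap.mem_ker, hΨ] at hu
    have h1 := hVinj _ hu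
    have h2 := (hsys2 u.1).1 u.2
    rw [hu] at h2
    have h3 := hG4 _ h2
    apply Subtype.ext
    funext i
    rcases i with j | j
    · exact congrFun h3 j
    · exact congrFun h1 j
  have hrg : {l | Cst S φ l} = (LinearMap.range Ψ : Set (Fin n → k)) := by
    ext l
    constructor
    · intro hl
      obtain ⟨τ, hτ⟩ := hG3 l hl
      obtain ⟨l', hl'⟩ : ∃ l', l' = (Matrix.vandermonde α)⁻¹.mulVec l := ⟨_, rfl⟩
      have h1 : (Matrix.vandermonde α).mulVec l' = l := by
        rw [hl', Matrix.mulVec_mulVec, Matrix.mul_nonsing_inv _ hdet, Matrix.one_mulVec]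
      have h2 : Sum.elim τ l' ∈ LinearMap.ker Φ := by
        rw [hsys2]
        simp only [Sum.elim_inr, Sum.elim_inl]
        rw [show (fun j => l' j) = l' from rfl, h1]
        exact hτ
      exact ⟨⟨_, h2⟩, by rw [hΨ]; exact h1⟩
    · rintro ⟨u, rfl⟩
      show Cst S φ (Ψ u)
      rw [hΨ]
      exact hG2 _ _ ((hsys2 u.1).1 u.2)
  rw [hrg, Submodule.span_eq, LinearMap.finrank_range_of_inj hinj, hkerd, hFr, List.length_map]


section irrCst
variable {k : Type} [Field k] {n : ℕ} {S : k[X][X]} {φ : Fin n → PowerSeries k}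

theorem ic_ev_eq (ψ : PowerSeries k) (G : k[X][X]) :
    ev ψ G = (G.map Polynomial.coeToPowerSeries.ringHom).eval ψ := by
  rw [ev, eval₂_eq_eval_map]

theorem ic_ev_mul (ψ : PowerSeries k) (G H : k[X][X]) : ev ψ (G * H) = ev ψ G * ev ψ H := by
  simp only [ev, eval₂_mul]

theorem ic_ev_S (h : Rts S φ) (i : Fin n) : ev (φ i) S = 0 := by
  rw [ic_ev_eq, h.prod, eval_prod]
  exact Finset.prod_eq_zero (Finset.mem_univ i) (by simp)

theorem ic_inj (h : Rts S φ) : Function.Injective φ := fun i j hij => h.inj (by simp only [hij])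

theorem ic_deriv (h : Rts S φ) (i : Fin n) :
    (derivative (S.map Polynomial.coeToPowerSeries.ringHom)).eval (φ i) ≠ 0 := by
  rw [h.prod, derivative_prod_finset, eval_finsetSum, Finset.sum_eq_single i]
  · rw [eval_mul, eval_prod]
    simp only [derivative_sub, derivative_X, derivative_C, sub_zero, eval_one, mul_one, eval_sub,
      eval_X, eval_C]
    refine Finset.prod_ne_zero_iff.2 fun j hj => ?_
    rw [Finset.mem_erase] at hj
    exact sub_ne_zero.2 fun e => hj.1 (ic_inj h e.symm)
  · intro j _ hji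
    rw [eval_mul, eval_prod]
    have : ∏ x ∈ Finset.univ.erase j, eval (φ i) (X - C (φ x)) = 0 :=
      Finset.prod_eq_zero (Finset.mem_erase.2 ⟨hji.symm, Finset.mem_univ i⟩) (by simp)
    rw [this, zero_mul]
  · intro hi
    exact absurd (Finset.mem_univ i) hi

/-- simple roots -/
theorem ic_simple (h : Rts S φ) (i : Fin n) {g q : k[X][X]} (hS : S = g * q)
    (h1 : ev (φ i) g = 0) (h2 : ev (φ i) q = 0) : False := by
  apply ic_deriv h i
  rw [hS, Polynomial.map_mul, derivative_mul, eval_add, eval_mul, eval_mul, ← ic_ev_eq,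
    ← ic_ev_eq, h1, h2, mul_zero, zero_mul, add_zero]

theorem ic_dvd (h : Rts S φ) (i : Fin n) {g g' : k[X][X]} (hg : g ∣ S) (hg' : g' ∣ S)
    (hi' : Irreducible g) (hi : Irreducible g') (h1 : ev (φ i) g = 0) (h2 : ev (φ i) g' = 0)
    (j : Fin n) (hj : ev (φ j) g' = 0) : ev (φ j) g = 0 := by
  obtain ⟨q, hq⟩ := hg
  have hp : Prime g' := hi.prime
  rcases hp.dvd_or_dvd (hq ▸ hg') with hd | hd
  · obtain ⟨u, hu⟩ := hd
    rw [hu, ic_ev_mul, hj, zero_mul]
  · obtain ⟨u, hu⟩ := hd
    exact (ic_simple h i hq h1 (by rw [hu, ic_ev_mul, h2, zero_mul])).elim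

theorem ic_roots (h : Rts S φ) {g : k[X][X]} (hd : g.natDegree < n)
    (hr : ∀ i, ev (φ i) g = 0) : g = 0 := by
  have h0 : g.map (Polynomial.coeToPowerSeries.ringHom (R := k)) = 0 := by
    refine Polynomial.eq_zero_of_natDegree_lt_card_of_eval_eq_zero _ (ic_inj h) ?_ ?_
    · intro i
      rw [← ic_ev_eq]
      exact hr i
    · rw [Fintype.card_fin]
      exact lt_of_le_of_lt natDegree_map_le hd
  have hinj : Function.Injective (Polynomial.coeToPowerSeries.ringHom (R := k)) := by
    intro a b hab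
    exact Polynomial.coe_injective k hab
  exact (Polynomial.map_eq_zero_iff hinj).1 h0

end irrCst



section math
variable {F k : Type} [Field F] [Field k] [Algebra F k]

theorem fit_getD {F : Type} [Field F] (n : ℕ) (l : List F) (i : ℕ) (hi : i < n) :
    (fit n 0 l).getD i 0 = l.getD i 0 := by
  induction n generalizing l i with
  | zero => omega
  | succ n ih =>
    cases l with
    | nil =>
      cases i with
      | zero => rfl
      | succ i =>
        have := ih [] i (by omega)
        simpa [fit] using this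
    | cons x l =>
      cases i with
      | zero => rfl
      | succ i =>
        have := ih l i (by omega)
        simpa [fit] using this

theorem ofFn_getD {F : Type} [Field F] (n : ℕ) (g : Fin n → F) (i : Fin n) :
    (List.ofFn g).getD i 0 = g i := by
  simp

theorem ax_getD {F : Type} [Field F] (z : F) (x y : List F) (i : ℕ) (hi : i < x.length)
    (hj : i < y.length) : (ax z x y).getD i 0 = x.getD i 0 + z * y.getD i 0 := by
  simp [ax, List.getD_eq_getElem?_getD, hi, hj]

theorem fold_ax {F : Type} [Field F] (n : ℕ) (L : List (List F × F)) (h : ∀ z ∈ L, z.1.length = n)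
    (y : List F) (hy : y.length = n) :
    List.foldl (fun y z => ax z.2 y z.1) y L =
      List.ofFn (fun i : Fin n => y.getD i 0 + (L.map (fun z => z.2 * z.1.getD i 0)).sum) := by
  induction L generalizing y with
  | nil =>
    simp only [List.foldl_nil, List.map_nil, List.sum_nil, add_zero]
    apply List.ext_getElem
    · simp [hy]
    · intro i h1 h2
      simp [h1]
  | cons z L ih =>
    have hz := h z (by simp)
    rw [List.foldl_cons, ih (fun z hz => h z (by simp [hz])) _ (by
      unfold ax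
      rw [List.length_zipWith, hy, hz, Nat.min_self])]
    congr 1
    funext i
    rw [ax_getD _ _ _ _ (by omega) (by omega), List.map_cons, List.sum_cons]
    ring

theorem kv_eq {F : Type} [Field F] (n : ℕ) (P : List (List F)) (v ks : List F) :
    kv n P v ks = List.ofFn (fun i : Fin n => (fit n 0 v).getD i 0 +
      ((List.zip P ks).map (fun z => -z.2 * (fit n 0 z.1).getD i 0)).sum) := by
  have h := fold_ax n ((List.zip P ks).map (fun z => (fit n 0 z.1, -z.2))) (by
    intro z hz
    obtain ⟨w, _, rfl⟩ := List.mem_map.1 hz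
    simp) (fit n 0 v) (by simp)
  rw [List.foldl_map] at h
  simp only [List.map_map] at h
  exact h

theorem cm_eq {F : Type} [Field F] (n : ℕ) (P : List (List F)) (Fr : List (List F × List F))
    (c : List F) :
    cm n P Fr c = List.ofFn (fun i : Fin n =>
      ((List.zip Fr c).map (fun z => z.2 * (kv n P z.1.1 z.1.2).getD i 0)).sum) := by
  have h := fold_ax n ((List.zip Fr c).map (fun z => (kv n P z.1.1 z.1.2, z.2))) (by
    intro z hz
    obtain ⟨w, _, rfl⟩ := List.mem_map.1 hz
    rw [kv_eq]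
    simp) (fit n 0 []) (by simp)
  rw [List.foldl_map] at h
  simp only [List.map_map] at h
  refine Eq.trans h ?_
  congr 1
  funext i
  rw [fit_getD _ _ _ i.2]
  simp [Function.comp_def]

theorem zip_ofFn {α β : Type} (m : ℕ) (L : List α) (M : List β) (z : β)
    (hm : m = min L.length M.length) (hL : ∀ b : Fin m, (b : ℕ) < L.length) :
    List.zip L M = List.ofFn (fun b : Fin m => (L.get ⟨b, hL b⟩, M.getD b z)) := by
  apply List.ext_getElem
  · simp [hm]
  · intro i h1 h2
    have h3 : i < M.length := by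
      rw [List.length_zip] at h1
      omega
    simp [h3]

theorem cm_sum {F : Type} [Field F] (n m : ℕ) (P : List (List F)) (Fr : List (List F × List F))
    (c : List F) (hc : c.length = n) (hm : m = min Fr.length n)
    (hL : ∀ b : Fin m, (b : ℕ) < Fr.length) :
    cm n P Fr c = List.ofFn (fun i : Fin n => ∑ b : Fin m, c.getD b 0 *
      (kv n P (Fr.get ⟨b, hL b⟩).1 (Fr.get ⟨b, hL b⟩).2).getD i 0) := by
  rw [cm_eq]
  congr 1
  funext i
  rw [zip_ofFn m Fr c 0 (by rw [hc]; exact hm) hL, List.map_ofFn, List.sum_ofFn]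
  rfl

theorem kv_getD {F : Type} [Field F] (n : ℕ) (P' : List (List F × List F)) (v ks : List F)
    (hk : ks.length = P'.length) (i : ℕ) (hi : i < n) :
    (kv n (P'.map Prod.fst) v ks).getD i 0 = (fit n 0 v).getD i 0 -
      ∑ q : Fin P'.length, ks.getD q 0 * (fit n 0 (P'.get q).1).getD i 0 := by
  rw [kv_eq]
  have h1 := ofFn_getD n (fun i : Fin n => (fit n 0 v).getD i 0 +
      ((List.zip (P'.map Prod.fst) ks).map (fun z => -z.2 * (fit n 0 z.1).getD i 0)).sum) ⟨i, hi⟩
  simp only at h1
  rw [h1, sub_eq_add_neg, ← Finset.sum_neg_distrib]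
  congr 1
  rw [zip_ofFn P'.length (P'.map Prod.fst) ks 0 (by simp [hk]) (fun b => by simp),
    List.map_ofFn, List.sum_ofFn]
  refine Finset.sum_congr rfl fun q _ => ?_
  simp

theorem uvec_getD {F : Type} [Field F] (n j : ℕ) (i : ℕ) (hi : i < n) :
    (uvec F n j).getD i 0 = if i = j then (1 : F) else 0 := by
  simp [uvec, List.getD_eq_getElem?_getD, hi]

/-- the elements of the list of columns -/
def cf {F : Type} [Field F] {n : ℕ} (tc lc : Fin n → List F) : Fin n ⊕ Fin n → List F × List F :=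
  Sum.elim (fun j => (([] : List F), tc j)) (fun j => (uvec F n j, lc j))

theorem cf_label {n : ℕ} (tc lc : Fin n → List F) (c : Fin n ⊕ Fin n) (j : Fin n) :
    algebraMap F k ((fit n 0 (cf tc lc c).1).getD j 0) =
      (Pi.single c (1 : k) : Fin n ⊕ Fin n → k) (Sum.inr j) := by
  classical
  rw [fit_getD _ _ _ j.2]
  rcases c with i | i
  · simp [cf]
  · simp only [cf, Sum.elim_inr]
    rw [uvec_getD _ _ _ j.2, Pi.single_apply]
    by_cases h : j = i
    · subst h
      simp
    · have h' : ¬ (j : ℕ) = i := fun e => h (Fin.ext e)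
      simp [h, h']

theorem split_perm {α β : Type} (f : α → β) (P M : List β) (L : List α)
    (h : (P ++ M).Perm (L.map f)) :
    ∃ A B : List α, A.map f = P ∧ B.map f = M ∧ (A ++ B).Perm L := by
  have h1 := congrFun (congrFun (List.eq_map_comp_perm f) (P ++ M)) L
  obtain ⟨C, h2, h3⟩ := h1.mpr h
  obtain ⟨A, B, rfl, h4, h5⟩ := List.map_eq_append_iff.1 h2.symm
  exact ⟨A, B, h4, h5, h3⟩


theorem blk_refl {n : ℕ} {S : k[X][X]} {φ : Fin n → PowerSeries k} (h : Rts S φ) (i : Fin n) :
    Blk S φ i i := by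
  have hS0 : S ≠ 0 := h.monic.ne_zero
  obtain ⟨f, hf, hfS⟩ := WfDvdMonoid.exists_factors S hS0
  obtain ⟨u, hu⟩ := hfS
  have h1 : ev (φ i) S = 0 := ic_ev_S h i
  have hev : ∀ G : k[X][X], ev (φ i) G =
      (eval₂RingHom (Polynomial.coeToPowerSeries.ringHom (R := k)) (φ i)) G := fun _ => rfl
  have h2 : ev (φ i) f.prod = 0 := by
    have h3 : f.prod = S * ((u⁻¹ : (k[X][X])ˣ) : k[X][X]) := by
      rw [← hu, mul_assoc, Units.mul_inv, mul_one]
    rw [h3, ic_ev_mul, h1, zero_mul]
  rw [hev, map_multiset_prod, Multiset.prod_eq_zero_iff, Multiset.mem_map] at h2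
  obtain ⟨g, hg, hg0⟩ := h2
  refine ⟨g, hf g hg, ?_, hg0, hg0⟩
  rw [← hu]
  exact Dvd.dvd.mul_right (Multiset.dvd_prod hg) _

theorem cst_ind {n : ℕ} {S : k[X][X]} {φ : Fin n → PowerSeries k} (h : Rts S φ) (i : Fin n)
    [DecidablePred (fun j => Blk S φ i j)] :
    Cst S φ (fun j => if Blk S φ i j then (1 : k) else 0) := by
  have key : ∀ j j', Blk S φ j j' → Blk S φ i j → Blk S φ i j' := by
    rintro j j' ⟨g, hg, hgS, h1, h2⟩ ⟨g', hg', hgS', h3, h4⟩
    refine ⟨g', hg', hgS', h3, ?_⟩
    exact ic_dvd h j hgS' hgS hg' hg h4 h1 j' h2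
  intro j j' hjj
  have hs : Blk S φ j' j := by
    obtain ⟨g, hg, hgS, h1, h2⟩ := hjj
    exact ⟨g, hg, hgS, h2, h1⟩
  by_cases hj : Blk S φ i j
  · have hj' := key j j' hjj hj
    simp [hj, hj']
  · have hj' : ¬ Blk S φ i j' := fun h' => hj (key j' j hs h')
    simp [hj, hj']

theorem sep {p e s n : ℕ} {S : k[X][X]} {φ : Fin n → PowerSeries k} {G : Fin n → Fin n → k}
    {a : Fin n → k} {g : Fin n → Fin n → k} {tc lc : Fin n → List F} (hR : Rts S φ)
    (hG : GoodP s (p ^ e) S φ G a g)
    (htc : ∀ j, (tc j).length = nrow n s) (hlc : ∀ j, (lc j).length = nrow n s)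
    (hsys : ∀ l τ : Fin n → k,
      (∀ m < nrow n s, ∑ j, τ j * algebraMap F k ((tc j).getD m 0) +
        ∑ j, l j * algebraMap F k ((lc j).getD m 0) = 0) ↔
      SysP s (p ^ e) S φ G a g
        (fun i => ∑ j : Fin n, l j * PowerSeries.constantCoeff (φ i) ^ (j : ℕ)) τ)
    (P' : List (List F × List F)) (Fr' : List ((List F × List F) × List F))
    (hperm : (P' ++ Fr'.map Prod.fst).Perm (List.ofFn (fun j => (([] : List F), tc j)) ++
      List.ofFn (fun j : Fin n => (uvec F n j, lc j))))
    (hli : LinearIndependent F (fun k : Fin P'.length => cvec (P'.get k).2))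
    (hco : ∀ x ∈ Fr', x.2.length = P'.length ∧
      cvec x.1.2 = ∑ k : Fin P'.length, x.2.getD k 0 • cvec (P'.get k).2) :
    (∀ x ∈ Fr', Cst S φ (fun i => ∑ j : Fin n,
      algebraMap F k ((kv n (P'.map Prod.fst) x.1.1 x.2).getD j 0) *
        PowerSeries.constantCoeff (φ i) ^ (j : ℕ))) ∧
    ∀ i i', ¬ Blk S φ i i' → ∃ x ∈ Fr', ∑ j : Fin n,
      algebraMap F k ((kv n (P'.map Prod.fst) x.1.1 x.2).getD j 0) *
        PowerSeries.constantCoeff (φ i) ^ (j : ℕ) ≠ ∑ j : Fin n,
      algebraMap F k ((kv n (P'.map Prod.fst) x.1.1 x.2).getD j 0) *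
        PowerSeries.constantCoeff (φ i') ^ (j : ℕ) := by
  classical
  obtain ⟨R, hRd⟩ : ∃ R, R = nrow n s := ⟨_, rfl⟩
  rw [← hRd] at htc hlc hsys
  obtain ⟨L0, hL0⟩ : ∃ L0 : List (Fin n ⊕ Fin n), L0 = List.ofFn (fun j : Fin n => Sum.inl j) ++
    List.ofFn (fun j : Fin n => Sum.inr j) := ⟨_, rfl⟩
  have hcs : List.ofFn (fun j => (([] : List F), tc j)) ++
      List.ofFn (fun j : Fin n => (uvec F n j, lc j)) = L0.map (cf tc lc) := by
    rw [hL0, List.map_append, List.map_ofFn, List.map_ofFn]
    rfl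
  rw [hcs] at hperm
  obtain ⟨A, Bl, hA, hB, hperm'⟩ := split_perm (cf tc lc) P' (Fr'.map Prod.fst) L0 hperm
  have hmem : ∀ c, c ∈ A ∨ c ∈ Bl := by
    intro c
    have : c ∈ A ++ Bl := hperm'.mem_iff.2 (by
      rw [hL0, List.mem_append, List.mem_ofFn, List.mem_ofFn]
      rcases c with j | j <;> simp)
    exact List.mem_append.1 this
  have hlen : ∀ c, (cf tc lc c).2.length = R := by
    intro c
    rcases c with j | j
    · exact htc j
    · exact hlc j
  subst hA
  obtain ⟨A', hA'⟩ : ∃ A' : Fin (A.map (cf tc lc)).length → Fin n ⊕ Fin n,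
      ∀ q, (A.map (cf tc lc)).get q = cf tc lc (A' q) ∧ ∀ c ∈ A, ∃ q, A' q = c := by
    refine ⟨fun q => A.get ⟨q, by simpa using q.2⟩, fun q => ⟨by simp, fun c hc => ?_⟩⟩
    obtain ⟨i, rfl⟩ := List.get_of_mem hc
    exact ⟨⟨i, by simp⟩, rfl⟩
  have hA1 : ∀ q, (A.map (cf tc lc)).get q = cf tc lc (A' q) := fun q => (hA' q).1
  have hA2 : ∀ c ∈ A, ∃ q, A' q = c := by
    intro c hc
    obtain ⟨i, rfl⟩ := List.get_of_mem hc
    exact (hA' ⟨i, by simp⟩).2 _ hc
  obtain ⟨r, hr⟩ : ∃ r, r = (A.map (cf tc lc)).length := ⟨_, rfl⟩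
  -- independence
  have hF : LinearIndependent F (fun q => free_fv R ((A.map (cf tc lc)).get q).2) := by
    apply LinearIndependent.of_comp (free_ext F R)
    have e : (free_ext F R) ∘ (fun q => free_fv R ((A.map (cf tc lc)).get q).2) =
        fun q => cvec ((A.map (cf tc lc)).get q).2 := by
      funext q
      rw [Function.comp_apply, free_cvec R _ (by rw [hA1]; exact hlen _)]
    rw [e]
    exact hli
  have hk : LinearIndependent k (fun q => free_kv k R ((A.map (cf tc lc)).get q).2) :=
    linearIndependent_algebraMap_comp_iff.2 hF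
  -- the linear map
  obtain ⟨col, hcol⟩ : ∃ col : Fin n ⊕ Fin n → (Fin R → k),
    ∀ c, col c = free_kv k R (cf tc lc c).2 := ⟨_, fun _ => rfl⟩
  obtain ⟨Φ, hΦ⟩ : ∃ Φ : (Fin n ⊕ Fin n → k) →ₗ[k] (Fin R → k),
    Φ = Fintype.linearCombination k col := ⟨_, rfl⟩
  have hΦs : ∀ c, Φ (Pi.single c 1) = col c := by
    intro c
    rw [hΦ, Fintype.linearCombination_apply_single, one_smul]
  have hΦa : ∀ u m, Φ u m = ∑ j, u (Sum.inl j) * algebraMap F k ((tc j).getD (m : ℕ) 0) +
      ∑ j, u (Sum.inr j) * algebraMap F k ((lc j).getD (m : ℕ) 0) := by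
    intro u m
    rw [hΦ, Fintype.linearCombination_apply, Fintype.sum_sum_type, Pi.add_apply,
      Finset.sum_apply, Finset.sum_apply]
    simp only [hcol]
    rfl
  -- the Vandermonde matrix
  obtain ⟨α, hα⟩ : ∃ α : Fin n → k, α = fun i => PowerSeries.constantCoeff (φ i) := ⟨_, rfl⟩
  have hαi : Function.Injective α := by rw [hα]; exact hR.inj
  have hdet : IsUnit (Matrix.vandermonde α).det :=
    isUnit_iff_ne_zero.2 (Matrix.det_vandermonde_ne_zero_iff.2 hαi)
  have hV : ∀ l : Fin n → k, (Matrix.vandermonde α).mulVec l =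
      fun i => ∑ j : Fin n, l j * PowerSeries.constantCoeff (φ i) ^ (j : ℕ) := by
    intro l
    funext i
    simp only [Matrix.mulVec, dotProduct, Matrix.vandermonde_apply, hα]
    exact Finset.sum_congr rfl fun j _ => mul_comm _ _
  have hsys2 : ∀ u, u ∈ LinearMap.ker Φ ↔ SysP s (p ^ e) S φ G a g
      ((Matrix.vandermonde α).mulVec (fun j => u (Sum.inr j))) (fun j => u (Sum.inl j)) := by
    intro u
    rw [hV, ← hsys, LinearMap.mem_ker]
    constructor
    · intro h m hm
      have := congrFun h ⟨m, hm⟩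
      rw [hΦa] at this
      exact this
    · intro h
      funext m
      rw [hΦa]
      exact h m m.2
  obtain ⟨-, hG2, hG3, -⟩ := hG
  -- kernel vectors
  obtain ⟨κ, hκ⟩ : ∃ κ : Fin n ⊕ Fin n → (List F × List F) × List F → (Fin n ⊕ Fin n → k),
    ∀ c x, κ c x = Pi.single c 1 -
      ∑ q : Fin (A.map (cf tc lc)).length, algebraMap F k (x.2.getD (q : ℕ) 0) • (Pi.single (A' q) 1 : Fin n ⊕ Fin n → k) :=
    ⟨_, fun _ _ => rfl⟩
  have hκker : ∀ c, ∀ x ∈ Fr', cf tc lc c = x.1 → κ c x ∈ LinearMap.ker Φ := by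
    intro c x hx hcx
    rw [LinearMap.mem_ker, hκ, map_sub, map_sum, hΦs]
    simp only [map_smul, hΦs]
    rw [sub_eq_zero, hcol, hcx]
    have h1 := (hco x hx).2
    funext m
    have h3 := congrFun h1 (m : ℕ)
    rw [Finset.sum_apply] at h3
    rw [Finset.sum_apply]
    have h4 : cvec x.1.2 (m : ℕ) = x.1.2.getD (m : ℕ) 0 := rfl
    rw [h4] at h3
    show algebraMap F k (x.1.2.getD (m : ℕ) 0) = _
    rw [h3, map_sum]
    refine Finset.sum_congr rfl fun q _ => ?_
    rw [Pi.smul_apply, Pi.smul_apply, smul_eq_mul, smul_eq_mul, map_mul, hcol, ← hA1]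
    rfl
  have hκl : ∀ c, ∀ x ∈ Fr', cf tc lc c = x.1 → ∀ j : Fin n, κ c x (Sum.inr j) =
      algebraMap F k ((kv n ((A.map (cf tc lc)).map Prod.fst) x.1.1 x.2).getD j 0) := by
    intro c x hx hcx j
    rw [kv_getD n _ _ _ (hco x hx).1 j j.2, hκ, Pi.sub_apply, Finset.sum_apply, map_sub, map_sum,
      ← hcx, cf_label]
    congr 1
    refine Finset.sum_congr rfl fun q _ => ?_
    rw [Pi.smul_apply, smul_eq_mul, map_mul, hA1, cf_label]
  have hex : ∀ x ∈ Fr', ∃ c, cf tc lc c = x.1 := by
    intro x hx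
    have h1 : x.1 ∈ Fr'.map Prod.fst := List.mem_map_of_mem hx
    rw [← hB] at h1
    obtain ⟨c, _, hc⟩ := List.mem_map.1 h1
    exact ⟨c, hc⟩
  constructor
  · intro x hx
    obtain ⟨c, hc⟩ := hex x hx
    have h1 := hG2 _ _ ((hsys2 _).1 (hκker c x hx hc))
    rw [hV] at h1
    simp only [hκl c x hx hc] at h1
    exact h1
  · intro i i' hii
    by_contra hcon
    push Not at hcon
    -- the spans
    obtain ⟨K, hK⟩ : ∃ K : Set (Fin n ⊕ Fin n → k),
      K = {u | ∃ c, ∃ x ∈ Fr', cf tc lc c = x.1 ∧ u = κ c x} := ⟨_, rfl⟩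
    obtain ⟨E, hE⟩ : ∃ E : Submodule k (Fin n ⊕ Fin n → k),
      E = Submodule.span k (Set.range (fun q => (Pi.single (A' q) 1 : Fin n ⊕ Fin n → k))) :=
      ⟨_, rfl⟩
    have hEmem : ∀ q, (Pi.single (A' q) 1 : Fin n ⊕ Fin n → k) ∈ E := by
      intro q
      rw [hE]
      exact Submodule.subset_span ⟨q, rfl⟩
    have htop : ∀ u : Fin n ⊕ Fin n → k, u ∈ Submodule.span k K ⊔ E := by
      intro u
      have h1 : u = ∑ c, u c • (Pi.single c 1 : Fin n ⊕ Fin n → k) := by
        funext c
        rw [Finset.sum_apply]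
        simp [Pi.single_apply]
      rw [h1]
      refine Submodule.sum_mem _ fun c _ => Submodule.smul_mem _ _ ?_
      rcases hmem c with hc | hc
      · obtain ⟨q, rfl⟩ := hA2 c hc
        exact Submodule.mem_sup_right (hEmem q)
      · have h2 : cf tc lc c ∈ Bl.map (cf tc lc) := List.mem_map_of_mem hc
        rw [hB] at h2
        obtain ⟨x, hx, hxc⟩ := List.mem_map.1 h2
        have h3 : (Pi.single c 1 : Fin n ⊕ Fin n → k) = κ c x +
            ∑ q : Fin (A.map (cf tc lc)).length, algebraMap F k (x.2.getD (q : ℕ) 0) •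
              (Pi.single (A' q) 1 : Fin n ⊕ Fin n → k) := by
          rw [hκ, sub_add_cancel]
        rw [h3]
        refine Submodule.add_mem _ (Submodule.mem_sup_left (Submodule.subset_span ?_))
          (Submodule.mem_sup_right ?_)
        · rw [hK]
          exact ⟨c, x, hx, hxc.symm, rfl⟩
        · exact Submodule.sum_mem _ fun q _ => Submodule.smul_mem _ _ (hEmem q)
    have hspan : ∀ u ∈ LinearMap.ker Φ, u ∈ Submodule.span k K := by
      intro u hu
      obtain ⟨v, hv, w, hw, rfl⟩ := Submodule.mem_sup.1 (htop u)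
      have hKk : Submodule.span k K ≤ LinearMap.ker Φ := by
        rw [Submodule.span_le]
        intro u hu
        rw [hK] at hu
        obtain ⟨c, x, hx, hc, rfl⟩ := hu
        exact hκker c x hx hc
      have hwk : Φ w = 0 := by
        have h1 := hKk hv
        rw [LinearMap.mem_ker] at h1 hu
        rw [map_add, h1, zero_add] at hu
        exact hu
      have hw0 : w = 0 := by
        rw [hE, Submodule.mem_span_range_iff_exists_fun] at hw
        obtain ⟨d, rfl⟩ := hw
        rw [map_sum] at hwk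
        simp only [map_smul, hΦs, hcol, ← hA1] at hwk
        have h1 := Fintype.linearIndependent_iff.1 hk d hwk
        exact Finset.sum_eq_zero fun q _ => by rw [h1 q, zero_smul]
      rw [hw0, add_zero]
      exact hv
    -- the functional
    obtain ⟨ψ, hψ⟩ : ∃ ψ : (Fin n ⊕ Fin n → k) →ₗ[k] k, ∀ u, ψ u =
        (Matrix.vandermonde α).mulVec (fun j => u (Sum.inr j)) i -
        (Matrix.vandermonde α).mulVec (fun j => u (Sum.inr j)) i' :=
      ⟨((LinearMap.proj i : (Fin n → k) →ₗ[k] k) - (LinearMap.proj i' : (Fin n → k) →ₗ[k] k)) ∘ₗ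
        (Matrix.mulVecLin (Matrix.vandermonde α)) ∘ₗ (LinearMap.funLeft k k Sum.inr), fun u => rfl⟩
    have hψK : Submodule.span k K ≤ LinearMap.ker ψ := by
      rw [Submodule.span_le]
      intro u hu
      rw [hK] at hu
      obtain ⟨c, x, hx, hc, rfl⟩ := hu
      show ψ (κ c x) = 0
      rw [hψ, hV]
      simp only [hκl c x hx hc]
      rw [hcon x hx, sub_self]
    have hc1 := cst_ind hR i
    obtain ⟨τ, hτ⟩ := hG3 _ hc1
    obtain ⟨l, hl⟩ : ∃ l : Fin n → k, l = fun j => if Blk S φ i j then (1 : k) else 0 := ⟨_, rfl⟩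
    rw [← hl] at hτ
    obtain ⟨l', hl'⟩ : ∃ l', l' = (Matrix.vandermonde α)⁻¹.mulVec l := ⟨_, rfl⟩
    have h1 : (Matrix.vandermonde α).mulVec l' = l := by
      rw [hl', Matrix.mulVec_mulVec, Matrix.mul_nonsing_inv _ hdet, Matrix.one_mulVec]
    have h2 : Sum.elim τ l' ∈ LinearMap.ker Φ := by
      rw [hsys2]
      simp only [Sum.elim_inr, Sum.elim_inl]
      rw [show (fun j => l' j) = l' from rfl, h1]
      exact hτ
    have h3 := hψK (hspan _ h2)
    rw [LinearMap.mem_ker, hψ] at h3
    simp only [Sum.elim_inr] at h3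
    rw [show (fun j => l' j) = l' from rfl, h1, hl] at h3
    simp [hii, blk_refl hR i] at h3

end math


section units

theorem vv_le (N : ℕ) (hN : 1 ≤ N) : vv (Nat.clog 2 N) ≤ 5 * N ^ 2 := by
  have h1 : 2 ^ (Nat.clog 2 N) ≤ 2 * N := by
    rcases Nat.lt_or_ge 1 N with h | h
    · have h2 := Nat.pow_pred_clog_lt_self (b := 2) (by norm_num) h
      have h3 : 1 ≤ Nat.clog 2 N := Nat.clog_pos (by norm_num) h
      have h4 : 2 ^ (Nat.clog 2 N) = 2 * 2 ^ (Nat.clog 2 N).pred := by
        rw [← pow_succ']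
        congr 1
        rw [Nat.pred_eq_sub_one]
        omega
      rw [h4]
      omega
    · have : N = 1 := by omega
      subst this
      simp
  have h2 : 7 ^ (Nat.clog 2 N) / 2 ^ (Nat.clog 2 N) ≤ (2 ^ (Nat.clog 2 N)) ^ 2 := by
    apply Nat.div_le_of_le_mul
    calc 7 ^ (Nat.clog 2 N) ≤ 8 ^ (Nat.clog 2 N) := Nat.pow_le_pow_left (by norm_num) _
      _ = 2 ^ (Nat.clog 2 N) * (2 ^ (Nat.clog 2 N)) ^ 2 := by
        rw [← pow_succ', ← pow_mul, mul_comm, pow_mul]
        norm_num
  have h3 : (2 ^ (Nat.clog 2 N)) ^ 2 ≤ (2 * N) ^ 2 := Nat.pow_le_pow_left h1 2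
  have h4 : 1 ≤ N ^ 2 := Nat.one_le_pow _ _ hN
  unfold vv
  have h5 : (2 * N) ^ 2 = 4 * N ^ 2 := by ring
  omega

theorem one_le_lgc (n : ℕ) : 1 ≤ lgc n := by unfold lgc; omega

/-- the final sum -/
theorem final_sum (CS CK kS n s e p cS cK P Fr R : ℕ) (hn : 2 * n ≤ s) (hPF : P + Fr = n + n)
    (hR : R = nrow n s)
    (h3 : cS ≤ CS * ((e + 1) * lgc p * lgc (s + 1) ^ kS * (s + 1) ^ 3))
    (h4 : cK ≤ CK * (n + n + R + 1) * vv (Nat.clog 2 (R + 1))) :
    cS + cK + (((80 * n + 130) * P + 80 * n + 250) * Fr + 20 * n) + 200 ≤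
      (CS + 400 * CK + 800) * ((e + 1) * lgc p * lgc (s + 1) ^ kS * (s + 1) ^ 3) := by
  obtain ⟨D, hD⟩ : ∃ D, D = (e + 1) * lgc p * lgc (s + 1) ^ kS := ⟨_, rfl⟩
  rw [← hD] at h3 ⊢
  have hD1 : 1 ≤ D := by
    rw [hD]
    have h1 := one_le_lgc p
    have h2 : 1 ≤ lgc (s + 1) ^ kS := Nat.one_le_pow _ _ (one_le_lgc _)
    exact Nat.mul_pos (Nat.mul_pos (by omega) h1) h2
  have hT : (s + 1) ^ 3 ≤ D * (s + 1) ^ 3 := Nat.le_mul_of_pos_left _ hD1
  have hR4 : R ≤ 4 * s := by
    rw [hR]
    unfold nrow n0 n1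
    omega
  have a1 : cK ≤ 400 * CK * (s + 1) ^ 3 := by
    calc cK ≤ CK * (n + n + R + 1) * vv (Nat.clog 2 (R + 1)) := h4
      _ ≤ CK * (5 * (s + 1)) * (5 * (4 * (s + 1)) ^ 2) := by
        have b1 : n + n + R + 1 ≤ 5 * (s + 1) := by omega
        have b2 : R + 1 ≤ 4 * (s + 1) := by omega
        have b3 := vv_le (R + 1) (by omega)
        gcongr
        exact b3.trans (by gcongr)
      _ = 400 * CK * (s + 1) ^ 3 := by ring
  have a2 : ((80 * n + 130) * P + 80 * n + 250) * Fr + 20 * n + 200 ≤ 800 * (s + 1) ^ 3 := by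
    have b1 : P ≤ s + 1 := by omega
    have b2 : Fr ≤ s + 1 := by omega
    have b3 : 80 * n + 130 ≤ 130 * (s + 1) := by omega
    have b4 : (80 * n + 130) * P ≤ 130 * (s + 1) * (s + 1) := Nat.mul_le_mul b3 b1
    have b5 : s + 1 ≤ (s + 1) * (s + 1) := Nat.le_mul_of_pos_left _ (by omega)
    have b6 : (80 * n + 130) * P + 80 * n + 250 ≤ 500 * ((s + 1) * (s + 1)) := by
      have : 130 * (s + 1) * (s + 1) = 130 * ((s + 1) * (s + 1)) := by ring
      omega
    have b7 : ((80 * n + 130) * P + 80 * n + 250) * Fr ≤ 500 * ((s + 1) * (s + 1)) * (s + 1) :=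
      Nat.mul_le_mul b6 b2
    have b8 : 500 * ((s + 1) * (s + 1)) * (s + 1) = 500 * (s + 1) ^ 3 := by ring
    have b9 : s + 1 ≤ (s + 1) ^ 3 := Nat.le_self_pow (by norm_num) _
    omega
  have e1 : (CS + 400 * CK + 800) * (D * (s + 1) ^ 3) = CS * (D * (s + 1) ^ 3) +
      400 * CK * (D * (s + 1) ^ 3) + 800 * (D * (s + 1) ^ 3) := by ring
  have e2 : 400 * CK * (s + 1) ^ 3 ≤ 400 * CK * (D * (s + 1) ^ 3) := Nat.mul_le_mul_left _ hT
  rw [e1]
  omega

end units

end KL

/-- TARGET -/
theorem specL (h1 : SpecSys) (h2 : SpecKer) (h0 : SpecUnits) : SpecL := by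
  clear h0
  obtain ⟨wS, CS, kS, hS⟩ := h1
  obtain ⟨wK, CK, hK⟩ := h2 Po
  refine ⟨KL.mainP wS wK, CS + 400 * CK + 800, kS, ?_⟩
  intro F _ _ p e r s n rt S G a g hp hchar hrt hr hr0 hn hSn hs hSh
  obtain ⟨tc, lc, s1, s2, s3, s4, s5⟩ := hS F p e r s n rt S G a g hp hchar hrt hr hr0 hn hSn hs hSh
  obtain ⟨hKer, hKc⟩ := hK F (nrow n s)
    (List.ofFn (fun j => (([] : List F), tc j)) ++ List.ofFn (fun j => (uvec F n j, lc j)))
    (by
      intro x hx
      rw [List.mem_append, List.mem_ofFn, List.mem_ofFn] at hx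
      rcases hx with ⟨j, rfl⟩ | ⟨j, rfl⟩
      · exact s1 j
      · exact s2 j)
  have hKer0 := hKer
  obtain ⟨P', Fr', hP, hFr, hperm, -, hli, hco, -⟩ := hKer
  have hcard : P'.length + Fr'.length = n + n := by
    have h1 := hperm.length_eq
    simpa using h1
  have hb : ∀ b : Fin (min Fr'.length n), (b : ℕ) < Fr'.length := fun b =>
    lt_of_lt_of_le b.2 (Nat.min_le_left _ _)
  refine ⟨min Fr'.length n, fun b i => (KL.kv n (P'.map Prod.fst) (Fr'.get ⟨b, hb b⟩).1.1
    (Fr'.get ⟨b, hb b⟩).2).getD i 0, Nat.min_le_right _ _, ?_, ?_, ?_⟩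
  · intro c
    rw [KL.val_mainP, s3, hP, hFr, hSn]
    rw [KL.cm_sum n (min Fr'.length n) (P'.map Prod.fst)
      (Fr'.map (fun x => (x.1.1, x.2))) (List.ofFn c) (by simp) (by simp)
      (fun b => by simpa using hb b)]
    congr 1
    funext i
    refine Finset.sum_congr rfl fun b _ => ?_
    simp
  · intro k _ _ φ hφ hG
    have hfree := KL.free F k p e s n (bcp k (mbiv S)) φ _ _ _ tc lc _ _ hφ hG s1 s2
      (s4 k φ hφ) hKer0
    have hle : Fr'.length ≤ n := by
      rw [hFr, List.length_map] at hfree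
      rw [hfree]
      refine (Submodule.finrank_le _).trans ?_
      simp
    obtain ⟨t1, t2⟩ := KL.sep hφ hG s1 s2 (s4 k φ hφ) P' Fr' hperm hli hco
    constructor
    · intro b
      exact t1 _ (List.get_mem _ _)
    · intro i i' hii
      obtain ⟨x, hx, hne⟩ := t2 i i' hii
      obtain ⟨b, rfl⟩ := List.get_of_mem hx
      refine ⟨⟨b, ?_⟩, hne⟩
      have := b.2
      omega
  · intro c
    have c1 := KL.cost_mainP wS wK (rt, ()) ((fun _ => 1), ()) (un r) (bits F p, un e) (un s)
      S (rows G) (List.ofFn a) (rows g) (List.ofFn c)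
    rw [s3] at c1
    rw [hP, hFr, List.length_map, List.length_map, hSn] at c1
    have e3 : (List.ofFn (fun j => (([] : List F), tc j)) ++
        List.ofFn (fun j => (uvec F n j, lc j))).length = n + n := by
      simp
    rw [e3] at hKc
    exact c1.trans (KL.final_sum CS CK kS n s e p _ _ _ _ _ hs hcard rfl s5 hKc)

end Pool.Agent.H330AB.JK17
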