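import Pool.Agent.H330AB.SpecB2
set_option autoImplicit false
noncomputable section
namespace Pool.Agent.H330AB.JK19
open Polynomial Pool.Agent.H330FB

namespace K19

/-! ### lists -/

theorem coeff_pol {R : Type} [CommRing R] (l : List R) (i : ℕ) : (pol l).coeff i = l.getD i 0 := by
  induction l generalizing i with
  | nil => simp [pol]
  | cons x l ih =>
    cases i with
    | zero => simp [pol]
    | succ i => simp [pol, ih]

theorem coeff_biv {K : Type} [Field K] (l : List (List K)) (i j : ℕ) :
    ((biv l).coeff i).coeff j = (l.getD i []).getD j 0 := by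
  unfold biv
  rw [coeff_pol]
  have : (l.map pol).getD i 0 = pol (l.getD i []) := by
    by_cases h : i < l.length
    · simp [List.getD_eq_getElem?_getD, h]
    · simp [List.getD_eq_getElem?_getD, Nat.le_of_not_lt h, pol]
  rw [this, coeff_pol]

theorem getD_fit {α : Type} (n : ℕ) (z : α) (l : List α) (i : ℕ) (hi : i < n) :
    (fit n z l).getD i z = l.getD i z := by
  induction n generalizing l i with
  | zero => omega
  | succ n ih =>
    cases l with
    | nil =>
      cases i with
      | zero => simp [fit]
      | succ i =>
        have := ih [] i (by omega)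
        simp [fit] at this ⊢
        exact this
    | cons x l =>
      cases i with
      | zero => simp [fit]
      | succ i =>
        have := ih l i (by omega)
        simp [fit] at this ⊢
        exact this

/-- rows cut to the lengths `u, u - 1, ...` and padded to the length `w` -/
def tri {α : Type} (z : α) (w : ℕ) : ℕ → List (List α) → List (List α)
  | _, [] => []
  | u, r :: l => fit w z (r.take u) :: tri z w (u - 1) l

theorem length_tri {α : Type} (z : α) (w u : ℕ) (l : List (List α)) :
    (tri z w u l).length = l.length := by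
  induction l generalizing u with
  | nil => rfl
  | cons r l ih => simp [tri, ih]

theorem sh_tri {α : Type} (z : α) (w u : ℕ) (l : List (List α)) : Sh w (tri z w u l) := by
  induction l generalizing u with
  | nil => intro r hr; simp [tri] at hr
  | cons r l ih =>
    intro x hx
    simp only [tri, List.mem_cons] at hx
    rcases hx with rfl | hx
    · simp
    · exact ih _ x hx

theorem getD_tri {α : Type} (z : α) (w u : ℕ) (l : List (List α)) (i : ℕ) (hi : i < l.length) :
    (tri z w u l).getD i [] = fit w z ((l.getD i []).take (u - i)) := by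
  induction l generalizing u i with
  | nil => simp at hi
  | cons r l ih =>
    cases i with
    | zero => simp [tri]
    | succ i =>
      have := ih (u - 1) i (by simpa using hi)
      simp only [tri, List.getD_cons_succ, this]
      rw [show u - 1 - i = u - (i + 1) by omega]

theorem getD_take {α : Type} (z : α) (l : List α) (u i : ℕ) :
    (l.take u).getD i z = if i < u then l.getD i z else z := by
  split_ifs with h
  · simp [List.getD_eq_getElem?_getD, h]
  · simp [List.getD_eq_getElem?_getD, h]

theorem td_tri {K : Type} [Field K] (m : ℕ) (G : List (List K)) (hG : G.length = m + 1) :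
    TD (biv (tri 0 (m + 1) (m + 1) G)) m := by
  intro i j hij
  rw [coeff_biv]
  by_cases hi : i < G.length
  · rw [getD_tri _ _ _ _ _ hi]
    by_cases hj : j < m + 1
    · rw [getD_fit _ _ _ _ hj, getD_take, if_neg (by omega)]
    · exact List.getD_eq_default _ _ (by simp; omega)
  · rw [List.getD_eq_default (tri 0 (m + 1) (m + 1) G) _ (by rw [length_tri]; omega)]
    simp

theorem tri_eq {K : Type} [Field K] (m : ℕ) (G : List (List K)) (hG : G.length = m + 1)
    (hs : Sh (m + 1) G) (ht : TD (biv G) m) : tri 0 (m + 1) (m + 1) G = G := by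
  refine List.ext_getElem (length_tri _ _ _ _) (fun i h1 h2 => ?_)
  have e1 : (tri (0 : K) (m + 1) (m + 1) G)[i] = (tri (0 : K) (m + 1) (m + 1) G).getD i [] :=
    (List.getD_eq_getElem _ _ h1).symm
  have e2 : G[i] = G.getD i [] := (List.getD_eq_getElem _ _ h2).symm
  have hl : (G.getD i []).length = m + 1 := by
    rw [← e2]; exact hs _ (List.getElem_mem h2)
  rw [e1, e2, getD_tri _ _ _ _ _ h2]
  refine List.ext_getElem (by rw [length_fit, hl]) (fun k h3 h4 => ?_)
  rw [← List.getD_eq_getElem _ (0 : K) h3, ← List.getD_eq_getElem _ (0 : K) h4,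
    getD_fit _ _ _ _ (by rw [length_fit] at h3; exact h3), getD_take]
  split_ifs with h5
  · rfl
  · have := ht i k (by omega)
    rw [coeff_biv] at this
    exact this.symm

theorem transp_getD {α : Type} (z : α) (n : ℕ) (A : List (List α)) (h : ∀ r ∈ A, r.length = n)
    (i : ℕ) (hi : i < n) : (transp n A).getD i [] = A.map (fun r => r.getD i z) := by
  induction A with
  | nil => simp [transp, List.getD_eq_getElem?_getD, hi]
  | cons r A ih =>
    have h1 := ih (fun r hr => h r (by simp [hr]))
    have h2 := h r (by simp)
    have hl := length_transp n A (fun r hr => h r (by simp [hr]))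
    have h3 : transp n (r :: A) = List.zipWith (fun x l => x :: l) r (transp n A) := rfl
    rw [h3, List.getD_eq_getElem _ _ (by rw [List.length_zipWith, h2, hl]; omega),
      List.getElem_zipWith, List.map_cons, ← h1, List.getD_eq_getElem _ _ (by rw [h2]; exact hi),
      List.getD_eq_getElem _ _ (by rw [hl]; exact hi)]

/-- the top row for every power of `z` -/
def top (F : Type) [Field F] (m n : ℕ) : List (List F) := fit m (fit n 0 []) [fit n 0 [1]]

theorem sh_top (F : Type) [Field F] (m n : ℕ) : Sh n (top F m n) := by
  have : ∀ (m : ℕ) (z : List F) (l : List (List F)), z.length = n → Sh n l → Sh n (fit m z l) := by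
    intro m
    induction m with
    | zero => intro z l _ _ r hr; simp [fit] at hr
    | succ m ih =>
      intro z l hz hl
      cases l with
      | nil =>
        intro r hr
        simp only [fit, List.mem_cons] at hr
        rcases hr with rfl | hr
        · exact hz
        · exact ih z [] hz (by intro r hr; simp at hr) r hr
      | cons x l =>
        intro r hr
        simp only [fit, List.mem_cons] at hr
        rcases hr with rfl | hr
        · exact hl _ (by simp)
        · exact ih z l hz (fun r hr => hl r (by simp [hr])) r hr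
  refine this m _ _ (length_fit _ _ _) ?_
  intro r hr
  simp only [List.mem_singleton] at hr
  rw [hr, length_fit]

theorem getD_top (F : Type) [Field F] (m n b κ : ℕ) (hb : b < m) (hκ : κ < n) :
    ((top F m n).getD b []).getD κ 0 = if b = 0 ∧ κ = 0 then 1 else 0 := by
  have h1 : (top F m n).getD b [] = (top F m n).getD b (fit n 0 []) := by
    rw [List.getD_eq_getElem _ _ (by simp [top]; exact hb),
      List.getD_eq_getElem _ _ (by simp [top]; exact hb)]
  rw [h1]
  unfold top
  rw [getD_fit _ _ _ _ hb]
  rcases b with _ | b
  · rw [List.getD_cons_zero, getD_fit _ _ _ _ hκ]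
    rcases κ with _ | κ
    · simp
    · simp
  · rw [List.getD_cons_succ, List.getD_nil, getD_fit _ _ _ _ hκ]
    simp

/-! ### polynomials -/

section
variable {F k : Type} [Field F] [Field k] [Algebra F k]

theorem coeff_bcp (f : F[X][X]) (i j : ℕ) :
    ((bcp k f).coeff i).coeff j = algebraMap F k ((f.coeff i).coeff j) := by
  simp [bcp]

theorem bcp_sub (a b : F) (f : F[X][X]) :
    bcp k (sub a b f) = sub (algebraMap F k a) (algebraMap F k b) (bcp k f) := by
  have h : (mapRingHom (mapRingHom (algebraMap F k))).comp (sub a b) =
      (sub (algebraMap F k a) (algebraMap F k b)).comp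
        (mapRingHom (mapRingHom (algebraMap F k))) := by
    apply Polynomial.ringHom_ext'
    · apply Polynomial.ringHom_ext'
      · ext c
        simp [sub]
      · simp [sub]
    · simp [sub]
  exact RingHom.congr_fun h f

theorem sub_CC (a b c : k) : sub a b (C (C c)) = C (C c) := by
  simp [sub]

theorem aeval_pol (ζ : k) (l : List F) :
    aeval ζ (pol l) = ∑ b ∈ Finset.range l.length, ζ ^ b * algebraMap F k (l.getD b 0) := by
  induction l with
  | nil => simp [pol]
  | cons x l ih =>
    rw [pol, map_add, aeval_C, map_mul, aeval_X, ih, List.length_cons, Finset.sum_range_succ',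
      Finset.mul_sum]
    simp only [List.getD_cons_succ, List.getD_cons_zero, pow_zero, one_mul, pow_succ]
    rw [add_comm]
    congr 1
    exact Finset.sum_congr rfl (fun b _ => by ring)

theorem coeff_fz (ζ : k) (A : List (List (List F))) (i κ : ℕ) :
    ((fz ζ A).coeff i).coeff κ =
      if i < A.length then (if κ < A.length + 1 then
        aeval ζ (pol ((A.getD i []).map (fun v => v.getD κ 0))) else 0) else
      if i = A.length ∧ κ = 0 then 1 else 0 := by
  have h1 : ∀ (n : ℕ) (g : ℕ → k[X]), (∑ i' ∈ Finset.range n, C (g i') * X ^ i').coeff i =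
      if i < n then g i else 0 := by
    intro n g
    rw [finsetSum_coeff]
    simp only [coeff_C_mul_X_pow]
    simp
  have h2 : ∀ (n : ℕ) (g : ℕ → k), (∑ i' ∈ Finset.range n, C (g i') * X ^ i').coeff κ =
      if κ < n then g κ else 0 := by
    intro n g
    rw [finsetSum_coeff]
    simp only [coeff_C_mul_X_pow]
    simp
  unfold fz
  rw [coeff_add, coeff_X_pow, h1, coeff_add]
  by_cases hi : i < A.length
  · rw [if_pos hi, if_pos hi, h2, if_neg (by omega), coeff_zero, zero_add]
  · rw [if_neg hi, if_neg hi, coeff_zero, add_zero]
    by_cases hi2 : i = A.length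
    · rw [if_pos hi2, coeff_one]
      simp [hi2]
    · rw [if_neg hi2, coeff_zero, if_neg (by tauto)]

theorem vand [IsAlgClosed k] (q : List F) (hq : Squarefree ((mpol q).map (algebraMap F k)))
    (g : ℕ → k)
    (h : ∀ ζ : k, aeval ζ (mpol q) = 0 → ∑ b ∈ Finset.range q.length, ζ ^ b * g b = 0) :
    ∀ b < q.length, g b = 0 := by
  classical
  intro b hb
  set Q := (mpol q).map (algebraMap F k) with hQ
  have hdeg : (pol q).degree < q.length := by
    rw [degree_lt_iff_coeff_zero]
    intro m hm
    rw [coeff_pol]
    exact List.getD_eq_default _ _ hm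
  have hmon : (mpol q).Monic := monic_X_pow_add hdeg
  have hnd : (mpol q).natDegree = q.length := by
    unfold mpol
    rw [natDegree_add_eq_left_of_degree_lt (by rwa [degree_X_pow]), natDegree_X_pow]
  have hQm : Q.Monic := hmon.map _
  have hQd : Q.natDegree = q.length := by rw [hQ, natDegree_map, hnd]
  have hcard : Q.roots.toFinset.card = q.length := by
    rw [Multiset.toFinset_card_of_nodup
      (nodup_roots (PerfectField.separable_iff_squarefree.mpr hq)), ← hQd]
    exact splits_iff_card_roots.mp (IsAlgClosed.splits Q)
  set P : k[X] := ∑ b ∈ Finset.range q.length, C (g b) * X ^ b with hP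
  have hPc : ∀ i, P.coeff i = if i < q.length then g i else 0 := by
    intro i
    rw [hP, finsetSum_coeff]
    simp only [coeff_C_mul_X_pow]
    simp
  have hPd : P.degree < q.length := by
    rw [degree_lt_iff_coeff_zero]
    intro m hm
    rw [hPc, if_neg (by omega)]
  have hP0 : P = 0 := by
    refine Polynomial.eq_zero_of_degree_lt_of_eval_finset_eq_zero Q.roots.toFinset
      (by rw [hcard]; exact hPd) (fun x hx => ?_)
    have hx1 : aeval x (mpol q) = 0 := by
      rw [Multiset.mem_toFinset, mem_roots hQm.ne_zero, IsRoot.def, hQ, eval_map_algebraMap] at hx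
      exact hx
    rw [hP, eval_finsetSum, ← h x hx1]
    exact Finset.sum_congr rfl (fun b _ => by rw [eval_mul, eval_C, eval_pow, eval_X, mul_comm])
  have := hPc b
  rw [hP0, if_pos hb] at this
  simpa using this.symm

end

/-! ### the polynomials attached to the powers of `z` -/

/-- the polynomials attached to the powers of `z` -/
def GG (F : Type) [Field F] (m j : ℕ) (A : List (List (List F))) : List (List (List F)) :=
  transp m (A ++ [top F m (j + 1)])

section
variable {F : Type} [Field F]

theorem GG_hyp {m j : ℕ} {A : List (List (List F))} (hA : Sh3 (j + 1) m A) :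
    ∀ r ∈ A ++ [top F m (j + 1)], r.length = m := by
  intro r hr
  simp only [List.mem_append, List.mem_singleton] at hr
  rcases hr with hr | rfl
  · exact (hA r hr).1
  · simp [top]

theorem length_GG {m j : ℕ} {A : List (List (List F))} (hA : Sh3 (j + 1) m A) :
    (GG F m j A).length = m := length_transp _ _ (GG_hyp hA)

theorem GG_getD {m j : ℕ} {A : List (List (List F))} (hA : Sh3 (j + 1) m A) {b : ℕ} (hb : b < m) :
    (GG F m j A).getD b [] =
      A.map (fun r => r.getD b []) ++ [(top F m (j + 1)).getD b []] := by
  unfold GG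
  rw [transp_getD [] m _ (GG_hyp hA) b hb, List.map_append, List.map_singleton]

theorem length_G {m j : ℕ} {A : List (List (List F))} (hA : Sh3 (j + 1) m A)
    (hj : A.length = j) {b : ℕ} (hb : b < m) : ((GG F m j A).getD b []).length = j + 1 := by
  rw [GG_getD hA hb]
  simp [hj]

theorem getD_mem {α : Type} {l : List α} {i : ℕ} (z : α) (hi : i < l.length) :
    l.getD i z ∈ l := by
  rw [List.getD_eq_getElem _ _ hi]
  exact List.getElem_mem hi

theorem sh_G {m j : ℕ} {A : List (List (List F))} (hA : Sh3 (j + 1) m A) {b : ℕ} (hb : b < m) :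
    Sh (j + 1) ((GG F m j A).getD b []) := by
  rw [GG_getD hA hb]
  intro r hr
  simp only [List.mem_append, List.mem_map, List.mem_singleton] at hr
  rcases hr with ⟨a, ha, rfl⟩ | rfl
  · obtain ⟨h1, h2⟩ := hA a ha
    exact h2 _ (getD_mem _ (by rw [h1]; exact hb))
  · exact sh_top F m (j + 1) _ (getD_mem _ (by simp [top]; exact hb))

theorem coeff_G {m j : ℕ} {A : List (List (List F))} (hA : Sh3 (j + 1) m A)
    (hj : A.length = j) {b : ℕ} (hb : b < m) (i κ : ℕ) :
    ((biv ((GG F m j A).getD b [])).coeff i).coeff κ =
      if i < j then ((A.getD i []).getD b []).getD κ 0 else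
        if i = j ∧ κ = 0 ∧ b = 0 then 1 else 0 := by
  rw [coeff_biv]
  have hl := length_G hA hj hb
  split_ifs with h1 h2
  · rw [GG_getD hA hb, List.getD_append _ _ _ _ (by simpa [hj] using h1)]
    have h4 : i < A.length := by rw [hj]; exact h1
    have e : (A.map (fun r => r.getD b [])).getD i [] = (A.getD i []).getD b [] := by
      rw [List.getD_eq_getElem _ _ (by rw [List.length_map]; exact h4), List.getElem_map,
        List.getD_eq_getElem A _ h4]
    rw [e]
  · obtain ⟨rfl, rfl, rfl⟩ := h2
    rw [GG_getD hA hb, List.getD_append_right _ _ _ _ (by simp [hj])]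
    have := getD_top F m (i + 1) 0 0 hb (by omega)
    simpa [hj] using this
  · by_cases h3 : i = j
    · subst h3
      rw [GG_getD hA hb, List.getD_append_right _ _ _ _ (by simp [hj])]
      have e : ([(top F m (i + 1)).getD b []] : List (List F)).getD
          (i - (List.map (fun r => r.getD b []) A).length) [] = (top F m (i + 1)).getD b [] := by
        simp [hj]
      rw [e]
      by_cases h4 : κ < i + 1
      · rw [getD_top F m (i + 1) b κ hb h4, if_neg (by tauto)]
      · refine List.getD_eq_default _ _ ?_
        rw [sh_top F m (i + 1) _ (getD_mem _ (by simp [top]; exact hb))]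
        omega
    · rw [List.getD_eq_default ((GG F m j A).getD b []) _ (by omega)]
      simp

theorem sum_G {k : Type} [Field k] [Algebra F k] {m j : ℕ} {A : List (List (List F))}
    (hA : Sh3 (j + 1) m A) (hm : 1 ≤ m) (hj : A.length = j) (ζ : k) (i κ : ℕ) :
    ∑ b ∈ Finset.range m, ζ ^ b *
      algebraMap F k (((biv ((GG F m j A).getD b [])).coeff i).coeff κ) =
      ((fz ζ A).coeff i).coeff κ := by
  rw [Finset.sum_congr rfl (fun b hb => by rw [coeff_G hA hj (Finset.mem_range.mp hb)]),
    coeff_fz, hj]
  by_cases h1 : i < j
  · simp only [if_pos h1]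
    have hmem := hA _ (getD_mem [] (show i < A.length by rw [hj]; exact h1))
    by_cases h2 : κ < j + 1
    · rw [if_pos h2, aeval_pol, List.length_map, hmem.1]
      refine Finset.sum_congr rfl (fun b hb => ?_)
      rw [Finset.mem_range] at hb
      rw [List.getD_eq_getElem (List.map _ _) _ (by rw [List.length_map, hmem.1]; exact hb),
        List.getElem_map, List.getD_eq_getElem (A.getD i []) _ (by rw [hmem.1]; exact hb)]
    · rw [if_neg h2]
      refine Finset.sum_eq_zero (fun b hb => ?_)
      rw [Finset.mem_range] at hb
      rw [List.getD_eq_default ((A.getD i []).getD b []) _ (by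
        rw [hmem.2 _ (getD_mem [] (by rw [hmem.1]; exact hb))]; omega), map_zero, mul_zero]
  · simp only [if_neg h1]
    by_cases h2 : i = j ∧ κ = 0
    · rw [if_pos h2, Finset.sum_eq_single 0]
      · simp [h2]
      · intro b _ hb
        rw [if_neg (by tauto), map_zero, mul_zero]
      · intro h3
        exact absurd (Finset.mem_range.mpr (by omega)) h3
    · rw [if_neg h2]
      refine Finset.sum_eq_zero (fun b hb => ?_)
      rw [if_neg (by tauto), map_zero, mul_zero]

theorem td_G {k : Type} [Field k] [IsAlgClosed k] [Algebra F k] {j : ℕ} {q : List F}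
    {A : List (List (List F))}
    (hA : Sh3 (j + 1) q.length A) (hm : 1 ≤ q.length) (hj : A.length = j)
    (hq : Squarefree ((mpol q).map (algebraMap F k)))
    (ht : ∀ ζ : k, aeval ζ (mpol q) = 0 → TD (fz ζ A) j) {b : ℕ} (hb : b < q.length) :
    TD (biv ((GG F q.length j A).getD b [])) j := by
  intro i κ hij
  have := vand q hq
    (fun b => algebraMap F k (((biv ((GG F q.length j A).getD b [])).coeff i).coeff κ))
    (fun ζ hζ =>
      (sum_G hA hm hj ζ i κ).trans (ht ζ hζ i κ hij)) b hb
  exact (map_eq_zero_iff _ (algebraMap F k).injective).mp this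

theorem sum_bcp {k : Type} [Field k] [Algebra F k] {m j : ℕ} {A : List (List (List F))}
    (hA : Sh3 (j + 1) m A) (hm : 1 ≤ m) (hj : A.length = j) (ζ : k) :
    ∑ b ∈ Finset.range m, C (C (ζ ^ b)) * bcp k (biv ((GG F m j A).getD b [])) = fz ζ A := by
  ext i κ
  rw [finsetSum_coeff, finsetSum_coeff, ← sum_G hA hm hj ζ i κ]
  refine Finset.sum_congr rfl (fun b _ => ?_)
  rw [coeff_C_mul, coeff_C_mul, coeff_bcp]

end

/-! ### programs -/

section
variable {F : Type} [Field F] [DecidableEq F]
variable {s : List (Ty × Ty)} {e : Ty}

/-- body of `triP` -/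
def triB : Pr ((.prod (.list e) (.prod (.list e) Ma), Ma) :: s)
    (.prod (.list e) (.prod (.list e) Ma)) Ma :=
  onL (.comp .snd .snd) .nil
    (.comp (.pair
      (.comp (.pair (.comp .fst .fst) (.pair .zero
        (.comp (.comp (.pair (.comp (.comp .fst .snd) .fst) (.comp .snd .fst)) splitP) .fst)))
        fitP)
      (.comp (.pair (.comp .fst .fst)
        (.pair (onL (.comp (.comp .fst .snd) .fst) .nil (.comp .snd .snd))
          (.comp .snd .snd))) .self)) .cons)

/-- input `(w, (u, rows))` -/
def triP : Pr s (.prod (.list e) (.prod (.list e) Ma)) Ma :=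
  .comp (.pair (.comp .snd .snd) .id) (.recD triB .nil)

theorem lcase_tail {α : Type} (l : List α) : lcase l [] (fun _ t => t) = l.tail := by
  cases l <;> rfl

@[simp] theorem val_triP (v : SV F s) (x : Ty.D F (.prod (.list e) (.prod (.list e) Ma))) :
    (triP : Pr s (.prod (.list e) (.prod (.list e) Ma)) Ma).val v x =
      tri (0 : F) (List.length x.1) (List.length x.2.1) x.2.2 := by
  obtain ⟨w, u, l⟩ := x
  simp only [triP, val_comp, val_pair, val_snd, val_id, val_recD]
  induction l generalizing u with
  | nil => simp [goV, tri]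
  | cons r l ih =>
    have := ih u.tail
    simp [goV, triB, tri, lcase_tail] at this ⊢
    exact this

theorem cost_triP (v : SV F s) (k : SC F s) (x : Ty.D F (.prod (.list e) (.prod (.list e) Ma))) :
    (triP : Pr s (.prod (.list e) (.prod (.list e) Ma)) Ma).cost v k x ≤
      (20 * List.length x.1 + 24 * List.length x.2.1 + 80) * List.length x.2.2 + 20 := by
  obtain ⟨w, u, l⟩ := x
  simp only [triP, cost_comp, cost_pair, val_pair, val_comp, val_snd, cost_snd, val_id, cost_id,
    cost_recD]
  have : ∀ (l : List (List F)) (u : List (Ty.D F e)) (U : ℕ), u.length ≤ U →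
      goC (s := s) (triB (e := e)) .nil v k l.length (w, (u, l)) ≤
        (20 * w.length + 24 * U + 80) * l.length + 10 := by
    intro l
    induction l with
    | nil => intro u U hu; simp [goC]
    | cons r l ih =>
      intro u U hu
      have h1 := ih u.tail U (by simp; omega)
      have h2 := cost_splitP (F := F) (a := .fld) (b := e)
        (s := (.prod (.list e) (.prod (.list e) Ma), Ma) :: s)
        (goV (triB (e := e)) .nil v l.length, v) (goC (triB (e := e)) .nil v k l.length, k)
        (u, r)
      have h3 := cost_fitP (F := F) (a := .fld) (b := e)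
        (s := (.prod (.list e) (.prod (.list e) Ma), Ma) :: s)
        (goV (triB (e := e)) .nil v l.length, v) (goC (triB (e := e)) .nil v k l.length, k)
        (w, ((0 : F), List.take u.length r))
      cases u with
      | nil => simp [goC, triB] at h1 h2 h3 ⊢; nlinarith
      | cons u0 u => simp [goC, triB] at h1 h2 h3 hu ⊢; nlinarith
  have h := this l u u.length le_rfl
  omega

/-- type of the input -/
abbrev IN : Ty := .prod .fld (.prod .fld (.prod Po ML))

/-- a list of length `j + 1` -/
def lenP : Pr [] IN (.list Ma) := .comp (.pair .nil (.comp (.comp .snd .snd) .snd)) .cons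

/-- the top rows -/
def topP : Pr [] IN Ma :=
  .comp (.pair (.comp (.comp .snd .snd) .fst)
    (.pair (.comp (.pair lenP (.pair .zero .nil)) fitP)
      (.comp (.pair (.comp (.pair lenP (.pair .zero (.comp (.pair .one .nil) .cons))) fitP)
        .nil) .cons))) fitP

/-- the polynomials attached to the powers of `z` -/
def ggP : Pr [] IN ML :=
  .comp (.pair (.comp (.comp .snd .snd) .fst)
    (.comp (.pair (.comp (.comp .snd .snd) .snd) (.comp (.pair topP .nil) .cons)) appP)) transpP

/-- one polynomial -/
def oneP (p : Pr [] (.prod .fld (.prod .fld Ma)) Ma) :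
    Pr [] (.prod (.prod .fld (.prod .fld (.list Ma))) Ma) Ma :=
  .comp (.pair (.comp .fst .fst) (.pair (.comp (.comp .fst .snd) .fst)
    (.comp (.pair (.comp (.comp .fst .snd) .snd) (.pair (.comp (.comp .fst .snd) .snd) .snd))
      triP))) p

/-- the program -/
def backP (p : Pr [] (.prod .fld (.prod .fld Ma)) Ma) : Pr [] IN ML :=
  .comp (.pair (.pair (.comp .fst .neg) (.pair (.comp (.comp .snd .fst) .neg) lenP)) ggP)
    (mapP (oneP p))

theorem val_topP (a b : F) (q : List F) (A : List (List (List F))) :
    (topP.val () (a, (b, (q, A))) : List (List F)) = top F q.length (A.length + 1) := by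
  simp [topP, lenP, top]

theorem cost_topP (a b : F) (q : List F) (A : List (List (List F))) :
    topP.cost () () (a, (b, (q, A))) ≤ 20 * q.length + 40 * (A.length + 1) + 100 := by
  have h1 := cost_fitP (F := F) (s := []) (a := .fld) (b := Ma) () ()
    (([] : List (List F)) :: A, ((0 : F), ([] : List F)))
  have h2 := cost_fitP (F := F) (s := []) (a := .fld) (b := Ma) () ()
    (([] : List (List F)) :: A, ((0 : F), ([1] : List F)))
  have h3 := cost_fitP (F := F) (s := []) (a := Po) (b := .fld) () ()
    (q, (fit (A.length + 1) 0 [], [fit (A.length + 1) 0 [1]]))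
  simp [topP, lenP] at h1 h2 h3 ⊢
  omega

theorem val_ggP (a b : F) (q : List F) (A : List (List (List F))) :
    (ggP.val () (a, (b, (q, A))) : List (List (List F))) = GG F q.length A.length A := by
  have h := val_topP a b q A
  simp only [ggP, val_comp, val_pair, val_snd, val_fst, val_nil, val_cons, val_appP,
    val_transpP, GG]
  rw [h]

theorem cost_ggP (a b : F) (q : List F) (A : List (List (List F)))
    (hA : Sh3 (A.length + 1) q.length A) :
    ggP.cost () () (a, (b, (q, A))) ≤
      (51 * q.length + 90) * (A.length + 2) + 20 * q.length + 60 * (A.length + 1) + 200 := by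
  have h1 := cost_topP a b q A
  have h2 := cost_appP (F := F) (s := []) (a := Ma) () () (A, [top F q.length (A.length + 1)])
  have h3 := cost_transpP (F := F) (s := []) (a := Po) (b := .fld) () ()
    (q, A ++ [top F q.length (A.length + 1)]) (GG_hyp hA)
  have h := val_topP a b q A
  simp only [ggP, cost_comp, cost_pair, val_comp, val_pair, val_snd, val_fst, val_nil, val_cons,
    val_appP, cost_snd, cost_fst, cost_nil, cost_cons] at h1 h2 h3 ⊢
  rw [List.length_append, List.length_singleton] at h3
  rw [h]
  nlinarith

theorem val_oneP (p : Pr [] (.prod .fld (.prod .fld Ma)) Ma) (a b : F) (u : List (List (List F)))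
    (G : List (List F)) :
    ((oneP p).val () ((a, (b, u)), G) : List (List F)) =
      p.val () (a, (b, tri (0 : F) u.length u.length G)) := by
  simp [oneP]

theorem cost_oneP (p : Pr [] (.prod .fld (.prod .fld Ma)) Ma) (a b : F) (u : List (List (List F)))
    (G : List (List F)) :
    (oneP p).cost () () ((a, (b, u)), G) ≤
      p.cost () () (a, (b, tri (0 : F) u.length u.length G)) +
        (44 * u.length + 80) * G.length + 50 := by
  have h1 := cost_triP (F := F) (s := []) (e := Ma) () () (u, (u, G))
  simp [oneP] at h1 ⊢
  nlinarith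

theorem val_backP (p : Pr [] (.prod .fld (.prod .fld Ma)) Ma) (a b : F) (q : List F)
    (A : List (List (List F))) :
    ((backP p).val () (a, (b, (q, A))) : List (List (List F))) =
      (GG F q.length A.length A).map (fun G => p.val () (-a, (-b,
        tri (0 : F) (A.length + 1) (A.length + 1) G))) := by
  have h1 := val_ggP a b q A
  simp only [backP, val_comp, val_pair, val_snd, val_fst, val_neg, lenP, val_nil, val_cons,
    val_mapP, oneP, val_triP, h1, List.length_cons]

end

end K19

/-- TARGET -/
theorem specBack (h : SpecCoB) (h0 : SpecUnits) : SpecBack := by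
  obtain ⟨p, C, hp⟩ := h
  obtain ⟨-, -, -, -, -, -, hww, -⟩ := h0
  refine ⟨K19.backP p, C + 2000, ?_⟩
  intro F _ _ a b j q A hj1 hjA hq hA
  have hAl : Sh3 (A.length + 1) q.length A := by rw [hjA]; exact hA
  have hv := K19.val_backP p a b q A
  rw [hjA] at hv
  have htd : ∀ G ∈ K19.GG F q.length j A, G.length = j + 1 := by
    intro G hG
    obtain ⟨i, hi, rfl⟩ := List.mem_iff_getElem.mp hG
    rw [← List.getD_eq_getElem _ [] hi]
    rw [K19.length_GG hA] at hi
    exact K19.length_G hA hjA hi
  have hpp : ∀ G ∈ K19.GG F q.length j A, _ := fun G hG =>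
    hp F (-a) (-b) j (K19.tri (0 : F) (j + 1) (j + 1) G)
      (by rw [K19.length_tri, htd G hG]) (K19.sh_tri _ _ _ _) (K19.td_tri j G (htd G hG))
  intro c
  have hc : c = (K19.GG F q.length j A).map (fun G => p.val () (-a, (-b,
        K19.tri (0 : F) (j + 1) (j + 1) G))) := hv
  have hcl : c.length = q.length := by rw [hc, List.length_map, K19.length_GG hA]
  refine ⟨hcl, ?_, ?_⟩
  · intro k _ _ _ hsq ht
    refine ⟨?_, ?_⟩
    · intro x hx
      rw [hc, List.mem_map] at hx
      obtain ⟨G, hG, rfl⟩ := hx
      exact (hpp G hG).1
    · intro ζ hζ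
      unfold hz
      rw [hcl, ← K19.sum_bcp hA hq hjA ζ, map_sum]
      refine Finset.sum_congr rfl (fun b' hb' => ?_)
      rw [Finset.mem_range] at hb'
      have hlen : b' < (K19.GG F q.length j A).length := by rw [K19.length_GG hA]; exact hb'
      have hmem : (K19.GG F q.length j A).getD b' [] ∈ K19.GG F q.length j A :=
        K19.getD_mem _ hlen
      have e1 : c.getD b' [] = p.val () (-a, (-b, K19.tri (0 : F) (j + 1) (j + 1)
          ((K19.GG F q.length j A).getD b' []))) := by
        rw [hc, List.getD_eq_getElem _ _ (by rw [List.length_map]; exact hlen), List.getElem_map,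
          List.getD_eq_getElem (K19.GG F q.length j A) _ hlen]
      rw [e1, map_mul, K19.sub_CC, (hpp _ hmem).2.1, K19.bcp_sub, map_neg, map_neg,
        K19.tri_eq j _ (htd _ hmem) (K19.sh_G hA hb') (K19.td_G hA hq hjA hsq ht hb')]
  · have h1 := K19.cost_ggP a b q A hAl
    rw [hjA] at h1
    have hg := K19.val_ggP a b q A
    rw [hjA] at hg
    have h2 := cost_mapP_le (F := F) (s := []) (c := .prod .fld (.prod .fld (.list Ma)))
      (a := Ma) (b := Ma) (K19.oneP p) () ()
      ((-a, (-b, ([] : List (List F)) :: A)), K19.GG F q.length j A)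
      (C * ww (j + 1) + (44 * (j + 1) + 80) * (j + 1) + 50) (fun G hG => by
        have h3 := K19.cost_oneP p (-a) (-b) (([] : List (List F)) :: A) G
        have h4 := (hpp G hG).2.2
        rw [List.length_cons, hjA, htd G hG] at h3
        refine h3.trans ?_
        omega)
    simp only [K19.backP, cost_comp, cost_pair, val_comp, val_pair, val_snd, val_fst, val_nil,
      val_cons, cost_snd, cost_fst, cost_nil, cost_cons, K19.lenP, val_neg, cost_neg] at h1 h2 ⊢
    rw [hg]
    rw [K19.length_GG hA] at h2
    have h5 := hww (j + 1)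
    have h6 : j + 1 ≤ (j + 1) * (j + 1) := Nat.le_mul_self _
    clear_value c
    clear hc hcl hv htd hpp hg hAl
    rw [show j + 2 = (j + 1) + 1 by omega] at h1
    generalize ww (j + 1) = W at *
    generalize q.length = m at *
    generalize Pr.cost K19.ggP () () (a, (b, (q, A))) = c1 at *
    generalize Pr.cost (mapP (K19.oneP p)) () () ((-a, (-b, [] :: A)), K19.GG F m j A) = c2 at *
    clear hA
    have hN1 : 1 ≤ j + 1 := by omega
    generalize j + 1 = N at *
    have hW : N ≤ W := h6.trans h5
    have e0 : C * W + (44 * N + 80) * N + 50 + 13 ≤ C * W + 187 * W := by nlinarith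
    have e1 : (C * W + (44 * N + 80) * N + 50 + 13) * m ≤ (C * W + 187 * W) * m :=
      Nat.mul_le_mul_right _ e0
    have e2 : (51 * m + 90) * (N + 1) ≤ (51 * m + 90) * (2 * W) :=
      Nat.mul_le_mul_left _ (by omega)
    have e3 : m ≤ m * W := Nat.le_mul_of_pos_right _ (by omega)
    have e4 : (C * W + 187 * W) * m = C * (m * W) + 187 * (m * W) := by ring
    have e5 : (51 * m + 90) * (2 * W) = 102 * (m * W) + 180 * W := by ring
    have e6 : (C + 2000) * ((m + 1) * W) = C * (m * W) + C * W + 2000 * (m * W) + 2000 * W := by
      ring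
    rw [e4] at e1
    rw [e5] at e2
    rw [e6]
    omega
end Pool.Agent.H330AB.JK19
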