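import Pool.Agent.H330AB.SpecB2
set_option autoImplicit false
set_option linter.unusedSectionVars false
noncomputable section
noncomputable section
namespace Pool.Agent.H330AB.JK2
open Polynomial Pool.Agent.H330FB

namespace K2

/-- `(c, (y, z))` goes to `y - c z` -/
def gP : Pr [] (.prod .fld (.prod .fld .fld)) .fld :=
  .comp (.pair (.comp .snd .fst)
    (.comp (.comp (.pair .fst (.comp .snd .snd)) .mul) .neg)) .add

/-- last element or `x`; input `(D, ((r, q), x))` -/
def lastP : Pr [] (.prod Po (.prod (.prod Po Po) .fld)) .fld :=
  .comp (.pair .star (.pair (.comp .snd .snd) (.comp (.comp .snd .fst) .fst)))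
    (foldP (c := .unit) (.comp .snd .snd))

/-- one step, input `(D, ((r, q), x))` -/
def stepP : Pr [] (.prod Po (.prod (.prod Po Po) .fld)) (.prod Po Po) :=
  lt lastP (.pair
    (.comp (.pair .snd (.pair
      (.comp (.pair (.comp (.comp .fst .snd) .snd) (.comp (.comp (.comp .fst .snd) .fst) .fst))
        .cons) (.comp .fst .fst))) (zipP gP))
    (.comp (.pair .snd (.comp (.comp (.comp .fst .snd) .fst) .snd)) .cons))

/-- the loop; input `(D, reversed list)` -/
def loopP : Pr [] (.prod Po Po) (.prod Po Po) :=
  .comp (.pair .fst (.pair (.pair (.comp (.pair .star .fst) (mapP (c := .unit) .zero)) .nil) .snd))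
    (foldP stepP)

/-- remainder; input `(P, D)` -/
def remP : Pr [] (.prod Po Po) Po :=
  .comp (.comp (.pair .snd (.comp .fst revP)) loopP) .fst

/-- quotient; input `(P, D)` -/
def quoP : Pr [] (.prod Po Po) Po :=
  .comp (.comp (.pair (.comp (.comp (.pair .snd .fst) splitP) .snd)
    (.comp (.comp (.pair .snd (.comp (.pair .one (.comp .fst revP)) .cons)) loopP) .snd))
    splitP) .fst

section
variable {F : Type} [Field F] [DecidableEq F]

/-- last element or `z` -/
def la (z : F) (l : List F) : F := List.foldl (fun _ y => y) z l

/-- the step for the remainder -/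
def sr (D r : List F) (x : F) : List F :=
  List.zipWith (fun y z => y + -(la x r * z)) (x :: r) D

/-- the step -/
def st (D : List F) (a : List F × List F) (x : F) : List F × List F :=
  (sr D a.1 x, la x a.1 :: a.2)

/-- the result -/
def dv (D : List F) : List F → List F × List F
  | [] => (List.replicate D.length 0, [])
  | x :: a => st D (dv D a) x

theorem val_lastP (v : SV F []) (x : Ty.D F (.prod Po (.prod (.prod Po Po) .fld))) :
    lastP.val v x = la x.2.2 x.2.1.1 := by
  simp [lastP, la]

theorem val_gP (v : SV F []) (x : Ty.D F (.prod .fld (.prod .fld .fld))) :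
    gP.val v x = (x.2.1 + -(x.1 * x.2.2) : F) := by
  simp [gP]

theorem cost_lastP (D r q : List F) (x : F) :
    lastP.cost () () (D, ((r, q), x)) ≤ 29 * r.length + 30 := by
  have h1 := cost_foldP_le (s := []) (c := .unit) (b := .fld) (a := .fld) (F := F)
    (.comp .snd .snd) () () ((), (x, r)) 2 (fun _ => True) trivial (fun _ _ _ _ => trivial)
    (fun _ _ _ _ => by simp)
  simp [lastP] at h1 ⊢
  omega

theorem val_stepP (D : List F) (a : List F × List F) (x : F) :
    (stepP.val () (D, (a, x)) : List F × List F) = st D a x := by
  simp [stepP, val_lastP, val_gP, st, sr]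

theorem length_sr (D r : List F) (x : F) (hr : r.length = D.length) :
    (sr D r x).length = D.length := by
  simp [sr, hr]

theorem cost_stepP (D r q : List F) (x : F) (hr : r.length = D.length) :
    stepP.cost () () (D, ((r, q), x)) ≤ 100 * D.length + 200 := by
  have h1 := cost_lastP D r q x
  have h2 := cost_zipP_le (s := []) (F := F) gP () () (la x r, (x :: r, D)) 20
    (fun _ _ _ _ => by simp [gP])
  simp [stepP, val_lastP] at h1 h2 ⊢
  rw [hr] at h1 h2
  omega

theorem length_dv (D a : List F) : (dv D a).1.length = D.length ∧ (dv D a).2.length = a.length := by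
  induction a with
  | nil => simp [dv]
  | cons x a ih => exact ⟨length_sr D _ x ih.1, by simp [dv, st, ih.2]⟩

theorem pol_zip (c : F) (D r : List F) (x : F) (h : r.length = D.length) :
    pol (List.zipWith (fun y z => y + -(c * z)) (x :: r) D) =
      pol (x :: r) - C (la x r) * X ^ D.length - C c * pol D := by
  induction D generalizing x r with
  | nil =>
    have : r = [] := List.length_eq_zero_iff.mp (by simpa using h)
    subst this
    simp [pol, la]
  | cons z D ih =>
    cases r with
    | nil => simp at h
    | cons y r =>
      simp only [List.length_cons, Nat.add_right_cancel_iff] at h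
      have e : la x (y :: r) = la y r := rfl
      rw [List.zipWith_cons_cons, pol, ih r y h, e]
      simp only [pol, C_add, C_neg, C_mul, List.length_cons, pow_succ]
      ring

theorem pol_sr (D r : List F) (x : F) (h : r.length = D.length) :
    C x + X * pol r = C (la x r) * mpol D + pol (sr D r x) := by
  unfold sr
  rw [pol_zip _ _ _ _ h]
  simp only [mpol, pol]
  ring

theorem pol_zeros (n : ℕ) : pol (List.replicate n (0 : F)) = 0 := by
  induction n with
  | zero => simp [pol]
  | succ n ih => simp [List.replicate_succ, pol, ih]

theorem pol_dv (D a : List F) : pol a = pol (dv D a).2 * mpol D + pol (dv D a).1 := by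
  induction a with
  | nil => simp [dv, pol, pol_zeros]
  | cons x a ih =>
    have h := pol_sr D (dv D a).1 x (length_dv D a).1
    simp only [dv, st, pol] at ih ⊢
    rw [ih]
    linear_combination h

theorem val_loopP (D l : List F) :
    (loopP.val () (D, List.reverse l) : List F × List F) = dv D l := by
  have h1 : (loopP.val () (D, List.reverse l) : List F × List F) =
      List.foldl (fun y z => st D y z) (List.map (fun _ => (0 : F)) D, []) (List.reverse l) := by
    simp only [loopP, val_comp, val_pair, val_fst, val_snd, val_star, val_mapP,
      val_foldP, val_zero, val_nil]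
    congr 1
    funext y z
    exact val_stepP D y z
  have h2 : List.map (fun _ => (0 : F)) D = List.replicate D.length 0 := by
    induction D with
    | nil => rfl
    | cons z P ih => simp [List.replicate_succ]
  rw [h1, List.foldl_reverse, h2]
  clear h1
  induction l with
  | nil => rfl
  | cons x a ih => simp only [List.foldr_cons, dv]; rw [← ih]

theorem cost_loopP (D l : List F) :
    loopP.cost () () (D, l) ≤ (100 * D.length + 227) * l.length + 14 * D.length + 40 := by
  have h1 := cost_mapP_le (s := []) (c := .unit) (a := .fld) (b := .fld) (F := F) .zero () ()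
    ((), D) 1 (fun _ _ => by simp)
  have h3 := cost_foldP_le (s := []) (F := F) stepP () () (D,
    ((List.map (fun _ => (0 : F)) D, []), l)) (100 * D.length + 200)
    (fun y => List.length y.1 = D.length) (by simp)
    (fun y z hy _ => by
      show List.length ((stepP.val () (D, (y, z)) : List F × List F)).1 = D.length
      rw [val_stepP]
      exact length_sr D y.1 z hy)
    (fun y z hy _ => cost_stepP D y.1 y.2 z hy)
  simp [loopP] at h1 h3 ⊢
  nlinarith

theorem val_remP (P D : List F) : (remP.val () (P, D) : List F) = (dv D P).1 := by
  have := val_loopP D P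
  simp [remP, this]

theorem val_quoP (P D : List F) : (quoP.val () (P, D) : List F) =
    List.take (P.length - D.length) (dv D (P ++ [1])).2 := by
  have := val_loopP D (P ++ [1])
  simp only [List.reverse_append, List.reverse_cons, List.reverse_nil, List.nil_append,
    List.singleton_append] at this
  simp [quoP, this]

theorem coeff_pol (l : List F) (i : ℕ) : (pol l).coeff i = l.getD i 0 := by
  induction l generalizing i with
  | nil => simp [pol]
  | cons x l ih =>
    cases i with
    | zero => simp [pol]
    | succ i => simp [pol, ih]

theorem degree_pol (l : List F) : (pol l).degree < l.length := by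
  rw [degree_lt_iff_coeff_zero]
  intro i hi
  rw [coeff_pol, List.getD_eq_default _ _ hi]

theorem monic_mpol (l : List F) : (mpol l).Monic := monic_X_pow_add (degree_pol l)

theorem natDegree_mpol (l : List F) : (mpol l).natDegree = l.length :=
  natDegree_eq_of_degree_eq_some (by
    rw [mpol, degree_add_eq_left_of_degree_lt (by rw [degree_X_pow]; exact degree_pol l),
      degree_X_pow])

theorem pol_append_one (l : List F) : pol (l ++ [1]) = mpol l := by
  induction l with
  | nil => simp [pol, mpol]
  | cons x l ih =>
    rw [List.cons_append, pol, ih]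
    simp only [mpol, pol, List.length_cons, pow_succ]
    ring

theorem mpol_take (q : List F) (n : ℕ) (hm : (pol q).Monic) (hn : (pol q).natDegree = n) :
    mpol (List.take n q) = pol q := by
  have hl : n ≤ q.length := by
    have h1 := degree_pol q
    rw [degree_eq_natDegree hm.ne_zero, hn] at h1
    exact le_of_lt (by exact_mod_cast h1)
  ext i
  rw [mpol, coeff_add, coeff_X_pow, coeff_pol, coeff_pol, List.length_take, min_eq_left hl]
  rcases lt_trichotomy i n with h | h | h
  · rw [if_neg h.ne, zero_add]
    simp only [List.getD_eq_getElem?_getD, List.getElem?_take_of_lt h]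
  · subst h
    have h1 : (pol q).coeff (pol q).natDegree = 1 := hm
    rw [hn, coeff_pol] at h1
    rw [if_pos rfl, h1, List.getD_eq_default _ _ (by simp), add_zero]
  · rw [if_neg h.ne', List.getD_eq_default _ _ (by simp; omega), zero_add]
    have h1 : (pol q).coeff i = 0 := coeff_eq_zero_of_natDegree_lt (by omega)
    rw [coeff_pol] at h1
    exact h1.symm

theorem quo_spec (P D : List F) (h : mpol D ∣ mpol P) :
    mpol (List.take (P.length - D.length) (dv D (P ++ [1])).2) * mpol D = mpol P := by
  have e := pol_dv D (P ++ [1])
  rw [pol_append_one] at e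
  set q := (dv D (P ++ [1])).2
  set r := (dv D (P ++ [1])).1
  have hr : pol r = 0 := by
    have hd : mpol D ∣ pol r := by
      have : pol r = mpol P - pol q * mpol D := by rw [e]; ring
      rw [this]
      exact dvd_sub h (dvd_mul_left _ _)
    refine eq_zero_of_dvd_of_degree_lt hd ?_
    have h1 := degree_pol r
    rw [(length_dv D (P ++ [1])).1] at h1
    rwa [degree_eq_natDegree (monic_mpol D).ne_zero, natDegree_mpol]
  rw [hr, add_zero] at e
  have hq : (pol q).Monic := by
    have := monic_mpol P
    rw [e] at this
    exact (monic_mpol D).of_mul_monic_right this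
  have hn : (pol q).natDegree = P.length - D.length := by
    have := congrArg natDegree e
    rw [natDegree_mpol, hq.natDegree_mul (monic_mpol D), natDegree_mpol] at this
    omega
  rw [mpol_take q _ hq hn, ← e]

end

end K2

/- Schoolbook division with remainder by a monic polynomial (both targets). Compare Pool/Agent/H330FB/JE1.lean (specNaive). -/
/-- TARGET 1 -/
theorem specRem : SpecRem := by
  refine ⟨K2.remP, 500, fun F _ _ P D => ?_⟩
  intro c
  have hc : c = (K2.dv D P).1 := K2.val_remP P D
  refine ⟨?_, ?_, ?_⟩
  · rw [hc]; exact (K2.length_dv D P).1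
  · rw [hc]
    have := K2.pol_dv D P
    exact ⟨pol (K2.dv D P).2, by linear_combination this⟩
  · have h1 := K2.cost_loopP D (List.reverse P)
    have h2 := cost_revP (s := []) (F := F) (a := .fld) () () P
    simp [K2.remP] at h1 h2 ⊢
    nlinarith

/-- TARGET 2 -/
theorem specQuo : SpecQuo := by
  refine ⟨K2.quoP, 1000, fun F _ _ P D => ?_⟩
  intro c
  have hc : c = List.take (P.length - D.length) (K2.dv D (P ++ [1])).2 := K2.val_quoP P D
  refine ⟨?_, ?_, ?_⟩
  · rw [hc, List.length_take, (K2.length_dv D (P ++ [1])).2, List.length_append]
    simp only [List.length_cons, List.length_nil]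
    omega
  · intro h
    rw [hc]
    exact K2.quo_spec P D h
  · have h1 := K2.cost_loopP D (1 :: List.reverse P)
    have h2 := cost_revP (s := []) (F := F) (a := .fld) () () P
    have h3 := cost_splitP (s := []) (F := F) (a := .fld) (b := .fld) () () (D, P)
    have h4 := cost_splitP (s := []) (F := F) (a := .fld) (b := .fld) () ()
      (List.drop D.length P, (K2.loopP.val () (D, 1 :: List.reverse P)).2)
    simp [K2.quoP] at h1 h2 h3 h4 ⊢
    have h5 : P.length - D.length ≤ P.length := Nat.sub_le _ _
    nlinarith
end Pool.Agent.H330AB.JK2
end
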