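import Pool.Agent.H330AB.SpecB3
set_option autoImplicit false
noncomputable section
namespace Pool.Agent.H330AB.JK20
open Polynomial Pool.Agent.H330FB
/- Add 1 to a field element until it is zero, at most D times, collecting units (see Pool/Agent/H330AB/JJ12.lean on origin/main, which contains this as a step). -/
noncomputable section

namespace SUp

section par
variable {F : Type} [Field F] [DecidableEq F]
variable {s : List (Ty × Ty)} {b : Ty}

theorem un_zero : un 0 = [] := rfl
theorem un_succ (n : ℕ) : un (n + 1) = () :: un n := rfl
theorem un_len (n : ℕ) : List.length (un n) = n := by simp [un]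

/-- body of the program for the characteristic -/
def chB : Pr ((.fld, Un) :: s) .fld Un :=
  lt (.comp (.pair .id .one) .add)
    (onZ .snd (.comp (.pair .star .nil) .cons) (.comp (.pair .star (.comp .snd .self)) .cons))

/-- the minimum of the characteristic and of the length of the input, in unary -/
def chP : Pr s (.list b) Un := .comp (.pair .id .zero) (.recD chB .nil)

theorem goV_ch (v : SV F s) (p : ℕ) [CharP F p] (n : ℕ) :
    ∀ j : ℕ, j < p → (goV (F := F) chB .nil v n (j : F) : List Unit) = un (min n (p - j)) := by
  induction n with
  | zero =>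
    intro j hj
    simp [goV, un]
  | succ n ih =>
    intro j hj
    have hz : ((j : F) + 1 = 0) ↔ j + 1 = p := by
      have h1 : ((j + 1 : ℕ) : F) = 0 ↔ p ∣ j + 1 := CharP.cast_eq_zero_iff F p (j + 1)
      push_cast at h1
      rw [h1]
      constructor
      · intro h
        have := Nat.le_of_dvd (by omega) h
        omega
      · intro h
        rw [h]
    by_cases h : j + 1 = p
    · have h0 : (j : F) + 1 = 0 := hz.2 h
      have e : min (n + 1) (p - j) = 1 := by omega
      rw [e]
      simp [goV, chB, h0, un]
    · have h0 : ¬ ((j : F) + 1 = 0) := fun h' => h (hz.1 h')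
      have e : min (n + 1) (p - j) = min n (p - (j + 1)) + 1 := by omega
      have := ih (j + 1) (by omega)
      push_cast at this
      rw [e, un_succ, ← this]
      simp [goV, chB, h0]

theorem val_chP (v : SV F s) (p : ℕ) (hp : p.Prime) [CharP F p] (x : Ty.D F (.list b)) :
    ((chP : Pr s (.list b) Un).val v x : List Unit) = un (min (List.length x) p) := by
  simp only [chP, val_comp, val_pair, val_id, val_zero, val_recD]
  have := goV_ch v p (List.length x) 0 hp.pos
  simpa using this

theorem cost_chB (w : SV F ((.fld, Un) :: s)) (K : SC F ((.fld, Un) :: s)) (x : F) :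
    (chB : Pr ((.fld, Un) :: s) .fld Un).cost w K x ≤ K.1 (x + 1) + 17 := by
  by_cases h : x + 1 = 0
  · simp [chB, h]
  · simp [chB, h]
    omega

theorem goC_ch (v : SV F s) (k : SC F s) (n : ℕ) :
    ∀ x : F, goC (F := F) chB .nil v k n x ≤ 20 * n + 1 := by
  induction n with
  | zero =>
    intro x
    simp [goC]
  | succ n ih =>
    intro x
    have := ih (x + 1)
    have h := cost_chB (F := F) (s := s) (goV chB .nil v n, v) (goC chB .nil v k n, k) x
    simp only [goC]
    simp only at h
    omega

theorem cost_chP (v : SV F s) (k : SC F s) (x : Ty.D F (.list b)) :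
    (chP : Pr s (.list b) Un).cost v k x ≤ 20 * List.length x + 5 := by
  simp only [chP, cost_comp, cost_pair, cost_id, cost_zero, cost_recD, val_pair, val_id, val_zero]
  have := goC_ch v k (List.length x) 0
  omega

end par

end SUp

/-- TARGET -/
theorem specUp : SpecUp := by
  refine ⟨SUp.chP, 20, ?_⟩
  intro F _ _ p D hp hF
  constructor
  · intro hpD
    have h1 := SUp.val_chP (F := F) (s := []) (b := .unit) () p hp (un D)
    rw [SUp.un_len, min_eq_right hpD] at h1
    exact h1
  · have h2 := SUp.cost_chP (F := F) (s := []) (b := .unit) () () (un D)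
    rw [SUp.un_len] at h2
    omega

end

end Pool.Agent.H330AB.JK20
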