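import Pool.Agent.H330AB.SpecB2
set_option autoImplicit false
set_option linter.unusedSectionVars false
noncomputable section
namespace Pool.Agent.H330AB.JK3
open Polynomial Pool.Agent.H330FB

namespace JRad

/-! ### Algebra -/
section alg
variable {F : Type} [Field F]

theorem coeff_pol (l : List F) (i : ℕ) : (pol l).coeff i = l.getD i 0 := by
  induction l generalizing i with
  | nil => simp [pol]
  | cons x l ih =>
    cases i with
    | zero => simp [pol]
    | succ i => simp [pol, coeff_C_succ, ih]

theorem degree_pol (l : List F) : (pol l).degree < l.length := by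
  rw [degree_lt_iff_coeff_zero]
  intro m hm
  rw [coeff_pol, List.getD_eq_default _ _ hm]

theorem monic (P : List F) : (mpol P).Monic := monic_X_pow_add (degree_pol P)

theorem natDeg (P : List F) : (mpol P).natDegree = P.length := by
  have h : (mpol P).degree = P.length := by
    unfold mpol
    rw [degree_add_eq_left_of_degree_lt]
    · rw [degree_X_pow]
    · rw [degree_X_pow]
      exact degree_pol P
  exact natDegree_eq_of_degree_eq_some h

theorem mpol_nil : mpol ([] : List F) = 1 := by simp [mpol, pol]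

theorem mpol_cons (x : F) (l : List F) : mpol (x :: l) = C x + X * mpol l := by
  simp only [mpol, pol, List.length_cons, pow_succ]; ring

theorem pol_append (l m : List F) : pol (l ++ m) = pol l + X ^ l.length * pol m := by
  induction l with
  | nil => simp [pol]
  | cons x l ih => simp only [List.cons_append, pol, ih, List.length_cons, pow_succ]; ring

theorem pol_one (l : List F) : pol (l ++ [1]) = mpol l := by
  rw [pol_append]; simp [pol, mpol]; ring

/-- if all prime factors of `P` divide `R` -/
theorem dvd_pow_deg (P R : F[X]) (hP : P ≠ 0) (h : ∀ Q, Irreducible Q → Q ∣ P → Q ∣ R) :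
    P ∣ R ^ P.natDegree := by
  induction P using WfDvdMonoid.induction_on_irreducible with
  | zero => exact absurd rfl hP
  | unit u hu => exact hu.dvd
  | mul a i ha hi ih =>
    have h1 := ih ha (fun Q hQ hd => h Q hQ (hd.mul_left _))
    have h2 := h i hi (dvd_mul_right _ _)
    rw [natDegree_mul hi.ne_zero ha]
    have h3 : 1 ≤ i.natDegree := by
      rw [Nat.one_le_iff_ne_zero]
      intro h0
      rw [eq_C_of_natDegree_eq_zero h0] at hi
      by_cases hc : i.coeff 0 = 0
      · rw [hc] at hi; simp at hi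
      · exact hi.not_isUnit (isUnit_C.2 (isUnit_iff_ne_zero.2 hc))
    calc i * a ∣ R ^ i.natDegree * R ^ a.natDegree := mul_dvd_mul (dvd_pow h2 (by omega)) h1
      _ = R ^ (i.natDegree + a.natDegree) := by rw [pow_add]

theorem sqf_core (P g w : F[X]) (hP : P ≠ 0)
    (h3 : ∀ D, D ∣ P → D ∣ derivative P → D ∣ g) (h4 : w * g = P) : Squarefree w := by
  have hw : w ≠ 0 := by rintro rfl; exact hP (by rw [← h4]; simp)
  have hg : g ≠ 0 := by rintro rfl; exact hP (by rw [← h4]; simp)
  rw [squarefree_iff_irreducible_sq_not_dvd_of_ne_zero hw]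
  intro Q hQ hd
  have hf : FiniteMultiplicity Q P := FiniteMultiplicity.of_prime_left hQ.prime hP
  obtain ⟨S, hS, hn⟩ := hf.exists_eq_pow_mul_and_not_dvd
  generalize multiplicity Q P = e at hS
  rcases Nat.eq_zero_or_pos e with he | he
  · subst he
    apply hn
    rw [pow_zero, one_mul] at hS
    rw [← hS, ← h4]
    exact ((dvd_mul_right Q Q).trans hd).mul_right _
  · obtain ⟨e, rfl⟩ : ∃ e', e = e' + 1 := ⟨e - 1, by omega⟩
    have h5 : Q ^ e ∣ g := by
      apply h3
      · rw [hS, pow_succ, mul_assoc]; exact dvd_mul_right _ _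
      · rw [hS, derivative_mul, derivative_pow_succ]
        refine dvd_add ?_ ?_
        · refine Dvd.dvd.mul_right (Dvd.dvd.mul_right (Dvd.dvd.mul_left dvd_rfl _) _) _
        · rw [pow_succ, mul_assoc]; exact dvd_mul_right _ _
    have h6 : Q ^ (e + 1) * Q ∣ Q ^ (e + 1) * S := by
      rw [← hS, ← h4]
      calc Q ^ (e + 1) * Q = (Q * Q) * Q ^ e := by ring
        _ ∣ w * g := mul_dvd_mul hd h5
    exact hn ((mul_dvd_mul_iff_left (pow_ne_zero _ hQ.ne_zero)).1 h6)

theorem core (P g w c u B : F[X]) (N : ℕ) (hP : P ≠ 0) (h2 : g ∣ derivative P)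
    (h4 : w * g = P) (h5 : c ∣ g) (h5' : c ∣ u)
    (h6 : ∀ D, D ∣ g → D ∣ u → D ∣ c) (hu : g ∣ w ^ N - u) (hN : g.natDegree ≤ N)
    (h7 : B * c = g) :
    IsCoprime w B ∧ derivative B = 0 ∧ (∀ Q, Irreducible Q → Q ∣ P → Q ∣ w ∨ Q ∣ B) ∧
      w * B ∣ P := by
  have hw : w ≠ 0 := by rintro rfl; exact hP (by rw [← h4]; simp)
  have hg : g ≠ 0 := by rintro rfl; exact hP (by rw [← h4]; simp)
  have hB : B ≠ 0 := by rintro rfl; exact hg (by rw [← h7]; simp)
  have hc : c ≠ 0 := by rintro rfl; exact hg (by rw [← h7]; simp)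
  have hcw : ∀ Q, Irreducible Q → Q ∣ c → Q ∣ w := by
    intro Q hQ hd
    have e1 : Q ∣ w ^ N := by
      have := dvd_add ((hd.trans h5).trans hu) (hd.trans h5')
      simpa using this
    exact hQ.prime.dvd_of_dvd_pow e1
  have hcop : IsCoprime w B := by
    apply isCoprime_of_irreducible_dvd (fun h => hw h.1)
    intro Q hQ h1 hQB
    have hf : FiniteMultiplicity Q g := FiniteMultiplicity.of_prime_left hQ.prime hg
    obtain ⟨S, hS, hn⟩ := hf.exists_eq_pow_mul_and_not_dvd
    generalize multiplicity Q g = e at hS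
    have hq1 : 1 ≤ Q.natDegree := by
      rw [Nat.one_le_iff_ne_zero]
      intro h0
      rw [eq_C_of_natDegree_eq_zero h0] at hQ
      by_cases hc : Q.coeff 0 = 0
      · rw [hc] at hQ; simp at hQ
      · exact hQ.not_isUnit (isUnit_C.2 (isUnit_iff_ne_zero.2 hc))
    have he : e ≤ N := by
      have e1 : (Q ^ e).natDegree ≤ g.natDegree :=
        natDegree_le_of_dvd (by rw [hS]; exact dvd_mul_right _ _) hg
      rw [natDegree_pow] at e1
      nlinarith
    have hQg : Q ^ e ∣ g := by rw [hS]; exact dvd_mul_right _ _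
    have hQc : Q ^ e ∣ c := by
      apply h6 _ hQg
      have e1 : Q ^ e ∣ w ^ N := (pow_dvd_pow Q he).trans (pow_dvd_pow_of_dvd h1 N)
      have := dvd_sub e1 (hQg.trans hu)
      simpa using this
    have h8 : Q ^ e * Q ∣ Q ^ e * S := by
      rw [← hS, ← h7, mul_comm]
      exact mul_dvd_mul hQB hQc
    exact hn ((mul_dvd_mul_iff_left (pow_ne_zero _ hQ.ne_zero)).1 h8)
  have hcB : IsCoprime c B := by
    apply isCoprime_of_irreducible_dvd (fun h => hc h.1)
    intro Q hQ h1 hQB
    exact hQ.not_isUnit (hcop.isUnit_of_dvd' (hcw Q hQ h1) hQB)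
  refine ⟨hcop, ?_, ?_, ?_⟩
  · have e1 : P = (w * c) * B := by rw [← h4, ← h7]; ring
    have e2 : B ∣ (w * c) * derivative B := by
      have e3 : B ∣ derivative P := (Dvd.intro _ h7).trans h2
      rw [e1, derivative_mul] at e3
      exact (dvd_add_right (Dvd.intro_left _ rfl)).1 e3
    have e4 : B ∣ derivative B := (IsCoprime.mul_left hcop hcB).symm.dvd_of_dvd_mul_left e2
    by_contra hne
    have e5 := degree_le_of_dvd e4 hne
    exact absurd (degree_derivative_lt hB) (not_lt.2 e5)
  · intro Q hQ hd
    rw [← h4, ← h7] at hd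
    rcases hQ.prime.dvd_or_dvd hd with h | h
    · exact Or.inl h
    · rcases hQ.prime.dvd_or_dvd h with h | h
      · exact Or.inr h
      · exact Or.inl (hcw Q hQ h)
  · rw [← h4, ← h7]
    exact mul_dvd_mul_left _ (dvd_mul_right _ _)

/-! ### roots -/

/-- every `p`-th element, mapped by `rt` -/
def pk (rt : F → F) (p : ℕ) : ℕ → List F → List F
  | 0, _ => []
  | _ + 1, [] => []
  | m + 1, h :: t => rt h :: pk rt p m ((h :: t).drop p)

theorem length_pk (rt : F → F) (p : ℕ) (hp : 1 ≤ p) (m : ℕ) : ∀ (j : ℕ) (l : List F),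
    l.length = p * j → j ≤ m → (pk rt p m l).length = j := by
  induction m with
  | zero => intro j l _ h; simp [pk]; omega
  | succ m ih =>
    intro j l hl hj
    cases l with
    | nil =>
      have : p * j = 0 := by simpa using hl.symm
      rcases Nat.mul_eq_zero.1 this with h | h
      · omega
      · simp [pk, h]
    | cons h t =>
      obtain ⟨j, rfl⟩ : ∃ j', j = j' + 1 := by
        rcases j with _ | j
        · simp at hl
        · exact ⟨j, rfl⟩
      have e := ih j ((h :: t).drop p) (by rw [List.length_drop, hl, Nat.mul_succ]; omega)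
        (by omega)
      simp only [pk, List.length_cons, e]

theorem pow_pk (rt : F → F) (p : ℕ) (hp : p.Prime) [CharP F p] (hrt : ∀ x, rt x ^ p = x)
    (m : ℕ) : ∀ (j : ℕ) (l : List F),
    l.length = p * j → j ≤ m → (∀ i, ¬ p ∣ i → l.getD i 0 = 0) →
    mpol (pk rt p m l) ^ p = mpol l := by
  have := Fact.mk hp
  induction m with
  | zero =>
    intro j l hl h _
    have : l = [] := List.length_eq_zero_iff.1 (by rw [hl]; simp; omega)
    subst this
    simp [pk, mpol_nil]
  | succ m ih =>
    intro j l hl hj hz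
    cases l with
    | nil => simp [pk, mpol_nil]
    | cons h t =>
      obtain ⟨j, rfl⟩ : ∃ j', j = j' + 1 := by
        rcases j with _ | j
        · simp at hl
        · exact ⟨j, rfl⟩
      have hlen : ((h :: t).drop p).length = p * j := by
        rw [List.length_drop, hl, Nat.mul_succ]; omega
      have e := ih j ((h :: t).drop p) hlen (by omega) (by
        intro i hi
        have := hz (p + i) (by rwa [Nat.dvd_add_right dvd_rfl])
        rw [List.getD_eq_getElem?_getD, List.getElem?_drop, ← List.getD_eq_getElem?_getD]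
        exact this)
      have htl : ((h :: t).take p).length = p := by
        rw [List.length_take, hl]
        exact min_eq_left (by nlinarith [hp.pos])
      have e1 : pol ((h :: t).take p) = C h := by
        ext i
        rw [coeff_pol]
        rcases Nat.eq_zero_or_pos i with hi | hi
        · subst hi
          rw [List.getD_eq_getElem?_getD, List.getElem?_take_of_lt hp.pos]
          simp
        · rw [coeff_C, if_neg (by omega)]
          by_cases hip : i < p
          · rw [List.getD_eq_getElem?_getD, List.getElem?_take_of_lt hip,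
              ← List.getD_eq_getElem?_getD]
            exact hz i (fun hd => by have := Nat.le_of_dvd hi hd; omega)
          · rw [List.getD_eq_default _ _ (by rw [htl]; omega)]
      have e2 : mpol (h :: t) = C h + X ^ p * mpol ((h :: t).drop p) := by
        have e3 : pol (h :: t) = C h + X ^ p * pol ((h :: t).drop p) := by
          conv_lhs => rw [← List.take_append_drop p (h :: t)]
          rw [pol_append, e1, htl]
        rw [mpol, e3, mpol, hlen, hl, Nat.mul_succ, pow_add]
        ring
      simp only [pk]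
      rw [mpol_cons, add_pow_char, mul_pow, e, e2, ← C_pow, hrt]

theorem root_cond (p : ℕ) (_hp : p.Prime) [CharP F p] (l : List F)
    (h : derivative (mpol l) = 0) : p ∣ l.length ∧ ∀ i, ¬ p ∣ i → l.getD i 0 = 0 := by
  have hc : ∀ i, ¬ p ∣ i → (mpol l).coeff i = 0 := by
    intro i hi
    rcases i with _ | i
    · simp at hi
    · have e1 : (derivative (mpol l)).coeff i = 0 := by rw [h]; simp
      rw [coeff_derivative] at e1
      rcases mul_eq_zero.1 e1 with e | e
      · exact e
      · exfalso
        apply hi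
        rw [← CharP.cast_eq_zero_iff F p]
        exact_mod_cast e
  have h1 : p ∣ l.length := by
    by_contra hn
    have e1 := hc _ hn
    have e2 := (monic l).coeff_natDegree
    rw [natDeg] at e2
    rw [e2] at e1
    exact one_ne_zero e1
  refine ⟨h1, fun i hi => ?_⟩
  have e1 := hc i hi
  rw [mpol, coeff_add, coeff_X_pow, if_neg (by rintro rfl; exact hi h1), zero_add,
    coeff_pol] at e1
  exact e1

end alg


/-! ### Programs -/
section prog
variable {F : Type} [Field F] [DecidableEq F]

/-- body of the derivative, input `(counter, coefficients)` -/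
def derB : Pr [(.prod .fld Po, Po)] (.prod .fld Po) Po :=
  onL .snd .nil (.comp (.pair (.comp (.pair (.comp .fst .fst) (.comp .snd .fst)) .mul)
    (.comp (.pair (.comp (.pair (.comp .fst .fst) .one) .add) (.comp .snd .snd)) .self)) .cons)

/-- append one -/
def ap1P {s : List (Ty × Ty)} : Pr s Po Po := ap2 appP .id (ap2 .cons .one .nil)

/-- coefficients of the derivative of a monic polynomial -/
def derP : Pr [] Po Po :=
  .comp ap1P (onL .id .nil (.comp (.comp .snd .snd)
    (.comp (.pair .id (.pair .one .id)) (.recD derB .nil))))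

/-- the coefficients are multiplied by `k`, `k + 1`, ... -/
def derF : F → List F → List F
  | _, [] => []
  | k, x :: t => k * x :: derF (k + 1) t

theorem length_derF (k : F) (l : List F) : (derF k l).length = l.length := by
  induction l generalizing k with
  | nil => rfl
  | cons x t ih => simp [derF, ih]

theorem pol_derF (k : F) (l : List F) :
    pol (derF k l) = C k * pol l + X * derivative (pol l) := by
  induction l generalizing k with
  | nil => simp [derF, pol]
  | cons x t ih =>
    simp only [derF, pol, ih, C_mul, C_add, C_1, derivative_add, derivative_C, derivative_mul,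
      derivative_X]
    ring

/-- derivative of the monic polynomial -/
def derV (P : List F) : List F := derF 1 (P ++ [1]).tail

theorem length_derV (P : List F) : (derV P).length = P.length := by
  simp [derV, length_derF]

theorem pol_derV (P : List F) : pol (derV P) = derivative (mpol P) := by
  rw [← pol_one, derV, pol_derF]
  cases P with
  | nil => simp [pol]
  | cons x t =>
    simp only [List.cons_append, List.tail_cons, pol, derivative_add, derivative_C,
      derivative_mul, derivative_X, C_1]
    ring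

@[simp] theorem val_ap1P {s : List (Ty × Ty)} (v : SV F s) (l : List F) :
    ((ap1P : Pr s Po Po).val v l : List F) = l ++ [1] := by
  simp [ap1P]

theorem cost_ap1P {s : List (Ty × Ty)} (v : SV F s) (k : SC F s) (l : List F) :
    (ap1P : Pr s Po Po).cost v k l ≤ 20 * l.length + 20 := by
  have h := cost_appP (s := s) (a := .fld) v k (l, [(1 : F)])
  simp [ap1P] at h ⊢
  omega

theorem val_derP (P : List F) : (derP.val () P : List F) = derV P := by
  have h : ∀ (l : List F) (k : F), (goV derB .nil () l.length (k, l) : List F) = derF k l := by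
    intro l
    induction l with
    | nil => intro k; simp [goV, derF]
    | cons x t ih => intro k; simp [goV, derB, derF] at ih ⊢; exact ih _
  simp only [derP, val_comp, val_ap1P, val_onL, val_id, val_nil, val_snd, val_pair, val_one,
    val_recD]
  unfold derV
  cases hP : P ++ [1] with
  | nil => simp [derF]
  | cons x t => simp [h]

theorem cost_derP (P : List F) : derP.cost () () P ≤ 50 * P.length + 60 := by
  have h : ∀ (l : List F) (k : F), goC derB .nil () () l.length (k, l) ≤ 25 * l.length + 1 := by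
    intro l
    induction l with
    | nil => intro k; simp [goC]
    | cons x t ih =>
      intro k
      have := ih (k + 1)
      simp [goC, derB] at this ⊢
      omega
  have h1 := cost_ap1P (s := []) () () P
  simp only [derP, cost_comp, val_ap1P, cost_onL, cost_id, cost_nil, cost_snd, cost_pair,
    cost_one, cost_recD, val_id, val_comp, val_pair, val_snd, val_one]
  have h2 : (P ++ [1]).length = P.length + 1 := by simp
  cases hP : P ++ [1] with
  | nil => simp; omega
  | cons x t =>
    have h3 := h t 1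
    rw [hP] at h2
    simp at h2 ⊢
    omega

/-! ### multiplication -/

theorem pol_zp (l m : List F) : pol (zp (fun y z => y + z) l m) = pol l + pol m := by
  induction l generalizing m with
  | nil => simp [zp, pol]
  | cons x l ih =>
    cases m with
    | nil => simp [zp, pol]
    | cons y m => simp only [zp, pol, ih, C_add]; ring

theorem length_zp (l m : List F) (h : l.length ≤ m.length) :
    (zp (fun y z => y + z) l m).length = m.length := by
  induction l generalizing m with
  | nil => simp [zp]
  | cons x l ih =>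
    cases m with
    | nil => simp at h
    | cons y m => simp at h; simp [zp, ih m h]

theorem pol_smul (x : F) (l : List F) : pol (l.map (fun y => x * y)) = C x * pol l := by
  induction l with
  | nil => simp [pol]
  | cons y l ih => simp only [List.map_cons, pol, ih, C_mul]; ring

/-- product of monic polynomials -/
def mulF (b : List F) : List F → List F
  | [] => b
  | x :: t => zp (fun y z => y + z) ((b ++ [1]).map (fun y => x * y)) (0 :: mulF b t)

theorem length_mulF (a b : List F) : (mulF b a).length = a.length + b.length := by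
  induction a with
  | nil => simp [mulF]
  | cons x t ih =>
    rw [mulF, length_zp _ _ (by simp [ih])]
    simp [ih]
    omega

theorem mpol_mulF (a b : List F) : mpol (mulF b a) = mpol a * mpol b := by
  induction a with
  | nil => simp [mulF, mpol_nil]
  | cons x t ih =>
    have h1 : mpol (mulF b (x :: t)) =
        X ^ (0 :: mulF b t).length + pol (mulF b (x :: t)) := by
      rw [mpol, length_mulF, List.length_cons, List.length_cons, length_mulF]
      congr 2
      omega
    rw [h1, mulF, pol_zp, pol_smul, pol_one, mpol_cons]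
    have h2 : X ^ (0 :: mulF b t).length + pol (0 :: mulF b t) = X * mpol (mulF b t) := by
      have := mpol_cons 0 (mulF b t)
      rw [mpol] at this
      rw [this]; simp
    rw [add_mul, mul_assoc X, ← ih, ← h2]
    ring

/-- one step of the multiplication, input `(b, (acc, x))` -/
def mulS : Pr [] (.prod Po (.prod Po .fld)) Po :=
  ap2 (zpP .add) (.comp (.pair (.comp .snd .snd) .fst) (mapP .mul))
    (.comp (.pair .zero (.comp .snd .fst)) .cons)

/-- multiplication of monic polynomials -/
def mulP : Pr [] (.prod Po Po) Po :=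
  .comp (.pair (.comp .snd ap1P) (.pair .snd (.comp .fst revP))) (foldP mulS)

theorem val_mulS (b acc : List F) (x : F) : (mulS.val () (b, (acc, x)) : List F) =
    zp (fun y z => y + z) (b.map (fun y => x * y)) (0 :: acc) := by
  simp [mulS]

theorem val_mulP (a b : List F) : (mulP.val () (a, b) : List F) = mulF b a := by
  have h1 : (mulP.val () (a, b) : List F) = List.foldl
      (fun acc x => zp (fun y z => y + z) ((b ++ [1]).map (fun y => x * y)) (0 :: acc)) b
      (List.reverse a) := by
    simp only [mulP, val_comp, val_pair, val_snd, val_fst, val_ap1P, val_revP, val_foldP]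
    congr 1
    funext y z
    exact val_mulS (b ++ [1]) y z
  rw [h1, List.foldl_reverse]
  clear h1
  induction a with
  | nil => rfl
  | cons x a ih => simp only [List.foldr_cons, mulF]; rw [← ih]

theorem cost_mulP (a b : List F) :
    mulP.cost () () (a, b) ≤ 300 * (a.length + 1) * (b.length + 1) := by
  have h3 := cost_foldP_le (s := []) (F := F) mulS () () (b ++ [1], (b, List.reverse a))
    (55 * b.length + 100) (fun _ => True) trivial (fun _ _ _ _ => trivial)
    (fun y z _ _ => by
      have e1 := cost_mapP_le (s := []) (c := .fld) (a := .fld) (b := .fld) (F := F) .mul () ()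
        (z, b ++ [1]) 1 (fun _ _ => by simp)
      have e2 := cost_zpP_le (s := []) (a := .fld) (F := F) .add () ()
        ((b ++ [1]).map (fun y => z * y), (0 :: y)) 1 (fun _ _ _ _ => by simp)
      simp [mulS] at e1 e2 ⊢
      omega)
  have h1 := cost_ap1P (s := []) () () b
  have h2 := cost_revP (s := []) (F := F) (a := .fld) () () a
  simp [mulP] at h1 h2 h3 ⊢
  nlinarith

/-! ### roots -/

/-- body of the root program -/
def pkB : Pr ((.prod Un Po, Po) :: RT) (.prod Un Po) Po :=
  onL .snd .nil (.comp (.pair (.comp (.comp .snd .fst) (.up .self))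
    (.comp (.pair (.comp .fst .fst) (.comp (.comp .fst splitP) .snd)) .self)) .cons)

/-- the root program, input `(p, l)` -/
def pkP : Pr RT (.prod Un Po) Po := .comp (.pair .snd .id) (.recD pkB .nil)

theorem val_pkP (rt : F → F) (p : ℕ) (l : List F) :
    (pkP.val (rt, ()) (un p, l) : List F) = pk rt p l.length l := by
  have h : ∀ (m : ℕ) (l : List F),
      (goV pkB .nil (rt, ()) m (un p, l) : List F) = pk rt p m l := by
    intro m
    induction m with
    | zero => intro l; simp [goV, pk]
    | succ m ih =>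
      intro l
      cases l with
      | nil => simp [goV, pkB, pk]
      | cons x t =>
        have := ih ((x :: t).drop p)
        simp [goV, pkB, pk, un] at this ⊢
        exact this
  simp only [pkP, val_comp, val_pair, val_snd, val_id, val_recD]
  exact h _ _

theorem cost_pkP (rt : F → F) (p : ℕ) (hp : 1 ≤ p) (j : ℕ) (l : List F)
    (hl : l.length = p * j) :
    pkP.cost (rt, ()) ((fun _ => 1), ()) (un p, l) ≤ 70 * l.length + 30 := by
  have h : ∀ (m j : ℕ) (l : List F), l.length = p * j →
      goC pkB .nil (rt, ()) ((fun _ => 1), ()) m (un p, l) ≤ (24 * p + 40) * j + 10 := by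
    intro m
    induction m with
    | zero => intro j l hl; simp [goC]
    | succ m ih =>
      intro j l hl
      cases l with
      | nil => simp [goC, pkB]
      | cons x t =>
        obtain ⟨j, rfl⟩ : ∃ j', j = j' + 1 := by
          rcases j with _ | j
          · simp at hl
          · exact ⟨j, rfl⟩
        have e1 := ih j ((x :: t).drop p)
          (by rw [List.length_drop, hl, Nat.mul_succ]; omega)
        have e2 := cost_splitP (s := ((.prod Un Po, Po) :: RT)) (F := F) (a := .fld)
          (b := .unit) (goV pkB .nil (rt, ()) m, (rt, ()))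
          (goC pkB .nil (rt, ()) ((fun _ => 1), ()) m, ((fun _ => 1), ())) (un p, x :: t)
        simp [goC, pkB, un] at e1 e2 ⊢
        rw [Nat.mul_succ]
        omega
  have h1 := h l.length j l hl
  simp only [pkP, cost_comp, cost_pair, cost_snd, cost_id, cost_recD, val_pair, val_snd, val_id]
  have h2 : j ≤ l.length := by rw [hl]; exact Nat.le_mul_of_pos_left _ hp
  have h3 : (24 * p + 40) * j = 24 * (p * j) + 40 * j := by ring
  rw [h3, ← hl] at h1
  have h4 : ∀ Y : ℕ, Y ≤ 24 * l.length + 40 * j + 10 →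
      1 + 1 + 1 + (Y + 1) ≤ 70 * l.length + 30 := by
    intro Y hY
    omega
  exact h4 _ h1

end prog


section step
variable {F : Type} [Field F] [DecidableEq F]

/-- repeated squaring, input `(g, (u, list))` -/
def sqP (nv : Pr [] (.prod (.prod Po Po) Po) Po) : Pr [] (.prod Po (.prod Po Un)) Po :=
  foldP (.comp (.pair (.pair (.comp .snd .fst) (.comp .snd .fst)) .fst) nv)

/-- one step, input `P`, output `(w, g1)` -/
def stepP (gw qw mw : Pr [] (.prod Po Po) Po) (nv : Pr [] (.prod (.prod Po Po) Po) Po) :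
    Pr [] Po (.prod Po Po) :=
  lt (ap2 gw .id derP)
    (lt (ap2 qw .fst .snd)
      (lt (ap2 gw (.comp .fst .snd)
          (.comp (.pair (.comp .fst .snd) (.pair
            (ap2 mw (.comp .snd ap1P) (.comp .fst .snd))
            (.comp (.comp .fst .fst) lgP))) (sqP nv)))
        (.pair (.comp .fst .snd) (ap2 qw (.comp (.comp .fst .fst) .snd) .snd))))

theorem sq_fold (nv : List F → List F → List F)
    (hnv : ∀ a P : List F, a.length = P.length → (nv a P).length = P.length ∧
      mpol P ∣ pol a * pol a - pol (nv a P)) (g : List F) {α : Type} (ts : List α) :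
    ∀ u : List F, u.length = g.length →
      (List.foldl (fun y _ => nv y g) u ts).length = g.length ∧
      mpol g ∣ pol u ^ (2 ^ ts.length) - pol (List.foldl (fun y _ => nv y g) u ts) := by
  induction ts with
  | nil => intro u hu; simp [hu]
  | cons t ts ih =>
    intro u hu
    obtain ⟨h1, h2⟩ := hnv u g hu
    obtain ⟨h3, h4⟩ := ih (nv u g) h1
    refine ⟨h3, ?_⟩
    simp only [List.foldl_cons, List.length_cons]
    have e1 : pol u ^ (2 ^ (ts.length + 1)) - pol (nv u g) ^ (2 ^ ts.length) =
        (pol u * pol u) ^ (2 ^ ts.length) - pol (nv u g) ^ (2 ^ ts.length) := by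
      rw [pow_succ 2 ts.length, mul_comm (2 ^ ts.length) 2, pow_mul, sq]
    have e2 := h2.trans (sub_dvd_pow_sub_pow (pol u * pol u) (pol (nv u g)) (2 ^ ts.length))
    rw [← e1] at e2
    have e3 := dvd_add e2 h4
    simpa using e3

/-- the properties of the step -/
structure StepOK (P w g : List F) : Prop where
  sqf : Squarefree (mpol w)
  cop : IsCoprime (mpol w) (mpol g)
  der : derivative (mpol g) = 0
  fac : ∀ Q, Irreducible Q → Q ∣ mpol P → Q ∣ mpol w ∨ Q ∣ mpol g
  dvd : mpol w * mpol g ∣ mpol P

theorem StepOK.len {P w g : List F} (h : StepOK P w g) : w.length + g.length ≤ P.length := by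
  have h1 := natDegree_le_of_dvd h.dvd (monic P).ne_zero
  rwa [natDegree_mul (monic w).ne_zero (monic g).ne_zero, natDeg, natDeg, natDeg] at h1

end step

theorem arith0 (n w q1 q2 q3 q4 q5 q6 q7 q8 Q L x1 x2 x3 x4 x5 x6 x7 x8 x9 : ℕ)
    (hwn : w ≤ n) (h1 : x1 ≤ 50 * n + 60) (h2 : x2 ≤ 4 * q1) (h3 : x3 ≤ 4 * q2)
    (h4 : x4 ≤ 20 * w + 20) (h5 : x5 ≤ 2 * q3) (h6 : x6 ≤ 120 * n + 20)
    (h7 : x7 ≤ q7 + 35 * L + 14) (h8 : x8 ≤ 4 * q1) (h9 : x9 ≤ 4 * q2)
    (e1 : q1 ≤ q4) (e2 : q2 ≤ q5) (e3 : q3 ≤ q6) (hq : n + 1 ≤ Q) (hQ : Q ≤ q8)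
    (hL : L ≤ q8) :
    x1 + x2 + x3 + x4 + x5 + x6 + x7 + x8 + x9 + 60 ≤
      8 * q4 + 8 * q5 + 2 * q6 + q7 + 1000 * q8 := by
  omega

theorem arith (C1 C2 C3 C4 n g w u c t L x1 x2 x3 x4 x5 x6 x7 x8 x9 : ℕ)
    (hgn : g ≤ n) (hwn : w ≤ n) (hun : u ≤ n) (hcn : c ≤ n) (hn2 : t + 1 ≤ L)
    (h1 : x1 ≤ 50 * n + 60) (h2 : x2 ≤ C1 * (n + n + 1) ^ 2)
    (h3 : x3 ≤ C2 * (n + g + 1) ^ 2) (h4 : x4 ≤ 20 * w + 20)
    (h5 : x5 ≤ C3 * (w + 1 + g + 1) * (g + 1)) (h6 : x6 ≤ 120 * n + 20)
    (h7 : x7 ≤ (C4 * (g + 1) ^ 2 + 8 + 27) * t + 14) (h8 : x8 ≤ C1 * (g + u + 1) ^ 2)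
    (h9 : x9 ≤ C2 * (g + c + 1) ^ 2) :
    x1 + x2 + x3 + x4 + x5 + x6 + x7 + x8 + x9 + 60 ≤
      (8 * C1 + 8 * C2 + 2 * C3 + C4 + 1000) * (L * (n + 1) ^ 2) := by
  have m0 : (n + n + 1) ^ 2 ≤ 4 * (n + 1) ^ 2 := by
    calc (n + n + 1) ^ 2 ≤ (2 * (n + 1)) ^ 2 := Nat.pow_le_pow_left (by omega) 2
      _ = _ := by ring
  have m1 : C1 * (n + n + 1) ^ 2 ≤ 4 * (C1 * (n + 1) ^ 2) := by
    calc C1 * (n + n + 1) ^ 2 ≤ C1 * (4 * (n + 1) ^ 2) := Nat.mul_le_mul_left _ m0
      _ = _ := by ring
  have m2 : C2 * (n + n + 1) ^ 2 ≤ 4 * (C2 * (n + 1) ^ 2) := by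
    calc C2 * (n + n + 1) ^ 2 ≤ C2 * (4 * (n + 1) ^ 2) := Nat.mul_le_mul_left _ m0
      _ = _ := by ring
  have m3 : C3 * (w + 1 + g + 1) * (g + 1) ≤ 2 * (C3 * (n + 1) ^ 2) := by
    have : (w + 1 + g + 1) * (g + 1) ≤ (n + 1 + n + 1) * (n + 1) :=
      Nat.mul_le_mul (by omega) (by omega)
    calc C3 * (w + 1 + g + 1) * (g + 1) =
          C3 * ((w + 1 + g + 1) * (g + 1)) := by ring
      _ ≤ C3 * ((n + 1 + n + 1) * (n + 1)) := Nat.mul_le_mul_left _ this
      _ = _ := by ring
  have m4 : C1 * (g + u + 1) ^ 2 ≤ C1 * (n + n + 1) ^ 2 :=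
    Nat.mul_le_mul_left _ (Nat.pow_le_pow_left (by omega) 2)
  have m5 : C2 * (g + c + 1) ^ 2 ≤ C2 * (n + n + 1) ^ 2 :=
    Nat.mul_le_mul_left _ (Nat.pow_le_pow_left (by omega) 2)
  have m5' : C2 * (n + g + 1) ^ 2 ≤ C2 * (n + n + 1) ^ 2 :=
    Nat.mul_le_mul_left _ (Nat.pow_le_pow_left (by omega) 2)
  have m6 : (C4 * (g + 1) ^ 2 + 8 + 27) * t ≤ C4 * (L * (n + 1) ^ 2) + 35 * L := by
    have e1 : (g + 1) ^ 2 ≤ (n + 1) ^ 2 := Nat.pow_le_pow_left (by omega) 2
    have e2 : C4 * (g + 1) ^ 2 ≤ C4 * (n + 1) ^ 2 := Nat.mul_le_mul_left C4 e1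
    calc (C4 * (g + 1) ^ 2 + 8 + 27) * t ≤ (C4 * (n + 1) ^ 2 + 8 + 27) * L :=
          Nat.mul_le_mul (Nat.add_le_add_right (Nat.add_le_add_right e2 _) _) (by omega)
      _ = _ := by ring
  have hq : n + 1 ≤ (n + 1) ^ 2 := Nat.le_self_pow (by norm_num) _
  have hQL : (n + 1) ^ 2 ≤ L * (n + 1) ^ 2 := Nat.le_mul_of_pos_left _ (by omega)
  have hLQ : L ≤ L * (n + 1) ^ 2 := Nat.le_mul_of_pos_right _ (by positivity)
  have e0 : (8 * C1 + 8 * C2 + 2 * C3 + C4 + 1000) * (L * (n + 1) ^ 2) =
    8 * (C1 * (L * (n + 1) ^ 2)) + 8 * (C2 * (L * (n + 1) ^ 2)) +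
      2 * (C3 * (L * (n + 1) ^ 2)) + C4 * (L * (n + 1) ^ 2) +
      1000 * (L * (n + 1) ^ 2) := by ring
  rw [e0]
  exact arith0 n w _ _ _ _ _ _ _ _ _ L x1 x2 x3 x4 x5 x6 x7 x8 x9 hwn h1 (h2.trans m1)
    ((h3.trans m5').trans m2) h4 (h5.trans m3) h6 (h7.trans (Nat.add_le_add_right m6 _))
    ((h8.trans m4).trans m1) ((h9.trans m5).trans m2)
    (Nat.mul_le_mul_left _ hQL) (Nat.mul_le_mul_left _ hQL) (Nat.mul_le_mul_left _ hQL)
    hq hQL hLQ

theorem step (h1 : SpecGcd) (h2 : SpecQuo) (h3 : SpecRem) (h4 : SpecNaive) :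
    ∃ (st : Pr [] Po (.prod Po Po)) (K : ℕ), ∀ (F : Type) [Field F] [DecidableEq F]
      (P : List F), StepOK P (st.val () P).1 (st.val () P).2 ∧
      st.cost () () P ≤ K * (lgc (P.length + 1) * (P.length + 1) ^ 2) := by
  obtain ⟨gw, C1, h1⟩ := h1
  obtain ⟨qw, C2, h2⟩ := h2
  obtain ⟨mw, C3, h3⟩ := h3
  obtain ⟨nv, C4, h4⟩ := h4
  refine ⟨stepP gw qw mw nv, 8 * C1 + 8 * C2 + 2 * C3 + C4 + 1000, fun F _ _ P => ?_⟩
  -- the values
  obtain ⟨g, hg⟩ : ∃ g : List F, g = gw.val () (P, derV P) := ⟨_, rfl⟩
  obtain ⟨w, hw⟩ : ∃ w : List F, w = qw.val () (P, g) := ⟨_, rfl⟩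
  obtain ⟨u0, hu0⟩ : ∃ u : List F, u = mw.val () (w ++ [1], g) := ⟨_, rfl⟩
  obtain ⟨ts, hts⟩ : ∃ ts : List Unit, ts = (lgP : Pr [] Po Un).val () P := ⟨_, rfl⟩
  obtain ⟨u, hu⟩ : ∃ u : List F, u = List.foldl (fun y _ => nv.val () ((y, y), g)) u0 ts :=
    ⟨_, rfl⟩
  obtain ⟨c, hc⟩ : ∃ c : List F, c = gw.val () (g, u) := ⟨_, rfl⟩
  obtain ⟨B, hB⟩ : ∃ B : List F, B = qw.val () (g, c) := ⟨_, rfl⟩
  have hv : (stepP gw qw mw nv).val () P = (w, B) := by
    simp only [stepP, val_lt, val_comp, val_pair, val_id, val_fst, val_snd, val_derP,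
      val_ap1P, sqP, val_foldP]
    rw [← hg, ← hw, ← hu0, ← hts, ← hu, ← hc, ← hB]
  -- the greatest common divisor
  obtain ⟨g1, g2, g3, g4, g5⟩ := h1 F P (derV P)
  rw [← hg] at g1 g2 g3 g4
  rw [length_derV] at g5
  rw [pol_derV] at g3 g4
  obtain ⟨w1, w2, w3⟩ := h2 F P g
  rw [← hw] at w1 w2
  have w4 := w2 g2
  obtain ⟨r1, r2, r3⟩ := h3 F (w ++ [1]) g
  rw [← hu0] at r1 r2
  rw [pol_one] at r2
  rw [List.length_append, List.length_singleton] at r3
  have hnv : ∀ a P : List F, a.length = P.length →
      List.length (nv.val () ((a, a), P) : List F) = P.length ∧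
      mpol P ∣ pol a * pol a - pol (nv.val () ((a, a), P)) := fun a P ha =>
    ⟨(h4 F a a P ha ha).1, (h4 F a a P ha ha).2.1⟩
  obtain ⟨s1, s2⟩ := sq_fold (fun a P => nv.val () ((a, a), P)) hnv g ts u0 r1
  rw [← hu] at s1 s2
  obtain ⟨c1, c2, c3, c4, c5⟩ := h1 F g u
  rw [← hc] at c1 c2 c3 c4
  obtain ⟨b1, b2, b3⟩ := h2 F g c
  rw [← hB] at b1 b2
  have b4 := b2 c2
  have tl : ts.length = Nat.clog 2 P.length := by rw [hts]; exact val_lgP _ _
  have hN : P.length ≤ 2 ^ ts.length := by
    rw [tl]; exact Nat.le_pow_clog (by norm_num) _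
  have s3 : mpol g ∣ mpol w ^ (2 ^ ts.length) - pol u := by
    have e1 := r2.trans (sub_dvd_pow_sub_pow (mpol w) (pol u0) (2 ^ ts.length))
    have e2 := dvd_add e1 s2
    simpa using e2
  have hP0 := (monic P).ne_zero
  obtain ⟨k1, k2, k3, k4⟩ := core (mpol P) (mpol g) (mpol w) (mpol c) (pol u) (mpol B)
    (2 ^ ts.length) hP0 g3 w4 c2 c3 c4 s3 (by rw [natDeg]; omega) b4
  rw [hv]
  refine ⟨⟨sqf_core (mpol P) (mpol g) (mpol w) hP0 g4 w4, k1, k2, k3, k4⟩, ?_⟩
  -- the cost
  have hder := cost_derP P
  have hap := cost_ap1P (s := []) () () w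
  have hlg := cost_lgP (s := []) (F := F) (a := .fld) () () P
  have hsq := cost_foldP_le (s := []) (F := F) (c := Po) (b := Po) (a := .unit)
    (.comp (.pair (.pair (.comp .snd .fst) (.comp .snd .fst)) .fst) nv) () () (g, (u0, ts))
    (C4 * (g.length + 1) ^ 2 + 8) (fun y => List.length y = g.length) r1
    (fun y z hy _ => by
      simp only [val_comp, val_pair, val_snd, val_fst]
      exact (h4 F y y g hy hy).1)
    (fun y z hy _ => by
      have := (h4 F y y g hy hy).2.2
      simp only [cost_comp, cost_pair, cost_snd, cost_fst, val_comp, val_pair, val_snd, val_fst]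
      omega)
  have hcost : (stepP gw qw mw nv).cost () () P ≤
      derP.cost () () P + gw.cost () () (P, derV P) + qw.cost () () (P, g) +
      (ap1P : Pr [] Po Po).cost () () w + mw.cost () () (w ++ [1], g) +
      (lgP : Pr [] Po Un).cost () () P +
      (foldP (c := Po) (b := Po) (a := .unit)
        (.comp (.pair (.pair (.comp .snd .fst) (.comp .snd .fst)) .fst) nv)).cost () ()
        (g, (u0, ts)) + gw.cost () () (g, u) + qw.cost () () (g, c) + 60 := by
    simp only [stepP, cost_lt, cost_comp, cost_pair, cost_id, cost_fst, cost_snd,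
      val_comp, val_pair, val_id, val_fst, val_snd, val_derP,
      val_ap1P, sqP, val_foldP]
    rw [← hg, ← hw, ← hu0, ← hts, ← hu, ← hc]
    omega
  refine hcost.trans ?_
  have hn2 : ts.length + 1 ≤ lgc (P.length + 1) := by
    rw [tl]
    exact Nat.succ_le_succ (Nat.clog_mono_right 2 (Nat.le_succ P.length))
  exact arith C1 C2 C3 C4 P.length g.length w.length u.length c.length ts.length
    (lgc (P.length + 1)) _ _ _ _ _ _ _ _ _ g1 (by omega) (by omega) (by omega) hn2
    hder g5 w3 hap r3 hlg hsq c5 b3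


section main
variable {F : Type} [Field F] [DecidableEq F]

/-- the properties of the radical -/
structure RadOK (P R : List F) : Prop where
  len : R.length ≤ P.length
  sqf : Squarefree (mpol R)
  dvd : mpol R ∣ mpol P
  dvd' : mpol P ∣ mpol R ^ P.length

theorem RadOK.mk' {P R : List F} (h1 : Squarefree (mpol R)) (h2 : mpol R ∣ mpol P)
    (h3 : ∀ Q, Irreducible Q → Q ∣ mpol P → Q ∣ mpol R) : RadOK P R := by
  refine ⟨?_, h1, h2, ?_⟩
  · have := natDegree_le_of_dvd h2 (monic P).ne_zero
    rwa [natDeg, natDeg] at this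
  · have := dvd_pow_deg (mpol P) (mpol R) (monic P).ne_zero h3
    rwa [natDeg] at this

theorem ok_nil : RadOK ([] : List F) [] := by
  refine RadOK.mk' ?_ dvd_rfl (fun Q _ h => h)
  rw [mpol_nil]
  exact squarefree_one

theorem ok_w {P w : List F} (h : StepOK P w []) : RadOK P w := by
  refine RadOK.mk' h.sqf ((dvd_mul_right _ _).trans h.dvd) (fun Q hQ hd => ?_)
  rcases h.fac Q hQ hd with h1 | h1
  · exact h1
  · rw [mpol_nil] at h1
    exact absurd (isUnit_of_dvd_one h1) hQ.not_isUnit

theorem ok_rec {P w g R : List F} (h : StepOK P w g) (p : ℕ) (hp : p.Prime) [CharP F p]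
    (rt : F → F) (hrt : ∀ x, rt x ^ p = x) (hR : RadOK (pk rt p g.length g) R) :
    RadOK P (mulF R w) := by
  obtain ⟨⟨j, hj⟩, h2⟩ := root_cond p hp g h.der
  have hjg : j ≤ g.length := by rw [hj]; exact Nat.le_mul_of_pos_left _ hp.pos
  have h3 := pow_pk rt p hp hrt g.length j g hj hjg h2
  have h4 : mpol (pk rt p g.length g) ∣ mpol g := by
    rw [← h3]; exact dvd_pow_self _ hp.ne_zero
  have h5 : mpol R ∣ mpol g := hR.dvd.trans h4
  refine RadOK.mk' ?_ ?_ ?_
  · rw [mpol_mulF, squarefree_mul_iff]
    exact ⟨(h.cop.of_isCoprime_of_dvd_right h5).isRelPrime, h.sqf, hR.sqf⟩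
  · rw [mpol_mulF]
    exact (mul_dvd_mul_left _ h5).trans h.dvd
  · intro Q hQ hd
    rw [mpol_mulF]
    rcases h.fac Q hQ hd with h6 | h6
    · exact h6.mul_right _
    · rw [← h3] at h6
      have h7 := hQ.prime.dvd_of_dvd_pow h6
      have h8 := hQ.prime.dvd_of_dvd_pow (h7.trans hR.dvd')
      exact h8.mul_left _

/-- body of the radical -/
def radB (st : Pr [] Po (.prod Po Po)) : Pr ((.prod Un Po, Po) :: RT) (.prod Un Po) Po :=
  onL .snd .nil
   (.comp .fst
    (lt (.comp .snd (liftP _ st))
      (onL (.comp .snd .snd) (.comp .snd .fst)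
        (.comp .fst
          (ap2 (liftP _ mulP) (.comp .snd .fst)
            (.comp (.pair (.comp .fst .fst)
              (ap2 (.up pkP) (.comp .fst .fst) (.comp .snd .snd))) .self))))))

/-- the radical -/
def radP (st : Pr [] Po (.prod Po Po)) : Pr RT (.prod Un Po) Po :=
  .comp (.pair .snd .id) (.recD (radB st) .nil)

theorem val_radB (st : Pr [] Po (.prod Po Po)) (rt : F → F)
    (f : List Unit × List F → List F) (p : ℕ)
    (P w g v : List F) (hP : P ≠ []) (hw : w = (st.val () P).1) (hg : g = (st.val () P).2)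
    (hv : v = pk rt p g.length g) :
    ((radB st).val (f, (rt, ())) (un p, P) : List F) =
      lcase g w (fun _ _ => mulF (f (un p, v)) w) := by
  cases P with
  | nil => exact absurd rfl hP
  | cons x t =>
    have h1 : ((radB st).val (f, (rt, ())) (un p, x :: t) : List F) =
        lcase (st.val () (x :: t)).2 (st.val () (x :: t)).1 (fun _ _ =>
          mulP.val () ((st.val () (x :: t)).1,
            f (un p, pkP.val (rt, ()) (un p, (st.val () (x :: t)).2)))) := by
      simp [radB]
    have h2 : ∀ w g : List F, (mulP.val () (w, f (un p, pkP.val (rt, ()) (un p, g))) : List F) =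
        mulF (f (un p, pk rt p g.length g)) w := by
      intro w g
      rw [← val_pkP rt p g]
      exact val_mulP _ _
    rw [h1]
    subst hv hw hg
    exact congrArg (lcase _ _) (funext fun _ => funext fun _ => h2 _ _)

theorem val_radB_nil (st : Pr [] Po (.prod Po Po)) (rt : F → F)
    (f : List Unit × List F → List F) (p : ℕ) :
    ((radB st).val (f, (rt, ())) (un p, []) : List F) = [] := by
  simp [radB]

theorem cost_radB_nil (st : Pr [] Po (.prod Po Po)) (rt : F → F)
    (f : List Unit × List F → List F) (c : List Unit × List F → ℕ) (p : ℕ) :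
    (radB st).cost (f, (rt, ())) (c, ((fun _ => 1), ())) (un p, []) ≤ 10 := by
  simp [radB]

theorem cost_radB (st : Pr [] Po (.prod Po Po)) (rt : F → F)
    (f : List Unit × List F → List F) (c : List Unit × List F → ℕ) (p : ℕ)
    (P w g v : List F) (hP : P ≠ []) (hw : w = (st.val () P).1) (hg : g = (st.val () P).2)
    (hv : v = pk rt p g.length g) :
    (radB st).cost (f, (rt, ())) (c, ((fun _ => 1), ())) (un p, P) ≤
      st.cost () () P + 40 + (if g = [] then 0 else
        (pkP.cost (rt, ()) ((fun _ => 1), ()) (un p, g) + c (un p, v) +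
          mulP.cost () () (w, f (un p, v)))) := by
  cases P with
  | nil => exact absurd rfl hP
  | cons x t =>
    have hv' : v = pkP.val (rt, ()) (un p, g) := hv.trans (val_pkP rt p g).symm
    simp only [radB, cost_onL, val_snd, cost_snd, cost_nil, lcase_cons, cost_comp, cost_fst,
      val_fst, cost_lt, cost_liftP, val_comp, val_liftP, cost_pair, val_pair, cost_up, cost_self,
      val_up, val_self]
    rw [← hw, ← hg, ← hv']
    cases g with
    | nil => simp; omega
    | cons y s => simp; omega

end main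

theorem arithR (K L Lv n v x : ℕ) (hn : 2 ≤ n) (hv : 2 * v ≤ n) (hL : Lv ≤ L) (hL1 : 1 ≤ L)
    (hx : x ≤ (2 * (K + 600)) * (Lv * (v + 1) ^ 2)) :
    K * (L * (n + 1) ^ 2) + 40 + (70 * n + 30 + x + 300 * (n + 1) * (n + 1)) ≤
      (2 * (K + 600)) * (L * (n + 1) ^ 2) := by
  have h1 : 9 * (v + 1) ^ 2 ≤ 4 * (n + 1) ^ 2 := by
    have : (3 * (v + 1)) ^ 2 ≤ (2 * (n + 1)) ^ 2 := Nat.pow_le_pow_left (by omega) 2
    calc 9 * (v + 1) ^ 2 = (3 * (v + 1)) ^ 2 := by ring
      _ ≤ _ := this
      _ = _ := by ring
  have h2 : 9 * ((2 * (K + 600)) * (Lv * (v + 1) ^ 2)) ≤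
      4 * ((2 * (K + 600)) * (L * (n + 1) ^ 2)) := by
    calc 9 * ((2 * (K + 600)) * (Lv * (v + 1) ^ 2)) =
          (2 * (K + 600)) * (Lv * (9 * (v + 1) ^ 2)) := by ring
      _ ≤ (2 * (K + 600)) * (L * (4 * (n + 1) ^ 2)) :=
        Nat.mul_le_mul_left _ (Nat.mul_le_mul hL h1)
      _ = _ := by ring
  have h3 : (n + 1) ^ 2 ≤ L * (n + 1) ^ 2 := Nat.le_mul_of_pos_left _ (by omega)
  have h4 : n + 1 ≤ (n + 1) ^ 2 := Nat.le_self_pow (by norm_num) _
  have h5 : 300 * (n + 1) * (n + 1) = 300 * (n + 1) ^ 2 := by ring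
  have h6 : (2 * (K + 600)) * (L * (n + 1) ^ 2) =
      2 * (K * (L * (n + 1) ^ 2)) + 1200 * (L * (n + 1) ^ 2) := by ring
  rw [h5]
  rw [h6] at h2 ⊢
  omega

/-- the statement -/
theorem specRad' (h1 : SpecGcd) (h2 : SpecQuo) (h3 : SpecRem) (h4 : SpecNaive) : SpecRad := by
  obtain ⟨st, K, hst⟩ := step h1 h2 h3 h4
  refine ⟨radP st, 2 * (K + 600) + 10, 1, fun F _ _ p rt P hp hchar hrt => ?_⟩
  have key : ∀ (m : ℕ) (P : List F), P.length ≤ m →
      RadOK P (goV (radB st) .nil (rt, ()) m (un p, P)) ∧
      goC (radB st) .nil (rt, ()) ((fun _ => 1), ()) m (un p, P) ≤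
        (2 * (K + 600)) * (lgc (P.length + 1) * (P.length + 1) ^ 2) := by
    intro m
    induction m with
    | zero =>
      intro P hP
      have : P = [] := List.length_eq_zero_iff.1 (by omega)
      subst this
      refine ⟨ok_nil, ?_⟩
      simp [goC, lgc]
      omega
    | succ m ih =>
      intro P hP
      by_cases hP0 : P = []
      · subst hP0
        refine ⟨?_, ?_⟩
        · have := val_radB_nil st rt (goV (radB st) .nil (rt, ()) m) p
          have e : (goV (radB st) .nil (rt, ()) (m + 1) (un p, []) : List F) = [] := this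
          rw [e]
          exact ok_nil
        · have := cost_radB_nil st rt (goV (radB st) .nil (rt, ()) m)
            (goC (radB st) .nil (rt, ()) ((fun _ => 1), ()) m) p
          simp only [goC]
          refine this.trans ?_
          simp [lgc]
          omega
      · obtain ⟨hok, hc⟩ := hst F P
        obtain ⟨w, hw⟩ : ∃ w : List F, w = (st.val () P).1 := ⟨_, rfl⟩
        obtain ⟨g, hg⟩ : ∃ g : List F, g = (st.val () P).2 := ⟨_, rfl⟩
        obtain ⟨v, hv⟩ : ∃ v : List F, v = pk rt p g.length g := ⟨_, rfl⟩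
        rw [← hw, ← hg] at hok
        have hlen := hok.len
        have hcst := cost_radB st rt (goV (radB st) .nil (rt, ()) m)
          (goC (radB st) .nil (rt, ()) ((fun _ => 1), ()) m) p P w g v hP0 hw hg hv
        have hval : (goV (radB st) .nil (rt, ()) (m + 1) (un p, P) : List F) =
            lcase g w (fun _ _ => mulF (goV (radB st) .nil (rt, ()) m (un p, v)) w) :=
          val_radB st rt (goV (radB st) .nil (rt, ()) m) p P w g v hP0 hw hg hv
        have hL1 : 1 ≤ lgc (P.length + 1) := Nat.le_add_left 1 _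
        by_cases hg0 : g = []
        · subst hg0
          refine ⟨?_, ?_⟩
          · rw [hval]
            exact ok_w hok
          · simp only [goC]
            refine hcst.trans ?_
            simp only [if_true]
            have e1 : 1 ≤ lgc (P.length + 1) * (P.length + 1) ^ 2 :=
              Nat.mul_pos hL1 (by positivity)
            have e2 : (2 * (K + 600)) * (lgc (P.length + 1) * (P.length + 1) ^ 2) =
              2 * (K * (lgc (P.length + 1) * (P.length + 1) ^ 2)) +
                1200 * (lgc (P.length + 1) * (P.length + 1) ^ 2) := by ring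
            rw [e2]
            omega
        · obtain ⟨⟨j, hj⟩, hz⟩ := root_cond p hp g hok.der
          have hj1 : 1 ≤ j := by
            rcases Nat.eq_zero_or_pos j with h | h
            · exfalso
              apply hg0
              exact List.length_eq_zero_iff.1 (by rw [hj, h, Nat.mul_zero])
            · exact h
          have hjg : j ≤ g.length := by rw [hj]; exact Nat.le_mul_of_pos_left _ hp.pos
          have hvl : v.length = j := by
            rw [hv]; exact length_pk rt p hp.pos g.length j g hj hjg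
          have h2j : 2 * j ≤ g.length := by rw [hj]; exact Nat.mul_le_mul_right _ hp.two_le
          obtain ⟨i1, i2⟩ := ih v (by omega)
          refine ⟨?_, ?_⟩
          · rw [hval]
            have : lcase g w (fun _ _ => mulF (goV (radB st) .nil (rt, ()) m (un p, v)) w) =
                mulF (goV (radB st) .nil (rt, ()) m (un p, v)) w := by
              cases g with
              | nil => exact absurd rfl hg0
              | cons x t => rfl
            rw [this]
            rw [hv] at i1 ⊢
            exact ok_rec hok p hp rt hrt i1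
          · simp only [goC]
            refine hcst.trans ?_
            rw [if_neg hg0]
            have e1 := cost_pkP rt p hp.pos j g hj
            have e2 := cost_mulP w (goV (radB st) .nil (rt, ()) m (un p, v) : List F)
            have e3 := i1.len
            have e4 : mulP.cost () () (w, (goV (radB st) .nil (rt, ()) m (un p, v) : List F)) ≤
                300 * (P.length + 1) * (P.length + 1) := by
              refine e2.trans ?_
              exact Nat.mul_le_mul (Nat.mul_le_mul_left _ (by omega)) (by omega)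
            have e5 := arithR K (lgc (P.length + 1)) (lgc (v.length + 1)) P.length v.length _
              (by omega) (by omega)
              (Nat.succ_le_succ (Nat.clog_mono_right 2 (by omega))) hL1 i2
            refine le_trans (Nat.add_le_add (Nat.add_le_add_right hc _) ?_) e5
            exact Nat.add_le_add (Nat.add_le_add (e1.trans (by omega)) le_rfl) e4
  obtain ⟨k1, k2⟩ := key P.length P le_rfl
  have hval : ((radP st).val (rt, ()) (un p, P) : List F) =
      goV (radB st) .nil (rt, ()) P.length (un p, P) := by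
    simp only [radP, val_comp, val_pair, val_snd, val_id, val_recD]
  intro R
  have hR : R = goV (radB st) .nil (rt, ()) P.length (un p, P) := hval
  rw [hR]
  refine ⟨k1.len, k1.sqf, k1.dvd, k1.dvd', ?_⟩
  simp only [radP, cost_comp, cost_pair, cost_snd, cost_id, cost_recD, val_pair, val_snd, val_id]
  have e1 : 1 ≤ lgc (P.length + 1) * (P.length + 1) ^ 2 :=
    Nat.mul_pos (Nat.le_add_left 1 _) (by positivity)
  have e2 : lgc (P.length + 1) * (P.length + 1) ^ 2 ≤
      lgc (P.length + 1) * ((P.length + 1) ^ 2 + p) :=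
    Nat.mul_le_mul_left _ (Nat.le_add_right _ _)
  calc _ ≤ 1 + 1 + 1 + ((2 * (K + 600)) * (lgc (P.length + 1) * (P.length + 1) ^ 2) + 1) :=
        Nat.add_le_add_left (Nat.add_le_add_right k2 _) _
    _ ≤ (2 * (K + 600) + 10) * (lgc (P.length + 1) * (P.length + 1) ^ 2) := by
        have : (2 * (K + 600) + 10) * (lgc (P.length + 1) * (P.length + 1) ^ 2) =
          (2 * (K + 600)) * (lgc (P.length + 1) * (P.length + 1) ^ 2) +
            10 * (lgc (P.length + 1) * (P.length + 1) ^ 2) := by ring
        rw [this]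
        omega
    _ ≤ (2 * (K + 600) + 10) * (lgc (P.length + 1) * ((P.length + 1) ^ 2 + p)) :=
        Nat.mul_le_mul_left _ e2
    _ = _ := by rw [pow_one]; ring

end JRad

/-- TARGET -/
theorem specRad (h1 : SpecGcd) (h2 : SpecQuo) (h3 : SpecRem) (h4 : SpecNaive) : SpecRad :=
  JRad.specRad' h1 h2 h3 h4
end Pool.Agent.H330AB.JK3
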