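import Pool.Agent.H330AB.SpecB2
set_option autoImplicit false
noncomputable section
namespace Pool.Agent.H330AB.JK4
open Polynomial Pool.Agent.H330FB

namespace SqfK4

/-- the state `(p, (P, (R, i)))` -/
abbrev SqS : Ty := .prod Un (.prod Po (.prod Po Un))
/-- the output -/
abbrev SqO : Ty := .list (.prod Un Po)

/-- one step -/
def sqB (wR : Pr RT (.prod Un Po) Po) (wQ : Pr [] (.prod Po Po) Po) :
    Pr ((SqS, SqO) :: RT) SqS SqO :=
  onL (.comp .snd .fst) .nil
    (.comp .fst
      (lt (ap2 (liftP _ wQ) (.comp .snd .fst) (.comp .snd (.comp .snd .fst)))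
        (lt (ap2 (.up wR) (.comp .fst .fst) .snd)
          (lt (ap2 (liftP _ wQ) (.comp .fst (.comp .fst (.comp .snd (.comp .snd .fst)))) .snd)
            (lt (.comp (.pair (.comp .fst (.comp .fst (.comp .fst .fst)))
                (.pair (.comp .fst (.comp .fst .snd)) (.pair (.comp .fst .snd)
                  (.comp (.pair .star (.comp .fst (.comp .fst (.comp .fst
                    (.comp .snd (.comp .snd .snd)))))) .cons)))) .self)
              (onL (.comp .fst .snd) .snd
                (.comp (.pair (.pair (.comp .fst (.comp .fst (.comp .fst (.comp .fst (.comp .fst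
                    (.comp .snd (.comp .snd .snd))))))) (.comp .fst (.comp .fst .snd)))
                  (.comp .fst .snd)) .cons)))))))

/-- the recursive part -/
def sqP (wR : Pr RT (.prod Un Po) Po) (wQ : Pr [] (.prod Po Po) Po) :
    Pr RT (.prod Un Po) SqO :=
  .comp (.pair .snd (.pair .fst (.pair .snd (.pair wR (.comp (.pair .star .nil) .cons)))))
    (.recD (sqB wR wQ) .nil)

variable {F : Type} [Field F]

/-- invariant -/
structure Inv (P R : List F) : Prop where
  le : R.length ≤ P.length
  sq : Squarefree (mpol R)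
  dv : mpol R ∣ mpol P
  pw : mpol P ∣ mpol R ^ P.length

/-- result -/
structure Res (P R : List F) (i : ℕ) (out : List (List Unit × List F)) : Prop where
  prod : (out.map (fun o => mpol o.2 ^ (o.1.length + 1 - i))).prod = mpol P
  rad : (out.map (fun o => mpol o.2)).prod = mpol R
  pos : ∀ o ∈ out, i ≤ o.1.length ∧ 1 ≤ o.2.length
  nd : (out.map (fun o => o.1.length)).Nodup

theorem mpol_nil : mpol ([] : List F) = 1 := by simp [mpol, pol]

theorem degree_pol_lt (l : List F) : (pol l).degree < (l.length : WithBot ℕ) := by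
  induction l with
  | nil => simp [pol]
  | cons x l ih =>
    have h1 : (C x : F[X]).degree < ((l.length + 1 : ℕ) : WithBot ℕ) :=
      lt_of_le_of_lt degree_C_le (by exact_mod_cast Nat.succ_pos _)
    have h2 : (X * pol l : F[X]).degree < ((l.length + 1 : ℕ) : WithBot ℕ) := by
      rcases eq_or_ne (pol l) 0 with h | h
      · rw [h, mul_zero, degree_zero]; exact WithBot.bot_lt_coe _
      · rw [degree_mul, degree_X]
        rw [degree_eq_natDegree h] at ih ⊢
        have : (pol l).natDegree < l.length := by exact_mod_cast ih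
        have h3 : 1 + (pol l).natDegree < l.length + 1 := by omega
        exact_mod_cast h3
    have : pol (x :: l) = C x + X * pol l := rfl
    rw [this, List.length_cons]
    exact lt_of_le_of_lt (degree_add_le _ _) (max_lt h1 h2)

theorem mpol_monic (l : List F) : (mpol l).Monic := by
  unfold mpol
  exact monic_X_pow_add (degree_pol_lt l)

theorem mpol_natDegree (l : List F) : (mpol l).natDegree = l.length := by
  unfold mpol
  rw [natDegree_add_eq_left_of_degree_lt, natDegree_X_pow]
  rw [degree_X_pow]
  exact degree_pol_lt l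

theorem Inv.pos {P R : List F} (h : Inv P R) (hP : P ≠ []) : 1 ≤ R.length := by
  by_contra hR
  have hR : R = [] := List.length_eq_zero_iff.mp (by omega)
  have h1 := h.pw
  rw [hR, mpol_nil, one_pow] at h1
  have h2 := natDegree_le_of_dvd h1 one_ne_zero
  rw [mpol_natDegree, natDegree_one] at h2
  exact hP (List.length_eq_zero_iff.mp (by omega))

theorem Inv.nil {R : List F} (h : Inv [] R) : R = [] :=
  List.length_eq_zero_iff.mp (by simpa using h.le)

/-- one step keeps `rad` dividing -/
theorem step_dvd {P R P' R' : List F} (h : Inv P R) (h1 : mpol P' * mpol R = mpol P)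
    (h2 : Inv P' R') : mpol R' ∣ mpol R := by
  rcases eq_or_ne P.length 0 with h0 | h0
  · have hP : P = [] := List.length_eq_zero_iff.mp h0
    subst hP
    have hR := h.nil
    subst hR
    rw [mpol_nil, mul_one] at h1
    have h3 := h2.dv
    rw [h1] at h3
    rw [mpol_nil]
    exact h3
  · have h3 : mpol R' ∣ mpol R ^ P.length :=
      h2.dv.trans ((Dvd.intro _ h1).trans h.pw)
    exact (h2.sq.dvd_pow_iff_dvd h0).mp h3

theorem step_res {P R P' R' Q : List F} {i : ℕ} {rest : List (List Unit × List F)}
    (h1 : mpol P' * mpol R = mpol P) (h3 : mpol Q * mpol R' = mpol R)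
    (hr : Res P' R' (i + 1) rest) (I : List Unit) (hI : I.length = i) :
    Res P R i (lcase Q rest (fun _ _ => (I, Q) :: rest)) := by
  have key : (rest.map (fun o => mpol o.2 ^ (o.1.length + 1 - i))).prod = mpol P' * mpol R' := by
    rw [← hr.prod, ← hr.rad, ← List.prod_map_mul]
    congr 1
    apply List.map_congr_left
    intro o ho
    have := (hr.pos o ho).1
    rw [← pow_succ]
    congr 1
    omega
  rcases Q with _ | ⟨x, Q⟩
  · simp only [lcase_nil]
    rw [mpol_nil, one_mul] at h3
    refine ⟨?_, ?_, ?_, ?_⟩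
    · rw [key, h3, h1]
    · rw [hr.rad, h3]
    · intro o ho
      have := hr.pos o ho
      exact ⟨by omega, this.2⟩
    · exact hr.nd
  · simp only [lcase_cons]
    refine ⟨?_, ?_, ?_, ?_⟩
    · simp only [List.map_cons, List.prod_cons, key, hI]
      rw [show i + 1 - i = 1 by omega, pow_one, ← h1, ← h3]
      ring
    · simp only [List.map_cons, List.prod_cons, hr.rad]
      exact h3
    · intro o ho
      rcases List.mem_cons.mp ho with ho | ho
      · subst ho
        exact ⟨by simp only; omega, by simp⟩
      · have := hr.pos o ho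
        exact ⟨by omega, this.2⟩
    · simp only [List.map_cons, List.nodup_cons]
      refine ⟨?_, hr.nd⟩
      intro hm
      obtain ⟨o, ho, ho'⟩ := List.mem_map.mp hm
      have := (hr.pos o ho).1
      omega

theorem res_nil {R : List F} (i : ℕ) (h : Inv [] R) : Res [] R i [] := by
  have := h.nil
  subst this
  exact ⟨by simp [mpol_nil], by simp [mpol_nil], by simp, by simp⟩

section sem
variable [DecidableEq F]

theorem val_sq (wR : Pr RT (.prod Un Po) Po) (wQ : Pr [] (.prod Po Po) Po) (rt : F → F) (p : ℕ)
    (hR : ∀ P : List F, Inv P (wR.val (rt, ()) (un p, P)))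
    (hQ : ∀ P D : List F, (wQ.val () (P, D) : List F).length = P.length - D.length ∧
      (mpol D ∣ mpol P → mpol (wQ.val () (P, D) : List F) * mpol D = mpol P)) :
    ∀ (n : ℕ) (P R : List F) (i : List Unit), P.length ≤ n → Inv P R →
      Res P R i.length (goV (sqB wR wQ) .nil ((rt, ()) : SV F RT) n (un p, (P, (R, i)))) := by
  intro n
  induction n with
  | zero =>
    intro P R i hn h
    have hP : P = [] := List.length_eq_zero_iff.mp (by omega)
    subst hP
    simp only [goV, val_nil]
    exact res_nil _ h
  | succ n ih =>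
    intro P R i hn h
    rcases P with _ | ⟨a, P⟩
    · simp only [goV, sqB, val_onL, val_comp, val_snd, val_fst, lcase_nil, val_nil]
      exact res_nil _ h
    · have hpos := h.pos (by simp)
      simp only [goV, sqB, val_onL, val_comp, val_snd, val_fst, lcase_cons, val_lt, val_pair,
        val_liftP, val_up, val_cons, val_star, val_self]
      set P' : List F := wQ.val () (a :: P, R) with hP'
      set R' : List F := wR.val (rt, ()) (un p, P') with hR'
      set Q : List F := wQ.val () (R, R') with hQ'
      have e1 := hQ (a :: P) R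
      rw [← hP'] at e1
      have e2 := hR P'
      rw [← hR'] at e2
      have e3 := hQ R R'
      rw [← hQ'] at e3
      have e4 := e1.2 h.dv
      have e5 := e3.2 (step_dvd h e4 e2)
      have e6 := ih P' R' (() :: i) (by
        have h7 := e1.1
        simp only [List.length_cons] at h7 hn
        omega) e2
      exact step_res e4 e5 e6 i rfl

/-- bound for one step -/
theorem cost_sq (wR : Pr RT (.prod Un Po) Po) (wQ : Pr [] (.prod Po Po) Po) (rt : F → F) (p : ℕ)
    (N A B : ℕ) (k : SC F RT)
    (hR : ∀ P : List F, (wR.val (rt, ()) (un p, P) : List F).length ≤ P.length)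
    (hQ : ∀ P D : List F, (wQ.val () (P, D) : List F).length = P.length - D.length)
    (hA : ∀ P : List F, P.length ≤ N → wR.cost (rt, ()) k (un p, P) ≤ A)
    (hB : ∀ P D : List F, P.length ≤ N → D.length ≤ N → wQ.cost () () (P, D) ≤ B) :
    ∀ (n : ℕ) (P R : List F) (i : List Unit), P.length ≤ N → R.length ≤ N →
      goC (sqB wR wQ) .nil ((rt, ()) : SV F RT) k n (un p, (P, (R, i))) ≤
        (A + 2 * B + 200) * n + 1 := by
  intro n
  induction n with
  | zero =>
    intro P R i h1 h2
    simp [goC]
  | succ n ih =>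
    intro P R i h1 h2
    rcases P with _ | ⟨a, P⟩
    · simp only [goC, sqB, cost_onL, cost_comp, cost_snd, cost_fst, cost_nil, val_comp, val_snd,
        val_fst, lcase_nil]
      nlinarith
    · simp only [goC]
      unfold sqB
      rw [cost_onL]
      simp only [val_comp, val_snd, val_fst, lcase_cons, cost_comp, cost_snd, cost_fst, cost_lt,
        cost_pair, val_pair, cost_liftP, val_liftP, cost_up, val_up, val_cons, cost_cons,
        val_star, cost_star, cost_self, val_self, cost_onL]
      set P' : List F := wQ.val () (a :: P, R) with hP'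
      set R' : List F := wR.val (rt, ()) (un p, P') with hR'
      set Q : List F := wQ.val () (R, R') with hQ'
      have g1 : P'.length ≤ N := by
        have := hQ (a :: P) R
        rw [← hP'] at this
        simp only [List.length_cons] at h1 this
        omega
      have g2 : R'.length ≤ N := by
        have := hR P'
        rw [← hR'] at this
        omega
      have e1 := hB (a :: P) R h1 h2
      have e2 := hA P' g1
      have e3 := hB R R' h2 g2
      have e4 := ih P' R' (() :: i) g1 g2
      unfold sqB at e4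
      rcases hq : Q with _ | ⟨x, Q1⟩
      · simp only [lcase_nil]
        nlinarith
      · simp only [lcase_cons]
        nlinarith

end sem

end SqfK4

open SqfK4 in
/-- TARGET -/
theorem specSqf (h1 : SpecRad) (h2 : SpecQuo) : SpecSqf := by
  obtain ⟨wR, CR, kR, hR⟩ := h1
  obtain ⟨wQ, CQ, hQ⟩ := h2
  refine ⟨sqP wR wQ, CR + 8 * CQ + 300, kR, ?_⟩
  intro F _ _ p rt P hp hc hrt out
  have hRad : ∀ P : List F, Inv P (wR.val (rt, ()) (un p, P)) := by
    intro P
    obtain ⟨a1, a2, a3, a4, _⟩ := hR F p rt P hp hc hrt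
    exact ⟨a1, a2, a3, a4⟩
  have hQuo : ∀ P D : List F, (wQ.val () (P, D) : List F).length = P.length - D.length ∧
      (mpol D ∣ mpol P → mpol (wQ.val () (P, D) : List F) * mpol D = mpol P) := by
    intro P D
    obtain ⟨a1, a2, _⟩ := hQ F P D
    exact ⟨a1, a2⟩
  have hout : Res P (wR.val (rt, ()) (un p, P) : List F) 1 out := by
    have := val_sq wR wQ rt p hRad hQuo P.length P (wR.val (rt, ()) (un p, P)) [()] le_rfl
      (hRad P)
    have e : out = goV (sqB wR wQ) .nil ((rt, ()) : SV F RT) P.length
        (un p, (P, (wR.val (rt, ()) (un p, P), [()]))) := by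
      change (sqP wR wQ).val (rt, ()) (un p, P) = _
      unfold sqP
      simp only [val_comp, val_pair, val_snd, val_fst, val_recD, val_cons, val_star, val_nil]
    rw [e]
    exact this
  refine ⟨?_, hout.pos, ?_, hout.nd, ?_⟩
  · rw [← hout.prod]
    rfl
  · rw [hout.rad]
    exact (hRad P).sq
  · set n := P.length with hn
    set L := lgc (n + 1) with hL
    have hL1 : 1 ≤ L := by rw [hL]; unfold lgc; omega
    have hLk : 1 ≤ L ^ kR := Nat.one_le_pow _ _ hL1
    set M := (n + 1) ^ 2 + p with hM
    have hA : ∀ P' : List F, P'.length ≤ n →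
        wR.cost (rt, ()) ((fun _ => 1), ()) (un p, P') ≤ CR * L ^ kR * M := by
      intro P' hP'
      obtain ⟨_, _, _, _, a5⟩ := hR F p rt P' hp hc hrt
      refine a5.trans ?_
      have g1 : lgc (P'.length + 1) ≤ L := by
        rw [hL]; unfold lgc
        exact Nat.add_le_add_right (Nat.clog_mono_right 2 (by omega)) 1
      have g2 : (P'.length + 1) ^ 2 + p ≤ M := by
        rw [hM]
        exact Nat.add_le_add_right (Nat.pow_le_pow_left (by omega) 2) p
      exact Nat.mul_le_mul (Nat.mul_le_mul_left _ (Nat.pow_le_pow_left g1 kR)) g2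
    have hB : ∀ P' D : List F, P'.length ≤ n → D.length ≤ n →
        wQ.cost () () (P', D) ≤ 4 * CQ * (n + 1) ^ 2 := by
      intro P' D h3 h4
      obtain ⟨_, _, a3⟩ := hQ F P' D
      refine a3.trans ?_
      have : (P'.length + D.length + 1) ^ 2 ≤ (2 * (n + 1)) ^ 2 :=
        Nat.pow_le_pow_left (by omega) 2
      calc CQ * (P'.length + D.length + 1) ^ 2 ≤ CQ * (2 * (n + 1)) ^ 2 :=
            Nat.mul_le_mul_left _ this
        _ = 4 * CQ * (n + 1) ^ 2 := by ring
    have key := cost_sq wR wQ rt p n (CR * L ^ kR * M) (4 * CQ * (n + 1) ^ 2)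
      ((fun _ => 1), ()) (fun P => (hRad P).le) (fun P D => (hQuo P D).1) hA hB n P
      (wR.val (rt, ()) (un p, P)) [()] (le_of_eq hn.symm)
      (by rw [hn]; exact (hRad P).le)
    have hAP := hA P (le_of_eq hn.symm)
    have hcost : (sqP wR wQ).cost (rt, ()) ((fun _ => 1), ()) (un p, P) =
        wR.cost (rt, ()) ((fun _ => 1), ()) (un p, P) +
        goC (sqB wR wQ) .nil ((rt, ()) : SV F RT) ((fun _ => 1), ()) n
          (un p, (P, (wR.val (rt, ()) (un p, P), [()]))) + 12 := by
      unfold sqP
      simp only [cost_comp, cost_pair, cost_snd, cost_fst, cost_recD, cost_star, cost_nil,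
        cost_cons, val_comp, val_pair, val_snd, val_fst, val_star, val_nil, val_cons, ← hn]
      ring
    rw [hcost]
    have hM1 : (n + 1) ^ 2 ≤ M := Nat.le_add_right _ _
    have hX : L ^ kR * ((n + 1) * M) ≥ (n + 1) * M := Nat.le_mul_of_pos_left _ hLk
    have hY : (n + 1) * M ≥ (n + 1) * (n + 1) ^ 2 := Nat.mul_le_mul_left _ hM1
    have hZ : (n + 1) * (n + 1) ^ 2 ≥ (n + 1) :=
      Nat.le_mul_of_pos_right _ (by positivity)
    calc wR.cost (rt, ()) ((fun _ => 1), ()) (un p, P) +
        goC (sqB wR wQ) .nil ((rt, ()) : SV F RT) ((fun _ => 1), ()) n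
          (un p, (P, (wR.val (rt, ()) (un p, P), [()]))) + 12
        ≤ CR * L ^ kR * M + ((CR * L ^ kR * M + 2 * (4 * CQ * (n + 1) ^ 2) + 200) * n + 1) + 12 := by
          omega
      _ ≤ CR * (L ^ kR * ((n + 1) * M)) + 8 * CQ * ((n + 1) * (n + 1) ^ 2) + 300 * (n + 1) := by
          nlinarith [Nat.zero_le (CQ * (n + 1) ^ 2)]
      _ ≤ CR * (L ^ kR * ((n + 1) * M)) + 8 * CQ * (L ^ kR * ((n + 1) * M)) +
          300 * (L ^ kR * ((n + 1) * M)) :=
          Nat.add_le_add (Nat.add_le_add_left (Nat.mul_le_mul_left _ (hY.le.trans hX.le)) _)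
            (Nat.mul_le_mul_left _ (hZ.le.trans (hY.le.trans hX.le)))
      _ = (CR + 8 * CQ + 300) * L ^ kR * ((n + 1) * M) := by ring
end Pool.Agent.H330AB.JK4
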