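import Pool.Agent.H330AB.SpecB2
set_option autoImplicit false
noncomputable section
namespace Pool.Agent.H330AB.JK5
open Polynomial Pool.Agent.H330FB

/-! ### Interpolation by Newton's method

The points are treated one after the other; the state is the pair of the master polynomial `M` of
the points treated so far and of the rows which interpolate at these points. -/

section progInt

/-- Horner's rule -/
def hevI {F : Type} [Field F] (c : F) : List F → F
  | [] => 0
  | x :: l => x + c * hevI c l

theorem hevI_eq {F : Type} [Field F] (c : F) (l : List F) : hevI c l = (pol l).eval c := by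
  induction l with
  | nil => simp [hevI, pol]
  | cons x l ih => simp [hevI, pol, ih]

variable {F : Type} [Field F] [DecidableEq F]
variable {s : List (Ty × Ty)} {a b c : Ty}

/-- body of Horner's rule -/
def evIB : Pr ((.prod .fld Po, .fld) :: s) (.prod .fld Po) .fld :=
  .caseL .zero (.comp (.pair (.comp .snd .fst)
    (.comp (.pair .fst (.comp (.pair .fst (.comp .snd .snd)) .self)) .mul)) .add)

/-- Horner's rule, input `(point, polynomial)` -/
def evIP : Pr s (.prod .fld Po) .fld := .comp (.pair .snd .id) (.recD evIB .zero)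

@[simp] theorem val_evIP (v : SV F s) (x : Ty.D F (.prod .fld Po)) :
    (evIP : Pr s (.prod .fld Po) .fld).val v x = hevI x.1 x.2 := by
  obtain ⟨x, l⟩ := x
  simp only [evIP, val_comp, val_pair, val_snd, val_id, val_recD]
  induction l with
  | nil => rfl
  | cons h t ih => simp [goV, evIB, hevI] at ih ⊢; exact Or.inl ih

theorem cost_evIP (v : SV F s) (k : SC F s) (x : Ty.D F (.prod .fld Po)) :
    (evIP : Pr s (.prod .fld Po) .fld).cost v k x ≤ 20 * List.length x.2 + 10 := by
  obtain ⟨x, l⟩ := x
  simp only [evIP, cost_comp, cost_pair, cost_snd, cost_id, cost_recD, val_pair, val_snd, val_id]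
  induction l with
  | nil => simp [goC]
  | cons h t ih => simp [goC, evIB] at ih ⊢; omega

/-- multiples, input `(factor, polynomial)` -/
def scIP : Pr s (.prod .fld Po) Po := mapP (c := .fld) .mul

@[simp] theorem val_scIP (v : SV F s) (x : Ty.D F (.prod .fld Po)) :
    (scIP : Pr s (.prod .fld Po) Po).val v x = List.map (fun y : F => x.1 * y) x.2 := by
  simp [scIP]

theorem cost_scIP (v : SV F s) (k : SC F s) (x : Ty.D F (.prod .fld Po)) :
    (scIP : Pr s (.prod .fld Po) Po).cost v k x ≤ 14 * List.length x.2 + 5 := by
  have := cost_mapP_le (s := s) (c := .fld) (a := .fld) (b := .fld) .mul v k x 1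
    (fun _ _ => by simp)
  simpa [scIP] using this

/-- the new row, input `((M, (c, w)), (row, value))` -/
def rowIP : Pr s (.prod (.prod Po (.prod .fld .fld)) (.prod Po .fld)) Po :=
  ap2 (zpP .add) (.comp .snd .fst)
    (ap2 scIP (ap2 .mul (ap2 .add (.comp .snd .snd) (.comp (ap2 evIP (.comp (.comp .fst .snd) .fst)
      (.comp .snd .fst)) .neg)) (.comp (.comp .fst .snd) .snd)) (.comp .fst .fst))

/-- the new row -/
def rowI {F : Type} [Field F] (M : List F) (c w : F) (r : List F) (y : F) : List F :=
  zp (fun u v => u + v) r (M.map (fun z => (y + -hevI c r) * w * z))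

@[simp] theorem val_rowIP (v : SV F s)
    (x : Ty.D F (.prod (.prod Po (.prod .fld .fld)) (.prod Po .fld))) :
    (rowIP : Pr s (.prod (.prod Po (.prod .fld .fld)) (.prod Po .fld)) Po).val v x =
      rowI x.1.1 x.1.2.1 x.1.2.2 x.2.1 x.2.2 := by
  simp [rowIP, rowI]

theorem cost_rowIP (v : SV F s) (k : SC F s)
    (x : Ty.D F (.prod (.prod Po (.prod .fld .fld)) (.prod Po .fld))) :
    (rowIP : Pr s (.prod (.prod Po (.prod .fld .fld)) (.prod Po .fld)) Po).cost v k x ≤
      80 * List.length x.2.1 + 14 * List.length x.1.1 + 80 := by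
  obtain ⟨⟨M, c, w⟩, r, y⟩ := x
  have h1 := cost_evIP (s := s) v k (c, r)
  have h2 := cost_scIP (s := s) v k ((y + -hevI c r) * w, M)
  have h3 := cost_zpP_le (s := s) (a := .fld) .add v k
    (r, (scIP : Pr s (.prod .fld Po) Po).val v ((y + -hevI c r) * w, M)) 1
    (fun _ _ _ _ => by simp)
  simp [rowIP] at h1 h2 h3 ⊢
  omega

/-- one step, input `((), ((M, rows), (c, values)))` -/
def stIP : Pr s (.prod .unit (.prod (.prod Po Ma) (.prod .fld Po))) (.prod Po Ma) :=
  .pair
    (ap2 (zpP .add) (.comp (.pair .zero (.comp (.comp .snd .fst) .fst)) .cons)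
      (ap2 scIP (.comp (.comp (.comp .snd .snd) .fst) .neg) (.comp (.comp .snd .fst) .fst)))
    (ap2 (zipP rowIP)
      (.pair (.comp (.comp .snd .fst) .fst) (.pair (.comp (.comp .snd .snd) .fst)
        (.comp (ap2 evIP (.comp (.comp .snd .snd) .fst) (.comp (.comp .snd .fst) .fst)) .inv)))
      (.pair (.comp (.comp .snd .fst) .snd) (.comp (.comp .snd .snd) .snd)))

/-- one step -/
def stI {F : Type} [Field F] (x : F × List F) (S : List F × List (List F)) :
    List F × List (List F) :=
  (zp (fun u v => u + v) (0 :: S.1) (S.1.map (fun z => -x.1 * z)),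
    List.zipWith (fun r y => rowI S.1 x.1 (hevI x.1 S.1)⁻¹ r y) S.2 x.2)

@[simp] theorem val_stIP (v : SV F s)
    (x : Ty.D F (.prod .unit (.prod (.prod Po Ma) (.prod .fld Po)))) :
    (stIP : Pr s (.prod .unit (.prod (.prod Po Ma) (.prod .fld Po))) (.prod Po Ma)).val v x =
      stI x.2.2 x.2.1 := by
  simp [stIP, stI]

theorem cost_stIP (v : SV F s) (k : SC F s)
    (x : Ty.D F (.prod .unit (.prod (.prod Po Ma) (.prod .fld Po)))) (t : ℕ)
    (h1 : List.length x.2.1.1 = t + 1) (h2 : ∀ r ∈ x.2.1.2, List.length r = t) :
    (stIP : Pr s (.prod .unit (.prod (.prod Po Ma) (.prod .fld Po))) (.prod Po Ma)).cost v k x ≤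
      (94 * t + 143) * List.length x.2.1.2 + 90 * t + 250 := by
  obtain ⟨⟨⟩, ⟨M, A⟩, c, y⟩ := x
  simp only at h1 h2
  have e1 := cost_evIP (s := s) v k (c, M)
  have e2 := cost_scIP (s := s) v k (-c, M)
  have e3 := cost_zpP_le (s := s) (a := .fld) .add v k
    ((0 : F) :: M, (scIP : Pr s (.prod .fld Po) Po).val v (-c, M)) 1 (fun _ _ _ _ => by simp)
  have e4 := cost_zipP_le (s := s) (c := .prod Po (.prod .fld .fld)) (a := Po) (b := .fld)
    (d := Po) rowIP v k ((M, (c, (hevI c M)⁻¹)), (A, y)) (94 * t + 94)
    (fun r hr z _ => by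
      have := cost_rowIP (s := s) v k ((M, (c, (hevI c M)⁻¹)), (r, z))
      have h3 := h2 r hr
      show rowIP.cost v k ((M, (c, (hevI c M)⁻¹)), (r, z)) ≤ 94 * t + 94
      simp only [h1, h3] at this
      omega)
  simp [stIP] at e1 e2 e3 e4 ⊢
  rw [h1] at e1 e2 e3
  nlinarith

/-- cost of a fold, the invariant depends on the number of steps -/
theorem cost_foldPI (f : Pr s (.prod c (.prod b a)) b) (v : SV F s) (k : SC F s)
    (x : Ty.D F (.prod c (.prod b (.list a)))) (B : ℕ) (I : ℕ → Ty.D F b → Prop)
    (h0 : I 0 x.2.1) (hI : ∀ n y z, I n y → z ∈ x.2.2 → I (n + 1) (f.val v (x.1, (y, z))))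
    (hB : ∀ n < List.length x.2.2, ∀ y z, I n y → z ∈ x.2.2 → f.cost v k (x.1, (y, z)) ≤ B) :
    (foldP f).cost v k x ≤ (B + 27) * List.length x.2.2 + 14 := by
  obtain ⟨x, y, l⟩ := x
  simp only [foldP, cost_comp, cost_pair, cost_snd, cost_id, cost_recD, val_pair, val_snd,
    val_id, val_comp] at h0 hI hB ⊢
  have : ∀ (l : List (Ty.D F a)) (n : ℕ) (y : Ty.D F b), I n y →
      (∀ n y z, I n y → z ∈ l → I (n + 1) (f.val v (x, (y, z)))) →
      (∀ m < n + l.length, ∀ y z, I m y → z ∈ l → f.cost v k (x, (y, z)) ≤ B) →
      goC (foldB f) (.comp .snd .fst) v k l.length (x, (y, l)) ≤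
      (B + 27) * List.length l + 7 := by
    intro l
    induction l with
    | nil => intro n y _ _ _; simp [goC]
    | cons h t ih =>
      intro n y hy h1 h2
      have e1 := ih (n + 1) (f.val v (x, (y, h))) (h1 n y h hy (by simp))
        (fun n y z hy hz => h1 n y z hy (by simp [hz]))
        (fun m hm y z hy hz => h2 m (by simp; omega) y z hy (by simp [hz]))
      have e2 := h2 n (by simp) y h hy (by simp)
      simp [goC, foldB] at e1 ⊢
      nlinarith
  have := this l 0 y h0 hI (by simpa using hB)
  omega

/-- interpolation -/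
def intIP : Pr s (.prod Un (.prod Po Ma)) Ma :=
  .comp (ap3 (foldP (c := .unit) stIP) .star
    (.pair (.comp (.pair .one .nil) .cons) (.comp (.pair .star .fst) (mapP (c := .unit) .nil)))
    (.comp (.comp (.pair .star .snd) (zipP (c := .unit) .snd)) revP)) .snd

/-- the states -/
def itI {F : Type} [Field F] (n : ℕ) (cs : List F) (V : List (List F)) :
    List F × List (List F) :=
  (List.zipWith (fun y z => (y, z)) cs V).foldr stI ([1], List.replicate n [])

theorem val_intIP (v : SV F s) (n : ℕ) (cs : List F) (V : List (List F)) :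
    (intIP : Pr s (.prod Un (.prod Po Ma)) Ma).val v (un n, (cs, V)) = (itI n cs V).2 := by
  have h1 : List.map (fun _ : Unit => ([] : List F)) (un n) = List.replicate n [] := by
    simp [un]
  simp [intIP, itI, h1]

theorem length_zpI {α : Type} (f : α → α → α) (l m : List α) :
    (zp f l m).length = max l.length m.length := by
  induction l generalizing m with
  | nil => simp [zp]
  | cons x l ih =>
    cases m with
    | nil => simp [zp]
    | cons y m => simp [zp, ih]

omit [DecidableEq F] in
theorem pol_zpI (l m : List F) : pol (zp (fun u v => u + v) l m) = pol l + pol m := by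
  induction l generalizing m with
  | nil => simp [zp, pol]
  | cons x l ih =>
    cases m with
    | nil => simp [zp, pol]
    | cons y m => simp [zp, pol, ih]; ring

omit [DecidableEq F] in
theorem pol_mapI (e : F) (l : List F) : pol (l.map (fun z => e * z)) = C e * pol l := by
  induction l with
  | nil => simp [pol]
  | cons x l ih => simp [pol, ih]; ring

omit [DecidableEq F] in
theorem stI_shape (x : F × List F) (S : List F × List (List F)) (t n : ℕ)
    (h1 : S.1.length = t + 1) (h2 : S.2.length = n) (h3 : ∀ r ∈ S.2, r.length = t)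
    (h4 : x.2.length = n) :
    (stI x S).1.length = t + 1 + 1 ∧ (stI x S).2.length = n ∧
      ∀ r ∈ (stI x S).2, r.length = t + 1 := by
  refine ⟨?_, ?_, ?_⟩
  · simp [stI, length_zpI, h1]
  · simp [stI, h2, h4]
  · intro r hr
    simp only [stI] at hr
    obtain ⟨i, hi, rfl⟩ := List.getElem_of_mem hr
    rw [List.getElem_zipWith]
    have h5 := h3 _ (List.getElem_mem (l := S.2) (n := i) (by simp at hi; omega))
    simp [rowI, length_zpI, h1, h5]

omit [DecidableEq F] in
theorem itI_spec (n : ℕ) (cs : List F) (V : List (List F)) (hV : V.length = cs.length)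
    (hn : Sh n V) :
    (itI n cs V).1.length = cs.length + 1 ∧ (itI n cs V).2.length = n ∧
    (∀ r ∈ (itI n cs V).2, r.length = cs.length) ∧
    (∀ x ∈ cs, (pol (itI n cs V).1).eval x = 0) ∧
    (∀ x ∉ cs, (pol (itI n cs V).1).eval x ≠ 0) ∧
    (cs.Nodup → ∀ i < n, ∀ j < cs.length,
      (pol ((itI n cs V).2.getD i [])).eval (cs.getD j 0) = (V.getD j []).getD i 0) := by
  induction cs generalizing V with
  | nil =>
    have : V = [] := List.length_eq_zero_iff.mp (by simpa using hV)
    subst this
    simp [itI, pol]
  | cons c cs ih =>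
    cases V with
    | nil => simp at hV
    | cons v V =>
      obtain ⟨e1, e2, e3, e4, e5, e6⟩ := ih V (by simpa using hV) (fun r hr => hn r (by simp [hr]))
      have hv : v.length = n := hn v (by simp)
      have hst : itI n (c :: cs) (v :: V) = stI (c, v) (itI n cs V) := by
        simp [itI]
      obtain ⟨f1, f2, f3⟩ := stI_shape (c, v) (itI n cs V) cs.length n e1 e2 e3 hv
      have hM : ∀ x : F, (pol (stI (c, v) (itI n cs V)).1).eval x
          = (x - c) * (pol (itI n cs V).1).eval x := by
        intro x
        simp only [stI, pol_zpI, pol_mapI, pol]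
        simp
        ring
      rw [hst]
      refine ⟨by simpa using f1, f2, by simpa using f3, ?_, ?_, ?_⟩
      · intro x hx
        rw [hM]
        rcases List.mem_cons.1 hx with rfl | hx
        · simp
        · rw [e4 x hx, mul_zero]
      · intro x hx
        rw [hM]
        have h1 : x ≠ c := fun h => hx (by simp [h])
        have h2 : x ∉ cs := fun h => hx (by simp [h])
        exact mul_ne_zero (sub_ne_zero.2 h1) (e5 x h2)
      · intro hnd i hi j hj
        rw [List.nodup_cons] at hnd
        have hi2 : i < (itI n cs V).2.length := by omega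
        have hiv : i < v.length := by omega
        have hrow : (stI (c, v) (itI n cs V)).2.getD i []
            = rowI (itI n cs V).1 c (hevI c (itI n cs V).1)⁻¹ ((itI n cs V).2.getD i [])
              (v.getD i 0) := by
          have h3 : i < (stI (c, v) (itI n cs V)).2.length := by omega
          rw [List.getD_eq_getElem _ _ h3, List.getD_eq_getElem _ _ hi2,
            List.getD_eq_getElem _ _ hiv]
          simp only [stI, List.getElem_zipWith]
        have heval : ∀ x : F, (pol ((stI (c, v) (itI n cs V)).2.getD i [])).eval x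
            = (pol ((itI n cs V).2.getD i [])).eval x
              + (v.getD i 0 - (pol ((itI n cs V).2.getD i [])).eval c)
                * ((pol (itI n cs V).1).eval c)⁻¹ * (pol (itI n cs V).1).eval x := by
          intro x
          rw [hrow]
          simp only [rowI, pol_zpI, pol_mapI, hevI_eq, eval_add, eval_mul, eval_C]
          ring
        rw [heval]
        cases j with
        | zero =>
          have h4 := e5 c hnd.1
          simp only [List.getD_cons_zero]
          rw [mul_assoc, inv_mul_cancel₀ h4]
          ring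
        | succ j =>
          have hj' : j < cs.length := by simpa using hj
          simp only [List.getD_cons_succ]
          have h5 : cs.getD j 0 ∈ cs := by
            rw [List.getD_eq_getElem _ _ hj']
            exact List.getElem_mem _
          rw [e4 _ h5, mul_zero, add_zero]
          exact e6 hnd.2 i hi j hj'

theorem cost_intIP (v : SV F s) (k : SC F s) (n : ℕ) (cs : List F) (V : List (List F))
    (hV : V.length = cs.length) (hn : Sh n V) :
    (intIP : Pr s (.prod Un (.prod Po Ma)) Ma).cost v k (un n, (cs, V)) ≤
      1000 * (cs.length + n + 1) ^ 3 := by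
  have h1 := cost_zipP_le (s := s) (c := .unit) (a := .fld) (b := Po) (d := .prod .fld Po) .snd
    v k ((), (cs, V)) 1 (fun _ _ _ _ => by simp)
  have h2 := cost_revP (s := s) v k (a := .prod .fld Po)
    ((zipP (c := .unit) .snd : Pr s (.prod .unit (.prod Po Ma)) (.list (.prod .fld Po))).val v
      ((), (cs, V)))
  have h3 := cost_mapP_le (s := s) (c := .unit) (a := .unit) (b := Po) .nil v k ((), un n) 1
    (fun _ _ => by simp)
  have hZ : (zipP (c := .unit) .snd : Pr s (.prod .unit (.prod Po Ma))
      (.list (.prod .fld Po))).val v ((), (cs, V)) = List.zipWith (fun y z => (y, z)) cs V := by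
    simp
  have hzl : List.length ((zipP (c := .unit) .snd : Pr s (.prod .unit (.prod Po Ma))
      (.list (.prod .fld Po))).val v ((), (cs, V))) = cs.length := by
    rw [hZ]
    simp [hV]
  have h4 := cost_foldPI (s := s) (c := .unit) (b := .prod Po Ma) (a := .prod .fld Po) stIP v k
    ((), (([(1 : F)], (mapP (c := .unit) (a := .unit) (b := Po) .nil : Pr s _ _).val v
      ((), un n)), (revP : Pr s _ _).val v ((zipP (c := .unit) .snd : Pr s (.prod .unit
        (.prod Po Ma)) (.list (.prod .fld Po))).val v ((), (cs, V)))))
    ((94 * cs.length + 143) * n + 90 * cs.length + 250)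
    (fun t S => List.length S.1 = t + 1 ∧ List.length S.2 = n ∧ ∀ r ∈ S.2, List.length r = t)
    (by
      refine ⟨rfl, by simp [un], fun r hr => ?_⟩
      simp [un] at hr
      simp [hr.2])
    (fun t y z hy hz => by
      have hz' : z.2 ∈ V := by
        rw [val_revP, hZ, List.mem_reverse] at hz
        obtain ⟨i, hi, rfl⟩ := List.getElem_of_mem hz
        rw [List.getElem_zipWith]
        exact List.getElem_mem _
      rw [val_stIP]
      exact stI_shape z y t n hy.1 hy.2.1 hy.2.2 (hn _ hz'))
    (fun t ht y z hy hz => by
      have ht' : t < cs.length := by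
        rw [val_revP, List.length_reverse, hzl] at ht
        exact ht
      have := cost_stIP (s := s) v k ((), (y, z)) t hy.1 hy.2.2
      have h5 : List.length y.2 = n := hy.2.1
      simp only [h5] at this
      show stIP.cost v k ((), (y, z)) ≤ _
      have h6 : (94 * t + 143) * n ≤ (94 * cs.length + 143) * n :=
        Nat.mul_le_mul_right _ (by omega)
      omega)
  have hrl : List.length ((revP : Pr s _ _).val v ((zipP (c := .unit) .snd : Pr s (.prod .unit
        (.prod Po Ma)) (.list (.prod .fld Po))).val v ((), (cs, V)))) = cs.length := by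
    rw [val_revP, List.length_reverse, hzl]
  have h6 : (un n).length = n := by simp [un]
  simp only [hzl, hrl, h6] at h1 h2 h3 h4
  have key : (intIP : Pr s (.prod Un (.prod Po Ma)) Ma).cost v k (un n, (cs, V)) ≤
      (((94 * cs.length + 143) * n + 90 * cs.length + 250) + 27) * cs.length + 14
      + (50 * cs.length + 15) + (33 * cs.length + 19) + (14 * n + 5) + 30 := by
    simp only [intIP, cost_comp, cost_pair, cost_star, cost_one, cost_nil, cost_cons, cost_fst,
      cost_snd, val_comp, val_pair, val_star, val_one, val_nil, val_cons, val_fst, val_snd]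
    omega
  refine key.trans ?_
  generalize cs.length = m
  nlinarith [Nat.zero_le (m * n), Nat.zero_le (m * m), Nat.zero_le (n * n),
    Nat.zero_le (m * m * n), Nat.zero_le (m * n * n), Nat.zero_le (n * n * n),
    Nat.zero_le (m * m * m)]

end progInt

/- Lagrange interpolation: master polynomial M = ∏ (X - c_j); for every j: N_j = M / (X - c_j) (synthetic division), value N_j(c_j) (Horner), Lagrange polynomial l_j = N_j / N_j(c_j). The result is the matrix product V^T * (rows l_j) (SpecMM with cost below C N^3, since vv (clog2 N) ≤ 5 N^2, or a schoolbook program).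
All in time cubic in cs.length + n + 1. Without cs.Nodup only shape and cost are claimed. -/
/-- TARGET -/
theorem specInt (h : SpecMM) : SpecInt := by
  refine ⟨intIP, 1000, ?_⟩
  intro F _ _ n cs V hV hn
  obtain ⟨-, e2, e3, -, -, e6⟩ := itI_spec n cs V hV hn
  have hval := val_intIP (F := F) (s := []) () n cs V
  have hcost := cost_intIP (F := F) (s := []) () () n cs V hV hn
  dsimp only
  rw [hval]
  exact ⟨e2, e3, e6, hcost⟩

end Pool.Agent.H330AB.JK5
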