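import Pool.Agent.H330AB.SpecB2
set_option autoImplicit false
noncomputable section
namespace Pool.Agent.H330AB.JK6
open Polynomial Pool.Agent.H330FB

/-! ### polynomials given by descending lists of coefficients -/

section k6alg
variable {F : Type} [Field F]

/-- polynomial with the coefficients `l`, highest coefficient first -/
noncomputable def k6Q : List F → F[X]
  | [] => 0
  | c :: l => C c * X ^ l.length + k6Q l

/-- monic polynomial with the lower coefficients `l`, highest coefficient first -/
noncomputable def k6M (l : List F) : F[X] := X ^ l.length + k6Q l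

theorem k6Q_degree (l : List F) : (k6Q l).degree < l.length := by
  induction l with
  | nil => simp [k6Q]
  | cons c l ih =>
    rw [k6Q]
    refine (degree_add_le _ _).trans_lt (max_lt ?_ ?_)
    · refine (degree_C_mul_X_pow_le _ _).trans_lt ?_
      rw [List.length_cons]
      exact_mod_cast Nat.lt_succ_self _
    · refine ih.trans ?_
      rw [List.length_cons]
      exact_mod_cast Nat.lt_succ_self _

theorem k6M_monic (l : List F) : (k6M l).Monic := monic_X_pow_add (k6Q_degree l)

theorem k6M_natDegree (l : List F) : (k6M l).natDegree = l.length :=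
  (natDegree_add_eq_left_of_degree_lt (by rw [degree_X_pow]; exact k6Q_degree l)).trans
    (natDegree_X_pow _)

theorem k6Q_append (l : List F) (x : F) : k6Q (l ++ [x]) = X * k6Q l + C x := by
  induction l with
  | nil => simp [k6Q]
  | cons c l ih =>
    rw [List.cons_append, k6Q, ih, k6Q, List.length_append, List.length_singleton, pow_succ]
    ring

theorem k6Q_rev (l : List F) : k6Q l.reverse = pol l := by
  induction l with
  | nil => rfl
  | cons x l ih => rw [List.reverse_cons, k6Q_append, ih, pol]; ring

theorem k6M_rev (l : List F) : k6M l.reverse = mpol l := by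
  rw [k6M, k6Q_rev, mpol, List.length_reverse]

theorem k6_zp (l : List F) : ∀ m : List F, l.length ≤ m.length →
    (zp (fun y z => y + z) l m).length = m.length ∧
    k6Q (zp (fun y z => y + z) l m) = k6Q m + X ^ (m.length - l.length) * k6Q l := by
  induction l with
  | nil => intro m _; simp [zp, k6Q]
  | cons x l ih =>
    intro m h
    cases m with
    | nil => simp at h
    | cons y m =>
      have h' : l.length ≤ m.length := by simpa using h
      obtain ⟨h1, h2⟩ := ih m h'
      refine ⟨by simp [zp, h1], ?_⟩
      rw [zp, k6Q, h1, h2, k6Q, k6Q, List.length_cons, List.length_cons, Nat.add_sub_add_right, C_add]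
      have e : (X : F[X]) ^ m.length = X ^ (m.length - l.length) * X ^ l.length := by
        rw [← pow_add, Nat.sub_add_cancel h']
      rw [e]
      ring

theorem k6_map (c : F) (l : List F) : k6Q (l.map (fun y => c * y)) = C c * k6Q l := by
  induction l with
  | nil => simp [k6Q]
  | cons x l ih =>
    rw [List.map_cons, k6Q, ih, k6Q, List.length_map, C_mul]
    ring

/-- the resultant -/
noncomputable def k6N (f g : F[X]) : F := resultant f g f.natDegree g.natDegree

theorem k6N_eq {f g : F[X]} (hf : f.Monic) {n : ℕ} (hn : g.natDegree ≤ n) :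
    resultant f g f.natDegree n = k6N f g := by
  obtain ⟨k, rfl⟩ := Nat.exists_eq_add_of_le hn
  rw [resultant_add_right_deg _ _ _ _ _ le_rfl, hf.coeff_natDegree, one_pow, one_mul, k6N]

theorem k6N_add {f g p : F[X]} (hf : f.Monic) : k6N f (g + f * p) = k6N f g := by
  have h1 := k6N_eq (f := f) (g := g + f * p) hf
    (n := max (g + f * p).natDegree (max g.natDegree (p.natDegree + f.natDegree)))
    (le_max_left _ _)
  have h2 := k6N_eq (f := f) (g := g) hf
    (n := max (g + f * p).natDegree (max g.natDegree (p.natDegree + f.natDegree)))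
    ((le_max_left _ _).trans (le_max_right _ _))
  rw [← h1, ← h2]
  exact resultant_add_mul_right _ _ _ _ _ ((le_max_right _ _).trans (le_max_right _ _)) le_rfl

theorem k6N_C {f g : F[X]} (hf : f.Monic) (c : F) :
    k6N f (C c * g) = c ^ f.natDegree * k6N f g := by
  rw [← k6N_eq (g := C c * g) hf (natDegree_C_mul_le c g), resultant_C_mul_right, k6N]

theorem k6N_comm {f g : F[X]} :
    k6N f g = (-1) ^ (f.natDegree * g.natDegree) * k6N g f := by
  rw [k6N, resultant_comm, k6N]

theorem k6N_zero {f : F[X]} (h : 1 ≤ f.natDegree) : k6N f 0 = 0 := by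
  rw [k6N, resultant_zero_right, zero_pow (by omega), zero_mul]

theorem k6N_one (g : F[X]) : k6N 1 g = 1 := by
  rw [k6N, natDegree_one]
  simp

theorem k6N_final {k : Type} [Field k] [Algebra F k] {n : ℕ} {α : Fin n → k} {f g : F[X]}
    (hf : f.Monic) (h : f.map (algebraMap F k) = ∏ i, (X - C (α i))) :
    algebraMap F k (k6N f g) = ∏ i, aeval (α i) g := by
  have hs : (f.map (algebraMap F k)).Splits := by
    rw [h]
    exact Splits.prod fun i _ => Splits.X_sub_C _
  have hm : (f.map (algebraMap F k)).Monic := hf.map _
  have h1 := resultant_eq_prod_eval (f.map (algebraMap F k)) (g.map (algebraMap F k)) g.natDegree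
    natDegree_map_le hs
  rw [hf.natDegree_map, resultant_map_map, hm.leadingCoeff, one_pow, one_mul] at h1
  have e : (∏ i, (X - C (α i))) =
      (((Finset.univ : Finset (Fin n)).val.map α).map fun a => X - C a).prod := by
    rw [Multiset.map_map]; rfl
  rw [k6N, h1, h, e, roots_multiset_prod_X_sub_C, Multiset.map_map]
  refine Finset.prod_congr rfl fun i _ => ?_
  rw [Function.comp_apply, eval_map_algebraMap]

end k6alg

/-! ### programs -/

section k6prog
variable {F : Type} [Field F] [DecidableEq F] {s : List (Ty × Ty)}

/-- input `(c, (h, g))`: subtract the multiple of `h` from the highest coefficients of `g` -/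
def k6sub : Pr s (.prod .fld (.prod Po Po)) Po :=
  .comp (.pair (.comp (.pair .fst (.comp .snd .fst)) (mapP (.comp .mul .neg))) (.comp .snd .snd))
    (zpP .add)

@[simp] theorem val_k6sub (v : SV F s) (x : Ty.D F (.prod .fld (.prod Po Po))) :
    (k6sub : Pr s (.prod .fld (.prod Po Po)) Po).val v x =
      zp (fun y z => (y + z : F)) (List.map (fun y => (-x.1 * y : F)) x.2.1) x.2.2 := by
  simp [k6sub]

theorem cost_k6sub (v : SV F s) (k : SC F s) (x : Ty.D F (.prod .fld (.prod Po Po))) :
    (k6sub : Pr s (.prod .fld (.prod Po Po)) Po).cost v k x ≤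
      100 * List.length x.2.1 + 100 := by
  have h1 := cost_mapP_le (s := s) (F := F) (c := .fld) (a := .fld) (b := .fld) (.comp .mul .neg)
    v k (x.1, x.2.1) 2 (fun _ _ => by simp)
  have h2 := cost_zpP_le (s := s) (F := F) (a := .fld) .add v k
    ((mapP (c := .fld) (a := .fld) (b := .fld) (.comp .mul .neg)).val v (x.1, x.2.1), x.2.2) 1
    (fun _ _ _ _ => by simp)
  have h3 : List.length ((mapP (c := .fld) (a := .fld) (b := .fld) (.comp .mul .neg)).val v
    (x.1, x.2.1)) = List.length x.2.1 := by simp
  simp only [k6sub, cost_comp, cost_pair, cost_fst, cost_snd, val_comp, val_pair, val_fst,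
    val_snd] at h1 h2 h3 ⊢
  rw [h3] at h2
  omega

/-- input `(c, g)`: divide all coefficients of `g` by `c` -/
def k6sc : Pr s (.prod .fld Po) Po := mapP (.comp (.pair (.comp .fst .inv) .snd) .mul)

@[simp] theorem val_k6sc (v : SV F s) (x : Ty.D F (.prod .fld Po)) :
    (k6sc : Pr s (.prod .fld Po) Po).val v x = List.map (fun y => ((x.1)⁻¹ * y : F)) x.2 := by
  simp [k6sc]

theorem cost_k6sc (v : SV F s) (k : SC F s) (x : Ty.D F (.prod .fld Po)) :
    (k6sc : Pr s (.prod .fld Po) Po).cost v k x ≤ 100 * List.length x.2 + 100 := by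
  have h1 := cost_mapP_le (s := s) (F := F) (c := .fld) (a := .fld) (b := .fld)
    (.comp (.pair (.comp .fst .inv) .snd) .mul) v k x 5 (fun _ _ => by simp)
  simp only [k6sc] at h1 ⊢
  omega

omit [DecidableEq F] in
theorem k6fold1 (g : List F) : ∀ c : F,
    List.foldl (fun y _ => (-y : F)) c g = (-1) ^ g.length * c := by
  induction g with
  | nil => simp
  | cons x g ih => intro c; rw [List.foldl_cons, ih, List.length_cons, pow_succ]; ring

omit [DecidableEq F] in
theorem k6fold2 (c : F) (h : List F) : ∀ a : F,
    List.foldl (fun y _ => (c * y : F)) a h = c ^ h.length * a := by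
  induction h with
  | nil => simp
  | cons x h ih => intro a; rw [List.foldl_cons, ih, List.length_cons, pow_succ]; ring

/-- input `(c, g)`: the sign of `c` is changed as often as `g` has elements -/
def k6sg : Pr s (.prod .fld Po) .fld :=
  .comp (.pair .star .id) (foldP (c := .unit) (.comp (.comp .snd .fst) .neg))

@[simp] theorem val_k6sg (v : SV F s) (x : Ty.D F (.prod .fld Po)) :
    (k6sg : Pr s (.prod .fld Po) .fld).val v x = ((-1) ^ (List.length x.2) * x.1 : F) := by
  obtain ⟨c, g⟩ := x
  simp [k6sg, k6fold1]

theorem cost_k6sg (v : SV F s) (k : SC F s) (x : Ty.D F (.prod .fld Po)) :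
    (k6sg : Pr s (.prod .fld Po) .fld).cost v k x ≤ 100 * List.length x.2 + 100 := by
  have h1 := cost_foldP_le (s := s) (F := F) (c := .unit) (b := .fld) (a := .fld)
    (.comp (.comp .snd .fst) .neg) v k ((), x) 3 (fun _ => True) trivial
    (fun _ _ _ _ => trivial) (fun _ _ _ _ => by simp)
  simp [k6sg] at h1 ⊢
  omega

/-- input `(c, (a, h))`: `a` is multiplied by `c` as often as `h` has elements -/
def k6pw : Pr s (.prod .fld (.prod .fld Po)) .fld :=
  foldP (.comp (.pair .fst (.comp .snd .fst)) .mul)

@[simp] theorem val_k6pw (v : SV F s) (x : Ty.D F (.prod .fld (.prod .fld Po))) :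
    (k6pw : Pr s (.prod .fld (.prod .fld Po)) .fld).val v x =
      (x.1 ^ (List.length x.2.2) * x.2.1 : F) := by
  obtain ⟨c, a, h⟩ := x
  simp [k6pw, k6fold2]

theorem cost_k6pw (v : SV F s) (k : SC F s) (x : Ty.D F (.prod .fld (.prod .fld Po))) :
    (k6pw : Pr s (.prod .fld (.prod .fld Po)) .fld).cost v k x ≤
      100 * List.length x.2.2 + 100 := by
  have h1 := cost_foldP_le (s := s) (F := F) (c := .fld) (b := .fld) (a := .fld)
    (.comp (.pair .fst (.comp .snd .fst)) .mul) v k x 5 (fun _ => True) trivial
    (fun _ _ _ _ => trivial) (fun _ _ _ _ => by simp)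
  simp only [k6pw] at h1 ⊢
  omega

/-- states of the loop: `(h, (g, factor))` -/
abbrev k6S : Ty := .prod Po (.prod Po .fld)

/-- body of the loop -/
def k6B : Pr ((k6S, .fld) :: s) k6S .fld :=
  onL (.comp .snd .fst)
    (onL .fst (.comp .snd .snd) .zero)
    (onL (.comp (.pair (.comp .fst .fst) (.comp .fst (.comp .snd .fst))) (.comp splitP .snd))
      (onZ (.comp .snd .fst)
        (.comp (.pair (.comp .fst .fst)
          (.pair (.comp .snd .snd) (.comp .fst (.comp .snd .snd)))) .self)
        (.comp (.pair (.comp .snd k6sc)
          (.pair (.comp (.pair .one (.comp .fst .fst)) .cons)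
            (.comp (.pair (.comp .snd k6sg)
              (.pair (.comp .fst (.comp .snd .snd)) (.comp .fst .fst))) k6pw))) .self))
      (.comp .fst (.comp (.pair (.comp .fst .fst)
        (.pair (.comp (.pair (.comp .snd .fst) (.pair (.comp .fst .fst) (.comp .snd .snd))) k6sub)
          (.comp .fst (.comp .snd .snd)))) .self)))

theorem k6B_nil (w : SV F ((k6S, .fld) :: s)) (κ : SC F ((k6S, .fld) :: s)) (h : List F) (a : F) :
    k6B.val w (h, (([] : List F), a)) = (if h = [] then a else 0 : F) ∧
    k6B.cost w κ (h, (([] : List F), a)) ≤ 1000 := by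
  cases h <;> simp [k6B]

theorem k6B_strip (w : SV F ((k6S, .fld) :: s)) (κ : SC F ((k6S, .fld) :: s)) (h g : List F)
    (a : F) (hd : ((0 : F) :: g).drop h.length = []) :
    k6B.val w (h, ((0 : F) :: g, a)) = w.1 (h, (g, a)) ∧
    k6B.cost w κ (h, ((0 : F) :: g, a)) ≤ κ.1 (h, (g, a)) + 1000 * (h.length + 1) := by
  have h1 := cost_splitP (F := F) (a := .fld) (b := .fld) w κ (h, (0 : F) :: g)
  simp only at h1
  constructor
  · simp only [k6B, val_onL, val_comp, val_pair, val_snd, val_fst, val_splitP,
      lcase_cons, hd, lcase_nil, val_onZ, val_self, if_true]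
  · simp only [k6B, cost_onL, cost_comp, cost_pair, cost_snd, cost_fst, val_comp, val_pair,
      val_snd, val_fst, val_splitP, lcase_cons, hd, lcase_nil, cost_onZ, cost_self, if_true]
    omega

theorem k6B_swap (w : SV F ((k6S, .fld) :: s)) (κ : SC F ((k6S, .fld) :: s)) (h g : List F)
    (c a : F) (hd : (c :: g).drop h.length = []) (hc : c ≠ 0) :
    k6B.val w (h, (c :: g, a)) = w.1 (g.map (fun y => (c⁻¹ * y : F)), ((1 : F) :: h,
      (((-1) ^ g.length * c) ^ h.length * a : F))) ∧
    k6B.cost w κ (h, (c :: g, a)) ≤ κ.1 (g.map (fun y => (c⁻¹ * y : F)), ((1 : F) :: h,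
      (((-1) ^ g.length * c) ^ h.length * a : F))) + 1000 * (h.length + 1) := by
  have hl : g.length + 1 ≤ h.length := by simpa using hd
  have h1 := cost_splitP (F := F) (a := .fld) (b := .fld) w κ (h, c :: g)
  have h2 := cost_k6sc w κ (c, g)
  have h3 := cost_k6sg w κ (c, g)
  have h4 := cost_k6pw w κ (((-1) ^ g.length * c : F), (a, h))
  simp only at h1 h2 h3 h4
  constructor
  · simp only [k6B, val_onL, val_comp, val_pair, val_snd, val_fst, val_splitP,
      lcase_cons, hd, lcase_nil, val_onZ, val_self, hc, if_false, val_k6sc, val_k6sg,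
      val_k6pw, val_one, val_cons]
  · simp only [k6B, cost_onL, cost_comp, cost_pair, cost_snd, cost_fst, val_comp, val_pair,
      val_snd, val_fst, val_splitP, lcase_cons, hd, lcase_nil, cost_onZ, cost_self, hc, if_false,
      val_k6sc, val_k6sg, val_k6pw, val_one, val_cons, cost_one, cost_cons]
    omega

theorem k6B_sub (w : SV F ((k6S, .fld) :: s)) (κ : SC F ((k6S, .fld) :: s)) (h g : List F)
    (c a : F) (hd : (c :: g).drop h.length ≠ []) :
    k6B.val w (h, (c :: g, a)) = w.1 (h, (k6sub.val w (c, (h, g)), a)) ∧
    k6B.cost w κ (h, (c :: g, a)) ≤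
      κ.1 (h, (k6sub.val w (c, (h, g)), a)) + 1000 * (h.length + 1) := by
  obtain ⟨x, l, hx⟩ := List.exists_cons_of_ne_nil hd
  have h1 := cost_splitP (F := F) (a := .fld) (b := .fld) w κ (h, c :: g)
  have h2 := cost_k6sub w κ (c, (h, g))
  simp only at h1 h2
  constructor
  · simp only [k6B, val_onL, val_comp, val_pair, val_snd, val_fst, val_splitP,
      lcase_cons, hx, val_self]
  · simp only [k6B, cost_onL, cost_comp, cost_pair, cost_snd, cost_fst, val_comp, val_pair,
      val_snd, val_fst, val_splitP, lcase_cons, hx, cost_self]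
    omega

theorem k6_main (v : SV F s) (κ : SC F s) : ∀ (N : ℕ) (h g : List F) (a : F),
    2 * h.length + g.length + 1 ≤ N →
    goV (F := F) (s := s) k6B .zero v N (h, (g, a)) = a * k6N (k6M h) (k6Q g) ∧
    goC (F := F) (s := s) k6B .zero v κ N (h, (g, a)) ≤
      1000 * ((2 * h.length + g.length + 1) * (h.length + 1)) := by
  intro N
  induction N with
  | zero => intro h g a hN; omega
  | succ N ih =>
    intro h g a hN
    have eV : ∀ x, goV (F := F) (s := s) k6B .zero v (N + 1) x =
      k6B.val (goV (F := F) (s := s) k6B .zero v N, v) x := fun _ => rfl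
    have eC : ∀ x, goC (F := F) (s := s) k6B .zero v κ (N + 1) x =
      k6B.cost (goV (F := F) (s := s) k6B .zero v N, v)
        (goC (F := F) (s := s) k6B .zero v κ N, κ) x := fun _ => rfl
    rw [eV, eC]
    cases g with
    | nil =>
      obtain ⟨h1, h2⟩ := k6B_nil (goV (F := F) (s := s) k6B .zero v N, v)
        (goC (F := F) (s := s) k6B .zero v κ N, κ) h a
      rw [h1]
      constructor
      · cases h with
        | nil => simp [k6Q, k6M, k6N_one]
        | cons x h =>
          have : k6N (k6M (x :: h)) (0 : F[X]) = 0 := k6N_zero (by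
            rw [k6M_natDegree]; simp)
          simp [k6Q, this]
      · have h0 : 1 ≤ (2 * h.length + ([] : List F).length + 1) * (h.length + 1) :=
          Nat.mul_pos (by omega) (by omega)
        omega
    | cons c g =>
      simp only [List.length_cons] at hN ⊢
      by_cases hd : (c :: g).drop h.length = []
      · have hl : g.length + 1 ≤ h.length := by simpa using hd
        by_cases hc : c = 0
        · subst hc
          obtain ⟨h1, h2⟩ := k6B_strip (goV (F := F) (s := s) k6B .zero v N, v)
            (goC (F := F) (s := s) k6B .zero v κ N, κ) h g a hd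
          obtain ⟨e, e'⟩ := ih h g a (by omega)
          have e2 : k6Q ((0 : F) :: g) = k6Q g := by simp [k6Q]
          rw [h1, e2]
          refine ⟨e, h2.trans ((Nat.add_le_add_right e' _).trans (le_of_eq ?_))⟩
          ring
        · obtain ⟨h1, h2⟩ := k6B_swap (goV (F := F) (s := s) k6B .zero v N, v)
            (goC (F := F) (s := s) k6B .zero v κ N, κ) h g c a hd hc
          obtain ⟨e, e'⟩ := ih (g.map (fun y => c⁻¹ * y)) (1 :: h)
            (((-1) ^ g.length * c) ^ h.length * a) (by simp; omega)
          have e1 : k6Q (c :: g) = C c * k6M (g.map (fun y => c⁻¹ * y)) := by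
            have : (C c : F[X]) * C c⁻¹ = 1 := by rw [← C_mul, mul_inv_cancel₀ hc, C_1]
            rw [k6M, k6_map, List.length_map, k6Q, mul_add, ← mul_assoc, this, one_mul]
          have e2 : k6Q ((1 : F) :: h) = k6M h := by simp [k6Q, k6M]
          rw [h1]
          constructor
          · refine e.trans ?_
            rw [e1, e2, k6N_C (k6M_monic _), k6N_comm (f := k6M h), k6M_natDegree,
              k6M_natDegree, List.length_map, mul_pow, ← pow_mul, mul_comm h.length g.length]
            ring
          · simp only [List.length_map, List.length_cons] at e'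
            have h3 : (2 * g.length + (h.length + 1) + 1) * (g.length + 1) ≤
                (2 * h.length + g.length + 1) * (h.length + 1) :=
              Nat.mul_le_mul (by omega) (by omega)
            refine h2.trans ((Nat.add_le_add_right (e'.trans (Nat.mul_le_mul_left 1000 h3)) _).trans
              (le_of_eq ?_))
            ring
      · have hl : h.length ≤ g.length := by
          by_contra hcon
          apply hd
          rw [List.drop_eq_nil_iff]
          simp; omega
        have hz := k6_zp (h.map (fun y => (-c) * y)) g (by simpa using hl)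
        obtain ⟨h1, h2⟩ := k6B_sub (goV (F := F) (s := s) k6B .zero v N, v)
          (goC (F := F) (s := s) k6B .zero v κ N, κ) h g c a hd
        obtain ⟨e, e'⟩ := ih h (zp (fun y z => y + z) (h.map (fun y => (-c) * y)) g) a (by
          rw [hz.1]; omega)
        have e0 : ((k6sub (s := (k6S, .fld) :: s)).val
            (goV (F := F) (s := s) k6B .zero v N, v) (c, (h, g)) : List F) =
            zp (fun y z => y + z) (h.map (fun y => (-c) * y)) g := val_k6sub _ _
        rw [e0] at h1 h2
        rw [h1]
        constructor
        · refine e.trans ?_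
          rw [hz.2, k6_map, List.length_map]
          congr 1
          have e4 : k6Q g + X ^ (g.length - h.length) * (C (-c) * k6Q h) =
              k6Q (c :: g) + k6M h * (C (-c) * X ^ (g.length - h.length)) := by
            have e5 : (X : F[X]) ^ g.length = X ^ (g.length - h.length) * X ^ h.length := by
              rw [← pow_add, Nat.sub_add_cancel hl]
            rw [k6Q, k6M, e5, C_neg]
            ring
          rw [e4, k6N_add (k6M_monic h)]
        · rw [hz.1] at e'
          refine h2.trans ((Nat.add_le_add_right e' _).trans (le_of_eq ?_))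
          ring

/-- the program -/
def k6P : Pr [] (.prod Po Po) .fld :=
  .comp (.pair (.comp (.pair .fst (.comp (.pair .fst (.comp (.pair .zero .snd) .cons)) appP)) appP)
    (.pair (.comp .fst revP) (.pair (.comp .snd revP) .one))) (.recD k6B .zero)

theorem k6P_spec (h g : List F) :
    (k6P.val () (h, g) : F) = k6N (mpol h) (pol g) ∧
    k6P.cost () () (h, g) ≤ 10000 * (h.length + g.length + 1) ^ 2 := by
  have m := k6_main (F := F) (s := []) () () (2 * h.length + g.length + 1) h.reverse g.reverse 1
    (by simp)
  have el : h.length + (h.length + (g.length + 1)) = 2 * h.length + g.length + 1 := by omega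
  rw [k6M_rev, k6Q_rev, one_mul, List.length_reverse, List.length_reverse] at m
  have c1 := cost_appP (s := []) (F := F) (a := .fld) () () (h, h ++ ((0 : F) :: g))
  have c2 := cost_appP (s := []) (F := F) (a := .fld) () () (h, (0 : F) :: g)
  have c3 := cost_revP (s := []) (F := F) (a := .fld) () () h
  have c4 := cost_revP (s := []) (F := F) (a := .fld) () () g
  simp only at c1 c2 c3 c4
  constructor
  · rw [← m.1]
    simp only [k6P, val_comp, val_pair, val_fst, val_snd, val_zero, val_cons, val_appP, val_revP,
      val_one, val_recD, List.length_append, List.length_cons, el]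
  · have e1 : k6P.cost () () (h, g) = k6P.cost () () (h, g) := rfl
    simp only [k6P, cost_comp, cost_pair, cost_fst, cost_snd, cost_zero, cost_cons, cost_one,
      val_comp, val_pair, val_fst, val_snd, val_zero, val_cons, val_appP, val_revP, val_one,
      cost_recD, List.length_append, List.length_cons, el]
    have m2 := m.2
    generalize goC (F := F) (s := []) k6B .zero () () (2 * h.length + g.length + 1)
      (h.reverse, (g.reverse, (1 : F))) = G at *
    generalize h.length = x at *
    generalize g.length = y at *
    have m3 : (2 * x + y + 1) * (x + 1) ≤ 2 * (x + y + 1) ^ 2 := by nlinarith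
    have m4 : x + y + 1 ≤ (x + y + 1) ^ 2 := by nlinarith
    omega

end k6prog

/-- TARGET -/
theorem specNorm (h : SpecRem) : SpecNorm := by
  refine ⟨k6P, 10000, ?_⟩
  intro F _ _ n h g hn h1
  obtain ⟨e1, e2⟩ := k6P_spec h g
  rw [hn] at e2
  refine ⟨?_, e2⟩
  intro k _ _ α hα
  rw [e1]
  exact k6N_final (by rw [← k6M_rev]; exact k6M_monic _) hα

end Pool.Agent.H330AB.JK6

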