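import Pool.Agent.H330AB.SpecB2
set_option autoImplicit false
noncomputable section
namespace Pool.Agent.H330AB.JK7
open Polynomial Pool.Agent.H330FB

section chi

theorem chi_coeff {R : Type} [CommRing R] (l : List R) (i : ℕ) :
    (pol l).coeff i = l.getD i 0 := by
  induction l generalizing i with
  | nil => simp [pol]
  | cons x l ih =>
    cases i with
    | zero => simp [pol]
    | succ i => simp [pol, ih]

theorem chi_degree {R : Type} [CommRing R] (l : List R) : (pol l).degree < l.length := by
  rw [degree_lt_iff_coeff_zero]
  intro m hm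
  rw [chi_coeff, List.getD_eq_default _ _ (by exact_mod_cast hm)]

theorem chi_neg {R : Type} [CommRing R] (l : List R) :
    pol (l.map (fun y => -y)) = -pol l := by
  induction l with
  | nil => simp [pol]
  | cons x l ih => simp [pol, ih]; ring

/-- the coefficients of `c - L` -/
def chiG {F : Type} [Field F] (c : F) (L : List F) : List F :=
  lcase L [c] (fun h t => (c + -h) :: t.map (fun y => -y))

theorem pol_chiG {F : Type} [Field F] (c : F) (L : List F) :
    pol (chiG c L) = Polynomial.C c - pol L := by
  cases L with
  | nil => simp [chiG, pol]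
  | cons h t => simp [chiG, pol, chi_neg]; ring

theorem length_chiG {F : Type} [Field F] (c : F) (L : List F) :
    (chiG c L).length ≤ L.length + 1 := by
  cases L with
  | nil => simp [chiG]
  | cons h t => simp [chiG]

/-- program for the coefficients of `c - L`, input `(c, L)` -/
def chiGP : Pr [] (.prod .fld Po) Po :=
  onL .snd (ap2 .cons .fst .nil)
    (ap2 .cons (ap2 .add (.comp .fst .fst) (.comp (.comp .snd .fst) .neg))
      (ap2 (mapP (c := .unit) (a := .fld) (b := .fld) (.comp .snd .neg)) .star
        (.comp .snd .snd)))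

theorem val_chiGP {F : Type} [Field F] [DecidableEq F] (x : F × List F) :
    (chiGP.val () x : List F) = chiG x.1 x.2 := by
  obtain ⟨c, L⟩ := x
  cases L with
  | nil => simp [chiGP, chiG]
  | cons h t => simp [chiGP, chiG]

theorem cost_chiGP {F : Type} [Field F] [DecidableEq F] (x : F × List F) :
    chiGP.cost () () x ≤ 15 * x.2.length + 40 := by
  obtain ⟨c, L⟩ := x
  cases L with
  | nil => simp [chiGP]
  | cons h t =>
    have h1 := cost_mapP_le (s := []) (c := .unit) (a := .fld) (b := .fld)
      (.comp .snd .neg) () () ((), t) 2 (fun _ _ => by simp)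
    simp [chiGP] at h1 ⊢
    omega

/-- the row of the value at one point, input `((h, L), c)` -/
def chiR (w1 : Pr [] (.prod Po Po) .fld) : Pr [] (.prod (.prod Po Po) .fld) Po :=
  ap2 .cons (ap2 w1 (.comp .fst .fst) (ap2 chiGP .snd (.comp .fst .snd))) .nil

theorem val_chiR (w1 : Pr [] (.prod Po Po) .fld) {F : Type} [Field F] [DecidableEq F]
    (h L : List F) (c : F) :
    ((chiR w1).val () ((h, L), c) : List F) = [w1.val () (h, chiG c L)] := by
  simp [chiR, val_chiGP]

theorem cost_chiR (w1 : Pr [] (.prod Po Po) .fld) {F : Type} [Field F] [DecidableEq F]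
    (h L : List F) (c : F) :
    (chiR w1).cost () () ((h, L), c) ≤ w1.cost () () (h, chiG c L) + 15 * L.length + 60 := by
  have h1 := cost_chiGP (F := F) (c, L)
  simp [chiR, val_chiGP] at h1 ⊢
  omega

/-- the program, input `(points, (h, L))` -/
def chiP (w1 : Pr [] (.prod Po Po) .fld) (w2 : Pr [] (.prod Un (.prod Po Ma)) Ma) :
    Pr [] (.prod Po (.prod Po Po)) Po :=
  lt (.comp (ap2 (splitP (b := .fld) (a := .fld)) (ap2 .cons .zero (.comp .snd .fst)) .fst) .fst)
    (lt (ap2 (mapP (chiR w1)) (.comp .fst .snd) .snd)
      (ap3 (fitP (b := .fld) (a := .fld)) (.comp (.comp (.comp .fst .fst) .snd) .fst) .zero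
        (onL (ap3 w2 (ap2 .cons .star .nil) (.comp .fst .snd) .snd) .nil (.comp .snd .fst))))

/-- the values -/
noncomputable def chiV (w1 : Pr [] (.prod Po Po) .fld) {F : Type} [Field F] [DecidableEq F]
    (cs h L : List F) : List (List F) :=
  (cs.take (h.length + 1)).map (fun c => [(w1.val () (h, chiG c L) : F)])

theorem val_chiP (w1 : Pr [] (.prod Po Po) .fld) (w2 : Pr [] (.prod Un (.prod Po Ma)) Ma)
    {F : Type} [Field F] [DecidableEq F] (cs h L : List F) :
    ((chiP w1 w2).val () (cs, (h, L)) : List F) =
      fit h.length 0 (lcase (w2.val () (un 1, (cs.take (h.length + 1), chiV w1 cs h L)) :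
        List (List F)) [] (fun a _ => a)) := by
  have hR : (fun y : F => ((chiR w1).val () ((h, L), y) : List F)) =
      fun c => [w1.val () (h, chiG c L)] := funext (val_chiR w1 h L)
  have hR' : List.map (fun y : F => ((chiR w1).val () ((h, L), y) : List F))
      (cs.take (h.length + 1)) = chiV w1 cs h L := by rw [hR]; rfl
  rw [← hR']
  simp [chiP, un]

theorem cost_chiP (w1 : Pr [] (.prod Po Po) .fld) (w2 : Pr [] (.prod Un (.prod Po Ma)) Ma)
    {F : Type} [Field F] [DecidableEq F] (cs h L : List F) (B : ℕ)
    (hB : ∀ c : F, w1.cost () () (h, chiG c L) ≤ B) :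
    (chiP w1 w2).cost () () (cs, (h, L)) ≤
      (B + 15 * L.length + 100) * (h.length + 1) + 20 * h.length + 100 +
      24 * (h.length + 1) +
      w2.cost () () (un 1, (cs.take (h.length + 1), chiV w1 cs h L)) := by
  have e1 := cost_splitP (s := []) (b := .fld) (a := .fld) () () ((0 : F) :: h, cs)
  have e2 := cost_mapP_le (s := []) (c := .prod Po Po) (a := .fld) (b := Po)
      (chiR w1) () () ((h, L), cs.take (h.length + 1)) (B + 15 * L.length + 60)
      (fun c _ => (cost_chiR w1 h L c).trans (by have := hB c; omega))
  have e3 := cost_fitP (s := []) (b := .fld) (a := .fld) () () (h, ((0 : F),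
    lcase (w2.val () (un 1, (cs.take (h.length + 1), chiV w1 cs h L)) :
        List (List F)) [] (fun a _ => a)))
  have e5 : ∀ A : List (List F), lcase A 1 (fun _ _ => 2) ≤ 2 := by
    intro A; cases A <;> simp
  have e4 := e5 (w2.val () (un 1, (cs.take (h.length + 1), chiV w1 cs h L)) :
        List (List F))
  have hR : (fun y : F => ((chiR w1).val () ((h, L), y) : List F)) =
      fun c => [w1.val () (h, chiG c L)] := funext (val_chiR w1 h L)
  have hR' : List.map (fun y : F => ((chiR w1).val () ((h, L), y) : List F))
      (cs.take (h.length + 1)) = chiV w1 cs h L := by rw [hR]; rfl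
  rw [← hR'] at e3 e4 ⊢
  simp [chiP, un] at e1 e2 e3 e4 ⊢
  have e6 : min (h.length + 1) cs.length ≤ h.length + 1 := min_le_left _ _
  nlinarith

end chi

/-- TARGET -/
theorem specChi (h1 : SpecNorm) (h2 : SpecInt) : SpecChi := by
  obtain ⟨w1, C1, H1⟩ := h1
  obtain ⟨w2, C2, H2⟩ := h2
  refine ⟨chiP w1 w2, 4 * C1 + 27 * C2 + 400, ?_⟩
  intro F _ _ n cs h L hn hn1 hL hcs
  have hV : (chiV w1 cs h L).length = (cs.take (h.length + 1)).length := by simp [chiV]
  have hVs : Sh 1 (chiV w1 cs h L) := by
    intro r hr
    simp only [chiV, List.mem_map] at hr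
    obtain ⟨c, _, rfl⟩ := hr
    rfl
  obtain ⟨hA1, hA2, hA3, hA4⟩ := H2 F 1 (cs.take (h.length + 1)) (chiV w1 cs h L) hV hVs
  rw [val_chiP]
  have htl : (cs.take (h.length + 1)).length = n + 1 := by
    rw [List.length_take]; omega
  set A : List (List F) := w2.val () (un 1, (cs.take (h.length + 1), chiV w1 cs h L)) with hAdef
  obtain ⟨a, ha⟩ : ∃ a, A = [a] := List.length_eq_one_iff.mp hA1
  have hal : a.length = n + 1 := by
    rw [← htl]; exact hA2 a (by rw [ha]; simp)
  have hfit : fit h.length (0 : F) (lcase A [] (fun a _ => a)) = a.take n := by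
    rw [ha]
    simp only [lcase_cons]
    have : ∀ (n : ℕ) (l : List F), n ≤ l.length → fit n 0 l = l.take n := by
      intro n
      induction n with
      | zero => intro l _; simp [fit]
      | succ n ih =>
        intro l hl
        cases l with
        | nil => simp at hl
        | cons x l => simp [fit, ih l (by simpa using hl)]
    rw [hn]
    exact this n a (by omega)
  rw [hfit]
  refine ⟨by simp [hal], ?_, ?_⟩
  · intro hnd k _ _ α hα
    have hev : ∀ j < n + 1, ((pol a).map (algebraMap F k)).eval (algebraMap F k (cs.getD j 0)) =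
        (∏ i, (X - Polynomial.C (aeval (α i) (pol L)))).eval (algebraMap F k (cs.getD j 0)) := by
      intro j hj
      have hj' : j < cs.length := by omega
      have e1 := hA3 (hnd.sublist (List.take_sublist _ _)) 0 (by omega) j (by omega)
      have e2 : (cs.take (h.length + 1)).getD j 0 = cs.getD j 0 := by
        rw [List.getD_eq_getElem _ _ (by omega), List.getD_eq_getElem _ _ hj', List.getElem_take]
      have e3 : ((chiV w1 cs h L).getD j []).getD 0 0 = w1.val () (h, chiG (cs.getD j 0) L) := by
        rw [List.getD_eq_getElem _ _ (by omega : j < (chiV w1 cs h L).length)]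
        simp only [chiV, List.getElem_map, List.getElem_take, List.getD_cons_zero]
        rw [List.getD_eq_getElem _ _ hj']
      rw [ha, e2, e3] at e1
      simp only [List.getD_cons_zero] at e1
      rw [eval_map_algebraMap, aeval_algebraMap_apply_eq_algebraMap_eval, e1,
        (H1 F n h (chiG (cs.getD j 0) L) hn hn1).1 k α hα, eval_prod]
      apply Finset.prod_congr rfl
      intro i _
      rw [pol_chiG]
      simp
    have hinj : Function.Injective (algebraMap F k) := (algebraMap F k).injective
    have hEq : (pol a).map (algebraMap F k) = ∏ i, (X - Polynomial.C (aeval (α i) (pol L))) := by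
      classical
      apply eq_of_degree_sub_lt_of_eval_finset_eq
        (((cs.take (n + 1)).map (algebraMap F k)).toFinset)
      · rw [List.toFinset_card_of_nodup
          ((hnd.sublist (List.take_sublist _ _)).map hinj), List.length_map,
          List.length_take, Nat.min_eq_left hcs]
        apply lt_of_le_of_lt (degree_sub_le _ _)
        rw [max_lt_iff]
        constructor
        · apply lt_of_le_of_lt degree_map_le
          have := chi_degree a
          rwa [hal] at this
        · rw [degree_prod]
          simp only [degree_X_sub_C]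
          simp
          exact_mod_cast Nat.lt_succ_self n
      · intro x hx
        rw [List.mem_toFinset, List.mem_map] at hx
        obtain ⟨y, hy, rfl⟩ := hx
        obtain ⟨j, hj, rfl⟩ := List.getElem_of_mem hy
        have hj2 : j < n + 1 := by
          rw [List.length_take] at hj; omega
        have := hev j hj2
        rw [List.getD_eq_getElem _ _ (by omega : j < cs.length)] at this
        rw [List.getElem_take]
        exact this
    have hmon : ((pol a).map (algebraMap F k)).coeff n = 1 := by
      rw [hEq]
      have h1 : (∏ i : Fin n, (X - Polynomial.C (aeval (α i) (pol L)))).Monic :=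
        monic_prod_of_monic _ _ (fun i _ => monic_X_sub_C _)
      have h2 : (∏ i : Fin n, (X - Polynomial.C (aeval (α i) (pol L)))).natDegree = n := by
        rw [natDegree_prod_of_monic _ _ (fun i _ => monic_X_sub_C _)]
        simp
      have := h1.coeff_natDegree
      rwa [h2] at this
    have han : a.getD n 0 = 1 := by
      rw [coeff_map, chi_coeff] at hmon
      exact hinj (by rw [hmon, map_one])
    have hmp : mpol (a.take n) = pol a := by
      unfold mpol
      ext i
      rw [coeff_add, chi_coeff, chi_coeff, coeff_X_pow, List.length_take,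
        Nat.min_eq_left (by omega)]
      rcases lt_trichotomy i n with hi | hi | hi
      · rw [if_neg (by omega), zero_add, List.getD_eq_getElem _ _ (by rw [List.length_take]; omega),
          List.getD_eq_getElem _ _ (by omega), List.getElem_take]
      · rw [if_pos hi, hi, han, List.getD_eq_default _ _ (by rw [List.length_take]; omega), add_zero]
      · rw [if_neg (by omega), zero_add, List.getD_eq_default _ _ (by rw [List.length_take]; omega),
          List.getD_eq_default _ _ (by omega)]
    rw [hmp, hEq]
  · have hB : ∀ c : F, w1.cost () () (h, chiG c L) ≤ 4 * C1 * (n + 1) ^ 2 := by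
      intro c
      refine ((H1 F n h (chiG c L) hn hn1).2).trans ?_
      have := length_chiG c L
      calc C1 * (n + (chiG c L).length + 1) ^ 2 ≤ C1 * (2 * (n + 1)) ^ 2 := by gcongr; omega
        _ = _ := by ring
    have e1 := cost_chiP w1 w2 cs h L _ hB
    refine e1.trans ?_
    rw [htl] at hA4
    have hA5 : C2 * (n + 1 + 1 + 1) ^ 3 ≤ 27 * C2 * (n + 1) ^ 3 := by
      calc C2 * (n + 1 + 1 + 1) ^ 3 ≤ C2 * (3 * (n + 1)) ^ 3 := by gcongr; omega
        _ = _ := by ring
    have hcs2 : (n + 1) ^ 3 ≤ (cs.length + 1) ^ 2 * (n + 1) := by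
      calc (n + 1) ^ 3 = (n + 1) ^ 2 * (n + 1) := by ring
        _ ≤ _ := by gcongr; omega
    calc _ ≤ (4 * C1 * (n + 1) ^ 2 + 15 * n + 100) * (n + 1) + 20 * n + 100 + 24 * (n + 1) +
          27 * C2 * (n + 1) ^ 3 := by
            rw [hL, hn]
            have := hA4.trans hA5
            rw [hn] at this
            omega
      _ ≤ (4 * C1 + 27 * C2 + 400) * (n + 1) ^ 3 := by nlinarith [Nat.zero_le n]
      _ ≤ _ := by gcongr

end Pool.Agent.H330AB.JK7
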