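import Pool.Agent.H330AB.SpecB2
set_option autoImplicit false
noncomputable section
namespace Pool.Agent.H330AB.JK8
open Polynomial Pool.Agent.H330FB

section comp
variable {s : List (Ty × Ty)}

/-- the list `1, 0, ..., 0` of the same length -/
def specComp_oneP : Pr s Po Po :=
  onL .id .nil (.comp (.pair .one (.comp (.pair .star (.comp .snd .snd))
    (mapP (c := .unit) .zero))) .cons)

/-- one step of Horner's rule; input `((L, h), (acc, z))` -/
def specComp_stepP (w : Pr [] (.prod (.prod Po Po) Po) Po) :
    Pr s (.prod (.prod Po Po) (.prod Po .fld)) Po :=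
  onL (.comp (.pair (.pair (.comp .snd .fst) (.comp .fst .fst)) (.comp .fst .snd)) (liftP s w))
    .nil (.comp (.pair (.comp (.pair (.comp .snd .fst) (.comp .fst (.comp .snd .snd))) .add)
      (.comp .snd .snd)) .cons)

/-- Horner's rule; input `(q, (L, h))` -/
def specComp_P (w : Pr [] (.prod (.prod Po Po) Po) Po) : Pr s (.prod Po (.prod Po Po)) Po :=
  .comp (.pair .snd (.pair (.comp (.comp .snd .snd) specComp_oneP) (.comp .fst revP)))
    (foldP (specComp_stepP w))

variable {F : Type} [Field F] [DecidableEq F]

/-- adding a constant to the first coefficient -/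
def specComp_addc (z : F) (l : List F) : List F := lcase l [] (fun x t => (x + z) :: t)

theorem specComp_val_oneP (v : SV F s) (x : List F) :
    (specComp_oneP : Pr s Po Po).val v x =
      lcase x [] (fun _ t => (1 : F) :: List.map (fun _ => (0 : F)) t) := by
  simp [specComp_oneP]

theorem specComp_cost_oneP (v : SV F s) (k : SC F s) (x : List F) :
    (specComp_oneP : Pr s Po Po).cost v k x ≤ 14 * x.length + 40 := by
  cases x with
  | nil => simp [specComp_oneP]
  | cons h t =>
    have h1 := cost_mapP_le (s := s) (c := .unit) (a := .fld) (b := .fld) .zero v k ((), t) 1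
      (fun _ _ => by simp)
    simp [specComp_oneP] at h1 ⊢
    omega

theorem specComp_val_stepP (w : Pr [] (.prod (.prod Po Po) Po) Po) (v : SV F s)
    (L h acc : List F) (z : F) :
    (specComp_stepP w : Pr s _ Po).val v ((L, h), (acc, z)) =
      specComp_addc z (w.val () ((acc, L), h)) := by
  simp [specComp_stepP, specComp_addc]

theorem specComp_cost_stepP (w : Pr [] (.prod (.prod Po Po) Po) Po) (v : SV F s) (k : SC F s)
    (L h acc : List F) (z : F) :
    (specComp_stepP w : Pr s _ Po).cost v k ((L, h), (acc, z)) ≤
      w.cost () () ((acc, L), h) + 40 := by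
  simp only [specComp_stepP, cost_onL, cost_comp, cost_pair, cost_snd, cost_fst, cost_liftP,
    val_comp, val_pair, val_snd, val_fst, val_liftP, cost_nil]
  generalize (w.val () ((acc, L), h) : List F) = r
  cases r with
  | nil => simp; omega
  | cons x t => simp; omega

theorem specComp_length_addc (z : F) (l : List F) : (specComp_addc z l).length = l.length := by
  cases l <;> simp [specComp_addc]

theorem specComp_pol_addc (z : F) (l : List F) (hl : 1 ≤ l.length) :
    pol (specComp_addc z l) = pol l + C z := by
  cases l with
  | nil => simp at hl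
  | cons x t => simp [specComp_addc, pol]; ring

theorem specComp_comp (q : List F) (Y : F[X]) :
    List.foldl (fun a z => a * Y + C z) 1 q.reverse = (mpol q).comp Y := by
  rw [List.foldl_reverse]
  induction q with
  | nil => simp [mpol, pol]
  | cons x t ih =>
    rw [List.foldr_cons, ih]
    simp only [mpol, pol, List.length_cons, add_comp, pow_comp, X_comp, C_comp, mul_comp]
    ring

theorem specComp_fold (w : Pr [] (.prod (.prod Po Po) Po) Po) (L h : List F)
    (hLh : L.length = h.length) (hh : 1 ≤ h.length)
    (hw : ∀ a : List F, a.length = h.length →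
      List.length (w.val () ((a, L), h) : List F) = h.length ∧
      mpol h ∣ pol a * pol L - pol (w.val () ((a, L), h) : List F)) (l : List F) :
    ∀ (acc : List F) (A : F[X]), acc.length = h.length → mpol h ∣ A - pol acc →
      (List.foldl (fun y z => specComp_addc z (w.val () ((y, L), h) : List F)) acc l).length =
        h.length ∧
      mpol h ∣ List.foldl (fun a z => a * pol L + C z) A l -
        pol (List.foldl (fun y z => specComp_addc z (w.val () ((y, L), h) : List F)) acc l) := by
  induction l with
  | nil => intro acc A h1 h2; exact ⟨h1, h2⟩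
  | cons z t ih =>
    intro acc A h1 h2
    obtain ⟨h3, h4⟩ := hw acc h1
    rw [List.foldl_cons, List.foldl_cons]
    refine ih _ _ (by rw [specComp_length_addc, h3]) ?_
    rw [specComp_pol_addc _ _ (by rw [h3]; exact hh)]
    have e : A * pol L + C z - (pol (w.val () ((acc, L), h) : List F) + C z) =
        (A - pol acc) * pol L + (pol acc * pol L - pol (w.val () ((acc, L), h) : List F)) := by
      ring
    rw [e]
    exact dvd_add (Dvd.dvd.mul_right h2 _) h4

theorem specComp_one (h : List F) (hh : 1 ≤ h.length) :
    (lcase h [] (fun _ t => (1 : F) :: List.map (fun _ => (0 : F)) t)).length = h.length ∧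
    pol (lcase h [] (fun _ t => (1 : F) :: List.map (fun _ => (0 : F)) t)) = 1 := by
  cases h with
  | nil => simp at hh
  | cons x t =>
    have : ∀ t : List F, pol (List.map (fun _ => (0 : F)) t) = 0 := by
      intro t
      induction t with
      | nil => rfl
      | cons y t ih => simp only [List.map_cons, pol, ih]; simp
    refine ⟨by simp, ?_⟩
    simp only [lcase_cons, pol, this]
    simp

end comp

/- Horner's rule modulo h: start with 1, multiply by L modulo h (SpecNaive: input ((a, b), P)) and add the coefficients of mpol q from the top. -/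
/-- TARGET -/
theorem specComp (h : SpecNaive) : SpecComp := by
  obtain ⟨w, C, hw⟩ := h
  refine ⟨specComp_P w, C + 200, ?_⟩
  intro F _ _ q L h hL hh
  have hw' : ∀ a : List F, a.length = h.length →
      List.length (w.val () ((a, L), h) : List F) = h.length ∧
      mpol h ∣ pol a * pol L - pol (w.val () ((a, L), h) : List F) := fun a ha =>
    ⟨(hw F a L h ha hL).1, (hw F a L h ha hL).2.1⟩
  have hcost : ∀ a : List F, a.length = h.length →
      w.cost () () ((a, L), h) ≤ C * (h.length + 1) ^ 2 := fun a ha => (hw F a L h ha hL).2.2
  obtain ⟨o1, o2⟩ := specComp_one h hh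
  have hval : ((specComp_P w : Pr [] _ Po).val () (q, (L, h)) : List F) =
      List.foldl (fun y z => specComp_addc z (w.val () ((y, L), h) : List F))
        (lcase h [] (fun _ t => (1 : F) :: List.map (fun _ => (0 : F)) t)) q.reverse := by
    simp only [specComp_P, val_comp, val_pair, val_snd, val_fst, val_foldP, val_revP,
      specComp_val_oneP]
    exact congrArg (fun f : List F → F → List F => List.foldl f _ q.reverse)
      (funext fun y => funext fun z => specComp_val_stepP (s := []) w () L h y z)
  have hf := specComp_fold w L h hL hh hw' q.reverse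
    (lcase h [] (fun _ t => (1 : F) :: List.map (fun _ => (0 : F)) t)) 1 o1
    (by rw [o2, sub_self]; exact dvd_zero _)
  refine ⟨?_, ?_, ?_⟩
  · rw [hval]; exact hf.1
  · rw [hval, ← specComp_comp]; exact hf.2
  · have c1 := specComp_cost_oneP (s := []) (F := F) () () h
    have c2 := cost_revP (s := []) (F := F) (a := .fld) () () q
    have c3 := cost_foldP_le (s := []) (F := F) (c := .prod Po Po) (b := Po) (a := .fld)
      (specComp_stepP w) () ()
      ((L, h), ((lcase h [] (fun _ t => (1 : F) :: List.map (fun _ => (0 : F)) t) : List F),
        (q.reverse : List F)))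
      (C * (h.length + 1) ^ 2 + 40) (fun a : List F => a.length = h.length) o1
      (fun y z hy _ => by
        rw [specComp_val_stepP (s := []), specComp_length_addc]
        exact (hw' y hy).1)
      (fun y z hy _ => by
        refine (specComp_cost_stepP (s := []) w () () L h y z).trans ?_
        have := hcost y hy
        omega)
    simp only [specComp_P, cost_comp, cost_pair, cost_snd, cost_fst, val_comp, val_pair, val_snd,
      val_fst, val_revP, specComp_val_oneP, List.length_reverse] at c1 c2 c3 ⊢
    have h2 : (1 : ℕ) ≤ (h.length + 1) ^ 2 := Nat.one_le_pow _ _ (by omega)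
    have h3 : h.length + 1 ≤ (h.length + 1) ^ 2 := by nlinarith
    have h4 : (h.length + 1) ^ 2 ≤ (q.length + 1) * (h.length + 1) ^ 2 := by nlinarith
    have h5 : q.length + 1 ≤ (q.length + 1) * (h.length + 1) ^ 2 := by nlinarith
    have e : (C * (h.length + 1) ^ 2 + 40 + 27) * q.length ≤
        (C + 67) * ((q.length + 1) * (h.length + 1) ^ 2) := by
      have : C * (h.length + 1) ^ 2 + 40 + 27 ≤ (C + 67) * (h.length + 1) ^ 2 := by nlinarith
      calc _ ≤ ((C + 67) * (h.length + 1) ^ 2) * (q.length + 1) :=
            Nat.mul_le_mul this (by omega)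
        _ = _ := by ring
    have e2 : (C + 200) * ((q.length + 1) * (h.length + 1) ^ 2) =
        (C + 67) * ((q.length + 1) * (h.length + 1) ^ 2) +
          133 * ((q.length + 1) * (h.length + 1) ^ 2) := by ring
    rw [e2]
    omega

end Pool.Agent.H330AB.JK8
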