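import Pool.Agent.H330AB.SpecB2
set_option autoImplicit false
noncomputable section
namespace Pool.Agent.H330AB.JK9
open Polynomial Pool.Agent.H330FB

/-! ### The labelled columns -/

/-- the columns with the labels `u`, `0 :: u`, ..., and the target with the label `[]` -/
def sk_mk {F : Type} [Field F] : List F → List (List F) → List F → List (List F × List F)
  | _, [], v => [([], v)]
  | u, c :: cols, v => (u, c) :: sk_mk (0 :: u) cols v

/-- body of the recursion -/
def sk_body : Pr [(.prod Po (.prod Ma Po), .list (.prod Po Po))] (.prod Po (.prod Ma Po))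
    (.list (.prod Po Po)) :=
  onL (.comp .snd .fst)
    (ap2 .cons (.pair .nil (.comp .snd .snd)) .nil)
    (ap2 .cons (.pair (.comp .fst .fst) (.comp .snd .fst))
      (.comp (.pair (ap2 .cons .zero (.comp .fst .fst))
        (.pair (.comp .snd .snd) (.comp (.comp .fst .snd) .snd))) .self))

/-- answer at depth zero -/
def sk_base : Pr [] (.prod Po (.prod Ma Po)) (.list (.prod Po Po)) :=
  ap2 .cons (.pair .nil (.comp .snd .snd)) .nil

/-- the labelled columns -/
def sk_mkP : Pr [] (.prod Ma Po) (.list (.prod Po Po)) :=
  .comp (.pair .fst (.pair (ap2 .cons .one .nil) .id)) (.recD sk_body sk_base)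

section
variable {F : Type} [Field F] [DecidableEq F]

theorem sk_val_mkP (x : List (List F) × List F) :
    (sk_mkP.val () x : List (List F × List F)) = sk_mk [1] x.1 x.2 := by
  obtain ⟨cols, v⟩ := x
  simp only [sk_mkP, val_comp, val_pair, val_fst, val_id, val_recD, val_cons, val_one, val_nil]
  have : ∀ (cols : List (List F)) (u : List F),
      (goV sk_body sk_base () cols.length (u, (cols, v)) : List (List F × List F)) =
        sk_mk u cols v := by
    intro cols
    induction cols with
    | nil => intro u; simp [goV, sk_base, sk_mk]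
    | cons h t ih => intro u; simp [goV, sk_body, sk_mk]; exact ih _
  exact this cols [1]

theorem sk_cost_mkP (x : List (List F) × List F) :
    sk_mkP.cost () () x ≤ 40 * x.1.length + 30 := by
  obtain ⟨cols, v⟩ := x
  simp only [sk_mkP, cost_comp, cost_pair, cost_fst, cost_id, cost_recD, val_pair, val_fst,
    val_comp, val_cons, val_one, val_nil, cost_cons, cost_one, cost_nil, val_id]
  have : ∀ (cols : List (List F)) (u : List F),
      goC sk_body sk_base () () cols.length (u, (cols, v)) ≤ 40 * cols.length + 10 := by
    intro cols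
    induction cols with
    | nil => intro u; simp [goC, sk_base]
    | cons h t ih =>
      intro u
      have := ih (0 :: u)
      simp [goC, sk_body] at this ⊢
      omega
  have := this cols [1]
  omega

/-! ### Linear combinations -/

/-- one step of the combination -/
def sk_step : Pr [] (.prod .unit (.prod Po (.prod Po .fld))) Po :=
  ap2 (zpP .add) (ap2 (mapP .mul) (.comp (.comp .snd .snd) .snd) (.comp (.comp .snd .snd) .fst))
    (.comp .snd .fst)

/-- combination of the lists `P` with coefficients `co`; input `(P, co)` -/
def sk_combP : Pr [] (.prod Ma Po) Po :=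
  .comp (.pair .star (.pair .nil (.comp (.pair .star .id) (zipP (c := .unit) .snd))))
    (foldP sk_step)

/-- combination of lists -/
def sk_comb (P : List (List F)) (co : List F) : List F :=
  List.foldl (fun y (z : List F × F) => zp (fun a b => a + b) (z.1.map (fun a => z.2 * a)) y) []
    (List.zip P co)

theorem sk_val_combP (x : List (List F) × List F) :
    (sk_combP.val () x : List F) = sk_comb x.1 x.2 := by
  obtain ⟨P, co⟩ := x
  simp [sk_combP, sk_comb, sk_step, List.zip]

theorem sk_cost_combP (x : List (List F) × List F) (N : ℕ) (h : ∀ l ∈ x.1, l.length ≤ N) :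
    sk_combP.cost () () x ≤ (60 * N + 150) * (x.1.length + 1) := by
  obtain ⟨P, co⟩ := x
  have h1 := cost_zipP_le (s := []) (c := .unit) (a := Po) (b := .fld) .snd () ()
    ((), (P, co)) 1 (fun _ _ _ _ => by simp)
  have h2 := cost_foldP_le (s := []) (c := .unit) (b := Po) (a := .prod Po .fld) sk_step () ()
    ((), (([] : List F), List.zip P co)) (60 * N + 50) (fun _ => True) trivial
    (fun _ _ _ _ => trivial)
    (fun y z _ hz => by
      obtain ⟨l, c⟩ := z
      have hl : l ∈ P := (List.of_mem_zip hz).1
      have hl2 := h l hl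
      have e1 := cost_mapP_le (s := []) (c := .fld) (a := .fld) (b := .fld) .mul () ()
        (c, l) 1 (fun _ _ => by simp)
      have e2 := cost_zpP_le (s := []) (a := .fld) .add () ()
        (l.map (fun a => c * a), y) 1 (fun _ _ _ _ => by simp)
      simp [sk_step] at e1 e2 hl2 ⊢
      omega)
  have h3 : (List.zip P co).length ≤ P.length := by
    rw [List.length_zip]; exact min_le_left _ _
  have h4 : (60 * N + 50 + 27) * (List.zip P co).length ≤ (60 * N + 77) * P.length :=
    Nat.mul_le_mul (by omega) h3
  have h5 : sk_combP.cost () () (P, co) = 1 + (1 + (1 + 1 + 1 +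
      (zipP (s := []) (c := .unit) (a := Po) (b := .fld) .snd).cost () () ((), (P, co))) + 1) + 1 +
      (foldP sk_step).cost () () ((), (([] : List F), List.zip P co)) := by
    simp [sk_combP, List.zip]
  rw [h5]
  simp only at h1 h2 ⊢
  nlinarith

/-! ### The program -/

/-- last step; input `((columns, target), (pivots, others))` -/
def sk_fin : Pr [] (.prod (.prod Ma Po) (.prod Ma (.list (.prod Po Po)))) Po :=
  onL (.comp .snd .snd)
    (ap3 fitP (.comp .fst .fst) .zero .nil)
    (ap3 fitP (.comp (.comp .fst .fst) .fst) .zero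
      (ap2 sk_combP (.comp (.comp .fst .snd) .fst) (.comp (.comp .snd .fst) .snd)))

/-- the program -/
def sk_prog (p : Pr [] (.list (.prod Po Po)) (.prod Ma (.list (.prod Po Po)))) :
    Pr [] (.prod Ma Po) Po := lt (.comp sk_mkP p) sk_fin

end

/-! ### Coefficient vectors -/

section
variable {F : Type} [Field F]

theorem sk_cvec_zp (l m : List F) : cvec (zp (fun a b => a + b) l m) = cvec l + cvec m := by
  funext t
  simp only [cvec, Pi.add_apply]
  induction l generalizing m t with
  | nil => simp [zp]
  | cons h l ih =>
    cases m with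
    | nil => simp [zp]
    | cons h' m =>
      cases t with
      | zero => simp [zp]
      | succ t => simpa [zp] using ih m t

theorem sk_cvec_map (c : F) (l : List F) : cvec (l.map (fun a => c * a)) = c • cvec l := by
  funext t
  simp only [cvec, Pi.smul_apply, smul_eq_mul]
  induction l generalizing t with
  | nil => simp
  | cons h l ih =>
    cases t with
    | zero => simp
    | succ t => simpa using ih t

theorem sk_cvec_comb (P : List (List F)) (co : List F) :
    cvec (sk_comb P co) = ((List.zip P co).map (fun z => z.2 • cvec z.1)).sum := by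
  have : ∀ (L : List (List F × F)) (y : List F),
      cvec (List.foldl (fun y (z : List F × F) =>
        zp (fun a b => a + b) (z.1.map (fun a => z.2 * a)) y) y L) =
      cvec y + (L.map (fun z => z.2 • cvec z.1)).sum := by
    intro L
    induction L with
    | nil => intro y; simp
    | cons z L ih =>
      intro y
      rw [List.foldl_cons, ih, sk_cvec_zp, sk_cvec_map, List.map_cons, List.sum_cons]
      abel
  have h0 : cvec ([] : List F) = 0 := by
    funext t
    simp [cvec]
  rw [sk_comb, this, h0, zero_add]

theorem sk_sum_zip {α : Type} (g : α → ℕ → F) : ∀ (P : List α) (co : List F),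
    co.length = P.length →
    ((List.zip P co).map (fun z => z.2 • g z.1)).sum =
      ∑ k : Fin P.length, co.getD k 0 • g (P.get k)
  | [], co, _ => by simp
  | x :: P, [], h => by simp at h
  | x :: P, c :: co, h => by
    have ih := sk_sum_zip g P co (by simpa using h)
    rw [List.zip_cons_cons, List.map_cons, List.sum_cons, ih]
    have e : ∑ k : Fin (x :: P).length, (c :: co).getD k 0 • g ((x :: P).get k) =
        ∑ k : Fin (P.length + 1), (c :: co).getD k 0 • g ((x :: P).get k) := rfl
    rw [e, Fin.sum_univ_succ]
    simp

theorem sk_cvec_unit (j t : ℕ) :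
    cvec (List.replicate j (0 : F) ++ [1]) t = if t = j then 1 else 0 := by
  simp only [cvec]
  induction j generalizing t with
  | zero =>
    cases t with
    | zero => simp
    | succ t => simp
  | succ j ih =>
    cases t with
    | zero => simp [List.replicate_succ]
    | succ t => simpa [List.replicate_succ] using ih t

theorem sk_fit_getD (n : ℕ) (l : List F) (i : ℕ) (hi : i < n) :
    (fit n 0 l).getD i 0 = l.getD i 0 := by
  induction n generalizing l i with
  | zero => omega
  | succ n ih =>
    cases l with
    | nil =>
      cases i with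
      | zero => simp [fit]
      | succ i => simpa [fit] using ih [] i (by omega)
    | cons h l =>
      cases i with
      | zero => simp [fit]
      | succ i => simpa [fit] using ih l i (by omega)

/-! ### The labelled columns -/

theorem sk_mem (cols : List (List F)) (v : List F) (i : ℕ) (y : List F × List F) :
    y ∈ sk_mk (List.replicate i (0 : F) ++ [1]) cols v ↔
      (y = ([], v) ∨ ∃ j < cols.length, y = (List.replicate (i + j) 0 ++ [1], cols.getD j [])) := by
  induction cols generalizing i with
  | nil => simp [sk_mk]
  | cons c cols ih =>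
    have h0 : (0 : F) :: (List.replicate i (0 : F) ++ [1]) = List.replicate (i + 1) 0 ++ [1] := by
      simp [List.replicate_succ]
    rw [sk_mk, List.mem_cons, h0, ih]
    constructor
    · rintro (h | h | ⟨j, hj, h⟩)
      · exact Or.inr ⟨0, by simp, by simpa using h⟩
      · exact Or.inl h
      · refine Or.inr ⟨j + 1, by simpa using hj, ?_⟩
        rw [h, show i + (j + 1) = i + 1 + j by ring]
        simp
    · rintro (h | ⟨j, hj, h⟩)
      · exact Or.inr (Or.inl h)
      · cases j with
        | zero => exact Or.inl (by simpa using h)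
        | succ j =>
          refine Or.inr (Or.inr ⟨j, by simpa using hj, ?_⟩)
          rw [h, show i + (j + 1) = i + 1 + j by ring]
          simp

theorem sk_nodup (cols : List (List F)) (v : List F) (i : ℕ) :
    (sk_mk (List.replicate i (0 : F) ++ [1]) cols v).Nodup := by
  induction cols generalizing i with
  | nil => simp [sk_mk]
  | cons c cols ih =>
    have h0 : (0 : F) :: (List.replicate i (0 : F) ++ [1]) = List.replicate (i + 1) 0 ++ [1] := by
      simp [List.replicate_succ]
    rw [sk_mk, List.nodup_cons, h0]
    refine ⟨?_, ih (i + 1)⟩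
    rw [sk_mem]
    rintro (h | ⟨j, hj, h⟩)
    · have := congrArg (fun z => z.1.length) h
      simp at this
    · have := congrArg (fun z => z.1.length) h
      simp at this
      omega

open Classical in
theorem sk_pairwise (cols : List (List F)) (v : List F) (u : List F) (hu : u ≠ []) :
    (sk_mk u cols v).Pairwise (fun x y => (if x.1 = [] then 1 else 0 : ℕ) ≤
      (if y.1 = [] then 1 else 0 : ℕ)) := by
  induction cols generalizing u with
  | nil => simp [sk_mk]
  | cons c cols ih =>
    rw [sk_mk, List.pairwise_cons]
    refine ⟨fun y _ => ?_, ih _ (by simp)⟩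
    simp [hu]

theorem sk_length (cols : List (List F)) (v : List F) (u : List F) :
    (sk_mk u cols v).length = cols.length + 1 := by
  induction cols generalizing u with
  | nil => simp [sk_mk]
  | cons c cols ih => simp [sk_mk, ih]

theorem sk_snd (cols : List (List F)) (v : List F) (u : List F) (m : ℕ) (h : Sh m cols)
    (hv : v.length = m) : ∀ y ∈ sk_mk u cols v, y.2.length = m := by
  induction cols generalizing u with
  | nil => simpa [sk_mk] using hv
  | cons c cols ih =>
    intro y hy
    rw [sk_mk, List.mem_cons] at hy
    rcases hy with rfl | hy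
    · exact h c (by simp)
    · exact ih _ (fun r hr => h r (by simp [hr])) y hy

end

/-! ### Correctness -/

section
variable {F : Type} [Field F]

/-- a combination of labelled columns is the combination of the columns with the coefficients
given by the labels -/
theorem sk_lin (cols : List (List F)) (v : List F) (P' : List (List F × List F)) (co : List F)
    (hP : ∀ y ∈ P', y ∈ sk_mk [1] cols v)
    (hco : ∀ k : Fin P'.length, co.getD k 0 ≠ 0 → P'.get k ≠ ([], v)) :
    ∑ k : Fin P'.length, co.getD k 0 • cvec (P'.get k).2 =
      ∑ j : Fin cols.length, (∑ k : Fin P'.length, co.getD k 0 * cvec (P'.get k).1 j) •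
        cvec (cols.getD j []) := by
  have hB : ∀ y ∈ sk_mk [1] cols v, y ≠ ([], v) → cvec y.2 =
      ∑ j : Fin cols.length, cvec y.1 j • cvec (cols.getD j []) := by
    intro y hy hne
    have h1 := (sk_mem cols v 0 y).1 (by simpa using hy)
    rcases h1 with h1 | ⟨j, hj, h1⟩
    · exact absurd h1 hne
    · subst h1
      rw [Finset.sum_eq_single ⟨j, hj⟩]
      · simp only [zero_add]
        rw [sk_cvec_unit]
        simp
      · intro b _ hb
        simp only [zero_add]
        rw [sk_cvec_unit, if_neg, zero_smul]
        intro h2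
        exact hb (Fin.ext h2)
      · intro h2
        exact absurd (Finset.mem_univ _) h2
  have h1 : ∀ k : Fin P'.length, co.getD k 0 • cvec (P'.get k).2 =
      ∑ j : Fin cols.length, (co.getD k 0 * cvec (P'.get k).1 j) • cvec (cols.getD j []) := by
    intro k
    by_cases hk : co.getD k 0 = 0
    · simp only [hk, zero_smul, zero_mul, Finset.sum_const_zero]
    · rw [hB (P'.get k) (hP _ (List.get_mem _ _)) (hco k hk), Finset.smul_sum]
      refine Finset.sum_congr rfl fun j _ => ?_
      rw [smul_smul]
  rw [Finset.sum_congr rfl (fun k _ => h1 k), Finset.sum_comm]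
  refine Finset.sum_congr rfl fun j _ => ?_
  rw [Finset.sum_smul]

theorem sk_sum_get {α M : Type} [AddCommMonoid M] (g : α → M) (P : List α) :
    ∑ k : Fin P.length, g (P.get k) = (P.map g).sum := by
  induction P with
  | nil => simp
  | cons x P ih =>
    have e : ∑ k : Fin (x :: P).length, g ((x :: P).get k) =
        ∑ k : Fin (P.length + 1), g ((x :: P).get k) := rfl
    rw [e, Fin.sum_univ_succ, List.map_cons, List.sum_cons, ← ih]
    rfl

theorem sk_mk_sum (cols : List (List F)) (v : List F) (i : ℕ) (a : ℕ → F) :
    ((sk_mk (List.replicate i (0 : F) ++ [1]) cols v).map (fun y =>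
      (if y.1.length = 0 then (-1 : F) else a (y.1.length - 1)) • cvec y.2)).sum =
      (∑ j : Fin cols.length, a (i + j) • cvec (cols.getD j [])) - cvec v := by
  induction cols generalizing i with
  | nil => simp [sk_mk]
  | cons c cols ih =>
    have h0 : (0 : F) :: (List.replicate i (0 : F) ++ [1]) = List.replicate (i + 1) 0 ++ [1] := by
      simp [List.replicate_succ]
    rw [sk_mk, List.map_cons, List.sum_cons, h0, ih]
    have e : ∑ j : Fin (c :: cols).length, a (i + j) • cvec ((c :: cols).getD j []) =
        ∑ j : Fin (cols.length + 1), a (i + j) • cvec ((c :: cols).getD j []) := rfl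
    rw [e, Fin.sum_univ_succ]
    simp only [List.length_append, List.length_replicate, List.length_singleton,
      Nat.add_eq_zero_iff, one_ne_zero, and_false, if_false, Nat.add_sub_cancel, Fin.val_zero,
      add_zero, List.getD_cons_zero, Fin.val_succ, List.getD_cons_succ]
    rw [add_sub_assoc]
    congr 2
    refine Finset.sum_congr rfl fun j _ => ?_
    rw [show i + 1 + (j : ℕ) = i + ((j : ℕ) + 1) by ring]

open Classical in
theorem sk_correct (cols : List (List F)) (v : List F) (P : List (List F))
    (Fr : List (List F × List F)) (hK : KerSpec (sk_mk [1] cols v) P Fr)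
    (hind : LinearIndependent F (fun i : Fin cols.length => cvec (cols.getD i [])))
    (hsp : cvec v ∈ Submodule.span F (Set.range
      (fun i : Fin cols.length => cvec (cols.getD i [])))) :
    ∃ x t, Fr = x :: t ∧
      cvec v = ∑ i : Fin cols.length, (sk_comb P x.2).getD i 0 • cvec (cols.getD i []) := by
  obtain ⟨P', Fr', hP, hFr, hperm, -, hli, hco, hρ⟩ := hK
  have hnd : (P' ++ Fr'.map Prod.fst).Nodup := by
    rw [hperm.nodup_iff]
    exact sk_nodup cols v 0
  have hPmem : ∀ y ∈ P', y ∈ sk_mk [1] cols v := fun y hy =>
    hperm.mem_iff.1 (List.mem_append_left _ hy)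
  have hFmem : ∀ x ∈ Fr', x.1 ∈ sk_mk [1] cols v := fun x hx =>
    hperm.mem_iff.1 (List.mem_append_right _ (List.mem_map_of_mem hx))
  have hdis : ∀ x ∈ Fr', ∀ y ∈ P', y ≠ x.1 := by
    intro x hx y hy h
    exact (List.nodup_append.1 hnd).2.2 y hy x.1 (List.mem_map_of_mem hx) h
  -- the first claim
  have hc1 : ∀ x ∈ Fr', x.1 = ([], v) := by
    intro x hx
    by_contra hne
    obtain ⟨i, hi, hxi⟩ := ((sk_mem cols v 0 x.1).1 (by simpa using hFmem x hx)).resolve_left hne
    rw [zero_add] at hxi
    have hr := hρ (fun y => if y.1 = [] then 1 else 0) (sk_pairwise cols v [1] (by simp)) x hx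
    have hr' : ∀ k : Fin P'.length, x.2.getD k 0 ≠ 0 → P'.get k ≠ ([], v) := by
      intro k hk h
      have h1 := hr k hk
      simp only [h, hxi, if_true] at h1
      simp at h1
    have h1 := (hco x hx).2
    rw [sk_lin cols v P' x.2 hPmem hr'] at h1
    have h2 : cvec x.1.2 = ∑ j : Fin cols.length,
        (if j = ⟨i, hi⟩ then (1 : F) else 0) • cvec (cols.getD j []) := by
      rw [Finset.sum_eq_single ⟨i, hi⟩]
      · rw [if_pos rfl, one_smul, hxi]
      · intro b _ hb
        rw [if_neg hb, zero_smul]
      · intro h3
        exact absurd (Finset.mem_univ _) h3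
    rw [h2] at h1
    have h3 : ∑ j : Fin cols.length, ((∑ k : Fin P'.length, x.2.getD k 0 *
        cvec (P'.get k).1 j) - (if j = ⟨i, hi⟩ then (1 : F) else 0)) •
        cvec (cols.getD j []) = 0 := by
      simp only [sub_smul, Finset.sum_sub_distrib]
      rw [← h1, sub_self]
    have h4 := Fintype.linearIndependent_iff.1 hind _ h3 ⟨i, hi⟩
    rw [if_pos rfl, Finset.sum_eq_zero, zero_sub, neg_eq_zero] at h4
    · exact one_ne_zero h4
    · intro k _
      have hk := hPmem _ (List.get_mem P' k)
      rcases (sk_mem cols v 0 (P'.get k)).1 (by simpa using hk) with h5 | ⟨j, hj, h5⟩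
      · rw [h5]
        simp [cvec]
      · rw [zero_add] at h5
        have h6 : j ≠ i := by
          rintro rfl
          exact hdis x hx _ (List.get_mem P' k) (h5.trans hxi.symm)
        rw [h5]
        show x.2.getD k 0 * cvec (List.replicate j 0 ++ [1]) i = 0
        rw [sk_cvec_unit, if_neg (fun h7 => h6 h7.symm), mul_zero]
  -- the second claim
  have hc2 : Fr' ≠ [] := by
    intro h0
    rw [h0, List.map_nil, List.append_nil] at hperm
    obtain ⟨a, ha⟩ := (Submodule.mem_span_range_iff_exists_fun F).1 hsp
    let w : List F × List F → F := fun y => if y.1.length = 0 then (-1 : F) else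
      (if h : y.1.length - 1 < cols.length then a ⟨y.1.length - 1, h⟩ else 0)
    have h1 : ∑ k : Fin P'.length, w (P'.get k) • cvec (P'.get k).2 = 0 := by
      rw [sk_sum_get (fun y => w y • cvec y.2) P', (hperm.map _).sum_eq]
      have h2 := sk_mk_sum cols v 0 (fun t => if h : t < cols.length then a ⟨t, h⟩ else 0)
      have h3 : (List.replicate 0 (0 : F) ++ [1]) = [1] := rfl
      rw [h3] at h2
      refine h2.trans ?_
      rw [← ha, sub_eq_zero]
      refine Finset.sum_congr rfl fun j _ => ?_
      rw [dif_pos (by rw [zero_add]; exact j.2)]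
      congr 2
      exact Fin.ext (zero_add _)
    have h2 := Fintype.linearIndependent_iff.1 hli (fun k => w (P'.get k)) h1
    have h3 : (([], v) : List F × List F) ∈ P' := by
      rw [hperm.mem_iff]
      exact (sk_mem cols v 0 _).2 (Or.inl rfl)
    obtain ⟨k, hk⟩ := List.get_of_mem h3
    have h4 := h2 k
    simp only [hk, w] at h4
    simp at h4
  cases Fr' with
  | nil => exact absurd rfl hc2
  | cons x t =>
    refine ⟨(x.1.1, x.2), t.map (fun x => (x.1.1, x.2)), by rw [hFr]; rfl, ?_⟩
    have hx : x ∈ x :: t := List.mem_cons_self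
    have h1 := (hco x hx).2
    rw [sk_lin cols v P' x.2 hPmem (fun k _ h => hdis x hx _ (List.get_mem P' k)
      (h.trans (hc1 x hx).symm)), hc1 x hx] at h1
    refine h1.trans ?_
    refine Finset.sum_congr rfl fun j _ => ?_
    congr 1
    have h2 := congrFun (sk_cvec_comb P x.2) j
    rw [hP, List.zip_map_left, List.map_map] at h2
    have h3 : (fun z : List F × F => z.2 • cvec z.1) ∘
        Prod.map (Prod.fst : List F × List F → List F) id =
        (fun z : (List F × List F) × F => z.2 • cvec z.1.1) := by
      funext z
      rfl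
    rw [h3, sk_sum_zip (fun y : List F × List F => cvec y.1) P' x.2 (hco x hx).1] at h2
    rw [hP]
    show _ = cvec _ j
    rw [h2, Finset.sum_apply]
    refine Finset.sum_congr rfl fun k _ => ?_
    simp [smul_eq_mul]

theorem sk_len_P (cols : List (List F)) (v : List F) (P : List (List F))
    (Fr : List (List F × List F)) (hK : KerSpec (sk_mk [1] cols v) P Fr) :
    P.length ≤ cols.length + 1 ∧ ∀ l ∈ P, l.length ≤ cols.length := by
  obtain ⟨P', Fr', hP, hFr, hperm, -, -, -, -⟩ := hK
  constructor
  · have h1 := hperm.length_eq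
    rw [sk_length, List.length_append] at h1
    rw [hP, List.length_map]
    omega
  · intro l hl
    rw [hP, List.mem_map] at hl
    obtain ⟨y, hy, rfl⟩ := hl
    have h1 : y ∈ sk_mk [1] cols v := hperm.mem_iff.1 (List.mem_append_left _ hy)
    rcases (sk_mem cols v 0 y).1 (by simpa using h1) with h2 | ⟨j, hj, h2⟩
    · rw [h2]
      simp
    · rw [h2]
      simp
      omega

end

theorem sk_vv (m : ℕ) : vv (Nat.clog 2 (m + 1)) ≤ 5 * (m + 1) ^ 2 := by
  have h1 : 2 ^ Nat.clog 2 (m + 1) ≤ 2 * (m + 1) := by
    rcases Nat.eq_zero_or_pos m with h0 | h0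
    · subst h0
      simp
    · have h2 := Nat.pow_pred_clog_lt_self (b := 2) (x := m + 1) (by norm_num) (by omega)
      have h3 : 0 < Nat.clog 2 (m + 1) := Nat.clog_pos (by norm_num) (by omega)
      have h4 : 2 ^ Nat.clog 2 (m + 1) = 2 * 2 ^ (Nat.clog 2 (m + 1)).pred := by
        obtain ⟨k, hk⟩ := Nat.exists_eq_succ_of_ne_zero h3.ne'
        rw [hk, Nat.pred_succ, Nat.succ_eq_add_one, pow_succ']
      omega
  generalize Nat.clog 2 (m + 1) = k at h1
  unfold vv
  have h2 : 7 ^ k / 2 ^ k ≤ (2 ^ k) ^ 2 := by
    apply Nat.div_le_of_le_mul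
    have : (7 : ℕ) ^ k ≤ 8 ^ k := Nat.pow_le_pow_left (by norm_num) k
    have h3 : (8 : ℕ) ^ k = 2 ^ k * (2 ^ k) ^ 2 := by
      rw [← pow_succ', ← pow_mul, mul_comm k, pow_mul]
      norm_num
    omega
  have h3 : (2 ^ k) ^ 2 ≤ (2 * (m + 1)) ^ 2 := Nat.pow_le_pow_left h1 2
  nlinarith

/-- TARGET -/
theorem specSolve (h : SpecKer) (h0 : SpecUnits) : SpecSolve := by
  have _ := h0
  obtain ⟨p, C, hp⟩ := h Po
  refine ⟨sk_prog p, 10 * C + 2000, ?_⟩
  intro F _ _ n m cols v hn hsh hv
  subst hn
  have hcs := hp F m (sk_mk [1] cols v) (sk_snd cols v [1] m hsh hv)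
  obtain ⟨hK, hcost⟩ := hcs
  have hlen := sk_len_P cols v _ _ hK
  have hval : ((sk_prog p).val () (cols, v) : List F) =
      sk_fin.val () ((cols, v), p.val () (sk_mk [1] cols v)) := by
    simp only [sk_prog, val_lt, val_comp]
    rw [sk_val_mkP]
  have hcst : (sk_prog p).cost () () (cols, v) = sk_mkP.cost () () (cols, v) +
      p.cost () () (sk_mk [1] cols v) +
      sk_fin.cost () () ((cols, v), p.val () (sk_mk [1] cols v)) + 2 := by
    simp only [sk_prog, cost_lt, val_comp, cost_comp]
    rw [sk_val_mkP]
  intro c
  have hc : c = sk_fin.val () ((cols, v), p.val () (sk_mk [1] cols v)) := hval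
  rw [hcst]
  have hm := sk_cost_mkP (cols, v)
  simp only at hm
  rw [sk_length] at hcost
  generalize p.val () (sk_mk [1] cols v) = R at hK hlen hc
  obtain ⟨P, Fr⟩ := R
  simp only at hK hlen
  have hfin : sk_fin.cost () () ((cols, v), (P, Fr)) ≤
      (60 * cols.length + 150) * (cols.length + 2) + 20 * cols.length + 60 := by
    cases Fr with
    | nil =>
      have e := cost_fitP (s := []) (a := .fld) (b := Po) () () (cols, ((0 : F), ([] : List F)))
      simp [sk_fin] at e ⊢
      nlinarith
    | cons x t =>
      have e := cost_fitP (s := []) (a := .fld) (b := Po) () ()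
        (cols, ((0 : F), sk_comb P x.2))
      have e2 := sk_cost_combP (P, x.2) cols.length hlen.2
      have e3 : (60 * cols.length + 150) * (P.length + 1) ≤
          (60 * cols.length + 150) * (cols.length + 2) := by
        apply Nat.mul_le_mul le_rfl
        omega
      simp only at e e2
      simp [sk_fin, sk_val_combP] at e e2 ⊢
      omega
  refine ⟨?_, ?_, ?_⟩
  · rw [hc]
    cases Fr with
    | nil => simp [sk_fin]
    | cons x t => simp [sk_fin]
  · intro hind hsp
    obtain ⟨x, t, hFr, hsum⟩ := sk_correct cols v P Fr hK hind hsp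
    rw [hsum]
    refine Finset.sum_congr rfl fun i _ => ?_
    congr 1
    subst hFr
    have h1 : c = fit cols.length 0 (sk_comb P x.2) := by
      rw [hc]
      simp [sk_fin, sk_val_combP]
    rw [h1, sk_fit_getD _ _ _ i.2]
  · have hv2 := sk_vv m
    have h1 : C * (cols.length + 1 + m + 1) * vv (Nat.clog 2 (m + 1)) ≤
        C * (2 * (cols.length + m + 1)) * (5 * (cols.length + m + 1) ^ 2) := by
      apply Nat.mul_le_mul
      · apply Nat.mul_le_mul le_rfl
        omega
      · refine hv2.trans ?_
        apply Nat.mul_le_mul le_rfl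
        apply Nat.pow_le_pow_left
        omega
    have h2 : C * (2 * (cols.length + m + 1)) * (5 * (cols.length + m + 1) ^ 2) =
        10 * C * (cols.length + m + 1) ^ 3 := by ring
    have h3 : (60 * cols.length + 150) * (cols.length + 2) + 20 * cols.length + 60 +
        (40 * cols.length + 30) + 2 ≤ 2000 * (cols.length + m + 1) ^ 3 := by
      have h4 : cols.length ≤ cols.length + m + 1 := by omega
      have h5 : 1 ≤ cols.length + m + 1 := by omega
      generalize cols.length + m + 1 = N at h4 h5
      have h6 : N ≤ N ^ 3 := by nlinarith [Nat.pow_le_pow_left h5 2, sq_nonneg N]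
      have h7 : N ^ 2 ≤ N ^ 3 := by nlinarith [Nat.pow_le_pow_left h5 2]
      have h8 : 1 ≤ N ^ 3 := Nat.one_le_pow _ _ h5
      have h9 : cols.length * cols.length ≤ N ^ 2 := by nlinarith
      nlinarith
    have h4 : (10 * C + 2000) * (cols.length + m + 1) ^ 3 =
        10 * C * (cols.length + m + 1) ^ 3 + 2000 * (cols.length + m + 1) ^ 3 := by ring
    rw [h4]
    omega

end Pool.Agent.H330AB.JK9
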