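import Pool.Agent.H330AB.AssemblyA
import Pool.Agent.H330AB.JK1
import Pool.Agent.H330AB.JK2
import Pool.Agent.H330AB.JK3
import Pool.Agent.H330AB.JK4
import Pool.Agent.H330AB.JK5
import Pool.Agent.H330AB.JK6
import Pool.Agent.H330AB.JK7
import Pool.Agent.H330AB.JK8
import Pool.Agent.H330AB.JK9
import Pool.Agent.H330AB.JK10
import Pool.Agent.H330AB.JK11
import Pool.Agent.H330AB.JK12
import Pool.Agent.H330AB.JK13
import Pool.Agent.H330AB.JK14
import Pool.Agent.H330AB.JK15b
import Pool.Agent.H330AB.JK16
import Pool.Agent.H330AB.JK17
import Pool.Agent.H330AB.JK18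
import Pool.Agent.H330AB.JK19
import Pool.Agent.H330AB.JK20
import Pool.Agent.H330AB.JF1
import Pool.Agent.H330AB.JF2
import Pool.Agent.H330AB.JF3
import Pool.Agent.H330AB.JF4

set_option autoImplicit false

/-!
# Assembly of the absolute factorization
-/

namespace Pool.Agent.H330AB.AssemblyB

open Pool.Agent.H330FB Pool.Agent.H330AB Pool.Agent.H330AB.AssemblyA

theorem gcd' : SpecGcd := JK1.specGcd
theorem rem : SpecRem := JK2.specRem
theorem quo : SpecQuo := JK2.specQuo
theorem rad : SpecRad := JK3.specRad gcd' quo rem naive
theorem sqf : SpecSqf := JK4.specSqf rad quo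
theorem int' : SpecInt := JK5.specInt mm
theorem norm' : SpecNorm := JK6.specNorm rem
theorem chi : SpecChi := JK7.specChi norm' int'
theorem comp' : SpecComp := JK8.specComp naive
theorem solve : SpecSolve := JK9.specSolve ker units
theorem mulP : SpecMulP := JK10.specMulP mma
theorem divP : SpecDivP := JK11.specDivP mma
theorem lift' : SpecLift := JK12.specLift mulP divP
theorem bas : SpecBas := JK13.specBas solve inv naive rem units
theorem class' : SpecClass := JK14.specClass comp' gcd' rem bas lift' units
theorem split2 : SpecSplit2 := JK15b.specSplit2 sqf chi rem class'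
theorem radS : SpecRadS := JK16.specRadS rad fibre int' units
theorem sepL : SpecL := JK17.specL sys ker units
theorem sepCount : StmtSepCount := JK18.sepCount
theorem back : SpecBack := JK19.specBack coB units
theorem up' : SpecUp := JK20.specUp
theorem facA : SpecFacA := JF1.specFacA par prep radS sepL split2 back sepCount up' units
theorem facCount : StmtFacCount := JF2.facCount coT roots rp badFib
theorem fac2 : SpecFac2 := JF3.specFac2 facA facCount
theorem finalFac : FinalFac := JF4.finalFac fac2

end Pool.Agent.H330AB.AssemblyB
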