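import Pool.Agent.H330AB.SpecC1

set_option autoImplicit false

/-!
# One program for large and small fields
-/

namespace Pool.Agent.H330AB.FinalC

open Pool.Agent.H330FB Pool.Agent.H330AB

/-- the type of the input: binary digits and exponent of the number of elements of the field
(both empty if the field is large), then the polynomial and the random elements -/
abbrev TIn : Ty := .prod (.prod (.list .fld) (.list .unit)) (.prod (.list (.list .fld)) (.list .fld))
/-- the type of the output -/
abbrev TOut : Ty := .list (.prod (.list .fld) (.prod (.list (.list (.list .fld))) (.list .unit)))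

/-- the combination of two programs -/
def both (m1 : Pr [(.fld, .fld)] (.prod (.list (.list .fld)) (.list .fld)) TOut)
    (m2 : Pr [] TIn TOut) : Pr [(.fld, .fld)] TIn TOut :=
  .comp (.pair .id (.comp .fst .fst)) (.caseL (.comp .snd m1) (.comp .fst (.up m2)))

section
variable {K : Type} [Field K] [DecidableEq K]
variable (m1 : Pr [(.fld, .fld)] (.prod (.list (.list .fld)) (.list .fld)) TOut)
  (m2 : Pr [] TIn TOut) (rt : K → K)

theorem val_nil (u : List Unit) (y : List (List K) × List K) :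
    (both m1 m2).val (rt, ()) (([], u), y) = m1.val (rt, ()) y := rfl

theorem cost_nil (u : List Unit) (y : List (List K) × List K) :
    (both m1 m2).cost (rt, ()) ((fun _ => 1), ()) (([], u), y) =
      m1.cost (rt, ()) ((fun _ => 1), ()) y + 6 := by
  show 1 + (1 + 1) + 1 + (1 + m1.cost (rt, ()) ((fun _ => 1), ()) y + 1) = _
  omega

theorem val_cons (b : List K) (hb : b ≠ []) (u : List Unit) (y : List (List K) × List K) :
    (both m1 m2).val (rt, ()) ((b, u), y) = m2.val () ((b, u), y) := by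
  cases b with
  | nil => exact absurd rfl hb
  | cons h t => rfl

theorem cost_cons (b : List K) (hb : b ≠ []) (u : List Unit) (y : List (List K) × List K) :
    (both m1 m2).cost (rt, ()) ((fun _ => 1), ()) ((b, u), y) =
      m2.cost () () ((b, u), y) + 6 := by
  cases b with
  | nil => exact absurd rfl hb
  | cons h t =>
    show 1 + (1 + 1) + 1 + (1 + m2.cost () () ((h :: t, u), y) + 1) = _
    omega
end

/-- the complete statement -/
def Complete : Prop :=
  ∃ (main : Pr [(.fld, .fld)] (.prod (.prod (.list .fld) (.list .unit))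
        (.prod (.list (.list .fld)) (.list .fld)))
      (.list (.prod (.list .fld) (.prod (.list (.list (.list .fld))) (.list .unit)))))
    (C c B b : ℕ),
  ∀ (K : Type) [Field K] [DecidableEq K] (p d : ℕ) (root : K → K)
    (f : MvPolynomial (Fin 2) K), p.Prime → CharP K p → (∀ x, root x ^ p = x) →
    1 ≤ d → f.totalDegree = d → p < d ^ 2 →
    ((∀ ω : List K, main.cost (root, ()) ((fun _ => 1), ()) (([], []), (coeffRows d f, ω)) ≤
        C * d ^ 3 * (Nat.log 2 d + 1) ^ c) ∧
      (∀ T : Finset K, 200 * d ^ 5 ≤ T.card →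
        2 * T.card ^ (2 * d ^ 2 + 3 * d + 3) ≤
          3 * Nat.card {ω : Fin (2 * d ^ 2 + 3 * d + 3) → T //
            IsAbsFactorization f (main.val (root, ())
              (([], []), (coeffRows d f, List.ofFn (fun i => (ω i : K)))))})) ∧
    (∀ m : ℕ, Nat.card K = p ^ m → Nat.card K < 200 * d ^ 5 →
      (∀ ω : List K, main.cost (root, ()) ((fun _ => 1), ())
          ((binary K (Nat.card K), List.replicate m ()), (coeffRows d f, ω)) ≤
        C * d ^ 3 * (Nat.log 2 d + 1) ^ c) ∧
      2 * Nat.card K ^ (B * d ^ 2 * (Nat.log 2 d + 1) ^ b) ≤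
        3 * Nat.card {ω : Fin (B * d ^ 2 * (Nat.log 2 d + 1) ^ b) → K //
          IsAbsFactorization f (main.val (root, ())
            ((binary K (Nat.card K), List.replicate m ()), (coeffRows d f, List.ofFn ω)))})

theorem complete (h1 : FinalFac) (h2 : FinalSmall) : Complete := by
  obtain ⟨m1, C1, c1, h1⟩ := h1
  obtain ⟨m2, C2, c2, h2⟩ := h2
  have hmono : ∀ d, 1 ≤ d → ∀ x, (x ≤ C1 * d ^ 3 * (Nat.log 2 d + 1) ^ c1 ∨
      x ≤ C2 * d ^ 3 * (Nat.log 2 d + 1) ^ c2) →
      x + 6 ≤ (C1 + C2 + 6) * d ^ 3 * (Nat.log 2 d + 1) ^ (c1 + c2) := by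
    intro d hd x hx
    have hd3 : 1 ≤ d ^ 3 := Nat.one_le_pow _ _ hd
    have hL : 1 ≤ Nat.log 2 d + 1 := by omega
    have hp1 : (Nat.log 2 d + 1) ^ c1 ≤ (Nat.log 2 d + 1) ^ (c1 + c2) :=
      Nat.pow_le_pow_right hL (by omega)
    have hp2 : (Nat.log 2 d + 1) ^ c2 ≤ (Nat.log 2 d + 1) ^ (c1 + c2) :=
      Nat.pow_le_pow_right hL (by omega)
    have hp0 : 1 ≤ (Nat.log 2 d + 1) ^ (c1 + c2) := Nat.one_le_pow _ _ hL
    have e6 : 6 ≤ 6 * d ^ 3 * (Nat.log 2 d + 1) ^ (c1 + c2) := by
      calc 6 = 6 * 1 * 1 := rfl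
        _ ≤ _ := Nat.mul_le_mul (Nat.mul_le_mul le_rfl hd3) hp0
    have e1 : C1 * d ^ 3 * (Nat.log 2 d + 1) ^ c1 ≤
        C1 * d ^ 3 * (Nat.log 2 d + 1) ^ (c1 + c2) := Nat.mul_le_mul le_rfl hp1
    have e2 : C2 * d ^ 3 * (Nat.log 2 d + 1) ^ c2 ≤
        C2 * d ^ 3 * (Nat.log 2 d + 1) ^ (c1 + c2) := Nat.mul_le_mul le_rfl hp2
    have e : (C1 + C2 + 6) * d ^ 3 * (Nat.log 2 d + 1) ^ (c1 + c2) =
      C1 * d ^ 3 * (Nat.log 2 d + 1) ^ (c1 + c2) + C2 * d ^ 3 * (Nat.log 2 d + 1) ^ (c1 + c2) +
      6 * d ^ 3 * (Nat.log 2 d + 1) ^ (c1 + c2) := by ring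
    rw [e]
    rcases hx with hx | hx <;> omega
  refine ⟨both m1 m2, C1 + C2 + 6, c1 + c2, C2, c2, ?_⟩
  intro K _ _ p d root f hp hc hr hd hf hpd
  refine ⟨⟨fun ω => ?_, fun T hT => ?_⟩, fun m hm hlt => ?_⟩
  · rw [cost_nil]
    exact hmono d hd _ (Or.inl ((h1 K p d root f hp hc hr hd hf hpd).1 ω))
  · exact (h1 K p d root f hp hc hr hd hf hpd).2 T hT
  · haveI : Finite K := Nat.finite_of_card_ne_zero (by rw [hm]; exact pow_ne_zero _ hp.ne_zero)
    letI : Fintype K := Fintype.ofFinite K
    have hcard : Nat.card K = Fintype.card K := Nat.card_eq_fintype_card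
    have hne : binary K (Nat.card K) ≠ [] := by
      have : Nat.card K ≠ 0 := by rw [hm]; exact pow_ne_zero _ hp.ne_zero
      unfold binary
      intro h
      have h' := congrArg List.length h
      simp only [List.length_map, List.length_nil] at h'
      rw [Nat.size_eq_bits_len, Nat.size_eq_zero] at h'
      exact this h'
    have H := h2 K p m d f hp (by rw [← hcard]; exact hm) hd hf hpd (by rw [← hcard]; exact hlt)
    rw [← hcard] at H
    refine ⟨fun ω => ?_, ?_⟩
    · rw [cost_cons m1 m2 root _ hne]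
      exact hmono d hd _ (Or.inr (H.1 ω))
    · have hv : ∀ ω : Fin (C2 * d ^ 2 * (Nat.log 2 d + 1) ^ c2) → K,
          (both m1 m2).val (root, ())
            ((binary K (Nat.card K), List.replicate m ()), (coeffRows d f, List.ofFn ω)) =
          m2.val () ((binary K (Nat.card K), List.replicate m ()),
            (coeffRows d f, List.ofFn ω)) := fun ω => val_cons m1 m2 root _ hne _ _
      simp only [hv]
      exact H.2

end Pool.Agent.H330AB.FinalC
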