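import Pool.Agent.H330AB.SpecC1
set_option autoImplicit false
noncomputable section
namespace Pool.Agent.H330AB.JL1
open Polynomial Pool.Agent.H330FB

namespace SFD

noncomputable section

namespace FA


section prog
variable {F : Type} [Field F] [DecidableEq F]
variable {s : List (Ty × Ty)} {a b c d e g σ τ : Ty}

/-- head of a row, zero if there is none -/
def hdP : Pr s (.list .fld) .fld := onL .id .zero (.comp .snd .fst)

@[simp] theorem val_hdP (v : SV F s) (x : Ty.D F (.list .fld)) :
    (hdP : Pr s (.list .fld) .fld).val v x = List.getD x 0 0 := by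
  cases x <;> simp [hdP]

theorem cost_hdP (v : SV F s) (k : SC F s) (x : Ty.D F (.list .fld)) :
    (hdP : Pr s (.list .fld) .fld).cost v k x ≤ 8 := by
  cases x <;> simp [hdP]

/-- tail -/
def tlP : Pr s (.list a) (.list a) := onL .id .nil (.comp .snd .snd)

@[simp] theorem val_tlP (v : SV F s) (x : Ty.D F (.list a)) :
    (tlP : Pr s (.list a) (.list a)).val v x = List.tail x := by
  cases x <;> simp [tlP]

theorem cost_tlP (v : SV F s) (k : SC F s) (x : Ty.D F (.list a)) :
    (tlP : Pr s (.list a) (.list a)).cost v k x ≤ 8 := by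
  cases x <;> simp [tlP]

theorem unit_list (l : List Unit) : l = un l.length := by
  unfold un
  exact List.eq_replicate_of_mem (fun _ _ => rfl)

@[simp] theorem length_un (n : ℕ) : (un n).length = n := by simp [un]

/-- the number `n` in unary -/
def cn : ℕ → Pr s a (.list .unit)
  | 0 => .nil
  | n + 1 => ap2 .cons .star (cn n)

@[simp] theorem val_cn (n : ℕ) (v : SV F s) (x : Ty.D F a) :
    (cn n : Pr s a (.list .unit)).val v x = un n := by
  induction n with
  | zero => rfl
  | succ n ih => simp only [cn, val_comp, val_pair, ih, val_star, val_cons]; rfl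

@[simp] theorem cost_cn (n : ℕ) (v : SV F s) (k : SC F s) (x : Ty.D F a) :
    (cn n : Pr s a (.list .unit)).cost v k x = 3 * n + 1 := by
  induction n with
  | zero => rfl
  | succ n ih => simp only [cn, cost_comp, cost_pair, ih, cost_star, cost_cons]; omega

/-- length minus one in unary -/
def unD : Pr s (.list a) (.list .unit) :=
  ap2 (mapP (c := .unit) .star) .star tlP

@[simp] theorem val_unD (v : SV F s) (x : Ty.D F (.list a)) :
    (unD : Pr s (.list a) (.list .unit)).val v x = un (List.length x - 1) := by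
  simp only [unD, val_comp, val_pair, val_mapP, val_star, val_tlP]
  rw [unit_list (List.map _ _)]
  simp

theorem cost_unD (v : SV F s) (k : SC F s) (x : Ty.D F (.list a)) :
    (unD : Pr s (.list a) (.list .unit)).cost v k x ≤ 14 * List.length x + 30 := by
  have h := cost_mapP_le (s := s) (c := .unit) (a := a) (b := .unit) .star v k ((), List.tail x) 1
    (fun _ _ => by simp)
  have h2 := cost_tlP (s := s) v k x
  simp [unD] at h h2 ⊢
  omega

/-- product of two unary numbers -/
def mlP : Pr s (.prod (.list .unit) (.list .unit)) (.list .unit) :=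
  .comp (mapP (c := .list .unit) (a := .unit) .fst) flatP

@[simp] theorem val_mlP (v : SV F s) (x : Ty.D F (.prod (.list .unit) (.list .unit))) :
    (mlP : Pr s (.prod (.list .unit) (.list .unit)) (.list .unit)).val v x =
      un (List.length x.1 * List.length x.2) := by
  rw [unit_list ((mlP : Pr s (.prod (.list .unit) (.list .unit)) (.list .unit)).val v x)]
  congr 1
  obtain ⟨x, y⟩ := x
  simp only [mlP, val_comp, val_mapP, val_fst, val_flatP]
  induction y with
  | nil => simp
  | cons h t ih => simp only [List.map_cons, List.flatten_cons, List.length_append, ih,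
      List.length_cons]; ring

theorem cost_mlP (v : SV F s) (k : SC F s) (x : Ty.D F (.prod (.list .unit) (.list .unit))) :
    (mlP : Pr s (.prod (.list .unit) (.list .unit)) (.list .unit)).cost v k x ≤
      (20 * List.length x.1 + 85) * List.length x.2 + 45 := by
  have h := cost_mapP_le (s := s) (c := .list .unit) (a := .unit) .fst v k x 1
    (fun _ _ => by simp)
  have h2 := cost_flatP (s := s) (a := .unit) v k (List.map (fun _ : Unit => x.1) x.2)
    (List.length x.1) (fun y hy => by
      rw [List.mem_map] at hy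
      obtain ⟨_, _, rfl⟩ := hy
      exact le_rfl)
  simp only [List.length_map] at h2
  simp only [mlP, cost_comp, val_mapP, val_fst]
  nlinarith

/-- square -/
def dP : Pr s (.list .unit) (.list .unit) := ap2 mlP .id .id

@[simp] theorem val_dP (v : SV F s) (x : Ty.D F (.list .unit)) :
    (dP : Pr s (.list .unit) (.list .unit)).val v x = un (List.length x * List.length x) := by
  simp only [dP, val_comp, val_pair, val_id, val_mlP]

theorem cost_dP (v : SV F s) (k : SC F s) (x : Ty.D F (.list .unit)) :
    (dP : Pr s (.list .unit) (.list .unit)).cost v k x ≤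
      (20 * List.length x + 85) * List.length x + 48 := by
  have h := cost_mlP (s := s) v k (x, x)
  simp only [dP, cost_comp, cost_pair, cost_id, val_pair, val_id] at h ⊢
  omega

/-- precision -/
def sP : Pr s (.list .unit) (.list .unit) := ap2 appP (ap2 mlP .id (cn 12)) (cn 20)

@[simp] theorem val_sP (v : SV F s) (x : Ty.D F (.list .unit)) :
    (sP : Pr s (.list .unit) (.list .unit)).val v x = un (12 * List.length x + 20) := by
  rw [unit_list ((sP : Pr s (.list .unit) (.list .unit)).val v x)]
  congr 1
  simp only [sP, val_comp, val_pair, val_id, val_mlP, val_cn, val_appP, List.length_append,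
    length_un]
  ring

theorem cost_sP (v : SV F s) (k : SC F s) (x : Ty.D F (.list .unit)) :
    (sP : Pr s (.list .unit) (.list .unit)).cost v k x ≤ 500 * List.length x + 1300 := by
  have h := cost_mlP (s := s) v k (x, un 12)
  have h2 := cost_appP (s := s) (a := .unit) v k (un (List.length x * 12), un 20)
  simp only [length_un] at h h2
  simp only [sP, cost_comp, cost_pair, cost_id, val_comp, val_pair, val_id, val_mlP, val_cn,
    cost_cn, length_un]
  omega
/-- length of the random list -/
def rP : Pr s (.list .unit) (.list .unit) :=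
  ap2 appP (cn 2) (ap2 appP (ap2 .cons .star .id) (ap2 appP dP (ap2 appP .id (ap2 appP dP .id))))

@[simp] theorem val_rP (v : SV F s) (x : Ty.D F (.list .unit)) :
    (rP : Pr s (.list .unit) (.list .unit)).val v x = un (R2 (List.length x)) := by
  rw [unit_list ((rP : Pr s (.list .unit) (.list .unit)).val v x)]
  congr 1
  simp only [rP, val_comp, val_pair, val_id, val_dP, val_cn, val_appP, List.length_append,
    length_un, R2, val_cons, val_star, List.length_cons]

theorem cost_rP (v : SV F s) (k : SC F s) (x : Ty.D F (.list .unit)) :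
    (rP : Pr s (.list .unit) (.list .unit)).cost v k x ≤
      (100 * List.length x + 300) * List.length x + 300 := by
  have h := cost_dP (s := s) v k x
  have h1 := cost_appP (s := s) (a := .unit) v k (un (List.length x * List.length x), x)
  have h2 := cost_appP (s := s) (a := .unit) v k
    (x, (un (List.length x * List.length x) ++ x : List Unit))
  have h3 := cost_appP (s := s) (a := .unit) v k (un (List.length x * List.length x),
    (x ++ (un (List.length x * List.length x) ++ x) : List Unit))
  have h4 := cost_appP (s := s) (a := .unit) v k ((() :: x : List Unit),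
    (un (List.length x * List.length x) ++
      (x ++ (un (List.length x * List.length x) ++ x)) : List Unit))
  have h5 := cost_appP (s := s) (a := .unit) v k (un 2,
    ((() :: x) ++ (un (List.length x * List.length x) ++
      (x ++ (un (List.length x * List.length x) ++ x))) : List Unit))
  simp only [length_un, List.length_cons] at h1 h2 h3 h4 h5
  simp only [rP, cost_comp, cost_pair, cost_id, val_comp, val_pair, val_id, val_dP, val_cn,
    cost_cn, val_appP, cost_star, cost_cons, val_star, val_cons]
  nlinarith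

/-! cutting the random list -/

/-- one element -/
def fldP (q : Pr s (.prod Un Po) a) : Pr s (.prod Un Po) (.prod .fld a) :=
  .pair (.comp .snd hdP) (.comp (.pair .fst (.comp .snd tlP)) q)

theorem val_fldP (q : Pr s (.prod Un Po) a) (v : SV F s) (u : List Unit) (w : List F) :
    (fldP q).val v (u, w) = (w.getD 0 0, q.val v (u, w.tail)) := by
  simp only [fldP, val_pair, val_comp, val_snd, val_hdP, val_fst, val_tlP]

theorem cost_fldP (q : Pr s (.prod Un Po) a) (v : SV F s) (k : SC F s) (u : List Unit)
    (w : List F) : (fldP q).cost v k (u, w) ≤ q.cost v k (u, w.tail) + 21 := by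
  have c1 := cost_hdP (s := s) v k w
  have c2 := cost_tlP (s := s) (a := .fld) v k w
  simp only [fldP, cost_pair, cost_comp, cost_snd, cost_fst, val_pair, val_comp, val_snd,
    val_fst, val_tlP]
  omega

/-- a row of length `n` -/
def vecP (q : Pr s (.prod Un Po) a) : Pr s (.prod Un Po) (.prod Po a) :=
  lt splitP (.pair (.comp .snd .fst) (.comp (.pair (.comp .fst .fst) (.comp .snd .snd)) q))

theorem val_vecP (q : Pr s (.prod Un Po) a) (v : SV F s) (u : List Unit) (w : List F) :
    (vecP q).val v (u, w) = (w.take u.length, q.val v (u, w.drop u.length)) := by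
  simp only [vecP, val_lt, val_pair, val_comp, val_snd, val_fst, val_splitP]

theorem cost_vecP (q : Pr s (.prod Un Po) a) (v : SV F s) (k : SC F s) (u : List Unit)
    (w : List F) : (vecP q).cost v k (u, w) ≤
      q.cost v k (u, w.drop u.length) + 24 * u.length + 18 := by
  have c1 := cost_splitP (s := s) (b := .unit) (a := .fld) v k (u, w)
  simp only at c1
  simp only [vecP, cost_lt, cost_pair, cost_comp, cost_snd, cost_fst, val_pair, val_comp,
    val_snd, val_fst, val_splitP]
  omega

/-- a row of length `n + 1` -/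
def vecP1 (q : Pr s (.prod Un Po) a) : Pr s (.prod Un Po) (.prod Po a) :=
  lt (ap2 splitP (ap2 .cons .star .fst) .snd)
    (.pair (.comp .snd .fst) (.comp (.pair (.comp .fst .fst) (.comp .snd .snd)) q))

theorem val_vecP1 (q : Pr s (.prod Un Po) a) (v : SV F s) (u : List Unit) (w : List F) :
    (vecP1 q).val v (u, w) = (w.take (u.length + 1), q.val v (u, w.drop (u.length + 1))) := by
  simp only [vecP1, val_lt, val_pair, val_comp, val_snd, val_fst, val_splitP, val_cons, val_star,
    List.length_cons]

theorem cost_vecP1 (q : Pr s (.prod Un Po) a) (v : SV F s) (k : SC F s) (u : List Unit)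
    (w : List F) : (vecP1 q).cost v k (u, w) ≤
      q.cost v k (u, w.drop (u.length + 1)) + 24 * u.length + 50 := by
  have c1 := cost_splitP (s := s) (b := .unit) (a := .fld) v k ((() :: u : List Unit), w)
  simp only [List.length_cons] at c1
  simp only [vecP1, cost_lt, cost_pair, cost_comp, cost_snd, cost_fst, val_pair, val_comp,
    val_snd, val_fst, val_splitP, cost_cons, cost_star, val_cons, val_star, List.length_cons]
  omega

/-- a square matrix -/
def matP (q : Pr s (.prod Un Po) a) : Pr s (.prod Un Po) (.prod Ma a) :=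
  lt (ap2 splitP (.comp .fst dP) .snd)
    (.pair (ap3 chunksP (.comp .fst .fst) (.comp .fst .fst) (.comp .snd .fst))
      (.comp (.pair (.comp .fst .fst) (.comp .snd .snd)) q))

theorem val_matP (q : Pr s (.prod Un Po) a) (v : SV F s) (u : List Unit) (w : List F) :
    (matP q).val v (u, w) = (chunks u.length u.length (w.take (u.length * u.length)),
      q.val v (u, w.drop (u.length * u.length))) := by
  simp only [matP, val_lt, val_pair, val_comp, val_snd, val_fst, val_splitP, val_dP,
    val_chunksP, length_un]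

theorem cost_matP (q : Pr s (.prod Un Po) a) (v : SV F s) (k : SC F s) (u : List Unit)
    (w : List F) : (matP q).cost v k (u, w) ≤
      q.cost v k (u, w.drop (u.length * u.length)) + 150 * ((u.length + 1) * (u.length + 1)) := by
  have c1 := cost_dP (s := s) v k u
  have c2 := cost_splitP (s := s) (b := .unit) (a := .fld) v k (un (u.length * u.length), w)
  have c3 := cost_chunksP (s := s) (b := .unit) (c := .unit) (a := .fld) v k
    (u, (u, w.take (u.length * u.length)))
  simp only [length_un] at c2 c3
  simp only [matP, cost_lt, cost_pair, cost_comp, cost_snd, cost_fst, val_pair, val_comp,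
    val_snd, val_fst, val_splitP, val_dP, length_un]
  nlinarith

/-- parameters -/
abbrev PAR : Ty := .prod Un (.prod Po Un)
/-- parts of the random list -/
abbrev CUT : Ty := .prod .fld (.prod .fld (.prod Po (.prod Ma (.prod Po (.prod Ma Po)))))

/-- the parts of the random list; input `(n, list)` -/
def cutP : Pr s (.prod Un Po) CUT := fldP (fldP (vecP1 (matP (vecP (matP .snd)))))

theorem cost_cutP (v : SV F s) (k : SC F s) (u : List Unit) (w : List F) :
    (cutP : Pr s (.prod Un Po) _).cost v k (u, w) ≤
      500 * ((u.length + 1) * (u.length + 1)) := by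
  refine (cost_fldP _ v k u _).trans ?_
  refine (Nat.add_le_add_right (cost_fldP _ v k u _) _).trans ?_
  refine (Nat.add_le_add_right (Nat.add_le_add_right (cost_vecP1 _ v k u _) _) _).trans ?_
  have h1 := cost_matP (s := s) (vecP (matP .snd)) v k u
    (w.tail.tail.drop (u.length + 1))
  have h2 := cost_vecP (s := s) (matP (.snd : Pr s (.prod Un Po) Po)) v k u
    ((w.tail.tail.drop (u.length + 1)).drop (u.length * u.length))
  have h3 := cost_matP (s := s) (.snd : Pr s (.prod Un Po) Po) v k u
    (((w.tail.tail.drop (u.length + 1)).drop (u.length * u.length)).drop u.length)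
  have h4 : (.snd : Pr s (.prod Un Po) Po).cost v k
    (u, (((w.tail.tail.drop (u.length + 1)).drop (u.length * u.length)).drop u.length).drop
      (u.length * u.length)) = 1 := rfl
  rw [h4] at h3
  nlinarith

/-- first entries -/
def takeP : Pr s (.prod (.list b) (.list a)) (.list a) := .comp splitP .fst

@[simp] theorem val_takeP (v : SV F s) (x : Ty.D F (.prod (.list b) (.list a))) :
    (takeP : Pr s (.prod (.list b) (.list a)) _).val v x = List.take (List.length x.1) x.2 := by
  simp only [takeP, val_comp, val_splitP, val_fst]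

theorem cost_takeP (v : SV F s) (k : SC F s) (x : Ty.D F (.prod (.list b) (.list a))) :
    (takeP : Pr s (.prod (.list b) (.list a)) _).cost v k x ≤ 24 * List.length x.1 + 9 := by
  have h := cost_splitP (s := s) v k x
  simp only [takeP, cost_comp, cost_fst]
  omega

/-- upper left corner -/
def cornerP : Pr s (.prod (.list b) (.list (.list a))) (.list (.list a)) :=
  .comp (.pair .fst takeP) (mapP takeP)

/-- upper left corner -/
def corner {α : Type} (n : ℕ) (G : List (List α)) : List (List α) :=
  (G.take n).map (List.take n)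

@[simp] theorem val_cornerP (v : SV F s) (x : Ty.D F (.prod (.list b) (.list (.list a)))) :
    (cornerP : Pr s (.prod (.list b) (.list (.list a))) _).val v x =
      corner (List.length x.1) x.2 := by
  simp only [cornerP, val_comp, val_pair, val_mapP, val_takeP, val_fst, corner]

theorem cost_cornerP (v : SV F s) (k : SC F s) (x : Ty.D F (.prod (.list b) (.list (.list a)))) :
    (cornerP : Pr s (.prod (.list b) (.list (.list a))) _).cost v k x ≤
      50 * ((List.length x.1 + 1) * (List.length x.1 + 1)) := by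
  obtain ⟨u, G⟩ := x
  have h1 := cost_takeP (s := s) (b := b) (a := .list a) v k (u, G)
  have h2 := cost_mapP_le (s := s) (c := .list b) (a := .list a) (b := .list a) takeP v k
    (u, List.take (List.length u) G) (24 * List.length u + 9) (fun y _ => cost_takeP v k (u, y))
  have h3 : List.length (List.take (List.length u) G) ≤ List.length u := by simp
  simp only at h1 h2
  simp only [cornerP, cost_comp, cost_pair, cost_fst, val_pair, val_fst, val_takeP]
  have h4 := Nat.mul_le_mul_left (24 * List.length u + 9 + 13) h3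
  nlinarith

end prog

section lists
variable {K : Type}

theorem fit_self (z : K) (l : List K) : fit l.length z l = l := by
  induction l with
  | nil => rfl
  | cons x l ih => simp [fit, ih]

theorem chunks_flatten (n : ℕ) (L : List (List K)) (h : ∀ r ∈ L, r.length = n) :
    chunks n L.length L.flatten = L := by
  induction L with
  | nil => rfl
  | cons r L ih =>
    have h1 := h r (by simp)
    have h2 := ih (fun r hr => h r (by simp [hr]))
    rw [List.length_cons, chunks, List.flatten_cons, List.take_left' h1, List.drop_left' h1, h2]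

theorem rows_length {m n : ℕ} (G : Fin m → Fin n → K) : (rows G).length = m := by
  simp [rows]

theorem rows_mem {m n : ℕ} (G : Fin m → Fin n → K) : ∀ r ∈ rows G, r.length = n := by
  intro r hr
  simp only [rows, List.mem_ofFn] at hr
  obtain ⟨i, rfl⟩ := hr
  simp

theorem flatten_length {m n : ℕ} (G : Fin m → Fin n → K) : (rows G).flatten.length = m * n := by
  rw [List.length_flatten]
  simp [rows, List.map_ofFn, Function.comp_def, List.ofFn_const]

theorem exists_rows (d : ℕ) (l : List K) (h : l.length = d * d) :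
    ∃ G : Fin d → Fin d → K, l = (rows G).flatten := by
  have e : l = List.ofFn (fun i : Fin (d * d) => l.get (Fin.cast h.symm i)) := by
    apply List.ext_getElem
    · simp [h]
    · intro i h1 h2
      simp
  refine ⟨fun i j => l.get (Fin.cast h.symm ⟨i * d + j, ?_⟩), ?_⟩
  · calc (i : ℕ) * d + j < (i : ℕ) * d + d := by omega
      _ = ((i : ℕ) + 1) * d := by ring
      _ ≤ d * d := Nat.mul_le_mul_right d i.2
  · conv_lhs => rw [e]
    rw [List.ofFn_mul]
    rfl

theorem exists_ofFn (d : ℕ) (l : List K) (h : l.length = d) :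
    ∃ G : Fin d → K, l = List.ofFn G := by
  subst h
  exact ⟨fun i => l.get i, by simp⟩

end lists

section rl
variable {K : Type}

theorem rlist2_length {d : ℕ} (a b : K) (cs : Fin (d + 1) → K) (G : Fin d → Fin d → K)
    (as : Fin d → K) (g : Fin d → Fin d → K) (cb : Fin d → K) :
    (rlist2 a b cs G as g cb).length = R2 d := by
  simp only [rlist2, R2, List.length_append, List.length_cons, List.length_nil, flatten_length,
    List.length_ofFn]

theorem exists_rlist2 (d : ℕ) (l : List K) (h : l.length = R2 d) :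
    ∃ (a b : K) (cs : Fin (d + 1) → K) (G : Fin d → Fin d → K) (as : Fin d → K)
      (g : Fin d → Fin d → K) (cb : Fin d → K), l = rlist2 a b cs G as g cb := by
  rcases l with _ | ⟨a, _ | ⟨b, l⟩⟩
  · simp only [R2, List.length_nil] at h
    omega
  · simp only [R2, List.length_cons, List.length_nil] at h
    omega
  · have h' : l.length = (d + 1) + (d * d + (d + (d * d + d))) := by
      simp only [R2, List.length_cons] at h
      omega
    obtain ⟨cs, hcs⟩ := exists_ofFn (d + 1) (l.take (d + 1)) (by rw [List.length_take]; omega)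
    obtain ⟨G, hG⟩ := exists_rows d ((l.drop (d + 1)).take (d * d))
      (by rw [List.length_take, List.length_drop]; omega)
    obtain ⟨as, has⟩ := exists_ofFn d (((l.drop (d + 1)).drop (d * d)).take d)
      (by rw [List.length_take, List.length_drop, List.length_drop]; omega)
    obtain ⟨g, hg⟩ := exists_rows d ((((l.drop (d + 1)).drop (d * d)).drop d).take (d * d))
      (by rw [List.length_take, List.length_drop, List.length_drop, List.length_drop]; omega)
    obtain ⟨cb, hcb⟩ := exists_ofFn d ((((l.drop (d + 1)).drop (d * d)).drop d).drop (d * d))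
      (by rw [List.length_drop, List.length_drop, List.length_drop, List.length_drop]; omega)
    refine ⟨a, b, cs, G, as, g, cb, ?_⟩
    rw [rlist2, ← hcs, ← hG, ← has, ← hg, ← hcb, List.take_append_drop, List.take_append_drop,
      List.take_append_drop, List.take_append_drop]
    rfl

theorem cut_vec {n d : ℕ} (h : n ≤ d) (a : Fin d → K) :
    (List.ofFn a).take n = List.ofFn (cut1 h a) := by
  apply List.ext_getElem
  · simp [h]
  · intro i h1 h2
    simp [cut1]

theorem cut_mat {n d : ℕ} (h : n ≤ d) (G : Fin d → Fin d → K) :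
    corner n (rows G) = rows (cut2 h G) := by
  unfold corner rows
  rw [cut_vec h, List.map_ofFn]
  congr 1
  funext i
  exact cut_vec h _

end rl

section rl2
variable {F : Type} [Field F] [DecidableEq F] {s : List (Ty × Ty)}

theorem val_cutP (v : SV F s) {d : ℕ} (a b : F) (cs : Fin (d + 1) → F) (G : Fin d → Fin d → F)
    (as : Fin d → F) (g : Fin d → Fin d → F) (cb : Fin d → F) :
    (cutP : Pr s (.prod Un Po) CUT).val v (un d, rlist2 a b cs G as g cb) =
      (a, (b, (List.ofFn cs, (rows G, (List.ofFn as, (rows g, List.ofFn cb)))))) := by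
  have e4 := chunks_flatten d (rows G) (rows_mem G)
  have e5 := chunks_flatten d (rows g) (rows_mem g)
  rw [rows_length] at e4 e5
  rw [cutP, val_fldP, val_fldP, val_vecP1, val_matP, val_vecP, val_matP, val_snd, length_un]
  have e1 : (rlist2 a b cs G as g cb).tail.tail = (List.ofFn cs ++ ((rows G).flatten ++
    (List.ofFn as ++ ((rows g).flatten ++ List.ofFn cb)))) := rfl
  have e2 : (rlist2 a b cs G as g cb).getD 0 0 = a := rfl
  have e3 : (rlist2 a b cs G as g cb).tail.getD 0 0 = b := rfl
  rw [e1, e2, e3, List.take_left' (List.length_ofFn), List.drop_left' (List.length_ofFn),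
    List.take_left' (flatten_length G), List.drop_left' (flatten_length G),
    List.take_left' (List.length_ofFn), List.drop_left' (List.length_ofFn),
    List.take_left' (flatten_length g), List.drop_left' (flatten_length g), e4, e5]

end rl2



section TD
variable {A : Type} [CommRing A]

/-- the grading trick -/
noncomputable def fa_ph (A : Type) [CommRing A] : A[X][X] →+* A[X][X][X] :=
  eval₂RingHom (eval₂RingHom ((C : A[X][X] →+* A[X][X][X]).comp ((C : A[X] →+* A[X][X]).comp C))
    (C (C X) * X : A[X][X][X])) (C X * X : A[X][X][X])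

lemma fa_ph_monomial (i j : ℕ) (c : A) :
    fa_ph A (monomial i (monomial j c)) = monomial (i + j) (monomial i (monomial j c)) := by
  unfold fa_ph
  rw [coe_eval₂RingHom, eval₂_monomial, coe_eval₂RingHom, eval₂_monomial]
  simp only [← C_mul_X_pow_eq_monomial, RingHom.comp_apply, map_mul, map_pow, pow_add]
  ring

lemma fa_ph_coeff (f : A[X][X]) (m i j : ℕ) :
    (((fa_ph A f).coeff m).coeff i).coeff j = if i + j = m then (f.coeff i).coeff j else 0 := by
  induction f using Polynomial.induction_on' with
  | add p q hp hq =>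
    rw [map_add]
    simp only [coeff_add, hp, hq]
    split_ifs <;> simp
  | monomial a p =>
    induction p using Polynomial.induction_on' with
    | add p q hp hq =>
      rw [map_add, map_add]
      simp only [coeff_add, hp, hq]
      split_ifs <;> simp
    | monomial b c =>
      rw [fa_ph_monomial]
      simp only [coeff_monomial]
      by_cases h1 : a + b = m
      · rw [if_pos h1]
        simp only [coeff_monomial]
        by_cases h2 : a = i
        · rw [if_pos h2]
          simp only [coeff_monomial]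
          by_cases h3 : b = j
          · rw [if_pos h3, if_pos (by omega)]
          · rw [if_neg h3]; simp
        · rw [if_neg h2]; simp
      · rw [if_neg h1]
        by_cases h2 : a = i
        · rw [if_pos h2]
          simp only [coeff_monomial]
          by_cases h3 : b = j
          · rw [if_neg (by omega)]; simp
          · rw [if_neg h3]; simp
        · rw [if_neg h2]; simp

lemma fa_ph_natDegree_ge [Nontrivial A] {f : A[X][X]} (hf : f.Monic) :
    fa_ph A f ≠ 0 ∧ f.natDegree ≤ (fa_ph A f).natDegree := by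
  have h1 : (((fa_ph A f).coeff f.natDegree).coeff f.natDegree).coeff 0 = 1 := by
    rw [fa_ph_coeff, if_pos (by omega), hf.coeff_natDegree, coeff_one_zero]
  have h2 : (fa_ph A f).coeff f.natDegree ≠ 0 := by
    intro h; rw [h] at h1; simp at h1
  refine ⟨?_, le_natDegree_of_ne_zero h2⟩
  intro h; rw [h] at h2; simp at h2

lemma fa_TD_of_mul [IsDomain A] {f g : A[X][X]} (hf : f.Monic) (hg : g.Monic)
    (h : TD (f * g) (f.natDegree + g.natDegree)) : TD f f.natDegree := by
  obtain ⟨hf0, hf1⟩ := fa_ph_natDegree_ge hf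
  obtain ⟨hg0, hg1⟩ := fa_ph_natDegree_ge hg
  have h1 : (fa_ph A (f * g)).natDegree ≤ f.natDegree + g.natDegree := by
    rw [natDegree_le_iff_coeff_eq_zero]
    intro m hm
    ext i j
    rw [fa_ph_coeff]
    split_ifs with hij
    · rw [h i j (by omega)]; simp
    · simp
  rw [map_mul, natDegree_mul hf0 hg0] at h1
  have h2 : (fa_ph A f).natDegree ≤ f.natDegree := by omega
  intro i j hij
  have h3 := fa_ph_coeff f (i + j) i j
  have h4 : (fa_ph A f).coeff (i + j) = 0 := coeff_eq_zero_of_natDegree_lt (by omega)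
  rw [if_pos rfl, h4] at h3
  simpa using h3.symm

end TD

section alg
variable {K : Type} [Field K]

theorem sub_cc (a b c : K) : sub a b (C (C c)) = C (C c) := by simp [sub]
theorem sub_cx (a b : K) : sub a b (C X) = C (X + C b) + C (C a) * X := by simp [sub]
theorem sub_x (a b : K) : sub a b (X : K[X][X]) = X := by simp [sub]

theorem sub_sub (a b : K) (f : K[X][X]) : sub (-a) (-b) (sub a b f) = f := by
  have : (sub (-a) (-b)).comp (sub a b) = RingHom.id K[X][X] := by
    refine Polynomial.ringHom_ext' (Polynomial.ringHom_ext' ?_ ?_) ?_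
    · ext c
      simp [sub_cc]
    · simp only [RingHom.comp_apply, RingHom.id_apply, sub_cx, map_add, map_mul, sub_cc, sub_x]
      simp only [map_neg]
      ring
    · simp only [RingHom.comp_apply, RingHom.id_apply, sub_x]
  exact congrArg (fun φ : K[X][X] →+* K[X][X] => φ f) this

theorem sub_sub' (a b : K) (f : K[X][X]) : sub a b (sub (-a) (-b) f) = f := by
  have := sub_sub (-a) (-b) f
  rwa [neg_neg, neg_neg] at this

/-- coordinate change as an automorphism -/
noncomputable def subE (a b : K) : K[X][X] ≃+* K[X][X] :=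
  RingEquiv.ofRingHom (sub a b) (sub (-a) (-b)) (RingHom.ext (sub_sub' a b))
    (RingHom.ext (sub_sub a b))

theorem irr_sub (a b : K) (f : K[X][X]) : Irreducible (sub a b f) ↔ Irreducible f :=
  MulEquiv.irreducible_iff (subE a b)

theorem degree_pol {R : Type} [CommRing R] (l : List R) : (pol l).degree < l.length := by
  rw [degree_lt_iff_coeff_zero]
  intro m hm
  have : ∀ (l : List R) (i : ℕ), (pol l).coeff i = l.getD i 0 := by
    intro l
    induction l with
    | nil => intro i; simp [pol]
    | cons x l ih =>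
      intro i
      cases i with
      | zero => simp [pol]
      | succ i => simp [pol, ih]
  rw [this]
  exact List.getD_eq_default _ _ hm

theorem mbiv_monic (l : List (List K)) : (mbiv l).Monic := by
  unfold mbiv biv
  refine monic_X_pow_add ?_
  have := degree_pol (l.map pol)
  rwa [List.length_map] at this

theorem map_pol {R S : Type} [CommRing R] [CommRing S] (φ : R →+* S) (l : List R) :
    (pol l).map φ = pol (l.map φ) := by
  induction l with
  | nil => simp [pol]
  | cons x l ih => simp [pol, ih]

theorem eval_pol (l : List K) : (pol l).eval 0 = l.getD 0 0 := by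
  cases l <;> simp [pol]

theorem mbiv_hd0 (l : List (List K)) : (mbiv l).map (evalRingHom (0 : K)) = mpol (hd0 l) := by
  unfold mbiv biv mpol hd0
  rw [Polynomial.map_add, Polynomial.map_pow, map_X, map_pol, List.length_map, List.map_map]
  congr 3
  funext r
  simp only [Function.comp_apply, coe_evalRingHom, eval_pol]

end alg

section bc
variable {K k : Type} [Field K] [Field k] [Algebra K k]

theorem bcp_eq (f : K[X][X]) : bcp k f = mapRingHom (mapRingHom (algebraMap K k)) f := rfl

theorem bcp_sub (a b : K) (f : K[X][X]) :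
    bcp k (sub a b f) = sub (algebraMap K k a) (algebraMap K k b) (bcp k f) := by
  have : (mapRingHom (mapRingHom (algebraMap K k))).comp (sub a b) =
      (sub (algebraMap K k a) (algebraMap K k b)).comp
        (mapRingHom (mapRingHom (algebraMap K k))) := by
    refine Polynomial.ringHom_ext' (Polynomial.ringHom_ext' ?_ ?_) ?_
    · ext c
      simp [sub_cc]
    · simp [sub_cx]
    · simp [sub_x]
  exact congrArg (fun φ : K[X][X] →+* k[X][X] => φ f) this

theorem coeff_bcp (f : K[X][X]) (i j : ℕ) :
    ((bcp k f).coeff i).coeff j = algebraMap K k ((f.coeff i).coeff j) := by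
  simp [bcp, coeff_map]

theorem bcp_ev0 (f : K[X][X]) :
    (bcp k f).map (evalRingHom (0 : k)) =
      (f.map (evalRingHom (0 : K))).map (algebraMap K k) := by
  unfold bcp
  rw [Polynomial.map_map, Polynomial.map_map]
  congr 1
  refine Polynomial.ringHom_ext' ?_ ?_
  · ext c
    simp
  · simp

theorem natDegree_mbiv (l : List (List K)) : (mbiv l).natDegree = l.length := by
  have h1 : (biv l).degree < (l.length : WithBot ℕ) := by
    have := degree_pol (l.map (pol : List K → K[X]))
    rwa [List.length_map] at this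
  unfold mbiv
  rw [natDegree_add_eq_left_of_degree_lt (by rw [degree_X_pow]; exact h1), natDegree_X_pow]

theorem bcp_monic {f : K[X][X]} (h : f.Monic) : (bcp k f).Monic := h.map _

theorem bcp_mul (f g : K[X][X]) : bcp k (f * g) = bcp k f * bcp k g := by
  rw [bcp_eq, bcp_eq, bcp_eq, map_mul]

theorem bcp_pow (f : K[X][X]) (n : ℕ) : bcp k (f ^ n) = bcp k f ^ n := by
  rw [bcp_eq, bcp_eq, map_pow]

theorem bcp_CC (c : K) : bcp k (C (C c)) = C (C (algebraMap K k c)) := by
  rw [bcp_eq]
  simp

theorem bcp_dvd {f g : K[X][X]} (hf : f.Monic) : bcp k f ∣ bcp k g ↔ f ∣ g := by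
  unfold bcp
  exact Polynomial.map_dvd_map (mapRingHom (algebraMap K k))
    (Polynomial.map_injective _ (algebraMap K k).injective) hf

theorem natDegree_bcp (f : K[X][X]) (hf : f.Monic) : (bcp k f).natDegree = f.natDegree := by
  unfold bcp
  exact hf.natDegree_map _

end bc

section mult
variable {k : Type} [Field k]

theorem const_unit (q : k[X][X]) (h : q.natDegree = 0) (h2 : IsUnit q.leadingCoeff) :
    IsUnit q := by
  have h3 := eq_C_of_natDegree_eq_zero h
  rw [h3]
  rw [leadingCoeff, h] at h2
  exact h2.map C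

theorem dvd_pow_deg (T : k[X][X]) (N : ℕ) : ∀ (n : ℕ) (P : k[X][X]), P.natDegree ≤ n →
    IsUnit P.leadingCoeff → P ∣ T ^ N → P ∣ T ^ n := by
  intro n
  induction n with
  | zero =>
    intro P h1 h2 _
    exact (const_unit P (by omega) h2).dvd
  | succ n ih =>
    intro P h1 h2 h3
    by_cases hu : IsUnit P
    · exact hu.dvd
    · have hP0 : P ≠ 0 := by
        rintro rfl
        simp at h2
      obtain ⟨q, hq, P', rfl⟩ := WfDvdMonoid.exists_irreducible_factor hu hP0
      rw [leadingCoeff_mul] at h2
      have hq1 : IsUnit q.leadingCoeff := isUnit_of_mul_isUnit_left h2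
      have hP1 : IsUnit P'.leadingCoeff := isUnit_of_mul_isUnit_right h2
      have hqd : 1 ≤ q.natDegree := by
        by_contra h
        exact hq.not_isUnit (const_unit q (by omega) hq1)
      have hd : (q * P').natDegree = q.natDegree + P'.natDegree :=
        natDegree_mul hq.ne_zero (right_ne_zero_of_mul hP0)
      have h4 := ih P' (by omega) hP1 ((Dvd.intro_left _ rfl).trans h3)
      have h5 : q ∣ T := hq.prime.dvd_of_dvd_pow ((Dvd.intro _ rfl).trans h3)
      rw [pow_succ']
      exact mul_dvd_mul h5 h4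

end mult

section mf
variable {K k : Type} [Field K] [Field k] [Algebra K k]

theorem mathF [IsAlgClosed k] (Q d : ℕ) (H A : List (List K)) (a b c : K)
    (cs : Fin (d + 1) → K) (G : Fin d → Fin d → K) (as : Fin d → K) (g : Fin d → Fin d → K)
    (hA : A.length = d) (hc : c = ((sub a b (hom H)).coeff d).coeff 0)
    (hS : c ≠ 0 → sub a b (hom H) = C (C c) * mbiv A ∧ TD (mbiv A) d)
    (hG : GoodF Q d (bcp k (hom H)) (algebraMap K k a) (algebraMap K k b)
      (fun j => algebraMap K k (cs j))
      (fun i j => algebraMap K k (G i j)) (fun j => algebraMap K k (as j))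
      (fun j i => algebraMap K k (g j i))) :
    c ≠ 0 ∧ Function.Injective cs ∧ ∃ T : k[X][X], T.Monic ∧ TD T T.natDegree ∧
      T.natDegree ≤ d ∧ T ∣ bcp k (mbiv A) ∧ bcp k (mbiv A) ∣ T ^ d ∧
      (∀ j, Squarefree (T.map (evalRingHom (algebraMap K k (cs j))))) ∧
      ∀ n (h : n ≤ d), T.natDegree = n → ∃ φ : Fin n → PowerSeries k, Rts T φ ∧
        GoodP (12 * d + 20) Q T φ (fun i j => algebraMap K k (cut2 h G i j))
          (fun j => algebraMap K k (cut1 h as j)) (fun j i => algebraMap K k (cut2 h g j i)) := by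
  obtain ⟨⟨h1, T, N, hT1, hT2, hT3, hT4⟩, hinj, h2⟩ := hG
  rw [← bcp_sub] at hT2 hT3 h2
  rw [← bcp_sub, coeff_bcp, ← hc] at h1
  have hc0 : c ≠ 0 := by
    intro h
    rw [h, map_zero] at h1
    exact h1 rfl
  obtain ⟨hf, hTD⟩ := hS hc0
  have hf' : bcp k (sub a b (hom H)) = C (C (algebraMap K k c)) * bcp k (mbiv A) := by
    rw [hf, bcp_mul, bcp_CC]
  have hu : IsUnit (C (C (algebraMap K k c)) : k[X][X]) :=
    isUnit_C.2 (isUnit_C.2 (IsUnit.mk0 _ h1))
  have hAm : (bcp k (mbiv A)).Monic := bcp_monic (mbiv_monic A)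
  have hAd : (bcp k (mbiv A)).natDegree = d := by
    rw [natDegree_bcp _ (mbiv_monic A), natDegree_mbiv, hA]
  have hATD : TD (bcp k (mbiv A)) d := by
    intro i j hij
    rw [coeff_bcp, hTD i j hij, map_zero]
  rw [hf'] at hT2 hT3
  have hT2' : T ∣ bcp k (mbiv A) := hu.dvd_mul_left.1 hT2
  have hT3' : bcp k (mbiv A) ∣ T ^ N := (Dvd.intro_left _ rfl).trans hT3
  have hT5 : bcp k (mbiv A) ∣ T ^ d :=
    dvd_pow_deg T N d _ hAd.le (by rw [hAm.leadingCoeff]; exact isUnit_one) hT3'
  obtain ⟨U, hU⟩ := id hT2'
  have hUm : U.Monic := by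
    rw [hU] at hAm
    exact hT1.of_mul_monic_left hAm
  have hdeg : d = T.natDegree + U.natDegree := by
    rw [← hAd, hU, hT1.natDegree_mul hUm]
  have hTTD : TD T T.natDegree := fa_TD_of_mul hT1 hUm (by rw [← hU, ← hdeg]; exact hATD)
  have hTd : T.natDegree ≤ d := by omega
  have h6 : T ∣ bcp k (sub a b (hom H)) := by rw [hf']; exact hT2
  have h7 : bcp k (sub a b (hom H)) ∣ T ^ d := by
    rw [hf', hu.mul_left_dvd]
    exact hT5
  have h8 := h2 T T.natDegree hTd hT1 rfl hTTD h6 h7 hT4
  refine ⟨hc0, ?_, T, hT1, hTTD, hTd, hT2', hT5, h8.1, ?_⟩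
  · intro x y hxy
    exact hinj (congrArg (algebraMap K k) hxy)
  · intro n h hn
    subst hn
    exact h8.2

end mf

section fin1
variable {K k : Type} [Field K] [Field k] [Algebra K k]

theorem fz_monic (ζ : k) (l : List (List (List K))) : (fz ζ l).Monic := by
  unfold fz
  refine monic_X_pow_add ?_
  rw [degree_lt_iff_coeff_zero]
  intro m hm
  rw [finsetSum_coeff]
  apply Finset.sum_eq_zero
  intro i hi
  rw [Finset.mem_range] at hi
  rw [coeff_C_mul_X_pow, if_neg (by omega)]

theorem aeval_pol (α : k) {n : ℕ} (f : Fin n → K) :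
    aeval α (pol (List.ofFn f)) = ∑ i : Fin n, algebraMap K k (f i) * α ^ (i : ℕ) := by
  induction n with
  | zero => simp [pol]
  | succ n ih =>
    rw [List.ofFn_succ, pol, map_add, map_mul, aeval_C, aeval_X, ih, Fin.sum_univ_succ,
      Finset.mul_sum]
    simp only [Fin.val_zero, pow_zero, mul_one, Fin.val_succ]
    congr 1
    apply Finset.sum_congr rfl
    intro i _
    ring

theorem getD_ofFn_map {n : ℕ} (c : Fin n → K) (b : ℕ) :
    algebraMap K k ((List.ofFn c).getD b 0) =
      (List.ofFn (fun j => algebraMap K k (c j))).getD b 0 := by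
  have : List.ofFn (fun j => algebraMap K k (c j)) = (List.ofFn c).map (algebraMap K k) := by
    rw [List.map_ofFn]
    rfl
  rw [this, ← map_zero (algebraMap K k), List.getD_map]

theorem comb_eval {n m : ℕ} (c : Fin n → K) (B : Fin m → Fin n → K) (α : k) :
    aeval α (pol (List.ofFn (fun i => ∑ b : Fin m, (List.ofFn c).getD b 0 * B b i))) =
      ∑ b : Fin m, (List.ofFn (fun j => algebraMap K k (c j))).getD b 0 *
        ∑ j : Fin n, algebraMap K k (B b j) * α ^ (j : ℕ) := by
  rw [aeval_pol]
  simp only [map_sum, map_mul, getD_ofFn_map, Finset.sum_mul, Finset.mul_sum]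
  rw [Finset.sum_comm]
  apply Finset.sum_congr rfl
  intro i _
  apply Finset.sum_congr rfl
  intro j _
  ring

/-- the output -/
def outF {K : Type} (bk : List K × List (List (List K)) → List (List (List K)))
    (o : List K × (List (List (List K)) × List Unit)) :
    List K × (List (List (List K)) × List Unit) := (o.1, (bk (o.1, o.2.1), o.2.2))

theorem facAbs [IsAlgClosed k] (H A : List (List K)) (a b c : K)
    (bk : List K × List (List (List K)) → List (List (List K)))
    (out : List (List K × (List (List (List K)) × List Unit))) (hM : MonAbs k A out)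
    (hc : c ≠ 0) (hS : sub a b (hom H) = C (C c) * mbiv A)
    (hb : ∀ o ∈ out, (bk (o.1, o.2.1)).length = o.1.length ∧
      (∀ x ∈ bk (o.1, o.2.1), IsHom o.2.1.length x) ∧
      ∀ ζ : k, aeval ζ (mpol o.1) = 0 → hz ζ (bk (o.1, o.2.1)) =
        sub (-(algebraMap K k a)) (-(algebraMap K k b)) (fz ζ o.2.1)) :
    FacAbs k H (out.map (outF bk)) := by
  obtain ⟨h1, h2, h3, h4⟩ := hM
  have hinj : ∀ f g : k[X][X], sub (-(algebraMap K k a)) (-(algebraMap K k b)) f =
      sub (-(algebraMap K k a)) (-(algebraMap K k b)) g → f = g := by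
    intro f g hfg
    have := congrArg (sub (algebraMap K k a) (algebraMap K k b)) hfg
    rwa [sub_sub', sub_sub'] at this
  have hass : ∀ f g : k[X][X], f.Monic → g.Monic →
      Associated (sub (-(algebraMap K k a)) (-(algebraMap K k b)) f)
        (sub (-(algebraMap K k a)) (-(algebraMap K k b)) g) → f = g := by
    intro f g hf hg hfg
    have h := hfg.map (sub (algebraMap K k a) (algebraMap K k b))
    rw [sub_sub', sub_sub'] at h
    exact Polynomial.eq_of_monic_of_associated hf hg h
  have hroot : ∀ o ∈ out, ∃ ζ : k, aeval ζ (mpol o.1) = 0 := by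
    intro o ho
    have e1 := (h1 o ho).1
    have e2 : (mpol o.1).Monic := by
      unfold mpol
      exact monic_X_pow_add (degree_pol _)
    have e3 : (mpol o.1).natDegree = o.1.length := by
      unfold mpol
      rw [natDegree_add_eq_left_of_degree_lt (by rw [degree_X_pow]; exact degree_pol _),
        natDegree_X_pow]
    obtain ⟨ζ, hζ⟩ := IsAlgClosed.exists_root ((mpol o.1).map (algebraMap K k)) (by
      rw [degree_map, degree_eq_natDegree e2.ne_zero, e3]
      intro h
      have : o.1.length = 0 := by exact_mod_cast h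
      omega)
    refine ⟨ζ, ?_⟩
    rwa [IsRoot.def, eval_map_algebraMap] at hζ
  refine ⟨?_, ⟨?_, ?_⟩, ?_⟩
  · intro o' ho'
    rw [List.mem_map] at ho'
    obtain ⟨o, ho, rfl⟩ := ho'
    obtain ⟨e1, e2, e3, e4, e5, e6⟩ := h1 o ho
    obtain ⟨b1, b2, b3⟩ := hb o ho
    refine ⟨e1, e2, b1, e5, ⟨_, e3, b2⟩, ?_⟩
    intro ζ hζ
    show Irreducible (hz ζ (bk (o.1, o.2.1)))
    rw [b3 ζ hζ, irr_sub]
    exact (e6 ζ hζ).1
  · refine List.Nodup.map_on ?_ h3
    intro o ho o' ho' hoo
    obtain ⟨ζ, hζ⟩ := hroot o ho
    have e1 : (outF bk o).1 = (outF bk o').1 := congrArg Prod.fst hoo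
    change o.1 = o'.1 at e1
    have e2 : (outF bk o).2.1 = (outF bk o').2.1 := congrArg (fun x => x.2.1) hoo
    change bk (o.1, o.2.1) = bk (o'.1, o'.2.1) at e2
    have hζ' : aeval ζ (mpol o'.1) = 0 := by rw [← e1]; exact hζ
    have e3 := (hb o ho).2.2 ζ hζ
    rw [e2, (hb o' ho').2.2 ζ hζ'] at e3
    exact (h4 o ho o' ho' ζ ζ hζ hζ' (hinj _ _ e3.symm)).1
  · intro x hx x' hx' ζ ζ' hζ hζ' hA'
    rw [List.mem_map] at hx hx'
    obtain ⟨o, ho, rfl⟩ := hx
    obtain ⟨o', ho', rfl⟩ := hx'
    have e1 : hz ζ (outF bk o).2.1 =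
        sub (-(algebraMap K k a)) (-(algebraMap K k b)) (fz ζ o.2.1) := (hb o ho).2.2 ζ hζ
    have e2 : hz ζ' (outF bk o').2.1 =
        sub (-(algebraMap K k a)) (-(algebraMap K k b)) (fz ζ' o'.2.1) := (hb o' ho').2.2 ζ' hζ'
    rw [e1, e2] at hA'
    obtain ⟨e3, e4⟩ := h4 o ho o' ho' ζ ζ' hζ hζ' (hass _ _ (fz_monic _ _) (fz_monic _ _) hA')
    exact ⟨by rw [e3], e4⟩
  · refine ⟨algebraMap K k c, by simpa using hc, ?_⟩
    have e1 : bcp k (hom H) = sub (-(algebraMap K k a)) (-(algebraMap K k b))
        (bcp k (sub a b (hom H))) := by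
      rw [bcp_sub, sub_sub]
    rw [e1, hS, bcp_mul, bcp_CC, map_mul, sub_cc, ← h2, map_list_prod, List.map_map, List.map_map]
    congr 2
    apply List.map_congr_left
    intro o ho
    simp only [Function.comp_apply]
    rw [map_multiset_prod, Multiset.map_map]
    congr 1
    apply Multiset.map_congr rfl
    intro ζ hζ
    have hζ' : aeval ζ (mpol o.1) = 0 := by
      have := (mem_roots'.1 hζ).2
      rwa [IsRoot.def, eval_map_algebraMap] at this
    simp only [Function.comp_apply, map_pow]
    rw [← (hb o ho).2.2 ζ hζ']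
    rfl

/-- counting -/
theorem sepCount (T : Finset K) (n d : ℕ) (h : n ≤ d) (P : (Fin n → k) → Prop)
    (hP : ∀ T' : Finset k, Nat.card {c : Fin n → T' // ¬ P (fun i => (c i : k))} * T'.card ≤
      n ^ 2 * T'.card ^ n) :
    Nat.card {c : Fin d → T // ¬ P (fun i => algebraMap K k (cut1 h (fun i => (c i : K)) i))} *
      T.card ≤ d ^ 2 * T.card ^ d := by
  classical
  set T' : Finset k := T.map ⟨algebraMap K k, (algebraMap K k).injective⟩ with hT'
  have hcard : T'.card = T.card := Finset.card_map _
  have hmem : ∀ x : T, algebraMap K k (x : K) ∈ T' := by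
    intro x
    rw [hT', Finset.mem_map]
    exact ⟨x, x.2, rfl⟩
  let f : {c : Fin d → T // ¬ P (fun i => algebraMap K k (cut1 h (fun i => (c i : K)) i))} →
      {c : Fin n → T' // ¬ P (fun i => (c i : k))} × (Fin (d - n) → T) :=
    fun c => (⟨fun i => ⟨algebraMap K k (c.1 (Fin.castLE h i) : K), hmem _⟩, c.2⟩,
      fun i => c.1 ⟨n + i, by omega⟩)
  have hf : Function.Injective f := by
    intro c c' hcc
    apply Subtype.ext
    funext i
    have e1 := congrArg (fun x => x.1.1) hcc
    have e2 := congrArg (fun x => x.2) hcc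
    by_cases hi : (i : ℕ) < n
    · have e3 := congrFun e1 ⟨i, hi⟩
      have e4 := congrArg Subtype.val e3
      have e5 := (algebraMap K k).injective e4
      exact Subtype.ext e5
    · have e3 := congrFun e2 ⟨i - n, by omega⟩
      have e4 : (⟨n + ((⟨i - n, by omega⟩ : Fin (d - n)) : ℕ), by simp; omega⟩ : Fin d) = i := by
        apply Fin.ext
        simp
        omega
      simp only [f] at e3
      rwa [e4] at e3
  have h1 := Nat.card_le_card_of_injective f hf
  rw [Nat.card_prod] at h1
  have h2 : Nat.card (Fin (d - n) → T) = T.card ^ (d - n) := by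
    rw [Nat.card_eq_fintype_card]
    simp
  rw [h2] at h1
  have h3 := hP T'
  rw [hcard] at h3
  calc _ ≤ Nat.card {c : Fin n → T' // ¬ P (fun i => (c i : k))} * T.card ^ (d - n) * T.card :=
        Nat.mul_le_mul_right _ h1
    _ = (Nat.card {c : Fin n → T' // ¬ P (fun i => (c i : k))} * T.card) * T.card ^ (d - n) := by
        ring
    _ ≤ (n ^ 2 * T.card ^ n) * T.card ^ (d - n) := Nat.mul_le_mul_right _ h3
    _ = n ^ 2 * T.card ^ d := by
        rw [mul_assoc, ← pow_add]
        congr 2
        omega
    _ ≤ d ^ 2 * T.card ^ d := Nat.mul_le_mul_right _ (Nat.pow_le_pow_left h 2)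

end fin1



section units

theorem vv_le (N : ℕ) (hN : 1 ≤ N) : vv (Nat.clog 2 N) ≤ 5 * N ^ 2 := by
  have h1 : 2 ^ (Nat.clog 2 N) ≤ 2 * N := by
    rcases Nat.lt_or_ge 1 N with h | h
    · have h2 := Nat.pow_pred_clog_lt_self (b := 2) (by norm_num) h
      have h3 : 1 ≤ Nat.clog 2 N := Nat.clog_pos (by norm_num) h
      have h4 : 2 ^ (Nat.clog 2 N) = 2 * 2 ^ (Nat.clog 2 N).pred := by
        rw [← pow_succ']
        congr 1
        rw [Nat.pred_eq_sub_one]
        omega
      rw [h4]
      omega
    · have : N = 1 := by omega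
      subst this
      simp
  have h2 : 7 ^ (Nat.clog 2 N) / 2 ^ (Nat.clog 2 N) ≤ (2 ^ (Nat.clog 2 N)) ^ 2 := by
    apply Nat.div_le_of_le_mul
    calc 7 ^ (Nat.clog 2 N) ≤ 8 ^ (Nat.clog 2 N) := Nat.pow_le_pow_left (by norm_num) _
      _ = 2 ^ (Nat.clog 2 N) * (2 ^ (Nat.clog 2 N)) ^ 2 := by
        rw [← pow_succ', ← pow_mul, mul_comm, pow_mul]
        norm_num
  have h3 : (2 ^ (Nat.clog 2 N)) ^ 2 ≤ (2 * N) ^ 2 := Nat.pow_le_pow_left h1 2
  have h4 : 1 ≤ N ^ 2 := Nat.one_le_pow _ _ hN
  unfold vv
  have h5 : (2 * N) ^ 2 = 4 * N ^ 2 := by ring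
  omega

theorem ww_le (N : ℕ) : ww N ≤ 5 * N ^ 3 := by
  rcases Nat.eq_zero_or_pos N with h | h
  · subst h
    simp [ww]
  · unfold ww
    calc N * vv (Nat.clog 2 N) ≤ N * (5 * N ^ 2) := Nat.mul_le_mul_left _ (vv_le N h)
      _ = 5 * N ^ 3 := by ring

theorem one_le_lgc (n : ℕ) : 1 ≤ lgc n := by unfold lgc; omega

theorem lgc_mono {m n : ℕ} (h : m ≤ n) : lgc m ≤ lgc n := by
  unfold lgc
  exact Nat.add_le_add_right (Nat.clog_mono_right 2 h) 1

theorem lgc_sq (p d : ℕ) (h : p ≤ d * d) : lgc p ≤ 2 * lgc (d + 1) := by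
  refine (lgc_mono h).trans ?_
  unfold lgc
  have h1 : d + 1 ≤ 2 ^ (Nat.clog 2 (d + 1)) := Nat.le_pow_clog (by norm_num) _
  have h2 : Nat.clog 2 (d * d) ≤ Nat.clog 2 (d + 1) + Nat.clog 2 (d + 1) := by
    apply Nat.clog_le_of_le_pow
    rw [pow_add]
    exact Nat.mul_le_mul (by omega) (by omega)
  omega

theorem lgc_s (d : ℕ) : lgc (12 * d + 20 + 1) ≤ 6 * lgc (d + 1) := by
  unfold lgc
  have h1 : d + 1 ≤ 2 ^ (Nat.clog 2 (d + 1)) := Nat.le_pow_clog (by norm_num) _
  have h2 : Nat.clog 2 (12 * d + 20 + 1) ≤ 5 + Nat.clog 2 (d + 1) := by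
    apply Nat.clog_le_of_le_pow
    rw [pow_add]
    omega
  omega

end units

section main
variable {F : Type} [Field F] [DecidableEq F]

/-- the output -/
abbrev OUT : Ty := .list (.prod Po (.prod ML Un))
/-- input of the second and of the third part -/
abbrev T3 : Ty := .prod PAR (.prod Un (.prod Un (.prod CUT Ma)))
/-- input of the radical -/
abbrev TD1 : Ty := .prod Un (.prod Po (.prod Un Ma))
/-- input of the separating vector -/
abbrev TL1 : Ty := .prod Un (.prod (.prod Po Un) (.prod Un (.prod Ma (.prod Ma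
    (.prod Po (.prod Ma Po))))))
/-- input of the splitting -/
abbrev TS1 : Ty := .prod Un (.prod Un (.prod Po (.prod Ma (.prod Ma Po))))
/-- input of the change of coordinates -/
abbrev TB1 : Ty := .prod .fld (.prod .fld (.prod Po ML))

/-- the parts of the random list -/
def gCut {s : List (Ty × Ty)} : Pr s T3 CUT := .comp (.comp (.comp .snd .snd) .snd) .fst

/-- the radical -/
def P3a (wD : Pr RT TD1 Ma) : Pr RT T3 Ma :=
  .comp (.pair (.comp .snd .fst) (.pair (.comp (.comp (.comp gCut .snd) .snd) .fst)
    (.pair (.comp (.comp .snd .snd) .fst) (.comp (.comp (.comp .snd .snd) .snd) .snd)))) wD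

theorem val_P3a (wD : Pr RT TD1 Ma) (v : SV F RT) (par : List Unit × (List F × List Unit))
    (up s : List Unit) (a b : F) (cs : List F)
    (R : List (List F) × (List F × (List (List F) × List F))) (A : List (List F)) :
    (P3a wD).val v (par, (up, (s, ((a, (b, (cs, R))), A)))) = wD.val v (up, (cs, (s, A))) := by
  simp only [P3a, gCut, val_comp, val_pair, val_fst, val_snd]

theorem cost_P3a (wD : Pr RT TD1 Ma) (v : SV F RT) (k : SC F RT)
    (par : List Unit × (List F × List Unit))
    (up s : List Unit) (a b : F) (cs : List F)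
    (R : List (List F) × (List F × (List (List F) × List F))) (A : List (List F)) :
    (P3a wD).cost v k (par, (up, (s, ((a, (b, (cs, R))), A)))) ≤
      wD.cost v k (up, (cs, (s, A))) + 30 := by
  simp only [P3a, gCut, cost_comp, cost_pair, cost_fst, cost_snd, val_comp, val_pair, val_fst,
    val_snd]
  omega

/-- the separating vector -/
def P3b (wL : Pr RT TL1 Po) : Pr RT (.prod T3 Ma) Po :=
  .comp (.pair (.comp (.comp .fst .fst) .fst) (.pair (.comp (.comp .fst .fst) .snd)
    (.pair (.comp .fst (.comp (.comp .snd .snd) .fst)) (.pair .snd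
    (.pair (ap2 cornerP .snd (.comp (.comp .fst gCut) (.comp (.comp (.comp .snd .snd) .snd) .fst)))
    (.pair (ap2 takeP .snd (.comp (.comp .fst gCut)
      (.comp (.comp (.comp (.comp .snd .snd) .snd) .snd) .fst)))
    (.pair (ap2 cornerP .snd (.comp (.comp .fst gCut)
      (.comp (.comp (.comp (.comp (.comp .snd .snd) .snd) .snd) .snd) .fst)))
    (ap2 takeP .snd (.comp (.comp .fst gCut)
      (.comp (.comp (.comp (.comp (.comp .snd .snd) .snd) .snd) .snd) .snd)))))))))) wL

theorem val_P3b (wL : Pr RT TL1 Po) (v : SV F RT) (r : List Unit) (be : List F × List Unit)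
    (up s : List Unit) (a b : F) (cs : List F) (G : List (List F)) (as : List F)
    (g : List (List F)) (cb : List F) (A S : List (List F)) :
    (P3b wL).val v (((r, be), (up, (s, ((a, (b, (cs, (G, (as, (g, cb)))))), A)))), S) =
      wL.val v (r, (be, (s, (S, (corner S.length G, (as.take S.length,
        (corner S.length g, cb.take S.length))))))) := by
  simp only [P3b, gCut, val_comp, val_pair, val_fst, val_snd, val_cornerP, val_takeP]

theorem cost_P3b (wL : Pr RT TL1 Po) (v : SV F RT) (k : SC F RT) (r : List Unit)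
    (be : List F × List Unit)
    (up s : List Unit) (a b : F) (cs : List F) (G : List (List F)) (as : List F)
    (g : List (List F)) (cb : List F) (A S : List (List F)) :
    (P3b wL).cost v k (((r, be), (up, (s, ((a, (b, (cs, (G, (as, (g, cb)))))), A)))), S) ≤
      wL.cost v k (r, (be, (s, (S, (corner S.length G, (as.take S.length,
        (corner S.length g, cb.take S.length))))))) +
      300 * ((S.length + 1) * (S.length + 1)) := by
  have c1 := cost_cornerP (s := RT) (b := .list .fld) (a := .fld) v k (S, G)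
  have c2 := cost_cornerP (s := RT) (b := .list .fld) (a := .fld) v k (S, g)
  have c3 := cost_takeP (s := RT) (b := .list .fld) (a := .fld) v k (S, as)
  have c4 := cost_takeP (s := RT) (b := .list .fld) (a := .fld) v k (S, cb)
  simp only at c1 c2 c3 c4
  simp only [P3b, gCut, cost_comp, cost_pair, cost_fst, cost_snd, val_comp, val_pair, val_fst,
    val_snd, val_cornerP, val_takeP]
  nlinarith

/-- the splitting -/
def P3c (wS : Pr RT TS1 OUT) : Pr RT (.prod T3 (.prod Ma Po)) OUT :=
  .comp (.pair (.comp (.comp .fst .fst) .fst) (.pair (.comp (.comp .fst .snd) .fst)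
    (.pair (.comp (.comp .fst gCut) (.comp (.comp .snd .snd) .fst))
    (.pair (.comp .fst (.comp (.comp (.comp .snd .snd) .snd) .snd)) .snd)))) wS

theorem val_P3c (wS : Pr RT TS1 OUT) (v : SV F RT) (r : List Unit) (be : List F × List Unit)
    (up s : List Unit) (a b : F) (cs : List F)
    (R : List (List F) × (List F × (List (List F) × List F))) (A : List (List F))
    (SL : List (List F) × List F) :
    (P3c wS).val v (((r, be), (up, (s, ((a, (b, (cs, R))), A)))), SL) =
      wS.val v (r, (up, (cs, (A, SL)))) := by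
  simp only [P3c, gCut, val_comp, val_pair, val_fst, val_snd]

theorem cost_P3c (wS : Pr RT TS1 OUT) (v : SV F RT) (k : SC F RT) (r : List Unit)
    (be : List F × List Unit)
    (up s : List Unit) (a b : F) (cs : List F)
    (R : List (List F) × (List F × (List (List F) × List F))) (A : List (List F))
    (SL : List (List F) × List F) :
    (P3c wS).cost v k (((r, be), (up, (s, ((a, (b, (cs, R))), A)))), SL) ≤
      wS.cost v k (r, (up, (cs, (A, SL)))) + 40 := by
  simp only [P3c, gCut, cost_comp, cost_pair, cost_fst, cost_snd, val_comp, val_pair, val_fst,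
    val_snd]
  omega

/-- change of coordinates for one entry -/
def bkP (wB : Pr [] TB1 ML) : Pr RT (.prod (.prod .fld .fld) (.prod Po (.prod ML Un)))
    (.prod Po (.prod ML Un)) :=
  .pair (.comp .snd .fst) (.pair (.comp (.pair (.comp .fst .fst) (.pair (.comp .fst .snd)
    (.pair (.comp .snd .fst) (.comp (.comp .snd .snd) .fst)))) (liftP RT wB))
    (.comp (.comp .snd .snd) .snd))

/-- change of coordinates -/
def P3d (wB : Pr [] TB1 ML) : Pr RT (.prod (.prod .fld .fld) OUT) OUT := mapP (bkP wB)

theorem val_P3d (wB : Pr [] TB1 ML) (v : SV F RT) (a b : F)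
    (out : List (List F × (List (List (List F)) × List Unit))) :
    (P3d wB).val v ((a, b), out) =
      List.map (outF (fun x => wB.val () (a, (b, x)))) out := by
  simp only [P3d, val_mapP]
  apply List.map_congr_left
  intro o _
  simp only [bkP, outF, val_comp, val_pair, val_fst, val_snd, val_liftP]

theorem cost_P3d (wB : Pr [] TB1 ML) (v : SV F RT) (k : SC F RT) (a b : F)
    (out : List (List F × (List (List (List F)) × List Unit))) :
    (P3d wB).cost v k ((a, b), out) ≤
      (out.map (fun o => wB.cost () () (a, (b, (o.1, o.2.1))) + 50)).sum + 5 := by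
  refine (cost_mapP (s := RT) (bkP wB) v k ((a, b), out)).trans ?_
  apply Nat.add_le_add_right
  apply List.sum_le_sum
  intro o _
  simp only [bkP, cost_comp, cost_pair, cost_fst, cost_snd, cost_liftP, val_comp, val_pair,
    val_fst, val_snd]
  omega

/-- third part -/
def P3 (wD : Pr RT TD1 Ma) (wL : Pr RT TL1 Po) (wS : Pr RT TS1 OUT) (wB : Pr [] TB1 ML) :
    Pr RT T3 OUT :=
  lt (P3a wD) (lt (P3b wL) (.comp (.pair
    (.pair (.comp (.comp (.comp .fst .fst) gCut) .fst)
      (.comp (.comp (.comp (.comp .fst .fst) gCut) .snd) .fst))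
    (.comp (.pair (.comp .fst .fst) (.pair (.comp .fst .snd) .snd)) (P3c wS))) (P3d wB)))

theorem val_P3 (wD : Pr RT TD1 Ma) (wL : Pr RT TL1 Po) (wS : Pr RT TS1 OUT) (wB : Pr [] TB1 ML)
    (v : SV F RT) (r : List Unit) (be : List F × List Unit)
    (up s : List Unit) (a b : F) (cs : List F) (G : List (List F)) (as : List F)
    (g : List (List F)) (cb : List F) (A S : List (List F)) (L : List F)
    (out : List (List F × (List (List (List F)) × List Unit)))
    (hS : wD.val v (up, (cs, (s, A))) = S)
    (hL : wL.val v (r, (be, (s, (S, (corner S.length G, (as.take S.length,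
        (corner S.length g, cb.take S.length))))))) = L)
    (hO : wS.val v (r, (up, (cs, (A, (S, L))))) = out) :
    (P3 wD wL wS wB).val v ((r, be), (up, (s, ((a, (b, (cs, (G, (as, (g, cb)))))), A)))) =
      List.map (outF (fun x => wB.val () (a, (b, x)))) out := by
  rw [P3, val_lt, val_P3a, hS, val_lt, val_P3b, hL]
  simp only [val_comp, val_pair, val_fst, val_snd, gCut]
  rw [val_P3c, hO, val_P3d]

theorem cost_P3 (wD : Pr RT TD1 Ma) (wL : Pr RT TL1 Po) (wS : Pr RT TS1 OUT) (wB : Pr [] TB1 ML)
    (v : SV F RT) (k : SC F RT) (r : List Unit) (be : List F × List Unit)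
    (up s : List Unit) (a b : F) (cs : List F) (G : List (List F)) (as : List F)
    (g : List (List F)) (cb : List F) (A S : List (List F)) (L : List F)
    (out : List (List F × (List (List (List F)) × List Unit)))
    (hS : wD.val v (up, (cs, (s, A))) = S)
    (hL : wL.val v (r, (be, (s, (S, (corner S.length G, (as.take S.length,
        (corner S.length g, cb.take S.length))))))) = L)
    (hO : wS.val v (r, (up, (cs, (A, (S, L))))) = out) :
    (P3 wD wL wS wB).cost v k ((r, be), (up, (s, ((a, (b, (cs, (G, (as, (g, cb)))))), A)))) ≤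
      wD.cost v k (up, (cs, (s, A))) +
      wL.cost v k (r, (be, (s, (S, (corner S.length G, (as.take S.length,
        (corner S.length g, cb.take S.length))))))) +
      wS.cost v k (r, (up, (cs, (A, (S, L))))) +
      (out.map (fun o => wB.cost () () (a, (b, (o.1, o.2.1))) + 50)).sum +
      300 * ((S.length + 1) * (S.length + 1)) + 200 := by
  have c1 := cost_P3a wD v k (r, be) up s a b cs (G, (as, (g, cb))) A
  have c2 := cost_P3b wL v k r be up s a b cs G as g cb A S
  have c3 := cost_P3c wS v k r be up s a b cs (G, (as, (g, cb))) A (S, L)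
  have c4 := cost_P3d wB v k a b out
  rw [P3, cost_lt, val_P3a, hS, cost_lt, val_P3b, hL]
  simp only [cost_comp, cost_pair, cost_fst, cost_snd, val_comp, val_pair, val_fst, val_snd,
    gCut]
  rw [val_P3c, hO]
  omega

theorem ite_le_add (P : Prop) [Decidable P] (x y : ℕ) : (if P then x else y) ≤ x + y := by
  split_ifs <;> omega

/-- second part -/
def P2 (wP : Pr [] (.prod Un (.prod .fld (.prod .fld Ma))) (.prod .fld Ma))
    (w3 : Pr RT T3 OUT) : Pr RT T3 OUT :=
  lt (.comp (.pair (.comp (.comp .snd .snd) .fst)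
      (.pair (.comp gCut .fst) (.pair (.comp (.comp gCut .snd) .fst)
        (.comp (.comp (.comp .snd .snd) .snd) .snd)))) (liftP RT wP))
  (onZ (.comp .snd .fst) .nil
  (.comp (.pair (.comp .fst .fst) (.pair (.comp .fst (.comp .snd .fst))
    (.pair (.comp .fst (.comp (.comp .snd .snd) .fst))
    (.pair (.comp .fst gCut) (.comp .snd .snd))))) w3))

theorem val_P2 (wP : Pr [] (.prod Un (.prod .fld (.prod .fld Ma))) (.prod .fld Ma))
    (w3 : Pr RT T3 OUT) (v : SV F RT) (par : List Unit × (List F × List Unit))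
    (up s : List Unit) (a b : F)
    (R : List F × (List (List F) × (List F × (List (List F) × List F)))) (H : List (List F)) :
    (P2 wP w3).val v (par, (up, (s, ((a, (b, R)), H)))) =
      if (wP.val () (s, (a, (b, H)))).1 = 0 then
        ([] : List (List F × (List (List (List F)) × List Unit))) else
        w3.val v (par, (up, (s, ((a, (b, R)), (wP.val () (s, (a, (b, H)))).2)))) := by
  simp only [P2, gCut, val_lt, val_comp, val_pair, val_fst, val_snd, val_liftP, val_onZ,
    val_nil] <;> rfl

theorem cost_P2 (wP : Pr [] (.prod Un (.prod .fld (.prod .fld Ma))) (.prod .fld Ma))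
    (w3 : Pr RT T3 OUT) (v : SV F RT) (k : SC F RT) (par : List Unit × (List F × List Unit))
    (up s : List Unit) (a b : F)
    (R : List F × (List (List F) × (List F × (List (List F) × List F)))) (H : List (List F)) :
    (P2 wP w3).cost v k (par, (up, (s, ((a, (b, R)), H)))) ≤
      wP.cost () () (s, (a, (b, H))) +
      w3.cost v k (par, (up, (s, ((a, (b, R)), (wP.val () (s, (a, (b, H)))).2)))) + 100 := by
  simp only [P2, gCut, cost_lt, cost_comp, cost_pair, cost_fst, cost_snd, cost_liftP, cost_onZ,
    cost_nil, val_comp, val_pair, val_fst, val_snd, val_liftP]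
  refine le_trans (Nat.add_le_add_right (Nat.add_le_add_left (Nat.add_le_add_left
    (ite_le_add _ _ _) _) _) _) ?_
  omega

/-- first part -/
def P1 (wR : Pr [] (.prod Un Un) PAR) (wU : Pr [] Un Un) (w2 : Pr RT T3 OUT) :
    Pr RT (.prod Un (.prod Ma Po)) OUT :=
  lt (.comp (.comp .snd .fst) unD)
    (.comp (.pair (ap2 (liftP RT wR) (.comp .fst .fst) .snd)
      (.pair (.comp (.comp .fst .fst) (liftP RT wU))
      (.pair (.comp .snd sP)
      (.pair (ap2 cutP .snd (ap3 fitP (.comp .snd rP) .zero
          (.comp (.comp .fst .snd) .snd)))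
        (.comp (.comp .fst .snd) .fst))))) w2)

theorem val_P1 (wR : Pr [] (.prod Un Un) PAR) (wU : Pr [] Un Un) (w2 : Pr RT T3 OUT)
    (v : SV F RT) (u : List Unit) (H : List (List F)) (ω : List F) (d : ℕ)
    (hd : H.length = d + 1) :
    (P1 wR wU w2).val v (u, (H, ω)) =
        w2.val v (wR.val () (u, un d), (wU.val (F := F) () u,
          (un (12 * d + 20),
          ((cutP : Pr RT (.prod Un Po) CUT).val v (un d, fit (R2 d) 0 ω), H)))) := by
  have e : List.length H - 1 = d := by omega
  simp only [P1, val_lt, val_comp, val_pair, val_fst, val_snd, val_liftP, val_unD,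
    val_sP, val_fitP, val_rP, val_zero, length_un, e]

theorem cost_P1 (wR : Pr [] (.prod Un Un) PAR) (wU : Pr [] Un Un) (w2 : Pr RT T3 OUT)
    (v : SV F RT) (k : SC F RT) (u : List Unit)
    (H : List (List F)) (ω : List F) (d : ℕ) (hd : H.length = d + 1) :
    (P1 wR wU w2).cost v k (u, (H, ω)) ≤ Pr.cost (F := F) wR () () (u, un d) +
      Pr.cost (F := F) wU () () u + 6000 * ((d + 1) * (d + 1)) +
      w2.cost v k (wR.val () (u, un d), (wU.val (F := F) () u,
          (un (12 * d + 20),
          ((cutP : Pr RT (.prod Un Po) CUT).val v (un d, fit (R2 d) 0 ω), H)))) := by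
  have e : List.length H - 1 = d := by omega
  have c1 := cost_unD (s := RT) (a := .list .fld) v k H
  have c4 := cost_sP (s := RT) v k (un d)
  have c5 := cost_rP (s := RT) v k (un d)
  have c6 := cost_fitP (s := RT) (b := .unit) (a := .fld) v k (un (R2 d), ((0 : F), ω))
  have c7 := cost_cutP (s := RT) v k (un d) (fit (R2 d) 0 ω)
  rw [hd] at c1
  simp only [length_un] at c1 c4 c5 c6 c7
  simp only [P1, cost_lt, cost_comp, cost_pair, cost_fst, cost_snd, cost_liftP,
    cost_zero, val_comp, val_pair, val_fst, val_snd, val_unD,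
    val_sP, val_fitP, val_rP, val_zero, length_un, e, val_liftP]
  have e2 : R2 d = 2 * (d * d) + 3 * d + 3 := by unfold R2; ring
  have e4 : (100 * d + 300) * d = 100 * (d * d) + 300 * d := by ring
  have e5 : (d + 1) * (d + 1) = d * d + 2 * d + 1 := by ring
  rw [e4] at c5
  rw [e5] at c7
  rw [e5]
  generalize d * d = D at *
  omega

end main



theorem sum_le {α : Type} (out : List α) (f g : α → ℕ) (B : ℕ)
    (h : ∀ o ∈ out, f o ≤ B * g o) : (out.map f).sum ≤ B * (out.map g).sum := by
  induction out with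
  | nil => simp
  | cons x t ih =>
    have h1 := ih (fun o ho => h o (by simp [ho]))
    have h2 := h x (by simp)
    simp only [List.map_cons, List.sum_cons, Nat.mul_add]
    omega

theorem mem_le_sum {α : Type} (out : List α) (g : α → ℕ) (o : α) (ho : o ∈ out) :
    g o ≤ (out.map g).sum := by
  induction out with
  | nil => simp at ho
  | cons x t ih =>
    simp only [List.map_cons, List.sum_cons]
    rcases List.mem_cons.1 ho with h | h
    · subst h
      omega
    · have := ih h
      omega

theorem back_sum (CB d : ℕ) {α : Type} (out : List α) (q j f : α → ℕ)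
    (hf : ∀ o ∈ out, f o ≤ CB * ((q o + 1) * ww (j o + 1)))
    (h1 : ∀ o ∈ out, 1 ≤ q o ∧ 1 ≤ j o)
    (hs : (out.map (fun o => q o * j o)).sum ≤ d) :
    (out.map (fun o => f o + 50)).sum ≤ (CB * 20 + 50) * (d + 1) ^ 3 := by
  have h2 : ∀ o ∈ out, f o + 50 ≤ (CB * 20 + 50) * (d + 1) ^ 2 * (q o * j o) := by
    intro o ho
    have h3 := (mem_le_sum out (fun o => q o * j o) o ho).trans hs
    obtain ⟨hq, hj⟩ := h1 o ho
    have hjd : j o ≤ d := le_trans (Nat.le_mul_of_pos_left _ hq) h3
    have hw := ww_le (j o + 1)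
    have h4 := hf o ho
    have h5 : 1 ≤ q o * j o := Nat.mul_pos hq hj
    have h6 : 1 ≤ (d + 1) ^ 2 := Nat.one_le_pow _ _ (by omega)
    calc f o + 50 ≤ CB * ((q o + 1) * (5 * (j o + 1) ^ 3)) + 50 := by
          gcongr
          exact h4.trans (by gcongr)
      _ = CB * ((q o + 1) * (5 * ((j o + 1) * (j o + 1) ^ 2))) + 50 := by ring
      _ ≤ CB * ((2 * q o) * (5 * ((2 * j o) * (d + 1) ^ 2))) + 50 * (d + 1) ^ 2 * (q o * j o) := by
          have e1 : q o + 1 ≤ 2 * q o := by omega
          have e2 : j o + 1 ≤ 2 * j o := by omega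
          have e3 : j o + 1 ≤ d + 1 := by omega
          have e4 : 50 ≤ 50 * (d + 1) ^ 2 * (q o * j o) := by
            calc 50 = 50 * 1 * 1 := by norm_num
              _ ≤ 50 * (d + 1) ^ 2 * (q o * j o) := by gcongr
          have e5 : CB * ((q o + 1) * (5 * ((j o + 1) * (j o + 1) ^ 2))) ≤
              CB * ((2 * q o) * (5 * ((2 * j o) * (d + 1) ^ 2))) := by gcongr
          omega
      _ = (CB * 20 + 50) * (d + 1) ^ 2 * (q o * j o) := by ring
  calc (out.map (fun o => f o + 50)).sum ≤
        (CB * 20 + 50) * (d + 1) ^ 2 * (out.map (fun o => q o * j o)).sum := sum_le _ _ _ _ h2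
    _ ≤ (CB * 20 + 50) * (d + 1) ^ 2 * (d + 1) := by
        gcongr
        omega
    _ = (CB * 20 + 50) * (d + 1) ^ 3 := by ring

/-- the final sum -/
theorem final_sum (CR CU CP CD CL CS CB kD kL kS d D n e p cR cU cP cD cL cS cB : ℕ)
    (hn : n ≤ d) (hp : p ≤ D) (he : e ≤ lgc d)
    (h1 : cR ≤ CR * (d + 1) * (D + 1))
    (h2 : cU ≤ CU * (D + 1))
    (h3 : cP ≤ CP * (ww (d + 1) + (12 * d + 20 + 1) ^ 2))
    (h4 : cD ≤ CD * (lgc (12 * d + 20 + 1) ^ kD * ((12 * d + 20 + 1) ^ 3 +
      (12 * d + 20 + 1) * p)))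
    (h5 : cL ≤ CL * ((e + 1) * lgc p * lgc (12 * d + 20 + 1) ^ kL * (12 * d + 20 + 1) ^ 3))
    (h6 : cS ≤ CS * (lgc (12 * d + 20 + 1) ^ kS * ((12 * d + 20 + 1) ^ 3 +
      (12 * d + 20 + 1) * p)))
    (h7 : cB ≤ (CB * 20 + 50) * (d + 1) ^ 3) :
    cR + cU + 6000 * ((d + 1) * (d + 1)) +
      (cP + (cD + cL + cS + cB + 300 * ((n + 1) * (n + 1)) + 200) + 100) ≤
      (CR + CU + CP * 446 + CD * (6 ^ kD * 9261) + CL * (2 * 6 ^ kL * 9261) +
        CS * (6 ^ kS * 9261) + CB * 20 + 6650) *
        (lgc (d + D + 1) ^ (kD + kL + kS + 2) * ((d + 1) ^ 3 + (d + 1) * (D + 1))) := by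
  have hL : 1 ≤ lgc (d + D + 1) := one_le_lgc _
  have hN : 1 ≤ d + 1 := by omega
  have hLk : 1 ≤ lgc (d + D + 1) ^ (kD + kL + kS + 2) := Nat.one_le_pow _ _ hL
  have hpow : ∀ a, a ≤ kD + kL + kS + 2 →
      lgc (d + D + 1) ^ a ≤ lgc (d + D + 1) ^ (kD + kL + kS + 2) :=
    fun a ha => Nat.pow_le_pow_right hL ha
  set Q := (d + 1) ^ 3 + (d + 1) * (D + 1) with hQ
  set T := lgc (d + D + 1) ^ (kD + kL + kS + 2) * Q with hT
  have hpT : ∀ a, a ≤ kD + kL + kS + 2 → lgc (d + D + 1) ^ a * Q ≤ T :=
    fun a ha => Nat.mul_le_mul_right _ (hpow a ha)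
  have hQT : Q ≤ T := Nat.le_mul_of_pos_left _ (by omega)
  have hNQ : (d + 1) ^ 3 ≤ Q := Nat.le_add_right _ _
  have hDQ : (d + 1) * (D + 1) ≤ Q := Nat.le_add_left _ _
  have hNT : (d + 1) ^ 3 ≤ T := hNQ.trans hQT
  have hDT : (d + 1) * (D + 1) ≤ T := hDQ.trans hQT
  have hNN : (d + 1) ^ 2 ≤ (d + 1) ^ 3 := Nat.pow_le_pow_right (by omega) (by norm_num)
  have hN1 : 1 ≤ (d + 1) ^ 3 := Nat.one_le_pow _ _ hN
  have hw := ww_le (d + 1)
  have b3 : lgc (12 * d + 20 + 1) ≤ 6 * lgc (d + D + 1) :=
    (lgc_s d).trans (Nat.mul_le_mul_left _ (lgc_mono (by omega)))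
  have b4 : 12 * d + 20 + 1 ≤ 21 * (d + 1) := by omega
  have a1 : cR ≤ CR * T := by
    calc cR ≤ CR * (d + 1) * (D + 1) := h1
      _ = CR * ((d + 1) * (D + 1)) := by ring
      _ ≤ _ := Nat.mul_le_mul_left _ hDT
  have a2 : cU ≤ CU * T := by
    calc cU ≤ CU * (D + 1) := h2
      _ ≤ CU * ((d + 1) * (D + 1)) := Nat.mul_le_mul_left _ (Nat.le_mul_of_pos_left _ (by omega))
      _ ≤ _ := Nat.mul_le_mul_left _ hDT
  have a3 : cP ≤ CP * 446 * T := by
    calc cP ≤ CP * (ww (d + 1) + (12 * d + 20 + 1) ^ 2) := h3
      _ ≤ CP * (5 * (d + 1) ^ 3 + 441 * (d + 1) ^ 3) := by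
        apply Nat.mul_le_mul_left
        have : (12 * d + 20 + 1) ^ 2 ≤ 441 * (d + 1) ^ 2 := by nlinarith
        omega
      _ = CP * 446 * (d + 1) ^ 3 := by ring
      _ ≤ CP * 446 * T := Nat.mul_le_mul_left _ hNT
  have aux : ∀ C k c : ℕ, k ≤ kD + kL + kS + 2 →
      c ≤ C * (lgc (12 * d + 20 + 1) ^ k * ((12 * d + 20 + 1) ^ 3 + (12 * d + 20 + 1) * p)) →
      c ≤ C * (6 ^ k * 9261) * T := by
    intro C k c hk hc
    calc c ≤ C * (lgc (12 * d + 20 + 1) ^ k * ((12 * d + 20 + 1) ^ 3 +
          (12 * d + 20 + 1) * p)) := hc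
      _ ≤ C * ((6 * lgc (d + D + 1)) ^ k * ((21 * (d + 1)) ^ 3 + (21 * (d + 1)) * (D + 1))) := by
        gcongr
        omega
      _ ≤ C * ((6 * lgc (d + D + 1)) ^ k * (9261 * Q)) := by
        apply Nat.mul_le_mul_left
        apply Nat.mul_le_mul_left
        have i1 : (21 * (d + 1)) ^ 3 = 9261 * (d + 1) ^ 3 := by ring
        have i2 : 21 * (d + 1) * (D + 1) = 21 * ((d + 1) * (D + 1)) := by ring
        rw [i1, i2, hQ]
        omega
      _ = C * (6 ^ k * 9261) * (lgc (d + D + 1) ^ k * Q) := by
        rw [mul_pow]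
        ring
      _ ≤ _ := Nat.mul_le_mul_left _ (hpT k hk)
  have a4 := aux CD kD cD (by omega) h4
  have a6 := aux CS kS cS (by omega) h6
  have a5 : cL ≤ CL * (2 * 6 ^ kL * 9261) * T := by
    have b1 : e + 1 ≤ 2 * lgc (d + D + 1) := by
      have := lgc_mono (show d ≤ d + D + 1 by omega)
      omega
    have b2 : lgc p ≤ lgc (d + D + 1) := lgc_mono (by omega)
    calc cL ≤ CL * ((e + 1) * lgc p * lgc (12 * d + 20 + 1) ^ kL * (12 * d + 20 + 1) ^ 3) := h5
      _ ≤ CL * ((2 * lgc (d + D + 1)) * (lgc (d + D + 1)) * (6 * lgc (d + D + 1)) ^ kL *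
          (21 * (d + 1)) ^ 3) := by
        gcongr
      _ = CL * (2 * 6 ^ kL * 9261) * (lgc (d + D + 1) ^ (kL + 2) * (d + 1) ^ 3) := by
        rw [mul_pow, mul_pow]
        ring
      _ ≤ CL * (2 * 6 ^ kL * 9261) * (lgc (d + D + 1) ^ (kL + 2) * Q) :=
        Nat.mul_le_mul_left _ (Nat.mul_le_mul_left _ hNQ)
      _ ≤ _ := Nat.mul_le_mul_left _ (hpT (kL + 2) (by omega))
  have a7 : cB ≤ (CB * 20 + 50) * T := h7.trans (Nat.mul_le_mul_left _ hNT)
  have a8 : 6000 * ((d + 1) * (d + 1)) ≤ 6000 * T := by
    have : (d + 1) * (d + 1) = (d + 1) ^ 2 := by ring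
    omega
  have a9 : 300 * ((n + 1) * (n + 1)) ≤ 300 * T := by
    have : (n + 1) * (n + 1) ≤ (d + 1) * (d + 1) := Nat.mul_le_mul (by omega) (by omega)
    have : (d + 1) * (d + 1) = (d + 1) ^ 2 := by ring
    omega
  have a10 : 300 ≤ 300 * T := by omega
  have e' : (CR + CU + CP * 446 + CD * (6 ^ kD * 9261) + CL * (2 * 6 ^ kL * 9261) +
        CS * (6 ^ kS * 9261) + CB * 20 + 6650) * T = CR * T + CU * T + CP * 446 * T +
        CD * (6 ^ kD * 9261) * T + CL * (2 * 6 ^ kL * 9261) * T + CS * (6 ^ kS * 9261) * T +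
        (CB * 20 + 50) * T + 6000 * T + 300 * T + 300 * T := by
    ring
  rw [e']
  linarith only [a1, a2, a3, a4, a5, a6, a7, a8, a9, a10]

/-- the degrees of the output -/
theorem degB_out {K : Type} [Field K] (d : ℕ)
    (bk : List K × List (List (List K)) → List (List (List K)))
    (out : List (List K × (List (List (List K)) × List Unit)))
    (hs : (out.map (fun o => o.1.length * o.2.1.length)).sum ≤ d)
    (hb : ∀ o ∈ out, ∀ x ∈ bk (o.1, o.2.1), IsHom o.2.1.length x) :
    DegB d (out.map (outF bk)) := by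
  intro o' ho'
  rw [List.mem_map] at ho'
  obtain ⟨o, ho, rfl⟩ := ho'
  refine ⟨o.2.1.length, ?_, hb o ho⟩
  have h := (mem_le_sum out (fun o => o.1.length * o.2.1.length) o ho).trans hs
  rw [mul_comm]
  exact h

end FA

end

end SFD

open SFD

/- THE MAIN PROGRAM with the list un D (p ≤ D) as input. This is SpecFacA of SpecB3.lean with three changes: (1) the input contains un D and p ≤ D replaces p < d ^ 2 (in SpecFacA the list of length (d+1)(d+2) was computed from H and used only for SpecPar and SpecUp; now use un D there); (2) the cost bound is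
C * lgc (d + D + 1) ^ k * ((d + 1) ^ 3 + (d + 1) * (D + 1)) (SpecPar costs C (d+1)(D+1), SpecUp C (D+1), SpecRadS and SpecSplit2 contain (s+1) p with p ≤ D); (3) in addition DegB d of the output: the shape clause and the sum clause of SpecSplit2 give j * q.length ≤ d for every entry (q, (F, m)), j = F.length,
and SpecBack gives IsHom j for the rows of the result. COPY the proof of specFacA from Pool/Agent/H330AB/JF1.lean on origin/main (about 1500 lines) and adapt it. -/
/-- TARGET -/
theorem specFacD (h1 : SpecPar) (h2 : SpecPrep) (h3 : SpecRadS) (h4 : SpecL) (h5 : SpecSplit2) (h6 : SpecBack) (h7 : StmtSepCount) (h8 : SpecUp)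
    (h0 : SpecUnits) : SpecFacD := by
  clear h0
  obtain ⟨wR, CR, hR⟩ := h1
  obtain ⟨wP, CP, hP⟩ := h2
  obtain ⟨wD, CD, kD, hD⟩ := h3
  obtain ⟨wL, CL, kL, hL⟩ := h4
  obtain ⟨wS, CS, kS, hS⟩ := h5
  obtain ⟨wB, CB, hB⟩ := h6
  obtain ⟨wU, CU, hU⟩ := h8
  refine ⟨FA.P1 wR wU (FA.P2 wP (FA.P3 wD wL wS wB)),
    CR + CU + CP * 446 + CD * (6 ^ kD * 9261) + CL * (2 * 6 ^ kL * 9261) +
        CS * (6 ^ kS * 9261) + CB * 20 + 6650, kD + kL + kS + 2, ?_⟩
  intro K _ _ p d D rt H hp hchar hrt hH hd _ hle
  have hHl : H.length = d + 1 := hH.1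
  obtain ⟨r, e, hr, hr0, hn1, hn2, he, hval⟩ := (hR K p D d hp hchar hd).1 hle
  have hUv := (hU K p D hp hchar).1 hle
  have hlen : ∀ cs : Fin (d + 1) → K, (List.ofFn cs).length = d + 1 := fun cs => by simp
  constructor
  · intro ω
    obtain ⟨a, b, cs, G, as, g, cb, hω⟩ := FA.exists_rlist2 d (fit (R2 d) 0 ω) (length_fit _ _ _)
    have c1 := FA.cost_P1 wR wU (FA.P2 wP (FA.P3 wD wL wS wB)) (rt, ()) ((fun _ => 1), ())
      (un D) H ω d hHl
    rw [hval, hUv, hω, FA.val_cutP] at c1
    obtain ⟨q1, q2, q3, q4, q5⟩ := hP K a b d (12 * d + 20) H hH hd (by omega)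
    have c2 := FA.cost_P2 wP (FA.P3 wD wL wS wB) (rt, ()) ((fun _ => 1), ())
      (un r, (bits K p, un e)) (un p) (un (12 * d + 20)) a b
      (List.ofFn cs, (rows G, (List.ofFn as, (rows g, List.ofFn cb)))) H
    set A : List (List K) := (wP.val () (un (12 * d + 20), (a, (b, H)))).2 with hAdef
    obtain ⟨s1, s2, s3, s4, s5⟩ := hD K p (12 * d + 20) d rt (List.ofFn cs) A hp hchar hrt q2 hd
      q3 (hlen cs) (by omega)
    set S : List (List K) := wD.val (rt, ()) (un p, (List.ofFn cs, (un (12 * d + 20), A)))
      with hSdef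
    obtain ⟨m, B, l1, l2, l3, l4⟩ := hL K p e r (12 * d + 20) S.length rt S (cut2 s2 G)
      (cut1 s2 as) (cut2 s2 g) hp hchar hrt hr hr0 s1 rfl (by omega) s3
    have l5 := l2 (cut1 s2 cb)
    have l6 := l4 (cut1 s2 cb)
    set L : List K := List.ofFn (fun i => ∑ b : Fin m, (List.ofFn (cut1 s2 cb)).getD b 0 * B b i)
      with hLdef
    have hLl : L.length = S.length := by simp [hLdef]
    obtain ⟨t1, t2, t3, t4⟩ := hS K r p (12 * d + 20) d S.length rt (List.ofFn cs) A S L hp hchar
      hrt hr hr0 q2 rfl s1 s2 (by omega) q3 s3 hLl (by rw [hlen]) (by rw [hlen]; omega)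
    set out : List (List K × (List (List (List K)) × List Unit)) :=
      wS.val (rt, ()) (un r, (un p, (List.ofFn cs, (A, (S, L))))) with hout
    rw [← FA.cut_mat, ← FA.cut_mat, ← FA.cut_vec, ← FA.cut_vec] at l5 l6
    have c3 := FA.cost_P3 wD wL wS wB (rt, ()) ((fun _ => 1), ()) (un r) (bits K p, un e)
      (un p) (un (12 * d + 20)) a b (List.ofFn cs) (rows G) (List.ofFn as) (rows g)
      (List.ofFn cb) A S L out rfl l5 rfl
    have c4 := FA.back_sum CB d out (fun o => o.1.length) (fun o => o.2.1.length)
      (fun o => wB.cost () () (a, (b, (o.1, o.2.1)))) (fun o ho => by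
        obtain ⟨u1, u2, u3⟩ := t2 o ho
        exact (hB K a b o.2.1.length o.1 o.2.1 u2 rfl u1 u3).2.2) (fun o ho => by
        obtain ⟨u1, u2, u3⟩ := t2 o ho
        exact ⟨u1, u2⟩) t3
    have fs := FA.final_sum CR CU CP CD CL CS CB kD kL kS d D S.length e p _ _ _ _ _ _ _ s2 hle he
      (hR K p D d hp hchar hd).2 (hU K p D hp hchar).2 q5 s5 l6 t4 c4
    rw [mul_assoc]
    omega
  · refine ⟨e, hn1, hn2, ?_⟩
    intro a b cs G as g
    obtain ⟨q1, q2, q3, q4, q5⟩ := hP K a b d (12 * d + 20) H hH hd (by omega)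
    set c : K := (wP.val () (un (12 * d + 20), (a, (b, H)))).1 with hcdef
    set A : List (List K) := (wP.val () (un (12 * d + 20), (a, (b, H)))).2 with hAdef
    obtain ⟨s1, s2, s3, s4, s5⟩ := hD K p (12 * d + 20) d rt (List.ofFn cs) A hp hchar hrt q2 hd
      q3 (hlen cs) (by omega)
    set S : List (List K) := wD.val (rt, ()) (un p, (List.ofFn cs, (un (12 * d + 20), A)))
      with hSdef
    obtain ⟨m, B, l1, l2, l3, l4⟩ := hL K p e r (12 * d + 20) S.length rt S (cut2 s2 G)
      (cut1 s2 as) (cut2 s2 g) hp hchar hrt hr hr0 s1 rfl (by omega) s3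
    have hgood : GoodF (p ^ e) d (bcp (AlgebraicClosure K) (hom H))
          (algebraMap K (AlgebraicClosure K) a) (algebraMap K (AlgebraicClosure K) b)
          (fun j => algebraMap K (AlgebraicClosure K) (cs j))
          (fun i j => algebraMap K (AlgebraicClosure K) (G i j))
          (fun j => algebraMap K (AlgebraicClosure K) (as j))
          (fun j i => algebraMap K (AlgebraicClosure K) (g j i)) →
        c ≠ 0 ∧ (List.ofFn cs).Nodup ∧ mbiv S ∣ mbiv A ∧ mbiv A ∣ mbiv S ^ d ∧
        ∃ φ : Fin S.length → PowerSeries (AlgebraicClosure K),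
          Rts (bcp (AlgebraicClosure K) (mbiv S)) φ ∧
          GoodP (12 * d + 20) (p ^ e) (bcp (AlgebraicClosure K) (mbiv S)) φ
            (fun i j => algebraMap K (AlgebraicClosure K) (cut2 s2 G i j))
            (fun j => algebraMap K (AlgebraicClosure K) (cut1 s2 as j))
            (fun j i => algebraMap K (AlgebraicClosure K) (cut2 s2 g j i)) := by
      intro hG
      obtain ⟨m1, m2, T, m3, m4, m5, m6, m7, m8, m9⟩ := FA.mathF (p ^ e) d H A a b c cs G as g
        q2 q1 (fun h => q4 h) hG
      have hnd : (List.ofFn cs).Nodup := List.nodup_ofFn.2 m2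
      have hST := s4 (AlgebraicClosure K) T d hnd m3 m4 m6 m7 (by
        intro c hc
        rw [List.mem_ofFn] at hc
        obtain ⟨j, rfl⟩ := hc
        exact m8 j)
      have hTn : T.natDegree = S.length := by
        rw [← hST, FA.natDegree_bcp _ (FA.mbiv_monic S), FA.natDegree_mbiv]
      have m10 := m9 S.length s2 hTn
      rw [← hST] at m6 m7 m10
      refine ⟨m1, hnd, (FA.bcp_dvd (FA.mbiv_monic S)).1 m6, ?_, m10⟩
      rw [← FA.bcp_pow, FA.bcp_dvd (FA.mbiv_monic A)] at m7
      exact m7
    by_cases hφ : ∃ φ : Fin S.length → PowerSeries (AlgebraicClosure K),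
          Rts (bcp (AlgebraicClosure K) (mbiv S)) φ ∧
          GoodP (12 * d + 20) (p ^ e) (bcp (AlgebraicClosure K) (mbiv S)) φ
            (fun i j => algebraMap K (AlgebraicClosure K) (cut2 s2 G i j))
            (fun j => algebraMap K (AlgebraicClosure K) (cut1 s2 as j))
            (fun j i => algebraMap K (AlgebraicClosure K) (cut2 s2 g j i))
    · obtain ⟨φ, hφ1, hφ2⟩ := hφ
      obtain ⟨l5, l6⟩ := l3 (AlgebraicClosure K) φ hφ1 hφ2
      refine ⟨fun cb => ∀ i i', Blk (bcp (AlgebraicClosure K) (mbiv S)) φ i i' ↔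
        (∑ b : Fin m, (List.ofFn (fun j => algebraMap K (AlgebraicClosure K)
            (cut1 s2 cb j))).getD b 0 *
          (∑ j : Fin S.length, algebraMap K (AlgebraicClosure K) (B b j) *
            PowerSeries.constantCoeff (φ i) ^ (j : ℕ)) =
        ∑ b : Fin m, (List.ofFn (fun j => algebraMap K (AlgebraicClosure K)
            (cut1 s2 cb j))).getD b 0 *
          (∑ j : Fin S.length, algebraMap K (AlgebraicClosure K) (B b j) *
            PowerSeries.constantCoeff (φ i') ^ (j : ℕ))), ?_, ?_⟩
      · intro T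
        exact FA.sepCount T S.length d s2 (fun c => ∀ i i',
          Blk (bcp (AlgebraicClosure K) (mbiv S)) φ i i' ↔
          (∑ b : Fin m, (List.ofFn (fun j => c j)).getD b 0 *
            (∑ j : Fin S.length, algebraMap K (AlgebraicClosure K) (B b j) *
              PowerSeries.constantCoeff (φ i) ^ (j : ℕ)) =
          ∑ b : Fin m, (List.ofFn (fun j => c j)).getD b 0 *
            (∑ j : Fin S.length, algebraMap K (AlgebraicClosure K) (B b j) *
              PowerSeries.constantCoeff (φ i') ^ (j : ℕ))))
          (fun T' => h7 (AlgebraicClosure K) S.length m (bcp (AlgebraicClosure K) (mbiv S)) φ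
            (fun b i => ∑ j : Fin S.length, algebraMap K (AlgebraicClosure K) (B b j) *
              PowerSeries.constantCoeff (φ i) ^ (j : ℕ)) T' l1 hφ1 l5 l6)
      · intro cb hsep hG
        obtain ⟨g1, g2, g3, g4, -⟩ := hgood hG
        have l7 := l2 (cut1 s2 cb)
        set L : List K := List.ofFn (fun i => ∑ b : Fin m,
          (List.ofFn (cut1 s2 cb)).getD b 0 * B b i) with hLdef
        have hLl : L.length = S.length := by simp [hLdef]
        obtain ⟨t1, t2, t3, t4⟩ := hS K r p (12 * d + 20) d S.length rt (List.ofFn cs) A S L hp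
          hchar hrt hr hr0 q2 rfl s1 s2 (by omega) q3 s3 hLl (by rw [hlen])
          (by rw [hlen]; omega)
        set out : List (List K × (List (List (List K)) × List Unit)) :=
          wS.val (rt, ()) (un r, (un p, (List.ofFn cs, (A, (S, L))))) with hout
        have hM := t1 (AlgebraicClosure K) φ hφ1 g3 g4 g2 (by
          intro i i'
          rw [hsep i i', hLdef, FA.comb_eval, FA.comb_eval])
        rw [← FA.cut_mat, ← FA.cut_mat, ← FA.cut_vec, ← FA.cut_vec] at l7
        have e1 : fit (R2 d) 0 (rlist2 a b cs G as g cb) = rlist2 a b cs G as g cb := by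
          have := FA.fit_self 0 (rlist2 a b cs G as g cb)
          rwa [FA.rlist2_length] at this
        have hv : (FA.P1 wR wU (FA.P2 wP (FA.P3 wD wL wS wB))).val (rt, ())
            (un D, (H, rlist2 a b cs G as g cb)) =
            List.map (FA.outF (fun x => wB.val () (a, (b, x)))) out := by
          rw [FA.val_P1 _ _ _ _ _ _ _ d hHl, e1, FA.val_cutP, hval, hUv, FA.val_P2, if_neg g1]
          exact FA.val_P3 wD wL wS wB (rt, ()) (un r) (bits K p, un e)
            (un p) (un (12 * d + 20)) a b (List.ofFn cs) (rows G) (List.ofFn as) (rows g)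
            (List.ofFn cb) A S L out rfl l7 rfl
        rw [hv]
        have hbk : ∀ o ∈ out, ((fun x => wB.val () (a, (b, x)) :
              List K × List (List (List K)) → List (List (List K))) (o.1, o.2.1)).length =
              o.1.length ∧
            (∀ x ∈ (fun x => wB.val () (a, (b, x)) :
              List K × List (List (List K)) → List (List (List K))) (o.1, o.2.1),
              IsHom o.2.1.length x) ∧
            ∀ ζ : AlgebraicClosure K, aeval ζ (mpol o.1) = 0 →
              hz ζ ((fun x => wB.val () (a, (b, x)) :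
                List K × List (List (List K)) → List (List (List K))) (o.1, o.2.1)) =
              sub (-(algebraMap K (AlgebraicClosure K) a))
                (-(algebraMap K (AlgebraicClosure K) b)) (fz ζ o.2.1) := by
          intro o ho
          obtain ⟨u1, u2, u3⟩ := t2 o ho
          obtain ⟨b1, b2, b3⟩ := hB K a b o.2.1.length o.1 o.2.1 u2 rfl u1 u3
          have hMo := hM.1 o ho
          obtain ⟨b4, b5⟩ := b2 (AlgebraicClosure K) hMo.2.1
            (fun ζ hζ => (hMo.2.2.2.2.2 ζ hζ).2)
          exact ⟨b1, b4, b5⟩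
        exact ⟨FA.facAbs H A a b c _ out hM g1 (q4 g1).1 hbk,
          FA.degB_out d _ out t3 (fun o ho => (hbk o ho).2.1)⟩
    · refine ⟨fun _ => True, ?_, ?_⟩
      · intro T
        have : IsEmpty {c : Fin d → T // ¬ True} := ⟨fun x => x.2 trivial⟩
        rw [Nat.card_of_isEmpty, zero_mul]
        exact Nat.zero_le _
      · intro cb _ hG
        exact absurd (hgood hG).2.2.2.2 hφ

end Pool.Agent.H330AB.JL1
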