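import Pool.Agent.H330AB.SpecC1
import Pool.Agent.H330FB.JE8
set_option autoImplicit false
noncomputable section
namespace Pool.Agent.H330AB.JL10
open Polynomial Pool.Agent.H330FB
namespace L10

open Pool.Agent.H330FB.JE8

section prog
variable {F : Type} [Field F] [DecidableEq F]
variable {s : List (Ty × Ty)} {a b c d e g σ τ : Ty}

theorem un_eq (l : List Unit) : l = un l.length := E8.un_eq l
theorem length_un (n : ℕ) : (un n).length = n := E8.length_un n

/-- the tail in unary -/
def tlP : Pr s (.list a) Un := onL .id .nil (.comp (.comp .snd .snd) (E8.mapQ .star))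

theorem val_tlP (v : SV F s) (x : Ty.D F (.list a)) :
    (tlP : Pr s (.list a) _).val v x = un (List.length x - 1) := by
  cases x with
  | nil => simp [tlP, un]
  | cons h t =>
    simp only [tlP, val_onL, val_id, lcase_cons, val_comp, val_snd, E8.val_mapQ, List.length_cons,
      Nat.add_sub_cancel]
    exact List.map_const' ..

theorem cost_tlP (v : SV F s) (k : SC F s) (x : Ty.D F (.list a)) :
    (tlP : Pr s (.list a) _).cost v k x ≤ 15 * List.length x + 20 := by
  cases x with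
  | nil => simp [tlP]
  | cons h t =>
    have h1 := E8.cost_mapQ (s := s) (a := a) (.star) v k t
    have h2 := E8.sum_map_le (fun y : Ty.D F a => (Pr.star : Pr s a .unit).cost v k y + 14) 15 t
      (fun y _ => by simp)
    simp only [tlP, cost_onL, val_id, cost_id, lcase_cons, cost_comp, cost_snd, val_comp, val_snd,
      List.length_cons]
    change (E8.mapQ (.star : Pr s a .unit)).cost v k t ≤
      (List.map (fun y : Ty.D F a => (Pr.star : Pr s a .unit).cost v k y + 14) t).sum + 8 at h1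
    omega

/-- product of numbers in unary -/
def mulP : Pr s (.prod Un Un) Un := .comp (mapP (c := Un) (a := .unit) .fst) flatP

theorem val_mulP (v : SV F s) (m n : ℕ) :
    (mulP : Pr s (.prod Un Un) Un).val (F := F) v (un m, un n) = un (m * n) := by
  have h1 : (mulP : Pr s (.prod Un Un) Un).val (F := F) v (un m, un n) =
      List.flatten (List.map (fun _ : Unit => un m) (un n)) := by
    simp [mulP]
  rw [h1]
  refine E8.un_eq' ?_
  rw [List.length_flatten, List.map_map]
  have : (List.length ∘ fun _ : Unit => un m) = fun _ => m := by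
    funext x; simp [length_un]
  rw [this, un, List.map_const', List.length_replicate, List.sum_replicate, smul_eq_mul]
  ring

theorem cost_mulP (v : SV F s) (k : SC F s) (m n : ℕ) :
    (mulP : Pr s (.prod Un Un) Un).cost (F := F) v k (un m, un n) ≤
      100 * ((m + 1) * (n + 1)) := by
  have h1 := cost_mapP_le (s := s) (F := F) (c := .list .unit) (a := .unit) (b := .list .unit)
    .fst v k (un m, un n) 1 (fun _ _ => by simp)
  have h2 := cost_flatP (s := s) (F := F) (a := .unit) v k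
    (List.map (fun _ : Unit => un m) (un n)) m
    (fun y hy => by
      obtain ⟨_, _, rfl⟩ := List.mem_map.1 hy
      exact (length_un m).le)
  change _ ≤ _ * (un n).length + _ at h1
  change _ ≤ _ * (List.map (fun _ : Unit => un m) (un n)).length + _ at h2
  rw [List.length_map] at h2
  rw [length_un] at h1 h2
  simp only [mulP, cost_comp, val_mapP, val_fst]
  nlinarith [h1, h2]

/-- `c` copies -/
def repP : ℕ → Pr s (.list a) (.list a)
  | 0 => .nil
  | n + 1 => .comp (.pair .id (repP n)) appP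

theorem length_repP (n : ℕ) (v : SV F s) (x : Ty.D F (.list a)) :
    List.length ((repP n : Pr s (.list a) _).val v x) = n * List.length x := by
  induction n with
  | zero => simp [repP]
  | succ n ih =>
    simp only [repP, val_comp, val_pair, val_id, val_appP, List.length_append, ih]
    ring

theorem cost_repP (n : ℕ) (v : SV F s) (k : SC F s) (x : Ty.D F (.list a)) :
    (repP n : Pr s (.list a) _).cost v k x ≤ n * (20 * List.length x + 7) + 1 := by
  induction n with
  | zero => simp [repP]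
  | succ n ih =>
    have h := cost_appP (s := s) v k (x, (repP n : Pr s (.list a) _).val v x)
    simp only [repP, cost_comp, cost_pair, cost_id, val_pair, val_id]
    simp only at h
    rw [Nat.succ_mul]
    omega

/-- the program computes the number `n` in unary from `x` with time at most `c` -/
def Cu (p : Pr [] g Un) (x : Ty.D F g) (n c : ℕ) : Prop :=
  p.val () x = un n ∧ p.cost () () x ≤ c

theorem cu_one (x : Ty.D F g) : Cu (.comp (.pair .star .nil) .cons) x 1 4 :=
  ⟨by simp [un], by simp⟩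

theorem cu_rep {p : Pr [] g Un} {x : Ty.D F g} {n c : ℕ} (h : Cu p x n c) (r : ℕ) :
    Cu (.comp p (repP r)) x (r * n) (c + r * (20 * n + 7) + 1) := by
  obtain ⟨h1, h2⟩ := h
  have h3 := length_repP (F := F) (s := []) (a := .unit) r () (un n)
  have h4 := cost_repP (F := F) (s := []) (a := .unit) r () () (un n)
  change _ = r * (un n).length at h3
  change _ ≤ r * (20 * (un n).length + 7) + 1 at h4
  rw [length_un] at h3 h4
  constructor
  · rw [val_comp, h1]
    exact E8.un_eq' h3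
  · rw [cost_comp, h1]
    omega

theorem cu_add {p q : Pr [] g Un} {x : Ty.D F g} {n c m e : ℕ} (h : Cu p x n c)
    (h' : Cu q x m e) : Cu (.comp (.pair p q) appP) x (n + m) (c + e + 20 * n + 6) := by
  obtain ⟨h1, h2⟩ := h
  obtain ⟨h3, h4⟩ := h'
  have h5 := cost_appP (F := F) (s := []) (a := .unit) () () (un n, un m)
  change _ ≤ 20 * (un n).length + 5 at h5
  rw [length_un] at h5
  constructor
  · rw [val_comp, val_pair, h1, h3, val_appP]
    refine E8.un_eq' ?_
    change (un n ++ un m).length = _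
    rw [List.length_append, length_un, length_un]
  · rw [cost_comp, cost_pair, val_pair, h1, h3]
    omega

theorem cu_mul {p q : Pr [] g Un} {x : Ty.D F g} {n c m e : ℕ} (h : Cu p x n c)
    (h' : Cu q x m e) :
    Cu (.comp (.pair p q) mulP) x (n * m) (c + e + 100 * ((n + 1) * (m + 1)) + 1) := by
  obtain ⟨h1, h2⟩ := h
  obtain ⟨h3, h4⟩ := h'
  have h5 := cost_mulP (F := F) (s := []) () () n m
  constructor
  · rw [val_comp, val_pair, h1, h3, val_mulP]
  · rw [cost_comp, cost_pair, val_pair, h1, h3]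
    omega

theorem cu_lg {p : Pr [] g Un} {x : Ty.D F g} {n c : ℕ} (h : Cu p x n c) :
    Cu (.comp p lgP) x (Nat.clog 2 n) (c + 120 * n + 20) := by
  obtain ⟨h1, h2⟩ := h
  have h3 := val_lgP (F := F) (s := []) (a := .unit) () (un n)
  have h4 := cost_lgP (F := F) (s := []) (a := .unit) () () (un n)
  change _ = Nat.clog 2 (un n).length at h3
  change _ ≤ 120 * (un n).length + 20 at h4
  rw [length_un] at h3 h4
  constructor
  · rw [val_comp, h1]
    exact E8.un_eq' h3
  · rw [cost_comp, h1]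
    omega

theorem cu_tl (H : List (List F)) (n : ℕ) (hH : H.length = n + 1) :
    Cu (g := Ma) (F := F) tlP H n (15 * (n + 1) + 20) := by
  constructor
  · have h := val_tlP (F := F) (s := []) (a := Po) () H
    refine h.trans ?_
    change un (H.length - 1) = un n
    rw [hH]
    rfl
  · have h := cost_tlP (F := F) (s := []) (a := Po) () () H
    change _ ≤ 15 * H.length + 20 at h
    rw [hH] at h
    exact h

theorem cu_EE (H : List (List F)) (n : ℕ) (hH : H.length = n + 1) :
    Cu (g := Ma) (F := F) (.comp E8.eP E8.dblP) H (EE n)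
      (100000 * (n + 1) + 1000 + 20 * 2 ^ jj n + (20 * 2 ^ jj n + 8)) := by
  constructor
  · rw [val_comp, E8.m1 H n hH]
    exact E8.m2 n
  · rw [cost_comp, E8.m1 H n hH]
    have h1 := E8.cost_eP (F := F) (s := []) (a := Po) () () H n hH
    have h2 := E8.cost_dbl_un (F := F) (2 ^ jj n)
    omega

/-- the number one -/
def oneP : Pr [] Ma Un := .comp (.pair .star .nil) .cons
/-- `EE d` -/
def EP : Pr [] Ma Un := .comp E8.eP E8.dblP
/-- `3 lgc d + 10` -/
def aP : Pr [] Ma Un :=
  .comp (.pair (.comp (.comp (.pair (.comp tlP lgP) oneP) appP) (repP 3)) (.comp oneP (repP 10)))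
    appP
/-- `2 d + 2` -/
def bP : Pr [] Ma Un := .comp (.pair (.comp tlP (repP 2)) (.comp oneP (repP 2))) appP
/-- `Rn d` -/
def RnP : Pr [] Ma Un :=
  .comp (.pair (.comp (.pair (.comp (.pair (.comp oneP (repP 9)) (.comp (.pair aP tlP) mulP)) appP)
    bP) appP) (.comp (.pair bP tlP) mulP)) appP
/-- `RR d` -/
def RRP : Pr [] Ma Un :=
  .comp (.pair (.comp (.pair (.comp EP (repP 8)) EP) mulP) (.comp (.pair EP RnP) mulP)) appP

theorem RR_le {d : ℕ} (hd : 1 ≤ d) : RR d ≤ 200000 * (lgc d ^ 2 * (d + 1) ^ 2) := by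
  have h1 := E8.EE_le hd
  have h2 := E8.Rn_le hd
  have h3 := E8.lgc_pos d
  unfold RR
  have h4 : 8 * EE d * EE d ≤ 8 * (112 * lgc d) * (112 * lgc d) :=
    Nat.mul_le_mul (Nat.mul_le_mul_left _ h1) h1
  have h5 : EE d * Rn d ≤ (112 * lgc d) * (40 * (lgc d * (d * d))) := Nat.mul_le_mul h1 h2
  have h6 : 8 * (112 * lgc d) * (112 * lgc d) = 100352 * (lgc d ^ 2 * 1) := by ring
  have h7 : (112 * lgc d) * (40 * (lgc d * (d * d))) = 4480 * (lgc d ^ 2 * (d * d)) := by ring
  have h8 : lgc d ^ 2 * 1 ≤ lgc d ^ 2 * (d + 1) ^ 2 := Nat.mul_le_mul_left _ (by nlinarith)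
  have h9 : lgc d ^ 2 * (d * d) ≤ lgc d ^ 2 * (d + 1) ^ 2 := Nat.mul_le_mul_left _ (by nlinarith)
  omega

theorem cu_RR (H : List (List F)) (d : ℕ) (hd : 1 ≤ d) (hH : H.length = d + 1) :
    Cu (F := F) RRP H (RR d) (10 ^ 9 * (lgc d ^ 2 * (d + 1) ^ 2)) := by
  have hl := E8.lgc_pos d
  have hE := E8.EE_le hd
  have hR := E8.Rn_le hd
  have c1 : Cu (F := F) oneP H 1 4 := cu_one (F := F) (g := Ma) H
  have c2 := cu_tl (F := F) H d hH
  have c3 : Cu (F := F) EP H (EE d) _ := cu_EE H d hH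
  have c4 := cu_add (cu_rep (cu_add (cu_lg c2) c1) 3) (cu_rep c1 10)
  have c5 := cu_add (cu_rep c2 2) (cu_rep c1 2)
  have c6 := cu_add (cu_add (cu_add (cu_rep c1 9) (cu_mul c4 c2)) c5) (cu_mul c5 c2)
  have c7 := cu_add (cu_mul (cu_rep c3 8) c3) (cu_mul c3 c6)
  have e1 : 9 * 1 + (3 * (Nat.clog 2 d + 1) + 10 * 1) * d + (2 * d + 2 * 1) +
      (2 * d + 2 * 1) * d = Rn d := by
    unfold Rn lgc
    ring
  have hcl : Nat.clog 2 d + 1 = lgc d := rfl
  rw [e1] at c7
  have e2 : 8 * EE d * EE d + EE d * Rn d = RR d := rfl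
  rw [e2] at c7
  obtain ⟨v7, k7⟩ := c7
  refine ⟨v7, k7.trans ?_⟩
  clear v7 k7 c1 c2 c3 c4 c5 c6 hH H e1 e2
  have hj : 2 ^ jj d ≤ EE d := by
    rw [E8.EE_eq]
    omega
  generalize 2 ^ jj d = J at *
  generalize EE d = E at *
  generalize Rn d = R at *
  have hcl' : Nat.clog 2 d = lgc d - 1 := by omega
  rw [hcl']
  generalize lgc d = L at *
  obtain ⟨l, rfl⟩ : ∃ l, L = l + 1 := ⟨L - 1, by omega⟩
  rw [Nat.add_sub_cancel]
  set U := (l + 1) ^ 2 * (d + 1) ^ 2 with hU
  have u1 : (l + 1) ^ 2 ≤ U := by rw [hU]; exact Nat.le_mul_of_pos_right _ (by positivity)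
  have u2 : (d + 1) ^ 2 ≤ U := by rw [hU]; exact Nat.le_mul_of_pos_left _ (by positivity)
  have u3 : (l + 1) * (d + 1) ≤ U := by
    rw [hU, pow_two, pow_two]
    exact Nat.mul_le_mul (Nat.le_mul_self _) (Nat.le_mul_self _)
  have u4 : l + 1 ≤ U := (Nat.le_self_pow (by norm_num) _).trans u1
  have u5 : d + 1 ≤ U := (Nat.le_self_pow (by norm_num) _).trans u2
  have u6 : (l + 1) * (d * d) ≤ U := by
    rw [hU]
    exact Nat.mul_le_mul (Nat.le_self_pow (by norm_num) _) (by nlinarith)
  have u7 : E ≤ 112 * U := hE.trans (Nat.mul_le_mul_left _ u4)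
  have m1 : (3 * (l + 1) + 10 * 1 + 1) * (d + 1) ≤ 14 * U := by
    have : (3 * (l + 1) + 10 * 1 + 1) * (d + 1) = 3 * ((l + 1) * (d + 1)) + 11 * (d + 1) := by ring
    rw [this]
    omega
  have m2 : (2 * d + 2 * 1 + 1) * (d + 1) ≤ 3 * U := by
    have : (2 * d + 2 * 1 + 1) * (d + 1) ≤ 3 * (d + 1) ^ 2 := by nlinarith
    omega
  have m3 : (8 * E + 1) * (E + 1) ≤ 200000 * U := by
    have h1 : (8 * E + 1) * (E + 1) ≤ (8 * (112 * (l + 1)) + (l + 1)) *
        (112 * (l + 1) + (l + 1)) := Nat.mul_le_mul (by omega) (by omega)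
    have h2 : (8 * (112 * (l + 1)) + (l + 1)) * (112 * (l + 1) + (l + 1)) =
      101361 * (l + 1) ^ 2 := by ring
    omega
  have m4 : (E + 1) * (R + 1) ≤ 5000 * U := by
    have h1 : (E + 1) * (R + 1) ≤ (112 * (l + 1) + (l + 1)) *
        (40 * ((l + 1) * (d * d)) + (l + 1)) := Nat.mul_le_mul (by omega) (by omega)
    have h2 : (112 * (l + 1) + (l + 1)) * (40 * ((l + 1) * (d * d)) + (l + 1)) =
      (l + 1) ^ 2 * (4520 * (d * d) + 113) := by ring
    have h3 : (l + 1) ^ 2 * (4520 * (d * d) + 113) ≤ (l + 1) ^ 2 * (5000 * (d + 1) ^ 2) :=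
      Nat.mul_le_mul_left _ (by nlinarith)
    have h4 : (l + 1) ^ 2 * (5000 * (d + 1) ^ 2) = 5000 * U := by rw [hU]; ring
    omega
  have m5 : 8 * E * E ≤ 200000 * U := by nlinarith [m3]
  have m6 : (3 * (l + 1) + 10 * 1) * d ≤ 14 * U := by nlinarith [m1]
  have m7 : (2 * d + 2 * 1) * d ≤ 3 * U := by nlinarith [m2]
  generalize (3 * (l + 1) + 10 * 1 + 1) * (d + 1) = X1 at *
  generalize (2 * d + 2 * 1 + 1) * (d + 1) = X2 at *
  generalize (8 * E + 1) * (E + 1) = X3 at *
  generalize (E + 1) * (R + 1) = X4 at *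
  generalize 8 * E * E = X5 at *
  generalize (3 * (l + 1) + 10 * 1) * d = X6 at *
  generalize (2 * d + 2 * 1) * d = X7 at *
  clear_value U
  omega

end prog

end L10

namespace L10

open Pool.Agent.H330FB.JE8

/-- the three numbers -/
def unitsP : Pr [] Ma (.prod (.prod Un Un) Un) :=
  .pair (.pair (.comp (.pair tlP tlP) mulP) tlP) RRP

/-- one factor; input `(context, (g, multiplicity))` -/
def fP (ia : Pr [] (.prod (.prod Po (.prod Po Un)) (.prod (.prod Un Un) (.prod Ma Po)))
    (.prod Po ML)) :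
    Pr [] (.prod (.prod (.prod Po (.prod Po Un)) (.prod (.prod Un Un) Po)) (.prod Ma Un))
      (.prod Po (.prod ML Un)) :=
  lt (.comp (.pair (.comp .fst .fst) (.pair (.comp .fst (.comp .snd .fst))
      (.pair (.comp .snd .fst) (.comp .fst (.comp .snd .snd))))) ia)
    (.pair (.comp .snd .fst) (.pair (.comp .snd .snd) (.comp .fst (.comp .snd .snd))))

/-- the main program -/
def smP (mc : Pr [] (.prod Po (.prod Ma Po)) (.list (.prod Ma Un)))
    (ia : Pr [] (.prod (.prod Po (.prod Po Un)) (.prod (.prod Un Un) (.prod Ma Po)))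
      (.prod Po ML)) (pr : Pr [] (.prod Un Un) (.prod Un (.prod Po Un))) :
    Pr [] (.prod (.prod Po Un) (.prod Ma Po)) (.list (.prod Po (.prod ML Un))) :=
  lt (.comp (.comp .snd .fst) unitsP)
   (lt (.comp (.comp .snd .fst) pr)
    (lt (.comp (.pair (.comp .fst (.comp .snd .snd))
        (.comp .fst (.comp .fst (.comp .snd .snd)))) splitP)
      (.comp (.pair
        (.pair (.pair (.comp .fst (.comp .fst (.comp .fst (.comp .fst .fst))))
            (.pair (.comp .fst (.comp .snd (.comp .snd .fst)))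
              (.comp .fst (.comp .fst (.comp .fst (.comp .fst .snd))))))
          (.pair (.comp .fst (.comp .fst (.comp .snd .fst))) (.comp .snd .snd)))
        (.comp (.pair (.comp .fst (.comp .fst (.comp .fst (.comp .fst .fst))))
          (.pair (.comp .fst (.comp .fst (.comp .fst (.comp .snd .fst)))) (.comp .snd .fst))) mc))
        (mapP (fP ia)))))

section vals
variable {F : Type} [Field F] [DecidableEq F]

theorem val_units (H : List (List F)) (d : ℕ) (hd : 1 ≤ d) (hH : H.length = d + 1) :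
    unitsP.val () H = ((un (d ^ 2), un d), un (RR d)) := by
  have c2 := cu_tl (F := F) H d hH
  have h := (cu_mul c2 c2).1
  simp only [unitsP, val_pair]
  rw [h, c2.1, (cu_RR H d hd hH).1, pow_two]

theorem cost_units (H : List (List F)) (d : ℕ) (hd : 1 ≤ d) (hH : H.length = d + 1) :
    unitsP.cost () () H ≤ 2 * (10 ^ 9 * (lgc d ^ 2 * (d + 1) ^ 2)) := by
  have c2 := cu_tl (F := F) H d hH
  have h1 := (cu_mul c2 c2).2
  have h2 := c2.2
  have h3 := (cu_RR H d hd hH).2
  have hl := E8.lgc_pos d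
  simp only [unitsP, cost_pair]
  have h4 : (d + 1) ^ 2 ≤ lgc d ^ 2 * (d + 1) ^ 2 :=
    Nat.le_mul_of_pos_left _ (by positivity)
  have h5 : (d + 1) ≤ (d + 1) ^ 2 := Nat.le_self_pow (by norm_num) _
  have h6 : (d + 1) * (d + 1) = (d + 1) ^ 2 := by ring
  rw [h6] at h1
  rw [cost_comp, cost_pair] at h1 ⊢
  generalize lgc d ^ 2 * (d + 1) ^ 2 = U at *
  generalize (d + 1) ^ 2 = V at *
  omega

theorem val_fP (ia : Pr [] (.prod (.prod Po (.prod Po Un)) (.prod (.prod Un Un) (.prod Ma Po)))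
    (.prod Po ML)) (b1 b2 : List F) (m u1 u2 : List Unit) (w : List F) (g : List (List F))
    (mu : List Unit) :
    (fP ia).val () (((b1, (b2, m)), ((u1, u2), w)), (g, mu)) =
      ((ia.val () ((b1, (b2, m)), ((u1, u2), (g, w)))).1,
        ((ia.val () ((b1, (b2, m)), ((u1, u2), (g, w)))).2, mu)) := by
  simp [fP]

theorem cost_fP (ia : Pr [] (.prod (.prod Po (.prod Po Un)) (.prod (.prod Un Un) (.prod Ma Po)))
    (.prod Po ML)) (b1 b2 : List F) (m u1 u2 : List Unit) (w : List F) (g : List (List F))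
    (mu : List Unit) :
    (fP ia).cost () () (((b1, (b2, m)), ((u1, u2), w)), (g, mu)) ≤
      ia.cost () () ((b1, (b2, m)), ((u1, u2), (g, w))) + 60 := by
  simp only [fP, cost_lt, cost_comp, cost_pair, cost_fst, cost_snd, val_pair, val_comp, val_fst,
    val_snd]
  omega

theorem val_smP (mc : Pr [] (.prod Po (.prod Ma Po)) (.list (.prod Ma Un)))
    (ia : Pr [] (.prod (.prod Po (.prod Po Un)) (.prod (.prod Un Un) (.prod Ma Po)))
      (.prod Po ML)) (pr : Pr [] (.prod Un Un) (.prod Un (.prod Po Un)))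
    (b1 b2 : List F) (m ur ue : List Unit) (H : List (List F)) (w : List F) (d : ℕ)
    (hd : 1 ≤ d) (hH : H.length = d + 1)
    (hpr : (pr.val () (un (d ^ 2), un d) : List Unit × (List F × List Unit)) = (ur, (b2, ue))) :
    (smP mc ia pr).val () ((b1, m), (H, w)) =
      List.map (fun o : List (List F) × List Unit =>
        ((ia.val () ((b1, (b2, m)), ((un (d ^ 2), un d), (o.1, w.drop (RR d))))).1,
          ((ia.val () ((b1, (b2, m)), ((un (d ^ 2), un d), (o.1, w.drop (RR d))))).2, o.2)))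
        (mc.val () (b1, (H, w.take (RR d))) : List (List (List F) × List Unit)) := by
  have hs : ∀ n : ℕ, @List.length (Ty.D F .unit) (un n) = n := length_un
  simp only [smP, val_lt, val_comp, val_fst, val_snd, val_units H d hd hH, val_pair, hpr,
    val_splitP, val_mapP, hs]
  refine List.map_congr_left fun o _ => ?_
  exact val_fP ia _ _ _ _ _ _ _ _

theorem cost_smP (mc : Pr [] (.prod Po (.prod Ma Po)) (.list (.prod Ma Un)))
    (ia : Pr [] (.prod (.prod Po (.prod Po Un)) (.prod (.prod Un Un) (.prod Ma Po)))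
      (.prod Po ML)) (pr : Pr [] (.prod Un Un) (.prod Un (.prod Po Un)))
    (b1 b2 : List F) (m ur ue : List Unit) (H : List (List F)) (w : List F) (d : ℕ)
    (hd : 1 ≤ d) (hH : H.length = d + 1)
    (hpr : (pr.val () (un (d ^ 2), un d) : List Unit × (List F × List Unit)) = (ur, (b2, ue))) :
    (smP mc ia pr).cost () () ((b1, m), (H, w)) ≤
      unitsP.cost () () H + pr.cost (F := F) () () (un (d ^ 2), un d) + (24 * RR d + 8) +
      mc.cost () () (b1, (H, w.take (RR d))) +
      (List.map (fun o : List (List F) × List Unit =>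
        ia.cost () () ((b1, (b2, m)), ((un (d ^ 2), un d), (o.1, w.drop (RR d)))) + 73)
        (mc.val () (b1, (H, w.take (RR d))) : List (List (List F) × List Unit))).sum + 200 := by
  have hs : ∀ n : ℕ, @List.length (Ty.D F .unit) (un n) = n := length_un
  have h1 := cost_splitP (F := F) (s := []) (b := .unit) (a := .fld) () () (un (RR d), w)
  rw [hs] at h1
  have h2 := cost_mapP (F := F) (s := []) (fP ia) () ()
    (((b1, (b2, m)), ((un (d ^ 2), un d), w.drop (RR d))),
      (mc.val () (b1, (H, w.take (RR d))) : List (List (List F) × List Unit)))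
  have h3 : (List.map (fun y : List (List F) × List Unit => (fP ia).cost () ()
      (((b1, (b2, m)), ((un (d ^ 2), un d), w.drop (RR d))), y) + 13)
      (mc.val () (b1, (H, w.take (RR d))) : List (List (List F) × List Unit))).sum ≤
      (List.map (fun o : List (List F) × List Unit =>
        ia.cost () () ((b1, (b2, m)), ((un (d ^ 2), un d), (o.1, w.drop (RR d)))) + 73)
        (mc.val () (b1, (H, w.take (RR d))) : List (List (List F) × List Unit))).sum := by
    refine List.sum_le_sum fun o _ => ?_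
    have := cost_fP ia b1 b2 m (un (d ^ 2)) (un d) (w.drop (RR d)) o.1 o.2
    have e : ((((b1, (b2, m)), ((un (d ^ 2), un d), w.drop (RR d))), (o.1, o.2)) :
      ((List F × (List F × List Unit)) × ((List Unit × List Unit) × List F)) ×
        (List (List F) × List Unit)) = ((((b1, (b2, m)), ((un (d ^ 2), un d), w.drop (RR d))), o))
      := rfl
    rw [e] at this
    omega
  have h4 := h2.trans (Nat.add_le_add_right h3 5)
  simp only [smP, cost_lt, cost_comp, cost_pair, cost_fst, cost_snd, val_lt, val_comp, val_fst,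
    val_snd, val_units H d hd hH, val_pair, hpr, val_splitP, hs]
  omega

end vals

theorem deg_sum {K : Type} [Field K] {d : ℕ} {H : List (List K)} (hH : IsHom d H)
    (hT : TopNe d H) {out : List (List (List K) × List Unit)} (hf : FacGood (hom H) out) :
    (out.map (fun o => o.1.length - 1)).sum ≤ d ∧ ∀ o ∈ out, 1 ≤ o.1.length - 1 ∧
      IsHom (o.1.length - 1) o.1 ∧ TopNe (o.1.length - 1) o.1 ∧ Irreducible (hom o.1) := by
  obtain ⟨⟨u, hu, hfac⟩, hout, -⟩ := hf
  have hph : ∀ o ∈ out, (E8.ph (hom o.1) ≠ 0 ∧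
      o.1.length - 1 ≤ o.2.length * (E8.ph (hom o.1)).natDegree) ∧ 1 ≤ o.1.length - 1 ∧
      IsHom (o.1.length - 1) o.1 ∧ TopNe (o.1.length - 1) o.1 ∧ Irreducible (hom o.1) := by
    intro o ho
    obtain ⟨m, i, hm, hhom, hi, -, hirr, hlen⟩ := hout o ho
    obtain ⟨h1, h2⟩ := E8.le_ph_natDegree hhom (i := i) (by rw [hi]; exact one_ne_zero)
    have h3 : m ≤ o.2.length * (E8.ph (hom o.1)).natDegree := by nlinarith
    have hl : o.1.length - 1 = m := by rw [hhom.1]; rfl
    rw [hl]
    exact ⟨⟨h2, h3⟩, hm, hhom, ⟨i, by rw [hi]; exact one_ne_zero⟩, hirr⟩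
  refine ⟨?_, fun o ho => (hph o ho).2⟩
  have h1 := congrArg E8.ph hfac
  obtain ⟨i, hi⟩ := hT
  obtain ⟨-, hne⟩ := E8.le_ph_natDegree hH hi
  have hle := E8.ph_natDegree H d hH.1
  have h2 : E8.ph (out.map (fun o => hom o.1 ^ o.2.length)).prod =
      (out.map (fun o => E8.ph (hom o.1) ^ o.2.length)).prod := by
    rw [map_list_prod, List.map_map]
    congr 1
    refine List.map_congr_left fun o _ => ?_
    simp only [Function.comp, map_pow]
  rw [map_mul, h2] at h1
  obtain ⟨h3, h4⟩ := E8.prod_natDegree out (fun l => E8.ph (hom l)) fun o ho => (hph o ho).1.1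
  have h5 : (out.map (fun o => o.2.length * (E8.ph (hom o.1)).natDegree)).sum ≤ d := by
    rw [← h4]
    have h6 : (E8.ph (C (C u) : K[X][X])) ≠ 0 := by
      intro h0
      rw [h0, zero_mul] at h1
      exact hne h1
    have h7 := congrArg natDegree h1
    rw [natDegree_mul h6 h3] at h7
    omega
  refine le_trans (List.sum_le_sum fun o ho => ?_) h5
  exact (hph o ho).1.2

theorem ww_le (N : ℕ) (hN : 1 ≤ N) : ww N ≤ 5 * N ^ 3 := by
  have h1 : 2 ^ Nat.clog 2 N ≤ 2 * N := by
    rcases Nat.lt_or_ge N 2 with h | h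
    · have : N = 1 := by omega
      subst this
      simp
    · have := E8.EE_aux N h
      omega
  have h2 : 7 ^ Nat.clog 2 N / 2 ^ Nat.clog 2 N ≤ (2 * N) ^ 2 := by
    calc 7 ^ Nat.clog 2 N / 2 ^ Nat.clog 2 N ≤ 8 ^ Nat.clog 2 N / 2 ^ Nat.clog 2 N :=
          Nat.div_le_div_right (Nat.pow_le_pow_left (by norm_num) _)
      _ = (2 ^ Nat.clog 2 N) ^ 2 := by
          have : (8 : ℕ) ^ Nat.clog 2 N = (2 ^ Nat.clog 2 N) ^ 2 * 2 ^ Nat.clog 2 N := by
            rw [← pow_mul, ← pow_add, show (8 : ℕ) = 2 ^ 3 by norm_num, ← pow_mul]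
            congr 1
            ring
          rw [this, Nat.mul_div_cancel _ (by positivity)]
      _ ≤ (2 * N) ^ 2 := Nat.pow_le_pow_left h1 2
  unfold ww vv
  calc N * (7 ^ Nat.clog 2 N / 2 ^ Nat.clog 2 N + 1) ≤ N * ((2 * N) ^ 2 + 1) :=
        Nat.mul_le_mul_left _ (by omega)
    _ ≤ 5 * N ^ 3 := by nlinarith [Nat.le_self_pow (n := 3) (by norm_num) N]

theorem count2 {α : Type} [Fintype α] (N1 N2 q : ℕ) (hq : Fintype.card α = q)
    (G : (Fin (N1 + N2) → α) → Prop) (B : (Fin N1 → α) → Prop)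
    (h1 : 7 * Nat.card {r1 // ¬ B r1} ≤ q ^ N1)
    (h2 : ∀ r1, B r1 → 50 * Nat.card {r2 : Fin N2 → α // ¬ G (Fin.append r1 r2)} ≤ q ^ N2) :
    3 * Nat.card {r // ¬ G r} ≤ q ^ (N1 + N2) := by
  classical
  have hA : ∀ n : ℕ, Nat.card (Fin n → α) = q ^ n := by
    intro n
    rw [Nat.card_eq_fintype_card, Fintype.card_fun, hq, Fintype.card_fin]
  have e2 : Nat.card {r // ¬ G r} =
      ∑ r1 : Fin N1 → α, Nat.card {r2 : Fin N2 → α // ¬ G (Fin.append r1 r2)} := by
    rw [← Nat.card_sigma]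
    apply Nat.card_congr
    refine Equiv.trans ?_ (Equiv.subtypeProdEquivSigmaSubtype
      (fun (r1 : Fin N1 → α) (r2 : Fin N2 → α) => ¬ G (Fin.append r1 r2)))
    exact ((Fin.appendEquiv N1 N2).subtypeEquiv (fun x => Iff.rfl)).symm
  have e3 : ∀ r1 : Fin N1 → α, 50 * Nat.card {r2 : Fin N2 → α // ¬ G (Fin.append r1 r2)} ≤
      q ^ N2 + if ¬ B r1 then 49 * q ^ N2 else 0 := by
    intro r1
    by_cases hB : B r1
    · rw [if_neg (not_not.2 hB)]
      exact h2 r1 hB
    · rw [if_pos hB]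
      have : Nat.card {r2 : Fin N2 → α // ¬ G (Fin.append r1 r2)} ≤ q ^ N2 := by
        rw [← hA N2]
        exact Nat.card_le_card_of_injective _ Subtype.val_injective
      omega
  have e4 : 50 * Nat.card {r // ¬ G r} ≤
      q ^ N1 * q ^ N2 + Nat.card {r1 // ¬ B r1} * (49 * q ^ N2) := by
    rw [e2, Finset.mul_sum]
    refine (Finset.sum_le_sum fun r1 _ => e3 r1).trans ?_
    rw [Finset.sum_add_distrib, Finset.sum_const, Finset.card_univ, ← Nat.card_eq_fintype_card,
      hA N1, smul_eq_mul, ← Finset.sum_filter, Finset.sum_const, smul_eq_mul,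
      Nat.card_eq_fintype_card, Fintype.card_subtype]
  have e5 : 7 * (Nat.card {r1 // ¬ B r1} * (49 * q ^ N2)) ≤ 49 * (q ^ N1 * q ^ N2) := by
    have : 7 * Nat.card {r1 // ¬ B r1} * (49 * q ^ N2) ≤ q ^ N1 * (49 * q ^ N2) :=
      Nat.mul_le_mul_right _ h1
    nlinarith
  rw [pow_add]
  omega

theorem union_bd {β R : Type} [Finite R] (l : List β) (P : β → R → Prop) :
    Nat.card {r // ¬ ∀ o ∈ l, P o r} ≤ (l.map (fun o => Nat.card {r // ¬ P o r})).sum := by
  induction l with
  | nil => simp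
  | cons a l ih =>
    rw [List.map_cons, List.sum_cons]
    refine le_trans ?_ (Nat.add_le_add_left ih _)
    have h1 := Set.ncard_union_le {r : R | ¬ P a r} {r : R | ¬ ∀ o ∈ l, P o r}
    refine le_trans (le_of_eq_of_le (Nat.card_coe_set_eq {r : R | ¬ ∀ o ∈ a :: l, P o r}) ?_) h1
    refine Set.ncard_le_ncard ?_ (Set.toFinite _)
    intro r hr
    by_contra hcon
    apply hr
    intro o ho
    simp only [Set.mem_union, not_or] at hcon
    obtain ⟨k1, k2⟩ := hcon
    have k1' : P a r := by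
      by_contra h
      exact k1 h
    have k2' : ∀ o ∈ l, P o r := by
      by_contra h
      exact k2 h
    rcases List.mem_cons.1 ho with rfl | h
    · exact k1'
    · exact k2' o h

end L10

namespace L10

theorem sum_cost {β : Type} (out : List β) (f n : β → ℕ) (A d : ℕ)
    (h : ∀ o ∈ out, 1 ≤ n o ∧ n o ≤ d ∧
      f o ≤ A * ((n o + 1) ^ 3 + (n o + 1) * (d ^ 2 + 1)))
    (hs : (out.map n).sum ≤ d) :
    (out.map (fun o => f o + 73)).sum ≤ (10 * A + 73) * (d + 1) ^ 3 := by
  have h1 : ∀ o ∈ out, f o + 73 ≤ n o * ((10 * A + 73) * (d + 1) ^ 2) := by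
    intro o ho
    obtain ⟨k1, k2, k3⟩ := h o ho
    generalize n o = x at *
    have e1 : (x + 1) ^ 3 + (x + 1) * (d ^ 2 + 1) ≤ x * (10 * (d + 1) ^ 2) := by
      have i1 : x + 1 ≤ 2 * x := by omega
      have i2 : (x + 1) ^ 2 ≤ (2 * d) ^ 2 := Nat.pow_le_pow_left (by omega) 2
      have i3 : (x + 1) ^ 3 ≤ (2 * x) * (2 * d) ^ 2 := by
        have : (x + 1) ^ 3 = (x + 1) * (x + 1) ^ 2 := by ring
        rw [this]
        exact Nat.mul_le_mul i1 i2
      have i4 : (x + 1) * (d ^ 2 + 1) ≤ (2 * x) * (d ^ 2 + 1) := Nat.mul_le_mul_right _ i1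
      have i5 : (2 * x) * (2 * d) ^ 2 + (2 * x) * (d ^ 2 + 1) = x * (10 * d ^ 2 + 2) := by ring
      have i6 : x * (10 * d ^ 2 + 2) ≤ x * (10 * (d + 1) ^ 2) :=
        Nat.mul_le_mul_left _ (by nlinarith)
      omega
    have e2 : A * ((x + 1) ^ 3 + (x + 1) * (d ^ 2 + 1)) ≤ A * (x * (10 * (d + 1) ^ 2)) :=
      Nat.mul_le_mul_left _ e1
    have e3 : 73 ≤ x * (73 * (d + 1) ^ 2) := by
      have : 1 ≤ x * (d + 1) ^ 2 := Nat.mul_pos k1 (by positivity)
      nlinarith
    have e4 : x * ((10 * A + 73) * (d + 1) ^ 2) = A * (x * (10 * (d + 1) ^ 2)) +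
      x * (73 * (d + 1) ^ 2) := by ring
    rw [e4]
    omega
  have h2 : (out.map (fun o => f o + 73)).sum ≤
      (out.map n).sum * ((10 * A + 73) * (d + 1) ^ 2) := by
    clear hs h
    induction out with
    | nil => simp
    | cons a l ih =>
      have i1 := h1 a (by simp)
      have i2 := ih (fun o ho => h1 o (by simp [ho]))
      simp only [List.map_cons, List.sum_cons, add_mul] at i1 i2 ⊢
      omega
  refine h2.trans ?_
  calc (out.map n).sum * ((10 * A + 73) * (d + 1) ^ 2)
      ≤ (d + 1) * ((10 * A + 73) * (d + 1) ^ 2) := Nat.mul_le_mul_right _ (by omega)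
    _ = (10 * A + 73) * (d + 1) ^ 3 := by ring

end L10

/- OVER FINITE FIELDS. Program, input ((bits q, m), (H, ω)): d from H, un d, un (d^2); bits p from SpecPar (un (d^2), un d) (it returns (r, (bits p, e))). Cut ω into ω1 (RR d entries; compute un (RR d) from d: EE d = 2^(jj d + 1), see Spec4.lean; the proof of specMain in Pool/Agent/H330FB/JE8.lean computes the same numbers; you may import Pool.Agent.H330FB.JE8, namespace JE8; fetch the whole folder H330FB first: git -C outputs/live archive origin/main Pool/Agent/H330FB | tar x -C /workdir/pool) and the rest ω2. outF = program of SpecMainC on (bits q, (H, ω1)).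
For every (g, mult) in outF: (q', A') = program of SpecIA on ((bits q, (bits p, m)), ((un (d^2), un d), (g, ω2))), output (q', (A', mult)); the SAME ω2 for all factors. If the first part is good (failures ≤ 1/7), outF depends only on ω1 and has at most d entries (the sum of the total degrees m_o times multiplicities is d, from FacGood; each 1 ≤ m_o ≤ d; TopNe m_o from the normalization), so by
the union bound the failures are at most 1/7 + d/(50 d) ≤ 1/3. N' = N - RR d ≥ C1 lgc d^k1 (d+1)^2 if C, k are large. Then StmtJoin. Cost in the good case: C (lgc q lgc d)^k (ww (d+1) + ∑_o ((m_o+1)^3 + (m_o+1)(d^2+1))) ≤ C' (lgc q lgc d)^k (d+1)^3 since ∑ m_o ≤ d (ww N ≤ 5 N^3). SpecPar costs C (d+1)(d^2+1).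
p < d^2 implies 2 ≤ d. -/
/-- TARGET -/
theorem specSm (h1 : SpecMainC) (h2 : SpecIA) (h3 : SpecPar) (h4 : StmtJoin) (h0 : SpecUnits) : SpecSm := by
  obtain ⟨mc, Cm, km, hm⟩ := h1
  obtain ⟨ia, Ca, ka, ha⟩ := h2
  obtain ⟨pr, Cp, hp⟩ := h3
  refine ⟨L10.smP mc ia pr, 10 ^ 10 + 10 * Ca + 5 * Cm + Cp, km + ka + 3, ?_⟩
  intro F _ _ _ q p m d N H hpp hq hqm hH hd hT hpd hN
  have hl := JE8.E8.lgc_pos d
  have hlq := JE8.E8.lgc_pos q
  have hR := L10.RR_le hd
  have hfact : Fact p.Prime := ⟨hpp⟩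
  have hchar : CharP F p := charP_of_card_eq_prime_pow (hq.trans hqm)
  have hN1 : RR d + Ca * lgc d ^ ka * (d + 1) ^ 2 ≤ N := by
    refine le_trans ?_ hN
    have e1 : lgc d ^ 2 * (d + 1) ^ 2 ≤ lgc d ^ (km + ka + 3) * (d + 1) ^ 2 :=
      Nat.mul_le_mul_right _ (Nat.pow_le_pow_right hl (by omega))
    have e2 : lgc d ^ ka * (d + 1) ^ 2 ≤ lgc d ^ (km + ka + 3) * (d + 1) ^ 2 :=
      Nat.mul_le_mul_right _ (Nat.pow_le_pow_right hl (by omega))
    rw [mul_assoc, mul_assoc]
    generalize lgc d ^ (km + ka + 3) * (d + 1) ^ 2 = X at *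
    have e3 : Ca * (lgc d ^ ka * (d + 1) ^ 2) ≤ Ca * X := Nat.mul_le_mul_left _ e2
    have e4 : (10 ^ 10 + 10 * Ca + 5 * Cm + Cp) * X =
      10 ^ 10 * X + 10 * (Ca * X) + 5 * (Cm * X) + Cp * X := by ring
    rw [e4]
    omega
  obtain ⟨N', rfl⟩ : ∃ N', N = RR d + N' := ⟨N - RR d, by omega⟩
  have hN' : Ca * lgc d ^ ka * (d + 1) ^ 2 ≤ N' := by omega
  obtain ⟨hp1, hp2⟩ := hp F p (d ^ 2) d hpp hchar hd
  obtain ⟨r, e, -, -, -, -, -, hpv⟩ := hp1 hpd.le
  have hm1 := hm F d H hd hH hT
  rw [hq] at hm1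
  refine L10.count2 (RR d) N' q hq _ _ hm1 ?_
  rintro r1 ⟨hg, hgc⟩
  obtain ⟨hsum, hout⟩ := L10.deg_sum hH hT hg
  obtain ⟨out, hov⟩ : ∃ out : List (List (List F) × List Unit),
    mc.val () (bits F q, (H, List.ofFn r1)) = out := ⟨_, rfl⟩
  rw [hov] at hg hsum hout
  have hlen : out.length ≤ d := by
    refine le_trans ?_ hsum
    have := List.length_le_sum_of_one_le (out.map (fun o => o.1.length - 1)) (by
      intro i hi
      obtain ⟨o, ho, rfl⟩ := List.mem_map.1 hi
      exact (hout o ho).1)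
    rwa [List.length_map] at this
  have hnd : ∀ o ∈ out, o.1.length - 1 ≤ d := by
    intro o ho
    exact (List.single_le_sum (by simp) _ (List.mem_map_of_mem (f := fun o => o.1.length - 1)
      ho)).trans hsum
  obtain ⟨P, hP⟩ : ∃ P : List (List F) × List Unit → (Fin N' → F) → Prop, P = fun o ω =>
      (FacAbs (AlgebraicClosure F) o.1
      [((ia.val () ((bits F q, (bits F p, un m)), ((un (d ^ 2), un d), (o.1, List.ofFn ω)))).1,
        ((ia.val () ((bits F q, (bits F p, un m)), ((un (d ^ 2), un d), (o.1, List.ofFn ω)))).2,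
          un 1))] ∧
      ia.cost () () ((bits F q, (bits F p, un m)), ((un (d ^ 2), un d), (o.1, List.ofFn ω))) ≤
        Ca * ((lgc q * lgc d) ^ ka * ((o.1.length - 1 + 1) ^ 3 +
          (o.1.length - 1 + 1) * (d ^ 2 + 1)))) := ⟨_, rfl⟩
  have hPc : ∀ o ∈ out, 50 * d * Nat.card {ω // ¬ P o ω} ≤ q ^ N' := by
    intro o ho
    obtain ⟨k1, k2, k3, k4⟩ := hout o ho
    rw [hP]
    exact ha F q p m (o.1.length - 1) d N' o.1 hpp hq hqm k2 k1 (hnd o ho) k3 k4 hpd.le hN'
  have hall : 50 * Nat.card {ω // ¬ ∀ o ∈ out, P o ω} ≤ q ^ N' := by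
    have e1 := L10.union_bd out P
    have e2 : 50 * d * (out.map (fun o => Nat.card {ω // ¬ P o ω})).sum ≤ out.length * q ^ N' := by
      clear e1 hlen hsum hnd hg hov
      induction out with
      | nil => simp
      | cons a l ih =>
        have i1 := hPc a (by simp)
        have i2 := ih (fun o ho => hout o (by simp [ho])) (fun o ho => hPc o (by simp [ho]))
        simp only [List.map_cons, List.sum_cons, List.length_cons]
        rw [mul_add, add_mul (l.length), one_mul]
        omega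
    have e3 : 50 * d * Nat.card {ω // ¬ ∀ o ∈ out, P o ω} ≤ d * q ^ N' :=
      (Nat.mul_le_mul_left _ e1).trans (e2.trans (Nat.mul_le_mul_right _ hlen))
    have e4 : d * (50 * Nat.card {ω // ¬ ∀ o ∈ out, P o ω}) ≤ d * q ^ N' := by
      refine le_trans (le_of_eq ?_) e3
      ring
    exact Nat.le_of_mul_le_mul_left e4 hd
  refine le_trans (Nat.mul_le_mul_left 50 ?_) hall
  refine Nat.card_le_card_of_injective (Subtype.map id ?_)
    (Subtype.map_injective _ Function.injective_id)
  intro r2 hG hex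
  apply hG
  simp only [id] at hex
  have htake : (List.ofFn (Fin.append r1 r2)).take (RR d) = List.ofFn r1 := by
    rw [List.ofFn_fin_append]
    exact List.take_left' List.length_ofFn
  have hdrop : (List.ofFn (Fin.append r1 r2)).drop (RR d) = List.ofFn r2 := by
    rw [List.ofFn_fin_append]
    exact List.drop_left' List.length_ofFn
  have hv := L10.val_smP mc ia pr (bits F q) (bits F p) (un m) (un r) (un e) H
    (List.ofFn (Fin.append r1 r2)) d hd hH.1 hpv
  rw [htake, hdrop, hov] at hv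
  have hc := L10.cost_smP mc ia pr (bits F q) (bits F p) (un m) (un r) (un e) H
    (List.ofFn (Fin.append r1 r2)) d hd hH.1 hpv
  rw [htake, hdrop, hov] at hc
  constructor
  · rw [hv]
    refine h4 F H out (fun g => ia.val () ((bits F q, (bits F p, un m)),
      ((un (d ^ 2), un d), (g, List.ofFn r2)))) hg ?_
    intro o ho
    have := hex o ho
    rw [hP] at this
    exact this.1
  · refine hc.trans ?_
    have c1 := L10.cost_units H d hd hH.1
    have c3 := L10.sum_cost out (fun o => ia.cost () () ((bits F q, (bits F p, un m)),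
      ((un (d ^ 2), un d), (o.1, List.ofFn r2)))) (fun o => o.1.length - 1)
      (Ca * (lgc q * lgc d) ^ ka) d (fun o ho => by
        have := hex o ho
        rw [hP] at this
        refine ⟨(hout o ho).1, hnd o ho, this.2.trans (le_of_eq ?_)⟩
        ring) hsum
    have c4 := L10.ww_le (d + 1) (by omega)
    have c5 : Cm * (lgc q * lgc d) ^ km * ww (d + 1) ≤
        Cm * (lgc q * lgc d) ^ km * (5 * (d + 1) ^ 3) := Nat.mul_le_mul_left _ c4
    have hM1 : lgc d ≤ lgc q * lgc d := Nat.le_mul_of_pos_left _ hlq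
    generalize hMdef : lgc q * lgc d = M at *
    have hM : 1 ≤ M := hl.trans hM1
    have x1 : lgc d ^ 2 * (d + 1) ^ 2 ≤ M ^ (km + ka + 3) * (d + 1) ^ 3 := by
      refine Nat.mul_le_mul ((Nat.pow_le_pow_left hM1 2).trans
        (Nat.pow_le_pow_right hM (by omega))) (Nat.pow_le_pow_right (by omega) (by norm_num))
    have x2 : (d + 1) ^ 3 ≤ M ^ (km + ka + 3) * (d + 1) ^ 3 :=
      Nat.le_mul_of_pos_left _ (by positivity)
    have x3 : M ^ km * (d + 1) ^ 3 ≤ M ^ (km + ka + 3) * (d + 1) ^ 3 :=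
      Nat.mul_le_mul_right _ (Nat.pow_le_pow_right hM (by omega))
    have x4 : M ^ ka * (d + 1) ^ 3 ≤ M ^ (km + ka + 3) * (d + 1) ^ 3 :=
      Nat.mul_le_mul_right _ (Nat.pow_le_pow_right hM (by omega))
    have x5 : 1 ≤ (d + 1) ^ 3 := Nat.one_le_pow _ _ (by omega)
    have x6 : (d + 1) * (d ^ 2 + 1) ≤ (d + 1) ^ 3 := by nlinarith
    have y1 : Cp * (d + 1) * (d ^ 2 + 1) ≤ Cp * (M ^ (km + ka + 3) * (d + 1) ^ 3) := by
      rw [mul_assoc]
      exact Nat.mul_le_mul_left _ (x6.trans x2)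
    have y2 : Cm * M ^ km * (5 * (d + 1) ^ 3) ≤ 5 * (Cm * (M ^ (km + ka + 3) * (d + 1) ^ 3)) := by
      have : Cm * M ^ km * (5 * (d + 1) ^ 3) = 5 * (Cm * (M ^ km * (d + 1) ^ 3)) := by ring
      rw [this]
      exact Nat.mul_le_mul_left _ (Nat.mul_le_mul_left _ x3)
    have y3 : (10 * (Ca * M ^ ka) + 73) * (d + 1) ^ 3 ≤
        10 * (Ca * (M ^ (km + ka + 3) * (d + 1) ^ 3)) + 73 * (M ^ (km + ka + 3) * (d + 1) ^ 3) := by
      have : (10 * (Ca * M ^ ka) + 73) * (d + 1) ^ 3 = 10 * (Ca * (M ^ ka * (d + 1) ^ 3)) +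
        73 * (d + 1) ^ 3 := by ring
      rw [this]
      exact Nat.add_le_add (Nat.mul_le_mul_left _ (Nat.mul_le_mul_left _ x4))
        (Nat.mul_le_mul_left _ x2)
    have y4 : (10 ^ 10 + 10 * Ca + 5 * Cm + Cp) * (M ^ (km + ka + 3) * (d + 1) ^ 3) =
        10 ^ 10 * (M ^ (km + ka + 3) * (d + 1) ^ 3) +
        10 * (Ca * (M ^ (km + ka + 3) * (d + 1) ^ 3)) +
        5 * (Cm * (M ^ (km + ka + 3) * (d + 1) ^ 3)) +
        Cp * (M ^ (km + ka + 3) * (d + 1) ^ 3) := by ring
    rw [y4]
    have hp2' := hp2.trans y1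
    have hgc' := hgc.trans (c5.trans y2)
    have c3' := c3.trans y3
    have c1' : L10.unitsP.cost () () H ≤
        2 * (10 ^ 9 * (M ^ (km + ka + 3) * (d + 1) ^ 3)) :=
      c1.trans (Nat.mul_le_mul_left _ (Nat.mul_le_mul_left _ x1))
    have hR' := hR.trans (Nat.mul_le_mul_left _ x1)
    have x7 := x5.trans x2
    clear c1 c3 hgc hp2 y1 y2 y3 y4 c5 c4 x6 x5 x4 x3 x2 x1 hR
    generalize M ^ (km + ka + 3) * (d + 1) ^ 3 = X at *
    omega

end Pool.Agent.H330AB.JL10
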