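import Pool.Agent.H330AB.SpecC1
set_option autoImplicit false
noncomputable section
noncomputable section
namespace Pool.Agent.H330AB.JL11
open Polynomial Pool.Agent.H330FB

namespace JSmC

/-- the input type -/
abbrev In : Ty := .prod (.prod Po Un) (.prod Ma Po)
/-- the output type -/
abbrev Out : Ty := .list (.prod Po (.prod ML Un))

/-- the budget for the input -/
def uP (pb : Pr [] (.prod Po Ma) Un) : Pr [] In Un :=
  .comp (.pair (.comp .fst .fst) (.comp .snd .fst)) pb

/-- the new program -/
def newP (pb : Pr [] (.prod Po Ma) Un) (p' : Pr [] (.prod Un In) (.list Out)) : Pr [] In Out :=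
  onL (.comp (.pair (uP pb) .id) p') .nil (.comp .snd .fst)

section
variable {F : Type} [Field F] [DecidableEq F]

theorem val_newP (pb : Pr [] (.prod Po Ma) Un) (p' : Pr [] (.prod Un In) (.list Out))
    (a : List F) (m : List Unit) (H : List (List F)) (r : List F) :
    (newP pb p').val () ((a, m), (H, r)) =
      lcase (p'.val () (pb.val () (a, H), ((a, m), (H, r)))) [] (fun h _ => h) := by
  simp [newP, uP]

theorem cost_newP (pb : Pr [] (.prod Po Ma) Un) (p' : Pr [] (.prod Un In) (.list Out))
    (a : List F) (m : List Unit) (H : List (List F)) (r : List F) :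
    (newP pb p').cost () () ((a, m), (H, r)) ≤ pb.cost () () (a, H) +
      p'.cost () () (pb.val () (a, H), ((a, m), (H, r))) + 20 := by
  simp only [newP, uP, cost_onL, cost_comp, cost_pair, cost_fst, cost_snd, cost_id, cost_nil,
    val_comp, val_pair, val_fst, val_snd, val_id]
  cases (p'.val () (pb.val () (a, H), ((a, m), (H, r))) : List (Ty.D F Out)) with
  | nil => simp only [lcase_nil]; omega
  | cons h t => simp only [lcase_cons]; omega

end

theorem lg_pos (q d k : ℕ) : 1 ≤ (lgc q * lgc d) ^ k := by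
  apply Nat.one_le_pow
  unfold lgc
  positivity

end JSmC
open JSmC

theorem specSmC (h1 : SpecSm) (h2 : SpecClock) (h3 : SpecBud) : SpecSmC := by
  obtain ⟨main, C, k, hmain⟩ := h1
  obtain ⟨pb, C', k', hb⟩ := h3 C k
  obtain ⟨p', D, hp⟩ := h2 _ _ main
  refine ⟨newP pb p', C' + D * C' + D + 20 + C, k' + k, ?_⟩
  intro F _ _ _ q p m d H hpp hq hqm hH hd hT hpd
  have hq1 : 1 ≤ q := hq ▸ Fintype.card_pos
  have hb' := hb F q d H hq1 hd hH.1
  obtain ⟨b1, b2, b3⟩ := hb'
  refine ⟨?_, ?_⟩
  · intro r
    have e1 := cost_newP pb p' (bits F q) (un m) H r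
    have e2 := (hp F (pb.val () (bits F q, H)) ((bits F q, un m), (H, r))).1
    refine e1.trans ?_
    have w0 : (lgc q * lgc d) ^ k' ≤ (lgc q * lgc d) ^ (k' + k) :=
      Nat.pow_le_pow_right (by unfold lgc; positivity) (Nat.le_add_right _ _)
    have w1 : 1 ≤ (lgc q * lgc d) ^ k' * (d + 1) ^ 3 :=
      Nat.mul_pos (lg_pos _ _ _) (by positivity)
    have w2 : (lgc q * lgc d) ^ k' * (d + 1) ^ 3 ≤ (lgc q * lgc d) ^ (k' + k) * (d + 1) ^ 3 :=
      Nat.mul_le_mul_right _ w0
    refine le_trans ?_ (Nat.mul_le_mul_left _ w2)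
    generalize (lgc q * lgc d) ^ k' * (d + 1) ^ 3 = W at *
    generalize List.length (pb.val () (bits F q, H)) = len at *
    have a3 : D * (len + 1) ≤ D * (C' * W + 1) := Nat.mul_le_mul_left _ (by omega)
    have a4 : (C' + D * C' + D + 20 + C) * W =
      C' * W + D * (C' * W) + D * W + 20 * W + C * W := by ring
    have a5 : D * (C' * W + 1) = D * (C' * W) + D := by ring
    have a6 : D ≤ D * W := Nat.le_mul_of_pos_right _ w1
    rw [a4]
    omega
  · intro N hN
    have hN' : C * lgc d ^ k * (d + 1) ^ 2 ≤ N := by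
      refine le_trans ?_ hN
      refine Nat.mul_le_mul_right _ (Nat.mul_le_mul (Nat.le_add_left _ _) ?_)
      exact Nat.pow_le_pow_right (by unfold lgc; positivity) (Nat.le_add_left _ _)
    have hm := hmain F q p m d N H hpp hq hqm hH hd hT hpd hN'
    set P : (Fin N → F) → Prop := fun ω => FacAbs (AlgebraicClosure F) H
      (main.val () ((bits F q, un m), (H, List.ofFn ω))) ∧
      main.cost () () ((bits F q, un m), (H, List.ofFn ω)) ≤
        C * ((lgc q * lgc d) ^ k * (d + 1) ^ 3) with hP
    have hc : Nat.card {ω : Fin N → F // P ω} + Nat.card {ω : Fin N → F // ¬ P ω} = q ^ N := by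
      classical
      have := Nat.card_congr (Equiv.sumCompl P)
      rw [Nat.card_sum] at this
      rw [this, Nat.card_fun, Nat.card_eq_fintype_card, Nat.card_eq_fintype_card, hq,
        Fintype.card_fin]
    have hle : Nat.card {ω : Fin N → F // P ω} ≤ Nat.card {ω : Fin N → F //
        FacAbs (AlgebraicClosure F) H
          ((newP pb p').val () ((bits F q, un m), (H, List.ofFn ω)))} := by
      refine Nat.card_mono (Set.toFinite _) ?_
      rintro r ⟨hr1, hr2⟩
      have e2 := (hp F (pb.val () (bits F q, H))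
        ((bits F q, un m), (H, List.ofFn r))).2 (hr2.trans b1)
      have e3 := val_newP pb p' (bits F q) (un m) H (List.ofFn r)
      rw [e2] at e3
      show FacAbs (AlgebraicClosure F) H
        ((newP pb p').val () ((bits F q, un m), (H, List.ofFn r)))
      rw [e3]
      exact hr1
    have hm' : 3 * Nat.card {ω : Fin N → F // ¬ P ω} ≤ q ^ N := hm
    omega

end Pool.Agent.H330AB.JL11
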