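import Pool.Agent.H330AB.SpecC1
set_option autoImplicit false
noncomputable section
noncomputable section
namespace Pool.Agent.H330AB.JL11a
open Polynomial Pool.Agent.H330FB
namespace JBud

variable {F : Type} [Field F] [DecidableEq F]
variable {s : List (Ty × Ty)} {a b c : Ty}

/-- constant list -/
def replP : ℕ → Pr s a Un
  | 0 => .nil
  | n + 1 => .comp (.pair .star (replP n)) .cons

theorem val_replP (n : ℕ) (v : SV F s) (x : Ty.D F a) :
    List.length ((replP n : Pr s a Un).val v x) = n := by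
  induction n with
  | zero => simp [replP]
  | succ n ih => simp [replP, ih]

theorem cost_replP (n : ℕ) (v : SV F s) (k : SC F s) (x : Ty.D F a) :
    (replP n : Pr s a Un).cost v k x = 3 * n + 1 := by
  induction n with
  | zero => simp [replP]
  | succ n ih => simp [replP, ih]; omega

/-- product of two lengths -/
def mulP : Pr s (.prod (.list a) Un) Un :=
  .comp (.pair .snd (.pair .nil .fst))
    (foldP (c := Un) (.comp (.pair .fst (.comp .snd .fst)) appP))

theorem val_mulP (v : SV F s) (x : Ty.D F (.prod (.list a) Un)) :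
    List.length ((mulP : Pr s (.prod (.list a) Un) Un).val v x) =
      List.length x.1 * List.length x.2 := by
  obtain ⟨w, u⟩ := x
  have : ∀ (l : List (Ty.D F a)) (m : List Unit),
      (List.foldl (fun (y : List Unit) (_ : Ty.D F a) => u ++ y) m l).length =
        l.length * u.length + m.length := by
    intro l
    induction l with
    | nil => simp
    | cons h t ih => intro m; simp [ih]; ring
  simpa [mulP] using this w []

theorem cost_mulP (v : SV F s) (k : SC F s) (x : Ty.D F (.prod (.list a) Un)) :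
    (mulP : Pr s (.prod (.list a) Un) Un).cost v k x ≤
      (20 * List.length x.2 + 50) * List.length x.1 + 30 := by
  obtain ⟨w, u⟩ := x
  have h := cost_foldP_le (s := s) (c := Un) (b := Un) (a := a)
    (.comp (.pair .fst (.comp .snd .fst)) appP) v k (u, (([] : List Unit), w))
    (20 * u.length + 10) (fun _ => True) trivial (fun _ _ _ _ => trivial)
    (fun y z _ _ => by
      have e := cost_appP (s := s) v k ((u, y) : Ty.D F (.prod Un Un))
      simp at e ⊢
      omega)
  simp [mulP] at h ⊢
  nlinarith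

/-- `k` times product with the first list -/
def itP : ℕ → Pr s (.prod (.list a) Un) Un
  | 0 => .snd
  | k + 1 => .comp (.pair .fst (itP k)) mulP

theorem val_itP (n : ℕ) (v : SV F s) (x : Ty.D F (.prod (.list a) Un)) :
    List.length ((itP n : Pr s (.prod (.list a) Un) Un).val v x) =
      (List.length x.1) ^ n * List.length x.2 := by
  induction n with
  | zero => simp [itP]
  | succ n ih =>
    have e := val_mulP (F := F) (s := s) (a := a) v
      (x.1, (itP n : Pr s (.prod (.list a) Un) Un).val v x)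
    simp only [itP, val_comp, val_pair, val_fst] at ih e ⊢
    rw [e, ih]; ring

theorem cost_itP (n : ℕ) (v : SV F s) (k : SC F s) (x : Ty.D F (.prod (.list a) Un))
    (hx : 1 ≤ List.length x.1) :
    (itP n : Pr s (.prod (.list a) Un) Un).cost v k x ≤
      100 * (n + 1) * (List.length x.1) ^ n * (List.length x.2 + 1) := by
  induction n with
  | zero => simp [itP]; omega
  | succ n ih =>
    have h2 := cost_mulP (F := F) (s := s) (a := a) v k (x.1, (itP n : Pr s _ _).val v x)
    have h20 := val_itP (F := F) (s := s) n v x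
    simp only at h2 h20
    rw [h20] at h2
    simp only [itP, cost_comp, cost_pair, cost_fst, val_pair, val_fst]
    have h3 : 1 ≤ (List.length x.1) ^ n := Nat.one_le_pow _ _ (by omega)
    have h4 : (List.length x.1) ^ n ≤ (List.length x.1) ^ (n + 1) :=
      Nat.pow_le_pow_right (by omega) (by omega)
    have h5 : (List.length x.1) ≤ (List.length x.1) ^ (n + 1) := by
      rw [pow_succ]; nlinarith
    have h7 : 100 * (n + 1) * (List.length x.1) ^ n * (List.length x.2 + 1) ≤
        100 * (n + 1) * (List.length x.1) ^ (n + 1) * (List.length x.2 + 1) := by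
      gcongr
    have h8 : (20 * ((List.length x.1) ^ n * List.length x.2) + 50) * List.length x.1 + 30
        = 20 * ((List.length x.1) ^ (n + 1) * List.length x.2) + 50 * List.length x.1 + 30 := by
      ring
    rw [h8] at h2
    have h9 : 100 * (n + 1 + 1) * (List.length x.1) ^ (n + 1) * (List.length x.2 + 1) =
      100 * (n + 1) * (List.length x.1) ^ (n + 1) * (List.length x.2 + 1) +
      100 * (List.length x.1) ^ (n + 1) * List.length x.2 + 100 * (List.length x.1) ^ (n + 1) := by
      ring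
    rw [h9]
    have h10 : 20 * ((List.length x.1) ^ (n + 1) * List.length x.2) ≤
      100 * (List.length x.1) ^ (n + 1) * List.length x.2 := by
      nlinarith [Nat.zero_le ((List.length x.1) ^ (n + 1) * List.length x.2)]
    omega

/-- the budget -/
def budP (C k : ℕ) : Pr [] (.prod Po Ma) Un :=
  lt (.comp .snd lgP)
    (.comp (.pair
      (.comp (.pair (.comp (.pair .one (.comp .fst .fst)) .cons)
        (.comp (.pair .star .snd) .cons)) mulP)
      (.comp (.pair (.comp .fst .snd) (replP C)) (itP 3))) (itP k))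

omit [DecidableEq F] in
theorem len_bits (q : ℕ) (hq : 1 ≤ q) :
    lgc q ≤ (bits F q).length + 1 ∧ (bits F q).length ≤ lgc q := by
  have h1 : (bits F q).length = Nat.log 2 q + 1 := by
    simp only [bits, List.length_map]
    rw [Nat.size_eq_bits_len]
    have h2 : 2 ^ Nat.log 2 q ≤ q := Nat.pow_log_le_self 2 (by omega)
    have h3 : q < 2 ^ (Nat.log 2 q + 1) := Nat.lt_pow_succ_log_self (by norm_num) q
    apply le_antisymm
    · exact Nat.size_le.mpr h3
    · have := Nat.lt_size.mpr h2
      omega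
  rw [h1]
  constructor
  · simp only [lgc]
    have : Nat.clog 2 q ≤ Nat.log 2 q + 1 := by
      rw [Nat.clog_le_iff_le_pow (by norm_num)]
      exact (Nat.lt_pow_succ_log_self (by norm_num) q).le
    omega
  · simp only [lgc]
    have : Nat.log 2 q ≤ Nat.clog 2 q := Nat.log_le_clog 2 q
    omega

theorem len_clog (d : ℕ) (hd : 1 ≤ d) :
    lgc d ≤ Nat.clog 2 (d + 1) + 1 ∧ Nat.clog 2 (d + 1) ≤ lgc d := by
  constructor
  · simp only [lgc]
    have := Nat.clog_mono_right 2 (show d ≤ d + 1 by omega)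
    omega
  · simp only [lgc]
    rw [Nat.clog_le_iff_le_pow (by norm_num)]
    have h1 : d ≤ 2 ^ Nat.clog 2 d := Nat.le_pow_clog (by norm_num) d
    rw [pow_succ]
    omega

end JBud

open JBud in
/-- TARGET -/
theorem specBud : SpecBud := by
  intro C k
  refine ⟨budP C k, 100000 * (k + 1) * 4 ^ k * (C + 1), k + 1, ?_⟩
  intro F _ _ q d H hq hd hH
  obtain ⟨hb1, hb2⟩ := len_bits (F := F) q hq
  obtain ⟨hc1, hc2⟩ := len_clog d hd
  set B : ℕ := (bits F q).length with hB
  set L : ℕ := Nat.clog 2 (d + 1) with hL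
  set M : ℕ := (d + 1) ^ 3 with hM
  set lq : ℕ := lgc q with hlq
  set ld : ℕ := lgc d with hld
  have hlq1 : 1 ≤ lq := by simp [hlq, lgc]
  have hld1 : 1 ≤ ld := by simp [hld, lgc]
  have hM1 : d + 1 ≤ M := by
    rw [hM]
    calc d + 1 = (d + 1) ^ 1 := (pow_one _).symm
      _ ≤ (d + 1) ^ 3 := Nat.pow_le_pow_right (by omega) (by norm_num)
  have hP1 : 1 ≤ lq * ld := Nat.mul_pos hlq1 hld1
  have hw : (B + 1) * (L + 1) ≤ 4 * (lq * ld) := by
    have e1 : B + 1 ≤ 2 * lq := by omega
    have e2 : L + 1 ≤ 2 * ld := by omega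
    calc (B + 1) * (L + 1) ≤ (2 * lq) * (2 * ld) := Nat.mul_le_mul e1 e2
      _ = 4 * (lq * ld) := by ring
  have hlow : lq * ld ≤ (B + 1) * (L + 1) := Nat.mul_le_mul hb1 hc1
  -- the intermediate results
  obtain ⟨Lv, hLv⟩ : ∃ Lv : List Unit, Lv = (lgP : Pr [] Ma Un).val () H := ⟨_, rfl⟩
  have hLl : Lv.length = L := by
    rw [hLv]
    refine (val_lgP (F := F) (s := []) (a := Po) () H).trans ?_
    rw [hL]
    exact congrArg _ hH
  obtain ⟨Rv, hRv⟩ : ∃ Rv : List Unit,
    Rv = (replP C : Pr [] (.prod (.prod Po Ma) Un) Un).val () ((bits F q, H), Lv) :=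
    ⟨_, rfl⟩
  have hRl : Rv.length = C := by
    rw [hRv]
    exact val_replP (F := F) (s := []) (a := .prod (.prod Po Ma) Un) C () _
  obtain ⟨W, hW⟩ : ∃ W : List Unit, W = (mulP : Pr [] (.prod Po Un) Un).val ()
    ((1 :: bits F q : List F), (() :: Lv : List Unit)) := ⟨_, rfl⟩
  have hWl : W.length = (B + 1) * (L + 1) := by
    rw [hW]
    refine (val_mulP (F := F) (s := []) (a := .fld) () _).trans ?_
    simp only [List.length_cons, hLl, hB]
  have hH' : List.length (α := Ty.D F Po) H = d + 1 := hH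
  obtain ⟨U, hU⟩ : ∃ U : List Unit,
    U = (itP 3 : Pr [] (.prod Ma Un) Un).val (F := F) () (H, Rv) := ⟨_, rfl⟩
  have hUl : U.length = M * C := by
    rw [hU]
    refine (val_itP (F := F) (s := []) (a := Po) 3 () (H, Rv)).trans ?_
    simp only [hRl, hH', hM]
  -- the length of the result
  have hval : (budP C k).val () (bits F q, H) = (itP k : Pr [] (.prod Un Un) Un).val (F := F) ()
    (W, U) := by
    rw [hW, hU, hRv, hLv]
    rfl
  have hlen : List.length ((budP C k).val () (bits F q, H)) =
      ((B + 1) * (L + 1)) ^ k * (M * C) := by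
    rw [hval]
    refine (val_itP (F := F) (s := []) (a := .unit) k () (W, U)).trans ?_
    simp only [hWl, hUl]
  have hPk : (lq * ld) ^ k ≤ (lq * ld) ^ (k + 1) := Nat.pow_le_pow_right hP1 (by omega)
  have hPk1 : 1 ≤ (lq * ld) ^ (k + 1) := Nat.one_le_pow _ _ hP1
  have hPk2 : lq * ld ≤ (lq * ld) ^ (k + 1) := by
    rw [pow_succ]; nlinarith [Nat.one_le_pow k (lq * ld) hP1]
  have hWk : ((B + 1) * (L + 1)) ^ k ≤ 4 ^ k * (lq * ld) ^ (k + 1) := by
    calc ((B + 1) * (L + 1)) ^ k ≤ (4 * (lq * ld)) ^ k := Nat.pow_le_pow_left hw k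
      _ = 4 ^ k * (lq * ld) ^ k := by rw [mul_pow]
      _ ≤ 4 ^ k * (lq * ld) ^ (k + 1) := Nat.mul_le_mul_left _ hPk
  have h4k : 1 ≤ 4 ^ k := Nat.one_le_pow _ _ (by norm_num)
  refine ⟨?_, ?_, ?_⟩
  · rw [hlen]
    calc C * ((lq * ld) ^ k * M) ≤ C * (((B + 1) * (L + 1)) ^ k * M) := by
          gcongr
      _ = ((B + 1) * (L + 1)) ^ k * (M * C) := by ring
  · rw [hlen]
    calc ((B + 1) * (L + 1)) ^ k * (M * C)
        ≤ (4 ^ k * (lq * ld) ^ (k + 1)) * (M * (C + 1)) := by gcongr; omega
      _ = (1 * 4 ^ k * (C + 1)) * ((lq * ld) ^ (k + 1) * M) := by ring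
      _ ≤ (100000 * (k + 1) * 4 ^ k * (C + 1)) * ((lq * ld) ^ (k + 1) * M) := by
          gcongr
          omega
  · -- the cost
    have c1 := cost_lgP (F := F) (s := []) (a := Po) () () H
    rw [hH'] at c1
    have c2 := cost_mulP (F := F) (s := []) (a := .fld) () ()
      ((1 :: bits F q : List F), (() :: Lv : List Unit))
    have c3 := cost_itP (F := F) (s := []) (a := Po) 3 () () (H, Rv)
    have c4 := cost_itP (F := F) (s := []) (a := .unit) k () () (W, U)
    simp only [List.length_cons, hLl, hRl, hWl, hUl, hH'] at c2 c3 c4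
    rw [← hB] at c2
    have c3' := c3 (by omega)
    have c4' := c4 (Nat.mul_pos (by omega) (by omega))
    rw [← hM] at c3'
    have e : (budP C k).cost () () (bits F q, H) =
        (1 + (lgP : Pr [] Ma Un).cost (F := F) () () H) +
        ((((1 + (1 + 1) + 1) + 1) + ((1 + 1 + 1) + 1) + 1 +
            (mulP : Pr [] (.prod Po Un) Un).cost () ()
              ((1 :: bits F q : List F), (() :: Lv : List Unit))) +
          (((1 + 1) + (3 * C + 1) + 1) +
            (itP 3 : Pr [] (.prod Ma Un) Un).cost (F := F) () () (H, Rv)) + 1 +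
          (itP k : Pr [] (.prod Un Un) Un).cost (F := F) () () (W, U)) + 2 := by
      have e0 : (budP C k).cost () () (bits F q, H) =
        (1 + (lgP : Pr [] Ma Un).cost (F := F) () () H) +
        ((((1 + (1 + 1) + 1) + 1) + ((1 + 1 + 1) + 1) + 1 +
            (mulP : Pr [] (.prod Po Un) Un).cost () ()
              ((1 :: bits F q : List F), (() :: Lv : List Unit))) +
          (((1 + 1) + (replP C : Pr [] (.prod (.prod Po Ma) Un) Un).cost () ()
              ((bits F q, H), Lv) + 1) +
            (itP 3 : Pr [] (.prod Ma Un) Un).cost (F := F) () () (H, Rv)) + 1 +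
          (itP k : Pr [] (.prod Un Un) Un).cost (F := F) () () (W, U)) + 2 := by
        rw [hW, hU, hRv, hLv]
        simp only [budP, cost_lt, cost_comp, cost_pair, cost_one, cost_fst, cost_cons, cost_star,
          cost_snd, val_comp, val_pair, val_one, val_fst, val_cons, val_star, val_snd]
      rw [e0, cost_replP]
    rw [e]
    have hMT : M ≤ (lq * ld) ^ (k + 1) * M := Nat.le_mul_of_pos_left _ hPk1
    have hPT : lq * ld ≤ (lq * ld) ^ (k + 1) * M :=
      hPk2.trans (Nat.le_mul_of_pos_right _ (by omega))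
    have hT1 : 1 ≤ (lq * ld) ^ (k + 1) * M := by omega
    have f2 : (20 * (L + 1) + 50) * (B + 1) + 30 ≤ 310 * ((lq * ld) ^ (k + 1) * M) := by
      have g1 : (20 * (L + 1) + 50) * (B + 1) ≤ (70 * (L + 1)) * (B + 1) :=
        Nat.mul_le_mul_right _ (by omega)
      have g2 : (70 * (L + 1)) * (B + 1) = 70 * ((B + 1) * (L + 1)) := by ring
      omega
    have f3 : 100 * (3 + 1) * M * (C + 1) ≤ 400 * ((C + 1) * ((lq * ld) ^ (k + 1) * M)) := by
      calc 100 * (3 + 1) * M * (C + 1) ≤ 100 * (3 + 1) * ((lq * ld) ^ (k + 1) * M) * (C + 1) := by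
            gcongr
        _ = _ := by ring
    have f4 : 100 * (k + 1) * ((B + 1) * (L + 1)) ^ k * (M * C + 1) ≤
        100 * (k + 1) * 4 ^ k * (C + 1) * ((lq * ld) ^ (k + 1) * M) := by
      have g1 : M * C + 1 ≤ (C + 1) * M := by
        have g3 : (C + 1) * M = M * C + M := by ring
        omega
      calc 100 * (k + 1) * ((B + 1) * (L + 1)) ^ k * (M * C + 1)
          ≤ 100 * (k + 1) * (4 ^ k * (lq * ld) ^ (k + 1)) * ((C + 1) * M) :=
            Nat.mul_le_mul (Nat.mul_le_mul_left _ hWk) g1
        _ = _ := by ring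
    have f5 : d + 1 ≤ (lq * ld) ^ (k + 1) * M := by omega
    have f8 : C + 1 ≤ (C + 1) * ((lq * ld) ^ (k + 1) * M) := Nat.le_mul_of_pos_right _ hT1
    have f9 : (lq * ld) ^ (k + 1) * M ≤ (C + 1) * ((lq * ld) ^ (k + 1) * M) :=
      Nat.le_mul_of_pos_left _ (by omega)
    have f11 : (C + 1) * ((lq * ld) ^ (k + 1) * M) ≤
        (k + 1) * 4 ^ k * ((C + 1) * ((lq * ld) ^ (k + 1) * M)) :=
      Nat.le_mul_of_pos_left _ (Nat.mul_pos (by omega) (by omega))
    have f12 : 100 * (k + 1) * 4 ^ k * (C + 1) * ((lq * ld) ^ (k + 1) * M) =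
        100 * ((k + 1) * 4 ^ k * ((C + 1) * ((lq * ld) ^ (k + 1) * M))) := by ring
    have f13 : 100000 * (k + 1) * 4 ^ k * (C + 1) * ((lq * ld) ^ (k + 1) * M) =
        100000 * ((k + 1) * 4 ^ k * ((C + 1) * ((lq * ld) ^ (k + 1) * M))) := by ring
    rw [f12] at f4
    rw [f13]
    generalize (lq * ld) ^ (k + 1) * M = T at *
    generalize (C + 1) * T = T2 at *
    generalize (k + 1) * 4 ^ k * T2 = T3 at *
    omega

end Pool.Agent.H330AB.JL11a
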