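import Pool.Agent.H330AB.SpecC1
set_option autoImplicit false
noncomputable section
namespace Pool.Agent.H330AB.JL12
open Polynomial Pool.Agent.H330FB
/- FINAL STATEMENT (job 5625). Auxiliary lemmas copied from JE9, JT4, JF4 and renamed finalSmall_... -/

section finalSmallAux

variable {F : Type} [Field F]

/-- auxiliary: outer variable to `X 0`, inner variable to `X 1` -/
noncomputable def finalSmall_finPhi : F[X][X] →+* MvPolynomial (Fin 2) F :=
  Polynomial.eval₂RingHom (Polynomial.eval₂RingHom MvPolynomial.C (MvPolynomial.X 1))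
    (MvPolynomial.X 0)

/-- auxiliary: the inverse -/
noncomputable def finalSmall_finPsi : MvPolynomial (Fin 2) F →+* F[X][X] :=
  MvPolynomial.eval₂Hom (Polynomial.C.comp Polynomial.C)
    ![Polynomial.X, Polynomial.C Polynomial.X]

/-- auxiliary: the isomorphism -/
noncomputable def finalSmall_finE : F[X][X] ≃+* MvPolynomial (Fin 2) F :=
  RingEquiv.ofRingHom finalSmall_finPhi finalSmall_finPsi
    (by
      apply MvPolynomial.ringHom_ext
      · intro r; simp [finalSmall_finPhi, finalSmall_finPsi]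
      · intro i; fin_cases i <;> simp [finalSmall_finPhi, finalSmall_finPsi])
    (by
      apply Polynomial.ringHom_ext'
      · apply Polynomial.ringHom_ext
        · intro a; simp [finalSmall_finPhi, finalSmall_finPsi]
        · simp [finalSmall_finPhi, finalSmall_finPsi]
      · simp [finalSmall_finPhi, finalSmall_finPsi])

theorem finalSmall_finE_apply (p : F[X][X]) : finalSmall_finE p = finalSmall_finPhi p := rfl

theorem finalSmall_finE_CC (a : F) : finalSmall_finE (C (C a)) = MvPolynomial.C a := by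
  simp [finalSmall_finE_apply, finalSmall_finPhi]

theorem finalSmall_finE_hom (l : List (List F)) : finalSmall_finE (hom l) = ofRows l := by
  simp only [finalSmall_finE_apply, hom, ofRows, map_sum, map_mul, map_pow]
  refine Finset.sum_congr rfl fun k _ => Finset.sum_congr rfl fun j _ => ?_
  simp [finalSmall_finPhi]
  ring

/-- auxiliary: exponent vector -/
noncomputable def finalSmall_fexp (a b : ℕ) : Fin 2 →₀ ℕ := Finsupp.single 0 a + Finsupp.single 1 b

theorem finalSmall_fexp_zero (a b : ℕ) : finalSmall_fexp a b 0 = a := by simp [finalSmall_fexp]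

theorem finalSmall_fexp_one (a b : ℕ) : finalSmall_fexp a b 1 = b := by simp [finalSmall_fexp]

theorem finalSmall_fexp_eq (m : Fin 2 →₀ ℕ) : m = finalSmall_fexp (m 0) (m 1) := by
  ext i
  fin_cases i
  · simp [finalSmall_fexp]
  · simp [finalSmall_fexp]

theorem finalSmall_coeff_ofRows (l : List (List F)) (a b : ℕ) :
    (ofRows l).coeff (finalSmall_fexp a b) = (l.getD (a + b) []).getD b 0 := by
  have hmon : ∀ k j : ℕ, (MvPolynomial.C ((l.getD k []).getD j 0) * MvPolynomial.X 0 ^ (k - j) *
      MvPolynomial.X 1 ^ j : MvPolynomial (Fin 2) F) =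
      MvPolynomial.monomial (finalSmall_fexp (k - j) j) ((l.getD k []).getD j 0) := by
    intro k j
    rw [MvPolynomial.X_pow_eq_monomial, MvPolynomial.X_pow_eq_monomial,
      MvPolynomial.C_mul_monomial, MvPolynomial.monomial_mul, mul_one, mul_one, finalSmall_fexp]
  unfold ofRows
  simp only [hmon, MvPolynomial.coeff_sum, MvPolynomial.coeff_monomial]
  have hiff : ∀ k j : ℕ, j ≤ k → (finalSmall_fexp (k - j) j = finalSmall_fexp a b ↔ k = a + b ∧ j = b) := by
    intro k j hj
    constructor
    · intro h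
      have h0 := congrArg (fun m : Fin 2 →₀ ℕ => m 0) h
      have h1 := congrArg (fun m : Fin 2 →₀ ℕ => m 1) h
      simp only [finalSmall_fexp_zero, finalSmall_fexp_one] at h0 h1
      omega
    · rintro ⟨rfl, rfl⟩
      simp
  by_cases hab : a + b < l.length
  · rw [Finset.sum_eq_single (a + b), Finset.sum_eq_single b]
    · rw [if_pos ((hiff _ _ (by omega)).2 ⟨rfl, rfl⟩)]
    · intro j hj hne
      rw [Finset.mem_range] at hj
      rw [if_neg]
      rw [hiff _ _ (by omega)]
      exact fun h => hne h.2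
    · intro h
      exact absurd (Finset.mem_range.2 (by omega)) h
    · intro k _ hne
      refine Finset.sum_eq_zero fun j hj => ?_
      rw [Finset.mem_range] at hj
      rw [if_neg]
      rw [hiff _ _ (by omega)]
      exact fun h => hne h.1
    · intro h
      exact absurd (Finset.mem_range.2 hab) h
  · have h1 : l.getD (a + b) [] = [] := List.getD_eq_default _ _ (by omega)
    rw [h1]
    refine Finset.sum_eq_zero fun k hk => Finset.sum_eq_zero fun j hj => ?_
    rw [Finset.mem_range] at hk hj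
    rw [if_neg]
    rw [hiff _ _ (by omega)]
    exact fun h => by omega

theorem finalSmall_getD_coeffRows (d : ℕ) (f : MvPolynomial (Fin 2) F) (k : ℕ) (hk : k ≤ d) :
    (coeffRows d f).getD k [] = (List.range (k + 1)).map (fun j => f.coeff (finalSmall_fexp (k - j) j)) := by
  unfold coeffRows
  rw [List.getD_eq_getElem _ _ (by simpa using by omega)]
  simp [finalSmall_fexp]

theorem finalSmall_isHom_coeffRows (d : ℕ) (f : MvPolynomial (Fin 2) F) : IsHom d (coeffRows d f) := by
  refine ⟨by simp [coeffRows], fun k hk => ?_⟩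
  rw [finalSmall_getD_coeffRows d f k hk]
  simp

theorem finalSmall_entry_coeffRows (d : ℕ) (f : MvPolynomial (Fin 2) F) (k j : ℕ) (hk : k ≤ d) (hj : j ≤ k) :
    ((coeffRows d f).getD k []).getD j 0 = f.coeff (finalSmall_fexp (k - j) j) := by
  rw [finalSmall_getD_coeffRows d f k hk, List.getD_eq_getElem _ _ (by simpa using by omega)]
  simp

theorem finalSmall_fin_sum_two (m : Fin 2 →₀ ℕ) : (m.sum fun _ e => e) = m 0 + m 1 := by
  rw [Finsupp.sum_fintype _ _ (fun _ => rfl), Fin.sum_univ_two]

theorem finalSmall_topNe_coeffRows (d : ℕ) (f : MvPolynomial (Fin 2) F) (hd : 1 ≤ d)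
    (hf : f.totalDegree = d) : TopNe d (coeffRows d f) := by
  have hne : f.support.Nonempty := by
    rw [Finset.nonempty_iff_ne_empty]
    intro h
    rw [MvPolynomial.support_eq_empty] at h
    rw [h, MvPolynomial.totalDegree_zero] at hf
    omega
  obtain ⟨m, hm, hms⟩ := Finset.exists_mem_eq_sup f.support hne (fun s => s.sum fun _ e => e)
  have h1 : f.totalDegree = m.sum fun _ e => e := hms
  rw [hf, finalSmall_fin_sum_two] at h1
  refine ⟨m 1, ?_⟩
  rw [finalSmall_entry_coeffRows d f d (m 1) le_rfl (by omega)]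
  have h2 : finalSmall_fexp (d - m 1) (m 1) = m := by
    conv_rhs => rw [finalSmall_fexp_eq m]
    congr 1
    omega
  rw [h2]
  exact MvPolynomial.mem_support_iff.1 hm

theorem finalSmall_ofRows_coeffRows (d : ℕ) (f : MvPolynomial (Fin 2) F) (hf : f.totalDegree = d) :
    ofRows (coeffRows d f) = f := by
  ext m
  rw [finalSmall_fexp_eq m, finalSmall_coeff_ofRows]
  by_cases hm : m 0 + m 1 ≤ d
  · rw [finalSmall_entry_coeffRows d f _ _ hm (by omega)]
    congr 2
    omega
  · have h1 : (coeffRows d f).getD (m 0 + m 1) [] = [] := by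
      apply List.getD_eq_default
      rw [(finalSmall_isHom_coeffRows d f).1]
      omega
    rw [h1]
    symm
    simp only [List.getD_nil]
    apply MvPolynomial.coeff_eq_zero_of_totalDegree_lt
    rw [hf]
    have h2 := finalSmall_fin_sum_two (finalSmall_fexp (m 0) (m 1))
    rw [finalSmall_fexp_zero, finalSmall_fexp_one] at h2
    rw [Finsupp.sum] at h2
    omega

theorem finalSmall_comm {k : Type} [Field k] [Algebra F k] (P : F[X][X]) :
    finalSmall_finE (bcp k P) =
      MvPolynomial.map (algebraMap F k) (finalSmall_finE P) := by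
  have h : (finalSmall_finPhi (F := k)).comp
      (Polynomial.mapRingHom (Polynomial.mapRingHom (algebraMap F k))) =
      (MvPolynomial.map (algebraMap F k)).comp (finalSmall_finPhi (F := F)) := by
    apply Polynomial.ringHom_ext'
    · apply Polynomial.ringHom_ext
      · intro a; simp [finalSmall_finPhi]
      · simp [finalSmall_finPhi]
    · simp [finalSmall_finPhi]
  have h2 := congrArg (fun φ : F[X][X] →+* MvPolynomial (Fin 2) k => φ P) h
  exact h2

theorem finalSmall_pol {K : Type} [Field K] (l : List K) :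
    ∑ i ∈ Finset.range l.length, Polynomial.C (l.getD i 0) * Polynomial.X ^ i = pol l := by
  induction l with
  | nil => rfl
  | cons x l ih =>
    have e : pol (x :: l) = Polynomial.C x + Polynomial.X * pol l := rfl
    rw [e, ← ih, List.length_cons, Finset.sum_range_succ', Finset.mul_sum, add_comm]
    congr 1
    · rw [List.getD_cons_zero, pow_zero, mul_one]
    · refine Finset.sum_congr rfl fun i _ => ?_
      rw [List.getD_cons_succ, pow_succ]
      ring

theorem finalSmall_monic {K : Type} [Field K] (l : List K) : monicOf l = mpol l := by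
  unfold monicOf mpol
  rw [finalSmall_pol]

theorem finalSmall_hz {k : Type} [Field k] [Algebra F k] (ζ : k)
    (l : List (List (List F))) : finalSmall_finE (hz ζ l) = absFactor ζ l := by
  unfold hz absFactor
  rw [map_sum]
  refine Finset.sum_congr rfl fun b _ => ?_
  rw [map_mul, finalSmall_finE_CC, finalSmall_comm,
    finalSmall_finE_hom]

theorem finalSmall_sqf {k : Type} [Field k] (φ : F →+* k) {q : F[X]}
    (h : Squarefree (q.map φ)) : Squarefree q := by
  intro x hx
  have h1 : x.map φ * x.map φ ∣ q.map φ := by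
    rw [← Polynomial.map_mul]
    exact Polynomial.map_dvd φ hx
  have h2 := h _ h1
  rw [Polynomial.isUnit_iff_degree_eq_zero] at h2 ⊢
  rwa [Polynomial.degree_map] at h2

theorem finalSmall_conv {K : Type} [Field K] (d : ℕ) (f : MvPolynomial (Fin 2) K)
    (hf : f.totalDegree = d) (out : List (List K × (List (List (List K)) × List Unit)))
    (h : FacAbs (AlgebraicClosure K) (coeffRows d f) out) : IsAbsFactorization f out := by
  obtain ⟨h1, ⟨h2, h3⟩, u, hu, h4⟩ := h
  refine ⟨fun o ho => ?_, ⟨h2, fun o ho o' ho' α α' hα hα' hass => ?_⟩, u, hu, ?_⟩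
  · obtain ⟨a1, a2, a3, a4, -, a6⟩ := h1 o ho
    refine ⟨a1, ?_, a3.le, a4, fun α hα => ?_⟩
    · rw [finalSmall_monic]
      exact finalSmall_sqf _ a2
    · rw [finalSmall_monic] at hα
      rw [← finalSmall_hz]
      exact (MulEquiv.irreducible_iff finalSmall_finE).2 (a6 α hα)
  · rw [finalSmall_monic] at hα hα'
    refine h3 o ho o' ho' α α' hα hα' ?_
    rw [← finalSmall_hz, ← finalSmall_hz] at hass
    have := hass.map finalSmall_finE.symm
    rwa [RingEquiv.symm_apply_apply, RingEquiv.symm_apply_apply] at this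
  · have h5 := congrArg finalSmall_finE h4
    rw [finalSmall_comm, finalSmall_finE_hom,
      finalSmall_ofRows_coeffRows d f hf, map_mul,
      finalSmall_finE_CC, map_list_prod, List.map_map] at h5
    rw [h5]
    congr 3
    funext o
    simp only [Function.comp_apply]
    rw [map_multiset_prod, Multiset.map_map, finalSmall_monic]
    congr 2
    funext ζ
    simp only [Function.comp_apply]
    rw [map_pow, finalSmall_hz]


end finalSmallAux

theorem finalSmall_lgc (d : ℕ) : lgc d ≤ 2 * (Nat.log 2 d + 1) := by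
  have h1 : Nat.clog 2 d ≤ Nat.log 2 d + 1 := by
    rw [Nat.clog_le_iff_le_pow (by norm_num)]
    exact (Nat.lt_pow_succ_log_self (by norm_num) d).le
  unfold lgc
  omega

theorem finalSmall_lgcq (d q : ℕ) (hq : q < 200 * d ^ 5) : lgc q ≤ 14 * (Nat.log 2 d + 1) := by
  have h1 : Nat.clog 2 q ≤ 8 + 5 * (Nat.log 2 d + 1) := by
    rw [Nat.clog_le_iff_le_pow (by norm_num)]
    have h2 : d ≤ 2 ^ (Nat.log 2 d + 1) := (Nat.lt_pow_succ_log_self (by norm_num) d).le
    calc q ≤ 200 * d ^ 5 := hq.le
      _ ≤ 2 ^ 8 * (2 ^ (Nat.log 2 d + 1)) ^ 5 :=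
          Nat.mul_le_mul (by norm_num) (Nat.pow_le_pow_left h2 5)
      _ = 2 ^ (8 + 5 * (Nat.log 2 d + 1)) := by
          rw [← pow_mul, ← pow_add, mul_comm 5]
  unfold lgc
  omega

/-- TARGET -/
theorem finalSmall (h1 : SpecSmC) : FinalSmall := by
  obtain ⟨w, C, k, hw⟩ := h1
  refine ⟨w, C * 28 ^ k * 8, 2 * k, ?_⟩
  intro K _ _ _ p m d f hp hc hd hf hpd hq
  obtain ⟨h1, h2⟩ := hw K (Fintype.card K) p m d (coeffRows d f) hp rfl hc
    (finalSmall_isHom_coeffRows d f) hd (finalSmall_topNe_coeffRows d f hd hf) hpd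
  have hL : 1 ≤ Nat.log 2 d + 1 := by omega
  have e0 : (d + 1) ^ 3 ≤ 8 * d ^ 3 := by
    calc (d + 1) ^ 3 ≤ (2 * d) ^ 3 := Nat.pow_le_pow_left (by omega) 3
      _ = 8 * d ^ 3 := by ring
  have e0' : (d + 1) ^ 2 ≤ 8 * d ^ 2 := by
    calc (d + 1) ^ 2 ≤ (2 * d) ^ 2 := Nat.pow_le_pow_left (by omega) 2
      _ = 4 * d ^ 2 := by ring
      _ ≤ 8 * d ^ 2 := Nat.mul_le_mul_right _ (by norm_num)
  have e1 : (lgc (Fintype.card K) * lgc d) ^ k ≤ 28 ^ k * (Nat.log 2 d + 1) ^ (2 * k) := by
    calc (lgc (Fintype.card K) * lgc d) ^ k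
        ≤ ((14 * (Nat.log 2 d + 1)) * (2 * (Nat.log 2 d + 1))) ^ k :=
          Nat.pow_le_pow_left
            (Nat.mul_le_mul (finalSmall_lgcq d _ hq) (finalSmall_lgc d)) k
      _ = (28 * (Nat.log 2 d + 1) ^ 2) ^ k := by congr 1; ring
      _ = 28 ^ k * (Nat.log 2 d + 1) ^ (2 * k) := by rw [mul_pow, ← pow_mul]
  have e2 : lgc d ^ k ≤ 28 ^ k * (Nat.log 2 d + 1) ^ (2 * k) := by
    calc lgc d ^ k ≤ (28 * (Nat.log 2 d + 1) ^ 2) ^ k := by
          refine Nat.pow_le_pow_left ((finalSmall_lgc d).trans ?_) k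
          exact Nat.mul_le_mul (by norm_num) (Nat.le_self_pow (by norm_num) _)
      _ = 28 ^ k * (Nat.log 2 d + 1) ^ (2 * k) := by rw [mul_pow, ← pow_mul]
  refine ⟨fun ω => (h1 ω).trans ?_, ?_⟩
  · calc C * ((lgc (Fintype.card K) * lgc d) ^ k * (d + 1) ^ 3)
        ≤ C * ((28 ^ k * (Nat.log 2 d + 1) ^ (2 * k)) * (8 * d ^ 3)) :=
          Nat.mul_le_mul_left _ (Nat.mul_le_mul e1 e0)
      _ = C * 28 ^ k * 8 * d ^ 3 * (Nat.log 2 d + 1) ^ (2 * k) := by ring
  · have hN : C * lgc d ^ k * (d + 1) ^ 2 ≤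
        C * 28 ^ k * 8 * d ^ 2 * (Nat.log 2 d + 1) ^ (2 * k) := by
      calc C * lgc d ^ k * (d + 1) ^ 2
          ≤ C * (28 ^ k * (Nat.log 2 d + 1) ^ (2 * k)) * (8 * d ^ 2) :=
            Nat.mul_le_mul (Nat.mul_le_mul_left _ e2) e0'
        _ = C * 28 ^ k * 8 * d ^ 2 * (Nat.log 2 d + 1) ^ (2 * k) := by ring
    refine (h2 _ hN).trans (Nat.mul_le_mul_left 3 ?_)
    have himp : ∀ ω : Fin (C * 28 ^ k * 8 * d ^ 2 * (Nat.log 2 d + 1) ^ (2 * k)) → K,
        FacAbs (AlgebraicClosure K) (coeffRows d f)
          (w.val () ((bits K (Fintype.card K), un m), (coeffRows d f, List.ofFn ω))) →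
        IsAbsFactorization f
          (w.val () ((binary K (Fintype.card K), List.replicate m ()),
            (coeffRows d f, List.ofFn ω))) :=
      fun ω h => finalSmall_conv d f hf _ h
    exact Nat.card_le_card_of_injective
      (fun ω : {ω : Fin (C * 28 ^ k * 8 * d ^ 2 * (Nat.log 2 d + 1) ^ (2 * k)) → K //
          FacAbs (AlgebraicClosure K) (coeffRows d f)
          (w.val () ((bits K (Fintype.card K), un m), (coeffRows d f, List.ofFn ω)))} =>
        (⟨ω.1, himp ω.1 ω.2⟩ : {ω : Fin (C * 28 ^ k * 8 * d ^ 2 *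
          (Nat.log 2 d + 1) ^ (2 * k)) → K // IsAbsFactorization f
          (w.val () ((binary K (Fintype.card K), List.replicate m ()),
            (coeffRows d f, List.ofFn ω)))}))
      (fun a b hab => by
        have h9 := congrArg (fun z => z.1) hab
        exact Subtype.ext h9)
end Pool.Agent.H330AB.JL12
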