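import Pool.Agent.H330AB.SpecC1
set_option autoImplicit false
noncomputable section
noncomputable section
namespace Pool.Agent.H330AB.JL2
open Polynomial Pool.Agent.H330FB

namespace JL2

/-- programs for the functions in `s`, in the context `s'`, with an additional argument -/
def Env (cx : Ty) (s' : List (Ty × Ty)) : List (Ty × Ty) → Type
  | [] => Unit
  | (σ, τ) :: s => Pr s' (.prod cx σ) τ × Env cx s' s

/-- weakening -/
def Env.up {cx : Ty} {s' : List (Ty × Ty)} (σ' τ' : Ty) : {s : List (Ty × Ty)} →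
    Env cx s' s → Env cx ((σ', τ') :: s') s
  | [], _ => ()
  | (_, _) :: _, E => (.up E.1, Env.up σ' τ' E.2)

/-- translation -/
def tra {cx : Ty} {s : List (Ty × Ty)} {a b : Ty} (w : Pr s a b) : (s' : List (Ty × Ty)) →
    Env cx s' s → Pr s' (.prod cx a) b :=
  Pr.rec (motive := fun s a b _ => (s' : List (Ty × Ty)) → Env cx s' s → Pr s' (.prod cx a) b)
    (fun _ _ => .snd)
    (fun _ _ p q s' E => .comp (.pair .fst (p s' E)) (q s' E))
    (fun _ _ p q s' E => .pair (p s' E) (q s' E))
    (fun _ _ => .comp .snd .fst)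
    (fun _ _ => .comp .snd .snd)
    (fun _ _ => .star)
    (fun _ _ => .nil)
    (fun _ _ => .comp .snd .cons)
    (fun _ _ p q s' E => .comp (.pair (.pair .fst (.comp .snd .fst)) (.comp .snd .snd))
      (.caseL (p s' E) (.comp (.pair (.comp .fst .fst) (.pair (.comp .fst .snd) .snd)) (q s' E))))
    (fun _ _ => .zero)
    (fun _ _ => .one)
    (fun _ _ => .comp .snd .add)
    (fun _ _ => .comp .snd .neg)
    (fun _ _ => .comp .snd .mul)
    (fun _ _ => .comp .snd .inv)
    (fun _ _ p q s' E => .comp (.pair (.pair .fst (.comp .snd .fst)) (.comp .snd .snd))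
      (.ifz (p s' E) (q s' E)))
    (fun _ E => E.1)
    (fun _ p s' E => p s' E.2)
    (fun {_ σ τ _} _ _ p q s' E =>
      .comp (.pair (.comp .snd .fst) (.pair .fst (.comp .snd .snd)))
        (.recD (p ((.prod cx σ, τ) :: s') (.self, Env.up (.prod cx σ) τ E)) (q s' E)))
    w

section
variable {F : Type} [Field F] [DecidableEq F] {cx : Ty} (c : Ty.D F cx)

/-- related values -/
def RelV : (s : List (Ty × Ty)) → SV F s → (s' : List (Ty × Ty)) → SV F s' → Env cx s' s → Prop
  | [], _, _, _, _ => True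
  | (σ, _) :: s, v, s', v', E => (∀ x : Ty.D F σ, E.1.val v' (c, x) = v.1 x) ∧
      RelV s v.2 s' v' E.2

/-- related costs -/
def RelC (Λ : ℕ) : (s : List (Ty × Ty)) → SC F s → (s' : List (Ty × Ty)) → SV F s' → SC F s' →
    Env cx s' s → Prop
  | [], _, _, _, _, _ => True
  | (σ, _) :: s, k, s', v', k', E => (∀ x : Ty.D F σ, E.1.cost v' k' (c, x) ≤ Λ * k.1 x) ∧
      RelC Λ s k.2 s' v' k' E.2

theorem relV_up {σ' τ' : Ty} (f : Ty.D F σ' → Ty.D F τ') : {s : List (Ty × Ty)} → {v : SV F s} →
    {s' : List (Ty × Ty)} → {v' : SV F s'} → {E : Env cx s' s} → RelV c s v s' v' E →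
    RelV c s v ((σ', τ') :: s') (f, v') (E.up σ' τ')
  | [], _, _, _, _, _ => trivial
  | (_, _) :: _, _, _, _, _, h => ⟨h.1, relV_up f h.2⟩

theorem relC_up {Λ : ℕ} {σ' τ' : Ty} (f : Ty.D F σ' → Ty.D F τ') (g : Ty.D F σ' → ℕ) :
    {s : List (Ty × Ty)} → {k : SC F s} →
    {s' : List (Ty × Ty)} → {v' : SV F s'} → {k' : SC F s'} → {E : Env cx s' s} →
    RelC c Λ s k s' v' k' E →
    RelC c Λ s k ((σ', τ') :: s') (f, v') (g, k') (E.up σ' τ')
  | [], _, _, _, _, _, _ => trivial
  | (_, _) :: _, _, _, _, _, _, h => ⟨h.1, relC_up f g h.2⟩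

theorem main (Λ : ℕ) (hΛ : 100 ≤ Λ) {s : List (Ty × Ty)} {a b : Ty} (w : Pr s a b) :
    ∀ (s' : List (Ty × Ty)) (E : Env cx s' s) (v : SV F s) (v' : SV F s'),
    RelV c s v s' v' E → (∀ x : Ty.D F a, (tra w s' E).val v' (c, x) = w.val v x) ∧
    ∀ (k : SC F s) (k' : SC F s'), RelC c Λ s k s' v' k' E →
      ∀ x : Ty.D F a, (tra w s' E).cost v' k' (c, x) + 2 ≤ Λ * w.cost v k x := by
  induction w with
  | id =>
    intro s' E v v' hv
    refine ⟨fun x => rfl, fun k k' hk x => ?_⟩
    have e : (tra (cx := cx) (.id : Pr _ _ _) s' E).cost v' k' (c, x) = 1 := rfl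
    rw [e, cost_id]
    omega
  | @comp s a b d p q ihp ihq =>
    intro s' E v v' hv
    obtain ⟨hp1, hp2⟩ := ihp s' E v v' hv
    obtain ⟨hq1, hq2⟩ := ihq s' E v v' hv
    refine ⟨fun x => ?_, fun k k' hk x => ?_⟩
    · have e : (tra (cx := cx) (.comp p q) s' E).val v' (c, x) =
        (tra q s' E).val v' (c, (tra p s' E).val v' (c, x)) := rfl
      rw [e, hp1, hq1, val_comp]
    · have e : (tra (cx := cx) (.comp p q) s' E).cost v' k' (c, x) =
        (1 + (tra p s' E).cost v' k' (c, x) + 1) +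
          (tra q s' E).cost v' k' (c, (tra p s' E).val v' (c, x)) := rfl
      rw [e, hp1, cost_comp]
      have h1 := hp2 k k' hk x
      have h2 := hq2 k k' hk (p.val v x)
      rw [mul_add]
      omega
  | @pair s a b d p q ihp ihq =>
    intro s' E v v' hv
    obtain ⟨hp1, hp2⟩ := ihp s' E v v' hv
    obtain ⟨hq1, hq2⟩ := ihq s' E v v' hv
    refine ⟨fun x => ?_, fun k k' hk x => ?_⟩
    · have e : (tra (cx := cx) (.pair p q) s' E).val v' (c, x) =
        ((tra p s' E).val v' (c, x), (tra q s' E).val v' (c, x)) := rfl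
      rw [e, hp1, hq1, val_pair]
    · have e : (tra (cx := cx) (.pair p q) s' E).cost v' k' (c, x) =
        (tra p s' E).cost v' k' (c, x) + (tra q s' E).cost v' k' (c, x) + 1 := rfl
      rw [e, cost_pair]
      have h1 := hp2 k k' hk x
      have h2 := hq2 k k' hk x
      rw [mul_add, mul_add]
      omega
  | fst =>
    intro s' E v v' hv
    refine ⟨fun x => rfl, fun k k' hk x => ?_⟩
    have e : (tra (cx := cx) (.fst : Pr _ _ _) s' E).cost v' k' (c, x) = 2 := rfl
    rw [e, cost_fst]
    omega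
  | snd =>
    intro s' E v v' hv
    refine ⟨fun x => rfl, fun k k' hk x => ?_⟩
    have e : (tra (cx := cx) (.snd : Pr _ _ _) s' E).cost v' k' (c, x) = 2 := rfl
    rw [e, cost_snd]
    omega
  | star =>
    intro s' E v v' hv
    refine ⟨fun x => rfl, fun k k' hk x => ?_⟩
    have e : (tra (cx := cx) (.star : Pr _ _ _) s' E).cost v' k' (c, x) = 1 := rfl
    rw [e, cost_star]
    omega
  | @nil s a b =>
    intro s' E v v' hv
    refine ⟨fun x => rfl, fun k k' hk x => ?_⟩
    have e : (tra (cx := cx) (.nil : Pr s a (.list b)) s' E).cost v' k' (c, x) = 1 := rfl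
    rw [e, cost_nil]
    omega
  | cons =>
    intro s' E v v' hv
    refine ⟨fun x => rfl, fun k k' hk x => ?_⟩
    have e : (tra (cx := cx) (.cons : Pr _ _ _) s' E).cost v' k' (c, x) = 2 := rfl
    rw [e, cost_cons]
    omega
  | @caseL s a b d p q ihp ihq =>
    intro s' E v v' hv
    obtain ⟨hp1, hp2⟩ := ihp s' E v v' hv
    obtain ⟨hq1, hq2⟩ := ihq s' E v v' hv
    refine ⟨fun x => ?_, fun k k' hk x => ?_⟩
    · obtain ⟨x, l⟩ := x
      rw [val_caseL]
      cases l with
      | nil => exact hp1 x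
      | cons y l => exact hq1 (x, (y, l))
    · obtain ⟨x, l⟩ := x
      rw [cost_caseL]
      cases l with
      | nil =>
        have e : (tra (cx := cx) (.caseL p q) s' E).cost v' k' (c, (x, [])) =
          7 + ((tra p s' E).cost v' k' (c, x) + 1) := rfl
        rw [e]
        simp only [lcase_nil]
        have h1 := hp2 k k' hk x
        rw [mul_add]
        omega
      | cons y l =>
        have e : (tra (cx := cx) (.caseL p q) s' E).cost v' k' (c, (x, y :: l)) =
          7 + (7 + (tra q s' E).cost v' k' (c, (x, (y, l))) + 1) := rfl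
        rw [e]
        simp only [lcase_cons]
        have h1 := hq2 k k' hk (x, (y, l))
        rw [mul_add]
        omega
  | @zero s a =>
    intro s' E v v' hv
    refine ⟨fun x => rfl, fun k k' hk x => ?_⟩
    have e : (tra (cx := cx) (.zero : Pr s a .fld) s' E).cost v' k' (c, x) = 1 := rfl
    rw [e, cost_zero]
    omega
  | @one s a =>
    intro s' E v v' hv
    refine ⟨fun x => rfl, fun k k' hk x => ?_⟩
    have e : (tra (cx := cx) (.one : Pr s a .fld) s' E).cost v' k' (c, x) = 1 := rfl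
    rw [e, cost_one]
    omega
  | add =>
    intro s' E v v' hv
    refine ⟨fun x => rfl, fun k k' hk x => ?_⟩
    have e : (tra (cx := cx) (.add : Pr _ _ _) s' E).cost v' k' (c, x) = 2 := rfl
    rw [e, cost_add]
    omega
  | neg =>
    intro s' E v v' hv
    refine ⟨fun x => rfl, fun k k' hk x => ?_⟩
    have e : (tra (cx := cx) (.neg : Pr _ _ _) s' E).cost v' k' (c, x) = 2 := rfl
    rw [e, cost_neg]
    omega
  | mul =>
    intro s' E v v' hv
    refine ⟨fun x => rfl, fun k k' hk x => ?_⟩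
    have e : (tra (cx := cx) (.mul : Pr _ _ _) s' E).cost v' k' (c, x) = 2 := rfl
    rw [e, cost_mul]
    omega
  | inv =>
    intro s' E v v' hv
    refine ⟨fun x => rfl, fun k k' hk x => ?_⟩
    have e : (tra (cx := cx) (.inv : Pr _ _ _) s' E).cost v' k' (c, x) = 2 := rfl
    rw [e, cost_inv]
    omega
  | @ifz s a b p q ihp ihq =>
    intro s' E v v' hv
    obtain ⟨hp1, hp2⟩ := ihp s' E v v' hv
    obtain ⟨hq1, hq2⟩ := ihq s' E v v' hv
    refine ⟨fun x => ?_, fun k k' hk x => ?_⟩
    · obtain ⟨x, z⟩ := x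
      rw [val_ifz]
      have e : (tra (cx := cx) (.ifz p q) s' E).val v' (c, (x, z)) =
        if (z : F) = 0 then (tra p s' E).val v' (c, x) else (tra q s' E).val v' (c, x) := rfl
      rw [e, hp1, hq1]
    · obtain ⟨x, z⟩ := x
      have e2 : (Pr.ifz p q).cost v k (x, z) =
        (if (z : F) = 0 then p.cost v k x else q.cost v k x) + 1 := rfl
      rw [e2]
      have e : (tra (cx := cx) (.ifz p q) s' E).cost v' k' (c, (x, z)) =
        7 + ((if (z : F) = 0 then (tra p s' E).cost v' k' (c, x)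
          else (tra q s' E).cost v' k' (c, x)) + 1) := rfl
      rw [e]
      have h1 := hp2 k k' hk x
      have h2 := hq2 k k' hk x
      rw [mul_add]
      split_ifs <;> omega
  | @self s σ τ =>
    intro s' E v v' hv
    refine ⟨fun x => hv.1 x, fun k k' hk x => ?_⟩
    have e : (tra (cx := cx) (.self : Pr ((σ, τ) :: s) σ τ) s' E).cost v' k' (c, x) =
      E.1.cost v' k' (c, x) := rfl
    rw [e, cost_self]
    have h1 := hk.1 x
    rw [mul_add]
    omega
  | @up s σ τ a b p ihp =>
    intro s' E v v' hv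
    obtain ⟨hp1, hp2⟩ := ihp s' E.2 v.2 v' hv.2
    exact ⟨fun x => hp1 x, fun k k' hk x => hp2 k.2 k' hk.2 x⟩
  | @recD s σ τ δ p q ihp ihq =>
    intro s' E v v' hv
    obtain ⟨hq1, hq2⟩ := ihq s' E v v' hv
    have hV : ∀ (n : ℕ) (x : Ty.D F σ),
        goV (tra p ((.prod cx σ, τ) :: s') (.self, Env.up (.prod cx σ) τ E)) (tra q s' E) v' n
          (c, x) = goV p q v n x := by
      intro n
      induction n with
      | zero => exact fun x => hq1 x
      | succ n ih =>
        exact fun x => (ihp ((.prod cx σ, τ) :: s') (.self, Env.up (.prod cx σ) τ E)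
          (goV p q v n, v) (goV _ _ v' n, v') ⟨ih, relV_up c _ hv⟩).1 x
    refine ⟨fun x => ?_, fun k k' hk x => ?_⟩
    · obtain ⟨l, x⟩ := x
      rw [val_recD]
      refine Eq.trans ?_ (hV _ x)
      exact val_recD (d := δ) (tra p ((.prod cx σ, τ) :: s') (.self, Env.up (.prod cx σ) τ E))
        (tra q s' E) v' (l, (c, x))
    · obtain ⟨l, x⟩ := x
      have hC : ∀ (n : ℕ) (x : Ty.D F σ),
          goC (tra p ((.prod cx σ, τ) :: s') (.self, Env.up (.prod cx σ) τ E)) (tra q s' E) v' k' n
            (c, x) + 2 ≤ Λ * goC p q v k n x := by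
        intro n
        induction n with
        | zero => exact fun x => hq2 k k' hk x
        | succ n ih =>
          intro x
          refine (ihp ((.prod cx σ, τ) :: s') (.self, Env.up (.prod cx σ) τ E)
            (goV p q v n, v) (goV _ _ v' n, v') ⟨hV n, relV_up c _ hv⟩).2
            (goC p q v k n, k) (goC _ _ v' k' n, k') ⟨fun y => ?_, relC_up c _ _ hk⟩ x
          have h1 := ih y
          rw [cost_self]
          change goC (tra p ((.prod cx σ, τ) :: s') (.self, Env.up (.prod cx σ) τ E)) (tra q s' E)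
            v' k' n (c, y) + 1 ≤ Λ * goC p q v k n y
          omega
      have e1 := cost_recD (d := δ) (tra p ((.prod cx σ, τ) :: s')
        (.self, Env.up (.prod cx σ) τ E)) (tra q s' E) v' k' (l, (c, x))
      have e : (tra (cx := cx) (.recD (d := δ) p q) s' E).cost v' k' (c, (l, x)) =
        7 + (Pr.recD (d := δ) (tra p ((.prod cx σ, τ) :: s')
          (.self, Env.up (.prod cx σ) τ E)) (tra q s' E)).cost v' k' (l, (c, x)) := rfl
      rw [e, e1, cost_recD, mul_add]
      have := hC l.length x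
      simp only
      omega

end

end JL2

theorem specElim : SpecElim := by
  intro cx rp a b w
  refine ⟨JL2.tra w [] (rp, ()), 100, ?_⟩
  intro F _ _ rt c B h x
  obtain ⟨h1, h2⟩ := JL2.main c (100 * (B + 1)) (by omega) w [] (rp, ()) (rt, ()) ()
    ⟨fun x => (h x).1, trivial⟩
  refine ⟨h1 x, ?_⟩
  have h3 := h2 ((fun _ => 1), ()) () ⟨fun y => ?_, trivial⟩ x
  · rw [mul_add]
    omega
  · have := (h y).2
    change rp.cost () () (c, y) ≤ 100 * (B + 1) * 1
    omega

end Pool.Agent.H330AB.JL2
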