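import Pool.Agent.H330AB.SpecC1
set_option autoImplicit false
noncomputable section
namespace Pool.Agent.H330AB.JL3
open Polynomial Pool.Agent.H330FB
noncomputable section
namespace JF2

lemma t4_getD_map {A B : Type} (f : A → B) (l : List A) (n : ℕ) (a : A) :
    (l.map f).getD n (f a) = f (l.getD n a) := by
  simp [List.getD_eq_getElem?_getD, List.getElem?_map]

lemma t4_getD_getD {K k : Type} [Field K] [Field k] (φ : K →+* k) (H : List (List K)) (i j : ℕ) :
    (((H.map (List.map φ)).getD i []).getD j 0) = φ ((H.getD i []).getD j 0) := by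
  have h1 := t4_getD_map (List.map φ) H i []
  rw [List.map_nil] at h1
  rw [h1]
  have h2 := t4_getD_map φ (H.getD i []) j 0
  rw [map_zero] at h2
  exact h2

lemma t4_hom {K k : Type} [Field K] [Field k] [Algebra K k] (H : List (List K)) :
    hom (H.map (List.map (algebraMap K k))) = bcp k (hom H) := by
  unfold hom bcp
  rw [Polynomial.map_sum, List.length_map]
  refine Finset.sum_congr rfl fun i _ => ?_
  rw [Polynomial.map_sum]
  refine Finset.sum_congr rfl fun j _ => ?_
  rw [t4_getD_getD]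
  simp [Polynomial.map_mul, Polynomial.map_pow]

lemma t4_isHom {K k : Type} [Field K] [Field k] (φ : K →+* k) (d : ℕ) (H : List (List K))
    (h : IsHom d H) : IsHom d (H.map (List.map φ)) := by
  refine ⟨by rw [List.length_map]; exact h.1, fun i hi => ?_⟩
  have h1 := t4_getD_map (List.map φ) H i []
  rw [List.map_nil] at h1
  rw [h1, List.length_map]
  exact h.2 i hi

lemma t4_topNe {K k : Type} [Field K] [Field k] (φ : K →+* k) (d : ℕ) (H : List (List K))
    (h : TopNe d H) : TopNe d (H.map (List.map φ)) := by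
  obtain ⟨j, hj⟩ := h
  refine ⟨j, ?_⟩
  rw [t4_getD_getD]
  intro h0
  exact hj ((map_eq_zero φ).1 h0)

lemma t4_rows {A : Type} {d : ℕ} (G : Fin d → Fin d → A) :
    (rows G).flatten = List.ofFn (fun i : Fin (d * d) => G i.divNat i.modNat) := by
  rw [List.ofFn_mul]
  unfold rows
  congr 1
  congr 1
  funext i
  congr 1
  funext j
  congr 1
  · ext
    simp only [Fin.divNat]
    rw [Nat.mul_comm, Nat.mul_add_div (by have := j.2; omega), Nat.div_eq_of_lt j.2]
    simp
  · ext
    simp only [Fin.modNat]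
    rw [Nat.mul_comm, Nat.mul_add_mod, Nat.mod_eq_of_lt j.2]

lemma t4_rows_inj {A : Type} {d : ℕ} {G G' : Fin d → Fin d → A}
    (h : (rows G).flatten = (rows G').flatten) : G = G' := by
  rw [t4_rows, t4_rows] at h
  have h2 := List.ofFn_injective h
  funext i j
  have h3 := congrFun h2 ⟨i * d + j, by have := i.2; have := j.2; nlinarith⟩
  have h4 : (Fin.divNat (⟨i * d + j, by have := i.2; have := j.2; nlinarith⟩ : Fin (d * d))) = i := by
    ext
    simp only [Fin.divNat]
    rw [Nat.mul_comm, Nat.mul_add_div (by have := j.2; omega), Nat.div_eq_of_lt j.2]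
    simp
  have h5 : (Fin.modNat (⟨i * d + j, by have := i.2; have := j.2; nlinarith⟩ : Fin (d * d))) = j := by
    ext
    simp only [Fin.modNat]
    rw [Nat.mul_comm, Nat.mul_add_mod, Nat.mod_eq_of_lt j.2]
  rw [h4, h5] at h3
  exact h3

lemma t4_rows_len {A : Type} {d : ℕ} (G : Fin d → Fin d → A) :
    (rows G).flatten.length = d * d := by
  rw [t4_rows, List.length_ofFn]

lemma t4_len {A : Type} {d : ℕ} (a b : A) (cs : Fin (d + 1) → A) (G : Fin d → Fin d → A)
    (as : Fin d → A) (g : Fin d → Fin d → A) (cb : Fin d → A) :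
    (rlist2 a b cs G as g cb).length = R2 d := by
  unfold rlist2 R2
  simp only [List.length_append, t4_rows_len, List.length_ofFn]
  simp

lemma t4_inj {A : Type} {d : ℕ} {a b a' b' : A} {cs cs' : Fin (d + 1) → A}
    {G G' : Fin d → Fin d → A} {as as' : Fin d → A}
    {g g' : Fin d → Fin d → A} {cb cb' : Fin d → A}
    (h : rlist2 a b cs G as g cb = rlist2 a' b' cs' G' as' g' cb') :
    a = a' ∧ b = b' ∧ cs = cs' ∧ G = G' ∧ as = as' ∧ g = g' ∧ cb = cb' := by
  unfold rlist2 at h
  obtain ⟨h1, h2⟩ := List.append_inj h (by simp)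
  obtain ⟨h3, h4⟩ := List.append_inj h2 (by rw [List.length_ofFn, List.length_ofFn])
  obtain ⟨h5, h6⟩ := List.append_inj h4 (by rw [t4_rows_len, t4_rows_len])
  obtain ⟨h7, h8⟩ := List.append_inj h6 (by rw [List.length_ofFn, List.length_ofFn])
  obtain ⟨h9, h10⟩ := List.append_inj h8 (by rw [t4_rows_len, t4_rows_len])
  simp only [List.cons.injEq, and_true] at h1
  exact ⟨h1.1, h1.2, List.ofFn_injective h3, t4_rows_inj h5, List.ofFn_injective h7,
    t4_rows_inj h9, List.ofFn_injective h10⟩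

lemma t4_map {A B : Type} (f : A → B) {d : ℕ} (a b : A) (cs : Fin (d + 1) → A)
    (G : Fin d → Fin d → A) (as : Fin d → A)
    (g : Fin d → Fin d → A) (cb : Fin d → A) : (rlist2 a b cs G as g cb).map f =
      rlist2 (f a) (f b) (fun j => f (cs j)) (fun i j => f (G i j)) (fun j => f (as j))
        (fun i j => f (g i j)) (fun j => f (cb j)) := by
  unfold rlist2
  rw [List.map_append, List.map_append, List.map_append, List.map_append, List.map_append,
    t4_rows, t4_rows, t4_rows, t4_rows,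
    List.map_ofFn, List.map_ofFn, List.map_ofFn, List.map_ofFn, List.map_ofFn]
  rfl

/-- the space of choices (all but the last ones) -/
abbrev XF (A : Type) (d : ℕ) : Type :=
  (A × A) × ((Fin (d + 1) → A) × ((Fin d → Fin d → A) × ((Fin d → A) × (Fin d → Fin d → A))))

lemma t4_card (A : Type) [Fintype A] (d : ℕ) : Nat.card (XF A d) =
    Fintype.card A ^ (2 + ((d + 1) + (d * d + (d + d * d)))) := by
  unfold XF
  simp only [Nat.card_eq_fintype_card, Fintype.card_prod, Fintype.card_fun, Fintype.card_fin]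
  ring

/-- the vector of random elements -/
def t4e {A : Type} {d : ℕ} (x : XF A d × (Fin d → A)) : Fin (R2 d) → A :=
  fun i => (rlist2 x.1.1.1 x.1.1.2 x.1.2.1 x.1.2.2.1 x.1.2.2.2.1 x.1.2.2.2.2 x.2).get
    (Fin.cast (t4_len _ _ _ _ _ _ _).symm i)

lemma t4e_ofFn {A : Type} {d : ℕ} (x : XF A d × (Fin d → A)) :
    List.ofFn (t4e x) =
      rlist2 x.1.1.1 x.1.1.2 x.1.2.1 x.1.2.2.1 x.1.2.2.2.1 x.1.2.2.2.2 x.2 := by
  apply List.ext_get
  · rw [List.length_ofFn, t4_len]
  · intro n h1 h2
    rw [List.get_ofFn]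
    rfl

lemma t4e_inj {A : Type} {d : ℕ} :
    Function.Injective (t4e : XF A d × (Fin d → A) → Fin (R2 d) → A) := by
  intro x y h
  have h1 := t4e_ofFn x
  have h2 := t4e_ofFn y
  rw [h] at h1
  obtain ⟨h3, h4, h5, h6, h7, h8, h9⟩ := t4_inj (h1.symm.trans h2)
  obtain ⟨⟨⟨a, b⟩, cs, G, as, g⟩, cb⟩ := x
  obtain ⟨⟨⟨a', b'⟩, cs', G', as', g'⟩, cb'⟩ := y
  simp only at h3 h4 h5 h6 h7 h8 h9
  subst h3 h4 h5 h6 h7 h8 h9
  rfl

end JF2

namespace E5

/-- value of a list of bits, least significant first -/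
def vbits : List Bool → ℕ
  | [] => 0
  | b :: l => Nat.bit b (vbits l)

theorem vbits_bits (n : ℕ) : vbits (Nat.bits n) = n := by
  induction n using Nat.binaryRec' with
  | zero => simp [vbits]
  | bit b n hn ih =>
    rw [Nat.bits_append_bit n b hn]
    simp only [vbits, ih]

theorem length_bits_le (n : ℕ) : (Nat.bits n).length ≤ lgc n := by
  rw [Nat.size_eq_bits_len, Nat.size_le]
  unfold lgc
  have h1 : n ≤ 2 ^ (Nat.clog 2 n) := Nat.le_pow_clog (by norm_num) n
  have h2 : 2 ^ (Nat.clog 2 n) < 2 ^ (Nat.clog 2 n + 1) :=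
    Nat.pow_lt_pow_right (by norm_num) (by omega)
  omega

theorem lgc_mono {a b : ℕ} (h : a ≤ b) : lgc a ≤ lgc b := by
  unfold lgc
  have := Nat.clog_mono_right 2 h
  omega

/-- power, on lists -/
def pw {F : Type} [Field F] [DecidableEq F] : List F → F → F
  | [], _ => 1
  | b :: l, x => (if b = 0 then 1 else x) * pw l (x * x)

theorem pw_bits {F : Type} [Field F] [DecidableEq F] (bs : List Bool) (x : F) :
    pw (bs.map (fun b => if b then (1 : F) else 0)) x = x ^ vbits bs := by
  induction bs generalizing x with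
  | nil => simp [pw, vbits]
  | cons b l ih =>
    rw [List.map_cons, pw, ih, vbits]
    cases b
    · simp only [Bool.false_eq_true, if_false, if_true, one_mul, Nat.bit_false]
      rw [← pow_two, ← pow_mul]
    · simp only [if_true, one_ne_zero, if_false, Nat.bit_true]
      rw [← pow_two, ← pow_mul, pow_succ]
      ring

/-- the power program; input `(bits, x)` -/
def pwP {s : List (Ty × Ty)} : Pr s (.prod Po .fld) .fld :=
  .comp (.pair .fst .id) (.recD (onL .fst .one
    (ap2 .mul (onZ (.comp .snd .fst) .one (.comp .fst .snd))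
      (.comp (.pair (.comp .snd .snd) (ap2 .mul (.comp .fst .snd) (.comp .fst .snd))) .self)))
    .one)

theorem val_pwP {F : Type} [Field F] [DecidableEq F] {s : List (Ty × Ty)} (v : SV F s)
    (l : List F) (x : F) :
    (pwP : Pr s (.prod Po .fld) .fld).val v (l, x) = pw l x := by
  simp only [pwP, val_comp, val_pair, val_fst, val_id, val_recD]
  induction l generalizing x with
  | nil => simp [goV, pw]
  | cons h t ih =>
    have := ih (x * x)
    simp [goV, pw] at this ⊢
    rw [this]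

theorem cost_pwP {F : Type} [Field F] [DecidableEq F] {s : List (Ty × Ty)} (v : SV F s)
    (k : SC F s) (l : List F) (x : F) :
    (pwP : Pr s (.prod Po .fld) .fld).cost v k (l, x) ≤ 60 * l.length + 20 := by
  simp only [pwP, cost_comp, cost_pair, val_pair, val_id, val_fst, cost_id, cost_fst, cost_recD]
  have : ∀ x : F, goC (s := s) (onL .fst .one
    (ap2 .mul (onZ (.comp .snd .fst) .one (.comp .fst .snd))
      (.comp (.pair (.comp .snd .snd) (ap2 .mul (.comp .fst .snd) (.comp .fst .snd))) .self)))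
    .one v k l.length (l, x) ≤ 60 * l.length + 10 := by
    induction l with
    | nil => intro x; simp [goC]
    | cons h t ih =>
      intro x
      have := ih (x * x)
      simp [goC] at this ⊢
      split_ifs <;> omega
  have := this x
  omega

/-- the program for the roots; input `((bits p, m), x)` -/
def rpw : Pr [] (.prod (.prod Po Un) .fld) .fld :=
  .comp (.pair (.comp .fst .fst) (.pair .snd (.comp .fst .snd)))
    (foldP (.comp (.pair .fst (.comp .snd .fst)) pwP))

theorem foldl_pw {F : Type} [Field F] [DecidableEq F] (p m : ℕ) (x : F) :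
    List.foldl (fun (y : F) (_ : Unit) => y ^ p) x (List.replicate m ()) = x ^ (p ^ m) := by
  induction m generalizing x with
  | zero => simp
  | succ m ih =>
    rw [List.replicate_succ, List.foldl_cons, ih, ← pow_mul, pow_succ, Nat.mul_comm]

theorem val_rpw {F : Type} [Field F] [DecidableEq F] (p m : ℕ) (x : F) :
    rpw.val () ((bits F p, un m), x) = x ^ (p ^ m) := by
  have h : ∀ y : F, (pwP : Pr [] (.prod Po .fld) .fld).val () (bits F p, y) = y ^ p := by
    intro y
    rw [val_pwP]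
    unfold bits
    rw [pw_bits, vbits_bits]
  unfold rpw
  simp only [val_comp, val_pair, val_fst, val_snd, val_foldP]
  rw [← foldl_pw p m x]
  unfold un
  congr 1
  funext y z
  exact h y

theorem cost_rpw {F : Type} [Field F] [DecidableEq F] (p m : ℕ) (x : F) :
    rpw.cost () () ((bits F p, un m), x) ≤ 200 * ((m + 1) * lgc p) := by
  have hb : (bits F p).length ≤ lgc p := by
    unfold bits
    rw [List.length_map]
    exact length_bits_le p
  have h := cost_foldP_le (s := []) (c := Po) (b := .fld) (a := .unit)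
    (.comp (.pair .fst (.comp .snd .fst)) pwP) () () (bits F p, (x, un m))
    (60 * lgc p + 30) (fun _ => True) trivial (fun _ _ _ _ => trivial)
    (fun y z _ _ => by
      have e := cost_pwP (s := []) () () (bits F p) y
      simp only [cost_comp, cost_pair, cost_fst, cost_snd, val_pair, val_comp, val_fst, val_snd]
      omega)
  unfold rpw
  simp only [cost_comp, cost_pair, cost_fst, cost_snd, val_pair, val_comp, val_fst,
    val_snd] at h ⊢
  have hl : List.length (un m) = m := by unfold un; simp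
  have h2 : List.length (bits F p, (x, un m)).2.2 = m := hl
  rw [h2] at h
  have h1 : 1 ≤ lgc p := by unfold lgc; omega
  nlinarith

/-- calculation of the cost -/
theorem calc1 (C0 C1 k0 m L X Y A B : ℕ) (hL : 1 ≤ L) (hX : 1 ≤ X) (hA : A ≤ 200 * ((m + 1) * L))
    (hB : B ≤ C0 * L ^ k0 * X) (hY : Y ≤ C1 * (A + 1) * (B + 1)) :
    Y ≤ (C1 * 201 * (C0 + 1)) * ((m + 1) * L) ^ (k0 + 1) * X := by
  have h1 : 1 ≤ (m + 1) * L := Nat.one_le_iff_ne_zero.2 (by positivity)
  have h2 : A + 1 ≤ 201 * ((m + 1) * L) := by omega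
  have h3 : 1 ≤ ((m + 1) * L) ^ k0 := Nat.one_le_pow _ _ h1
  have h4 : L ^ k0 ≤ ((m + 1) * L) ^ k0 := Nat.pow_le_pow_left (by nlinarith) _
  have h5 : B + 1 ≤ (C0 + 1) * ((m + 1) * L) ^ k0 * X := by
    have h6 : C0 * L ^ k0 * X ≤ C0 * ((m + 1) * L) ^ k0 * X :=
      Nat.mul_le_mul_right _ (Nat.mul_le_mul_left _ h4)
    have h7 : 1 ≤ ((m + 1) * L) ^ k0 * X := Nat.one_le_iff_ne_zero.2 (by positivity)
    calc B + 1 ≤ C0 * ((m + 1) * L) ^ k0 * X + ((m + 1) * L) ^ k0 * X := by omega
      _ = (C0 + 1) * ((m + 1) * L) ^ k0 * X := by ring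
  calc Y ≤ C1 * (A + 1) * (B + 1) := hY
    _ ≤ C1 * (201 * ((m + 1) * L)) * ((C0 + 1) * ((m + 1) * L) ^ k0 * X) :=
        Nat.mul_le_mul (Nat.mul_le_mul_left _ h2) h5
    _ = (C1 * 201 * (C0 + 1)) * ((m + 1) * L) ^ (k0 + 1) * X := by ring

/-- calculation of the constant -/
theorem calc2 (d p Q : ℕ) (hd : 1 ≤ d) (hp : 2 ≤ p) (hQ : Q ≤ d * p) :
    2 * d ^ 2 + 3 * d + (d + 1) ^ 2 + (d + 1) * (2 * d ^ 2 + d) + 40 * d ^ 2 * Q + d ^ 2 ≤
      50 * d ^ 3 * p := by
  have h1 : d ^ 2 ≤ d ^ 3 := Nat.pow_le_pow_right hd (by norm_num)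
  have h2 : d ≤ d ^ 3 := by
    calc d = d ^ 1 := (pow_one d).symm
      _ ≤ d ^ 3 := Nat.pow_le_pow_right hd (by norm_num)
  have h3 : 1 ≤ d ^ 3 := Nat.one_le_pow _ _ hd
  have h4 : d ^ 2 * Q ≤ d ^ 3 * p := by
    calc d ^ 2 * Q ≤ d ^ 2 * (d * p) := Nat.mul_le_mul_left _ hQ
      _ = d ^ 3 * p := by ring
  have h5 : d ^ 3 * 2 ≤ d ^ 3 * p := Nat.mul_le_mul_left _ hp
  have h6 : 2 * d ^ 2 + 3 * d + (d + 1) ^ 2 + (d + 1) * (2 * d ^ 2 + d) + 40 * d ^ 2 * Q + d ^ 2
      = 2 * d ^ 3 + 7 * d ^ 2 + 6 * d + 1 + 40 * (d ^ 2 * Q) := by ring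
  have h7 : 50 * d ^ 3 * p = 50 * (d ^ 3 * p) := by ring
  rw [h6, h7]
  omega

end E5
open JF2 E5

/-- the count -/
theorem E5.count (h2 : StmtFacCount) (K : Type) [Field K] (p e d : ℕ) (H : List (List K))
    (hp : p.Prime) (hchar : CharP K p) (hH : IsHom d H) (hd : 1 ≤ d) (hT : TopNe d H)
    (he1 : d ≤ p ^ e) (T : Finset K) (Good : List K → Prop)
    (he3 : ∀ (a b : K) (cs : Fin (d + 1) → K) (G : Fin d → Fin d → K) (as : Fin d → K)
      (g : Fin d → Fin d → K),
    ∃ Sep : (Fin d → K) → Prop,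
      (∀ T : Finset K, Nat.card {c : Fin d → T // ¬ Sep (fun i => (c i : K))} * T.card ≤
        d ^ 2 * T.card ^ d) ∧
      ∀ cb : Fin d → K, Sep cb →
        GoodF (p ^ e) d (bcp (AlgebraicClosure K) (hom H))
          (algebraMap K (AlgebraicClosure K) a) (algebraMap K (AlgebraicClosure K) b)
          (fun j => algebraMap K (AlgebraicClosure K) (cs j))
          (fun i j => algebraMap K (AlgebraicClosure K) (G i j))
          (fun j => algebraMap K (AlgebraicClosure K) (as j))
          (fun j i => algebraMap K (AlgebraicClosure K) (g j i)) →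
        Good (rlist2 a b cs G as g cb)) :
    Nat.card {ω : Fin (R2 d) → T // ¬ Good (List.ofFn (fun i => (ω i : K)))} * T.card ≤
      (2 * d ^ 2 + 3 * d + (d + 1) ^ 2 + (d + 1) * (2 * d ^ 2 + d) + 40 * d ^ 2 * p ^ e + d ^ 2) *
        T.card ^ R2 d := by
  classical
  have : Fact p.Prime := ⟨hp⟩
  set L := AlgebraicClosure K with hL
  have : CharP L p := charP_of_injective_algebraMap (algebraMap K L).injective p
  set T' : Finset L := T.map ⟨algebraMap K L, (algebraMap K L).injective⟩ with hT'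
  have hcard : T'.card = T.card := by rw [hT', Finset.card_map]
  have hcnt := h2 L p e d (H.map (List.map (algebraMap K L))) T' (t4_isHom _ d H hH) hd
    (t4_topNe _ d H hT) he1
  rw [hcard, t4_hom] at hcnt
  choose Sep hS1 hS2 using he3
  -- the choices over `T`
  let ι : T → T' := fun t => ⟨algebraMap K L t, by
    rw [hT', Finset.mem_map]
    exact ⟨t, t.2, rfl⟩⟩
  have hι : Function.Injective ι := by
    intro s t hst
    have h3 := congrArg Subtype.val hst
    exact Subtype.ext ((algebraMap K L).injective h3)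
  let P : XF T d → Prop := fun x => GoodF (p ^ e) d (bcp L (hom H)) (algebraMap K L x.1.1)
    (algebraMap K L x.1.2) (fun j => algebraMap K L (x.2.1 j))
    (fun i j => algebraMap K L (x.2.2.1 i j))
    (fun j => algebraMap K L (x.2.2.2.1 j)) (fun j i => algebraMap K L (x.2.2.2.2 j i))
  let S : XF T d → (Fin d → T) → Prop := fun x c =>
    Sep (x.1.1 : K) (x.1.2 : K) (fun j => ((x.2.1 j : T) : K))
      (fun i j => ((x.2.2.1 i j : T) : K)) (fun j => ((x.2.2.2.1 j : T) : K))
      (fun i j => ((x.2.2.2.2 i j : T) : K)) (fun i => (c i : K))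
  have hbad : Nat.card {x : XF T d // ¬ P x} * T.card ≤
      (2 * d ^ 2 + 3 * d + (d + 1) ^ 2 + (d + 1) * (2 * d ^ 2 + d) + 40 * d ^ 2 * p ^ e) *
      T.card ^ (2 + ((d + 1) + (d * d + (d + d * d)))) := by
    refine le_trans (Nat.mul_le_mul_right _ ?_) hcnt
    refine Nat.card_le_card_of_injective
      (fun x => ⟨((ι x.1.1.1, ι x.1.1.2), (fun j => ι (x.1.2.1 j)), (fun i j => ι (x.1.2.2.1 i j)),
        (fun j => ι (x.1.2.2.2.1 j)),
        (fun j i => ι (x.1.2.2.2.2 j i))), x.2⟩) ?_
    intro x y hxy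
    obtain ⟨⟨⟨a, b⟩, cs, G, as, g⟩, hx⟩ := x
    obtain ⟨⟨⟨a', b'⟩, cs', G', as', g'⟩, hy⟩ := y
    simp only [Subtype.mk.injEq, Prod.mk.injEq] at hxy
    obtain ⟨⟨h3, h4⟩, h8, h5, h6, h7⟩ := hxy
    have h3' := hι h3
    have h4' := hι h4
    have h5' : G = G' := by
      funext i j
      exact hι (congrFun (congrFun h5 i) j)
    have h6' : as = as' := by
      funext j
      exact hι (congrFun h6 j)
    have h8' : cs = cs' := by
      funext j
      exact hι (congrFun h8 j)
    have h7' : g = g' := by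
      funext i j
      exact hι (congrFun (congrFun h7 i) j)
    subst h3' h4' h5' h6' h7' h8'
    rfl
  have hgood : Nat.card {x : XF T d × (Fin d → T) // P x.1 ∧ S x.1 x.2} ≤
      Nat.card {ω : Fin (R2 d) → T //
        Good (List.ofFn (fun i => (ω i : K)))} := by
    refine Nat.card_le_card_of_injective (fun x => ⟨t4e x.1, ?_⟩) ?_
    · have h4 : List.ofFn (fun i => ((t4e x.1 i : T) : K)) =
          rlist2 (x.1.1.1.1 : K) (x.1.1.1.2 : K) (fun j => ((x.1.1.2.1 j : T) : K))
          (fun i j => ((x.1.1.2.2.1 i j : T) : K)) (fun j => ((x.1.1.2.2.2.1 j : T) : K))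
          (fun i j => ((x.1.1.2.2.2.2 i j : T) : K)) (fun j => ((x.1.2 j : T) : K)) := by
        have h5 := t4_map (Subtype.val : T → K) x.1.1.1.1 x.1.1.1.2 x.1.1.2.1 x.1.1.2.2.1
          x.1.1.2.2.2.1 x.1.1.2.2.2.2 x.1.2
        rw [← t4e_ofFn, List.map_ofFn] at h5
        exact h5
      rw [h4]
      exact hS2 _ _ _ _ _ _ _ x.2.2 x.2.1
    · intro x y hxy
      simp only [Subtype.mk.injEq] at hxy
      exact Subtype.ext (t4e_inj hxy)
  have hR : 2 + ((d + 1) + (d * d + (d + d * d))) + d = R2 d := by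
    unfold R2
    omega
  -- total number of choices
  have htot0 : Nat.card (XF T d × (Fin d → T)) = T.card ^ R2 d := by
    rw [Nat.card_prod, t4_card, Fintype.card_coe, Nat.card_eq_fintype_card, Fintype.card_fun,
      Fintype.card_fin, Fintype.card_coe, ← pow_add, hR]
  have hb1 : Nat.card {x : XF T d × (Fin d → T) // ¬ P x.1} =
      Nat.card {x : XF T d // ¬ P x} * T.card ^ d := by
    have h3 : Nat.card ({x : XF T d // ¬ P x} × (Fin d → T)) =
        Nat.card {x : XF T d // ¬ P x} * T.card ^ d := by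
      rw [Nat.card_prod, Nat.card_eq_fintype_card (α := Fin d → T), Fintype.card_fun,
        Fintype.card_fin, Fintype.card_coe]
    rw [← h3]
    refine Nat.card_congr ⟨fun x => (⟨x.1.1, x.2⟩, x.1.2), fun x => ⟨(x.1.1, x.2), x.1.2⟩, ?_, ?_⟩
    · intro x; rfl
    · intro x; rfl
  have hb2 : Nat.card {x : XF T d × (Fin d → T) // ¬ S x.1 x.2} * T.card ≤
      T.card ^ (2 + ((d + 1) + (d * d + (d + d * d)))) * (d ^ 2 * T.card ^ d) := by
    have h3 : Nat.card {x : XF T d × (Fin d → T) // ¬ S x.1 x.2} =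
        ∑ x : XF T d, Nat.card {c : Fin d → T // ¬ S x c} := by
      rw [← Nat.card_sigma]
      exact Nat.card_congr ⟨fun x => ⟨x.1.1, x.1.2, x.2⟩, fun x => ⟨(x.1, x.2.1), x.2.2⟩,
        fun x => rfl, fun x => rfl⟩
    rw [h3, Finset.sum_mul]
    refine le_trans (Finset.sum_le_card_nsmul _ _ (d ^ 2 * T.card ^ d) ?_) ?_
    · intro x _
      exact hS1 _ _ _ _ _ _ T
    · rw [Finset.card_univ, ← Nat.card_eq_fintype_card, t4_card, Fintype.card_coe, smul_eq_mul]
  have htot : T.card ^ R2 d ≤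
      Nat.card {x : XF T d × (Fin d → T) // P x.1 ∧ S x.1 x.2} +
      (Nat.card {x : XF T d × (Fin d → T) // ¬ P x.1} +
        Nat.card {x : XF T d × (Fin d → T) // ¬ S x.1 x.2}) := by
    have hfx : Finite (XF T d × (Fin d → T)) := inferInstance
    have hf1 : Finite {x : XF T d × (Fin d → T) // P x.1 ∧ S x.1 x.2} := Subtype.finite
    have hf2 : Finite {x : XF T d × (Fin d → T) // ¬ P x.1} := Subtype.finite
    have hf3 : Finite {x : XF T d × (Fin d → T) // ¬ S x.1 x.2} := Subtype.finite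
    rw [← htot0, ← Nat.card_sum, ← Nat.card_sum]
    refine Nat.card_le_card_of_surjective
      (Sum.elim (fun x => x.1) (Sum.elim (fun x => x.1) (fun x => x.1))) ?_
    intro x
    by_cases hP : P x.1
    · by_cases hS : S x.1 x.2
      · exact ⟨Sum.inl ⟨x, hP, hS⟩, rfl⟩
      · exact ⟨Sum.inr (Sum.inr ⟨x, hS⟩), rfl⟩
    · exact ⟨Sum.inr (Sum.inl ⟨x, hP⟩), rfl⟩
  have hcomp : Nat.card {ω : Fin (R2 d) → T // Good (List.ofFn (fun i => (ω i : K)))} +
      Nat.card {ω : Fin (R2 d) → T // ¬ Good (List.ofFn (fun i => (ω i : K)))} =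
      T.card ^ R2 d := by
    have h3 : Nat.card (Fin (R2 d) → T) = T.card ^ R2 d := by
      rw [Nat.card_eq_fintype_card, Fintype.card_fun, Fintype.card_fin, Fintype.card_coe]
    rw [← h3, ← Nat.card_sum]
    exact Nat.card_congr (Equiv.sumCompl (fun ω : Fin (R2 d) → T =>
      Good (List.ofFn (fun i => (ω i : K)))))
  have h6 : Nat.card {x : XF T d × (Fin d → T) // ¬ P x.1} * T.card ≤
      (2 * d ^ 2 + 3 * d + (d + 1) ^ 2 + (d + 1) * (2 * d ^ 2 + d) + 40 * d ^ 2 * p ^ e) *
        T.card ^ R2 d := by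
    rw [hb1, ← hR, pow_add T.card _ d]
    calc Nat.card {x : XF T d // ¬ P x} * T.card ^ d * T.card
        = Nat.card {x : XF T d // ¬ P x} * T.card * T.card ^ d := by ring
      _ ≤ (2 * d ^ 2 + 3 * d + (d + 1) ^ 2 + (d + 1) * (2 * d ^ 2 + d) +
            40 * d ^ 2 * p ^ e) *
          T.card ^ (2 + ((d + 1) + (d * d + (d + d * d)))) * T.card ^ d :=
          Nat.mul_le_mul_right _ hbad
      _ = _ := by ring
  have h7 : Nat.card {x : XF T d × (Fin d → T) // ¬ S x.1 x.2} * T.card ≤
      d ^ 2 * T.card ^ R2 d := by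
    rw [← hR, pow_add T.card _ d]
    refine hb2.trans (le_of_eq ?_)
    ring
  have hle : Nat.card {ω : Fin (R2 d) → T // ¬ Good (List.ofFn (fun i => (ω i : K)))} ≤
      Nat.card {x : XF T d × (Fin d → T) // ¬ P x.1} +
        Nat.card {x : XF T d × (Fin d → T) // ¬ S x.1 x.2} := by
    have hlast : ∀ N g b z y : ℕ, N ≤ g + b → g ≤ z → z + y = N → y ≤ b := by
      intro N g b z y h3 h4 h5
      omega
    exact hlast _ _ _ _ _ htot hgood hcomp
  calc Nat.card {ω : Fin (R2 d) → T // ¬ Good (List.ofFn (fun i => (ω i : K)))} * T.card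
      ≤ (Nat.card {x : XF T d × (Fin d → T) // ¬ P x.1} +
        Nat.card {x : XF T d × (Fin d → T) // ¬ S x.1 x.2}) * T.card :=
        Nat.mul_le_mul_right _ hle
    _ = Nat.card {x : XF T d × (Fin d → T) // ¬ P x.1} * T.card +
        Nat.card {x : XF T d × (Fin d → T) // ¬ S x.1 x.2} * T.card := by ring
    _ ≤ (2 * d ^ 2 + 3 * d + (d + 1) ^ 2 + (d + 1) * (2 * d ^ 2 + d) + 40 * d ^ 2 * p ^ e) *
        T.card ^ R2 d + d ^ 2 * T.card ^ R2 d := Nat.add_le_add h6 h7
    _ = _ := by ring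

/-- TARGET -/
theorem specFacE (h1 : SpecFacD) (h2 : StmtFacCount) (h3 : SpecElim) : SpecFacE := by
  obtain ⟨w, C0, k0, hw⟩ := h1
  obtain ⟨w', C1, hw'⟩ := h3 (.prod Po Un) E5.rpw _ _ w
  refine ⟨w', C1 * 201 * (C0 + 1), k0 + 1, ?_⟩
  intro K _ _ _ p m d D H hp hcard hH hd hT hpD
  have hchar : CharP K p := by
    obtain ⟨n, hpn, hn⟩ := FiniteField.card K (ringChar K)
    have h4 : ringChar K ∣ p ^ (m + 1) := by
      rw [← hcard, hn]
      exact dvd_pow_self _ n.2.ne'
    have h5 := (Nat.prime_dvd_prime_iff_eq hpn hp).1 (hpn.dvd_of_dvd_pow h4)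
    rw [← h5]
    exact ringChar.charP K
  have hrt : ∀ x : K, (x ^ (p ^ m)) ^ p = x := by
    intro x
    rw [← pow_mul, ← pow_succ, ← hcard]
    exact FiniteField.pow_card x
  obtain ⟨hA, e, he1, he2, he3⟩ := hw K p d D (fun x => x ^ (p ^ m)) H hp hchar hrt hH hd hT hpD
  have hE := hw' K (fun x => x ^ (p ^ m)) (bits K p, un m) (200 * ((m + 1) * lgc p))
    (fun x => ⟨E5.val_rpw p m x, E5.cost_rpw p m x⟩)
  have hv : ∀ ω : List K, w'.val () ((bits K p, un m), (un D, (H, ω))) =
      w.val (fun x => x ^ (p ^ m), ()) (un D, (H, ω)) := fun ω => (hE (un D, (H, ω))).1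
  refine ⟨?_, ?_⟩
  · intro ω
    have hL : lgc p ≤ lgc (d + D + 1) := E5.lgc_mono (by omega)
    refine E5.calc1 C0 C1 k0 m (lgc (d + D + 1)) ((d + 1) ^ 3 + (d + 1) * (D + 1)) _
      (200 * ((m + 1) * lgc p)) _ (by unfold lgc; omega)
      (Nat.one_le_iff_ne_zero.2 (by positivity)) ?_ (hA ω) (hE (un D, (H, ω))).2
    exact Nat.mul_le_mul_left _ (Nat.mul_le_mul_left _ hL)
  · have hc := E5.count h2 K p e d H hp hchar hH hd hT he1 Finset.univ
      (fun ω => FacAbs (AlgebraicClosure K) H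
        (w.val (fun x => x ^ (p ^ m), ()) (un D, (H, ω))) ∧
        DegB d (w.val (fun x => x ^ (p ^ m), ()) (un D, (H, ω)) :
          List (List K × (List (List (List K)) × List Unit)))) he3
    rw [Finset.card_univ] at hc
    have hle : Nat.card {ω : Fin (R2 d) → K // ¬ (FacAbs (AlgebraicClosure K) H
        (w'.val () ((bits K p, un m), (un D, (H, List.ofFn ω)))) ∧
        DegB d (w'.val () ((bits K p, un m), (un D, (H, List.ofFn ω))) :
          List (List K × (List (List (List K)) × List Unit))))} ≤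
        Nat.card {ω : Fin (R2 d) → (Finset.univ : Finset K) //
          ¬ (FacAbs (AlgebraicClosure K) H
        (w.val (fun x => x ^ (p ^ m), ()) (un D, (H, List.ofFn (fun i => (ω i : K))))) ∧
        DegB d (w.val (fun x => x ^ (p ^ m), ()) (un D, (H, List.ofFn (fun i => (ω i : K)))) :
          List (List K × (List (List (List K)) × List Unit))))} := by
      refine Nat.card_le_card_of_injective
        (fun x => ⟨fun i => ⟨x.1 i, Finset.mem_univ _⟩, ?_⟩) ?_
      · have h5 := x.2
        rw [hv] at h5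
        exact h5
      · intro x y hxy
        simp only [Subtype.mk.injEq] at hxy
        apply Subtype.ext
        funext i
        exact congrArg Subtype.val (congrFun hxy i)
    refine (Nat.mul_le_mul_right _ hle).trans (hc.trans ?_)
    exact Nat.mul_le_mul_right _ (E5.calc2 d p (p ^ e) hd hp.two_le he2)

end
end Pool.Agent.H330AB.JL3
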