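import Pool.Agent.H330AB.SpecC1
set_option autoImplicit false
noncomputable section
namespace Pool.Agent.H330AB.JL4
open Polynomial Pool.Agent.H330FB

namespace L4

section prog

variable {F : Type} [Field F] [DecidableEq F]
variable {s : List (Ty × Ty)}

/-- repeated doubling -/
def dblP : ℕ → Pr s Un Un
  | 0 => .id
  | k + 1 => .comp (.comp (.pair .id .id) appP) (dblP k)

theorem len_dblP (k : ℕ) (v : SV F s) (x : List Unit) :
    List.length ((dblP k : Pr s Un Un).val (F := F) v x) = 2 ^ k * x.length := by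
  induction k generalizing x with
  | zero => simp [dblP]
  | succ k ih =>
    have h := ih (x ++ x)
    simp only [dblP, val_comp, val_pair, val_id, val_appP]
    rw [h, List.length_append, pow_succ]
    ring

theorem cost_dblP (k : ℕ) (v : SV F s) (κ : SC F s) (x : List Unit) :
    (dblP k : Pr s Un Un).cost (F := F) v κ x + 20 * x.length ≤
      20 * 2 ^ k * x.length + 8 * k + 1 := by
  induction k generalizing x with
  | zero => simp [dblP]; omega
  | succ k ih =>
    have h := ih (x ++ x)
    have h2 := cost_appP (F := F) (s := s) (a := .unit) v κ (x, x)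
    rw [List.length_append] at h
    simp only [dblP, cost_comp, val_comp, val_pair, val_id, val_appP, cost_pair, cost_id]
    simp only at h2
    have h3 : 20 * 2 ^ (k + 1) * x.length = 20 * 2 ^ k * (x.length + x.length) := by
      rw [pow_succ]
      ring
    rw [h3]
    omega

/-- body of the subtractive Euclidean algorithm -/
def gcB : Pr ((.prod Un Un, Un) :: s) (.prod Un Un) Un :=
  onL (.comp (ap2 splitP .snd .fst) .snd)
    (onL (.comp splitP .snd) .fst
      (.comp (.pair (.comp .snd .cons) (.comp .fst .fst)) .self))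
    (.comp (.pair (.comp .snd .cons) (.comp .fst .snd)) .self)

theorem val_gcB (v : SV F ((.prod Un Un, Un) :: s)) (x y : List Unit) :
    (gcB : Pr ((.prod Un Un, Un) :: s) (.prod Un Un) Un).val (F := F) v (x, y) =
      lcase (x.drop y.length) (lcase (y.drop x.length) x (fun h t => v.1 (h :: t, x)))
        (fun h t => v.1 (h :: t, y)) := by
  simp only [gcB, val_onL, val_comp, val_pair, val_snd, val_fst, val_splitP, val_cons,
      val_self]

theorem cost_gcB (v : SV F ((.prod Un Un, Un) :: s)) (κ : SC F ((.prod Un Un, Un) :: s))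
    (x y : List Unit) :
    (gcB : Pr ((.prod Un Un, Un) :: s) (.prod Un Un) Un).cost (F := F) v κ (x, y) ≤
      24 * y.length + 24 * min x.length y.length + 40 +
      lcase (x.drop y.length) (lcase (y.drop x.length) 0 (fun h t => κ.1 (h :: t, x)))
        (fun h t => κ.1 (h :: t, y)) := by
  have c1 := cost_splitP (F := F) (s := (.prod Un Un, Un) :: s) (a := .unit) (b := .unit)
      v κ (y, x)
  have c2 := cost_splitP (F := F) (s := (.prod Un Un, Un) :: s) (a := .unit) (b := .unit)
      v κ (x, y)
  simp only at c1 c2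
  simp only [gcB, cost_onL, val_onL, val_comp, val_pair, val_snd, val_fst, val_splitP, val_cons,
      cost_self, cost_comp, cost_pair, cost_snd, cost_fst, cost_cons]
  rcases h1 : List.drop y.length x with _ | ⟨h, t⟩
  · have l1 : x.length ≤ y.length := List.drop_eq_nil_iff.1 h1
    rw [min_eq_left l1]
    rcases h2 : List.drop x.length y with _ | ⟨h', t'⟩
    · simp only [lcase_nil]
      omega
    · simp only [lcase_nil, lcase_cons]
      omega
  · simp only [lcase_cons]
    omega

theorem len_gcB (v : SV F s) : ∀ (m : ℕ) (x y : List Unit), 1 ≤ x.length → 1 ≤ y.length →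
    x.length + y.length ≤ m →
    List.length (goV (F := F) (gcB : Pr ((.prod Un Un, Un) :: s) (.prod Un Un) Un) .nil v m (x, y)) =
      Nat.gcd x.length y.length := by
  intro m
  induction m with
  | zero => intro x y h1 h2 h3; omega
  | succ m ih =>
    intro x y hx hy hm
    rw [goV, val_gcB]
    rcases h1 : List.drop y.length x with _ | ⟨h, t⟩
    · have l1 : x.length ≤ y.length := List.drop_eq_nil_iff.1 h1
      rcases h2 : List.drop x.length y with _ | ⟨h', t'⟩
      · have l2 : y.length ≤ x.length := List.drop_eq_nil_iff.1 h2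
        have l3 : y.length = x.length := le_antisymm l2 l1
        simp only [lcase_nil, l3, Nat.gcd_self]
      · have l2 : (h' :: t').length = y.length - x.length := by
          rw [← h2, List.length_drop]
        have l3 : 1 ≤ (h' :: t').length := by simp
        simp only [lcase_nil, lcase_cons]
        have := ih (h' :: t') x l3 hx (by omega)
        rw [this, l2, Nat.gcd_comm, Nat.gcd_sub_self_right l1]
    · have l2 : (h :: t).length = x.length - y.length := by
        rw [← h1, List.length_drop]
      have l3 : 1 ≤ (h :: t).length := by simp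
      simp only [lcase_cons]
      have := ih (h :: t) y l3 hy (by omega)
      rw [this, l2, Nat.gcd_comm, Nat.gcd_sub_self_right (by omega), Nat.gcd_comm]

theorem cost_gcB' (v : SV F s) (κ : SC F s) (B : ℕ) : ∀ (m : ℕ) (x y : List Unit), y.length ≤ B →
    goC (F := F) (gcB : Pr ((.prod Un Un, Un) :: s) (.prod Un Un) Un) .nil v κ m (x, y) ≤
      (48 * B + 40) * m + 1 := by
  intro m
  induction m with
  | zero => intro x y _; simp [goC]
  | succ m ih =>
    intro x y hy
    rw [goC]
    refine (cost_gcB _ _ x y).trans ?_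
    have hmul : (48 * B + 40) * (m + 1) + 1 = (48 * B + 40) + ((48 * B + 40) * m + 1) := by ring
    rw [hmul]
    have hmin : min x.length y.length ≤ B := (min_le_right _ _).trans hy
    have hlc : lcase (x.drop y.length) (lcase (y.drop x.length) 0
        (fun h t => goC (F := F) (gcB : Pr ((.prod Un Un, Un) :: s) (.prod Un Un) Un) .nil v κ m
          (h :: t, x)))
        (fun h t => goC (F := F) (gcB : Pr ((.prod Un Un, Un) :: s) (.prod Un Un) Un) .nil v κ m
          (h :: t, y)) ≤ (48 * B + 40) * m + 1 := by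
      rcases h1 : List.drop y.length x with _ | ⟨h, t⟩
      · have l1 : x.length ≤ y.length := List.drop_eq_nil_iff.1 h1
        rcases h2 : List.drop x.length y with _ | ⟨h', t'⟩
        · simp only [lcase_nil]
          omega
        · simp only [lcase_nil, lcase_cons]
          exact ih _ _ (l1.trans hy)
      · simp only [lcase_cons]
        exact ih _ _ hy
    calc _ ≤ 24 * y.length + 24 * min x.length y.length + 40 + ((48 * B + 40) * m + 1) :=
          Nat.add_le_add_left hlc _
      _ ≤ _ := by omega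

/-- greatest common divisor -/
def gcP : Pr s (.prod Un Un) Un := .comp (.pair appP .id) (.recD gcB .nil)

theorem len_gcP (v : SV F s) (x y : List Unit) (hx : 1 ≤ x.length) (hy : 1 ≤ y.length) :
    List.length ((gcP : Pr s (.prod Un Un) Un).val (F := F) v (x, y)) =
      Nat.gcd x.length y.length := by
  simp only [gcP, val_comp, val_pair, val_id, val_appP, val_recD]
  exact len_gcB v _ x y hx hy (by simp)

theorem cost_gcP (v : SV F s) (κ : SC F s) (x y : List Unit) :
    (gcP : Pr s (.prod Un Un) Un).cost (F := F) v κ (x, y) ≤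
      (48 * y.length + 60) * (x.length + y.length) + 9 := by
  have h1 := cost_appP (F := F) (s := s) (a := .unit) v κ (x, y)
  have h2 := cost_gcB' (F := F) v κ y.length (x ++ y).length x y le_rfl
  simp only [gcP, cost_comp, cost_pair, cost_id, val_pair, val_id, val_appP, cost_recD]
  rw [List.length_append] at h2
  simp only at h1
  have h3 : (48 * y.length + 60) * (x.length + y.length) =
      (48 * y.length + 40) * (x.length + y.length) + 20 * (x.length + y.length) := by ring
  rw [h3]
  simp only [List.length_append]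
  omega

/-- body of the search for the next integer coprime to `n`; input `(n, e)` -/
def srB : Pr ((.prod Un Un, Un) :: s) (.prod Un Un) Un :=
  onL gcP .snd (onL (.comp .snd .snd) (.comp .fst .snd)
    (.comp (.pair (.comp (.comp .fst .fst) .fst)
      (.comp (.pair .star (.comp (.comp .fst .fst) .snd)) .cons)) .self))

theorem val_srB (v : SV F ((.prod Un Un, Un) :: s)) (x y : List Unit)
    (hx : 1 ≤ x.length) (hy : 1 ≤ y.length) :
    (srB : Pr ((.prod Un Un, Un) :: s) (.prod Un Un) Un).val (F := F) v (x, y) =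
      if Nat.Coprime x.length y.length then y else v.1 (x, () :: y) := by
  have h1 := len_gcP (F := F) v x y hx hy
  simp only [srB, val_onL, val_comp, val_pair, val_snd, val_fst, val_cons, val_self, val_star]
  rcases h2 : (gcP : Pr ((.prod Un Un, Un) :: s) (.prod Un Un) Un).val (F := F) v (x, y)
    with _ | ⟨a, _ | ⟨b, t⟩⟩
  · rw [h2] at h1
    simp only [List.length_nil] at h1
    have := Nat.gcd_pos_of_pos_left y.length (show 0 < x.length from hx)
    omega
  · rw [h2] at h1
    simp only [List.length_cons, List.length_nil] at h1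
    simp only [lcase_cons, lcase_nil]
    rw [if_pos (show Nat.Coprime x.length y.length from h1.symm)]
  · rw [h2] at h1
    simp only [List.length_cons] at h1
    simp only [lcase_cons]
    rw [if_neg (fun h : Nat.Coprime x.length y.length => by
      have : Nat.gcd x.length y.length = 1 := h
      omega)]

theorem cost_srB (v : SV F ((.prod Un Un, Un) :: s)) (κ : SC F ((.prod Un Un, Un) :: s))
    (x y : List Unit) (B : ℕ) (hB : κ.1 (x, () :: y) ≤ B) :
    (srB : Pr ((.prod Un Un, Un) :: s) (.prod Un Un) Un).cost (F := F) v κ (x, y) ≤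
      (48 * y.length + 60) * (x.length + y.length) + 40 + B := by
  have h1 := cost_gcP (F := F) v κ x y
  simp only [srB, cost_onL, val_onL, val_comp, val_pair, val_snd, val_fst, val_splitP, val_cons,
      cost_self, cost_comp, cost_pair, cost_snd, cost_fst, cost_cons, val_star, cost_star]
  rcases h2 : (gcP : Pr ((.prod Un Un, Un) :: s) (.prod Un Un) Un).val (F := F) v (x, y)
    with _ | ⟨a, _ | ⟨b, t⟩⟩
  · simp only [lcase_nil]
    omega
  · simp only [lcase_cons, lcase_nil]
    omega
  · simp only [lcase_cons]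
    omega

theorem len_sr (v : SV F s) (x : List Unit) (hx : 1 ≤ x.length) : ∀ (m : ℕ) (y : List Unit),
    1 ≤ y.length → y.length ≤ List.length (goV (F := F)
      (srB : Pr ((.prod Un Un, Un) :: s) (.prod Un Un) Un) .snd v m (x, y)) ∧
    ∀ q, y.length ≤ q → q ≤ y.length + m → Nat.Coprime x.length q →
      List.length (goV (F := F) (srB : Pr ((.prod Un Un, Un) :: s) (.prod Un Un) Un) .snd v m
        (x, y)) ≤ q ∧
      Nat.Coprime x.length (List.length (goV (F := F)
        (srB : Pr ((.prod Un Un, Un) :: s) (.prod Un Un) Un) .snd v m (x, y))) := by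
  intro m
  induction m with
  | zero =>
    intro y hy
    simp only [goV, val_snd]
    refine ⟨le_rfl, fun q h1 h2 h3 => ?_⟩
    have : q = y.length := by omega
    subst this
    exact ⟨le_rfl, h3⟩
  | succ m ih =>
    intro y hy
    rw [goV, val_srB _ x y hx hy]
    by_cases hc : Nat.Coprime x.length y.length
    · rw [if_pos hc]
      exact ⟨le_rfl, fun q h1 _ _ => ⟨h1, hc⟩⟩
    · rw [if_neg hc]
      obtain ⟨i1, i2⟩ := ih (() :: y) (by simp)
      rw [List.length_cons] at i1 i2
      refine ⟨by exact (Nat.le_succ _).trans i1, fun q h1 h2 h3 => ?_⟩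
      have hne : q ≠ y.length := by
        rintro rfl
        exact hc h3
      exact i2 q (by omega) (by omega) h3

theorem cost_sr (v : SV F s) (κ : SC F s) (x : List Unit) (B : ℕ) : ∀ (m : ℕ) (y : List Unit),
    y.length + m ≤ B → goC (F := F)
      (srB : Pr ((.prod Un Un, Un) :: s) (.prod Un Un) Un) .snd v κ m (x, y) ≤
      ((48 * B + 60) * (x.length + B) + 40) * m + 1 := by
  intro m
  induction m with
  | zero => intro y _; simp [goC]
  | succ m ih =>
    intro y hy
    rw [goC]
    refine (cost_srB _ _ x y _ (ih (() :: y) (by rw [List.length_cons]; omega))).trans ?_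
    have h1 : (48 * y.length + 60) * (x.length + y.length) ≤ (48 * B + 60) * (x.length + B) :=
      Nat.mul_le_mul (by omega) (by omega)
    have h2 : ((48 * B + 60) * (x.length + B) + 40) * (m + 1) + 1 =
      ((48 * B + 60) * (x.length + B) + 40) + (((48 * B + 60) * (x.length + B) + 40) * m + 1) := by
      ring
    rw [h2]
    omega

/-- the list of length `8 (log d + 2)` -/
def t0P : Pr s Un Un :=
  .comp (.comp (.pair .star (.comp (.pair .star lgP) .cons)) .cons) (dblP 3)

theorem len_t0P (v : SV F s) (y : List Unit) :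
    List.length ((t0P : Pr s Un Un).val (F := F) v y) = 8 * (Nat.clog 2 y.length + 2) := by
  have h := val_lgP (F := F) (s := s) (a := .unit) v y
  simp only [t0P, val_comp, val_pair, val_star, val_cons]
  rw [len_dblP, List.length_cons, List.length_cons, h]
  ring

theorem cost_t0P (v : SV F s) (κ : SC F s) (y : List Unit) :
    (t0P : Pr s Un Un).cost (F := F) v κ y ≤ 120 * y.length + 160 * (Nat.clog 2 y.length + 2) +
      60 := by
  have h := val_lgP (F := F) (s := s) (a := .unit) v y
  have h2 := cost_lgP (F := F) (s := s) (a := .unit) v κ y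
  have h3 := cost_dblP (F := F) (s := s) 3 v κ
    (() :: () :: (lgP : Pr s (.list .unit) (.list .unit)).val (F := F) v y)
  simp only [t0P, cost_comp, cost_pair, cost_star, cost_cons, val_comp, val_pair, val_star,
    val_cons]
  rw [List.length_cons, List.length_cons, h] at h3
  omega

/-- the whole program; input `(n, d)` -/
def copP : Pr s (.prod Un Un) Un :=
  .comp (.pair .fst (.comp .snd t0P))
    (.comp (.pair (.comp .snd (dblP 11)) .id) (.recD srB .snd))

theorem val_copP (v : SV F s) (x y : List Unit) (m : ℕ)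
    (hm : m = 16384 * (Nat.clog 2 y.length + 2)) :
    (copP : Pr s (.prod Un Un) Un).val (F := F) v (x, y) =
      goV (F := F) (srB : Pr ((.prod Un Un, Un) :: s) (.prod Un Un) Un) .snd v
        m (x, (t0P : Pr s Un Un).val (F := F) v y) := by
  have h : m = List.length ((dblP 11 : Pr s Un Un).val (F := F) v
      ((t0P : Pr s Un Un).val (F := F) v y)) := by
    rw [len_dblP, len_t0P, hm]
    ring
  rw [h]
  simp only [copP, val_comp, val_pair, val_fst, val_snd, val_id, val_recD]

theorem len_copP (v : SV F s) (x y : List Unit) (e : ℕ) (hx : 1 ≤ x.length)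
    (he : 8 * (Nat.clog 2 y.length + 2) ≤ e) (he2 : e ≤ 16384 * (Nat.clog 2 y.length + 2))
    (hc : Nat.Coprime x.length e)
    (hmin : ∀ e', 8 * (Nat.clog 2 y.length + 2) ≤ e' ∧ Nat.Coprime x.length e' → e ≤ e') :
    List.length ((copP : Pr s (.prod Un Un) Un).val (F := F) v (x, y)) = e := by
  obtain ⟨m, hm⟩ : ∃ m, m = 16384 * (Nat.clog 2 y.length + 2) := ⟨_, rfl⟩
  rw [val_copP v x y m hm]
  obtain ⟨s1, s2⟩ := len_sr (F := F) (s := s) v x hx
      m ((t0P : Pr s Un Un).val (F := F) v y) (by rw [len_t0P]; omega)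
  rw [len_t0P] at s1 s2
  obtain ⟨s3, s4⟩ := s2 e he (by omega) hc
  exact le_antisymm s3 (hmin _ ⟨s1, s4⟩)

theorem fin_ineq (n d c G D : ℕ) (hL : c + 2 ≤ 2 * G) (hG : 1 ≤ G) (hGD : G ≤ D)
    (hnD : n ≤ D) (hd : d ≤ D) :
    120 * d + 400000 * (c + 2) + 300 +
      ((48 * (16392 * (c + 2)) + 60) * (n + 16392 * (c + 2)) + 40) * (16384 * (c + 2)) ≤
      2000000000000000 * (D * G ^ 4) := by
  have b1 : G ≤ G ^ 4 := Nat.le_self_pow (by norm_num) G
  have b2 : G ^ 2 ≤ G ^ 4 := Nat.pow_le_pow_right hG (by norm_num)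
  have b0 : 1 ≤ G ^ 4 := hG.trans b1
  have hD1 : 1 ≤ D := hG.trans hGD
  have c1 : D ≤ D * G ^ 4 := Nat.le_mul_of_pos_right D b0
  have c2 : 1 ≤ D * G ^ 4 := hD1.trans c1
  have c3 : G ≤ D * G ^ 4 := hGD.trans c1
  have c4 : D * G ^ 2 ≤ D * G ^ 4 := Nat.mul_le_mul le_rfl b2
  have c5 : G ≤ D * G ^ 2 := by
    calc G ≤ G ^ 2 := Nat.le_self_pow (by norm_num) G
      _ ≤ D * G ^ 2 := Nat.le_mul_of_pos_left _ hD1
  have key : ((48 * (16392 * (c + 2)) + 60) * (n + 16392 * (c + 2)) + 40) * (16384 * (c + 2)) ≤
      1700000000000000 * (D * G ^ 2) := by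
    calc ((48 * (16392 * (c + 2)) + 60) * (n + 16392 * (c + 2)) + 40) * (16384 * (c + 2))
        ≤ ((48 * (16392 * (2 * G)) + 60 * G) * (D + 16392 * (2 * D)) + 40 * (G * D)) *
            (16384 * (2 * G)) := by
          have hGD1 : 1 ≤ G * D := Nat.mul_pos hG hD1
          gcongr
          · omega
          · omega
          · omega
      _ = 1690615554375680 * (D * G ^ 2) := by ring
      _ ≤ 1700000000000000 * (D * G ^ 2) := Nat.mul_le_mul (by norm_num) le_rfl
  obtain ⟨K, hK⟩ : ∃ K, K = ((48 * (16392 * (c + 2)) + 60) * (n + 16392 * (c + 2)) + 40) *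
    (16384 * (c + 2)) := ⟨_, rfl⟩
  rw [← hK] at key ⊢
  obtain ⟨M, hM⟩ : ∃ M, M = D * G ^ 4 := ⟨_, rfl⟩
  obtain ⟨M2, hM2⟩ : ∃ M2, M2 = D * G ^ 2 := ⟨_, rfl⟩
  rw [← hM] at c1 c2 c3 c4 ⊢
  rw [← hM2] at c4 key
  clear hK hM hM2 b1 b2 b0 c5
  have d1 : d ≤ M := hd.trans c1
  have d2 : c + 2 ≤ 2 * M := hL.trans (Nat.mul_le_mul le_rfl c3)
  have d3 : 120 * d ≤ 120 * M := Nat.mul_le_mul le_rfl d1
  have d4 : 400000 * (c + 2) ≤ 400000 * (2 * M) := Nat.mul_le_mul le_rfl d2
  have d5 : 1700000000000000 * M2 ≤ 1700000000000000 * M := Nat.mul_le_mul le_rfl c4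
  have d6 : 300 * 1 ≤ 300 * M := Nat.mul_le_mul le_rfl c2
  calc 120 * d + 400000 * (c + 2) + 300 + K
      ≤ 120 * M + 400000 * (2 * M) + 300 * M + 1700000000000000 * M :=
        Nat.add_le_add (Nat.add_le_add (Nat.add_le_add d3 d4) d6) (key.trans d5)
    _ = (120 + 800000 + 300 + 1700000000000000) * M := by ring
    _ ≤ 2000000000000000 * M := Nat.mul_le_mul (by norm_num) le_rfl

theorem cost_copP (v : SV F s) (κ : SC F s) (x y : List Unit) :
    (copP : Pr s (.prod Un Un) Un).cost (F := F) v κ (x, y) ≤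
      120 * y.length + 400000 * (Nat.clog 2 y.length + 2) + 300 +
      ((48 * (16392 * (Nat.clog 2 y.length + 2)) + 60) *
        (x.length + 16392 * (Nat.clog 2 y.length + 2)) + 40) *
          (16384 * (Nat.clog 2 y.length + 2)) := by
  have h1 := cost_t0P (F := F) (s := s) v κ y
  have h2 := len_t0P (F := F) (s := s) v y
  have h3 := cost_dblP (F := F) (s := s) 11 v κ ((t0P : Pr s Un Un).val (F := F) v y)
  have h4 := len_dblP (F := F) (s := s) 11 v ((t0P : Pr s Un Un).val (F := F) v y)
  have h5 := cost_sr (F := F) (s := s) v κ x (16392 * (Nat.clog 2 y.length + 2))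
    (16384 * (Nat.clog 2 y.length + 2)) ((t0P : Pr s Un Un).val (F := F) v y)
    (by rw [h2]; ring_nf; omega)
  have h6 : List.length ((dblP 11 : Pr s Un Un).val (F := F) v
      ((t0P : Pr s Un Un).val (F := F) v y)) = 16384 * (Nat.clog 2 y.length + 2) := by
    rw [h4, h2]
    ring
  simp only [copP, cost_comp, cost_pair, cost_fst, cost_snd, cost_id, val_comp, val_pair, val_fst,
    val_snd, val_id, cost_recD]
  rw [h6]
  rw [h2] at h3
  omega

end prog

section nt

open Real in
theorem key_ineq (g : ℕ) (hg : 2 ≤ g) :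
    17 * (g : ℝ) * Real.log 2 < ((16384 * g : ℕ) : ℝ) * Real.log 2 -
      Real.log (((16384 * g : ℕ) : ℝ) + 1) -
      2 * √((16384 * g : ℕ) : ℝ) * Real.log ((16384 * g : ℕ) : ℝ) := by
  obtain ⟨x, hx⟩ : ∃ x : ℝ, x = ((16384 * g : ℕ) : ℝ) := ⟨_, rfl⟩
  rw [← hx]
  have hg' : (2 : ℝ) ≤ g := by exact_mod_cast hg
  have hxg : x = 16384 * g := by
    rw [hx]
    push_cast
    ring
  have hx1 : (16384 : ℝ) ≤ x := by linarith
  obtain ⟨y, hy⟩ : ∃ y : ℝ, y = √x := ⟨_, rfl⟩
  have hy0 : 0 ≤ y := by rw [hy]; exact Real.sqrt_nonneg x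
  have hyy : y ^ 2 = x := by rw [hy]; exact Real.sq_sqrt (by linarith)
  have hy1 : 128 ≤ y := by
    by_contra hcon
    push Not at hcon
    nlinarith
  have hlogx : Real.log x = 2 * Real.log y := by
    rw [← hyy, Real.log_pow]
    norm_num
  have hl2 : Real.log 2 < 0.6931471808 := Real.log_two_lt_d9
  have hl2' : 0.6931471803 < Real.log 2 := Real.log_two_gt_d9
  have hlogy : Real.log y ≤ y / 16 := by
    have h1 : Real.log y = Real.log 128 + Real.log (y / 128) := by
      rw [← Real.log_mul (by norm_num) (by positivity)]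
      congr 1
      ring
    have h2 : Real.log 128 = 7 * Real.log 2 := by
      rw [show (128 : ℝ) = 2 ^ 7 by norm_num, Real.log_pow]
      norm_num
    have h3 : Real.log (y / 128) ≤ y / 128 - 1 := Real.log_le_sub_one_of_pos (by positivity)
    rw [h1, h2]
    linarith
  have hlog1 : Real.log (x + 1) ≤ 2 * Real.log y + 1 := by
    have h1 : Real.log (x + 1) ≤ Real.log (x * 2) := Real.log_le_log (by linarith) (by linarith)
    rw [Real.log_mul (by linarith) (by norm_num), hlogx] at h1
    linarith
  have hgx : (g : ℝ) = x / 16384 := by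
    rw [hxg]
    ring
  rw [← hy, hlogx, hgx, ← hyy]
  have h4 : 2 * y * (2 * Real.log y) ≤ y ^ 2 / 4 := by nlinarith
  have h5 : Real.log (y ^ 2 + 1) ≤ y / 8 + 1 := by
    rw [hyy]
    linarith
  nlinarith

theorem exists_cop (n d : ℕ) (hn : 1 ≤ n) (hnd : n ≤ d) :
    ∃ q, 8 * (Nat.clog 2 d + 2) ≤ q ∧ q ≤ 16384 * (Nat.clog 2 d + 2) ∧ Nat.Coprime n q := by
  classical
  set g := Nat.clog 2 d + 2 with hg
  by_contra hcon
  push Not at hcon
  have hdiv : ∀ p, p.Prime → 8 * g ≤ p → p ≤ 16384 * g → p ∣ n := by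
    intro p hp h1 h2
    by_contra h3
    exact hcon p h1 h2 ((Nat.Prime.coprime_iff_not_dvd hp).2 h3).symm
  have h1 : primorial (16384 * g) ≤ 4 ^ (8 * g) * n := by
    unfold primorial
    rw [← Finset.prod_filter_mul_prod_filter_not _ (fun p => p < 8 * g)]
    refine Nat.mul_le_mul ?_ ?_
    · refine le_trans ?_ (primorial_le_four_pow (8 * g))
      unfold primorial
      refine Finset.prod_le_prod_of_subset_of_one_le' ?_ ?_
      · intro p hp
        simp only [Finset.mem_filter, Finset.mem_range] at hp ⊢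
        exact ⟨by omega, hp.1.2⟩
      · intro p hp _
        simp only [Finset.mem_filter] at hp
        exact hp.2.one_lt.le
    · refine Nat.le_of_dvd hn ?_
      refine Finset.prod_primes_dvd n ?_ ?_
      · intro p hp
        simp only [Finset.mem_filter] at hp
        exact hp.1.2.prime
      · intro p hp
        simp only [Finset.mem_filter, Finset.mem_range] at hp
        exact hdiv p hp.1.2 (by omega) (by omega)
  have h2 : n ≤ 2 ^ Nat.clog 2 d := hnd.trans (Nat.le_pow_clog (by norm_num) d)
  have h3 : primorial (16384 * g) ≤ 2 ^ (17 * g) := by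
    calc primorial (16384 * g) ≤ 4 ^ (8 * g) * n := h1
      _ ≤ 4 ^ (8 * g) * 2 ^ g :=
          Nat.mul_le_mul le_rfl (h2.trans (Nat.pow_le_pow_right (by norm_num) (by omega)))
      _ = 2 ^ (17 * g) := by
          rw [show (4 : ℕ) = 2 ^ 2 by norm_num, ← pow_mul, ← pow_add]
          congr 1
          ring
  have h4 : Chebyshev.theta ((16384 * g : ℕ) : ℝ) ≤ 17 * (g : ℝ) * Real.log 2 := by
    rw [Chebyshev.theta_eq_log_primorial, Nat.floor_natCast]
    have h5 : Real.log (primorial (16384 * g) : ℝ) ≤ Real.log ((2 : ℝ) ^ (17 * g)) := by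
      apply Real.log_le_log
      · exact_mod_cast primorial_pos _
      · exact_mod_cast h3
    rw [Real.log_pow] at h5
    push_cast at h5
    exact h5
  have h5 := Chebyshev.theta_ge (16384 * g)
  have h6 := key_ineq g (by omega)
  linarith

end nt

end L4

/- CHOICE OF e. ℓ = the least integer ≥ 2 coprime to n (it is a prime; found by unary gcd computations), t0 = 13 + 6 * clog2 d computed from un d by repeated halving (6000 d^6 ≤ 2^13 * (2^(clog2 d))^6), e = ℓ^a with a minimal such that ℓ^a ≥ t0 (so e ≤ ℓ * t0). Unary arithmetic.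
Bound: ℓ ≤ C * lgc n ^ 2: all primes < ℓ divide n, so 2^(number of primes < ℓ) ≤ n; with 2k ≤ ℓ - 1: 4^k ≤ 2k * centralBinom k (Nat.four_pow_le_two_mul_self_mul_centralBinom) and centralBinom k = product over primes p ≤ 2k of p^(factorization) with each factor ≤ 2k (Nat.factorization_choose_le_log, Nat.prod_pow_factorization_centralBinom,
Nat.pow_factorization_choose_le), hence 4^k ≤ 2k * (2k)^(log2 n), which gives k ≤ O((log n)^2) (log2 (2k) ≤ C sqrt k or a similar crude estimate). Any other elementary argument giving ℓ ≤ C (log n)^2 is welcome. Cost: at most ℓ gcd computations, each O(n + ℓ) plus lower order terms (first reduce n modulo i). -/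
/-- TARGET -/
theorem specCop : SpecCop := by
  refine ⟨L4.copP, 2000000000000000, fun n d hn hnd => ?_⟩
  obtain ⟨q, hq1, hq2, hq3⟩ := L4.exists_cop n d hn hnd
  have hex : ∃ e, 8 * (Nat.clog 2 d + 2) ≤ e ∧ Nat.Coprime n e := ⟨q, hq1, hq3⟩
  obtain ⟨e, he, hmin⟩ : ∃ e, (8 * (Nat.clog 2 d + 2) ≤ e ∧ Nat.Coprime n e) ∧
      ∀ e', 8 * (Nat.clog 2 d + 2) ≤ e' ∧ Nat.Coprime n e' → e ≤ e' := by
    classical
    exact ⟨Nat.find hex, Nat.find_spec hex, fun e' h => Nat.find_min' hex h⟩
  have heq : e ≤ q := hmin q ⟨hq1, hq3⟩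
  have hun : ∀ k : ℕ, (un k).length = k := fun k => by simp [un]
  refine ⟨e, he.2.symm, ?_, by omega, ?_, fun F _ _ => ⟨?_, ?_⟩⟩
  · have h1 : d ≤ 2 ^ Nat.clog 2 d := Nat.le_pow_clog (by norm_num) d
    calc 6000 * d ^ 6 ≤ 2 ^ 13 * (2 ^ Nat.clog 2 d) ^ 6 :=
          Nat.mul_le_mul (by norm_num) (Nat.pow_le_pow_left h1 6)
      _ = 2 ^ (13 + 6 * Nat.clog 2 d) := by
          rw [pow_add, ← pow_mul]
          congr 2
          ring
      _ ≤ 2 ^ e := Nat.pow_le_pow_right (by norm_num) (by omega)
  · have h1 : lgc d = Nat.clog 2 d + 1 := rfl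
    have h2 : lgc d ≤ lgc d ^ 3 := Nat.le_self_pow (by norm_num) _
    omega
  · have h1 := L4.len_copP (F := F) (s := []) () (un n) (un d) e (by rw [hun]; exact hn)
      (by rw [hun]; exact he.1) (by rw [hun]; exact heq.trans hq2) (by rw [hun]; exact he.2)
      (by rw [hun, hun]; exact hmin)
    exact List.eq_replicate_iff.2 ⟨h1, fun _ _ => rfl⟩
  · have h1 := L4.cost_copP (F := F) (s := []) () () (un n) (un d)
    rw [hun, hun] at h1
    refine h1.trans ?_
    have hc : Nat.clog 2 d ≤ d := by
      rw [Nat.clog_le_iff_le_pow (by norm_num)]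
      exact Nat.lt_two_pow_self.le
    exact L4.fin_ineq n d (Nat.clog 2 d) (Nat.clog 2 d + 1) (d + 1) (by omega) (by omega)
      (by omega) (by omega) (by omega)
end Pool.Agent.H330AB.JL4
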