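import Pool.Agent.H330AB.SpecC1
set_option autoImplicit false
noncomputable section
noncomputable section
namespace Pool.Agent.H330AB.JL5
open Polynomial Pool.Agent.H330FB

namespace FindG

/-! ### pieces -/

theorem length_chunks {α : Type} (n k : ℕ) (l : List α) :
    (chunks n k l).length = k := by
  induction k generalizing l with
  | zero => rfl
  | succ k ih => simp [chunks, ih]

theorem chunks_len {α : Type} (n k : ℕ) (l : List α) (h : l.length = k * n) :
    ∀ z ∈ chunks n k l, z.length = n := by
  induction k generalizing l with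
  | zero => intro z hz; simp [chunks] at hz
  | succ k ih =>
    intro z hz
    have h' : l.length = k * n + n := by rw [h]; ring
    simp only [chunks, List.mem_cons] at hz
    rcases hz with rfl | hz
    · rw [List.length_take]; omega
    · exact ih (l.drop n) (by rw [List.length_drop]; omega) z hz

theorem chunks_mem {α : Type} (n k i : ℕ) (l : List α) (hi : i < k) :
    (l.drop (i * n)).take n ∈ chunks n k l := by
  induction k generalizing l i with
  | zero => omega
  | succ k ih =>
    rcases Nat.eq_zero_or_pos i with rfl | hpos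
    · simp [chunks]
    · obtain ⟨i', rfl⟩ : ∃ i', i = i' + 1 := ⟨i - 1, by omega⟩
      have h1 := ih i' (l.drop n) (by omega)
      rw [List.drop_drop] at h1
      simp only [chunks, List.mem_cons]
      right
      have h2 : (i' + 1) * n = n + i' * n := by ring
      rw [h2]
      exact h1

theorem take_ofFn {α : Type} (k n i : ℕ) (hi : i < k) (r : Fin (k * n) → α) :
    ((List.ofFn r).drop (i * n)).take n =
      List.ofFn (fun t : Fin n => r (finProdFinEquiv (⟨i, hi⟩, t))) := by
  have hle : i * n + n ≤ k * n := by
    have : (i + 1) * n ≤ k * n := Nat.mul_le_mul_right _ hi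
    linarith [this, Nat.succ_mul i n]
  apply List.ext_getElem
  · simp only [List.length_take, List.length_drop, List.length_ofFn]
    omega
  · intro t h1 h2
    rw [List.length_ofFn] at h2
    simp only [List.getElem_take, List.getElem_drop, List.getElem_ofFn]
    congr 1
    apply Fin.ext
    simp only [finProdFinEquiv_apply_val]
    ring

theorem fit_self {α : Type} (z : α) (l : List α) (n : ℕ) (h : l.length = n) : fit n z l = l := by
  subst h
  induction l with
  | nil => rfl
  | cons x l ih => simp [fit, ih]

/-! ### the program -/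

/-- body of the search: context `bits q`, state, piece -/
def stepP (irr : Pr [] (.prod Po Po) Un) : Pr [] (.prod Po (.prod Po Po)) Po :=
  onL (.comp .snd .fst)
    (onL (.comp (.pair .fst (.comp .snd .snd)) irr) .nil (.comp .fst (.comp .snd .snd)))
    (.comp .fst (.comp .snd .fst))

/-- product of two unary numbers -/
def mulU {g : Ty} (p q : Pr [] g Un) : Pr [] g Un :=
  .comp (.comp (.pair q p) (mapP (c := Un) .fst)) flatP

theorem length_mulU {g : Ty} (p q : Pr [] g Un) {F : Type} [Field F] [DecidableEq F]
    (x : Ty.D F g) : List.length ((mulU p q).val () x) =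
      List.length (p.val () x) * List.length (q.val () x) := by
  simp [mulU]

theorem cost_mulU {g : Ty} (p q : Pr [] g Un) {F : Type} [Field F] [DecidableEq F]
    (x : Ty.D F g) : (mulU p q).cost () () x ≤ p.cost () () x + q.cost () () x +
      (20 * List.length (q.val () x) + 85) * List.length (p.val () x) + 46 := by
  have h1 := cost_mapP_le (s := []) (c := Un) (a := .unit) (b := Un) .fst () ()
    (F := F) (q.val () x, p.val () x) 1 (fun _ _ => by simp)
  have h2 := cost_flatP (s := []) (a := .unit) (F := F) () ()
    (List.map (fun _ => q.val () x) (p.val () x)) (List.length (q.val () x)) (by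
      intro y hy
      simp at hy
      rw [← hy.2])
  simp [mulU] at h1 h2 ⊢
  nlinarith

/-- number of the pieces -/
def numP : Pr [] (.prod Po (.prod Un (.prod Un Po))) Un :=
  .comp (.pair .id .id) (ap2 appP
    (.comp .fst (mulU (.comp .snd .fst)
      (.comp (.pair .star (.comp .snd (.comp .snd .fst))) .cons)))
    (.comp .snd (mulU (.comp .snd .fst)
      (.comp (.pair .star (.comp .snd (.comp .snd .fst))) .cons))))

theorem length_numP {F : Type} [Field F] [DecidableEq F]
    (b r : List F) (E T : List Unit) :
    List.length ((numP).val () ((b, (E, (T, r))) : Ty.D F (.prod Po (.prod Un (.prod Un Po)))))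
      = 2 * E.length * (T.length + 1) := by
  have h3 := length_mulU (g := .prod Po (.prod Un (.prod Un Po))) (.comp .snd .fst)
      (.comp (.pair .star (.comp .snd (.comp .snd .fst))) .cons)
      ((b, (E, (T, r))) : Ty.D F (.prod Po (.prod Un (.prod Un Po))))
  simp only [val_comp, val_pair, val_snd, val_fst, val_cons, List.length_cons] at h3
  simp only [numP, val_comp, val_pair, val_snd, val_fst, val_id, val_appP, List.length_append]
  rw [h3]
  ring

theorem cost_numP {F : Type} [Field F] [DecidableEq F]
    (b r : List F) (E T : List Unit) :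
    numP.cost () () ((b, (E, (T, r))) : Ty.D F (.prod Po (.prod Un (.prod Un Po)))) ≤
      300 * (E.length + 1) * (T.length + 1) := by
  have h1 := cost_mulU (g := .prod Po (.prod Un (.prod Un Po))) (.comp .snd .fst)
      (.comp (.pair .star (.comp .snd (.comp .snd .fst))) .cons)
      ((b, (E, (T, r))) : Ty.D F (.prod Po (.prod Un (.prod Un Po))))
  have h3 := length_mulU (g := .prod Po (.prod Un (.prod Un Po))) (.comp .snd .fst)
      (.comp (.pair .star (.comp .snd (.comp .snd .fst))) .cons)
      ((b, (E, (T, r))) : Ty.D F (.prod Po (.prod Un (.prod Un Po))))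
  have h2 := cost_appP (s := []) (a := .unit) (F := F) () ()
    ((mulU (g := .prod Po (.prod Un (.prod Un Po))) (.comp .snd .fst)
      (.comp (.pair .star (.comp .snd (.comp .snd .fst))) .cons)).val ()
      ((b, (E, (T, r))) : Ty.D F (.prod Po (.prod Un (.prod Un Po)))),
      (mulU (g := .prod Po (.prod Un (.prod Un Po))) (.comp .snd .fst)
      (.comp (.pair .star (.comp .snd (.comp .snd .fst))) .cons)).val ()
      ((b, (E, (T, r))) : Ty.D F (.prod Po (.prod Un (.prod Un Po)))))
  simp only [val_comp, val_pair, val_snd, val_fst, val_cons, cost_comp, cost_pair, cost_snd,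
    cost_fst, cost_cons, cost_star, List.length_cons] at h1 h2 h3
  simp only [numP, cost_comp, cost_pair, cost_snd, cost_fst, cost_id, val_comp, val_pair, val_snd,
    val_fst, val_id]
  rw [h3] at h2
  nlinarith [Nat.zero_le (E.length * T.length), Nat.zero_le E.length, Nat.zero_le T.length]

/-- the search -/
def searchP (irr : Pr [] (.prod Po Po) Un) : Pr [] (.prod Po (.prod Un (.prod Un Po))) Po :=
  ap3 (foldP (stepP irr)) .fst .nil
    (ap3 chunksP numP (.comp .snd .fst) (.comp .snd (.comp .snd .snd)))

/-- the program -/
def mainP (irr : Pr [] (.prod Po Po) Un) : Pr [] (.prod Po (.prod Un (.prod Un Po))) Po :=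
  ap3 fitP (.comp .snd .fst) .zero (searchP irr)

/-- the step of the search as a function -/
def step {F : Type} (T : List F → List Unit) (y z : List F) : List F :=
  lcase y (lcase (T z) [] (fun _ _ => z)) (fun _ _ => y)

theorem fold_keep {F : Type} (T : List F → List Unit) (l : List (List F))
    (y : List F) (hy : y ≠ []) : List.foldl (step T) y l = y := by
  induction l with
  | nil => rfl
  | cons z l ih =>
    rw [List.foldl_cons]
    have : step T y z = y := by
      cases y with
      | nil => exact absurd rfl hy
      | cons h t => rfl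
    rw [this]
    exact ih

theorem fold_found {F : Type} (T : List F → List Unit) (Q : List F → Prop)
    (l : List (List F)) (hl : ∀ z ∈ l, z ≠ []) (h1 : ∀ z ∈ l, Q z → T z ≠ [])
    (h2 : ∀ z ∈ l, ¬ Q z → T z = []) (hex : ∃ z ∈ l, Q z) :
    Q (List.foldl (step T) [] l) := by
  induction l with
  | nil => obtain ⟨z, hz, _⟩ := hex; simp at hz
  | cons z l ih =>
    rw [List.foldl_cons]
    by_cases hQ : Q z
    · have hT := h1 z (by simp) hQ
      have : step T [] z = z := by
        unfold step
        rw [lcase_nil]
        cases hTz : T z with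
        | nil => exact absurd hTz hT
        | cons h t => rfl
      rw [this, fold_keep T l z (hl z (by simp))]
      exact hQ
    · have hT := h2 z (by simp) hQ
      have : step T [] z = [] := by
        unfold step
        rw [lcase_nil, hT, lcase_nil]
      rw [this]
      apply ih
      · intro w hw; exact hl w (by simp [hw])
      · intro w hw; exact h1 w (by simp [hw])
      · intro w hw; exact h2 w (by simp [hw])
      · obtain ⟨w, hw, hQw⟩ := hex
        rcases List.mem_cons.mp hw with rfl | hw
        · exact absurd hQw hQ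
        · exact ⟨w, hw, hQw⟩

theorem val_searchP (irr : Pr [] (.prod Po Po) Un) {F : Type} [Field F] [DecidableEq F]
    (b r : List F) (E T : List Unit) :
    ((searchP irr).val () (b, (E, (T, r))) : List F) =
      List.foldl (step (fun z => irr.val () (b, z))) []
        (chunks E.length (2 * E.length * (T.length + 1)) r) := by
  simp only [searchP, val_comp, val_pair, val_fst, val_snd, val_nil, val_foldP, val_chunksP]
  rw [length_numP]
  congr 1

theorem val_mainP (irr : Pr [] (.prod Po Po) Un) {F : Type} [Field F] [DecidableEq F]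
    (b r : List F) (E T : List Unit) :
    ((mainP irr).val () (b, (E, (T, r))) : List F) =
      fit E.length (0 : F) (List.foldl (step (fun z => irr.val () (b, z))) []
        (chunks E.length (2 * E.length * (T.length + 1)) r)) := by
  rw [← val_searchP]
  simp only [mainP, val_comp, val_pair, val_fst, val_snd, val_zero, val_fitP]

theorem cost_searchP (irr : Pr [] (.prod Po Po) Un) {F : Type} [Field F] [DecidableEq F]
    (b r : List F) (E T : List Unit) (B : ℕ)
    (hr : r.length = 2 * E.length * (T.length + 1) * E.length)
    (hB : ∀ z : List F, z.length = E.length → irr.cost () () (b, z) ≤ B) :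
    (searchP irr).cost () () (b, (E, (T, r))) ≤
      (B + 500) * (E.length + 1) ^ 2 * (T.length + 1) * 2 := by
  set u : List Unit := numP.val () ((b, (E, (T, r))) : Ty.D F (.prod Po (.prod Un (.prod Un Po))))
    with hu
  have hul : u.length = 2 * E.length * (T.length + 1) := length_numP b r E T
  have hd := cost_numP b r E T
  have hc := cost_chunksP (s := []) (b := .unit) (c := .unit) (a := .fld) (F := F) () () (u, (E, r))
  have hf := cost_foldP_le (stepP irr) (F := F) () ()
    (b, (([] : List F), chunks E.length u.length r)) (B + 60) (fun _ => True) trivial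
    (fun _ _ _ _ => trivial) (by
      intro y z _ hz
      have hz' : z.length = E.length := by
        apply chunks_len E.length u.length r _ z hz
        rw [hr, hul]
      have h1 := hB z hz'
      cases y with
      | nil =>
        simp only [stepP, cost_onL, cost_comp, cost_pair, cost_fst, cost_snd, val_comp,
          val_pair, val_fst, val_snd, lcase_nil, cost_nil]
        cases irr.val () (b, z) with
        | nil => simp only [lcase_nil]; omega
        | cons h t => simp only [lcase_cons]; omega
      | cons h t =>
        simp only [stepP, cost_onL, cost_comp, cost_pair, cost_fst, cost_snd, val_comp,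
          val_pair, val_fst, val_snd, lcase_cons]
        omega)
  simp only [length_chunks] at hf
  rw [hul] at hf
  simp only [hul] at hc
  simp only [searchP, cost_comp, cost_pair, cost_fst, cost_snd, cost_nil, val_comp, val_pair,
    val_fst, val_snd, val_nil, val_chunksP]
  rw [← hu, hul]
  clear_value u
  generalize List.length E = x at *
  generalize List.length T = y at *
  set N := (B + 500) * (x + 1) ^ 2 * (y + 1) * 2 with hN
  have e1 : N = 2 * B * x ^ 2 * (y + 1) + 4 * (B * x * (y + 1)) + 2 * (B * (y + 1)) +
      1000 * (x ^ 2 * (y + 1)) + 2000 * (x * (y + 1)) + 1000 * (y + 1) := by rw [hN]; ring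
  have e2 : (B + 60 + 27) * (2 * x * (y + 1)) = 2 * (B * x * (y + 1)) + 174 * (x * (y + 1)) := by
    ring
  have e3 : (24 * x + 30) * (2 * x * (y + 1)) = 48 * (x ^ 2 * (y + 1)) + 60 * (x * (y + 1)) := by
    ring
  have e4 : 300 * (x + 1) * (y + 1) = 300 * (x * (y + 1)) + 300 * (y + 1) := by ring
  rw [e2] at hf
  rw [e3] at hc
  rw [e4] at hd
  rw [e1]
  generalize B * x * (y + 1) = m1 at *
  generalize x ^ 2 * (y + 1) = m2 at *
  generalize x * (y + 1) = m3 at *
  omega

theorem cost_mainP (irr : Pr [] (.prod Po Po) Un) {F : Type} [Field F] [DecidableEq F]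
    (b r : List F) (E T : List Unit) (B : ℕ)
    (hr : r.length = 2 * E.length * (T.length + 1) * E.length)
    (hB : ∀ z : List F, z.length = E.length → irr.cost () () (b, z) ≤ B) :
    (mainP irr).cost () () (b, (E, (T, r))) ≤
      (B + 600) * (E.length + 1) ^ 2 * (T.length + 1) * 2 := by
  have h1 := cost_searchP irr b r E T B hr hB
  have h2 := cost_fitP (s := []) (b := .unit) (a := .fld) (F := F) () ()
    (E, ((0 : F), ((searchP irr).val () (b, (E, (T, r))) : List F)))
  simp only [mainP, cost_comp, cost_pair, cost_fst, cost_snd, cost_zero, val_comp, val_pair,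
    val_fst, val_snd, val_zero] at h2 ⊢
  generalize List.length E = x at *
  generalize List.length T = y at *
  have e1 : (B + 600) * (x + 1) ^ 2 * (y + 1) * 2 = (B + 500) * (x + 1) ^ 2 * (y + 1) * 2 +
      200 * (x ^ 2 * (y + 1)) + 400 * (x * y) + 400 * x + 200 * (y + 1) := by ring
  rw [e1]
  generalize (B + 500) * (x + 1) ^ 2 * (y + 1) * 2 = m at *
  generalize x ^ 2 * (y + 1) = m2 at *
  generalize x * y = m3 at *
  omega

/-! ### counting -/

theorem pow_bound (e t : ℕ) (he : 1 ≤ e) :
    (2 : ℝ) ^ t * (1 - 1 / (2 * (e : ℝ))) ^ (2 * e * (t + 1)) ≤ 1 := by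
  have hE' : (1 : ℝ) ≤ e := by exact_mod_cast he
  have h1 : (1 - 1 / (2 * (e : ℝ))) ≤ Real.exp (-(1 / (2 * (e : ℝ)))) := Real.one_sub_le_exp_neg _
  have h0 : 0 ≤ 1 - 1 / (2 * (e : ℝ)) := by
    rw [sub_nonneg, div_le_one (by positivity)]
    linarith
  have h2 : (1 - 1 / (2 * (e : ℝ))) ^ (2 * e * (t + 1)) ≤ Real.exp (-(t + 1 : ℝ)) := by
    calc (1 - 1 / (2 * (e : ℝ))) ^ (2 * e * (t + 1))
        ≤ (Real.exp (-(1 / (2 * (e : ℝ))))) ^ (2 * e * (t + 1)) :=
          pow_le_pow_left₀ h0 h1 _
      _ = Real.exp (-(t + 1 : ℝ)) := by
        rw [← Real.exp_nat_mul]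
        congr 1
        push_cast
        field_simp
  have h3 : (2 : ℝ) ^ t ≤ Real.exp (t + 1 : ℝ) := by
    have h5 : (2 : ℝ) ≤ Real.exp 1 := by
      have := Real.exp_one_gt_d9
      linarith
    calc (2 : ℝ) ^ t ≤ 2 ^ (t + 1) := pow_le_pow_right₀ (by norm_num) (by omega)
      _ ≤ Real.exp 1 ^ (t + 1) := pow_le_pow_left₀ (by norm_num) h5 _
      _ = Real.exp (t + 1 : ℝ) := by
        rw [← Real.exp_nat_mul]
        congr 1
        push_cast
        ring
  calc (2 : ℝ) ^ t * (1 - 1 / (2 * (e : ℝ))) ^ (2 * e * (t + 1))
      ≤ Real.exp (t + 1 : ℝ) * Real.exp (-(t + 1 : ℝ)) :=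
        mul_le_mul h3 h2 (pow_nonneg h0 _) (Real.exp_pos _).le
    _ = 1 := by rw [← Real.exp_add]; norm_num

theorem count_bad (F : Type) [Field F] [Fintype F] (h : StmtIrrG) (E t : ℕ) (hE1 : 1 ≤ E) :
    2 ^ t * Nat.card {r : Fin (2 * E * (t + 1) * E) → F //
      ∀ i : Fin (2 * E * (t + 1)), ¬ Irreducible (mpol (List.ofFn
        (fun s : Fin E => r (finProdFinEquiv (i, s)))))} ≤
      Fintype.card F ^ (2 * E * (t + 1) * E) := by
  classical
  -- the set of bad pieces
  let Bad : Type := {w : Fin E → F // ¬ Irreducible (mpol (List.ofFn w))}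
  set K := 2 * E * (t + 1) with hK
  have e1 : {r : Fin (K * E) → F //
      ∀ i : Fin K, ¬ Irreducible (mpol (List.ofFn
        (fun t : Fin E => r (finProdFinEquiv (i, t)))))} ≃ (Fin K → Bad) :=
    { toFun := fun r i => ⟨fun t => r.1 (finProdFinEquiv (i, t)), r.2 i⟩
      invFun := fun g => ⟨fun x => (g (finProdFinEquiv.symm x).1).1 (finProdFinEquiv.symm x).2, by
        intro i
        simp only [Equiv.symm_apply_apply]
        exact (g i).2⟩
      left_inv := by
        intro r
        apply Subtype.ext
        funext x
        show r.1 (finProdFinEquiv ((finProdFinEquiv.symm x).1, (finProdFinEquiv.symm x).2)) = r.1 x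
        rw [Prod.mk.eta, Equiv.apply_symm_apply]
      right_inv := by
        intro g
        funext i
        apply Subtype.ext
        funext t
        simp }
  have hcardBad : Nat.card Bad + Nat.card {l : List F // l.length = E ∧ Irreducible (mpol l)} =
      Fintype.card F ^ E := by
    have e2 : {l : List F // l.length = E ∧ Irreducible (mpol l)} ≃
        {w : Fin E → F // Irreducible (mpol (List.ofFn w))} :=
      { toFun := fun l => ⟨fun t => l.1.get (t.cast l.2.1.symm), by
          have : List.ofFn (fun t : Fin E => l.1.get (t.cast l.2.1.symm)) = l.1 := by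
            apply List.ext_getElem
            · simp [l.2.1]
            · intro t h1 h2; simp
          rw [this]
          exact l.2.2⟩
        invFun := fun w => ⟨List.ofFn w.1, by simp, w.2⟩
        left_inv := by
          intro l
          apply Subtype.ext
          apply List.ext_getElem
          · simp [l.2.1]
          · intro t h1 h2; simp
        right_inv := by
          intro w
          apply Subtype.ext
          funext t
          simp }
    rw [Nat.card_congr e2, Nat.card_eq_fintype_card, Nat.card_eq_fintype_card]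
    have h3 : Fintype.card (Fin E → F) = Fintype.card F ^ E := by simp
    rw [← h3]
    have h4 := Fintype.card_subtype_compl (fun w : Fin E → F => Irreducible (mpol (List.ofFn w)))
    have h5 := Fintype.card_subtype_le (fun w : Fin E → F => Irreducible (mpol (List.ofFn w)))
    have h6 : Fintype.card Bad = Fintype.card {w : Fin E → F // ¬ Irreducible (mpol (List.ofFn w))} := rfl
    rw [h6]
    omega
  have hirr := h F E hE1
  have hcard : Nat.card {r : Fin (K * E) → F //
      ∀ i : Fin K, ¬ Irreducible (mpol (List.ofFn
        (fun t : Fin E => r (finProdFinEquiv (i, t)))))} = Nat.card Bad ^ K := by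
    rw [Nat.card_congr e1, Nat.card_fun]
    simp
  rw [hcard]
  set q := Fintype.card F with hq
  set I := Nat.card {l : List F // l.length = E ∧ Irreducible (mpol l)} with hI
  have hE' : (1 : ℝ) ≤ E := by exact_mod_cast hE1
  have hb : (Nat.card Bad : ℝ) ≤ (q : ℝ) ^ E * (1 - 1 / (2 * (E : ℝ))) := by
    have r1 : (Nat.card Bad : ℝ) + I = (q : ℝ) ^ E := by exact_mod_cast hcardBad
    have r2 : (q : ℝ) ^ E ≤ 2 * E * I := by exact_mod_cast hirr
    have r3 : (q : ℝ) ^ E * (1 / (2 * (E : ℝ))) ≤ I := by
      rw [mul_one_div, div_le_iff₀ (by positivity)]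
      linarith
    linarith
  have hfin : (2 : ℝ) ^ t * (Nat.card Bad : ℝ) ^ K ≤ (q : ℝ) ^ (K * E) := by
    have hx := pow_bound E t hE1
    rw [← hK] at hx
    calc (2 : ℝ) ^ t * (Nat.card Bad : ℝ) ^ K
        ≤ 2 ^ t * ((q : ℝ) ^ E * (1 - 1 / (2 * (E : ℝ)))) ^ K := by
          apply mul_le_mul_of_nonneg_left _ (by positivity)
          exact pow_le_pow_left₀ (Nat.cast_nonneg _) hb _
      _ = (q : ℝ) ^ (K * E) * (2 ^ t * (1 - 1 / (2 * (E : ℝ))) ^ K) := by
          rw [mul_pow, ← pow_mul, mul_comm K E]
          ring
      _ ≤ (q : ℝ) ^ (K * E) * 1 := by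
          apply mul_le_mul_of_nonneg_left hx (by positivity)
      _ = _ := mul_one _
  exact_mod_cast hfin

end FindG

open FindG in
/-- TARGET -/
theorem specFindG (h1 : StmtIrrG) (h2 : SpecIrrG) : SpecFindG := by
  classical
  obtain ⟨irr, C, k, hirr⟩ := h2
  refine ⟨mainP irr, (C + 600) * 8, k + 2, ?_⟩
  intro F _ _ _ q e t hq he
  have hun : ∀ n, (un n).length = n := by intro n; simp [un]
  constructor
  · refine le_trans (Nat.mul_le_mul_left (2 ^ t) ?_) (hq ▸ count_bad F h1 e t he)
    apply Nat.card_le_card_of_injective
      (fun r : {r : Fin (2 * e * (t + 1) * e) → F //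
        ¬ Irreducible (mpol ((mainP irr).val () (bits F q, (un e, (un t, List.ofFn r))) :
          List F))} =>
        (⟨r.1, by
          intro i hcon
          apply r.2
          rw [val_mainP, hun, hun]
          have hlen : (List.ofFn r.1).length = 2 * e * (t + 1) * e := List.length_ofFn
          have hcl := chunks_len e (2 * e * (t + 1)) (List.ofFn r.1) hlen
          have hfound := fold_found (fun z => irr.val () (bits F q, z))
            (fun z => z.length = e ∧ Irreducible (mpol z))
            (chunks e (2 * e * (t + 1)) (List.ofFn r.1)) ?_ ?_ ?_ ?_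
          · rw [fit_self _ _ _ hfound.1]
            exact hfound.2
          · intro z hz
            have := hcl z hz
            rintro rfl
            simp at this
            omega
          · rintro z hz ⟨hz1, hz2⟩
            have h3 := (hirr F q z hq (by omega)).1 hz2
            rw [h3]
            simp [un]
          · intro z hz hnot
            have hz1 := hcl z hz
            have h3 := (hirr F q z hq (by omega)).2.1 (fun h => hnot ⟨hz1, h⟩)
            rw [h3]
            simp [un]
          · refine ⟨_, chunks_mem e (2 * e * (t + 1)) i.1 (List.ofFn r.1) i.2, ?_⟩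
            rw [take_ofFn (2 * e * (t + 1)) e i.1 i.2 r.1]
            exact ⟨List.length_ofFn, hcon⟩⟩ :
          {r : Fin (2 * e * (t + 1) * e) → F //
            ∀ i : Fin (2 * e * (t + 1)), ¬ Irreducible (mpol (List.ofFn
              (fun s : Fin e => r (finProdFinEquiv (i, s)))))}))
    intro r r' h
    have := congrArg Subtype.val h
    exact Subtype.ext this
  · intro r
    constructor
    · rw [val_mainP, hun, hun]
      exact length_fit _ _ _
    · have h3 := cost_mainP irr (bits F q) (List.ofFn r) (un e) (un t) (C * (e * lgc q) ^ k)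
        (by rw [hun, hun]; exact List.length_ofFn) (by
          intro z hz
          rw [hun] at hz
          have := (hirr F q z hq (by omega)).2.2
          rw [hz] at this
          exact this)
      rw [hun, hun] at h3
      refine le_trans h3 ?_
      have hl : 1 ≤ lgc q := by unfold lgc; omega
      have hx : 1 ≤ e * (t + 1) * lgc q := Nat.one_le_iff_ne_zero.mpr (by positivity)
      have a1 : e * lgc q ≤ e * (t + 1) * lgc q := by
        apply Nat.mul_le_mul_right
        nlinarith
      have a2 : (e + 1) ^ 2 * (t + 1) ≤ 4 * (e * (t + 1) * lgc q) ^ 2 := by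
        have b1 : (e + 1) ^ 2 ≤ 4 * e ^ 2 := by nlinarith
        have b2 : (t + 1) ≤ (t + 1) ^ 2 := by nlinarith
        have b3 : 1 ≤ lgc q ^ 2 := Nat.one_le_pow _ _ hl
        calc (e + 1) ^ 2 * (t + 1) ≤ (4 * e ^ 2) * (t + 1) ^ 2 := Nat.mul_le_mul b1 b2
          _ = (4 * e ^ 2) * (t + 1) ^ 2 * 1 := by ring
          _ ≤ (4 * e ^ 2) * (t + 1) ^ 2 * lgc q ^ 2 := Nat.mul_le_mul_left _ b3
          _ = 4 * (e * (t + 1) * lgc q) ^ 2 := by ring
      set x := e * (t + 1) * lgc q with hxdef
      have hxk : 1 ≤ x ^ k := Nat.one_le_pow _ _ hx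
      calc (C * (e * lgc q) ^ k + 600) * (e + 1) ^ 2 * (t + 1) * 2
          = (C * (e * lgc q) ^ k + 600) * ((e + 1) ^ 2 * (t + 1)) * 2 := by ring
        _ ≤ (C * x ^ k + 600 * x ^ k) * (4 * x ^ 2) * 2 := by
            gcongr
            omega
        _ = (C + 600) * 8 * x ^ (k + 2) := by ring

end Pool.Agent.H330AB.JL5
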