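import Pool.Agent.H330AB.SpecC1
set_option autoImplicit false
noncomputable section
namespace Pool.Agent.H330AB.JL5a
open Polynomial Pool.Agent.H330FB
lemma irrg_coeff_pol {R : Type} [CommRing R] (l : List R) (i : ℕ) :
    (pol l).coeff i = l.getD i 0 := by
  induction l generalizing i with
  | nil => simp [pol]
  | cons x l ih =>
    rcases i with _ | i
    · simp [pol]
    · simp [pol, ih, coeff_C_succ]

lemma irrg_exists {R : Type} [CommRing R] (f : R[X]) (n : ℕ) (hm : f.Monic)
    (hn : f.natDegree = n) : ∃ l : List R, l.length = n ∧ mpol l = f := by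
  refine ⟨List.ofFn (fun i : Fin n => f.coeff i), List.length_ofFn, ?_⟩
  ext i
  unfold mpol
  rw [coeff_add, irrg_coeff_pol, List.length_ofFn, coeff_X_pow]
  by_cases hi : i < n
  · rw [if_neg (by omega), zero_add, List.getD_eq_getElem _ _ (by simpa using hi)]
    simp
  · rw [List.getD_eq_default _ _ (by simpa using hi), add_zero]
    by_cases hi2 : i = n
    · rw [if_pos hi2, hi2, ← hn]
      exact hm.symm
    · rw [if_neg hi2, coeff_eq_zero_of_natDegree_lt (by omega)]

lemma irrg_sum (q : ℕ) (hq : 2 ≤ q) (h : ℕ) :
    2 * ∑ s ∈ Finset.Icc 1 h, q ^ s ≤ q ^ (2 * h) := by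
  induction h with
  | zero => simp
  | succ h ih =>
    rw [Finset.sum_Icc_succ_top (by omega), mul_add]
    rcases Nat.eq_zero_or_pos h with h0 | h0
    · subst h0
      simp only [Finset.Icc_eq_empty (show ¬ (1 : ℕ) ≤ 0 by omega), Finset.sum_empty]
      have : q ^ (2 * (0 + 1)) = q * q := by ring
      rw [this]
      have h1 : q ^ (0 + 1) = q := by ring
      rw [h1]
      nlinarith
    · have h1 : q ^ (h + 1) ≤ q ^ (2 * h) := Nat.pow_le_pow_right (by omega) (by omega)
      have h2 : q ^ (2 * (h + 1)) = q ^ (2 * h) * (q * q) := by ring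
      rw [h2]
      have h3 : q ^ (2 * h) * 4 ≤ q ^ (2 * h) * (q * q) := Nat.mul_le_mul_left _ (by nlinarith)
      omega

/- NUMBER OF IRREDUCIBLE POLYNOMIALS of degree e over a finite field F with q elements. Similar proof for e = 2^j: stmtIrrCount in Pool/Agent/H330FB/JE3.lean . General e: K' = field with q^e elements containing F (GaloisField, or AdjoinRoot / existence via splitting field of X^(q^e) - X); elements of K' not of
degree e lie in subfields with q^s elements, s ∣ e, s < e, s ≤ e/2, so satisfy x^(q^s) = x for some 1 ≤ s ≤ e/2: at most sum_{s=1}^{e/2} q^s ≤ q^e / 2 of them (check e = 1, 2, 3 separately; for q = 2 the sum is 2^(h+1) - 2 with h = e/2). So at least q^e/2 elements have a minimal polynomial of degree e, each polynomial has at most e roots. Alternatively count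
with X^(q^e) - X = product of the monic irreducible polynomials of degree dividing e. -/
/-- TARGET -/
theorem stmtIrrG : StmtIrrG := by
  classical
  intro F _ _ E hE1
  obtain ⟨p, hp⟩ := CharP.exists F
  have hfact : Fact p.Prime := ⟨CharP.char_is_prime F p⟩
  set q := Fintype.card F with hq
  have hq2 : 2 ≤ q := Fintype.one_lt_card
  have hnz : NeZero E := ⟨by omega⟩
  let L := FiniteField.Extension F p E
  haveI : Fintype L := Fintype.ofFinite L
  have hL : Fintype.card L = q ^ E := by
    have := FiniteField.natCard_extension F p E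
    rw [Nat.card_eq_fintype_card, Nat.card_eq_fintype_card] at this
    exact this
  have hfr : Module.finrank F L = E := FiniteField.finrank_extension F p E
  obtain ⟨Gd, hGd⟩ : ∃ Gd : L → Prop, ∀ z, Gd z ↔ ∀ s ∈ Finset.Icc 1 (E / 2), z ^ (q ^ s) ≠ z :=
    ⟨_, fun _ => Iff.rfl⟩
  -- degree
  have hdeg : ∀ z : L, Gd z → (minpoly F z).natDegree = E := by
    intro z hz
    rw [hGd] at hz
    have hint : IsIntegral F z := Algebra.IsIntegral.isIntegral z
    have hd : (minpoly F z).natDegree ∣ E := by
      have h1 : Module.finrank F (IntermediateField.adjoin F {z}) = (minpoly F z).natDegree :=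
        IntermediateField.adjoin.finrank hint
      have h2 := Module.finrank_mul_finrank F (IntermediateField.adjoin F {z}) L
      rw [h1, hfr] at h2
      exact ⟨_, h2.symm⟩
    by_contra hne
    have hpos : 0 < (minpoly F z).natDegree := minpoly.natDegree_pos hint
    obtain ⟨t, ht⟩ := hd
    have hle : (minpoly F z).natDegree ≤ E / 2 := by
      have ht2 : 2 ≤ t := by
        rcases Nat.lt_or_ge t 2 with h | h
        · exfalso
          interval_cases t
          · omega
          · exact hne (by omega)
        · exact h
      rw [Nat.le_div_iff_mul_le (by norm_num)]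
      calc (minpoly F z).natDegree * 2 ≤ (minpoly F z).natDegree * t :=
            Nat.mul_le_mul_left _ ht2
        _ = E := ht.symm
    apply hz _ (Finset.mem_Icc.mpr ⟨hpos, hle⟩)
    let K := IntermediateField.adjoin F {z}
    haveI : Fintype K := Fintype.ofFinite K
    have hK : Fintype.card K = q ^ (minpoly F z).natDegree := by
      have h1 : Module.finrank F K = (minpoly F z).natDegree :=
        IntermediateField.adjoin.finrank hint
      rw [← h1]
      have := Module.card_eq_pow_finrank (K := F) (V := K)
      exact this
    have h2 : (⟨z, IntermediateField.mem_adjoin_simple_self F z⟩ : K) ^ (Fintype.card K) =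
        ⟨z, IntermediateField.mem_adjoin_simple_self F z⟩ := FiniteField.pow_card _
    have h3 := congrArg (fun y : K => (y : L)) h2
    rw [hK] at h3
    exact h3
  -- the elements of smaller subfields
  have hroots : ∀ s ∈ Finset.Icc 1 (E / 2),
      (Finset.univ.filter (fun z : L => z ^ (q ^ s) = z)).card ≤ q ^ s := by
    intro s hs
    have hs1 := (Finset.mem_Icc.mp hs).1
    have h1 : 1 < q ^ s := Nat.one_lt_pow (by omega) (by omega)
    have hne : (X ^ (q ^ s) - X : L[X]) ≠ 0 := FiniteField.X_pow_card_sub_X_ne_zero L h1
    have hsub : (Finset.univ.filter (fun z : L => z ^ (q ^ s) = z)) ⊆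
        (X ^ (q ^ s) - X : L[X]).roots.toFinset := by
      intro z hz
      rw [Finset.mem_filter] at hz
      rw [Multiset.mem_toFinset, mem_roots hne, IsRoot.def, eval_sub, eval_pow, eval_X, hz.2,
        sub_self]
    calc _ ≤ _ := Finset.card_le_card hsub
      _ ≤ _ := Multiset.toFinset_card_le _
      _ ≤ _ := card_roots' _
      _ = _ := FiniteField.X_pow_card_sub_X_natDegree_eq L h1
  have hbad : (Finset.univ.filter (fun z : L => ¬ Gd z)).card ≤
        ∑ s ∈ Finset.Icc 1 (E / 2), q ^ s := by
    have hsub : (Finset.univ.filter (fun z : L => ¬ Gd z)) ⊆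
        (Finset.Icc 1 (E / 2)).biUnion
          (fun s => Finset.univ.filter (fun z : L => z ^ (q ^ s) = z)) := by
      intro z hz
      rw [Finset.mem_filter] at hz
      have hz2 := hz.2
      rw [hGd] at hz2
      push Not at hz2
      obtain ⟨s, hs, hs2⟩ := hz2
      rw [Finset.mem_biUnion]
      exact ⟨s, hs, Finset.mem_filter.mpr ⟨Finset.mem_univ _, hs2⟩⟩
    exact (Finset.card_le_card hsub).trans
      (Finset.card_biUnion_le.trans (Finset.sum_le_sum hroots))
  -- the target
  have hfin : Finite {l : List F // l.length = E ∧ Irreducible (mpol l)} := by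
    have h1 : {l : List F | l.length = E}.Finite := List.finite_length_eq F E
    have h2 : {l : List F | l.length = E ∧ Irreducible (mpol l)}.Finite :=
      h1.subset (fun l hl => hl.1)
    exact h2.to_subtype
  haveI : Fintype {l : List F // l.length = E ∧ Irreducible (mpol l)} := Fintype.ofFinite _
  have hex : ∀ z : L, Gd z →
      ∃ l : {l : List F // l.length = E ∧ Irreducible (mpol l)},
        mpol (l : List F) = minpoly F z := by
    intro z hz
    have hint : IsIntegral F z := Algebra.IsIntegral.isIntegral z
    obtain ⟨l, hl1, hl2⟩ := irrg_exists (minpoly F z) E (minpoly.monic hint) (hdeg z hz)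
    refine ⟨⟨l, hl1, ?_⟩, hl2⟩
    rw [hl2]
    exact minpoly.irreducible hint
  have hgood : (Finset.univ.filter (fun z : L => Gd z)).card ≤
      Fintype.card {l : List F // l.length = E ∧ Irreducible (mpol l)} * E := by
    have hsub : (Finset.univ.filter (fun z : L => Gd z)) ⊆
        (Finset.univ : Finset {l : List F // l.length = E ∧ Irreducible (mpol l)}).biUnion
          (fun l => ((mpol (l : List F)).aroots L).toFinset) := by
      intro z hz
      rw [Finset.mem_filter] at hz
      obtain ⟨l, hl⟩ := hex z hz.2
      rw [Finset.mem_biUnion]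
      refine ⟨l, Finset.mem_univ _, ?_⟩
      rw [Multiset.mem_toFinset, mem_aroots]
      refine ⟨l.2.2.ne_zero, ?_⟩
      rw [hl]
      exact minpoly.aeval F z
    refine (Finset.card_le_card hsub).trans ?_
    refine (Finset.card_biUnion_le_card_mul _ _ E ?_).trans (le_of_eq ?_)
    · intro l _
      refine (Multiset.toFinset_card_le _).trans ?_
      refine (card_roots' _).trans ?_
      refine natDegree_map_le.trans ?_
      unfold mpol
      refine (natDegree_add_le _ _).trans ?_
      rw [natDegree_X_pow, l.2.1]
      refine max_le le_rfl ?_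
      rw [natDegree_le_iff_coeff_eq_zero]
      intro i hi
      rw [irrg_coeff_pol, List.getD_eq_default]
      rw [l.2.1]
      exact hi.le
    · rw [Finset.card_univ]
  have htot : q ^ E ≤ Fintype.card {l : List F // l.length = E ∧ Irreducible (mpol l)} * E +
      ∑ s ∈ Finset.Icc 1 (E / 2), q ^ s := by
    rw [← hL, ← Finset.card_univ,
      ← Finset.card_filter_add_card_filter_not (s := (Finset.univ : Finset L))
        (fun z : L => Gd z)]
    exact Nat.add_le_add hgood hbad
  have hsum := irrg_sum q hq2 (E / 2)
  have hle : q ^ (2 * (E / 2)) ≤ q ^ E := Nat.pow_le_pow_right (by omega) (by omega)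
  rw [Nat.card_eq_fintype_card]
  have hfin2 : q ^ E ≤ 2 * (Fintype.card {l : List F // l.length = E ∧ Irreducible (mpol l)} *
      E) := by omega
  calc q ^ E ≤ 2 * (Fintype.card {l : List F // l.length = E ∧ Irreducible (mpol l)} * E) := hfin2
    _ = 2 * E * Fintype.card {l : List F // l.length = E ∧ Irreducible (mpol l)} := by ring
end Pool.Agent.H330AB.JL5a

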