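import Pool.Agent.H330AB.SpecC1
set_option autoImplicit false
noncomputable section
noncomputable section
namespace Pool.Agent.H330AB.JL5b
open Polynomial Pool.Agent.H330FB

namespace L5b

theorem coeff_pol {R : Type} [CommRing R] (l : List R) (i : ℕ) :
    (pol l).coeff i = l.getD i 0 := by
  induction l generalizing i with
  | nil => simp [pol]
  | cons x l ih =>
    cases i with
    | zero => simp [pol]
    | succ i => simp [pol, coeff_C_succ, ih]

theorem degree_pol {R : Type} [CommRing R] (l : List R) : (pol l).degree < l.length := by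
  rw [degree_lt_iff_coeff_zero]
  intro m hm
  rw [coeff_pol, List.getD_eq_default _ _ hm]

section alg
variable {F : Type} [Field F]

theorem monicP (P : List F) : (mpol P).Monic := monic_X_pow_add (degree_pol P)

theorem natDegreeP (P : List F) : (mpol P).natDegree = P.length := by
  have h : (mpol P).degree = P.length := by
    unfold mpol
    rw [degree_add_eq_left_of_degree_lt]
    · rw [degree_X_pow]
    · rw [degree_X_pow]
      exact degree_pol P
  exact natDegree_eq_of_degree_eq_some h

theorem pol_zeros (n : ℕ) : pol (List.replicate n (0 : F)) = 0 := by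
  induction n with
  | zero => rfl
  | succ n ih => simp [List.replicate_succ, pol, ih]

/-- the test of irreducibility, algebraic form -/
theorem irr_iff [Fintype F] (q : ℕ) (hq : Fintype.card F = q) (M : F[X])
    (hM : M.Monic) (hd : 1 ≤ M.natDegree) :
    Irreducible M ↔ ∀ i, 1 ≤ i → i ≤ M.natDegree / 2 → IsCoprime (X ^ (q ^ i) - X) M := by
  have hq' : Nat.card F = q := by rw [Nat.card_eq_fintype_card, hq]
  constructor
  · intro hi i h1 h2
    rw [isCoprime_comm]
    rcases EuclideanDomain.dvd_or_coprime M (X ^ (q ^ i) - X) hi with h3 | h3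
    · exfalso
      rw [← hq'] at h3
      have h4 := (hi.natDegree_dvd_iff_dvd_X_pow_card_pow_sub_X).2 h3
      have h5 := Nat.le_of_dvd (by omega) h4
      omega
    · exact h3
  · intro h
    have hM1 : M ≠ 1 := by
      rintro rfl
      simp at hd
    rw [hM.irreducible_iff_lt_natDegree_lt hM1]
    intro g hg hgd hgM
    rw [Finset.mem_Ioc] at hgd
    have hnu : ¬ IsUnit g := fun hu => by
      have := natDegree_eq_zero_of_isUnit hu
      omega
    obtain ⟨r, hr, hrg⟩ := WfDvdMonoid.exists_irreducible_factor hnu hg.ne_zero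
    have h1 : r.natDegree ≤ g.natDegree := natDegree_le_of_dvd hrg hg.ne_zero
    have h2 : 1 ≤ r.natDegree := hr.natDegree_pos
    have h3 : r ∣ X ^ (q ^ r.natDegree) - X := by
      rw [← hq']
      exact (hr.natDegree_dvd_iff_dvd_X_pow_card_pow_sub_X).1 dvd_rfl
    exact hr.not_isUnit ((h r.natDegree h2 (by omega)).isUnit_of_dvd' h3 (hrg.trans hgM))

end alg

/-! ### programs -/

/-- a list of zeros -/
def zerosP : Pr [] Po Po := .comp (.pair .star .id) (mapP (c := .unit) .zero)

/-- the list of the variable -/
def xP : Pr [] Po Po :=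
  onL .id .nil (onL (.comp .snd .snd) .nil
    (.comp (.pair .zero (.comp (.pair .one (.comp (.comp .snd .snd) zerosP)) .cons)) .cons))

/-- difference -/
def subP : Pr [] (.prod Po Po) Po :=
  .comp (.pair .star .id)
    (zipP (c := .unit) (.comp (.pair (.comp .snd .fst) (.comp (.comp .snd .snd) .neg)) .add))

/-- the number one -/
def un1 {a : Ty} : Pr [] a Un := .comp (.pair .star .nil) .cons

/-- one step; input `(((bits, P), x), ((acc, flag), z))` -/
def stepP (pN : Pr [] (.prod (.prod Po (.prod Po Un)) Po) Po) (pG : Pr [] (.prod Po Po) Po) :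
    Pr [] (.prod (.prod (.prod Po Po) Po) (.prod (.prod Po Un) .fld)) (.prod Po Un) :=
  lt (.comp (.pair (.pair (.comp (.comp .snd .fst) .fst)
        (.pair (.comp (.comp .fst .fst) .fst) un1)) (.comp (.comp .fst .fst) .snd)) pN)
    (.pair .snd (onL (.comp (.pair (.comp (.comp (.comp .fst .fst) .fst) .snd)
        (.comp (.pair .snd (.comp (.comp .fst .fst) .snd)) subP)) pG)
      (.comp (.comp (.comp .fst .snd) .fst) .snd) .nil))

/-- the program; input `(bits, P)` -/
def mainP (pN : Pr [] (.prod (.prod Po (.prod Po Un)) Po) Po) (pG : Pr [] (.prod Po Po) Po) :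
    Pr [] (.prod Po Po) Un :=
  lt (.comp .snd xP)
    (.comp (.comp (.pair .id (.pair (.pair .snd un1) (.comp (.comp (.comp .fst .snd) eoP) .snd)))
      (foldP (stepP pN pG))) .snd)

section sem
variable {F : Type} [Field F] [DecidableEq F]

theorem val_zerosP (x : List F) : (zerosP.val () x : List F) = List.replicate x.length 0 := by
  simp [zerosP]

theorem cost_zerosP (x : List F) : zerosP.cost () () x ≤ 14 * x.length + 8 := by
  have h := cost_mapP_le (s := []) (c := .unit) (a := .fld) (b := .fld) .zero () () ((), x) 1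
    (fun _ _ => by simp)
  simp [zerosP] at h ⊢
  omega

theorem val_xP (h h' : F) (t : List F) :
    (xP.val () (h :: h' :: t) : List F) = 0 :: 1 :: List.replicate t.length 0 := by
  simp [xP, val_zerosP]

theorem cost_xP (x : List F) : xP.cost () () x ≤ 14 * x.length + 50 := by
  rcases x with _ | ⟨h, _ | ⟨h', t⟩⟩
  · simp [xP]
  · simp [xP]
  · have := cost_zerosP t
    simp [xP] at this ⊢
    omega

theorem val_subP (x y : List F) :
    (subP.val () (x, y) : List F) = List.zipWith (fun a b => a - b) x y := by
  simp [subP, sub_eq_add_neg]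

theorem cost_subP (x y : List F) : subP.cost () () (x, y) ≤ 70 * x.length + 30 := by
  have h := cost_zipP_le (s := []) (c := .unit) (a := .fld) (b := .fld) (d := .fld)
    (.comp (.pair (.comp .snd .fst) (.comp (.comp .snd .snd) .neg)) .add) () () ((), (x, y)) 7
    (fun _ _ _ _ => by simp)
  simp [subP] at h ⊢
  omega

omit [DecidableEq F] in
theorem pol_sub' {l m : List F} (h : l.length = m.length) :
    pol (List.zipWith (fun a b => a - b) l m) = pol l - pol m := by
  induction l generalizing m with
  | nil =>
    cases m with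
    | nil => simp [pol]
    | cons y m => simp at h
  | cons x l ih =>
    cases m with
    | nil => simp at h
    | cons y m =>
      simp only [List.length_cons, Nat.add_right_cancel_iff] at h
      simp only [List.zipWith_cons_cons, pol, ih h, C_sub]
      ring

end sem

end L5b

open L5b

/-- TARGET -/
theorem specIrrG (h1 : SpecPN) (h2 : SpecGcd) (h0 : SpecUnits) : SpecIrrG := by
  classical
  obtain ⟨pN, CN, hN⟩ := h1
  obtain ⟨pG, CG, hG⟩ := h2
  refine ⟨mainP pN pG, 8 * CN + 9 * CG + 1000, 3, ?_⟩
  intro F _ _ _ q P hq hP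
  obtain ⟨x, hx⟩ : ∃ x : List F, x = (xP.val () P : List F) := ⟨_, rfl⟩
  obtain ⟨half, hhalf⟩ : ∃ half : List F, half = (eo P).2 := ⟨_, rfl⟩
  have hhlen : half.length = P.length / 2 := by rw [hhalf, (length_eo P).2]
  have hval : ((mainP pN pG).val () (bits F q, P) : List Unit) =
      (List.foldl (fun y z => (stepP pN pG).val () (((bits F q, P), x), (y, z)))
        (x, [()]) half : List F × List Unit).2 := by
    rw [hx, hhalf]
    simp [mainP, un1]
  have hgcd : ∀ g : List F, (pG.val () (P, g) : List F) = [] ↔ IsCoprime (pol g) (mpol P) := by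
    intro g
    obtain ⟨_, g2, g3, g4, _⟩ := hG F P g
    constructor
    · intro h
      rw [h] at g4
      have h3 := g4 (EuclideanDomain.gcd (pol g) (mpol P)) (EuclideanDomain.gcd_dvd_right _ _)
        (EuclideanDomain.gcd_dvd_left _ _)
      have h4 : mpol ([] : List F) = 1 := by simp [mpol, pol]
      rw [h4] at h3
      exact EuclideanDomain.gcd_isUnit_iff.1 (isUnit_of_dvd_one h3)
    · intro h
      have h3 := natDegree_eq_zero_of_isUnit (h.isUnit_of_dvd' g3 g2)
      rw [natDegreeP] at h3
      exact List.length_eq_zero_iff.1 h3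
  -- one step
  have hsv : ∀ (acc : List F) (flag : List Unit) (z : F),
      ((stepP pN pG).val () (((bits F q, P), x), ((acc, flag), z)) : List F × List Unit) =
      ((pN.val () ((acc, (bits F q, un 1)), P) : List F),
        lcase (pG.val () (P, (subP.val () ((pN.val () ((acc, (bits F q, un 1)), P) : List F), x) :
          List F)) : List F) flag (fun _ _ => [])) := by
    intro acc flag z
    simp [stepP, un1, un]
  have hsl : ∀ (acc : List F) (flag : List Unit) (z : F), acc.length = P.length →
      ((stepP pN pG).val () (((bits F q, P), x), ((acc, flag), z)) : List F × List Unit).1.length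
        = P.length := by
    intro acc flag z ha
    rw [hsv]
    exact (hN F acc P q 1 ha hP).1
  have hsc : ∀ (acc : List F) (flag : List Unit) (z : F), acc.length = P.length →
      x.length = P.length →
      (stepP pN pG).cost () () (((bits F q, P), x), ((acc, flag), z)) ≤
        CN * ((1 + 1) * lgc q * (P.length + 1) ^ 2) + CG * (P.length + P.length + 1) ^ 2 +
          70 * P.length + 100 := by
    intro acc flag z ha hxl
    obtain ⟨n1, _, n3⟩ := hN F acc P q 1 ha hP
    obtain ⟨acc', hacc'⟩ : ∃ acc' : List F, acc' = (pN.val () ((acc, (bits F q, un 1)), P) :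
      List F) := ⟨_, rfl⟩
    rw [← hacc'] at n1
    obtain ⟨d, hd⟩ : ∃ d : List F, d = (subP.val () (acc', x) : List F) := ⟨_, rfl⟩
    have hdl : d.length = P.length := by
      rw [hd, val_subP, List.length_zipWith, n1, hxl, min_self]
    obtain ⟨_, _, _, _, g5⟩ := hG F P d
    rw [hdl] at g5
    have c1 := cost_subP acc' x
    rw [n1] at c1
    have hu : (un 1 : List Unit) = [()] := rfl
    rw [hu] at n3 hacc'
    simp only [stepP, un1, cost_lt, cost_comp, cost_pair, cost_fst, cost_snd, cost_onL,
      cost_star, cost_nil, cost_cons, val_comp, val_pair, val_fst, val_snd, val_star,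
      val_nil, val_cons]
    rw [← hacc', ← hd]
    have h5 : ∀ l : List F, lcase l (1 + 1 + 1 + 1) (fun _ _ => 1) ≤ 4 := by
      intro l; cases l <;> simp
    have h6 := h5 (pG.val () (P, d) : List F)
    have h7 : lcase (pG.val () (P, d) : List F) (1 + 1 + 1 + 1) (fun _ _ => 1) ≤ 4 := h6
    omega
  have hlen2 : half ≠ [] → x.length = P.length ∧ pol x = X := by
    intro hne
    have h3 : 1 ≤ half.length := List.length_pos_iff.2 hne
    rw [hhlen] at h3
    rcases P with _ | ⟨p0, _ | ⟨p1, t⟩⟩
    · simp at hP
    · simp at h3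
    · rw [hx, val_xP]
      refine ⟨by simp, ?_⟩
      simp [pol, pol_zeros]
  -- the invariant
  have key : ∀ (l : List F) (i : ℕ) (acc : List F) (flag : List Unit), x.length = P.length →
      pol x = X → acc.length = P.length → mpol P ∣ X ^ (q ^ i) - pol acc →
      flag = (if ∀ k, 1 ≤ k → k ≤ i → IsCoprime (X ^ (q ^ k) - X) (mpol P) then [()] else []) →
      (List.foldl (fun y z => (stepP pN pG).val () (((bits F q, P), x), (y, z)))
        (acc, flag) l : List F × List Unit).2 =
      (if ∀ k, 1 ≤ k → k ≤ i + l.length → IsCoprime (X ^ (q ^ k) - X) (mpol P)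
        then [()] else []) := by
    intro l
    induction l with
    | nil =>
      intro i acc flag _ _ _ _ hf
      simpa using hf
    | cons z l ih =>
      intro i acc flag hxl hxp hal hdv hf
      rw [List.foldl_cons, hsv]
      obtain ⟨n1, n2, _⟩ := hN F acc P q 1 hal hP
      obtain ⟨acc', hacc'⟩ : ∃ acc' : List F, acc' = (pN.val () ((acc, (bits F q, un 1)), P) :
        List F) := ⟨_, rfl⟩
      rw [← hacc'] at n1 n2 ⊢
      have hd : mpol P ∣ X ^ (q ^ (i + 1)) - pol acc' := by
        have e1 : mpol P ∣ X ^ (q ^ (i + 1)) - pol acc ^ q := by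
          rw [pow_succ, pow_mul]
          exact hdv.trans (sub_dvd_pow_sub_pow _ _ _)
        rw [pow_one] at n2
        have e2 := dvd_add e1 n2
        rwa [sub_add_sub_cancel] at e2
      have hcop : IsCoprime (pol acc' - X) (mpol P) ↔
          IsCoprime (X ^ (q ^ (i + 1)) - X) (mpol P) := by
        obtain ⟨r, hr⟩ := hd
        have h4 : X ^ (q ^ (i + 1)) - X = (pol acc' - X) + mpol P * r := by rw [← hr]; ring
        rw [h4]
        exact IsCoprime.add_mul_left_left_iff.symm
      have hflag : (lcase (pG.val () (P, (subP.val () (acc', x) : List F)) : List F) flag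
          (fun _ _ => []) : List Unit) =
          (if ∀ k, 1 ≤ k → k ≤ i + 1 → IsCoprime (X ^ (q ^ k) - X) (mpol P)
            then [()] else []) := by
        have h5 := hgcd (subP.val () (acc', x) : List F)
        rw [val_subP, pol_sub' (n1.trans hxl.symm), hxp, hcop, ← val_subP] at h5
        by_cases hc : IsCoprime (X ^ (q ^ (i + 1)) - X) (mpol P)
        · rw [h5.2 hc, lcase_nil, hf]
          apply if_congr _ rfl rfl
          constructor
          · intro h k k1 k2
            rcases Nat.lt_or_ge i k with h6 | h6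
            · have : k = i + 1 := by omega
              rw [this]; exact hc
            · exact h k k1 h6
          · intro h k k1 k2
            exact h k k1 (by omega)
        · have h6 : (pG.val () (P, (subP.val () (acc', x) : List F)) : List F) ≠ [] :=
            fun h => hc (h5.1 h)
          rw [if_neg (fun h => hc (h (i + 1) (by omega) le_rfl))]
          obtain ⟨y, t, hyt⟩ := List.exists_cons_of_ne_nil h6
          rw [hyt, lcase_cons]
      rw [hflag]
      have h7 := ih (i + 1) acc' _ hxl hxp n1 hd rfl
      rw [h7]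
      apply if_congr _ rfl rfl
      rw [List.length_cons]
      constructor
      · intro h k k1 k2
        exact h k k1 (by omega)
      · intro h k k1 k2
        exact h k k1 (by omega)
  have hres : ((mainP pN pG).val () (bits F q, P) : List Unit) =
      (if Irreducible (mpol P) then [()] else []) := by
    rw [hval]
    have hirr := irr_iff q hq (mpol P) (monicP P) (by rw [natDegreeP]; exact hP)
    rw [natDegreeP] at hirr
    by_cases hne : half = []
    · rw [hne]
      have h3 : P.length / 2 = 0 := by rw [← hhlen, hne]; rfl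
      rw [h3] at hirr
      rw [if_pos (hirr.2 (fun i h4 h5 => absurd h5 (by omega)))]
      rfl
    · obtain ⟨hxl, hxp⟩ := hlen2 hne
      have h3 := key half 0 x [()] hxl hxp hxl (by rw [hxp, pow_zero, pow_one, sub_self]; exact dvd_zero _)
        (by rw [if_pos (fun k h4 h5 => absurd h5 (by omega))])
      rw [h3, zero_add, hhlen]
      exact if_congr hirr.symm rfl rfl
  refine ⟨fun h => ?_, fun h => ?_, ?_⟩
  · rw [hres, if_pos h]; rfl
  · rw [hres, if_neg h]; rfl
  · have hc := cost_foldP_le (s := []) (c := .prod (.prod Po Po) Po) (b := .prod Po Un)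
      (a := .fld) (stepP pN pG) () () (((bits F q, P), x), ((x, [()]), half))
      (CN * ((1 + 1) * lgc q * (P.length + 1) ^ 2) + CG * (P.length + P.length + 1) ^ 2 +
          70 * P.length + 100)
      (fun y => half = [] ∨ List.length y.1 = P.length)
      (by
        by_cases hne : half = []
        · exact Or.inl hne
        · exact Or.inr (hlen2 hne).1)
      (fun y z hy hz => by
        rcases hy with hy | hy
        · exact Or.inl hy
        · exact Or.inr (hsl y.1 y.2 z hy))
      (fun y z hy hz => by
        have hne : half ≠ [] := List.ne_nil_of_mem hz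
        exact hsc y.1 y.2 z (hy.resolve_left hne) (hlen2 hne).1)
    have c1 := cost_xP P
    have c2 := cost_eoP (s := []) (F := F) (a := .fld) () () P
    simp only [mainP, un1, cost_lt, cost_comp, cost_pair, cost_fst, cost_snd, cost_id,
      cost_star, cost_nil, cost_cons, val_comp, val_pair, val_fst, val_snd, val_star,
      val_nil, val_cons, val_id, val_eoP]
    rw [← hx, ← hhalf]
    simp only at hc
    rw [hhlen] at hc
    have hg1 : 1 ≤ lgc q := by unfold lgc; omega
    clear hval hsv hsl hsc hgcd key hres hlen2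
    have hm : P.length / 2 ≤ P.length := Nat.div_le_self _ _
    generalize P.length / 2 = m at *
    generalize P.length = n at *
    generalize lgc q = g at *
    have t1 : (n + 1) ^ 2 ≤ 4 * n ^ 2 := by nlinarith
    have t2 : (n + n + 1) ^ 2 ≤ 9 * n ^ 2 := by nlinarith
    have t3 : n ≤ n ^ 2 := Nat.le_self_pow (by norm_num) n
    have t4 : n ^ 2 ≤ n ^ 2 * g := Nat.le_mul_of_pos_right _ hg1
    have t5 : CN * ((1 + 1) * g * (n + 1) ^ 2) ≤ 8 * CN * (n ^ 2 * g) := by
      calc CN * ((1 + 1) * g * (n + 1) ^ 2) ≤ CN * ((1 + 1) * g * (4 * n ^ 2)) :=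
            Nat.mul_le_mul_left _ (Nat.mul_le_mul_left _ t1)
        _ = _ := by ring
    have t6 : CG * (n + n + 1) ^ 2 ≤ 9 * CG * (n ^ 2 * g) := by
      calc CG * (n + n + 1) ^ 2 ≤ CG * (9 * (n ^ 2 * g)) :=
            Nat.mul_le_mul_left _ (t2.trans (Nat.mul_le_mul_left _ t4))
        _ = _ := by ring
    have t7 : CN * ((1 + 1) * g * (n + 1) ^ 2) + CG * (n + n + 1) ^ 2 + 70 * n + 100 + 27 ≤
        (8 * CN + 9 * CG + 197) * (n ^ 2 * g) := by
      have t8 : 1 ≤ n ^ 2 * g := by omega
      have t9 : (8 * CN + 9 * CG + 197) * (n ^ 2 * g) = 8 * CN * (n ^ 2 * g) +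
        9 * CG * (n ^ 2 * g) + 197 * (n ^ 2 * g) := by ring
      rw [t9]
      omega
    have t10 := Nat.mul_le_mul t7 hm
    have t11 : (8 * CN + 9 * CG + 197) * (n ^ 2 * g) * n =
      (8 * CN + 9 * CG + 197) * (n ^ 3 * g) := by ring
    rw [t11] at t10
    have t12 : n ≤ n ^ 3 * g := (Nat.le_self_pow (by norm_num) n).trans
      (Nat.le_mul_of_pos_right _ hg1)
    have t13 : n ^ 3 * g ≤ (n * g) ^ 3 := by
      rw [mul_pow]
      exact Nat.mul_le_mul_left _ (Nat.le_self_pow (by norm_num) g)
    have t14 : (8 * CN + 9 * CG + 1000) * (n ^ 3 * g) ≤ (8 * CN + 9 * CG + 1000) * (n * g) ^ 3 :=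
      Nat.mul_le_mul_left _ t13
    have t15 : (8 * CN + 9 * CG + 1000) * (n ^ 3 * g) =
      (8 * CN + 9 * CG + 197) * (n ^ 3 * g) + 803 * (n ^ 3 * g) := by ring
    rw [t15] at t14
    omega
end Pool.Agent.H330AB.JL5b
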