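import Pool.Agent.H330AB.SpecC1
set_option autoImplicit false
set_option linter.unusedSectionVars false
noncomputable section
noncomputable section
namespace Pool.Agent.H330AB.JL6
open Polynomial Pool.Agent.H330FB

namespace One

/-! ### polynomials given by lists -/

theorem coeff_pol {R : Type} [CommRing R] (l : List R) (m : ℕ) :
    (pol l).coeff m = l.getD m 0 := by
  induction l generalizing m with
  | nil => simp [pol]
  | cons x l ih =>
    cases m with
    | zero => simp [pol]
    | succ m => simp [pol, ih]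

theorem pol_map {R S : Type} [CommRing R] [CommRing S] (f : R →+* S) (l : List R) :
    pol (l.map f) = (pol l).map f := by
  induction l with
  | nil => simp [pol]
  | cons x l ih => simp [pol, ih]

section
variable {K : Type} [Field K]

theorem coeff_biv (l : List (List K)) (m : ℕ) : (biv l).coeff m = pol (l.getD m []) := by
  rw [biv, coeff_pol]
  rcases lt_or_ge m l.length with h | h
  · simp [List.getD_eq_getElem?_getD, h]
  · rw [List.getD_eq_default _ _ (by simpa using h), List.getD_eq_default _ _ h]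
    rfl

theorem coeff_biv2 (l : List (List K)) (m j : ℕ) :
    ((biv l).coeff m).coeff j = (l.getD m []).getD j 0 := by
  rw [coeff_biv, coeff_pol]

theorem coeff_hom (l : List (List K)) (i j : ℕ) :
    ((hom l).coeff i).coeff j = (l.getD (i + j) []).getD j 0 := by
  unfold hom
  rw [finsetSum_coeff, finsetSum_coeff]
  have key : ∀ k, ((∑ j ∈ Finset.range (k + 1),
      C (C ((l.getD k []).getD j 0) * X ^ j) * X ^ (k - j) : K[X][X]).coeff i).coeff j =
      if k = i + j then (l.getD k []).getD j 0 else 0 := by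
    intro k
    rw [finsetSum_coeff, finsetSum_coeff]
    simp only [coeff_C_mul_X_pow, apply_ite (fun p : K[X] => p.coeff j), coeff_zero]
    by_cases h : k = i + j
    · rw [if_pos h, Finset.sum_eq_single j]
      · rw [if_pos (by omega), if_pos rfl]
      · intro b _ hb
        rw [if_neg hb.symm]
        simp
      · intro hb
        exfalso
        apply hb
        rw [Finset.mem_range]
        omega
    · rw [if_neg h]
      apply Finset.sum_eq_zero
      intro b hb
      rw [Finset.mem_range] at hb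
      by_cases hb2 : j = b
      · rw [if_neg (by omega)]
      · rw [if_neg hb2]
        simp
  rw [Finset.sum_congr rfl (fun k _ => key k)]
  rcases lt_or_ge (i + j) l.length with h | h
  · rw [Finset.sum_eq_single (i + j)]
    · rw [if_pos rfl]
    · intro b _ hb
      rw [if_neg hb]
    · intro hb
      rw [Finset.mem_range] at hb
      exact absurd h hb
  · rw [List.getD_eq_default _ _ h]
    rw [Finset.sum_eq_zero]
    · simp
    · intro b hb
      rw [Finset.mem_range] at hb
      rw [if_neg (by omega)]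

/-- the substitution `y = z x` -/
noncomputable def Psi (K : Type) [Field K] : K[X][X] →+* K[X][X] :=
  eval₂RingHom (eval₂RingHom (C.comp C : K →+* K[X][X]) (C X * X)) X

theorem coeff_Psi (f : K[X][X]) (n j : ℕ) :
    ((Psi K f).coeff n).coeff j = if j ≤ n then (f.coeff (n - j)).coeff j else 0 := by
  induction f using Polynomial.induction_on' with
  | add p q hp hq =>
    rw [map_add, coeff_add, coeff_add, hp, hq, coeff_add, coeff_add]
    split_ifs <;> simp
  | monomial i p =>
    induction p using Polynomial.induction_on' with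
    | add p q hp hq =>
      rw [map_add, map_add, coeff_add, coeff_add, hp, hq, coeff_add, coeff_add]
      split_ifs <;> simp
    | monomial j0 a =>
      have e : Psi K (monomial i (monomial j0 a)) = C (C a * X ^ j0) * X ^ (j0 + i) := by
        unfold Psi
        rw [coe_eval₂RingHom, eval₂_monomial, coe_eval₂RingHom, eval₂_monomial]
        simp only [RingHom.comp_apply, mul_pow, C_mul, C_pow, pow_add]
        ring
      rw [e, coeff_C_mul_X_pow, coeff_monomial]
      simp only [apply_ite (fun p : K[X] => p.coeff j), coeff_zero, coeff_C_mul_X_pow,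
        coeff_monomial]
      by_cases h1 : j ≤ n <;> by_cases h2 : j = j0 <;> by_cases h3 : n = j0 + i
      all_goals (try simp [h1, h2, h3])
      all_goals (try omega)

theorem Psi_injective : Function.Injective (Psi K) := by
  intro f g h
  ext i j
  have h1 := coeff_Psi f (i + j) j
  have h2 := coeff_Psi g (i + j) j
  rw [if_pos (by omega), show i + j - j = i by omega] at h1 h2
  rw [← h1, ← h2, h]

theorem IsHom.row {m : ℕ} {l : List (List K)} (h : IsHom m l) (k : ℕ) :
    (l.getD k []).length ≤ k + 1 := by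
  rcases le_or_gt k m with h1 | h1
  · exact (h.2 k h1).le
  · rw [List.getD_eq_default _ _ (by rw [h.1]; omega)]
    simp

theorem Psi_hom {m : ℕ} {l : List (List K)} (h : IsHom m l) : Psi K (hom l) = biv l := by
  ext n j
  rw [coeff_Psi, coeff_biv2]
  split_ifs with h1
  · rw [coeff_hom, show n - j + j = n by omega]
  · rw [List.getD_eq_default _ _]
    have := IsHom.row h n
    omega

theorem getD_map_map {K' : Type} [Field K'] (φ : K → K') (l : List (List K)) (k : ℕ) :
    (l.map (List.map φ)).getD k [] = (l.getD k []).map φ := by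
  rcases lt_or_ge k l.length with h | h
  · simp [List.getD_eq_getElem?_getD, h]
  · rw [List.getD_eq_default _ _ (by simpa using h), List.getD_eq_default _ _ h]
    rfl

theorem hom_map {K' : Type} [Field K'] (φ : K →+* K') (l : List (List K)) :
    hom (l.map (List.map φ)) = (hom l).map (mapRingHom φ) := by
  ext i j
  rw [coeff_hom, getD_map_map, coeff_map, coe_mapRingHom, coeff_map, coeff_hom]
  rcases lt_or_ge j (l.getD (i + j) []).length with h | h
  · rw [List.getD_eq_getElem _ _ (by simpa using h), List.getD_eq_getElem _ _ h]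
    simp
  · rw [List.getD_eq_default _ _ (by simpa using h), List.getD_eq_default _ _ h]
    simp

end


/-! ### the Frobenius map -/

section
variable (F : Type) {k : Type} [Field F] [Fintype F] [Field k] [Algebra F k]
  [Algebra.IsAlgebraic F k]

/-- the Frobenius map -/
noncomputable def fr : k ≃+* k := (FiniteField.frobeniusAlgEquivOfAlgebraic F k).toRingEquiv

theorem fr_apply (z : k) : fr F z = z ^ Fintype.card F := by
  unfold fr
  have := FiniteField.coe_frobeniusAlgEquivOfAlgebraic F k
  exact congrFun this z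

theorem fixed (z : k) (h : z ^ Fintype.card F = z) : ∃ w : F, algebraMap F k w = z := by
  classical
  set q := Fintype.card F with hq
  have hq1 : 1 < q := Fintype.one_lt_card
  have hne : (X ^ q - X : k[X]) ≠ 0 := FiniteField.X_pow_card_sub_X_ne_zero k hq1
  have hsub : (Finset.univ.image (algebraMap F k)) ⊆ (X ^ q - X : k[X]).roots.toFinset := by
    intro x hx
    rw [Finset.mem_image] at hx
    obtain ⟨w, _, rfl⟩ := hx
    rw [Multiset.mem_toFinset, mem_roots hne, IsRoot.def, eval_sub, eval_pow, eval_X, ← map_pow,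
      FiniteField.pow_card, sub_self]
  have hcard : (X ^ q - X : k[X]).roots.toFinset.card ≤
      (Finset.univ.image (algebraMap F k)).card := by
    rw [Finset.card_image_of_injective _ (algebraMap F k).injective, Finset.card_univ]
    calc _ ≤ (X ^ q - X : k[X]).roots.card := Multiset.toFinset_card_le _
      _ ≤ (X ^ q - X : k[X]).natDegree := card_roots' _
      _ = q := FiniteField.X_pow_card_sub_X_natDegree_eq k hq1
  have heq := Finset.eq_of_subset_of_card_le hsub hcard
  have hz : z ∈ (X ^ q - X : k[X]).roots.toFinset := by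
    rw [Multiset.mem_toFinset, mem_roots hne, IsRoot.def, eval_sub, eval_pow, eval_X, h, sub_self]
  rw [← heq, Finset.mem_image] at hz
  obtain ⟨w, _, hw⟩ := hz
  exact ⟨w, hw⟩

/-- the Frobenius map on bivariate polynomials -/
noncomputable def Fr : k[X][X] ≃+* k[X][X] := mapEquiv (mapEquiv (fr F))

theorem coeff_Fr (f : k[X][X]) (i j : ℕ) :
    ((Fr F f).coeff i).coeff j = ((f.coeff i).coeff j) ^ Fintype.card F := by
  rw [← fr_apply]
  simp [Fr]

theorem coeff_Fr_iter (f : k[X][X]) (m i j : ℕ) :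
    (((Fr F)^[m] f).coeff i).coeff j = ((f.coeff i).coeff j) ^ (Fintype.card F ^ m) := by
  induction m generalizing f with
  | zero => simp
  | succ m ih =>
    rw [Function.iterate_succ_apply, ih, coeff_Fr, ← pow_mul]
    congr 1
    rw [_root_.pow_succ, mul_comm]

/-- the inclusion -/
noncomputable def io (F k : Type) [Field F] [Field k] [Algebra F k] : F[X][X] →+* k[X][X] :=
  mapRingHom (mapRingHom (algebraMap F k))

omit [Fintype F] [Algebra.IsAlgebraic F k] in
theorem coeff_io (f : F[X][X]) (i j : ℕ) :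
    ((io F k f).coeff i).coeff j = algebraMap F k ((f.coeff i).coeff j) := by
  simp [io]

omit [Fintype F] [Algebra.IsAlgebraic F k] in
theorem io_inj : Function.Injective (io F k) := by
  unfold io
  rw [coe_mapRingHom]
  apply map_injective
  rw [coe_mapRingHom]
  exact map_injective _ (algebraMap F k).injective

theorem Fr_io (f : F[X][X]) : Fr F (io F k f) = io F k f := by
  ext i j
  rw [coeff_Fr, coeff_io, ← map_pow, FiniteField.pow_card]

theorem Fr_fixed (f : k[X][X]) (h : Fr F f = f) : ∃ g : F[X][X], io F k g = f := by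
  have h1 : ∀ i j, ∃ w : F, algebraMap F k w = (f.coeff i).coeff j := by
    intro i j
    apply fixed F
    rw [← coeff_Fr, h]
  choose w hw using h1
  have h2 : ∀ i, ∃ g : F[X], g.map (algebraMap F k) = f.coeff i := by
    intro i
    refine ⟨∑ j ∈ Finset.range ((f.coeff i).natDegree + 1), C (w i j) * X ^ j, ?_⟩
    rw [Polynomial.map_sum]
    conv_rhs => rw [(f.coeff i).as_sum_range_C_mul_X_pow]
    apply Finset.sum_congr rfl
    intro j _
    rw [Polynomial.map_mul, map_C, Polynomial.map_pow, map_X, hw]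
  choose g hg using h2
  refine ⟨∑ i ∈ Finset.range (f.natDegree + 1), C (g i) * X ^ i, ?_⟩
  unfold io
  rw [map_sum]
  conv_rhs => rw [f.as_sum_range_C_mul_X_pow]
  apply Finset.sum_congr rfl
  intro i _
  rw [map_mul, map_pow, coe_mapRingHom, map_C, map_X, coe_mapRingHom, hg]

omit [Fintype F] [Algebra F k] [Algebra.IsAlgebraic F k] [Field F] in
/-- units are constants -/
theorem unit_const {v : k[X][X]} (h : IsUnit v) : ∃ c : k, c ≠ 0 ∧ v = C (C c) := by
  obtain ⟨c, hc, hcu⟩ := Polynomial.isUnit_iff.mp h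
  obtain ⟨c', hc', hcc⟩ := Polynomial.isUnit_iff.mp hc
  exact ⟨c', hc'.ne_zero, by rw [hcc, hcu]⟩

theorem Fr_const (c : k) : Fr F (C (C c) : k[X][X]) = C (C (c ^ Fintype.card F)) := by
  ext i j
  rw [coeff_Fr, coeff_C, coeff_C]
  split_ifs with h
  · rw [coeff_C, coeff_C]
    split_ifs with h'
    · rfl
    · exact zero_pow Fintype.card_ne_zero
  · rw [coeff_zero]
    exact zero_pow Fintype.card_ne_zero

/-- descent up to a constant -/
theorem descent [IsAlgClosed k] (P : k[X][X]) (h : Associated P (Fr F P)) :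
    ∃ P0 : F[X][X], Associated (io F k P0) P := by
  obtain ⟨v, hv⟩ := h
  obtain ⟨c, hc, hcv⟩ := unit_const v.isUnit
  rw [hcv] at hv
  have hq1 : 1 < Fintype.card F := Fintype.one_lt_card
  obtain ⟨μ, hμ⟩ := IsAlgClosed.exists_pow_nat_eq (c⁻¹) (n := Fintype.card F - 1) (by omega)
  have hμ0 : μ ≠ 0 := by
    rintro rfl
    rw [zero_pow (by omega)] at hμ
    exact inv_ne_zero hc hμ.symm
  have e : Fr F (C (C μ) * P) = C (C μ) * P := by
    rw [map_mul, Fr_const, ← hv]
    have e1 : μ ^ Fintype.card F * c = μ := by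
      have : Fintype.card F = (Fintype.card F - 1) + 1 := by omega
      rw [this, _root_.pow_succ, hμ]
      field_simp
    calc C (C (μ ^ Fintype.card F)) * (P * C (C c)) =
        C (C (μ ^ Fintype.card F * c)) * P := by rw [C_mul, C_mul]; ring
      _ = _ := by rw [e1]
  obtain ⟨P0, hP0⟩ := Fr_fixed F _ e
  refine ⟨P0, ?_⟩
  rw [hP0, mul_comm]
  refine Associated.symm ⟨Units.map (C.comp C : k →+* k[X][X]).toMonoidHom (Units.mk0 μ hμ0), ?_⟩
  rfl

/-- descent of divisibility -/
theorem dvd_descent {P f : F[X][X]} (hP : P ≠ 0) (h : io F k P ∣ io F k f) : P ∣ f := by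
  obtain ⟨R, hR⟩ := h
  have h1 := congrArg (Fr F) hR
  rw [map_mul, Fr_io, Fr_io, hR] at h1
  have hP' : io F k P ≠ 0 := fun h0 => hP (io_inj F (by rw [h0, map_zero]))
  have h2 := mul_left_cancel₀ hP' h1
  obtain ⟨R0, hR0⟩ := Fr_fixed F R h2.symm
  refine ⟨R0, io_inj (k := k) F ?_⟩
  rw [map_mul, hR0, hR]

omit [Fintype F] [Algebra.IsAlgebraic F k] in
theorem unit_descent {P : F[X][X]} (h : IsUnit (io F k P)) : IsUnit P := by
  obtain ⟨c, hc, hcv⟩ := unit_const h
  have h00 : algebraMap F k ((P.coeff 0).coeff 0) = c := by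
    rw [← coeff_io, hcv]
    simp
  have hne : (P.coeff 0).coeff 0 ≠ 0 := by
    intro h0
    rw [h0, map_zero] at h00
    exact hc h00.symm
  have : P = C (C ((P.coeff 0).coeff 0)) := by
    apply io_inj (k := k) F
    rw [hcv, ← h00]
    simp [io]
  rw [this]
  exact (IsUnit.map C (IsUnit.map C (IsUnit.mk0 _ hne)))

/-! ### the action on the factors -/

theorem assoc_Fr_iff (a b : k[X][X]) : Associated (Fr F a) (Fr F b) ↔ Associated a b := by
  constructor
  · intro h
    have := h.map (Fr F (k := k)).symm.toMonoidHom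
    simpa using this
  · intro h
    exact h.map (Fr F (k := k)).toMonoidHom

theorem irr_Fr {a : k[X][X]} (h : Irreducible a) : Irreducible (Fr F a) :=
  (MulEquiv.irreducible_iff (Fr F (k := k)).toMulEquiv).2 h


/-- product over a set which is stable -/
theorem prod_assoc {ι : Type} (T : Finset ι) (a b : ι → k[X][X])
    (h : ∀ i ∈ T, Associated (a i) (b i)) : Associated (∏ i ∈ T, a i) (∏ i ∈ T, b i) := by
  classical
  induction T using Finset.induction_on with
  | empty => simp
  | insert x T hx ih =>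
    rw [Finset.prod_insert hx, Finset.prod_insert hx]
    exact (h x (Finset.mem_insert_self _ _)).mul_mul
      (ih fun i hi => h i (Finset.mem_insert_of_mem hi))

theorem main [IsAlgClosed k] (f0 : F[X][X]) (hf0 : Irreducible f0) (ι : Type) [Fintype ι]
    (g : ι → k[X][X]) (m : ι → ℕ) (u : k) (hg : ∀ i, Irreducible (g i))
    (hgg : ∀ i j, Associated (g i) (g j) → i = j) (hm : ∀ i, 1 ≤ m i) (hu : u ≠ 0)
    (hf : io F k f0 = C (C u) * ∏ i, g i ^ m i) :
    (∀ i, m i = 1) ∧ ∃ σ : Equiv.Perm ι, (∀ i, Associated (Fr F (g i)) (g (σ i))) ∧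
      ∀ i j, ∃ n : ℕ, (σ ^ n) i = j := by
  classical
  have huu : IsUnit (C (C u) : k[X][X]) := IsUnit.map C (IsUnit.map C (IsUnit.mk0 _ hu))
  have hgf : ∀ i, g i ∣ io F k f0 := by
    intro i
    rw [hf]
    refine Dvd.dvd.mul_left ?_ _
    exact (dvd_pow_self _ (by have := hm i; omega)).trans (Finset.dvd_prod_of_mem _
      (Finset.mem_univ i))
  have hpr : ∀ (a : k[X][X]), Irreducible a → a ∣ io F k f0 → ∃ i, Associated a (g i) := by
    intro a ha had
    have hap : Prime a := ha.prime
    rw [hf] at had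
    rcases hap.dvd_or_dvd had with h | h
    · exact absurd (isUnit_of_dvd_unit h huu) ha.not_isUnit
    · rw [Prime.dvd_finsetProd_iff hap] at h
      obtain ⟨i, _, hi⟩ := h
      exact ⟨i, ha.associated_of_dvd (hg i) (hap.dvd_of_dvd_pow hi)⟩
  have hσ0 : ∀ i, ∃ j, Associated (Fr F (g i)) (g j) := by
    intro i
    apply hpr _ (irr_Fr F (hg i))
    obtain ⟨R, hR⟩ := hgf i
    exact ⟨Fr F R, by rw [← map_mul, ← hR, Fr_io]⟩
  choose σ0 hσ0 using hσ0
  have hinj : Function.Injective σ0 := by
    intro i j hij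
    apply hgg
    rw [← assoc_Fr_iff F]
    exact (hσ0 i).trans (hij ▸ (hσ0 j).symm)
  let σ : Equiv.Perm ι := Equiv.ofBijective σ0 (Finite.injective_iff_bijective.1 hinj)
  have hσ : ∀ i, Associated (Fr F (g i)) (g (σ i)) := hσ0
  -- orbits
  have horb : ∀ i, ∀ T : Finset ι, i ∈ T → (∀ j ∈ T, σ j ∈ T) →
      Associated (io F k f0) (∏ j ∈ T, g j) := by
    intro i T hiT hT
    have himg : T.map σ.toEmbedding = T := by
      apply Finset.eq_of_subset_of_card_le
      · intro x hx
        rw [Finset.mem_map] at hx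
        obtain ⟨y, hy, rfl⟩ := hx
        exact hT y hy
      · rw [Finset.card_map]
    have hfrP : Associated (∏ j ∈ T, g j) (Fr F (∏ j ∈ T, g j)) := by
      rw [map_prod]
      have h1 : ∏ j ∈ T, g j = ∏ j ∈ T, g (σ j) := by
        conv_lhs => rw [← himg]
        rw [Finset.prod_map]
        rfl
      rw [h1]
      exact prod_assoc T _ _ fun j _ => (hσ j).symm
    obtain ⟨P0, hP0⟩ := descent F _ hfrP
    have hPne : (∏ j ∈ T, g j) ≠ 0 := Finset.prod_ne_zero_iff.2 fun j _ => (hg j).ne_zero
    have hP00 : P0 ≠ 0 := by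
      rintro rfl
      rw [map_zero] at hP0
      exact hPne (hP0.symm.eq_zero_iff.2 rfl)
    have hdiv : (∏ j ∈ T, g j) ∣ io F k f0 := by
      rw [hf]
      refine Dvd.dvd.mul_left ?_ _
      refine (Finset.prod_dvd_prod_of_dvd _ (fun j => g j ^ m j) fun j _ =>
        dvd_pow_self _ (by have := hm j; omega)).trans ?_
      exact Finset.prod_dvd_prod_of_subset _ _ _ (Finset.subset_univ _)
    have hdiv0 : P0 ∣ f0 := dvd_descent (k := k) F hP00 (hP0.dvd.trans hdiv)
    rcases (hf0.dvd_iff).1 hdiv0 with h | h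
    · exfalso
      have h1 : IsUnit (∏ j ∈ T, g j) := hP0.isUnit (h.map (io F k))
      have h2 : IsUnit (g i) := isUnit_of_dvd_unit (Finset.dvd_prod_of_mem _ hiT) h1
      exact (hg i).not_isUnit h2
    · exact (h.map (io F k).toMonoidHom).trans hP0
  have hmem : ∀ (T : Finset ι) j, g j ∣ ∏ i ∈ T, g i → j ∈ T := by
    intro T j h
    rw [Prime.dvd_finsetProd_iff (hg j).prime] at h
    obtain ⟨i, hi, hji⟩ := h
    have := hgg _ _ ((hg j).associated_of_dvd (hg i) hji)
    rwa [this]
  refine ⟨?_, σ, hσ, ?_⟩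
  · intro i
    by_contra hne
    have h2 : 2 ≤ m i := by have := hm i; omega
    have h3 := horb i Finset.univ (Finset.mem_univ _) fun _ _ => Finset.mem_univ _
    have h4 : g i ^ 2 ∣ ∏ j, g j := by
      refine Dvd.dvd.trans ?_ h3.dvd
      rw [hf]
      refine Dvd.dvd.mul_left ?_ _
      exact (pow_dvd_pow _ h2).trans (Finset.dvd_prod_of_mem _ (Finset.mem_univ i))
    rw [← Finset.mul_prod_erase _ _ (Finset.mem_univ i), sq] at h4
    have h5 := (mul_dvd_mul_iff_left (hg i).ne_zero).1 h4
    exact absurd (hmem _ _ h5) (Finset.notMem_erase _ _)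
  · intro i j
    have h1 := horb i (Finset.univ.filter fun j => ∃ n : ℕ, (σ ^ n) i = j)
      (Finset.mem_filter.2 ⟨Finset.mem_univ _, 0, rfl⟩) (by
        intro j hj
        obtain ⟨n, hn⟩ := (Finset.mem_filter.1 hj).2
        refine Finset.mem_filter.2 ⟨Finset.mem_univ _, n + 1, ?_⟩
        rw [pow_succ', Equiv.Perm.mul_apply, hn])
    have h2 := hmem _ j ((hgf j).trans h1.dvd)
    exact (Finset.mem_filter.1 h2).2

theorem iter_assoc {ι : Type} (g : ι → k[X][X]) (σ : Equiv.Perm ι)
    (h : ∀ i, Associated (Fr F (g i)) (g (σ i))) (n : ℕ) (i : ι) :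
    Associated ((Fr F)^[n] (g i)) (g ((σ ^ n) i)) := by
  induction n with
  | zero => simp
  | succ n ih =>
    rw [Function.iterate_succ_apply', pow_succ', Equiv.Perm.mul_apply]
    exact ((assoc_Fr_iff F _ _).2 ih).trans (h _)

end

/-! ### transitive permutations -/

section
variable {ι : Type} [Fintype ι]

theorem cyc (σ : Equiv.Perm ι) (h : ∀ i j, ∃ n : ℕ, (σ ^ n) i = j) :
    σ.IsCycleOn ((Finset.univ : Finset ι) : Set ι) := by
  refine ⟨?_, ?_⟩
  · rw [Finset.coe_univ]
    exact ⟨Set.mapsTo_univ _ _, σ.injective.injOn, fun x _ => ⟨σ.symm x, trivial, by simp⟩⟩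
  · intro x _ y _
    obtain ⟨n, hn⟩ := h x y
    exact ⟨(n : ℤ), by simpa using hn⟩

theorem card_pow (σ : Equiv.Perm ι) (h : ∀ i j, ∃ n : ℕ, (σ ^ n) i = j) (i : ι) :
    (σ ^ Fintype.card ι) i = i := (cyc σ h).pow_card_apply (Finset.mem_univ i)

theorem coprime_trans (σ : Equiv.Perm ι) (h : ∀ i j, ∃ n : ℕ, (σ ^ n) i = j) (e : ℕ)
    (he : Nat.Coprime e (Fintype.card ι)) (i j : ι) : ∃ n : ℕ, (σ ^ (e * n)) i = j := by
  obtain ⟨n, hn⟩ := h i j
  have hc : Fintype.card ι ≠ 0 := (Fintype.card_pos_iff.2 ⟨i⟩).ne'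
  obtain ⟨m, hm, hm2⟩ := Nat.exists_mul_mod_eq_of_coprime n he hc
  refine ⟨m, ?_⟩
  rw [← hn]
  have := (cyc σ h).pow_apply_eq_pow_apply (Finset.mem_univ i) (m := e * m) (n := n)
  exact this.2 hm2

end


/-! ### total degree -/

section
variable {k : Type} [Field k]

/-- total degree -/
noncomputable def td (f : k[X][X]) : ℕ := (Psi k f).natDegree

theorem Psi_ne {f : k[X][X]} (h : f ≠ 0) : Psi k f ≠ 0 := by
  intro h0
  exact h (Psi_injective (by rw [h0, map_zero]))

theorem td_mul {f g : k[X][X]} (hf : f ≠ 0) (hg : g ≠ 0) : td (f * g) = td f + td g := by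
  unfold td
  rw [map_mul, natDegree_mul (Psi_ne hf) (Psi_ne hg)]

theorem td_const (c : k) : td (C (C c)) = 0 := by
  have : Psi k (C (C c)) = C (C c) := by
    unfold Psi
    simp
  unfold td
  rw [this, natDegree_C]

theorem td_prod {ι : Type} (T : Finset ι) (g : ι → k[X][X]) (h : ∀ i, g i ≠ 0) :
    td (∏ i ∈ T, g i) = ∑ i ∈ T, td (g i) := by
  unfold td
  rw [map_prod, natDegree_prod _ _ fun i _ => Psi_ne (h i)]

theorem td_assoc {f g : k[X][X]} (hf : f ≠ 0) (h : Associated f g) : td f = td g := by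
  obtain ⟨v, hv⟩ := h
  obtain ⟨c, hc, hcv⟩ := unit_const v.isUnit
  rw [← hv, hcv, td_mul hf (by simpa using hc), td_const, add_zero]

theorem td_le {f : k[X][X]} {n : ℕ} (h : TD f n) : td f ≤ n := by
  unfold td
  rw [natDegree_le_iff_coeff_eq_zero]
  intro N hN
  ext j
  rw [coeff_Psi, coeff_zero]
  split_ifs with h1
  · exact h _ _ (by omega)
  · rfl

theorem td_map {K : Type} [Field K] (φ : K →+* k) (f : K[X][X]) :
    td (f.map (mapRingHom φ)) = td f := by
  have e : Psi k (f.map (mapRingHom φ)) = (Psi K f).map (mapRingHom φ) := by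
    ext n j
    rw [coeff_Psi]
    simp only [coeff_map, coe_mapRingHom]
    rw [coeff_Psi]
    split_ifs
    · rfl
    · rw [map_zero]
  unfold td
  rw [e]
  apply natDegree_map_eq_of_injective
  rw [coe_mapRingHom]
  exact map_injective _ φ.injective

theorem td_hom {n : ℕ} {H : List (List k)} (hH : IsHom n H) (hT : TopNe n H) :
    td (hom H) = n := by
  unfold td
  rw [Psi_hom hH]
  apply natDegree_eq_of_le_of_coeff_ne_zero
  · rw [natDegree_le_iff_coeff_eq_zero]
    intro N hN
    rw [coeff_biv, List.getD_eq_default _ _ (by rw [hH.1]; omega)]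
    rfl
  · obtain ⟨j, hj⟩ := hT
    intro h0
    apply hj
    rw [← coeff_biv2, h0, coeff_zero]

end

section
variable (F : Type) {k : Type} [Field F] [Fintype F] [Field k] [Algebra F k]
  [Algebra.IsAlgebraic F k]

theorem td_Fr (f : k[X][X]) : td (Fr F f) = td f := by
  have : Fr F f = f.map (mapRingHom ((fr F : k ≃+* k) : k →+* k)) := by
    ext i j
    rw [coeff_Fr, coeff_map, coe_mapRingHom, coeff_map]
    exact (fr_apply F _).symm
  rw [this, td_map]

end

/-! ### monic polynomials -/

section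
variable {K : Type} [Field K]

theorem degree_pol_lt (l : List K) : (pol l).degree < l.length := by
  rw [degree_lt_iff_coeff_zero]
  intro m hm
  rw [coeff_pol, List.getD_eq_default _ _ hm]

theorem mpol_monic (l : List K) : (mpol l).Monic := by
  unfold mpol
  exact monic_X_pow_add (degree_pol_lt l)

theorem natDegree_mpol (l : List K) : (mpol l).natDegree = l.length := by
  unfold mpol
  rw [natDegree_add_eq_left_of_degree_lt, natDegree_X_pow]
  rw [degree_X_pow]
  exact degree_pol_lt l

end

section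
variable {L k : Type} [Field L] [Fintype L] [Field k] [Algebra L k]

theorem coeff_hz (ζ : k) (A : List (List (List L))) (i j : ℕ) :
    ((hz ζ A).coeff i).coeff j = ∑ b ∈ Finset.range A.length,
      ζ ^ b * algebraMap L k (((A.getD b []).getD (i + j) []).getD j 0) := by
  unfold hz bcp
  rw [finsetSum_coeff, finsetSum_coeff]
  apply Finset.sum_congr rfl
  intro b _
  rw [coeff_C_mul, coeff_C_mul, coeff_map, coe_mapRingHom, coeff_map, coeff_hom]

theorem TD_hz (ζ : k) (A : List (List (List L))) (n : ℕ) (h : ∀ x ∈ A, IsHom n x) :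
    TD (hz ζ A) n := by
  intro i j hij
  rw [coeff_hz]
  apply Finset.sum_eq_zero
  intro b hb
  rw [Finset.mem_range] at hb
  have h1 : IsHom n (A.getD b []) := by
    rw [List.getD_eq_getElem _ _ hb]
    exact h _ (List.getElem_mem hb)
  rw [List.getD_eq_default (A.getD b []) _ (by rw [h1.1]; omega)]
  simp

theorem frob_hz (ζ : k) (A : List (List (List L))) (i j : ℕ) :
    ((hz ζ A).coeff i).coeff j ^ Fintype.card L =
      ((hz (ζ ^ Fintype.card L) A).coeff i).coeff j := by
  rw [coeff_hz, coeff_hz]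
  have h1 : ∀ x : k, x ^ Fintype.card L = FiniteField.frobeniusAlgHom L k x := fun x => by
    rw [FiniteField.coe_frobeniusAlgHom]
  rw [h1, map_sum]
  apply Finset.sum_congr rfl
  intro b _
  rw [map_mul, map_pow, AlgHom.commutes, ← h1]

theorem frob_root (ζ : k) (a : L[X]) (h : aeval ζ a = 0) :
    aeval (ζ ^ Fintype.card L) a = 0 := by
  have h1 : ∀ x : k, x ^ Fintype.card L = FiniteField.frobeniusAlgHom L k x := fun x => by
    rw [FiniteField.coe_frobeniusAlgHom]
  rw [h1, aeval_algHom_apply, h, map_zero]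

end

abbrev O (L : Type) : Type := List L × (List (List (List L)) × List Unit)

theorem aux (F L k : Type) [Field F] [Fintype F] [Field L] [Fintype L] [Algebra F L]
    [Field k] [IsAlgClosed k] [Algebra L k] [Algebra F k] [IsScalarTower F L k]
    [Algebra.IsAlgebraic F k] (e n : ℕ) (H : List (List F)) (out : List (O L))
    (hL : Fintype.card L = Fintype.card F ^ e) (hen : Nat.Coprime e n) (hH : IsHom n H)
    (hn : 1 ≤ n) (hT : TopNe n H) (hirr : Irreducible (hom H))
    (hFA : FacAbs k (Ty.map (algebraMap F L) Ma H) out) (hDeg : DegB n out) :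
    ∃ (Q : List L) (A : List (List (List L))), out = [(Q, (A, un 1))] ∧
      Irreducible (mpol Q) ∧ Q.length ∣ n ∧ (∀ x ∈ A, IsHom (n / Q.length) x) ∧
      ∀ ζ : k, aeval ζ (mpol Q) = 0 → ∀ i j i' j' : ℕ,
        (((hz ζ A).coeff i).coeff j) ^ (Fintype.card F ^ Q.length) *
          ((hz ζ A).coeff i').coeff j' =
          ((hz ζ A).coeff i).coeff j *
            (((hz ζ A).coeff i').coeff j') ^ (Fintype.card F ^ Q.length) := by
  classical
  obtain ⟨h1, ⟨hnd, h2⟩, u, hu, hprod⟩ := hFA
  let R : O L → Finset k := fun o => ((mpol o.1).map (algebraMap L k)).roots.toFinset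
  have hR : ∀ o ζ, ζ ∈ R o ↔ aeval ζ (mpol o.1) = 0 := by
    intro o ζ
    rw [Multiset.mem_toFinset, mem_roots ((mpol_monic o.1).map _).ne_zero, IsRoot.def,
      eval_map_algebraMap]
  let I : Finset (O L × k) := out.toFinset.biUnion fun o => (R o).image (Prod.mk o)
  have hI : ∀ p : O L × k, p ∈ I ↔ p.1 ∈ out.toFinset ∧ p.2 ∈ R p.1 := by
    rintro ⟨o, ζ⟩
    simp only [I, Finset.mem_biUnion, Finset.mem_image, Prod.mk.injEq]
    constructor
    · rintro ⟨o', ho', ζ', hζ', rfl, rfl⟩
      exact ⟨ho', hζ'⟩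
    · rintro ⟨ho, hζ⟩
      exact ⟨o, ho, ζ, hζ, rfl, rfl⟩
  have hI' : ∀ p : O L × k, p ∈ I ↔ p.1 ∈ out ∧ aeval p.2 (mpol p.1.1) = 0 := by
    intro p
    rw [hI, List.mem_toFinset, hR]
  let ι : Type := {p // p ∈ I}
  let g : ι → k[X][X] := fun x => hz x.1.2 x.1.1.2.1
  let m : ι → ℕ := fun x => x.1.1.2.2.length
  have hg : ∀ i, Irreducible (g i) := by
    intro i
    obtain ⟨h3, h4⟩ := (hI' _).1 i.2
    exact (h1 _ h3).2.2.2.2.2 _ h4
  have hgg : ∀ i j, Associated (g i) (g j) → i = j := by
    intro i j hij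
    obtain ⟨h3, h4⟩ := (hI' _).1 i.2
    obtain ⟨h5, h6⟩ := (hI' _).1 j.2
    obtain ⟨h7, h8⟩ := h2 _ h3 _ h5 _ _ h4 h6 hij
    exact Subtype.ext (Prod.ext h7 h8)
  have hm : ∀ i, 1 ≤ m i := by
    intro i
    obtain ⟨h3, h4⟩ := (hI' _).1 i.2
    exact (h1 _ h3).2.2.2.1
  have hnodup : ∀ o ∈ out, ((mpol o.1).map (algebraMap L k)).roots.Nodup := by
    intro o ho
    apply nodup_roots
    exact PerfectField.separable_iff_squarefree.2 (h1 o ho).2.1
  have hf : io F k (hom H) = C (C u) * ∏ i, g i ^ m i := by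
    have e1 : io F k (hom H) = bcp k (hom (Ty.map (algebraMap F L) Ma H : List (List L))) := by
      have : (Ty.map (algebraMap F L) Ma H : List (List L)) =
          H.map (List.map (algebraMap F L)) := by
        simp only [Ty.map]
      rw [this, hom_map]
      ext i j
      simp only [io, bcp, coe_mapRingHom, coeff_map]
      exact IsScalarTower.algebraMap_apply F L k _
    rw [e1, hprod]
    congr 1
    have e2 : ∏ i, g i ^ m i = ∏ x ∈ I, (hz x.2 x.1.2.1) ^ x.1.2.2.length :=
      Finset.prod_coe_sort I (fun x => (hz x.2 x.1.2.1) ^ x.1.2.2.length)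
    rw [e2, Finset.prod_finset_product I out.toFinset R hI, List.prod_toFinset _ hnd]
    congr 1
    apply List.map_congr_left
    intro o ho
    have e3 : (R o).val = ((mpol o.1).map (algebraMap L k)).roots := by
      rw [Multiset.toFinset_val, Multiset.dedup_eq_self.2 (hnodup o ho)]
    change _ = Multiset.prod (Multiset.map _ (R o).val)
    rw [e3]
  obtain ⟨hm1, σ, hσ, htr⟩ := main F (hom H) hirr ι g m u hg hgg hm hu hf
  have hne : Nonempty ι := by
    by_contra hcon
    rw [not_nonempty_iff] at hcon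
    rw [Fintype.prod_empty, mul_one] at hf
    have : IsUnit (io F k (hom H)) := by
      rw [hf]
      exact IsUnit.map C (IsUnit.map C (IsUnit.mk0 _ hu))
    exact hirr.not_isUnit (unit_descent F this)
  obtain ⟨x0⟩ := hne
  -- total degrees
  have htd1 : ∀ x, td (g (σ x)) = td (g x) := by
    intro x
    rw [← td_Fr F (g x)]
    exact (td_assoc (irr_Fr F (hg x)).ne_zero (hσ x)).symm
  have htd2 : ∀ x, td (g x) = td (g x0) := by
    intro x
    obtain ⟨N, rfl⟩ := htr x0 x
    induction N with
    | zero => rfl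
    | succ N ih => rw [pow_succ', Equiv.Perm.mul_apply, htd1, ih]
  have htd3 : n = Fintype.card ι * td (g x0) := by
    have e1 : td (io F k (hom H)) = n := by
      unfold io
      rw [coe_mapRingHom, td_map, td_hom hH hT]
    rw [← e1, hf]
    simp only [hm1, pow_one]
    rw [td_mul (by simpa using hu) (Finset.prod_ne_zero_iff.2 fun i _ => (hg i).ne_zero),
      td_const, zero_add, td_prod _ _ fun i => (hg i).ne_zero,
      Finset.sum_congr rfl fun x _ => htd2 x, Finset.sum_const, smul_eq_mul, Finset.card_univ]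
  have hcop : Nat.Coprime e (Fintype.card ι) := Nat.Coprime.coprime_dvd_right ⟨_, htd3⟩ hen
  -- the action of the Frobenius map of the large field
  have hstep : ∀ x : ι, ((σ ^ e) x).1.1 = x.1.1 ∧ ((σ ^ e) x).1.2 = x.1.2 ^ Fintype.card L := by
    intro x
    obtain ⟨h3, h4⟩ := (hI' _).1 x.2
    let y : ι := ⟨(x.1.1, x.1.2 ^ Fintype.card L), (hI' _).2 ⟨h3, frob_root _ _ h4⟩⟩
    have e1 : (Fr F)^[e] (g x) = g y := by
      ext i j
      rw [coeff_Fr_iter, ← hL]
      exact frob_hz _ _ _ _
    have e2 := iter_assoc F g σ hσ e x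
    rw [e1] at e2
    have e3 := hgg _ _ e2
    rw [← e3]
    exact ⟨rfl, rfl⟩
  have hstep2 : ∀ (N : ℕ) (x : ι) (a : L[X]), aeval x.1.2 a = 0 →
      ((σ ^ (e * N)) x).1.1 = x.1.1 ∧ aeval ((σ ^ (e * N)) x).1.2 a = 0 := by
    intro N x a hx
    induction N with
    | zero => exact ⟨rfl, hx⟩
    | succ N ih =>
      have e1 : (σ ^ (e * (N + 1))) x = (σ ^ e) ((σ ^ (e * N)) x) := by
        rw [← Equiv.Perm.mul_apply, ← pow_add]
        congr 2
        ring
      rw [e1, (hstep _).1, (hstep _).2]
      exact ⟨ih.1, frob_root _ _ ih.2⟩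
  have hall : ∀ (x y : ι) (a : L[X]), aeval x.1.2 a = 0 → y.1.1 = x.1.1 ∧ aeval y.1.2 a = 0 := by
    intro x y a hx
    obtain ⟨N, rfl⟩ := coprime_trans σ htr e hcop x y
    exact hstep2 N x a hx
  obtain ⟨hx1, hx2⟩ := (hI' _).1 x0.2
  -- one class
  have hout1 : ∀ o ∈ out, o = x0.1.1 := by
    intro o ho
    have hdeg : (mpol o.1).degree ≠ 0 := by
      intro h0
      have h3 := natDegree_mpol o.1
      rw [natDegree_eq_zero_iff_degree_le_zero.2 h0.le] at h3
      have := (h1 o ho).1
      omega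
    obtain ⟨ζ, hζ⟩ := IsAlgClosed.exists_aeval_eq_zero k (mpol o.1) hdeg
    let y : ι := ⟨(o, ζ), (hI' _).2 ⟨ho, hζ⟩⟩
    exact (hall x0 y _ hx2).1
  obtain ⟨⟨⟨Q, A, mu⟩, ζ0⟩, hx0⟩ := x0
  have hout : out = [(Q, (A, mu))] := by
    have h3 := List.eq_replicate_of_mem hout1
    rw [h3] at hnd hx1
    rw [h3]
    have h4 := List.nodup_replicate.1 hnd
    have h5 : out.length ≠ 0 := by
      intro h0
      rw [h0] at hx1
      simp at hx1
    have h6 : out.length = 1 := by omega
    rw [h6]
    rfl
  have hmu : mu = un 1 := by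
    have h3 := hm1 ⟨((Q, A, mu), ζ0), hx0⟩
    exact List.eq_replicate_iff.2 ⟨h3, fun _ _ => rfl⟩
  have hmemQ : (Q, (A, mu)) ∈ out := hx1
  have hcard : Fintype.card ι = Q.length := by
    have e1 : I = (R (Q, (A, mu))).image (Prod.mk (Q, (A, mu))) := by
      simp only [I, hout]
      simp
    have e2 : Fintype.card ι = I.card := Fintype.card_coe I
    rw [e2, e1, Finset.card_image_of_injective _ (Prod.mk_right_injective _)]
    change Multiset.card (Multiset.dedup _) = _
    rw [Multiset.dedup_eq_self.2 (hnodup _ hmemQ),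
      Polynomial.splits_iff_card_roots.1 (IsAlgClosed.splits _),
      (mpol_monic Q).natDegree_map, natDegree_mpol]
  have hQpos : 0 < Q.length := by
    rw [← hcard]
    exact Fintype.card_pos_iff.2 ⟨⟨((Q, A, mu), ζ0), hx0⟩⟩
  have hnQ : n = Q.length * td (hz ζ0 A) := by
    rw [← hcard]
    exact htd3
  obtain ⟨j, hj1, hj2⟩ := hDeg _ hmemQ
  have hj3 : td (hz ζ0 A) ≤ j := td_le (TD_hz _ _ _ hj2)
  have hj4 : n / Q.length = j := by
    have e1 : n = Q.length * j := by
      apply le_antisymm
      · rw [hnQ]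
        exact Nat.mul_le_mul_left _ hj3
      · rw [mul_comm]
        exact hj1
    rw [e1, Nat.mul_div_cancel_left _ hQpos]
  refine ⟨Q, A, by rw [hout, hmu], ?_, ⟨_, hnQ⟩, ?_, ?_⟩
  · have hsq := (h1 _ hmemQ).2.1
    have hnu : ¬ IsUnit (mpol Q) := by
      intro h0
      have h3 := natDegree_eq_zero_of_isUnit h0
      rw [natDegree_mpol] at h3
      omega
    refine ⟨hnu, fun a b hab => ?_⟩
    by_contra hcon
    rw [not_or] at hcon
    have hab0 : a * b ≠ 0 := by
      rw [← hab]
      exact (mpol_monic Q).ne_zero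
    have hroot : ∀ c : L[X], c ≠ 0 → ¬ IsUnit c → ∃ ζ : k, aeval ζ c = 0 := by
      intro c hc hcu
      refine IsAlgClosed.exists_aeval_eq_zero k c fun h0 => hcu ?_
      exact isUnit_iff_degree_eq_zero.2 h0
    obtain ⟨ζ1, hζ1⟩ := hroot a (left_ne_zero_of_mul hab0) hcon.1
    obtain ⟨ζ2, hζ2⟩ := hroot b (right_ne_zero_of_mul hab0) hcon.2
    have hy1 : aeval ζ1 (mpol Q) = 0 := by rw [hab, map_mul, hζ1, zero_mul]
    have hy2 : aeval ζ2 (mpol Q) = 0 := by rw [hab, map_mul, hζ2, mul_zero]
    let y1 : ι := ⟨((Q, (A, mu)), ζ1), (hI' _).2 ⟨hmemQ, hy1⟩⟩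
    let y2 : ι := ⟨((Q, (A, mu)), ζ2), (hI' _).2 ⟨hmemQ, hy2⟩⟩
    have h3 := (hall y1 y2 a hζ1).2
    have h3' : aeval ζ2 a = 0 := h3
    have h4 : (X - C ζ2) * (X - C ζ2) ∣ (mpol Q).map (algebraMap L k) := by
      rw [hab, Polynomial.map_mul]
      apply mul_dvd_mul
      · rw [dvd_iff_isRoot, IsRoot.def, eval_map_algebraMap]
        exact h3'
      · rw [dvd_iff_isRoot, IsRoot.def, eval_map_algebraMap]
        exact hζ2
    exact not_isUnit_X_sub_C ζ2 (hsq _ h4)
  · intro x hx
    rw [hj4]
    exact hj2 x hx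
  · intro ζ hζ i j i' j'
    let y : ι := ⟨((Q, (A, mu)), ζ), (hI' _).2 ⟨hmemQ, hζ⟩⟩
    have h3 := iter_assoc F g σ hσ (Fintype.card ι) y
    rw [card_pow σ htr, hcard] at h3
    obtain ⟨v, hv⟩ := h3.symm
    obtain ⟨c, hc, hcv⟩ := unit_const v.isUnit
    rw [hcv] at hv
    have h4 : ∀ i j, ((hz ζ A).coeff i).coeff j ^ (Fintype.card F ^ Q.length) =
        ((hz ζ A).coeff i).coeff j * c := by
      intro i j
      have h5 := congrArg (fun p : k[X][X] => (p.coeff i).coeff j) hv
      simp only [coeff_Fr_iter, coeff_mul_C] at h5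
      exact h5.symm
    rw [h4, h4]
    ring

end One

/-- TARGET -/
theorem stmtOne : StmtOne := by
  intro F L _ _ _ _ _ q e n H out hq hL hen hH hn hT hirr hFA hDeg
  subst hq
  have : Algebra.IsAlgebraic F (AlgebraicClosure L) := Algebra.IsAlgebraic.trans F L _
  exact One.aux F L (AlgebraicClosure L) e n H out hL hen hH hn hT hirr hFA hDeg

end Pool.Agent.H330AB.JL6
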