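import Pool.Agent.H330AB.SpecC1
set_option autoImplicit false
noncomputable section
namespace Pool.Agent.H330AB.JL7
open Polynomial Pool.Agent.H330FB

namespace DA7

theorem coeff_pol {R : Type} [CommRing R] (l : List R) (m : ℕ) :
    (pol l).coeff m = l.getD m 0 := by
  induction l generalizing m with
  | nil => simp [pol]
  | cons x l ih =>
    cases m with
    | zero => simp [pol]
    | succ m => simp [pol, ih]

theorem pol_map {R S : Type} [CommRing R] [CommRing S] (f : R →+* S) (l : List R) :
    pol (l.map f) = (pol l).map f := by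
  induction l with
  | nil => simp [pol]
  | cons x l ih => simp [pol, ih]

theorem mpol_map {R S : Type} [CommRing R] [CommRing S] (f : R →+* S) (l : List R) :
    mpol (l.map f) = (mpol l).map f := by
  simp [mpol, pol_map]

theorem degree_pol_lt {R : Type} [CommRing R] (l : List R) :
    (pol l).degree < l.length := by
  rw [degree_lt_iff_coeff_zero]
  intro m hm
  rw [coeff_pol, List.getD_eq_default _ _ hm]

theorem mpol_monic {R : Type} [CommRing R] (l : List R) : (mpol l).Monic :=
  monic_X_pow_add (degree_pol_lt l)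

theorem mpol_natDegree {R : Type} [CommRing R] [Nontrivial R] (l : List R) :
    (mpol l).natDegree = l.length := by
  have h : (mpol l).degree = l.length := by
    rw [mpol, degree_add_eq_left_of_degree_lt]
    · simp
    · rw [degree_X_pow]; exact degree_pol_lt l
  exact natDegree_eq_of_degree_eq_some h

theorem coeff_hom {K : Type} [Field K] (l : List (List K)) (i j : ℕ) :
    ((hom l).coeff i).coeff j = (l.getD (i + j) []).getD j 0 := by
  unfold hom
  rw [finsetSum_coeff, finsetSum_coeff]
  have key : ∀ k, ((∑ j ∈ Finset.range (k + 1),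
      C (C ((l.getD k []).getD j 0) * X ^ j) * X ^ (k - j) : K[X][X]).coeff i).coeff j =
      if k = i + j then (l.getD k []).getD j 0 else 0 := by
    intro k
    rw [finsetSum_coeff, finsetSum_coeff]
    simp only [coeff_C_mul_X_pow, apply_ite (fun p : K[X] => p.coeff j), coeff_zero]
    by_cases h : k = i + j
    · rw [if_pos h, Finset.sum_eq_single j]
      · rw [if_pos (by omega), if_pos rfl]
      · intro b _ hb
        rw [if_neg hb.symm]
        simp
      · intro hb
        exfalso
        apply hb
        rw [Finset.mem_range]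
        omega
    · rw [if_neg h]
      apply Finset.sum_eq_zero
      intro b hb
      rw [Finset.mem_range] at hb
      by_cases hb2 : j = b
      · rw [if_neg (by omega)]
      · rw [if_neg hb2]
        simp
  rw [Finset.sum_congr rfl (fun k _ => key k)]
  rcases lt_or_ge (i + j) l.length with h | h
  · rw [Finset.sum_eq_single (i + j)]
    · rw [if_pos rfl]
    · intro b _ hb
      rw [if_neg hb]
    · intro hb
      rw [Finset.mem_range] at hb
      exact absurd h hb
  · rw [Finset.sum_eq_zero]
    · rw [List.getD_eq_default _ _ h]; simp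
    · intro b hb
      rw [Finset.mem_range] at hb
      rw [if_neg (by omega)]

theorem coeff_bcp {F k : Type} [Field F] [Field k] [Algebra F k] (S : F[X][X]) (m i : ℕ) :
    ((bcp k S).coeff m).coeff i = algebraMap F k ((S.coeff m).coeff i) := by
  simp [bcp]

theorem coeff_hz {F k : Type} [Field F] [Field k] [Algebra F k] (ζ : k)
    (l : List (List (List F))) (m i : ℕ) :
    ((hz ζ l).coeff m).coeff i =
      ∑ b ∈ Finset.range l.length, ζ ^ b * algebraMap F k (ent l b (m + i) i) := by
  unfold hz
  rw [finsetSum_coeff, finsetSum_coeff]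
  apply Finset.sum_congr rfl
  intro b _
  rw [coeff_C_mul, coeff_C_mul, coeff_bcp, coeff_hom]
  rfl

theorem ent_map {F L : Type} [Field F] [Field L] (f : F →+* L) (A : List (List (List F)))
    (b κ i : ℕ) : ent (Ty.map f ML A : List (List (List L))) b κ i = f (ent A b κ i) := by
  unfold ent
  have h1 : (Ty.map f ML A : List (List (List L))).getD b [] =
      (Ty.map f Ma (A.getD b []) : List (List L)) := by
    show (List.map (Ty.map f Ma) A).getD b (Ty.map f Ma []) = _
    rw [List.getD_map]
  have h2 : (Ty.map f Ma (A.getD b []) : List (List L)).getD κ [] =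
      (Ty.map f Po ((A.getD b []).getD κ []) : List L) := by
    show (List.map (Ty.map f Po) (A.getD b [])).getD κ (Ty.map f Po []) = _
    rw [List.getD_map]
  rw [h1, h2]
  show (List.map f ((A.getD b []).getD κ [])).getD i 0 = _
  rw [← map_zero f, List.getD_map]

theorem length_map_ML {F L : Type} [Field F] [Field L] (f : F →+* L) (A : List (List (List F))) :
    List.length (Ty.map f ML A : List (List (List L))) = A.length := by
  simp [Ty.map]

theorem hom_map {F L : Type} [Field F] [Field L] (f : F →+* L) (H : List (List F)) :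
    hom (Ty.map f Ma H : List (List L)) = (hom H).map (mapRingHom f) := by
  ext m i
  rw [coeff_hom, coeff_map, coe_mapRingHom, coeff_map, coeff_hom]
  have h2 : (Ty.map f Ma H : List (List L)).getD (m + i) [] =
      (Ty.map f Po (H.getD (m + i) []) : List L) := by
    show (List.map (Ty.map f Po) H).getD (m + i) (Ty.map f Po []) = _
    rw [List.getD_map]
  rw [h2]
  show (List.map f (H.getD (m + i) [])).getD i 0 = _
  rw [← map_zero f, List.getD_map]

theorem isHom_map {F L : Type} (f : F → L) (j : ℕ) (x : List (List F)) :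
    IsHom j (Ty.map f Ma x : List (List L)) ↔ IsHom j x := by
  unfold IsHom
  have h : ∀ k, ((Ty.map f Ma x : List (List L)).getD k []).length =
      (x.getD k []).length := by
    intro k
    show ((List.map (Ty.map f Po) x).getD k (Ty.map f Po [])).length = _
    rw [List.getD_map]
    simp [Ty.map]
  simp only [h]
  have h2 : List.length (Ty.map f Ma x : List (List L)) = x.length := by simp [Ty.map]
  rw [h2]

/-- descent of lists -/
theorem exists_map_list {F L : Type} (f : F → L) (l : List L) (h : ∀ x ∈ l, ∃ y, f y = x) :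
    ∃ l' : List F, l = l'.map f := by
  induction l with
  | nil => exact ⟨[], rfl⟩
  | cons x l ih =>
    obtain ⟨l', hl'⟩ := ih (fun y hy => h y (List.mem_cons_of_mem _ hy))
    obtain ⟨y, hy⟩ := h x List.mem_cons_self
    exact ⟨y :: l', by simp [hy, hl']⟩

theorem exists_map_ML {F L : Type} [Field F] [Field L] (f : F →+* L) (A : List (List (List L)))
    (h : ∀ b κ i, ∃ y, f y = ent A b κ i) :
    ∃ A' : List (List (List F)), A = (Ty.map f ML A' : List (List (List L))) := by
  apply exists_map_list (Ty.map f Ma)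
  intro x hx
  obtain ⟨b, hb, rfl⟩ := List.mem_iff_getElem.1 hx
  obtain ⟨l', hl'⟩ := exists_map_list (Ty.map f Po) A[b] (by
    intro y hy
    obtain ⟨κ, hκ, rfl⟩ := List.mem_iff_getElem.1 hy
    obtain ⟨l', hl'⟩ := exists_map_list f A[b][κ] (by
      intro z hz
      obtain ⟨i, hi, rfl⟩ := List.mem_iff_getElem.1 hz
      obtain ⟨y, hy⟩ := h b κ i
      refine ⟨y, ?_⟩
      rw [hy, ent, List.getD_eq_getElem _ _ hb, List.getD_eq_getElem _ _ hκ,
        List.getD_eq_getElem _ _ hi])
    exact ⟨l', hl'.symm⟩)
  exact ⟨l', hl'.symm⟩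

theorem ent_zero {L : Type} [Field L] (A : List (List (List L))) (j b κ i : ℕ)
    (hA : ∀ x ∈ A, IsHom j x) (h : ¬ (κ ≤ j ∧ i ≤ κ)) : ent A b κ i = 0 := by
  unfold ent
  rcases lt_or_ge b A.length with hb | hb
  · rw [List.getD_eq_getElem _ _ hb]
    have hx := hA _ (List.getElem_mem hb)
    rcases le_or_gt κ j with hκ | hκ
    · have h2 := hx.2 κ hκ
      apply List.getD_eq_default
      rw [h2]
      have : ¬ i ≤ κ := fun hi => h ⟨hκ, hi⟩
      omega
    · rw [List.getD_eq_default A[b] _ (by rw [hx.1]; omega)]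
      simp
  · rw [List.getD_eq_default A _ hb]
    simp

/-- local homomorphism -/
theorem localHom_map {R S : Type} [CommRing R] [IsDomain R] [CommRing S] [IsDomain S]
    (f : R →+* S) (hf : Function.Injective f) [IsLocalHom f] :
    IsLocalHom (mapRingHom f) := by
  constructor
  intro p hp
  rw [coe_mapRingHom] at hp
  obtain ⟨u, hu, hu2⟩ := Polynomial.isUnit_iff.1 hp
  have h0 : p.natDegree = 0 := by
    rw [← natDegree_map_eq_of_injective hf, ← hu2, natDegree_C]
  rw [eq_C_of_natDegree_eq_zero h0] at hu2 ⊢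
  rw [map_C] at hu2
  have : f (p.coeff 0) = u := (C_injective hu2).symm
  rw [isUnit_C]
  apply isUnit_of_map_unit f
  rw [this]
  exact hu

section core
variable {F L M : Type} [Field F] [Fintype F] [Field L] [Fintype L] [Algebra F L] [Field M]
  [Algebra L M] [FiniteDimensional L M]

theorem roots_eq (P : L[X]) (pb : PowerBasis L M) (hP : minpoly L pb.gen = P) :
    (P.map (algebraMap L (AlgebraicClosure L))).roots =
      (Finset.univ : Finset (M →ₐ[L] AlgebraicClosure L)).val.map (fun σ => σ pb.gen) := by
  have hint : IsIntegral L pb.gen := pb.isIntegral_gen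
  have hirr : Irreducible P := hP ▸ minpoly.irreducible hint
  have hsep : P.Separable := PerfectField.separable_of_irreducible hirr
  apply (Multiset.Nodup.ext _ _).2
  · intro ζ
    have h1 : ζ ∈ (P.map (algebraMap L (AlgebraicClosure L))).roots ↔ aeval ζ P = 0 := by
      have := mem_aroots (p := P) (S := AlgebraicClosure L) (a := ζ)
      rw [aroots] at this
      rw [this]
      simp [hirr.ne_zero]
    rw [h1, Multiset.mem_map]
    constructor
    · intro h
      refine ⟨pb.lift ζ (by rw [hP]; exact h), Finset.mem_univ_val _, ?_⟩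
      exact pb.lift_gen _ _
    · rintro ⟨σ, _, rfl⟩
      rw [aeval_algHom_apply, ← hP, minpoly.aeval, map_zero]
  · exact nodup_roots hsep.map
  · apply Multiset.Nodup.map _ Finset.univ.nodup
    intro σ τ h
    exact pb.algHom_ext h

/-- power basis -/
noncomputable def pbOf (θ : M) (r : ℕ) (hr0 : 1 ≤ r)
    (h : LinearIndependent L (fun i : Fin r => θ ^ (i : ℕ))) (hr : Module.finrank L M = r) :
    PowerBasis L M where
  gen := θ
  dim := r
  basis := by
    have : Nonempty (Fin r) := ⟨⟨0, hr0⟩⟩
    exact basisOfLinearIndependentOfCardEqFinrank h (by simp [hr])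
  basis_eq_pow := by
    intro i
    simp

theorem core (ζ0 θ c0 : M) (r j : ℕ) (Q : List L) (A : List (List (List L))) (q' : List F)
    (A' : List (List (List F))) (H : List (List F)) (hQ : Irreducible (mpol Q))
    (hQr : Q.length = r) (hr : 1 ≤ r) (hM : Module.finrank L M = r)
    (hζ0 : aeval ζ0 (mpol Q) = 0)
    (hlin : LinearIndependent L (fun i : Fin r => θ ^ (i : ℕ)))
    (hθ : aeval θ (mpol (q'.map (algebraMap F L))) = 0) (hq' : q'.length = r)
    (hA' : A'.length = r) (hA : A.length = r) (hj : 1 ≤ j) (hHom : ∀ x ∈ A', IsHom j x)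
    (hc0 : c0 ≠ 0)
    (hrel : ∀ κ i, ∑ b ∈ Finset.range r, algebraMap L M (ent A b κ i) * ζ0 ^ b =
      c0 * ∑ b ∈ Finset.range r,
        algebraMap L M (ent (Ty.map (algebraMap F L) ML A') b κ i) * θ ^ b)
    (hfac : FacAbs (AlgebraicClosure L) (Ty.map (algebraMap F L) Ma H) [(Q, (A, un 1))]) :
    FacAbs (AlgebraicClosure F) H [(q', (A', un 1))] := by
  classical
  obtain ⟨hf1, hf2, u, hu, hf3⟩ := hfac
  set B : List (List (List L)) := Ty.map (algebraMap F L) ML A' with hB
  have hBl : B.length = r := by rw [hB, length_map_ML, hA']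
  -- hz relation
  have hz1 : ∀ σ : M →ₐ[L] AlgebraicClosure L,
      hz (σ ζ0) A = C (C (σ c0)) * hz (σ θ) B := by
    intro σ
    ext m i
    rw [coeff_C_mul, coeff_C_mul, coeff_hz, coeff_hz, hA, hBl]
    have := congrArg σ (hrel (m + i) i)
    simp only [map_sum, map_mul, map_pow, AlgHom.commutes] at this
    simp only [mul_comm _ (algebraMap L (AlgebraicClosure L) _)]
    exact this
  let ι : AlgebraicClosure F →ₐ[F] AlgebraicClosure L := IsAlgClosed.lift
  have hz2 : ∀ ζ' : AlgebraicClosure F,
      hz (ι ζ') B = (hz ζ' A').map (mapRingHom (ι : AlgebraicClosure F →+* AlgebraicClosure L)) := by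
    intro ζ'
    ext m i
    rw [coeff_map, coe_mapRingHom, coeff_map, coeff_hz, coeff_hz, hBl, hA', map_sum]
    apply Finset.sum_congr rfl
    intro b _
    rw [hB, ent_map, map_mul, map_pow]
    congr 1
    rw [← IsScalarTower.algebraMap_apply F L (AlgebraicClosure L)]
    exact (ι.commutes _).symm
  -- power bases
  have hmQ : minpoly L ζ0 = mpol Q :=
    (minpoly.eq_of_irreducible_of_monic hQ hζ0 (mpol_monic Q)).symm
  have hlin0 : LinearIndependent L (fun i : Fin r => ζ0 ^ (i : ℕ)) := by
    have h := linearIndependent_pow (K := L) ζ0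
    have h2 : (minpoly L ζ0).natDegree = r := by rw [hmQ, mpol_natDegree, hQr]
    rw [h2] at h
    exact h
  have hmθ : minpoly L θ = mpol (q'.map (algebraMap F L)) := by
    apply Eq.symm
    apply Polynomial.eq_of_monic_of_dvd_of_natDegree_le (minpoly.monic
      (pbOf θ r hr hlin hM).isIntegral_gen) (mpol_monic _) (minpoly.dvd L θ hθ)
    have h3 := (pbOf θ r hr hlin hM).natDegree_minpoly
    change (minpoly L θ).natDegree = r at h3
    rw [mpol_natDegree, List.length_map, hq']
    exact h3.ge
  have hr1 := roots_eq (mpol Q) (pbOf ζ0 r hr hlin0 hM) hmQ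
  have hr2 := roots_eq (mpol (q'.map (algebraMap F L))) (pbOf θ r hr hlin hM) hmθ
  change _ = (Finset.univ : Finset (M →ₐ[L] AlgebraicClosure L)).val.map (fun σ => σ ζ0) at hr1
  change _ = (Finset.univ : Finset (M →ₐ[L] AlgebraicClosure L)).val.map (fun σ => σ θ) at hr2
  have hmm : (mpol (q'.map (algebraMap F L))).map (algebraMap L (AlgebraicClosure L)) =
      ((mpol q').map (algebraMap F (AlgebraicClosure F))).map
        (ι : AlgebraicClosure F →+* AlgebraicClosure L) := by
    rw [mpol_map, Polynomial.map_map, Polynomial.map_map]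
    congr 1
    ext x
    rw [RingHom.comp_apply, RingHom.comp_apply,
      ← IsScalarTower.algebraMap_apply F L (AlgebraicClosure L)]
    exact (ι.commutes _).symm
  have hr3 : ((mpol (q'.map (algebraMap F L))).map
      (algebraMap L (AlgebraicClosure L))).roots =
      ((mpol q').map (algebraMap F (AlgebraicClosure F))).roots.map ι := by
    rw [hmm]
    exact (IsAlgClosed.splits _).roots_map _
  have hirrθ : Irreducible (mpol (q'.map (algebraMap F L))) := by
    rw [← hmθ]
    exact minpoly.irreducible (pbOf θ r hr hlin hM).isIntegral_gen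
  have hirrq : Irreducible (mpol q') := by
    apply (mpol_monic q').irreducible_of_irreducible_map (algebraMap F L)
    rw [← mpol_map]
    exact hirrθ
  have hsepq : (mpol q').Separable := PerfectField.separable_of_irreducible hirrq
  have hιinj : Function.Injective ι := ι.injective
  have hloc1 : IsLocalHom (mapRingHom (ι : AlgebraicClosure F →+* AlgebraicClosure L)) :=
    localHom_map _ hιinj
  have hinj1 : Function.Injective
      (mapRingHom (ι : AlgebraicClosure F →+* AlgebraicClosure L)) :=
    Polynomial.map_injective _ hιinj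
  have hloc2 : IsLocalHom (mapRingHom
      (mapRingHom (ι : AlgebraicClosure F →+* AlgebraicClosure L))) :=
    localHom_map _ hinj1
  -- every root comes from an embedding
  have hemb : ∀ ζ' : AlgebraicClosure F, aeval ζ' (mpol q') = 0 →
      ∃ σ : M →ₐ[L] AlgebraicClosure L, σ θ = ι ζ' := by
    intro ζ' hζ'
    have h1 : ι ζ' ∈ ((mpol q').map (algebraMap F (AlgebraicClosure F))).roots.map ι := by
      apply Multiset.mem_map_of_mem
      have := mem_aroots (p := mpol q') (S := AlgebraicClosure F) (a := ζ')
      rw [aroots] at this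
      rw [this]
      exact ⟨hirrq.ne_zero, hζ'⟩
    rw [← hr3, hr2, Multiset.mem_map] at h1
    obtain ⟨σ, _, hσ⟩ := h1
    exact ⟨σ, hσ⟩
  have hrootQ : ∀ σ : M →ₐ[L] AlgebraicClosure L, aeval (σ ζ0) (mpol Q) = 0 := by
    intro σ
    rw [aeval_algHom_apply, hζ0, map_zero]
  have hunit : ∀ σ : M →ₐ[L] AlgebraicClosure L,
      IsUnit (C (C (σ c0)) : (AlgebraicClosure L)[X][X]) := by
    intro σ
    rw [isUnit_C, isUnit_C, isUnit_iff_ne_zero]
    intro h
    exact hc0 ((map_eq_zero σ).1 h)
  have hass : ∀ σ : M →ₐ[L] AlgebraicClosure L, Associated (hz (σ ζ0) A) (hz (σ θ) B) := by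
    intro σ
    rw [hz1 σ]
    exact (associated_isUnit_mul_left_iff (hunit σ)).2 (Associated.refl _)
  have hirrz : ∀ ζ' : AlgebraicClosure F, aeval ζ' (mpol q') = 0 → Irreducible (hz ζ' A') := by
    intro ζ' hζ'
    obtain ⟨σ, hσ⟩ := hemb ζ' hζ'
    have h1 := (hf1 (Q, (A, un 1)) (List.mem_singleton.2 rfl)).2.2.2.2.2 (σ ζ0) (hrootQ σ)
    have h2 := ((hass σ).irreducible_iff).1 h1
    rw [hσ, hz2] at h2
    exact Irreducible.of_map (f := mapRingHom
      (mapRingHom (ι : AlgebraicClosure F →+* AlgebraicClosure L))) h2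
  refine ⟨?_, ?_, ?_⟩
  · intro o ho
    rw [List.mem_singleton] at ho
    subst ho
    refine ⟨?_, ?_, ?_, ?_, ⟨j, hj, hHom⟩, hirrz⟩
    · show 1 ≤ q'.length
      omega
    · exact hsepq.map.squarefree
    · show A'.length = q'.length
      omega
    · simp [un]
  · refine ⟨List.nodup_singleton _, ?_⟩
    intro o ho o' ho' ζ ζ' hζ hζ' h
    rw [List.mem_singleton] at ho ho'
    subst ho
    subst ho'
    refine ⟨rfl, ?_⟩
    obtain ⟨σ, hσ⟩ := hemb ζ hζ
    obtain ⟨τ, hτ⟩ := hemb ζ' hζ'
    have h3 : Associated (hz (ι ζ) B) (hz (ι ζ') B) := by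
      rw [hz2, hz2]
      exact h.map (mapRingHom
        (mapRingHom (ι : AlgebraicClosure F →+* AlgebraicClosure L)))
    rw [← hσ, ← hτ] at h3
    have h4 := ((hass σ).trans h3).trans (hass τ).symm
    have h5 := (hf2.2 (Q, (A, un 1)) (List.mem_singleton.2 rfl) (Q, (A, un 1))
      (List.mem_singleton.2 rfl) (σ ζ0) (τ ζ0) (hrootQ σ) (hrootQ τ) h4).2
    have h6 : σ = τ := (pbOf ζ0 r hr hlin0 hM).algHom_ext h5
    apply hιinj
    rw [← hσ, ← hτ, h6]
  · -- product formula
    have e1 : bcp (AlgebraicClosure L) (hom (Ty.map (algebraMap F L) Ma H)) =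
        (bcp (AlgebraicClosure F) (hom H)).map
          (mapRingHom (ι : AlgebraicClosure F →+* AlgebraicClosure L)) := by
      ext m i
      rw [coeff_bcp, coeff_map, coe_mapRingHom, coeff_map, coeff_bcp, hom_map, coeff_map,
        coe_mapRingHom, coeff_map, ← IsScalarTower.algebraMap_apply F L (AlgebraicClosure L)]
      exact (ι.commutes _).symm
    set P : (AlgebraicClosure F)[X][X] :=
      (((mpol q').map (algebraMap F (AlgebraicClosure F))).roots.map
        (fun ζ => hz ζ A')).prod with hP
    have e2 : (((mpol Q).map (algebraMap L (AlgebraicClosure L))).roots.map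
        (fun ζ => hz ζ A)).prod = C (C (∏ σ : M →ₐ[L] AlgebraicClosure L, σ c0)) *
          P.map (mapRingHom (ι : AlgebraicClosure F →+* AlgebraicClosure L)) := by
      have e3 : P.map (mapRingHom (ι : AlgebraicClosure F →+* AlgebraicClosure L)) =
          ∏ σ : M →ₐ[L] AlgebraicClosure L, hz (σ θ) B := by
        have : ∏ σ : M →ₐ[L] AlgebraicClosure L, hz (σ θ) B =
            (((mpol (q'.map (algebraMap F L))).map
              (algebraMap L (AlgebraicClosure L))).roots.map (fun ζ => hz ζ B)).prod := by
          rw [hr2, Multiset.map_map]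
          rfl
        rw [this, hr3, Multiset.map_map, hP, ← coe_mapRingHom, map_multiset_prod,
          Multiset.map_map]
        congr 1
        apply Multiset.map_congr rfl
        intro ζ _
        exact (hz2 ζ).symm
      rw [e3, hr1, Multiset.map_map]
      have e4 : (Multiset.map ((fun ζ => hz ζ A) ∘ fun σ : M →ₐ[L] AlgebraicClosure L => σ ζ0)
          Finset.univ.val).prod = ∏ σ : M →ₐ[L] AlgebraicClosure L, hz (σ ζ0) A := rfl
      rw [e4, Finset.prod_congr rfl (fun σ _ => hz1 σ), Finset.prod_mul_distrib]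
      simp [map_prod]
    have hPne : P ≠ 0 := by
      rw [hP]
      intro h
      rw [Multiset.prod_eq_zero_iff, Multiset.mem_map] at h
      obtain ⟨ζ, hζ, h0⟩ := h
      have h7 := mem_aroots (p := mpol q') (S := AlgebraicClosure F) (a := ζ)
      rw [aroots] at h7
      exact (hirrz ζ (h7.1 hζ).2).ne_zero h0
    obtain ⟨m, hm⟩ : ∃ m, P.coeff m ≠ 0 := by
      by_contra hcon
      push Not at hcon
      exact hPne (Polynomial.ext (by simpa using hcon))
    obtain ⟨i, hi⟩ : ∃ i, (P.coeff m).coeff i ≠ 0 := by
      by_contra hcon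
      push Not at hcon
      exact hm (Polynomial.ext (by simpa using hcon))
    set v : AlgebraicClosure L := u * ∏ σ : M →ₐ[L] AlgebraicClosure L, σ c0 with hv
    have hv0 : v ≠ 0 := by
      rw [hv]
      apply mul_ne_zero hu
      rw [Finset.prod_ne_zero_iff]
      intro σ _ h
      exact hc0 ((map_eq_zero σ).1 h)
    have e5 : (bcp (AlgebraicClosure F) (hom H)).map
        (mapRingHom (ι : AlgebraicClosure F →+* AlgebraicClosure L)) =
        C (C v) * P.map (mapRingHom (ι : AlgebraicClosure F →+* AlgebraicClosure L)) := by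
      rw [← e1, hf3, hv, C_mul, C_mul, mul_assoc, ← e2]
      simp [un]
    have e6 : ι (((bcp (AlgebraicClosure F) (hom H)).coeff m).coeff i) =
        v * ι ((P.coeff m).coeff i) := by
      have := congrArg (fun p => (p.coeff m).coeff i) e5
      simpa [coeff_C_mul] using this
    set w : AlgebraicClosure F := ((bcp (AlgebraicClosure F) (hom H)).coeff m).coeff i /
      (P.coeff m).coeff i with hw
    have e7 : ι w = v := by
      rw [hw, map_div₀, e6, mul_div_assoc, div_self, mul_one]
      intro h
      exact hi ((map_eq_zero ι).1 h)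
    refine ⟨w, ?_, ?_⟩
    · intro h
      rw [h, map_zero] at e7
      exact hv0 e7.symm
    · have e8 : bcp (AlgebraicClosure F) (hom H) = C (C w) * P := by
        apply Polynomial.map_injective _ hinj1
        rw [e5, Polynomial.map_mul, map_C, coe_mapRingHom, map_C]
        congr 3
        exact e7.symm
      rw [e8, hP]
      simp [un]

end core

/-! ### counting -/

theorem count_surj {G H : Type} [AddGroup G] [AddGroup H] [Fintype G] [Fintype H]
    (f : G →+ H) (hf : Function.Surjective f) (P : H → Prop)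
    (h : 2 * Nat.card {x : H // P x} ≤ Fintype.card H) :
    2 * Nat.card {v : G // P (f v)} ≤ Fintype.card G := by
  classical
  have hfib : ∀ x : H, (Finset.univ.filter (fun g => f g = x)).card =
      (Finset.univ.filter (fun g => f g = 0)).card := by
    intro x
    obtain ⟨g0, hg0⟩ := hf x
    apply Finset.card_bij (fun g _ => g - g0)
    · intro g hg
      rw [Finset.mem_filter] at hg ⊢
      refine ⟨Finset.mem_univ _, ?_⟩
      rw [map_sub, hg.2, hg0, sub_self]
    · intro g _ g' _ he
      exact sub_left_inj.1 he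
    · intro g hg
      rw [Finset.mem_filter] at hg
      refine ⟨g + g0, ?_, by simp⟩
      rw [Finset.mem_filter]
      refine ⟨Finset.mem_univ _, ?_⟩
      rw [map_add, hg.2, hg0, zero_add]
  have h1 : Nat.card {v : G // P (f v)} = Nat.card {x : H // P x} *
      (Finset.univ.filter (fun g => f g = 0)).card := by
    rw [Nat.card_eq_fintype_card, Nat.card_eq_fintype_card, Fintype.card_subtype,
      Fintype.card_subtype]
    rw [Finset.card_eq_sum_card_fiberwise (f := f) (t := Finset.univ.filter P)]
    · rw [Finset.sum_const_nat (m := (Finset.univ.filter (fun g => f g = 0)).card)]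
      intro x hx
      rw [Finset.mem_filter] at hx
      rw [← hfib x, Finset.filter_filter]
      congr 1
      ext g
      simp only [Finset.mem_filter, Finset.mem_univ, true_and]
      constructor
      · exact fun h => h.2
      · intro h
        exact ⟨by rw [h]; exact hx.2, h⟩
    · intro g hg
      simpa using hg
  have h2 : Fintype.card G = Fintype.card H *
      (Finset.univ.filter (fun g => f g = 0)).card := by
    rw [← Finset.card_univ, Finset.card_eq_sum_card_fiberwise (f := f) (t := Finset.univ)
      (by intro g _; simp), Finset.sum_const_nat (m := (Finset.univ.filter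
        (fun g => f g = 0)).card), Finset.card_univ]
    intro x _
    exact hfib x
  rw [h1, h2, ← mul_assoc]
  exact Nat.mul_le_mul_right _ h

theorem count_pow {G : Type} [Fintype G] (t : ℕ) (P : G → Prop)
    (h : 2 * Nat.card {v : G // P v} ≤ Fintype.card G) :
    2 ^ t * Nat.card {a : Fin t → G // ∀ τ, P (a τ)} ≤ Fintype.card G ^ t := by
  have h1 : Nat.card {a : Fin t → G // ∀ τ, P (a τ)} = Nat.card {v : G // P v} ^ t := by
    rw [Nat.card_congr (Equiv.subtypePiEquivPi (p := fun _ : Fin t => P))]
    rw [Nat.card_fun]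
    simp
  rw [h1, ← mul_pow]
  exact Nat.pow_le_pow_left h t

section lin
variable {L M : Type} [Field L] [Field M] [Algebra L M] [FiniteDimensional L M]

omit [FiniteDimensional L M] in
theorem lin0 (ζ0 : M) (r : ℕ) (Q : List L) (hQ : Irreducible (mpol Q)) (hQr : Q.length = r)
    (hζ0 : aeval ζ0 (mpol Q) = 0) : LinearIndependent L (fun i : Fin r => ζ0 ^ (i : ℕ)) := by
  have hmQ : minpoly L ζ0 = mpol Q :=
    (minpoly.eq_of_irreducible_of_monic hQ hζ0 (mpol_monic Q)).symm
  have h := linearIndependent_pow (K := L) ζ0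
  have h2 : (minpoly L ζ0).natDegree = r := by rw [hmQ, mpol_natDegree, hQr]
  rw [h2] at h
  exact h

/-- the element given by the first `r` entries -/
noncomputable def Phi (ζ0 : M) (r n : ℕ) : (Fin n → L) →+ M where
  toFun v := aeval ζ0 (pol ((List.ofFn v).take r))
  map_zero' := by
    have : pol ((List.ofFn (0 : Fin n → L)).take r) = 0 := by
      ext m
      rw [coeff_pol, List.getD_eq_getElem?_getD, List.getElem?_take]
      split_ifs
      · rw [List.getElem?_ofFn]
        split_ifs <;> simp
      · simp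
    rw [this, map_zero]
  map_add' v v' := by
    have : pol ((List.ofFn (v + v')).take r) = pol ((List.ofFn v).take r) +
        pol ((List.ofFn v').take r) := by
      ext m
      rw [coeff_add, coeff_pol, coeff_pol, coeff_pol]
      simp only [List.getD_eq_getElem?_getD, List.getElem?_take]
      split_ifs
      · simp only [List.getElem?_ofFn]
        split_ifs <;> simp
      · simp
    rw [this, map_add]

omit [FiniteDimensional L M] in
theorem Phi_surj (ζ0 : M) (r n : ℕ) (hr : 1 ≤ r) (hrn : r ≤ n)
    (hlin : LinearIndependent L (fun i : Fin r => ζ0 ^ (i : ℕ)))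
    (hM : Module.finrank L M = r) : Function.Surjective (Phi (L := L) ζ0 r n) := by
  intro m
  have : Nonempty (Fin r) := ⟨⟨0, hr⟩⟩
  set b := basisOfLinearIndependentOfCardEqFinrank hlin (by simp [hM]) with hb
  refine ⟨fun i => if h : (i : ℕ) < r then b.repr m ⟨i, h⟩ else 0, ?_⟩
  show aeval ζ0 (pol ((List.ofFn _).take r)) = m
  have hlen : ((List.ofFn (fun i : Fin n => if h : (i : ℕ) < r then b.repr m ⟨i, h⟩
      else 0)).take r).length = r := by
    simp [hrn]
  rw [aeval_eq_sum_range' (n := r)]
  · rw [Finset.sum_range]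
    conv_rhs => rw [← b.sum_repr m]
    apply Finset.sum_congr rfl
    intro i _
    rw [coeff_pol, List.getD_eq_getElem?_getD, List.getElem?_take, if_pos i.2,
      List.getElem?_ofFn, dif_pos (lt_of_lt_of_le i.2 hrn)]
    simp [hb]
  · have h1 := degree_pol_lt ((List.ofFn (fun i : Fin n => if h : (i : ℕ) < r then
      b.repr m ⟨i, h⟩ else 0)).take r)
    rw [hlen] at h1
    by_cases hp : pol ((List.ofFn (fun i : Fin n => if h : (i : ℕ) < r then
      b.repr m ⟨i, h⟩ else 0)).take r) = 0
    · rw [hp, natDegree_zero]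
      exact hr
    · exact (natDegree_lt_iff_degree_lt hp).2 h1

omit [FiniteDimensional L M] in
theorem aeval_mpol (θ : M) (l : List L) (r : ℕ) (hr1 : 1 ≤ r) (hl : l.length = r) :
    aeval θ (mpol l) = θ ^ r + ∑ i : Fin r, algebraMap L M (l.getD i 0) * θ ^ (i : ℕ) := by
  rw [mpol, map_add, map_pow, aeval_X, hl, aeval_eq_sum_range' (n := r)]
  · rw [Finset.sum_range]
    congr 1
    apply Finset.sum_congr rfl
    intro i _
    rw [coeff_pol, Algebra.smul_def]
  · have h6 := degree_pol_lt l
    rw [hl] at h6
    by_cases hp : pol l = 0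
    · rw [hp, natDegree_zero]
      exact hr1
    · exact (natDegree_lt_iff_degree_lt hp).2 h6

end lin

end DA7

/-- TARGET -/
theorem specDA (h1 : StmtOne) (h2 : StmtTrGen) (h3 : SpecDP) : SpecDA := by
  classical
  obtain ⟨w, C, k, hw⟩ := h3
  refine ⟨w, C, k, ?_⟩
  intro F L _ _ _ _ _ _ _ q e n t H Q A hFq hLq he hcop hH hn hTop hirr hfac hdeg
  obtain ⟨Q', A1, hout, hQ, hdvd, hHom, hrel⟩ :=
    h1 F L q e n H _ hFq hLq hcop hH hn hTop hirr hfac hdeg
  have hQQ : Q = Q' ∧ A = A1 := by simpa using hout
  obtain ⟨rfl, rfl⟩ := hQQ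
  have hf1 := hfac.1 (Q, (A, un 1)) (List.mem_singleton.2 rfl)
  obtain ⟨r, hr⟩ : ∃ r, Q.length = r := ⟨_, rfl⟩
  have hr1 : 1 ≤ r := by rw [← hr]; exact hf1.1
  have hAr : A.length = r := by rw [← hr]; exact hf1.2.2.1
  rw [hr] at hdvd hHom hrel
  obtain ⟨j, rfl⟩ := hdvd
  rw [Nat.mul_div_cancel_left _ (by omega)] at hHom
  have hj : 1 ≤ j := by
    rcases Nat.eq_zero_or_pos j with h | h
    · rw [h, mul_zero] at hn; omega
    · exact h
  refine ⟨?_, fun a => (hw L q e r j t Q A a hQ hr hAr hr1 hj hHom).1⟩
  -- the field `M`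
  have : Fact (Irreducible (mpol Q)) := ⟨hQ⟩
  let M : Type := AdjoinRoot (mpol Q)
  let ζ0 : M := AdjoinRoot.root (mpol Q)
  have hfin : Module.Finite L M := (DA7.mpol_monic Q).finite_adjoinRoot
  have hfinM : Finite M := Module.finite_of_finite L
  let _ : Fintype M := Fintype.ofFinite M
  have hζ0 : aeval ζ0 (mpol Q) = 0 := by
    show aeval (AdjoinRoot.root (mpol Q)) (mpol Q) = 0
    rw [AdjoinRoot.aeval_eq, AdjoinRoot.mk_self]
  have hM : Module.finrank L M = r := by
    have h := (AdjoinRoot.powerBasis' (DA7.mpol_monic Q)).finrank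
    rw [AdjoinRoot.powerBasis'_dim, DA7.mpol_natDegree, hr] at h
    exact h
  have hlin0 := DA7.lin0 ζ0 r Q hQ hr hζ0
  have hcopr : Nat.Coprime e r := Nat.Coprime.coprime_dvd_right ⟨j, rfl⟩ hcop
  obtain ⟨ht1, ht2, ht3⟩ := h2 F L M q e r hFq hLq hM he hr1 hcopr
  have hrj : r ≤ r * j := Nat.le_mul_of_pos_right r hj
  have hcount := DA7.count_pow t (fun v : Fin (r * j) → L => ¬ LinearIndependent L
    (fun i : Fin r => trq q e r (DA7.Phi (L := L) ζ0 r (r * j) v) ^ (i : ℕ)))
    (DA7.count_surj (DA7.Phi (L := L) ζ0 r (r * j))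
      (DA7.Phi_surj ζ0 r (r * j) hr1 hrj hlin0 hM)
      (fun a : M => ¬ LinearIndependent L (fun i : Fin r => trq q e r a ^ (i : ℕ))) ht2)
  have hcard : Fintype.card (Fin (r * j) → L) ^ t = Fintype.card L ^ (t * (r * j)) := by
    rw [Fintype.card_fun, Fintype.card_fin, ← pow_mul, mul_comm (r * j) t]
  rw [hcard] at hcount
  refine le_trans (Nat.mul_le_mul_left _ ?_) hcount
  refine Nat.card_le_card_of_injective (Subtype.map id ?_)
    (Subtype.map_injective _ Function.injective_id)
  · intro a ha
    by_contra hcon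
    rw [id] at hcon
    push Not at hcon
    apply ha
    -- some entry is not zero
    have hne : ∃ b κ i, ent A b κ i ≠ 0 := by
      by_contra hcon2
      push Not at hcon2
      obtain ⟨ζ, hζ⟩ := IsAlgClosed.exists_aeval_eq_zero (AlgebraicClosure L) (mpol Q)
        hQ.degree_pos.ne'
      apply (hf1.2.2.2.2.2 ζ hζ).ne_zero
      ext m i
      rw [DA7.coeff_hz]
      simp [hcon2]
    obtain ⟨τ, hτ⟩ := hcon
    obtain ⟨τ, c0, κ0, i0, hlin, hc0, hc0', hl1, hl2, hHom2, hroot, hrel2⟩ :=
      (hw L q e r j t Q A a hQ hr hAr hr1 hj hHom).2 M ζ0 hζ0 hne ⟨τ, hτ⟩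
    set out : List L × List (List (List L)) :=
      w.val () ((bits L q, (un e, un t)), ((Q, A), rows a)) with hout2
    set θ : M := trq q e r (aeval ζ0 (pol ((List.ofFn (a τ)).take r))) with hθ
    have hθq : θ ^ (q ^ r) = θ := ht1 _
    -- the entries are fixed
    have hfix : ∀ κ i, (∑ b ∈ Finset.range r, algebraMap L M (ent out.2 b κ i) * θ ^ b) ^ (q ^ r) =
        ∑ b ∈ Finset.range r, algebraMap L M (ent out.2 b κ i) * θ ^ b := by
      intro κ i
      by_cases hκ : κ ≤ j ∧ i ≤ κ
      · have hκ0 : κ0 ≤ j ∧ i0 ≤ κ0 := by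
          by_contra h
          apply hc0
          rw [hc0']
          apply Finset.sum_eq_zero
          intro b _
          rw [DA7.ent_zero A j b κ0 i0 hHom h, map_zero, zero_mul]
        let σ : M →ₐ[L] AlgebraicClosure L := IsAlgClosed.lift
        have hσ : aeval (σ ζ0) (mpol Q) = 0 := by
          rw [aeval_algHom_apply, hζ0, map_zero]
        have e1 : ∀ κ i, i ≤ κ → ((hz (σ ζ0) A).coeff (κ - i)).coeff i =
            σ (∑ b ∈ Finset.range r, algebraMap L M (ent A b κ i) * ζ0 ^ b) := by
          intro κ i hi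
          rw [DA7.coeff_hz, hAr, Nat.sub_add_cancel hi, map_sum]
          apply Finset.sum_congr rfl
          intro b _
          rw [map_mul, map_pow, AlgHom.commutes, mul_comm]
        have e2 := hrel (σ ζ0) hσ (κ - i) i (κ0 - i0) i0
        rw [e1 κ i hκ.2, e1 κ0 i0 hκ0.2, ← hc0', hrel2 κ i, ← map_pow, ← map_pow, ← map_mul,
          ← map_mul] at e2
        have e3 := σ.injective e2
        have e4 : c0 ^ (q ^ r) * c0 ≠ 0 := mul_ne_zero (pow_ne_zero _ hc0) hc0
        apply mul_left_cancel₀ e4
        rw [mul_pow] at e3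
        linear_combination e3
      · have : ∀ b, ent out.2 b κ i = 0 := fun b => DA7.ent_zero out.2 j b κ i hHom2 hκ
        simp only [this, map_zero, zero_mul, Finset.sum_const_zero]
        apply zero_pow
        apply pow_ne_zero
        rw [← hFq]
        exact Fintype.card_ne_zero
    obtain ⟨A', hA'⟩ := DA7.exists_map_ML (algebraMap F L) out.2 (by
      intro b κ i
      rcases lt_or_ge b r with hb | hb
      · obtain ⟨y, hy⟩ := ht3 θ _ hθq (hfix κ i) hlin (fun b => ent out.2 b κ i)
          (by rw [Finset.sum_range]) ⟨b, hb⟩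
        exact ⟨y, hy.symm⟩
      · refine ⟨0, ?_⟩
        rw [map_zero, ent, List.getD_eq_default out.2 _ (by omega)]
        simp)
    obtain ⟨q', hq'⟩ := DA7.exists_map_list (algebraMap F L) out.1 (by
      intro x hx
      obtain ⟨b, hb, rfl⟩ := List.mem_iff_getElem.1 hx
      have e1 : θ ^ r = ∑ i : Fin r, algebraMap L M (-(out.1.getD i 0)) * θ ^ (i : ℕ) := by
        have h5 := DA7.aeval_mpol (L := L) θ out.1 r hr1 hl1
        rw [hroot] at h5
        have h6 : ∑ i : Fin r, algebraMap L M (-(out.1.getD i 0)) * θ ^ (i : ℕ) =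
            -∑ i : Fin r, algebraMap L M (out.1.getD i 0) * θ ^ (i : ℕ) := by
          rw [← Finset.sum_neg_distrib]
          apply Finset.sum_congr rfl
          intro i _
          rw [map_neg, neg_mul]
        rw [h6]
        linear_combination -h5
      have e2 : (θ ^ r) ^ (q ^ r) = θ ^ r := by
        rw [← pow_mul, mul_comm r (q ^ r), pow_mul, hθq]
      obtain ⟨y, hy⟩ := ht3 θ _ hθq e2 hlin (fun b => -(out.1.getD b 0)) e1
        ⟨b, by omega⟩
      refine ⟨-y, ?_⟩
      rw [map_neg, ← hy]
      simp only [neg_neg]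
      exact List.getD_eq_getElem _ _ hb)
    have hA'2 : ∀ x ∈ A', IsHom j x := by
      intro x hx
      rw [← DA7.isHom_map (algebraMap F L)]
      apply hHom2
      rw [hA']
      exact List.mem_map_of_mem hx
    refine ⟨q', A', ?_, ?_⟩
    · apply DA7.core ζ0 θ c0 r j Q A q' A' H hQ hr hr1 hM hζ0 hlin
      · rw [← hq']
        exact hroot
      · rw [← hl1, hq', List.length_map]
      · rw [← hl2, hA', DA7.length_map_ML]
      · exact hAr
      · exact hj
      · exact hA'2
      · exact hc0
      · intro κ i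
        rw [← hA']
        exact hrel2 κ i
      · exact hfac
    · rw [← hA']
      show out = (List.map (algebraMap F L) q', out.2)
      rw [← hq']

end Pool.Agent.H330AB.JL7
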