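import Pool.Agent.H330AB.SpecB3
import Pool.Agent.H330FB.Spec5

set_option autoImplicit false

/-!
# Absolute factorization over small finite fields: exact statements
-/

namespace Pool.Agent.H330AB

open Polynomial Pool.Agent.H330FB

/-! ### The main program with explicit failure bounds and without roots -/

/-- bound for the degrees of the output -/
def DegB {K : Type} (d : ℕ) (out : List (List K × (List (List (List K)) × List Unit))) : Prop :=
  ∀ o ∈ out, ∃ j, j * o.1.length ≤ d ∧ ∀ x ∈ o.2.1, IsHom j x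

/-- `SpecFacA` with a list of length `D ≥ p` as additional input, without the hypothesis
`p < d ^ 2`; input `(D, (H, random list))` -/
def SpecFacD : Prop := ∃ (w : Pr RT (.prod Un (.prod Ma Po)) (.list (.prod Po (.prod ML Un))))
    (C k : ℕ),
  ∀ (K : Type) [Field K] [DecidableEq K] (p d D : ℕ) (rt : K → K) (H : List (List K)),
  p.Prime → CharP K p → (∀ x, rt x ^ p = x) → IsHom d H → 1 ≤ d → TopNe d H → p ≤ D →
  (∀ ω : List K, w.cost (rt, ()) ((fun _ => 1), ()) (un D, (H, ω)) ≤
    C * lgc (d + D + 1) ^ k * ((d + 1) ^ 3 + (d + 1) * (D + 1))) ∧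
  ∃ e : ℕ, d ≤ p ^ e ∧ p ^ e ≤ d * p ∧
    ∀ (a b : K) (cs : Fin (d + 1) → K) (G : Fin d → Fin d → K) (as : Fin d → K)
      (g : Fin d → Fin d → K),
    ∃ Sep : (Fin d → K) → Prop,
      (∀ T : Finset K, Nat.card {c : Fin d → T // ¬ Sep (fun i => (c i : K))} * T.card ≤
        d ^ 2 * T.card ^ d) ∧
      ∀ cb : Fin d → K, Sep cb →
        GoodF (p ^ e) d (bcp (AlgebraicClosure K) (hom H))
          (algebraMap K (AlgebraicClosure K) a) (algebraMap K (AlgebraicClosure K) b)
          (fun j => algebraMap K (AlgebraicClosure K) (cs j))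
          (fun i j => algebraMap K (AlgebraicClosure K) (G i j))
          (fun j => algebraMap K (AlgebraicClosure K) (as j))
          (fun j i => algebraMap K (AlgebraicClosure K) (g j i)) →
        FacAbs (AlgebraicClosure K) H (w.val (rt, ()) (un D, (H, rlist2 a b cs G as g cb))) ∧
        DegB d (w.val (rt, ()) (un D, (H, rlist2 a b cs G as g cb)) :
          List (List K × (List (List (List K)) × List Unit)))

/-- elimination of the root function, when it can be computed by the program `rp` from a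
context -/
def SpecElim : Prop := ∀ (cx : Ty) (rp : Pr [] (.prod cx .fld) .fld) (a b : Ty) (w : Pr RT a b),
  ∃ (w' : Pr [] (.prod cx a) b) (C : ℕ), ∀ (F : Type) [Field F] [DecidableEq F] (rt : F → F)
  (c : Ty.D F cx) (B : ℕ),
  (∀ x : F, rp.val () (c, x) = rt x ∧ rp.cost () () (c, x) ≤ B) → ∀ x : Ty.D F a,
    w'.val () (c, x) = w.val (rt, ()) x ∧
    w'.cost () () (c, x) ≤ C * (B + 1) * (w.cost (rt, ()) ((fun _ => 1), ()) x + 1)

/-- absolute factorization over a finite field with `p ^ (m + 1)` elements, in terms of lists,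
with an explicit bound for the failures; input `((bits p, m), (D, (H, random list)))` -/
def SpecFacE : Prop := ∃ (w : Pr [] (.prod (.prod Po Un) (.prod Un (.prod Ma Po)))
    (.list (.prod Po (.prod ML Un)))) (C k : ℕ),
  ∀ (K : Type) [Field K] [Fintype K] [DecidableEq K] (p m d D : ℕ) (H : List (List K)),
  p.Prime → Fintype.card K = p ^ (m + 1) → IsHom d H → 1 ≤ d → TopNe d H → p ≤ D →
  (∀ ω : List K, w.cost () () ((bits K p, un m), (un D, (H, ω))) ≤
    C * ((m + 1) * lgc (d + D + 1)) ^ k * ((d + 1) ^ 3 + (d + 1) * (D + 1))) ∧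
  Nat.card {ω : Fin (R2 d) → K // ¬ (FacAbs (AlgebraicClosure K) H
      (w.val () ((bits K p, un m), (un D, (H, List.ofFn ω)))) ∧
      DegB d (w.val () ((bits K p, un m), (un D, (H, List.ofFn ω))) :
        List (List K × (List (List (List K)) × List Unit))))} * Fintype.card K ≤
    50 * d ^ 3 * p * Fintype.card K ^ R2 d

/-! ### Extension of the field -/

/-- choice of the degree of the extension; input `(n, d)` -/
def SpecCop : Prop := ∃ (w : Pr [] (.prod Un Un) Un) (C : ℕ), ∀ (n d : ℕ), 1 ≤ n → n ≤ d →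
  ∃ e : ℕ, Nat.Coprime e n ∧ 6000 * d ^ 6 ≤ 2 ^ e ∧ 1 ≤ e ∧ e ≤ C * lgc d ^ 3 ∧
  ∀ (F : Type) [Field F] [DecidableEq F],
    Pr.val (F := F) w () (un n, un d) = un e ∧
    Pr.cost (F := F) w () () (un n, un d) ≤ C * ((d + 1) * lgc d ^ 4)

/-- there are many irreducible polynomials, all degrees -/
def StmtIrrG : Prop := ∀ (F : Type) [Field F] [Fintype F] (e : ℕ), 1 ≤ e →
  Fintype.card F ^ e ≤ 2 * e * Nat.card {l : List F // l.length = e ∧ Irreducible (mpol l)}

/-- test of irreducibility, all degrees; input `(bits q, P)` -/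
def SpecIrrG : Prop := ∃ (w : Pr [] (.prod Po Po) Un) (C k : ℕ),
  ∀ (F : Type) [Field F] [Fintype F] [DecidableEq F] (q : ℕ) (P : List F),
  Fintype.card F = q → 1 ≤ P.length →
  (Irreducible (mpol P) → w.val () (bits F q, P) = un 1) ∧
  (¬ Irreducible (mpol P) → w.val () (bits F q, P) = un 0) ∧
  w.cost () () (bits F q, P) ≤ C * (P.length * lgc q) ^ k

/-- search for an irreducible polynomial of degree `e`; input `(bits q, (e, (t, random)))` -/
def SpecFindG : Prop := ∃ (w : Pr [] (.prod Po (.prod Un (.prod Un Po))) Po) (C k : ℕ),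
  ∀ (F : Type) [Field F] [Fintype F] [DecidableEq F] (q e t : ℕ), Fintype.card F = q →
  1 ≤ e →
  2 ^ t * Nat.card {r : Fin (2 * e * (t + 1) * e) → F //
      ¬ Irreducible (mpol (w.val () (bits F q, (un e, (un t, List.ofFn r))) : List F))} ≤
    q ^ (2 * e * (t + 1) * e) ∧
  ∀ r : Fin (2 * e * (t + 1) * e) → F,
    List.length (w.val () (bits F q, (un e, (un t, List.ofFn r))) : List F) = e ∧
    w.cost () () (bits F q, (un e, (un t, List.ofFn r))) ≤ C * (e * (t + 1) * lgc q) ^ k

/-! ### Descent -/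

/-- the absolute factorization over `L` of a polynomial irreducible over `F` -/
def StmtOne : Prop := ∀ (F L : Type) [Field F] [Fintype F] [Field L] [Fintype L] [Algebra F L]
  (q e n : ℕ) (H : List (List F)) (out : List (List L × (List (List (List L)) × List Unit))),
  Fintype.card F = q → Fintype.card L = q ^ e → Nat.Coprime e n → IsHom n H → 1 ≤ n →
  TopNe n H → Irreducible (hom H) →
  FacAbs (AlgebraicClosure L) (Ty.map (algebraMap F L) Ma H) out → DegB n out →
  ∃ (Q : List L) (A : List (List (List L))), out = [(Q, (A, un 1))] ∧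
    Irreducible (mpol Q) ∧ Q.length ∣ n ∧ (∀ x ∈ A, IsHom (n / Q.length) x) ∧
    ∀ ζ : AlgebraicClosure L, aeval ζ (mpol Q) = 0 → ∀ i j i' j' : ℕ,
      (((hz ζ A).coeff i).coeff j) ^ (q ^ Q.length) * ((hz ζ A).coeff i').coeff j' =
        ((hz ζ A).coeff i).coeff j * (((hz ζ A).coeff i').coeff j') ^ (q ^ Q.length)

/-- the trace from the field with `q ^ (e r)` elements to the field with `q ^ r` elements -/
noncomputable def trq {M : Type} [Field M] (q e r : ℕ) (a : M) : M :=
  ∑ i ∈ Finset.range e, a ^ (q ^ (r * i))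

/-- generators of the subfield with `q ^ r` elements -/
def StmtTrGen : Prop := ∀ (F L M : Type) [Field F] [Fintype F] [Field L] [Fintype L] [Field M]
  [Fintype M] [Algebra F L] [Algebra L M] (q e r : ℕ), Fintype.card F = q →
  Fintype.card L = q ^ e → Module.finrank L M = r → 1 ≤ e → 1 ≤ r → Nat.Coprime e r →
  (∀ a : M, trq q e r a ^ (q ^ r) = trq q e r a) ∧
  2 * Nat.card {a : M // ¬ LinearIndependent L (fun i : Fin r => trq q e r a ^ (i : ℕ))} ≤
    Fintype.card M ∧
  ∀ θ x : M, θ ^ (q ^ r) = θ → x ^ (q ^ r) = x →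
    LinearIndependent L (fun i : Fin r => θ ^ (i : ℕ)) →
    ∀ c : Fin r → L, x = ∑ i, algebraMap L M (c i) * θ ^ (i : ℕ) →
      ∀ i, ∃ y : F, c i = algebraMap F L y

/-- entry -/
def ent {L : Type} [Field L] (A : List (List (List L))) (b κ i : ℕ) : L :=
  ((A.getD b []).getD κ []).getD i 0

/-- the program for the descent; input `((bits q, (e, t)), ((Q, A), random rows))` -/
def SpecDP : Prop := ∃ (w : Pr [] (.prod (.prod Po (.prod Un Un)) (.prod (.prod Po ML) Ma))
    (.prod Po ML)) (C k : ℕ),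
  ∀ (L : Type) [Field L] [DecidableEq L] (q e r j t : ℕ) (Q : List L)
  (A : List (List (List L))) (a : Fin t → Fin (r * j) → L), Irreducible (mpol Q) →
  Q.length = r → A.length = r → 1 ≤ r → 1 ≤ j → (∀ x ∈ A, IsHom j x) →
  w.cost () () ((bits L q, (un e, un t)), ((Q, A), rows a)) ≤
    C * (((e + 1) * (t + 1) * lgc q * lgc (r * j)) ^ k * (r * j + 1) ^ 3) ∧
  ∀ (M : Type) [Field M] [Algebra L M] (ζ : M), aeval ζ (mpol Q) = 0 →
    (∃ b κ i, ent A b κ i ≠ 0) →
    (∃ τ : Fin t, LinearIndependent L (fun i : Fin r =>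
      trq q e r (aeval ζ (pol ((List.ofFn (a τ)).take r))) ^ (i : ℕ))) →
    ∃ (τ : Fin t) (c0 : M) (κ0 i0 : ℕ),
      LinearIndependent L (fun i : Fin r =>
        trq q e r (aeval ζ (pol ((List.ofFn (a τ)).take r))) ^ (i : ℕ)) ∧
      c0 ≠ 0 ∧ c0 = ∑ b ∈ Finset.range r, algebraMap L M (ent A b κ0 i0) * ζ ^ b ∧
      let c : List L × List (List (List L)) :=
        w.val () ((bits L q, (un e, un t)), ((Q, A), rows a))
      c.1.length = r ∧ c.2.length = r ∧ (∀ x ∈ c.2, IsHom j x) ∧
      aeval (trq q e r (aeval ζ (pol ((List.ofFn (a τ)).take r)))) (mpol c.1) = 0 ∧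
      ∀ κ i, ∑ b ∈ Finset.range r, algebraMap L M (ent A b κ i) * ζ ^ b =
        c0 * ∑ b ∈ Finset.range r, algebraMap L M (ent c.2 b κ i) *
          trq q e r (aeval ζ (pol ((List.ofFn (a τ)).take r))) ^ b

/-- descent to the small field; input `((bits q, (e, t)), ((Q, A), random rows))` -/
def SpecDA : Prop := ∃ (w : Pr [] (.prod (.prod Po (.prod Un Un)) (.prod (.prod Po ML) Ma))
    (.prod Po ML)) (C k : ℕ),
  ∀ (F L : Type) [Field F] [Fintype F] [DecidableEq F] [Field L] [Fintype L] [DecidableEq L]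
  [Algebra F L] (q e n t : ℕ) (H : List (List F)) (Q : List L) (A : List (List (List L))),
  Fintype.card F = q → Fintype.card L = q ^ e → 1 ≤ e → Nat.Coprime e n → IsHom n H → 1 ≤ n →
  TopNe n H → Irreducible (hom H) →
  FacAbs (AlgebraicClosure L) (Ty.map (algebraMap F L) Ma H) [(Q, (A, un 1))] →
  DegB n [(Q, (A, un 1))] →
  2 ^ t * Nat.card {a : Fin t → Fin n → L //
    ¬ ∃ (q' : List F) (A' : List (List (List F))),
      FacAbs (AlgebraicClosure F) H [(q', (A', un 1))] ∧
      (w.val () ((bits L q, (un e, un t)), ((Q, A), rows a)) :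
        List L × List (List (List L))) =
        (Ty.map (algebraMap F L) Po q', Ty.map (algebraMap F L) ML A')} ≤
    Fintype.card L ^ (t * n) ∧
  ∀ a : Fin t → Fin n → L,
    w.cost () () ((bits L q, (un e, un t)), ((Q, A), rows a)) ≤
      C * (((e + 1) * (t + 1) * lgc q * lgc n) ^ k * (n + 1) ^ 3)

/-- absolute factorization of an irreducible polynomial over a small field, run over the large
field; input `(((bits q, bits p), (m, (e, t))), (D, (H, random list)))` with
`p ^ (m + 1)` elements of the large field -/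
def SpecIL : Prop := ∃ (w : Pr [] (.prod (.prod (.prod Po Po) (.prod Un (.prod Un Un)))
    (.prod Un (.prod Ma Po))) (.prod Po ML)) (C k : ℕ),
  ∀ (F L : Type) [Field F] [Fintype F] [DecidableEq F] [Field L] [Fintype L] [DecidableEq L]
  [Algebra F L] (q p m e n t D : ℕ) (H : List (List F)), p.Prime → Fintype.card F = q →
  Fintype.card L = q ^ e → Fintype.card L = p ^ (m + 1) → 1 ≤ e → Nat.Coprime e n →
  IsHom n H → 1 ≤ n → TopNe n H → Irreducible (hom H) → p ≤ D →
  2 ^ t * Fintype.card L * Nat.card {ω : Fin (R2 n + t * n) → L //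
    ¬ ∃ (q' : List F) (A' : List (List (List F))),
      FacAbs (AlgebraicClosure F) H [(q', (A', un 1))] ∧
      (w.val () (((bits L q, bits L p), (un m, (un e, un t))),
        (un D, (Ty.map (algebraMap F L) Ma H, List.ofFn ω))) : List L × List (List (List L))) =
        (Ty.map (algebraMap F L) Po q', Ty.map (algebraMap F L) ML A') ∧
      w.cost () () (((bits L q, bits L p), (un m, (un e, un t))),
        (un D, (Ty.map (algebraMap F L) Ma H, List.ofFn ω))) ≤
        C * (((m + 1) * (e + 1) * (t + 1) * lgc q * lgc (n + D + 1)) ^ k *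
          ((n + 1) ^ 3 + (n + 1) * (D + 1)))} ≤
    (2 ^ t * (50 * n ^ 3 * p) + Fintype.card L) * Fintype.card L ^ (R2 n + t * n)

/-- absolute factorization of an irreducible polynomial over a small field; input
`((bits q, (bits p, m)), ((D, d), (H, random list)))` with `q = p ^ m`, `D = d ^ 2` -/
def SpecIA : Prop := ∃ (w : Pr [] (.prod (.prod Po (.prod Po Un)) (.prod (.prod Un Un)
    (.prod Ma Po))) (.prod Po ML)) (C k : ℕ),
  ∀ (F : Type) [Field F] [Fintype F] [DecidableEq F] (q p m n d N : ℕ) (H : List (List F)),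
  p.Prime → Fintype.card F = q → q = p ^ m → IsHom n H → 1 ≤ n → n ≤ d → TopNe n H →
  Irreducible (hom H) → p ≤ d ^ 2 → C * lgc d ^ k * (d + 1) ^ 2 ≤ N →
  50 * d * Nat.card {ω : Fin N → F // ¬ (FacAbs (AlgebraicClosure F) H
      [((w.val () ((bits F q, (bits F p, un m)), ((un (d ^ 2), un d), (H, List.ofFn ω)))).1,
        ((w.val () ((bits F q, (bits F p, un m)), ((un (d ^ 2), un d), (H, List.ofFn ω)))).2,
          un 1))] ∧
      w.cost () () ((bits F q, (bits F p, un m)), ((un (d ^ 2), un d), (H, List.ofFn ω))) ≤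
        C * ((lgc q * lgc d) ^ k * ((n + 1) ^ 3 + (n + 1) * (d ^ 2 + 1))))} ≤ q ^ N

/-! ### Factorization over the small field first -/

/-- factorization over a finite field with a better success probability -/
def SpecMainC : Prop := ∃ (main : Pr [] (.prod Po (.prod Ma Po)) (.list (.prod Ma Un)))
  (C k : ℕ), ∀ (F : Type) [Field F] [Fintype F] [DecidableEq F] (d : ℕ)
  (H : List (List F)), 1 ≤ d → IsHom d H → TopNe d H →
  7 * Nat.card {r : Fin (RR d) → F //
      ¬ (FacGood (hom H) (main.val () (bits F (Fintype.card F), (H, List.ofFn r))) ∧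
      main.cost () () (bits F (Fintype.card F), (H, List.ofFn r)) ≤
        C * (lgc (Fintype.card F) * lgc d) ^ k * ww (d + 1))} ≤ Fintype.card F ^ RR d

/-- the absolute factorizations of the irreducible factors give the absolute factorization -/
def StmtJoin : Prop := ∀ (F : Type) [Field F] [DecidableEq F] (H : List (List F))
  (outF : List (List (List F) × List Unit))
  (ab : List (List F) → List F × List (List (List F))), FacGood (hom H) outF →
  (∀ o ∈ outF, FacAbs (AlgebraicClosure F) o.1 [((ab o.1).1, ((ab o.1).2, un 1))]) →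
  FacAbs (AlgebraicClosure F) H (outF.map (fun o => ((ab o.1).1, ((ab o.1).2, o.2))))

/-- absolute factorization over finite fields; input `((bits q, m), (H, random list))` -/
def SpecSm : Prop := ∃ (w : Pr [] (.prod (.prod Po Un) (.prod Ma Po))
    (.list (.prod Po (.prod ML Un)))) (C k : ℕ),
  ∀ (F : Type) [Field F] [Fintype F] [DecidableEq F] (q p m d N : ℕ) (H : List (List F)),
  p.Prime → Fintype.card F = q → q = p ^ m → IsHom d H → 1 ≤ d → TopNe d H → p < d ^ 2 →
  C * lgc d ^ k * (d + 1) ^ 2 ≤ N →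
  3 * Nat.card {ω : Fin N → F // ¬ (FacAbs (AlgebraicClosure F) H
      (w.val () ((bits F q, un m), (H, List.ofFn ω))) ∧
      w.cost () () ((bits F q, un m), (H, List.ofFn ω)) ≤
        C * ((lgc q * lgc d) ^ k * (d + 1) ^ 3))} ≤ q ^ N

/-- computation of a budget; input `(bits q, list of length d + 1)` -/
def SpecBud : Prop := ∀ C k : ℕ, ∃ (w : Pr [] (.prod Po Ma) Un) (C' k' : ℕ),
  ∀ (F : Type) [Field F] [DecidableEq F] (q d : ℕ) (H : List (List F)), 1 ≤ q → 1 ≤ d →
  H.length = d + 1 →
  C * ((lgc q * lgc d) ^ k * (d + 1) ^ 3) ≤ List.length (w.val () (bits F q, H)) ∧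
  List.length (w.val () (bits F q, H)) ≤ C' * ((lgc q * lgc d) ^ k' * (d + 1) ^ 3) ∧
  w.cost () () (bits F q, H) ≤ C' * ((lgc q * lgc d) ^ k' * (d + 1) ^ 3)

/-- absolute factorization over finite fields, with a clock -/
def SpecSmC : Prop := ∃ (w : Pr [] (.prod (.prod Po Un) (.prod Ma Po))
    (.list (.prod Po (.prod ML Un)))) (C k : ℕ),
  ∀ (F : Type) [Field F] [Fintype F] [DecidableEq F] (q p m d : ℕ) (H : List (List F)),
  p.Prime → Fintype.card F = q → q = p ^ m → IsHom d H → 1 ≤ d → TopNe d H → p < d ^ 2 →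
  (∀ ω : List F, w.cost () () ((bits F q, un m), (H, ω)) ≤
    C * ((lgc q * lgc d) ^ k * (d + 1) ^ 3)) ∧
  ∀ N, C * lgc d ^ k * (d + 1) ^ 2 ≤ N →
    2 * q ^ N ≤ 3 * Nat.card {ω : Fin N → F // FacAbs (AlgebraicClosure F) H
      (w.val () ((bits F q, un m), (H, List.ofFn ω)))}

/-- absolute factorization over small finite fields: final statement -/
def FinalSmall : Prop :=
  ∃ (main : Pr [] (.prod (.prod (.list .fld) (.list .unit)) (.prod (.list (.list .fld))
      (.list .fld)))
      (.list (.prod (.list .fld) (.prod (.list (.list (.list .fld))) (.list .unit)))))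
    (C c : ℕ),
  ∀ (K : Type) [Field K] [Fintype K] [DecidableEq K] (p m d : ℕ)
    (f : MvPolynomial (Fin 2) K), p.Prime → Fintype.card K = p ^ m → 1 ≤ d →
    f.totalDegree = d → p < d ^ 2 → Fintype.card K < 200 * d ^ 5 →
    (∀ ω : List K, main.cost () () ((binary K (Fintype.card K), List.replicate m ()),
        (coeffRows d f, ω)) ≤ C * d ^ 3 * (Nat.log 2 d + 1) ^ c) ∧
    2 * Fintype.card K ^ (C * d ^ 2 * (Nat.log 2 d + 1) ^ c) ≤
      3 * Nat.card {ω : Fin (C * d ^ 2 * (Nat.log 2 d + 1) ^ c) → K //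
        IsAbsFactorization f (main.val () ((binary K (Fintype.card K), List.replicate m ()),
          (coeffRows d f, List.ofFn ω)))}

end Pool.Agent.H330AB
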