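/- Solution of job 5615 (helper740): stmtTrGen. -/
import Pool.Agent.H330AB.SpecC1
set_option autoImplicit false
noncomputable section
namespace Pool.Agent.H330AB.JL7a
open Polynomial Pool.Agent.H330FB
/- GENERATORS OF THE SUBFIELD with q^r elements of M, |M| = q^(e r), L has q^e elements, gcd (e, r) = 1. (1) trq is fixed by x ↦ x^(q^r) since a^(q^(r e)) = a. (3) x = ∑ c_i θ^i, apply x ↦ x^(q^r) (a ring homomorphism, q is a power of the characteristic): c_i^(q^r) = c_i by independence; also c_i^(q^e) = c_i, so c_i^q = c_i by gcd (e, r) = 1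
(iterates of Frobenius: Function.IsPeriodicPt gcd), and the elements with y^q = y are those of F (q roots of X^q - X). (2) trq is additive; its kernel has at most q^(r(e-1)) elements (roots of a polynomial of that degree), the image lies in K_r = {x : x^(q^r) = x} which has at most q^r elements, so trq is onto K_r and every fibre has q^(r(e-1)) elements. If
θ ∈ K_r and θ^(q^s) ≠ θ for all 1 ≤ s < r, then 1, θ, ..., θ^(r-1) are linearly independent over L: the r elements θ^(q^(e i)), i < r, are distinct (gcd (e, r) = 1) and are roots of every polynomial over L with root θ. The θ ∈ K_r with θ^(q^s) = θ for some 1 ≤ s < r satisfy this for a divisor s ≤ r/2 of r (gcd): at most sum_{s=1}^{r/2} q^s ≤ q^r / 2 of them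
(for r = 1 there are none; r = 2, 3 separately; q ≥ 2). -/
theorem tg_pow {K : Type} [Field K] (p k n : ℕ) [Fact p.Prime] [CharP K p] :
    ∃ φ : K →+* K, ∀ x, φ x = x ^ ((p ^ k) ^ n) := by
  refine ⟨iterateFrobenius K p (k * n), fun x => ?_⟩
  rw [iterateFrobenius_def, pow_mul]

/-- the map `x ↦ x ^ (q ^ n)` as a ring homomorphism, in all the fields -/
theorem tg_frob {F L : Type} [Field F] [Fintype F] [Field L] [Algebra F L] {q : ℕ}
    (hq : Fintype.card F = q) (n : ℕ) : ∃ φ : L →+* L, ∀ x, φ x = x ^ (q ^ n) := by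
  obtain ⟨p, hp⟩ := CharP.exists F
  obtain ⟨k, hpp, hk⟩ := FiniteField.card F p
  have : Fact p.Prime := ⟨hpp⟩
  have : CharP L p := charP_of_injective_algebraMap (algebraMap F L).injective p
  rw [hk] at hq
  subst hq
  exact tg_pow p k n

theorem tg_iter {K : Type} [Monoid K] (q n : ℕ) (x : K) :
    (fun y : K => y ^ q)^[n] x = x ^ (q ^ n) := by
  induction n with
  | zero => simp
  | succ n ih =>
    rw [Function.iterate_succ_apply', ih, ← pow_mul, ← pow_succ]

theorem tg_gcd {K : Type} [Monoid K] {q m n : ℕ} {x : K} (h1 : x ^ (q ^ m) = x)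
    (h2 : x ^ (q ^ n) = x) : x ^ (q ^ (Nat.gcd m n)) = x := by
  have e1 : Function.IsPeriodicPt (fun y : K => y ^ q) m x := by
    rw [Function.IsPeriodicPt, Function.IsFixedPt, tg_iter]
    exact h1
  have e2 : Function.IsPeriodicPt (fun y : K => y ^ q) n x := by
    rw [Function.IsPeriodicPt, Function.IsFixedPt, tg_iter]
    exact h2
  have e3 := e1.gcd e2
  rw [Function.IsPeriodicPt, Function.IsFixedPt, tg_iter] at e3
  exact e3

theorem tg_fix_card {K : Type} [Field K] [Fintype K] [DecidableEq K] {N : ℕ} (hN : 1 < N) :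
    (Finset.univ.filter (fun x : K => x ^ N = x)).card ≤ N := by
  have h0 : (X ^ N - X : K[X]) ≠ 0 := FiniteField.X_pow_card_sub_X_ne_zero K hN
  have h1 : (X ^ N - X : K[X]).natDegree = N := FiniteField.X_pow_card_sub_X_natDegree_eq K hN
  calc (Finset.univ.filter (fun x : K => x ^ N = x)).card
      ≤ (X ^ N - X : K[X]).roots.toFinset.card := by
        apply Finset.card_le_card
        intro x hx
        rw [Finset.mem_filter] at hx
        rw [Multiset.mem_toFinset, Polynomial.mem_roots h0]
        simp [hx.2]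
    _ ≤ Multiset.card (X ^ N - X : K[X]).roots := Multiset.toFinset_card_le _
    _ ≤ (X ^ N - X : K[X]).natDegree := Polynomial.card_roots' _
    _ = N := h1

theorem tg_mem {F L : Type} [Field F] [Fintype F] [Field L] [Fintype L] [Algebra F L] {q : ℕ}
    (hq : Fintype.card F = q) {x : L} (hx : x ^ q = x) : ∃ y : F, x = algebraMap F L y := by
  classical
  have hq1 : 1 < q := hq ▸ Fintype.one_lt_card
  have h1 := tg_fix_card (K := L) hq1
  have h2 : (Finset.univ.image (algebraMap F L)) ⊆
      Finset.univ.filter (fun x : L => x ^ q = x) := by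
    intro z hz
    rw [Finset.mem_image] at hz
    obtain ⟨y, _, rfl⟩ := hz
    rw [Finset.mem_filter]
    refine ⟨Finset.mem_univ _, ?_⟩
    rw [← map_pow, ← hq, FiniteField.pow_card]
  have h3 : (Finset.univ.image (algebraMap F L)).card = q := by
    rw [Finset.card_image_of_injective _ (algebraMap F L).injective, Finset.card_univ, hq]
  have h4 := Finset.eq_of_subset_of_card_le h2 (by rw [h3]; exact h1)
  have h5 : x ∈ Finset.univ.filter (fun x : L => x ^ q = x) := by
    rw [Finset.mem_filter]
    exact ⟨Finset.mem_univ _, hx⟩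
  rw [← h4, Finset.mem_image] at h5
  obtain ⟨y, _, hy⟩ := h5
  exact ⟨y, hy.symm⟩

theorem tg_sum {q m : ℕ} (hq : 2 ≤ q) (hm : 1 ≤ m) :
    2 * ∑ g ∈ Finset.Icc 1 m, q ^ g ≤ q ^ (2 * m) := by
  induction m, hm using Nat.le_induction with
  | base =>
    simp only [Finset.Icc_self, Finset.sum_singleton, pow_one, mul_one]
    nlinarith
  | succ m hm ih =>
    rw [Finset.sum_Icc_succ_top (by omega), mul_add]
    have h1 : q ^ (m + 1) ≤ q ^ (2 * m) := Nat.pow_le_pow_right (by omega) (by omega)
    have h2 : q ^ (2 * (m + 1)) = q ^ (2 * m) * q ^ 2 := by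
      rw [← pow_add]
      ring_nf
    rw [h2]
    have h3 : 4 ≤ q ^ 2 := by nlinarith
    have h4 : q ^ (2 * m) * 4 ≤ q ^ (2 * m) * q ^ 2 := Nat.mul_le_mul_left _ h3
    generalize q ^ (2 * m) * q ^ 2 = A at h4 ⊢
    generalize q ^ (2 * m) = B at h1 h4 ih
    generalize q ^ (m + 1) = C at h1 ⊢
    omega

/-- number of elements with a given trace -/
theorem tg_fib {M : Type} [Field M] [Fintype M] [DecidableEq M] {q e r : ℕ} (hq : 2 ≤ q)
    (he : 1 ≤ e) (hr : 1 ≤ r) (θ : M) :
    (Finset.univ.filter (fun a : M => trq q e r a = θ)).card ≤ q ^ (r * (e - 1)) := by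
  set P : M[X] := (∑ i ∈ Finset.range e, X ^ (q ^ (r * i))) - C θ with hP
  have hc : P.coeff 1 = 1 := by
    rw [hP, Polynomial.coeff_sub, Polynomial.coeff_C, Polynomial.finsetSum_coeff]
    rw [Finset.sum_eq_single 0]
    · simp
    · intro i _ hi
      rw [Polynomial.coeff_X_pow, if_neg]
      intro h
      have : 1 < q ^ (r * i) := Nat.one_lt_pow (by
        have := Nat.mul_pos (show 0 < r by omega) (Nat.pos_of_ne_zero hi)
        omega) (by omega)
      omega
    · intro h
      exact absurd (Finset.mem_range.2 (by omega)) h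
  have h0 : P ≠ 0 := by
    intro h
    rw [h] at hc
    simp at hc
  have hd : P.natDegree ≤ q ^ (r * (e - 1)) := by
    rw [hP]
    refine (Polynomial.natDegree_sub_le _ _).trans (max_le ?_ ?_)
    · refine Polynomial.natDegree_sum_le_of_forall_le _ _ ?_
      intro i hi
      rw [Finset.mem_range] at hi
      rw [Polynomial.natDegree_X_pow]
      exact Nat.pow_le_pow_right (by omega) (Nat.mul_le_mul_left _ (by omega))
    · rw [Polynomial.natDegree_C]
      exact Nat.zero_le _
  calc (Finset.univ.filter (fun a : M => trq q e r a = θ)).card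
      ≤ P.roots.toFinset.card := by
        apply Finset.card_le_card
        intro x hx
        rw [Finset.mem_filter] at hx
        rw [Multiset.mem_toFinset, Polynomial.mem_roots h0, Polynomial.IsRoot.def, hP,
          Polynomial.eval_sub, Polynomial.eval_finsetSum, Polynomial.eval_C]
        have := hx.2
        unfold trq at this
        simp only [Polynomial.eval_pow, Polynomial.eval_X]
        rw [this, sub_self]
    _ ≤ Multiset.card P.roots := Multiset.toFinset_card_le _
    _ ≤ P.natDegree := Polynomial.card_roots' _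
    _ ≤ q ^ (r * (e - 1)) := hd

/-- elements of full degree generate -/
theorem tg_li {F L M : Type} [Field F] [Fintype F] [Field L] [Fintype L] [Field M] [Fintype M]
    [Algebra F L] [Algebra L M] {q e r : ℕ} (hq : Fintype.card F = q)
    (hL : Fintype.card L = q ^ e) (hco : Nat.Coprime e r) {θ : M} (h1 : θ ^ (q ^ r) = θ)
    (h2 : ∀ s, 1 ≤ s → s < r → θ ^ (q ^ s) ≠ θ) :
    LinearIndependent L (fun i : Fin r => θ ^ (i : ℕ)) := by
  letI : Algebra F M := ((algebraMap L M).comp (algebraMap F L)).toAlgebra
  have hfr : ∀ n, ∃ φ : M →+* M, ∀ x, φ x = x ^ (q ^ n) := fun n => tg_frob hq n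
  rw [Fintype.linearIndependent_iff]
  intro c hc
  have hcL : ∀ n (y : L), y ^ (q ^ (e * n)) = y := by
    intro n y
    rw [pow_mul, ← hL]
    exact FiniteField.pow_card_pow n y
  have hinj : Function.Injective (fun i : Fin r => θ ^ (q ^ (e * (i : ℕ)))) := by
    have key : ∀ i j : ℕ, i < j → j < r → θ ^ (q ^ (e * i)) ≠ θ ^ (q ^ (e * j)) := by
      intro i j hij hjr heq
      obtain ⟨φ, hφ⟩ := hfr (e * i)
      have h3 : θ ^ (q ^ (e * (j - i))) = θ := by
        apply φ.injective
        rw [hφ, hφ, ← pow_mul, ← pow_add, ← mul_add]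
        rw [Nat.sub_add_cancel hij.le]
        exact heq.symm
      have h4 := tg_gcd h3 h1
      have h5 : Nat.gcd (e * (j - i)) r = Nat.gcd (j - i) r := Nat.Coprime.gcd_mul_left_cancel _ hco
      rw [h5] at h4
      refine h2 _ (Nat.gcd_pos_of_pos_left _ (by omega)) ?_ h4
      have := Nat.gcd_le_left r (show 0 < j - i by omega)
      omega
    intro i j hij
    by_contra hne
    rcases lt_or_gt_of_ne (fun h => hne (Fin.ext h) : (i : ℕ) ≠ j) with h | h
    · exact key _ _ h j.2 hij
    · exact key _ _ h i.2 hij.symm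
  have hv := Matrix.eq_zero_of_forall_index_sum_pow_mul_eq_zero (R := M)
    (f := fun i : Fin r => θ ^ (q ^ (e * (i : ℕ)))) (v := fun i => algebraMap L M (c i)) hinj
    (by
      intro j
      obtain ⟨φ, hφ⟩ := hfr (e * (j : ℕ))
      have h6 := congrArg φ hc
      rw [map_zero, map_sum] at h6
      rw [← h6]
      refine Finset.sum_congr rfl fun i _ => ?_
      rw [Algebra.smul_def, map_mul, hφ, hφ, ← map_pow, hcL, mul_comm, ← pow_mul, ← pow_mul,
        mul_comm (q ^ (e * (j : ℕ)))])
  intro i
  have := congrFun hv i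
  exact (algebraMap L M).injective (by rw [map_zero]; exact this)

/-- TARGET -/
theorem stmtTrGen : StmtTrGen := by
  classical
  intro F L M _ _ _ _ _ _ _ _ q e r hq hL hM he hr hco
  letI : Algebra F M := ((algebraMap L M).comp (algebraMap F L)).toAlgebra
  have hfr : ∀ n, ∃ φ : M →+* M, ∀ x, φ x = x ^ (q ^ n) := fun n => tg_frob hq n
  have hq1 : 1 < q := hq ▸ Fintype.one_lt_card
  have hcM : Fintype.card M = q ^ (e * r) := by
    rw [Module.card_eq_pow_finrank (K := L) (V := M), hL, hM, ← pow_mul]
  have hone : ∀ a : M, trq q e r a ^ (q ^ r) = trq q e r a := by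
    intro a
    obtain ⟨φ, hφ⟩ := hfr r
    rw [← hφ]
    unfold trq
    rw [map_sum]
    have h1 : ∀ i, φ (a ^ q ^ (r * i)) = a ^ q ^ (r * (i + 1)) := by
      intro i
      rw [hφ, ← pow_mul, ← pow_add, mul_add, mul_one]
    simp only [h1]
    have h2 := Finset.sum_range_succ' (fun i => a ^ q ^ (r * i)) e
    have h3 := Finset.sum_range_succ (fun i => a ^ q ^ (r * i)) e
    have h4 : a ^ q ^ (r * e) = a ^ q ^ (r * 0) := by
      rw [mul_comm r e, ← hcM, FiniteField.pow_card]
      simp
    rw [h3] at h2
    simp only [h4] at h2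
    exact (add_right_cancel h2).symm
  refine ⟨hone, ?_, ?_⟩
  · set B : Finset M := Finset.univ.filter
      (fun θ : M => θ ^ (q ^ r) = θ ∧ ∃ s, 1 ≤ s ∧ s < r ∧ θ ^ (q ^ s) = θ) with hB
    have hBc : 2 * B.card ≤ q ^ r := by
      by_cases hr2 : r = 1
      · have : B = ∅ := by
          rw [hB, Finset.filter_eq_empty_iff]
          rintro θ _ ⟨_, s, h1, h2, _⟩
          omega
        rw [this]
        simp
      · have hm : 1 ≤ r / 2 := by omega
        have h1 : B ⊆ (Finset.Icc 1 (r / 2)).biUnion
            (fun g => Finset.univ.filter (fun x : M => x ^ (q ^ g) = x)) := by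
          intro θ hθ
          rw [hB, Finset.mem_filter] at hθ
          obtain ⟨_, h1, s, hs1, hs2, hs3⟩ := hθ
          rw [Finset.mem_biUnion]
          refine ⟨Nat.gcd s r, ?_, ?_⟩
          · rw [Finset.mem_Icc]
            have hg1 : 0 < Nat.gcd s r := Nat.gcd_pos_of_pos_left _ (by omega)
            have hg2 : Nat.gcd s r ≤ s := Nat.gcd_le_left _ (by omega)
            refine ⟨hg1, ?_⟩
            obtain ⟨c, hc⟩ := Nat.gcd_dvd_right s r
            have hc2 : 2 ≤ c := by
              by_contra hcc
              have : c = 0 ∨ c = 1 := by omega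
              rcases this with h | h
              · rw [h, mul_zero] at hc
                omega
              · rw [h, mul_one] at hc
                omega
            rw [Nat.le_div_iff_mul_le (by norm_num)]
            calc Nat.gcd s r * 2 ≤ Nat.gcd s r * c := Nat.mul_le_mul_left _ hc2
              _ = r := hc.symm
          · rw [Finset.mem_filter]
            exact ⟨Finset.mem_univ _, tg_gcd hs3 h1⟩
        have h2 : B.card ≤ ∑ g ∈ Finset.Icc 1 (r / 2), q ^ g := by
          refine (Finset.card_le_card h1).trans (Finset.card_biUnion_le.trans ?_)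
          refine Finset.sum_le_sum fun g hg => ?_
          rw [Finset.mem_Icc] at hg
          exact tg_fix_card (Nat.one_lt_pow (by omega) hq1)
        calc 2 * B.card ≤ 2 * ∑ g ∈ Finset.Icc 1 (r / 2), q ^ g := Nat.mul_le_mul_left _ h2
          _ ≤ q ^ (2 * (r / 2)) := tg_sum hq1 hm
          _ ≤ q ^ r := Nat.pow_le_pow_right (by omega) (by omega)
    have hcard : Nat.card {a : M // ¬ LinearIndependent L
        (fun i : Fin r => trq q e r a ^ (i : ℕ))} ≤ B.card * q ^ (r * (e - 1)) := by
      rw [Nat.card_eq_fintype_card, Fintype.card_subtype]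
      have hsub : Finset.univ.filter (fun a : M => ¬ LinearIndependent L
          (fun i : Fin r => trq q e r a ^ (i : ℕ))) ⊆
          B.biUnion (fun θ => Finset.univ.filter (fun a : M => trq q e r a = θ)) := by
        intro a ha
        rw [Finset.mem_filter] at ha
        rw [Finset.mem_biUnion]
        refine ⟨trq q e r a, ?_, ?_⟩
        · rw [hB, Finset.mem_filter]
          refine ⟨Finset.mem_univ _, hone a, ?_⟩
          by_contra hno
          push Not at hno
          exact ha.2 (tg_li hq hL hco (hone a) hno)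
        · rw [Finset.mem_filter]
          exact ⟨Finset.mem_univ _, rfl⟩
      refine (Finset.card_le_card hsub).trans (Finset.card_biUnion_le.trans ?_)
      refine (Finset.sum_le_card_nsmul _ _ (q ^ (r * (e - 1))) fun θ _ => ?_).trans ?_
      · exact tg_fib hq1 he hr θ
      · rw [smul_eq_mul]
    calc 2 * Nat.card {a : M // ¬ LinearIndependent L (fun i : Fin r => trq q e r a ^ (i : ℕ))}
        ≤ 2 * (B.card * q ^ (r * (e - 1))) := Nat.mul_le_mul_left _ hcard
      _ = (2 * B.card) * q ^ (r * (e - 1)) := by ring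
      _ ≤ q ^ r * q ^ (r * (e - 1)) := Nat.mul_le_mul_right _ hBc
      _ = Fintype.card M := by
        rw [hcM, ← pow_add]
        congr 1
        obtain ⟨e', rfl⟩ : ∃ e', e = e' + 1 := ⟨e - 1, by omega⟩
        simp only [Nat.add_sub_cancel]
        ring
  · intro θ x hθ hx hli c hxc i
    obtain ⟨φ, hφ⟩ := hfr r
    have h1 : ∑ i, (c i ^ (q ^ r) - c i) • θ ^ (i : ℕ) = 0 := by
      simp only [sub_smul, Finset.sum_sub_distrib]
      have h2 : ∑ i, c i • θ ^ (i : ℕ) = x := by
        rw [hxc]
        exact Finset.sum_congr rfl fun i _ => Algebra.smul_def _ _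
      have h3 : ∑ i, (c i ^ (q ^ r)) • θ ^ (i : ℕ) = x := by
        have h4 := congrArg φ h2
        rw [map_sum, hφ, hx] at h4
        rw [← h4]
        refine Finset.sum_congr rfl fun i _ => ?_
        rw [Algebra.smul_def, Algebra.smul_def, map_mul, hφ, hφ, map_pow, ← pow_mul,
          mul_comm (i : ℕ), pow_mul, hθ]
      rw [h2, h3, sub_self]
    have h5 := (Fintype.linearIndependent_iff.1 hli) _ h1 i
    have h6 : c i ^ (q ^ r) = c i := sub_eq_zero.1 h5
    have h7 : c i ^ (q ^ e) = c i := by
      rw [← hL, FiniteField.pow_card]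
    have h8 := tg_gcd h7 h6
    rw [Nat.Coprime.gcd_eq_one hco, pow_one] at h8
    exact tg_mem hq h8

end Pool.Agent.H330AB.JL7a
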