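-- specDP proved, statement unchanged, auxiliary lemmas in namespace L7b, compiles in 10 s with default heartbeats
import Pool.Agent.H330AB.SpecC1
set_option autoImplicit false
noncomputable section
namespace Pool.Agent.H330AB.JL7b
open Polynomial Pool.Agent.H330FB

namespace L7b

/-! ### values of lists -/
section vals
variable {F k : Type} [Field F] [Field k] [Algebra F k]

/-- value of a list at a point -/
noncomputable def E (x : k) (l : List F) : k := aeval x (pol l)

@[simp] theorem E_nil (x : k) : E x ([] : List F) = 0 := by simp [E, pol]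
@[simp] theorem E_cons (x : k) (a : F) (l : List F) :
    E x (a :: l) = algebraMap F k a + x * E x l := by simp [E, pol]

theorem E_add (x : k) : ∀ a b : List F, a.length = b.length →
    E x (List.zipWith (fun y z => y + z) a b) = E x a + E x b
  | [], [], _ => by simp
  | a :: l, b :: m, h => by
    simp only [List.zipWith_cons_cons, E_cons, E_add x l m (by simpa using h), map_add]
    ring

theorem E_neg (x : k) (a : List F) : E x (List.map (fun y => -y) a) = -E x a := by
  induction a with
  | nil => simp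
  | cons h t ih => simp only [List.map_cons, E_cons, ih, map_neg]; ring

theorem E_fit_nil (x : k) (n : ℕ) : E x (fit n (0 : F) []) = 0 := by
  induction n with
  | zero => simp [fit]
  | succ n ih => simp [fit, ih]

theorem E_fit (x : k) (n : ℕ) (a : F) (hn : 1 ≤ n) : E x (fit n (0 : F) [a]) = algebraMap F k a := by
  obtain ⟨n, rfl⟩ : ∃ m, n = m + 1 := ⟨n - 1, by omega⟩
  simp [fit, E_fit_nil]

theorem E_of_dvd (x : k) (G a b c : List F) (h : mpol G ∣ pol a * pol b - pol c)
    (hx : aeval x (mpol G) = 0) : E x c = E x a * E x b := by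
  obtain ⟨q, hq⟩ := h
  have := congrArg (aeval x) hq
  simp only [map_sub, map_mul, hx, zero_mul] at this
  unfold E
  exact (sub_eq_zero.mp this).symm

theorem E_of_dvd_pow (x : k) (G a c : List F) (n : ℕ) (h : mpol G ∣ pol a ^ n - pol c)
    (hx : aeval x (mpol G) = 0) : E x c = E x a ^ n := by
  obtain ⟨q, hq⟩ := h
  have := congrArg (aeval x) hq
  simp only [map_sub, map_mul, map_pow, hx, zero_mul] at this
  unfold E
  exact (sub_eq_zero.mp this).symm

theorem E_sum (x : k) (l : List F) (n : ℕ) (hl : l.length ≤ n) :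
    E x l = ∑ i ∈ Finset.range n, algebraMap F k (l.getD i 0) * x ^ i := by
  induction l generalizing n with
  | nil => simp
  | cons a l ih =>
    obtain ⟨n, rfl⟩ : ∃ m, n = m + 1 := ⟨n - 1, by simp at hl; omega⟩
    rw [E_cons, ih n (by simpa using hl), Finset.sum_range_succ', Finset.mul_sum, add_comm]
    simp only [List.getD_cons_zero, pow_zero, mul_one, List.getD_cons_succ]
    congr 1
    refine Finset.sum_congr rfl fun i _ => ?_
    ring

theorem pol_deg {R : Type} [CommRing R] (l : List R) :
    (pol l).degree < ((l.length : ℕ) : WithBot ℕ) := by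
  induction l with
  | nil => simp [pol]
  | cons a l ih =>
    rw [pol, List.length_cons]
    refine lt_of_le_of_lt (degree_add_le _ _) (max_lt ?_ ?_)
    · exact lt_of_le_of_lt degree_C_le (by exact_mod_cast Nat.succ_pos _)
    · rw [degree_lt_iff_coeff_zero] at ih ⊢
      intro m hm
      obtain ⟨m, rfl⟩ : ∃ t, m = t + 1 := ⟨m - 1, by omega⟩
      rw [coeff_X_mul]
      exact ih m (by omega)

theorem pol_eq_zero {R : Type} [CommRing R] (l : List R) (h : pol l = 0) : ∀ x ∈ l, x = 0 := by
  induction l with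
  | nil => simp
  | cons a l ih =>
    rw [pol] at h
    have h0 : a = 0 := by
      have := congrArg (fun p => coeff p 0) h
      simpa using this
    have h1 : pol l = 0 := by
      ext m
      have := congrArg (fun p => coeff p (m + 1)) h
      simpa [coeff_C] using this
    intro x hx
    rcases List.mem_cons.mp hx with rfl | hx
    · exact h0
    · exact ih h1 x hx

theorem mpol_monic {R : Type} [CommRing R] [Nontrivial R] (l : List R) :
    (mpol l).Monic ∧ (mpol l).natDegree = l.length := by
  have h := pol_deg l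
  have h1 : (mpol l).Monic := monic_X_pow_add h
  refine ⟨h1, ?_⟩
  have h2 : (mpol l).degree = ((l.length : ℕ) : WithBot ℕ) := by
    rw [mpol, degree_add_eq_left_of_degree_lt (by rw [degree_X_pow]; exact h), degree_X_pow]
  exact natDegree_eq_of_degree_eq_some h2

theorem not_dvd_pol (Q v : List F) (hv : v.length = Q.length) (h0 : pol v ≠ 0) :
    ¬ mpol Q ∣ pol v := by
  intro h
  have h1 := pol_deg v
  have h2 := mpol_monic Q
  refine h0 (eq_zero_of_dvd_of_degree_lt h ?_)
  rw [degree_eq_natDegree h2.1.ne_zero, h2.2, ← hv]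
  exact h1

theorem coprime_pol (Q v : List F) (hQ : Irreducible (mpol Q)) (hv : v.length = Q.length)
    (h0 : pol v ≠ 0) : IsCoprime (pol v) (mpol Q) :=
  ((Irreducible.coprime_iff_not_dvd hQ).mpr (not_dvd_pol Q v hv h0)).symm

theorem E_ne (x : k) (Q v : List F) (hQ : Irreducible (mpol Q)) (hx : aeval x (mpol Q) = 0)
    (hv : v.length = Q.length) (h0 : pol v ≠ 0) : E x v ≠ 0 := by
  intro h
  obtain ⟨a, b, hab⟩ := coprime_pol Q v hQ hv h0
  have := congrArg (aeval x) hab
  simp only [map_add, map_mul, hx, mul_zero, add_zero, map_one] at this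
  unfold E at h
  rw [h, mul_zero] at this
  exact zero_ne_one this

/-- value of a combination -/
theorem E_lin (x : k) (N : ℕ) {n : ℕ} (v : List F) (w : Fin n → List F) (c : Fin n → F)
    (hv : v.length ≤ N) (hw : ∀ i, (w i).length ≤ N)
    (h : cvec v = ∑ i : Fin n, c i • cvec (w i)) :
    E x v = ∑ i : Fin n, algebraMap F k (c i) * E x (w i) := by
  rw [E_sum x v N hv]
  have h2 : ∀ m, algebraMap F k (v.getD m 0) =
      ∑ i : Fin n, algebraMap F k (c i) * algebraMap F k ((w i).getD m 0) := by
    intro m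
    have := congrArg (fun f : ℕ → F => algebraMap F k (f m)) h
    simpa [cvec, Finset.sum_apply] using this
  simp only [h2]
  simp only [Finset.sum_mul]
  rw [Finset.sum_comm]
  refine Finset.sum_congr rfl fun i _ => ?_
  rw [E_sum x (w i) N (hw i), Finset.mul_sum]
  refine Finset.sum_congr rfl fun m _ => ?_
  ring

/-- independence of columns and of values -/
theorem li_iff (x : k) (Q : List F) (hQ : Irreducible (mpol Q)) (hx : aeval x (mpol Q) = 0)
    {n : ℕ} (w : Fin n → List F) (hw : ∀ i, (w i).length = Q.length) :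
    LinearIndependent F (fun i : Fin n => cvec (w i)) ↔
      LinearIndependent F (fun i : Fin n => E x (w i)) := by
  have key : ∀ c : Fin n → F, (∑ i, c i • cvec (w i) = 0 ↔ ∑ i, c i • E x (w i) = 0) := by
    intro c
    obtain ⟨v, hv⟩ : ∃ v : List F, v = List.ofFn (fun m : Fin Q.length =>
      ∑ i, c i * (w i).getD m 0) := ⟨_, rfl⟩
    have hl : v.length = Q.length := by simp [hv]
    have h1 : cvec v = ∑ i, c i • cvec (w i) := by
      funext m
      simp only [cvec, Finset.sum_apply, Pi.smul_apply, smul_eq_mul]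
      by_cases hm : m < Q.length
      · rw [List.getD_eq_getElem _ _ (by omega)]
        simp [hv]
      · rw [List.getD_eq_default _ _ (by omega)]
        symm
        refine Finset.sum_eq_zero fun i _ => ?_
        rw [List.getD_eq_default _ _ (by rw [hw i]; omega), mul_zero]
    have h2 := E_lin x Q.length v w c hl.le (fun i => (hw i).le) h1
    have h3 : ∑ i, c i • E x (w i) = E x v := by
      rw [h2]
      refine Finset.sum_congr rfl fun i _ => ?_
      rw [Algebra.smul_def]
    rw [← h1, h3]
    constructor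
    · intro h
      rw [E_sum x v Q.length hl.le]
      refine Finset.sum_eq_zero fun i _ => ?_
      have : v.getD i 0 = 0 := congrFun h i
      rw [this, map_zero, zero_mul]
    · intro h
      by_contra hne
      refine E_ne x Q v hQ hx hl ?_ h
      intro h0
      apply hne
      funext m
      simp only [cvec, Pi.zero_apply]
      by_cases hm : m < v.length
      · rw [List.getD_eq_getElem _ _ hm]
        exact pol_eq_zero v h0 _ (List.getElem_mem _)
      · rw [List.getD_eq_default _ _ (by omega)]
  rw [Fintype.linearIndependent_iff, Fintype.linearIndependent_iff]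
  constructor
  · intro h g hg
    exact h g ((key g).mpr hg)
  · intro h g hg
    exact h g ((key g).mp hg)

/-- independent columns are a basis -/
theorem spans (N : ℕ) (cols : List (List F)) (v : List F) (hv : v.length = N)
    (hcols : ∀ w ∈ cols, w.length = N) (hn : cols.length = N)
    (h1 : LinearIndependent F (fun i : Fin N => cvec (cols.getD i []))) :
    cvec v ∈ Submodule.span F (Set.range (fun i : Fin N => cvec (cols.getD i []))) := by
  let e : (Fin N → F) →ₗ[F] (ℕ → F) :=
    { toFun := fun w m => if hm : m < N then w ⟨m, hm⟩ else 0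
      map_add' := by
        intro a b; funext m
        by_cases hm : m < N <;> simp [hm]
      map_smul' := by
        intro a b; funext m
        by_cases hm : m < N <;> simp [hm] }
  have he : ∀ l : List F, l.length = N → e (fun i => l.getD i 0) = cvec l := by
    intro l hl
    funext m
    by_cases hm : m < N
    · simp [e, cvec, hm]
    · simp only [e, cvec, LinearMap.coe_mk, AddHom.coe_mk, hm, dite_false]
      rw [List.getD_eq_default _ _ (by omega)]
  have hw : ∀ i : Fin N, (cols.getD i []).length = N := by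
    intro i
    rw [List.getD_eq_getElem _ _ (by omega)]
    exact hcols _ (List.getElem_mem _)
  have h3 : LinearIndependent F (fun i : Fin N => (fun m : Fin N => (cols.getD i []).getD m 0)) := by
    apply LinearIndependent.of_comp e
    convert h1 using 1
    funext i
    exact he _ (hw i)
  have h4 := h3.span_eq_top_of_card_eq_finrank' (by simp)
  have h5 : (fun m : Fin N => v.getD m 0) ∈ Submodule.span F
      (Set.range (fun i : Fin N => (fun m : Fin N => (cols.getD i []).getD m 0))) := by
    rw [h4]; trivial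
  have h6 := Submodule.mem_map_of_mem (f := e) h5
  rw [Submodule.map_span, he v hv, ← Set.range_comp] at h6
  convert h6 using 3
  funext i
  exact (he _ (hw i)).symm

/-- elimination decides independence -/
theorem ker_iff {α : Type} (cs : List (α × List F)) (P : List α) (Fr : List (α × List F))
    (h : KerSpec cs P Fr) :
    Fr = [] ↔ LinearIndependent F (fun k : Fin cs.length => cvec (cs.get k).2) := by
  obtain ⟨P', Fr', hP, hFr, hperm, -, hli, hcomb, -⟩ := h
  have hlen : P'.length + Fr'.length = cs.length := by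
    have := hperm.length_eq
    simpa using this
  have hFr0 : Fr = [] ↔ Fr'.length = 0 := by
    rw [hFr, List.map_eq_nil_iff, List.length_eq_zero_iff]
  have hspan : Submodule.span F (Set.range (fun k : Fin cs.length => cvec (cs.get k).2)) =
      Submodule.span F (Set.range (fun k : Fin P'.length => cvec (P'.get k).2)) := by
    apply le_antisymm
    · rw [Submodule.span_le]
      rintro _ ⟨k, rfl⟩
      have hm : cs.get k ∈ P' ++ Fr'.map Prod.fst := hperm.mem_iff.mpr (List.get_mem cs k)
      rcases List.mem_append.mp hm with hm | hm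
      · obtain ⟨i, hi⟩ := List.mem_iff_get.mp hm
        refine Submodule.subset_span ⟨i, ?_⟩
        simp only [hi]
      · obtain ⟨x, hx, hx2⟩ := List.mem_map.mp hm
        have := (hcomb x hx).2
        simp only [← hx2, SetLike.mem_coe]
        rw [this]
        refine Submodule.sum_mem _ fun i _ => Submodule.smul_mem _ _ ?_
        exact Submodule.subset_span ⟨i, rfl⟩
    · rw [Submodule.span_le]
      rintro _ ⟨k, rfl⟩
      have hm : P'.get k ∈ cs := hperm.mem_iff.mp (List.mem_append_left _ (List.get_mem P' k))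
      obtain ⟨i, hi⟩ := List.mem_iff_get.mp hm
      refine Submodule.subset_span ⟨i, ?_⟩
      simp only [hi]
  have hrank : (Set.range (fun k : Fin cs.length => cvec (cs.get k).2)).finrank F = P'.length := by
    rw [Set.finrank, hspan, finrank_span_eq_card hli, Fintype.card_fin]
  rw [linearIndependent_iff_card_eq_finrank_span, hrank, Fintype.card_fin, hFr0]
  omega

end vals

/-! ### positions in ragged arrays -/
section pos
variable {α : Type}

theorem pos_ex (z : α) (sh : List ℕ) : ∀ κ i : ℕ, ∃ p : ℕ, ∀ X : List (List α),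
    X.map List.length = sh → (X.getD κ []).getD i z = X.flatten.getD p z := by
  induction sh with
  | nil =>
    intro κ i
    refine ⟨0, fun X hX => ?_⟩
    rw [List.map_eq_nil_iff] at hX
    subst hX
    simp
  | cons n sh ih =>
    intro κ i
    cases κ with
    | zero =>
      by_cases hi : i < n
      · refine ⟨i, fun X hX => ?_⟩
        cases X with
        | nil => simp at hX
        | cons x X =>
          simp only [List.map_cons, List.cons.injEq] at hX
          rw [List.flatten_cons, List.getD_append _ _ _ _ (by omega)]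
          rfl
      · refine ⟨n + sh.sum, fun X hX => ?_⟩
        cases X with
        | nil => simp at hX
        | cons x X =>
          simp only [List.map_cons, List.cons.injEq] at hX
          rw [List.getD_eq_default, List.getD_eq_default]
          · rw [List.length_flatten, List.map_cons, hX.1, hX.2, List.sum_cons]
          · simp only [List.getD_cons_zero]; omega
    | succ κ =>
      obtain ⟨p, hp⟩ := ih κ i
      refine ⟨n + p, fun X hX => ?_⟩
      cases X with
      | nil => simp at hX
      | cons x X =>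
        simp only [List.map_cons, List.cons.injEq] at hX
        rw [List.flatten_cons, List.getD_append_right _ _ _ _ (by omega), List.getD_cons_succ,
          hp X hX.2, hX.1, Nat.add_sub_cancel_left]

theorem pos_ex' (z : α) (sh : List ℕ) : ∀ p : ℕ, ∃ κ i : ℕ, ∀ X : List (List α),
    X.map List.length = sh → X.flatten.getD p z = (X.getD κ []).getD i z := by
  induction sh with
  | nil =>
    intro p
    refine ⟨0, 0, fun X hX => ?_⟩
    rw [List.map_eq_nil_iff] at hX
    subst hX
    simp
  | cons n sh ih =>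
    intro p
    by_cases hp : p < n
    · refine ⟨0, p, fun X hX => ?_⟩
      cases X with
      | nil => simp at hX
      | cons x X =>
        simp only [List.map_cons, List.cons.injEq] at hX
        rw [List.flatten_cons, List.getD_append _ _ _ _ (by omega)]
        rfl
    · obtain ⟨κ, i, h⟩ := ih (p - n)
      refine ⟨κ + 1, i, fun X hX => ?_⟩
      cases X with
      | nil => simp at hX
      | cons x X =>
        simp only [List.map_cons, List.cons.injEq] at hX
        rw [List.flatten_cons, List.getD_append_right _ _ _ _ (by omega), List.getD_cons_succ,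
          ← h X hX.2, hX.1]

/-- cutting a list into the shape of an array -/
def resh {β : Type} : List (List β) → List α → List (List α)
  | [], _ => []
  | r :: sh, l => l.take r.length :: resh sh (l.drop r.length)

theorem resh_spec {β : Type} (sh : List (List β)) : ∀ l : List α, l.length = (sh.map List.length).sum →
    (resh sh l).map List.length = sh.map List.length ∧ (resh sh l).flatten = l := by
  induction sh with
  | nil =>
    intro l hl
    simp at hl
    subst hl
    simp [resh]
  | cons r sh ih =>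
    intro l hl
    simp only [List.map_cons, List.sum_cons] at hl
    have h1 := ih (l.drop r.length) (by rw [List.length_drop]; omega)
    refine ⟨?_, ?_⟩
    · simp only [resh, List.map_cons, h1.1, List.length_take]
      congr 1
      omega
    · simp only [resh, List.flatten_cons, h1.2, List.take_append_drop]

theorem transp_getD (z : α) (n : ℕ) (A : List (List α)) (h : ∀ r ∈ A, r.length = n)
    (i : ℕ) (hi : i < n) : (transp n A).getD i [] = A.map (fun r => r.getD i z) := by
  induction A with
  | nil => simp [transp, List.getD_eq_getElem?_getD, hi]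
  | cons r A ih =>
    have h1 := ih (fun r hr => h r (by simp [hr]))
    have h2 := h r (by simp)
    have hl := length_transp n A (fun r hr => h r (by simp [hr]))
    have h3 : transp n (r :: A) = List.zipWith (fun x l => x :: l) r (transp n A) := rfl
    rw [h3, List.getD_eq_getElem _ _ (by rw [List.length_zipWith, h2, hl]; omega),
      List.getElem_zipWith, List.map_cons, ← h1, List.getD_eq_getElem _ _ (by rw [h2]; exact hi),
      List.getD_eq_getElem _ _ (by rw [hl]; exact hi)]

theorem transp_mem (n : ℕ) (A : List (List α)) (h : ∀ r ∈ A, r.length = n) :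
    ∀ v ∈ transp n A, v.length = A.length := by
  induction A with
  | nil =>
    intro v hv
    simp only [transp, List.foldr_nil, List.mem_replicate] at hv
    simp [hv.2]
  | cons r A ih =>
    intro v hv
    have h3 : transp n (r :: A) = List.zipWith (fun x l => x :: l) r (transp n A) := rfl
    rw [h3] at hv
    obtain ⟨i, hi, rfl⟩ := List.mem_iff_getElem.mp hv
    rw [List.getElem_zipWith, List.length_cons, List.length_cons,
      ih (fun r hr => h r (by simp [hr])) _ (List.getElem_mem _)]

/-- entries of the transposed matrix -/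
theorem transp_ent (z : α) (n : ℕ) (A : List (List α)) (h : ∀ r ∈ A, r.length = n)
    (p b : ℕ) (hp : p < n) (hb : b < A.length) :
    ((transp n A).getD p []).getD b z = (A.getD b []).getD p z := by
  rw [transp_getD z n A h p hp, List.getD_eq_getElem _ _ (by simpa using hb), List.getElem_map,
    List.getD_eq_getElem _ _ hb]

end pos


/-! ### programs -/
section prog
variable {F : Type} [Field F] [DecidableEq F]
variable {s : List (Ty × Ty)} {a b c : Ty}

/-- iteration, input `(u, (context, start))` -/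
def iterP (f : Pr s (.prod c a) a) : Pr s (.prod (.list b) (.prod c a)) a :=
  .comp (.pair (.comp .snd .fst) (.pair (.comp .snd .snd) .fst))
    (foldP (.comp (.pair .fst (.comp .snd .fst)) f))

@[simp] theorem val_iterP (f : Pr s (.prod c a) a) (v : SV F s)
    (x : Ty.D F (.prod (.list b) (.prod c a))) :
    (iterP f).val v x = (fun y => f.val v (x.2.1, y))^[List.length x.1] x.2.2 := by
  obtain ⟨u, x, y⟩ := x
  simp only [iterP, val_comp, val_pair, val_fst, val_snd, val_foldP]
  induction u generalizing y with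
  | nil => rfl
  | cons h t ih => simp only [List.foldl_cons, List.length_cons, Function.iterate_succ]; exact ih _

theorem cost_iterP_le (f : Pr s (.prod c a) a) (v : SV F s) (k : SC F s)
    (x : Ty.D F (.prod (.list b) (.prod c a))) (B : ℕ) (I : Ty.D F a → Prop) (h0 : I x.2.2)
    (hI : ∀ y, I y → I (f.val v (x.2.1, y))) (hB : ∀ y, I y → f.cost v k (x.2.1, y) ≤ B) :
    (iterP f).cost v k x ≤ (B + 40) * List.length x.1 + 30 := by
  obtain ⟨u, x, y⟩ := x
  have h := cost_foldP_le (s := s) (c := c) (b := a) (a := b)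
    (.comp (.pair .fst (.comp .snd .fst)) f) v k (x, (y, u)) (B + 5) I h0
    (fun y z hy _ => by simpa using hI y hy) (fun y z hy _ => by
      have := hB y hy
      simp at this ⊢; omega)
  simp [iterP] at h ⊢
  nlinarith

/-- sum of rows -/
def addP : Pr s (.prod Po Po) Po :=
  .comp (.pair .star .id) (zipP (c := .unit) (.comp .snd .add))

@[simp] theorem val_addP (v : SV F s) (x : Ty.D F (.prod Po Po)) :
    (addP : Pr s (.prod Po Po) Po).val v x =
      List.zipWith (fun (y z : F) => y + z) (x.1 : List F) (x.2 : List F) := by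
  simp [addP]

theorem cost_addP (v : SV F s) (k : SC F s) (x : Ty.D F (.prod Po Po)) :
    (addP : Pr s (.prod Po Po) Po).cost v k x ≤ 60 * List.length x.1 + 20 := by
  have h := cost_zipP_le (s := s) (c := .unit) (a := .fld) (b := .fld) (d := .fld)
    (.comp .snd .add) v k ((), x) 2 (fun _ _ _ _ => by simp)
  simp [addP] at h ⊢
  omega

/-- negative row -/
def negP : Pr s Po Po := .comp (.pair .star .id) (mapP (c := .unit) (.comp .snd .neg))

@[simp] theorem val_negP (v : SV F s) (x : Ty.D F Po) :
    (negP : Pr s Po Po).val v x = List.map (fun (y : F) => -y) (x : List F) := by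
  simp [negP]

theorem cost_negP (v : SV F s) (k : SC F s) (x : Ty.D F Po) :
    (negP : Pr s Po Po).cost v k x ≤ 20 * List.length x + 20 := by
  have h := cost_mapP_le (s := s) (c := .unit) (a := .fld) (b := .fld)
    (.comp .snd .neg) v k ((), x) 2 (fun _ _ => by simp)
  simp [negP] at h ⊢
  omega

/-- constant as an element modulo `G`, input `(G, a)` -/
def conP : Pr s (.prod Po .fld) Po :=
  .comp (.pair .fst (.pair .zero (.comp (.pair .snd .nil) .cons))) fitP

@[simp] theorem val_conP (v : SV F s) (x : Ty.D F (.prod Po .fld)) :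
    (conP : Pr s (.prod Po .fld) Po).val v x = fit (List.length x.1) (0 : F) [(x.2 : F)] := by
  simp [conP]

theorem cost_conP (v : SV F s) (k : SC F s) (x : Ty.D F (.prod Po .fld)) :
    (conP : Pr s (.prod Po .fld) Po).cost v k x ≤ 20 * List.length x.1 + 20 := by
  have h := cost_fitP (s := s) (a := .fld) (b := .fld) v k (x.1, ((0 : F), [(x.2 : F)]))
  simp [conP] at h ⊢
  omega

/-- the zero row -/
def zeroP : Pr s Po Po := .comp (.pair .id (.pair .zero .nil)) fitP

@[simp] theorem val_zeroP (v : SV F s) (x : Ty.D F Po) :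
    (zeroP : Pr s Po Po).val v x = fit (List.length x) (0 : F) [] := by
  simp [zeroP]

theorem cost_zeroP (v : SV F s) (k : SC F s) (x : Ty.D F Po) :
    (zeroP : Pr s Po Po).cost v k x ≤ 20 * List.length x + 20 := by
  have h := cost_fitP (s := s) (a := .fld) (b := .fld) v k (x, ((0 : F), ([] : List F)))
  simp [zeroP] at h ⊢
  omega

/-- length in unary -/
def lenP : Pr s (.list a) Un := .comp (.pair .star .id) (mapP (c := .unit) .star)

@[simp] theorem val_lenP (v : SV F s) (x : Ty.D F (.list a)) :
    (lenP : Pr s (.list a) Un).val v x = un (List.length x) := by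
  have : ∀ l : List (Ty.D F a), l.map (fun _ => ()) = un l.length := by
    intro l
    simp [un, List.map_const']
  simp only [lenP, val_comp, val_pair, val_star, val_id, val_mapP]
  exact this x

theorem cost_lenP (v : SV F s) (k : SC F s) (x : Ty.D F (.list a)) :
    (lenP : Pr s (.list a) Un).cost v k x ≤ 14 * List.length x + 10 := by
  have h := cost_mapP_le (s := s) (c := .unit) (a := a) (b := .unit)
    .star v k ((), x) 1 (fun _ _ => by simp)
  simp [lenP] at h ⊢
  omega

/-- multiplication by a fixed element; input `((z, G), y)` -/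
def mzP (m : Pr s (.prod (.prod Po Po) Po) Po) : Pr s (.prod (.prod Po Po) Po) Po :=
  .comp (.pair (.pair .snd (.comp .fst .fst)) (.comp .fst .snd)) m

@[simp] theorem val_mzP (m : Pr s (.prod (.prod Po Po) Po) Po) (v : SV F s)
    (x : Ty.D F (.prod (.prod Po Po) Po)) :
    (mzP m).val v x = m.val v ((x.2, x.1.1), x.1.2) := by simp [mzP]

@[simp] theorem cost_mzP (m : Pr s (.prod (.prod Po Po) Po) Po) (v : SV F s) (k : SC F s)
    (x : Ty.D F (.prod (.prod Po Po) Po)) :
    (mzP m).cost v k x = m.cost v k ((x.2, x.1.1), x.1.2) + 7 := by simp [mzP]; omega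

/-- a list of the nonzero entries -/
def nzP : Pr s Po Un :=
  .comp (.comp (.pair .star .id) (mapP (c := .unit) (onZ .snd .nil (.comp (.pair .star .nil) .cons))))
    flatP

/-- its function -/
def nz (l : List F) : List Unit := (l.map (fun y => if y = 0 then [] else [()])).flatten

@[simp] theorem val_nzP (v : SV F s) (x : Ty.D F Po) :
    (nzP : Pr s Po Un).val v x = nz (x : List F) := by
  simp only [nzP, val_comp, val_pair, val_star, val_id, val_mapP, val_onZ, val_snd, val_nil,
    val_cons, val_flatP]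
  rfl

theorem len_nzb (v : SV F s) (y : F) : List.length ((onZ .snd .nil
    (.comp (.pair .star .nil) .cons) : Pr s (.prod .unit .fld) Un).val v
    (((), y) : Ty.D F (.prod .unit .fld))) ≤ 1 := by
  rw [val_onZ]
  by_cases hz : y = 0
  · rw [if_pos (by exact hz)]; exact Nat.zero_le _
  · rw [if_neg (by exact hz)]; exact le_rfl

theorem cost_nzP (v : SV F s) (k : SC F s) (x : Ty.D F Po) :
    (nzP : Pr s Po Un).cost v k x ≤ 120 * List.length x + 60 := by
  have h := cost_mapP_le (s := s) (c := .unit) (a := .fld) (b := .list .unit)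
    (onZ .snd .nil (.comp (.pair .star .nil) .cons)) v k ((), x) 8 (fun y _ => by
      simp only [cost_onZ, cost_snd, cost_nil, cost_comp, cost_pair, cost_star, cost_cons]
      split_ifs <;> omega)
  have h2 := cost_flatP (s := s) (a := .unit) v k
    ((mapP (c := .unit) (onZ .snd .nil (.comp (.pair .star .nil) .cons))).val v
      (((), x) : Ty.D F (.prod .unit (.list .fld)))) 1 (by
      intro y hy
      rw [val_mapP] at hy
      obtain ⟨z, _, rfl⟩ := List.mem_map.mp hy
      exact len_nzb v z)
  have h3 : List.length ((mapP (c := .unit) (onZ .snd .nil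
      (.comp (.pair .star .nil) .cons) : Pr s (.prod .unit .fld) Un)).val v
      (((), x) : Ty.D F (.prod .unit (.list .fld)))) = List.length x := by
    simp only [val_mapP, List.length_map]
  simp only [nzP, cost_comp, cost_pair, cost_star, cost_id, val_comp, val_pair, val_star,
    val_id] at h h2 ⊢
  rw [h3] at h2
  omega

theorem nz_nil_iff (l : List F) : nz l = [] ↔ pol l = 0 := by
  have h : nz l = [] ↔ ∀ y ∈ l, y = 0 := by
    unfold nz
    rw [List.flatten_eq_nil_iff]
    simp only [List.mem_map, forall_exists_index, and_imp, forall_apply_eq_imp_iff₂]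
    refine forall₂_congr fun y _ => ?_
    split_ifs with h0 <;> simp [h0]
  rw [h]
  constructor
  · intro h2
    clear h
    induction l with
    | nil => simp [pol]
    | cons x l ih =>
      rw [pol, ih (fun y hy => h2 y (by simp [hy])), h2 x (by simp)]
      simp
  · exact pol_eq_zero l

/-- cutting a list into the shape of an array; input `(shape, list)` -/
def reshP : Pr s (.prod (.list (.list b)) (.list a)) (.list (.list a)) :=
  .comp (.pair .fst .id) (.recD (onL .fst .nil
    (lt (.comp (.pair (.comp .snd .fst) (.comp .fst .snd)) splitP)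
      (.comp (.pair (.comp .snd .fst)
        (.comp (.pair (.comp .fst (.comp .snd .snd)) (.comp .snd .snd)) .self)) .cons))) .nil)

@[simp] theorem val_reshP (v : SV F s) (x : Ty.D F (.prod (.list (.list b)) (.list a))) :
    (reshP : Pr s (.prod (.list (.list b)) (.list a)) _).val v x =
      resh (x.1 : List (List (Ty.D F b))) (x.2 : List (Ty.D F a)) := by
  obtain ⟨sh, l⟩ := x
  simp only [reshP, val_comp, val_pair, val_fst, val_id, val_recD]
  induction sh generalizing l with
  | nil => simp [goV, resh]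
  | cons h t ih => have := ih (l.drop h.length); simp [goV, resh] at this ⊢; exact this

theorem cost_reshP (v : SV F s) (k : SC F s) (x : Ty.D F (.prod (.list (.list b)) (.list a)))
    (n : ℕ) (hn : ∀ y ∈ x.1, List.length y ≤ n) :
    (reshP : Pr s (.prod (.list (.list b)) (.list a)) _).cost v k x ≤
      (24 * n + 60) * List.length x.1 + 20 := by
  obtain ⟨sh, l⟩ := x
  simp only [reshP, cost_comp, cost_pair, cost_fst, cost_id, val_pair, val_fst, val_id, cost_recD]
  have : ∀ (sh : List (List (Ty.D F b))) (l : List (Ty.D F a)), (∀ y ∈ sh, List.length y ≤ n) →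
      goC (s := s) (onL .fst .nil
      (lt (.comp (.pair (.comp .snd .fst) (.comp .fst .snd)) splitP)
        (.comp (.pair (.comp .snd .fst)
          (.comp (.pair (.comp .fst (.comp .snd .snd)) (.comp .snd .snd)) .self)) .cons))) .nil
        v k sh.length (sh, l) ≤ (24 * n + 60) * sh.length + 10 := by
    intro sh
    induction sh with
    | nil => intro l _; simp [goC]
    | cons h t ih =>
      intro l hl
      have e1 := ih (l.drop h.length) (fun y hy => hl y (by simp [hy]))
      have e2 := hl h (by simp)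
      have e3 := cost_splitP (s := (.prod (.list (.list b)) (.list a), .list (.list a)) :: s)
        (F := F) (b := b) (a := a)
        (goV (onL .fst .nil
          (lt (.comp (.pair (.comp .snd .fst) (.comp .fst .snd)) splitP)
            (.comp (.pair (.comp .snd .fst)
              (.comp (.pair (.comp .fst (.comp .snd .snd)) (.comp .snd .snd)) .self)) .cons))) .nil
          v t.length, v)
        (goC (onL .fst .nil
          (lt (.comp (.pair (.comp .snd .fst) (.comp .fst .snd)) splitP)
            (.comp (.pair (.comp .snd .fst)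
              (.comp (.pair (.comp .fst (.comp .snd .snd)) (.comp .snd .snd)) .self)) .cons))) .nil
          v k t.length, k) (h, l)
      simp [goC] at e1 e3 ⊢
      nlinarith
  have := this sh l hn
  omega

end prog


/-! ### the given programs -/
section given

/-- multiplication -/
def IsMul (m : Pr [] (.prod (.prod Po Po) Po) Po) (C : ℕ) : Prop :=
  ∀ (F : Type) [Field F] [DecidableEq F] (a b P : List F), a.length = P.length →
  b.length = P.length →
  let r : List F := m.val () ((a, b), P)
  r.length = P.length ∧ mpol P ∣ pol a * pol b - pol r ∧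
  m.cost () () ((a, b), P) ≤ C * (P.length + 1) ^ 2

/-- inverse -/
def IsInv (w : Pr [] (.prod Po Po) Po) (C : ℕ) : Prop :=
  ∀ (F : Type) [Field F] [DecidableEq F] (h G : List F), h.length = G.length →
  (IsCoprime (pol h) (mpol G) →
    mpol G ∣ pol (w.val () (h, G) : List F) * pol h - 1) ∧
  List.length (w.val () (h, G) : List F) = G.length ∧
  w.cost () () (h, G) ≤ C * ww (G.length + 1)

/-- the solver -/
def IsSol (w : Pr [] (.prod Ma Po) Po) (C : ℕ) : Prop :=
  ∀ (F : Type) [Field F] [DecidableEq F] (n m : ℕ) (cols : List (List F)) (v : List F),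
  cols.length = n → Sh m cols → v.length = m →
  let c : List F := w.val () (cols, v)
  c.length = n ∧
  (LinearIndependent F (fun i : Fin n => cvec (cols.getD i [])) →
    cvec v ∈ Submodule.span F (Set.range (fun i : Fin n => cvec (cols.getD i []))) →
    cvec v = ∑ i : Fin n, c.getD i 0 • cvec (cols.getD i [])) ∧
  w.cost () () (cols, v) ≤ C * (n + m + 1) ^ 3

/-- powers with large exponents -/
def IsPN (p : Pr [] (.prod (.prod Po (.prod Po Un)) Po) Po) (C : ℕ) : Prop :=
  ∀ (F : Type) [Field F] [DecidableEq F] (a G : List F) (q e : ℕ), a.length = G.length →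
  1 ≤ G.length →
  let r : List F := p.val () ((a, (bits F q, un e)), G)
  r.length = G.length ∧ mpol G ∣ pol a ^ (q ^ e) - pol r ∧
  p.cost () () ((a, (bits F q, un e)), G) ≤ C * ((e + 1) * lgc q * (G.length + 1) ^ 2)

/-- tables of powers -/
def IsPT (p : Pr [] (.prod Po Po) Ma) (C : ℕ) : Prop :=
  ∀ (F : Type) [Field F] [DecidableEq F] (w G : List F) (n : ℕ), w.length = n →
  G.length = n → 1 ≤ n →
  let r : List (List F) := p.val () (w, G)
  r.length = n ∧ Sh n r ∧ (∀ j < n, mpol G ∣ pol w ^ j - pol (r.getD j [])) ∧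
  p.cost () () (w, G) ≤ C * (n + 1) ^ 3

/-- elimination -/
def IsKer (p : Pr [] (.list (.prod .unit Po)) (.prod (.list .unit) (.list (.prod .unit Po))))
    (C : ℕ) : Prop :=
  ∀ (F : Type) [Field F] [DecidableEq F] (m : ℕ) (cs : List (Unit × List F)),
  (∀ x ∈ cs, x.2.length = m) →
  KerSpec cs (p.val () cs).1 (p.val () cs).2 ∧
  p.cost () () cs ≤ C * (cs.length + m + 1) * vv (Nat.clog 2 (m + 1))

variable {F : Type} [Field F] [DecidableEq F]

/-- product -/
noncomputable def mf (m : Pr [] (.prod (.prod Po Po) Po) Po) (G a b : List F) : List F :=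
  m.val () ((a, b), G)

theorem mf_len {m : Pr [] (.prod (.prod Po Po) Po) Po} {C : ℕ} (hm : IsMul m C) (G a b : List F)
    (ha : a.length = G.length) (hb : b.length = G.length) : (mf m G a b).length = G.length :=
  (hm F a b G ha hb).1

theorem mf_val {m : Pr [] (.prod (.prod Po Po) Po) Po} {C : ℕ} (hm : IsMul m C) (G a b : List F)
    (ha : a.length = G.length) (hb : b.length = G.length) {k : Type} [Field k] [Algebra F k]
    (x : k) (hx : aeval x (mpol G) = 0) : E x (mf m G a b) = E x a * E x b :=
  E_of_dvd x G a b _ (hm F a b G ha hb).2.1 hx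

theorem mf_cost {m : Pr [] (.prod (.prod Po Po) Po) Po} {C : ℕ} (hm : IsMul m C) (G a b : List F)
    (ha : a.length = G.length) (hb : b.length = G.length) :
    m.cost () () ((a, b), G) ≤ C * (G.length + 1) ^ 2 :=
  (hm F a b G ha hb).2.2

/-- element `1` -/
def onef (G : List F) : List F := fit G.length (0 : F) [1]

theorem onef_len (G : List F) : (onef G).length = G.length := by simp [onef]

theorem onef_val (G : List F) (hG : 1 ≤ G.length) {k : Type} [Field k] [Algebra F k] (x : k) :
    E x (onef G) = 1 := by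
  rw [onef, E_fit x _ _ hG, map_one]

/-- powers by iteration -/
noncomputable def pwf (m : Pr [] (.prod (.prod Po Po) Po) Po) (G a : List F) (j : ℕ) : List F :=
  (fun y => mf m G y a)^[j] (onef G)

theorem pwf_spec {m : Pr [] (.prod (.prod Po Po) Po) Po} {C : ℕ} (hm : IsMul m C)
    (G a : List F) (j : ℕ) (hG : 1 ≤ G.length) (ha : a.length = G.length) :
    (pwf m G a j).length = G.length ∧ ∀ {k : Type} [Field k] [Algebra F k] (x : k),
      aeval x (mpol G) = 0 → E x (pwf m G a j) = E x a ^ j := by
  induction j with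
  | zero =>
    refine ⟨onef_len G, ?_⟩
    intro k _ _ x hx
    simp [pwf, onef_val G hG]
  | succ j ih =>
    rw [pwf, Function.iterate_succ_apply']
    refine ⟨mf_len hm G _ _ ih.1 ha, ?_⟩
    intro k _ _ x hx
    have h1 := mf_val hm G _ _ ih.1 ha x hx
    rw [ih.2 x hx, ← pow_succ] at h1
    exact h1

theorem ww_le (n : ℕ) : ww (n + 1) ≤ 5 * (n + 1) ^ 3 := by
  unfold ww vv
  have h1 : 2 ^ Nat.clog 2 (n + 1) ≤ 2 * (n + 1) := by
    rcases Nat.eq_zero_or_pos n with rfl | hn
    · simp
    · have := Nat.pow_pred_clog_lt_self (b := 2) (by norm_num) (x := n + 1) (by omega)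
      have hc : 0 < Nat.clog 2 (n + 1) := Nat.clog_pos (by norm_num) (by omega)
      obtain ⟨c, hc'⟩ : ∃ c, Nat.clog 2 (n + 1) = c + 1 := ⟨Nat.clog 2 (n + 1) - 1, by omega⟩
      rw [hc'] at this ⊢
      simp only [Nat.pred_eq_sub_one, Nat.add_sub_cancel] at this
      rw [pow_succ]
      omega
  have h2 : 7 ^ Nat.clog 2 (n + 1) / 2 ^ Nat.clog 2 (n + 1) ≤ 4 ^ Nat.clog 2 (n + 1) := by
    apply Nat.div_le_of_le_mul
    rw [← mul_pow]
    exact Nat.pow_le_pow_left (by norm_num) _
  have h3 : 4 ^ Nat.clog 2 (n + 1) = (2 ^ Nat.clog 2 (n + 1)) ^ 2 := by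
    rw [← pow_mul, mul_comm, pow_mul]; norm_num
  have h4 : (2 ^ Nat.clog 2 (n + 1)) ^ 2 ≤ (2 * (n + 1)) ^ 2 := Nat.pow_le_pow_left h1 _
  have h5 : 7 ^ Nat.clog 2 (n + 1) / 2 ^ Nat.clog 2 (n + 1) + 1 ≤ 5 * (n + 1) ^ 2 := by
    have : (2 * (n + 1)) ^ 2 = 4 * (n + 1) ^ 2 := by ring
    have : 1 ≤ (n + 1) ^ 2 := Nat.one_le_pow _ _ (by omega)
    omega
  calc (n + 1) * (7 ^ Nat.clog 2 (n + 1) / 2 ^ Nat.clog 2 (n + 1) + 1)
      ≤ (n + 1) * (5 * (n + 1) ^ 2) := Nat.mul_le_mul_left _ h5
    _ = 5 * (n + 1) ^ 3 := by ring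

end given

/-! ### the traces and the candidates -/
section cand
variable {F : Type} [Field F] [DecidableEq F]

/-- one step; input `((bits, (r, G)), (y, s))` -/
def stT (pn : Pr [] (.prod (.prod Po (.prod Po Un)) Po) Po) :
    Pr [] (.prod (.prod Po (.prod Un Po)) (.prod Po Po)) (.prod Po Po) :=
  .pair (.comp (.pair (.pair (.comp .snd .fst) (.pair (.comp .fst .fst)
      (.comp (.comp .fst .snd) .fst))) (.comp (.comp .fst .snd) .snd)) pn)
    (.comp (.pair (.comp .snd .snd) (.comp .snd .fst)) addP)

/-- its function -/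
noncomputable def stf (pn : Pr [] (.prod (.prod Po (.prod Po Un)) Po) Po) (bq : List F)
    (ur : List Unit) (G : List F) (y : List F × List F) : List F × List F :=
  (pn.val () ((y.1, (bq, ur)), G), List.zipWith (fun (a b : F) => a + b) y.2 y.1)

@[simp] theorem val_stT (pn : Pr [] (.prod (.prod Po (.prod Po Un)) Po) Po) (v : SV F [])
    (x : Ty.D F (.prod (.prod Po (.prod Un Po)) (.prod Po Po))) :
    (stT pn).val v x = stf pn x.1.1 x.1.2.1 x.1.2.2 x.2 := by
  simp [stT, stf]

/-- trace; input `((bits, (r, G)), (e, a))` -/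
def trP (pn : Pr [] (.prod (.prod Po (.prod Po Un)) Po) Po) :
    Pr [] (.prod (.prod Po (.prod Un Po)) (.prod Un Po)) Po :=
  .comp (.pair (.comp .snd .fst) (.pair .fst (.pair (.comp .snd .snd)
    (.comp (.comp (.comp .fst .snd) .snd) zeroP)))) (.comp (iterP (stT pn)) .snd)

/-- its function -/
noncomputable def trf (pn : Pr [] (.prod (.prod Po (.prod Po Un)) Po) Po) (bq : List F)
    (ur : List Unit) (G : List F) (e : ℕ) (a : List F) : List F :=
  ((stf pn bq ur G)^[e] (a, fit G.length (0 : F) [])).2

@[simp] theorem val_trP (pn : Pr [] (.prod (.prod Po (.prod Po Un)) Po) Po) (v : SV F [])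
    (x : Ty.D F (.prod (.prod Po (.prod Un Po)) (.prod Un Po))) :
    (trP pn).val v x = trf pn x.1.1 x.1.2.1 x.1.2.2 (List.length x.2.1) x.2.2 := by
  simp [trP, trf]

theorem stf_spec {pn : Pr [] (.prod (.prod Po (.prod Po Un)) Po) Po} {C : ℕ} (hp : IsPN pn C)
    (q r : ℕ) (G a : List F) (hG : 1 ≤ G.length) (ha : a.length = G.length) (i : ℕ) :
    let y := (stf pn (bits F q) (un r) G)^[i] (a, fit G.length (0 : F) [])
    y.1.length = G.length ∧ y.2.length = G.length ∧
    ∀ {k : Type} [Field k] [Algebra F k] (x : k), aeval x (mpol G) = 0 →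
      E x y.1 = E x a ^ (q ^ (r * i)) ∧ E x y.2 = trq q i r (E x a) := by
  induction i with
  | zero =>
    refine ⟨ha, by simp, ?_⟩
    intro k _ _ x hx
    simp [trq, E_fit_nil]
  | succ i ih =>
    obtain ⟨h1, h2, h3⟩ := ih
    have h4 := hp F _ G q r h1 hG
    intro y
    have hy : y = stf pn (bits F q) (un r) G
        ((stf pn (bits F q) (un r) G)^[i] (a, fit G.length (0 : F) [])) :=
      Function.iterate_succ_apply' _ _ _
    rw [hy]
    refine ⟨h4.1, ?_, ?_⟩
    · simp only [stf, List.length_zipWith, h1, h2, min_self]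
    · intro k _ _ x hx
      obtain ⟨e1, e2⟩ := h3 x hx
      constructor
      · have := E_of_dvd_pow x G _ _ _ h4.2.1 hx
        rw [e1, ← pow_mul, ← pow_add, ← Nat.mul_succ] at this
        exact this
      · simp only [stf]
        rw [E_add x _ _ (by rw [h1, h2]), e1, e2, trq, trq, Finset.sum_range_succ]

theorem trf_spec {pn : Pr [] (.prod (.prod Po (.prod Po Un)) Po) Po} {C : ℕ} (hp : IsPN pn C)
    (q r : ℕ) (G a : List F) (hG : 1 ≤ G.length) (ha : a.length = G.length) (e : ℕ) :
    (trf pn (bits F q) (un r) G e a).length = G.length ∧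
    ∀ {k : Type} [Field k] [Algebra F k] (x : k), aeval x (mpol G) = 0 →
      E x (trf pn (bits F q) (un r) G e a) = trq q e r (E x a) := by
  have h := stf_spec hp q r G a hG ha e
  refine ⟨h.2.1, ?_⟩
  intro k _ _ x hx
  exact (h.2.2 x hx).2

theorem cost_trP {pn : Pr [] (.prod (.prod Po (.prod Po Un)) Po) Po} {C : ℕ} (hp : IsPN pn C)
    (q r e : ℕ) (G a : List F) (hG : 1 ≤ G.length) (ha : a.length = G.length) :
    (trP pn).cost () () ((bits F q, (un r, G)), (un e, a)) ≤
      (C + 300) * ((e + 1) * lgc q * ((r + 1) * (G.length + 1) ^ 2)) := by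
  have c1 := cost_zeroP (F := F) (s := []) () () G
  have c2 := cost_iterP_le (F := F) (s := []) (c := .prod Po (.prod Un Po)) (a := .prod Po Po)
    (b := .unit) (stT pn) () () (un e, ((bits F q, (un r, G)), (a, fit G.length (0 : F) [])))
    (C * ((r + 1) * lgc q * (G.length + 1) ^ 2) + 60 * G.length + 60)
    (fun y => List.length y.1 = G.length ∧ List.length y.2 = G.length)
    ⟨ha, by simp⟩
    (fun y hy => by
      have h4 := hp F y.1 G q r hy.1 hG
      simp only [val_stT, stf]
      refine ⟨h4.1, ?_⟩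
      have h5 : List.length y.1 = G.length := hy.1
      have h6 : List.length y.2 = G.length := hy.2
      simp only [List.length_zipWith, h5, h6, min_self])
    (fun y hy => by
      have h4 := (hp F y.1 G q r hy.1 hG).2.2
      have h5 := cost_addP (F := F) (s := []) () () (y.2, y.1)
      have h6 : List.length y.2 = G.length := hy.2
      simp only [h6] at h5
      simp only [stT, cost_pair, cost_comp, cost_fst, cost_snd, val_pair, val_comp, val_fst,
        val_snd]
      omega)
  have hu : List.length (un e) = e := by simp [un]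
  simp only [trP, cost_comp, cost_pair, cost_fst, cost_snd, val_comp, val_pair, val_fst, val_snd,
    val_zeroP] at c1 c2 ⊢
  rw [hu] at c2
  obtain ⟨Y, hY⟩ : ∃ Y, Y = (r + 1) * (G.length + 1) ^ 2 := ⟨_, rfl⟩
  obtain ⟨l, hl⟩ : ∃ l, l = lgc q := ⟨_, rfl⟩
  have hl1 : 1 ≤ l := by rw [hl]; unfold lgc; omega
  have hGY : G.length + 1 ≤ Y := by
    rw [hY]
    calc G.length + 1 ≤ (G.length + 1) ^ 2 := Nat.le_self_pow (by norm_num) _
      _ ≤ (r + 1) * (G.length + 1) ^ 2 := Nat.le_mul_of_pos_left _ (by omega)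
  have hYl : Y ≤ l * Y := Nat.le_mul_of_pos_left _ hl1
  have e1 : (r + 1) * lgc q * (G.length + 1) ^ 2 = l * Y := by rw [hY, ← hl]; ring
  have e2 : (C + 300) * ((e + 1) * lgc q * ((r + 1) * (G.length + 1) ^ 2)) =
      (C * (l * Y) + 300 * (l * Y)) * (e + 1) := by rw [← hY, ← hl]; ring
  rw [e1] at c2
  rw [e2]
  have e3 : (C * (l * Y) + 60 * G.length + 60 + 40) * e ≤ (C * (l * Y) + 100 * (l * Y)) * e :=
    Nat.mul_le_mul_right _ (by omega)
  have e4 : (C * (l * Y) + 300 * (l * Y)) * (e + 1) =
      (C * (l * Y) + 100 * (l * Y)) * e + (C * (l * Y) + 300 * (l * Y)) +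
        200 * (l * Y) * e := by ring
  omega

/-- every element with the one-point label -/
def wrapP {s : List (Ty × Ty)} {a : Ty} : Pr s (.list a) (.list (.prod .unit a)) :=
  .comp (.pair .star .id) (mapP (c := .unit) .id)

@[simp] theorem val_wrapP {s : List (Ty × Ty)} {a : Ty} (v : SV F s) (x : Ty.D F (.list a)) :
    (wrapP : Pr s (.list a) _).val v x = List.map (fun (y : Ty.D F a) => ((), y)) x := by
  simp [wrapP]

theorem cost_wrapP {s : List (Ty × Ty)} {a : Ty} (v : SV F s) (k : SC F s)
    (x : Ty.D F (.list a)) :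
    (wrapP : Pr s (.list a) _).cost v k x ≤ 14 * List.length x + 10 := by
  have h := cost_mapP_le (s := s) (c := .unit) (a := a) (b := .prod .unit a)
    .id v k ((), x) 1 (fun _ _ => by simp)
  simp [wrapP] at h ⊢
  omega

/-- a candidate; input `(((bits, (r, G)), e), row)` -/
def candP (pn : Pr [] (.prod (.prod Po (.prod Po Un)) Po) Po) (pt : Pr [] (.prod Po Po) Ma)
    (ker : Pr [] (.list (.prod .unit Po)) (.prod (.list .unit) (.list (.prod .unit Po)))) :
    Pr [] (.prod (.prod (.prod Po (.prod Un Po)) Un) Po) (.list (.prod Po Ma)) :=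
  lt (.comp (.comp (.pair (.comp (.comp (.comp .fst .fst) .snd) .snd) .snd) splitP) .fst)
    (lt (.comp (.pair (.comp (.comp .fst .fst) .fst) (.pair (.comp (.comp .fst .fst) .snd) .snd))
        (trP pn))
      (lt (.comp (.pair .snd (.comp (.comp (.comp (.comp (.comp .fst .fst) .fst) .fst) .snd) .snd))
          pt)
        (onL (.comp (.comp (.comp .snd wrapP) ker) .snd)
          (.comp (.pair (.pair (.comp .fst .snd) .snd) .nil) .cons) .nil)))

/-- its function -/
noncomputable def candf (pn : Pr [] (.prod (.prod Po (.prod Po Un)) Po) Po)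
    (pt : Pr [] (.prod Po Po) Ma)
    (ker : Pr [] (.list (.prod .unit Po)) (.prod (.list .unit) (.list (.prod .unit Po))))
    (bq : List F) (ur : List Unit) (G : List F) (e : ℕ) (row : List F) :
    List (List F × List (List F)) :=
  lcase (ker.val () (List.map (fun (y : List F) => ((), y))
      (pt.val () (trf pn bq ur G e (row.take G.length), G)))).2
    [(trf pn bq ur G e (row.take G.length), pt.val () (trf pn bq ur G e (row.take G.length), G))]
    (fun _ _ => [])

@[simp] theorem val_candP (pn : Pr [] (.prod (.prod Po (.prod Po Un)) Po) Po)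
    (pt : Pr [] (.prod Po Po) Ma)
    (ker : Pr [] (.list (.prod .unit Po)) (.prod (.list .unit) (.list (.prod .unit Po))))
    (v : SV F []) (x : Ty.D F (.prod (.prod (.prod Po (.prod Un Po)) Un) Po)) :
    (candP pn pt ker).val v x =
      candf pn pt ker x.1.1.1 x.1.1.2.1 x.1.1.2.2 (List.length x.1.2) x.2 := by
  simp [candP, candf]

/-- what we know about a pair of an element and the table of its powers -/
def GoodC (G : List F) (c : List F × List (List F)) : Prop :=
  c.1.length = G.length ∧ c.2.length = G.length ∧ Sh G.length c.2 ∧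
  ∀ {k : Type} [Field k] [Algebra F k] (x : k), aeval x (mpol G) = 0 →
    ∀ i : Fin G.length, E x (c.2.getD i []) = E x c.1 ^ (i : ℕ)

theorem cand_spec {pn : Pr [] (.prod (.prod Po (.prod Po Un)) Po) Po} {C : ℕ} (hp : IsPN pn C)
    {pt : Pr [] (.prod Po Po) Ma} {C' : ℕ} (ht : IsPT pt C')
    {ker : Pr [] (.list (.prod .unit Po)) (.prod (.list .unit) (.list (.prod .unit Po)))}
    {C'' : ℕ} (hk : IsKer ker C'')
    (q r e : ℕ) (G row : List F) (hG : 1 ≤ G.length) (hrow : G.length ≤ row.length) :
    ∃ c : List F × List (List F), GoodC G c ∧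
      (∀ {k : Type} [Field k] [Algebra F k] (x : k), aeval x (mpol G) = 0 →
        E x c.1 = trq q e r (E x (row.take G.length))) ∧
      ((candf pn pt ker (bits F q) (un r) G e row = [c] ∧
        LinearIndependent F (fun i : Fin G.length => cvec (c.2.getD i []))) ∨
      (candf pn pt ker (bits F q) (un r) G e row = [] ∧
        ¬ LinearIndependent F (fun i : Fin G.length => cvec (c.2.getD i [])))) := by
  have ha : (row.take G.length).length = G.length := by
    rw [List.length_take]; omega
  obtain ⟨h1, h2⟩ := trf_spec hp q r G (row.take G.length) hG ha e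
  obtain ⟨θ, hθ⟩ : ∃ θ, θ = trf pn (bits F q) (un r) G e (row.take G.length) := ⟨_, rfl⟩
  obtain ⟨pw, hpw⟩ : ∃ pw : List (List F), pw = pt.val () (θ, G) := ⟨_, rfl⟩
  rw [← hθ] at h1 h2
  have h3 := ht F θ G G.length h1 rfl hG
  simp only [← hpw] at h3
  obtain ⟨h4, h5, h6, -⟩ := h3
  have h7 := (hk F G.length (pw.map (fun y => ((), y))) (by
    intro x hx
    obtain ⟨y, hy, rfl⟩ := List.mem_map.mp hx
    exact h5 y hy)).1
  have h8 := ker_iff _ _ _ h7
  have h9 : LinearIndependent F (fun k : Fin (pw.map (fun y => ((), y))).length =>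
      cvec ((pw.map (fun y => ((), y))).get k).2) ↔
      LinearIndependent F (fun i : Fin G.length => cvec (pw.getD i [])) := by
    have hl : G.length = (pw.map (fun y => ((), y))).length := by rw [List.length_map, h4]
    rw [← linearIndependent_equiv (finCongr hl)]
    have : ((fun k : Fin (pw.map (fun y => ((), y))).length =>
        cvec ((pw.map (fun y => ((), y))).get k).2) ∘ (finCongr hl)) =
        (fun i : Fin G.length => cvec (pw.getD i [])) := by
      funext i
      simp only [Function.comp, finCongr_apply, List.get_eq_getElem, Fin.val_cast,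
        List.getElem_map]
      rw [List.getD_eq_getElem _ _ (by rw [h4]; exact i.2)]
    rw [this]
  rw [h9] at h8
  have hc : candf pn pt ker (bits F q) (un r) G e row =
      lcase (ker.val () (List.map (fun (y : List F) => ((), y)) pw)).2 [(θ, pw)]
        (fun _ _ => []) := by
    rw [candf, ← hθ, ← hpw]
  refine ⟨(θ, pw), ⟨h1, h4, h5, ?_⟩, ?_, ?_⟩
  · intro k _ _ x hx i
    exact E_of_dvd_pow x G θ _ _ (h6 i i.2) hx
  · intro k _ _ x hx
    exact h2 x hx
  · rw [hc]
    by_cases h0 : (ker.val () (List.map (fun (y : List F) => ((), y)) pw)).2 = []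
    · left
      refine ⟨?_, h8.mp h0⟩
      rw [h0]
      rfl
    · right
      refine ⟨?_, fun h => h0 (h8.mpr h)⟩
      obtain ⟨y, l, hyl⟩ := List.exists_cons_of_ne_nil h0
      rw [hyl]
      rfl

end cand


section cand2
variable {F : Type} [Field F] [DecidableEq F]

theorem cost_candP {pn : Pr [] (.prod (.prod Po (.prod Po Un)) Po) Po} {C : ℕ} (hp : IsPN pn C)
    {pt : Pr [] (.prod Po Po) Ma} {C' : ℕ} (ht : IsPT pt C')
    {ker : Pr [] (.list (.prod .unit Po)) (.prod (.list .unit) (.list (.prod .unit Po)))}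
    {C'' : ℕ} (hk : IsKer ker C'')
    (q e : ℕ) (G row : List F) (hG : 1 ≤ G.length) (hrow : G.length ≤ row.length) :
    (candP pn pt ker).cost () () (((bits F q, (un G.length, G)), un e), row) ≤
      (C + C' + 10 * C'' + 500) * ((e + 1) * lgc q * (G.length + 1) ^ 3) := by
  have ha : (row.take G.length).length = G.length := by
    rw [List.length_take]; omega
  obtain ⟨h1, -⟩ := trf_spec hp q G.length G (row.take G.length) hG ha e
  have h3 := ht F (trf pn (bits F q) (un G.length) G e (row.take G.length)) G G.length h1 rfl hG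
  simp only at h3
  obtain ⟨h4, h5, -, h6⟩ := h3
  have h7 := (hk F G.length ((pt.val () (trf pn (bits F q) (un G.length) G e
    (row.take G.length), G) : List (List F)).map (fun y => ((), y))) (by
    intro x hx
    obtain ⟨y, hy, rfl⟩ := List.mem_map.mp hx
    exact h5 y hy)).2
  have c1 := cost_splitP (F := F) (s := []) (b := .fld) (a := .fld) () () (G, row)
  have c2 := cost_trP hp q G.length e G (row.take G.length) hG ha
  have c3 := cost_wrapP (F := F) (s := []) (a := Po) () ()
    (pt.val () (trf pn (bits F q) (un G.length) G e (row.take G.length), G))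
  simp only [h4] at c3
  rw [List.length_map, h4] at h7
  have hu : List.length (un e) = e := by simp [un]
  obtain ⟨l, hl⟩ : ∃ l, l = (e + 1) * lgc q := ⟨_, rfl⟩
  have hl1 : 1 ≤ l := by
    rw [hl]; exact Nat.mul_pos (by omega) (by unfold lgc; omega)
  obtain ⟨R, hR⟩ : ∃ R, R = (G.length + 1) ^ 3 := ⟨_, rfl⟩
  have hR1 : G.length + 1 ≤ R := by rw [hR]; exact Nat.le_self_pow (by norm_num) _
  have hRl : R ≤ l * R := Nat.le_mul_of_pos_left _ hl1
  have d2 : (C + 300) * ((e + 1) * lgc q * ((G.length + 1) * (G.length + 1) ^ 2)) =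
      C * (l * R) + 300 * (l * R) := by rw [hl, hR]; ring
  have d3 : C' * (G.length + 1) ^ 3 ≤ C' * (l * R) := by
    rw [← hR]; exact Nat.mul_le_mul_left _ hRl
  have d4 : C'' * (G.length + G.length + 1) * vv (Nat.clog 2 (G.length + 1)) ≤
      10 * (C'' * (l * R)) := by
    have e1 := ww_le G.length
    have e2 : (G.length + G.length + 1) * vv (Nat.clog 2 (G.length + 1)) ≤
        2 * ww (G.length + 1) := by
      unfold ww
      calc (G.length + G.length + 1) * vv (Nat.clog 2 (G.length + 1))
          ≤ (2 * (G.length + 1)) * vv (Nat.clog 2 (G.length + 1)) :=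
            Nat.mul_le_mul_right _ (by omega)
        _ = 2 * ((G.length + 1) * vv (Nat.clog 2 (G.length + 1))) := by ring
    rw [← hR] at e1
    have e3 : (G.length + G.length + 1) * vv (Nat.clog 2 (G.length + 1)) ≤ 10 * (l * R) := by
      omega
    calc C'' * (G.length + G.length + 1) * vv (Nat.clog 2 (G.length + 1))
        = C'' * ((G.length + G.length + 1) * vv (Nat.clog 2 (G.length + 1))) := by ring
      _ ≤ C'' * (10 * (l * R)) := Nat.mul_le_mul_left _ e3
      _ = 10 * (C'' * (l * R)) := by ring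
  have d5 : (C + C' + 10 * C'' + 500) * ((e + 1) * lgc q * (G.length + 1) ^ 3) =
      C * (l * R) + C' * (l * R) + 10 * (C'' * (l * R)) + 500 * (l * R) := by
    rw [hl, hR]; ring
  rw [d2] at c2
  rw [d5]
  have d6 := h6.trans d3
  have d7 : ker.cost (F := F) () () ((wrapP (s := []) (a := Po)).val (F := F) () (pt.val ()
    (trf pn (bits F q) (un G.length) G e (row.take G.length), G))) ≤ 10 * (C'' * (l * R)) := by
    rw [val_wrapP]
    exact h7.trans d4
  simp only [candP, cost_lt, cost_comp, cost_pair, cost_fst, cost_snd, cost_onL, val_comp,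
    val_pair, val_fst, val_snd, val_splitP, val_trP, hu]
  generalize (ker.val (F := F) () _).2 = Z
  replace c1 := c1.trans_eq (show _ = 24 * G.length + 8 from rfl)
  rcases Z with _ | ⟨z, Z⟩
  · simp only [lcase_nil, cost_nil, cost_cons]
    omega
  · simp only [lcase_cons, cost_nil]
    omega

end cand2


/-! ### shapes -/
section shape
variable {α : Type}

/-- the shape of the arrays -/
def shp (j : ℕ) : List ℕ := (List.range (j + 1)).map (fun i => i + 1)

theorem isHom_iff (j : ℕ) (x : List (List α)) : IsHom j x ↔ x.map List.length = shp j := by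
  unfold IsHom shp
  constructor
  · rintro ⟨h1, h2⟩
    apply List.ext_getElem
    · simp [h1]
    · intro i hi1 hi2
      simp only [List.length_map, List.length_range] at hi1 hi2
      have := h2 i (by omega)
      rw [List.getD_eq_getElem _ _ hi1] at this
      simpa using this
  · intro h
    have h1 : x.length = j + 1 := by
      have := congrArg List.length h
      simpa using this
    refine ⟨h1, ?_⟩
    intro k hk
    have hk1 : k < (x.map List.length).length := by simp; omega
    have hk2 : k < ((List.range (j + 1)).map (fun i => i + 1)).length := by simp; omega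
    have h3 : (x.map List.length)[k] = ((List.range (j + 1)).map (fun i => i + 1))[k] := by
      simp only [h]
    rw [List.getD_eq_getElem _ _ (by omega)]
    simpa using h3

theorem shp_sum_le (j : ℕ) : (shp j).sum ≤ (j + 1) * (j + 1) := by
  have := List.sum_le_card_nsmul (shp j) (j + 1) (by
    intro x hx
    simp only [shp, List.mem_map, List.mem_range] at hx
    obtain ⟨i, hi, rfl⟩ := hx
    omega)
  simpa [shp] using this

theorem isHom_flat (j : ℕ) (x : List (List α)) (h : IsHom j x) :
    x.flatten.length = (shp j).sum := by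
  rw [List.length_flatten, (isHom_iff j x).mp h]

theorem isHom_row (j : ℕ) (x : List (List α)) (h : IsHom j x) : x.length = j + 1 ∧
    ∀ y ∈ x, y.length ≤ j + 1 := by
  refine ⟨h.1, ?_⟩
  intro y hy
  have h1 : y.length ∈ x.map List.length := List.mem_map_of_mem hy
  rw [(isHom_iff j x).mp h] at h1
  simp only [shp, List.mem_map, List.mem_range] at h1
  obtain ⟨i, hi, hi2⟩ := h1
  omega

end shape

/-! ### the vectors -/
section vec
variable {F : Type} [Field F] [DecidableEq F]

/-- flat arrays -/
def flP : Pr [] ML Ma := .comp (.pair .star .id) (mapP (c := .unit) (.comp .snd flatP))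

@[simp] theorem val_flP (v : SV F []) (x : Ty.D F ML) :
    flP.val v x = List.map (fun (y : List (List F)) => y.flatten) (x : List (List (List F))) := by
  simp [flP]

theorem cost_flP (x : List (List (List F))) (n : ℕ)
    (h : ∀ y ∈ x, y.length ≤ n ∧ ∀ z ∈ y, z.length ≤ n) :
    flP.cost (F := F) () () x ≤ ((20 * n + 71) * n + 60) * x.length + 10 := by
  have h1 := cost_mapP_le (F := F) (s := []) (c := .unit) (a := Ma) (b := Po) (.comp .snd flatP)
    () () ((), x) ((20 * n + 71) * n + 41) (fun y hy => by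
      have h2 := cost_flatP (F := F) (s := []) (a := .fld) () () y n (h y hy).2
      have h3 : List.length y ≤ n := (h y hy).1
      have h4 : (20 * n + 71) * List.length y ≤ (20 * n + 71) * n := Nat.mul_le_mul_left _ h3
      simp only [cost_comp, cost_snd, val_snd]
      omega)
  simp only [flP, cost_comp, cost_pair, cost_star, cost_id, val_pair, val_star, val_id] at h1 ⊢
  have h5 : ((20 * n + 71) * n + 41 + 13) * x.length ≤ ((20 * n + 71) * n + 60) * x.length :=
    Nat.mul_le_mul_right _ (by omega)
  have h6 : ((mapP (c := .unit) (.comp .snd flatP) : Pr [] (.prod .unit ML) Ma)).cost (F := F)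
    () () ((), x) ≤ ((20 * n + 71) * n + 41 + 13) * x.length + 5 := h1
  omega

/-- the vectors -/
def vecP : Pr [] ML Ma :=
  lt flP (.comp (.pair (onL .snd .nil (.comp .snd .fst)) .snd) transpP)

/-- its function -/
def vecf (A : List (List (List F))) : List (List F) :=
  transp (lcase (A.map (fun y => y.flatten)) [] (fun h _ => h)).length
    (A.map (fun y => y.flatten))

@[simp] theorem val_vecP (v : SV F []) (x : Ty.D F ML) :
    vecP.val v x = vecf (x : List (List (List F))) := by
  simp [vecP, vecf]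

theorem vec_spec (r j : ℕ) (A : List (List (List F))) (hA : A.length = r) (hr : 1 ≤ r)
    (hj : ∀ x ∈ A, IsHom j x) :
    (vecf A).length = (shp j).sum ∧ Sh r (vecf A) ∧ ∀ p < (shp j).sum, ∀ b < r,
      ((vecf A).getD p []).getD b 0 = ((A.getD b []).flatten).getD p 0 := by
  have h1 : ∀ y ∈ A.map (fun y => y.flatten), y.length = (shp j).sum := by
    intro y hy
    obtain ⟨x, hx, rfl⟩ := List.mem_map.mp hy
    exact isHom_flat j x (hj x hx)
  have h2 : vecf A = transp (shp j).sum (A.map (fun y => y.flatten)) := by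
    cases A with
    | nil => simp at hA; omega
    | cons a A =>
      rw [vecf]
      simp only [List.map_cons, lcase_cons]
      rw [h1 _ (by simp)]
  rw [h2]
  refine ⟨length_transp _ _ h1, ?_, ?_⟩
  · intro v hv
    rw [transp_mem _ _ h1 v hv, List.length_map, hA]
  · intro p hp b hb
    rw [transp_ent 0 _ _ h1 p b hp (by rw [List.length_map, hA]; exact hb),
      List.getD_eq_getElem (A.map (fun y => y.flatten)) _ (by rw [List.length_map, hA]; exact hb),
      List.getElem_map, List.getD_eq_getElem A _ (by rw [hA]; exact hb)]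

theorem cost_vecP (r j : ℕ) (A : List (List (List F))) (hA : A.length = r) (hr : 1 ≤ r)
    (hj : ∀ x ∈ A, IsHom j x) :
    vecP.cost (F := F) () () A ≤ 500 * ((j + 1) * (j + 1) * (r + 1)) := by
  have h1 : ∀ y ∈ A.map (fun y => y.flatten), y.length = (shp j).sum := by
    intro y hy
    obtain ⟨x, hx, rfl⟩ := List.mem_map.mp hy
    exact isHom_flat j x (hj x hx)
  have c1 := cost_flP A (j + 1) (fun y hy => by
    have := isHom_row j y (hj y hy)
    exact ⟨this.1.le, this.2⟩)
  have hl : (lcase (A.map (fun y => y.flatten)) [] (fun h _ => h)).length = (shp j).sum := by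
    cases A with
    | nil => simp at hA; omega
    | cons a A =>
      simp only [List.map_cons, lcase_cons]
      exact h1 _ (by simp)
  have c2 := cost_transpP (F := F) (s := []) (a := .fld) (b := .fld) () ()
    (lcase (A.map (fun y => y.flatten)) [] (fun h _ => h), A.map (fun y => y.flatten)) (by
      intro y hy
      exact (h1 y hy).trans hl.symm)
  have hN := shp_sum_le j
  obtain ⟨N, hN'⟩ : ∃ N, N = (shp j).sum := ⟨_, rfl⟩
  have c2e : (51 * (lcase (A.map (fun y => y.flatten)) [] (fun h _ => h)).length + 90) *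
      ((A.map (fun y => y.flatten)).length + 1) = (51 * N + 90) * (r + 1) := by
    rw [hl, List.length_map, hA, hN']
  replace c2 := c2.trans_eq c2e
  rw [hA] at c1
  rw [← hN'] at hN
  obtain ⟨J, hJ⟩ : ∃ J, J = (j + 1) * (j + 1) := ⟨_, rfl⟩
  have hJ1 : j + 1 ≤ J := by rw [hJ]; exact Nat.le_mul_of_pos_left _ (by omega)
  rw [← hJ] at hN ⊢
  have e1 : ((20 * (j + 1) + 71) * (j + 1) + 60) * r + 10 ≤ 200 * (J * (r + 1)) := by
    have : (20 * (j + 1) + 71) * (j + 1) + 60 ≤ 160 * J := by
      have : (20 * (j + 1) + 71) * (j + 1) = 20 * J + 71 * (j + 1) := by rw [hJ]; ring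
      omega
    have h3 := Nat.mul_le_mul_right r this
    have h4 : 160 * J * r = 160 * (J * r) := by ring
    have h5 : J * (r + 1) = J * r + J := by ring
    omega
  have e2 : (51 * N + 90) * (r + 1) ≤ 150 * (J * (r + 1)) := by
    have : 51 * N + 90 ≤ 150 * J := by omega
    have h3 := Nat.mul_le_mul_right (r + 1) this
    have h4 : 150 * J * (r + 1) = 150 * (J * (r + 1)) := by ring
    omega
  have hJr : 1 ≤ J * (r + 1) := Nat.mul_pos (by omega) (by omega)
  have hc : ∀ (z : List (List F)) (w : Ty.D F (.prod ML Ma)), lcase z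
      ((Pr.nil : Pr [] (.prod ML Ma) Po).cost (F := F) () () w) (fun h t =>
      (Pr.comp Pr.snd Pr.fst : Pr [] (.prod (.prod ML Ma) (.prod Po Ma)) Po).cost (F := F) () ()
        (w, (h, t))) ≤ 2 := by
    intro z w
    cases z with
    | nil => simp
    | cons _ _ => simp
  have c3 := hc (A.map (fun y => y.flatten)) (A, A.map (fun y => y.flatten))
  simp only [vecP, cost_lt, cost_comp, cost_pair, cost_fst, cost_snd, cost_onL, val_flP,
    val_comp, val_pair, val_fst, val_snd, val_onL, val_nil] at c3 ⊢
  have key : ∀ t1 t2 t3 : ℕ, t1 ≤ 200 * (J * (r + 1)) → t2 ≤ 150 * (J * (r + 1)) → t3 ≤ 2 →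
      t1 + (1 + 3 + t3 + 1 + 1 + t2) + 2 ≤ 500 * (J * (r + 1)) := by
    intro t1 t2 t3 e1 e2 e3
    omega
  exact key _ _ _ (c1.trans e1) (c2.trans e2) c3

/-- the first nonzero vector; input `(Q, V)` -/
def firP : Pr [] (.prod Po Ma) Po :=
  lt (.comp (.comp (.pair .star .snd) (mapP (c := .unit) (onL (.comp .snd nzP) .nil
      (.comp (.pair (.comp .fst .snd) .nil) .cons)))) flatP)
    (onL .snd (.comp .fst .fst) (.comp .snd .fst))

/-- its function -/
def firf (Q : List F) (V : List (List F)) : List F :=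
  lcase ((V.map (fun v => lcase (nz v) [] (fun _ _ => [v]))).flatten) Q (fun h _ => h)

@[simp] theorem val_firP (v : SV F []) (x : Ty.D F (.prod Po Ma)) :
    firP.val v x = firf (x.1 : List F) (x.2 : List (List F)) := by
  simp [firP, firf]

theorem mem_fir (V : List (List F)) (y : List F) :
    y ∈ (V.map (fun v => lcase (nz v) [] (fun _ _ => [v]))).flatten ↔ y ∈ V ∧ pol y ≠ 0 := by
  rw [List.mem_flatten]
  constructor
  · rintro ⟨l, hl, hy⟩
    obtain ⟨v, hv, rfl⟩ := List.mem_map.mp hl
    have h := nz_nil_iff v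
    cases hz : nz v with
    | nil => simp [hz] at hy
    | cons a l =>
      rw [hz] at h
      simp only [hz, lcase_cons, List.mem_singleton] at hy
      subst hy
      refine ⟨hv, fun h0 => ?_⟩
      have := h.mpr h0
      simp at this
  · rintro ⟨hv, h0⟩
    refine ⟨[y], List.mem_map.mpr ⟨y, hv, ?_⟩, by simp⟩
    have h := nz_nil_iff y
    cases hz : nz y with
    | nil => exact absurd (h.mp hz) h0
    | cons a l => rfl

theorem fir_spec (Q : List F) (V : List (List F)) (hV : Sh Q.length V) :
    (firf Q V).length = Q.length ∧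
    ((∃ v ∈ V, pol v ≠ 0) → firf Q V ∈ V ∧ pol (firf Q V) ≠ 0) := by
  have h := mem_fir V
  unfold firf
  cases hz : (V.map (fun v => lcase (nz v) [] (fun _ _ => [v]))).flatten with
  | nil =>
    refine ⟨rfl, ?_⟩
    rintro ⟨v, hv⟩
    have := (h v).mpr hv
    rw [hz] at this
    simp at this
  | cons a l =>
    have h2 := (h a).mp (by rw [hz]; simp)
    exact ⟨hV a h2.1, fun _ => h2⟩

theorem cost_firP (Q : List F) (V : List (List F)) (hV : Sh Q.length V) :
    firP.cost (F := F) () () (Q, V) ≤ (120 * Q.length + 300) * V.length + 100 := by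
  have h1 : ∀ y : List F, y ∈ V → (onL (.comp .snd nzP) .nil
      (.comp (.pair (.comp .fst .snd) .nil) .cons) : Pr [] (.prod .unit Po) Ma).cost (F := F)
      () () ((), y) ≤ 120 * Q.length + 80 := by
    intro y hy
    have h2 := cost_nzP (F := F) (s := []) () () y
    have h3 : List.length y = Q.length := hV y hy
    simp only [h3] at h2
    simp only [cost_onL, cost_comp, cost_snd, cost_nil, cost_pair, cost_fst, cost_cons,
      val_comp, val_snd]
    generalize (nzP : Pr [] Po Un).val (F := F) () y = Z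
    rcases Z with _ | ⟨z, Z⟩
    · simp only [lcase_nil]; omega
    · simp only [lcase_cons]; omega
  have h2 := cost_mapP_le (F := F) (s := []) (c := .unit) (a := Po) (b := Ma)
    (onL (.comp .snd nzP) .nil (.comp (.pair (.comp .fst .snd) .nil) .cons)) () () ((), V)
    (120 * Q.length + 80) (fun y hy => h1 y hy)
  have h3 := cost_flatP (F := F) (s := []) (a := Po) () ()
    ((mapP (c := .unit) (onL (.comp .snd nzP) .nil
      (.comp (.pair (.comp .fst .snd) .nil) .cons)) : Pr [] (.prod .unit Ma) _).val (F := F) ()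
      ((), V)) 1 (by
      intro y hy
      rw [val_mapP] at hy
      obtain ⟨z, _, rfl⟩ := List.mem_map.mp hy
      simp only [val_onL, val_comp, val_snd, val_nil, val_pair, val_fst, val_cons]
      generalize (nzP : Pr [] Po Un).val (F := F) () z = Z
      rcases Z with _ | ⟨z, Z⟩
      · exact Nat.zero_le _
      · exact le_rfl)
  have h4 : List.length ((mapP (c := .unit) (onL (.comp .snd nzP) .nil
      (.comp (.pair (.comp .fst .snd) .nil) .cons)) : Pr [] (.prod .unit Ma) _).val (F := F) ()
      ((), V)) = V.length := by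
    rw [val_mapP]; exact List.length_map _
  rw [h4] at h3
  replace h2 := h2.trans_eq (show _ = (120 * Q.length + 80 + 13) * V.length + 5 from rfl)
  have e1 : (120 * Q.length + 80 + 13) * V.length + (20 * 1 + 71) * V.length ≤
      (120 * Q.length + 300) * V.length := by
    rw [← Nat.add_mul]
    exact Nat.mul_le_mul_right _ (by omega)
  simp only [firP, cost_lt, cost_comp, cost_pair, cost_star, cost_snd, val_comp, val_pair,
    val_star, val_snd, cost_onL, cost_fst] at h2 h3 ⊢
  generalize (flatP : Pr [] (.list Ma) Ma).val (F := F) () _ = Z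
  rcases Z with _ | ⟨z, Z⟩
  · simp only [lcase_nil]; omega
  · simp only [lcase_cons]; omega

end vec


/-! ### the result -/
section fin
variable {F : Type} [Field F] [DecidableEq F]

/-- the power `θ ^ r`; input `(Q, θ)` -/
def powP (m : Pr [] (.prod (.prod Po Po) Po) Po) : Pr [] (.prod Po Po) Po :=
  .comp (.pair .fst (.pair (.pair .snd .fst) (.comp (.pair .fst .one) conP))) (iterP (mzP m))

@[simp] theorem val_powP (m : Pr [] (.prod (.prod Po Po) Po) Po) (v : SV F [])
    (x : Ty.D F (.prod Po Po)) : (powP m).val v x = pwf m x.1 x.2 (List.length x.1) := by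
  simp [powP, pwf, onef, mf]

theorem cost_powP {m : Pr [] (.prod (.prod Po Po) Po) Po} {C : ℕ} (hm : IsMul m C)
    (Q θ : List F) (hθ : θ.length = Q.length) :
    (powP m).cost () () (Q, θ) ≤ (C + 200) * (Q.length + 1) ^ 3 := by
  have c1 := cost_conP (F := F) (s := []) () () (Q, (1 : F))
  have c2 := cost_iterP_le (F := F) (s := []) (c := .prod Po Po) (a := Po) (b := .fld) (mzP m)
    () () (Q, ((θ, Q), onef Q)) (C * (Q.length + 1) ^ 2 + 7) (fun y => List.length y = Q.length)
    (onef_len Q)
    (fun y hy => by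
      rw [val_mzP]
      exact mf_len hm Q y θ hy hθ)
    (fun y hy => by
      have := mf_cost hm Q y θ hy hθ
      rw [cost_mzP]
      exact Nat.add_le_add_right this 7)
  simp only [powP, cost_comp, cost_pair, cost_fst, cost_snd, cost_one, val_comp, val_pair,
    val_fst, val_snd, val_one, val_conP] at c1 c2 ⊢
  obtain ⟨R, hR⟩ : ∃ R, R = (Q.length + 1) ^ 3 := ⟨_, rfl⟩
  have hR1 : Q.length + 1 ≤ R := by rw [hR]; exact Nat.le_self_pow (by norm_num) _
  have e1 : (C * (Q.length + 1) ^ 2 + 7 + 40) * Q.length ≤ C * R + 47 * R := by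
    have h1 : (Q.length + 1) ^ 2 * Q.length ≤ R := by
      rw [hR]
      calc (Q.length + 1) ^ 2 * Q.length ≤ (Q.length + 1) ^ 2 * (Q.length + 1) :=
            Nat.mul_le_mul_left _ (by omega)
        _ = (Q.length + 1) ^ 3 := by ring
    have h2 := Nat.mul_le_mul_left C h1
    have h3 : (C * (Q.length + 1) ^ 2 + 7 + 40) * Q.length =
        C * ((Q.length + 1) ^ 2 * Q.length) + 47 * Q.length := by ring
    omega
  have e2 : (C + 200) * (Q.length + 1) ^ 3 = C * R + 200 * R := by rw [hR]; ring
  rw [e2]
  have d2 := c2.trans (Nat.add_le_add_right e1 30)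
  have key : ∀ t1 t2 : ℕ, t1 ≤ 20 * Q.length + 20 → t2 ≤ C * R + 47 * R + 30 →
      1 + (1 + 1 + 1 + (1 + 1 + 1 + t1) + 1) + 1 + t2 ≤ C * R + 200 * R := by
    intro t1 t2 h1 h2
    omega
  exact key _ _ c1 d2

/-- the result; input `((Q, A), (W, (θ, powers)))` -/
def finP (m : Pr [] (.prod (.prod Po Po) Po) Po) (sol : Pr [] (.prod Ma Po) Po) :
    Pr [] (.prod (.prod Po ML) (.prod Ma (.prod Po Ma))) (.prod Po ML) :=
  .pair
    (.comp (.comp (.pair (.comp (.comp .snd .snd) .snd)
      (.comp (.pair (.comp .fst .fst) (.comp (.comp .snd .snd) .fst)) (powP m))) sol) negP)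
    (.comp (.pair (onL (.comp .fst .snd) .nil (.comp .snd .fst))
      (.comp (.pair (.comp .fst .fst) (.comp (.pair (.comp (.comp .snd .snd) .snd)
        (.comp .snd .fst)) (mapP sol))) transpP)) (mapP (reshP (b := .fld) (a := .fld))))

/-- the polynomial of the result -/
noncomputable def q1f (m : Pr [] (.prod (.prod Po Po) Po) Po) (sol : Pr [] (.prod Ma Po) Po)
    (Q θ : List F) (pw : List (List F)) : List F :=
  List.map (fun (y : F) => -y) (sol.val () (pw, pwf m Q θ Q.length))

/-- the coordinates of the vectors -/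
noncomputable def wcf (sol : Pr [] (.prod Ma Po) Po) (W pw : List (List F)) : List (List F) :=
  W.map (fun w => sol.val () (pw, w))

/-- the arrays of the result -/
noncomputable def a1f (sol : Pr [] (.prod Ma Po) Po) (Q : List F)
    (A : List (List (List F))) (W pw : List (List F)) : List (List (List F)) :=
  List.map (fun (row : List F) => resh (lcase A [] (fun h _ => h)) row)
    (transp Q.length (wcf sol W pw))

@[simp] theorem val_finP (m : Pr [] (.prod (.prod Po Po) Po) Po) (sol : Pr [] (.prod Ma Po) Po)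
    (v : SV F []) (x : Ty.D F (.prod (.prod Po ML) (.prod Ma (.prod Po Ma)))) :
    (finP m sol).val v x = (q1f m sol x.1.1 x.2.2.1 x.2.2.2, a1f sol x.1.1 x.1.2 x.2.1 x.2.2.2) := by
  simp [finP, q1f, a1f, wcf]

theorem sol_spec {sol : Pr [] (.prod Ma Po) Po} {C : ℕ} (hs : IsSol sol C) (Q : List F)
    (c : List F × List (List F)) (hc : GoodC Q c) (w : List F) (hw : w.length = Q.length) :
    List.length (sol.val () (c.2, w)) = Q.length ∧
    (LinearIndependent F (fun i : Fin Q.length => cvec (c.2.getD i [])) →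
      ∀ {k : Type} [Field k] [Algebra F k] (x : k), aeval x (mpol Q) = 0 →
        E x w = E (E x c.1) (sol.val () (c.2, w))) := by
  obtain ⟨h1, h2, h3, h4⟩ := hc
  have h5 := hs F Q.length Q.length c.2 w h2 h3 hw
  refine ⟨h5.1, ?_⟩
  intro hli k _ _ x hx
  have h6 := h5.2.1 hli (spans Q.length c.2 w hw h3 h2 hli)
  have h7 := E_lin x Q.length w (fun i : Fin Q.length => c.2.getD i [])
    (fun i => List.getD (sol.val () (c.2, w)) i 0) hw.le (fun i => by
      rw [List.getD_eq_getElem _ _ (by rw [h2]; exact i.2)]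
      exact (h3 _ (List.getElem_mem _)).le) h6
  have h8 : ∀ i : Fin Q.length, E x ((fun i : Fin Q.length => c.2.getD i []) i) =
      E x c.1 ^ (i : ℕ) := fun i => h4 x hx i
  simp only [h8] at h7
  rw [h7, E_sum (E x c.1) (sol.val () (c.2, w)) Q.length (le_of_eq h5.1), Finset.sum_range]

theorem a1_spec {sol : Pr [] (.prod Ma Po) Po} {C : ℕ} (hs : IsSol sol C) (j : ℕ) (Q : List F)
    (A : List (List (List F))) (hA : A.length = Q.length) (hQ : 1 ≤ Q.length)
    (hj : ∀ x ∈ A, IsHom j x) (c : List F × List (List F)) (hc : GoodC Q c) (W : List (List F))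
    (hW : Sh Q.length W) (hWN : W.length = (shp j).sum) :
    (a1f sol Q A W c.2).length = Q.length ∧ (∀ x ∈ a1f sol Q A W c.2, IsHom j x) ∧
    ∀ p < (shp j).sum, ∀ b < Q.length,
      (((a1f sol Q A W c.2).getD b []).flatten).getD p 0 =
        List.getD (sol.val () (c.2, W.getD p [])) b 0 := by
  have h1 : ∀ y ∈ wcf sol W c.2, y.length = Q.length := by
    intro y hy
    obtain ⟨w, hw, rfl⟩ := List.mem_map.mp hy
    exact (sol_spec hs Q c hc w (hW w hw)).1
  have h0 : (wcf sol W c.2).length = (shp j).sum := by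
    rw [wcf, List.length_map, hWN]
  have h2 := length_transp Q.length (wcf sol W c.2) h1
  have h3 := transp_mem Q.length (wcf sol W c.2) h1
  have hsh : (lcase A [] (fun h _ => h)).map List.length = shp j := by
    cases A with
    | nil => simp at hA; omega
    | cons a A => exact (isHom_iff j a).mp (hj a (by simp))
  have h4 : ∀ row ∈ transp Q.length (wcf sol W c.2),
      (resh (lcase A [] (fun h _ => h)) row).map List.length = shp j ∧
      (resh (lcase A [] (fun h _ => h)) row).flatten = row := by
    intro row hrow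
    have := resh_spec (lcase A [] (fun h _ => h)) row (by rw [hsh, h3 row hrow, h0])
    rw [hsh] at this
    exact this
  refine ⟨by rw [a1f, List.length_map, h2], ?_, ?_⟩
  · intro x hx
    obtain ⟨row, hrow, rfl⟩ := List.mem_map.mp hx
    exact (isHom_iff j _).mpr (h4 row hrow).1
  · intro p hp b hb
    have hb2 : b < (transp Q.length (wcf sol W c.2)).length := by rw [h2]; exact hb
    rw [List.getD_eq_getElem (a1f sol Q A W c.2) _ (by rw [a1f, List.length_map]; exact hb2)]
    simp only [a1f, List.getElem_map]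
    rw [(h4 _ (List.getElem_mem hb2)).2, ← List.getD_eq_getElem _ [] hb2]
    have h5 : ∀ y : List F, y.length = Q.length → y.length ≤ Q.length := fun y hy => hy.le
    rw [transp_getD (0 : F) Q.length (wcf sol W c.2) h1 b hb,
      List.getD_eq_getElem _ _ (by rw [List.length_map, h0]; exact hp), List.getElem_map]
    simp only [wcf, List.getElem_map]
    rw [List.getD_eq_getElem W _ (by rw [hWN]; exact hp)]

theorem cost_finP {m : Pr [] (.prod (.prod Po Po) Po) Po} {C : ℕ} (hm : IsMul m C)
    {sol : Pr [] (.prod Ma Po) Po} {C' : ℕ} (hs : IsSol sol C') (j : ℕ) (Q : List F)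
    (A : List (List (List F))) (hA : A.length = Q.length) (hQ : 1 ≤ Q.length)
    (hj : ∀ x ∈ A, IsHom j x) (c : List F × List (List F)) (hc : GoodC Q c) (W : List (List F))
    (hW : Sh Q.length W) (hWN : W.length = (shp j).sum) :
    (finP m sol).cost () () ((Q, A), (W, c)) ≤
      (C + 16 * C' + 2000) * ((j + 1) * (j + 1) * (Q.length + 1) ^ 3) := by
  have h1 : ∀ y ∈ wcf sol W c.2, y.length = Q.length := by
    intro y hy
    obtain ⟨w, hw, rfl⟩ := List.mem_map.mp hy
    exact (sol_spec hs Q c hc w (hW w hw)).1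
  have h0 : (wcf sol W c.2).length = (shp j).sum := by
    rw [wcf, List.length_map, hWN]
  have h2 := length_transp Q.length (wcf sol W c.2) h1
  have h3 := transp_mem Q.length (wcf sol W c.2) h1
  have hp := pwf_spec hm Q c.1 Q.length hQ hc.1
  have s1 := hs F Q.length Q.length c.2 (pwf m Q c.1 Q.length) hc.2.1 hc.2.2.1 hp.1
  have c1 := cost_powP hm Q c.1 hc.1
  have c2 := s1.2.2
  have c3 := cost_negP (F := F) (s := []) () () (sol.val () (c.2, pwf m Q c.1 Q.length))
  have c4 := cost_mapP_le (F := F) (s := []) (c := Ma) (a := Po) (b := Po) sol () () (c.2, W)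
    (C' * (Q.length + Q.length + 1) ^ 3) (fun w hw =>
      (hs F Q.length Q.length c.2 w hc.2.1 hc.2.2.1 (hW w hw)).2.2)
  have c5 := cost_transpP (F := F) (s := []) (a := .fld) (b := .fld) () ()
    (Q, wcf sol W c.2) h1
  have c6 := cost_mapP_le (F := F) (s := []) (c := Ma) (a := Po) (b := Ma)
    (reshP (b := .fld) (a := .fld)) () ()
    (lcase A [] (fun h _ => h), transp Q.length (wcf sol W c.2))
    ((24 * (j + 1) + 60) * (j + 1) + 20) (fun w hw => by
      have h5 : (lcase A [] (fun h _ => h)).length = j + 1 ∧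
          ∀ y ∈ (lcase A [] (fun h _ => h)), y.length ≤ j + 1 := by
        cases A with
        | nil => simp at hA; omega
        | cons a A => exact isHom_row j a (hj a (by simp))
      have h6 := cost_reshP (F := F) (s := []) (b := .fld) (a := .fld) () ()
        (lcase A [] (fun h _ => h), w) (j + 1) h5.2
      refine h6.trans_eq ?_
      simp only [h5.1])
  have s1l : List.length (sol.val () (c.2, pwf m Q c.1 Q.length)) = Q.length := s1.1
  rw [s1l] at c3
  simp only [h2, h0, hWN] at c4 c5 c6
  have hN := shp_sum_le j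
  obtain ⟨N, hN'⟩ : ∃ N, N = (shp j).sum := ⟨_, rfl⟩
  obtain ⟨r, hr⟩ : ∃ r, r = Q.length := ⟨_, rfl⟩
  simp only [← hN', ← hr] at c1 c2 c3 c4 c5 c6 hN ⊢
  obtain ⟨J, hJ⟩ : ∃ J, J = (j + 1) * (j + 1) := ⟨_, rfl⟩
  obtain ⟨R, hR⟩ : ∃ R, R = (r + 1) ^ 3 := ⟨_, rfl⟩
  have hR1 : r + 1 ≤ R := by rw [hR]; exact Nat.le_self_pow (by norm_num) _
  have hJ1 : j + 1 ≤ J := by rw [hJ]; exact Nat.le_mul_of_pos_left _ (by omega)
  have hRJ : R ≤ J * R := Nat.le_mul_of_pos_left _ (by omega)
  have hJR : J * (r + 1) ≤ J * R := Nat.mul_le_mul_left _ hR1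
  have hJR' : J * (r + 1) = J * r + J := by ring
  rw [← hJ] at hN
  have d1 : (C + 200) * (r + 1) ^ 3 ≤ C * (J * R) + 200 * (J * R) := by
    rw [← hR]
    have := Nat.mul_le_mul_left (C + 200) hRJ
    have h7 : (C + 200) * (J * R) = C * (J * R) + 200 * (J * R) := by ring
    omega
  have e8 : (r + r + 1) ^ 3 ≤ 8 * R := by
    rw [hR]
    calc (r + r + 1) ^ 3 ≤ (2 * (r + 1)) ^ 3 := Nat.pow_le_pow_left (by omega) _
      _ = 8 * (r + 1) ^ 3 := by ring
  have d2 : C' * (r + r + 1) ^ 3 ≤ 8 * (C' * (J * R)) := by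
    calc C' * (r + r + 1) ^ 3 ≤ C' * (8 * R) := Nat.mul_le_mul_left _ e8
      _ ≤ C' * (8 * (J * R)) := Nat.mul_le_mul_left _ (Nat.mul_le_mul_left _ hRJ)
      _ = 8 * (C' * (J * R)) := by ring
  have d4 : (C' * (r + r + 1) ^ 3 + 13) * N + 5 ≤ 8 * (C' * (J * R)) + 18 * (J * R) := by
    have h7 : C' * (r + r + 1) ^ 3 * N ≤ 8 * (C' * (J * R)) := by
      calc C' * (r + r + 1) ^ 3 * N ≤ C' * (8 * R) * J :=
            Nat.mul_le_mul (Nat.mul_le_mul_left _ e8) hN
        _ = 8 * (C' * (J * R)) := by ring
    have h8 : (C' * (r + r + 1) ^ 3 + 13) * N = C' * (r + r + 1) ^ 3 * N + 13 * N := by ring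
    have h9 : J ≤ J * R := Nat.le_mul_of_pos_right _ (by omega)
    omega
  have d5 : (51 * r + 90) * (N + 1) ≤ 300 * (J * R) := by
    calc (51 * r + 90) * (N + 1) ≤ (90 * (r + 1)) * (2 * J) :=
          Nat.mul_le_mul (by omega) (by omega)
      _ = 180 * (J * (r + 1)) := by ring
      _ ≤ 300 * (J * R) := by omega
  have d6 : ((24 * (j + 1) + 60) * (j + 1) + 20 + 13) * r + 5 ≤ 200 * (J * R) := by
    have h7 : (24 * (j + 1) + 60) * (j + 1) + 20 + 13 ≤ 120 * J := by
      have : (24 * (j + 1) + 60) * (j + 1) = 24 * J + 60 * (j + 1) := by rw [hJ]; ring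
      omega
    have h8 := Nat.mul_le_mul_right r h7
    have h9 : 120 * J * r = 120 * (J * r) := by ring
    omega
  have hfin : (C + 16 * C' + 2000) * (J * R) =
      C * (J * R) + 16 * (C' * (J * R)) + 2000 * (J * R) := by ring
  rw [← hJ, ← hR, hfin]
  replace c1 := c1.trans d1
  replace c2 := c2.trans d2
  replace c4 := c4.trans d4
  replace c5 := c5.trans d5
  replace c6 := c6.trans d6
  have hc7 : ∀ (z : List (List (List F))) (w : Ty.D F (.prod (.prod Po ML) (.prod Ma (.prod Po Ma)))),
      lcase z ((Pr.nil : Pr [] (.prod (.prod Po ML) (.prod Ma (.prod Po Ma))) Ma).cost (F := F)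
        () () w) (fun h t =>
      (Pr.comp Pr.snd Pr.fst : Pr [] (.prod (.prod (.prod Po ML) (.prod Ma (.prod Po Ma)))
        (.prod Ma (.list Ma))) Ma).cost (F := F) () () (w, (h, t))) ≤ 2 := by
    intro z w
    cases z with
    | nil => simp
    | cons _ _ => simp
  have c7 := hc7 A ((Q, A), (W, c))
  simp only [finP, cost_pair, cost_comp, cost_fst, cost_snd, val_comp, val_pair, val_fst,
    val_snd, val_powP, cost_onL, val_onL, val_nil, val_transpP, val_mapP] at c7 ⊢
  simp only [← hr]
  have key : ∀ t1 t2 t3 t4 t5 t6 t7 : ℕ, t1 ≤ C * (J * R) + 200 * (J * R) →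
      t2 ≤ 8 * (C' * (J * R)) → t3 ≤ 20 * r + 20 → t4 ≤ 8 * (C' * (J * R)) + 18 * (J * R) →
      t5 ≤ 300 * (J * R) → t6 ≤ 200 * (J * R) → t7 ≤ 2 →
      1 + 1 + 1 + (1 + 1 + (1 + 1 + 1) + 1 + t1) + 1 + t2 + t3 +
          ((1 + 1 + 3 + t7) + (1 + 1 + (1 + 1 + 1 + (1 + 1) + 1 + t4) + 1 + t5) + 1 + t6) + 1 ≤
      C * (J * R) + 16 * (C' * (J * R)) + 2000 * (J * R) := by
    intro t1 t2 t3 t4 t5 t6 t7 h1 h2 h3 h4 h5 h6 h7
    omega
  exact key _ _ _ _ _ _ _ c1 c2 c3 c4 c5 c6 c7

end fin


/-! ### the main program -/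
section main
variable {F : Type} [Field F] [DecidableEq F]

/-- the polynomial and the arrays, from the fourth context -/
def qaP {a1 a2 a3 a4 b1 c1 b2 : Ty} :
    Pr [] (.prod (.prod (.prod (.prod (.prod b1 (.prod c1 b2)) a1) a2) a3) a4) c1 :=
  .comp (.comp (.comp .fst (.comp .fst (.comp .fst .fst))) .snd) .fst

@[simp] theorem val_qaP {a1 a2 a3 a4 b1 c1 b2 : Ty} (v : SV F [])
    (x : Ty.D F (.prod (.prod (.prod (.prod (.prod b1 (.prod c1 b2)) a1) a2) a3) a4)) :
    qaP.val v x = x.1.1.1.1.2.1 := by simp [qaP]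

@[simp] theorem cost_qaP {a1 a2 a3 a4 b1 c1 b2 : Ty} (v : SV F []) (k : SC F [])
    (x : Ty.D F (.prod (.prod (.prod (.prod (.prod b1 (.prod c1 b2)) a1) a2) a3) a4)) :
    qaP.cost v k x = 6 := by simp [qaP]

/-- the candidates; input `((bits, (e, t)), ((Q, A), rows))` -/
def csP (pn : Pr [] (.prod (.prod Po (.prod Po Un)) Po) Po) (pt : Pr [] (.prod Po Po) Ma)
    (ker : Pr [] (.list (.prod .unit Po)) (.prod (.list .unit) (.list (.prod .unit Po)))) :
    Pr [] (.prod (.prod Po (.prod Un Un)) (.prod (.prod Po ML) Ma)) (.list (.prod Po Ma)) :=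
  .comp (.comp (.pair (.pair (.pair (.comp .fst .fst) (.pair
      (.comp (.comp (.comp .snd .fst) .fst) lenP) (.comp (.comp .snd .fst) .fst)))
      (.comp (.comp .fst .snd) .fst)) (.comp .snd .snd)) (mapP (candP pn pt ker))) flatP

/-- its function -/
noncomputable def csf (pn : Pr [] (.prod (.prod Po (.prod Po Un)) Po) Po)
    (pt : Pr [] (.prod Po Po) Ma)
    (ker : Pr [] (.list (.prod .unit Po)) (.prod (.list .unit) (.list (.prod .unit Po))))
    (bq : List F) (Q : List F) (e : ℕ) (R : List (List F)) : List (List F × List (List F)) :=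
  (R.map (fun row => candf pn pt ker bq (un Q.length) Q e row)).flatten

@[simp] theorem val_csP (pn : Pr [] (.prod (.prod Po (.prod Po Un)) Po) Po)
    (pt : Pr [] (.prod Po Po) Ma)
    (ker : Pr [] (.list (.prod .unit Po)) (.prod (.list .unit) (.list (.prod .unit Po))))
    (v : SV F []) (x : Ty.D F (.prod (.prod Po (.prod Un Un)) (.prod (.prod Po ML) Ma))) :
    (csP pn pt ker).val v x =
      csf pn pt ker x.1.1 x.2.1.1 (List.length x.1.2.1) x.2.2 := by
  simp [csP, csf]

theorem cs_mem {pn : Pr [] (.prod (.prod Po (.prod Po Un)) Po) Po} {C : ℕ} (hp : IsPN pn C)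
    {pt : Pr [] (.prod Po Po) Ma} {C' : ℕ} (ht : IsPT pt C')
    {ker : Pr [] (.list (.prod .unit Po)) (.prod (.list .unit) (.list (.prod .unit Po)))}
    {C'' : ℕ} (hk : IsKer ker C'')
    (q e : ℕ) (Q : List F) (R : List (List F)) (hQ : 1 ≤ Q.length)
    (hR : ∀ row ∈ R, Q.length ≤ row.length) :
    (∀ c ∈ csf pn pt ker (bits F q) Q e R, GoodC Q c ∧
      LinearIndependent F (fun i : Fin Q.length => cvec (c.2.getD i [])) ∧
      ∃ row ∈ R, ∀ {k : Type} [Field k] [Algebra F k] (x : k), aeval x (mpol Q) = 0 →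
        E x c.1 = trq q e Q.length (E x (row.take Q.length))) ∧
    (csf pn pt ker (bits F q) Q e R = [] → ∀ row ∈ R, ∃ c : List F × List (List F), GoodC Q c ∧
      (∀ {k : Type} [Field k] [Algebra F k] (x : k), aeval x (mpol Q) = 0 →
        E x c.1 = trq q e Q.length (E x (row.take Q.length))) ∧
      ¬ LinearIndependent F (fun i : Fin Q.length => cvec (c.2.getD i []))) := by
  constructor
  · intro c hc
    rw [csf, List.mem_flatten] at hc
    obtain ⟨l, hl, hcl⟩ := hc
    obtain ⟨row, hrow, rfl⟩ := List.mem_map.mp hl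
    obtain ⟨c', h1, h2, h3⟩ := cand_spec hp ht hk q Q.length e Q row hQ (hR row hrow)
    rcases h3 with ⟨h3, h4⟩ | ⟨h3, h4⟩
    · rw [h3, List.mem_singleton] at hcl
      subst hcl
      exact ⟨h1, h4, row, hrow, h2⟩
    · rw [h3] at hcl
      simp at hcl
  · intro h0 row hrow
    obtain ⟨c', h1, h2, h3⟩ := cand_spec hp ht hk q Q.length e Q row hQ (hR row hrow)
    refine ⟨c', h1, h2, ?_⟩
    rcases h3 with ⟨h3, h4⟩ | ⟨h3, h4⟩
    · exfalso
      have : c' ∈ csf pn pt ker (bits F q) Q e R := by
        rw [csf, List.mem_flatten]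
        exact ⟨_, List.mem_map_of_mem hrow, by rw [h3]; simp⟩
      rw [h0] at this
      simp at this
    · exact h4

theorem cost_csP {pn : Pr [] (.prod (.prod Po (.prod Po Un)) Po) Po} {C : ℕ} (hp : IsPN pn C)
    {pt : Pr [] (.prod Po Po) Ma} {C' : ℕ} (ht : IsPT pt C')
    {ker : Pr [] (.list (.prod .unit Po)) (.prod (.list .unit) (.list (.prod .unit Po)))}
    {C'' : ℕ} (hk : IsKer ker C'')
    (q e t : ℕ) (Q : List F) (A : List (List (List F))) (R : List (List F)) (hQ : 1 ≤ Q.length)
    (hR : ∀ row ∈ R, Q.length ≤ row.length) :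
    (csP pn pt ker).cost () () ((bits F q, (un e, un t)), ((Q, A), R)) ≤
      (C + C' + 10 * C'' + 1000) * ((e + 1) * (R.length + 1) * lgc q * (Q.length + 1) ^ 3) := by
  have c1 := cost_lenP (F := F) (s := []) (a := .fld) () () Q
  have c2 := cost_mapP_le (F := F) (s := []) (c := .prod (.prod Po (.prod Un Po)) Un) (a := Po)
    (b := .list (.prod Po Ma)) (candP pn pt ker) () () (((bits F q, (un Q.length, Q)), un e), R)
    ((C + C' + 10 * C'' + 500) * ((e + 1) * lgc q * (Q.length + 1) ^ 3))
    (fun row hrow => cost_candP hp ht hk q e Q row hQ (hR row hrow))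
  have c3 := cost_flatP (F := F) (s := []) (a := .prod Po Ma) () ()
    ((mapP (candP pn pt ker)).val (F := F) () (((bits F q, (un Q.length, Q)), un e), R)) 1 (by
      intro y hy
      rw [val_mapP] at hy
      obtain ⟨row, hrow, rfl⟩ := List.mem_map.mp hy
      rw [val_candP]
      obtain ⟨c', h1, h2, h3⟩ := cand_spec hp ht hk q Q.length e Q row hQ (hR row hrow)
      have hu : List.length (un e) = e := by simp [un]
      simp only [hu]
      rcases h3 with ⟨h3, h4⟩ | ⟨h3, h4⟩
      · refine (congrArg List.length h3).trans_le ?_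
        simp
      · refine (congrArg List.length h3).trans_le ?_
        simp)
  have h4 : List.length ((mapP (candP pn pt ker)).val (F := F) ()
      (((bits F q, (un Q.length, Q)), un e), R)) = R.length := by
    rw [val_mapP]; exact List.length_map _
  rw [h4] at c3
  replace c2 := c2.trans_eq (show _ = ((C + C' + 10 * C'' + 500) *
    ((e + 1) * lgc q * (Q.length + 1) ^ 3) + 13) * R.length + 5 from rfl)
  obtain ⟨T, hT⟩ : ∃ T, T = R.length := ⟨_, rfl⟩
  obtain ⟨B, hB⟩ : ∃ B, B = (e + 1) * lgc q * (Q.length + 1) ^ 3 := ⟨_, rfl⟩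
  obtain ⟨K, hK⟩ : ∃ K, K = C + C' + 10 * C'' := ⟨_, rfl⟩
  have hB1 : Q.length + 1 ≤ B := by
    rw [hB]
    calc Q.length + 1 ≤ (Q.length + 1) ^ 3 := Nat.le_self_pow (by norm_num) _
      _ ≤ (e + 1) * lgc q * (Q.length + 1) ^ 3 :=
        Nat.le_mul_of_pos_left _ (Nat.mul_pos (by omega) (by unfold lgc; omega))
  have e1 : (e + 1) * (T + 1) * lgc q * (Q.length + 1) ^ 3 = B * T + B := by rw [hB]; ring
  have e2 : ((K + 500) * B + 13) * T + 5 = K * (B * T) + 500 * (B * T) + 13 * T + 5 := by ring
  have e3 : (K + 1000) * (B * T + B) = K * (B * T) + K * B + 1000 * (B * T) + 1000 * B := by ring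
  have e4 : T ≤ B * T := Nat.le_mul_of_pos_left _ (by omega)
  rw [← hT, ← hB, ← hK, e2] at c2
  rw [← hT] at c3
  rw [← hT, ← hK, e1, e3]
  simp only [csP, cost_comp, cost_pair, cost_fst, cost_snd, val_comp, val_pair, val_fst,
    val_snd, val_lenP] at c3 ⊢
  have key : ∀ t1 t2 t3 : ℕ, t1 ≤ 14 * Q.length + 10 →
      t2 ≤ K * (B * T) + 500 * (B * T) + 13 * T + 5 → t3 ≤ (20 * 1 + 71) * T + 40 →
      1 + 1 + (1 + 1 + 1 + t1 + (1 + 1 + 1) + 1) + 1 + (1 + 1 + 1) + 1 + (1 + 1) + 1 + t2 + t3 ≤
      K * (B * T) + K * B + 1000 * (B * T) + 1000 * B := by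
    intro t1 t2 t3 h1 h2 h3
    omega
  exact key _ _ _ c1 c2 c3

/-- the whole program -/
def mainP (pn : Pr [] (.prod (.prod Po (.prod Po Un)) Po) Po) (pt : Pr [] (.prod Po Po) Ma)
    (ker : Pr [] (.list (.prod .unit Po)) (.prod (.list .unit) (.list (.prod .unit Po))))
    (m : Pr [] (.prod (.prod Po Po) Po) Po) (sol : Pr [] (.prod Ma Po) Po)
    (inv : Pr [] (.prod Po Po) Po) :
    Pr [] (.prod (.prod Po (.prod Un Un)) (.prod (.prod Po ML) Ma)) (.prod Po ML) :=
  lt (csP pn pt ker)
    (lt (.comp (.comp (.comp .fst .snd) (.comp .fst .snd)) vecP)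
      (lt (.comp (.pair (.comp (.pair (.comp (.comp (.comp .fst .fst) .snd) (.comp .fst .fst))
          .snd) firP) (.comp (.comp (.comp .fst .fst) .snd) (.comp .fst .fst))) inv)
        (lt (.comp (.pair (.pair .snd (.comp (.comp (.comp .fst (.comp .fst .fst)) .snd)
            (.comp .fst .fst))) (.comp .fst .snd)) (mapP (mzP m)))
          (onL (.comp (.comp .fst (.comp .fst .fst)) .snd) qaP
            (.comp (.pair (.comp .fst qaP) (.pair (.comp .fst .snd) (.comp .snd .fst)))
              (finP m sol))))))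

/-- the inverse of the first vector -/
noncomputable def uf (inv : Pr [] (.prod Po Po) Po) (Q : List F) (A : List (List (List F))) :
    List F := inv.val () (firf Q (vecf A), Q)

/-- the scaled vectors -/
noncomputable def wf (m : Pr [] (.prod (.prod Po Po) Po) Po) (inv : Pr [] (.prod Po Po) Po)
    (Q : List F) (A : List (List (List F))) : List (List F) :=
  (vecf A).map (fun v => mf m Q v (uf inv Q A))

theorem val_mainP (pn : Pr [] (.prod (.prod Po (.prod Po Un)) Po) Po)
    (pt : Pr [] (.prod Po Po) Ma)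
    (ker : Pr [] (.list (.prod .unit Po)) (.prod (.list .unit) (.list (.prod .unit Po))))
    (m : Pr [] (.prod (.prod Po Po) Po) Po) (sol : Pr [] (.prod Ma Po) Po)
    (inv : Pr [] (.prod Po Po) Po) (q e t : ℕ) (Q : List F) (A : List (List (List F)))
    (R : List (List F)) :
    ((mainP pn pt ker m sol inv).val () ((bits F q, (un e, un t)), ((Q, A), R)) :
      List F × List (List (List F))) =
      lcase (csf pn pt ker (bits F q) Q e R) (Q, A) (fun c _ => (q1f m sol Q c.1 c.2,
        a1f sol Q A (wf m inv Q A) c.2)) := by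
  have hu : List.length (un e) = e := by simp [un]
  simp only [mainP, val_lt, val_csP, val_comp, val_fst, val_snd, val_vecP, val_pair, val_firP,
    val_mapP, val_mzP, val_onL, val_qaP, val_finP, hu]
  rfl

theorem w_spec {m : Pr [] (.prod (.prod Po Po) Po) Po} {C : ℕ} (hm : IsMul m C)
    {inv : Pr [] (.prod Po Po) Po} {C' : ℕ} (hi : IsInv inv C')
    (j : ℕ) (Q : List F) (A : List (List (List F))) (hA : A.length = Q.length)
    (hQ : 1 ≤ Q.length) (hj : ∀ x ∈ A, IsHom j x) :
    (uf inv Q A).length = Q.length ∧ Sh Q.length (wf m inv Q A) ∧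
    (wf m inv Q A).length = (shp j).sum ∧
    ∀ {k : Type} [Field k] [Algebra F k] (x : k), aeval x (mpol Q) = 0 →
      ∀ p < (shp j).sum, E x ((wf m inv Q A).getD p []) =
        E x ((vecf A).getD p []) * E x (uf inv Q A) := by
  obtain ⟨h1, h2, -⟩ := vec_spec Q.length j A hA hQ hj
  have h3 := (fir_spec Q (vecf A) h2).1
  have h4 : (uf inv Q A).length = Q.length := (hi F _ Q h3).2.1
  refine ⟨h4, ?_, by rw [wf, List.length_map, h1], ?_⟩
  · intro w hw
    obtain ⟨v, hv, rfl⟩ := List.mem_map.mp hw
    exact mf_len hm Q v _ (h2 v hv) h4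
  · intro k _ _ x hx p hp
    have hp1 : p < (vecf A).length := by rw [h1]; exact hp
    rw [List.getD_eq_getElem (wf m inv Q A) _ (by rw [wf, List.length_map]; exact hp1)]
    simp only [wf, List.getElem_map]
    rw [mf_val hm Q _ _ (h2 _ (List.getElem_mem hp1)) h4 x hx,
      List.getD_eq_getElem (vecf A) _ hp1]

theorem cost_mainP {pn : Pr [] (.prod (.prod Po (.prod Po Un)) Po) Po} {C1 : ℕ}
    (hp : IsPN pn C1) {pt : Pr [] (.prod Po Po) Ma} {C2 : ℕ} (ht : IsPT pt C2)
    {ker : Pr [] (.list (.prod .unit Po)) (.prod (.list .unit) (.list (.prod .unit Po)))}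
    {C3 : ℕ} (hk : IsKer ker C3) {m : Pr [] (.prod (.prod Po Po) Po) Po} {C4 : ℕ}
    (hm : IsMul m C4) {sol : Pr [] (.prod Ma Po) Po} {C5 : ℕ} (hs : IsSol sol C5)
    {inv : Pr [] (.prod Po Po) Po} {C6 : ℕ} (hi : IsInv inv C6)
    (q e t j : ℕ) (Q : List F) (A : List (List (List F)))
    (R : List (List F)) (hQ : 1 ≤ Q.length) (hA : A.length = Q.length)
    (hj : ∀ x ∈ A, IsHom j x) (hR : ∀ row ∈ R, Q.length ≤ row.length) :
    (mainP pn pt ker m sol inv).cost () () ((bits F q, (un e, un t)), ((Q, A), R)) ≤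
      (C1 + C2 + 10 * C3 + 2 * C4 + 16 * C5 + 5 * C6 + 6000) *
        ((e + 1) * (R.length + 1) * lgc q * ((j + 1) * (j + 1) * (Q.length + 1) ^ 3)) := by
  obtain ⟨v1, v2, -⟩ := vec_spec Q.length j A hA hQ hj
  have v3 := (fir_spec Q (vecf A) v2).1
  obtain ⟨w1, w2, w3, -⟩ := w_spec hm hi j Q A hA hQ hj
  have c1 := cost_csP hp ht hk q e t Q A R hQ hR
  have c2 := cost_vecP Q.length j A hA hQ hj
  have c3 := cost_firP Q (vecf A) v2
  have c4 := (hi F _ Q v3).2.2
  have c5 := cost_mapP_le (F := F) (s := []) (c := .prod Po Po) (a := Po) (b := Po) (mzP m) () ()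
    ((uf inv Q A, Q), vecf A) (C4 * (Q.length + 1) ^ 2 + 7) (fun y hy => by
      rw [cost_mzP]
      exact Nat.add_le_add_right (mf_cost hm Q y (uf inv Q A) (v2 y hy) w1) 7)
  have c6 := fun c : List F × List (List F) => fun hc : GoodC Q c =>
    cost_finP hm hs j Q A hA hQ hj c hc (wf m inv Q A) w2 w3
  have c7 := (cs_mem hp ht hk q e Q R hQ hR).1
  replace c5 := c5.trans_eq (show _ = (C4 * (Q.length + 1) ^ 2 + 7 + 13) * (vecf A).length + 5
    from rfl)
  rw [v1] at c3 c5
  have c8 := ww_le Q.length
  have hN := shp_sum_le j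
  obtain ⟨N, hN'⟩ : ∃ N, N = (shp j).sum := ⟨_, rfl⟩
  obtain ⟨r, hr⟩ : ∃ r, r = Q.length := ⟨_, rfl⟩
  obtain ⟨T, hT⟩ : ∃ T, T = R.length := ⟨_, rfl⟩
  obtain ⟨J, hJ⟩ : ∃ J, J = (j + 1) * (j + 1) := ⟨_, rfl⟩
  obtain ⟨V, hV⟩ : ∃ V, V = (r + 1) ^ 3 := ⟨_, rfl⟩
  obtain ⟨U, hU⟩ : ∃ U, U = (e + 1) * (T + 1) * lgc q := ⟨_, rfl⟩
  simp only [← hr, ← hN', ← hT, ← hJ, ← hV, ← hU] at c1 c2 c3 c4 c5 c6 c8 hN ⊢
  have hU1 : 1 ≤ U := by
    rw [hU]
    exact Nat.mul_pos (Nat.mul_pos (by omega) (by omega)) (by unfold lgc; omega)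
  have hV1 : r + 1 ≤ V := by rw [hV]; exact Nat.le_self_pow (by norm_num) _
  have hJ1 : 1 ≤ J := by rw [hJ]; exact Nat.mul_pos (by omega) (by omega)
  obtain ⟨M, hM⟩ : ∃ M, M = J * V := ⟨_, rfl⟩
  have hVM : V ≤ M := by rw [hM]; exact Nat.le_mul_of_pos_left _ hJ1
  have hJM : J ≤ M := by rw [hM]; exact Nat.le_mul_of_pos_right _ (by omega)
  have hJr : J * (r + 1) ≤ M := by rw [hM]; exact Nat.mul_le_mul_left _ hV1
  have hMU : M ≤ U * M := Nat.le_mul_of_pos_left _ hU1
  have d1 : (C1 + C2 + 10 * C3 + 1000) * (U * V) ≤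
      (C1 + C2 + 10 * C3) * (U * M) + 1000 * (U * M) := by
    have h1 := Nat.mul_le_mul_left (C1 + C2 + 10 * C3 + 1000) (Nat.mul_le_mul_left U hVM)
    have h2 : (C1 + C2 + 10 * C3 + 1000) * (U * M) =
      (C1 + C2 + 10 * C3) * (U * M) + 1000 * (U * M) := by ring
    omega
  have d2 : 500 * (J * (r + 1)) ≤ 500 * (U * M) := by omega
  have d3 : (120 * r + 300) * N + 100 ≤ 400 * (U * M) := by
    have h1 : (120 * r + 300) * N ≤ 300 * (J * (r + 1)) := by
      calc (120 * r + 300) * N ≤ (300 * (r + 1)) * J := Nat.mul_le_mul (by omega) hN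
        _ = 300 * (J * (r + 1)) := by ring
    omega
  have d4 : C6 * ww (r + 1) ≤ 5 * (C6 * (U * M)) := by
    calc C6 * ww (r + 1) ≤ C6 * (5 * V) := Nat.mul_le_mul_left _ c8
      _ ≤ C6 * (5 * (U * M)) := Nat.mul_le_mul_left _ (by omega)
      _ = 5 * (C6 * (U * M)) := by ring
  have d5 : (C4 * (r + 1) ^ 2 + 7 + 13) * N + 5 ≤ C4 * (U * M) + 25 * (U * M) := by
    have h1 : (r + 1) ^ 2 * N ≤ M := by
      rw [hM, mul_comm J V]
      refine Nat.mul_le_mul ?_ hN
      rw [hV]
      exact Nat.pow_le_pow_right (by omega) (by norm_num)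
    have h2 := Nat.mul_le_mul_left C4 (h1.trans hMU)
    have h3 : (C4 * (r + 1) ^ 2 + 7 + 13) * N = C4 * ((r + 1) ^ 2 * N) + 20 * N := by ring
    omega
  have d6 : (C4 + 16 * C5 + 2000) * M ≤
      C4 * (U * M) + 16 * (C5 * (U * M)) + 2000 * (U * M) := by
    have h1 := Nat.mul_le_mul_left (C4 + 16 * C5 + 2000) hMU
    have h2 : (C4 + 16 * C5 + 2000) * (U * M) =
      C4 * (U * M) + 16 * (C5 * (U * M)) + 2000 * (U * M) := by ring
    omega
  have hfin : (C1 + C2 + 10 * C3 + 2 * C4 + 16 * C5 + 5 * C6 + 6000) * (U * M) =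
      (C1 + C2 + 10 * C3) * (U * M) + 2 * (C4 * (U * M)) + 16 * (C5 * (U * M)) +
        5 * (C6 * (U * M)) + 6000 * (U * M) := by ring
  rw [← hM, hfin]
  rw [← hM] at c6
  replace c1 := c1.trans d1
  replace c2 := c2.trans d2
  replace c3 := c3.trans d3
  replace c4 := c4.trans d4
  replace c5 := c5.trans d5
  have c9 : ∀ c : List F × List (List F), GoodC Q c →
      (finP m sol).cost () () ((Q, A), (wf m inv Q A, c)) ≤
      C4 * (U * M) + 16 * (C5 * (U * M)) + 2000 * (U * M) := fun c hc => (c6 c hc).trans d6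
  have hu : List.length (un e) = e := by simp [un]
  simp only [mainP, cost_lt, val_csP, val_comp, val_fst, val_snd, val_vecP, val_pair,
    val_firP, val_mapP, val_mzP, cost_onL, val_qaP, cost_comp, cost_fst, cost_snd, cost_pair,
    cost_qaP, hu]
  have c10 : lcase (csf pn pt ker (bits F q) Q e R) 6 (fun h _ =>
      1 + 6 + (1 + 1 + (1 + 1) + 1) + 1 +
        (finP m sol).cost (F := F) () () ((Q, A), (wf m inv Q A, h))) ≤
      C4 * (U * M) + 16 * (C5 * (U * M)) + 2000 * (U * M) + 50 := by
    cases hz : csf pn pt ker (bits F q) Q e R with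
    | nil => simp only [lcase_nil]; omega
    | cons c l =>
      have := c9 c (c7 c (by rw [hz]; simp)).1
      simp only [lcase_cons]
      omega
  have key : ∀ t1 t2 t3 t4 t5 t6 : ℕ,
      t1 ≤ (C1 + C2 + 10 * C3) * (U * M) + 1000 * (U * M) → t2 ≤ 500 * (U * M) →
      t3 ≤ 400 * (U * M) → t4 ≤ 5 * (C6 * (U * M)) → t5 ≤ C4 * (U * M) + 25 * (U * M) →
      t6 ≤ C4 * (U * M) + 16 * (C5 * (U * M)) + 2000 * (U * M) + 50 →
      t1 + (1 + 1 + (1 + 1) + t2 +
            (1 + 1 + 1 + (1 + 1) + 1 + 1 + t3 + (1 + 1 + 1 + (1 + 1)) + 1 + t4 +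
                (1 + (1 + (1 + 1) + 1 + (1 + 1)) + 1 + (1 + 1) + 1 + t5 +
                    (1 + (1 + 1) + 1 + 3 + t6) + 2) + 2) + 2) + 2 ≤
      (C1 + C2 + 10 * C3) * (U * M) + 2 * (C4 * (U * M)) + 16 * (C5 * (U * M)) +
        5 * (C6 * (U * M)) + 6000 * (U * M) := by
    intro t1 t2 t3 t4 t5 t6 h1 h2 h3 h4 h5 h6
    omega
  exact key _ _ _ _ _ _ c1 c2 c3 c4 c5 c10

end main


theorem getD_flat_zero {F : Type} [Field F] (j : ℕ) (A : List (List (List F)))
    (hj : ∀ x ∈ A, IsHom j x) (p : ℕ) (hp : (shp j).sum ≤ p) (b : ℕ) :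
    ((A.getD b []).flatten).getD p 0 = 0 := by
  by_cases hb : b < A.length
  · rw [List.getD_eq_getElem A _ hb, List.getD_eq_default]
    rw [isHom_flat j _ (hj _ (List.getElem_mem hb))]
    exact hp
  · rw [List.getD_eq_default A _ (by omega)]
    simp

theorem arith1 (r j : ℕ) (hr : 1 ≤ r) (hj : 1 ≤ j) :
    (j + 1) * (j + 1) * (r + 1) ^ 3 ≤ 32 * (r * j + 1) ^ 3 := by
  have e2 : (j + 1) * (j + 1) ≤ 4 * (j * j) := by
    calc (j + 1) * (j + 1) ≤ (2 * j) * (2 * j) := Nat.mul_le_mul (by omega) (by omega)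
      _ = 4 * (j * j) := by ring
  have e3 : (r + 1) ^ 3 ≤ 8 * r ^ 3 := by
    calc (r + 1) ^ 3 ≤ (2 * r) ^ 3 := Nat.pow_le_pow_left (by omega) _
      _ = 8 * r ^ 3 := by ring
  calc (j + 1) * (j + 1) * (r + 1) ^ 3 ≤ (4 * (j * j)) * (8 * r ^ 3) :=
        Nat.mul_le_mul e2 e3
    _ = 32 * (r ^ 3 * (j * j)) := by ring
    _ ≤ 32 * (r ^ 3 * (j * j * j)) :=
      Nat.mul_le_mul_left _ (Nat.mul_le_mul_left _ (Nat.le_mul_of_pos_right _ hj))
    _ = 32 * (r * j) ^ 3 := by ring
    _ ≤ 32 * (r * j + 1) ^ 3 :=
      Nat.mul_le_mul_left _ (Nat.pow_le_pow_left (by omega) _)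

end L7b

open L7b in
/-- TARGET -/
theorem specDP (h1 : SpecPN) (h2 : SpecPT) (h3 : SpecKer) (h4 : SpecSolve) (h5 : SpecInv) (h6 : SpecNaive) (h0 : SpecUnits) : SpecDP := by
  obtain ⟨pn, C1, hp⟩ := h1
  obtain ⟨pt, C2, ht⟩ := h2
  obtain ⟨ker, C3, hk⟩ := h3 .unit
  obtain ⟨sol, C5, hs⟩ := h4
  obtain ⟨inv, C6, hi⟩ := h5
  obtain ⟨m, C4, hm⟩ := h6
  replace hp : IsPN pn C1 := hp
  replace ht : IsPT pt C2 := ht
  replace hk : IsKer ker C3 := hk
  replace hs : IsSol sol C5 := hs
  replace hi : IsInv inv C6 := hi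
  replace hm : IsMul m C4 := hm
  refine ⟨mainP pn pt ker m sol inv,
    32 * (C1 + C2 + 10 * C3 + 2 * C4 + 16 * C5 + 5 * C6 + 6000), 1, ?_⟩
  intro L _ _ q e r j t Q A a hirr hQr hA hr hj1 hj
  subst hQr
  have hR : ∀ row ∈ rows a, Q.length ≤ row.length := by
    intro row hrow
    simp only [rows, List.mem_ofFn] at hrow
    obtain ⟨i, rfl⟩ := hrow
    rw [List.length_ofFn]
    exact Nat.le_mul_of_pos_right _ hj1
  have hRl : (rows a).length = t := by simp [rows]
  obtain ⟨v1, v2, v3⟩ := vec_spec Q.length j A hA hr hj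
  obtain ⟨w1, w2, w3, w4⟩ := w_spec hm hi j Q A hA hr hj
  obtain ⟨m1, m2⟩ := cs_mem hp ht hk q e Q (rows a) hr hR
  constructor
  · have hc := cost_mainP hp ht hk hm hs hi q e t j Q A (rows a) hr hA hj hR
    rw [hRl] at hc
    refine hc.trans ?_
    have e1 := arith1 Q.length j hr hj1
    have e4 : 1 ≤ lgc (Q.length * j) := by unfold lgc; omega
    obtain ⟨K, hK⟩ : ∃ K, K = C1 + C2 + 10 * C3 + 2 * C4 + 16 * C5 + 5 * C6 + 6000 := ⟨_, rfl⟩
    obtain ⟨U, hU⟩ : ∃ U, U = (e + 1) * (t + 1) * lgc q := ⟨_, rfl⟩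
    rw [← hK, ← hU, pow_one]
    calc K * (U * ((j + 1) * (j + 1) * (Q.length + 1) ^ 3))
        ≤ K * (U * (32 * (Q.length * j + 1) ^ 3)) :=
          Nat.mul_le_mul_left _ (Nat.mul_le_mul_left _ e1)
      _ = 32 * K * (U * (Q.length * j + 1) ^ 3) := by ring
      _ ≤ 32 * K * (U * lgc (Q.length * j) * (Q.length * j + 1) ^ 3) :=
          Nat.mul_le_mul_left _ (Nat.mul_le_mul_right _ (Nat.le_mul_of_pos_right _ e4))
  · intro M _ _ ζ hζ hne hli
    -- the head of the candidates
    obtain ⟨τ0, hτ0⟩ := hli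
    have hcs : csf pn pt ker (bits L q) Q e (rows a) ≠ [] := by
      intro hnil
      obtain ⟨c, g1, g2, g3⟩ := m2 hnil (List.ofFn (a τ0)) (by
        simp only [rows, List.mem_ofFn]; exact ⟨τ0, rfl⟩)
      apply g3
      rw [li_iff ζ Q hirr hζ (fun i : Fin Q.length => c.2.getD i []) (by
        intro i
        rw [List.getD_eq_getElem _ _ (by rw [g1.2.1]; exact i.2)]
        exact g1.2.2.1 _ (List.getElem_mem _))]
      have : (fun i : Fin Q.length => E ζ (c.2.getD i [])) = (fun i : Fin Q.length =>
          trq q e Q.length (aeval ζ (pol ((List.ofFn (a τ0)).take Q.length))) ^ (i : ℕ)) := by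
        funext i
        rw [g1.2.2.2 ζ hζ i, g2 ζ hζ]
        rfl
      rw [this]
      exact hτ0
    obtain ⟨c, cl, hcl⟩ := List.exists_cons_of_ne_nil hcs
    obtain ⟨g1, g2, row, hrow, g3⟩ := m1 c (by rw [hcl]; simp)
    simp only [rows, List.mem_ofFn] at hrow
    obtain ⟨τ, rfl⟩ := hrow
    have hθ : E ζ c.1 = trq q e Q.length (aeval ζ (pol ((List.ofFn (a τ)).take Q.length))) :=
      g3 ζ hζ
    have hliτ : LinearIndependent L (fun i : Fin Q.length => E ζ c.1 ^ (i : ℕ)) := by
      have := (li_iff ζ Q hirr hζ (fun i : Fin Q.length => c.2.getD i []) (by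
        intro i
        rw [List.getD_eq_getElem _ _ (by rw [g1.2.1]; exact i.2)]
        exact g1.2.2.1 _ (List.getElem_mem _))).mp g2
      have h7 : (fun i : Fin Q.length => E ζ (c.2.getD i [])) = (fun i : Fin Q.length =>
          E ζ c.1 ^ (i : ℕ)) := by
        funext i
        exact g1.2.2.2 ζ hζ i
      rw [h7] at this
      exact this
    -- the values of the vectors
    have hval : ∀ p < (shp j).sum, E ζ ((vecf A).getD p []) =
        ∑ b ∈ Finset.range Q.length, algebraMap L M (((A.getD b []).flatten).getD p 0) * ζ ^ b := by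
      intro p hp'
      rw [E_sum ζ _ Q.length (by
        rw [List.getD_eq_getElem _ _ (by rw [v1]; exact hp')]
        exact (v2 _ (List.getElem_mem _)).le)]
      refine Finset.sum_congr rfl fun b hb => ?_
      rw [v3 p hp' b (Finset.mem_range.mp hb)]
    have hent : ∀ (B : List (List (List L))), (∀ x ∈ B, IsHom j x) → B.length = Q.length →
        ∀ p κ i, (∀ X : List (List L), X.map List.length = shp j →
          (X.getD κ []).getD i 0 = X.flatten.getD p 0) → ∀ b < Q.length,
          ent B b κ i = ((B.getD b []).flatten).getD p 0 := by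
      intro B hB hBl p κ i hX b hb
      unfold ent
      refine hX _ ((isHom_iff j _).mp ?_)
      rw [List.getD_eq_getElem B _ (by rw [hBl]; exact hb)]
      exact hB _ (List.getElem_mem _)
    -- a vector which is not zero
    have hexv : ∃ v ∈ vecf A, pol v ≠ 0 := by
      obtain ⟨b, κ, i, hb⟩ := hne
      have hbQ : b < Q.length := by
        by_contra hcon
        apply hb
        unfold ent
        rw [List.getD_eq_default A _ (by omega)]
        simp
      obtain ⟨p, hp'⟩ := pos_ex (0 : L) (shp j) κ i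
      rw [hent A hj hA p κ i hp' b hbQ] at hb
      have hpN : p < (shp j).sum := by
        by_contra hcon
        exact hb (getD_flat_zero j A hj p (by omega) b)
      have hpV : p < (vecf A).length := by rw [v1]; exact hpN
      rw [← v3 p hpN b hbQ, List.getD_eq_getElem (vecf A) _ hpV] at hb
      refine ⟨(vecf A)[p], List.getElem_mem _, fun h8 => hb ?_⟩
      have h9 := pol_eq_zero _ h8
      by_cases hbl : b < ((vecf A)[p]).length
      · rw [List.getD_eq_getElem _ _ hbl]
        exact h9 _ (List.getElem_mem _)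
      · exact List.getD_eq_default _ _ (by omega)
    obtain ⟨f1, f2⟩ := fir_spec Q (vecf A) v2
    obtain ⟨f3, f4⟩ := f2 hexv
    obtain ⟨p0, hp0, hp0'⟩ := List.mem_iff_getElem.mp f3
    obtain ⟨κ0, i0, hki⟩ := pos_ex' (0 : L) (shp j) p0
    have hc0 : E ζ (firf Q (vecf A)) ≠ 0 := E_ne ζ Q _ hirr hζ f1 f4
    have hinv : E ζ (uf inv Q A) * E ζ (firf Q (vecf A)) = 1 := by
      obtain ⟨g, hg⟩ := (hi L _ Q f1).1 (coprime_pol Q _ hirr f1 f4)
      have := congrArg (aeval ζ) hg
      simp only [map_sub, map_mul, hζ, zero_mul, map_one] at this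
      exact sub_eq_zero.mp this
    have hp0N : p0 < (shp j).sum := by rw [← v1]; exact hp0
    have hc0' : E ζ (firf Q (vecf A)) =
        ∑ b ∈ Finset.range Q.length, algebraMap L M (ent A b κ0 i0) * ζ ^ b := by
      rw [← hp0', ← List.getD_eq_getElem (vecf A) [] hp0, hval p0 hp0N]
      refine Finset.sum_congr rfl fun b hb => ?_
      rw [hent A hj hA p0 κ0 i0 (fun X hX => (hki X hX).symm) b (Finset.mem_range.mp hb)]
    refine ⟨τ, E ζ (firf Q (vecf A)), κ0, i0, ?_, hc0, hc0', ?_⟩
    · rw [← hθ]; exact hliτ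
    intro c'
    have hc' : c' = (q1f m sol Q c.1 c.2, a1f sol Q A (wf m inv Q A) c.2) := by
      have hv := val_mainP pn pt ker m sol inv q e t Q A (rows a)
      rw [hcl] at hv
      exact hv
    rw [hc', ← hθ]
    have hpw := pwf_spec hm Q c.1 Q.length hr g1.1
    have s1 := sol_spec hs Q c g1 (pwf m Q c.1 Q.length) hpw.1
    obtain ⟨a1, a2, a3⟩ := a1_spec hs j Q A hA hr hj c g1 (wf m inv Q A) w2 w3
    have hq1 : (q1f m sol Q c.1 c.2).length = Q.length := by
      rw [q1f, List.length_map]; exact s1.1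
    refine ⟨hq1, a1, a2, ?_, ?_⟩
    · have h8 := s1.2 g2 ζ hζ
      rw [hpw.2 ζ hζ] at h8
      have h9 : aeval (E ζ c.1) (mpol (q1f m sol Q c.1 c.2)) =
          E ζ c.1 ^ Q.length + E (E ζ c.1) (q1f m sol Q c.1 c.2) := by
        rw [mpol, map_add, map_pow, aeval_X, hq1]
        rfl
      rw [h9, q1f, E_neg, ← h8, add_neg_cancel]
    · intro κ i
      obtain ⟨p, hp'⟩ := pos_ex (0 : L) (shp j) κ i
      have hl : ∑ b ∈ Finset.range Q.length, algebraMap L M (ent A b κ i) * ζ ^ b =
          ∑ b ∈ Finset.range Q.length,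
            algebraMap L M (((A.getD b []).flatten).getD p 0) * ζ ^ b :=
        Finset.sum_congr rfl fun b hb => by
          rw [hent A hj hA p κ i hp' b (Finset.mem_range.mp hb)]
      have hrr : ∑ b ∈ Finset.range Q.length,
          algebraMap L M (ent (a1f sol Q A (wf m inv Q A) c.2) b κ i) * E ζ c.1 ^ b =
          ∑ b ∈ Finset.range Q.length,
            algebraMap L M ((((a1f sol Q A (wf m inv Q A) c.2).getD b []).flatten).getD p 0) *
              E ζ c.1 ^ b :=
        Finset.sum_congr rfl fun b hb => by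
          rw [hent _ a2 a1 p κ i hp' b (Finset.mem_range.mp hb)]
      simp only
      rw [hl, hrr]
      by_cases hpN : p < (shp j).sum
      · have hWl : ((wf m inv Q A).getD p []).length = Q.length := by
          rw [List.getD_eq_getElem _ _ (by rw [w3]; exact hpN)]
          exact w2 _ (List.getElem_mem _)
        have s2 := sol_spec hs Q c g1 ((wf m inv Q A).getD p []) hWl
        have h8 : ∑ b ∈ Finset.range Q.length,
            algebraMap L M ((((a1f sol Q A (wf m inv Q A) c.2).getD b []).flatten).getD p 0) *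
              E ζ c.1 ^ b = E ζ ((wf m inv Q A).getD p []) := by
          rw [s2.2 g2 ζ hζ, E_sum (E ζ c.1) _ Q.length (le_of_eq s2.1)]
          refine Finset.sum_congr rfl fun b hb => ?_
          rw [a3 p hpN b (Finset.mem_range.mp hb)]
        rw [h8, ← hval p hpN, w4 ζ hζ p hpN]
        have : E ζ (firf Q (vecf A)) * (E ζ ((vecf A).getD p []) * E ζ (uf inv Q A)) =
            E ζ ((vecf A).getD p []) * (E ζ (uf inv Q A) * E ζ (firf Q (vecf A))) := by ring
        rw [this, hinv, mul_one]
      · rw [Finset.sum_eq_zero, Finset.sum_eq_zero, mul_zero]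
        · intro b hb
          rw [getD_flat_zero j _ a2 p (by omega) b, map_zero, zero_mul]
        · intro b hb
          rw [getD_flat_zero j _ hj p (by omega) b, map_zero, zero_mul]

end Pool.Agent.H330AB.JL7b
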