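import Pool.Agent.H330AB.SpecC1
import Pool.Agent.H330FB.JE8
import Pool.Agent.H330FB.Lib5
set_option autoImplicit false
set_option linter.unusedSectionVars false
set_option linter.unusedSimpArgs false
noncomputable section

namespace Pool.Agent.H330AB.JIA
open Polynomial Pool.Agent.H330FB Pool.Agent.H330FB.JE8.E8

section prog
variable {F : Type} [Field F] [DecidableEq F]
variable {s : List (Ty × Ty)} {a b c : Ty}

theorem lun (n : ℕ) : (un n).length = n := List.length_replicate

/-! ### products of unary numbers -/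

/-- `(un m, un n)` goes to `un (n * m)` -/
def prP : Pr s (.prod Un Un) Un := .comp (mapP (c := Un) (a := .unit) .fst) flatP

theorem fl_len (l m : List Unit) :
    (List.flatten (List.map (fun _ : Unit => l) m)).length = m.length * l.length := by
  rw [List.length_flatten, List.map_map]
  have : (List.length ∘ fun _ : Unit => l) = fun _ => l.length := by
    funext x; rfl
  rw [this, List.map_const', List.sum_replicate, smul_eq_mul]

theorem val_prP (v : SV F s) (m n : ℕ) :
    (prP : Pr s (.prod Un Un) Un).val v (un m, un n) = un (n * m) := by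
  apply un_eq'
  simp only [prP, val_comp, val_mapP, val_fst, val_flatP]
  refine (fl_len (un m) (un n)).trans ?_
  rw [lun, lun]

theorem cost_prP (v : SV F s) (k : SC F s) (m n : ℕ) :
    (prP : Pr s (.prod Un Un) Un).cost v k (un m, un n) ≤ (20 * m + 90) * n + 50 := by
  have h1 := cost_mapP_le (s := s) (c := Un) (a := .unit) (b := Un) .fst v k
    (un m, un n) 1 (fun _ _ => by simp)
  have h2 := cost_flatP (s := s) (a := .unit) v k (List.map (fun _ : Unit => un m) (un n)) m
    (fun y hy => by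
      obtain ⟨_, _, rfl⟩ := List.mem_map.1 hy
      exact (lun m).le)
  have h3 : (List.map (fun _ : Unit => un m) (un n)).length = n := (List.length_map _).trans (lun n)
  have h4 : (un n).length = n := lun n
  rw [h3] at h2
  change _ ≤ (1 + 13) * (un n).length + 5 at h1
  rw [h4] at h1
  simp only [prP, cost_comp, val_mapP, val_fst]
  refine (Nat.add_le_add h1 h2).trans ?_
  nlinarith

/-- one more -/
def suP : Pr s Un Un := .comp (.pair .star .id) .cons

theorem val_suP (v : SV F s) (n : ℕ) :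
    (suP : Pr s Un Un).val v (un n) = un (n + 1) := rfl

theorem cost_suP (v : SV F s) (k : SC F s) (x : Ty.D F Un) :
    (suP : Pr s Un Un).cost v k x = 4 := by simp [suP]

/-- one less -/
def tlP : Pr s (.list a) Un := onL .id .nil (.comp (.comp .snd .snd) (mapQ .star))

theorem val_tlP (v : SV F s) (x : Ty.D F (.list a)) :
    (tlP : Pr s (.list a) Un).val v x = un (List.length x - 1) := by
  cases x with
  | nil => simp [tlP, un]
  | cons h t =>
    simp only [tlP, val_onL, val_id, lcase_cons, val_comp, val_snd, val_mapQ, List.length_cons,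
      Nat.add_sub_cancel]
    exact List.map_const' ..

theorem cost_tlP (v : SV F s) (k : SC F s) (x : Ty.D F (.list a)) :
    (tlP : Pr s (.list a) Un).cost v k x ≤ 15 * List.length x + 20 := by
  cases x with
  | nil => simp [tlP]
  | cons h t =>
    have h1 := cost_mapQ (s := s) (a := a) (.star) v k t
    have h2 := sum_map_le (fun y : Ty.D F a => (Pr.star : Pr s a .unit).cost v k y + 14) 15 t
      (fun y _ => by simp)
    simp only [tlP, cost_onL, val_id, cost_id, lcase_cons, cost_comp, cost_snd, val_comp, val_snd,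
      List.length_cons]
    change (mapQ (.star : Pr s a .unit)).cost v k t ≤
      (List.map (fun y : Ty.D F a => (Pr.star : Pr s a .unit).cost v k y + 14) t).sum + 8 at h1
    omega

theorem val_tlU (v : SV F s) (n : ℕ) : (tlP : Pr s Un Un).val v (un n) = un (n - 1) := by
  rw [val_tlP]
  exact congrArg (fun m => un (m - 1)) (lun n)

theorem cost_tlU (v : SV F s) (k : SC F s) (n : ℕ) :
    (tlP : Pr s Un Un).cost v k (un n) ≤ 15 * n + 20 := by
  have h := cost_tlP (s := s) (a := .unit) v k (un n)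
  change _ ≤ 15 * (un n).length + 20 at h
  rwa [lun] at h

/-- `un d` goes to `un (clog d + 11)` -/
def tP : Pr s Un Un := .comp lgP (.comp suP (.comp suP (.comp suP (.comp suP (.comp suP (.comp suP
  (.comp suP (.comp suP (.comp suP (.comp suP suP))))))))))

theorem val_lgU (v : SV F s) (n : ℕ) : (lgP : Pr s Un Un).val v (un n) = un (Nat.clog 2 n) := by
  apply un_eq'
  refine (val_lgP (s := s) (a := .unit) v (un n)).trans ?_
  exact congrArg (Nat.clog 2) (lun n)

theorem val_tP (v : SV F s) (n : ℕ) :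
    (tP : Pr s Un Un).val v (un n) = un (Nat.clog 2 n + 11) := by
  simp only [tP, val_comp, val_lgU, val_suP]

theorem cost_tP (v : SV F s) (k : SC F s) (n : ℕ) :
    (tP : Pr s Un Un).cost v k (un n) ≤ 120 * n + 64 := by
  have h := cost_lgP (s := s) (a := .unit) v k (un n)
  have h0 : @List.length (Ty.D F .unit) (un n) = n := lun n
  rw [h0] at h
  simp only [tP, cost_comp, cost_suP]
  omega

/-- `(un e, un t)` goes to `un (2 e (t + 1) e)` -/
def n1P : Pr s (.prod Un Un) Un :=
  .comp (.pair .fst (.comp (.pair (.comp .snd suP) .fst) prP)) (.comp prP (.comp (.pair .id .id) appP))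

theorem val_apU (v : SV F s) (m n : ℕ) :
    (appP : Pr s (.prod Un Un) Un).val v (un m, un n) = un (m + n) := by
  rw [val_appP]
  refine un_eq' (List.length_append.trans ?_)
  exact congrArg₂ (· + ·) (lun m) (lun n)

theorem cost_apU (v : SV F s) (k : SC F s) (m n : ℕ) :
    (appP : Pr s (.prod Un Un) Un).cost v k (un m, un n) ≤ 20 * m + 5 := by
  have h := cost_appP (s := s) (a := .unit) v k (un m, un n)
  have h0 : @List.length (Ty.D F .unit) (un m) = m := lun m
  have h1 : ((un m, un n) : Ty.D F (.prod Un Un)).1 = un m := rfl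
  simp only [h0] at h
  exact h

theorem val_n1P (v : SV F s) (e t : ℕ) :
    (n1P : Pr s (.prod Un Un) Un).val v (un e, un t) = un (2 * e * (t + 1) * e) := by
  simp only [n1P, val_comp, val_pair, val_fst, val_snd, val_suP, val_prP (F := F), val_id, val_apU (F := F)]
  congr 1
  ring

theorem cost_n1P (v : SV F s) (k : SC F s) (e t : ℕ) :
    (n1P : Pr s (.prod Un Un) Un).cost v k (un e, un t) ≤
      (20 * (t + 1) + 90) * e + (20 * e + 90) * (e * (t + 1)) + 20 * (e * (t + 1) * e) + 130 := by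
  have h1 := cost_prP (s := s) v k (t + 1) e
  have h2 := cost_prP (s := s) v k e (e * (t + 1))
  have h3 := cost_apU (s := s) v k (e * (t + 1) * e) (e * (t + 1) * e)
  simp only [n1P, cost_comp, cost_pair, cost_fst, cost_snd, cost_suP, cost_id, val_comp, val_pair,
    val_fst, val_snd, val_suP, val_prP (F := F), val_id]
  omega

/-- `(un n, un t)` goes to `un (R2 n + t n)` -/
def n2P : Pr s (.prod Un Un) Un :=
  lt (.comp (.pair .fst .fst) prP) (.comp (.pair (.comp .fst .fst) (.comp (.pair .snd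
    (.comp (.pair (.comp .fst .fst) (.comp (.pair .snd (.comp (.pair (.comp .fst .fst)
      (.comp (.comp (.pair (.comp .fst .fst) (.comp .fst .snd)) prP) (.comp suP (.comp suP suP)))) appP))
      appP)) appP)) appP)) appP)

theorem val_n2P (v : SV F s) (n t : ℕ) :
    (n2P : Pr s (.prod Un Un) Un).val v (un n, un t) = un (R2 n + t * n) := by
  simp only [n2P, val_lt, val_comp, val_pair, val_fst, val_snd, val_prP (F := F), val_apU (F := F), val_suP]
  congr 1
  unfold R2
  ring

theorem cost_n2P (v : SV F s) (k : SC F s) (n t : ℕ) :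
    (n2P : Pr s (.prod Un Un) Un).cost v k (un n, un t) ≤
      (20 * n + 90) * n + (20 * n + 90) * t + 40 * (n * n) + 60 * n + 200 := by
  have h1 := cost_prP (s := s) v k n n
  have h2 := cost_prP (s := s) v k n t
  have h3 := cost_apU (s := s) v k n (t * n + 1 + 1 + 1)
  have h4 := cost_apU (s := s) v k (n * n) (n + (t * n + 1 + 1 + 1))
  have h5 := cost_apU (s := s) v k n (n * n + (n + (t * n + 1 + 1 + 1)))
  have h6 := cost_apU (s := s) v k (n * n) (n + (n * n + (n + (t * n + 1 + 1 + 1))))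
  have h7 := cost_apU (s := s) v k n (n * n + (n + (n * n + (n + (t * n + 1 + 1 + 1)))))
  simp only [n2P, cost_lt, cost_comp, cost_pair, cost_fst, cost_snd, cost_suP, val_lt, val_comp,
    val_pair, val_fst, val_snd, val_prP (F := F), val_suP, val_apU (F := F)]
  omega

/-- `(un e, un m)` goes to `un (m e - 1)` -/
def mP : Pr s (.prod Un Un) Un := .comp prP tlP

theorem val_mP (v : SV F s) (e m : ℕ) :
    (mP : Pr s (.prod Un Un) Un).val v (un e, un m) = un (m * e - 1) := by
  simp only [mP, val_comp, val_prP (F := F), val_tlU]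

theorem cost_mP (v : SV F s) (k : SC F s) (e m : ℕ) :
    (mP : Pr s (.prod Un Un) Un).cost v k (un e, un m) ≤
      (20 * e + 90) * m + 15 * (m * e) + 70 := by
  have h1 := cost_prP (s := s) v k e m
  have h2 := cost_tlU (s := s) v k (m * e)
  simp only [mP, cost_comp, val_prP (F := F)]
  omega

/-! ### decoding with a cut -/

/-- input `(H, X)`: the first `H.length` rows of all elements of `X`, decoded -/
def cutP : Pr s (.prod Ma (.list (.list Ma))) ML :=
  mapP (.comp (.comp splitP .fst) dec2)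

theorem val_cutP (v : SV F s) (H : List (List F)) (X : List (List (List (List F)))) :
    (cutP : Pr s (.prod Ma (.list (.list Ma))) ML).val v (H, X) =
      X.map (fun x => (x.take H.length).map (fun r => r.map
        (fun l => (hdP : Pr s Po .fld).val v l))) := by
  simp only [cutP, val_mapP, val_comp, val_splitP, val_fst, dec2, dec1, val_mapQ]
  refine List.map_congr_left fun x _ => ?_
  exact List.map_congr_left fun r _ => val_mapQ _ _ _

theorem cost_cutP (v : SV F s) (k : SC F s) (H : List (List F))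
    (X : List (List (List (List F)))) (w : ℕ)
    (hw : ∀ x ∈ X, ∀ r ∈ x.take H.length, r.length ≤ w) :
    (cutP : Pr s (.prod Ma (.list (.list Ma))) ML).cost v k (H, X) ≤
      (24 * H.length + 20 * ((w + 2) * H.length) + 30) * X.length + 5 := by
  refine (cost_mapP_le (s := s) (c := Ma) (.comp (.comp splitP .fst) dec2) v k (H, X)
    (24 * H.length + 20 * ((w + 2) * H.length) + 17) ?_).trans (le_of_eq (by rfl))
  intro x hx
  have h1 := cost_splitP (s := s) (b := Po) (a := Ma) v k (H, x)
  change _ ≤ 24 * H.length + 8 at h1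
  have h2 := cost_dec2 (s := s) v k (x.take H.length)
  have h3 := sum_map_le (fun r : List (List F) => r.length + 2) (w + 2) (x.take H.length)
    (fun r hr => by have := hw x hx r hr; omega)
  have h4 : (x.take H.length).length ≤ H.length := by
    rw [List.length_take]; exact min_le_left _ _
  have h5 : (w + 2) * (x.take H.length).length ≤ (w + 2) * H.length := Nat.mul_le_mul_left _ h4
  simp only [cost_comp, cost_fst, val_comp, val_fst, val_splitP]
  change (splitP : Pr s (.prod (.list Po) (.list Ma)) (.prod (.list Ma) (.list Ma))).cost v k (H, x) +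
    1 + (dec2 : Pr s (.list Ma) Ma).cost v k (x.take H.length) ≤ _
  omega

end prog

end Pool.Agent.H330AB.JIA

namespace Pool.Agent.H330AB.JIA
open Polynomial Pool.Agent.H330FB Pool.Agent.H330FB.JE8

section coef
variable {K : Type} [Field K]

theorem coeff_hom (l : List (List K)) (i j : ℕ) :
    ((hom l).coeff i).coeff j = (l.getD (i + j) []).getD j 0 := by
  unfold hom
  rw [finsetSum_coeff, finsetSum_coeff]
  have key : ∀ k, ((∑ j ∈ Finset.range (k + 1),
      C (C ((l.getD k []).getD j 0) * X ^ j) * X ^ (k - j) : K[X][X]).coeff i).coeff j =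
      if k = i + j then (l.getD k []).getD j 0 else 0 := by
    intro k
    rw [finsetSum_coeff, finsetSum_coeff]
    simp only [coeff_C_mul_X_pow, apply_ite (fun p : K[X] => p.coeff j), coeff_zero]
    by_cases h : k = i + j
    · rw [if_pos h, Finset.sum_eq_single j]
      · rw [if_pos (by omega), if_pos rfl]
      · intro b _ hb
        rw [if_neg hb.symm]
        simp
      · intro hb
        exfalso
        apply hb
        rw [Finset.mem_range]
        omega
    · rw [if_neg h]
      apply Finset.sum_eq_zero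
      intro b hb
      rw [Finset.mem_range] at hb
      by_cases hb2 : j = b
      · rw [if_neg (by omega)]
      · rw [if_neg hb2]
        simp
  rw [Finset.sum_congr rfl (fun k _ => key k)]
  rcases lt_or_ge (i + j) l.length with h | h
  · rw [Finset.sum_eq_single (i + j)]
    · rw [if_pos rfl]
    · intro b _ hb
      rw [if_neg hb]
    · intro hb
      rw [Finset.mem_range] at hb
      exact absurd h hb
  · rw [List.getD_eq_default _ _ h]
    rw [Finset.sum_eq_zero]
    · simp
    · intro b hb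
      rw [Finset.mem_range] at hb
      rw [if_neg (by omega)]

/-- the substitution `y = z x` -/
noncomputable def Psi (K : Type) [Field K] : K[X][X] →+* K[X][X] :=
  eval₂RingHom (eval₂RingHom (C.comp C : K →+* K[X][X]) (C X * X)) X

theorem coeff_Psi (f : K[X][X]) (n j : ℕ) :
    ((Psi K f).coeff n).coeff j = if j ≤ n then (f.coeff (n - j)).coeff j else 0 := by
  induction f using Polynomial.induction_on' with
  | add p q hp hq =>
    rw [map_add, coeff_add, coeff_add, hp, hq, coeff_add, coeff_add]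
    split_ifs <;> simp
  | monomial i p =>
    induction p using Polynomial.induction_on' with
    | add p q hp hq =>
      rw [map_add, map_add, coeff_add, coeff_add, hp, hq, coeff_add, coeff_add]
      split_ifs <;> simp
    | monomial j0 a =>
      have e : Psi K (monomial i (monomial j0 a)) = C (C a * X ^ j0) * X ^ (j0 + i) := by
        unfold Psi
        rw [coe_eval₂RingHom, eval₂_monomial, coe_eval₂RingHom, eval₂_monomial]
        simp only [RingHom.comp_apply, mul_pow, C_mul, C_pow, pow_add]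
        ring
      rw [e, coeff_C_mul_X_pow, coeff_monomial]
      simp only [apply_ite (fun p : K[X] => p.coeff j), coeff_zero, coeff_C_mul_X_pow,
        coeff_monomial]
      by_cases h1 : j ≤ n <;> by_cases h2 : j = j0 <;> by_cases h3 : n = j0 + i
      all_goals (try simp [h1, h2, h3])
      all_goals (try omega)

theorem Psi_injective : Function.Injective (Psi K) := by
  intro f g h
  ext i j
  have h1 := coeff_Psi f (i + j) j
  have h2 := coeff_Psi g (i + j) j
  rw [if_pos (by omega), show i + j - j = i by omega] at h1 h2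
  rw [← h1, ← h2, h]

theorem Psi_ne {f : K[X][X]} (h : f ≠ 0) : Psi K f ≠ 0 := by
  intro h0
  exact h (Psi_injective (by rw [h0, map_zero]))

theorem psi_le {f : K[X][X]} {n : ℕ} (h : TD f n) : (Psi K f).natDegree ≤ n := by
  rw [natDegree_le_iff_coeff_eq_zero]
  intro N hN
  ext j
  rw [coeff_Psi, coeff_zero]
  split_ifs with h1
  · exact h _ _ (by omega)
  · rfl

theorem td_of_psi {f : K[X][X]} {n : ℕ} (h : (Psi K f).natDegree ≤ n) : TD f n := by
  intro i j hij
  have h1 := coeff_Psi f (i + j) j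
  rw [if_pos (by omega), show i + j - j = i by omega] at h1
  have h2 : (Psi K f).coeff (i + j) = 0 := coeff_eq_zero_of_natDegree_lt (by omega)
  rw [← h1, h2, coeff_zero]

theorem irr_psi {f : K[X][X]} (h : Irreducible f) : 1 ≤ (Psi K f).natDegree := by
  by_contra hcon
  have h1 : TD f 0 := td_of_psi (by omega)
  have h2 : f = C (C ((f.coeff 0).coeff 0)) := by
    ext i j
    by_cases h3 : i = 0
    · subst h3
      by_cases h4 : j = 0
      · subst h4
        simp
      · rw [h1 0 j (by omega), coeff_C_zero, coeff_C_of_ne_zero h4]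
    · rw [h1 i j (by omega), coeff_C_of_ne_zero h3, coeff_zero]
  apply h.not_isUnit
  rw [h2]
  have h5 : (f.coeff 0).coeff 0 ≠ 0 := by
    intro h0
    rw [h0, C_0, C_0] at h2
    exact h.ne_zero h2
  exact (isUnit_C.2 (isUnit_C.2 (isUnit_iff_ne_zero.2 h5)))

end coef

section hzs
variable {F k : Type} [Field F] [Field k] [Algebra F k]

theorem coeff_hz (ζ : k) (A : List (List (List F))) (i j : ℕ) :
    ((hz ζ A).coeff i).coeff j = ∑ b ∈ Finset.range A.length,
      ζ ^ b * algebraMap F k (((A.getD b []).getD (i + j) []).getD j 0) := by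
  unfold hz bcp
  rw [finsetSum_coeff, finsetSum_coeff]
  apply Finset.sum_congr rfl
  intro b _
  rw [coeff_C_mul, coeff_C_mul, coeff_map, coe_mapRingHom, coeff_map, coeff_hom]

theorem getD_take {α : Type} (l : List α) (n i : ℕ) (d : α) :
    (l.take n).getD i d = if i < n then l.getD i d else d := by
  split_ifs with h
  · simp [List.getD_eq_getElem?_getD, h]
  · rw [List.getD_eq_default]
    rw [List.length_take]
    omega

theorem hz_take (ζ : k) (A : List (List (List F))) (n : ℕ) (h : TD (hz ζ A) n) :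
    hz ζ (A.map (List.take (n + 1))) = hz ζ A := by
  ext i j
  have e : ∀ b ∈ Finset.range A.length,
      ((A.map (List.take (n + 1))).getD b []) = (A.getD b []).take (n + 1) := by
    intro b hb
    rw [Finset.mem_range] at hb
    rw [List.getD_eq_getElem _ _ (by simpa using hb), List.getD_eq_getElem _ _ hb,
      List.getElem_map]
  by_cases hij : n < i + j
  · rw [h i j hij, coeff_hz, List.length_map]
    apply Finset.sum_eq_zero
    intro b hb
    rw [e b hb, getD_take, if_neg (by omega)]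
    simp
  · rw [coeff_hz, coeff_hz, List.length_map]
    apply Finset.sum_congr rfl
    intro b hb
    rw [e b hb, getD_take, if_pos (by omega)]

theorem cut_fac [IsAlgClosed k] {n : ℕ} {H : List (List F)} (hH : IsHom n H) (hn : 1 ≤ n)
    (hT : TopNe n H) {q' : List F} {A' : List (List (List F))}
    (h : FacAbs k H [(q', (A', un 1))]) :
    FacAbs k H [(q', (A'.map (List.take (n + 1)), un 1))] ∧ q'.length ≤ n ∧
    A'.length = q'.length ∧ ∀ x ∈ A', ∀ r ∈ x.take (n + 1), r.length ≤ n + 1 := by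
  obtain ⟨h1, ⟨-, h2⟩, u, hu, h3⟩ := h
  obtain ⟨hq, hsq, hA, -, ⟨j, hj, hjx⟩, hirr⟩ := h1 _ (List.mem_singleton.2 rfl)
  simp only at hq hsq hA hjx hirr
  have hun : (un 1).length = 1 := rfl
  simp only [List.map_cons, List.map_nil, List.prod_cons, List.prod_nil, mul_one, hun,
    pow_one] at h3
  -- the degree of the given polynomial
  have hbne : bcp k (hom H) ≠ 0 := by
    obtain ⟨i, hi⟩ := hT
    have hin : i < n + 1 := by
      by_contra hcon
      apply hi
      exact List.getD_eq_default _ _ (by rw [hH.2 n le_rfl]; omega)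
    intro h0
    have h4 : ((bcp k (hom H)).coeff (n - i)).coeff i = algebraMap F k ((H.getD n []).getD i 0) := by
      unfold bcp
      rw [coeff_map, coe_mapRingHom, coeff_map, coeff_hom, show n - i + i = n by omega]
    rw [h0, coeff_zero, coeff_zero] at h4
    exact hi ((map_eq_zero _).1 h4.symm)
  have hbTD : TD (bcp k (hom H)) n := by
    intro a b hab
    unfold bcp
    rw [coeff_map, coe_mapRingHom, coeff_map, coeff_hom,
      List.getD_eq_default H _ (by rw [hH.1]; omega)]
    simp
  have hmne : (mpol q').map (algebraMap F k) ≠ 0 := ((E8.mpol_monic q').map _).ne_zero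
  have hroot : ∀ ζ : k, aeval ζ (mpol q') = 0 ↔ ζ ∈ ((mpol q').map (algebraMap F k)).roots := by
    intro ζ
    rw [mem_roots hmne, IsRoot.def, eval_map_algebraMap]
  have hTD : ∀ ζ : k, aeval ζ (mpol q') = 0 → TD (hz ζ A') n := by
    intro ζ hζ
    have h4 : hz ζ A' ∣ bcp k (hom H) := by
      rw [h3]
      refine Dvd.dvd.mul_left ?_ _
      exact Multiset.dvd_prod (Multiset.mem_map_of_mem _ ((hroot ζ).1 hζ))
    apply td_of_psi
    refine (natDegree_le_of_dvd (map_dvd (Psi k) h4) (Psi_ne hbne)).trans ?_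
    exact psi_le hbTD
  have hhz : ∀ ζ : k, aeval ζ (mpol q') = 0 →
      hz ζ (A'.map (List.take (n + 1))) = hz ζ A' := fun ζ hζ => hz_take ζ A' n (hTD ζ hζ)
  refine ⟨⟨?_, ⟨List.nodup_singleton _, ?_⟩, u, hu, ?_⟩, ?_, hA, ?_⟩
  · intro o ho
    rw [List.mem_singleton] at ho
    subst ho
    refine ⟨hq, hsq, (List.length_map _).trans hA, le_refl 1, ⟨min j n, le_min hj hn, ?_⟩, ?_⟩
    · intro x hx
      obtain ⟨y, hy, rfl⟩ := List.mem_map.1 hx
      obtain ⟨h4, h5⟩ := hjx y hy
      refine ⟨?_, fun i hi => ?_⟩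
      · rw [List.length_take, h4]
        omega
      · rw [getD_take, if_pos (by have := min_le_right j n; omega)]
        exact h5 i (by have := min_le_left j n; omega)
    · intro ζ hζ
      simp only at hζ ⊢
      rw [hhz ζ hζ]
      exact hirr ζ hζ
  · intro o ho o' ho' ζ ζ' hζ hζ' hass
    rw [List.mem_singleton] at ho ho'
    subst ho
    subst ho'
    simp only at hζ hζ' hass
    rw [hhz ζ hζ, hhz ζ' hζ'] at hass
    exact ⟨rfl, (h2 _ (List.mem_singleton.2 rfl) _ (List.mem_singleton.2 rfl) ζ ζ' hζ hζ'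
      hass).2⟩
  · rw [h3]
    simp only [List.map_cons, List.map_nil, List.prod_cons, List.prod_nil, mul_one, hun,
      pow_one]
    refine congrArg (fun y => C (C u) * Multiset.prod y) ?_
    refine Multiset.map_congr rfl fun ζ hζ => ?_
    exact (hhz ζ ((hroot ζ).2 hζ)).symm
  · -- the number of factors
    have h4 : Psi k (bcp k (hom H)) = Psi k (C (C u)) *
        ((((mpol q').map (algebraMap F k)).roots.map (fun ζ => hz ζ A')).map (Psi k)).prod := by
      rw [h3, map_mul, map_multiset_prod]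
    have h5 : (0 : k[X][X]) ∉ (((mpol q').map (algebraMap F k)).roots.map
        (fun ζ => hz ζ A')).map (Psi k) := by
      intro h0
      obtain ⟨y, hy, hy0⟩ := Multiset.mem_map.1 h0
      obtain ⟨ζ, hζ, rfl⟩ := Multiset.mem_map.1 hy
      exact Psi_ne (hirr ζ ((hroot ζ).2 hζ)).ne_zero hy0
    have h6 := congrArg natDegree h4
    have h7 : Psi k (C (C u)) ≠ 0 := Psi_ne (by
      rw [Ne, C_eq_zero, C_eq_zero]
      exact hu)
    rw [natDegree_mul h7 (Multiset.prod_ne_zero h5), natDegree_multiset_prod _ h5] at h6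
    have h8 : Multiset.card ((mpol q').map (algebraMap F k)).roots = q'.length := by
      rw [splits_iff_card_roots.1 (IsAlgClosed.splits _), (E8.mpol_monic q').natDegree_map,
        E8.mpol_natDegree]
    have h9 : q'.length ≤ (Multiset.map natDegree ((((mpol q').map (algebraMap F k)).roots.map
        (fun ζ => hz ζ A')).map (Psi k))).sum := by
      rw [← h8]
      have h10 := Multiset.card_nsmul_le_sum (s := Multiset.map natDegree
        ((((mpol q').map (algebraMap F k)).roots.map (fun ζ => hz ζ A')).map (Psi k))) (a := 1)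
        (fun x hx => by
          obtain ⟨y, hy, rfl⟩ := Multiset.mem_map.1 hx
          obtain ⟨z, hz', rfl⟩ := Multiset.mem_map.1 hy
          obtain ⟨ζ, hζ, rfl⟩ := Multiset.mem_map.1 hz'
          exact irr_psi (hirr ζ ((hroot ζ).2 hζ)))
      simpa using h10
    have h10 := psi_le hbTD
    omega
  · intro x hx r hr
    obtain ⟨h4, h5⟩ := hjx x hx
    obtain ⟨i, hi, rfl⟩ := List.getElem_of_mem hr
    rw [List.length_take] at hi
    have h6 := h5 i (by omega)
    rw [List.getElem_take]
    rw [List.getD_eq_getElem _ _ (by omega)] at h6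
    rw [h6]
    omega

end hzs

end Pool.Agent.H330AB.JIA

namespace Pool.Agent.H330AB.JIA
open Polynomial Pool.Agent.H330FB Pool.Agent.H330FB.JE8.E8

/-! ### the main program -/

/-- input of the program -/
abbrev G0 : Ty := .prod (.prod Po (.prod Po Un)) (.prod (.prod Un Un) (.prod Ma Po))
/-- context of the last step -/
abbrev G4 : Ty := .prod (.prod (.prod (.prod G0 Un) Un) Un) (.prod Po Po)
/-- context of the last step -/
abbrev G6 : Ty := .prod (.prod G4 Po) Po
/-- input of the program over the large field -/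
abbrev TL : Ty := .prod (.prod (.prod Po Po) (.prod Un (.prod Un Un))) (.prod Un (.prod Ma Po))
/-- encoded input -/
abbrev TX : Ty := .prod (.prod (.prod Ma Ma) (.prod Un (.prod Un Un))) (.prod Un (.prod (.list Ma) Ma))

/-- from the context of the last step back to the input -/
def x6 {b : Ty} (p : Pr [] G0 b) : Pr [] G6 b :=
  .comp .fst (.comp .fst (.comp .fst (.comp .fst (.comp .fst (.comp .fst p)))))
def n6 : Pr [] G6 Un := .comp .fst (.comp .fst (.comp .fst (.comp .fst (.comp .fst .snd))))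
def e6 : Pr [] G6 Un := .comp .fst (.comp .fst (.comp .fst (.comp .fst .snd)))
def t6 : Pr [] G6 Un := .comp .fst (.comp .fst (.comp .fst .snd))
def r6 : Pr [] G6 Po := .comp .fst (.comp .fst (.comp .snd .snd))
def P6 : Pr [] G6 Po := .comp .fst .snd

def bq0 : Pr [] G0 Po := .comp .fst .fst
def bp0 : Pr [] G0 Po := .comp .fst (.comp .snd .fst)
def m0 : Pr [] G0 Un := .comp .fst (.comp .snd .snd)
def D0 : Pr [] G0 Un := .comp .snd (.comp .fst .fst)
def d0 : Pr [] G0 Un := .comp .snd (.comp .fst .snd)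
def H0 : Pr [] G0 Ma := .comp .snd (.comp .snd .fst)
def w0 : Pr [] G0 Po := .comp .snd (.comp .snd .snd)

/-- the encoded input of the program over the large field -/
def inP : Pr [] G6 (.prod (.prod Po Po) TX) :=
  .pair (.pair (x6 bq0) P6)
    (.pair (.pair (.pair (.comp (.pair .snd (x6 bq0)) enc1) (.comp (.pair .snd (x6 bp0)) enc1))
        (.pair (.comp (.pair e6 (x6 m0)) mP) (.pair e6 t6)))
      (.pair (x6 D0) (.pair (.comp (.pair .snd (x6 H0)) enc2)
        (.comp (.pair (.comp (.pair n6 t6) n2P) (.pair e6 r6)) chunksP))))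

/-- decoding; input `(H, output)` -/
def outP : Pr [] (.prod Ma (.prod Ma (.list (.list Ma)))) (.prod Po ML) :=
  .pair (.comp .snd (.comp .fst dec1)) (.comp (.pair .fst (.comp .snd .snd)) cutP)

/-- the last step -/
def lastP (sm : Pr [] (.prod (.prod Po Po) TX) (.prod Ma (.list (.list Ma)))) :
    Pr [] G6 (.prod Po ML) :=
  .comp (.pair (x6 H0) (.comp inP sm)) outP

/-- the main program -/
def mainP (cop : Pr [] (.prod Un Un) Un) (fd : Pr [] (.prod Po (.prod Un (.prod Un Po))) Po)
    (sm : Pr [] (.prod (.prod Po Po) TX) (.prod Ma (.list (.list Ma)))) :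
    Pr [] G0 (.prod Po ML) :=
  lt (.comp H0 tlP) (lt (.comp (.pair .snd (.comp .fst d0)) cop)
    (lt (.comp (.comp .fst (.comp .fst d0)) tP)
      (lt (.comp (.pair (.comp (.pair (.comp .fst .snd) .snd) n1P)
          (.comp .fst (.comp .fst (.comp .fst w0)))) splitP)
        (lt (.comp (.pair (.comp .fst (.comp .fst (.comp .fst (.comp .fst bq0))))
            (.pair (.comp .fst (.comp .fst .snd)) (.pair (.comp .fst .snd) (.comp .snd .fst)))) fd)
          (lt (.comp (.comp .fst (.comp .fst (.comp .fst .snd))) zP) (lastP sm))))))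

section vals
variable {F : Type} [Field F] [DecidableEq F]

theorem val_tlH (H : List (List F)) (n : ℕ) (h : H.length = n + 1) :
    (tlP : Pr [] Ma Un).val () H = un n := by
  refine (val_tlP (F := F) (s := []) (a := Po) () H).trans ?_
  show un (H.length - 1) = un n
  rw [h, Nat.add_sub_cancel]

theorem val_in (bq bp : List F) (m D d n e t : ℕ) (H : List (List F)) (w r1 r2 P z : List F) :
    inP.val () ((((((((bq, (bp, un m)), ((un D, un d), (H, w))), un n), un e), un t), (r1, r2)), P), z) =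
      ((bq, P), (((bq.map (fun c => c :: z), bp.map (fun c => c :: z)),
        (un (m * e - 1), (un e, un t))), (un D, (H.map (fun l => l.map (fun c => c :: z)),
          chunks e (R2 n + t * n) r2)))) := by
  simp only [inP, x6, n6, e6, t6, r6, P6, bq0, bp0, m0, D0, H0, val_comp, val_pair, val_fst,
    val_snd, val_enc1, val_enc2, val_mP (F := F), val_n2P (F := F), val_chunksP, length_un2 F]

theorem cost_in (bq bp : List F) (m D d n e t : ℕ) (H : List (List F)) (w r1 r2 P z : List F) :
    inP.cost () () ((((((((bq, (bp, un m)), ((un D, un d), (H, w))), un n), un e), un t), (r1, r2)), P), z) =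
      (enc1 : Pr [] _ _).cost () () (z, bq) + (enc1 : Pr [] _ _).cost () () (z, bp) +
      (mP : Pr [] _ _).cost (F := F) () () (un e, un m) + (enc2 : Pr [] _ _).cost () () (z, H) +
      (n2P : Pr [] _ _).cost (F := F) () () (un n, un t) +
      (chunksP : Pr [] (.prod Un (.prod Un Po)) Ma).cost () () (un (R2 n + t * n), (un e, r2)) +
      106 := by
  simp only [inP, x6, n6, e6, t6, r6, P6, bq0, bp0, m0, D0, H0, val_comp, val_pair, val_fst,
    val_snd, val_n2P (F := F), cost_comp, cost_pair, cost_fst, cost_snd]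
  ring

variable (cop : Pr [] (.prod Un Un) Un) (fd : Pr [] (.prod Po (.prod Un (.prod Un Po))) Po)
    (sm : Pr [] (.prod (.prod Po Po) TX) (.prod Ma (.list (.list Ma))))

/-- the encoded input -/
def encIn (bq bp : List F) (m D n e t : ℕ) (H : List (List F)) (r2 P z : List F) :
    Ty.D F (.prod (.prod Po Po) TX) :=
  ((bq, P), (((bq.map (fun c => c :: z), bp.map (fun c => c :: z)),
        (un (m * e - 1), (un e, un t))), (un D, (H.map (fun l => l.map (fun c => c :: z)),
          chunks e (R2 n + t * n) r2))))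

theorem val_last (bq bp : List F) (m D d n e t : ℕ) (H : List (List F)) (w r1 r2 P z : List F) :
    (lastP sm).val () ((((((((bq, (bp, un m)), ((un D, un d), (H, w))), un n), un e), un t), (r1, r2)), P), z) =
      outP.val () (H, sm.val () (encIn bq bp m D n e t H r2 P z)) := by
  simp only [lastP, val_comp, val_pair, x6, H0, val_fst, val_snd]
  rw [val_in]
  rfl

theorem cost_last (bq bp : List F) (m D d n e t : ℕ) (H : List (List F)) (w r1 r2 P z : List F) :
    (lastP sm).cost () () ((((((((bq, (bp, un m)), ((un D, un d), (H, w))), un n), un e), un t), (r1, r2)), P), z) =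
      inP.cost () () ((((((((bq, (bp, un m)), ((un D, un d), (H, w))), un n), un e), un t), (r1, r2)), P), z) +
      sm.cost () () (encIn bq bp m D n e t H r2 P z) +
      outP.cost () () (H, sm.val () (encIn bq bp m D n e t H r2 P z)) + 10 := by
  simp only [lastP, cost_comp, cost_pair, val_comp, val_pair, x6, H0, val_fst, val_snd, cost_fst, cost_snd]
  rw [val_in]
  simp only [encIn]
  ring

theorem val_main (bq bp : List F) (m D d n e t : ℕ) (H : List (List F)) (w : List F)
    (hH : H.length = n + 1) (hc : cop.val (F := F) () (un n, un d) = un e)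
    (ht : t = Nat.clog 2 d + 11) :
    (mainP cop fd sm).val () ((bq, (bp, un m)), ((un D, un d), (H, w))) =
      outP.val () (H, sm.val () (encIn bq bp m D n e t H (w.drop (2 * e * (t + 1) * e))
        (fd.val () (bq, (un e, (un t, w.take (2 * e * (t + 1) * e)))))
        (List.replicate (e - 1) (0 : F)))) := by
  rw [← val_last (d := d) (w := w) (r1 := w.take (2 * e * (t + 1) * e))]
  subst ht
  simp only [mainP, val_lt, val_comp, val_pair, val_fst, val_snd, H0, d0, w0, bq0,
    val_tlH H n hH, hc, val_tP (F := F), val_n1P (F := F), val_splitP, m5, length_un2 F]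

theorem cost_main (bq bp : List F) (m D d n e t : ℕ) (H : List (List F)) (w : List F)
    (hH : H.length = n + 1) (hc : cop.val (F := F) () (un n, un d) = un e)
    (ht : t = Nat.clog 2 d + 11) :
    (mainP cop fd sm).cost () () ((bq, (bp, un m)), ((un D, un d), (H, w))) =
      (tlP : Pr [] Ma Un).cost () () H + cop.cost (F := F) () () (un n, un d) +
      (tP : Pr [] Un Un).cost (F := F) () () (un d) +
      (n1P : Pr [] _ _).cost (F := F) () () (un e, un t) +
      (splitP : Pr [] (.prod Un Po) (.prod Po Po)).cost () () (un (2 * e * (t + 1) * e), w) +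
      fd.cost () () (bq, (un e, (un t, w.take (2 * e * (t + 1) * e)))) +
      (zP : Pr [] Un Po).cost (F := F) () () (un e) +
      (lastP sm).cost () () ((((((((bq, (bp, un m)), ((un D, un d), (H, w))), un n), un e), un t),
        (w.take (2 * e * (t + 1) * e), w.drop (2 * e * (t + 1) * e))),
        fd.val () (bq, (un e, (un t, w.take (2 * e * (t + 1) * e))))),
        List.replicate (e - 1) (0 : F)) + 57 := by
  subst ht
  simp only [mainP, cost_lt, cost_comp, cost_pair, cost_fst, cost_snd, val_lt, val_comp, val_pair,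
    val_fst, val_snd, H0, d0, w0, bq0,
    val_tlH H n hH, hc, val_tP (F := F), val_n1P (F := F), val_splitP, m5, length_un2 F]
  ring

end vals

end Pool.Agent.H330AB.JIA

namespace Pool.Agent.H330AB.JIA
open Polynomial Pool.Agent.H330FB Pool.Agent.H330FB.JE8.E8

/-! ### encoding of the input and of the output -/

section enc
variable {F L : Type}

theorem enc_in0 (enc : L → List F) (l1 l2 : List L) (m e t D : ℕ) (A : List (List L))
    (r : List L) :
    Ty.enc enc TL (((l1, l2), (un m, (un e, un t))), (un D, (A, r))) =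
      (((List.map enc l1, List.map enc l2), (un m, (un e, un t))),
        (un D, (List.map (List.map enc) A, List.map enc r))) := by
  have h : ∀ n : ℕ, List.map (fun x : Unit => x) (un n) = un n := fun n => List.map_id' _
  show (((List.map enc l1, List.map enc l2), (List.map (fun x : Unit => x) (un m),
    (List.map (fun x : Unit => x) (un e), List.map (fun x : Unit => x) (un t)))),
    (List.map (fun x : Unit => x) (un D), (List.map (List.map enc) A, List.map enc r))) = _
  rw [h, h, h, h]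

end enc

section core
variable {F L : Type} [Field F] [DecidableEq F] [Field L] [DecidableEq L] [Algebra F L]

theorem enc_in1 {P : List F} {θ : L} {enc : L → List F} (h : EncOK F L P θ enc)
    (q p m D n e t : ℕ) (hPl : P.length = e) (H : List (List F)) (r2 : List F) (r' : List L)
    (hr : List.map enc r' = chunks e (R2 n + t * n) r2) :
    encIn (bits F q) (bits F p) m D n e t H r2 P (List.replicate (e - 1) (0 : F)) =
      ((bits F q, P), Ty.enc enc TL (((bits L q, bits L p), (un (m * e - 1), (un e, un t))),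
        (un D, ((Ty.map (algebraMap F L) Ma H : List (List L)), r')))) := by
  rw [enc_in0, enc_bits h, enc_bits h, enc_mat h, hr, hPl]
  rfl

theorem enc_out1 {P : List F} {θ : L} {enc : L → List F} (h : EncOK F L P θ enc)
    (Q : List F) (A : List (List (List F))) :
    (Ty.enc enc (.prod Po ML) ((Ty.map (algebraMap F L) Po Q : List L),
        (Ty.map (algebraMap F L) ML A : List (List (List L)))) :
      List (List F) × List (List (List (List F)))) =
      (Q.map (fun c => c :: List.replicate (P.length - 1) 0),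
        A.map (fun x => x.map (fun l => l.map
          (fun c => c :: List.replicate (P.length - 1) 0)))) := by
  show (List.map enc (List.map (algebraMap F L) Q),
    List.map (List.map (List.map enc)) (List.map (List.map (List.map (algebraMap F L))) A)) = _
  rw [List.map_map, List.map_map]
  refine Prod.ext ?_ ?_
  · exact List.map_congr_left fun c _ => enc_alg h c
  · refine List.map_congr_left fun x _ => ?_
    have := enc_mat h x
    rw [map_Ma] at this
    exact this

theorem val_out (H : List (List F)) (n : ℕ) (hH : H.length = n + 1) (z : List F) (Q : List F)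
    (A : List (List (List F))) :
    (outP.val () (H, (Q.map (fun c => c :: z),
        A.map (fun x => x.map (fun l => l.map (fun c => c :: z))))) :
      List F × List (List (List F))) = (Q, A.map (List.take (n + 1))) := by
  simp only [outP, val_pair, val_comp, val_fst, val_snd]
  rw [val_cutP, hH]
  refine Prod.ext ?_ ?_
  · show (dec1 : Pr [] Ma Po).val () (Q.map (fun c => c :: z)) = Q
    rw [dec1, val_mapQ, List.map_map]
    exact (List.map_congr_left (g := fun c => c) fun c _ => val_hdP (s := []) () c z).trans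
      (List.map_id' _)
  · show List.map (fun x : List (List (List F)) => List.map (fun r => List.map
        (fun l => (hdP : Pr [] Po .fld).val () l) r) (List.take (n + 1) x))
        (A.map (fun x => x.map (fun l => l.map (fun c => c :: z)))) = A.map (List.take (n + 1))
    rw [List.map_map]
    refine List.map_congr_left fun x _ => ?_
    simp only [Function.comp_apply]
    rw [← List.map_take, List.map_map]
    refine (List.map_congr_left fun l _ => ?_).trans (List.map_id _)
    simp only [Function.comp_apply, List.map_map, id]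
    exact (List.map_congr_left (g := fun c => c) fun c _ => val_hdP (s := []) () c z).trans
      (List.map_id' _)

theorem cost_out (H : List (List F)) (n : ℕ) (hH : H.length = n + 1) (z : List F) (Q : List F)
    (A : List (List (List F))) (hQ : Q.length ≤ n) (hA : A.length ≤ n)
    (hr : ∀ x ∈ A, ∀ r ∈ x.take (n + 1), r.length ≤ n + 1) :
    (outP : Pr [] _ _).cost () () (H, (Q.map (fun c => c :: z),
        A.map (fun x => x.map (fun l => l.map (fun c => c :: z))))) ≤
      200 * (n + 1) ^ 3 := by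
  have h1 := cost_cutP (F := F) (s := []) () () H
    (A.map (fun x => x.map (fun l => l.map (fun c => c :: z)))) (n + 1) (by
      intro x hx r hr'
      obtain ⟨y, hy, rfl⟩ := List.mem_map.1 hx
      rw [hH, ← List.map_take] at hr'
      obtain ⟨l, hl, rfl⟩ := List.mem_map.1 hr'
      rw [List.length_map]
      exact hr y hy l hl)
  have h2 := cost_dec1 (F := F) (s := []) () () (Q.map (fun c => c :: z))
  rw [List.length_map] at h1 h2
  rw [hH] at h1
  have h3 : (24 * (n + 1) + 20 * ((n + 1 + 2) * (n + 1)) + 30) * A.length ≤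
      (24 * (n + 1) + 20 * ((n + 1 + 2) * (n + 1)) + 30) * n := Nat.mul_le_mul_left _ hA
  have h4 : (outP : Pr [] _ _).cost () () (H, (Q.map (fun c => c :: z),
        A.map (fun x => x.map (fun l => l.map (fun c => c :: z))))) =
      (dec1 : Pr [] Ma Po).cost () () (Q.map (fun c => c :: z)) +
      (cutP : Pr [] (.prod Ma (.list (.list Ma))) ML).cost () ()
        (H, A.map (fun x => x.map (fun l => l.map (fun c => c :: z)))) + 7 := by
    simp only [outP, cost_comp, cost_pair, cost_fst, cost_snd, val_comp, val_pair, val_fst,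
      val_snd]
    ring
  rw [h4]
  have h5 : (24 * (n + 1) + 20 * ((n + 1 + 2) * (n + 1)) + 30) * n + 20 * n + 40 ≤
      200 * (n + 1) ^ 3 := by nlinarith [Nat.zero_le n]
  refine (Nat.add_le_add_right (Nat.add_le_add h2 h1) 7).trans ?_
  omega

end core

end Pool.Agent.H330AB.JIA

namespace Pool.Agent.H330AB.JIA
open Polynomial Pool.Agent.H330FB Pool.Agent.H330FB.JE8.E8

/-! ### counting -/

theorem cnt1 {X Y : Type} [Fintype X] [Fintype Y] (G : X → Y → Prop) (B : X → Prop) (a b c : ℕ)
    (h1 : a * Nat.card {x // ¬ B x} ≤ Fintype.card X)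
    (h2 : ∀ x, B x → a * b * Nat.card {y // ¬ G x y} ≤ c * Fintype.card Y) :
    a * b * Nat.card {z : X × Y // ¬ G z.1 z.2} ≤ (b + c) * (Fintype.card X * Fintype.card Y) := by
  classical
  have e2 : Nat.card {z : X × Y // ¬ G z.1 z.2} = ∑ x : X, Nat.card {y // ¬ G x y} := by
    rw [← Nat.card_sigma]
    exact Nat.card_congr (Equiv.subtypeProdEquivSigmaSubtype (fun (x : X) (y : Y) => ¬ G x y))
  have e3 : ∀ x : X, a * b * Nat.card {y // ¬ G x y} ≤
      c * Fintype.card Y + if ¬ B x then a * b * Fintype.card Y else 0 := by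
    intro x
    by_cases hB : B x
    · rw [if_neg (not_not.2 hB)]
      exact h2 x hB
    · rw [if_pos hB]
      have : Nat.card {y // ¬ G x y} ≤ Fintype.card Y := by
        rw [← Nat.card_eq_fintype_card]
        exact Nat.card_le_card_of_injective _ Subtype.val_injective
      exact (Nat.mul_le_mul_left _ this).trans (Nat.le_add_left _ _)
  rw [e2, Finset.mul_sum]
  refine (Finset.sum_le_sum fun x _ => e3 x).trans ?_
  rw [Finset.sum_add_distrib, Finset.sum_const, Finset.card_univ, smul_eq_mul,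
    ← Finset.sum_filter, Finset.sum_const, smul_eq_mul]
  have e4 : (Finset.univ.filter (fun x => ¬ B x)).card = Nat.card {x // ¬ B x} := by
    rw [Nat.card_eq_fintype_card, Fintype.card_subtype]
  rw [e4]
  have e5 : Nat.card {x // ¬ B x} * (a * b * Fintype.card Y) =
      (a * Nat.card {x // ¬ B x}) * (b * Fintype.card Y) := by ring
  rw [e5]
  have e6 := Nat.mul_le_mul_right (b * Fintype.card Y) h1
  calc _ ≤ Fintype.card X * (c * Fintype.card Y) + Fintype.card X * (b * Fintype.card Y) :=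
        Nat.add_le_add_left e6 _
    _ = _ := by ring

theorem cnt2 {X Y : Type} [Fintype X] [Fintype Y] (G : X → Y → Prop) (a c : ℕ)
    (h2 : ∀ y, a * Nat.card {x // ¬ G x y} ≤ c * Fintype.card X) :
    a * Nat.card {z : X × Y // ¬ G z.1 z.2} ≤ c * (Fintype.card X * Fintype.card Y) := by
  classical
  have e2 : Nat.card {z : X × Y // ¬ G z.1 z.2} = ∑ y : Y, Nat.card {x // ¬ G x y} := by
    rw [← Nat.card_sigma]
    refine Nat.card_congr (Equiv.trans ?_
      (Equiv.subtypeProdEquivSigmaSubtype (fun (y : Y) (x : X) => ¬ G x y)))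
    exact (Equiv.prodComm X Y).subtypeEquiv (fun x => Iff.rfl)
  rw [e2, Finset.mul_sum]
  refine (Finset.sum_le_sum fun y _ => h2 y).trans ?_
  rw [Finset.sum_const, Finset.card_univ, smul_eq_mul]
  exact le_of_eq (by ring)

theorem cnt3 {α : Type} [Fintype α] (N1 N2 N3 q : ℕ) (hq : Fintype.card α = q)
    (G : (Fin (N1 + N2 + N3) → α) → Prop) (B : (Fin N1 → α) → Prop) (a b c : ℕ)
    (h1 : a * Nat.card {r1 // ¬ B r1} ≤ q ^ N1)
    (h2 : ∀ r1, B r1 → ∀ r3 : Fin N3 → α,
      a * b * Nat.card {r2 : Fin N2 → α // ¬ G (Fin.append (Fin.append r1 r2) r3)} ≤ c * q ^ N2) :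
    a * b * Nat.card {r // ¬ G r} ≤ (b + c) * q ^ (N1 + N2 + N3) := by
  classical
  have hA : ∀ n : ℕ, Fintype.card (Fin n → α) = q ^ n := by
    intro n
    rw [Fintype.card_fun, hq, Fintype.card_fin]
  have k1 := cnt1 (X := Fin N1 → α) (Y := (Fin N2 → α) × (Fin N3 → α))
    (fun r1 y => G (Fin.append (Fin.append r1 y.1) y.2)) B a b c (by rw [hA]; exact h1) (by
      intro r1 hr1
      rw [Fintype.card_prod]
      exact cnt2 (fun r2 r3 => G (Fin.append (Fin.append r1 r2) r3)) (a * b) c (by
        intro r3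
        rw [hA]
        exact h2 r1 hr1 r3))
  have e1 : Nat.card {r // ¬ G r} = Nat.card {z : (Fin N1 → α) × ((Fin N2 → α) × (Fin N3 → α)) //
      ¬ G (Fin.append (Fin.append z.1 z.2.1) z.2.2)} := by
    refine Nat.card_congr (Equiv.symm ?_)
    refine Equiv.subtypeEquiv (((Equiv.prodAssoc _ _ _).symm.trans
      ((Fin.appendEquiv N1 N2).prodCongr (Equiv.refl _))).trans (Fin.appendEquiv (N1 + N2) N3))
      (fun x => Iff.rfl)
  rw [e1]
  refine k1.trans (le_of_eq ?_)
  rw [Fintype.card_prod, hA, hA, hA]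
  ring

theorem num_prob {d n p t L bad Q : ℕ} (hd : 1 ≤ d) (hn : n ≤ d) (hp : p ≤ d ^ 2)
    (ht : t = Nat.clog 2 d + 11) (hL : 6000 * d ^ 6 ≤ L)
    (h : 2 ^ t * L * bad ≤ (L + (2 ^ t * (50 * n ^ 3 * p) + L)) * Q) : 50 * d * bad ≤ Q := by
  have h1 : 2048 * d ≤ 2 ^ t := by
    rw [ht, pow_add]
    have := le_two_clog d
    omega
  have hx : n ^ 3 * p ≤ d ^ 5 := by
    calc n ^ 3 * p ≤ d ^ 3 * d ^ 2 := Nat.mul_le_mul (Nat.pow_le_pow_left hn 3) hp
      _ = d ^ 5 := by ring
  have hT : 1 ≤ 2 ^ t := Nat.one_le_two_pow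
  generalize 2 ^ t = T at *
  have hL1 : 1 ≤ L := by
    have : 1 ≤ d ^ 6 := Nat.one_le_pow _ _ hd
    omega
  have h2 : 50 * d * (L + (T * (50 * n ^ 3 * p) + L)) ≤ T * L := by
    have e1 : 50 * d * (L + (T * (50 * n ^ 3 * p) + L)) =
        100 * d * L + 2500 * T * (d * (n ^ 3 * p)) := by ring
    have e2 : d * (n ^ 3 * p) ≤ d ^ 6 := by
      calc d * (n ^ 3 * p) ≤ d * d ^ 5 := Nat.mul_le_mul_left _ hx
        _ = d ^ 6 := by ring
    have e3 : 20 * (100 * d * L) ≤ T * L := by
      calc 20 * (100 * d * L) = (2000 * d) * L := by ring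
        _ ≤ T * L := Nat.mul_le_mul_right _ (by omega)
    have e4 : 2 * (2500 * T * (d * (n ^ 3 * p))) ≤ T * L := by
      calc 2 * (2500 * T * (d * (n ^ 3 * p))) = T * (5000 * (d * (n ^ 3 * p))) := by ring
        _ ≤ T * L := Nat.mul_le_mul_left _ (by omega)
    rw [e1]
    omega
  have h3 : (T * L) * (50 * d * bad) ≤ (T * L) * Q := by
    calc (T * L) * (50 * d * bad) = 50 * d * (T * L * bad) := by ring
      _ ≤ 50 * d * ((L + (T * (50 * n ^ 3 * p) + L)) * Q) := Nat.mul_le_mul_left _ h
      _ = (50 * d * (L + (T * (50 * n ^ 3 * p) + L))) * Q := by ring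
      _ ≤ (T * L) * Q := Nat.mul_le_mul_right _ h2
  exact Nat.le_of_mul_le_mul_left h3 (Nat.mul_pos hT hL1)

end Pool.Agent.H330AB.JIA

namespace Pool.Agent.H330AB.JIA
open Polynomial Pool.Agent.H330FB Pool.Agent.H330FB.JE8.E8

/-! ### bounds with unspecified constants -/

/-- `f ≤ C lam ^ k` -/
def PB {O : Type} (lam : O → ℕ) (f : O → ℕ) : Prop := ∃ C k : ℕ, ∀ w, f w ≤ C * lam w ^ k

/-- `f ≤ C lam ^ k U` -/
def QB {O : Type} (lam U : O → ℕ) (f : O → ℕ) : Prop :=
  ∃ C k : ℕ, ∀ w, f w ≤ C * (lam w ^ k * U w)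

section bounds
variable {O : Type} {lam U : O → ℕ}

theorem PB.con (c : ℕ) : PB lam (fun _ => c) := ⟨c, 0, fun w => by simp⟩

theorem PB.mono {f g : O → ℕ} (hg : PB lam g) (h : ∀ w, f w ≤ g w) : PB lam f := by
  obtain ⟨C, k, hk⟩ := hg
  exact ⟨C, k, fun w => (h w).trans (hk w)⟩

theorem PB.add {f g : O → ℕ} (hl : ∀ w, 1 ≤ lam w) (hf : PB lam f) (hg : PB lam g) :
    PB lam (fun w => f w + g w) := by
  obtain ⟨C, k, hk⟩ := hf
  obtain ⟨C', k', hk'⟩ := hg
  refine ⟨C + C', k + k', fun w => ?_⟩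
  have h1 : lam w ^ k ≤ lam w ^ (k + k') := Nat.pow_le_pow_right (hl w) (by omega)
  have h2 : lam w ^ k' ≤ lam w ^ (k + k') := Nat.pow_le_pow_right (hl w) (by omega)
  calc f w + g w ≤ C * lam w ^ k + C' * lam w ^ k' := Nat.add_le_add (hk w) (hk' w)
    _ ≤ C * lam w ^ (k + k') + C' * lam w ^ (k + k') :=
      Nat.add_le_add (Nat.mul_le_mul_left _ h1) (Nat.mul_le_mul_left _ h2)
    _ = _ := by ring

theorem PB.mul {f g : O → ℕ} (hf : PB lam f) (hg : PB lam g) :
    PB lam (fun w => f w * g w) := by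
  obtain ⟨C, k, hk⟩ := hf
  obtain ⟨C', k', hk'⟩ := hg
  refine ⟨C * C', k + k', fun w => ?_⟩
  calc f w * g w ≤ (C * lam w ^ k) * (C' * lam w ^ k') := Nat.mul_le_mul (hk w) (hk' w)
    _ = _ := by ring

theorem PB.pow {f : O → ℕ} (hf : PB lam f) (n : ℕ) : PB lam (fun w => f w ^ n) := by
  induction n with
  | zero => simpa using PB.con 1
  | succ n ih => simpa only [pow_succ] using ih.mul hf

theorem QB.mono {f g : O → ℕ} (hg : QB lam U g) (h : ∀ w, f w ≤ g w) : QB lam U f := by
  obtain ⟨C, k, hk⟩ := hg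
  exact ⟨C, k, fun w => (h w).trans (hk w)⟩

theorem QB.base {f : O → ℕ} (c : ℕ) (h : ∀ w, f w ≤ c * U w) : QB lam U f :=
  ⟨c, 0, fun w => by simpa using h w⟩

theorem QB.add {f g : O → ℕ} (hl : ∀ w, 1 ≤ lam w) (hf : QB lam U f) (hg : QB lam U g) :
    QB lam U (fun w => f w + g w) := by
  obtain ⟨C, k, hk⟩ := hf
  obtain ⟨C', k', hk'⟩ := hg
  refine ⟨C + C', k + k', fun w => ?_⟩
  have h1 : lam w ^ k ≤ lam w ^ (k + k') := Nat.pow_le_pow_right (hl w) (by omega)
  have h2 : lam w ^ k' ≤ lam w ^ (k + k') := Nat.pow_le_pow_right (hl w) (by omega)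
  calc f w + g w ≤ C * (lam w ^ k * U w) + C' * (lam w ^ k' * U w) :=
        Nat.add_le_add (hk w) (hk' w)
    _ ≤ C * (lam w ^ (k + k') * U w) + C' * (lam w ^ (k + k') * U w) :=
      Nat.add_le_add (Nat.mul_le_mul_left _ (Nat.mul_le_mul_right _ h1))
        (Nat.mul_le_mul_left _ (Nat.mul_le_mul_right _ h2))
    _ = _ := by ring

theorem QB.mul {f g : O → ℕ} (hf : PB lam f) (hg : QB lam U g) :
    QB lam U (fun w => f w * g w) := by
  obtain ⟨C, k, hk⟩ := hf
  obtain ⟨C', k', hk'⟩ := hg
  refine ⟨C * C', k + k', fun w => ?_⟩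
  calc f w * g w ≤ (C * lam w ^ k) * (C' * (lam w ^ k' * U w)) := Nat.mul_le_mul (hk w) (hk' w)
    _ = _ := by ring

theorem QB.of {f : O → ℕ} (hU : ∀ w, 1 ≤ U w) (hf : PB lam f) : QB lam U f := by
  obtain ⟨C, k, hk⟩ := hf
  exact ⟨C, k, fun w => (hk w).trans (Nat.mul_le_mul_left _ (Nat.le_mul_of_pos_right _ (hU w)))⟩

end bounds

/-- the parameters -/
structure Om (Cc : ℕ) where
  q : ℕ
  p : ℕ
  m : ℕ
  n : ℕ
  d : ℕ
  e : ℕ
  t : ℕ
  hn : 1 ≤ n
  hd : n ≤ d
  hp : lgc p ≤ lgc q
  hm : m ≤ lgc q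
  he : e ≤ Cc * lgc d ^ 3
  ht : t = Nat.clog 2 d + 11

variable {Cc : ℕ}

/-- the logarithmic factor -/
def Lm (w : Om Cc) : ℕ := lgc w.q * lgc w.d
/-- the main factor -/
def Um (w : Om Cc) : ℕ := (w.n + 1) ^ 3 + (w.n + 1) * (w.d ^ 2 + 1)

/-- length of the random list that is used -/
def NN (w : Om Cc) : ℕ := 2 * w.e * (w.t + 1) * w.e + w.e * (R2 w.n + w.t * w.n)

theorem R2_le (n : ℕ) : R2 n ≤ 10 * (n + 1) ^ 2 := by
  unfold R2
  nlinarith

theorem t_le (w : Om Cc) : w.t + 1 ≤ 12 * lgc w.d := by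
  rw [w.ht]
  unfold lgc
  omega

theorem nn_bd (Cc : ℕ) : QB (O := Om Cc) (fun w => lgc w.d) (fun w => (w.d + 1) ^ 2) NN := by
  have hl : ∀ w : Om Cc, 1 ≤ (fun w : Om Cc => lgc w.d) w := fun w => lgc_pos w.d
  have hU : ∀ w : Om Cc, 1 ≤ (fun w : Om Cc => (w.d + 1) ^ 2) w :=
    fun w => Nat.one_le_pow _ _ (by omega)
  have pe : PB (O := Om Cc) (fun w => lgc w.d) (fun w => w.e) := ⟨Cc, 3, fun w => w.he⟩
  have pt : PB (O := Om Cc) (fun w => lgc w.d) (fun w => w.t + 1) :=
    ⟨12, 1, fun w => by simpa using t_le w⟩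
  have pt' : PB (O := Om Cc) (fun w => lgc w.d) (fun w => w.t) := pt.mono fun w => by omega
  have r2 : QB (O := Om Cc) (fun w => lgc w.d) (fun w => (w.d + 1) ^ 2) (fun w => R2 w.n) :=
    QB.base 10 fun w => (R2_le w.n).trans (Nat.mul_le_mul_left _
      (Nat.pow_le_pow_left (by have := w.hd; omega) 2))
  have nb : QB (O := Om Cc) (fun w => lgc w.d) (fun w => (w.d + 1) ^ 2) (fun w => w.n) :=
    QB.base 1 fun w => by
      have := w.hd
      nlinarith
  exact QB.add hl (QB.of hU ((((PB.con 2).mul pe).mul pt).mul pe))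
    (QB.mul pe (QB.add hl r2 (QB.mul pt' nb)))

/-- the sum of all costs -/
def TT (Cf kf Cs ks Cp kp : ℕ) (w : Om Cc) : ℕ :=
  (15 * (w.n + 1) + 20) + Cc * ((w.d + 1) * lgc w.d ^ 4) + (120 * w.d + 64) +
  ((20 * (w.t + 1) + 90) * w.e + (20 * w.e + 90) * (w.e * (w.t + 1)) +
    20 * (w.e * (w.t + 1) * w.e) + 130) + (24 * (2 * w.e * (w.t + 1) * w.e) + 8) +
  Cf * (w.e * (w.t + 1) * lgc w.q) ^ kf + (15 * w.e + 20) +
  ((17 * lgc w.q + 5) + (17 * lgc w.p + 5) + ((20 * w.e + 90) * w.m + 15 * (w.m * w.e) + 70) +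
    ((17 * (w.n + 1) + 18) * (w.n + 1) + 5) +
    ((20 * w.n + 90) * w.n + (20 * w.n + 90) * w.t + 40 * (w.n * w.n) + 60 * w.n + 200) +
    ((24 * w.e + 30) * (R2 w.n + w.t * w.n) + 2) + 106) +
  Cs * (w.e * lgc w.q) ^ ks * (Cp * (((w.m * w.e) * (w.e + 1) * (w.t + 1) * lgc w.q *
    lgc (w.n + w.d ^ 2 + 1)) ^ kp * Um w) + 1) + 200 * (w.n + 1) ^ 3 + 10 + 57

theorem lgc3 {n d : ℕ} (h1 : 1 ≤ n) (h : n ≤ d) : lgc (n + d ^ 2 + 1) ≤ 3 * lgc d := by
  have h2 : n + d ^ 2 + 1 ≤ 2 ^ (2 + 2 * Nat.clog 2 d) := by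
    have h3 := le_two_clog d
    have h4 : 2 ^ (2 + 2 * Nat.clog 2 d) = 4 * (2 ^ Nat.clog 2 d) ^ 2 := by
      rw [pow_add, mul_comm 2 (Nat.clog 2 d), pow_mul]
      norm_num
    rw [h4]
    have h5 : d ^ 2 ≤ (2 ^ Nat.clog 2 d) ^ 2 := Nat.pow_le_pow_left h3 2
    nlinarith
  have h3 : Nat.clog 2 (n + d ^ 2 + 1) ≤ 2 + 2 * Nat.clog 2 d :=
    Nat.clog_le_of_le_pow h2
  unfold lgc
  omega

theorem tt_bd (Cc Cf kf Cs ks Cp kp : ℕ) :
    QB (O := Om Cc) Lm Um (TT Cf kf Cs ks Cp kp) := by
  have hl : ∀ w : Om Cc, 1 ≤ Lm w := fun w => Nat.mul_pos (lgc_pos _) (lgc_pos _)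
  have hU : ∀ w : Om Cc, 1 ≤ Um w := fun w => by
    unfold Um
    have : 1 ≤ (w.n + 1) ^ 3 := Nat.one_le_pow _ _ (by omega)
    omega
  have pd : PB (O := Om Cc) Lm (fun w => lgc w.d) :=
    ⟨1, 1, fun w => by
      simp only [pow_one, one_mul]
      exact Nat.le_mul_of_pos_left _ (lgc_pos _)⟩
  have pq : PB (O := Om Cc) Lm (fun w => lgc w.q) :=
    ⟨1, 1, fun w => by
      simp only [pow_one, one_mul]
      exact Nat.le_mul_of_pos_right _ (lgc_pos _)⟩
  have pp : PB (O := Om Cc) Lm (fun w => lgc w.p) := pq.mono fun w => w.hp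
  have pm : PB (O := Om Cc) Lm (fun w => w.m) := pq.mono fun w => w.hm
  have pe : PB (O := Om Cc) Lm (fun w => w.e) := ((PB.con Cc).mul (pd.pow 3)).mono fun w => w.he
  have pt : PB (O := Om Cc) Lm (fun w => w.t + 1) := ((PB.con 12).mul pd).mono fun w => t_le w
  have pt' : PB (O := Om Cc) Lm (fun w => w.t) := pt.mono fun w => by omega
  have pl : PB (O := Om Cc) Lm (fun w => lgc (w.n + w.d ^ 2 + 1)) :=
    ((PB.con 3).mul pd).mono fun w => lgc3 w.hn w.hd
  have qn1 : QB (O := Om Cc) Lm Um (fun w => w.n + 1) := QB.base 1 fun w => by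
    unfold Um
    nlinarith [Nat.zero_le w.n, Nat.zero_le (w.n ^ 2), Nat.zero_le (w.n ^ 3)]
  have qn : QB (O := Om Cc) Lm Um (fun w => w.n) := qn1.mono fun w => by omega
  have qd1 : QB (O := Om Cc) Lm Um (fun w => w.d + 1) := QB.base 1 fun w => by
    unfold Um
    nlinarith [Nat.zero_le w.n, w.hn, Nat.zero_le (w.n * w.d ^ 2), Nat.zero_le (w.n ^ 3),
      Nat.zero_le (w.n ^ 2)]
  have qd : QB (O := Om Cc) Lm Um (fun w => w.d) := qd1.mono fun w => by omega
  have qn2 : QB (O := Om Cc) Lm Um (fun w => (w.n + 1) * (w.n + 1)) := QB.base 1 fun w => by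
    unfold Um
    nlinarith [Nat.zero_le w.n, Nat.zero_le (w.n ^ 2), Nat.zero_le (w.n ^ 3),
      Nat.zero_le ((w.n + 1) * (w.d ^ 2 + 1))]
  have qn3 : QB (O := Om Cc) Lm Um (fun w => (w.n + 1) ^ 3) := QB.base 1 fun w => by
    unfold Um
    omega
  have qr : QB (O := Om Cc) Lm Um (fun w => R2 w.n) :=
    (QB.mul (PB.con 10) qn2).mono fun w => (R2_le w.n).trans (le_of_eq (by ring))
  have qu : QB (O := Om Cc) Lm Um Um := QB.base 1 fun w => (one_mul _).ge
  have qc : ∀ c : ℕ, QB (O := Om Cc) Lm Um (fun _ => c) := fun c => QB.of hU (PB.con c)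
  have A : ∀ {f g : Om Cc → ℕ}, QB Lm Um f → QB Lm Um g → QB Lm Um (fun w => f w + g w) :=
    fun hf hg => QB.add hl hf hg
  have AP : ∀ {f g : Om Cc → ℕ}, PB Lm f → PB Lm g → PB Lm (fun w => f w + g w) :=
    fun hf hg => PB.add hl hf hg
  have M : ∀ {f : Om Cc → ℕ} (c : ℕ), QB Lm Um f → QB Lm Um (fun w => c * f w) :=
    fun c hf => QB.mul (PB.con c) hf
  have W : ∀ {f : Om Cc → ℕ}, PB Lm f → QB Lm Um f := fun hf => QB.of hU hf
  have c1 : QB (O := Om Cc) Lm Um (fun w => 15 * (w.n + 1) + 20) := A (M 15 qn1) (qc 20)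
  have c2 : QB (O := Om Cc) Lm Um (fun w => Cc * ((w.d + 1) * lgc w.d ^ 4)) :=
    M Cc ((QB.mul (pd.pow 4) qd1).mono fun w => (mul_comm _ _).le)
  have c3 : QB (O := Om Cc) Lm Um (fun w => 120 * w.d + 64) := A (M 120 qd) (qc 64)
  have pet := pe.mul pt
  have c4 : QB (O := Om Cc) Lm Um (fun w => (20 * (w.t + 1) + 90) * w.e +
      (20 * w.e + 90) * (w.e * (w.t + 1)) + 20 * (w.e * (w.t + 1) * w.e) + 130) :=
    W (AP (AP (AP ((AP ((PB.con 20).mul pt) (PB.con 90)).mul pe)
      ((AP ((PB.con 20).mul pe) (PB.con 90)).mul pet)) ((PB.con 20).mul (pet.mul pe)))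
      (PB.con 130))
  have c5 : QB (O := Om Cc) Lm Um (fun w => 24 * (2 * w.e * (w.t + 1) * w.e) + 8) :=
    W (AP ((PB.con 24).mul ((((PB.con 2).mul pe).mul pt).mul pe)) (PB.con 8))
  have c6 : QB (O := Om Cc) Lm Um (fun w => Cf * (w.e * (w.t + 1) * lgc w.q) ^ kf) :=
    W ((PB.con Cf).mul ((pet.mul pq).pow kf))
  have c7 : QB (O := Om Cc) Lm Um (fun w => 15 * w.e + 20) :=
    W (AP ((PB.con 15).mul pe) (PB.con 20))
  have c8 : QB (O := Om Cc) Lm Um (fun w => (17 * lgc w.q + 5) + (17 * lgc w.p + 5) +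
      ((20 * w.e + 90) * w.m + 15 * (w.m * w.e) + 70)) :=
    W (AP (AP (AP ((PB.con 17).mul pq) (PB.con 5)) (AP ((PB.con 17).mul pp) (PB.con 5)))
      (AP (AP ((AP ((PB.con 20).mul pe) (PB.con 90)).mul pm) ((PB.con 15).mul (pm.mul pe)))
        (PB.con 70)))
  have c9 : QB (O := Om Cc) Lm Um (fun w => (17 * (w.n + 1) + 18) * (w.n + 1) + 5) :=
    (A (M 35 qn2) (qc 5)).mono fun w => by nlinarith
  have c10 : QB (O := Om Cc) Lm Um (fun w => (20 * w.n + 90) * w.n + (20 * w.n + 90) * w.t +
      40 * (w.n * w.n) + 60 * w.n + 200) :=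
    (A (A (A (A (M 90 qn2) (QB.mul pt' (M 90 qn1))) (M 40 qn2)) (M 60 qn)) (qc 200)).mono
      fun w => by
        have h1 : (20 * w.n + 90) * w.n ≤ 90 * ((w.n + 1) * (w.n + 1)) := by nlinarith
        have h2 : (20 * w.n + 90) * w.t ≤ w.t * (90 * (w.n + 1)) := by nlinarith
        have h3 : w.n * w.n ≤ (w.n + 1) * (w.n + 1) := by nlinarith
        omega
  have c11 : QB (O := Om Cc) Lm Um (fun w => (24 * w.e + 30) * (R2 w.n + w.t * w.n) + 2) :=
    A (QB.mul (AP ((PB.con 24).mul pe) (PB.con 30)) (A qr (QB.mul pt' qn))) (qc 2)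
  have c12 : QB (O := Om Cc) Lm Um (fun w => Cs * (w.e * lgc w.q) ^ ks *
      (Cp * (((w.m * w.e) * (w.e + 1) * (w.t + 1) * lgc w.q *
        lgc (w.n + w.d ^ 2 + 1)) ^ kp * Um w) + 1)) :=
    QB.mul ((PB.con Cs).mul ((pe.mul pq).pow ks)) (A (M Cp (QB.mul
      ((((((pm.mul pe).mul (AP pe (PB.con 1))).mul pt).mul pq).mul pl).pow kp) qu)) (qc 1))
  have c13 : QB (O := Om Cc) Lm Um (fun w => 200 * (w.n + 1) ^ 3) := M 200 qn3
  exact A (A (A (A (A (A (A (A (A (A (A c1 c2) c3) c4) c5) c6) c7)
    (A (A (A (A c8 c9) c10) c11) (qc 106))) c12) c13) (qc 10)) (qc 57)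

end Pool.Agent.H330AB.JIA

namespace Pool.Agent.H330AB.JIA
open Polynomial Pool.Agent.H330FB Pool.Agent.H330FB.JE8.E8

theorem chunks_append {α : Type} (n k : ℕ) (l l' : List α) (h : l.length = n * k) :
    chunks n k (l ++ l') = chunks n k l := by
  induction k generalizing l with
  | zero => rfl
  | succ k ih =>
    have h1 : n ≤ l.length := by rw [h, Nat.mul_succ]; omega
    rw [chunks, chunks, List.take_append_of_le_length h1, List.drop_append_of_le_length h1,
      ih (l.drop n) (by rw [List.length_drop, h, Nat.mul_succ]; omega)]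

theorem lgc_mono {a b : ℕ} (h : a ≤ b) : lgc a ≤ lgc b := by
  unfold lgc
  have := Nat.clog_mono_right 2 h
  omega

theorem m_le {q p m : ℕ} (hp : 2 ≤ p) (h : q = p ^ m) : m ≤ lgc q := by
  have h1 : 2 ^ m ≤ 2 ^ Nat.clog 2 q := by
    refine le_trans ?_ (le_two_clog q)
    rw [h]
    exact Nat.pow_le_pow_left hp m
  have h2 := (Nat.pow_le_pow_iff_right (by norm_num : 1 < 2)).1 h1
  unfold lgc
  omega

theorem fin_le {a0 a1 a2 a3 a4 a5 a6 a7 a8 a9 a10 a11 b0 b1 b2 b3 b4 l5 l6 q p b7 b8 b9 b10 b11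
    S S1 S2 : ℕ} (h0 : a0 ≤ b0) (h1 : a1 ≤ b1) (h2 : a2 ≤ b2) (h3 : a3 ≤ b3) (h4 : a4 ≤ b4)
    (h5 : a5 ≤ 17 * l5 + 5) (h6 : a6 ≤ 17 * l6 + 5) (h7 : a7 ≤ b7) (h8 : a8 ≤ b8) (h9 : a9 ≤ b9)
    (h10 : a10 ≤ b10) (h11 : a11 ≤ b11) (h12 : l5 ≤ q) (h13 : l6 ≤ p) :
    a0 + S1 + a1 + a2 + a3 + S2 + a4 +
      ((a5 + a6 + a7 + a8 + a9 + a10 + 106) + S + a11 + 10) + 57 ≤
    b0 + S1 + b1 + b2 + b3 + S2 + b4 + ((17 * q + 5) + (17 * p + 5) + b7 + b8 + b9 + b10 + 106) +
      S + b11 + 10 + 57 := by
  omega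

section core
variable {F L : Type} [Field F] [DecidableEq F] [Field L] [DecidableEq L] [Algebra F L]

theorem core (cop : Pr [] (.prod Un Un) Un) (fd : Pr [] (.prod Po (.prod Un (.prod Un Po))) Po)
    (il : Pr [] TL (.prod Po ML))
    (sm : Pr [] (.prod (.prod Po Po) (Ty.ext TL)) (Ty.ext (.prod Po ML)))
    {q p m D d n e t N1 : ℕ} {H : List (List F)} (hH : H.length = n + 1) {rs1 rs2 rs3 : List F}
    (hN1 : N1 = 2 * e * (t + 1) * e)
    (h1 : rs1.length = N1) (h2 : rs2.length = e * (R2 n + t * n))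
    (hc : cop.val (F := F) () (un n, un d) = un e) (ht : t = Nat.clog 2 d + 11) {P : List F}
    (hP : fd.val () (bits F q, (un e, (un t, rs1))) = P) (hPl : P.length = e) {θ : L}
    {enc : L → List F} (hE : EncOK F L P θ enc) {r' : List L}
    (hr : List.map enc r' = chunks e (R2 n + t * n) rs2)
    {q' : List F} {A' : List (List (List F))}
    (hout : (il.val () (((bits L q, bits L p), (un (m * e - 1), (un e, un t))),
        (un D, (Ty.map (algebraMap F L) Ma H, r'))) : List L × List (List (List L))) =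
        (Ty.map (algebraMap F L) Po q', Ty.map (algebraMap F L) ML A'))
    (hs : sm.val () ((bits F q, P), Ty.enc enc TL
      (((bits L q, bits L p), (un (m * e - 1), (un e, un t))),
        (un D, (Ty.map (algebraMap F L) Ma H, r')))) =
      Ty.enc enc (.prod Po ML) (il.val () (((bits L q, bits L p), (un (m * e - 1), (un e, un t))),
        (un D, (Ty.map (algebraMap F L) Ma H, r'))))) 
    (hq' : q'.length ≤ n) (hA' : A'.length ≤ n)
    (hrr : ∀ x ∈ A', ∀ r ∈ x.take (n + 1), r.length ≤ n + 1) (hHr : ∀ l ∈ H, l.length ≤ n + 1) :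
    ((mainP cop fd sm).val () ((bits F q, (bits F p, un m)), ((un D, un d),
      (H, (rs1 ++ rs2) ++ rs3))) : List F × List (List (List F))) =
        (q', A'.map (List.take (n + 1))) ∧
    (mainP cop fd sm).cost () () ((bits F q, (bits F p, un m)), ((un D, un d),
      (H, (rs1 ++ rs2) ++ rs3))) ≤
      (15 * (n + 1) + 20) + cop.cost (F := F) () () (un n, un d) + (120 * d + 64) +
      ((20 * (t + 1) + 90) * e + (20 * e + 90) * (e * (t + 1)) +
        20 * (e * (t + 1) * e) + 130) + (24 * (2 * e * (t + 1) * e) + 8) +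
      fd.cost () () (bits F q, (un e, (un t, rs1))) + (15 * e + 20) +
      ((17 * lgc q + 5) + (17 * lgc p + 5) + ((20 * e + 90) * m + 15 * (m * e) + 70) +
        ((17 * (n + 1) + 18) * (n + 1) + 5) +
        ((20 * n + 90) * n + (20 * n + 90) * t + 40 * (n * n) + 60 * n + 200) +
        ((24 * e + 30) * (R2 n + t * n) + 2) + 106) +
      sm.cost () () ((bits F q, P), Ty.enc enc TL
        (((bits L q, bits L p), (un (m * e - 1), (un e, un t))),
          (un D, (Ty.map (algebraMap F L) Ma H, r')))) + 200 * (n + 1) ^ 3 + 10 + 57 := by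
  have hw1 : ((rs1 ++ rs2) ++ rs3).take (2 * e * (t + 1) * e) = rs1 := by
    rw [List.append_assoc, ← hN1]
    exact List.take_left' h1
  have hw2 : ((rs1 ++ rs2) ++ rs3).drop (2 * e * (t + 1) * e) = rs2 ++ rs3 := by
    rw [List.append_assoc, ← hN1]
    exact List.drop_left' h1
  have hin := enc_in1 hE q p m D n e t hPl H (rs2 ++ rs3) r' (by
    rw [chunks_append _ _ _ _ h2]
    exact hr)
  have hres := enc_out1 hE q' A'
  rw [hPl] at hres
  obtain ⟨sm', hsm⟩ : ∃ sm' : Pr [] (.prod (.prod Po Po) TX) (.prod Ma (.list (.list Ma))),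
    sm' = sm := ⟨sm, rfl⟩
  subst hsm
  have hv : sm'.val () (encIn (bits F q) (bits F p) m D n e t H (rs2 ++ rs3) P
      (List.replicate (e - 1) (0 : F))) =
      (q'.map (fun c => c :: List.replicate (e - 1) 0),
        A'.map (fun x => x.map (fun l => l.map
          (fun c => c :: List.replicate (e - 1) 0)))) := by
    rw [hin, ← hres, ← hout]
    exact hs
  constructor
  · refine (val_main cop fd sm' _ _ _ _ _ _ _ _ _ _ hH hc ht).trans ?_
    rw [hw1, hw2, hP, hv]
    exact val_out H n hH _ q' A'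
  · have hcm := cost_main cop fd sm' (bits F q) (bits F p) m D d n e t H ((rs1 ++ rs2) ++ rs3)
      hH hc ht
    rw [hw1, hw2, hP, cost_last, cost_in, hv] at hcm
    have c0 := cost_tlP (F := F) (s := []) (a := Po) () () H
    have c0' : (tlP : Pr [] Ma Un).cost () () H ≤ 15 * (n + 1) + 20 := by
      refine c0.trans ?_
      show 15 * H.length + 20 ≤ _
      rw [hH]
    have c1 := cost_tP (F := F) (s := []) () () d
    have c2 := cost_n1P (F := F) (s := []) () () e t
    have c3 := cost_split_un (F := F) (2 * e * (t + 1) * e) ((rs1 ++ rs2) ++ rs3)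
    have c4 := cost_z_un (F := F) e
    have c5 := cost_enc1 (s := []) () () (List.replicate (e - 1) (0 : F)) (bits F q)
    have c6 := cost_enc1 (s := []) () () (List.replicate (e - 1) (0 : F)) (bits F p)
    have c7 := cost_mP (F := F) (s := []) () () e m
    have c8 := cost_enc2 (s := []) () () (List.replicate (e - 1) (0 : F)) H (n + 1) hHr
    have c9 := cost_n2P (F := F) (s := []) () () n t
    have c10 := cost_chunksP (F := F) (s := []) (a := .fld) (b := .unit) (c := .unit) () ()
      (un (R2 n + t * n), (un e, rs2 ++ rs3))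
    have c10' : (chunksP : Pr [] (.prod Un (.prod Un Po)) Ma).cost () ()
        (un (R2 n + t * n), (un e, rs2 ++ rs3)) ≤ (24 * e + 30) * (R2 n + t * n) + 2 := by
      refine c10.trans (le_of_eq ?_)
      show (24 * (un e).length + 30) * (un (R2 n + t * n)).length + 2 = _
      rw [lun, lun]
    have c11 := cost_out H n hH (List.replicate (e - 1) (0 : F)) q' A' hq' hA' hrr
    have c12 := length_bits F q
    have c13 := length_bits F p
    rw [hH] at c8
    have hS : sm'.cost () () (encIn (bits F q) (bits F p) m D n e t H (rs2 ++ rs3) P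
      (List.replicate (e - 1) (0 : F))) = sm'.cost () () ((bits F q, P), Ty.enc enc TL
        (((bits L q, bits L p), (un (m * e - 1), (un e, un t))),
          (un D, (Ty.map (algebraMap F L) Ma H, r')))) :=
      congrArg (fun y => sm'.cost () () y) hin
    rw [hS] at hcm
    rw [hcm]
    exact fin_le c0' c1 c2 c3 c4 c5 c6 c7 c8 c9 c10' c11 c12 c13

end core

end Pool.Agent.H330AB.JIA

noncomputable section
namespace Pool.Agent.H330AB.JL8
open Polynomial Pool.Agent.H330FB

/-- TARGET -/
theorem specIA (h1 : SpecCop) (h2 : SpecFindG) (h3 : SpecIL) (h4 : SpecSim) : SpecIA := by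
  obtain ⟨cop, Cc, hcop⟩ := h1
  obtain ⟨fd, Cf, kf, hfd⟩ := h2
  obtain ⟨il, Cp, kp, hil⟩ := h3
  obtain ⟨sm, Cs, ks, hsm⟩ := h4 JIA.TL (.prod Po ML) il
  obtain ⟨K1, k1, hK1⟩ := JIA.tt_bd Cc Cf kf Cs ks Cp kp
  obtain ⟨K2, k2, hK2⟩ := JIA.nn_bd Cc
  refine ⟨JIA.mainP cop fd sm, K1 + K2, k1 + k2, ?_⟩
  intro F _ _ _ q p m n d N H hp hqF hqp hH hn hnd hT hirr hpd hN
  have hq2 : 2 ≤ q := hqF ▸ Fintype.one_lt_card
  have hm : 1 ≤ m := by
    rcases Nat.eq_zero_or_pos m with h | h
    · rw [h, pow_zero] at hqp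
      omega
    · exact h
  have hpq : p ≤ q := by
    rw [hqp]
    exact Nat.le_self_pow (by omega) p
  obtain ⟨e, hen, he6, he1, heC, hcv⟩ := hcop n d hn hnd
  obtain ⟨hcv1, hcv2⟩ := hcv F
  obtain ⟨t, ht⟩ : ∃ t, t = Nat.clog 2 d + 11 := ⟨_, rfl⟩
  let w : JIA.Om Cc := ⟨q, p, m, n, d, e, t, hn, hnd, JIA.lgc_mono hpq,
    JIA.m_le hp.two_le hqp, heC, ht⟩
  have hld := JE8.E8.lgc_pos d
  have hlq := JE8.E8.lgc_pos q
  have hNN : 2 * e * (t + 1) * e + e * (R2 n + t * n) ≤ N := by
    refine (hK2 w).trans (le_trans ?_ hN)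
    show K2 * (lgc d ^ k2 * (d + 1) ^ 2) ≤ (K1 + K2) * lgc d ^ (k1 + k2) * (d + 1) ^ 2
    have e1 : lgc d ^ k2 ≤ lgc d ^ (k1 + k2) := Nat.pow_le_pow_right hld (by omega)
    calc K2 * (lgc d ^ k2 * (d + 1) ^ 2) ≤ (K1 + K2) * (lgc d ^ (k1 + k2) * (d + 1) ^ 2) :=
          Nat.mul_le_mul (by omega) (Nat.mul_le_mul_right _ e1)
      _ = _ := by ring
  obtain ⟨N3, rfl⟩ := Nat.exists_eq_add_of_le hNN
  clear hNN hN
  obtain ⟨hf1, hf2⟩ := hfd F q e t hqF he1
  refine JIA.num_prob (d := d) (n := n) (p := p) (t := t) (L := q ^ e) (hn.trans hnd) hnd hpd ht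
    (he6.trans (Nat.pow_le_pow_left hq2 e)) ?_
  refine JIA.cnt3 (2 * e * (t + 1) * e) (e * (R2 n + t * n)) N3 q hqF _
    (fun r1 => Irreducible (mpol (fd.val () (bits F q, (un e, (un t, List.ofFn r1))) : List F)))
    (2 ^ t) (q ^ e) (2 ^ t * (50 * n ^ 3 * p) + q ^ e) hf1 ?_
  intro r1 hirrP r3
  obtain ⟨hPl, hcf⟩ := hf2 r1
  obtain ⟨P, hP⟩ : ∃ P : List F, fd.val () (bits F q, (un e, (un t, List.ofFn r1))) = P :=
    ⟨_, rfl⟩
  simp only [hP] at hirrP
  rw [hP] at hPl
  have : Fact (Irreducible (mpol P)) := ⟨hirrP⟩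
  have hE := JE8.E8.encOK P (by
    have : P.length = e := hPl
    omega)
  have hfin : Module.Finite F (AdjoinRoot (mpol P)) := (JE8.E8.mpol_monic P).finite_adjoinRoot
  have : Finite (AdjoinRoot (mpol P)) := Module.finite_of_finite F
  let _ : Fintype (AdjoinRoot (mpol P)) := Fintype.ofFinite _
  classical
  have hcard := JE8.E8.card_ext P
  have hPl' : P.length = e := hPl
  rw [hqF, hPl'] at hcard
  have hme : m * e - 1 + 1 = m * e := Nat.sub_add_cancel (Nat.mul_pos hm he1)
  have hmain := hil F (AdjoinRoot (mpol P)) q p (m * e - 1) e n t (d ^ 2) H hp hqF hcard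
    (by rw [hcard, hqp, hme, ← pow_mul]) he1 hen hH hn hT hirr hpd
  rw [hcard, hme] at hmain
  refine le_trans (Nat.mul_le_mul_left _ ?_) (hmain.trans (le_of_eq ?_))
  swap
  · rw [← pow_mul]
  refine Nat.card_le_card_of_injective (Subtype.map
    (JE8.E8.Phi (F := F) (AdjoinRoot.root (mpol P)) e (R2 n + t * n)) ?_)
    (Subtype.map_injective _ (JE8.E8.Phi_inj hE hPl' (R2 n + t * n)))
  intro r2 hG hex
  apply hG
  obtain ⟨q', A', hfac, hval, hcost⟩ := hex
  obtain ⟨hs1, hs2⟩ := hsm F (AdjoinRoot (mpol P)) q P (AdjoinRoot.root (mpol P))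
    (JE8.E8.encL P) hqF hE
    (((bits (AdjoinRoot (mpol P)) q, bits (AdjoinRoot (mpol P)) p),
      (un (m * e - 1), (un e, un t))),
      (un (d ^ 2), (Ty.map (algebraMap F (AdjoinRoot (mpol P))) Ma H,
      List.ofFn (JE8.E8.Phi (F := F) (AdjoinRoot.root (mpol P)) e (R2 n + t * n) r2))))
  obtain ⟨hc1, hc2, hc3, hc4⟩ := JIA.cut_fac hH hn hT hfac
  have hHr : ∀ l ∈ H, l.length ≤ n + 1 := by
    intro l hl
    obtain ⟨k, hk, rfl⟩ := List.getElem_of_mem hl
    have h5 := hH.2 k (by have := hH.1; omega)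
    rw [List.getD_eq_getElem _ _ hk] at h5
    rw [h5]
    have := hH.1
    omega
  obtain ⟨hv, hc⟩ := JIA.core cop fd il sm (q := q) (p := p) (m := m) (D := d ^ 2) (d := d)
    (n := n) (e := e) (t := t) hH.1 (rs1 := List.ofFn r1) (rs2 := List.ofFn r2)
    (rs3 := List.ofFn r3) rfl List.length_ofFn List.length_ofFn hcv1 ht hP hPl' hE
    (JE8.E8.Phi_chunks hE hPl' (R2 n + t * n) r2) hval hs1 hc2 (hc3.trans_le hc2) hc4 hHr
  rw [hPl'] at hs2
  rw [List.ofFn_fin_append, List.ofFn_fin_append, hv]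
  refine ⟨hc1, ?_⟩
  refine hc.trans (le_trans ?_ (le_trans (hK1 w) ?_))
  · show _ ≤ (15 * (n + 1) + 20) + Cc * ((d + 1) * lgc d ^ 4) + (120 * d + 64) +
      ((20 * (t + 1) + 90) * e + (20 * e + 90) * (e * (t + 1)) +
        20 * (e * (t + 1) * e) + 130) + (24 * (2 * e * (t + 1) * e) + 8) +
      Cf * (e * (t + 1) * lgc q) ^ kf + (15 * e + 20) +
      ((17 * lgc q + 5) + (17 * lgc p + 5) + ((20 * e + 90) * m + 15 * (m * e) + 70) +
        ((17 * (n + 1) + 18) * (n + 1) + 5) +
        ((20 * n + 90) * n + (20 * n + 90) * t + 40 * (n * n) + 60 * n + 200) +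
        ((24 * e + 30) * (R2 n + t * n) + 2) + 106) +
      Cs * (e * lgc q) ^ ks * (Cp * (((m * e) * (e + 1) * (t + 1) * lgc q *
        lgc (n + d ^ 2 + 1)) ^ kp * ((n + 1) ^ 3 + (n + 1) * (d ^ 2 + 1))) + 1) +
      200 * (n + 1) ^ 3 + 10 + 57
    have hs3 := hs2.trans (Nat.mul_le_mul_left _ (Nat.add_le_add_right hcost 1))
    refine Nat.add_le_add_right (Nat.add_le_add_right (Nat.add_le_add_right (Nat.add_le_add
      (Nat.add_le_add_right (Nat.add_le_add_right (Nat.add_le_add
      (Nat.add_le_add_right (Nat.add_le_add_right (Nat.add_le_add_right (Nat.add_le_add_left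
      hcv2 _) _) _) _) hcf) _) _) hs3) _) _) _
  · show K1 * ((lgc q * lgc d) ^ k1 * ((n + 1) ^ 3 + (n + 1) * (d ^ 2 + 1))) ≤
      (K1 + K2) * ((lgc q * lgc d) ^ (k1 + k2) * ((n + 1) ^ 3 + (n + 1) * (d ^ 2 + 1)))
    exact Nat.mul_le_mul (by omega) (Nat.mul_le_mul_right _
      (Nat.pow_le_pow_right (Nat.mul_pos hlq hld) (by omega)))

end Pool.Agent.H330AB.JL8
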