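import Pool.Agent.H330AB.SpecC1
set_option autoImplicit false
noncomputable section
namespace Pool.Agent.H330AB.JL8a
open Polynomial Pool.Agent.H330FB

section ilprogs
variable {F : Type} [Field F] [DecidableEq F]
variable {s : List (Ty × Ty)} {a b c d e g σ τ : Ty}

/-- tail -/
def ilTl : Pr s (.list a) (.list a) := onL .id .nil (.comp .snd .snd)

theorem val_ilTl (v : SV F s) (x : Ty.D F (.list a)) :
    (ilTl : Pr s (.list a) (.list a)).val v x = List.tail x := by
  cases x <;> simp [ilTl]

theorem cost_ilTl (v : SV F s) (k : SC F s) (x : Ty.D F (.list a)) :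
    (ilTl : Pr s (.list a) (.list a)).cost v k x ≤ 8 := by
  cases x <;> simp [ilTl]

theorem il_unit_list (l : List Unit) : l = un l.length := by
  unfold un
  exact List.eq_replicate_of_mem (fun _ _ => rfl)

theorem il_length_un (n : ℕ) : (un n).length = n := by simp [un]

/-- length minus one in unary -/
def ilD : Pr s (.list a) (.list .unit) :=
  ap2 (mapP (c := .unit) .star) .star ilTl

theorem val_ilD (v : SV F s) (x : Ty.D F (.list a)) :
    (ilD : Pr s (.list a) (.list .unit)).val v x = un (List.length x - 1) := by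
  simp only [ilD, val_comp, val_pair, val_mapP, val_star, val_ilTl]
  rw [il_unit_list (List.map _ _)]
  simp

theorem cost_ilD (v : SV F s) (k : SC F s) (x : Ty.D F (.list a)) :
    (ilD : Pr s (.list a) (.list .unit)).cost v k x ≤ 14 * List.length x + 30 := by
  have h := cost_mapP_le (s := s) (c := .unit) (a := a) (b := .unit) .star v k ((), List.tail x) 1
    (fun _ _ => by simp)
  have h2 := cost_ilTl (s := s) v k x
  simp only [List.length_tail] at h
  simp only [ilD, cost_comp, cost_pair, cost_star, val_pair, val_star, val_ilTl] at h h2 ⊢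
  omega

/-- product of two unary numbers -/
def ilM : Pr s (.prod (.list .unit) (.list .unit)) (.list .unit) :=
  .comp (mapP (c := .list .unit) (a := .unit) .fst) flatP

theorem val_ilM (v : SV F s) (x : Ty.D F (.prod (.list .unit) (.list .unit))) :
    (ilM : Pr s (.prod (.list .unit) (.list .unit)) (.list .unit)).val v x =
      un (List.length x.1 * List.length x.2) := by
  rw [il_unit_list ((ilM : Pr s (.prod (.list .unit) (.list .unit)) (.list .unit)).val v x)]
  congr 1
  obtain ⟨x, y⟩ := x
  simp only [ilM, val_comp, val_mapP, val_fst, val_flatP]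
  induction y with
  | nil => simp
  | cons h t ih => simp only [List.map_cons, List.flatten_cons, List.length_append, ih,
      List.length_cons]; ring

theorem cost_ilM (v : SV F s) (k : SC F s) (x : Ty.D F (.prod (.list .unit) (.list .unit))) :
    (ilM : Pr s (.prod (.list .unit) (.list .unit)) (.list .unit)).cost v k x ≤
      (20 * List.length x.1 + 85) * List.length x.2 + 45 := by
  have h := cost_mapP_le (s := s) (c := .list .unit) (a := .unit) .fst v k x 1
    (fun _ _ => by simp)
  have h2 := cost_flatP (s := s) (a := .unit) v k (List.map (fun _ : Unit => x.1) x.2)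
    (List.length x.1) (fun y hy => by
      rw [List.mem_map] at hy
      obtain ⟨_, _, rfl⟩ := hy
      exact le_rfl)
  simp only [List.length_map] at h2
  simp only [ilM, cost_comp, val_mapP, val_fst]
  nlinarith

/-- square -/
def ilSq : Pr s (.list .unit) (.list .unit) := ap2 ilM .id .id

theorem val_ilSq (v : SV F s) (x : Ty.D F (.list .unit)) :
    (ilSq : Pr s (.list .unit) (.list .unit)).val v x = un (List.length x * List.length x) := by
  simp only [ilSq, val_comp, val_pair, val_id, val_ilM]

theorem cost_ilSq (v : SV F s) (k : SC F s) (x : Ty.D F (.list .unit)) :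
    (ilSq : Pr s (.list .unit) (.list .unit)).cost v k x ≤
      (20 * List.length x + 85) * List.length x + 48 := by
  have h := cost_ilM (s := s) v k (x, x)
  simp only [ilSq, cost_comp, cost_pair, cost_id, val_pair, val_id] at h ⊢
  omega

/-- length of the random list -/
def ilR : Pr s (.list .unit) (.list .unit) :=
  ap2 .cons .star (ap2 .cons .star (ap2 appP (ap2 .cons .star .id)
    (ap2 appP ilSq (ap2 appP .id (ap2 appP ilSq .id)))))

theorem val_ilR (v : SV F s) (x : Ty.D F (.list .unit)) :
    (ilR : Pr s (.list .unit) (.list .unit)).val v x = un (R2 (List.length x)) := by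
  rw [il_unit_list ((ilR : Pr s (.list .unit) (.list .unit)).val v x)]
  congr 1
  simp only [ilR, val_comp, val_pair, val_id, val_ilSq, val_appP, List.length_append,
    il_length_un, R2, val_cons, val_star, List.length_cons]
  omega

theorem cost_ilR (v : SV F s) (k : SC F s) (x : Ty.D F (.list .unit)) :
    (ilR : Pr s (.list .unit) (.list .unit)).cost v k x ≤
      (100 * List.length x + 300) * List.length x + 300 := by
  have h := cost_ilSq (s := s) v k x
  have h1 := cost_appP (s := s) (a := .unit) v k (un (List.length x * List.length x), x)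
  have h2 := cost_appP (s := s) (a := .unit) v k
    (x, (un (List.length x * List.length x) ++ x : List Unit))
  have h3 := cost_appP (s := s) (a := .unit) v k (un (List.length x * List.length x),
    (x ++ (un (List.length x * List.length x) ++ x) : List Unit))
  have h4 := cost_appP (s := s) (a := .unit) v k ((() :: x : List Unit),
    (un (List.length x * List.length x) ++
      (x ++ (un (List.length x * List.length x) ++ x)) : List Unit))
  simp only [il_length_un, List.length_cons] at h1 h2 h3 h4
  simp only [ilR, cost_comp, cost_pair, cost_id, val_comp, val_pair, val_id, val_ilSq,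
    val_appP, cost_star, cost_cons, val_star, val_cons]
  nlinarith

/-- type of the input -/
abbrev ILT : Ty := .prod (.prod (.prod Po Po) (.prod Un (.prod Un Un)))
    (.prod Un (.prod Ma Po))

/-- the program -/
def ilP (w1 : Pr [] (.prod (.prod Po Un) (.prod Un (.prod Ma Po)))
      (.list (.prod Po (.prod ML Un))))
    (w3 : Pr [] (.prod (.prod Po (.prod Un Un)) (.prod (.prod Po ML) Ma)) (.prod Po ML)) :
    Pr [] ILT (.prod Po ML) :=
  lt (.comp (.comp (.comp .snd .snd) .fst) ilD)
    (lt (ap2 splitP (.comp .snd ilR) (.comp (.comp (.comp .fst .snd) .snd) .snd))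
      (onL (.comp (.pair
            (.pair (.comp (.comp (.comp (.comp .fst .fst) .fst) .fst) .snd)
              (.comp (.comp (.comp (.comp .fst .fst) .fst) .snd) .fst))
            (.pair (.comp (.comp (.comp .fst .fst) .snd) .fst)
              (.pair (.comp (.comp (.comp (.comp .fst .fst) .snd) .snd) .fst)
                (.comp .snd .fst)))) w1)
        (.pair .nil .nil)
        (.comp (.pair
            (.pair (.comp (.comp (.comp (.comp (.comp .fst .fst) .fst) .fst) .fst) .fst)
              (.comp (.comp (.comp (.comp (.comp .fst .fst) .fst) .fst) .snd) .snd))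
            (.pair
              (.pair (.comp (.comp .snd .fst) .fst) (.comp (.comp (.comp .snd .fst) .snd) .fst))
              (ap3 chunksP
                (.comp (.comp (.comp (.comp (.comp (.comp .fst .fst) .fst) .fst) .snd) .snd) .snd)
                (.comp (.comp .fst .fst) .snd)
                (.comp (.comp .fst .snd) .snd)))) w3)))

theorem val_ilP (w1 : Pr [] (.prod (.prod Po Un) (.prod Un (.prod Ma Po)))
      (.list (.prod Po (.prod ML Un))))
    (w3 : Pr [] (.prod (.prod Po (.prod Un Un)) (.prod (.prod Po ML) Ma)) (.prod Po ML))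
    (bq bp : List F) (m e t D : List Unit) (n : ℕ) (H : List (List F)) (r : List F)
    (hH : H.length = n + 1) :
    (ilP w1 w3).val () (((bq, bp), (m, (e, t))), (D, (H, r))) =
      lcase (w1.val () ((bp, m), (D, (H, r.take (R2 n)))))
        (([], []) : List F × List (List (List F)))
        (fun h _ => w3.val () ((bq, (e, t)), ((h.1, h.2.1),
          chunks n (List.length t) (r.drop (R2 n))))) := by
  simp only [ilP, val_lt, val_onL, val_comp, val_pair, val_fst, val_snd, val_ilD, val_ilR,
    val_splitP, val_chunksP, val_nil, hH, il_length_un, Nat.add_sub_cancel]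

theorem cost_ilP (w1 : Pr [] (.prod (.prod Po Un) (.prod Un (.prod Ma Po)))
      (.list (.prod Po (.prod ML Un))))
    (w3 : Pr [] (.prod (.prod Po (.prod Un Un)) (.prod (.prod Po ML) Ma)) (.prod Po ML))
    (bq bp : List F) (m e t D : List Unit) (n : ℕ) (H : List (List F)) (r : List F)
    (hH : H.length = n + 1) (Q : List F) (A : List (List (List F))) (c : List Unit)
    (hout : w1.val () ((bp, m), (D, (H, r.take (R2 n)))) = [(Q, (A, c))]) :
    (ilP w1 w3).cost () () (((bq, bp), (m, (e, t))), (D, (H, r))) ≤
      w1.cost () () ((bp, m), (D, (H, r.take (R2 n)))) +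
      w3.cost () () ((bq, (e, t)), ((Q, A), chunks n (List.length t) (r.drop (R2 n)))) +
      2000 * ((n + 1) * (n + 1)) + 60 * ((n + 1) * (List.length t + 1)) := by
  have c1 := cost_ilD (s := []) (a := Po) () () H
  have c2 := cost_ilR (F := F) (s := []) () () (un n)
  have c3 := cost_splitP (F := F) (s := []) (b := .unit) (a := .fld) () () (un (R2 n), r)
  have c4 := cost_chunksP (F := F) (s := []) (b := .unit) (c := .unit) (a := .fld) () ()
    (t, (un n, r.drop (R2 n)))
  have e2 : R2 n = 2 * (n * n) + 3 * n + 3 := by unfold R2; ring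
  simp only [il_length_un, hH] at c1 c2 c3 c4
  simp only [ilP, cost_lt, cost_onL, cost_comp, cost_pair, cost_fst, cost_snd,
    val_comp, val_pair, val_fst, val_snd, val_ilD, val_ilR,
    val_splitP, val_chunksP, cost_nil, hH, il_length_un, Nat.add_sub_cancel, hout,
    lcase_cons]
  generalize w1.cost () () ((bp, m), (D, (H, r.take (R2 n)))) = u1 at *
  generalize w3.cost () () ((bq, (e, t)), ((Q, A), chunks n (List.length t) (r.drop (R2 n))))
    = u3 at *
  generalize (ilD : Pr [] (.list Po) (.list .unit)).cost () () H = u4 at *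
  generalize (ilR : Pr [] (.list .unit) (.list .unit)).cost (F := F) () () (un n) = u5 at *
  generalize (splitP : Pr [] (.prod (.list .unit) (.list .fld)) _).cost (F := F) () ()
    (un (R2 n), r) = u6 at *
  generalize (chunksP : Pr [] (.prod (.list .unit) (.prod (.list .unit) (.list .fld))) _).cost
    (F := F) () () (t, (un n, r.drop (R2 n))) = u7 at *
  rw [e2] at c3
  generalize List.length t = tt at *
  nlinarith

end ilprogs

/-! ### maps of data -/

theorem il_getD_map {α β : Type} (f : α → β) (l : List α) (n : ℕ) (d : α) :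
    (l.map f).getD n (f d) = f (l.getD n d) := by
  rw [List.getD_eq_getElem?_getD, List.getD_eq_getElem?_getD, List.getElem?_map]
  cases l[n]? <;> rfl

theorem il_map_ma {F K : Type} (φ : F → K) (H : List (List F)) :
    (Ty.map φ Ma H : List (List K)) = H.map (List.map φ) := rfl

theorem il_getD_ma {F K : Type} (φ : F → K) (H : List (List F)) (k : ℕ) :
    (Ty.map φ Ma H : List (List K)).getD k [] = (H.getD k []).map φ := by
  rw [il_map_ma]; exact il_getD_map (List.map φ) H k []

theorem il_isHom {F K : Type} (φ : F → K) (d : ℕ) (H : List (List F)) (h : IsHom d H) :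
    IsHom d (Ty.map φ Ma H : List (List K)) := by
  refine ⟨?_, fun k hk => ?_⟩
  · rw [il_map_ma, List.length_map]; exact h.1
  · rw [il_getD_ma, List.length_map]; exact h.2 k hk

theorem il_topNe {F K : Type} [Field F] [Field K] (φ : F →+* K) (d : ℕ) (H : List (List F))
    (h : TopNe d H) : TopNe d (Ty.map φ Ma H : List (List K)) := by
  obtain ⟨j, hj⟩ := h
  refine ⟨j, ?_⟩
  rw [il_getD_ma]
  have := il_getD_map φ (H.getD d []) j 0
  rw [map_zero] at this
  rw [this]
  exact (map_ne_zero φ).mpr hj

/-! ### the random list -/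

/-- the random list as a short list and rows -/
def ilE (L : Type) (R t n : ℕ) : (Fin (R + t * n) → L) ≃ (Fin R → L) × (Fin t → Fin n → L) :=
  (Fin.appendEquiv R (t * n)).symm.trans
    (Equiv.prodCongr (Equiv.refl _)
      ((Equiv.arrowCongr finProdFinEquiv.symm (Equiv.refl L)).trans (Equiv.curry (Fin t) (Fin n) L)))

theorem ilE_fst (L : Type) (R t n : ℕ) (ω : Fin (R + t * n) → L) :
    (List.ofFn ω).take R = List.ofFn (ilE L R t n ω).1 := by
  apply List.ext_getElem
  · simp
  · intro i h1 h2
    simp only [List.getElem_take, List.getElem_ofFn]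
    rfl

theorem il_chunks_getElem {α : Type} (n : ℕ) : ∀ (k : ℕ) (l : List α) (i : ℕ)
    (h : i < (chunks n k l).length), (chunks n k l)[i] = (l.drop (n * i)).take n := by
  intro k
  induction k with
  | zero => intro l i h; simp [chunks] at h
  | succ k ih =>
    intro l i h
    cases i with
    | zero => simp [chunks]
    | succ i =>
      simp only [chunks, List.getElem_cons_succ]
      rw [ih, List.drop_drop]
      congr 2
      ring

theorem il_chunks_length {α : Type} (n : ℕ) : ∀ (k : ℕ) (l : List α),
    (chunks n k l).length = k := by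
  intro k
  induction k with
  | zero => intro l; simp [chunks]
  | succ k ih => intro l; simp [chunks, ih]

theorem ilE_snd (L : Type) (R t n : ℕ) (ω : Fin (R + t * n) → L) :
    chunks n t ((List.ofFn ω).drop R) = rows (ilE L R t n ω).2 := by
  apply List.ext_getElem
  · rw [il_chunks_length]; simp [rows]
  · intro i h1 h2
    rw [il_chunks_getElem]
    have hi : i < t := by rw [il_chunks_length] at h1; exact h1
    simp only [rows, List.getElem_ofFn]
    have hb : n * i + n ≤ t * n := by nlinarith
    apply List.ext_getElem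
    · simp only [List.length_take, List.length_drop, List.length_ofFn]
      omega
    · intro j h3 h4
      simp only [List.getElem_take, List.getElem_drop, List.getElem_ofFn]
      have hj : j < n := by simpa using h4
      have : (ilE L R t n ω).2 ⟨i, hi⟩ ⟨j, hj⟩ =
          ω (Fin.natAdd R (finProdFinEquiv ((⟨i, hi⟩ : Fin t), (⟨j, hj⟩ : Fin n)))) := rfl
      rw [this]
      congr 1
      apply Fin.ext
      simp only [Fin.natAdd, finProdFinEquiv_apply_val]
      omega

/-! ### counting -/

theorem il_count {α β : Type} [Finite α] [Finite β] (G1 : α → Prop) (G : α → β → Prop)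
    (T l a N M : ℕ) (hN : Nat.card α = N) (hM : Nat.card β = M)
    (h1 : Nat.card {x // ¬ G1 x} * l ≤ a * N)
    (h2 : ∀ x, G1 x → T * Nat.card {y // ¬ G x y} ≤ M) :
    T * l * Nat.card {z : α × β // ¬ G z.1 z.2} ≤ (T * a + l) * (N * M) := by
  classical
  have : Fintype α := Fintype.ofFinite α
  have : Fintype β := Fintype.ofFinite β
  have e1 : Nat.card {z : α × β // ¬ G z.1 z.2} = ∑ x : α, Nat.card {y // ¬ G x y} := by
    rw [Nat.card_eq_fintype_card, Fintype.card_subtype, Finset.card_filter,
      ← Finset.univ_product_univ, Finset.sum_product]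
    apply Finset.sum_congr rfl
    intro x _
    rw [Nat.card_eq_fintype_card, Fintype.card_subtype, Finset.card_filter]
  have e2 : ∀ x : α, Nat.card {y // ¬ G x y} ≤ M := by
    intro x
    rw [← hM]
    exact Nat.card_le_card_of_injective (fun y => y.1) Subtype.val_injective
  have e3 : ∀ x : α, T * l * Nat.card {y // ¬ G x y} ≤
      l * M + (if ¬ G1 x then T * l * M else 0) := by
    intro x
    by_cases hx : G1 x
    · have := h2 x hx
      rw [if_neg (by simpa using hx)]
      calc T * l * Nat.card {y // ¬ G x y} = l * (T * Nat.card {y // ¬ G x y}) := by ring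
        _ ≤ l * M := Nat.mul_le_mul_left _ this
        _ ≤ l * M + 0 := le_rfl
    · rw [if_pos hx]
      exact le_trans (Nat.mul_le_mul_left _ (e2 x)) (Nat.le_add_left _ _)
  have e4 : ∑ x : α, (if ¬ G1 x then T * l * M else 0) = Nat.card {x // ¬ G1 x} * (T * l * M) := by
    rw [← Finset.sum_filter, Finset.sum_const, smul_eq_mul, Nat.card_eq_fintype_card,
      Fintype.card_subtype]
  calc T * l * Nat.card {z : α × β // ¬ G z.1 z.2}
      = ∑ x : α, T * l * Nat.card {y // ¬ G x y} := by rw [e1, Finset.mul_sum]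
    _ ≤ ∑ x : α, (l * M + (if ¬ G1 x then T * l * M else 0)) :=
        Finset.sum_le_sum (fun x _ => e3 x)
    _ = N * (l * M) + Nat.card {x // ¬ G1 x} * (T * l * M) := by
        rw [Finset.sum_add_distrib, e4, Finset.sum_const, smul_eq_mul, Finset.card_univ,
          ← Nat.card_eq_fintype_card, hN]
    _ = N * (l * M) + (T * M) * (Nat.card {x // ¬ G1 x} * l) := by ring
    _ ≤ N * (l * M) + (T * M) * (a * N) := by gcongr
    _ = (T * a + l) * (N * M) := by ring

theorem il_card_congr {α β : Type} (f : α ≃ β) (P : α → Prop) (Q : β → Prop)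
    (h : ∀ x, P x ↔ Q (f x)) : Nat.card {x // P x} = Nat.card {y // Q y} :=
  Nat.card_congr (f.subtypeEquiv h)

/-! ### the cost -/

theorem il_lgc_mono {a b : ℕ} (h : a ≤ b) : lgc a ≤ lgc b := by
  unfold lgc
  exact Nat.add_le_add_right (Nat.clog_mono_right 2 h) 1

theorem il_cost (C1 k1 C3 k3 m e t q n D u1 u3 : ℕ)
    (h1 : u1 ≤ C1 * ((m + 1) * lgc (n + D + 1)) ^ k1 * ((n + 1) ^ 3 + (n + 1) * (D + 1)))
    (h3 : u3 ≤ C3 * (((e + 1) * (t + 1) * lgc q * lgc n) ^ k3 * (n + 1) ^ 3)) :
    u1 + u3 + 2000 * ((n + 1) * (n + 1)) + 60 * ((n + 1) * (t + 1)) ≤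
      (2060 + C1 + C3) *
        (((m + 1) * (e + 1) * (t + 1) * lgc q * lgc (n + D + 1)) ^ (1 + k1 + k3) *
          ((n + 1) ^ 3 + (n + 1) * (D + 1))) := by
  have f1 : 1 ≤ lgc q := by simp [lgc]
  have f2 : 1 ≤ lgc (n + D + 1) := by simp [lgc]
  have f3 : lgc n ≤ lgc (n + D + 1) := il_lgc_mono (by omega)
  set X := (m + 1) * (e + 1) * (t + 1) * lgc q * lgc (n + D + 1) with hX
  set W := (n + 1) ^ 3 + (n + 1) * (D + 1) with hW
  have g0 : 1 ≤ X := Nat.one_le_iff_ne_zero.mpr (by positivity)
  have g1 : (m + 1) * lgc (n + D + 1) ≤ X := by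
    have : 1 ≤ (e + 1) * (t + 1) * lgc q := Nat.one_le_iff_ne_zero.mpr (by positivity)
    calc (m + 1) * lgc (n + D + 1) = ((m + 1) * lgc (n + D + 1)) * 1 := by ring
      _ ≤ ((m + 1) * lgc (n + D + 1)) * ((e + 1) * (t + 1) * lgc q) :=
        Nat.mul_le_mul_left _ this
      _ = X := by rw [hX]; ring
  have g2 : (e + 1) * (t + 1) * lgc q * lgc n ≤ X := by
    calc (e + 1) * (t + 1) * lgc q * lgc n ≤ (e + 1) * (t + 1) * lgc q * lgc (n + D + 1) :=
        Nat.mul_le_mul_left _ f3
      _ = 1 * ((e + 1) * (t + 1) * lgc q * lgc (n + D + 1)) := by ring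
      _ ≤ (m + 1) * ((e + 1) * (t + 1) * lgc q * lgc (n + D + 1)) :=
        Nat.mul_le_mul_right _ (by omega)
      _ = X := by rw [hX]; ring
  have g3 : t + 1 ≤ X := by
    have : 1 ≤ (m + 1) * (e + 1) * lgc q * lgc (n + D + 1) :=
      Nat.one_le_iff_ne_zero.mpr (by positivity)
    calc t + 1 = (t + 1) * 1 := by ring
      _ ≤ (t + 1) * ((m + 1) * (e + 1) * lgc q * lgc (n + D + 1)) :=
        Nat.mul_le_mul_left _ this
      _ = X := by rw [hX]; ring
  have w1 : (n + 1) * (n + 1) ≤ W := by
    calc (n + 1) * (n + 1) = (n + 1) * (n + 1) * 1 := by ring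
      _ ≤ (n + 1) * (n + 1) * (n + 1) := Nat.mul_le_mul_left _ (by omega)
      _ = (n + 1) ^ 3 := by ring
      _ ≤ W := Nat.le_add_right _ _
  have w2 : n + 1 ≤ W := by nlinarith
  have w3 : (n + 1) ^ 3 ≤ W := Nat.le_add_right _ _
  set Y := X ^ (1 + k1 + k3) with hY
  have y0 : X ≤ Y := by
    calc X = X ^ 1 := by ring
      _ ≤ Y := Nat.pow_le_pow_right g0 (by omega)
  have y1 : X ^ k1 ≤ Y := Nat.pow_le_pow_right g0 (by omega)
  have y3 : X ^ k3 ≤ Y := Nat.pow_le_pow_right g0 (by omega)
  have a1 : u1 ≤ C1 * (Y * W) := by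
    refine h1.trans ?_
    rw [mul_assoc]
    exact Nat.mul_le_mul_left _ (Nat.mul_le_mul_right _
      ((Nat.pow_le_pow_left g1 k1).trans y1))
  have a3 : u3 ≤ C3 * (Y * W) := by
    refine h3.trans ?_
    exact Nat.mul_le_mul_left _ (Nat.mul_le_mul ((Nat.pow_le_pow_left g2 k3).trans y3) w3)
  have a4 : (n + 1) * (n + 1) ≤ Y * W := by
    calc (n + 1) * (n + 1) ≤ W := w1
      _ = 1 * W := by ring
      _ ≤ Y * W := Nat.mul_le_mul_right _ (g0.trans y0)
  have a5 : (n + 1) * (t + 1) ≤ Y * W := by
    rw [mul_comm]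
    exact Nat.mul_le_mul (g3.trans y0) w2
  have a6 : (2060 + C1 + C3) * (Y * W) = 2000 * (Y * W) + 60 * (Y * W) + C1 * (Y * W) +
      C3 * (Y * W) := by ring
  rw [a6]
  omega

/-- TARGET -/
theorem specIL (h1 : SpecFacE) (h2 : StmtOne) (h3 : SpecDA) : SpecIL := by
  obtain ⟨w1, C1, k1, hE⟩ := h1
  obtain ⟨w3, C3, k3, hA⟩ := h3
  refine ⟨ilP w1 w3, 2060 + C1 + C3, 1 + k1 + k3, ?_⟩
  intro F L _ _ _ _ _ _ _ q p m e n t D H hp hF hL hL2 he hco hH hn hT hirr hD
  have hH' := il_isHom (algebraMap F L) n H hH
  have hT' := il_topNe (algebraMap F L) n H hT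
  obtain ⟨hc1, hcard1⟩ := hE L p m n D (Ty.map (algebraMap F L) Ma H) hp hL2 hH' hn hT' hD
  have hlen : (Ty.map (algebraMap F L) Ma H : List (List L)).length = n + 1 := hH'.1
  let G1 : (Fin (R2 n) → L) → Prop := fun ω =>
    FacAbs (AlgebraicClosure L) (Ty.map (algebraMap F L) Ma H)
      (w1.val () ((bits L p, un m), (un D, (Ty.map (algebraMap F L) Ma H, List.ofFn ω)))) ∧
    DegB n (w1.val () ((bits L p, un m), (un D, (Ty.map (algebraMap F L) Ma H, List.ofFn ω))) :
        List (List L × (List (List (List L)) × List Unit)))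
  let res : (Fin (R2 n) → L) → (Fin t → Fin n → L) → List L × List (List (List L)) :=
    fun ω a => lcase (w1.val () ((bits L p, un m),
        (un D, (Ty.map (algebraMap F L) Ma H, List.ofFn ω))))
      (([], []) : List L × List (List (List L)))
      (fun h _ => w3.val () ((bits L q, (un e, un t)), ((h.1, h.2.1), rows a)))
  let G0 : (Fin (R2 n + t * n) → L) → Prop := fun ω =>
    ∃ (q' : List F) (A' : List (List (List F))),
      FacAbs (AlgebraicClosure F) H [(q', (A', un 1))] ∧
      ((ilP w1 w3).val () (((bits L q, bits L p), (un m, (un e, un t))),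
        (un D, (Ty.map (algebraMap F L) Ma H, List.ofFn ω))) : List L × List (List (List L))) =
        (Ty.map (algebraMap F L) Po q', Ty.map (algebraMap F L) ML A') ∧
      (ilP w1 w3).cost () () (((bits L q, bits L p), (un m, (un e, un t))),
        (un D, (Ty.map (algebraMap F L) Ma H, List.ofFn ω))) ≤
        (2060 + C1 + C3) * (((m + 1) * (e + 1) * (t + 1) * lgc q * lgc (n + D + 1)) ^
          (1 + k1 + k3) * ((n + 1) ^ 3 + (n + 1) * (D + 1)))
  let G : (Fin (R2 n) → L) → (Fin t → Fin n → L) → Prop := fun ω a =>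
    G0 ((ilE L (R2 n) t n).symm (ω, a))
  have key : ∀ ω, G1 ω → 2 ^ t * Nat.card {a // ¬ G ω a} ≤ Fintype.card L ^ (t * n) := by
    intro ω hω
    obtain ⟨Q, A, hout, -⟩ := h2 F L q e n H _ hF hL hco hH hn hT hirr hω.1 hω.2
    have hF1 := hω.1
    have hD1 := hω.2
    rw [hout] at hF1 hD1
    obtain ⟨hcnt, hcost⟩ := hA F L q e n t H Q A hF hL he hco hH hn hT hirr hF1 hD1
    refine le_trans (Nat.mul_le_mul_left _ ?_) hcnt
    apply Nat.card_le_card_of_injective
      (fun a : {a // ¬ G ω a} => (⟨a.1, ?_⟩ : {a : Fin t → Fin n → L //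
        ¬ ∃ (q' : List F) (A' : List (List (List F))),
        FacAbs (AlgebraicClosure F) H [(q', (A', un 1))] ∧
        (w3.val () ((bits L q, (un e, un t)), ((Q, A), rows a)) :
          List L × List (List (List L))) =
          (Ty.map (algebraMap F L) Po q', Ty.map (algebraMap F L) ML A')}))
    · intro a b hab
      exact Subtype.ext (congrArg (fun z => z.1) hab)
    · rintro ⟨q', A', hfa, hval⟩
      apply a.2
      have t1 := ilE_fst L (R2 n) t n ((ilE L (R2 n) t n).symm (ω, a.1))
      have t2 := ilE_snd L (R2 n) t n ((ilE L (R2 n) t n).symm (ω, a.1))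
      rw [Equiv.apply_symm_apply] at t1 t2
      have hv := val_ilP w1 w3 (bits L q) (bits L p) (un m) (un e) (un t) (un D) n
        (Ty.map (algebraMap F L) Ma H) (List.ofFn ((ilE L (R2 n) t n).symm (ω, a.1))) hlen
      have hc := cost_ilP w1 w3 (bits L q) (bits L p) (un m) (un e) (un t) (un D) n
        (Ty.map (algebraMap F L) Ma H) (List.ofFn ((ilE L (R2 n) t n).symm (ω, a.1))) hlen Q A
        (un 1) (by rw [t1]; exact hout)
      rw [t1, il_length_un, t2, hout, lcase_cons] at hv
      rw [t1, il_length_un, t2] at hc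
      refine ⟨q', A', hfa, ?_, ?_⟩
      · rw [hv]; exact hval
      · refine hc.trans ?_
        exact il_cost C1 k1 C3 k3 m e t q n D _ _ (hc1 _) (hcost _)
  have hcount := il_count G1 G (2 ^ t) (Fintype.card L) (50 * n ^ 3 * p)
    (Fintype.card L ^ R2 n) (Fintype.card L ^ (t * n))
    (by rw [Nat.card_eq_fintype_card, Fintype.card_fun, Fintype.card_fin])
    (by rw [Nat.card_eq_fintype_card, Fintype.card_fun, Fintype.card_fun, Fintype.card_fin,
      Fintype.card_fin, ← pow_mul, mul_comm])
    hcard1 key
  have hcongr : Nat.card {ω // ¬ G0 ω} =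
      Nat.card {z : (Fin (R2 n) → L) × (Fin t → Fin n → L) // ¬ G z.1 z.2} := by
    apply il_card_congr (ilE L (R2 n) t n)
    intro ω
    show ¬ G0 ω ↔ ¬ G0 ((ilE L (R2 n) t n).symm ((ilE L (R2 n) t n ω).1, (ilE L (R2 n) t n ω).2))
    rw [show ((ilE L (R2 n) t n ω).1, (ilE L (R2 n) t n ω).2) = ilE L (R2 n) t n ω from rfl,
      Equiv.symm_apply_apply]
  rw [← hcongr, ← pow_add] at hcount
  exact hcount

end Pool.Agent.H330AB.JL8a
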