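import Pool.Agent.H330AB.SpecC1
import Pool.Agent.H330FB.JE8
import Pool.Agent.H330FB.JC2
set_option autoImplicit false
noncomputable section
namespace Pool.Agent.H330AB.JL9
open Polynomial Pool.Agent.H330FB

/-- counting of the failures -/
theorem count7 {α : Type} [Fintype α] (N1 N2 q : ℕ) (hq : Fintype.card α = q)
    (G : (Fin (N1 + N2) → α) → Prop) (B : (Fin N1 → α) → Prop)
    (h1 : 50 * Nat.card {r1 // ¬ B r1} ≤ q ^ N1)
    (h2 : ∀ r1, B r1 → 9 * Nat.card {r2 : Fin N2 → α // ¬ G (Fin.append r1 r2)} ≤ q ^ N2) :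
    7 * Nat.card {r // ¬ G r} ≤ q ^ (N1 + N2) := by
  classical
  have hA : ∀ n : ℕ, Nat.card (Fin n → α) = q ^ n := by
    intro n
    rw [Nat.card_eq_fintype_card, Fintype.card_fun, hq, Fintype.card_fin]
  have e2 : Nat.card {r // ¬ G r} =
      ∑ r1 : Fin N1 → α, Nat.card {r2 : Fin N2 → α // ¬ G (Fin.append r1 r2)} := by
    rw [← Nat.card_sigma]
    apply Nat.card_congr
    refine Equiv.trans ?_ (Equiv.subtypeProdEquivSigmaSubtype
      (fun (r1 : Fin N1 → α) (r2 : Fin N2 → α) => ¬ G (Fin.append r1 r2)))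
    exact ((Fin.appendEquiv N1 N2).subtypeEquiv (fun x => Iff.rfl)).symm
  have e3 : ∀ r1 : Fin N1 → α, 9 * Nat.card {r2 : Fin N2 → α // ¬ G (Fin.append r1 r2)} ≤
      q ^ N2 + if ¬ B r1 then 8 * q ^ N2 else 0 := by
    intro r1
    by_cases hB : B r1
    · rw [if_neg (not_not.2 hB)]
      exact h2 r1 hB
    · rw [if_pos hB]
      have : Nat.card {r2 : Fin N2 → α // ¬ G (Fin.append r1 r2)} ≤ q ^ N2 := by
        rw [← hA N2]
        exact Nat.card_le_card_of_injective _ Subtype.val_injective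
      omega
  have e4 : 9 * Nat.card {r // ¬ G r} ≤ q ^ N1 * q ^ N2 + Nat.card {r1 // ¬ B r1} * (8 * q ^ N2) := by
    rw [e2, Finset.mul_sum]
    refine (Finset.sum_le_sum fun r1 _ => e3 r1).trans ?_
    rw [Finset.sum_add_distrib, Finset.sum_const, Finset.card_univ, ← Nat.card_eq_fintype_card,
      hA N1, smul_eq_mul, ← Finset.sum_filter, Finset.sum_const, smul_eq_mul,
      Nat.card_eq_fintype_card, Fintype.card_subtype]
  have e5 : 450 * Nat.card {r // ¬ G r} ≤ 58 * (q ^ N1 * q ^ N2) := by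
    have : 50 * Nat.card {r1 // ¬ B r1} * (8 * q ^ N2) ≤ q ^ N1 * (8 * q ^ N2) :=
      Nat.mul_le_mul_right _ h1
    nlinarith
  rw [pow_add]
  omega

/-- TARGET -/
theorem specMainC (h1 : SpecFull) (h2 : SpecSim) (h3 : SpecFind) (h0 : SpecUnits) : SpecMainC := by
  obtain ⟨p, Cp, kp, hp⟩ := h1
  obtain ⟨sm, Cs, ks, hsm⟩ := h2 JE8.E8.tin JE8.E8.tout p
  obtain ⟨fd, Cf, kf, hfd⟩ := h3
  obtain ⟨K, k, hK⟩ := JC2.num_allA h0 Cf kf Cs ks Cp kp
  refine ⟨JE8.E8.mainP fd sm, K, k, ?_⟩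
  intro F _ _ _ d H hd hH hT
  have hq2 : 2 ≤ Fintype.card F := Fintype.one_lt_card
  obtain ⟨q, hqF⟩ : ∃ q, Fintype.card F = q := ⟨_, rfl⟩
  rw [hqF] at hq2 ⊢
  obtain ⟨hf1, hf2⟩ := hfd F q (jj d + 1) hqF (by omega)
  refine count7 (8 * EE d * EE d) (EE d * Rn d) q hqF _
    (fun r1 => List.length (fd.val () (bits F q, (un (EE d), List.ofFn r1)) : List F) = EE d ∧
      Irreducible (mpol (fd.val () (bits F q, (un (EE d), List.ofFn r1)) : List F))) hf1 ?_
  rintro r1 ⟨hPl, hirr⟩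
  have hcf := hf2 r1
  change fd.cost () () (bits F q, (un (EE d), List.ofFn r1)) ≤ Cf * (EE d * lgc q) ^ kf at hcf
  obtain ⟨P, hP⟩ : ∃ P : List F, fd.val () (bits F q, (un (EE d), List.ofFn r1)) = P := ⟨_, rfl⟩
  rw [hP] at hPl hirr
  have : Fact (Irreducible (mpol P)) := ⟨hirr⟩
  have hE := JE8.E8.encOK P (by rw [hPl]; have := JE8.E8.EE_pos d; omega)
  have hfin : Module.Finite F (AdjoinRoot (mpol P)) := (JE8.E8.mpol_monic P).finite_adjoinRoot
  have : Finite (AdjoinRoot (mpol P)) := Module.finite_of_finite F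
  let _ : Fintype (AdjoinRoot (mpol P)) := Fintype.ofFinite _
  classical
  have hcard := JE8.E8.card_ext P
  rw [hqF, hPl] at hcard
  have hmain := hp F (AdjoinRoot (mpol P)) q (2 ^ jj d) d H hqF (by rw [hcard, JE8.E8.EE_eq])
    Nat.one_le_two_pow hH hd hT (JE8.E8.big_field hq2)
  refine le_trans (Nat.mul_le_mul_left 9 ?_) (hmain.trans (le_of_eq ?_))
  swap
  · rw [hcard, ← pow_mul]
  refine Nat.card_le_card_of_injective (Subtype.map
    (JE8.E8.Phi (F := F) (AdjoinRoot.root (mpol P)) (EE d) (Rn d)) ?_)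
    (Subtype.map_injective _ (JE8.E8.Phi_inj hE hPl (Rn d)))
  intro r2 hG hex
  apply hG
  obtain ⟨out, hfac, hval, hcost⟩ := hex
  obtain ⟨hs1, hs2⟩ := hsm F (AdjoinRoot (mpol P)) q P (AdjoinRoot.root (mpol P))
    (JE8.E8.encL P) hqF hE
    ((bits (AdjoinRoot (mpol P)) q, un (2 ^ jj d)), (Ty.map (algebraMap F (AdjoinRoot (mpol P))) Ma H,
      List.ofFn (JE8.E8.Phi (F := F) (AdjoinRoot.root (mpol P)) (EE d) (Rn d) r2)))
  obtain ⟨hc1, hc2⟩ := JE8.E8.core fd p sm (q := q) (d := d) hH (rs1 := List.ofFn r1)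
    (rs2 := List.ofFn r2) List.length_ofFn List.length_ofFn hP hPl hE
    (JE8.E8.Phi_chunks hE hPl (Rn d) r2) hval hs1
  rw [hPl] at hs2
  have hnum := hK q d _ _ _ _ (JE8.E8.sz out) hd hcf (JE8.E8.length_bits F q) hs2 hcost
    (JE8.E8.sz_le hH hT hfac)
  have hcc := hc2.trans hnum
  show FacGood (hom H) ((JE8.E8.mainP fd sm).val () (bits F q, (H, List.ofFn (Fin.append r1 r2)))) ∧
    (JE8.E8.mainP fd sm).cost () () (bits F q, (H, List.ofFn (Fin.append r1 r2))) ≤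
      K * (lgc q * lgc d) ^ k * ww (d + 1)
  rw [List.ofFn_fin_append, hc1]
  exact ⟨hfac, hcc⟩

end Pool.Agent.H330AB.JL9
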