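import Pool.Agent.H330AB.AssemblyB
import Pool.Agent.H330FB.Assembly2
import Pool.Agent.H330AB.FinalC
import Pool.Agent.H330AB.JL1
import Pool.Agent.H330AB.JL2
import Pool.Agent.H330AB.JL3
import Pool.Agent.H330AB.JL4
import Pool.Agent.H330AB.JL5a
import Pool.Agent.H330AB.JL5b
import Pool.Agent.H330AB.JL5
import Pool.Agent.H330AB.JL6
import Pool.Agent.H330AB.JL7a
import Pool.Agent.H330AB.JL7b
import Pool.Agent.H330AB.JL7
import Pool.Agent.H330AB.JL8a
import Pool.Agent.H330AB.JL8
import Pool.Agent.H330AB.JL9
import Pool.Agent.H330AB.JL10a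
import Pool.Agent.H330AB.JL10
import Pool.Agent.H330AB.JL11a
import Pool.Agent.H330AB.JL11
import Pool.Agent.H330AB.JL12

set_option autoImplicit false

/-!
# Assembly of the absolute factorization over small fields
-/

namespace Pool.Agent.H330AB.AssemblyC

open Pool.Agent.H330FB Pool.Agent.H330AB Pool.Agent.H330AB.AssemblyA Pool.Agent.H330AB.AssemblyB

theorem facD : SpecFacD := JL1.specFacD par prep radS sepL split2 back sepCount up' units
theorem elim' : SpecElim := JL2.specElim
theorem facE : SpecFacE := JL3.specFacE facD facCount elim'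
theorem cop : SpecCop := JL4.specCop
theorem irrG' : StmtIrrG := JL5a.stmtIrrG
theorem irrG : SpecIrrG := JL5b.specIrrG pn gcd' units
theorem findG : SpecFindG := JL5.specFindG irrG' irrG
theorem one : StmtOne := JL6.stmtOne
theorem trGen : StmtTrGen := JL7a.stmtTrGen
theorem dP : SpecDP := JL7b.specDP pn pt ker solve inv naive units
theorem dA : SpecDA := JL7.specDA one trGen dP
theorem iL : SpecIL := JL8a.specIL facE one dA
theorem iA : SpecIA := JL8.specIA cop findG iL Pool.Agent.H330FB.Assembly.sim
theorem mainC : SpecMainC := JL9.specMainC Pool.Agent.H330FB.Assembly.full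
  Pool.Agent.H330FB.Assembly.sim Pool.Agent.H330FB.Assembly.find units
theorem join : StmtJoin := JL10a.stmtJoin
theorem sm : SpecSm := JL10.specSm mainC iA par join units
theorem bud : SpecBud := JL11a.specBud
theorem smC : SpecSmC := JL11.specSmC sm Pool.Agent.H330FB.Assembly2.clock bud
theorem small : FinalSmall := JL12.finalSmall smC
theorem complete : FinalC.Complete := FinalC.complete finalFac small

end Pool.Agent.H330AB.AssemblyC
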