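import Pool.Agent.H330FB.FinalDefs

set_option autoImplicit false

/-!
# Absolute factorization: definitions used in the statement of the main theorem
-/

namespace Pool.Agent.H330AB

open Pool.Agent.H330FB

/-- the monic polynomial with the lower coefficients `l` (constant term first) -/
noncomputable def monicOf {K : Type} [Field K] (l : List K) : Polynomial K :=
  Polynomial.X ^ l.length +
    ∑ i ∈ Finset.range l.length, Polynomial.C (l.getD i 0) * Polynomial.X ^ i

/-- the value at `z = α` of a polynomial in `z, x, y`, given by the list of its coefficients with
respect to the powers of `z`, each of them a polynomial in `x, y` given by its rows -/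
noncomputable def absFactor {K k : Type} [Field K] [Field k] [Algebra K k] (α : k)
    (l : List (List (List K))) : MvPolynomial (Fin 2) k :=
  ∑ b ∈ Finset.range l.length, MvPolynomial.C (α ^ b) *
    MvPolynomial.map (algebraMap K k) (ofRows (l.getD b []))

/-- `out` is the absolute factorization of `f`: a list of triples `(q, (g, m))`, where `q` is given
by its lower coefficients, `g` is a polynomial in `z, x, y` of degree less than `deg q` in `z` and
`m` is a number in unary; the polynomials `g(α, x, y)`, `α` a root of `q`, are irreducible over the
algebraic closure and pairwise not associated, and `f` is a nonzero constant times the product of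
their powers `g(α, x, y) ^ m` -/
def IsAbsFactorization {K : Type} [Field K] (f : MvPolynomial (Fin 2) K)
    (out : List (List K × (List (List (List K)) × List Unit))) : Prop :=
  (∀ o ∈ out, 1 ≤ o.1.length ∧ Squarefree (monicOf o.1) ∧ o.2.1.length ≤ o.1.length ∧
    1 ≤ o.2.2.length ∧ ∀ α : AlgebraicClosure K, Polynomial.aeval α (monicOf o.1) = 0 →
      Irreducible (absFactor α o.2.1)) ∧
  (out.Nodup ∧ ∀ o ∈ out, ∀ o' ∈ out, ∀ α α' : AlgebraicClosure K,
    Polynomial.aeval α (monicOf o.1) = 0 → Polynomial.aeval α' (monicOf o'.1) = 0 →
    Associated (absFactor α o.2.1) (absFactor α' o'.2.1) → o = o' ∧ α = α') ∧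
  ∃ u : AlgebraicClosure K, u ≠ 0 ∧
    MvPolynomial.map (algebraMap K (AlgebraicClosure K)) f = MvPolynomial.C u *
      (out.map (fun o => (((monicOf o.1).map (algebraMap K (AlgebraicClosure K))).roots.map
        (fun α => absFactor α o.2.1 ^ o.2.2.length)).prod)).prod

end Pool.Agent.H330AB
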