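import Pool.Agent.H330AB.SpecA2
set_option autoImplicit false
noncomputable section
namespace Pool.Agent.H330AB.JJ3
open Polynomial Pool.Agent.H330FB

namespace JMMA

theorem lgc_le {M N : ℕ} (h : M ≤ 4 * N) : lgc M ≤ 3 * lgc N := by
  unfold lgc
  have h1 : N ≤ 2 ^ Nat.clog 2 N := Nat.le_pow_clog (by norm_num) N
  have h2 : Nat.clog 2 M ≤ Nat.clog 2 N + 2 := by
    refine Nat.clog_le_of_le_pow ?_
    rw [pow_add]
    omega
  omega

theorem ql_le {k k' M N : ℕ} (hk : k ≤ k') (h : M ≤ 3 * N) :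
    ql k M ≤ 3 ^ (k' + 1) * ql k' N := by
  unfold ql
  have h1 : lgc (M + 1) ≤ 3 * lgc (N + 1) := lgc_le (by omega)
  have h0 : 1 ≤ lgc (N + 1) := by unfold lgc; omega
  have h2 : lgc (M + 1) ^ k ≤ (3 * lgc (N + 1)) ^ k' :=
    (Nat.pow_le_pow_left h1 k).trans (Nat.pow_le_pow_right (by omega) hk)
  calc (M + 1) * lgc (M + 1) ^ k ≤ (3 * (N + 1)) * (3 * lgc (N + 1)) ^ k' :=
        Nat.mul_le_mul (by omega) h2
    _ = 3 ^ (k' + 1) * ((N + 1) * lgc (N + 1) ^ k') := by rw [mul_pow, pow_succ]; ring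

theorem le_ql (k N : ℕ) : N + 1 ≤ ql k N := by
  unfold ql
  have h0 : 1 ≤ lgc (N + 1) := by unfold lgc; omega
  exact Nat.le_mul_of_pos_right _ (Nat.pow_pos h0)

/-- one padded row -/
def rowP : Pr [] (.prod Un .fld) Po :=
  ap3 fitP .fst .zero (.comp (.pair .snd .nil) .cons)

/-- the padded rows of `h` -/
def padP : Pr [] (.prod Un Po) Ma := mapP rowP

/-- the program; input `(r, (s, (h, (a, b))))` -/
def mmaP (pm : Pr [] (.prod Un (.prod Un (.prod Ma Ma))) Ma)
    (pd : Pr [] (.prod Un (.prod Un (.prod Ma Ma))) (.prod Ma Ma)) :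
    Pr [] (.prod Un (.prod Un (.prod Po (.prod Ma Ma)))) Ma :=
  .comp (.comp (.pair .fst (.pair (.comp .snd .fst)
    (.pair (.comp (.pair .fst (.pair (.comp .snd .fst) (.comp .snd (.comp .snd .snd)))) pm)
      (.comp (.pair (.comp .snd .fst) (.comp .snd (.comp .snd .fst))) padP)))) pd) .snd

variable {F : Type} [Field F] [DecidableEq F]

theorem val_padP (s : ℕ) (h : List F) :
    (padP.val () (un s, h) : List (List F)) = h.map (fun x => fit s 0 [x]) := by
  simp [padP, rowP, un]

theorem cost_padP (s : ℕ) (h : List F) :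
    padP.cost () () ((un s, h) : List Unit × List F) ≤ (20 * s + 30) * h.length + 5 := by
  refine (cost_mapP_le rowP () () ((un s, h) : List Unit × List F) (20 * s + 17) ?_).trans ?_
  · intro y _
    have e := cost_fitP (s := []) (F := F) (a := .fld) (b := .unit) () ()
      ((un s, ((0 : F), [y])) : List Unit × (F × List F))
    simp [rowP, un] at e ⊢
    omega
  · simp only
    exact le_of_eq (by ring)

theorem pol_fit_nil (s : ℕ) : pol (fit s (0 : F) []) = 0 := by
  induction s with
  | zero => rfl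
  | succ n ih => simp [fit, pol, ih]

theorem pol_fit_one (s : ℕ) (hs : 1 ≤ s) (x : F) : pol (fit s (0 : F) [x]) = C x := by
  obtain ⟨n, rfl⟩ : ∃ n, s = n + 1 := ⟨s - 1, by omega⟩
  simp [fit, pol, pol_fit_nil]

theorem pol_map {R : Type} [CommRing R] [Algebra F R] (l : List F) :
    pol (l.map (algebraMap F R)) = (pol l).map (algebraMap F R) := by
  induction l with
  | nil => simp [pol]
  | cons x l ih => simp [pol, ih]

theorem mrp_pad {R : Type} [CommRing R] [Algebra F R] (τ : R) (s : ℕ) (hs : 1 ≤ s)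
    (h : List F) : mrp τ (h.map (fun x => fit s 0 [x])) = (mpol h).map (algebraMap F R) := by
  have e : (h.map (fun x => fit s (0 : F) [x])).map (fun r => aeval τ (pol r)) =
      h.map (algebraMap F R) := by
    rw [List.map_map]
    refine List.map_congr_left (fun x _ => ?_)
    simp [pol_fit_one s hs]
  unfold mrp rp mpol
  rw [e, pol_map]
  simp

end JMMA

open JMMA

/-- TARGET -/
theorem specMMA (h1 : SpecMulRF) (h2 : SpecDivRF) : SpecMMA := by
  obtain ⟨pm, C1, k1, hm⟩ := h1
  obtain ⟨pd, C2, k2, hd⟩ := h2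
  refine ⟨mmaP pm pd, C1 * 3 ^ (k1 + k2 + 1) + C2 * 3 ^ (k1 + k2 + 1) + 100, k1 + k2, ?_⟩
  intro F _ _ r s h a b hr hr0 hs hn ha hb hla hlb
  have hG : Sh s (h.map (fun x => fit s (0 : F) [x])) := by
    intro r hr
    obtain ⟨x, -, rfl⟩ := List.mem_map.mp hr
    exact length_fit _ _ _
  obtain ⟨m1, m2, m3, m4⟩ := hm F r s a b hr hr0 hs ha hb
  set P : List (List F) := pm.val () (un r, (un s, (a, b))) with hP
  obtain ⟨d1, d2, d3, d4, d5, d6⟩ := hd F r s P (h.map (fun x => fit s (0 : F) [x])) hr hr0 hs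
    m1 hG
  have hval : ((mmaP pm pd).val () (un r, (un s, (h, (a, b)))) : List (List F)) =
      ((pd.val () (un r, (un s, (P, h.map (fun x => fit s (0 : F) [x]))))) :
        List (List F) × List (List F)).2 := by
    have e := val_padP s h
    simp only [mmaP, val_comp, val_pair, val_fst, val_snd, e, hP]
  have hcost := cost_padP s h
  intro c
  have hc : c = ((pd.val () (un r, (un s, (P, h.map (fun x => fit s (0 : F) [x]))))) :
        List (List F) × List (List F)).2 := hval
  refine ⟨?_, ?_, ?_, ?_⟩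
  · rw [hc]; exact d3
  · rw [hc, d4]; simp
  · intro R _ _ τ ζ hτ hζ
    have e1 := m3 R τ hτ
    have e2 := d5 R τ hτ
    rw [mrp_pad τ s hs h] at e2
    unfold av
    rw [hc]
    have e3 := congrArg (fun p => Polynomial.eval ζ p) (e1.symm.trans e2)
    simp only [Polynomial.eval_mul, Polynomial.eval_add, Polynomial.eval_map_algebraMap, hζ,
      mul_zero, zero_add] at e3
    rw [e3]
  · have e := val_padP s h
    have hk1 : ql k1 (s * (a.length + b.length)) ≤ 3 ^ (k1 + k2 + 1) * ql (k1 + k2) (s * h.length) :=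
      ql_le (by omega) (by rw [hla, hlb]; nlinarith)
    have hk2 : ql k2 (s * (P.length + (h.map (fun x => fit s (0 : F) [x])).length)) ≤
        3 ^ (k1 + k2 + 1) * ql (k1 + k2) (s * h.length) :=
      ql_le (by omega) (by rw [m2, hla, hlb, List.length_map]; exact le_of_eq (by ring))
    have hk3 := le_ql (k1 + k2) (s * h.length)
    have c1 := m4.trans (Nat.mul_le_mul_left C1 hk1)
    have c2 := d6.trans (Nat.mul_le_mul_left C2 hk2)
    have hsn : h.length ≤ s * h.length := Nat.le_mul_of_pos_left _ hs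
    simp only [mmaP, cost_comp, cost_pair, cost_fst, cost_snd, val_comp, val_pair, val_fst,
      val_snd, e, ← hP]
    have c3 : (20 * s + 30) * h.length + 5 ≤ 50 * (s * h.length) + 5 := by nlinarith
    have c4 := hcost.trans c3
    have c5 : (C1 * 3 ^ (k1 + k2 + 1) + C2 * 3 ^ (k1 + k2 + 1) + 100) *
        ql (k1 + k2) (s * h.length) = C1 * (3 ^ (k1 + k2 + 1) * ql (k1 + k2) (s * h.length)) +
        C2 * (3 ^ (k1 + k2 + 1) * ql (k1 + k2) (s * h.length)) +
        100 * ql (k1 + k2) (s * h.length) := by ring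
    rw [c5]
    omega
end Pool.Agent.H330AB.JJ3
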