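import Pool.Agent.H330AB.SpecB2
set_option autoImplicit false
noncomputable section
namespace Pool.Agent.H330AB.JK18
open Polynomial Pool.Agent.H330FB
/- If Blk i i' then l b i = l b i' for all b. If not, the linear form ∑_b c_b (l b i - l b i') in c (b < m ≤ n) is not zero, so it vanishes for at most |T|^(n-1) vectors c in T^n. At most n² pairs. -/

theorem sepC_getD {k : Type} [Field k] {n m : ℕ} (hmn : m ≤ n) {T : Finset k} (c : Fin n → T)
    (b : Fin m) : (List.ofFn (fun j => (c j : k))).getD b 0 = (c (Fin.castLE hmn b) : k) := by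
  have h : (b : ℕ) < (List.ofFn (fun j => (c j : k))).length := by
    rw [List.length_ofFn]
    exact lt_of_lt_of_le b.2 hmn
  rw [List.getD_eq_getElem _ _ h, List.getElem_ofFn]
  rfl

theorem sepC_pair {k : Type} [Field k] {n m : ℕ} (hmn : m ≤ n) (T : Finset k) (d : Fin m → k)
    (b₀ : Fin m) (hd : d b₀ ≠ 0) [DecidableEq k] :
    (Finset.univ.filter (fun c : Fin n → T =>
      ∑ b : Fin m, (c (Fin.castLE hmn b) : k) * d b = 0)).card * T.card ≤ T.card ^ n := by
  classical
  have h1 : T.card ^ n = Fintype.card (Fin n → T) := by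
    rw [Fintype.card_fun, Fintype.card_coe, Fintype.card_fin]
  have h2 : T.card = Fintype.card T := (Fintype.card_coe T).symm
  rw [h1, ← Fintype.card_coe (Finset.univ.filter _)]
  conv_lhs => rw [h2]
  rw [← Fintype.card_prod]
  refine Fintype.card_le_of_injective
    (fun p => Function.update p.1.1 (Fin.castLE hmn b₀) p.2) ?_
  rintro ⟨⟨c, hc⟩, t⟩ ⟨⟨c', hc'⟩, t'⟩ h
  simp only at h
  have ht : t = t' := by
    have := congrFun h (Fin.castLE hmn b₀)
    rwa [Function.update_self, Function.update_self] at this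
  have hoff : ∀ j, j ≠ Fin.castLE hmn b₀ → c j = c' j := by
    intro j hj
    have := congrFun h j
    rwa [Function.update_of_ne hj, Function.update_of_ne hj] at this
  rw [Finset.mem_filter] at hc hc'
  have h3 := hc.2
  have h4 := hc'.2
  rw [← Finset.add_sum_erase _ _ (Finset.mem_univ b₀)] at h3 h4
  have h5 : ∑ b ∈ Finset.univ.erase b₀, (c (Fin.castLE hmn b) : k) * d b =
      ∑ b ∈ Finset.univ.erase b₀, (c' (Fin.castLE hmn b) : k) * d b := by
    refine Finset.sum_congr rfl fun b hb => ?_
    rw [hoff]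
    intro he
    exact (Finset.mem_erase.1 hb).1 (Fin.castLE_injective hmn he)
  rw [h5] at h3
  have h6 : (c (Fin.castLE hmn b₀) : k) * d b₀ = (c' (Fin.castLE hmn b₀) : k) * d b₀ := by
    rw [← add_left_inj, h3, h4]
  have h7 : c (Fin.castLE hmn b₀) = c' (Fin.castLE hmn b₀) :=
    Subtype.ext (mul_right_cancel₀ hd h6)
  have h8 : c = c' := by
    funext j
    by_cases hj : j = Fin.castLE hmn b₀
    · rw [hj]; exact h7
    · exact hoff j hj
  subst h8
  subst ht
  rfl

/-- TARGET -/
theorem sepCount : StmtSepCount := by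
  intro k _ n m S φ l T hmn hR hC hS
  classical
  rw [Nat.card_eq_fintype_card, Fintype.card_subtype]
  have hsub : (Finset.univ.filter (fun c : Fin n → T => ¬ ∀ i i', Blk S φ i i' ↔
      (∑ b : Fin m, (List.ofFn (fun j => (c j : k))).getD b 0 * l b i =
        ∑ b : Fin m, (List.ofFn (fun j => (c j : k))).getD b 0 * l b i'))) ⊆
      (Finset.univ.filter (fun p : Fin n × Fin n => ¬ Blk S φ p.1 p.2)).biUnion
        (fun p => Finset.univ.filter (fun c : Fin n → T =>
          ∑ b : Fin m, (c (Fin.castLE hmn b) : k) * (l b p.1 - l b p.2) = 0)) := by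
    intro c hc
    rw [Finset.mem_filter] at hc
    have h1 := hc.2
    push Not at h1
    obtain ⟨i, i', h2⟩ := h1
    rw [Finset.mem_biUnion]
    have key : ∀ x : Fin n, ∑ b : Fin m, (List.ofFn (fun j => (c j : k))).getD b 0 * l b x =
        ∑ b : Fin m, (c (Fin.castLE hmn b) : k) * l b x := by
      intro x
      refine Finset.sum_congr rfl fun b _ => ?_
      rw [sepC_getD hmn]
    rw [key, key] at h2
    rcases h2 with ⟨h3, h4⟩ | ⟨h3, h4⟩
    · exfalso
      apply h4
      refine Finset.sum_congr rfl fun b _ => ?_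
      rw [hC b i i' h3]
    · refine ⟨(i, i'), ?_, ?_⟩
      · rw [Finset.mem_filter]
        exact ⟨Finset.mem_univ _, h3⟩
      · rw [Finset.mem_filter]
        refine ⟨Finset.mem_univ _, ?_⟩
        simp only [mul_sub, Finset.sum_sub_distrib]
        rw [h4, sub_self]
  calc _ ≤ _ * T.card := Nat.mul_le_mul_right _ (Finset.card_le_card hsub)
    _ ≤ (∑ p ∈ Finset.univ.filter (fun p : Fin n × Fin n => ¬ Blk S φ p.1 p.2),
        (Finset.univ.filter (fun c : Fin n → T =>
          ∑ b : Fin m, (c (Fin.castLE hmn b) : k) * (l b p.1 - l b p.2) = 0)).card) * T.card :=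
      Nat.mul_le_mul_right _ Finset.card_biUnion_le
    _ = ∑ p ∈ Finset.univ.filter (fun p : Fin n × Fin n => ¬ Blk S φ p.1 p.2),
        (Finset.univ.filter (fun c : Fin n → T =>
          ∑ b : Fin m, (c (Fin.castLE hmn b) : k) * (l b p.1 - l b p.2) = 0)).card * T.card := by
      rw [Finset.sum_mul]
    _ ≤ ∑ _p ∈ Finset.univ.filter (fun p : Fin n × Fin n => ¬ Blk S φ p.1 p.2), T.card ^ n := by
      refine Finset.sum_le_sum fun p hp => ?_
      obtain ⟨b₀, hb⟩ := hS p.1 p.2 (Finset.mem_filter.1 hp).2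
      exact sepC_pair hmn T (fun b => l b p.1 - l b p.2) b₀ (sub_ne_zero.2 hb)
    _ ≤ n ^ 2 * T.card ^ n := by
      rw [Finset.sum_const, smul_eq_mul]
      refine Nat.mul_le_mul_right _ ?_
      refine (Finset.card_le_univ _).trans ?_
      rw [Fintype.card_prod, Fintype.card_fin, pow_two]

end Pool.Agent.H330AB.JK18
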