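import Pool.Agent.H330AB.SpecC1
set_option autoImplicit false
noncomputable section
namespace Pool.Agent.H330AB.JL10a
open Polynomial Pool.Agent.H330FB

namespace Join

section basic
variable {K : Type} [Field K]

theorem coeff_hom (l : List (List K)) (i j : ℕ) :
    ((hom l).coeff i).coeff j = (l.getD (i + j) []).getD j 0 := by
  unfold hom
  rw [finsetSum_coeff, finsetSum_coeff]
  have key : ∀ k, ((∑ j ∈ Finset.range (k + 1),
      C (C ((l.getD k []).getD j 0) * X ^ j) * X ^ (k - j) : K[X][X]).coeff i).coeff j =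
      if k = i + j then (l.getD k []).getD j 0 else 0 := by
    intro k
    rw [finsetSum_coeff, finsetSum_coeff]
    simp only [coeff_C_mul_X_pow, apply_ite (fun p : K[X] => p.coeff j), coeff_zero]
    by_cases h : k = i + j
    · rw [if_pos h, Finset.sum_eq_single j]
      · rw [if_pos (by omega), if_pos rfl]
      · intro b _ hb
        rw [if_neg hb.symm]
        simp
      · intro hb
        exfalso
        apply hb
        rw [Finset.mem_range]
        omega
    · rw [if_neg h]
      apply Finset.sum_eq_zero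
      intro b hb
      rw [Finset.mem_range] at hb
      by_cases hb2 : j = b
      · rw [if_neg (by omega)]
      · rw [if_neg hb2]
        simp
  rw [Finset.sum_congr rfl (fun k _ => key k)]
  rcases lt_or_ge (i + j) l.length with h | h
  · rw [Finset.sum_eq_single (i + j)]
    · rw [if_pos rfl]
    · intro b _ hb
      rw [if_neg hb]
    · intro hb
      rw [Finset.mem_range] at hb
      exact absurd h hb
  · rw [List.getD_eq_default _ _ h]
    rw [Finset.sum_eq_zero]
    · simp
    · intro b hb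
      rw [Finset.mem_range] at hb
      rw [if_neg (by omega)]

theorem assoc_of_dvd {R : Type*} [CommMonoid R] {a b : R} (hb : Irreducible b) (ha : ¬ IsUnit a)
    (h : a ∣ b) : Associated a b := by
  obtain ⟨r, hr⟩ := h
  obtain ⟨u, hu⟩ := (hb.isUnit_or_isUnit hr).resolve_left ha
  exact ⟨u, by rw [hu, hr]⟩

theorem bcp_inj (k : Type) [Field k] [Algebra K k] :
    Function.Injective (mapRingHom (algebraMap K k)) :=
  map_injective _ (algebraMap K k).injective

/-- two irreducible polynomials with a common factor over the algebraic closure -/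
theorem no_common {k : Type} [Field k] [IsAlgClosed k] [Algebra K k] [Algebra.IsAlgebraic K k]
    {f1 f2 : K[X][X]} (h1 : Irreducible f1) (h2 : Irreducible f2) {h : k[X][X]}
    (hh : Irreducible h) (hd1 : h ∣ bcp k f1) (hd2 : h ∣ bcp k f2) : Associated f1 f2 := by
  have hnd : ∀ f : K[X][X], (bcp k f).natDegree = f.natDegree := fun f =>
    natDegree_map_eq_of_injective (bcp_inj k) f
  have hne : ∀ f : K[X][X], f ≠ 0 → bcp k f ≠ 0 := fun f hf h0 =>
    hf ((Polynomial.map_eq_zero_iff (bcp_inj k)).1 h0)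
  by_cases hdeg : h.natDegree = 0
  · obtain ⟨c, rfl⟩ := natDegree_eq_zero.1 hdeg
    have hc : ¬ IsUnit c := fun hu => hh.not_isUnit (isUnit_C.2 hu)
    have hc0 : c ≠ 0 := by
      rintro rfl
      exact hh.ne_zero C_0
    have hcd : c.degree ≠ 0 := fun hd => hc (isUnit_iff_degree_eq_zero.2 hd)
    obtain ⟨α, hα⟩ := IsAlgClosed.exists_root c hcd
    have hint : IsIntegral K α := Algebra.IsIntegral.isIntegral α
    have key : ∀ f : K[X][X], C c ∣ bcp k f → C (minpoly K α) ∣ f := by
      intro f hf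
      rw [C_dvd_iff_dvd_coeff] at hf ⊢
      intro i
      apply minpoly.dvd
      obtain ⟨r, hr⟩ := hf i
      rw [bcp, coeff_map, coe_mapRingHom] at hr
      have h3 : ((f.coeff i).map (algebraMap K k)).eval α = 0 := by
        rw [hr, eval_mul, hα, zero_mul]
      rwa [eval_map_algebraMap] at h3
    have hμ : ¬ IsUnit (C (minpoly K α) : K[X][X]) := fun hu =>
      minpoly.not_isUnit K α (isUnit_C.1 hu)
    exact (assoc_of_dvd h1 hμ (key f1 hd1)).symm.trans (assoc_of_dvd h2 hμ (key f2 hd2))
  · have hn1 : f1.natDegree ≠ 0 := by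
      have := natDegree_le_of_dvd hd1 (hne f1 h1.ne_zero)
      rw [hnd] at this
      omega
    have hn2 : f2.natDegree ≠ 0 := by
      have := natDegree_le_of_dvd hd2 (hne f2 h2.ne_zero)
      rw [hnd] at this
      omega
    have p1 := h1.isPrimitive hn1
    have p2 := h2.isPrimitive hn2
    by_contra hna
    have hcop : IsCoprime (f1.map (algebraMap K[X] (FractionRing K[X])))
        (f2.map (algebraMap K[X] (FractionRing K[X]))) := by
      rw [(p1.irreducible_iff_irreducible_map_fraction_map.1 h1).coprime_iff_not_dvd]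
      intro hd
      exact hna (assoc_of_dvd h2 h1.not_isUnit (p1.dvd_of_fraction_map_dvd_fraction_map hd))
    have hres : resultant f1 f2 ≠ 0 := by
      intro h0
      have h3 := congrArg (algebraMap K[X] (FractionRing K[X])) h0
      rw [← resultant_map_map, map_zero] at h3
      have h4 : resultant (f1.map (algebraMap K[X] (FractionRing K[X])))
          (f2.map (algebraMap K[X] (FractionRing K[X]))) = 0 := by
        rw [natDegree_map_eq_of_injective (IsFractionRing.injective _ _),
          natDegree_map_eq_of_injective (IsFractionRing.injective _ _)]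
        exact h3
      exact (resultant_eq_zero_iff.1 h4).2 hcop
    obtain ⟨p, q, -, -, e⟩ :=
      exists_mul_add_mul_eq_C_resultant f1 f2 le_rfl le_rfl (Or.inl hn1)
    have e2 := congrArg (bcp k) e
    have e3 : bcp k f1 * bcp k p + bcp k f2 * bcp k q =
        C ((resultant f1 f2).map (algebraMap K k)) := by
      unfold bcp at e2 ⊢
      rw [Polynomial.map_add, Polynomial.map_mul, Polynomial.map_mul, map_C] at e2
      exact e2
    have hdv : h ∣ C ((resultant f1 f2).map (algebraMap K k)) := by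
      rw [← e3]
      exact dvd_add (hd1.mul_right _) (hd2.mul_right _)
    have hC0 : C ((resultant f1 f2).map (algebraMap K k)) ≠ 0 := by
      intro h0
      rw [C_eq_zero] at h0
      exact hres ((Polynomial.map_eq_zero_iff (algebraMap K k).injective).1 h0)
    have h5 := natDegree_le_of_dvd hdv hC0
    rw [natDegree_C] at h5
    omega

/-- normalized polynomial of total degree `m` -/
def Nm (m i : ℕ) (l : List (List K)) : Prop :=
  IsHom m l ∧ (l.getD m []).getD i 0 = 1 ∧ ∀ j < i, (l.getD m []).getD j 0 = 0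

theorem entry_zero {m : ℕ} {l : List (List K)} (h : IsHom m l) {a j : ℕ} (haj : m < a ∨ a < j) :
    (l.getD a []).getD j 0 = 0 := by
  rcases lt_or_ge m a with h1 | h1
  · rw [List.getD_eq_default _ _ (show l.length ≤ a by rw [h.1]; omega)]
    rfl
  · rw [List.getD_eq_default]
    rw [h.2 a h1]
    omega

/-- associated normalized polynomials are equal -/
theorem nm_eq {m1 i1 m2 i2 : ℕ} {l1 l2 : List (List K)} (h1 : Nm m1 i1 l1) (h2 : Nm m2 i2 l2)
    (ha : Associated (hom l1) (hom l2)) : l1 = l2 := by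
  obtain ⟨u, hu⟩ := ha
  obtain ⟨r, hr, hru⟩ := isUnit_iff.1 u.isUnit
  obtain ⟨c, hc, hcr⟩ := isUnit_iff.1 hr
  have hc0 : c ≠ 0 := hc.ne_zero
  have hent : ∀ a j : ℕ, (l2.getD a []).getD j 0 = (l1.getD a []).getD j 0 * c := by
    intro a j
    rcases lt_or_ge a j with haj | haj
    · rw [entry_zero h1.1 (Or.inr haj), entry_zero h2.1 (Or.inr haj), zero_mul]
    · have e1 : ((hom l1 * (u : K[X][X])).coeff (a - j)).coeff j =
          ((hom l2).coeff (a - j)).coeff j := by rw [hu]
      rw [← hru, ← hcr, coeff_mul_C, coeff_mul_C, coeff_hom, coeff_hom,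
        Nat.sub_add_cancel haj] at e1
      exact e1.symm
  have hm : m1 = m2 := by
    rcases lt_trichotomy m1 m2 with h | h | h
    · have e := hent m2 i2
      rw [h2.2.1, entry_zero h1.1 (Or.inl h), zero_mul] at e
      exact absurd e one_ne_zero
    · exact h
    · have e := hent m1 i1
      rw [h1.2.1, entry_zero h2.1 (Or.inl h), one_mul] at e
      exact absurd e.symm hc0
  subst hm
  have hi : i1 = i2 := by
    rcases lt_trichotomy i1 i2 with h | h | h
    · have e := hent m1 i1
      rw [h1.2.1, h2.2.2 i1 h, one_mul] at e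
      exact absurd e.symm hc0
    · exact h
    · have e := hent m1 i2
      rw [h2.2.1, h1.2.2 i2 h, zero_mul] at e
      exact absurd e one_ne_zero
  subst hi
  have hc1 : c = 1 := by
    have e := hent m1 i1
    rw [h1.2.1, h2.2.1, one_mul] at e
    exact e.symm
  have hl1 := h1.1.1
  have hl2 := h2.1.1
  refine List.ext_getElem (by rw [hl1, hl2]) fun a g1 g2 => ?_
  have r1 : l1.getD a [] = l1[a] := List.getD_eq_getElem _ _ g1
  have r2 : l2.getD a [] = l2[a] := List.getD_eq_getElem _ _ g2
  have q1 : (l1[a]).length = a + 1 := by rw [← r1]; exact h1.1.2 a (by omega)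
  have q2 : (l2[a]).length = a + 1 := by rw [← r2]; exact h2.1.2 a (by omega)
  refine List.ext_getElem (by rw [q1, q2]) fun j g3 g4 => ?_
  have e := hent a j
  rw [r1, r2, List.getD_eq_getElem _ _ g3, List.getD_eq_getElem _ _ g4, hc1, mul_one] at e
  exact e.symm

end basic

theorem pol_coeff {R : Type} [CommRing R] (l : List R) (i : ℕ) :
    (pol l).coeff i = l.getD i 0 := by
  induction l generalizing i with
  | nil => simp [pol]
  | cons x l ih =>
    cases i with
    | zero => simp [pol]
    | succ i => simp [pol, ih, coeff_C_succ]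

theorem pol_degree_lt {R : Type} [CommRing R] (l : List R) : (pol l).degree < l.length := by
  rw [degree_lt_iff_coeff_zero]
  intro m hm
  rw [pol_coeff, List.getD_eq_default _ _ hm]

theorem mpol_degree {R : Type} [CommRing R] [Nontrivial R] (l : List R) :
    (mpol l).degree = l.length := by
  rw [mpol, degree_add_eq_left_of_degree_lt]
  · simp
  · rw [degree_X_pow]; exact pol_degree_lt l

theorem bcp_mul {F k : Type} [Field F] [Field k] [Algebra F k] (f g : F[X][X]) :
    bcp k (f * g) = bcp k f * bcp k g := Polynomial.map_mul _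

theorem bcp_pow {F k : Type} [Field F] [Field k] [Algebra F k] (f : F[X][X]) (n : ℕ) :
    bcp k (f ^ n) = bcp k f ^ n := Polynomial.map_pow _ n

theorem bcp_CC {F k : Type} [Field F] [Field k] [Algebra F k] (u : F) :
    bcp k (C (C u)) = C (C (algebraMap F k u)) := by
  rw [bcp, map_C, coe_mapRingHom, map_C]

/-- the product formula -/
theorem prod_formula {F k : Type} [Field F] [Field k] [Algebra F k]
    (ab : List (List F) → List F × List (List (List F)))
    (out : List (List (List F) × List Unit))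
    (h : ∀ o ∈ out, ∃ u : k, u ≠ 0 ∧ bcp k (hom o.1) = C (C u) *
      (((mpol (ab o.1).1).map (algebraMap F k)).roots.map (fun ζ => hz ζ (ab o.1).2)).prod) :
    ∃ u : k, u ≠ 0 ∧ bcp k ((out.map (fun o => hom o.1 ^ o.2.length)).prod) = C (C u) *
      ((out.map (fun o => ((ab o.1).1, ((ab o.1).2, o.2)))).map
        (fun o => (((mpol o.1).map (algebraMap F k)).roots.map
          (fun ζ => hz ζ o.2.1 ^ o.2.2.length)).prod)).prod := by
  induction out with
  | nil =>
    refine ⟨1, one_ne_zero, ?_⟩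
    simp [bcp]
  | cons o out ih =>
    obtain ⟨u, hu, e⟩ := ih fun o' ho' => h o' (List.mem_cons_of_mem _ ho')
    obtain ⟨v, hv, e'⟩ := h o List.mem_cons_self
    refine ⟨v ^ o.2.length * u, mul_ne_zero (pow_ne_zero _ hv) hu, ?_⟩
    rw [List.map_cons, List.prod_cons, bcp_mul, bcp_pow, e, e', List.map_cons, List.map_cons,
      List.prod_cons, mul_pow, Multiset.prod_map_pow]
    simp only [C_mul, C_pow]
    ring

end Join

/-- TARGET -/
theorem stmtJoin : StmtJoin := by
  intro F _ _ H outF ab hG hA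
  obtain ⟨⟨u, hu, eH⟩, hO, hnd⟩ := hG
  have hprod : ∀ o ∈ outF, ∃ u : AlgebraicClosure F, u ≠ 0 ∧ bcp (AlgebraicClosure F) (hom o.1) =
      C (C u) * (((mpol (ab o.1).1).map (algebraMap F (AlgebraicClosure F))).roots.map
        (fun ζ => hz ζ (ab o.1).2)).prod := by
    intro o ho
    obtain ⟨v, hv, e⟩ := (hA o ho).2.2
    refine ⟨v, hv, ?_⟩
    simpa [un] using e
  -- the entries of the singletons
  have hs : ∀ o ∈ outF, 1 ≤ (ab o.1).1.length ∧
      Squarefree ((mpol (ab o.1).1).map (algebraMap F (AlgebraicClosure F))) ∧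
      (ab o.1).2.length = (ab o.1).1.length ∧ (∃ j, 1 ≤ j ∧ ∀ x ∈ (ab o.1).2, IsHom j x) ∧
      ∀ ζ : AlgebraicClosure F, aeval ζ (mpol (ab o.1).1) = 0 →
        Irreducible (hz ζ (ab o.1).2) := by
    intro o ho
    obtain ⟨a1, a2, a3, -, a5, a6⟩ := (hA o ho).1 _ (List.mem_singleton.2 rfl)
    exact ⟨a1, a2, a3, a5, a6⟩
  have hdvd : ∀ o ∈ outF, ∀ ζ : AlgebraicClosure F, aeval ζ (mpol (ab o.1).1) = 0 →
      hz ζ (ab o.1).2 ∣ bcp (AlgebraicClosure F) (hom o.1) := by
    intro o ho ζ hζ
    obtain ⟨v, hv, e⟩ := hprod o ho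
    rw [e]
    refine Dvd.dvd.mul_left (Multiset.dvd_prod ?_) _
    refine Multiset.mem_map_of_mem _ ?_
    rw [mem_roots (hs o ho).2.1.ne_zero, IsRoot.def, eval_map_algebraMap]
    exact hζ
  -- equal factors come from equal entries
  have hkey : ∀ o ∈ outF, ∀ o' ∈ outF, ∀ ζ ζ' : AlgebraicClosure F,
      aeval ζ (mpol (ab o.1).1) = 0 → aeval ζ' (mpol (ab o'.1).1) = 0 →
      Associated (hz ζ (ab o.1).2) (hz ζ' (ab o'.1).2) → o = o' := by
    intro o ho o' ho' ζ ζ' h1 h2 hass
    have hd1 := hdvd o ho ζ h1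
    have hd2 := hass.dvd.trans (hdvd o' ho' ζ' h2)
    obtain ⟨m, i, -, b2, b3, b4, b5, -⟩ := hO o ho
    obtain ⟨m', i', -, b2', b3', b4', b5', -⟩ := hO o' ho'
    have h3 := Join.no_common b5 b5' ((hs o ho).2.2.2.2 ζ h1) hd1 hd2
    have h4 : o.1 = o'.1 := Join.nm_eq ⟨b2, b3, b4⟩ ⟨b2', b3', b4'⟩ h3
    exact List.inj_on_of_nodup_map hnd ho ho' h4
  -- roots exist
  have hroot : ∀ o ∈ outF, ∃ ζ : AlgebraicClosure F, aeval ζ (mpol (ab o.1).1) = 0 := by
    intro o ho
    have h1 := (hs o ho).1
    have hdeg : ((mpol (ab o.1).1).map (algebraMap F (AlgebraicClosure F))).degree ≠ 0 := by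
      rw [degree_map, Join.mpol_degree]
      intro h2
      have h3 : (ab o.1).1.length = 0 := by exact_mod_cast h2
      omega
    obtain ⟨ζ, hζ⟩ := IsAlgClosed.exists_root _ hdeg
    refine ⟨ζ, ?_⟩
    rwa [IsRoot.def, eval_map_algebraMap] at hζ
  refine ⟨?_, ⟨?_, ?_⟩, ?_⟩
  · intro x hx
    obtain ⟨o, ho, rfl⟩ := List.mem_map.1 hx
    obtain ⟨a1, a2, a3, a5, a6⟩ := hs o ho
    obtain ⟨m, i, b1, b2, b3, b4, b5, b6⟩ := hO o ho
    exact ⟨a1, a2, a3, b6, a5, a6⟩
  · refine List.Nodup.map_on ?_ (List.Nodup.of_map _ hnd)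
    intro o ho o' ho' h
    obtain ⟨ζ, hζ⟩ := hroot o ho
    have h1 : (ab o.1).1 = (ab o'.1).1 := (Prod.ext_iff.1 h).1
    have h2 : (ab o.1).2 = (ab o'.1).2 := (Prod.ext_iff.1 (Prod.ext_iff.1 h).2).1
    refine hkey o ho o' ho' ζ ζ hζ (by rw [← h1]; exact hζ) ?_
    rw [h2]
  · intro x hx x' hx' ζ ζ' h1 h2 hass
    obtain ⟨o, ho, rfl⟩ := List.mem_map.1 hx
    obtain ⟨o', ho', rfl⟩ := List.mem_map.1 hx'
    have h3 := hkey o ho o' ho' ζ ζ' h1 h2 hass
    subst h3
    refine ⟨rfl, ?_⟩
    exact ((hA o ho).2.1.2 _ (List.mem_singleton.2 rfl) _ (List.mem_singleton.2 rfl) ζ ζ' h1 h2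
      hass).2
  · obtain ⟨v, hv, e⟩ := Join.prod_formula ab outF hprod
    refine ⟨algebraMap F (AlgebraicClosure F) u * v, mul_ne_zero ?_ hv, ?_⟩
    · exact (_root_.map_ne_zero _).2 hu
    · rw [eH, Join.bcp_mul, Join.bcp_CC, e]
      simp only [C_mul]
      ring

end Pool.Agent.H330AB.JL10a
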