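import Pool.Agent.H330AB.SpecA3
set_option autoImplicit false
noncomputable section
namespace Pool.Agent.H330AB.JT3
open Polynomial Pool.Agent.H330FB

lemma t3_getD_map {A B : Type} (f : A → B) (l : List A) (n : ℕ) (a : A) :
    (l.map f).getD n (f a) = f (l.getD n a) := by
  simp [List.getD_eq_getElem?_getD, List.getElem?_map]

lemma t3_getD_getD {K k : Type} [Field K] [Field k] (φ : K →+* k) (H : List (List K)) (i j : ℕ) :
    (((H.map (List.map φ)).getD i []).getD j 0) = φ ((H.getD i []).getD j 0) := by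
  have h1 := t3_getD_map (List.map φ) H i []
  rw [List.map_nil] at h1
  rw [h1]
  have h2 := t3_getD_map φ (H.getD i []) j 0
  rw [map_zero] at h2
  exact h2

lemma t3_hom {K k : Type} [Field K] [Field k] [Algebra K k] (H : List (List K)) :
    hom (H.map (List.map (algebraMap K k))) = bcp k (hom H) := by
  unfold hom bcp
  rw [Polynomial.map_sum, List.length_map]
  refine Finset.sum_congr rfl fun i _ => ?_
  rw [Polynomial.map_sum]
  refine Finset.sum_congr rfl fun j _ => ?_
  rw [t3_getD_getD]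
  simp [Polynomial.map_mul, Polynomial.map_pow]

lemma t3_isHom {K k : Type} [Field K] [Field k] (φ : K →+* k) (d : ℕ) (H : List (List K))
    (h : IsHom d H) : IsHom d (H.map (List.map φ)) := by
  refine ⟨by rw [List.length_map]; exact h.1, fun i hi => ?_⟩
  have h1 := t3_getD_map (List.map φ) H i []
  rw [List.map_nil] at h1
  rw [h1, List.length_map]
  exact h.2 i hi

lemma t3_topNe {K k : Type} [Field K] [Field k] (φ : K →+* k) (d : ℕ) (H : List (List K))
    (h : TopNe d H) : TopNe d (H.map (List.map φ)) := by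
  obtain ⟨j, hj⟩ := h
  refine ⟨j, ?_⟩
  rw [t3_getD_getD]
  intro h0
  exact hj ((map_eq_zero φ).1 h0)

lemma t3_rows {A : Type} {d : ℕ} (G : Fin d → Fin d → A) :
    (rows G).flatten = List.ofFn (fun i : Fin (d * d) => G i.divNat i.modNat) := by
  rw [List.ofFn_mul]
  unfold rows
  congr 1
  congr 1
  funext i
  congr 1
  funext j
  congr 1
  · ext
    simp only [Fin.divNat]
    rw [Nat.mul_comm, Nat.mul_add_div (by have := j.2; omega), Nat.div_eq_of_lt j.2]
    simp
  · ext
    simp only [Fin.modNat]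
    rw [Nat.mul_comm, Nat.mul_add_mod, Nat.mod_eq_of_lt j.2]

lemma t3_rows_inj {A : Type} {d : ℕ} {G G' : Fin d → Fin d → A}
    (h : (rows G).flatten = (rows G').flatten) : G = G' := by
  rw [t3_rows, t3_rows] at h
  have h2 := List.ofFn_injective h
  funext i j
  have h3 := congrFun h2 ⟨i * d + j, by have := i.2; have := j.2; nlinarith⟩
  have h4 : (Fin.divNat (⟨i * d + j, by have := i.2; have := j.2; nlinarith⟩ : Fin (d * d))) = i := by
    ext
    simp only [Fin.divNat]
    rw [Nat.mul_comm, Nat.mul_add_div (by have := j.2; omega), Nat.div_eq_of_lt j.2]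
    simp
  have h5 : (Fin.modNat (⟨i * d + j, by have := i.2; have := j.2; nlinarith⟩ : Fin (d * d))) = j := by
    ext
    simp only [Fin.modNat]
    rw [Nat.mul_comm, Nat.mul_add_mod, Nat.mod_eq_of_lt j.2]
  rw [h4, h5] at h3
  exact h3

lemma t3_rows_len {A : Type} {d : ℕ} (G : Fin d → Fin d → A) :
    (rows G).flatten.length = d * d := by
  rw [t3_rows, List.length_ofFn]

lemma t3_len {A : Type} {d : ℕ} (a b : A) (G : Fin d → Fin d → A) (as : Fin d → A)
    (g : Fin d → Fin d → A) : (rlist a b G as g).length = Rt d := by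
  unfold rlist Rt
  simp only [List.length_append, t3_rows_len, List.length_ofFn]
  simp

lemma t3_inj {A : Type} {d : ℕ} {a b a' b' : A} {G G' : Fin d → Fin d → A} {as as' : Fin d → A}
    {g g' : Fin d → Fin d → A} (h : rlist a b G as g = rlist a' b' G' as' g') :
    a = a' ∧ b = b' ∧ G = G' ∧ as = as' ∧ g = g' := by
  unfold rlist at h
  obtain ⟨h1, h2⟩ := List.append_inj h (by simp)
  obtain ⟨h3, h4⟩ := List.append_inj h2 (by rw [t3_rows_len, t3_rows_len])
  obtain ⟨h5, h6⟩ := List.append_inj h4 (by rw [List.length_ofFn, List.length_ofFn])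
  simp only [List.cons.injEq, and_true] at h1
  exact ⟨h1.1, h1.2, t3_rows_inj h3, List.ofFn_injective h5, t3_rows_inj h6⟩

lemma t3_map {A B : Type} (f : A → B) {d : ℕ} (a b : A) (G : Fin d → Fin d → A) (as : Fin d → A)
    (g : Fin d → Fin d → A) : (rlist a b G as g).map f =
      rlist (f a) (f b) (fun i j => f (G i j)) (fun j => f (as j)) (fun i j => f (g i j)) := by
  unfold rlist
  rw [List.map_append, List.map_append, List.map_append, t3_rows, t3_rows, t3_rows, t3_rows,
    List.map_ofFn, List.map_ofFn, List.map_ofFn]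
  rfl

/-- the space of choices -/
abbrev XT (A : Type) (d : ℕ) : Type :=
  (A × A) × ((Fin d → Fin d → A) × (Fin d → A) × (Fin d → Fin d → A))

lemma t3_card (A : Type) [Fintype A] (d : ℕ) : Nat.card (XT A d) = Fintype.card A ^ Rt d := by
  unfold XT Rt
  simp only [Nat.card_eq_fintype_card, Fintype.card_prod, Fintype.card_fun, Fintype.card_fin]
  ring

/-- the vector of random elements -/
def t3e {A : Type} {d : ℕ} (x : XT A d) : Fin (Rt d) → A :=
  fun i => (rlist x.1.1 x.1.2 x.2.1 x.2.2.1 x.2.2.2).get (Fin.cast (t3_len _ _ _ _ _).symm i)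

lemma t3e_ofFn {A : Type} {d : ℕ} (x : XT A d) :
    List.ofFn (t3e x) = rlist x.1.1 x.1.2 x.2.1 x.2.2.1 x.2.2.2 := by
  apply List.ext_get
  · rw [List.length_ofFn, t3_len]
  · intro n h1 h2
    rw [List.get_ofFn]
    rfl

lemma t3e_inj {A : Type} {d : ℕ} : Function.Injective (t3e : XT A d → Fin (Rt d) → A) := by
  intro x y h
  have h1 := t3e_ofFn x
  have h2 := t3e_ofFn y
  rw [h] at h1
  obtain ⟨h3, h4, h5, h6, h7⟩ := t3_inj (h1.symm.trans h2)
  obtain ⟨⟨a, b⟩, G, as, g⟩ := x
  obtain ⟨⟨a', b'⟩, G', as', g'⟩ := y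
  simp only at h3 h4 h5 h6 h7
  subst h3 h4 h5 h6 h7
  rfl

/-- TARGET -/
theorem specTest (h1 : SpecTestA) (h2 : StmtTestCount) : SpecTest := by
  obtain ⟨w, C, k, hw⟩ := h1
  refine ⟨w, C, k, ?_⟩
  intro K _ _ p d rt H hp hchar hrt hH hd hT
  obtain ⟨hA, hB⟩ := hw K p d rt H hp hchar hrt hH hd hT
  refine ⟨hA, ?_⟩
  intro hpd T hTc
  obtain ⟨e, he1, he2, he3⟩ := hB hpd
  classical
  have : Fact p.Prime := ⟨hp⟩
  set L := AlgebraicClosure K with hL
  have : CharP L p := charP_of_injective_algebraMap (algebraMap K L).injective p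
  set T' : Finset L := T.map ⟨algebraMap K L, (algebraMap K L).injective⟩ with hT'
  have hcard : T'.card = T.card := by rw [hT', Finset.card_map]
  have hcnt := h2 L p e d (H.map (List.map (algebraMap K L))) T' (t3_isHom _ d H hH) hd
    (t3_topNe _ d H hT) he1
  rw [hcard, t3_hom] at hcnt
  -- the choices over `T`
  let ι : T → T' := fun t => ⟨algebraMap K L t, by
    rw [hT', Finset.mem_map]
    exact ⟨t, t.2, rfl⟩⟩
  have hι : Function.Injective ι := by
    intro s t hst
    have h3 := congrArg Subtype.val hst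
    exact Subtype.ext ((algebraMap K L).injective h3)
  let P : XT T d → Prop := fun x => GoodT (p ^ e) d (bcp L (hom H)) (algebraMap K L x.1.1)
    (algebraMap K L x.1.2) (fun i j => algebraMap K L (x.2.1 i j))
    (fun j => algebraMap K L (x.2.2.1 j)) (fun j i => algebraMap K L (x.2.2.2 j i))
  have hbad : Nat.card {x : XT T d // ¬ P x} * T.card ≤
      (2 * d ^ 2 + 3 * d + 40 * d ^ 2 * p ^ e) * T.card ^ Rt d := by
    refine le_trans (Nat.mul_le_mul_right _ ?_) hcnt
    refine Nat.card_le_card_of_injective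
      (fun x => ⟨((ι x.1.1.1, ι x.1.1.2), (fun i j => ι (x.1.2.1 i j)), (fun j => ι (x.1.2.2.1 j)),
        (fun j i => ι (x.1.2.2.2 j i))), x.2⟩) ?_
    intro x y hxy
    obtain ⟨⟨⟨a, b⟩, G, as, g⟩, hx⟩ := x
    obtain ⟨⟨⟨a', b'⟩, G', as', g'⟩, hy⟩ := y
    simp only [Subtype.mk.injEq, Prod.mk.injEq] at hxy
    obtain ⟨⟨h3, h4⟩, h5, h6, h7⟩ := hxy
    have h3' := hι h3
    have h4' := hι h4
    have h5' : G = G' := by
      funext i j
      exact hι (congrFun (congrFun h5 i) j)
    have h6' : as = as' := by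
      funext j
      exact hι (congrFun h6 j)
    have h7' : g = g' := by
      funext i j
      exact hι (congrFun (congrFun h7 i) j)
    subst h3' h4' h5' h6' h7'
    rfl
  have hgood : Nat.card {x : XT T d // P x} ≤ Nat.card {ω : Fin (Rt d) → T //
      w.val (rt, ()) (H, List.ofFn (fun i => (ω i : K))) ≠ [] ↔
        Irreducible (bcp (AlgebraicClosure K) (hom H))} := by
    refine Nat.card_le_card_of_injective (fun x => ⟨t3e x.1, ?_⟩) ?_
    · have h4 : List.ofFn (fun i => ((t3e x.1 i : T) : K)) = rlist (x.1.1.1 : K) (x.1.1.2 : K)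
          (fun i j => ((x.1.2.1 i j : T) : K)) (fun j => ((x.1.2.2.1 j : T) : K))
          (fun i j => ((x.1.2.2.2 i j : T) : K)) := by
        have h5 := t3_map (Subtype.val : T → K) x.1.1.1 x.1.1.2 x.1.2.1 x.1.2.2.1 x.1.2.2.2
        rw [← t3e_ofFn, List.map_ofFn] at h5
        exact h5
      rw [h4]
      have h6 := he3 (x.1.1.1 : K) (x.1.1.2 : K)
          (fun i j => ((x.1.2.1 i j : T) : K)) (fun j => ((x.1.2.2.1 j : T) : K))
          (fun i j => ((x.1.2.2.2 i j : T) : K)) L x.2
      by_cases hirr : Irreducible (bcp L (hom H))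
      · rw [h6.1 hirr]
        simp only [un, List.replicate_one]
        exact ⟨fun _ => hirr, fun _ => List.cons_ne_nil _ _⟩
      · rw [h6.2 hirr]
        simp only [un, List.replicate_zero]
        exact ⟨fun h => absurd rfl h, fun h => absurd h hirr⟩
    · intro x y hxy
      simp only [Subtype.mk.injEq] at hxy
      exact Subtype.ext (t3e_inj hxy)
  have htot : Nat.card {x : XT T d // P x} + Nat.card {x : XT T d // ¬ P x} = T.card ^ Rt d := by
    have h3 := t3_card T d
    rw [Fintype.card_coe] at h3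
    rw [← h3, ← Nat.card_sum]
    exact Nat.card_congr (Equiv.sumCompl P)
  have hN : 0 < T.card := by
    have : 0 < 135 * d ^ 5 := by positivity
    omega
  have hpe : p ^ e ≤ d ^ 3 := by
    calc p ^ e ≤ d * p := he2
      _ ≤ d * d ^ 2 := Nat.mul_le_mul_left _ hpd.le
      _ = d ^ 3 := by ring
  have hd2 : d ^ 2 ≤ d ^ 5 := Nat.pow_le_pow_right hd (by norm_num)
  have hd1 : d ≤ d ^ 5 := by
    calc d = d ^ 1 := (pow_one d).symm
      _ ≤ d ^ 5 := Nat.pow_le_pow_right hd (by norm_num)
  have hco : 2 * d ^ 2 + 3 * d + 40 * d ^ 2 * p ^ e ≤ 45 * d ^ 5 := by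
    have h5 : d ^ 2 * p ^ e ≤ d ^ 5 := by
      calc d ^ 2 * p ^ e ≤ d ^ 2 * d ^ 3 := Nat.mul_le_mul_left _ hpe
        _ = d ^ 5 := by ring
    nlinarith
  have hfin : 3 * Nat.card {x : XT T d // ¬ P x} ≤ T.card ^ Rt d := by
    have h5 : (3 * Nat.card {x : XT T d // ¬ P x}) * T.card ≤ T.card ^ Rt d * T.card := by
      calc (3 * Nat.card {x : XT T d // ¬ P x}) * T.card
          = 3 * (Nat.card {x : XT T d // ¬ P x} * T.card) := by ring
        _ ≤ 3 * ((2 * d ^ 2 + 3 * d + 40 * d ^ 2 * p ^ e) * T.card ^ Rt d) :=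
            Nat.mul_le_mul_left _ hbad
        _ ≤ 3 * (45 * d ^ 5 * T.card ^ Rt d) :=
            Nat.mul_le_mul_left _ (Nat.mul_le_mul_right _ hco)
        _ = (135 * d ^ 5) * T.card ^ Rt d := by ring
        _ ≤ T.card * T.card ^ Rt d := Nat.mul_le_mul_right _ hTc
        _ = T.card ^ Rt d * T.card := by ring
    exact Nat.le_of_mul_le_mul_right h5 hN
  omega
end Pool.Agent.H330AB.JT3
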