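import Pool.Agent.H330AB.SpecA3

set_option autoImplicit false

/-!
# Absolute factorization: statements on programs, part 1 (one variable)
-/

namespace Pool.Agent.H330AB

open Polynomial Pool.Agent.H330FB

/-! ### Polynomials in one variable, schoolbook methods -/

/-- monic greatest common divisor of a monic polynomial and a polynomial; input `(h, g)` -/
def SpecGcd : Prop := ∃ (w : Pr [] (.prod Po Po) Po) (C : ℕ),
  ∀ (F : Type) [Field F] [DecidableEq F] (h g : List F),
  let c : List F := w.val () (h, g)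
  c.length ≤ h.length ∧ mpol c ∣ mpol h ∧ mpol c ∣ pol g ∧
  (∀ D : F[X], D ∣ mpol h → D ∣ pol g → D ∣ mpol c) ∧
  w.cost () () (h, g) ≤ C * (h.length + g.length + 1) ^ 2

/-- exact quotient of monic polynomials; input `(P, D)` -/
def SpecQuo : Prop := ∃ (w : Pr [] (.prod Po Po) Po) (C : ℕ),
  ∀ (F : Type) [Field F] [DecidableEq F] (P D : List F),
  let c : List F := w.val () (P, D)
  c.length = P.length - D.length ∧ (mpol D ∣ mpol P → mpol c * mpol D = mpol P) ∧
  w.cost () () (P, D) ≤ C * (P.length + D.length + 1) ^ 2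

/-- remainder of the division by a monic polynomial; input `(P, D)` -/
def SpecRem : Prop := ∃ (w : Pr [] (.prod Po Po) Po) (C : ℕ),
  ∀ (F : Type) [Field F] [DecidableEq F] (P D : List F),
  let c : List F := w.val () (P, D)
  c.length = D.length ∧ mpol D ∣ pol P - pol c ∧
  w.cost () () (P, D) ≤ C * (P.length + D.length + 1) * (D.length + 1)

/-- radical of a monic polynomial over a perfect field; input `(p, P)` -/
def SpecRad : Prop := ∃ (w : Pr RT (.prod Un Po) Po) (C k : ℕ),
  ∀ (F : Type) [Field F] [DecidableEq F] (p : ℕ) (rt : F → F) (P : List F), p.Prime →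
  CharP F p → (∀ x, rt x ^ p = x) →
  let R : List F := w.val (rt, ()) (un p, P)
  R.length ≤ P.length ∧ Squarefree (mpol R) ∧ mpol R ∣ mpol P ∧
  mpol P ∣ mpol R ^ P.length ∧
  w.cost (rt, ()) ((fun _ => 1), ()) (un p, P) ≤
    C * lgc (P.length + 1) ^ k * ((P.length + 1) ^ 2 + p)

/-- squarefree decomposition over a perfect field; input `(p, P)` -/
def SpecSqf : Prop := ∃ (w : Pr RT (.prod Un Po) (.list (.prod Un Po))) (C k : ℕ),
  ∀ (F : Type) [Field F] [DecidableEq F] (p : ℕ) (rt : F → F) (P : List F), p.Prime →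
  CharP F p → (∀ x, rt x ^ p = x) →
  let out : List (List Unit × List F) := w.val (rt, ()) (un p, P)
  (out.map (fun o => mpol o.2 ^ o.1.length)).prod = mpol P ∧
  (∀ o ∈ out, 1 ≤ o.1.length ∧ 1 ≤ o.2.length) ∧
  Squarefree (out.map (fun o => mpol o.2)).prod ∧
  (out.map (fun o => o.1.length)).Nodup ∧
  w.cost (rt, ()) ((fun _ => 1), ()) (un p, P) ≤
    C * lgc (P.length + 1) ^ k * ((P.length + 1) * ((P.length + 1) ^ 2 + p))

/-- interpolation; input `(n, (points, rows of values))`, row `j` of the values belongs to the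
point `j`; output: row `i` holds the coefficients of the `i`-th polynomial -/
def SpecInt : Prop := ∃ (w : Pr [] (.prod Un (.prod Po Ma)) Ma) (C : ℕ),
  ∀ (F : Type) [Field F] [DecidableEq F] (n : ℕ) (cs : List F) (V : List (List F)),
  V.length = cs.length → Sh n V →
  let A : List (List F) := w.val () (un n, (cs, V))
  A.length = n ∧ Sh cs.length A ∧
  (cs.Nodup → ∀ i < n, ∀ j < cs.length,
    (pol (A.getD i [])).eval (cs.getD j 0) = (V.getD j []).getD i 0) ∧
  w.cost () () (un n, (cs, V)) ≤ C * (cs.length + n + 1) ^ 3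

/-- norm; input `(h, g)` -/
def SpecNorm : Prop := ∃ (w : Pr [] (.prod Po Po) .fld) (C : ℕ),
  ∀ (F : Type) [Field F] [DecidableEq F] (n : ℕ) (h g : List F), h.length = n → 1 ≤ n →
  (∀ (k : Type) [Field k] [Algebra F k] (α : Fin n → k),
    (mpol h).map (algebraMap F k) = ∏ i, (X - Polynomial.C (α i)) →
    algebraMap F k (w.val () (h, g)) = ∏ i, aeval (α i) (pol g)) ∧
  w.cost () () (h, g) ≤ C * (n + g.length + 1) ^ 2

/-- characteristic polynomial; input `(points, (h, L))` -/
def SpecChi : Prop := ∃ (w : Pr [] (.prod Po (.prod Po Po)) Po) (C : ℕ),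
  ∀ (F : Type) [Field F] [DecidableEq F] (n : ℕ) (cs h L : List F), h.length = n → 1 ≤ n →
  L.length = n → n + 1 ≤ cs.length →
  let χ : List F := w.val () (cs, (h, L))
  χ.length = n ∧
  (cs.Nodup → ∀ (k : Type) [Field k] [Algebra F k] (α : Fin n → k),
    (mpol h).map (algebraMap F k) = ∏ i, (X - Polynomial.C (α i)) →
    (mpol χ).map (algebraMap F k) = ∏ i, (X - Polynomial.C (aeval (α i) (pol L)))) ∧
  w.cost () () (cs, (h, L)) ≤ C * ((cs.length + 1) ^ 2 * (n + 1))

/-- composition with a monic polynomial; input `(q, (L, h))` -/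
def SpecComp : Prop := ∃ (w : Pr [] (.prod Po (.prod Po Po)) Po) (C : ℕ),
  ∀ (F : Type) [Field F] [DecidableEq F] (q L h : List F), L.length = h.length →
  1 ≤ h.length →
  let c : List F := w.val () (q, (L, h))
  c.length = h.length ∧ mpol h ∣ (mpol q).comp (pol L) - pol c ∧
  w.cost () () (q, (L, h)) ≤ C * ((q.length + 1) * (h.length + 1) ^ 2)

/-- solution of a linear system with independent columns; input `(columns, target)` -/
def SpecSolve : Prop := ∃ (w : Pr [] (.prod Ma Po) Po) (C : ℕ),
  ∀ (F : Type) [Field F] [DecidableEq F] (n m : ℕ) (cols : List (List F)) (v : List F),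
  cols.length = n → Sh m cols → v.length = m →
  let c : List F := w.val () (cols, v)
  c.length = n ∧
  (LinearIndependent F (fun i : Fin n => cvec (cols.getD i [])) →
    cvec v ∈ Submodule.span F (Set.range (fun i : Fin n => cvec (cols.getD i []))) →
    cvec v = ∑ i : Fin n, c.getD i 0 • cvec (cols.getD i [])) ∧
  w.cost () () (cols, v) ≤ C * (n + m + 1) ^ 3

/-! ### Polynomials over `(F[z]/q)[t]/t^w` -/

/-- coefficients in `(F[z]/q)[t]/t^w` -/
abbrev ML : Ty := .list Ma

/-- all coefficients have the right shape -/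
def Sh3 {F : Type} (w m : ℕ) (l : List (List (List F))) : Prop :=
  ∀ a ∈ l, a.length = m ∧ Sh w a

/-- value at `(τ, ζ)` -/
noncomputable def pv {F R : Type} [Field F] [CommRing R] [Algebra F R] (τ ζ : R)
    (l : List (List (List F))) : R[X] := pol (l.map (av τ ζ))

/-- value at `(τ, ζ)` of a monic polynomial -/
noncomputable def mpv {F R : Type} [Field F] [CommRing R] [Algebra F R] (τ ζ : R)
    (l : List (List (List F))) : R[X] := X ^ l.length + pv τ ζ l

/-- multiplication, input `(r, (w, (q, (A, B))))` -/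
def SpecMulP : Prop := ∃ (w : Pr [] (.prod Un (.prod Un (.prod Po (.prod ML ML)))) ML)
    (C k : ℕ),
  ∀ (F : Type) [Field F] [DecidableEq F] (r s : ℕ) (q : List F) (A B : List (List (List F))),
  (r = 2 ∨ r = 3) → (r : F) ≠ 0 → 1 ≤ s → 1 ≤ q.length → Sh3 s q.length A →
  Sh3 s q.length B →
  let c : List (List (List F)) := w.val () (un r, (un s, (q, (A, B))))
  Sh3 s q.length c ∧ c.length = A.length + B.length ∧
  (∀ (R : Type) [CommRing R] [Algebra F R] (τ ζ : R), τ ^ s = 0 → aeval ζ (mpol q) = 0 →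
    pv τ ζ c = pv τ ζ A * pv τ ζ B) ∧
  w.cost () () (un r, (un s, (q, (A, B)))) ≤
    C * ((A.length + 1) * (B.length + 1) * ql k (s * q.length))

/-- division with remainder by a monic polynomial, input `(r, (w, (q, (A, G))))` -/
def SpecDivP : Prop := ∃ (w : Pr [] (.prod Un (.prod Un (.prod Po (.prod ML ML))))
    (.prod ML ML)) (C k : ℕ),
  ∀ (F : Type) [Field F] [DecidableEq F] (r s : ℕ) (q : List F) (A G : List (List (List F))),
  (r = 2 ∨ r = 3) → (r : F) ≠ 0 → 1 ≤ s → 1 ≤ q.length → Sh3 s q.length A →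
  Sh3 s q.length G →
  let c : List (List (List F)) × List (List (List F)) :=
    w.val () (un r, (un s, (q, (A, G))))
  Sh3 s q.length c.1 ∧ c.1.length = A.length - G.length ∧
  Sh3 s q.length c.2 ∧ c.2.length = G.length ∧
  (∀ (R : Type) [CommRing R] [Algebra F R] (τ ζ : R), τ ^ s = 0 → aeval ζ (mpol q) = 0 →
    pv τ ζ A = pv τ ζ c.1 * mpv τ ζ G + pv τ ζ c.2) ∧
  w.cost () () (un r, (un s, (q, (A, G)))) ≤
    C * ((A.length + 1) * (G.length + 1) * ql k (s * q.length))

end Pool.Agent.H330AB
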