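import Pool.Agent.H330AB.SpecB1

set_option autoImplicit false

/-!
# Absolute factorization: statements on programs, part 2
-/

namespace Pool.Agent.H330AB

open Polynomial Pool.Agent.H330FB

/-! ### One class of factors -/

/-- lifting of a factor over `F[z]/q`; input `(r, (s, (q, (S, (F0, U0)))))` -/
def SpecLift : Prop := ∃ (w : Pr [] (.prod Un (.prod Un (.prod Po (.prod Ma (.prod Ma Ma))))) ML)
    (C k : ℕ),
  ∀ (F : Type) [Field F] [DecidableEq F] (r s : ℕ) (q : List F) (S F0 U0 : List (List F)),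
  (r = 2 ∨ r = 3) → (r : F) ≠ 0 → 1 ≤ s → 1 ≤ q.length → Sh s S → Sh q.length F0 →
  Sh q.length U0 → 1 ≤ F0.length → U0.length = F0.length → F0.length ≤ S.length →
  let c : List (List (List F)) := w.val () (un r, (un s, (q, (S, (F0, U0)))))
  Sh3 s q.length c ∧ c.length = F0.length ∧
  (∀ (k : Type) [Field k] [Algebra F k] (ζ : k) (f g : k[X][X]), aeval ζ (mpol q) = 0 →
    f.Monic → g.Monic →
    (∀ i, ∀ κ < s, ((f * g - bcp k (mbiv S)).coeff i).coeff κ = 0) →
    f.natDegree = F0.length → g.natDegree + F0.length = S.length →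
    f.map (evalRingHom 0) = X ^ F0.length + pol (F0.map (fun v => aeval ζ (pol v))) →
    f.map (evalRingHom 0) ∣
      pol (U0.map (fun v => aeval ζ (pol v))) * g.map (evalRingHom 0) - 1 →
    ∀ i < F0.length, ∀ κ < s, (f.coeff i).coeff κ =
      aeval ζ (pol ((c.getD i []).map (fun v => v.getD κ 0)))) ∧
  w.cost () () (un r, (un s, (q, (S, (F0, U0))))) ≤
    C * ((S.length + 1) * (F0.length + 1) * ql k (s * q.length))

/-- data of a class at `t = 0`; input `(h, (h', (L, (q, j))))` -/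
def SpecBas : Prop := ∃ (w : Pr [] (.prod Po (.prod Po (.prod Po (.prod Po Un)))) (.prod Ma Ma))
    (C : ℕ),
  ∀ (F : Type) [Field F] [DecidableEq F] (j : ℕ) (h h' L q : List F), 1 ≤ j →
  1 ≤ q.length → h'.length = j * q.length → L.length = h'.length → h'.length ≤ h.length →
  let c : List (List F) × List (List F) := w.val () (h, (h', (L, (q, un j))))
  c.1.length = j ∧ Sh q.length c.1 ∧ c.2.length = j ∧ Sh q.length c.2 ∧
  (∀ (k : Type) [Field k] [IsAlgClosed k] [Algebra F k] (α : Fin (j * q.length) → k),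
    (mpol h').map (algebraMap F k) = ∏ i, (X - Polynomial.C (α i)) → Function.Injective α →
    mpol h' ∣ mpol h → Squarefree ((mpol h).map (algebraMap F k)) →
    Squarefree ((mpol q).map (algebraMap F k)) →
    (∀ i, aeval (aeval (α i) (pol L)) (mpol q) = 0) →
    (∀ ζ : k, aeval ζ (mpol q) = 0 → Nat.card {i // aeval (α i) (pol L) = ζ} = j) →
    ∀ (ζ : k) (P : k[X]), aeval ζ (mpol q) = 0 → P.Monic → P.natDegree = j →
    (∀ i, aeval (α i) (pol L) = ζ → P.eval (α i) = 0) →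
    X ^ j + pol (c.1.map (fun v => aeval ζ (pol v))) = P ∧
    ∀ g : k[X], (mpol h).map (algebraMap F k) = P * g →
      P ∣ pol (c.2.map (fun v => aeval ζ (pol v))) * g - 1) ∧
  w.cost () () (h, (h', (L, (q, un j)))) ≤ C * ((h.length + 1) ^ 2 * (h'.length + 1))

/-- the polynomial attached to the root `ζ`: monic in `x`, lower coefficients `l` -/
noncomputable def fz {F k : Type} [Field F] [Field k] [Algebra F k] (ζ : k)
    (l : List (List (List F))) : k[X][X] :=
  X ^ l.length + ∑ i ∈ Finset.range l.length, C (∑ κ ∈ Finset.range (l.length + 1),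
    C (aeval ζ (pol ((l.getD i []).map (fun v => v.getD κ 0)))) * X ^ κ) * X ^ i

/-- one class; input `(r, (S, (h, (L, (j, q)))))`, `h` is a factor of `S(x, 0)` -/
def SpecClass : Prop := ∃ (w : Pr [] (.prod Un (.prod Ma (.prod Po (.prod Po (.prod Un Po)))))
    ML) (C k : ℕ),
  ∀ (F : Type) [Field F] [DecidableEq F] (r s n j : ℕ) (S : List (List F)) (h L q : List F),
  (r = 2 ∨ r = 3) → (r : F) ≠ 0 → S.length = n → n + 1 ≤ s → Sh s S → h.length ≤ n →
  L.length = h.length → 1 ≤ j → 1 ≤ q.length → j * q.length ≤ h.length →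
  let c : List (List (List F)) := w.val () (un r, (S, (h, (L, (un j, q)))))
  Sh3 (j + 1) q.length c ∧ c.length = j ∧
  (∀ (k : Type) [Field k] [IsAlgClosed k] [Algebra F k] (φ : Fin n → PowerSeries k),
    Rts (bcp k (mbiv S)) φ → mpol h ∣ mpol (hd0 S) →
    Squarefree ((mpol q).map (algebraMap F k)) →
    (∀ ζ : k, aeval ζ (mpol q) = 0 → ∃ f : k[X][X], f.Monic ∧ f ∣ bcp k (mbiv S) ∧
      f.natDegree = j ∧ ∀ i, (ev (φ i) f = 0 ↔
        (aeval (PowerSeries.constantCoeff (φ i)) (mpol h) = 0 ∧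
          aeval (PowerSeries.constantCoeff (φ i)) (pol L) = ζ))) →
    ∀ (ζ : k) (f : k[X][X]), aeval ζ (mpol q) = 0 → f.Monic → f ∣ bcp k (mbiv S) →
      f.natDegree = j → (∀ i, (ev (φ i) f = 0 ↔
        (aeval (PowerSeries.constantCoeff (φ i)) (mpol h) = 0 ∧
          aeval (PowerSeries.constantCoeff (φ i)) (pol L) = ζ))) → fz ζ c = f) ∧
  w.cost () () (un r, (S, (h, (L, (un j, q))))) ≤
    C * (lgc (s + 1) ^ k * ((s + 1) ^ 2 * (j * q.length + 1)))

/-! ### All classes -/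

/-- complete absolute factorization of a polynomial, monic in `x`; entries `(q, (F, m))` -/
def MonAbs {F : Type} (k : Type) [Field F] [Field k] [Algebra F k] (A : List (List F))
    (out : List (List F × (List (List (List F)) × List Unit))) : Prop :=
  (∀ o ∈ out, 1 ≤ o.1.length ∧ Squarefree ((mpol o.1).map (algebraMap F k)) ∧
    1 ≤ o.2.1.length ∧ Sh3 (o.2.1.length + 1) o.1.length o.2.1 ∧ 1 ≤ o.2.2.length ∧
    ∀ ζ : k, aeval ζ (mpol o.1) = 0 → Irreducible (fz ζ o.2.1) ∧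
      TD (fz ζ o.2.1) o.2.1.length) ∧
  (out.map (fun o => (((mpol o.1).map (algebraMap F k)).roots.map
    (fun ζ => fz ζ o.2.1 ^ o.2.2.length)).prod)).prod = bcp k (mbiv A) ∧
  out.Nodup ∧
  (∀ o ∈ out, ∀ o' ∈ out, ∀ ζ ζ' : k, aeval ζ (mpol o.1) = 0 → aeval ζ' (mpol o'.1) = 0 →
    fz ζ o.2.1 = fz ζ' o'.2.1 → o = o' ∧ ζ = ζ')

/-- from a separating constant vector to the absolute factorization; input
`(r, (p, (points, (A, (S, L)))))`, `S` the radical of `A` -/
def SpecSplit : Prop := ∃ (w : Pr RT (.prod Un (.prod Un (.prod Po (.prod Ma (.prod Ma Po)))))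
    (.list (.prod Po (.prod ML Un)))) (C k : ℕ),
  ∀ (F : Type) [Field F] [DecidableEq F] (r p s d n : ℕ) (rt : F → F) (cs : List F)
  (A S : List (List F)) (L : List F), p.Prime → CharP F p → (∀ x, rt x ^ p = x) →
  (r = 2 ∨ r = 3) → (r : F) ≠ 0 → A.length = d → S.length = n → 1 ≤ n → n ≤ d →
  d + 1 ≤ s → Sh s A → Sh s S → L.length = n → d + 1 ≤ cs.length → cs.length ≤ s →
  (∀ (k : Type) [Field k] [IsAlgClosed k] [Algebra F k] (φ : Fin n → PowerSeries k),
    Rts (bcp k (mbiv S)) φ → mbiv S ∣ mbiv A → mbiv A ∣ mbiv S ^ d → cs.Nodup →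
    (∀ i i', Blk (bcp k (mbiv S)) φ i i' ↔
      aeval (PowerSeries.constantCoeff (φ i)) (pol L) =
        aeval (PowerSeries.constantCoeff (φ i')) (pol L)) →
    MonAbs k A (w.val (rt, ()) (un r, (un p, (cs, (A, (S, L))))))) ∧
  w.cost (rt, ()) ((fun _ => 1), ()) (un r, (un p, (cs, (A, (S, L))))) ≤
    C * (lgc (s + 1) ^ k * ((s + 1) ^ 3 + (s + 1) * p))

/-! ### The radical -/

/-- the radical of a bivariate polynomial by interpolation; input `(p, (points, (s, A)))` -/
def SpecRadS : Prop := ∃ (w : Pr RT (.prod Un (.prod Po (.prod Un Ma))) Ma) (C k : ℕ),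
  ∀ (F : Type) [Field F] [DecidableEq F] (p s d : ℕ) (rt : F → F) (cs : List F)
  (A : List (List F)), p.Prime → CharP F p → (∀ x, rt x ^ p = x) → A.length = d → 1 ≤ d →
  Sh s A → cs.length = d + 1 → d + 1 ≤ s →
  let S : List (List F) := w.val (rt, ()) (un p, (cs, (un s, A)))
  1 ≤ S.length ∧ S.length ≤ d ∧ Sh s S ∧
  (∀ (k : Type) [Field k] [Algebra F k] (T : k[X][X]) (N : ℕ), cs.Nodup → T.Monic →
    TD T T.natDegree → T ∣ bcp k (mbiv A) → bcp k (mbiv A) ∣ T ^ N →
    (∀ c ∈ cs, Squarefree (T.map (evalRingHom (algebraMap F k c)))) →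
    bcp k (mbiv S) = T) ∧
  w.cost (rt, ()) ((fun _ => 1), ()) (un p, (cs, (un s, A))) ≤
    C * (lgc (s + 1) ^ k * ((s + 1) ^ 3 + (s + 1) * p))

/-! ### A separating constant vector -/

/-- combination of the basis of the kernel; input
`(r, ((bits p, e), (s, (S, (G, (places, (rows of g, coefficients)))))))` -/
def SpecL : Prop := ∃ (w : Pr RT (.prod Un (.prod (.prod Po Un) (.prod Un (.prod Ma (.prod Ma
    (.prod Po (.prod Ma Po))))))) Po) (C k : ℕ),
  ∀ (F : Type) [Field F] [DecidableEq F] (p e r s n : ℕ) (rt : F → F) (S : List (List F))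
  (G : Fin n → Fin n → F) (a : Fin n → F) (g : Fin n → Fin n → F), p.Prime → CharP F p →
  (∀ x, rt x ^ p = x) → (r = 2 ∨ r = 3) → (r : F) ≠ 0 → 1 ≤ n → S.length = n → 2 * n ≤ s →
  Sh s S →
  ∃ (m : ℕ) (B : Fin m → Fin n → F), m ≤ n ∧
  (∀ c : Fin n → F, (w.val (rt, ()) (un r, ((bits F p, un e), (un s, (S, (rows G,
      (List.ofFn a, (rows g, List.ofFn c))))))) : List F) =
    List.ofFn (fun i => ∑ b : Fin m, (List.ofFn c).getD b 0 * B b i)) ∧
  (∀ (k : Type) [Field k] [Algebra F k] (φ : Fin n → PowerSeries k),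
    Rts (bcp k (mbiv S)) φ →
    GoodP s (p ^ e) (bcp k (mbiv S)) φ (fun i j => algebraMap F k (G i j))
      (fun j => algebraMap F k (a j)) (fun j i => algebraMap F k (g j i)) →
    (∀ b, Cst (bcp k (mbiv S)) φ
      (fun i => ∑ j : Fin n, algebraMap F k (B b j) * PowerSeries.constantCoeff (φ i) ^ (j : ℕ))) ∧
    ∀ i i', ¬ Blk (bcp k (mbiv S)) φ i i' → ∃ b,
      ∑ j : Fin n, algebraMap F k (B b j) * PowerSeries.constantCoeff (φ i) ^ (j : ℕ) ≠
      ∑ j : Fin n, algebraMap F k (B b j) * PowerSeries.constantCoeff (φ i') ^ (j : ℕ)) ∧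
  (∀ c : Fin n → F, w.cost (rt, ()) ((fun _ => 1), ()) (un r, ((bits F p, un e), (un s, (S,
    (rows G, (List.ofFn a, (rows g, List.ofFn c))))))) ≤
    C * ((e + 1) * lgc p * lgc (s + 1) ^ k * (s + 1) ^ 3))

/-- most combinations separate -/
def StmtSepCount : Prop := ∀ (k : Type) [Field k] (n m : ℕ) (S : k[X][X])
  (φ : Fin n → PowerSeries k) (l : Fin m → Fin n → k) (T : Finset k), m ≤ n → Rts S φ →
  (∀ b, Cst S φ (l b)) → (∀ i i', ¬ Blk S φ i i' → ∃ b, l b i ≠ l b i') →
  Nat.card {c : Fin n → T // ¬ ∀ i i', Blk S φ i i' ↔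
      (∑ b : Fin m, (List.ofFn (fun j => (c j : k))).getD b 0 * l b i =
        ∑ b : Fin m, (List.ofFn (fun j => (c j : k))).getD b 0 * l b i')} * T.card ≤
    n ^ 2 * T.card ^ n

/-! ### Back to the given coordinates -/

/-- the polynomial attached to the root `ζ` in the given coordinates -/
noncomputable def hz {F k : Type} [Field F] [Field k] [Algebra F k] (ζ : k)
    (l : List (List (List F))) : k[X][X] :=
  ∑ b ∈ Finset.range l.length, C (C (ζ ^ b)) * bcp k (hom (l.getD b []))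

/-- change of coordinates; input `(a, (b, (q, F)))` -/
def SpecBack : Prop := ∃ (w : Pr [] (.prod .fld (.prod .fld (.prod Po ML))) ML) (C : ℕ),
  ∀ (F : Type) [Field F] [DecidableEq F] (a b : F) (j : ℕ) (q : List F)
  (A : List (List (List F))), 1 ≤ j → A.length = j → 1 ≤ q.length →
  Sh3 (j + 1) q.length A →
  let c : List (List (List F)) := w.val () (a, (b, (q, A)))
  c.length = q.length ∧
  (∀ (k : Type) [Field k] [IsAlgClosed k] [Algebra F k],
    Squarefree ((mpol q).map (algebraMap F k)) →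
    (∀ ζ : k, aeval ζ (mpol q) = 0 → TD (fz ζ A) j) →
    (∀ x ∈ c, IsHom j x) ∧ ∀ ζ : k, aeval ζ (mpol q) = 0 →
      hz ζ c = sub (-(algebraMap F k a)) (-(algebraMap F k b)) (fz ζ A)) ∧
  w.cost () () (a, (b, (q, A))) ≤ C * ((q.length + 1) * ww (j + 1))

end Pool.Agent.H330AB
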