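import Pool.Agent.H330AB.SpecB2
import Pool.Agent.H330AB.FinalDefs2

set_option autoImplicit false

/-!
# Absolute factorization: assembly, exact statements
-/

namespace Pool.Agent.H330AB

open Polynomial Pool.Agent.H330FB

/-- number of random elements -/
def R2 (d : ℕ) : ℕ := 2 + ((d + 1) + (d * d + (d + (d * d + d))))

/-- the upper left corner of a square array -/
def cut2 {α : Type} {d n : ℕ} (h : n ≤ d) (G : Fin d → Fin d → α) : Fin n → Fin n → α :=
  fun i j => G (Fin.castLE h i) (Fin.castLE h j)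

/-- the first entries -/
def cut1 {α : Type} {d n : ℕ} (h : n ≤ d) (a : Fin d → α) : Fin n → α :=
  fun i => a (Fin.castLE h i)

/-- good random choices (all but the last ones) -/
def GoodF {k : Type} [Field k] (Q d : ℕ) (f : k[X][X]) (a b : k) (cs : Fin (d + 1) → k)
    (G : Fin d → Fin d → k) (as : Fin d → k) (g : Fin d → Fin d → k) : Prop :=
  CoGood a b f d ∧ Function.Injective cs ∧
  ∀ (T : k[X][X]) (n : ℕ) (h : n ≤ d), T.Monic → T.natDegree = n → TD T n → T ∣ sub a b f →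
    sub a b f ∣ T ^ d → Squarefree (T.map (evalRingHom (0 : k))) →
    (∀ j, Squarefree (T.map (evalRingHom (cs j)))) ∧
    ∃ φ : Fin n → PowerSeries k, Rts T φ ∧
      GoodP (12 * d + 20) Q T φ (cut2 h G) (cut1 h as) (cut2 h g)

/-- the random list -/
def rlist2 {K : Type} {d : ℕ} (a b : K) (cs : Fin (d + 1) → K) (G : Fin d → Fin d → K)
    (as : Fin d → K) (g : Fin d → Fin d → K) (cb : Fin d → K) : List K :=
  [a, b] ++ (List.ofFn cs ++ ((rows G).flatten ++ (List.ofFn as ++ ((rows g).flatten ++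
    List.ofFn cb))))

/-- complete absolute factorization -/
def FacAbs {K : Type} (k : Type) [Field K] [Field k] [Algebra K k] (H : List (List K))
    (out : List (List K × (List (List (List K)) × List Unit))) : Prop :=
  (∀ o ∈ out, 1 ≤ o.1.length ∧ Squarefree ((mpol o.1).map (algebraMap K k)) ∧
    o.2.1.length = o.1.length ∧ 1 ≤ o.2.2.length ∧ (∃ j, 1 ≤ j ∧ ∀ x ∈ o.2.1, IsHom j x) ∧
    ∀ ζ : k, aeval ζ (mpol o.1) = 0 → Irreducible (hz ζ o.2.1)) ∧
  (out.Nodup ∧ ∀ o ∈ out, ∀ o' ∈ out, ∀ ζ ζ' : k, aeval ζ (mpol o.1) = 0 →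
    aeval ζ' (mpol o'.1) = 0 → Associated (hz ζ o.2.1) (hz ζ' o'.2.1) → o = o' ∧ ζ = ζ') ∧
  ∃ u : k, u ≠ 0 ∧ bcp k (hom H) = C (C u) *
    (out.map (fun o => (((mpol o.1).map (algebraMap K k)).roots.map
      (fun ζ => hz ζ o.2.1 ^ o.2.2.length)).prod)).prod

/-- `SpecSplit` with the shapes of the output for all inputs -/
def SpecSplit2 : Prop := ∃ (w : Pr RT (.prod Un (.prod Un (.prod Po (.prod Ma (.prod Ma Po)))))
    (.list (.prod Po (.prod ML Un)))) (C k : ℕ),
  ∀ (F : Type) [Field F] [DecidableEq F] (r p s d n : ℕ) (rt : F → F) (cs : List F)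
  (A S : List (List F)) (L : List F), p.Prime → CharP F p → (∀ x, rt x ^ p = x) →
  (r = 2 ∨ r = 3) → (r : F) ≠ 0 → A.length = d → S.length = n → 1 ≤ n → n ≤ d →
  d + 1 ≤ s → Sh s A → Sh s S → L.length = n → d + 1 ≤ cs.length → cs.length ≤ s →
  let out : List (List F × (List (List (List F)) × List Unit)) :=
    w.val (rt, ()) (un r, (un p, (cs, (A, (S, L)))))
  (∀ (k : Type) [Field k] [IsAlgClosed k] [Algebra F k] (φ : Fin n → PowerSeries k),
    Rts (bcp k (mbiv S)) φ → mbiv S ∣ mbiv A → mbiv A ∣ mbiv S ^ d → cs.Nodup →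
    (∀ i i', Blk (bcp k (mbiv S)) φ i i' ↔
      aeval (PowerSeries.constantCoeff (φ i)) (pol L) =
        aeval (PowerSeries.constantCoeff (φ i')) (pol L)) →
    MonAbs k A out) ∧
  (∀ o ∈ out, 1 ≤ o.1.length ∧ 1 ≤ o.2.1.length ∧ Sh3 (o.2.1.length + 1) o.1.length o.2.1) ∧
  (out.map (fun o => o.1.length * o.2.1.length)).sum ≤ d ∧
  w.cost (rt, ()) ((fun _ => 1), ()) (un r, (un p, (cs, (A, (S, L))))) ≤
    C * (lgc (s + 1) ^ k * ((s + 1) ^ 3 + (s + 1) * p))

/-- the characteristic in unary; input a list of length `D`, `p ≤ D` -/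
def SpecUp : Prop := ∃ (w : Pr [] Un Un) (C : ℕ),
  ∀ (F : Type) [Field F] [DecidableEq F] (p D : ℕ), p.Prime → CharP F p →
  (p ≤ D → Pr.val (F := F) w () (un D) = un p) ∧
  Pr.cost (F := F) w () () (un D) ≤ C * (D + 1)

/-- the program for good random choices -/
def SpecFacA : Prop := ∃ (w : Pr RT (.prod Ma Po) (.list (.prod Po (.prod ML Un)))) (C k : ℕ),
  ∀ (K : Type) [Field K] [DecidableEq K] (p d : ℕ) (rt : K → K) (H : List (List K)), p.Prime →
  CharP K p → (∀ x, rt x ^ p = x) → IsHom d H → 1 ≤ d → TopNe d H → p < d ^ 2 →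
  (∀ ω : List K, w.cost (rt, ()) ((fun _ => 1), ()) (H, ω) ≤
    C * lgc (d + 1) ^ k * (d + 1) ^ 3) ∧
  ∃ e : ℕ, d ≤ p ^ e ∧ p ^ e ≤ d * p ∧
    ∀ (a b : K) (cs : Fin (d + 1) → K) (G : Fin d → Fin d → K) (as : Fin d → K)
      (g : Fin d → Fin d → K),
    ∃ Sep : (Fin d → K) → Prop,
      (∀ T : Finset K, Nat.card {c : Fin d → T // ¬ Sep (fun i => (c i : K))} * T.card ≤
        d ^ 2 * T.card ^ d) ∧
      ∀ cb : Fin d → K, Sep cb →
        GoodF (p ^ e) d (bcp (AlgebraicClosure K) (hom H))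
          (algebraMap K (AlgebraicClosure K) a) (algebraMap K (AlgebraicClosure K) b)
          (fun j => algebraMap K (AlgebraicClosure K) (cs j))
          (fun i j => algebraMap K (AlgebraicClosure K) (G i j))
          (fun j => algebraMap K (AlgebraicClosure K) (as j))
          (fun j i => algebraMap K (AlgebraicClosure K) (g j i)) →
        FacAbs (AlgebraicClosure K) H (w.val (rt, ()) (H, rlist2 a b cs G as g cb))

/-- most random choices are good -/
def StmtFacCount : Prop := ∀ (k : Type) [Field k] [IsAlgClosed k] (p : ℕ) [Fact p.Prime]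
  [CharP k p] (e d : ℕ) (H : List (List k)) (T : Finset k), IsHom d H → 1 ≤ d → TopNe d H →
  d ≤ p ^ e →
  Nat.card {x : (T × T) × ((Fin (d + 1) → T) × ((Fin d → Fin d → T) × ((Fin d → T) ×
      (Fin d → Fin d → T)))) //
      ¬ GoodF (p ^ e) d (hom H) (x.1.1 : k) (x.1.2 : k) (fun j => (x.2.1 j : k))
        (fun i j => (x.2.2.1 i j : k)) (fun j => (x.2.2.2.1 j : k))
        (fun j i => (x.2.2.2.2 j i : k))} * T.card ≤
    (2 * d ^ 2 + 3 * d + (d + 1) ^ 2 + (d + 1) * (2 * d ^ 2 + d) + 40 * d ^ 2 * p ^ e) *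
      T.card ^ (2 + ((d + 1) + (d * d + (d + d * d))))

/-- absolute factorization, in terms of lists -/
def SpecFac2 : Prop := ∃ (w : Pr RT (.prod Ma Po) (.list (.prod Po (.prod ML Un)))) (C k : ℕ),
  ∀ (K : Type) [Field K] [DecidableEq K] (p d : ℕ) (rt : K → K) (H : List (List K)), p.Prime →
  CharP K p → (∀ x, rt x ^ p = x) → IsHom d H → 1 ≤ d → TopNe d H → p < d ^ 2 →
  (∀ ω : List K, w.cost (rt, ()) ((fun _ => 1), ()) (H, ω) ≤
    C * lgc (d + 1) ^ k * (d + 1) ^ 3) ∧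
  (∀ T : Finset K, 200 * d ^ 5 ≤ T.card →
    2 * T.card ^ R2 d ≤ 3 * Nat.card {ω : Fin (R2 d) → T //
      FacAbs (AlgebraicClosure K) H
        (w.val (rt, ()) (H, List.ofFn (fun i => (ω i : K))))})

/-- absolute factorization: final statement -/
def FinalFac : Prop :=
  ∃ (main : Pr [(.fld, .fld)] (.prod (.list (.list .fld)) (.list .fld))
      (.list (.prod (.list .fld) (.prod (.list (.list (.list .fld))) (.list .unit)))))
    (C c : ℕ),
  ∀ (K : Type) [Field K] [DecidableEq K] (p d : ℕ) (root : K → K)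
    (f : MvPolynomial (Fin 2) K), p.Prime → CharP K p → (∀ x, root x ^ p = x) →
    1 ≤ d → f.totalDegree = d → p < d ^ 2 →
    (∀ ω : List K, main.cost (root, ()) ((fun _ => 1), ()) (coeffRows d f, ω) ≤
      C * d ^ 3 * (Nat.log 2 d + 1) ^ c) ∧
    (∀ T : Finset K, 200 * d ^ 5 ≤ T.card →
      2 * T.card ^ (2 * d ^ 2 + 3 * d + 3) ≤
        3 * Nat.card {ω : Fin (2 * d ^ 2 + 3 * d + 3) → T //
          IsAbsFactorization f
            (main.val (root, ()) (coeffRows d f, List.ofFn (fun i => (ω i : K))))})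

end Pool.Agent.H330AB
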